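import Pool.Agent.QS2.NodesLim

/-!
# T2, module RB1 (first part): the limit of the continued fraction of the Apéry recurrence

`rBM M w = (w+1)^3 yc M (w+1) / yc (M+1) w` converges uniformly on `re w ≥ -7/10` to `rB w`,
`‖rB w‖ ≤ 1/25`, `rB w * (pz (w+1) - (w+2)^3 rB (w+1)) = (w+1)^3`, `rB n = l_{n+1} / l_n`.
-/

set_option autoImplicit false

namespace T2

open Filter Topology Complex
open Pool.Agent.QS2 (pz yc ee yc_ne yc_ge yc_ge_far yc_step norm_ee_le yc_cas yc_zero yc_one)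

/-- convergents -/
noncomputable def rBM (M : ℕ) (w : ℂ) : ℂ := (w + 1) ^ 3 * yc M (w + 1) / yc (M + 1) w

theorem add_one_ne {w : ℂ} (hw : -(7 / 10) ≤ w.re) : w + 1 ≠ 0 := by
  intro h
  have := congrArg Complex.re h
  simp at this
  linarith

theorem norm_add_one_ge {w : ℂ} (hw : -(7 / 10) ≤ w.re) : 3 / 10 ≤ ‖w + 1‖ := by
  refine Pool.Agent.QS2.norm_ge_re _ ?_
  rw [add_re, one_re]
  linarith

theorem ee_eq (M : ℕ) (w : ℂ) : ee M w = (w + 1) ^ 3 * rBM M w := by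
  rw [ee, rBM]
  ring

theorem norm_rBM_le (M : ℕ) {w : ℂ} (hw : -(7 / 10) ≤ w.re) : ‖rBM M w‖ ≤ 1 / 25 := by
  have h := norm_ee_le M w hw
  have hn : 0 < ‖w + 1‖ ^ 3 := by
    have := norm_add_one_ge hw
    positivity
  rw [ee_eq, norm_mul, norm_pow] at h
  have h2 : ‖w + 1‖ ^ 3 * ‖rBM M w‖ ≤ ‖w + 1‖ ^ 3 * (1 / 25) := by linarith
  exact le_of_mul_le_mul_left h2 hn

/-- `r_{M+1}(w) (pz (w+1) - (w+2)^3 r_M(w+1)) = (w+1)^3` -/
theorem rBM_step (M : ℕ) {w : ℂ} (hw : -(7 / 10) ≤ w.re) :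
    rBM (M + 1) w * (pz (w + 1) - (w + 2) ^ 3 * rBM M (w + 1)) = (w + 1) ^ 3 := by
  have h1 := yc_step M w hw
  have h2 := yc_ne (M + 1) w hw
  have h3 := yc_ne M (w + 1) (by rw [add_re, one_re]; linarith)
  have e : ee M (w + 1) = (w + 2) ^ 3 * rBM M (w + 1) := by
    rw [ee_eq, show w + 1 + 1 = w + 2 by ring]
  rw [e] at h1
  rw [show M + 1 + 1 = M + 2 from rfl] at h2
  rw [rBM, show M + 1 + 1 = M + 2 from rfl, div_mul_eq_mul_div, div_eq_iff h2, h1]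
  ring

theorem rBM_diff (m : ℕ) {w : ℂ} (hw : -(7 / 10) ≤ w.re) :
    rBM (m + 1) w - rBM m w = (w + 1) ^ 3 * (∏ j ∈ Finset.range m, (w + (j + 2)) ^ 6) /
      (yc (m + 2) w * yc (m + 1) w) := by
  have h1 := yc_ne (m + 1) w hw
  have h2 := yc_ne m w hw
  rw [show m + 1 + 1 = m + 2 from rfl] at h1
  rw [← yc_cas m w, rBM, rBM, show m + 1 + 1 = m + 2 from rfl]
  field_simp

/-- uniform geometric bound -/
theorem norm_rBM_diff (m : ℕ) {w : ℂ} (hw : -(7 / 10) ≤ w.re) :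
    ‖rBM (m + 2) w - rBM (m + 1) w‖ ≤ (5 * (m + 1)) ^ 3 * (1 / 1000 : ℝ) ^ m := by
  rw [rBM_diff (m + 1) hw, norm_div, norm_mul, norm_mul, norm_prod]
  have h1 := yc_ge (m + 1) w hw
  have h2 := yc_ge m w hw
  have hn := norm_add_one_ge hw
  set P : ℝ := ∏ j ∈ Finset.range m, ‖w + (j + 2)‖ ^ 3 with hP
  have hj : ∀ j : ℕ, 0 < ‖w + (j + 2)‖ := by
    intro j
    refine lt_of_lt_of_le (by norm_num : (0 : ℝ) < 13 / 10) (Pool.Agent.QS2.norm_ge_re _ ?_)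
    simp only [add_re, natCast_re, re_ofNat]
    have : (0 : ℝ) ≤ j := Nat.cast_nonneg j
    linarith
  have hPpos : 0 < P := Finset.prod_pos fun j _ => pow_pos (hj j) 3
  have e1 : ∏ j ∈ Finset.range (m + 1), ‖w + ((j : ℂ) + 1)‖ ^ 3 = ‖w + 1‖ ^ 3 * P := by
    rw [Finset.prod_range_succ', hP, mul_comm]
    congr 1
    · simp
    · refine Finset.prod_congr rfl fun j _ => ?_
      congr 2
      push_cast
      ring
  have e2 : ∏ j ∈ Finset.range (m + 1 + 1), ‖w + ((j : ℂ) + 1)‖ ^ 3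
      = ‖w + 1‖ ^ 3 * (P * ‖w + (m + 2)‖ ^ 3) := by
    rw [Finset.prod_range_succ, e1]
    have : w + (((m + 1 : ℕ) : ℂ) + 1) = w + (m + 2) := by push_cast; ring
    rw [this]
    ring
  have e3 : ∏ j ∈ Finset.range (m + 1), ‖(w + ((j : ℂ) + 2)) ^ 6‖
      = P ^ 2 * ‖w + (m + 2)‖ ^ 6 := by
    rw [Finset.prod_range_succ, hP, ← Finset.prod_pow]
    congr 1
    · refine Finset.prod_congr rfl fun j _ => ?_
      rw [norm_pow]
      ring
    · rw [norm_pow]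
  rw [e2] at h1
  rw [e1] at h2
  rw [e3, norm_pow]
  have hN : 0 < ‖w + 1‖ := by linarith
  have hm := hj m
  have hY1 : 0 < ‖yc (m + 1 + 2) w‖ := norm_pos_iff.2 (yc_ne (m + 2) w hw)
  have hY2 : 0 < ‖yc (m + 1 + 1) w‖ := norm_pos_iff.2 (yc_ne (m + 1) w hw)
  rw [div_le_iff₀ (mul_pos hY1 hY2)]
  have hprod : (25 * 33.7 ^ (m + 1) * (‖w + 1‖ ^ 3 * (P * ‖w + (m + 2)‖ ^ 3))) *
      (25 * 33.7 ^ m * (‖w + 1‖ ^ 3 * P)) ≤ ‖yc (m + 1 + 2) w‖ * ‖yc (m + 1 + 1) w‖ :=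
    mul_le_mul h1 h2 (by positivity) (norm_nonneg _)
  refine le_trans ?_ (mul_le_mul_of_nonneg_left hprod (by positivity))
  -- compare `‖w+m+2‖^3` with `‖w+1‖^3`
  have hcmp : ‖w + (m + 2)‖ ≤ (5 * ((m : ℝ) + 1)) * ‖w + 1‖ := by
    have h3 : w + (m + 2) = (w + 1) + ((m : ℂ) + 1) := by ring
    have h4 : ‖((m : ℂ) + 1)‖ = (m : ℝ) + 1 := by
      have : ((m : ℂ) + 1) = ((m + 1 : ℕ) : ℂ) := by push_cast; ring
      rw [this, Complex.norm_natCast]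
      push_cast
      ring
    have h5 : ‖w + (m + 2)‖ ≤ ‖w + 1‖ + ((m : ℝ) + 1) := by
      rw [h3]
      exact (norm_add_le _ _).trans (by rw [h4])
    have h6 : (0 : ℝ) ≤ m := Nat.cast_nonneg m
    nlinarith
  have hcmp3 : ‖w + (m + 2)‖ ^ 3 ≤ (5 * ((m : ℝ) + 1)) ^ 3 * ‖w + 1‖ ^ 3 := by
    rw [← mul_pow]
    exact pow_le_pow_left₀ hm.le hcmp 3
  have hpow : (1 : ℝ) ≤ (1 / 1000) ^ m * (33.7 ^ (m + 1) * 33.7 ^ m * 625) := by
    have : (1 / 1000 : ℝ) ^ m * (33.7 ^ (m + 1) * 33.7 ^ m * 625)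
        = (33.7 ^ 2 / 1000) ^ m * (33.7 * 625) := by
      rw [div_pow, div_pow, pow_succ, ← pow_mul, mul_comm 2 m, pow_mul, one_pow]
      ring
    rw [this]
    have h7 : (1 : ℝ) ≤ (33.7 ^ 2 / 1000) ^ m := one_le_pow₀ (by norm_num)
    nlinarith
  calc ‖w + 1‖ ^ 3 * (P ^ 2 * ‖w + (m + 2)‖ ^ 6)
      = (‖w + 1‖ ^ 3 * P ^ 2 * ‖w + (m + 2)‖ ^ 3) * ‖w + (m + 2)‖ ^ 3 := by ring
    _ ≤ (‖w + 1‖ ^ 3 * P ^ 2 * ‖w + (m + 2)‖ ^ 3) * ((5 * ((m : ℝ) + 1)) ^ 3 * ‖w + 1‖ ^ 3) :=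
        mul_le_mul_of_nonneg_left hcmp3 (by positivity)
    _ = ((5 * ((m : ℝ) + 1)) ^ 3 * (‖w + 1‖ ^ 6 * P ^ 2 * ‖w + (m + 2)‖ ^ 3)) * 1 := by ring
    _ ≤ ((5 * ((m : ℝ) + 1)) ^ 3 * (‖w + 1‖ ^ 6 * P ^ 2 * ‖w + (m + 2)‖ ^ 3)) *
          ((1 / 1000) ^ m * (33.7 ^ (m + 1) * 33.7 ^ m * 625)) :=
        mul_le_mul_of_nonneg_left hpow (by positivity)
    _ = _ := by ring

/-- the summable majorant -/
noncomputable def uB (m : ℕ) : ℝ := (5 * (m + 1)) ^ 3 * (1 / 1000 : ℝ) ^ m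

theorem summable_uB : Summable uB := by
  have h : Summable fun m : ℕ => ((m : ℝ)) ^ 3 * (1 / 1000 : ℝ) ^ m :=
    summable_pow_mul_geometric_of_norm_lt_one 3 (by norm_num)
  have h2 : Summable fun m : ℕ => (((m + 1 : ℕ) : ℝ)) ^ 3 * (1 / 1000 : ℝ) ^ (m + 1) :=
    (summable_nat_add_iff 1).2 h
  refine (h2.mul_left (125 * 1000)).congr fun m => ?_
  unfold uB
  push_cast
  rw [pow_succ]
  ring

/-- the limit of the convergents -/
noncomputable def rB (w : ℂ) : ℂ := rBM 1 w + ∑' m : ℕ, (rBM (m + 2) w - rBM (m + 1) w)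

theorem tendsto_rB {w : ℂ} (hw : -(7 / 10) ≤ w.re) :
    Tendsto (fun M => rBM M w) atTop (𝓝 (rB w)) := by
  have hs : Summable fun m : ℕ => rBM (m + 2) w - rBM (m + 1) w :=
    Summable.of_norm_bounded summable_uB fun m => norm_rBM_diff m hw
  have h := hs.hasSum.tendsto_sum_nat
  have e : ∀ n : ℕ, ∑ m ∈ Finset.range n, (rBM (m + 2) w - rBM (m + 1) w)
      = rBM (n + 1) w - rBM 1 w := fun n =>
    Finset.sum_range_sub (fun m => rBM (m + 1) w) n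
  simp only [e] at h
  have h2 := h.const_add (rBM 1 w)
  simp only [add_sub_cancel] at h2
  exact (tendsto_add_atTop_iff_nat 1).1 h2

theorem continuous_yc (M : ℕ) : Continuous fun w : ℂ => yc M w := by
  have key : ∀ M, (Continuous fun w : ℂ => yc M w) ∧ (Continuous fun w : ℂ => yc (M + 1) w) := by
    intro M
    induction M with
    | zero =>
      refine ⟨?_, ?_⟩
      · simp only [yc_zero]
        exact continuous_const
      · simp only [zero_add, yc_one]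
        exact continuous_const
    | succ M ih =>
      refine ⟨ih.2, ?_⟩
      rw [show M + 1 + 1 = M + 2 from rfl]
      simp only [Pool.Agent.QS2.yc_left]
      have h1 : Continuous fun w : ℂ => yc (M + 1) (w + 1) :=
        ih.2.comp (continuous_id.add continuous_const)
      have h2 : Continuous fun w : ℂ => yc M (w + 2) :=
        ih.1.comp (continuous_id.add continuous_const)
      have h3 : Continuous fun w : ℂ => pz (w + 1) := by
        unfold pz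
        fun_prop
      exact (h3.mul h1).sub (((continuous_id.add continuous_const).pow 6).mul h2)
  exact (key M).1

theorem continuousOn_rBM (M : ℕ) : ContinuousOn (rBM M) {w : ℂ | -(7 / 10) ≤ w.re} := by
  unfold rBM
  refine ContinuousOn.div ?_ (continuous_yc _).continuousOn fun w hw => yc_ne M w hw
  have h1 : Continuous fun w : ℂ => yc M (w + 1) :=
    (continuous_yc M).comp (continuous_id.add continuous_const)
  exact (((continuous_id.add continuous_const).pow 3).mul h1).continuousOn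

theorem rB_continuousOn : ContinuousOn rB {w : ℂ | -(7 / 10) ≤ w.re} := by
  unfold rB
  refine (continuousOn_rBM 1).add ?_
  refine continuousOn_tsum (u := uB) (fun m => ?_) summable_uB fun m w hw => norm_rBM_diff m hw
  exact (continuousOn_rBM (m + 2)).sub (continuousOn_rBM (m + 1))

theorem norm_rB_le {w : ℂ} (hw : -(7 / 10) ≤ w.re) : ‖rB w‖ ≤ 1 / 25 :=
  le_of_tendsto (tendsto_rB hw).norm (Eventually.of_forall fun M => norm_rBM_le M hw)

theorem rB_eq {w : ℂ} (hw : -(7 / 10) ≤ w.re) :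
    rB w * (pz (w + 1) - (w + 2) ^ 3 * rB (w + 1)) = (w + 1) ^ 3 := by
  have hw1 : -(7 / 10) ≤ (w + 1).re := by rw [add_re, one_re]; linarith
  have h1 : Tendsto (fun M => rBM (M + 1) w) atTop (𝓝 (rB w)) :=
    (tendsto_add_atTop_iff_nat 1).2 (tendsto_rB hw)
  have h2 := (((tendsto_rB hw1).const_mul ((w + 2) ^ 3)).const_sub (pz (w + 1)))
  have h3 := h1.mul h2
  have h4 : Tendsto (fun M => rBM (M + 1) w * (pz (w + 1) - (w + 2) ^ 3 * rBM M (w + 1))) atTop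
      (𝓝 ((w + 1) ^ 3)) := by
    simp only [rBM_step _ hw]
    exact tendsto_const_nhds
  exact tendsto_nhds_unique h3 h4

theorem rB_ne {w : ℂ} (hw : -(7 / 10) ≤ w.re) : rB w ≠ 0 := by
  intro h
  have := rB_eq hw
  rw [h, zero_mul] at this
  exact pow_ne_zero 3 (add_one_ne hw) this.symm

theorem yc_conj (M : ℕ) : ∀ w : ℂ, yc M ((starRingEnd ℂ) w) = (starRingEnd ℂ) (yc M w) := by
  have key : ∀ M, (∀ w : ℂ, yc M ((starRingEnd ℂ) w) = (starRingEnd ℂ) (yc M w)) ∧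
      (∀ w : ℂ, yc (M + 1) ((starRingEnd ℂ) w) = (starRingEnd ℂ) (yc (M + 1) w)) := by
    intro M
    induction M with
    | zero => exact ⟨fun w => by simp, fun w => by simp⟩
    | succ M ih =>
      refine ⟨ih.2, fun w => ?_⟩
      rw [show M + 1 + 1 = M + 2 from rfl, Pool.Agent.QS2.yc_left, Pool.Agent.QS2.yc_left]
      have h1 : (starRingEnd ℂ) w + 1 = (starRingEnd ℂ) (w + 1) := by rw [map_add, map_one]
      have h2 : (starRingEnd ℂ) w + 2 = (starRingEnd ℂ) (w + 2) := by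
        rw [map_add]; congr 1; exact (map_ofNat (starRingEnd ℂ) 2).symm
      rw [h1, h2, ih.2, ih.1, map_sub, map_mul, map_mul, map_pow]
      congr 2
      unfold pz
      simp only [map_add, map_mul, map_pow, map_one, map_ofNat]
  exact (key M).1

theorem rBM_conj (M : ℕ) (w : ℂ) : rBM M ((starRingEnd ℂ) w) = (starRingEnd ℂ) (rBM M w) := by
  have h1 : (starRingEnd ℂ) w + 1 = (starRingEnd ℂ) (w + 1) := by rw [map_add, map_one]
  rw [rBM, rBM, h1, yc_conj, yc_conj, map_div₀, map_mul, map_pow]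

theorem rB_conj (w : ℂ) : rB ((starRingEnd ℂ) w) = (starRingEnd ℂ) (rB w) := by
  unfold rB
  rw [map_add, Complex.conj_tsum]
  simp only [rBM_conj, map_sub]

theorem rB_nat (n : ℕ) : rB n = ((QS2.lrem (n + 1) / QS2.lrem n : ℝ) : ℂ) := by
  have hw : -(7 / 10) ≤ ((n : ℂ)).re := by
    rw [natCast_re]
    have : (0 : ℝ) ≤ n := Nat.cast_nonneg n
    linarith
  exact tendsto_nhds_unique (tendsto_rB hw) (Pool.Agent.QS2.right_lim n)

theorem norm_rBM_mid (m : ℕ) {w : ℂ} (hw : 3 / 10 ≤ w.re) : ‖rBM (m + 1) w‖ ≤ 1 / 33.7 := by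
  have hw' : -(7 / 10) ≤ w.re := by linarith
  have h := rBM_step m hw'
  have h1 := Pool.Agent.QS2.step_ge m (w + 1) (by rw [add_re, one_re]; linarith)
  have e : ee m (w + 1) = (w + 2) ^ 3 * rBM m (w + 1) := by
    rw [ee_eq, show w + 1 + 1 = w + 2 by ring]
  rw [e] at h1
  have hn := norm_add_one_ge hw'
  have hpos : 0 < ‖w + 1‖ ^ 3 := by positivity
  have h2 := congrArg norm h
  rw [norm_mul, norm_pow] at h2
  have h3 : ‖rBM (m + 1) w‖ * (33.7 * ‖w + 1‖ ^ 3) ≤ ‖w + 1‖ ^ 3 :=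
    (mul_le_mul_of_nonneg_left h1 (norm_nonneg _)).trans h2.le
  rw [le_div_iff₀ (by norm_num)]
  have h4 : ‖rBM (m + 1) w‖ * 33.7 * ‖w + 1‖ ^ 3 ≤ 1 * ‖w + 1‖ ^ 3 := by linarith
  exact le_of_mul_le_mul_right h4 hpos

theorem norm_rB_mid {w : ℂ} (hw : 3 / 10 ≤ w.re) : ‖rB w‖ ≤ 1 / 33.7 :=
  le_of_tendsto ((tendsto_add_atTop_iff_nat 1).2 (tendsto_rB (by linarith : -(7 / 10) ≤ w.re))).norm
    (Eventually.of_forall fun m => norm_rBM_mid m hw)

theorem norm_rB_far {w : ℂ} (hw : 100 ≤ w.re) : ‖rB w‖ ≤ 1 / 33.96 := by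
  have hw' : -(7 / 10) ≤ w.re := by linarith
  have h := rB_eq hw'
  have hr := norm_rB_mid (w := w + 1) (by rw [add_re, one_re]; linarith)
  have hn : (101 : ℝ) ≤ ‖w + 1‖ := by
    refine Pool.Agent.QS2.norm_ge_re _ ?_
    rw [add_re, one_re]
    linarith
  have hP := Pool.Agent.QS2.norm_pz_ge (w + 1) (by rw [add_re, one_re]; linarith)
  have h2 : ‖w + 2‖ ≤ (102 / 101) * ‖w + 1‖ := by
    have h3 : ‖w + 2‖ ≤ ‖w + 1‖ + 1 := by
      have := norm_add_le (w + 1) 1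
      rw [norm_one] at this
      rwa [show w + 1 + 1 = w + 2 by ring] at this
    linarith
  have h3 : ‖w + 2‖ ^ 3 ≤ (102 / 101) ^ 3 * ‖w + 1‖ ^ 3 := by
    rw [← mul_pow]
    exact pow_le_pow_left₀ (norm_nonneg _) h2 3
  have hpos : 0 < ‖w + 1‖ ^ 3 := by positivity
  have h4 : ‖(w + 2) ^ 3 * rB (w + 1)‖ ≤ 0.04 * ‖w + 1‖ ^ 3 := by
    rw [norm_mul, norm_pow]
    calc _ ≤ ((102 / 101) ^ 3 * ‖w + 1‖ ^ 3) * (1 / 33.7) :=
          mul_le_mul h3 hr (norm_nonneg _) (by positivity)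
      _ = ((102 / 101) ^ 3 * (1 / 33.7)) * ‖w + 1‖ ^ 3 := by ring
      _ ≤ _ := mul_le_mul_of_nonneg_right (by norm_num) hpos.le
  have h5 : 33.96 * ‖w + 1‖ ^ 3 ≤ ‖pz (w + 1) - (w + 2) ^ 3 * rB (w + 1)‖ := by
    have := norm_sub_norm_le (pz (w + 1)) ((w + 2) ^ 3 * rB (w + 1))
    linarith
  have h6 := congrArg norm h
  rw [norm_mul, norm_pow] at h6
  have h7 : ‖rB w‖ * (33.96 * ‖w + 1‖ ^ 3) ≤ ‖w + 1‖ ^ 3 :=
    (mul_le_mul_of_nonneg_left h5 (norm_nonneg _)).trans h6.le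
  rw [le_div_iff₀ (by norm_num)]
  have h8 : ‖rB w‖ * 33.96 * ‖w + 1‖ ^ 3 ≤ 1 * ‖w + 1‖ ^ 3 := by linarith
  exact le_of_mul_le_mul_right h8 hpos

end T2
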