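import Pool.Agent.T2.Bound

/-!
# T2, module RB1 (second part): the two-sided decaying solution

`tB k = -1/2 + k + i ν`, `vB : ℤ → ℂ`, `vB 0 = 1`, `vB (-k) = conj (vB k)`,
`(tB k + 1)^3 vB (k+1) - pz (tB k) vB k + (tB k)^3 vB (k-1) = 0` for all `k : ℤ`.
-/

set_option autoImplicit false

namespace T2

open Filter Topology Complex
open Pool.Agent.QS2 (pz)

/-- the matching function -/
noncomputable def GB (y : ℝ) : ℝ :=
  ((1 / 2 + y * I) ^ 3 * rB (-(1 / 2) + y * I)).im - y * (3 / 4 - 17 * y ^ 2)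

theorem continuous_GB : Continuous GB := by
  unfold GB
  have h1 : Continuous fun y : ℝ => rB (-(1 / 2) + y * I) := by
    refine rB_continuousOn.comp_continuous (by fun_prop) fun y => ?_
    simp only [Set.mem_ofPred_eq, add_re, neg_re, mul_re, ofReal_re, ofReal_im, I_re, I_im]
    norm_num
  have h2 : Continuous fun y : ℝ => ((1 / 2 + y * I) ^ 3 * rB (-(1 / 2) + y * I)) := by
    refine Continuous.mul ?_ h1
    fun_prop
  refine Continuous.sub (Complex.continuous_im.comp h2) ?_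
  fun_prop

theorem GB_term {y : ℝ} (h0 : 0 ≤ y) (h1 : y ≤ 11 / 50) :
    |((1 / 2 + y * I) ^ 3 * rB (-(1 / 2) + y * I)).im| ≤ 7 / 1000 := by
  refine (Complex.abs_im_le_norm _).trans ?_
  rw [norm_mul, norm_pow]
  have hr : ‖rB (-(1 / 2) + y * I)‖ ≤ 1 / 25 := by
    refine norm_rB_le ?_
    simp
    norm_num
  have hn : ‖(1 / 2 + y * I : ℂ)‖ ≤ 55 / 100 := by
    have h : ‖(1 / 2 + y * I : ℂ)‖ ^ 2 ≤ (55 / 100) ^ 2 := by
      rw [Complex.sq_norm, Complex.normSq_apply]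
      simp
      nlinarith
    exact le_of_sq_le_sq h (by norm_num)
  calc ‖(1 / 2 + y * I : ℂ)‖ ^ 3 * ‖rB (-(1 / 2) + y * I)‖ ≤ (55 / 100) ^ 3 * (1 / 25) :=
        mul_le_mul (pow_le_pow_left₀ (norm_nonneg _) hn 3) hr (norm_nonneg _) (by positivity)
    _ ≤ 7 / 1000 := by norm_num

theorem exists_nuB : ∃ y : ℝ, 1 / 5 ≤ y ∧ y ≤ 11 / 50 ∧ GB y = 0 := by
  have ha : GB (1 / 5) ≤ 0 := by
    have h := abs_le.1 (GB_term (y := 1 / 5) (by norm_num) (by norm_num))
    unfold GB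
    norm_num at h ⊢
    linarith [h.2]
  have hb : 0 ≤ GB (11 / 50) := by
    have h := abs_le.1 (GB_term (y := 11 / 50) (by norm_num) (by norm_num))
    unfold GB
    norm_num at h ⊢
    linarith [h.1]
  have h := intermediate_value_Icc (by norm_num : (1 / 5 : ℝ) ≤ 11 / 50) continuous_GB.continuousOn
  obtain ⟨y, hy, h0⟩ := h ⟨ha, hb⟩
  exact ⟨y, hy.1, hy.2, h0⟩

/-- the height of the orbit -/
noncomputable def nuB : ℝ := exists_nuB.choose

theorem nuB_ge : 1 / 5 ≤ nuB := exists_nuB.choose_spec.1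
theorem nuB_le : nuB ≤ 11 / 50 := exists_nuB.choose_spec.2.1
theorem GB_nuB : GB nuB = 0 := exists_nuB.choose_spec.2.2
theorem nuB_pos : 0 < nuB := lt_of_lt_of_le (by norm_num) nuB_ge

/-- the orbit points -/
noncomputable def tB (k : ℤ) : ℂ := -(1 / 2) + k + nuB * I

theorem tB_re (k : ℤ) : (tB k).re = -(1 / 2) + k := by simp [tB]
theorem tB_im (k : ℤ) : (tB k).im = nuB := by simp [tB]
theorem tB_succ (k : ℤ) : tB (k + 1) = tB k + 1 := by
  unfold tB
  push_cast
  ring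

theorem tB_neg (k : ℤ) : tB (-k) = -1 - (starRingEnd ℂ) (tB k) := by
  apply Complex.ext
  · rw [sub_re, neg_re, one_re, conj_re, tB_re, tB_re]
    push_cast
    ring
  · rw [sub_im, neg_im, one_im, conj_im, tB_im, tB_im]
    ring

/-- the solution on the right half -/
noncomputable def vN : ℕ → ℂ
  | 0 => 1
  | (k + 1) => rB (tB k) * vN k

/-- the two-sided solution -/
noncomputable def vB : ℤ → ℂ
  | Int.ofNat k => vN k
  | Int.negSucc k => (starRingEnd ℂ) (vN (k + 1))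

theorem vB_natCast (k : ℕ) : vB (k : ℤ) = vN k := rfl

theorem vB_zero : vB 0 = 1 := rfl

theorem vB_neg_nat (k : ℕ) : vB (-(k : ℤ)) = (starRingEnd ℂ) (vN k) := by
  cases k with
  | zero =>
    change vN 0 = (starRingEnd ℂ) (vN 0)
    rw [vN, map_one]
  | succ k => rfl

theorem vB_neg (k : ℤ) : vB (-k) = (starRingEnd ℂ) (vB k) := by
  rcases Int.eq_nat_or_neg k with ⟨n, rfl | rfl⟩
  · rw [vB_neg_nat, vB_natCast]
  · rw [neg_neg, vB_neg_nat, vB_natCast, Complex.conj_conj]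

theorem tB_nat_re (k : ℕ) : -(7 / 10) ≤ (tB (k : ℤ)).re := by
  rw [tB_re]
  push_cast
  have : (0 : ℝ) ≤ k := Nat.cast_nonneg k
  linarith

theorem vB_succ (k : ℕ) : vB ((k : ℤ) + 1) = rB (tB k) * vB k := by
  have : ((k : ℤ) + 1) = ((k + 1 : ℕ) : ℤ) := by push_cast; ring
  rw [this, vB_natCast, vB_natCast, vN]

theorem vN_ne (k : ℕ) : vN k ≠ 0 := by
  induction k with
  | zero => rw [vN]; exact one_ne_zero
  | succ k ih =>
    rw [vN]
    exact mul_ne_zero (rB_ne (tB_nat_re k)) ih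

theorem vB_ne (k : ℤ) : vB k ≠ 0 := by
  rcases Int.eq_nat_or_neg k with ⟨n, rfl | rfl⟩
  · exact vN_ne n
  · rw [vB_neg_nat]
    exact (map_ne_zero _).2 (vN_ne n)

/-- recurrence on the right -/
theorem vB_rec_pos (k : ℕ) : (tB ((k : ℤ) + 1) + 1) ^ 3 * vB ((k : ℤ) + 1 + 1)
    - pz (tB ((k : ℤ) + 1)) * vB ((k : ℤ) + 1) + (tB ((k : ℤ) + 1)) ^ 3 * vB ((k : ℤ) + 1 - 1)
      = 0 := by
  have h1 : vB ((k : ℤ) + 1 + 1) = rB (tB ((k : ℤ) + 1)) * vB ((k : ℤ) + 1) := by
    have := vB_succ (k + 1)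
    push_cast at this
    exact this
  have h0 := vB_succ k
  have h := rB_eq (tB_nat_re k)
  rw [show (k : ℤ) + 1 - 1 = k by ring, h1, h0, tB_succ]
  rw [show tB k + 1 + 1 = tB k + 2 by ring]
  linear_combination (-vB (k : ℤ)) * h

/-- matching at `0` -/
theorem vB_rec_zero : (tB 0 + 1) ^ 3 * vB (0 + 1) - pz (tB 0) * vB 0 + (tB 0) ^ 3 * vB (0 - 1)
    = 0 := by
  have h1 : vB (0 + 1) = rB (tB 0) := by
    have := vB_succ 0
    simp only [Nat.cast_zero] at this
    rw [this, vB_zero, mul_one]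
  have h2 : vB (0 - 1) = (starRingEnd ℂ) (rB (tB 0)) := by
    have : vB (0 - 1) = vB (-(0 + 1)) := by norm_num
    rw [this, vB_neg, h1]
  have ht : tB 0 = -(1 / 2) + nuB * I := by simp [tB]
  have ht1 : tB 0 + 1 = 1 / 2 + nuB * I := by rw [ht]; ring
  have hc : tB 0 = -(starRingEnd ℂ) (tB 0 + 1) := by
    rw [ht1, ht]
    apply Complex.ext <;> simp
  have hG := GB_nuB
  unfold GB at hG
  rw [← ht1, ← ht] at hG
  rw [h1, h2, vB_zero, mul_one]
  have e3 : (tB 0) ^ 3 * (starRingEnd ℂ) (rB (tB 0))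
      = -(starRingEnd ℂ) ((tB 0 + 1) ^ 3 * rB (tB 0)) := by
    rw [map_mul, map_pow]
    have : (tB 0) ^ 3 = -((starRingEnd ℂ) (tB 0 + 1)) ^ 3 := by
      conv_lhs => rw [hc]
      ring
    rw [this]
    ring
  rw [e3]
  set Z : ℂ := (tB 0 + 1) ^ 3 * rB (tB 0) with hZ
  have hsub : Z - (starRingEnd ℂ) Z = 2 * Z.im * I := by
    apply Complex.ext <;> simp <;> ring
  have hpz : pz (tB 0) = 2 * ((nuB * (3 / 4 - 17 * nuB ^ 2) : ℝ) : ℂ) * I := by
    rw [ht]
    unfold pz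
    push_cast
    have hI3 : (I : ℂ) ^ 3 = -I := by rw [pow_succ, I_sq]; ring
    ring_nf
    rw [hI3]
    ring
  have hGz : Z.im = nuB * (3 / 4 - 17 * nuB ^ 2) := by linarith
  rw [hpz, ← hGz]
  linear_combination hsub

/-- **the recurrence holds at every `k : ℤ`** -/
theorem vB_rec (k : ℤ) : (tB k + 1) ^ 3 * vB (k + 1) - pz (tB k) * vB k
    + (tB k) ^ 3 * vB (k - 1) = 0 := by
  have hpos : ∀ n : ℕ, (tB n + 1) ^ 3 * vB ((n : ℤ) + 1) - pz (tB n) * vB n
      + (tB n) ^ 3 * vB ((n : ℤ) - 1) = 0 := by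
    intro n
    cases n with
    | zero => exact vB_rec_zero
    | succ n =>
      have := vB_rec_pos n
      push_cast
      exact this
  rcases Int.eq_nat_or_neg k with ⟨n, rfl | rfl⟩
  · exact hpos n
  · have h := congrArg (starRingEnd ℂ) (hpos n)
    rw [map_zero, map_add, map_sub, map_mul, map_mul, map_mul, map_pow, map_pow] at h
    have e1 : vB (-(n : ℤ) + 1) = (starRingEnd ℂ) (vB ((n : ℤ) - 1)) := by
      rw [← vB_neg]; congr 1; ring
    have e2 : vB (-(n : ℤ) - 1) = (starRingEnd ℂ) (vB ((n : ℤ) + 1)) := by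
      rw [← vB_neg]; congr 1; ring
    have e3 : (starRingEnd ℂ) (pz (tB n)) = pz ((starRingEnd ℂ) (tB n)) := by
      unfold pz
      simp only [map_add, map_mul, map_pow, map_ofNat]
    have e4 : (starRingEnd ℂ) (tB n + 1) = (starRingEnd ℂ) (tB n) + 1 := by rw [map_add, map_one]
    rw [e3, e4] at h
    rw [e1, e2, vB_neg, tB_neg, Pool.Agent.QS2.pz_refl]
    linear_combination -h

/-! ### decay -/

theorem norm_vN_le (k : ℕ) : ‖vN (k + 101)‖ ≤ (1 / 33.96) ^ k := by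
  have h1 : ∀ k, ‖vN k‖ ≤ 1 := by
    intro k
    induction k with
    | zero => rw [vN, norm_one]
    | succ k ih =>
      rw [vN, norm_mul]
      have := norm_rB_le (tB_nat_re k)
      calc ‖rB (tB k)‖ * ‖vN k‖ ≤ 1 * 1 :=
            mul_le_mul (this.trans (by norm_num)) ih (norm_nonneg _) zero_le_one
        _ = 1 := one_mul 1
  induction k with
  | zero =>
    rw [pow_zero]
    exact h1 _
  | succ k ih =>
    rw [show k + 1 + 101 = (k + 101) + 1 by ring, vN, norm_mul, pow_succ, mul_comm]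
    refine mul_le_mul ih (norm_rB_far ?_) (norm_nonneg _) (by positivity)
    rw [tB_re]
    push_cast
    have : (0 : ℝ) ≤ k := Nat.cast_nonneg k
    linarith

theorem norm_vN_le' (k : ℕ) : ‖vN k‖ ≤ 33.96 ^ 101 * (1 / 33.96) ^ k := by
  have h1 : ∀ k, ‖vN k‖ ≤ 1 := by
    intro k
    induction k with
    | zero => rw [vN, norm_one]
    | succ k ih =>
      rw [vN, norm_mul]
      have := norm_rB_le (tB_nat_re k)
      calc ‖rB (tB k)‖ * ‖vN k‖ ≤ 1 * 1 :=
            mul_le_mul (this.trans (by norm_num)) ih (norm_nonneg _) zero_le_one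
        _ = 1 := one_mul 1
  rcases le_or_gt 101 k with h | h
  · obtain ⟨m, rfl⟩ := Nat.exists_eq_add_of_le h
    have h2 := norm_vN_le m
    rw [add_comm m 101] at h2
    refine h2.trans (le_of_eq ?_)
    rw [pow_add, ← mul_assoc, ← mul_pow]
    norm_num
  · refine (h1 k).trans ?_
    have h3 : (1 / 33.96 : ℝ) ^ 101 ≤ (1 / 33.96) ^ k :=
      pow_le_pow_of_le_one (by norm_num) (by norm_num) h.le
    calc (1 : ℝ) = 33.96 ^ 101 * (1 / 33.96) ^ 101 := by rw [← mul_pow]; norm_num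
      _ ≤ _ := mul_le_mul_of_nonneg_left h3 (by positivity)

/-- **two-sided decay** -/
theorem norm_vB_le (k : ℤ) : ‖vB k‖ ≤ 33.96 ^ 101 * (1 / 33.96) ^ k.natAbs := by
  rcases Int.eq_nat_or_neg k with ⟨n, rfl | rfl⟩
  · rw [Int.natAbs_natCast]
    exact norm_vN_le' n
  · rw [vB_neg_nat, RCLike.norm_conj, Int.natAbs_neg, Int.natAbs_natCast]
    exact norm_vN_le' n

theorem norm_vB_le_one (k : ℤ) : ‖vB k‖ ≤ (1 / 25) ^ k.natAbs := by
  have h1 : ∀ k, ‖vN k‖ ≤ (1 / 25) ^ k := by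
    intro k
    induction k with
    | zero => rw [vN, norm_one, pow_zero]
    | succ k ih =>
      rw [vN, norm_mul, pow_succ, mul_comm]
      exact mul_le_mul ih (norm_rB_le (tB_nat_re k)) (norm_nonneg _) (by positivity)
  rcases Int.eq_nat_or_neg k with ⟨n, rfl | rfl⟩
  · rw [Int.natAbs_natCast]
    exact h1 n
  · rw [vB_neg_nat, RCLike.norm_conj, Int.natAbs_neg, Int.natAbs_natCast]
    exact h1 n

/-- the same decay for `l_n` -/
theorem lrem_le (n : ℕ) : QS2.lrem n ≤ 33.96 ^ 101 * (1 / 33.96) ^ n * QS2.lrem 0 := by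
  have hpos := Pool.Agent.QS2.yc_nat_ne
  have hl : ∀ n, 0 < QS2.lrem n := QS2.lrem_pos'
  have hratio : ∀ n : ℕ, QS2.lrem (n + 1) = (QS2.lrem (n + 1) / QS2.lrem n) * QS2.lrem n := fun n => by
    rw [div_mul_cancel₀]
    exact (hl n).ne'
  have hnorm : ∀ n : ℕ, QS2.lrem (n + 1) / QS2.lrem n = ‖rB n‖ := by
    intro n
    rw [rB_nat, Complex.norm_real, Real.norm_eq_abs, abs_of_pos (div_pos (hl _) (hl _))]
  have hre : ∀ n : ℕ, -(7 / 10) ≤ ((n : ℂ)).re := by
    intro n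
    rw [natCast_re]
    have : (0 : ℝ) ≤ n := Nat.cast_nonneg n
    linarith
  have h1 : ∀ n, QS2.lrem n ≤ QS2.lrem 0 := by
    intro n
    induction n with
    | zero => exact le_rfl
    | succ n ih =>
      rw [hratio n, hnorm n]
      have h3 := norm_rB_le (hre n)
      calc ‖rB n‖ * QS2.lrem n ≤ 1 * QS2.lrem n :=
            mul_le_mul_of_nonneg_right (h3.trans (by norm_num)) (hl n).le
        _ ≤ _ := by rw [one_mul]; exact ih
  have h2 : ∀ k, QS2.lrem (k + 101) ≤ (1 / 33.96) ^ k * QS2.lrem 0 := by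
    intro k
    induction k with
    | zero => rw [pow_zero, one_mul]; exact h1 _
    | succ k ih =>
      rw [show k + 1 + 101 = (k + 101) + 1 by ring, hratio (k + 101), hnorm (k + 101), pow_succ,
        mul_comm ((1 / 33.96 : ℝ) ^ k), mul_assoc]
      refine mul_le_mul (norm_rB_far ?_) ih (hl _).le (by norm_num)
      rw [natCast_re]
      push_cast
      have : (0 : ℝ) ≤ k := Nat.cast_nonneg k
      linarith
  rcases le_or_gt 101 n with h | h
  · obtain ⟨m, rfl⟩ := Nat.exists_eq_add_of_le h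
    have h3 := h2 m
    rw [add_comm m 101] at h3
    refine h3.trans (le_of_eq ?_)
    rw [pow_add, ← mul_assoc (33.96 ^ 101 : ℝ), ← mul_pow]
    norm_num
  · refine (h1 n).trans ?_
    have h3 : (1 / 33.96 : ℝ) ^ 101 ≤ (1 / 33.96) ^ n :=
      pow_le_pow_of_le_one (by norm_num) (by norm_num) h.le
    have h4 : (1 : ℝ) ≤ 33.96 ^ 101 * (1 / 33.96) ^ n := by
      calc (1 : ℝ) = 33.96 ^ 101 * (1 / 33.96) ^ 101 := by rw [← mul_pow]; norm_num
        _ ≤ _ := mul_le_mul_of_nonneg_left h3 (by positivity)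
    have := mul_le_mul_of_nonneg_right h4 (hl 0).le
    linarith

end T2
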