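import Pool.Agent.T2.SLcs

/-!
# T2, real side: definitions and interfaces (T2_REAL_helper93.md)

* `rM M s` : the truncated continued fraction of the Apéry recurrence;
* `RFun r` : `r` is its limit (module R1);
* `zl y0 k = -1/2 + i y0 + k`, `Lat r y0 U` : the two-sided decaying solution (module R2);
* `vrow c r σ t` : the row `(t^i + σ r(t) (-t)^i)_{i<c}` (modules R4, R6, R7).
-/

set_option autoImplicit false

namespace T2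

open Complex

/-- truncated continued fraction `r_{M+1}(s) = s^3/(ap(s) - (s+1)^3 r_M(s+1))` -/
noncomputable def rM : ℕ → ℂ → ℂ
  | 0, _ => 0
  | M + 1, s => s ^ 3 / (QS2.ap s - (s + 1) ^ 3 * rM M (s + 1))

/-- the limit function (module R1) -/
structure RFun (r : ℂ → ℂ) : Prop where
  bound : ∀ s : ℂ, 0 ≤ s.re → ‖r s‖ ≤ 3 / 100
  diff : DiffContOnCl ℂ r {s : ℂ | 0 < s.re}
  conj : ∀ s : ℂ, 0 ≤ s.re → r ((starRingEnd ℂ) s) = (starRingEnd ℂ) (r s)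
  eqn : ∀ s : ℂ, 0 ≤ s.re → r s * (QS2.ap s - (s + 1) ^ 3 * r (s + 1)) = s ^ 3
  int : ∀ n : ℕ, ((QS2.lrem (n + 1) : ℝ) : ℂ) = r ((n : ℂ) + 1) * ((QS2.lrem n : ℝ) : ℂ)

/-- the lattice `-1/2 + i y0 + k` -/
noncomputable def zl (y0 : ℝ) (k : ℤ) : ℂ := -1 / 2 + (y0 : ℂ) * I + (k : ℂ)

/-- the two-sided decaying solution on the lattice (module R2) -/
structure Lat (r : ℂ → ℂ) (y0 : ℝ) (U : ℤ → ℂ) : Prop where
  lo : 1 / 5 < y0
  hi : y0 < 11 / 50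
  zero : U 0 = I
  succ : ∀ k : ℕ, U ((k : ℤ) + 1) = r (zl y0 k + 1) * U k
  neg : ∀ k : ℤ, U (-k) = -(starRingEnd ℂ) (U k)
  eqn : ∀ k : ℤ, (zl y0 k + 1) ^ 3 * U (k + 1) - QS2.ap (zl y0 k) * U k
    + zl y0 k ^ 3 * U (k - 1) = 0
  bound : ∀ k : ℤ, ‖U k‖ ≤ (3 / 100) ^ k.natAbs

/-- the functional `∑_k ε^k 2 Re (U_k f(z_k))`, `ε = ±1` (without the constants `c±`) -/
noncomputable def Efun (y0 : ℝ) (U : ℤ → ℂ) (ε : ℝ) (f : ℂ → ℂ) : ℝ :=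
  ∑' k : ℤ, ε ^ k.natAbs * (2 * (U k * f (zl y0 k)).re)

/-- the row `(t^i + σ r(t) (-t)^i)_{i < c}` -/
noncomputable def vrow (c : ℕ) (r : ℂ → ℂ) (σ : ℂ) (t : ℂ) : Fin c → ℂ :=
  fun i => t ^ (i : ℕ) + σ * r t * (-t) ^ (i : ℕ)

end T2
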