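import Pool.Agent.T2.Bound2
import Pool.Agent.T2.RDefs

/-!
# T2, modules R1 and R2: `exists_RFun : ∃ r, RFun r ∧ ∃ y0 U, Lat r y0 U`
-/

set_option autoImplicit false

namespace T2

open Filter Topology Complex
open Pool.Agent.QS2 (pz yc)

theorem pz_eq_ap (s : ℂ) : pz s = QS2.ap s := rfl

/-- the key inequality in the half plane -/
theorem ap_ge {s : ℂ} (hs : 0 ≤ s.re) :
    100 / 3 * ‖s‖ ^ 3 + 3 / 100 * ‖s + 1‖ ^ 3 ≤ ‖pz s‖ := by
  have hn : 0 ≤ ‖s‖ := norm_nonneg s
  have h1 : ‖s + 1‖ ≤ ‖s‖ + 1 := by simpa using norm_add_le s 1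
  have h3 : ‖s + 1‖ ^ 3 ≤ (‖s‖ + 1) ^ 3 := pow_le_pow_left₀ (norm_nonneg _) h1 3
  have hlin : 4 * ‖s‖ ^ 2 + 1 ≤ ‖2 * s + 1‖ ^ 2 := by
    rw [Complex.sq_norm, Complex.sq_norm, Complex.normSq_apply, Complex.normSq_apply]
    simp only [add_re, mul_re, add_im, mul_im, one_re, one_im, re_ofNat, im_ofNat]
    nlinarith
  have hquad : 289 * ‖s‖ ^ 4 + 119 * ‖s‖ ^ 2 + 25 ≤ ‖17 * s ^ 2 + 17 * s + 5‖ ^ 2 := by
    have e4 : ‖s‖ ^ 4 = (‖s‖ ^ 2) ^ 2 := by ring
    rw [e4, Complex.sq_norm, Complex.sq_norm, Complex.normSq_apply, Complex.normSq_apply]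
    obtain ⟨x, y⟩ := s
    simp only at hs
    simp only [pow_two, add_re, mul_re, add_im, mul_im, re_ofNat, im_ofNat]
    nlinarith [mul_nonneg hs (sq_nonneg y), mul_nonneg hs (sq_nonneg x), sq_nonneg x, sq_nonneg y,
      mul_nonneg hs hs]
  have hsq : (100 / 3 * ‖s‖ ^ 3 + 3 / 100 * (‖s‖ + 1) ^ 3) ^ 2 ≤ ‖pz s‖ ^ 2 := by
    rw [Pool.Agent.QS2.pz_factor, norm_mul, mul_pow]
    refine le_trans ?_ (mul_le_mul hlin hquad (by positivity) (by positivity))
    set x := ‖s‖
    have hx2 : 0 ≤ x ^ 2 := by positivity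
    have hx3 : 0 ≤ x ^ 3 := by positivity
    have hx4 : 0 ≤ x ^ 4 := by positivity
    have hx5 : 0 ≤ x ^ 5 := by positivity
    have hx6 : 0 ≤ x ^ 6 := by positivity
    have a1 : x ^ 5 ≤ (x ^ 6 + x ^ 4) / 2 := by nlinarith [mul_nonneg hx4 (sq_nonneg (x - 1))]
    have a2 : x ^ 3 ≤ (x ^ 4 + x ^ 2) / 2 := by nlinarith [mul_nonneg hx2 (sq_nonneg (x - 1))]
    have a3 : x ≤ (x ^ 2 + 1) / 2 := by nlinarith [sq_nonneg (x - 1)]
    nlinarith
  have h4 : 100 / 3 * ‖s‖ ^ 3 + 3 / 100 * (‖s‖ + 1) ^ 3 ≤ ‖pz s‖ :=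
    le_of_sq_le_sq hsq (norm_nonneg _)
  linarith

/-- sharper bound for `rB` -/
theorem norm_rB_le' {w : ℂ} (hw : -(7 / 10) ≤ w.re) : ‖rB w‖ ≤ 3 / 100 := by
  have h := rB_eq hw
  have hr := norm_rB_mid (w := w + 1) (by rw [add_re, one_re]; linarith)
  have hP := ap_ge (s := w + 1) (by rw [add_re, one_re]; linarith)
  have hn := norm_add_one_ge hw
  have hpos : 0 < ‖w + 1‖ ^ 3 := by positivity
  rw [show w + 1 + 1 = w + 2 by ring] at hP
  have h4 : ‖(w + 2) ^ 3 * rB (w + 1)‖ ≤ 3 / 100 * ‖w + 2‖ ^ 3 := by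
    rw [norm_mul, norm_pow]
    have : ‖w + 2‖ ^ 3 * ‖rB (w + 1)‖ ≤ ‖w + 2‖ ^ 3 * (3 / 100) :=
      mul_le_mul_of_nonneg_left (hr.trans (by norm_num)) (by positivity)
    linarith
  have h5 : 100 / 3 * ‖w + 1‖ ^ 3 ≤ ‖pz (w + 1) - (w + 2) ^ 3 * rB (w + 1)‖ := by
    have := norm_sub_norm_le (pz (w + 1)) ((w + 2) ^ 3 * rB (w + 1))
    linarith
  have h6 := congrArg norm h
  rw [norm_mul, norm_pow] at h6
  have h7 : ‖rB w‖ * (100 / 3 * ‖w + 1‖ ^ 3) ≤ ‖w + 1‖ ^ 3 :=
    (mul_le_mul_of_nonneg_left h5 (norm_nonneg _)).trans h6.le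
  have h8 : (‖rB w‖ * (100 / 3)) * ‖w + 1‖ ^ 3 ≤ 1 * ‖w + 1‖ ^ 3 := by linarith
  have h9 := le_of_mul_le_mul_right h8 hpos
  linarith

/-- the function `r` of the real side -/
noncomputable def rF (s : ℂ) : ℂ := s ^ 3 / (pz s - (s + 1) ^ 3 * rB s)

theorem rF_den_ge {s : ℂ} (hs : 0 ≤ s.re) :
    100 / 3 * ‖s‖ ^ 3 ≤ ‖pz s - (s + 1) ^ 3 * rB s‖ := by
  have hP := ap_ge hs
  have hr := norm_rB_le' (w := s) (by linarith)
  have h4 : ‖(s + 1) ^ 3 * rB s‖ ≤ 3 / 100 * ‖s + 1‖ ^ 3 := by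
    rw [norm_mul, norm_pow]
    have : ‖s + 1‖ ^ 3 * ‖rB s‖ ≤ ‖s + 1‖ ^ 3 * (3 / 100) :=
      mul_le_mul_of_nonneg_left hr (by positivity)
    linarith
  have := norm_sub_norm_le (pz s) ((s + 1) ^ 3 * rB s)
  linarith

theorem rF_den_ne {s : ℂ} (hs : 0 ≤ s.re) : pz s - (s + 1) ^ 3 * rB s ≠ 0 := by
  by_cases h0 : s = 0
  · subst h0
    have hr := norm_rB_le' (w := 0) (by norm_num)
    intro h
    have h1 : pz (0 : ℂ) = 5 := by simp [pz]
    rw [h1] at h
    have h2 : (5 : ℂ) = (0 + 1) ^ 3 * rB 0 := by linear_combination h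
    have h3 := congrArg norm h2
    rw [norm_mul] at h3
    simp at h3
    linarith
  · have := rF_den_ge hs
    have hpos : 0 < ‖s‖ ^ 3 := pow_pos (norm_pos_iff.2 h0) 3
    rw [← norm_pos_iff]
    linarith

theorem rF_eq_rB {s : ℂ} (hs : -(7 / 10) ≤ s.re) : rF (s + 1) = rB s := by
  have h := rB_eq hs
  rw [rF, show s + 1 + 1 = s + 2 by ring]
  have hne : pz (s + 1) - (s + 2) ^ 3 * rB (s + 1) ≠ 0 := by
    intro h0
    rw [h0, mul_zero] at h
    exact pow_ne_zero 3 (add_one_ne hs) h.symm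
  rw [div_eq_iff hne]
  exact h.symm

theorem differentiable_yc (M : ℕ) : Differentiable ℂ fun w : ℂ => yc M w := by
  have key : ∀ M, (Differentiable ℂ fun w : ℂ => yc M w) ∧
      (Differentiable ℂ fun w : ℂ => yc (M + 1) w) := by
    intro M
    induction M with
    | zero =>
      refine ⟨?_, ?_⟩
      · simp only [Pool.Agent.QS2.yc_zero]
        exact differentiable_const _
      · simp only [zero_add, Pool.Agent.QS2.yc_one]
        exact differentiable_const _
    | succ M ih =>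
      refine ⟨ih.2, ?_⟩
      rw [show M + 1 + 1 = M + 2 from rfl]
      simp only [Pool.Agent.QS2.yc_left]
      have h1 : Differentiable ℂ fun w : ℂ => yc (M + 1) (w + 1) :=
        ih.2.comp (differentiable_id.add (differentiable_const _))
      have h2 : Differentiable ℂ fun w : ℂ => yc M (w + 2) :=
        ih.1.comp (differentiable_id.add (differentiable_const _))
      have h3 : Differentiable ℂ fun w : ℂ => pz (w + 1) := by
        unfold pz
        fun_prop
      exact (h3.mul h1).sub (((differentiable_id.add (differentiable_const _)).pow 6).mul h2)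
  exact (key M).1

theorem differentiableOn_rBM (M : ℕ) :
    DifferentiableOn ℂ (rBM M) {w : ℂ | -(7 / 10) < w.re} := by
  unfold rBM
  refine DifferentiableOn.div ?_ (differentiable_yc _).differentiableOn fun w hw =>
    Pool.Agent.QS2.yc_ne M w (le_of_lt hw)
  have h1 : Differentiable ℂ fun w : ℂ => yc M (w + 1) :=
    (differentiable_yc M).comp (differentiable_id.add (differentiable_const _))
  exact (((differentiable_id.add (differentiable_const _)).pow 3).mul h1).differentiableOn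

theorem isOpen_half (c : ℝ) : IsOpen {w : ℂ | c < w.re} :=
  isOpen_lt continuous_const Complex.continuous_re

theorem differentiableOn_rB : DifferentiableOn ℂ rB {w : ℂ | -(7 / 10) < w.re} := by
  have h1 : DifferentiableOn ℂ (fun w => ∑' m : ℕ, (rBM (m + 2) w - rBM (m + 1) w))
      {w : ℂ | -(7 / 10) < w.re} :=
    differentiableOn_tsum_of_summable_norm summable_uB
      (fun m => (differentiableOn_rBM (m + 2)).sub (differentiableOn_rBM (m + 1)))
      (isOpen_half _) fun m w hw => norm_rBM_diff m (le_of_lt hw)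
  exact (differentiableOn_rBM 1).add h1

theorem differentiableAt_rF {s : ℂ} (hs : 0 ≤ s.re) : DifferentiableAt ℂ rF s := by
  have h1 : DifferentiableAt ℂ rB s :=
    differentiableOn_rB.differentiableAt ((isOpen_half _).mem_nhds (by
      change -(7 / 10) < s.re
      linarith))
  have hp : DifferentiableAt ℂ (fun s : ℂ => pz s) s := by
    unfold pz
    fun_prop
  have h3 : DifferentiableAt ℂ (fun s : ℂ => pz s - (s + 1) ^ 3 * rB s) s :=
    hp.sub (((differentiableAt_id.add (differentiableAt_const _)).pow 3).mul h1)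
  exact DifferentiableAt.div (differentiableAt_id.pow 3) h3 (rF_den_ne hs)

theorem rFun_rF : RFun rF where
  bound := by
    intro s hs
    have hd := rF_den_ge hs
    have hne := rF_den_ne hs
    rw [rF, norm_div, norm_pow, div_le_iff₀ (norm_pos_iff.2 hne)]
    linarith
  diff := by
    refine ⟨fun s hs => (differentiableAt_rF (le_of_lt hs)).differentiableWithinAt, ?_⟩
    intro s hs
    refine (differentiableAt_rF ?_).continuousAt.continuousWithinAt
    have hcl : closure {s : ℂ | 0 < s.re} ⊆ {s : ℂ | 0 ≤ s.re} := by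
      refine closure_minimal (fun z hz => ?_) ?_
      · exact le_of_lt (show 0 < z.re from hz)
      · exact isClosed_le continuous_const Complex.continuous_re
    exact hcl hs
  conj := by
    intro s _
    have h1 : (starRingEnd ℂ) s + 1 = (starRingEnd ℂ) (s + 1) := by rw [map_add, map_one]
    have h2 : pz ((starRingEnd ℂ) s) = (starRingEnd ℂ) (pz s) := by
      unfold pz
      simp only [map_add, map_mul, map_pow, map_ofNat]
    rw [rF, rF, h1, rB_conj, h2, map_div₀, map_sub, map_mul, map_pow, map_pow]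
  eqn := by
    intro s hs
    rw [rF_eq_rB (by linarith), ← pz_eq_ap, rF, div_mul_cancel₀ _ (rF_den_ne hs)]
  int := by
    intro n
    have hre : -(7 / 10) ≤ ((n : ℂ)).re := by
      rw [natCast_re]
      have : (0 : ℝ) ≤ n := Nat.cast_nonneg n
      linarith
    have hl : ((QS2.lrem n : ℝ) : ℂ) ≠ 0 := by exact_mod_cast (QS2.lrem_pos' n).ne'
    rw [rF_eq_rB hre, rB_nat]
    push_cast
    field_simp

theorem nuB_gt : 1 / 5 < nuB := by
  refine lt_of_le_of_ne nuB_ge fun h => ?_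
  have h0 := GB_nuB
  rw [← h] at h0
  have h1 := abs_le.1 (GB_term (y := 1 / 5) (by norm_num) (by norm_num))
  unfold GB at h0
  norm_num at h0 h1
  linarith [h1.2]

theorem nuB_lt : nuB < 11 / 50 := by
  refine lt_of_le_of_ne nuB_le fun h => ?_
  have h0 := GB_nuB
  rw [h] at h0
  have h1 := abs_le.1 (GB_term (y := 11 / 50) (by norm_num) (by norm_num))
  unfold GB at h0
  norm_num at h0 h1
  linarith [h1.1]

theorem zl_eq_tB (k : ℤ) : zl nuB k = tB k := by
  unfold zl tB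
  ring

/-- the two-sided solution in the normalisation of `Lat` -/
noncomputable def UB (k : ℤ) : ℂ := I * vB k

theorem norm_vN_rho (k : ℕ) : ‖vN k‖ ≤ (3 / 100) ^ k := by
  induction k with
  | zero => rw [vN, norm_one, pow_zero]
  | succ k ih =>
    rw [vN, norm_mul, pow_succ, mul_comm]
    exact mul_le_mul ih (norm_rB_le' (tB_nat_re k)) (norm_nonneg _) (by positivity)

theorem lat_UB : Lat rF nuB UB where
  lo := nuB_gt
  hi := nuB_lt
  zero := by rw [UB, vB_zero, mul_one]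
  succ := by
    intro k
    rw [UB, UB, vB_succ, zl_eq_tB, rF_eq_rB (tB_nat_re k)]
    ring
  neg := by
    intro k
    rw [UB, UB, vB_neg, map_mul, conj_I]
    ring
  eqn := by
    intro k
    have h := vB_rec k
    rw [zl_eq_tB, ← pz_eq_ap, UB, UB, UB]
    linear_combination I * h
  bound := by
    intro k
    rw [UB, norm_mul, norm_I, one_mul]
    rcases Int.eq_nat_or_neg k with ⟨n, rfl | rfl⟩
    · rw [Int.natAbs_natCast]
      exact norm_vN_rho n
    · rw [vB_neg_nat, RCLike.norm_conj, Int.natAbs_neg, Int.natAbs_natCast]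
      exact norm_vN_rho n

/-- **R1 and R2** -/
theorem exists_RFun : ∃ r : ℂ → ℂ, RFun r ∧ ∃ (y0 : ℝ) (U : ℤ → ℂ), Lat r y0 U :=
  ⟨rF, rFun_rF, nuB, UB, lat_UB⟩

end T2
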