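import Mathlib

/-!
# T2, real side: Cauchy determinants and the energy inequality with trial points

For finite families `x : ι → 𝕜`, `y : κ → 𝕜` in a normed field:
`pdd x = ∏_{i ≠ j} ‖x i - x j‖` (ordered pairs, the square of the Vandermonde),
`pcr x y = ∏_{i, j} ‖x i - y j‖`.

* `norm_det_cauchy` : `‖det [1/(x i - y j)]‖ ^ 2 * (pcr x y) ^ 2 = pdd x * pdd y`;
* `energy_le` : `pdd x * pdd y ≤ (n! * d⁻¹ ^ n) ^ 2 * pcr x y ^ 2` if `d ≤ ‖x i - y j‖`;
* `trial_le` : `√(pdd x) ≤ n! d^{-n} pcr x z / √(pdd z)`, in squared form;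
* `cau_trial_le` : the same for the Cauchy products `Cau(S;T)` with trial families `S0, T0`.
-/

set_option autoImplicit false

namespace T2

open Finset Matrix Polynomial

variable {𝕜 : Type*} [NormedField 𝕜]

section defs

variable {ι κ ι' κ' : Type*} [Fintype ι] [Fintype κ] [Fintype ι'] [Fintype κ']
  [DecidableEq ι] [DecidableEq κ] [DecidableEq ι'] [DecidableEq κ']

/-- `∏_{i ≠ j} ‖x i - x j‖`, ordered pairs -/
def pdd (x : ι → 𝕜) : ℝ := ∏ i, ∏ j ∈ univ.erase i, ‖x i - x j‖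

omit [DecidableEq ι] in
/-- `∏_{i, j} ‖x i - y j‖` -/
def pcr (x : ι → 𝕜) (y : κ → 𝕜) : ℝ := ∏ i, ∏ j, ‖x i - y j‖

theorem pdd_nonneg (x : ι → 𝕜) : 0 ≤ pdd x :=
  prod_nonneg fun _ _ => prod_nonneg fun _ _ => norm_nonneg _

omit [DecidableEq ι] [DecidableEq κ] in
theorem pcr_nonneg (x : ι → 𝕜) (y : κ → 𝕜) : 0 ≤ pcr x y :=
  prod_nonneg fun _ _ => prod_nonneg fun _ _ => norm_nonneg _

omit [DecidableEq ι] [DecidableEq κ] in
theorem pcr_comm (x : ι → 𝕜) (y : κ → 𝕜) : pcr x y = pcr y x := by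
  unfold pcr
  rw [Finset.prod_comm]
  refine prod_congr rfl fun i _ => prod_congr rfl fun j _ => norm_sub_rev _ _

theorem pdd_pos {x : ι → 𝕜} (hx : Function.Injective x) : 0 < pdd x := by
  refine prod_pos fun i _ => prod_pos fun j hj => ?_
  rw [mem_erase] at hj
  exact norm_pos_iff.2 (sub_ne_zero.2 fun h => hj.1 (hx h).symm)

omit [DecidableEq ι] [DecidableEq κ] in
theorem pcr_pos {x : ι → 𝕜} {y : κ → 𝕜} (h : ∀ i j, x i ≠ y j) : 0 < pcr x y :=
  prod_pos fun i _ => prod_pos fun j _ => norm_pos_iff.2 (sub_ne_zero.2 (h i j))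

theorem pdd_reindex (e : ι ≃ κ) (x : κ → 𝕜) : pdd (fun i => x (e i)) = pdd x := by
  unfold pdd
  rw [← Equiv.prod_comp e (fun k => ∏ j ∈ univ.erase k, ‖x k - x j‖)]
  refine prod_congr rfl fun i _ => ?_
  refine Finset.prod_bij (fun j _ => e j) ?_ ?_ ?_ ?_
  · intro j hj
    rw [mem_erase] at hj ⊢
    exact ⟨fun h => hj.1 (e.injective h), mem_univ _⟩
  · intro a _ b _ h
    exact e.injective h
  · intro b hb
    rw [mem_erase] at hb
    refine ⟨e.symm b, ?_, by simp⟩
    rw [mem_erase]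
    exact ⟨fun h => hb.1 (by rw [← h]; simp), mem_univ _⟩
  · intro j _
    rfl

omit [DecidableEq ι] [DecidableEq κ] [DecidableEq ι'] [DecidableEq κ'] in
theorem pcr_reindex (e : ι ≃ ι') (f : κ ≃ κ') (x : ι' → 𝕜) (y : κ' → 𝕜) :
    pcr (fun i => x (e i)) (fun j => y (f j)) = pcr x y := by
  unfold pcr
  rw [← Equiv.prod_comp e (fun k => ∏ j, ‖x k - y j‖)]
  refine prod_congr rfl fun i _ => ?_
  rw [← Equiv.prod_comp f (fun k => ‖x (e i) - y k‖)]

/-- the pairs of a union -/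
theorem pdd_sum (x : ι → 𝕜) (y : κ → 𝕜) :
    pdd (Sum.elim x y) = pdd x * pdd y * pcr x y ^ 2 := by
  have h1 : ∀ i : ι, ∏ j ∈ (univ : Finset (ι ⊕ κ)).erase (Sum.inl i),
      ‖Sum.elim x y (Sum.inl i) - Sum.elim x y j‖ =
      (∏ j ∈ univ.erase i, ‖x i - x j‖) * ∏ j, ‖x i - y j‖ := by
    intro i
    have : (univ : Finset (ι ⊕ κ)).erase (Sum.inl i) = (univ.erase i).disjSum univ := by
      ext j
      rcases j with j | j <;> simp
    rw [this, Finset.prod_disjSum]
    rfl
  have h2 : ∀ i : κ, ∏ j ∈ (univ : Finset (ι ⊕ κ)).erase (Sum.inr i),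
      ‖Sum.elim x y (Sum.inr i) - Sum.elim x y j‖ =
      (∏ j, ‖y i - x j‖) * ∏ j ∈ univ.erase i, ‖y i - y j‖ := by
    intro i
    have : (univ : Finset (ι ⊕ κ)).erase (Sum.inr i) = (univ : Finset ι).disjSum
        (univ.erase i) := by
      ext j
      rcases j with j | j <;> simp
    rw [this, Finset.prod_disjSum]
    rfl
  have h3 : pcr y x = pcr x y := pcr_comm y x
  unfold pdd
  rw [Fintype.prod_sum_type]
  simp only [h1, h2, prod_mul_distrib]
  unfold pcr at h3 ⊢
  rw [h3]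
  ring

omit [DecidableEq ι] [DecidableEq κ] [DecidableEq ι'] [DecidableEq κ'] in
theorem pcr_sum (x : ι → 𝕜) (x' : ι' → 𝕜) (y : κ → 𝕜) (y' : κ' → 𝕜) :
    pcr (Sum.elim x x') (Sum.elim y y') = (pcr x y * pcr x y') * (pcr x' y * pcr x' y') := by
  unfold pcr
  rw [Fintype.prod_sum_type]
  simp only [Fintype.prod_sum_type, Sum.elim_inl, Sum.elim_inr, prod_mul_distrib]

end defs

/-! ### The Cauchy determinant -/

section cauchy

variable {n : ℕ}

/-- `pdd` is the square of the Vandermonde determinant -/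
theorem pdd_eq_vandermonde (x : Fin n → 𝕜) : pdd x = ‖(vandermonde x).det‖ ^ 2 := by
  rw [det_vandermonde, norm_prod]
  simp only [norm_prod]
  rw [← Finset.prod_pow]
  simp only [← Finset.prod_pow]
  have h := Finset.prod_prod_Ioi_mul_eq_prod_prod_off_diag (fun i j : Fin n => ‖x i - x j‖)
  have h2 : ∀ i : Fin n, ∏ j ∈ ({i}ᶜ : Finset (Fin n)), ‖x j - x i‖ =
      ∏ j ∈ univ.erase i, ‖x i - x j‖ := by
    intro i
    have : ({i}ᶜ : Finset (Fin n)) = univ.erase i := by ext j; simp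
    rw [this]
    exact prod_congr rfl fun j _ => norm_sub_rev _ _
  unfold pdd
  rw [← Finset.prod_congr rfl fun i _ => h2 i, ← h]
  refine prod_congr rfl fun i _ => prod_congr rfl fun j _ => ?_
  rw [norm_sub_rev (x i) (x j), sq]

/-- **Cauchy determinant, norm form** -/
theorem norm_det_cauchy (x y : Fin n → 𝕜) (hxy : ∀ i j, x i ≠ y j)
    (hy : Function.Injective y) :
    ‖(Matrix.of fun i j => (x i - y j)⁻¹).det‖ ^ 2 * pcr x y ^ 2 = pdd x * pdd y := by
  classical
  -- the polynomials `f j = ∏_{k ≠ j} (X - y k)`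
  set f : Fin n → 𝕜[X] := fun j => ∏ k ∈ univ.erase j, (X - C (y k)) with hf
  have hfd : ∀ j, (f j).natDegree < n := by
    intro j
    have h1 : (f j).natDegree = (univ.erase j : Finset (Fin n)).card := by
      rw [hf]
      simp only
      rw [natDegree_prod_of_monic _ _ fun k _ => monic_X_sub_C _]
      simp
    rw [h1, card_erase_of_mem (mem_univ j), card_univ, Fintype.card_fin]
    have := j.2
    omega
  have hC : ∀ z : Fin n → 𝕜, (Matrix.of fun i j => (f j).eval (z i)) =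
      vandermonde z * Matrix.of fun (k j : Fin n) => (f j).coeff k := by
    intro z
    ext i j
    rw [Matrix.mul_apply]
    simp only [Matrix.of_apply, vandermonde_apply]
    rw [eval_eq_sum_range' (hfd j), ← Fin.sum_univ_eq_sum_range
      (fun k => (f j).coeff k * z i ^ k) n]
    exact sum_congr rfl fun k _ => mul_comm _ _
  have h1 : (Matrix.of fun i j => (f j).eval (x i)).det * (vandermonde y).det =
      (vandermonde x).det * (Matrix.of fun i j => (f j).eval (y i)).det := by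
    rw [hC x, hC y, det_mul, det_mul]
    ring
  have h2 : (Matrix.of fun i j => (f j).eval (x i)) =
      Matrix.of fun i j => (∏ k, (x i - y k)) * (Matrix.of fun i j => (x i - y j)⁻¹) i j := by
    ext i j
    simp only [Matrix.of_apply, hf, eval_prod, eval_sub, eval_X, eval_C]
    rw [← Finset.mul_prod_erase univ (fun k => x i - y k) (mem_univ j)]
    have := sub_ne_zero.2 (hxy i j)
    field_simp
  have h3 : (Matrix.of fun i j => (f j).eval (y i)) =
      diagonal fun j => ∏ k ∈ univ.erase j, (y j - y k) := by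
    ext i j
    simp only [Matrix.of_apply, hf, eval_prod, eval_sub, eval_X, eval_C]
    by_cases hij : i = j
    · subst hij
      rw [diagonal_apply_eq]
    · rw [diagonal_apply_ne _ hij]
      apply Finset.prod_eq_zero (i := i)
      · rw [mem_erase]
        exact ⟨hij, mem_univ _⟩
      · ring
  rw [h2, det_mul_column, h3, det_diagonal] at h1
  have h4 := congrArg (fun t => ‖t‖ ^ 2) h1
  simp only [norm_mul, norm_prod] at h4
  have hVy : 0 < pdd y := pdd_pos hy
  simp only [mul_pow] at h4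
  rw [← pdd_eq_vandermonde, ← pdd_eq_vandermonde] at h4
  have e1 : (∏ i, ∏ k, ‖x i - y k‖) = pcr x y := rfl
  have e2 : (∏ j, ∏ k ∈ univ.erase j, ‖y j - y k‖) = pdd y := rfl
  rw [e1, e2] at h4
  apply mul_right_cancel₀ hVy.ne'
  calc ‖(Matrix.of fun i j => (x i - y j)⁻¹).det‖ ^ 2 * pcr x y ^ 2 * pdd y
      = pcr x y ^ 2 * ‖(Matrix.of fun i j => (x i - y j)⁻¹).det‖ ^ 2 * pdd y := by ring
    _ = pdd x * pdd y ^ 2 := h4
    _ = pdd x * pdd y * pdd y := by ring

/-- crude bound of a determinant -/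
theorem norm_det_le (M : Matrix (Fin n) (Fin n) 𝕜) {b : ℝ} (h : ∀ i j, ‖M i j‖ ≤ b) :
    ‖M.det‖ ≤ n.factorial * b ^ n := by
  rw [Matrix.det_apply]
  refine (norm_sum_le _ _).trans ?_
  have h1 : ∀ σ ∈ (univ : Finset (Equiv.Perm (Fin n))),
      ‖Equiv.Perm.sign σ • ∏ i, M (σ i) i‖ ≤ b ^ n := by
    intro σ _
    have h2 : ‖Equiv.Perm.sign σ • ∏ i, M (σ i) i‖ = ∏ i, ‖M (σ i) i‖ := by
      rcases Int.units_eq_one_or (Equiv.Perm.sign σ) with h | h <;> rw [h]
      · rw [one_smul, norm_prod]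
      · rw [Units.neg_smul, one_smul, norm_neg, norm_prod]
    rw [h2]
    refine (Finset.prod_le_prod (fun i _ => norm_nonneg _) fun i _ => h _ _).trans ?_
    simp
  refine (Finset.sum_le_sum h1).trans ?_
  rw [sum_const, card_univ, Fintype.card_perm, Fintype.card_fin, nsmul_eq_mul]

end cauchy

/-! ### Energy inequality -/

section energy

variable {ι κ ι' κ' : Type*} [Fintype ι] [Fintype κ] [Fintype ι'] [Fintype κ']
  [DecidableEq ι] [DecidableEq κ] [DecidableEq ι'] [DecidableEq κ']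

/-- **Energy inequality**: `|Δ(x) Δ(y)| ≤ n! d^{-n} ∏ |x i - y j|`, squared. -/
theorem energy_le (hcard : Fintype.card ι = Fintype.card κ) {d : ℝ} (hd : 0 < d) (x : ι → 𝕜)
    (y : κ → 𝕜) (h : ∀ i j, d ≤ ‖x i - y j‖) :
    pdd x * pdd y ≤ ((Fintype.card ι).factorial * d⁻¹ ^ (Fintype.card ι)) ^ 2 * pcr x y ^ 2 := by
  have hxy : ∀ i j, x i ≠ y j := fun i j he => by
    have := h i j
    rw [he, sub_self, norm_zero] at this
    linarith
  by_cases hy : Function.Injective y
  · set n := Fintype.card ι with hn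
    set e : Fin n ≃ ι := (Fintype.equivFin ι).symm
    set f : Fin n ≃ κ := (Fintype.equivFinOfCardEq hcard.symm).symm
    have h1 := norm_det_cauchy (fun i => x (e i)) (fun j => y (f j)) (fun i j => hxy _ _)
      (hy.comp f.injective)
    have e1 : pdd (fun i => x (e i)) = pdd x := pdd_reindex e x
    have e2 : pdd (fun i => y (f i)) = pdd y := pdd_reindex f y
    have e3 : pcr (fun i => x (e i)) (fun j => y (f j)) = pcr x y := pcr_reindex e f x y
    rw [e1, e2, e3] at h1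
    rw [← h1]
    have h2 := norm_det_le (Matrix.of fun i j => (x (e i) - y (f j))⁻¹) (b := d⁻¹) (by
      intro i j
      rw [Matrix.of_apply, norm_inv]
      exact inv_anti₀ hd (h _ _))
    have h3 : ‖(Matrix.of fun i j => (x (e i) - y (f j))⁻¹).det‖ ^ 2 ≤
        (n.factorial * d⁻¹ ^ n) ^ 2 := pow_le_pow_left₀ (norm_nonneg _) h2 2
    exact mul_le_mul_of_nonneg_right h3 (sq_nonneg _)
  · have h0 : pdd y = 0 := by
      obtain ⟨a, b, hab, hne⟩ : ∃ a b, y a = y b ∧ a ≠ b := by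
        by_contra hcon
        push Not at hcon
        exact hy fun a b hab => hcon a b hab
      unfold pdd
      apply Finset.prod_eq_zero (mem_univ a)
      apply Finset.prod_eq_zero (i := b)
      · rw [mem_erase]
        exact ⟨hne.symm, mem_univ _⟩
      · rw [hab, sub_self, norm_zero]
    rw [h0, mul_zero]
    positivity

/-- **Trial points for a Cauchy product**, squared:
`Cau(S;T)² = pdd s * pdd t / pcr s t ^ 2`. -/
theorem cau_trial_le (h1 : Fintype.card ι = Fintype.card κ)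
    (h2 : Fintype.card ι' = Fintype.card κ') {d : ℝ} (hd : 0 < d)
    (s : ι → 𝕜) (t : κ → 𝕜) (s0 : ι' → 𝕜) (t0 : κ' → 𝕜)
    (hst : ∀ i j, d ≤ ‖s i - t j‖) (hs0 : ∀ i j, d ≤ ‖s i - s0 j‖)
    (ht0 : ∀ i j, d ≤ ‖t0 i - t j‖) (h00 : ∀ i j, d ≤ ‖t0 i - s0 j‖) :
    (pdd s * pdd t) * (pdd s0 * pdd t0) * (pcr s t0 * pcr t s0) ^ 2 ≤
      ((Fintype.card ι + Fintype.card ι').factorial *
        d⁻¹ ^ (Fintype.card ι + Fintype.card ι')) ^ 2 *
      ((pcr s t * pcr s0 t0) * (pcr s s0 * pcr t t0)) ^ 2 := by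
  have hcard : Fintype.card (ι ⊕ κ') = Fintype.card (κ ⊕ ι') := by
    rw [Fintype.card_sum, Fintype.card_sum, h1, h2]
  have h := energy_le hcard hd (Sum.elim s t0) (Sum.elim t s0) (by
    intro i j
    rcases i with i | i <;> rcases j with j | j
    · exact hst i j
    · exact hs0 i j
    · exact ht0 i j
    · exact h00 i j)
  rw [pdd_sum, pdd_sum, pcr_sum, Fintype.card_sum, ← h2] at h
  have e1 : pcr t0 t = pcr t t0 := pcr_comm _ _
  have e2 : pcr t0 s0 = pcr s0 t0 := pcr_comm _ _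
  rw [e1, e2] at h
  calc (pdd s * pdd t) * (pdd s0 * pdd t0) * (pcr s t0 * pcr t s0) ^ 2
      = pdd s * pdd t0 * pcr s t0 ^ 2 * (pdd t * pdd s0 * pcr t s0 ^ 2) := by ring
    _ ≤ _ := h
    _ = _ := by ring

end energy

end T2
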