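import Pool.Agent.T2.CauEn

/-!
# T2, real side: the two Cauchy-Hadamard inequalities with trial points

* `ce3a` : `∏_{i<j} |t j - t i| ∏_{i<j} |z j - z i| ≤ c! (1/d)^c ∏_{i,j} |t i - z j|`;
* `ce3b` : the Cauchy determinant `det (1/(S i - T j))` with trial points `S0`, `T0`.
-/

set_option autoImplicit false

namespace T2

open Finset Matrix

variable {𝕜 : Type*} [NormedField 𝕜]

/-- product over the ordered pairs `i < j` -/
theorem norm_vandermonde {n : ℕ} (x : Fin n → 𝕜) :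
    ‖(vandermonde x).det‖ = ∏ i, ∏ j ∈ Ioi i, ‖x j - x i‖ := by
  rw [det_vandermonde, norm_prod]
  exact prod_congr rfl fun i _ => norm_prod _ _

/-- **CE3a** -/
theorem ce3a {n : ℕ} {d : ℝ} (hd : 0 < d) (t z : Fin n → 𝕜) (h : ∀ i j, d ≤ ‖t i - z j‖) :
    (∏ i, ∏ j ∈ Ioi i, ‖t j - t i‖) * (∏ i, ∏ j ∈ Ioi i, ‖z j - z i‖) ≤
      n.factorial * (1 / d) ^ n * ∏ i, ∏ j, ‖t i - z j‖ := by
  have h1 := energy_le rfl hd t z h
  rw [pdd_eq_vandermonde, pdd_eq_vandermonde, Fintype.card_fin, ← mul_pow, ← mul_pow] at h1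
  have h2 := abs_le_of_sq_le_sq' h1 (by
    refine mul_nonneg ?_ (pcr_nonneg _ _)
    positivity)
  have h3 := h2.2
  rw [norm_vandermonde, norm_vandermonde] at h3
  rw [one_div]
  exact h3

/-- `CE3a` for the Vandermonde determinants -/
theorem ce3a' {n : ℕ} {d : ℝ} (hd : 0 < d) (t z : Fin n → 𝕜) (h : ∀ i j, d ≤ ‖t i - z j‖) :
    ‖(vandermonde t).det‖ * ‖(vandermonde z).det‖ ≤
      n.factorial * (1 / d) ^ n * ∏ i, ∏ j, ‖t i - z j‖ := by
  rw [norm_vandermonde, norm_vandermonde]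
  exact ce3a hd t z h

/-- the Cauchy determinant over an arbitrary index type -/
theorem norm_det_cauchy' {ι : Type*} [Fintype ι] [DecidableEq ι] (x y : ι → 𝕜)
    (hxy : ∀ i j, x i ≠ y j) :
    ‖(Matrix.of fun i j => (x i - y j)⁻¹).det‖ ^ 2 * pcr x y ^ 2 = pdd x * pdd y := by
  by_cases hy : Function.Injective y
  · set e : Fin (Fintype.card ι) ≃ ι := (Fintype.equivFin ι).symm
    have h1 := norm_det_cauchy (fun i => x (e i)) (fun j => y (e j)) (fun i j => hxy _ _)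
      (hy.comp e.injective)
    have e1 : pdd (fun i => x (e i)) = pdd x := pdd_reindex e x
    have e2 : pdd (fun i => y (e i)) = pdd y := pdd_reindex e y
    have e3 : pcr (fun i => x (e i)) (fun j => y (e j)) = pcr x y := pcr_reindex e e x y
    rw [e1, e2, e3] at h1
    have h2 : (Matrix.of fun i j => (x (e i) - y (e j))⁻¹) =
        (Matrix.of fun i j => (x i - y j)⁻¹).submatrix e e := rfl
    rw [h2, det_submatrix_equiv_self] at h1
    exact h1
  · obtain ⟨a, b, hab, hne⟩ : ∃ a b, y a = y b ∧ a ≠ b := by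
      by_contra hcon
      push Not at hcon
      exact hy fun a b hab => hcon a b hab
    have h0 : pdd y = 0 := by
      unfold pdd
      apply Finset.prod_eq_zero (mem_univ a)
      apply Finset.prod_eq_zero (i := b)
      · rw [mem_erase]
        exact ⟨hne.symm, mem_univ _⟩
      · rw [hab, sub_self, norm_zero]
    have h3 : (Matrix.of fun i j => (x i - y j)⁻¹).det = 0 := by
      apply Matrix.det_zero_of_column_eq hne
      intro i
      simp only [Matrix.of_apply, hab]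
    rw [h0, h3]
    simp

/-- the trial Cauchy product -/
noncomputable def Cau0 {m : ℕ} (S0 T0 : Fin m → 𝕜) : ℝ :=
  (∏ i, ∏ j ∈ Ioi i, ‖S0 j - S0 i‖) * (∏ i, ∏ j ∈ Ioi i, ‖T0 j - T0 i‖) /
    ∏ k, ∏ l, ‖T0 k - S0 l‖

/-- **CE3b** -/
theorem ce3b {κ : Type*} [Fintype κ] [DecidableEq κ] {m : ℕ} {d : ℝ} (hd : 0 < d)
    (S T : κ → 𝕜) (S0 T0 : Fin m → 𝕜) (hST : ∀ i j, d ≤ ‖S i - T j‖)
    (hS0 : ∀ i l, d ≤ ‖S i - S0 l‖) (hT0 : ∀ i l, d ≤ ‖T i - T0 l‖)
    (h00 : ∀ k l, d ≤ ‖T0 k - S0 l‖) :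
    ‖(Matrix.of fun i j => (S i - T j)⁻¹).det‖ * Cau0 S0 T0 *
        (∏ i, ∏ l, ‖S i - T0 l‖) * (∏ i, ∏ l, ‖T i - S0 l‖) ≤
      (Fintype.card κ + m).factorial * (1 / d) ^ (Fintype.card κ + m) *
        (∏ i, ∏ l, ‖S i - S0 l‖) * (∏ i, ∏ l, ‖T i - T0 l‖) := by
  have hne : ∀ i j, S i ≠ T j := fun i j he => by
    have := hST i j
    rw [he, sub_self, norm_zero] at this
    linarith
  have hne0 : ∀ k l, T0 k ≠ S0 l := fun k l he => by
    have := h00 k l
    rw [he, sub_self, norm_zero] at this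
    linarith
  have h1 := cau_trial_le (ι := κ) (κ := κ) (ι' := Fin m) (κ' := Fin m) rfl rfl hd S T S0 T0 hST hS0
    (fun i j => by rw [norm_sub_rev]; exact hT0 j i) h00
  rw [← norm_det_cauchy' S T hne, Fintype.card_fin] at h1
  have hpST : 0 < pcr S T := pcr_pos hne
  have hp0 : 0 < pcr T0 S0 := pcr_pos hne0
  have e0 : pcr S0 T0 = pcr T0 S0 := pcr_comm _ _
  rw [e0, pdd_eq_vandermonde, pdd_eq_vandermonde] at h1
  have eC : Cau0 S0 T0 = ‖(vandermonde S0).det‖ * ‖(vandermonde T0).det‖ / pcr T0 S0 := by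
    rw [norm_vandermonde, norm_vandermonde]
    rfl
  set D := ‖(Matrix.of fun i j => (S i - T j)⁻¹).det‖ with hD
  set V1 := ‖(vandermonde S0).det‖
  set V2 := ‖(vandermonde T0).det‖
  set F : ℝ := ((Fintype.card κ + m).factorial * d⁻¹ ^ (Fintype.card κ + m)) with hF
  have hFpos : 0 ≤ F := by positivity
  have hD0 : 0 ≤ D := norm_nonneg _
  -- cancel
  have h2 : (D * (V1 * V2 / pcr T0 S0) * pcr S T0 * pcr T S0) ^ 2 ≤
      (F * pcr S S0 * pcr T T0) ^ 2 := by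
    have hq : (0 : ℝ) < (pcr S T * pcr T0 S0) ^ 2 := by positivity
    have h3 : (D * (V1 * V2 / pcr T0 S0) * pcr S T0 * pcr T S0) ^ 2 *
        (pcr S T * pcr T0 S0) ^ 2 ≤ (F * pcr S S0 * pcr T T0) ^ 2 * (pcr S T * pcr T0 S0) ^ 2 := by
      have e3 : (D * (V1 * V2 / pcr T0 S0) * pcr S T0 * pcr T S0) ^ 2 *
          (pcr S T * pcr T0 S0) ^ 2 =
          D ^ 2 * pcr S T ^ 2 * (V1 ^ 2 * V2 ^ 2) * (pcr S T0 * pcr T S0) ^ 2 := by
        field_simp
      rw [e3]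
      refine h1.trans (le_of_eq ?_)
      ring
    exact le_of_mul_le_mul_right h3 hq
  have h4 := (abs_le_of_sq_le_sq' h2 (by
    have := pcr_nonneg S S0
    have := pcr_nonneg T T0
    positivity)).2
  rw [eC, one_div]
  exact h4

end T2
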