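import Pool.Agent.QS2.ClsJ
import Pool.Agent.QS2.ClsShift

/-!
# T2, module PA3a: inversion in the ring `Rh`

`rh_of_eq` : if `x` has coefficients in `O` and `x - β (1 + p h / w)^3 x(w - 1) ∈ Rh`, where
`1 - β` is a unit of `O`, then `x ∈ Rh`.
-/

set_option autoImplicit false

namespace T2

open Polynomial QS2.NV QS2.Cls
open HahnSeries hiding C

variable {F : Type*} [Field F] {O : Subring F}

/-- `z` is a polynomial modulo `p ^ k` -/
def PM (O : Subring F) (p k : ℕ) (z : LaurentSeries F) : Prop :=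
  ∃ P ∈ OP O, ∃ r ∈ RI O, z = QS2.NV.phi F P + HahnSeries.C ((p : F) ^ k) * r

variable {p : ℕ}

theorem PM.add {k : ℕ} {x z : LaurentSeries F} (hx : PM O p k x) (hz : PM O p k z) :
    PM O p k (x + z) := by
  obtain ⟨P, hP, r, hr, e⟩ := hx
  obtain ⟨P', hP', r', hr', e'⟩ := hz
  refine ⟨P + P', (OP O).add_mem hP hP', r + r', (RI O).add_mem hr hr', ?_⟩
  rw [map_add]
  linear_combination e + e'

theorem PM.neg {k : ℕ} {x : LaurentSeries F} (hx : PM O p k x) : PM O p k (-x) := by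
  obtain ⟨P, hP, r, hr, e⟩ := hx
  refine ⟨-P, (OP O).neg_mem hP, -r, (RI O).neg_mem hr, ?_⟩
  rw [map_neg]
  linear_combination -e

theorem PM.sub {k : ℕ} {x z : LaurentSeries F} (hx : PM O p k x) (hz : PM O p k z) :
    PM O p k (x - z) := by
  rw [sub_eq_add_neg]
  exact hx.add hz.neg

theorem PM.phi_mul {k : ℕ} {x : LaurentSeries F} (hx : PM O p k x) {Q : F[X]} (hQ : Q ∈ OP O) :
    PM O p k (QS2.NV.phi F Q * x) := by
  obtain ⟨P, hP, r, hr, e⟩ := hx
  refine ⟨Q * P, (OP O).mul_mem hQ hP, QS2.NV.phi F Q * r, (RI O).mul_mem (phi_mem_RI.2 hQ) hr, ?_⟩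
  rw [map_mul]
  linear_combination QS2.NV.phi F Q * e

theorem PM.C_mul {k : ℕ} {x : LaurentSeries F} (hx : PM O p k x) {a : F} (ha : a ∈ O) :
    PM O p k (HahnSeries.C a * x) := by
  rw [← phi_C]
  exact hx.phi_mul (C_mem_OP ha)

theorem PM.p_mul (hpO : (p : F) ∈ O) {k : ℕ} {x : LaurentSeries F} (hx : PM O p k x) :
    PM O p (k + 1) (HahnSeries.C (p : F) * x) := by
  obtain ⟨P, hP, r, hr, e⟩ := hx
  refine ⟨Polynomial.C (p : F) * P, (OP O).mul_mem (C_mem_OP hpO) hP, r, hr, ?_⟩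
  have e2 : (HahnSeries.C ((p : F) ^ (k + 1)) : LaurentSeries F) =
      HahnSeries.C (p : F) * HahnSeries.C ((p : F) ^ k) := by
    rw [← map_mul, ← pow_succ']
  rw [e2, map_mul, phi_C]
  linear_combination HahnSeries.C (p : F) * e

theorem PM.of_RI {x : LaurentSeries F} (hx : x ∈ RI O) : PM O p 0 x := by
  refine ⟨0, (OP O).zero_mem, x, hx, ?_⟩
  simp

theorem PM.p_RI (hpO : (p : F) ∈ O) {x : LaurentSeries F} (hx : x ∈ RI O) :
    PM O p 1 (HahnSeries.C (p : F) * x) := by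
  have := (PM.of_RI (p := p) hx).p_mul hpO
  simpa using this

theorem PM.phi {k : ℕ} {Q : F[X]} (hQ : Q ∈ OP O) : PM O p k (QS2.NV.phi F Q) :=
  ⟨Q, hQ, 0, (RI O).zero_mem, by simp⟩

theorem PM.zero {k : ℕ} : PM O p k (0 : LaurentSeries F) := by
  have := PM.phi (p := p) (k := k) (OP O).zero_mem
  rwa [map_zero] at this

theorem PM.mem_RI (hpO : (p : F) ∈ O) {k : ℕ} {x : LaurentSeries F} (h : PM O p k x) :
    x ∈ RI O := by
  obtain ⟨P, hP, r, hr, e⟩ := h
  rw [e]
  exact (RI O).add_mem (phi_mem_RI.2 hP) ((RI O).mul_mem (C_mem_RI (O.pow_mem hpO _)) hr)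

theorem PM.shL {k : ℕ} {x : LaurentSeries F} (hx : PM O p k x) : PM O p k (shL x) := by
  obtain ⟨P, hP, r, hr, e⟩ := hx
  refine ⟨P.comp (X - 1), comp_mem_OP hP, QS2.Cls.shL r, shL_mem_RI hr, ?_⟩
  rw [e, map_add, map_mul, shL_phi, shL_C]

/-! ## The shift modulo `p` -/

/-- a series of negative degree as a power series without constant term -/
theorem coeff_shL_of_neg {x : LaurentSeries F} (h : QS2.Cls.Neg x) (k : ℕ) :
    (QS2.Cls.shL x).coeff ((k : ℤ) + 1) =
      ∑ m ∈ Finset.range (k + 1), (k.choose m : F) * x.coeff ((m : ℤ) + 1) := by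
  have hx : x = ser (PowerSeries.mk fun n => x.coeff (n : ℤ)) := by
    ext n
    rw [ser_coeff]
    split_ifs with hn
    · rw [PowerSeries.coeff_mk]
      congr 1
      omega
    · exact h n (by omega)
  have e1 : QS2.Cls.shL x = ser (sh (PowerSeries.mk fun n => x.coeff (n : ℤ))) := by
    conv_lhs => rw [hx]
    rw [shL_ser]
  rw [e1, ser_coeff, if_pos (by omega)]
  have e2 : ((k : ℤ) + 1).toNat = k + 1 := by omega
  rw [e2, coeff_sh]
  refine Finset.sum_congr rfl fun m _ => ?_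
  rw [PowerSeries.coeff_mk]
  push_cast
  rfl

/-- `X - β X(w-1) ∈ p RI` implies `X ∈ p RI` for `X` of negative degree -/
theorem neg_inv {be : F} (hbe : be ∈ O) (hu0 : 1 - be ≠ 0) (hu : (1 - be)⁻¹ ∈ O)
    {x r : LaurentSeries F} (hn : QS2.Cls.Neg x) (hr : r ∈ RI O)
    (e : x - HahnSeries.C be * QS2.Cls.shL x = HahnSeries.C (p : F) * r) (n : ℤ) :
    ∃ a ∈ O, x.coeff n = (p : F) * a := by
  by_cases h0 : n ≤ 0
  · exact ⟨0, O.zero_mem, by rw [hn n h0, mul_zero]⟩
  · obtain ⟨k, hk⟩ : ∃ k : ℕ, n = (k : ℤ) + 1 := ⟨(n - 1).toNat, by omega⟩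
    subst hk
    clear h0
    induction k using Nat.strong_induction_on with
    | _ k ih =>
      have h1 := congrArg (fun z : LaurentSeries F => z.coeff ((k : ℤ) + 1)) e
      simp only [HahnSeries.coeff_sub, QS2.Cls.coeff_C_mul] at h1
      rw [coeff_shL_of_neg hn, Finset.sum_range_succ, Nat.choose_self, Nat.cast_one, one_mul] at h1
      have h2 : ∃ b ∈ O, ∑ m ∈ Finset.range k, (k.choose m : F) * x.coeff ((m : ℤ) + 1) =
          (p : F) * b := by
        choose! f hf hfe using ih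
        refine ⟨∑ m ∈ Finset.range k, (k.choose m : F) * f m, ?_, ?_⟩
        · exact O.sum_mem fun m hm => O.mul_mem (natCast_mem O _) (hf m (Finset.mem_range.1 hm))
        · rw [Finset.mul_sum]
          refine Finset.sum_congr rfl fun m hm => ?_
          rw [hfe m (Finset.mem_range.1 hm)]
          ring
      obtain ⟨b, hb, hbe'⟩ := h2
      rw [hbe'] at h1
      refine ⟨(1 - be)⁻¹ * (r.coeff ((k : ℤ) + 1) + be * b),
        O.mul_mem hu (O.add_mem (hr _) (O.mul_mem hbe hb)), ?_⟩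
      have h3 : (1 - be) * x.coeff ((k : ℤ) + 1) =
          (p : F) * (r.coeff ((k : ℤ) + 1) + be * b) := by
        linear_combination h1
      have h4 : x.coeff ((k : ℤ) + 1) = (1 - be)⁻¹ * ((1 - be) * x.coeff ((k : ℤ) + 1)) := by
        rw [← mul_assoc, inv_mul_cancel₀ hu0, one_mul]
      rw [h4, h3]
      ring

/-- if `z` and `z - β z(w-1)` are polynomials modulo `p ^ k`, `p ^ (k+1)`, then so is `z` -/
theorem PM.step (hp0 : (p : F) ≠ 0) {be : F} (hbe : be ∈ O) (hu0 : 1 - be ≠ 0)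
    (hu : (1 - be)⁻¹ ∈ O) {k : ℕ} {z : LaurentSeries F} (hz : PM O p k z)
    (hz' : PM O p (k + 1) (z - HahnSeries.C be * QS2.Cls.shL z)) : PM O p (k + 1) z := by
  obtain ⟨P, hP, r, hr, e⟩ := hz
  obtain ⟨P', hP', r', hr', e'⟩ := hz'
  obtain ⟨x, hx⟩ : ∃ x, x = r - QS2.NV.phi F (plus r) := ⟨_, rfl⟩
  have hxn : QS2.Cls.Neg x := hx ▸ neg_sub_plus r
  have hxm : x ∈ RI O := hx ▸ (RI O).sub_mem hr (phi_mem_RI.2 (plus_mem hr))
  obtain ⟨x', hx'⟩ : ∃ x', x' = r' - QS2.NV.phi F (plus r') := ⟨_, rfl⟩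
  have hxn' : QS2.Cls.Neg x' := hx' ▸ neg_sub_plus r'
  have hxm' : x' ∈ RI O := hx' ▸ (RI O).sub_mem hr' (phi_mem_RI.2 (plus_mem hr'))
  obtain ⟨P1, hP1⟩ : ∃ P1, P1 = P + Polynomial.C ((p : F) ^ k) * plus r := ⟨_, rfl⟩
  have e1 : z = QS2.NV.phi F P1 + HahnSeries.C ((p : F) ^ k) * x := by
    rw [e, hP1, hx, map_add, map_mul, phi_C]
    ring
  obtain ⟨P2, hP2⟩ : ∃ P2, P2 = P' + Polynomial.C ((p : F) ^ (k + 1)) * plus r' := ⟨_, rfl⟩
  have e2 : z - HahnSeries.C be * QS2.Cls.shL z =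
      QS2.NV.phi F P2 + HahnSeries.C ((p : F) ^ (k + 1)) * x' := by
    rw [e', hP2, hx', map_add, map_mul, phi_C]
    ring
  have hpk : (HahnSeries.C ((p : F) ^ (k + 1)) : LaurentSeries F) =
      HahnSeries.C ((p : F) ^ k) * HahnSeries.C (p : F) := by
    rw [← map_mul, ← pow_succ]
  -- compare the parts of negative degree
  have e3 : HahnSeries.C ((p : F) ^ k) * (x - HahnSeries.C be * QS2.Cls.shL x -
      HahnSeries.C (p : F) * x') =
      QS2.NV.phi F (P2 - P1 + Polynomial.C be * P1.comp (X - 1)) := by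
    rw [e1, map_add, map_mul, shL_phi, shL_C] at e2
    rw [map_add (QS2.NV.phi F), map_sub (QS2.NV.phi F), map_mul (QS2.NV.phi F), phi_C]
    rw [hpk] at e2
    linear_combination e2
  have hneg : QS2.Cls.Neg (HahnSeries.C ((p : F) ^ k) * (x - HahnSeries.C be * QS2.Cls.shL x -
      HahnSeries.C (p : F) * x')) := by
    intro n hn
    rw [QS2.Cls.coeff_C_mul, HahnSeries.coeff_sub, HahnSeries.coeff_sub, QS2.Cls.coeff_C_mul, QS2.Cls.coeff_C_mul,
      hxn n hn, hxn.shL n hn, hxn' n hn]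
    ring
  have e4 : P2 - P1 + Polynomial.C be * P1.comp (X - 1) = 0 := by
    have h1 := plus_neg hneg
    rw [e3, plus_phi] at h1
    exact h1
  rw [e4, map_zero] at e3
  have e5 : x - HahnSeries.C be * QS2.Cls.shL x = HahnSeries.C (p : F) * x' := by
    have h1 : (HahnSeries.C ((p : F) ^ k) : LaurentSeries F) ≠ 0 := by
      rw [Ne, map_eq_zero_iff _ (HahnSeries.C_injective)]
      exact pow_ne_zero _ hp0
    have h2 := (mul_eq_zero.1 e3).resolve_left h1
    linear_combination h2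
  have h6 := neg_inv (p := p) hbe hu0 hu hxn hxm' e5
  refine ⟨P1, ?_, HahnSeries.C (p : F)⁻¹ * x, ?_, ?_⟩
  · rw [hP1]
    exact (OP O).add_mem hP ((OP O).mul_mem (C_mem_OP (O.pow_mem (natCast_mem O _) _))
      (plus_mem hr))
  · intro n
    rw [QS2.Cls.coeff_C_mul]
    obtain ⟨a, ha, hae⟩ := h6 n
    rw [hae, ← mul_assoc, inv_mul_cancel₀ hp0, one_mul]
    exact ha
  · rw [e1, hpk, mul_assoc, ← mul_assoc (HahnSeries.C (p : F)), ← map_mul, mul_inv_cancel₀ hp0,
      map_one, one_mul]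

/-! ## Powers of `y` and of its shift -/

section

variable {y u : F[X]}

theorem comp_of_fac (hu : y = X * u) (hyz : X * y.comp (X - 1) = (X - Polynomial.C (p : F)) * y) :
    y.comp (X - 1) = y - Polynomial.C (p : F) * u := by
  have h1 : X * y.comp (X - 1) = X * (y - Polynomial.C (p : F) * u) := by
    rw [hyz]
    linear_combination (-(Polynomial.C (p : F))) * hu
  exact mul_left_cancel₀ X_ne_zero h1

/-- `y ^ i y(w-1) ^ m x(w-1)` against `y(w-1) ^ (i+m) x(w-1)` -/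
theorem pow_shift (hpO : (p : F) ∈ O) (huO : u ∈ OP O)
    (hy' : y.comp (X - 1) = y - Polynomial.C (p : F) * u) {x : LaurentSeries F} {k : ℕ}
    (hx : ∀ j < k, PM O p (j + 1) (QS2.NV.phi F y ^ j * x)) (i : ℕ) :
    ∀ m, i + m ≤ k → PM O p (i + m + 1)
      (QS2.NV.phi F y ^ i * QS2.NV.phi F (y.comp (X - 1)) ^ m * QS2.Cls.shL x -
        QS2.NV.phi F (y.comp (X - 1)) ^ (i + m) * QS2.Cls.shL x) := by
  have hsh : ∀ j, QS2.NV.phi F (y.comp (X - 1)) ^ j * QS2.Cls.shL x = QS2.Cls.shL (QS2.NV.phi F y ^ j * x) := by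
    intro j
    rw [map_mul, map_pow, shL_phi]
  induction i with
  | zero =>
    intro m _
    rw [pow_zero, one_mul, zero_add, sub_self]
    exact PM.zero
  | succ i ih =>
    intro m hm
    have h1 := ih (m + 1) (by omega)
    have h2 := ih m (by omega)
    have h3 : PM O p (i + m + 1) (QS2.NV.phi F (y.comp (X - 1)) ^ (i + m) * QS2.Cls.shL x) := by
      rw [hsh]
      exact (hx (i + m) (by omega)).shL
    have h4 := ((h2.add h3).phi_mul huO).p_mul hpO
    have e1 : i + (m + 1) + 1 = i + 1 + m + 1 := by ring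
    have e2 : i + m + 1 + 1 = i + 1 + m + 1 := by ring
    rw [e1] at h1
    rw [e2] at h4
    have h5 := h1.add h4
    have e3 : QS2.NV.phi F y = QS2.NV.phi F (y.comp (X - 1)) + HahnSeries.C (p : F) * QS2.NV.phi F u := by
      rw [← phi_C, ← map_mul, ← map_add, hy']
      congr 1
      ring
    have e4 : QS2.NV.phi F y ^ (i + 1) * QS2.NV.phi F (y.comp (X - 1)) ^ m * QS2.Cls.shL x -
        QS2.NV.phi F (y.comp (X - 1)) ^ (i + 1 + m) * QS2.Cls.shL x =
        (QS2.NV.phi F y ^ i * QS2.NV.phi F (y.comp (X - 1)) ^ (m + 1) * QS2.Cls.shL x -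
          QS2.NV.phi F (y.comp (X - 1)) ^ (i + (m + 1)) * QS2.Cls.shL x) +
        HahnSeries.C (p : F) * (QS2.NV.phi F u *
          (QS2.NV.phi F y ^ i * QS2.NV.phi F (y.comp (X - 1)) ^ m * QS2.Cls.shL x -
            QS2.NV.phi F (y.comp (X - 1)) ^ (i + m) * QS2.Cls.shL x +
            QS2.NV.phi F (y.comp (X - 1)) ^ (i + m) * QS2.Cls.shL x)) := by
      have e5 : i + 1 + m = i + (m + 1) := by ring
      rw [e5, sub_add_cancel, pow_succ (QS2.NV.phi F y) i, pow_succ (QS2.NV.phi F (y.comp (X - 1))) m]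
      linear_combination (QS2.NV.phi F y ^ i * QS2.NV.phi F (y.comp (X - 1)) ^ m * QS2.Cls.shL x) * e3
    rw [e4]
    exact h5

theorem pow_shift' (hpO : (p : F) ∈ O) (huO : u ∈ OP O)
    (hy' : y.comp (X - 1) = y - Polynomial.C (p : F) * u) {x : LaurentSeries F} {k : ℕ}
    (hx : ∀ j < k, PM O p (j + 1) (QS2.NV.phi F y ^ j * x)) :
    PM O p (k + 1) (QS2.NV.phi F y ^ k * QS2.Cls.shL x - QS2.Cls.shL (QS2.NV.phi F y ^ k * x)) := by
  have := pow_shift hpO huO hy' hx k 0 (by omega)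
  rw [pow_zero, mul_one, add_zero] at this
  rwa [map_mul, map_pow, shL_phi]

/-- multiplication by `1 + p h / w` -/
theorem mul_lin (hpO : (p : F) ∈ O) (huO : u ∈ OP O) (hu : y = X * u) {h : F} (hh : h ∈ O)
    {q : LaurentSeries F} (hq : QS2.NV.phi F X * q = 1) (hqm : q ∈ RI O) {f : LaurentSeries F}
    (hf0 : f ∈ RI O) {k : ℕ} (hf : ∀ j < k, PM O p (j + 1) (QS2.NV.phi F y ^ j * f)) :
    (1 + HahnSeries.C ((p : F) * h) * q) * f ∈ RI O ∧
    (∀ j < k, PM O p (j + 1) (QS2.NV.phi F y ^ j * ((1 + HahnSeries.C ((p : F) * h) * q) * f))) ∧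
    PM O p (k + 1) (QS2.NV.phi F y ^ k * ((1 + HahnSeries.C ((p : F) * h) * q) * f) -
      QS2.NV.phi F y ^ k * f) := by
  have key : ∀ j ≤ k, PM O p (j + 1)
      (QS2.NV.phi F y ^ j * ((1 + HahnSeries.C ((p : F) * h) * q) * f) - QS2.NV.phi F y ^ j * f) := by
    intro j hj
    rcases j with _ | j
    · have h1 := PM.p_RI (p := p) hpO (x := HahnSeries.C h * (q * f))
        ((RI O).mul_mem (C_mem_RI hh) ((RI O).mul_mem hqm hf0))
      have e : QS2.NV.phi F y ^ 0 * ((1 + HahnSeries.C ((p : F) * h) * q) * f) - QS2.NV.phi F y ^ 0 * f =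
          HahnSeries.C (p : F) * (HahnSeries.C h * (q * f)) := by
        rw [map_mul, pow_zero]
        ring
      rw [e]
      exact h1
    · have h1 := (((hf j (by omega)).phi_mul huO).C_mul hh).p_mul hpO
      have e : QS2.NV.phi F y ^ (j + 1) * ((1 + HahnSeries.C ((p : F) * h) * q) * f) -
          QS2.NV.phi F y ^ (j + 1) * f =
          HahnSeries.C (p : F) * (HahnSeries.C h * (QS2.NV.phi F u * (QS2.NV.phi F y ^ j * f))) := by
        rw [map_mul HahnSeries.C, pow_succ]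
        have e1 : QS2.NV.phi F y = QS2.NV.phi F X * QS2.NV.phi F u := by rw [← map_mul, ← hu]
        have e2 : QS2.NV.phi F y * q = QS2.NV.phi F u := by
          rw [e1]
          linear_combination QS2.NV.phi F u * hq
        linear_combination (HahnSeries.C (p : F) * HahnSeries.C h * f * QS2.NV.phi F y ^ j) * e2
      rw [e]
      exact h1
  refine ⟨?_, fun j hj => ?_, key k le_rfl⟩
  · refine (RI O).mul_mem ((RI O).add_mem (RI O).one_mem ((RI O).mul_mem (C_mem_RI ?_) hqm)) hf0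
    exact O.mul_mem hpO hh
  · have h1 := (key j hj.le).add (hf j hj)
    rwa [sub_add_cancel] at h1

/-- **Inversion in `Rh`.** -/
theorem rh_of_eq (hp0 : (p : F) ≠ 0) (hpO : (p : F) ∈ O) (huO : u ∈ OP O) (hu : y = X * u)
    (hyz : X * y.comp (X - 1) = (X - Polynomial.C (p : F)) * y) {be h : F} (hbe : be ∈ O)
    (hu0 : 1 - be ≠ 0) (hui : (1 - be)⁻¹ ∈ O) (hh : h ∈ O)
    {q : LaurentSeries F} (hq : QS2.NV.phi F X * q = 1) (hqm : q ∈ RI O)
    {x g : LaurentSeries F} (hx : x ∈ RI O) (hg : Rh O p y g)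
    (e : x - HahnSeries.C be * ((1 + HahnSeries.C ((p : F) * h) * q) ^ 3 * QS2.Cls.shL x) = g) :
    Rh O p y x := by
  have hy' := comp_of_fac hu hyz
  have hyO : y ∈ OP O := by
    rw [hu]
    exact (OP O).mul_mem X_mem_OP huO
  have main : ∀ k, PM O p (k + 1) (QS2.NV.phi F y ^ k * x) := by
    intro k
    induction k using Nat.strong_induction_on with
    | _ k ih =>
      -- `z = y ^ k x` is a polynomial modulo `p ^ k`
      have hz : PM O p k (QS2.NV.phi F y ^ k * x) := by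
        rcases k with _ | k
        · exact PM.of_RI (by simpa using hx)
        · have h1 := (ih k (by omega)).phi_mul hyO
          rwa [← mul_assoc, ← pow_succ'] at h1
      refine PM.step hp0 hbe hu0 hui hz ?_
      -- the shifted series has the same property below `k`
      have hs0 : QS2.Cls.shL x ∈ RI O := shL_mem_RI hx
      have hsk : ∀ j ≤ k, PM O p (j + 1)
          (QS2.NV.phi F y ^ j * QS2.Cls.shL x - QS2.Cls.shL (QS2.NV.phi F y ^ j * x)) := fun j hj =>
        pow_shift' hpO huO hy' fun i hi => ih i (by omega)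
      have hs : ∀ j < k, PM O p (j + 1) (QS2.NV.phi F y ^ j * QS2.Cls.shL x) := by
        intro j hj
        have h1 := (hsk j hj.le).add (ih j hj).shL
        rwa [sub_add_cancel] at h1
      obtain ⟨a0, a1, a2⟩ := mul_lin hpO huO hu hh hq hqm hs0 hs
      obtain ⟨b0, b1, b2⟩ := mul_lin hpO huO hu hh hq hqm a0 a1
      obtain ⟨c0, c1, c2⟩ := mul_lin hpO huO hu hh hq hqm b0 b1
      obtain ⟨P, hP, r, hr, eg⟩ := hg k
      have h5 : PM O p (k + 1) (QS2.NV.phi F y ^ k * g) := ⟨P, hP, r, hr, eg⟩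
      have h6 := h5.add ((((a2.add b2).add c2).add (hsk k le_rfl)).C_mul hbe)
      refine (congrArg (PM O p (k + 1)) ?_).mp h6
      rw [← e]
      ring
  intro k
  exact main k

end

end T2
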