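import Mathlib

/-!
# T2, module SF2: the two integer sequences

`qC m = ∑ C(m,k)² C(2k,k)` (Zagier C: 1, 3, 15, 93, 639) and `fC m = ∑ C(m,k)³`
(Franel: 1, 2, 10, 56, 346), with their three term recurrences (WZ certificates).
-/

namespace T2

open Finset

/-- Zagier's sequence C: `1, 3, 15, 93, 639, …`. -/
def qC (m : ℕ) : ℕ := ∑ k ∈ range (m + 1), m.choose k ^ 2 * k.centralBinom

/-- Franel numbers: `1, 2, 10, 56, 346, …`. -/
def fC (m : ℕ) : ℕ := ∑ k ∈ range (m + 1), m.choose k ^ 3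

theorem qC_zero : qC 0 = 1 := by decide
theorem qC_one : qC 1 = 3 := by decide
theorem fC_zero : fC 0 = 1 := by decide
theorem fC_one : fC 1 = 2 := by decide

/-- the sum may be taken over any larger range -/
theorem qC_eq (m K : ℕ) (h : m ≤ K) :
    qC m = ∑ k ∈ range (K + 1), m.choose k ^ 2 * k.centralBinom := by
  unfold qC
  refine sum_subset (range_subset_range.2 (by omega)) ?_
  intro x _ hx
  rw [Finset.mem_range, not_lt] at hx
  rw [Nat.choose_eq_zero_of_lt (by omega)]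
  simp

theorem fC_eq (m K : ℕ) (h : m ≤ K) :
    fC m = ∑ k ∈ range (K + 1), m.choose k ^ 3 := by
  unfold fC
  refine sum_subset (range_subset_range.2 (by omega)) ?_
  intro x _ hx
  rw [Finset.mem_range, not_lt] at hx
  rw [Nat.choose_eq_zero_of_lt (by omega)]
  simp

/-- all the binomials of one step of the telescoping are multiples of one number -/
theorem binom_param (N K : ℕ) : ∃ t : ℚ,
    ((N + 1).choose K : ℚ) = (K + 1) * (N + 1) * t ∧
    ((N + 1).choose (K + 1) : ℚ) = (N + 1 - K) * (N + 1) * t ∧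
    ((N + 2).choose (K + 1) : ℚ) = (N + 2) * (N + 1) * t ∧
    (N.choose (K + 1) : ℚ) = (N - K) * (N + 1 - K) * t := by
  have hK : ((K : ℚ) + 1) ≠ 0 := by positivity
  have hN : ((N : ℚ) + 1) ≠ 0 := by positivity
  refine ⟨((N + 1).choose K : ℚ) / ((K + 1) * (N + 1)), ?_, ?_, ?_, ?_⟩
  · field_simp
  · have h : ((N + 1).choose (K + 1) : ℚ) * (K + 1) = (N + 1).choose K * (N + 1 - K) := by
      rcases le_or_gt K (N + 1) with hle | hlt
      · have := Nat.choose_succ_right_eq (N + 1) K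
        have h2 : (((N + 1).choose (K + 1) * (K + 1) : ℕ) : ℚ)
            = (((N + 1).choose K * (N + 1 - K) : ℕ) : ℚ) := by rw [this]
        rw [Nat.cast_mul, Nat.cast_mul, Nat.cast_sub hle] at h2
        push_cast at h2
        linarith
      · rw [Nat.choose_eq_zero_of_lt hlt, Nat.choose_eq_zero_of_lt (by omega)]
        simp
    field_simp
    linarith
  · have h : ((N + 2).choose (K + 1) : ℚ) * (K + 1) = (N + 1).choose K * (N + 2) := by
      have := Nat.add_one_mul_choose_eq (N + 1) K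
      have h2 : (((N + 1 + 1) * (N + 1).choose K : ℕ) : ℚ)
          = (((N + 1 + 1).choose (K + 1) * (K + 1) : ℕ) : ℚ) := by rw [this]
      push_cast at h2
      have e : N + 1 + 1 = N + 2 := rfl
      rw [e] at h2
      linarith
    field_simp
    linarith
  · have h : ((N + 1).choose (K + 1) : ℚ) * (K + 1) = (N + 1).choose K * (N + 1 - K) := by
      rcases le_or_gt K (N + 1) with hle | hlt
      · have := Nat.choose_succ_right_eq (N + 1) K
        have h2 : (((N + 1).choose (K + 1) * (K + 1) : ℕ) : ℚ)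
            = (((N + 1).choose K * (N + 1 - K) : ℕ) : ℚ) := by rw [this]
        rw [Nat.cast_mul, Nat.cast_mul, Nat.cast_sub hle] at h2
        push_cast at h2
        linarith
      · rw [Nat.choose_eq_zero_of_lt hlt, Nat.choose_eq_zero_of_lt (by omega)]
        simp
    have h' : (N.choose (K + 1) : ℚ) * (N + 1) = (N + 1).choose (K + 1) * (N - K) := by
      rcases le_or_gt (K + 1) (N + 1) with hle | hlt
      · have := Nat.choose_mul_succ_eq N (K + 1)
        have h2 : ((N.choose (K + 1) * (N + 1) : ℕ) : ℚ)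
            = (((N + 1).choose (K + 1) * (N + 1 - (K + 1)) : ℕ) : ℚ) := by rw [this]
        rw [Nat.cast_mul, Nat.cast_mul, Nat.cast_sub hle] at h2
        push_cast at h2
        linarith
      · rw [Nat.choose_eq_zero_of_lt hlt, Nat.choose_eq_zero_of_lt (by omega)]
        simp
    field_simp
    have : (N.choose (K + 1) : ℚ) * (N + 1) * (K + 1)
        = (N + 1).choose K * (N + 1 - K) * (N - K) := by
      rw [h', ← h]; ring
    linarith

/-- certificate of the recurrence of `qC` -/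
theorem qC_cert (N K : ℕ) :
    ∑ k ∈ range (K + 1), ((((N : ℚ) + 2) ^ 2 * ((N + 2).choose k : ℚ) ^ 2
        - (10 * ((N : ℚ) + 1) ^ 2 + 10 * ((N : ℚ) + 1) + 3) * ((N + 1).choose k : ℚ) ^ 2
        + 9 * ((N : ℚ) + 1) ^ 2 * (N.choose k : ℚ) ^ 2) * (k.centralBinom : ℚ))
      = 2 * (2 * (K : ℚ) + 1) * (3 * K - 4 * (N + 1) - 1) * ((N + 1).choose K : ℚ) ^ 2
          * (K.centralBinom : ℚ) := by
  induction K with
  | zero => simp; ring
  | succ K ih =>
    rw [sum_range_succ, ih]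
    obtain ⟨t, h1, h2, h3, h4⟩ := binom_param N K
    rw [h1, h2, h3, h4]
    have hK : ((K : ℚ) + 1) ≠ 0 := by positivity
    have hc : ((K + 1).centralBinom : ℚ) = 2 * (2 * K + 1) / (K + 1) * (K.centralBinom : ℚ) := by
      have := Nat.succ_mul_centralBinom_succ K
      have h2 : (((K + 1) * (K + 1).centralBinom : ℕ) : ℚ)
          = ((2 * (2 * K + 1) * K.centralBinom : ℕ) : ℚ) := by rw [this]
      push_cast at h2
      field_simp
      linarith
    rw [hc]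
    push_cast
    field_simp
    ring

/-- certificate of the recurrence of `fC` -/
theorem fC_cert (N K : ℕ) :
    ((N : ℚ) + 1) * ∑ k ∈ range (K + 1), (((N : ℚ) + 2) ^ 2 * ((N + 2).choose k : ℚ) ^ 3
        - (7 * ((N : ℚ) + 1) ^ 2 + 7 * ((N : ℚ) + 1) + 2) * ((N + 1).choose k : ℚ) ^ 3
        - 8 * ((N : ℚ) + 1) ^ 2 * (N.choose k : ℚ) ^ 3)
      = (4 * (K : ℚ) ^ 3 - 18 * (N + 1) * K ^ 2 + (27 * (N + 1) ^ 2 + 3 * (N + 1)) * K
          - 14 * (N + 1) ^ 3 - 5 * (N + 1) ^ 2 - (N + 1)) * ((N + 1).choose K : ℚ) ^ 3 := by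
  induction K with
  | zero => simp; ring
  | succ K ih =>
    rw [sum_range_succ, mul_add, ih]
    obtain ⟨t, h1, h2, h3, h4⟩ := binom_param N K
    rw [h1, h2, h3, h4]
    push_cast
    ring

theorem qC_rec_rat (N : ℕ) :
    ((N : ℚ) + 2) ^ 2 * (qC (N + 2) : ℚ)
      = (10 * ((N : ℚ) + 1) ^ 2 + 10 * ((N : ℚ) + 1) + 3) * (qC (N + 1) : ℚ)
        - 9 * ((N : ℚ) + 1) ^ 2 * (qC N : ℚ) := by
  have h := qC_cert N (N + 2)
  rw [Nat.choose_eq_zero_of_lt (by omega : N + 1 < N + 2)] at h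
  rw [qC_eq (N + 2) (N + 2) le_rfl, qC_eq (N + 1) (N + 2) (by omega), qC_eq N (N + 2) (by omega)]
  push_cast at h ⊢
  have e : ∑ k ∈ range (N + 2 + 1), ((((N : ℚ) + 2) ^ 2 * ((N + 2).choose k : ℚ) ^ 2
        - (10 * ((N : ℚ) + 1) ^ 2 + 10 * ((N : ℚ) + 1) + 3) * ((N + 1).choose k : ℚ) ^ 2
        + 9 * ((N : ℚ) + 1) ^ 2 * (N.choose k : ℚ) ^ 2) * (k.centralBinom : ℚ))
      = ((N : ℚ) + 2) ^ 2 * ∑ k ∈ range (N + 2 + 1), ((N + 2).choose k : ℚ) ^ 2 * (k.centralBinom : ℚ)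
        - (10 * ((N : ℚ) + 1) ^ 2 + 10 * ((N : ℚ) + 1) + 3)
            * ∑ k ∈ range (N + 2 + 1), ((N + 1).choose k : ℚ) ^ 2 * (k.centralBinom : ℚ)
        + 9 * ((N : ℚ) + 1) ^ 2 * ∑ k ∈ range (N + 2 + 1), (N.choose k : ℚ) ^ 2 * (k.centralBinom : ℚ) := by
    rw [mul_sum, mul_sum, mul_sum, ← sum_sub_distrib, ← sum_add_distrib]
    refine sum_congr rfl fun k _ => ?_
    ring
  rw [e] at h
  linarith

theorem fC_rec_rat (N : ℕ) :
    ((N : ℚ) + 2) ^ 2 * (fC (N + 2) : ℚ)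
      = (7 * ((N : ℚ) + 1) ^ 2 + 7 * ((N : ℚ) + 1) + 2) * (fC (N + 1) : ℚ)
        + 8 * ((N : ℚ) + 1) ^ 2 * (fC N : ℚ) := by
  have h := fC_cert N (N + 2)
  rw [Nat.choose_eq_zero_of_lt (by omega : N + 1 < N + 2)] at h
  rw [fC_eq (N + 2) (N + 2) le_rfl, fC_eq (N + 1) (N + 2) (by omega), fC_eq N (N + 2) (by omega)]
  push_cast at h ⊢
  have e : ∑ k ∈ range (N + 2 + 1), (((N : ℚ) + 2) ^ 2 * ((N + 2).choose k : ℚ) ^ 3
        - (7 * ((N : ℚ) + 1) ^ 2 + 7 * ((N : ℚ) + 1) + 2) * ((N + 1).choose k : ℚ) ^ 3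
        - 8 * ((N : ℚ) + 1) ^ 2 * (N.choose k : ℚ) ^ 3)
      = ((N : ℚ) + 2) ^ 2 * ∑ k ∈ range (N + 2 + 1), ((N + 2).choose k : ℚ) ^ 3
        - (7 * ((N : ℚ) + 1) ^ 2 + 7 * ((N : ℚ) + 1) + 2)
            * ∑ k ∈ range (N + 2 + 1), ((N + 1).choose k : ℚ) ^ 3
        - 8 * ((N : ℚ) + 1) ^ 2 * ∑ k ∈ range (N + 2 + 1), (N.choose k : ℚ) ^ 3 := by
    rw [mul_sum, mul_sum, mul_sum, ← sum_sub_distrib, ← sum_sub_distrib]
  rw [e] at h
  have hN : ((N : ℚ) + 1) ≠ 0 := by positivity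
  have h0 := (mul_eq_zero.1 (h.trans (by ring))).resolve_left hN
  linarith

/-- recurrence of `qC`, in any commutative ring -/
theorem qC_rec {R : Type*} [CommRing R] (N : ℕ) :
    ((N : R) + 2) ^ 2 * (qC (N + 2) : R)
      = (10 * ((N : R) + 1) ^ 2 + 10 * ((N : R) + 1) + 3) * (qC (N + 1) : R)
        - 9 * ((N : R) + 1) ^ 2 * (qC N : R) := by
  have hZ : ((N : ℤ) + 2) ^ 2 * (qC (N + 2) : ℤ)
      = (10 * ((N : ℤ) + 1) ^ 2 + 10 * ((N : ℤ) + 1) + 3) * (qC (N + 1) : ℤ)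
        - 9 * ((N : ℤ) + 1) ^ 2 * (qC N : ℤ) := by
    have := qC_rec_rat N
    exact_mod_cast this
  have := congrArg (Int.cast : ℤ → R) hZ
  push_cast at this
  exact this

/-- recurrence of `fC`, in any commutative ring -/
theorem fC_rec {R : Type*} [CommRing R] (N : ℕ) :
    ((N : R) + 2) ^ 2 * (fC (N + 2) : R)
      = (7 * ((N : R) + 1) ^ 2 + 7 * ((N : R) + 1) + 2) * (fC (N + 1) : R)
        + 8 * ((N : R) + 1) ^ 2 * (fC N : R) := by
  have hZ : ((N : ℤ) + 2) ^ 2 * (fC (N + 2) : ℤ)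
      = (7 * ((N : ℤ) + 1) ^ 2 + 7 * ((N : ℤ) + 1) + 2) * (fC (N + 1) : ℤ)
        + 8 * ((N : ℤ) + 1) ^ 2 * (fC N : ℤ) := by
    have := fC_rec_rat N
    exact_mod_cast this
  have := congrArg (Int.cast : ℤ → R) hZ
  push_cast at this
  exact this

end T2
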