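import Pool.Agent.QS2.FormalV
import Pool.Agent.T2.SF2

/-!
# T2, module SF1: the formal sheets

`ε = 1` : the `ζ(2)` sheet, `ε = -1` : the `L(2, χ_{-3})` sheet. With `X = 1 / z`:

* `IsSheet ε s s1` : `s`, `s1` are the coefficient sequences of `S(z)`, `S(z+1)` and
  `(z+1)^3 S(z+1) - ε ap(z) S(z) + z^3 S(z-1) = ε (2z+1)`;
* `T m = m!^2 / ∏_{i ≤ m} (z + i + 1) (z - i)`, `T1 m (z) = T m (z + 1)`;
* `sumT κ = ∑ κ_m T m`; it is a sheet if `κ` solves the recurrence `Kap`.
-/

set_option autoImplicit false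

namespace T2

open PowerSeries Finset QS2 QS2.FV

/-- formal sheet -/
structure IsSheet {R : Type*} [CommRing R] (ε : R) (s s1 : ℕ → R) : Prop where
  shift : shm s1 = s
  eqn : (1 + X) ^ 3 * PowerSeries.mk s1 - C ε * (34 + 51 * X + 27 * X ^ 2 + 5 * X ^ 3) *
    PowerSeries.mk s + PowerSeries.mk (shm s) = C ε * (2 * X ^ 2 + X ^ 3)

variable {F : Type*} [Field F]

/-- `X^{2m+2}` times the denominator of `T m` -/
noncomputable def den (F : Type*) [Field F] (m : ℕ) : PowerSeries F :=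
  ∏ i ∈ range (m + 1), ((1 + C ((i : F) + 1) * X) * (1 - C (i : F) * X))

/-- `m!^2 / ∏_{i ≤ m} (z + i + 1) (z - i)` -/
noncomputable def T (F : Type*) [Field F] (m : ℕ) : PowerSeries F :=
  C ((m.factorial : F) ^ 2) * X ^ (2 * m + 2) * (den F m)⁻¹

/-- `T m` at `z + 1` -/
noncomputable def T1 (F : Type*) [Field F] (m : ℕ) : PowerSeries F :=
  T F m * ((1 - C (m : F) * X) * (1 + C ((m : F) + 2) * X)⁻¹)

theorem cc_lin (a : F) : constantCoeff (1 + C a * X : PowerSeries F) = 1 := by simp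
theorem cc_lin' (a : F) : constantCoeff (1 - C a * X : PowerSeries F) = 1 := by simp

theorem lin_ne (a : F) : (1 + C a * X : PowerSeries F) ≠ 0 := by
  intro h
  have := cc_lin a
  rw [h, map_zero] at this
  exact zero_ne_one this

theorem lin_ne' (a : F) : (1 - C a * X : PowerSeries F) ≠ 0 := by
  intro h
  have := cc_lin' a
  rw [h, map_zero] at this
  exact zero_ne_one this

theorem cc_den (m : ℕ) : constantCoeff (den F m) = 1 := by
  unfold den
  rw [map_prod]
  refine Finset.prod_eq_one fun i _ => ?_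
  rw [map_mul, cc_lin, cc_lin', one_mul]

theorem den_ne (m : ℕ) : den F m ≠ 0 := by
  intro h
  have := cc_den (F := F) m
  rw [h, map_zero] at this
  exact zero_ne_one this

theorem T_mul_den (m : ℕ) : T F m * den F m = C ((m.factorial : F) ^ 2) * X ^ (2 * m + 2) := by
  unfold T
  rw [mul_assoc, PowerSeries.inv_mul_cancel _ (by rw [cc_den]; exact one_ne_zero), mul_one]

theorem T1_mul (m : ℕ) : T1 F m * (1 + C ((m : F) + 2) * X) = T F m * (1 - C (m : F) * X) := by
  unfold T1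
  rw [mul_assoc, mul_assoc, PowerSeries.inv_mul_cancel _ (by rw [cc_lin]; exact one_ne_zero),
    mul_one]

theorem T_dvd (m : ℕ) : X ^ (2 * m + 2) ∣ T F m := by
  unfold T
  rw [mul_comm (C _) (X ^ _), mul_assoc]
  exact Dvd.intro _ rfl

theorem T1_dvd (m : ℕ) : X ^ (2 * m + 2) ∣ T1 F m := by
  unfold T1
  exact Dvd.dvd.mul_right (T_dvd m) _

/-- `T (m+1) (z-m-1) (z+m+2) = (m+1)^2 T m` -/
theorem T_succ (m : ℕ) : T F (m + 1) * ((1 + C ((m : F) + 2) * X) * (1 - C ((m : F) + 1) * X)) =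
    C (((m : F) + 1) ^ 2) * X ^ 2 * T F m := by
  have h1 := T_mul_den (F := F) (m + 1)
  have h0 := T_mul_den (F := F) m
  have hd : den F (m + 1) = den F m *
      ((1 + C ((m : F) + 2) * X) * (1 - C ((m : F) + 1) * X)) := by
    unfold den
    rw [Finset.prod_range_succ _ (m + 1)]
    congr 2
    · push_cast
      ring_nf
    · push_cast
      ring_nf
  apply mul_right_cancel₀ (den_ne (F := F) m)
  rw [hd] at h1
  have hf : ((m + 1).factorial : F) = ((m : F) + 1) * (m.factorial : F) := by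
    rw [Nat.factorial_succ]
    push_cast
    ring
  rw [hf, mul_pow, map_mul] at h1
  have he : (X : PowerSeries F) ^ (2 * (m + 1) + 2) = X ^ 2 * X ^ (2 * m + 2) := by
    rw [← pow_add]
    congr 1
    ring
  rw [he] at h1
  linear_combination h1 - C (((m : F) + 1) ^ 2) * X ^ 2 * h0

theorem T_zero : T F 0 * (1 + X) = X ^ 2 := by
  have h := T_mul_den (F := F) 0
  unfold den at h
  simp at h
  exact h

/-- `N T (m+1) = (m+1)^2 T m + (m+1)(m+2) T (m+1)`, `N = z (z+1)` -/
theorem N_T_succ (m : ℕ) : (1 + X) * T F (m + 1) =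
    X ^ 2 * (C (((m : F) + 1) ^ 2) * T F m + C (((m : F) + 1) * ((m : F) + 2)) * T F (m + 1)) := by
  have h := T_succ (F := F) m
  have e : (1 + C ((m : F) + 2) * X) * (1 - C ((m : F) + 1) * X) =
      1 + X - C (((m : F) + 1) * ((m : F) + 2)) * X ^ 2 := by
    rw [map_mul]
    have h1 : (C ((m : F) + 2) : PowerSeries F) = C ((m : F) + 1) + 1 := by
      rw [show (m : F) + 2 = (m : F) + 1 + 1 by ring, map_add, map_one]
    rw [h1]
    ring
  rw [e] at h
  linear_combination h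

/-! ### Shifts -/

theorem sh_lin (a : F) : sh (1 + C a * X : PowerSeries F) * (1 - X) = 1 + C (a - 1) * X := by
  rw [map_add, map_one, map_mul, sh_C, sh_X, map_sub, map_one]
  linear_combination C a * tt_mul (F := F)

theorem sh_lin' (a : F) : sh (1 - C a * X : PowerSeries F) * (1 - X) = 1 - C (a + 1) * X := by
  rw [map_sub, map_one, map_mul, sh_C, sh_X, map_add, map_one]
  linear_combination -C a * tt_mul (F := F)

theorem one_sub_X_ne : (1 - X : PowerSeries F) ≠ 0 := by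
  have := lin_ne' (1 : F)
  rwa [map_one, one_mul] at this

theorem prod_up (m : ℕ) : (∏ i ∈ range (m + 1), (1 + C (i : F) * X : PowerSeries F)) *
    (1 + C ((m : F) + 1) * X) = ∏ i ∈ range (m + 1), (1 + C ((i : F) + 1) * X) := by
  induction m with
  | zero => simp
  | succ m ih =>
    rw [Finset.prod_range_succ, Finset.prod_range_succ _ (m + 1), ← ih]
    push_cast
    ring

theorem prod_down (m : ℕ) : (∏ i ∈ range (m + 1), (1 - C ((i : F) + 1) * X : PowerSeries F)) =
    (∏ i ∈ range (m + 1), (1 - C (i : F) * X)) * (1 - C ((m : F) + 1) * X) := by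
  induction m with
  | zero => simp
  | succ m ih =>
    rw [Finset.prod_range_succ, Finset.prod_range_succ _ (m + 1), ih]
    push_cast
    ring

theorem sh_den (m : ℕ) : sh (den F m) * (1 - X) ^ (2 * m + 2) * (1 + C ((m : F) + 1) * X) =
    den F m * (1 - C ((m : F) + 1) * X) := by
  have h : sh (den F m) * (1 - X) ^ (2 * m + 2) =
      ∏ i ∈ range (m + 1), ((1 + C (i : F) * X) * (1 - C ((i : F) + 1) * X)) := by
    unfold den
    have hc : ((1 - X : PowerSeries F) ^ 2) ^ (m + 1) = ∏ _i ∈ range (m + 1), (1 - X) ^ 2 := by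
      rw [Finset.prod_const, Finset.card_range]
    rw [map_prod, show 2 * m + 2 = 2 * (m + 1) by ring, pow_mul, hc, ← Finset.prod_mul_distrib]
    refine Finset.prod_congr rfl fun i _ => ?_
    have h1 := sh_lin ((i : F) + 1)
    have h2 := sh_lin' (i : F)
    rw [add_sub_cancel_right] at h1
    rw [map_mul]
    linear_combination (sh (1 - C (i : F) * X) * (1 - X)) * h1 + (1 + C (i : F) * X) * h2
  rw [h, Finset.prod_mul_distrib]
  have h3 := prod_up (F := F) m
  have h4 := prod_down (F := F) m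
  have h5 : den F m = (∏ i ∈ range (m + 1), (1 + C ((i : F) + 1) * X : PowerSeries F)) *
      ∏ i ∈ range (m + 1), (1 - C (i : F) * X) := by
    unfold den
    rw [Finset.prod_mul_distrib]
  rw [h5, ← h3, h4]
  ring

/-- `T m (z - 1) (z - m - 1) = T m (z) (z + m + 1)` -/
theorem sh_T (m : ℕ) : sh (T F m) * (1 - C ((m : F) + 1) * X) =
    T F m * (1 + C ((m : F) + 1) * X) := by
  have h0 := T_mul_den (F := F) m
  have h1 := congrArg sh h0
  rw [map_mul sh, map_mul sh, sh_C, map_pow sh, sh_X] at h1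
  have h2 : tt F ^ (2 * m + 2) * (1 - X) ^ (2 * m + 2) = X ^ (2 * m + 2) := by
    rw [← mul_pow, tt_mul]
  have h3 := sh_den (F := F) m
  apply mul_right_cancel₀ (den_ne (F := F) m)
  linear_combination (-sh (T F m)) * h3 + (1 - X) ^ (2 * m + 2) * (1 + C ((m : F) + 1) * X) * h1 +
    C ((m.factorial : F) ^ 2) * (1 + C ((m : F) + 1) * X) * h2 -
    (1 + C ((m : F) + 1) * X) * h0

/-- `T1` is the forward shift of `T` -/
theorem sh_T1 (m : ℕ) : sh (T1 F m) = T F m := by
  have h1 := congrArg sh (T1_mul (F := F) m)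
  rw [map_mul, map_mul] at h1
  have h2 := sh_lin ((m : F) + 2)
  have h3 := sh_lin' (m : F)
  have h4 := sh_T (F := F) m
  have e : (m : F) + 2 - 1 = (m : F) + 1 := by ring
  rw [e] at h2
  apply mul_right_cancel₀ (lin_ne ((m : F) + 1))
  linear_combination (-sh (T1 F m)) * h2 + (1 - X) * h1 + sh (T F m) * h3 + h4

/-! ### The operator -/

/-- `z^{-3} ((z+1)^3 f(z+1) - ε ap(z) f(z) + z^3 f(z-1))` for `f = V`, `f(z+1) = W` -/
noncomputable def Lop (ε : F) (V W : PowerSeries F) : PowerSeries F :=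
  (1 + X) ^ 3 * W - C ε * (34 + 51 * X + 27 * X ^ 2 + 5 * X ^ 3) * V + sh V

theorem Lop_add (ε : F) (V W V' W' : PowerSeries F) :
    Lop ε (V + V') (W + W') = Lop ε V W + Lop ε V' W' := by
  unfold Lop
  rw [map_add]
  ring

theorem Lop_sub (ε : F) (V W V' W' : PowerSeries F) :
    Lop ε (V - V') (W - W') = Lop ε V W - Lop ε V' W' := by
  unfold Lop
  rw [map_sub]
  ring

theorem Lop_smul (ε a : F) (V W : PowerSeries F) :
    Lop ε (C a * V) (C a * W) = C a * Lop ε V W := by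
  unfold Lop
  rw [map_mul, sh_C]
  ring

theorem Lop_dvd (ε : F) {V W : PowerSeries F} {n : ℕ} (hV : X ^ n ∣ V) (hW : X ^ n ∣ W) :
    X ^ n ∣ Lop ε V W := by
  unfold Lop
  exact dvd_add (dvd_sub (Dvd.dvd.mul_left hW _) (Dvd.dvd.mul_left hV _)) (sh_X_pow_dvd hV)

/-- **the key identity** -/
theorem Lop_T (ε : F) (m : ℕ) : Lop ε (T F m) (T1 F m) =
    (2 + X) * (C (1 - 17 * ε) * ((1 + X) * T F m) +
      X ^ 2 * (C (2 * (m : F) ^ 2 + 2 * m + 1 - 5 * ε) * T F m +
        C (2 * ((m : F) + 1) ^ 2) * T F (m + 1))) := by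
  have h1 := T1_mul (F := F) m
  have h2 := sh_T (F := F) m
  have h3 := T_succ (F := F) m
  apply mul_right_cancel₀ (mul_ne_zero (lin_ne ((m : F) + 2)) (lin_ne' ((m : F) + 1)))
  unfold Lop
  have e2 : (C ((m : F) + 2) : PowerSeries F) = C (m : F) + 2 := by
    rw [map_add, map_ofNat]
  have e1 : (C ((m : F) + 1) : PowerSeries F) = C (m : F) + 1 := by
    rw [map_add, map_one]
  have e3 : (C (1 - 17 * ε) : PowerSeries F) = 1 - 17 * C ε := by
    rw [map_sub, map_mul, map_one, map_ofNat]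
  have e4 : (C (2 * (m : F) ^ 2 + 2 * m + 1 - 5 * ε) : PowerSeries F) =
      2 * C (m : F) ^ 2 + 2 * C (m : F) + 1 - 5 * C ε := by
    simp only [map_sub, map_add, map_mul, map_pow, map_one, map_ofNat]
  have e5 : (C (2 * ((m : F) + 1) ^ 2) : PowerSeries F) = 2 * (C (m : F) + 1) ^ 2 := by
    simp only [map_add, map_mul, map_pow, map_one, map_ofNat]
  have e6 : (C (((m : F) + 1) ^ 2) : PowerSeries F) = (C (m : F) + 1) ^ 2 := by
    simp only [map_add, map_pow, map_one]
  rw [e6] at h3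
  rw [e3, e4, e5]
  rw [e1, e2] at h3 ⊢
  rw [e2] at h1
  rw [e1] at h2
  set c : PowerSeries F := C (m : F)
  linear_combination (1 + X) ^ 3 * (1 - (c + 1) * X) * h1 + (1 + (c + 2) * X) * h2 -
    (2 + X) * X ^ 2 * 2 * (c + 1) ^ 2 * h3

/-- the recurrence of the coefficients -/
structure Kap (ε : F) (κ : ℕ → F) : Prop where
  zero : (1 - 17 * ε) * κ 0 = ε
  one : (1 - 17 * ε) * κ 1 + (1 - 5 * ε) * κ 0 = 0
  succ : ∀ m : ℕ, (1 - 17 * ε) * ((m : F) + 2) ^ 2 * κ (m + 2) +
    ((1 - 17 * ε) * (((m : F) + 1) * ((m : F) + 2)) +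
      (2 * ((m : F) + 1) ^ 2 + 2 * ((m : F) + 1) + 1 - 5 * ε)) * κ (m + 1) +
    2 * ((m : F) + 1) ^ 2 * κ m = 0

/-- partial sums -/
noncomputable def parT (κ : ℕ → F) (N : ℕ) : PowerSeries F := ∑ m ∈ range N, C (κ m) * T F m
/-- partial sums, shifted -/
noncomputable def parT1 (κ : ℕ → F) (N : ℕ) : PowerSeries F := ∑ m ∈ range N, C (κ m) * T1 F m

theorem sh_parT1 (κ : ℕ → F) (N : ℕ) : sh (parT1 κ N) = parT κ N := by
  unfold parT1 parT
  rw [map_sum]
  refine Finset.sum_congr rfl fun m _ => ?_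
  rw [map_mul, sh_C, sh_T1]

theorem Lop_par {ε : F} {κ : ℕ → F} (h : Kap ε κ) (N : ℕ) :
    Lop ε (parT κ (N + 1)) (parT1 κ (N + 1)) = (2 + X) * X ^ 2 * (C ε -
      C ((1 - 17 * ε) * ((N : F) + 1) ^ 2 * κ (N + 1)) * T F N +
      C (2 * ((N : F) + 1) ^ 2 * κ N) * T F (N + 1)) := by
  induction N with
  | zero =>
    have h0 : parT κ (0 + 1) = C (κ 0) * T F 0 := by simp [parT]
    have h1 : parT1 κ (0 + 1) = C (κ 0) * T1 F 0 := by simp [parT1]
    rw [h0, h1, Lop_smul, Lop_T]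
    have hz := T_zero (F := F)
    have k0 := congrArg (C : F → PowerSeries F) h.zero
    have k1 := congrArg (C : F → PowerSeries F) h.one
    simp only [map_sub, map_add, map_mul, map_pow, map_one, map_ofNat, map_zero, Nat.cast_zero,
      zero_add] at k0 k1 ⊢
    linear_combination (C (κ 0) * (2 + X) * (1 - 17 * C ε)) * hz + (2 + X) * X ^ 2 * k0 +
      (2 + X) * X ^ 2 * T F 0 * k1
  | succ N ih =>
    have h0 : parT κ (N + 1 + 1) = parT κ (N + 1) + C (κ (N + 1)) * T F (N + 1) := by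
      simp [parT, Finset.sum_range_succ]
    have h1 : parT1 κ (N + 1 + 1) = parT1 κ (N + 1) + C (κ (N + 1)) * T1 F (N + 1) := by
      simp [parT1, Finset.sum_range_succ]
    rw [h0, h1, Lop_add, ih, Lop_smul, Lop_T]
    have hN := N_T_succ (F := F) N
    have k := congrArg (C : F → PowerSeries F) (h.succ N)
    have e0 : ((N + 1 : ℕ) : F) = (N : F) + 1 := by push_cast; ring
    rw [e0]
    simp only [map_sub, map_add, map_mul, map_pow, map_one, map_ofNat, map_zero] at k hN ⊢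
    linear_combination (C (κ (N + 1)) * (2 + X) * (1 - 17 * C ε)) * hN +
      (2 + X) * X ^ 2 * T F (N + 1) * k

/-- `∑ κ_m T_m` -/
noncomputable def sumT (κ : ℕ → F) (n : ℕ) : F :=
  ∑ m ∈ range (n + 1), κ m * coeff n (T F m)

/-- `∑ κ_m T_m (z + 1)` -/
noncomputable def sumT1 (κ : ℕ → F) (n : ℕ) : F :=
  ∑ m ∈ range (n + 1), κ m * coeff n (T1 F m)

theorem sumT_dvd (κ : ℕ → F) (N : ℕ) : X ^ N ∣ PowerSeries.mk (sumT κ) - parT κ N := by
  rw [X_pow_dvd_iff]
  intro n hn
  rw [map_sub, coeff_mk, parT, map_sum, sumT, sub_eq_zero]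
  have : ∀ m ∈ range N, coeff n (C (κ m) * T F m) = κ m * coeff n (T F m) := by
    intro m _
    rw [coeff_C_mul]
  rw [Finset.sum_congr rfl this]
  refine Finset.sum_subset (Finset.range_subset_range.2 (by omega)) fun m _ hm => ?_
  rw [Finset.mem_range, not_lt] at hm
  have := X_pow_dvd_iff.1 (T_dvd (F := F) m) n (by omega)
  rw [this, mul_zero]

theorem sumT1_dvd (κ : ℕ → F) (N : ℕ) : X ^ N ∣ PowerSeries.mk (sumT1 κ) - parT1 κ N := by
  rw [X_pow_dvd_iff]
  intro n hn
  rw [map_sub, coeff_mk, parT1, map_sum, sumT1, sub_eq_zero]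
  have : ∀ m ∈ range N, coeff n (C (κ m) * T1 F m) = κ m * coeff n (T1 F m) := by
    intro m _
    rw [coeff_C_mul]
  rw [Finset.sum_congr rfl this]
  refine Finset.sum_subset (Finset.range_subset_range.2 (by omega)) fun m _ hm => ?_
  rw [Finset.mem_range, not_lt] at hm
  have := X_pow_dvd_iff.1 (T1_dvd (F := F) m) n (by omega)
  rw [this, mul_zero]

theorem eq_of_dvd_all {V : PowerSeries F} (h : ∀ N : ℕ, X ^ N ∣ V) : V = 0 := by
  ext n
  rw [map_zero]
  exact X_pow_dvd_iff.1 (h (n + 1)) n (Nat.lt_succ_self n)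

/-- **the sheet** -/
theorem isSheet_sumT {ε : F} {κ : ℕ → F} (h : Kap ε κ) : IsSheet ε (sumT κ) (sumT1 κ) := by
  constructor
  · have h1 : sh (PowerSeries.mk (sumT1 κ)) - PowerSeries.mk (sumT κ) = 0 := by
      apply eq_of_dvd_all
      intro N
      have a := sh_X_pow_dvd (sumT1_dvd κ N)
      have b := sumT_dvd κ N
      rw [map_sub, sh_parT1] at a
      have := dvd_sub a b
      rwa [sub_sub_sub_cancel_right] at this
    rw [sub_eq_zero, sh_mk] at h1
    funext n
    have := congrArg (coeff n) h1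
    rwa [coeff_mk, coeff_mk] at this
  · have h1 : Lop ε (PowerSeries.mk (sumT κ)) (PowerSeries.mk (sumT1 κ)) -
        C ε * (2 * X ^ 2 + X ^ 3) = 0 := by
      apply eq_of_dvd_all
      intro N
      have a := Lop_dvd ε (sumT_dvd κ (N + 1)) (sumT1_dvd κ (N + 1))
      rw [Lop_sub, Lop_par h] at a
      have b : (X : PowerSeries F) ^ (N + 1) ∣ (2 + X) * X ^ 2 *
          (-C ((1 - 17 * ε) * ((N : F) + 1) ^ 2 * κ (N + 1)) * T F N +
          C (2 * ((N : F) + 1) ^ 2 * κ N) * T F (N + 1)) := by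
        have t1 : (X : PowerSeries F) ^ (N + 1) ∣ T F N :=
          dvd_trans (pow_dvd_pow _ (by omega)) (T_dvd N)
        have t2 : (X : PowerSeries F) ^ (N + 1) ∣ T F (N + 1) :=
          dvd_trans (pow_dvd_pow _ (by omega)) (T_dvd (N + 1))
        exact Dvd.dvd.mul_left (dvd_add (Dvd.dvd.mul_left t1 _) (Dvd.dvd.mul_left t2 _)) _
      have c := dvd_add a b
      have e : Lop ε (PowerSeries.mk (sumT κ)) (PowerSeries.mk (sumT1 κ)) -
          (2 + X) * X ^ 2 * (C ε - C ((1 - 17 * ε) * ((N : F) + 1) ^ 2 * κ (N + 1)) * T F N +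
            C (2 * ((N : F) + 1) ^ 2 * κ N) * T F (N + 1)) +
          (2 + X) * X ^ 2 *
          (-C ((1 - 17 * ε) * ((N : F) + 1) ^ 2 * κ (N + 1)) * T F N +
          C (2 * ((N : F) + 1) ^ 2 * κ N) * T F (N + 1)) =
          Lop ε (PowerSeries.mk (sumT κ)) (PowerSeries.mk (sumT1 κ)) -
            C ε * (2 * X ^ 2 + X ^ 3) := by
        ring
      rw [e] at c
      exact dvd_trans (pow_dvd_pow _ (by omega)) c
    unfold Lop at h1
    rw [sub_eq_zero, sh_mk] at h1
    exact h1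

end T2
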