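import Pool.Agent.T2.DataX
import Pool.Agent.T2.RhInv
import Pool.Agent.T2.SF1

/-!
# T2, module PA3c: the good pairs of QS2 with the Laurent series behind them
-/

set_option autoImplicit false

namespace QS2.Cls

open Polynomial QS2.NV Finset
open HahnSeries hiding C

variable {p : ℕ} [hp : Fact p.Prime]

/-- **good pairs from the data**, explicit form of `good_of_data` -/
theorem good_pg {v : ℕ → K} {half al ali : Op p} {V V' : ℕ → (Op p)[X]}
    (hd : Data p v half al ali V V') : Good p v (PG p V') (QG p V) := by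
  have hp0 : (p : K) ≠ 0 := pK_ne_zero
  have hinv : ∀ k, ((p : K) ^ k)⁻¹ * (p : K) ^ k = 1 := fun k =>
    inv_mul_cancel₀ (pow_ne_zero _ hp0)
  refine ⟨?_, ?_, ?_, ?_, ?_, ?_, ?_⟩
  · -- degP
    intro D hD
    have h1 := natDegree_PQ (a := -((p : K) ^ kD p D)⁻¹) (r := rD p D) (hd.deg' (kD p D))
    have h2 := kr_eq p D hD
    unfold PG
    omega
  · -- degQ
    intro D hD
    have h1 := natDegree_PQ (a := ((p : K) ^ kD p D)⁻¹) (r := rD p D) (hd.deg (kD p D))
    have h2 := kr_eq p D hD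
    unfold QG
    omega
  · -- lead
    intro D hD
    have h2 := kr_eq p D hD
    refine ⟨(((V (kD p D)).coeff (dg p + p * kD p D) : Op p) : K),
      unitOp_of_isUnit (hd.lead _), ?_, ?_⟩
    · change (p : K) ^ kD p D * (QG p V D).coeff (D - 3) = _
      have e1 : D - 3 = (dg p + p * kD p D) + rD p D := by omega
      unfold QG
      rw [e1, Polynomial.coeff_C_mul, coeff_X_pow_mul, toK_coeff, ← mul_assoc, mul_comm ((p : K) ^ _),
        hinv, one_mul]
    · change (p : K) ^ kD p D * (PG p V' D).coeff D = _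
      have e1 : D = (dg p + 3 + p * kD p D) + rD p D := by omega
      have e2 : (PG p V' D).coeff D = -((p : K) ^ kD p D)⁻¹ *
          (((V' (kD p D)).coeff (dg p + 3 + p * kD p D) : Op p) : K) := by
        unfold PG
        conv_lhs => rw [show ((C (-((p : K) ^ kD p D)⁻¹) *
          (X ^ rD p D * toK p (V' (kD p D))) : K[X])).coeff D =
          ((C (-((p : K) ^ kD p D)⁻¹) * (X ^ rD p D * toK p (V' (kD p D))) : K[X])).coeff
            ((dg p + 3 + p * kD p D) + rD p D) from by rw [← e1]]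
        rw [Polynomial.coeff_C_mul, coeff_X_pow_mul, toK_coeff]
      rw [e2, hd.lead']
      push_cast
      rw [hd.al_eq]
      have := hinv (kD p D)
      linear_combination (-(alpha * (((V (kD p D)).coeff (dg p + p * kD p D) : Op p) : K))) * this
  · -- jet
    intro D hD d hd2
    have hr : rD p D < p := Nat.mod_lt _ hp.out.pos
    have e1 : (X + 1) ^ 3 * QG p V D = C (((p : K) ^ kD p D)⁻¹) *
        (X ^ rD p D * ((X + 1) ^ 3 * toK p (V (kD p D)))) := by
      unfold QG
      ring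
    have e3 : (PG p V' D).coeff d = -((p : K) ^ kD p D)⁻¹ *
        (toK p (V' (kD p D))).coeff (d - rD p D) := by
      unfold PG
      have e4 : d = (d - rD p D) + rD p D := by omega
      conv_lhs => rw [e4]
      rw [Polynomial.coeff_C_mul, coeff_X_pow_mul]
    rw [e1, pp_coeff_shift _ _ _ _ _ (by omega), hd.jets _ _ (by omega), e3]
    ring
  · -- intP
    intro D hD n
    refine int_of_dvd (k := kD p D) ?_ n (dvd_eval_of_step hd.step' n _)
    rw [neg_mul, hinv]
    exact (Op p).neg_mem (Op p).one_mem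
  · -- intQ
    intro D hD n
    refine int_of_dvd (k := kD p D) ?_ n (dvd_eval_of_step hd.step n _)
    rw [hinv]
    exact (Op p).one_mem
  · -- nice
    intro D hD c hc
    set k := kD p D with hk
    have hF : Fil (p : Op p) k (k + 3) ((X + C (c : Op p)) ^ rD p D * Yc (V k) (V' k) c) := by
      refine Fil.mul_left _ ?_
      exact local_fil (half := half) hd.al_ali
        (hd.J k) (hd.J' k) (fil_comp_of_step hd.step k k le_rfl)
        (fun c h1 h2 => isUnit_sub h1 h2) c hc
    obtain ⟨g0, g1, g2, hg⟩ := eval_of_fil hF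
    refine ⟨g0, g1, g2, g0.2, g1.2, g2.2, fun m => ?_⟩
    obtain ⟨r, hr⟩ := hg (m : Op p)
    refine ⟨r, r.2, ?_⟩
    have hr2 := congrArg (fun z : Op p => (z : K)) hr
    have hV : (toK p (V k)).eval ((c : K) + p * m) =
        (((V k).eval ((c : Op p) + p * m) : Op p) : K) := by
      have := toK_eval (V k) ((c : Op p) + p * m)
      push_cast at this
      exact this
    have hV' : (toK p (V' k)).eval ((c : K) + p * m) =
        (((V' k).eval ((c : Op p) + p * m) : Op p) : K) := by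
      have := toK_eval (V' k) ((c : Op p) + p * m)
      push_cast at this
      exact this
    have hA : ∀ j, (trA K j).eval ((p : K) * m) =
        (((trA (Op p) j).eval ((p : Op p) * m) : Op p) : K) := by
      intro j
      have := trA_eval (p := p) j ((p : Op p) * (m : Op p))
      push_cast at this
      exact this
    have e5 : (Yc (V k) (V' k) c).eval ((p : Op p) * m) =
        (trA (Op p) (c + 1)).eval ((p : Op p) * m) * (V k).eval ((c : Op p) + p * m)
        - (trA (Op p) c).eval ((p : Op p) * m) * (V' k).eval ((c : Op p) + p * m) := by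
      unfold Yc
      rw [eval_sub, eval_mul, eval_mul, eval_comp, eval_comp]
      simp only [eval_add, eval_X, eval_natCast]
      rw [add_comm ((p : Op p) * m) (c : Op p)]
    rw [eval_mul, eval_pow, eval_add, eval_X, eval_C, e5] at hr2
    push_cast at hr2
    unfold PG QG
    rw [← hk]
    simp only [eval_mul, eval_C, eval_pow, eval_X, hV, hV', hA]
    have h6 := hinv k
    linear_combination ((p : K) ^ k)⁻¹ * hr2 +
      ((g0 : K) + (g1 : K) * ((p : K) * (m : K)) + (g2 : K) * ((p : K) * (m : K)) ^ 2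
        + (p : K) ^ 3 * (r : K)) * h6

/-- `Data` with the Laurent series -/
structure DataL (p : ℕ) [Fact p.Prime] (v : ℕ → K) (half al ali : Op p)
    (V V' : ℕ → (Op p)[X]) (VL VL' : LaurentSeries K) : Prop where
  data : Data p v half al ali V V'
  rh : Rh (Op p) p (descPochhammer K p) VL
  rh' : Rh (Op p) p (descPochhammer K p) VL'
  hV : ∀ k, toK p (V k) = Vk (descPochhammer K p) VL k
  hV' : ∀ k, toK p (V' k) = Vk (descPochhammer K p) VL' k
  vl : VL' = (ww K + 1) ^ 3 * ser (PowerSeries.mk v) * VL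
  J : VL' = NV.phi K (ap X) * VL - HahnSeries.C (ali : K) *
    NV.phi K (X + C ((p : K) * half)) ^ 3 * shL VL
  J' : NV.phi K (X + C ((p : K) * half)) ^ 3 * shL VL' =
    HahnSeries.C (al : K) * NV.phi K X ^ 6 * VL

/-- existence of `DataL` -/
def DataStmtL (p : ℕ) [Fact p.Prime] (v : ℕ → K) : Prop :=
  ∃ (half al ali : Op p) (V V' : ℕ → (Op p)[X]) (VL VL' : LaurentSeries K),
    DataL p v half al ali V V' VL VL'

/-- **The data of the class rule**, from the formula -/
theorem data_of_formulaL (h2 : p ≠ 2) {v : ℕ → K} (hv0 : v 0 = alpha) (hv : IsFormal v)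
    {kap : ℕ → ℕ → ℕ → K} (hkap : ∀ i j k, kap i j k ∈ Op p) (hk0 : kap 0 0 0 ≠ 0)
    (hk0' : (kap 0 0 0)⁻¹ ∈ Op p) {E : K → ℕ → PowerSeries K}
    (hE : ∀ a m, E a m * ∏ i ∈ Finset.range m, (1 + PowerSeries.C (a + (i : K)) * PowerSeries.X) =
      PowerSeries.C (∏ i ∈ Finset.range m, ((2 : K)⁻¹ + (i : K))) * PowerSeries.X ^ m)
    {S : K → PowerSeries K}
    (hS : ∀ a l, PowerSeries.coeff l (S a) = ∑ i ∈ Finset.range (l + 1),
      ∑ j ∈ Finset.range (l + 1), ∑ k ∈ Finset.range (l + 1),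
        kap i j k * PowerSeries.coeff l (E a i * E a j * E a k))
    (hfor : PowerSeries.mk v * (1 + PowerSeries.C (3 / 2) * PowerSeries.X) ^ 3 * S (3 / 2) =
      PowerSeries.C alpha * (1 + PowerSeries.X) ^ 3 * S (5 / 2)) :
    ∃ (half al ali : Op p) (V V' : ℕ → (Op p)[X]) (VL VL' : LaurentSeries K),
      DataL p v half al ali V V' VL VL' := by
  obtain ⟨h, hph⟩ : ∃ h, p = 2 * h + 1 := by
    obtain ⟨h, hh⟩ := hp.out.odd_of_ne_two h2
    exact ⟨h, hh⟩
  have hdg : dg p = 3 * h := by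
    unfold dg
    omega
  have hhalf := half_mem (p := p) h2
  obtain ⟨half, hhe⟩ : ∃ half : Op p, (half : K) = 1 / 2 := ⟨⟨1 / 2, hhalf⟩, rfl⟩
  obtain ⟨al, hale⟩ : ∃ al : Op p, (al : K) = alpha := ⟨⟨alpha, alpha_mem⟩, rfl⟩
  obtain ⟨ali, halie⟩ : ∃ ali : Op p, (ali : K) = alphaInv := ⟨⟨alphaInv, alphaInv_mem⟩, rfl⟩
  have hali : al * ali = 1 := by
    apply Subtype.ext
    push_cast
    rw [hale, halie]
    exact alpha_mul
  rw [← hale] at hfor hv0
  obtain ⟨V, V', VL, VL', hL⟩ := data_genL hph hhe hali hv0 hv hkap hk0 hk0' hE hS hfor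
  have hd := hL.base
  refine ⟨half, al, ali, V, V', VL, VL', ?_, hL.rh, hL.rh', fun k => ?_, fun k => ?_, hL.vl,
    hL.J, hL.J'⟩
  rotate_left
  · unfold toK
    rw [coe_mapRingHom]
    exact hL.hV k
  · unfold toK
    rw [coe_mapRingHom]
    exact hL.hV' k
  constructor
  · apply Subtype.ext
    change (2 : K) * (half : K) = 1
    rw [hhe]
    norm_num
  · exact hale
  · exact hali
  · rw [hdg]
    exact hd.deg
  · rw [hdg]
    exact hd.deg'
  · rw [hdg]
    exact hd.lead
  · rw [hdg]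
    exact hd.lead'
  · exact hd.step
  · exact hd.step'
  · exact hd.jets
  · exact hd.J
  · exact hd.J'

/-- `Data` from the formula, stated for `a = 3/2, 5/2` only -/
theorem data_of_symL (h2 : p ≠ 2) {v : ℕ → K} (hv0 : v 0 = alpha) (hv : IsFormal v)
    {kap : ℕ → ℕ → ℕ → K} (hkap : ∀ i j k, kap i j k ∈ Op p) (hk0 : kap 0 0 0 ≠ 0)
    (hk0' : (kap 0 0 0)⁻¹ ∈ Op p) {E3 E5 : ℕ → PowerSeries K}
    (hE3 : ∀ m, E3 m * ∏ i ∈ Finset.range m,
        (1 + PowerSeries.C ((3 / 2 : K) + (i : K)) * PowerSeries.X) =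
      PowerSeries.C (∏ i ∈ Finset.range m, ((2 : K)⁻¹ + (i : K))) * PowerSeries.X ^ m)
    (hE5 : ∀ m, E5 m * ∏ i ∈ Finset.range m,
        (1 + PowerSeries.C ((5 / 2 : K) + (i : K)) * PowerSeries.X) =
      PowerSeries.C (∏ i ∈ Finset.range m, ((2 : K)⁻¹ + (i : K))) * PowerSeries.X ^ m)
    {S3 S5 : PowerSeries K}
    (hS3 : ∀ l, PowerSeries.coeff l S3 = ∑ i ∈ Finset.range (l + 1),
      ∑ j ∈ Finset.range (l + 1), ∑ k ∈ Finset.range (l + 1),
        kap i j k * PowerSeries.coeff l (E3 i * E3 j * E3 k))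
    (hS5 : ∀ l, PowerSeries.coeff l S5 = ∑ i ∈ Finset.range (l + 1),
      ∑ j ∈ Finset.range (l + 1), ∑ k ∈ Finset.range (l + 1),
        kap i j k * PowerSeries.coeff l (E5 i * E5 j * E5 k))
    (hfor : PowerSeries.mk v * (1 + PowerSeries.C (3 / 2) * PowerSeries.X) ^ 3 * S3 =
      PowerSeries.C alpha * (1 + PowerSeries.X) ^ 3 * S5) :
    DataStmtL p v := by
  have e3 : ∀ m, Efam (3 / 2) m = E3 m := fun m => frac_unique (Efam_spec (3 / 2) m) (hE3 m)
  have e5 : ∀ m, Efam (5 / 2) m = E5 m := fun m => frac_unique (Efam_spec (5 / 2) m) (hE5 m)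
  set S : K → PowerSeries K := fun a => sigF kap (Efam a) with hS
  have hSc : ∀ a l, PowerSeries.coeff l (S a) = ∑ i ∈ Finset.range (l + 1),
      ∑ j ∈ Finset.range (l + 1), ∑ k ∈ Finset.range (l + 1),
        kap i j k * PowerSeries.coeff l (Efam a i * Efam a j * Efam a k) := by
    intro a l
    rw [hS]
    simp only [sigF, PowerSeries.coeff_mk]
  have s3 : S (3 / 2) = S3 := by
    refine PowerSeries.ext fun l => ?_
    rw [hSc, hS3]
    simp only [e3]
  have s5 : S (5 / 2) = S5 := by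
    refine PowerSeries.ext fun l => ?_
    rw [hSc, hS5]
    simp only [e5]
  refine data_of_formulaL h2 hv0 hv hkap hk0 hk0' Efam_spec hSc ?_
  rw [s3, s5]
  exact hfor

/-- **`data_exists`** -/
theorem data_existsL (hp5 : 5 ≤ p) {v : ℕ → K} (hv0 : v 0 = alpha) (hv : IsFormal v) :
    DataStmtL p v := by
  have h2 : p ≠ 2 := by omega
  obtain ⟨kap, hkap, hk0, hk0', hfor⟩ := QS2.Sym.sym_formula (p := p) h2 hv hv0
  have e3 : (3 * 2⁻¹ : K) = 3 / 2 := by ring
  have e5 : (5 * 2⁻¹ : K) = 5 / 2 := by ring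
  rw [e3, e5] at hfor
  refine data_of_symL h2 hv0 hv hkap hk0 hk0' (QS2.Sym.EK_prod (3 / 2)) (QS2.Sym.EK_prod (5 / 2))
    (fun l => QS2.Sym.coeff_sigF _ _ _) (fun l => QS2.Sym.coeff_sigF _ _ _) ?_
  rw [mul_assoc]
  exact hfor

end QS2.Cls
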