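import Pool.Agent.QS2.ClsDataEx

/-!
# T2, module PA3b: the data of QS2 with the Laurent series behind them

Copy of `QS2.Cls.data_gen`, `data_of_formula`, `data_of_sym`, `data_exists` which also returns the
Laurent series `V = VL`, `V' = VL'` whose parts are the polynomials `V k`, `V' k`.
-/

set_option autoImplicit false

namespace QS2.Cls

open Polynomial QS2.NV
open HahnSeries hiding C

section gen

variable {F : Type*} [Field F] [CharZero F] {O : Subring F} {p h : ℕ}

/-- `DataF` with the Laurent series -/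
structure LData (O : Subring F) (p h : ℕ) (v : ℕ → F) (half al ali : O)
    (V V' : ℕ → O[X]) (VL VL' : LaurentSeries F) : Prop where
  base : DataF O p h v half al ali V V'
  rh : Rh O p (descPochhammer F p) VL
  rh' : Rh O p (descPochhammer F p) VL'
  hV : ∀ k, (V k).map O.subtype = Vk (descPochhammer F p) VL k
  hV' : ∀ k, (V' k).map O.subtype = Vk (descPochhammer F p) VL' k
  vl : VL' = (ww F + 1) ^ 3 * ser (PowerSeries.mk v) * VL
  J : VL' = NV.phi F (ap X) * VL - HahnSeries.C (ali : F) *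
    NV.phi F (X + C ((p : F) * half)) ^ 3 * shL VL
  J' : NV.phi F (X + C ((p : F) * half)) ^ 3 * shL VL' =
    HahnSeries.C (al : F) * NV.phi F X ^ 6 * VL

theorem data_genL (hph : p = 2 * h + 1) {v : ℕ → F} {half al ali : O}
    (hhe : (half : F) = 1 / 2) (hali : al * ali = 1) (hv0 : v 0 = al) (hv : IsFormal v)
    {kap : ℕ → ℕ → ℕ → F} (hkap : ∀ i j k, kap i j k ∈ O) (hk0 : kap 0 0 0 ≠ 0)
    (hk0' : (kap 0 0 0)⁻¹ ∈ O) {E : F → ℕ → PowerSeries F}
    (hE : ∀ a m, E a m * ∏ i ∈ Finset.range m, (1 + PowerSeries.C (a + (i : F)) * PowerSeries.X) =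
      PowerSeries.C (∏ i ∈ Finset.range m, ((2 : F)⁻¹ + (i : F))) * PowerSeries.X ^ m)
    {S : F → PowerSeries F}
    (hS : ∀ a l, PowerSeries.coeff l (S a) = ∑ i ∈ Finset.range (l + 1),
      ∑ j ∈ Finset.range (l + 1), ∑ k ∈ Finset.range (l + 1),
        kap i j k * PowerSeries.coeff l (E a i * E a j * E a k))
    (hfor : PowerSeries.mk v * (1 + PowerSeries.C (3 / 2) * PowerSeries.X) ^ 3 * S (3 / 2) =
      PowerSeries.C (al : F) * (1 + PowerSeries.X) ^ 3 * S (5 / 2)) :
    ∃ (V V' : ℕ → O[X]) (VL VL' : LaurentSeries F), LData O p h v half al ali V V' VL VL' := by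
  have hhalf : (1 / 2 : F) ∈ O := by
    rw [← hhe]
    exact half.2
  set y : F[X] := descPochhammer F p with hy
  have hym : y.Monic := monic_descPochhammer F p
  have hyd : y.natDegree = p := descPochhammer_natDegree F p
  have hyO : y ∈ OP O := descP_mem_OP O p
  have hpO : (p : F) ∈ O := natCast_mem O p
  have halF : (al : F) * (ali : F) = 1 := by
    have := congrArg (fun t : O => (t : F)) hali
    simpa using this
  -- the three series
  have h01 : sh (S (3 / 2)) = S (1 / 2) := by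
    refine sh_triple (hE (3 / 2)) (fun m => ?_) (hS (3 / 2)) (hS (1 / 2))
    have := hE (1 / 2) m
    have e : (3 / 2 : F) - 1 = 1 / 2 := by norm_num
    rwa [e]
  have h12 : sh (S (5 / 2)) = S (3 / 2) := by
    refine sh_triple (hE (5 / 2)) (fun m => ?_) (hS (5 / 2)) (hS (3 / 2))
    have := hE (3 / 2) m
    have e : (5 / 2 : F) - 1 = 3 / 2 := by norm_num
    rwa [e]
  have h2f : 2 * (1 / 2 : F) = 1 := by norm_num
  have hfor' : PowerSeries.mk v * (1 + PowerSeries.C (3 * (1 / 2)) * PowerSeries.X) ^ 3 * S (3 / 2) =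
      PowerSeries.C (al : F) * (1 + PowerSeries.X) ^ 3 * S (5 / 2) := by
    have e : (3 * (1 / 2) : F) = 3 / 2 := by norm_num
    rw [e]
    exact hfor
  set Ep : F[X] := ∏ i ∈ Finset.range h, (X + C (3 * (1 / 2) + (i : F))) with hEp
  have hErise : Ep = rise (3 / 2) h := by
    rw [hEp, rise]
    refine Finset.prod_congr rfl fun i _ => ?_
    norm_num
  have hEcomp : Ep.comp (X - 1) = rise (1 / 2) h := by
    rw [hErise, rise, rise, prod_comp]
    refine Finset.prod_congr rfl fun i _ => ?_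
    rw [add_comp, X_comp, C_comp]
    have : (3 / 2 : F) + i = 1 + (1 / 2 + i) := by ring
    rw [this, map_add C 1, C_1]
    ring
  have hEs := prod_shift (1 / 2 : F) h2f h
  rw [← hEp] at hEs
  set VL : LaurentSeries F := NV.phi F Ep ^ 3 * ser (S (3 / 2)) with hVL
  set VL' : LaurentSeries F := (ww F + 1) ^ 3 * ser (PowerSeries.mk v) * VL with hVL'
  have hJ := J_of_formula hv halF h2f hfor' h01 h12 hEs
  have hJ' := J'_of_formula h2f hfor' h01 h12 hEs
  rw [← hVL, ← hVL'] at hJ hJ'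
  have hRV : Rh O p y VL := by
    rw [hVL, hErise]
    exact rh_triple' hhalf hph 1 (by push_cast; norm_num) hkap (hE (3 / 2)) (hS (3 / 2))
  have hRs : Rh O p y (shL VL) := by
    rw [hVL, map_mul shL, map_pow shL, shL_phi, shL_ser, h01, hEcomp]
    exact rh_triple' hhalf hph 0 (by push_cast; norm_num) hkap (hE (1 / 2)) (hS (1 / 2))
  have hph2 : ((2 * h + 1 : ℕ) : F) * (1 / 2) = (p : F) * half := by rw [hph, hhe]
  rw [hph2] at hJ hJ'
  have hmul : (p : F) * half ∈ O := O.mul_mem hpO half.2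
  have hJ2 : VL' = NV.phi F (ap X) * VL - HahnSeries.C (ali : F) *
      NV.phi F (X + C ((p : F) * half)) ^ 3 * shL VL := by
    rw [hJ, phi_lin_ww, phi_ap]
  have hJ3 : NV.phi F (X + C ((p : F) * half)) ^ 3 * shL VL' =
      HahnSeries.C (al : F) * NV.phi F X ^ 6 * VL := by
    rw [phi_lin_ww]
    exact hJ'
  have hRV' : Rh O p y VL' := by
    rw [hJ2]
    have h3 : (ap X : F[X]) ∈ OP O := by
      have := mem_of_map (ap (X : O[X]))
      rwa [map_ap] at this
    refine (hRV.phi_mul h3).sub ?_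
    rw [mul_assoc, ← map_pow]
    exact (hRs.phi_mul ((OP O).pow_mem ((OP O).add_mem X_mem_OP (C_mem_OP hmul)) 3)).C_mul ali.2
  have hs : IsShift O (shL (F := F)) := ⟨shL_phi, fun x hx => shL_mem_RI hx⟩
  -- leading coefficients
  have hE0 : ∀ a, E a 0 = 1 := fun a => by
    have := hE a 0
    simpa using this
  have hS0 : PowerSeries.coeff 0 (S (3 / 2)) = kap 0 0 0 := by
    rw [hS]
    simp [hE0]
  have hlead : (∀ n : ℤ, n < -((3 * h : ℕ) : ℤ) → VL.coeff n = 0) ∧
      VL.coeff (-((3 * h : ℕ) : ℤ)) = kap 0 0 0 := by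
    have h4 : (Ep ^ 3).Monic := by
      rw [hErise]
      exact (rise_monic _ _).pow 3
    have h5 : (Ep ^ 3).natDegree = 3 * h := by
      rw [hErise, natDegree_pow, rise_natDegree]
    have h6 := coeff_monic_mul h4 (x := ser (S (3 / 2))) (a := 0) (ser_neg_coeff _)
    rw [h5, zero_add, map_pow, ← hVL, coeff_ser_zero, hS0] at h6
    exact h6
  have hlead' : (∀ n : ℤ, n < -((3 * h + 3 : ℕ) : ℤ) → VL'.coeff n = 0) ∧
      VL'.coeff (-((3 * h + 3 : ℕ) : ℤ)) = al * kap 0 0 0 := by
    have hX : ((X + 1) ^ 3 : F[X]).Monic := by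
      rw [← C_1]
      exact (monic_X_add_C _).pow 3
    have h4 : ((X + 1) ^ 3 * Ep ^ 3 : F[X]).Monic := by
      rw [hErise]
      exact Monic.mul hX ((rise_monic _ _).pow 3)
    have h5 : ((X + 1) ^ 3 * Ep ^ 3 : F[X]).natDegree = 3 * h + 3 := by
      rw [hErise, Monic.natDegree_mul hX ((rise_monic _ _).pow 3), natDegree_pow, natDegree_pow,
        rise_natDegree, ← C_1, natDegree_X_add_C]
      ring
    have h6 := coeff_monic_mul h4 (x := ser (PowerSeries.mk v * S (3 / 2))) (a := 0)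
      (ser_neg_coeff _)
    have h9 : NV.phi F ((X + 1) ^ 3 * Ep ^ 3) * ser (PowerSeries.mk v * S (3 / 2)) = VL' := by
      rw [hVL', hVL, map_mul, map_pow, map_pow, map_add, map_one, ww]
      unfold ser
      rw [map_mul (ofPowerSeries ℤ F)]
      ring
    have h10 : PowerSeries.coeff 0 (PowerSeries.mk v * S (3 / 2)) = al * kap 0 0 0 := by
      rw [PowerSeries.coeff_zero_eq_constantCoeff_apply, map_mul,
        ← PowerSeries.coeff_zero_eq_constantCoeff_apply,
        ← PowerSeries.coeff_zero_eq_constantCoeff_apply, hS0, PowerSeries.coeff_mk, hv0]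
    rw [h5, zero_add, h9, coeff_ser_zero, h10] at h6
    exact h6
  have hmemV : ∀ k, Vk y VL k ∈ OP O := Vk_mem hyO (hRV.mem_RI hpO)
  have hmemV' : ∀ k, Vk y VL' k ∈ OP O := Vk_mem hyO (hRV'.mem_RI hpO)
  have hVd := Vk_degree (V := VL) hym hlead.1
  have hVd' := Vk_degree (V := VL') hym hlead'.1
  rw [hyd] at hVd hVd'
  refine ⟨fun k => lif (Vk y VL k) (hmemV k), fun k => lif (Vk y VL' k) (hmemV' k), VL, VL', ?_,
    hRV, hRV', fun k => lif_map (hmemV k), fun k => lif_map (hmemV' k), hVL', hJ2, hJ3⟩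
  constructor
  · intro k
    rw [lif_natDegree, mul_comm p k]
    exact (hVd k).1
  · intro k
    rw [lif_natDegree, mul_comm p k]
    exact (hVd' k).1
  · intro k
    have e1 : (((lif (Vk y VL k) (hmemV k)).coeff (3 * h + p * k) : O) : F) = kap 0 0 0 := by
      rw [lif_coeff, mul_comm p k, (hVd k).2]
      exact hlead.2
    refine IsUnit.of_mul_eq_one ⟨(kap 0 0 0)⁻¹, hk0'⟩ (Subtype.ext ?_)
    change (((lif (Vk y VL k) (hmemV k)).coeff (3 * h + p * k) : O) : F) * (kap 0 0 0)⁻¹ = 1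
    rw [e1, mul_inv_cancel₀ hk0]
  · intro k
    apply Subtype.ext
    change (((lif (Vk y VL' k) (hmemV' k)).coeff (3 * h + 3 + p * k) : O) : F) =
      (al : F) * (((lif (Vk y VL k) (hmemV k)).coeff (3 * h + p * k) : O) : F)
    rw [lif_coeff, lif_coeff, mul_comm p k, (hVd k).2, (hVd' k).2, hlead.2]
    exact hlead'.2
  · exact step_gen hRV hmemV
  · exact step_gen hRV' hmemV'
  · intro k d hd
    rw [lif_map, lif_map]
    refine jets hRV hRV' ?_ k hd
    rw [hVL', map_pow, map_add, map_one, ww]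
  · intro k
    exact Jk hs (desc_shift F p) hRV hRV' hJ2 k (lif_map (hmemV k)) (lif_map (hmemV' k))
  · intro k
    exact Jk' hs (desc_shift F p) hRV hRV' hJ3 k (lif_map (hmemV k)) (lif_map (hmemV' k))

end gen

end QS2.Cls
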