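import Mathlib

set_option autoImplicit false

/-!
# T2, module RC: the decoupling lemma (helper67)

For points `t_j` in the open right half plane and a rational function `r = f / g` with
`deg f <= deg g`, no poles in `0 <= re z` and `|r| <= kappa` on the imaginary axis,
`|det (t_j ^ i + s r(t_j) (- t_j) ^ i)| <= (1 + kappa c) ^ A |det (t_j ^ i)|`.
-/

namespace T2.Dec

open Polynomial Matrix Complex MeasureTheory

noncomputable section

/-- Cayley map from the disc to the right half plane. -/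
def phi (z : ℂ) : ℂ := (1 + z) / (1 - z)

/-- Cayley map from the right half plane to the disc. -/
def psi (t : ℂ) : ℂ := (t - 1) / (t + 1)

/-- Homogenisation of `P` in degree `m`, pulled back by the Cayley map. -/
def Hm (m : ℕ) (P : ℂ[X]) : ℂ[X] :=
  ∑ i ∈ Finset.range (m + 1), C (P.coeff i) * (1 + X) ^ i * (1 - X) ^ (m - i)

theorem Hm_eval (m : ℕ) (P : ℂ[X]) (hP : P.natDegree ≤ m) {z : ℂ} (hz : z ≠ 1) :
    (Hm m P).eval z = (1 - z) ^ m * P.eval (phi z) := by
  have h1 : (1 - z) ≠ 0 := sub_ne_zero.mpr (Ne.symm hz)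
  rw [Polynomial.eval_eq_sum_range' (Nat.lt_succ_of_le hP), Hm, eval_finsetSum, Finset.mul_sum]
  refine Finset.sum_congr rfl fun i hi => ?_
  have hi' : i ≤ m := Nat.lt_succ_iff.mp (Finset.mem_range.mp hi)
  simp only [eval_mul, eval_pow, eval_add, eval_sub, eval_one, eval_X, eval_C, phi, div_pow]
  obtain ⟨k, rfl⟩ := Nat.exists_eq_add_of_le hi'
  rw [Nat.add_sub_cancel_left, pow_add]
  field_simp

theorem Hm_eval_one (m : ℕ) (P : ℂ[X]) : (Hm m P).eval 1 = P.coeff m * 2 ^ m := by
  rw [Hm, eval_finsetSum, Finset.sum_eq_single_of_mem m (by simp)]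
  · simp only [eval_mul, eval_pow, eval_add, eval_one, eval_X, eval_C, Nat.sub_self,
      pow_zero, mul_one]
    norm_num
  · intro i hi hne
    have : i < m := lt_of_le_of_ne (Nat.lt_succ_iff.mp (Finset.mem_range.mp hi)) hne
    simp [Nat.sub_ne_zero_of_lt this]

theorem phi_psi {t : ℂ} (ht : t + 1 ≠ 0) : phi (psi t) = t := by
  unfold phi psi
  have h1 : 1 - (t - 1) / (t + 1) = 2 / (t + 1) := by field_simp; ring
  have h2 : 1 + (t - 1) / (t + 1) = 2 * t / (t + 1) := by field_simp; ring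
  rw [h1, h2]
  field_simp

theorem psi_ne_one {t : ℂ} (ht : t + 1 ≠ 0) : psi t ≠ 1 := by
  unfold psi
  intro h
  rw [div_eq_one_iff_eq ht] at h
  have : (2 : ℂ) = 0 := by linear_combination -h
  norm_num at this

theorem add_one_ne {t : ℂ} (ht : 0 ≤ t.re) : t + 1 ≠ 0 := by
  intro h
  have := congrArg Complex.re h
  simp at this
  linarith

theorem norm_psi_lt {t : ℂ} (ht : 0 < t.re) : ‖psi t‖ < 1 := by
  unfold psi
  have h0 : t + 1 ≠ 0 := add_one_ne ht.le
  have h1 : 0 < ‖t + 1‖ := norm_pos_iff.mpr h0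
  rw [norm_div, div_lt_one h1]
  have h2 : ‖t - 1‖ ^ 2 < ‖t + 1‖ ^ 2 := by
    rw [← Complex.normSq_eq_norm_sq, ← Complex.normSq_eq_norm_sq, Complex.normSq_apply,
      Complex.normSq_apply]
    simp
    nlinarith
  exact lt_of_pow_lt_pow_left₀ 2 h1.le h2

theorem re_phi_nonneg {z : ℂ} (hz : ‖z‖ ≤ 1) (h1 : z ≠ 1) : 0 ≤ (phi z).re := by
  unfold phi
  rw [Complex.div_re]
  have h2 : z.re * z.re + z.im * z.im ≤ 1 := by
    have := Complex.normSq_eq_norm_sq z
    rw [Complex.normSq_apply] at this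
    rw [this]
    nlinarith [norm_nonneg z]
  have h3 : 0 < Complex.normSq (1 - z) := Complex.normSq_pos.mpr (sub_ne_zero.mpr (Ne.symm h1))
  rw [← add_div]
  apply div_nonneg _ h3.le
  simp
  nlinarith

theorem phi_circle {z : ℂ} (hz : ‖z‖ = 1) : ∃ y : ℝ, phi z = I * y := by
  refine ⟨(phi z).im, ?_⟩
  have h2 : z.re * z.re + z.im * z.im = 1 := by
    have := Complex.normSq_eq_norm_sq z
    rw [Complex.normSq_apply] at this
    rw [this, hz]; norm_num
  have h3 : (phi z).re = 0 := by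
    unfold phi
    rw [Complex.div_re, ← add_div]
    simp
    left
    nlinarith
  apply Complex.ext
  · simp [h3]
  · simp

theorem conj_phi (z : ℂ) : (starRingEnd ℂ) (phi z) = phi ((starRingEnd ℂ) z) := by
  simp [phi]

theorem conj_ne_one {z : ℂ} (h : z ≠ 1) : (starRingEnd ℂ) z ≠ 1 := by
  intro h'
  apply h
  have := congrArg (starRingEnd ℂ) h'
  simpa using this

theorem conj_phi_circle {z : ℂ} (hz : ‖z‖ = 1) : (starRingEnd ℂ) (phi z) = - phi z := by
  obtain ⟨y, hy⟩ := phi_circle hz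
  rw [hy]
  simp

/-- On the unit circle: the conjugate of a homogenised polynomial. -/
theorem conj_Hm {n : ℕ} {P : ℂ[X]} (hP : P.natDegree ≤ n) {z : ℂ} (hz : ‖z‖ = 1) (h1 : z ≠ 1) :
    (starRingEnd ℂ) ((Hm n P).eval z) * z ^ n
      = (C ((-1) ^ n) * Hm n ((P.map (starRingEnd ℂ)).comp (-X))).eval z := by
  have hd : ((P.map (starRingEnd ℂ)).comp (-X)).natDegree ≤ n := by
    rw [natDegree_comp]
    simpa using (natDegree_map_le (p := P) (f := starRingEnd ℂ)).trans hP
  rw [eval_mul, eval_C, Hm_eval n P hP h1, Hm_eval n _ hd h1, eval_comp, eval_neg, eval_X,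
    map_mul, map_pow, map_sub, map_one]
  have h2 : (starRingEnd ℂ) (P.eval (phi z)) = (P.map (starRingEnd ℂ)).eval (-phi z) := by
    rw [← conj_phi_circle hz, eval_map, eval₂_at_apply]
  rw [h2]
  have h3 : (1 - (starRingEnd ℂ) z) * z = -(1 - z) := by
    have : (starRingEnd ℂ) z * z = 1 := by
      rw [mul_comm, Complex.mul_conj, Complex.normSq_eq_norm_sq, hz]; norm_num
    linear_combination -this
  calc (1 - (starRingEnd ℂ) z) ^ n * eval (-phi z) (P.map (starRingEnd ℂ)) * z ^ n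
      = ((1 - (starRingEnd ℂ) z) * z) ^ n * eval (-phi z) (P.map (starRingEnd ℂ)) := by
        rw [mul_pow]; ring
    _ = _ := by rw [h3, neg_eq_neg_one_mul, mul_pow, mul_assoc]

theorem norm_Hm_neg {n : ℕ} {P : ℂ[X]} (hP : P.natDegree ≤ n) {z : ℂ} (hz : ‖z‖ = 1)
    (h1 : z ≠ 1) :
    ‖(Hm n (P.comp (-X))).eval z‖ = ‖(Hm n P).eval ((starRingEnd ℂ) z)‖ := by
  have hd : (P.comp (-X)).natDegree ≤ n := by
    rw [natDegree_comp]
    simpa using hP
  rw [Hm_eval n P hP (conj_ne_one h1), Hm_eval n _ hd h1, eval_comp, eval_neg, eval_X,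
    ← conj_phi, conj_phi_circle hz, norm_mul, norm_mul, norm_pow, norm_pow]
  congr 2
  rw [← Complex.norm_conj (1 - z)]
  simp

/-- One Blaschke factor denominator. -/
theorem one_sub_psi {t z : ℂ} (ht : 0 < t.re) {y : ℝ} (hy : phi z = I * y) (h1 : z ≠ 1) :
    ‖1 - (starRingEnd ℂ) (psi t) * z‖
      = 2 * ‖I * y + (starRingEnd ℂ) t‖ / (‖t + 1‖ * ‖I * y + 1‖) := by
  have hz : z = (I * y - 1) / (I * y + 1) := by
    have h2 : (1 - z) ≠ 0 := sub_ne_zero.mpr (Ne.symm h1)
    have h3 : I * (y : ℂ) + 1 ≠ 0 := by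
      intro h
      have := congrArg Complex.re h
      simp at this
    rw [phi, div_eq_iff h2] at hy
    rw [eq_div_iff h3]
    linear_combination hy
  have h3 : I * (y : ℂ) + 1 ≠ 0 := by
    intro h
    have := congrArg Complex.re h
    simp at this
  have h4 : (starRingEnd ℂ) t + 1 ≠ 0 := by
    apply add_one_ne
    simpa using ht.le
  have h5 : 1 - (starRingEnd ℂ) (psi t) * z
      = 2 * (I * y + (starRingEnd ℂ) t) / (((starRingEnd ℂ) t + 1) * (I * y + 1)) := by
    rw [hz, psi]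
    simp only [map_div₀, map_sub, map_add, map_one]
    field_simp
    ring
  rw [h5, norm_div, norm_mul, norm_mul]
  congr 2
  · norm_num
  · rw [← Complex.norm_conj]
    simp

theorem sub_conj_mul_ne {ζ z : ℂ} (hζ : ‖ζ‖ < 1) (hz : ‖z‖ ≤ 1) :
    1 - (starRingEnd ℂ) ζ * z ≠ 0 := by
  intro h
  have h1 : (starRingEnd ℂ) ζ * z = 1 := by linear_combination -h
  have h2 : ‖(starRingEnd ℂ) ζ * z‖ = 1 := by rw [h1]; norm_num
  rw [norm_mul, Complex.norm_conj] at h2
  nlinarith [norm_nonneg ζ, norm_nonneg z]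

theorem norm_circle (θ : ℝ) : ‖circleMap 0 1 θ‖ = 1 := by simp

theorem circle_ne_one {θ : ℝ} (h : θ ∈ Set.Ioo 0 (2 * Real.pi)) : circleMap 0 1 θ ≠ 1 := by
  intro h1
  have h2 : Complex.exp (θ * I) = 1 := by simpa [circleMap] using h1
  rw [Complex.exp_eq_one_iff] at h2
  obtain ⟨n, hn⟩ := h2
  have h3 := congrArg Complex.im hn
  simp at h3
  have h4 : θ = n * (2 * Real.pi) := h3
  have hpi := Real.pi_pos
  rcases lt_trichotomy n 0 with h5 | h5 | h5
  · have : (n : ℝ) ≤ -1 := by exact_mod_cast Int.le_sub_one_iff.mpr h5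
    nlinarith [h.1]
  · rw [h5] at h4
    simp at h4
    linarith [h.1]
  · have : (1 : ℝ) ≤ n := by exact_mod_cast h5
    nlinarith [h.2]

theorem circle_neg (θ : ℝ) :
    circleMap 0 1 (2 * Real.pi - θ) = (starRingEnd ℂ) (circleMap 0 1 θ) := by
  simp only [circleMap, ofReal_one, one_mul, zero_add, ofReal_sub, ofReal_mul, ofReal_ofNat]
  rw [← Complex.exp_conj]
  have : ((2 * (Real.pi : ℂ) - θ) * I) = 2 * Real.pi * I + (starRingEnd ℂ) (θ * I) := by
    simp
    ring
  rw [this, Complex.exp_add, Complex.exp_two_pi_mul_I, one_mul]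

/-- Division by a Blaschke numerator. -/
theorem exists_div {ι : Type*} [DecidableEq ι] (S : Finset ι) (ζ : ι → ℂ)
    (hinj : Function.Injective ζ)
    (hζ : ∀ j, ‖ζ j‖ < 1) : ∀ h : ℂ → ℂ, ContinuousOn h (Metric.closedBall 0 1) →
    DifferentiableOn ℂ h (Metric.ball 0 1) → (∀ j ∈ S, h (ζ j) = 0) →
    ∃ q : ℂ → ℂ, ContinuousOn q (Metric.closedBall 0 1) ∧ DifferentiableOn ℂ q (Metric.ball 0 1) ∧
      ∀ z, h z = (∏ j ∈ S, (z - ζ j)) * q z := by
  induction S using Finset.induction_on with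
  | empty =>
    intro h hc hd _
    exact ⟨h, hc, hd, fun z => by simp⟩
  | insert a S ha ih =>
    intro h hc hd h0
    have hab : ζ a ∈ Metric.ball (0 : ℂ) 1 := by simpa using hζ a
    have hnb : Metric.ball (0 : ℂ) 1 ∈ nhds (ζ a) := Metric.isOpen_ball.mem_nhds hab
    have hnc : Metric.closedBall (0 : ℂ) 1 ∈ nhds (ζ a) :=
      Filter.mem_of_superset hnb Metric.ball_subset_closedBall
    have hda : DifferentiableAt ℂ h (ζ a) := hd.differentiableAt hnb
    have hc1 : ContinuousOn (dslope h (ζ a)) (Metric.closedBall 0 1) :=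
      (continuousOn_dslope hnc).mpr ⟨hc, hda⟩
    have hd1 : DifferentiableOn ℂ (dslope h (ζ a)) (Metric.ball 0 1) :=
      (Complex.differentiableOn_dslope hnb).mpr hd
    have hfac : ∀ z, h z = (z - ζ a) * dslope h (ζ a) z := by
      intro z
      have h1 := sub_smul_dslope h (ζ a) z
      rw [smul_eq_mul, h0 a (Finset.mem_insert_self a S), sub_zero] at h1
      exact h1.symm
    obtain ⟨q, hqc, hqd, hq⟩ := ih (dslope h (ζ a)) hc1 hd1 (by
      intro j hj
      have h2 := hfac (ζ j)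
      rw [h0 j (Finset.mem_insert_of_mem hj)] at h2
      have h3 : ζ j - ζ a ≠ 0 := by
        intro h4
        have : j = a := hinj (sub_eq_zero.mp h4)
        rw [this] at hj
        exact ha hj
      exact (mul_eq_zero.mp h2.symm).resolve_left h3)
    refine ⟨q, hqc, hqd, fun z => ?_⟩
    rw [Finset.prod_insert ha, hfac z, hq z, mul_assoc]

/-- **Key lemma**: eigenvalues of the compressed operator. -/
theorem eig_bound {A : ℕ} (t : Fin A → ℂ) (ht : Function.Injective t) (hre : ∀ j, 0 < (t j).re)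
    (R : ℂ → ℂ) (hRc : ContinuousOn R (Metric.closedBall 0 1))
    (hRd : DifferentiableOn ℂ R (Metric.ball 0 1))
    (κ : ℝ) (hκ : ∀ z : ℂ, ‖z‖ = 1 → ‖R z‖ ≤ κ)
    (s : ℂ) (hs : ‖s‖ ≤ 1) (c : ℝ)
    (hc : ∀ y : ℝ, ∏ j, ‖I * y + t j‖ ≤ c * ∏ j, ‖I * y + (starRingEnd ℂ) (t j)‖)
    (μ : ℂ) (P : ℂ[X]) (hP0 : P ≠ 0) (hPd : P.natDegree < A)
    (hP : ∀ j, μ * P.eval (t j) = s * R (psi (t j)) * P.eval (-(t j))) :
    ‖μ‖ ≤ κ * c := by
  obtain ⟨n, rfl⟩ : ∃ n, A = n + 1 := ⟨A - 1, by omega⟩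
  have hPn : P.natDegree ≤ n := Nat.lt_succ_iff.mp hPd
  -- positivity of the constants
  have hcpos : 0 < c := by
    have h0 := hc 0
    have h1 : 0 < ∏ j, ‖t j‖ := Finset.prod_pos fun j _ => norm_pos_iff.mpr fun h => by
      have := hre j
      rw [h] at this
      simp at this
    simp only [ofReal_zero, mul_zero, zero_add, Complex.norm_conj] at h0
    by_contra hneg
    push Not at hneg
    nlinarith
  have hκ0 : 0 ≤ κ := (norm_nonneg _).trans (hκ 1 (by simp))
  -- the polynomials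
  set ζ : Fin (n + 1) → ℂ := fun j => psi (t j) with hζ
  have ht1 : ∀ j, t j + 1 ≠ 0 := fun j => add_one_ne (hre j).le
  have hζ1 : ∀ j, ζ j ≠ 1 := fun j => psi_ne_one (ht1 j)
  have hζn : ∀ j, ‖ζ j‖ < 1 := fun j => norm_psi_lt (hre j)
  have hζφ : ∀ j, phi (ζ j) = t j := fun j => phi_psi (ht1 j)
  have hζinj : Function.Injective ζ := by
    intro i j hij
    apply ht
    rw [← hζφ i, ← hζφ j, hij]
  have hPcd : (P.comp (-X)).natDegree ≤ n := by
    rw [natDegree_comp]
    simpa using hPn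
  set p := Hm n P with hp
  set ps := Hm n (P.comp (-X)) with hps
  set pd := C ((-1) ^ n) * Hm n ((P.map (starRingEnd ℂ)).comp (-X)) with hpd
  set N : ℂ[X] := ∏ j, (X - C (ζ j)) with hN
  set W : ℂ[X] := ∏ j, (1 - C ((starRingEnd ℂ) (ζ j)) * X) with hW
  set h : ℂ → ℂ := fun z => s * R z * ps.eval z - μ * p.eval z with hh
  have hhc : ContinuousOn h (Metric.closedBall 0 1) := by
    apply ContinuousOn.sub
    · exact (continuousOn_const.mul hRc).mul ps.continuous.continuousOn
    · exact (continuous_const.mul p.continuous).continuousOn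
  have hhd : DifferentiableOn ℂ h (Metric.ball 0 1) := by
    apply DifferentiableOn.sub
    · exact ((differentiableOn_const s).mul hRd).mul ps.differentiable.differentiableOn
    · exact (differentiableOn_const μ).mul p.differentiable.differentiableOn
  have hroot : ∀ j ∈ (Finset.univ : Finset (Fin (n + 1))), h (ζ j) = 0 := by
    intro j _
    rw [hh]
    simp only
    rw [hps, hp, Hm_eval n P hPn (hζ1 j), Hm_eval n _ hPcd (hζ1 j), hζφ j, eval_comp, eval_neg,
      eval_X]
    have h1 := hP j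
    linear_combination (-(1 - ζ j) ^ n) * h1
  obtain ⟨q, hqc, hqd, hq⟩ := exists_div Finset.univ ζ hζinj hζn h hhc hhd hroot
  -- non-vanishing on the closed disc
  have hWne : ∀ z : ℂ, ‖z‖ ≤ 1 → W.eval z ≠ 0 := by
    intro z hz
    rw [hW, eval_prod]
    apply Finset.prod_ne_zero_iff.mpr
    intro j _
    simpa using sub_conj_mul_ne (hζn j) hz
  -- Cauchy
  have hcauchy : (∮ z in C(0, 1), q z * pd.eval z / W.eval z) = 0 := by
    apply circleIntegral_eq_zero_of_differentiable_on_off_countable (zero_le_one)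
      Set.countable_empty
    · apply ContinuousOn.div
      · exact hqc.mul pd.continuous.continuousOn
      · exact W.continuous.continuousOn
      · intro z hz
        exact hWne z (by simpa using hz)
    · intro z hz
      have hzb : z ∈ Metric.ball (0 : ℂ) 1 := hz.1
      have hz' : ‖z‖ ≤ 1 := by
        have := hz.1
        simp at this
        exact this.le
      apply DifferentiableAt.div
      · exact (hqd.differentiableAt (Metric.isOpen_ball.mem_nhds hzb)).mul pd.differentiableAt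
      · exact W.differentiableAt
      · exact hWne z hz'
  -- notation on the circle
  set Z : ℝ → ℂ := fun θ => circleMap 0 1 θ with hZ
  have hZc : Continuous Z := continuous_circleMap 0 1
  have hZn : ∀ θ, ‖Z θ‖ = 1 := norm_circle
  have hWZ : ∀ θ, W.eval (Z θ) ≠ 0 := fun θ => hWne _ (hZn θ).le
  set a : ℝ → ℝ := fun θ => ‖p.eval (Z θ)‖ ^ 2 / ‖W.eval (Z θ)‖ ^ 2 with ha
  set b : ℝ → ℝ := fun θ => ‖ps.eval (Z θ)‖ ^ 2 / ‖W.eval (Z θ)‖ ^ 2 with hb
  set Φ : ℝ → ℂ := fun θ => s * R (Z θ) * (ps.eval (Z θ) *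
    (starRingEnd ℂ) (p.eval (Z θ))) / (W.eval (Z θ) * (starRingEnd ℂ) (W.eval (Z θ))) with hΦ
  have hRZ : Continuous fun θ => R (Z θ) := by
    apply hRc.comp_continuous hZc
    intro θ
    simpa using (hZn θ).le
  have hac : Continuous a := by
    apply Continuous.div
    · exact ((p.continuous.comp hZc).norm).pow 2
    · exact ((W.continuous.comp hZc).norm).pow 2
    · intro θ
      exact pow_ne_zero _ (norm_ne_zero_iff.mpr (hWZ θ))
  have hbc : Continuous b := by
    apply Continuous.div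
    · exact ((ps.continuous.comp hZc).norm).pow 2
    · exact ((W.continuous.comp hZc).norm).pow 2
    · intro θ
      exact pow_ne_zero _ (norm_ne_zero_iff.mpr (hWZ θ))
  have hWc0 : ∀ θ, (starRingEnd ℂ) (W.eval (Z θ)) ≠ 0 := fun θ h0 =>
    hWZ θ (by simpa using h0)
  have hΦc : Continuous Φ := by
    apply Continuous.div
    · apply Continuous.mul
      · exact continuous_const.mul hRZ
      · exact (ps.continuous.comp hZc).mul (Complex.continuous_conj.comp (p.continuous.comp hZc))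
    · exact (W.continuous.comp hZc).mul (Complex.continuous_conj.comp (W.continuous.comp hZc))
    · intro θ
      exact mul_ne_zero (hWZ θ) (hWc0 θ)
  have hpt : ∀ θ ∈ Set.Ioo 0 (2 * Real.pi),
      Z θ * (q (Z θ) * pd.eval (Z θ) / W.eval (Z θ))
        = Φ θ - μ * (a θ : ℂ) := by
    intro θ hθ
    have hz1 : Z θ ≠ 1 := circle_ne_one hθ
    have hzn := hZn θ
    have e1 := conj_Hm hPn hzn hz1
    rw [← hp, ← hpd] at e1
    have hzz : (starRingEnd ℂ) (Z θ) * Z θ = 1 := by
      rw [mul_comm, Complex.mul_conj, Complex.normSq_eq_norm_sq, hzn]; norm_num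
    have e2 : (starRingEnd ℂ) (W.eval (Z θ)) * (Z θ) ^ (n + 1) = N.eval (Z θ) := by
      rw [hW, hN, eval_prod, eval_prod, map_prod]
      have : (Z θ) ^ (n + 1) = ∏ _j : Fin (n + 1), Z θ := by simp
      rw [this, ← Finset.prod_mul_distrib]
      refine Finset.prod_congr rfl fun j _ => ?_
      simp only [eval_sub, eval_one, eval_mul, eval_C, eval_X, map_sub, map_one, map_mul,
        Complex.conj_conj]
      linear_combination (-ζ j) * hzz
    have e4 : s * R (Z θ) * ps.eval (Z θ) - μ * p.eval (Z θ) = N.eval (Z θ) * q (Z θ) := by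
      have := hq (Z θ)
      rw [hN, eval_prod]
      simpa using this
    have e5 : (a θ : ℂ) = p.eval (Z θ) * (starRingEnd ℂ) (p.eval (Z θ)) /
        (W.eval (Z θ) * (starRingEnd ℂ) (W.eval (Z θ))) := by
      rw [Complex.mul_conj, Complex.mul_conj, Complex.normSq_eq_norm_sq,
        Complex.normSq_eq_norm_sq, ha]
      push_cast
      rfl
    rw [e5, hΦ]
    have g2 := hWZ θ
    have g3 := hWc0 θ
    simp only
    rw [← e1]
    rw [← e2] at e4
    field_simp
    linear_combination (-(starRingEnd ℂ) (p.eval (Z θ))) * e4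
  have hint0 : (∫ θ in (0 : ℝ)..(2 * Real.pi),
      Z θ * (q (Z θ) * pd.eval (Z θ) / W.eval (Z θ))) = 0 := by
    have h0 := hcauchy
    rw [circleIntegral] at h0
    have h1 : ∀ θ : ℝ, deriv (circleMap 0 1) θ • (q (circleMap 0 1 θ) *
        pd.eval (circleMap 0 1 θ) / W.eval (circleMap 0 1 θ))
        = I * (Z θ * (q (Z θ) * pd.eval (Z θ) / W.eval (Z θ))) := by
      intro θ
      rw [deriv_circleMap, smul_eq_mul]
      ring
    simp_rw [h1] at h0
    rw [intervalIntegral.integral_const_mul] at h0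
    exact (mul_eq_zero.mp h0).resolve_left I_ne_zero
  have hint1 : (∫ θ in (0 : ℝ)..(2 * Real.pi), Φ θ)
      = μ * ((∫ θ in (0 : ℝ)..(2 * Real.pi), a θ : ℝ) : ℂ) := by
    have h1 : (∫ θ in (0 : ℝ)..(2 * Real.pi),
        Z θ * (q (Z θ) * pd.eval (Z θ) / W.eval (Z θ)))
        = ∫ θ in (0 : ℝ)..(2 * Real.pi), (Φ θ - μ * (a θ : ℂ)) := by
      rw [intervalIntegral.integral_of_le Real.two_pi_pos.le,
        intervalIntegral.integral_of_le Real.two_pi_pos.le,
        MeasureTheory.integral_Ioc_eq_integral_Ioo, MeasureTheory.integral_Ioc_eq_integral_Ioo]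
      exact setIntegral_congr_fun measurableSet_Ioo hpt
    have hac' : Continuous fun θ => μ * (a θ : ℂ) :=
      continuous_const.mul (Complex.continuous_ofReal.comp hac)
    rw [hint0, intervalIntegral.integral_sub (hΦc.intervalIntegrable _ _)
      (hac'.intervalIntegrable _ _),
      intervalIntegral.integral_const_mul, intervalIntegral.integral_ofReal] at h1
    exact (sub_eq_zero.mp h1.symm)
  -- positivity of the integral of a
  have ha0 : ∀ θ, 0 ≤ a θ := fun θ => by positivity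
  have hapos : 0 < ∫ θ in (0 : ℝ)..(2 * Real.pi), a θ := by
    apply intervalIntegral.integral_pos Real.two_pi_pos hac.continuousOn (fun θ _ => ha0 θ)
    -- a real y with P(iy) nonzero
    have hy : ∃ y : ℝ, P.eval (I * y) ≠ 0 := by
      by_contra hcon
      push Not at hcon
      apply hP0
      apply Polynomial.eq_zero_of_infinite_isRoot
      have hinj : Function.Injective fun y : ℝ => I * (y : ℂ) := by
        intro x y hxy
        have := mul_left_cancel₀ I_ne_zero hxy
        exact_mod_cast this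
      exact (Set.infinite_range_of_injective hinj).mono (by
        rintro _ ⟨y, rfl⟩
        exact hcon y)
    obtain ⟨y, hy⟩ := hy
    have hy1 : I * (y : ℂ) + 1 ≠ 0 := add_one_ne (by simp)
    have hs1 : ‖psi (I * y)‖ = 1 := by
      rw [psi, norm_div, div_eq_one_iff_eq (norm_ne_zero_iff.mpr hy1),
        ← Complex.norm_conj (I * y - 1)]
      rw [← norm_neg]
      congr 1
      simp
      ring
    have hmem : psi (I * y) ∈ Metric.sphere (0 : ℂ) |1| := by simpa using hs1
    rw [← image_circleMap_Ioc] at hmem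
    obtain ⟨θ, hθ, hθe⟩ := hmem
    refine ⟨θ, ⟨hθ.1.le, hθ.2⟩, ?_⟩
    have h1 : p.eval (Z θ) ≠ 0 := by
      have : Z θ = psi (I * y) := hθe
      rw [this, hp, Hm_eval n P hPn (psi_ne_one hy1), phi_psi hy1]
      exact mul_ne_zero (pow_ne_zero _ (sub_ne_zero.mpr (Ne.symm (psi_ne_one hy1)))) hy
    have h2 := norm_pos_iff.mpr h1
    have h3 := norm_pos_iff.mpr (hWZ θ)
    positivity
  -- the pointwise bound
  have hΦb : ∀ θ ∈ Set.Ioo 0 (2 * Real.pi), ‖Φ θ‖ ≤ κ / 2 * (b θ / c + c * a θ) := by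
    intro θ hθ
    have hz1 : Z θ ≠ 1 := circle_ne_one hθ
    have hzn := hZn θ
    have hW0 : 0 < ‖W.eval (Z θ)‖ := norm_pos_iff.mpr (hWZ θ)
    have hr : ‖R (Z θ)‖ ≤ κ := hκ _ hzn
    have h1 : ‖Φ θ‖ ≤ κ * (‖ps.eval (Z θ)‖ * ‖p.eval (Z θ)‖ / ‖W.eval (Z θ)‖ ^ 2) := by
      rw [hΦ]
      simp only [norm_div, norm_mul, Complex.norm_conj]
      have h2 : ‖s‖ * ‖R (Z θ)‖ ≤ κ := by
        calc ‖s‖ * ‖R (Z θ)‖ ≤ 1 * ‖R (Z θ)‖ := by
              apply mul_le_mul_of_nonneg_right hs; positivity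
          _ ≤ κ := by rw [one_mul]; exact hr
      rw [mul_div_assoc, ← pow_two]
      exact mul_le_mul_of_nonneg_right h2 (by positivity)
    refine h1.trans ?_
    have h3 : ‖ps.eval (Z θ)‖ * ‖p.eval (Z θ)‖ ≤
        1 / 2 * (‖ps.eval (Z θ)‖ ^ 2 / c + c * ‖p.eval (Z θ)‖ ^ 2) := by
      have h4 : 0 ≤ (‖ps.eval (Z θ)‖ - c * ‖p.eval (Z θ)‖) ^ 2 / c := by positivity
      have h5 : (‖ps.eval (Z θ)‖ - c * ‖p.eval (Z θ)‖) ^ 2 / c
          = ‖ps.eval (Z θ)‖ ^ 2 / c + c * ‖p.eval (Z θ)‖ ^ 2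
            - 2 * (‖ps.eval (Z θ)‖ * ‖p.eval (Z θ)‖) := by
        field_simp
        ring
      rw [h5] at h4
      linarith
    have h6 : ‖ps.eval (Z θ)‖ * ‖p.eval (Z θ)‖ / ‖W.eval (Z θ)‖ ^ 2 ≤
        1 / 2 * (b θ / c + c * a θ) := by
      rw [div_le_iff₀ (by positivity), hb, ha]
      refine h3.trans (le_of_eq ?_)
      simp only
      field_simp
    calc κ * (‖ps.eval (Z θ)‖ * ‖p.eval (Z θ)‖ / ‖W.eval (Z θ)‖ ^ 2)
        ≤ κ * (1 / 2 * (b θ / c + c * a θ)) := mul_le_mul_of_nonneg_left h6 hκ0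
      _ = κ / 2 * (b θ / c + c * a θ) := by ring
  -- comparison of the integrals of a and b
  have hba : ∀ θ ∈ Set.Ioo 0 (2 * Real.pi), b θ ≤ c ^ 2 * a (2 * Real.pi - θ) := by
    intro θ hθ
    have hz1 : Z θ ≠ 1 := circle_ne_one hθ
    have hzn := hZn θ
    have hZm : Z (2 * Real.pi - θ) = (starRingEnd ℂ) (Z θ) := circle_neg θ
    have hznc : ‖(starRingEnd ℂ) (Z θ)‖ = 1 := by rw [Complex.norm_conj]; exact hzn
    have hWc : ‖W.eval ((starRingEnd ℂ) (Z θ))‖ ≤ c * ‖W.eval (Z θ)‖ := by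
      obtain ⟨y, hy⟩ := phi_circle hzn
      have hyc : phi ((starRingEnd ℂ) (Z θ)) = I * ((-y : ℝ) : ℂ) := by
        rw [← conj_phi, hy]; simp
      rw [hW, eval_prod, eval_prod, norm_prod, norm_prod]
      have l1 : ∀ j, ‖(1 - C ((starRingEnd ℂ) (ζ j)) * X).eval (Z θ)‖
          = 2 / (‖t j + 1‖ * ‖I * y + 1‖) * ‖I * y + (starRingEnd ℂ) (t j)‖ := by
        intro j
        have := one_sub_psi (hre j) hy hz1
        simp only [eval_sub, eval_one, eval_mul, eval_C, eval_X]
        rw [this]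
        ring
      have l2 : ∀ j, ‖(1 - C ((starRingEnd ℂ) (ζ j)) * X).eval ((starRingEnd ℂ) (Z θ))‖
          = 2 / (‖t j + 1‖ * ‖I * y + 1‖) * ‖I * y + t j‖ := by
        intro j
        have := one_sub_psi (hre j) hyc (conj_ne_one hz1)
        simp only [eval_sub, eval_one, eval_mul, eval_C, eval_X]
        rw [this]
        have e1 : ‖I * ((-y : ℝ) : ℂ) + (starRingEnd ℂ) (t j)‖ = ‖I * y + t j‖ := by
          rw [← Complex.norm_conj]
          simp
        have e2 : ‖I * ((-y : ℝ) : ℂ) + 1‖ = ‖I * (y : ℂ) + 1‖ := by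
          rw [← Complex.norm_conj]
          simp
        rw [e1, e2]
        ring
      rw [Finset.prod_congr rfl fun j _ => l1 j, Finset.prod_congr rfl fun j _ => l2 j,
        Finset.prod_mul_distrib, Finset.prod_mul_distrib]
      have h0 : 0 ≤ ∏ j : Fin (n + 1), 2 / (‖t j + 1‖ * ‖I * (y : ℂ) + 1‖) :=
        Finset.prod_nonneg fun j _ => by positivity
      nlinarith [hc y]
    have hps1 : ‖ps.eval (Z θ)‖ = ‖p.eval ((starRingEnd ℂ) (Z θ))‖ := norm_Hm_neg hPn hzn hz1
    have hW0 : 0 < ‖W.eval (Z θ)‖ := norm_pos_iff.mpr (hWZ θ)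
    have hW1 : 0 < ‖W.eval ((starRingEnd ℂ) (Z θ))‖ := norm_pos_iff.mpr (hWne _ hznc.le)
    rw [hb, ha]
    simp only
    rw [hZm, hps1, div_le_iff₀ (by positivity)]
    have h2 : ‖W.eval ((starRingEnd ℂ) (Z θ))‖ ^ 2 ≤ c ^ 2 * ‖W.eval (Z θ)‖ ^ 2 := by
      rw [← mul_pow]
      exact pow_le_pow_left₀ hW1.le hWc 2
    calc ‖p.eval ((starRingEnd ℂ) (Z θ))‖ ^ 2
        = (‖p.eval ((starRingEnd ℂ) (Z θ))‖ ^ 2 / ‖W.eval ((starRingEnd ℂ) (Z θ))‖ ^ 2)
          * ‖W.eval ((starRingEnd ℂ) (Z θ))‖ ^ 2 := by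
          field_simp
      _ ≤ (‖p.eval ((starRingEnd ℂ) (Z θ))‖ ^ 2 / ‖W.eval ((starRingEnd ℂ) (Z θ))‖ ^ 2)
          * (c ^ 2 * ‖W.eval (Z θ)‖ ^ 2) := mul_le_mul_of_nonneg_left h2 (by positivity)
      _ = _ := by ring
  have hintba : (∫ θ in (0 : ℝ)..(2 * Real.pi), b θ)
      ≤ c ^ 2 * ∫ θ in (0 : ℝ)..(2 * Real.pi), a θ := by
    have h1 : (∫ θ in (0 : ℝ)..(2 * Real.pi), a (2 * Real.pi - θ))
        = ∫ θ in (0 : ℝ)..(2 * Real.pi), a θ := by
      rw [intervalIntegral.integral_comp_sub_left]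
      simp
    rw [← h1, ← intervalIntegral.integral_const_mul]
    apply intervalIntegral.integral_mono_on_of_le_Ioo Real.two_pi_pos.le
    · exact hbc.intervalIntegrable _ _
    · exact (continuous_const.mul (hac.comp (continuous_const.sub continuous_id))).intervalIntegrable
        _ _
    · exact hba
  -- conclusion
  have hfin : ‖μ‖ * (∫ θ in (0 : ℝ)..(2 * Real.pi), a θ)
      ≤ κ * c * (∫ θ in (0 : ℝ)..(2 * Real.pi), a θ) := by
    have h1 : ‖μ‖ * (∫ θ in (0 : ℝ)..(2 * Real.pi), a θ)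
        = ‖∫ θ in (0 : ℝ)..(2 * Real.pi), Φ θ‖ := by
      rw [hint1, norm_mul, Complex.norm_real, Real.norm_of_nonneg hapos.le]
    rw [h1]
    calc ‖∫ θ in (0 : ℝ)..(2 * Real.pi), Φ θ‖
        ≤ ∫ θ in (0 : ℝ)..(2 * Real.pi), ‖Φ θ‖ :=
          intervalIntegral.norm_integral_le_integral_norm Real.two_pi_pos.le
      _ ≤ ∫ θ in (0 : ℝ)..(2 * Real.pi), (κ / 2 * (b θ / c + c * a θ)) := by
          apply intervalIntegral.integral_mono_on_of_le_Ioo Real.two_pi_pos.le
          · exact hΦc.norm.intervalIntegrable _ _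
          · exact (continuous_const.mul ((hbc.div_const c).add
              (continuous_const.mul hac))).intervalIntegrable _ _
          · exact hΦb
      _ = κ / 2 * ((∫ θ in (0 : ℝ)..(2 * Real.pi), b θ) / c
            + c * ∫ θ in (0 : ℝ)..(2 * Real.pi), a θ) := by
          have i1 : Continuous fun θ => b θ / c := hbc.div_const c
          have i2 : Continuous fun θ => c * a θ := continuous_const.mul hac
          rw [intervalIntegral.integral_const_mul, intervalIntegral.integral_add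
            (i1.intervalIntegrable _ _) (i2.intervalIntegrable _ _),
            intervalIntegral.integral_const_mul, intervalIntegral.integral_div]
      _ ≤ κ / 2 * ((c ^ 2 * ∫ θ in (0 : ℝ)..(2 * Real.pi), a θ) / c
            + c * ∫ θ in (0 : ℝ)..(2 * Real.pi), a θ) := by
          gcongr
      _ = κ * c * (∫ θ in (0 : ℝ)..(2 * Real.pi), a θ) := by
          field_simp
          ring
  exact le_of_mul_le_mul_right hfin hapos

/-- If all eigenvalues of `M` are at most `K`, then `|det (1 + M)| <= (1 + K) ^ A`. -/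
theorem norm_det_one_add {A : ℕ} (M : Matrix (Fin A) (Fin A) ℂ) (K : ℝ)
    (hK : ∀ μ : ℂ, M.charpoly.eval μ = 0 → ‖μ‖ ≤ K) : ‖(1 + M).det‖ ≤ (1 + K) ^ A := by
  have h1 : M.charpoly.eval (-1) = (-1 : ℂ) ^ A * (1 + M).det := by
    rw [Matrix.eval_charpoly]
    have : (Matrix.scalar (Fin A)) (-1 : ℂ) - M = -(1 + M) := by
      ext i j
      simp [Matrix.one_apply, Matrix.diagonal_apply]
      split_ifs <;> ring
    rw [this, Matrix.det_neg]
    simp
  have h2 : M.charpoly = (M.charpoly.roots.map fun a => X - C a).prod :=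
    (IsAlgClosed.splits M.charpoly).eq_prod_roots_of_monic M.charpoly_monic
  have hcard : M.charpoly.roots.card = A := by
    have := (IsAlgClosed.splits M.charpoly).natDegree_eq_card_roots
    rw [← this, Matrix.charpoly_natDegree_eq_dim]
    simp
  have h3 : ‖(1 + M).det‖ = ‖M.charpoly.eval (-1)‖ := by
    rw [h1, norm_mul]
    simp
  rw [h3, h2, eval_multiset_prod, Multiset.map_map]
  have h4 : ∀ S : Multiset ℂ, (∀ μ ∈ S, ‖μ‖ ≤ K) →
      ‖(S.map ((fun P : ℂ[X] => eval (-1) P) ∘ fun a => X - C a)).prod‖ ≤ (1 + K) ^ S.card := by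
    intro S
    induction S using Multiset.induction_on with
    | empty => intro _; simp
    | cons a S ih =>
      intro hS
      rw [Multiset.map_cons, Multiset.prod_cons, Multiset.card_cons, norm_mul, pow_succ, mul_comm]
      have h5 := ih fun μ hμ => hS μ (Multiset.mem_cons_of_mem hμ)
      have h6 : ‖a‖ ≤ K := hS a (Multiset.mem_cons_self a S)
      have h7 : ‖((fun P : ℂ[X] => eval (-1) P) ∘ fun a => X - C a) a‖ ≤ 1 + K := by
        simp only [Function.comp, eval_sub, eval_X, eval_C]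
        calc ‖(-1 : ℂ) - a‖ ≤ ‖(-1 : ℂ)‖ + ‖a‖ := norm_sub_le _ _
          _ ≤ 1 + K := by rw [norm_neg, norm_one]; linarith
      exact mul_le_mul h5 h7 (norm_nonneg _) (by
        have : 0 ≤ K := (norm_nonneg a).trans h6
        positivity)
  have h8 := h4 M.charpoly.roots fun μ hμ => hK μ (by
    have := (Polynomial.mem_roots'.mp hμ).2
    exact this)
  rwa [hcard] at h8

/-- The value matrix of the monomials at the points `t`, twisted by `r` at `-t`. -/
def tw {A : ℕ} (t : Fin A → ℂ) (r : Fin A → ℂ) : Matrix (Fin A) (Fin A) ℂ :=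
  Matrix.of fun i j => t i ^ (j : ℕ) + r i * (-(t i)) ^ (j : ℕ)

/-- **Decoupling lemma**, in the disc. -/
theorem decouple {A : ℕ} (t : Fin A → ℂ) (ht : Function.Injective t) (hre : ∀ j, 0 < (t j).re)
    (R : ℂ → ℂ) (hRc : ContinuousOn R (Metric.closedBall 0 1))
    (hRd : DifferentiableOn ℂ R (Metric.ball 0 1))
    (κ : ℝ) (hκ : ∀ z : ℂ, ‖z‖ = 1 → ‖R z‖ ≤ κ)
    (s : ℂ) (hs : ‖s‖ ≤ 1) (c : ℝ)
    (hc : ∀ y : ℝ, ∏ j, ‖I * y + t j‖ ≤ c * ∏ j, ‖I * y + (starRingEnd ℂ) (t j)‖) :
    ‖(tw t fun i => s * R (psi (t i))).det‖ ≤ (1 + κ * c) ^ A * ‖(Matrix.vandermonde t).det‖ := by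
  set E := Matrix.vandermonde t with hE
  have hE0 : E.det ≠ 0 := Matrix.det_vandermonde_ne_zero_iff.mpr ht
  have hEu : IsUnit E.det := isUnit_iff_ne_zero.mpr hE0
  set M : Matrix (Fin A) (Fin A) ℂ := Matrix.of fun i j =>
    s * R (psi (t i)) * (-(t i)) ^ (j : ℕ) with hM
  have h1 : (tw t fun i => s * R (psi (t i))) = (1 + M * E⁻¹) * E := by
    rw [add_mul, one_mul, mul_assoc, Matrix.nonsing_inv_mul E hEu, mul_one]
    ext i j
    simp [tw, hE, hM, Matrix.vandermonde_apply]
  rw [h1, Matrix.det_mul, norm_mul]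
  apply mul_le_mul_of_nonneg_right _ (norm_nonneg _)
  apply norm_det_one_add
  intro μ hμ
  rw [Matrix.eval_charpoly] at hμ
  have h2 : ((Matrix.scalar (Fin A)) μ * E - M).det = 0 := by
    have : (Matrix.scalar (Fin A)) μ * E - M = ((Matrix.scalar (Fin A)) μ - M * E⁻¹) * E := by
      rw [sub_mul, mul_assoc M, Matrix.nonsing_inv_mul E hEu, mul_one]
    rw [this, Matrix.det_mul, hμ, zero_mul]
  obtain ⟨v, hv0, hv⟩ := Matrix.exists_mulVec_eq_zero_iff.mpr h2
  set P : ℂ[X] := ∑ j : Fin A, C (v j) * X ^ (j : ℕ) with hP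
  have hPc : ∀ j : Fin A, P.coeff j = v j := by
    intro j
    rw [hP, finsetSum_coeff]
    simp only [coeff_C_mul, coeff_X_pow]
    rw [Finset.sum_eq_single j]
    · simp
    · intro i _ hij
      rw [if_neg, mul_zero]
      intro h
      exact hij (Fin.ext h.symm)
    · simp
  have hA : 0 < A := by
    rcases Nat.eq_zero_or_pos A with h | h
    · subst h
      exact absurd (Subsingleton.elim v 0) hv0
    · exact h
  have hP0 : P ≠ 0 := by
    intro h
    apply hv0
    ext j
    rw [← hPc j, h]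
    simp
  have hPd : P.natDegree < A := by
    rw [hP]
    refine lt_of_le_of_lt (natDegree_sum_le_of_forall_le (n := A - 1) _ _ ?_) (by omega)
    intro j _
    refine (natDegree_C_mul_X_pow_le _ _).trans (by omega)
  have hPe : ∀ z : ℂ, P.eval z = ∑ j : Fin A, v j * z ^ (j : ℕ) := by
    intro z
    rw [hP, eval_finsetSum]
    simp
  apply eig_bound t ht hre R hRc hRd κ hκ s hs c hc μ P hP0 hPd
  intro i
  have h3 := congrFun hv i
  rw [Matrix.sub_mulVec] at h3
  simp only [Pi.sub_apply, Pi.zero_apply, Matrix.mulVec, dotProduct] at h3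
  rw [sub_eq_zero] at h3
  rw [hPe, hPe, Finset.mul_sum, Finset.mul_sum]
  calc ∑ j : Fin A, μ * (v j * t i ^ (j : ℕ))
      = ∑ j : Fin A, ((Matrix.scalar (Fin A)) μ * E) i j * v j := by
        refine Finset.sum_congr rfl fun j _ => ?_
        simp [hE, Matrix.vandermonde_apply]
        ring
    _ = ∑ j : Fin A, M i j * v j := h3
    _ = _ := by
        refine Finset.sum_congr rfl fun j _ => ?_
        simp [hM]
        ring

/-! ## The half plane version -/

/-- The regularising factor `1 / (1 + d phi)`. -/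
def reg (d : ℝ) (z : ℂ) : ℂ := (1 - z) / ((1 - z) + d * (1 + z))

theorem norm_one_sub_le {d : ℝ} (hd : 0 < d) {z : ℂ} (hz : ‖z‖ ≤ 1) :
    ‖1 - z‖ ≤ ‖(1 - z) + d * (1 + z)‖ := by
  have h2 : z.re * z.re + z.im * z.im ≤ 1 := by
    have := Complex.normSq_eq_norm_sq z
    rw [Complex.normSq_apply] at this
    rw [this]
    nlinarith [norm_nonneg z]
  apply le_of_sq_le_sq _ (norm_nonneg _)
  rw [← Complex.normSq_eq_norm_sq, ← Complex.normSq_eq_norm_sq, Complex.normSq_apply,
    Complex.normSq_apply]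
  simp
  nlinarith [mul_nonneg hd.le (sub_nonneg.mpr h2), sq_nonneg (d * (1 + z.re)),
    sq_nonneg (d * z.im)]

theorem reg_den_ne {d : ℝ} (hd : 0 < d) {z : ℂ} (hz : ‖z‖ ≤ 1) :
    (1 - z) + d * (1 + z) ≠ 0 := by
  intro h
  have h1 := norm_one_sub_le hd hz
  rw [h, norm_zero] at h1
  have h2 : 1 - z = 0 := norm_le_zero_iff.mp h1
  have h3 : z = 1 := by linear_combination -h2
  rw [h3] at h
  have h4 : (d : ℂ) * 2 = 0 := by linear_combination h
  have h5 : (d : ℂ) ≠ 0 := by exact_mod_cast hd.ne'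
  rcases mul_eq_zero.mp h4 with h6 | h6
  · exact h5 h6
  · norm_num at h6

theorem norm_reg_le {d : ℝ} (hd : 0 < d) {z : ℂ} (hz : ‖z‖ ≤ 1) : ‖reg d z‖ ≤ 1 := by
  rw [reg, norm_div, div_le_one (norm_pos_iff.mpr (reg_den_ne hd hz))]
  exact norm_one_sub_le hd hz

theorem continuousOn_reg {d : ℝ} (hd : 0 < d) : ContinuousOn (reg d) (Metric.closedBall 0 1) := by
  apply ContinuousOn.div
  · fun_prop
  · fun_prop
  · intro z hz
    exact reg_den_ne hd (by simpa using hz)

theorem continuousOn_phi : ContinuousOn phi {z | z ≠ 1} := by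
  apply ContinuousOn.div
  · fun_prop
  · fun_prop
  · intro z hz
    exact sub_ne_zero.mpr (Ne.symm hz)

theorem re_phi_pos {z : ℂ} (hz : ‖z‖ < 1) : 0 < (phi z).re := by
  have h1 : z ≠ 1 := by
    intro h
    rw [h] at hz
    simp at hz
  unfold phi
  rw [Complex.div_re]
  have h2 : z.re * z.re + z.im * z.im < 1 := by
    have := Complex.normSq_eq_norm_sq z
    rw [Complex.normSq_apply] at this
    rw [this]
    nlinarith [norm_nonneg z]
  have h3 : 0 < Complex.normSq (1 - z) := Complex.normSq_pos.mpr (sub_ne_zero.mpr (Ne.symm h1))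
  rw [← add_div]
  apply div_pos _ h3
  simp
  nlinarith

/-- **Decoupling lemma**, half plane version: `r` holomorphic in `0 < re s`, continuous and
bounded by `rho` in `0 <= re s`. -/
theorem decouple_half {A : ℕ} (t : Fin A → ℂ) (ht : Function.Injective t)
    (hre : ∀ j, 0 < (t j).re) {r : ℂ → ℂ} {ρ : ℝ} (hr : ∀ s : ℂ, 0 ≤ s.re → ‖r s‖ ≤ ρ)
    (hd : DiffContOnCl ℂ r {s : ℂ | 0 < s.re}) {c : ℝ}
    (hc : ∀ y : ℝ, ∏ j, ‖I * y - t j‖ ≤ c * ∏ j, ‖I * y + t j‖) (σ : ℂ) (hσ : ‖σ‖ ≤ 1) :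
    ‖(tw t fun i => σ * r (t i)).det‖ ≤ (1 + ρ * c) ^ A * ‖(Matrix.vandermonde t).det‖ := by
  have hρ : 0 ≤ ρ := (norm_nonneg _).trans (hr 0 (by simp))
  have hc' : ∀ y : ℝ, ∏ j, ‖I * y + t j‖ ≤ c * ∏ j, ‖I * y + (starRingEnd ℂ) (t j)‖ := by
    intro y
    have h1 := hc (-y)
    have e1 : ∀ j, ‖I * ((-y : ℝ) : ℂ) - t j‖ = ‖I * y + t j‖ := by
      intro j
      rw [← norm_neg]
      congr 1
      push_cast
      ring
    have e2 : ∀ j, ‖I * ((-y : ℝ) : ℂ) + t j‖ = ‖I * y + (starRingEnd ℂ) (t j)‖ := by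
      intro j
      rw [← Complex.norm_conj]
      congr 1
      simp
    rw [Finset.prod_congr rfl fun j _ => e1 j, Finset.prod_congr rfl fun j _ => e2 j] at h1
    exact h1
  have hcl : closure {s : ℂ | 0 < s.re} = {s : ℂ | 0 ≤ s.re} := Complex.closure_setOfPred_lt_re 0
  have hrc : ContinuousOn r {s : ℂ | 0 ≤ s.re} := by
    rw [← hcl]
    exact hd.continuousOn
  -- the bound for every d > 0
  have key : ∀ d : ℝ, 0 < d → ‖(tw t fun i => σ * (r (t i) * reg d (psi (t i)))).det‖
      ≤ (1 + ρ * c) ^ A * ‖(Matrix.vandermonde t).det‖ := by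
    intro d hdp
    have h1 := decouple t ht hre (fun z => r (phi z) * reg d z) ?_ ?_ ρ ?_ σ hσ c hc'
    · have h2 : ∀ i, phi (psi (t i)) = t i := fun i => phi_psi (add_one_ne (hre i).le)
      simp only [h2] at h1
      exact h1
    · -- continuity on the closed disc
      intro z hz
      have hz' : ‖z‖ ≤ 1 := by simpa using hz
      by_cases h1 : z = 1
      · subst h1
        have hr1 : reg d 1 = 0 := by simp [reg]
        rw [ContinuousWithinAt, hr1, mul_zero]
        have h2 : Filter.Tendsto (fun z => ρ * ‖reg d z‖) (nhdsWithin 1 (Metric.closedBall 0 1))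
            (nhds 0) := by
          have h3 : Filter.Tendsto (reg d) (nhdsWithin 1 (Metric.closedBall 0 1))
              (nhds (reg d 1)) := continuousOn_reg hdp 1 (by simp)
          rw [hr1] at h3
          have h4 := h3.norm.const_mul ρ
          simpa using h4
        apply squeeze_zero_norm' _ h2
        filter_upwards [self_mem_nhdsWithin] with w hw
        have hw' : ‖w‖ ≤ 1 := by simpa using hw
        rw [norm_mul]
        apply mul_le_mul_of_nonneg_right _ (norm_nonneg _)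
        by_cases h5 : w = 1
        · rw [h5]
          apply hr
          simp [phi]
        · exact hr _ (re_phi_nonneg hw' h5)
      · have hU : {w : ℂ | w ≠ 1} ∈ nhds z := isOpen_ne.mem_nhds h1
        apply ContinuousWithinAt.mul _ (continuousOn_reg hdp z hz)
        have h2 : ContinuousWithinAt phi (Metric.closedBall 0 1 ∩ {w : ℂ | w ≠ 1}) z :=
          (continuousOn_phi z h1).mono Set.inter_subset_right
        have h3 : ContinuousWithinAt (fun z => r (phi z))
            (Metric.closedBall 0 1 ∩ {w : ℂ | w ≠ 1}) z := by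
          have h4 := hrc (phi z) (re_phi_nonneg hz' h1)
          apply ContinuousWithinAt.comp h4 h2
          intro w hw
          exact re_phi_nonneg (by simpa using hw.1) hw.2
        exact (continuousWithinAt_inter hU).mp h3
    · -- differentiability in the open disc
      intro z hz
      have hz' : ‖z‖ < 1 := by simpa using hz
      have h1 : z ≠ 1 := by
        intro h
        rw [h] at hz'
        simp at hz'
      apply DifferentiableAt.differentiableWithinAt
      apply DifferentiableAt.mul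
      · have h2 : DifferentiableAt ℂ r (phi z) :=
          hd.differentiableAt (isOpen_lt continuous_const Complex.continuous_re) (re_phi_pos hz')
        have h3 : DifferentiableAt ℂ phi z := by
          apply DifferentiableAt.div
          · fun_prop
          · fun_prop
          · exact sub_ne_zero.mpr (Ne.symm h1)
        exact h2.comp z h3
      · apply DifferentiableAt.div
        · fun_prop
        · fun_prop
        · exact reg_den_ne hdp hz'.le
    · intro z hz
      rw [norm_mul]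
      have h1 : ‖r (phi z)‖ ≤ ρ := by
        by_cases h5 : z = 1
        · rw [h5]
          apply hr
          simp [phi]
        · exact hr _ (re_phi_nonneg hz.le h5)
      calc ‖r (phi z)‖ * ‖reg d z‖ ≤ ρ * 1 :=
            mul_le_mul h1 (norm_reg_le hdp hz.le) (norm_nonneg _) hρ
        _ = ρ := mul_one ρ
  -- the limit d -> 0
  have hlim : Filter.Tendsto (fun d : ℝ => ‖(tw t fun i => σ * (r (t i) * reg d (psi (t i)))).det‖)
      (nhdsWithin 0 (Set.Ioi 0)) (nhds ‖(tw t fun i => σ * r (t i)).det‖) := by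
    apply Filter.Tendsto.norm
    have hreg : ∀ i, Filter.Tendsto (fun d : ℝ => reg d (psi (t i))) (nhdsWithin 0 (Set.Ioi 0))
        (nhds 1) := by
      intro i
      have h1 : 1 - psi (t i) ≠ 0 :=
        sub_ne_zero.mpr (Ne.symm (psi_ne_one (add_one_ne (hre i).le)))
      have h2 : ContinuousAt (fun d : ℝ => reg d (psi (t i))) 0 := by
        unfold reg
        apply ContinuousAt.div
        · fun_prop
        · fun_prop
        · simpa using h1
      have h3 : reg 0 (psi (t i)) = 1 := by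
        unfold reg
        simp [h1]
      have h4 := h2.tendsto
      rw [h3] at h4
      exact h4.mono_left nhdsWithin_le_nhds
    have hdet : Continuous fun M : Matrix (Fin A) (Fin A) ℂ => M.det := Continuous.matrix_det
      continuous_id
    apply (hdet.tendsto _).comp
    refine tendsto_pi_nhds.mpr fun i => tendsto_pi_nhds.mpr fun j => ?_
    simp only [tw, Matrix.of_apply]
    have h5 : Filter.Tendsto (fun d : ℝ => t i ^ (j : ℕ) +
        σ * (r (t i) * reg d (psi (t i))) * (-(t i)) ^ (j : ℕ)) (nhdsWithin 0 (Set.Ioi 0))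
        (nhds (t i ^ (j : ℕ) + σ * (r (t i) * 1) * (-(t i)) ^ (j : ℕ))) :=
      (((hreg i).const_mul (r (t i))).const_mul σ |>.mul_const _).const_add _
    rw [mul_one] at h5
    exact h5
  apply le_of_tendsto hlim
  filter_upwards [self_mem_nhdsWithin] with d hdp
  exact key d hdp

/-! ## The reflection lemma in the form of module R6, and the constant `kappa` -/

/-- `∏ i, ∏ j ∈ Ioi i, ‖t j - t i‖` is the norm of the Vandermonde determinant. -/
theorem norm_vandermonde {c : ℕ} (t : Fin c → ℂ) :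
    ‖(Matrix.vandermonde t).det‖ = ∏ i, ∏ j ∈ Finset.Ioi i, ‖t j - t i‖ := by
  rw [Matrix.det_vandermonde, norm_prod]
  exact Finset.prod_congr rfl fun i _ => norm_prod _ _

/-- A product of the weights `1 + 1 / (2 j + 1)` over a set of naturals. -/
theorem prod_weight_le (S : Finset ℕ) :
    ∏ j ∈ S, (1 + 1 / (2 * (j : ℝ) + 1)) ≤ (S.card : ℝ) + 1 := by
  induction S using Finset.induction_on_max with
  | empty => simp
  | insert a S hmax ih =>
    have hnot : a ∉ S := fun h => lt_irrefl a (hmax a h)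
    rw [Finset.prod_insert hnot, Finset.card_insert_of_notMem hnot]
    have hcard : S.card ≤ a := by
      have : S ⊆ Finset.range a := fun x hx => Finset.mem_range.mpr (hmax x hx)
      simpa using Finset.card_le_card this
    have hcard' : (S.card : ℝ) ≤ a := by exact_mod_cast hcard
    have hpos : (0 : ℝ) < 2 * (a : ℝ) + 1 := by positivity
    calc (1 + 1 / (2 * (a : ℝ) + 1)) * ∏ j ∈ S, (1 + 1 / (2 * (j : ℝ) + 1))
        ≤ (1 + 1 / (2 * (a : ℝ) + 1)) * ((S.card : ℝ) + 1) :=
          mul_le_mul_of_nonneg_left ih (by positivity)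
      _ = ((S.card : ℝ) + 1) + ((S.card : ℝ) + 1) / (2 * (a : ℝ) + 1) := by ring
      _ ≤ ((S.card : ℝ) + 1) + 1 := by
          have : ((S.card : ℝ) + 1) / (2 * (a : ℝ) + 1) ≤ 1 := by
            rw [div_le_one hpos]
            have := Nat.cast_nonneg (α := ℝ) a
            linarith
          linarith
      _ = ((S.card + 1 : ℕ) : ℝ) + 1 := by push_cast; ring

/-- One factor of `kappa`. -/
theorem norm_sub_le_add {t : ℂ} (ht : 0 < t.re) (y : ℝ) :
    ‖I * y - t‖ ≤ (1 + 2 * |t.im| / t.re) * ‖I * y + t‖ := by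
  have h1 : ‖I * y - t‖ = ‖I * y + (starRingEnd ℂ) t‖ := by
    rw [← Complex.norm_conj, ← norm_neg]
    congr 1
    simp
    ring
  have h2 : ‖I * y + (starRingEnd ℂ) t‖ ≤ ‖I * y + t‖ + 2 * |t.im| := by
    have h3 : I * y + (starRingEnd ℂ) t = (I * y + t) - (2 * t.im : ℝ) * I := by
      apply Complex.ext
      · simp
      · simp; ring
    rw [h3]
    refine (norm_sub_le _ _).trans ?_
    rw [norm_mul, Complex.norm_I, mul_one, Complex.norm_real, Real.norm_eq_abs, abs_mul]
    simp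
  have h4 : t.re ≤ ‖I * y + t‖ := by
    have := Complex.re_le_norm (I * y + t)
    simpa using this
  have h5 : 2 * |t.im| ≤ 2 * |t.im| / t.re * ‖I * y + t‖ := by
    rw [div_mul_eq_mul_div, le_div_iff₀ ht]
    exact mul_le_mul_of_nonneg_left h4 (by positivity)
  rw [h1]
  linarith

/-- The constant `kappa <= (c + 1) ^ 2` for points which are real or near `j + 1 / 2`. -/
theorem kappa_le {c : ℕ} (t : Fin c → ℂ) (hre : ∀ i, 0 < (t i).re)
    (lab : Fin c → Option (ℕ × Bool))
    (hlab : ∀ i i' p, lab i = some p → lab i' = some p → i = i')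
    (h0 : ∀ i, lab i = none → (t i).im = 0)
    (h1 : ∀ i (j : ℕ) b, lab i = some (j, b) → (j : ℝ) + 1 / 2 ≤ (t i).re ∧ |(t i).im| ≤ 1 / 4)
    (y : ℝ) : ∏ i, ‖I * y - t i‖ ≤ ((c : ℝ) + 1) ^ 2 * ∏ i, ‖I * y + t i‖ := by
  classical
  set w : Fin c → ℝ := fun i => match lab i with
    | none => 1
    | some p => 1 + 1 / (2 * (p.1 : ℝ) + 1) with hw
  have hw0 : ∀ i, 0 ≤ w i := by
    intro i
    rw [hw]
    simp only
    split
    · norm_num
    · positivity
  have hfac : ∀ i, ‖I * y - t i‖ ≤ w i * ‖I * y + t i‖ := by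
    intro i
    refine (norm_sub_le_add (hre i) y).trans ?_
    apply mul_le_mul_of_nonneg_right _ (norm_nonneg _)
    rw [hw]
    simp only
    rcases hl : lab i with _ | p
    · rw [h0 i hl]
      simp
    · obtain ⟨j, b⟩ := p
      obtain ⟨h2, h3⟩ := h1 i j b hl
      simp only
      have h4 : (0 : ℝ) < 2 * (j : ℝ) + 1 := by positivity
      have h5 : 2 * |(t i).im| / (t i).re ≤ 1 / (2 * (j : ℝ) + 1) := by
        rw [div_le_div_iff₀ (hre i) h4]
        have := abs_nonneg (t i).im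
        nlinarith
      linarith
  have hprodw : ∏ i, w i ≤ ((c : ℝ) + 1) ^ 2 := by
    -- split by the boolean
    have hS : ∀ b : Bool, ∏ i ∈ Finset.univ.filter (fun i => ∃ j, lab i = some (j, b)), w i
        ≤ (c : ℝ) + 1 := by
      intro b
      set F := Finset.univ.filter (fun i : Fin c => ∃ j, lab i = some (j, b)) with hF
      set idx : Fin c → ℕ := fun i => match lab i with
        | none => 0
        | some p => p.1 with hidx
      have hinj : Set.InjOn idx F := by
        intro i hi i' hi' he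
        obtain ⟨j, hj⟩ := (Finset.mem_filter.mp hi).2
        obtain ⟨j', hj'⟩ := (Finset.mem_filter.mp hi').2
        rw [hidx] at he
        simp only [hj, hj'] at he
        rw [he] at hj
        exact hlab i i' _ hj hj'
      have h2 : ∏ i ∈ F, w i = ∏ j ∈ F.image idx, (1 + 1 / (2 * (j : ℝ) + 1)) := by
        rw [Finset.prod_image hinj]
        refine Finset.prod_congr rfl fun i hi => ?_
        obtain ⟨j, hj⟩ := (Finset.mem_filter.mp hi).2
        rw [hw, hidx]
        simp only [hj]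
      rw [h2]
      refine (prod_weight_le _).trans ?_
      have h3 : (F.image idx).card ≤ c := by
        refine Finset.card_image_le.trans ?_
        simpa using Finset.card_le_univ F
      have h3' : ((F.image idx).card : ℝ) ≤ c := by exact_mod_cast h3
      linarith
    have h3 : ∏ i, w i
        = (∏ i ∈ Finset.univ.filter (fun i => ∃ j, lab i = some (j, true)), w i)
          * ∏ i ∈ Finset.univ.filter (fun i => ∃ j, lab i = some (j, false)), w i := by
      rw [← Finset.prod_filter_mul_prod_filter_not Finset.univ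
        (fun i => ∃ j, lab i = some (j, true))]
      congr 1
      symm
      apply Finset.prod_subset
      · intro i hi
        obtain ⟨j, hj⟩ := (Finset.mem_filter.mp hi).2
        refine Finset.mem_filter.mpr ⟨Finset.mem_univ _, ?_⟩
        rintro ⟨j', hj'⟩
        rw [hj] at hj'
        simp at hj'
      · intro i hi hni
        have h4 := (Finset.mem_filter.mp hi).2
        rw [hw]
        simp only
        rcases hl : lab i with _ | p
        · rfl
        · obtain ⟨j, b⟩ := p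
          cases b
          · exact absurd (Finset.mem_filter.mpr ⟨Finset.mem_univ _, j, hl⟩) hni
          · exact absurd ⟨j, hl⟩ h4
    rw [h3, pow_two]
    exact mul_le_mul (hS true) (hS false) (Finset.prod_nonneg fun i _ => hw0 i) (by positivity)
  calc ∏ i, ‖I * y - t i‖ ≤ ∏ i, (w i * ‖I * y + t i‖) :=
        Finset.prod_le_prod (fun i _ => norm_nonneg _) fun i _ => hfac i
    _ = (∏ i, w i) * ∏ i, ‖I * y + t i‖ := Finset.prod_mul_distrib
    _ ≤ ((c : ℝ) + 1) ^ 2 * ∏ i, ‖I * y + t i‖ :=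
        mul_le_mul_of_nonneg_right hprodw (Finset.prod_nonneg fun i _ => norm_nonneg _)

/-- **Reflection lemma** (module R6), explicit entries. -/
theorem refl_det' {c : ℕ} (t : Fin c → ℂ) (hinj : Function.Injective t)
    (hre : ∀ j, 0 < (t j).re) {r : ℂ → ℂ} {ρ κ : ℝ} (hr : ∀ s : ℂ, 0 ≤ s.re → ‖r s‖ ≤ ρ)
    (hd : DiffContOnCl ℂ r {s : ℂ | 0 < s.re})
    (hκ : ∀ y : ℝ, ∏ j, ‖I * y - t j‖ ≤ κ * ∏ j, ‖I * y + t j‖) (σ : ℂ) (hσ : ‖σ‖ ≤ 1) :
    ‖(Matrix.of fun j i : Fin c => t j ^ (i : ℕ) + σ * r (t j) * (-(t j)) ^ (i : ℕ)).det‖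
      ≤ (1 + ρ * κ) ^ c * ∏ i, ∏ j ∈ Finset.Ioi i, ‖t j - t i‖ := by
  rw [← norm_vandermonde]
  exact decouple_half t hinj hre hr hd hκ σ hσ

/-- Reflection lemma for families of nodes and lattice points, with `kappa = (c + 1) ^ 2`. -/
theorem refl_det_lab {c : ℕ} (t : Fin c → ℂ) (hinj : Function.Injective t)
    (hre : ∀ j, 0 < (t j).re) {r : ℂ → ℂ} {ρ : ℝ} (hr : ∀ s : ℂ, 0 ≤ s.re → ‖r s‖ ≤ ρ)
    (hd : DiffContOnCl ℂ r {s : ℂ | 0 < s.re})
    (lab : Fin c → Option (ℕ × Bool))
    (hlab : ∀ i i' p, lab i = some p → lab i' = some p → i = i')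
    (h0 : ∀ i, lab i = none → (t i).im = 0)
    (h1 : ∀ i (j : ℕ) b, lab i = some (j, b) → (j : ℝ) + 1 / 2 ≤ (t i).re ∧ |(t i).im| ≤ 1 / 4)
    (σ : ℂ) (hσ : ‖σ‖ ≤ 1) :
    ‖(Matrix.of fun j i : Fin c => t j ^ (i : ℕ) + σ * r (t j) * (-(t j)) ^ (i : ℕ)).det‖
      ≤ (1 + ρ * ((c : ℝ) + 1) ^ 2) ^ c * ∏ i, ∏ j ∈ Finset.Ioi i, ‖t j - t i‖ :=
  refl_det' t hinj hre hr hd (kappa_le t hre lab hlab h0 h1) σ hσ

end

end T2.Dec
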