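import Pool.Agent.T2.SX
import Pool.Agent.QS2.Defs

/-!
# T2, module SXp: `p`-integrality for `n < p` and the mirror congruence `u (p-1-n) ≡ u n mod p`
-/

set_option autoImplicit false

namespace T2

open Finset QS2

/-- `p`-integral rationals -/
def Zp (p : ℕ) [hp : Fact p.Prime] : Subring ℚ where
  carrier := {x | padicNorm p x ≤ 1}
  mul_mem' := by
    intro a b ha hb
    simp only [Set.mem_setOf_eq] at ha hb ⊢
    rw [padicNorm.mul]
    exact mul_le_one₀ ha (padicNorm.nonneg _) hb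
  one_mem' := by simp
  add_mem' := by
    intro a b ha hb
    exact (padicNorm.nonarchimedean).trans (max_le ha hb)
  zero_mem' := by simp
  neg_mem' := by
    intro a ha
    simp only [Set.mem_setOf_eq] at ha ⊢
    rw [padicNorm.neg]
    exact ha

theorem mem_Zp {p : ℕ} [Fact p.Prime] {x : ℚ} : x ∈ Zp p ↔ padicNorm p x ≤ 1 := Iff.rfl

variable {p : ℕ} [hp : Fact p.Prime]

theorem inv_nat_mem_Zp {m : ℕ} (h : ¬ p ∣ m) : ((m : ℚ))⁻¹ ∈ Zp p := by
  have h1 : padicNorm p (m : ℚ) = 1 := by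
    have h2 := (padicNorm.int_eq_one_iff (p := p) (m : ℤ)).2 (by exact_mod_cast h)
    exact_mod_cast h2
  have hm : (m : ℚ) ≠ 0 := by
    rintro h0
    rw [h0] at h1
    simp at h1
  have h3 : padicNorm p ((m : ℚ) * ((m : ℚ))⁻¹) = 1 := by rw [mul_inv_cancel₀ hm]; simp
  rw [padicNorm.mul, h1, one_mul] at h3
  rw [mem_Zp, h3]

theorem not_dvd_of_lt {m : ℕ} (h0 : 0 < m) (h : m < p) : ¬ p ∣ m :=
  fun hd => absurd (Nat.le_of_dvd h0 hd) (not_le.2 h)

theorem not_dvd_fact {k : ℕ} (h : k < p) : ¬ p ∣ k.factorial := fun hd =>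
  absurd ((hp.out.dvd_factorial).1 hd) (not_le.2 h)

theorem natCast_mem_Zp (m : ℕ) : (m : ℚ) ∈ Zp p := natCast_mem _ m
theorem intCast_mem_Zp (m : ℤ) : (m : ℚ) ∈ Zp p := intCast_mem _ m

theorem Bn_mem (n k : ℕ) : Bn n k ∈ Zp p := mul_mem (natCast_mem _ _) (natCast_mem _ _)

theorem ev_mem {om : ℕ → ℚ} (h : ∀ k < p, om k ∈ Zp p) {n : ℕ} (hn : n < p) :
    ev om n ∈ Zp p := by
  refine sum_mem fun k hk => mul_mem (h k ?_) (Bn_mem n k)
  have := Finset.mem_range.1 hk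
  omega

theorem lamk_mirror {m n : ℕ} (h : m + n + 1 = p) (k : ℕ) :
    (p : ℤ) ∣ lamk (m : ℤ) k - lamk (n : ℤ) k := by
  have hm : (m : ℤ) * (m + 1) - n * (n + 1) = p * ((m : ℤ) - n) := by
    have : (p : ℤ) = m + n + 1 := by rw [← h]; push_cast; ring
    rw [this]; ring
  induction k with
  | zero => simp [lamk_zero]
  | succ k ih =>
    have e : lamk (m : ℤ) (k + 1) - lamk (n : ℤ) (k + 1)
        = (lamk (m : ℤ) k - lamk (n : ℤ) k) * (((m : ℤ) - k) * (m + k + 1))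
          + lamk (n : ℤ) k * (p * ((m : ℤ) - n)) := by
      rw [lamk_succ, lamk_succ, ← hm]
      ring
    rw [e]
    exact dvd_add (ih.mul_right _) (Dvd.intro ((m - n : ℤ) * lamk (n : ℤ) k) (by ring))

theorem lamk_intCast (x : ℤ) (k : ℕ) : ((lamk x k : ℤ) : ℚ) = lamk (x : ℚ) k := by
  induction k with
  | zero => simp [lamk_zero]
  | succ k ih =>
    rw [lamk_succ, lamk_succ, ← ih]
    push_cast
    ring

theorem Bf_mirror {m n : ℕ} (h : m + n + 1 = p) {k : ℕ} (hk : k < p) :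
    ∃ r ∈ Zp p, Bf (m : ℚ) k - Bf (n : ℚ) k = p * r := by
  obtain ⟨r, hr⟩ := lamk_mirror (p := p) h k
  have h1 := lamk_intCast (m : ℤ) k
  have h2 := lamk_intCast (n : ℤ) k
  refine ⟨r * ((k.factorial : ℚ))⁻¹ ^ 2, mul_mem (intCast_mem _ r)
    (pow_mem (inv_nat_mem_Zp (not_dvd_fact hk)) 2), ?_⟩
  have h3 : lamk (m : ℚ) k - lamk (n : ℚ) k = p * r := by
    have h4 : ((lamk (m : ℤ) k - lamk (n : ℤ) k : ℤ) : ℚ) = ((p * r : ℤ) : ℚ) := by rw [hr]
    push_cast at h4
    rw [h1, h2] at h4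
    push_cast at h4
    exact h4
  rw [Bf, Bf, div_sub_div_same, h3, inv_pow]
  field_simp

/-- the mirror congruence of an expansion with `p`-integral coefficients -/
theorem ev_mirror {om : ℕ → ℚ} (hom : ∀ k < p, om k ∈ Zp p) {m n : ℕ} (h : m + n + 1 = p) :
    ∃ r ∈ Zp p, ev om m - ev om n = p * r := by
  have hm : m ≤ p - 1 := by omega
  have hn : n ≤ p - 1 := by omega
  have hpos : 0 < p := hp.out.pos
  have e : ∀ k ∈ range (p - 1 + 1), ∃ r ∈ Zp p, om k * Bf (m : ℚ) k - om k * Bf (n : ℚ) k = p * r := by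
    intro k hk
    have hk' : k < p := by
      have := Finset.mem_range.1 hk
      omega
    obtain ⟨r, hr, he⟩ := Bf_mirror (p := p) h hk'
    exact ⟨om k * r, mul_mem (hom k hk') hr, by rw [← mul_sub, he]; ring⟩
  choose! r hr he using e
  refine ⟨∑ k ∈ range (p - 1 + 1), r k, sum_mem hr, ?_⟩
  rw [ev_eq om m (p - 1) hm, ev_eq om n (p - 1) hn, ← sum_sub_distrib, mul_sum]
  exact sum_congr rfl he

theorem half_mem_Zp (hp2 : p ≠ 2) : (1 / 2 : ℚ) ∈ Zp p := by
  have h : ¬ p ∣ 2 := by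
    intro hd
    have := (Nat.prime_dvd_prime_iff_eq hp.out Nat.prime_two).1 hd
    exact hp2 this
  have := inv_nat_mem_Zp (p := p) h
  simpa using this

theorem fC_mem (k : ℕ) : (fC k : ℚ) ∈ Zp p := natCast_mem _ _

theorem inv_sq_mem {k : ℕ} (hk : k + 2 < p) : (((k : ℚ) + 2) ^ 2)⁻¹ ∈ Zp p := by
  have := inv_nat_mem_Zp (p := p) (not_dvd_of_lt (p := p) (m := k + 2) (by omega) hk)
  rw [← inv_pow]
  refine pow_mem ?_ 2
  push_cast at this
  exact this

theorem omP_mem (hp2 : p ≠ 2) : ∀ k < p, omP k ∈ Zp p := by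
  have key : ∀ k, (k < p → omP k ∈ Zp p) ∧ (k + 1 < p → omP (k + 1) ∈ Zp p) := by
    intro k
    induction k with
    | zero => exact ⟨fun _ => zero_mem _, fun _ => half_mem_Zp hp2⟩
    | succ k ih =>
      refine ⟨ih.2, fun hk => ?_⟩
      change ((7 * ((k : ℚ) + 1) ^ 2 + 7 * ((k : ℚ) + 1) + 2) * omP (k + 1)
        + 8 * ((k : ℚ) + 1) ^ 2 * omP k) / ((k : ℚ) + 2) ^ 2 ∈ Zp p
      rw [div_eq_mul_inv]
      refine mul_mem (add_mem (mul_mem ?_ (ih.2 (by omega))) (mul_mem ?_ (ih.1 (by omega))))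
        (inv_sq_mem hk)
      · have := natCast_mem (Zp p) (7 * (k + 1) ^ 2 + 7 * (k + 1) + 2)
        push_cast at this
        exact this
      · have := natCast_mem (Zp p) (8 * (k + 1) ^ 2)
        push_cast at this
        exact this
  exact fun k => (key k).1

theorem omM_mem (hp2 : p ≠ 2) : ∀ k < p, omM k ∈ Zp p := by
  have key : ∀ k, (k < p → omM k ∈ Zp p) ∧ (k + 1 < p → omM (k + 1) ∈ Zp p) := by
    intro k
    induction k with
    | zero =>
      refine ⟨fun _ => zero_mem _, fun _ => ?_⟩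
      change (-1 / 2 : ℚ) ∈ Zp p
      rw [neg_div]
      exact neg_mem (half_mem_Zp hp2)
    | succ k ih =>
      refine ⟨ih.2, fun hk => ?_⟩
      change (-(10 * ((k : ℚ) + 1) ^ 2 + 10 * ((k : ℚ) + 1) + 3) * omM (k + 1)
        - 9 * ((k : ℚ) + 1) ^ 2 * omM k) / ((k : ℚ) + 2) ^ 2 ∈ Zp p
      rw [div_eq_mul_inv]
      refine mul_mem (sub_mem (mul_mem (neg_mem ?_) (ih.2 (by omega)))
        (mul_mem ?_ (ih.1 (by omega)))) (inv_sq_mem hk)
      · have := natCast_mem (Zp p) (10 * (k + 1) ^ 2 + 10 * (k + 1) + 3)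
        push_cast at this
        exact this
      · have := natCast_mem (Zp p) (9 * (k + 1) ^ 2)
        push_cast at this
        exact this
  exact fun k => (key k).1

theorem omB_mem : ∀ k < p, omB k ∈ Zp p := by
  have key : ∀ k, (k < p → omB k ∈ Zp p) ∧ (k + 1 < p → omB (k + 1) ∈ Zp p) := by
    intro k
    induction k with
    | zero =>
      refine ⟨fun _ => zero_mem _, fun _ => ?_⟩
      change (3 : ℚ) ∈ Zp p
      have := natCast_mem (Zp p) 3
      push_cast at this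
      exact this
    | succ k ih =>
      refine ⟨ih.2, fun hk => ?_⟩
      change ((7 * ((k : ℚ) + 1) ^ 2 + 7 * ((k : ℚ) + 1) + 2) * omB (k + 1)
        + 8 * ((k : ℚ) + 1) ^ 2 * omB k + 3 * (-1) ^ (k + 1) / ((k : ℚ) + 2)) / ((k : ℚ) + 2) ^ 2
        ∈ Zp p
      rw [div_eq_mul_inv]
      refine mul_mem (add_mem (add_mem (mul_mem ?_ (ih.2 (by omega)))
        (mul_mem ?_ (ih.1 (by omega)))) ?_) (inv_sq_mem hk)
      · have := natCast_mem (Zp p) (7 * (k + 1) ^ 2 + 7 * (k + 1) + 2)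
        push_cast at this
        exact this
      · have := natCast_mem (Zp p) (8 * (k + 1) ^ 2)
        push_cast at this
        exact this
      · rw [div_eq_mul_inv]
        refine mul_mem ?_ ?_
        · have := intCast_mem (Zp p) (3 * (-1) ^ (k + 1))
          push_cast at this
          exact this
        · have := inv_nat_mem_Zp (p := p) (not_dvd_of_lt (p := p) (m := k + 2) (by omega) (by omega))
          push_cast at this
          exact this
  exact fun k => (key k).1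

/-! ### results over `ℚ` -/

theorem aperyA_mem (n : ℕ) : aperyA n ∈ Zp p := by
  rw [aperyA_ev]
  exact sum_mem fun k _ => mul_mem (fC_mem k) (Bn_mem n k)

theorem aperyB_mem {n : ℕ} (hn : n < p) : aperyB n ∈ Zp p := by
  rw [aperyB_ev]
  exact ev_mem omB_mem hn

theorem cs_one_mem (hp2 : p ≠ 2) {n : ℕ} (hn : n < p) : cs 1 n ∈ Zp p := by
  rw [cs_one_ev]
  exact ev_mem (omP_mem hp2) hn

theorem neg_pow_mul_cs (n : ℕ) : cs (-1) n = (-1) ^ n * ev omM n := by
  rw [← cs_neg_ev, ← mul_assoc, ← mul_pow]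
  norm_num

theorem negpow_mem (n : ℕ) : ((-1 : ℚ)) ^ n ∈ Zp p := pow_mem (neg_mem (one_mem _)) n

theorem cs_neg_mem (hp2 : p ≠ 2) {n : ℕ} (hn : n < p) : cs (-1) n ∈ Zp p := by
  rw [neg_pow_mul_cs]
  exact mul_mem (negpow_mem n) (ev_mem (omM_mem hp2) hn)

theorem aperyA_mirror {m n : ℕ} (h : m + n + 1 = p) :
    ∃ r ∈ Zp p, aperyA m - aperyA n = p * r := by
  rw [aperyA_ev, aperyA_ev]
  exact ev_mirror (fun k _ => fC_mem k) h

theorem aperyB_mirror {m n : ℕ} (h : m + n + 1 = p) :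
    ∃ r ∈ Zp p, aperyB m - aperyB n = p * r := by
  rw [aperyB_ev, aperyB_ev]
  exact ev_mirror omB_mem h

theorem cs_one_mirror (hp2 : p ≠ 2) {m n : ℕ} (h : m + n + 1 = p) :
    ∃ r ∈ Zp p, cs 1 m - cs 1 n = p * r := by
  rw [cs_one_ev, cs_one_ev]
  exact ev_mirror (omP_mem hp2) h

theorem negpow_mirror (hp2 : p ≠ 2) {m n : ℕ} (h : m + n + 1 = p) {R : Type*} [Ring R] :
    ((-1 : R)) ^ m = (-1) ^ n := by
  have ho : Odd p := hp.out.odd_of_ne_two hp2
  have he : Even (m + n) := by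
    rw [← h] at ho
    rcases Nat.even_or_odd (m + n) with h1 | h1
    · exact h1
    · exact absurd ho (by rw [Nat.not_odd_iff_even]; exact h1.add_one)
  rcases Nat.even_or_odd n with hn | hn
  · have hm : Even m := by
      rw [Nat.even_add] at he
      exact he.2 hn
    rw [hn.neg_one_pow, hm.neg_one_pow]
  · have hm : Odd m := by
      rw [Nat.even_add] at he
      rcases Nat.even_or_odd m with h1 | h1
      · exact absurd (he.1 h1) (by rw [Nat.not_even_iff_odd]; exact hn)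
      · exact h1
    rw [hn.neg_one_pow, hm.neg_one_pow]

theorem cs_neg_mirror (hp2 : p ≠ 2) {m n : ℕ} (h : m + n + 1 = p) :
    ∃ r ∈ Zp p, cs (-1) m - cs (-1) n = p * r := by
  obtain ⟨r, hr, he⟩ := ev_mirror (omM_mem hp2) h
  refine ⟨(-1) ^ n * r, mul_mem (negpow_mem n) hr, ?_⟩
  rw [neg_pow_mul_cs, neg_pow_mul_cs, negpow_mirror hp2 h (R := ℚ), ← mul_sub, he]
  ring

/-! ### the same in `Op p` -/

theorem K_ratCast' (q : ℚ) : ((q : ℚ) : K) = ⟨q, 0⟩ := by
  have h := eq_ratCast (algebraMap ℚ (QuadraticAlgebra ℚ 2 0)) q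
  rw [← h]
  rfl

theorem ratCast_mem_Op {q : ℚ} : ((q : ℚ) : K) ∈ Op p ↔ q ∈ Zp p := by
  rw [K_ratCast', mem_Op, mem_Zp]
  simp

/-- transfer of a congruence -/
theorem mirror_K {x y : ℚ} (h : ∃ r ∈ Zp p, x - y = p * r) :
    ∃ r ∈ Op p, ((x : ℚ) : K) - ((y : ℚ) : K) = p * r := by
  obtain ⟨r, hr, he⟩ := h
  refine ⟨((r : ℚ) : K), ratCast_mem_Op.2 hr, ?_⟩
  have := congrArg (Rat.cast : ℚ → K) he
  push_cast at this
  exact this

end T2
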