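import Pool.Agent.T2.SF1
import Pool.Agent.T2.SXp

/-!
# T2, module SF1b: the two rational sheets

`kapP m = -(1/16)(-1/8)^m fC m`, `kapM m = -(1/18)(-1/9)^m qC m`;
`sP = sumT kapP`, `sP1 = sumT1 kapP` (`ε = 1`), `sM`, `sM1` (`ε = -1`): coefficient sequences
(powers of `1/z`) of `S(z)` and `S(z+1)`.
-/

set_option autoImplicit false

namespace T2

open PowerSeries Finset QS2 QS2.FV

/-! ### Change of ring -/

theorem shm_map {R S : Type*} [CommRing R] [CommRing S] (φ : R →+* S) (s : ℕ → R) :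
    shm (fun n => φ (s n)) = fun n => φ (shm s n) := by
  funext j
  unfold shm
  rw [map_sum]
  refine Finset.sum_congr rfl fun m _ => ?_
  rw [map_mul, map_natCast]

theorem IsSheet.map {R S : Type*} [CommRing R] [CommRing S] (φ : R →+* S) {ε : R} {s s1 : ℕ → R}
    (h : IsSheet ε s s1) : IsSheet (φ ε) (fun n => φ (s n)) (fun n => φ (s1 n)) := by
  constructor
  · rw [shm_map, h.shift]
  · have h1 := congrArg (PowerSeries.map φ) h.eqn
    have hm : ∀ t : ℕ → R, PowerSeries.map φ (PowerSeries.mk t) =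
        PowerSeries.mk fun n => φ (t n) := by
      intro t
      ext n
      simp
    simp only [map_add, map_sub, map_mul, map_pow, map_one, map_ofNat, PowerSeries.map_C,
      PowerSeries.map_X, hm] at h1
    rw [shm_map]
    exact h1

/-! ### The two sequences `κ` -/

/-- coefficients of the sheet `ε = 1` -/
def kapP (m : ℕ) : ℚ := -(1 / 16) * (-(1 / 8)) ^ m * fC m

/-- coefficients of the sheet `ε = -1` -/
def kapM (m : ℕ) : ℚ := -(1 / 18) * (-(1 / 9)) ^ m * qC m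

theorem kap_P : Kap (1 : ℚ) kapP := by
  constructor
  · norm_num [kapP, fC_zero]
  · norm_num [kapP, fC_zero, fC_one]
  · intro m
    have h := fC_rec (R := ℚ) m
    unfold kapP
    rw [pow_succ _ (m + 1), pow_succ _ m]
    linear_combination (-(1 / 16) * (-(1 / 8)) ^ m * (-(1 / 4))) * h

theorem kap_M : Kap (-1 : ℚ) kapM := by
  constructor
  · norm_num [kapM, qC_zero]
  · norm_num [kapM, qC_zero, qC_one]
  · intro m
    have h := qC_rec (R := ℚ) m
    unfold kapM
    rw [pow_succ _ (m + 1), pow_succ _ m]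
    linear_combination (-(1 / 18) * (-(1 / 9)) ^ m * (2 / 9)) * h

/-- `S(z)`, `ε = 1` -/
noncomputable def sP : ℕ → ℚ := sumT kapP
/-- `S(z+1)`, `ε = 1` -/
noncomputable def sP1 : ℕ → ℚ := sumT1 kapP
/-- `S(z)`, `ε = -1` -/
noncomputable def sM : ℕ → ℚ := sumT kapM
/-- `S(z+1)`, `ε = -1` -/
noncomputable def sM1 : ℕ → ℚ := sumT1 kapM

theorem isSheet_P : IsSheet (1 : ℚ) sP sP1 := isSheet_sumT kap_P
theorem isSheet_M : IsSheet (-1 : ℚ) sM sM1 := isSheet_sumT kap_M

theorem isSheet_P_cast (F : Type*) [Field F] [CharZero F] :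
    IsSheet (1 : F) (fun n => ((sP n : ℚ) : F)) (fun n => ((sP1 n : ℚ) : F)) := by
  have h := isSheet_P.map (Rat.castHom F)
  rw [map_one] at h
  exact h

theorem isSheet_M_cast (F : Type*) [Field F] [CharZero F] :
    IsSheet (-1 : F) (fun n => ((sM n : ℚ) : F)) (fun n => ((sM1 n : ℚ) : F)) := by
  have h := isSheet_M.map (Rat.castHom F)
  rw [map_neg, map_one] at h
  exact h

/-! ### Low coefficients -/

variable {F : Type*} [Field F]

theorem sumT_low (κ : ℕ → F) {n : ℕ} (hn : n < 2) : sumT κ n = 0 := by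
  unfold sumT
  refine Finset.sum_eq_zero fun m _ => ?_
  rw [X_pow_dvd_iff.1 (T_dvd (F := F) m) n (by omega), mul_zero]

theorem sumT1_low (κ : ℕ → F) {n : ℕ} (hn : n < 2) : sumT1 κ n = 0 := by
  unfold sumT1
  refine Finset.sum_eq_zero fun m _ => ?_
  rw [X_pow_dvd_iff.1 (T1_dvd (F := F) m) n (by omega), mul_zero]

/-! ### Integrality -/

/-- power series with coefficients in `O` -/
def PSI (O : Subring F) : Subring (PowerSeries F) where
  carrier := {x | ∀ n, coeff n x ∈ O}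
  mul_mem' := by
    intro a b ha hb n
    rw [coeff_mul]
    exact Subring.sum_mem O fun i _ => O.mul_mem (ha _) (hb _)
  one_mem' := by
    intro n
    rw [coeff_one]
    split_ifs
    · exact O.one_mem
    · exact O.zero_mem
  add_mem' := by
    intro a b ha hb n
    rw [map_add]
    exact O.add_mem (ha _) (hb _)
  zero_mem' := by
    intro n
    rw [map_zero]
    exact O.zero_mem
  neg_mem' := by
    intro a ha n
    rw [map_neg]
    exact O.neg_mem (ha _)

variable {O : Subring F}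

theorem C_mem_PSI {a : F} (ha : a ∈ O) : (C a : PowerSeries F) ∈ PSI O := by
  intro n
  rw [coeff_C]
  split_ifs
  · exact ha
  · exact O.zero_mem

theorem X_mem_PSI : (X : PowerSeries F) ∈ PSI O := by
  intro n
  rw [coeff_X]
  split_ifs
  · exact O.one_mem
  · exact O.zero_mem

theorem lin_inv_eq (a : F) : (1 + C a * X : PowerSeries F)⁻¹ = PowerSeries.mk fun n => (-a) ^ n := by
  rw [PowerSeries.inv_eq_iff_mul_eq_one (by rw [cc_lin]; exact one_ne_zero)]
  ext n
  rw [mul_add, mul_one, map_add, coeff_mk]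
  rcases n with _ | n
  · rw [← mul_assoc, mul_comm _ X, coeff_zero_X_mul]
    simp
  · rw [← mul_assoc, mul_comm _ X, coeff_succ_X_mul, mul_comm, coeff_C_mul, coeff_mk, coeff_one,
      if_neg (Nat.succ_ne_zero n)]
    ring

theorem lin_inv_mem {a : F} (ha : a ∈ O) : (1 + C a * X : PowerSeries F)⁻¹ ∈ PSI O := by
  rw [lin_inv_eq]
  intro n
  rw [coeff_mk]
  exact O.pow_mem (O.neg_mem ha) n

theorem den_inv_mem (m : ℕ) : (den F m)⁻¹ ∈ PSI O := by
  have h : den F m * ∏ i ∈ range (m + 1), ((1 + C ((i : F) + 1) * X)⁻¹ *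
      (1 + C (-(i : F)) * X)⁻¹) = 1 := by
    unfold den
    rw [← Finset.prod_mul_distrib]
    refine Finset.prod_eq_one fun i _ => ?_
    have h1 := PowerSeries.mul_inv_cancel (1 + C ((i : F) + 1) * X : PowerSeries F)
      (by rw [cc_lin]; exact one_ne_zero)
    have h2 := PowerSeries.mul_inv_cancel (1 + C (-(i : F)) * X : PowerSeries F)
      (by rw [cc_lin]; exact one_ne_zero)
    have e : (1 - C (i : F) * X : PowerSeries F) = 1 + C (-(i : F)) * X := by
      rw [map_neg]; ring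
    rw [e]
    linear_combination ((1 + C (-(i : F)) * X) * (1 + C (-(i : F)) * X)⁻¹) * h1 + h2
  have h2 : (den F m)⁻¹ = ∏ i ∈ range (m + 1), ((1 + C ((i : F) + 1) * X)⁻¹ *
      (1 + C (-(i : F)) * X)⁻¹) := by
    rw [PowerSeries.inv_eq_iff_mul_eq_one (by rw [cc_den]; exact one_ne_zero), mul_comm]
    exact h
  rw [h2]
  refine Subring.prod_mem _ fun i _ => (PSI O).mul_mem (lin_inv_mem ?_) (lin_inv_mem ?_)
  · exact O.add_mem (natCast_mem O i) O.one_mem
  · exact O.neg_mem (natCast_mem O i)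

theorem T_mem (m : ℕ) : T F m ∈ PSI O := by
  unfold T
  exact (PSI O).mul_mem ((PSI O).mul_mem (C_mem_PSI (O.pow_mem (natCast_mem O _) 2))
    ((PSI O).pow_mem X_mem_PSI _)) (den_inv_mem m)

theorem T1_mem (m : ℕ) : T1 F m ∈ PSI O := by
  unfold T1
  refine (PSI O).mul_mem (T_mem m) ((PSI O).mul_mem ((PSI O).sub_mem (PSI O).one_mem
    ((PSI O).mul_mem (C_mem_PSI (natCast_mem O m)) X_mem_PSI)) (lin_inv_mem ?_))
  have : (2 : F) ∈ O := by exact_mod_cast natCast_mem O 2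
  exact O.add_mem (natCast_mem O m) this

theorem sumT_mem {κ : ℕ → F} (h : ∀ m, κ m ∈ O) (n : ℕ) : sumT κ n ∈ O :=
  O.sum_mem fun m _ => O.mul_mem (h m) (T_mem m n)

theorem sumT1_mem {κ : ℕ → F} (h : ∀ m, κ m ∈ O) (n : ℕ) : sumT1 κ n ∈ O :=
  O.sum_mem fun m _ => O.mul_mem (h m) (T1_mem m n)

section Zp

variable {p : ℕ} [hp : Fact p.Prime]

theorem one_div_mem_Zp {c : ℕ} (h : ¬ p ∣ c) : (1 / (c : ℚ)) ∈ Zp p := by
  have hn : padicNorm p (c : ℚ) = 1 := (padicNorm.nat_eq_one_iff (p := p) c).2 h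
  change padicNorm p (1 / (c : ℚ)) ≤ 1
  rw [padicNorm.div, padicNorm.one, hn, div_one]

theorem not_dvd_pow_two (h2 : p ≠ 2) (k : ℕ) : ¬ p ∣ 2 ^ k := by
  intro h
  exact h2 ((Nat.prime_dvd_prime_iff_eq hp.out Nat.prime_two).1 (hp.out.dvd_of_dvd_pow h))

theorem not_dvd_pow_three (h3 : p ≠ 3) (k : ℕ) : ¬ p ∣ 3 ^ k := by
  intro h
  exact h3 ((Nat.prime_dvd_prime_iff_eq hp.out Nat.prime_three).1 (hp.out.dvd_of_dvd_pow h))

theorem kapP_mem (h2 : p ≠ 2) (m : ℕ) : kapP m ∈ Zp p := by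
  have h16 : (1 / 16 : ℚ) ∈ Zp p := by
    have := one_div_mem_Zp (p := p) (not_dvd_pow_two h2 4)
    norm_num at this ⊢
    exact this
  have h8 : (1 / 8 : ℚ) ∈ Zp p := by
    have := one_div_mem_Zp (p := p) (not_dvd_pow_two h2 3)
    norm_num at this ⊢
    exact this
  exact (Zp p).mul_mem ((Zp p).mul_mem ((Zp p).neg_mem h16) ((Zp p).pow_mem ((Zp p).neg_mem h8) m))
    (natCast_mem _ _)

theorem kapM_mem (h2 : p ≠ 2) (h3 : p ≠ 3) (m : ℕ) : kapM m ∈ Zp p := by
  have h9 : (1 / 9 : ℚ) ∈ Zp p := by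
    have := one_div_mem_Zp (p := p) (not_dvd_pow_three h3 2)
    norm_num at this ⊢
    exact this
  have h2' : (1 / 2 : ℚ) ∈ Zp p := by
    have := one_div_mem_Zp (p := p) (not_dvd_pow_two h2 1)
    norm_num at this ⊢
    exact this
  have h18 : (1 / 18 : ℚ) ∈ Zp p := by
    have := (Zp p).mul_mem h2' h9
    norm_num at this ⊢
    exact this
  exact (Zp p).mul_mem ((Zp p).mul_mem ((Zp p).neg_mem h18) ((Zp p).pow_mem ((Zp p).neg_mem h9) m))
    (natCast_mem _ _)

theorem sP_mem (h2 : p ≠ 2) (n : ℕ) : sP n ∈ Zp p := sumT_mem (kapP_mem h2) n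
theorem sP1_mem (h2 : p ≠ 2) (n : ℕ) : sP1 n ∈ Zp p := sumT1_mem (kapP_mem h2) n
theorem sM_mem (h2 : p ≠ 2) (h3 : p ≠ 3) (n : ℕ) : sM n ∈ Zp p := sumT_mem (kapM_mem h2 h3) n
theorem sM1_mem (h2 : p ≠ 2) (h3 : p ≠ 3) (n : ℕ) : sM1 n ∈ Zp p := sumT1_mem (kapM_mem h2 h3) n

end Zp

end T2
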