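import Pool.Agent.QS2.ClsData

/-!
# T2, module SF3: the ring `Rh` and the equation `x - λ ((w + p/2) / w)^3 x(w - 1) = g`

* `rh_shL` : `Rh` is stable under the shift `w ↦ w - 1` (`y = w (w-1) ⋯ (w-p+1)`);
* `rh_solve` : if `x - λ ((w + p s) / w)^3 x(w-1) = g`, `g ∈ Rh` and `1 - λ` is a unit of `O`,
  then `x ∈ Rh`.
-/

set_option autoImplicit false

namespace T2

open Polynomial QS2.NV QS2.Cls
open HahnSeries hiding C

variable {F : Type*} [Field F] {O : Subring F} {p : ℕ}

/-- `w = phi X` is not zero -/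
theorem ww_ne : ww F ≠ 0 := left_ne_zero_of_mul_eq_one ww_mul

/-- `w / (w - p)` -/
noncomputable def rr (F : Type*) [Field F] (p : ℕ) : LaurentSeries F :=
  phi F (X + C (0 : F)) * (phi F (X + C (-(p : F))))⁻¹

theorem rr_mul : rr F p * phi F (X + C (-(p : F))) = phi F X := by
  unfold rr
  have h : phi F (X + C (-(p : F))) ≠ 0 := by
    have := phi_rise_ne (-(p : F)) 1
    rwa [rise_one] at this
  rw [mul_assoc, inv_mul_cancel₀ h, mul_one, C_0, add_zero]

theorem rh_rr (hp : 0 < p) {x : LaurentSeries F} (hx : Rh O p (descPochhammer F p) x) :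
    Rh O p (descPochhammer F p) (rr F p * x) := by
  have h := rh_lin_div hp (O.neg_mem O.one_mem) O.zero_mem 0 hx (R := O)
  have e1 : ((0 : ℤ) : F) + (p : F) * 0 = 0 := by simp
  have e2 : (0 : F) + (p : F) * (-1) = -(p : F) := by ring
  rw [e1, e2] at h
  exact h

theorem rh_rr_pow (hp : 0 < p) (k : ℕ) : Rh O p (descPochhammer F p) (rr F p ^ k) := by
  induction k with
  | zero =>
    rw [pow_zero]
    exact Rh.one (descP_mem_OP O p)
  | succ k ih =>
    rw [pow_succ']
    exact rh_rr hp ih

/-- `y = (w / (w - p)) y(w - 1)` -/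
theorem y_eq (p : ℕ) : rr F p * shL (phi F (descPochhammer F p)) = phi F (descPochhammer F p) := by
  have h := congrArg (phi F) (desc_shift F p)
  rw [map_mul, map_mul, ← shL_phi] at h
  have h1 : phi F (X + C (-(p : F))) ≠ 0 := by
    have := phi_rise_ne (-(p : F)) 1
    rwa [rise_one] at this
  have e : (X - C (p : F) : F[X]) = X + C (-(p : F)) := by
    rw [C_neg, sub_eq_add_neg]
  rw [e] at h
  apply mul_left_cancel₀ h1
  have h2 := rr_mul (F := F) (p := p)
  calc phi F (X + C (-(p : F))) * (rr F p * shL (phi F (descPochhammer F p)))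
      = (rr F p * phi F (X + C (-(p : F)))) * shL (phi F (descPochhammer F p)) := by ring
    _ = phi F (X + C (-(p : F))) * phi F (descPochhammer F p) := by rw [h2, h]

/-- `Pm m x` : `x` is a polynomial modulo `p ^ m` -/
def Pm (O : Subring F) (p m : ℕ) (x : LaurentSeries F) : Prop :=
  ∃ P ∈ OP O, ∃ r ∈ RI O, x = phi F P + HahnSeries.C ((p : F) ^ m) * r

theorem Pm.add {m : ℕ} {x z : LaurentSeries F} (hx : Pm O p m x) (hz : Pm O p m z) :
    Pm O p m (x + z) := by
  obtain ⟨P, hP, r, hr, rfl⟩ := hx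
  obtain ⟨Q, hQ, s, hs, rfl⟩ := hz
  refine ⟨P + Q, (OP O).add_mem hP hQ, r + s, (RI O).add_mem hr hs, ?_⟩
  rw [map_add]
  ring

theorem Pm.phi_mul {m : ℕ} {x : LaurentSeries F} (hx : Pm O p m x) {Q : F[X]} (hQ : Q ∈ OP O) :
    Pm O p m (phi F Q * x) := by
  obtain ⟨P, hP, r, hr, rfl⟩ := hx
  refine ⟨Q * P, (OP O).mul_mem hQ hP, phi F Q * r, (RI O).mul_mem (phi_mem_RI.2 hQ) hr, ?_⟩
  rw [map_mul]
  ring

theorem Pm.C_mul {m : ℕ} {x : LaurentSeries F} (hx : Pm O p m x) (k : ℕ) :
    Pm O p (k + m) (HahnSeries.C ((p : F) ^ k) * x) := by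
  obtain ⟨P, hP, r, hr, rfl⟩ := hx
  refine ⟨C ((p : F) ^ k) * P, (OP O).mul_mem (C_mem_OP (O.pow_mem (natCast_mem O p) k)) hP, r,
    hr, ?_⟩
  rw [map_mul, phi_C, _root_.pow_add, map_mul]
  ring

theorem Pm.mem {m : ℕ} {x : LaurentSeries F} (hx : x ∈ RI O) :
    Pm O p m (HahnSeries.C ((p : F) ^ m) * x) :=
  ⟨0, (OP O).zero_mem, x, hx, by rw [map_zero, zero_add]⟩

theorem rh_pm {x : LaurentSeries F} (h : Rh O p (descPochhammer F p) x) (k : ℕ) :
    Pm O p (k + 1) (phi F (descPochhammer F p) ^ k * x) := h k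

/-- **`Rh` is stable under the shift** -/
theorem rh_shL (hp : 0 < p) {x : LaurentSeries F} (hx : Rh O p (descPochhammer F p) x) :
    Rh O p (descPochhammer F p) (shL x) := by
  set y : F[X] := descPochhammer F p with hy
  have hyO : y ∈ OP O := descP_mem_OP O p
  have hym : y.Monic := monic_descPochhammer F p
  have hpO : (p : F) ∈ O := natCast_mem O p
  -- the claim on the polynomial parts
  have key : ∀ k m : ℕ, Pm O p (k + m + 1)
      (phi F y ^ m * rr F p ^ k * phi F ((Vk y x k).comp (X - 1))) := by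
    intro k
    induction k with
    | zero =>
      intro m
      refine ⟨y ^ m * (Vk y x 0).comp (X - 1), (OP O).mul_mem ((OP O).pow_mem hyO m)
        (comp_mem_OP (Vk_mem hyO (hx.mem_RI hpO) 0)), 0, (RI O).zero_mem, ?_⟩
      rw [map_mul, map_pow, pow_zero, mul_one, mul_zero, add_zero]
    | succ k ih =>
      intro m
      obtain ⟨f, hf, -, e⟩ := Vk_succ hyO hym hx k
      have h1 := ih (m + 1)
      have h2 : Pm O p (k + 1 + (m + 1)) (HahnSeries.C ((p : F) ^ (k + 1)) *
          (phi F (f.comp (X - 1)) * (phi F y ^ m * rr F p ^ (k + 1)))) :=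
        Pm.C_mul (Pm.phi_mul (rh_pm (rh_rr_pow hp (k + 1)) m) (comp_mem_OP hf)) (k + 1)
      have e1 : k + 1 + m + 1 = k + (m + 1) + 1 := by ring
      have e2 : k + 1 + (m + 1) = k + (m + 1) + 1 := by ring
      rw [e1]
      rw [e2] at h2
      have h3 := h1.add h2
      have e3 : phi F y ^ m * rr F p ^ (k + 1) * phi F ((Vk y x (k + 1)).comp (X - 1)) =
          phi F y ^ (m + 1) * rr F p ^ k * phi F ((Vk y x k).comp (X - 1)) +
          HahnSeries.C ((p : F) ^ (k + 1)) *
          (phi F (f.comp (X - 1)) * (phi F y ^ m * rr F p ^ (k + 1))) := by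
        rw [e, add_comp, mul_comp, mul_comp, C_comp, map_add, map_mul, map_mul, phi_C,
          ← shL_phi y]
        have h4 := y_eq (F := F) p
        rw [← hy] at h4
        rw [pow_succ (phi F y) m]
        conv_rhs => rw [← h4]
        rw [h4]
        rw [pow_succ (rr F p) k]
        linear_combination (phi F y ^ m * rr F p ^ k * phi F ((Vk y x k).comp (X - 1))) * h4
      rw [e3]
      exact h3
  intro k
  obtain ⟨r, hr, -, e⟩ := Vk_spec hx k
  have h1 := key k 0
  rw [add_zero, pow_zero, one_mul] at h1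
  have h2 : Pm O p (k + 1) (HahnSeries.C ((p : F) ^ (k + 1)) * (rr F p ^ k * shL r)) :=
    Pm.mem ((RI O).mul_mem ((rh_rr_pow hp k).mem_RI hpO) (shL_mem_RI hr))
  have h3 := h1.add h2
  have e2 := congrArg shL e
  rw [map_mul shL, map_pow shL, map_add shL, map_mul shL, shL_C, shL_phi (Vk y x k)] at e2
  have h4 := y_eq (F := F) p
  rw [← hy] at h4
  have e3 : phi F y ^ k * shL x = rr F p ^ k * phi F ((Vk y x k).comp (X - 1)) +
      HahnSeries.C ((p : F) ^ (k + 1)) * (rr F p ^ k * shL r) := by
    calc phi F y ^ k * shL x = (rr F p * shL (phi F y)) ^ k * shL x := by rw [h4]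
      _ = rr F p ^ k * (shL (phi F y) ^ k * shL x) := by rw [mul_pow]; ring
      _ = _ := by rw [e2]; ring
  rw [e3]
  exact h3

/-- `(w + p s) / w` -/
noncomputable def uu (F : Type*) [Field F] (p : ℕ) (s : F) : LaurentSeries F :=
  phi F (X + C ((p : F) * s)) * (phi F X)⁻¹

theorem uu_mul (s : F) : uu F p s * phi F X = phi F (X + C ((p : F) * s)) := by
  unfold uu
  have h : phi F (X : F[X]) ≠ 0 := ww_ne
  rw [mul_assoc, inv_mul_cancel₀ h, mul_one]

theorem rh_uu (hp : 0 < p) {s : F} (hs : s ∈ O) {x : LaurentSeries F}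
    (hx : Rh O p (descPochhammer F p) x) : Rh O p (descPochhammer F p) (uu F p s * x) := by
  have h := rh_lin_div hp (O.neg_mem hs) hs 0 hx (R := O)
  have e1 : ((0 : ℤ) : F) + (p : F) * s = (p : F) * s := by simp
  have e2 : (p : F) * s + (p : F) * (-s) = 0 := by ring
  rw [e1, e2, C_0, add_zero] at h
  exact h

/-- the operator `x ↦ ((w + p s) / w)^3 x(w - 1)` -/
noncomputable def SS (p : ℕ) (s : F) (x : LaurentSeries F) : LaurentSeries F :=
  uu F p s ^ 3 * shL x

theorem SS_add (s : F) (x z : LaurentSeries F) : SS p s (x + z) = SS p s x + SS p s z := by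
  unfold SS
  rw [map_add]
  ring

theorem SS_sub (s : F) (x z : LaurentSeries F) : SS p s (x - z) = SS p s x - SS p s z := by
  unfold SS
  rw [map_sub]
  ring

theorem SS_C_mul (s a : F) (x : LaurentSeries F) :
    SS p s (HahnSeries.C a * x) = HahnSeries.C a * SS p s x := by
  unfold SS
  rw [map_mul, shL_C]
  ring

theorem rh_SS (hp : 0 < p) {s : F} (hs : s ∈ O) {x : LaurentSeries F}
    (hx : Rh O p (descPochhammer F p) x) : Rh O p (descPochhammer F p) (SS p s x) := by
  have e : SS p s x = uu F p s * (uu F p s * (uu F p s * shL x)) := by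
    unfold SS
    ring
  rw [e]
  exact rh_uu hp hs (rh_uu hp hs (rh_uu hp hs (rh_shL hp hx)))

/-- `uu - 1` has order at least `1` -/
theorem uu_sub_one (s : F) : uu F p s = 1 + HahnSeries.C ((p : F) * s) * (phi F X)⁻¹ := by
  unfold uu
  have h : phi F (X : F[X]) ≠ 0 := ww_ne
  rw [map_add, phi_C, add_mul, mul_inv_cancel₀ h]

theorem inv_w : (phi F (X : F[X]))⁻¹ = single (1 : ℤ) (1 : F) := by
  rw [phi_X]
  apply inv_eq_of_mul_eq_one_right
  exact single_three

theorem orderTop_C (a : F) : ((0 : ℤ) : WithTop ℤ) ≤ (HahnSeries.C a : LaurentSeries F).orderTop := by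
  have := ser_order (PowerSeries.C a)
  rwa [ser, HahnSeries.ofPowerSeries_C] at this

theorem order_uu (s : F) : ((0 : ℤ) : WithTop ℤ) ≤ (uu F p s).orderTop := by
  rw [uu_sub_one, inv_w]
  apply le_add
  · rw [orderTop_one]
    exact le_rfl
  · have h2 := le_mul (orderTop_C ((p : F) * s)) (orderTop_single_le (Γ := ℤ) (a := 1) (r := (1 : F)))
    refine le_trans ?_ h2
    rw [← WithTop.coe_add]
    exact_mod_cast (by omega : (0 : ℤ) ≤ 0 + 1)

theorem order_uu_sub (s : F) : ((1 : ℤ) : WithTop ℤ) ≤ (uu F p s - 1).orderTop := by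
  rw [uu_sub_one, inv_w, add_sub_cancel_left]
  have h2 := le_mul (orderTop_C ((p : F) * s)) (orderTop_single_le (Γ := ℤ) (a := 1) (r := (1 : F)))
  rwa [← WithTop.coe_add, zero_add] at h2

theorem order_pow_sub_one {g : LaurentSeries F} (h0 : ((0 : ℤ) : WithTop ℤ) ≤ g.orderTop)
    (h1 : ((1 : ℤ) : WithTop ℤ) ≤ (g - 1).orderTop) (n : ℕ) :
    ((1 : ℤ) : WithTop ℤ) ≤ (g ^ n - 1).orderTop := by
  induction n with
  | zero =>
    rw [pow_zero, sub_self, orderTop_zero]
    exact le_top
  | succ n ih =>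
    have e : g ^ (n + 1) - 1 = g ^ n * (g - 1) + (g ^ n - 1) := by ring
    rw [e]
    have h2 := le_mul (le_pow h0 n) h1
    rw [← WithTop.coe_add, mul_zero, zero_add] at h2
    exact le_add h2 ih

/-- `shL x - x` has larger order -/
theorem order_shL_sub {k : ℤ} {x : LaurentSeries F} (h : (k : WithTop ℤ) ≤ x.orderTop) :
    ((k + 1 : ℤ) : WithTop ℤ) ≤ (shL x - x).orderTop := by
  have hs : ∀ k : ℤ, ((k + 1 : ℤ) : WithTop ℤ) ≤
      (shL (single k (1 : F)) - single k (1 : F)).orderTop := by
    intro k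
    rcases le_total 0 k with hk | hk
    · obtain ⟨n, rfl⟩ := Int.eq_ofNat_of_zero_le hk
      set g : LaurentSeries F := ser (PowerSeries.mk 1) with hg
      have e1 : (single (n : ℤ) (1 : F) : LaurentSeries F) = ser (PowerSeries.X) ^ n := by
        rw [ser, ofPowerSeries_X, single_pow]
        simp
      have e2 : shL (ser (PowerSeries.X : PowerSeries F)) = ser PowerSeries.X * g := by
        rw [shL_ser, sh_X, tt, hg]
        unfold ser
        rw [map_mul]
      have h0 : ((0 : ℤ) : WithTop ℤ) ≤ g.orderTop := ser_order _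
      have h1 : ((1 : ℤ) : WithTop ℤ) ≤ (g - 1).orderTop := by
        have e3 : g - 1 = ser (PowerSeries.mk 1 - 1) := by
          rw [hg]
          unfold ser
          rw [map_sub, map_one]
        rw [e3, le_orderTop_iff_forall]
        intro j hj
        have hj' : j < 1 := by exact_mod_cast hj
        rw [ser_coeff]
        split_ifs with h4
        · have : j = 0 := by omega
          subst this
          simp
        · rfl
      have e4 : shL (single (n : ℤ) (1 : F)) - single (n : ℤ) (1 : F) =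
          single (n : ℤ) (1 : F) * (g ^ n - 1) := by
        rw [e1, map_pow, e2, mul_pow]
        ring
      rw [e4]
      have h5 := le_mul (orderTop_single_le (Γ := ℤ) (a := (n : ℤ)) (r := (1 : F)))
        (order_pow_sub_one h0 h1 n)
      rwa [← WithTop.coe_add] at h5
    · obtain ⟨n, hn⟩ := Int.eq_ofNat_of_zero_le (by omega : 0 ≤ -k)
      have e0 : k = -(n : ℤ) := by omega
      subst e0
      set g : LaurentSeries F := 1 - single (1 : ℤ) (1 : F) with hg
      have e1 : (single (-(n : ℤ)) (1 : F) : LaurentSeries F) = (single (-1 : ℤ) (1 : F)) ^ n := by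
        rw [single_pow]
        simp
      have e2 : shL (single (-1 : ℤ) (1 : F)) = single (-1 : ℤ) (1 : F) * g := by
        rw [shL_w, hg, mul_sub, mul_one, single_three]
      have h1 : ((1 : ℤ) : WithTop ℤ) ≤ (g - 1).orderTop := by
        have e3 : g - 1 = single (1 : ℤ) (-1 : F) := by
          rw [hg, sub_sub_cancel_left, single_neg]
        rw [e3]
        exact orderTop_single_le
      have h0 : ((0 : ℤ) : WithTop ℤ) ≤ g.orderTop := by
        have e5 : g = 1 + (g - 1) := by ring
        rw [e5]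
        refine le_add ?_ (le_trans ?_ h1)
        · rw [orderTop_one]
          exact le_rfl
        · exact_mod_cast (by omega : (0 : ℤ) ≤ 1)
      have e4 : shL (single (-(n : ℤ)) (1 : F)) - single (-(n : ℤ)) (1 : F) =
          single (-(n : ℤ)) (1 : F) * (g ^ n - 1) := by
        rw [e1, map_pow, e2, mul_pow]
        ring
      rw [e4]
      have h5 := le_mul (orderTop_single_le (Γ := ℤ) (a := (-(n : ℤ))) (r := (1 : F)))
        (order_pow_sub_one h0 h1 n)
      rwa [← WithTop.coe_add] at h5
  set a := x.coeff k with ha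
  set x' : LaurentSeries F := x - HahnSeries.C a * single k 1 with hx'
  have hx1 : ((k + 1 : ℤ) : WithTop ℤ) ≤ x'.orderTop := by
    rw [le_orderTop_iff_forall] at h ⊢
    intro j hj
    have hj' : j < k + 1 := by exact_mod_cast hj
    rw [hx', HahnSeries.coeff_sub, QS2.Cls.coeff_C_mul, coeff_single]
    by_cases h1 : j = k
    · rw [if_pos h1, h1, mul_one, ← ha, sub_self]
    · rw [if_neg h1, mul_zero, sub_zero]
      exact h j (by exact_mod_cast (by omega : j < k))
  have e : shL x - x = HahnSeries.C a * (shL (single k 1) - single k 1) + (shL x' - x') := by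
    rw [hx', map_sub, map_mul, shL_C]
    ring
  rw [e]
  have h1 := le_mul (orderTop_C a) (hs k)
  rw [← WithTop.coe_add, zero_add] at h1
  exact le_add h1 (le_sub (shL_order hx1) hx1)

/-- `SS x - x` -/
noncomputable def DD (p : ℕ) (s : F) (x : LaurentSeries F) : LaurentSeries F := SS p s x - x

theorem order_DD (s : F) {k : ℤ} {x : LaurentSeries F} (h : (k : WithTop ℤ) ≤ x.orderTop) :
    ((k + 1 : ℤ) : WithTop ℤ) ≤ (DD p s x).orderTop := by
  have e : DD p s x = (uu F p s ^ 3 - 1) * shL x + (shL x - x) := by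
    unfold DD SS
    ring
  rw [e]
  have h1 := le_mul (order_pow_sub_one (order_uu (p := p) s) (order_uu_sub s) 3) (shL_order h)
  rw [← WithTop.coe_add, add_comm] at h1
  exact le_add h1 (order_shL_sub h)

theorem rh_DD (hp : 0 < p) {s : F} (hs : s ∈ O) {x : LaurentSeries F}
    (hx : Rh O p (descPochhammer F p) x) : Rh O p (descPochhammer F p) (DD p s x) :=
  (rh_SS hp hs hx).sub hx

theorem DD_add (s : F) (x z : LaurentSeries F) : DD p s (x + z) = DD p s x + DD p s z := by
  unfold DD
  rw [SS_add]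
  ring

theorem DD_C_mul (s a : F) (x : LaurentSeries F) :
    DD p s (HahnSeries.C a * x) = HahnSeries.C a * DD p s x := by
  unfold DD
  rw [SS_C_mul]
  ring

theorem order_DD_iter (s : F) {k : ℤ} {x : LaurentSeries F} (h : (k : WithTop ℤ) ≤ x.orderTop)
    (n : ℕ) : ((k + n : ℤ) : WithTop ℤ) ≤ ((DD p s)^[n] x).orderTop := by
  induction n with
  | zero => simpa using h
  | succ n ih =>
    rw [Function.iterate_succ_apply']
    have := order_DD (p := p) s ih
    push_cast at this ⊢
    rwa [← add_assoc]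

theorem rh_DD_iter (hp : 0 < p) {s : F} (hs : s ∈ O) {x : LaurentSeries F}
    (hx : Rh O p (descPochhammer F p) x) (n : ℕ) :
    Rh O p (descPochhammer F p) ((DD p s)^[n] x) := by
  induction n with
  | zero => exact hx
  | succ n ih =>
    rw [Function.iterate_succ_apply']
    exact rh_DD hp hs ih

/-- the solution is the sum of its Neumann series up to a term of large order -/
theorem neumann {s μ ν : F} {x g : LaurentSeries F}
    (h : x = HahnSeries.C μ * g + HahnSeries.C ν * DD p s x) (n : ℕ) :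
    x = (∑ j ∈ Finset.range n, HahnSeries.C (μ * ν ^ j) * (DD p s)^[j] g) +
      HahnSeries.C (ν ^ n) * (DD p s)^[n] x := by
  induction n with
  | zero => simp
  | succ n ih =>
    have hadd : ∀ (m : ℕ) (a b : F) (u z : LaurentSeries F),
        (DD p s)^[m] (HahnSeries.C a * u + HahnSeries.C b * z) =
          HahnSeries.C a * (DD p s)^[m] u + HahnSeries.C b * (DD p s)^[m] z := by
      intro m a b u z
      induction m with
      | zero => rfl
      | succ m ihm =>
        rw [Function.iterate_succ_apply', Function.iterate_succ_apply',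
          Function.iterate_succ_apply', ihm, DD_add, DD_C_mul, DD_C_mul]
    have e := congrArg (DD p s)^[n] h
    rw [hadd, ← Function.iterate_succ_apply] at e
    rw [Finset.sum_range_succ]
    conv_lhs => rw [ih, e]
    have e1 : (HahnSeries.C (μ * ν ^ n) : LaurentSeries F) =
        HahnSeries.C μ * HahnSeries.C (ν ^ n) := map_mul _ _ _
    have e2 : (HahnSeries.C (ν ^ (n + 1)) : LaurentSeries F) =
        HahnSeries.C (ν ^ n) * HahnSeries.C ν := by
      rw [_root_.pow_succ, map_mul]
    rw [e1, e2]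
    ring

/-- **the solution lemma** -/
theorem rh_solve (hp0 : (p : F) ≠ 0) {s l m : F} (hs : s ∈ O) (hl : l ∈ O) (hm : m ∈ O)
    (hlm : (1 - l) * m = 1) {x g : LaurentSeries F}
    (hx : x - HahnSeries.C l * SS p s x = g) (hg : Rh O p (descPochhammer F p) g) :
    Rh O p (descPochhammer F p) x := by
  have hp : 0 < p := by
    rcases Nat.eq_zero_or_pos p with h | h
    · rw [h, Nat.cast_zero] at hp0
      exact absurd rfl hp0
    · exact h
  have h1 : x = HahnSeries.C m * g + HahnSeries.C (m * l) * DD p s x := by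
    have e : (HahnSeries.C ((1 - l) * m) : LaurentSeries F) = 1 := by rw [hlm, map_one]
    rw [map_mul, map_sub, map_one] at e
    rw [map_mul]
    unfold DD
    rw [← hx]
    linear_combination -x * e
  refine rh_of_trunc hp0 (natCast_mem O p) (descP_mem_OP O p) fun N => ?_
  obtain ⟨D, hD⟩ := exists_order x
  refine ⟨∑ j ∈ Finset.range (N + D), HahnSeries.C (m * (m * l) ^ j) * (DD p s)^[j] g, ?_, ?_⟩
  · refine Rh.sum (descP_mem_OP O p) _ fun j _ => ?_
    exact (rh_DD_iter hp hs hg j).C_mul
      (O.mul_mem hm (O.pow_mem (O.mul_mem hm hl) _))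
  · have h2 := neumann h1 (N + D)
    have e : x - ∑ j ∈ Finset.range (N + D), HahnSeries.C (m * (m * l) ^ j) * (DD p s)^[j] g =
        HahnSeries.C ((m * l) ^ (N + D)) * (DD p s)^[N + D] x := by
      conv_lhs => rw [h2]
      rw [add_sub_cancel_left]
    rw [e]
    have h3 := le_mul (orderTop_C ((m * l) ^ (N + D))) (order_DD_iter (p := p) s hD (N + D))
    rw [← WithTop.coe_add, zero_add] at h3
    refine le_trans ?_ h3
    exact_mod_cast (by push_cast; omega : (N : ℤ) ≤ -(D : ℤ) + ((N + D : ℕ) : ℤ))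

end T2
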