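import Pool.Agent.QS2.ClsDataEx
import Pool.Agent.T2.SF3

/-!
# T2, module SF4a: the data of the class rule with the Laurent series `V`, `V'`

The same as `QS2.Cls.data_exists`, with the Laurent series as an additional output.
-/

set_option autoImplicit false

namespace T2

open Polynomial QS2 QS2.NV QS2.Cls
open HahnSeries hiding C

section gen

variable {F : Type*} [Field F] {O : Subring F} {p h : ℕ}

/-- the Laurent series behind the data -/
def DataL (O : Subring F) (p : ℕ) (v : ℕ → F) (half al ali : O) (V V' : ℕ → O[X]) : Prop :=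
  ∃ VL VL' : LaurentSeries F,
    Rh O p (descPochhammer F p) VL ∧ Rh O p (descPochhammer F p) VL' ∧
    VL' = (ww F + 1) ^ 3 * ser (PowerSeries.mk v) * VL ∧
    VL' = NV.phi F (ap X) * VL - HahnSeries.C (ali : F) *
      NV.phi F (X + C ((p : F) * half)) ^ 3 * shL VL ∧
    NV.phi F (X + C ((p : F) * half)) ^ 3 * shL VL' =
      HahnSeries.C (al : F) * NV.phi F X ^ 6 * VL ∧
    (∀ k, (V k).map O.subtype = Vk (descPochhammer F p) VL k) ∧
    (∀ k, (V' k).map O.subtype = Vk (descPochhammer F p) VL' k)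

variable [CharZero F]

theorem data_genL (hph : p = 2 * h + 1) {v : ℕ → F} {half al ali : O}
    (hhe : (half : F) = 1 / 2) (hali : al * ali = 1) (hv0 : v 0 = al) (hv : IsFormal v)
    {kap : ℕ → ℕ → ℕ → F} (hkap : ∀ i j k, kap i j k ∈ O) (hk0 : kap 0 0 0 ≠ 0)
    (hk0' : (kap 0 0 0)⁻¹ ∈ O) {E : F → ℕ → PowerSeries F}
    (hE : ∀ a m, E a m * ∏ i ∈ Finset.range m, (1 + PowerSeries.C (a + (i : F)) * PowerSeries.X) =
      PowerSeries.C (∏ i ∈ Finset.range m, ((2 : F)⁻¹ + (i : F))) * PowerSeries.X ^ m)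
    {S : F → PowerSeries F}
    (hS : ∀ a l, PowerSeries.coeff l (S a) = ∑ i ∈ Finset.range (l + 1),
      ∑ j ∈ Finset.range (l + 1), ∑ k ∈ Finset.range (l + 1),
        kap i j k * PowerSeries.coeff l (E a i * E a j * E a k))
    (hfor : PowerSeries.mk v * (1 + PowerSeries.C (3 / 2) * PowerSeries.X) ^ 3 * S (3 / 2) =
      PowerSeries.C (al : F) * (1 + PowerSeries.X) ^ 3 * S (5 / 2)) :
    ∃ (V V' : ℕ → O[X]), DataF O p h v half al ali V V' ∧
      DataL O p v half al ali V V' := by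
  have hhalf : (1 / 2 : F) ∈ O := by
    rw [← hhe]
    exact half.2
  set y : F[X] := descPochhammer F p with hy
  have hym : y.Monic := monic_descPochhammer F p
  have hyd : y.natDegree = p := descPochhammer_natDegree F p
  have hyO : y ∈ OP O := descP_mem_OP O p
  have hpO : (p : F) ∈ O := natCast_mem O p
  have halF : (al : F) * (ali : F) = 1 := by
    have := congrArg (fun t : O => (t : F)) hali
    simpa using this
  -- the three series
  have h01 : sh (S (3 / 2)) = S (1 / 2) := by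
    refine sh_triple (hE (3 / 2)) (fun m => ?_) (hS (3 / 2)) (hS (1 / 2))
    have := hE (1 / 2) m
    have e : (3 / 2 : F) - 1 = 1 / 2 := by norm_num
    rwa [e]
  have h12 : sh (S (5 / 2)) = S (3 / 2) := by
    refine sh_triple (hE (5 / 2)) (fun m => ?_) (hS (5 / 2)) (hS (3 / 2))
    have := hE (3 / 2) m
    have e : (5 / 2 : F) - 1 = 3 / 2 := by norm_num
    rwa [e]
  have h2f : 2 * (1 / 2 : F) = 1 := by norm_num
  have hfor' : PowerSeries.mk v * (1 + PowerSeries.C (3 * (1 / 2)) * PowerSeries.X) ^ 3 * S (3 / 2) =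
      PowerSeries.C (al : F) * (1 + PowerSeries.X) ^ 3 * S (5 / 2) := by
    have e : (3 * (1 / 2) : F) = 3 / 2 := by norm_num
    rw [e]
    exact hfor
  set Ep : F[X] := ∏ i ∈ Finset.range h, (X + C (3 * (1 / 2) + (i : F))) with hEp
  have hErise : Ep = rise (3 / 2) h := by
    rw [hEp, rise]
    refine Finset.prod_congr rfl fun i _ => ?_
    norm_num
  have hEcomp : Ep.comp (X - 1) = rise (1 / 2) h := by
    rw [hErise, rise, rise, prod_comp]
    refine Finset.prod_congr rfl fun i _ => ?_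
    rw [add_comp, X_comp, C_comp]
    have : (3 / 2 : F) + i = 1 + (1 / 2 + i) := by ring
    rw [this, map_add C 1, C_1]
    ring
  have hEs := prod_shift (1 / 2 : F) h2f h
  rw [← hEp] at hEs
  set VL : LaurentSeries F := NV.phi F Ep ^ 3 * ser (S (3 / 2)) with hVL
  set VL' : LaurentSeries F := (ww F + 1) ^ 3 * ser (PowerSeries.mk v) * VL with hVL'
  have hJ := J_of_formula hv halF h2f hfor' h01 h12 hEs
  have hJ' := J'_of_formula h2f hfor' h01 h12 hEs
  rw [← hVL, ← hVL'] at hJ hJ'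
  have hRV : Rh O p y VL := by
    rw [hVL, hErise]
    exact rh_triple' hhalf hph 1 (by push_cast; norm_num) hkap (hE (3 / 2)) (hS (3 / 2))
  have hRs : Rh O p y (shL VL) := by
    rw [hVL, map_mul shL, map_pow shL, shL_phi, shL_ser, h01, hEcomp]
    exact rh_triple' hhalf hph 0 (by push_cast; norm_num) hkap (hE (1 / 2)) (hS (1 / 2))
  have hph2 : ((2 * h + 1 : ℕ) : F) * (1 / 2) = (p : F) * half := by rw [hph, hhe]
  rw [hph2] at hJ hJ'
  have hmul : (p : F) * half ∈ O := O.mul_mem hpO half.2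
  have hJ2 : VL' = NV.phi F (ap X) * VL - HahnSeries.C (ali : F) *
      NV.phi F (X + C ((p : F) * half)) ^ 3 * shL VL := by
    rw [hJ, phi_lin_ww, phi_ap]
  have hJ3 : NV.phi F (X + C ((p : F) * half)) ^ 3 * shL VL' =
      HahnSeries.C (al : F) * NV.phi F X ^ 6 * VL := by
    rw [phi_lin_ww]
    exact hJ'
  have hRV' : Rh O p y VL' := by
    rw [hJ2]
    have h3 : (ap X : F[X]) ∈ OP O := by
      have := mem_of_map (ap (X : O[X]))
      rwa [map_ap] at this
    refine (hRV.phi_mul h3).sub ?_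
    rw [mul_assoc, ← map_pow]
    exact (hRs.phi_mul ((OP O).pow_mem ((OP O).add_mem X_mem_OP (C_mem_OP hmul)) 3)).C_mul ali.2
  have hs : IsShift O (shL (F := F)) := ⟨shL_phi, fun x hx => shL_mem_RI hx⟩
  -- leading coefficients
  have hE0 : ∀ a, E a 0 = 1 := fun a => by
    have := hE a 0
    simpa using this
  have hS0 : PowerSeries.coeff 0 (S (3 / 2)) = kap 0 0 0 := by
    rw [hS]
    simp [hE0]
  have hlead : (∀ n : ℤ, n < -((3 * h : ℕ) : ℤ) → VL.coeff n = 0) ∧
      VL.coeff (-((3 * h : ℕ) : ℤ)) = kap 0 0 0 := by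
    have h4 : (Ep ^ 3).Monic := by
      rw [hErise]
      exact (rise_monic _ _).pow 3
    have h5 : (Ep ^ 3).natDegree = 3 * h := by
      rw [hErise, natDegree_pow, rise_natDegree]
    have h6 := coeff_monic_mul h4 (x := ser (S (3 / 2))) (a := 0) (ser_neg_coeff _)
    rw [h5, zero_add, map_pow, ← hVL, coeff_ser_zero, hS0] at h6
    exact h6
  have hlead' : (∀ n : ℤ, n < -((3 * h + 3 : ℕ) : ℤ) → VL'.coeff n = 0) ∧
      VL'.coeff (-((3 * h + 3 : ℕ) : ℤ)) = al * kap 0 0 0 := by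
    have hX : ((X + 1) ^ 3 : F[X]).Monic := by
      rw [← C_1]
      exact (monic_X_add_C _).pow 3
    have h4 : ((X + 1) ^ 3 * Ep ^ 3 : F[X]).Monic := by
      rw [hErise]
      exact Monic.mul hX ((rise_monic _ _).pow 3)
    have h5 : ((X + 1) ^ 3 * Ep ^ 3 : F[X]).natDegree = 3 * h + 3 := by
      rw [hErise, Monic.natDegree_mul hX ((rise_monic _ _).pow 3), natDegree_pow, natDegree_pow,
        rise_natDegree, ← C_1, natDegree_X_add_C]
      ring
    have h6 := coeff_monic_mul h4 (x := ser (PowerSeries.mk v * S (3 / 2))) (a := 0)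
      (ser_neg_coeff _)
    have h9 : NV.phi F ((X + 1) ^ 3 * Ep ^ 3) * ser (PowerSeries.mk v * S (3 / 2)) = VL' := by
      rw [hVL', hVL, map_mul, map_pow, map_pow, map_add, map_one, ww]
      unfold ser
      rw [map_mul (ofPowerSeries ℤ F)]
      ring
    have h10 : PowerSeries.coeff 0 (PowerSeries.mk v * S (3 / 2)) = al * kap 0 0 0 := by
      rw [PowerSeries.coeff_zero_eq_constantCoeff_apply, map_mul,
        ← PowerSeries.coeff_zero_eq_constantCoeff_apply,
        ← PowerSeries.coeff_zero_eq_constantCoeff_apply, hS0, PowerSeries.coeff_mk, hv0]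
    rw [h5, zero_add, h9, coeff_ser_zero, h10] at h6
    exact h6
  have hmemV : ∀ k, Vk y VL k ∈ OP O := Vk_mem hyO (hRV.mem_RI hpO)
  have hmemV' : ∀ k, Vk y VL' k ∈ OP O := Vk_mem hyO (hRV'.mem_RI hpO)
  have hVd := Vk_degree (V := VL) hym hlead.1
  have hVd' := Vk_degree (V := VL') hym hlead'.1
  rw [hyd] at hVd hVd'
  refine ⟨fun k => lif (Vk y VL k) (hmemV k), fun k => lif (Vk y VL' k) (hmemV' k), ?_,
    VL, VL', hRV, hRV', hVL', hJ2, hJ3, fun k => lif_map (hmemV k), fun k => lif_map (hmemV' k)⟩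
  constructor
  · intro k
    rw [lif_natDegree, mul_comm p k]
    exact (hVd k).1
  · intro k
    rw [lif_natDegree, mul_comm p k]
    exact (hVd' k).1
  · intro k
    have e1 : (((lif (Vk y VL k) (hmemV k)).coeff (3 * h + p * k) : O) : F) = kap 0 0 0 := by
      rw [lif_coeff, mul_comm p k, (hVd k).2]
      exact hlead.2
    refine IsUnit.of_mul_eq_one ⟨(kap 0 0 0)⁻¹, hk0'⟩ (Subtype.ext ?_)
    change (((lif (Vk y VL k) (hmemV k)).coeff (3 * h + p * k) : O) : F) * (kap 0 0 0)⁻¹ = 1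
    rw [e1, mul_inv_cancel₀ hk0]
  · intro k
    apply Subtype.ext
    change (((lif (Vk y VL' k) (hmemV' k)).coeff (3 * h + 3 + p * k) : O) : F) =
      (al : F) * (((lif (Vk y VL k) (hmemV k)).coeff (3 * h + p * k) : O) : F)
    rw [lif_coeff, lif_coeff, mul_comm p k, (hVd k).2, (hVd' k).2, hlead.2]
    exact hlead'.2
  · exact step_gen hRV hmemV
  · exact step_gen hRV' hmemV'
  · intro k d hd
    rw [lif_map, lif_map]
    refine jets hRV hRV' ?_ k hd
    rw [hVL', map_pow, map_add, map_one, ww]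
  · intro k
    exact Jk hs (desc_shift F p) hRV hRV' hJ2 k (lif_map (hmemV k)) (lif_map (hmemV' k))
  · intro k
    exact Jk' hs (desc_shift F p) hRV hRV' hJ3 k (lif_map (hmemV k)) (lif_map (hmemV' k))

end gen

variable {p : ℕ} [hp : Fact p.Prime]

/-- **The data of the class rule**, from the formula -/
theorem data_of_formulaL (h2 : p ≠ 2) {v : ℕ → K} (hv0 : v 0 = alpha) (hv : IsFormal v)
    {kap : ℕ → ℕ → ℕ → K} (hkap : ∀ i j k, kap i j k ∈ Op p) (hk0 : kap 0 0 0 ≠ 0)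
    (hk0' : (kap 0 0 0)⁻¹ ∈ Op p) {E : K → ℕ → PowerSeries K}
    (hE : ∀ a m, E a m * ∏ i ∈ Finset.range m, (1 + PowerSeries.C (a + (i : K)) * PowerSeries.X) =
      PowerSeries.C (∏ i ∈ Finset.range m, ((2 : K)⁻¹ + (i : K))) * PowerSeries.X ^ m)
    {S : K → PowerSeries K}
    (hS : ∀ a l, PowerSeries.coeff l (S a) = ∑ i ∈ Finset.range (l + 1),
      ∑ j ∈ Finset.range (l + 1), ∑ k ∈ Finset.range (l + 1),
        kap i j k * PowerSeries.coeff l (E a i * E a j * E a k))
    (hfor : PowerSeries.mk v * (1 + PowerSeries.C (3 / 2) * PowerSeries.X) ^ 3 * S (3 / 2) =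
      PowerSeries.C alpha * (1 + PowerSeries.X) ^ 3 * S (5 / 2)) :
    ∃ (half al ali : Op p) (V V' : ℕ → (Op p)[X]), Data p v half al ali V V' ∧
      DataL (Op p) p v half al ali V V' := by
  obtain ⟨h, hph⟩ : ∃ h, p = 2 * h + 1 := by
    obtain ⟨h, hh⟩ := hp.out.odd_of_ne_two h2
    exact ⟨h, hh⟩
  have hdg : dg p = 3 * h := by
    unfold dg
    omega
  have hhalf := half_mem (p := p) h2
  obtain ⟨half, hhe⟩ : ∃ half : Op p, (half : K) = 1 / 2 := ⟨⟨1 / 2, hhalf⟩, rfl⟩
  obtain ⟨al, hale⟩ : ∃ al : Op p, (al : K) = alpha := ⟨⟨alpha, alpha_mem⟩, rfl⟩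
  obtain ⟨ali, halie⟩ : ∃ ali : Op p, (ali : K) = alphaInv := ⟨⟨alphaInv, alphaInv_mem⟩, rfl⟩
  have hali : al * ali = 1 := by
    apply Subtype.ext
    push_cast
    rw [hale, halie]
    exact alpha_mul
  rw [← hale] at hfor hv0
  obtain ⟨V, V', hd, hdL⟩ := data_genL hph hhe hali hv0 hv hkap hk0 hk0' hE hS hfor
  refine ⟨half, al, ali, V, V', ?_, hdL⟩
  constructor
  · apply Subtype.ext
    change (2 : K) * (half : K) = 1
    rw [hhe]
    norm_num
  · exact hale
  · exact hali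
  · rw [hdg]
    exact hd.deg
  · rw [hdg]
    exact hd.deg'
  · rw [hdg]
    exact hd.lead
  · rw [hdg]
    exact hd.lead'
  · exact hd.step
  · exact hd.step'
  · exact hd.jets
  · exact hd.J
  · exact hd.J'

/-- the shape of `data_existsL` -/
def DataStmtL (p : ℕ) [Fact p.Prime] (v : ℕ → K) : Prop :=
  ∃ (half al ali : Op p) (V V' : ℕ → (Op p)[X]), Data p v half al ali V V' ∧
    DataL (Op p) p v half al ali V V'

/-- `Data` from the formula, stated for `a = 3/2, 5/2` only -/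
theorem data_of_symL (h2 : p ≠ 2) {v : ℕ → K} (hv0 : v 0 = alpha) (hv : IsFormal v)
    {kap : ℕ → ℕ → ℕ → K} (hkap : ∀ i j k, kap i j k ∈ Op p) (hk0 : kap 0 0 0 ≠ 0)
    (hk0' : (kap 0 0 0)⁻¹ ∈ Op p) {E3 E5 : ℕ → PowerSeries K}
    (hE3 : ∀ m, E3 m * ∏ i ∈ Finset.range m,
        (1 + PowerSeries.C ((3 / 2 : K) + (i : K)) * PowerSeries.X) =
      PowerSeries.C (∏ i ∈ Finset.range m, ((2 : K)⁻¹ + (i : K))) * PowerSeries.X ^ m)
    (hE5 : ∀ m, E5 m * ∏ i ∈ Finset.range m,
        (1 + PowerSeries.C ((5 / 2 : K) + (i : K)) * PowerSeries.X) =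
      PowerSeries.C (∏ i ∈ Finset.range m, ((2 : K)⁻¹ + (i : K))) * PowerSeries.X ^ m)
    {S3 S5 : PowerSeries K}
    (hS3 : ∀ l, PowerSeries.coeff l S3 = ∑ i ∈ Finset.range (l + 1),
      ∑ j ∈ Finset.range (l + 1), ∑ k ∈ Finset.range (l + 1),
        kap i j k * PowerSeries.coeff l (E3 i * E3 j * E3 k))
    (hS5 : ∀ l, PowerSeries.coeff l S5 = ∑ i ∈ Finset.range (l + 1),
      ∑ j ∈ Finset.range (l + 1), ∑ k ∈ Finset.range (l + 1),
        kap i j k * PowerSeries.coeff l (E5 i * E5 j * E5 k))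
    (hfor : PowerSeries.mk v * (1 + PowerSeries.C (3 / 2) * PowerSeries.X) ^ 3 * S3 =
      PowerSeries.C alpha * (1 + PowerSeries.X) ^ 3 * S5) :
    DataStmtL p v := by
  have e3 : ∀ m, Efam (3 / 2) m = E3 m := fun m => frac_unique (Efam_spec (3 / 2) m) (hE3 m)
  have e5 : ∀ m, Efam (5 / 2) m = E5 m := fun m => frac_unique (Efam_spec (5 / 2) m) (hE5 m)
  set S : K → PowerSeries K := fun a => sigF kap (Efam a) with hS
  have hSc : ∀ a l, PowerSeries.coeff l (S a) = ∑ i ∈ Finset.range (l + 1),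
      ∑ j ∈ Finset.range (l + 1), ∑ k ∈ Finset.range (l + 1),
        kap i j k * PowerSeries.coeff l (Efam a i * Efam a j * Efam a k) := by
    intro a l
    rw [hS]
    simp only [sigF, PowerSeries.coeff_mk]
  have s3 : S (3 / 2) = S3 := by
    refine PowerSeries.ext fun l => ?_
    rw [hSc, hS3]
    simp only [e3]
  have s5 : S (5 / 2) = S5 := by
    refine PowerSeries.ext fun l => ?_
    rw [hSc, hS5]
    simp only [e5]
  refine data_of_formulaL h2 hv0 hv hkap hk0 hk0' Efam_spec hSc ?_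
  rw [s3, s5]
  exact hfor

/-- **`data_exists`** with the Laurent series -/
theorem data_existsL (hp5 : 5 ≤ p) {v : ℕ → K} (hv0 : v 0 = alpha) (hv : IsFormal v) :
    DataStmtL p v := by
  have h2 : p ≠ 2 := by omega
  obtain ⟨kap, hkap, hk0, hk0', hfor⟩ := QS2.Sym.sym_formula (p := p) h2 hv hv0
  have e3 : (3 * 2⁻¹ : K) = 3 / 2 := by ring
  have e5 : (5 * 2⁻¹ : K) = 5 / 2 := by ring
  rw [e3, e5] at hfor
  refine data_of_symL h2 hv0 hv hkap hk0 hk0' (QS2.Sym.EK_prod (3 / 2)) (QS2.Sym.EK_prod (5 / 2))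
    (fun l => QS2.Sym.coeff_sigF _ _ _) (fun l => QS2.Sym.coeff_sigF _ _ _) ?_
  rw [mul_assoc]
  exact hfor

end T2
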