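import Pool.Agent.T2.SF1
import Pool.Agent.T2.SF4a
import Pool.Agent.QS2.ClsGood

/-!
# T2, module SF4: the polynomials `R` of the good pairs are integer valued

* `SheetL ε S S1` : the Laurent series form of `IsSheet`;
* `W_eq`, `rh_W` : `W = (w+1)^3 V S(w+1) - ε V' S(w)` is in `Rh`;
* `R_int` : `[P_D S + ε (w+1)^3 Q_D S(w+1)]_+` is integer valued;
* `good_exists_R` : good pairs for `5 ≤ p` with this property for all sheets.
-/

set_option autoImplicit false

namespace T2

open Polynomial QS2 QS2.NV QS2.Cls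
open HahnSeries hiding C

section gen

variable {F : Type*} [Field F]

/-- a sheet as Laurent series in `1 / w` : `S = S(w)`, `S1 = S(w + 1)` -/
structure SheetL (ε : F) (S S1 : LaurentSeries F) : Prop where
  shift : shL S1 = S
  eqn : (ww F + 1) ^ 3 * S1 - HahnSeries.C ε * ap (ww F) * S + ww F ^ 3 * shL S =
    HahnSeries.C ε * (2 * ww F + 1)

theorem sheetL_of {ε : F} {s s1 : ℕ → F} (h : IsSheet ε s s1) :
    SheetL ε (ser (PowerSeries.mk s)) (ser (PowerSeries.mk s1)) := by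
  have hs : shL (ser (PowerSeries.mk s1)) = ser (PowerSeries.mk s) := by
    rw [shL_ser, NV.sh_mk, ← shm_eq, h.shift]
  refine ⟨hs, ?_⟩
  have h1 := congrArg (ofPowerSeries ℤ F) h.eqn
  simp only [map_add, map_sub, map_mul, map_pow, map_one, map_ofNat, ofPowerSeries_C] at h1
  have h2 := ww_mul (F := F)
  rw [shL_ser, NV.sh_mk, ← shm_eq]
  unfold ser at h2 ⊢
  set t := ofPowerSeries ℤ F PowerSeries.X with ht
  set a := ofPowerSeries ℤ F (PowerSeries.mk s) with ha
  set a1 := ofPowerSeries ℤ F (PowerSeries.mk s1) with ha1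
  set b := ofPowerSeries ℤ F (PowerSeries.mk (shm s)) with hb
  set w := ww F with hw
  have e1 : (w + 1) ^ 3 = w ^ 3 * (1 + t) ^ 3 := by
    rw [← mul_pow, mul_add, mul_one, h2]
  have e3 : w ^ 3 * t = w ^ 2 := by
    calc w ^ 3 * t = w ^ 2 * (w * t) := by ring
      _ = w ^ 2 := by rw [h2, mul_one]
  have e4 : w ^ 3 * t ^ 2 = w := by
    calc w ^ 3 * t ^ 2 = w * (w * t) ^ 2 := by ring
      _ = w := by rw [h2, one_pow, mul_one]
  have e5 : w ^ 3 * t ^ 3 = 1 := by
    rw [← mul_pow, h2, one_pow]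
  have e2 : ap w = w ^ 3 * (34 + 51 * t + 27 * t ^ 2 + 5 * t ^ 3) := by
    unfold ap
    linear_combination -51 * e3 - 27 * e4 - 5 * e5
  rw [e1, e2]
  linear_combination w ^ 3 * h1 + HahnSeries.C ε * (2 * e4 + e5)

variable {ε al ali hf : F} {p : ℕ} {VL VL' S S1 : LaurentSeries F}

/-- `W` -/
noncomputable def WL (ε : F) (VL VL' S S1 : LaurentSeries F) : LaurentSeries F :=
  (ww F + 1) ^ 3 * VL * S1 - HahnSeries.C ε * VL' * S

/-- **the equation of `W`** -/
theorem W_eq (hS : SheetL ε S S1) (hε : ε ^ 2 = 1) (hal : al * ali = 1)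
    (hJ : VL' = NV.phi F (ap X) * VL - HahnSeries.C ali *
      NV.phi F (X + C ((p : F) * hf)) ^ 3 * shL VL)
    (hJ' : NV.phi F (X + C ((p : F) * hf)) ^ 3 * shL VL' =
      HahnSeries.C al * NV.phi F X ^ 6 * VL) :
    WL ε VL VL' S S1 - HahnSeries.C (ε * ali) * SS p hf (WL ε VL VL' S S1) =
      HahnSeries.C ε * (NV.phi F (2 * X + 1) * VL) := by
  have h0 : ww F ^ 3 ≠ 0 := pow_ne_zero 3 ww_ne
  apply mul_left_cancel₀ h0
  have h1 := hS.eqn
  have h2 := uu_mul (F := F) (p := p) hf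
  have h3 : (HahnSeries.C (ε ^ 2) : LaurentSeries F) = 1 := by rw [hε, map_one]
  have h4 : (HahnSeries.C (al * ali) : LaurentSeries F) = 1 := by rw [hal, map_one]
  have h5 : NV.phi F (2 * X + 1) = 2 * ww F + 1 := by
    rw [map_add, map_mul, map_ofNat, map_one, ww]
  have h6 : shL (WL ε VL VL' S S1) = ww F ^ 3 * shL VL * S - HahnSeries.C ε * shL VL' * shL S := by
    unfold WL
    rw [map_sub, map_mul, map_mul, map_mul, map_mul, map_pow, map_add, map_one, shL_ww, shL_C,
      hS.shift]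
    ring
  unfold SS
  rw [h6, h5]
  rw [phi_ap] at hJ
  rw [map_pow] at h3
  rw [map_mul] at h4
  rw [map_mul (HahnSeries.C : F →+* LaurentSeries F) ε ali]
  have hw : NV.phi F X = ww F := rfl
  rw [hw] at h2 hJ'
  set w := ww F
  set L := NV.phi F (X + C ((p : F) * hf))
  set u := uu F p hf
  set e : LaurentSeries F := HahnSeries.C ε
  set a : LaurentSeries F := HahnSeries.C al
  set b : LaurentSeries F := HahnSeries.C ali
  have h7 : w ^ 3 * u ^ 3 = L ^ 3 := by
    rw [← h2]; ring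
  unfold WL
  linear_combination (exp := 1) w ^ 3 * VL * h1 - w ^ 3 * e * S * hJ -
    (e * b * (w ^ 3 * shL VL * S - e * shL VL' * shL S)) * h7 + e ^ 2 * b * shL S * hJ' +
    (b * a * w ^ 6 * VL * shL S) * h3 + w ^ 6 * VL * shL S * h4

theorem rh_W {O : Subring F} (hp0 : (p : F) ≠ 0) (hf' : hf ∈ O) (hεO : ε ∈ O) (haliO : ali ∈ O)
    {m : F} (hm : m ∈ O) (hlm : (1 - ε * ali) * m = 1)
    (hS : SheetL ε S S1) (hε : ε ^ 2 = 1) (hal : al * ali = 1)
    (hV : Rh O p (descPochhammer F p) VL)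
    (hJ : VL' = NV.phi F (ap X) * VL - HahnSeries.C ali *
      NV.phi F (X + C ((p : F) * hf)) ^ 3 * shL VL)
    (hJ' : NV.phi F (X + C ((p : F) * hf)) ^ 3 * shL VL' =
      HahnSeries.C al * NV.phi F X ^ 6 * VL) :
    Rh O p (descPochhammer F p) (WL ε VL VL' S S1) := by
  refine rh_solve hp0 hf' (O.mul_mem hεO haliO) hm hlm (W_eq hS hε hal hJ hJ') ?_
  refine Rh.C_mul ?_ hεO
  refine hV.phi_mul ?_
  refine (OP O).add_mem ((OP O).mul_mem ?_ X_mem_OP) (OP O).one_mem
  have : (2 : F[X]) = C (2 : F) := by rw [map_ofNat]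
  rw [this]
  refine C_mem_OP ?_
  exact_mod_cast natCast_mem O 2

end gen

section good

variable {p : ℕ} [hp : Fact p.Prime]

/-- **good pairs from the data** -/
theorem good_of_dataL {v : ℕ → K} {half al ali : Op p} {V V' : ℕ → (Op p)[X]}
    (hd : Data p v half al ali V V') : Good p v (PG p V') (QG p V) := by
  have hp0 : (p : K) ≠ 0 := pK_ne_zero
  have hinv : ∀ k, ((p : K) ^ k)⁻¹ * (p : K) ^ k = 1 := fun k =>
    inv_mul_cancel₀ (pow_ne_zero _ hp0)
  refine ⟨?_, ?_, ?_, ?_, ?_, ?_, ?_⟩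
  · -- degP
    intro D hD
    have h1 := natDegree_PQ (a := -((p : K) ^ kD p D)⁻¹) (r := rD p D) (hd.deg' (kD p D))
    have h2 := kr_eq p D hD
    unfold PG
    omega
  · -- degQ
    intro D hD
    have h1 := natDegree_PQ (a := ((p : K) ^ kD p D)⁻¹) (r := rD p D) (hd.deg (kD p D))
    have h2 := kr_eq p D hD
    unfold QG
    omega
  · -- lead
    intro D hD
    have h2 := kr_eq p D hD
    refine ⟨(((V (kD p D)).coeff (dg p + p * kD p D) : Op p) : K),
      unitOp_of_isUnit (hd.lead _), ?_, ?_⟩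
    · change (p : K) ^ kD p D * (QG p V D).coeff (D - 3) = _
      have e1 : D - 3 = (dg p + p * kD p D) + rD p D := by omega
      unfold QG
      rw [e1, Polynomial.coeff_C_mul, coeff_X_pow_mul, toK_coeff, ← mul_assoc, mul_comm ((p : K) ^ _),
        hinv, one_mul]
    · change (p : K) ^ kD p D * (PG p V' D).coeff D = _
      have e1 : D = (dg p + 3 + p * kD p D) + rD p D := by omega
      have e2 : (PG p V' D).coeff D = -((p : K) ^ kD p D)⁻¹ *
          (((V' (kD p D)).coeff (dg p + 3 + p * kD p D) : Op p) : K) := by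
        unfold PG
        conv_lhs => rw [show ((C (-((p : K) ^ kD p D)⁻¹) *
          (X ^ rD p D * toK p (V' (kD p D))) : K[X])).coeff D =
          ((C (-((p : K) ^ kD p D)⁻¹) * (X ^ rD p D * toK p (V' (kD p D))) : K[X])).coeff
            ((dg p + 3 + p * kD p D) + rD p D) from by rw [← e1]]
        rw [Polynomial.coeff_C_mul, coeff_X_pow_mul, toK_coeff]
      rw [e2, hd.lead']
      push_cast
      rw [hd.al_eq]
      have := hinv (kD p D)
      linear_combination (-(alpha * (((V (kD p D)).coeff (dg p + p * kD p D) : Op p) : K))) * this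
  · -- jet
    intro D hD d hd2
    have hr : rD p D < p := Nat.mod_lt _ hp.out.pos
    have e1 : (X + 1) ^ 3 * QG p V D = C (((p : K) ^ kD p D)⁻¹) *
        (X ^ rD p D * ((X + 1) ^ 3 * toK p (V (kD p D)))) := by
      unfold QG
      ring
    have e3 : (PG p V' D).coeff d = -((p : K) ^ kD p D)⁻¹ *
        (toK p (V' (kD p D))).coeff (d - rD p D) := by
      unfold PG
      have e4 : d = (d - rD p D) + rD p D := by omega
      conv_lhs => rw [e4]
      rw [Polynomial.coeff_C_mul, coeff_X_pow_mul]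
    rw [e1, pp_coeff_shift _ _ _ _ _ (by omega), hd.jets _ _ (by omega), e3]
    ring
  · -- intP
    intro D hD n
    refine int_of_dvd (k := kD p D) ?_ n (dvd_eval_of_step hd.step' n _)
    rw [neg_mul, hinv]
    exact (Op p).neg_mem (Op p).one_mem
  · -- intQ
    intro D hD n
    refine int_of_dvd (k := kD p D) ?_ n (dvd_eval_of_step hd.step n _)
    rw [hinv]
    exact (Op p).one_mem
  · -- nice
    intro D hD c hc
    set k := kD p D with hk
    have hF : Fil (p : Op p) k (k + 3) ((X + C (c : Op p)) ^ rD p D * Yc (V k) (V' k) c) := by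
      refine Fil.mul_left _ ?_
      exact local_fil (half := half) hd.al_ali
        (hd.J k) (hd.J' k) (fil_comp_of_step hd.step k k le_rfl)
        (fun c h1 h2 => isUnit_sub h1 h2) c hc
    obtain ⟨g0, g1, g2, hg⟩ := eval_of_fil hF
    refine ⟨g0, g1, g2, g0.2, g1.2, g2.2, fun m => ?_⟩
    obtain ⟨r, hr⟩ := hg (m : Op p)
    refine ⟨r, r.2, ?_⟩
    have hr2 := congrArg (fun z : Op p => (z : K)) hr
    have hV : (toK p (V k)).eval ((c : K) + p * m) =
        (((V k).eval ((c : Op p) + p * m) : Op p) : K) := by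
      have := toK_eval (V k) ((c : Op p) + p * m)
      push_cast at this
      exact this
    have hV' : (toK p (V' k)).eval ((c : K) + p * m) =
        (((V' k).eval ((c : Op p) + p * m) : Op p) : K) := by
      have := toK_eval (V' k) ((c : Op p) + p * m)
      push_cast at this
      exact this
    have hA : ∀ j, (trA K j).eval ((p : K) * m) =
        (((trA (Op p) j).eval ((p : Op p) * m) : Op p) : K) := by
      intro j
      have := trA_eval (p := p) j ((p : Op p) * (m : Op p))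
      push_cast at this
      exact this
    have e5 : (Yc (V k) (V' k) c).eval ((p : Op p) * m) =
        (trA (Op p) (c + 1)).eval ((p : Op p) * m) * (V k).eval ((c : Op p) + p * m)
        - (trA (Op p) c).eval ((p : Op p) * m) * (V' k).eval ((c : Op p) + p * m) := by
      unfold Yc
      rw [eval_sub, eval_mul, eval_mul, eval_comp, eval_comp]
      simp only [eval_add, eval_X, eval_natCast]
      rw [add_comm ((p : Op p) * m) (c : Op p)]
    rw [eval_mul, eval_pow, eval_add, eval_X, eval_C, e5] at hr2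
    push_cast at hr2
    unfold PG QG
    rw [← hk]
    simp only [eval_mul, eval_C, eval_pow, eval_X, hV, hV', hA]
    have h6 := hinv k
    linear_combination ((p : K) ^ k)⁻¹ * hr2 +
      ((g0 : K) + (g1 : K) * ((p : K) * (m : K)) + (g2 : K) * ((p : K) * (m : K)) ^ 2
        + (p : K) ^ 3 * (r : K)) * h6


end good

/-! ## Values -/

variable {p : ℕ} [hp : Fact p.Prime]

theorem OP_eval_mem {O : Subring K} {P : K[X]} (hP : P ∈ OP O) (n : ℤ) : P.eval (n : K) ∈ O := by
  rw [eval_eq_sum_range]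
  exact O.sum_mem fun i _ => O.mul_mem (hP i) (O.pow_mem (intCast_mem O n) i)

theorem desc_eval (n : ℤ) : ∃ g ∈ Op p, (descPochhammer K p).eval (n : K) = (p : K) * g := by
  obtain ⟨g, hg⟩ := dvd_descPochhammer_eval (p := p) n
  refine ⟨g, g.2, ?_⟩
  have h := congrArg (fun z : Op p => (z : K)) hg
  push_cast at h
  rw [← h, ← desc_map (Op p).subtype p]
  exact (eval_map_apply (Op p).subtype (n : Op p))

/-- `Vk W k` is divisible by `p ^ k` at the integers -/
theorem Vk_eval {W : LaurentSeries K} (hW : Rh (Op p) p (descPochhammer K p) W) (k : ℕ) (n : ℤ) :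
    ∃ g ∈ Op p, (Vk (descPochhammer K p) W k).eval (n : K) = (p : K) ^ k * g := by
  have hyO : descPochhammer K p ∈ OP (Op p) := descP_mem_OP (Op p) p
  induction k with
  | zero =>
    refine ⟨_, OP_eval_mem (Vk_mem hyO (hW.mem_RI (natCast_mem _ p)) 0) n, ?_⟩
    rw [pow_zero, one_mul]
  | succ k ih =>
    obtain ⟨g, hg, e⟩ := ih
    obtain ⟨f, hf, -, ef⟩ := Vk_succ hyO (monic_descPochhammer K p) hW k
    obtain ⟨y, hy, ey⟩ := desc_eval (p := p) n
    refine ⟨y * g + f.eval (n : K), (Op p).add_mem ((Op p).mul_mem hy hg) (OP_eval_mem hf n), ?_⟩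
    rw [ef, eval_add, eval_mul, eval_mul, eval_C, e, ey, pow_succ]
    ring

/-- **`[P_D S + ε (w+1)^3 Q_D S(w+1)]_+` is integer valued** -/
theorem R_int {ε : K} (hε : ε ^ 2 = 1) (hεO : ε ∈ Op p) {VL VL' S S1 : LaurentSeries K}
    (hV : Rh (Op p) p (descPochhammer K p) VL) (hV' : Rh (Op p) p (descPochhammer K p) VL')
    (hW : Rh (Op p) p (descPochhammer K p) (WL ε VL VL' S S1))
    (hS : S ∈ RI (Op p)) (hS1 : S1 ∈ RI (Op p)) (k r : ℕ) (n : ℤ) :
    (plus (NV.phi K (C (-((p : K) ^ k)⁻¹) * (X ^ r * Vk (descPochhammer K p) VL' k)) * S) +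
      C ε * plus (NV.phi K ((X + 1) ^ 3 *
        (C (((p : K) ^ k)⁻¹) * (X ^ r * Vk (descPochhammer K p) VL k))) * S1)).eval (n : K) ∈
      Op p := by
  have hp0 : (p : K) ≠ 0 := pK_ne_zero
  have hpO : (p : K) ∈ Op p := natCast_mem _ p
  obtain ⟨rV, hrV, -, eV⟩ := Vk_spec hV k
  obtain ⟨rV', hrV', -, eV'⟩ := Vk_spec hV' k
  obtain ⟨rW, hrW, -, eW⟩ := Vk_spec hW k
  obtain ⟨g, hg, eg⟩ := Vk_eval hW k n
  set y := NV.phi K (descPochhammer K p) with hy
  set w := ww K with hw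
  have hwi : NV.phi K X = w := rfl
  have hww : w ∈ RI (Op p) := by
    rw [← hwi]
    exact phi_mem_RI.2 X_mem_OP
  have hinv : (HahnSeries.C (((p : K) ^ k)⁻¹) : LaurentSeries K) *
      HahnSeries.C ((p : K) ^ (k + 1)) = HahnSeries.C (p : K) := by
    rw [← map_mul]
    congr 1
    rw [_root_.pow_succ, ← mul_assoc, inv_mul_cancel₀ (pow_ne_zero k hp0), one_mul]
  -- the two parts
  set A1 : LaurentSeries K := w ^ r * (y ^ k * WL ε VL VL' S S1) with hA1
  set A2 : LaurentSeries K := w ^ r * (rV' * S - HahnSeries.C ε * ((w + 1) ^ 3 * rV * S1)) with hA2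
  have hA2m : A2 ∈ RI (Op p) :=
    (RI _).mul_mem ((RI _).pow_mem hww r) ((RI _).sub_mem ((RI _).mul_mem hrV' hS)
      ((RI _).mul_mem (C_mem_RI hεO) ((RI _).mul_mem ((RI _).mul_mem
        ((RI _).pow_mem ((RI _).add_mem hww (RI _).one_mem) 3) hrV) hS1)))
  have h3 : (HahnSeries.C (ε ^ 2) : LaurentSeries K) = 1 := by rw [hε, map_one]
  rw [map_pow] at h3
  have e1 : NV.phi K (C (-((p : K) ^ k)⁻¹) * (X ^ r * Vk (descPochhammer K p) VL' k)) * S +
      HahnSeries.C ε * (NV.phi K ((X + 1) ^ 3 *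
        (C (((p : K) ^ k)⁻¹) * (X ^ r * Vk (descPochhammer K p) VL k))) * S1) =
      HahnSeries.C (ε * ((p : K) ^ k)⁻¹) * A1 + HahnSeries.C (p : K) * A2 := by
    have a1 : NV.phi K (C (-((p : K) ^ k)⁻¹) * (X ^ r * Vk (descPochhammer K p) VL' k)) =
        -HahnSeries.C (((p : K) ^ k)⁻¹) * (w ^ r *
          NV.phi K (Vk (descPochhammer K p) VL' k)) := by
      rw [map_mul, map_mul, map_pow, phi_C, hwi, map_neg]
    have a2 : NV.phi K ((X + 1) ^ 3 * (C (((p : K) ^ k)⁻¹) *
        (X ^ r * Vk (descPochhammer K p) VL k))) = (w + 1) ^ 3 * (HahnSeries.C (((p : K) ^ k)⁻¹) *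
          (w ^ r * NV.phi K (Vk (descPochhammer K p) VL k))) := by
      rw [map_mul, map_mul, map_mul, map_pow, map_pow, map_add, map_one, phi_C, hwi]
    have a3 : (HahnSeries.C (ε * ((p : K) ^ k)⁻¹) : LaurentSeries K) =
        HahnSeries.C ε * HahnSeries.C (((p : K) ^ k)⁻¹) := map_mul _ _ _
    rw [a1, a2, a3, hA1, hA2]
    unfold WL
    rw [← hw]
    linear_combination (HahnSeries.C (((p : K) ^ k)⁻¹) * w ^ r * S) * eV' -
      (HahnSeries.C ε * HahnSeries.C (((p : K) ^ k)⁻¹) * w ^ r * (w + 1) ^ 3 * S1) * eV +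
      (w ^ r * (rV' * S - HahnSeries.C ε * ((w + 1) ^ 3 * rV * S1))) * hinv +
      (HahnSeries.C (((p : K) ^ k)⁻¹) * w ^ r * y ^ k * VL' * S) * h3
  have e2 : plus A1 = X ^ r * Vk (descPochhammer K p) (WL ε VL VL' S S1) k +
      C ((p : K) ^ (k + 1)) * plus (w ^ r * rW) := by
    have e3 : A1 = NV.phi K (X ^ r * Vk (descPochhammer K p) (WL ε VL VL' S S1) k) +
        HahnSeries.C ((p : K) ^ (k + 1)) * (w ^ r * rW) := by
      have a4 : NV.phi K (X ^ r * Vk (descPochhammer K p) (WL ε VL VL' S S1) k) =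
          w ^ r * NV.phi K (Vk (descPochhammer K p) (WL ε VL VL' S S1) k) := by
        rw [map_mul, map_pow, hwi]
      rw [hA1, eW, a4]
      ring
    rw [e3, plus_add, plus_phi, plus_C_mul]
  rw [← plus_C_mul, ← plus_add, e1, plus_add, plus_C_mul, plus_C_mul, e2]
  rw [eval_add, eval_mul, eval_mul, eval_add, eval_mul, eval_mul, eval_pow, eval_X, eval_C, eval_C,
    eval_C, eg]
  have e4 : ε * ((p : K) ^ k)⁻¹ * ((n : K) ^ r * ((p : K) ^ k * g) +
      (p : K) ^ (k + 1) * (plus (w ^ r * rW)).eval (n : K)) =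
      ε * ((n : K) ^ r * g + p * (plus (w ^ r * rW)).eval (n : K)) := by
    have a5 : ((p : K) ^ k)⁻¹ * (p : K) ^ k = 1 := inv_mul_cancel₀ (pow_ne_zero k hp0)
    rw [_root_.pow_succ]
    linear_combination (ε * ((n : K) ^ r * g + p * (plus (w ^ r * rW)).eval (n : K))) * a5
  rw [e4]
  refine (Op p).add_mem ((Op p).mul_mem hεO ((Op p).add_mem ((Op p).mul_mem
    ((Op p).pow_mem (intCast_mem _ n) r) hg) ((Op p).mul_mem hpO ?_))) ((Op p).mul_mem hpO ?_)
  · exact OP_eval_mem (plus_mem ((RI _).mul_mem ((RI _).pow_mem hww r) hrW)) n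
  · exact OP_eval_mem (plus_mem hA2m) n


/-- `1 - ε α⁻¹` is a unit of `Op p` for `p ≥ 5` -/
theorem one_sub_unit (hp5 : 5 ≤ p) {ε : K} (hε : ε = 1 ∨ ε = -1) {ali : K}
    (hali : alpha * ali = 1) : ∃ m ∈ Op p, (1 - ε * ali) * m = 1 := by
  have e : ali = alphaInv := by
    have h := alpha_mul
    have h0 : alpha ≠ 0 := left_ne_zero_of_mul_eq_one h
    exact mul_left_cancel₀ h0 (hali.trans h.symm)
  have hunit : ∀ (c : ℤ) (a b : ℤ), ¬ (p : ℤ) ∣ c → (1 - ε * ali) * (⟨a, b⟩ : K) = (c : K) →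
      ∃ m ∈ Op p, (1 - ε * ali) * m = 1 := by
    intro c a b hc h
    refine ⟨(⟨a, b⟩ : K) * (c : K)⁻¹, (Op p).mul_mem (intPair_mem a b) (inv_int_mem hc), ?_⟩
    rw [← mul_assoc, h]
    refine mul_inv_cancel₀ ?_
    intro h0
    have : c = 0 := by exact_mod_cast h0
    rw [this] at hc
    exact hc (dvd_zero _)
  have hnd : ∀ c : ℕ, 0 < c → (∀ q : ℕ, q.Prime → q ∣ c → q < 5) → ¬ (p : ℤ) ∣ (c : ℤ) := by
    intro c _ h hd
    have hd' : p ∣ c := by exact_mod_cast hd
    have := h p hp.out hd'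
    omega
  rcases hε with rfl | rfl
  · refine hunit (-32) (1 - 17) 12 ?_ ?_
    · rw [Int.dvd_neg]
      refine hnd 32 (by norm_num) fun q hq hd => ?_
      have : q ∣ 2 := hq.dvd_of_dvd_pow (n := 5) (by simpa using hd)
      have := Nat.le_of_dvd (by norm_num) this
      omega
    · rw [e]
      have h1 : (1 : K) = ⟨1, 0⟩ := rfl
      have h2 : (((-32 : ℤ) : ℤ) : K) = ⟨-32, 0⟩ := by
        rw [Int.cast_neg]
        rfl
      rw [h1, h2]
      apply QuadraticAlgebra.ext
      · simp [alphaInv]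
        norm_num
      · simp [alphaInv]
        norm_num
  · refine hunit 36 (1 + 17) (-12) ?_ ?_
    · refine hnd 36 (by norm_num) fun q hq hd => ?_
      have h36 : q ∣ 2 ^ 2 * 3 ^ 2 := by simpa using hd
      rcases (Nat.Prime.dvd_mul hq).1 h36 with h | h
      · have := Nat.le_of_dvd (by norm_num) (hq.dvd_of_dvd_pow h)
        omega
      · have := Nat.le_of_dvd (by norm_num) (hq.dvd_of_dvd_pow h)
        omega
    · rw [e]
      have h1 : (1 : K) = ⟨1, 0⟩ := rfl
      have h2 : (((36 : ℤ) : ℤ) : K) = ⟨36, 0⟩ := rfl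
      rw [h1, h2]
      apply QuadraticAlgebra.ext
      · simp [alphaInv]
        norm_num
      · simp [alphaInv]
        norm_num

/-- **good pairs with integer valued `R`** -/
theorem good_exists_R (hp5 : 5 ≤ p) {v : ℕ → K} (hv0 : v 0 = alpha) (hv : IsFormal v) :
    ∃ P Q, Good p v P Q ∧ ∀ ε : K, (ε = 1 ∨ ε = -1) → ∀ S S1 : LaurentSeries K,
      SheetL ε S S1 → S ∈ RI (Op p) → S1 ∈ RI (Op p) → ∀ D, dg p + 3 ≤ D → ∀ n : ℤ,
      (plus (NV.phi K (P D) * S) + C ε * plus (NV.phi K ((X + 1) ^ 3 * Q D) * S1)).eval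
        (n : K) ∈ Op p := by
  obtain ⟨half, al, ali, V, V', hd, VL, VL', hV, hV', hVe, hJ, hJ', hk, hk'⟩ :=
    data_existsL hp5 hv0 hv
  refine ⟨PG p V', QG p V, good_of_dataL hd, ?_⟩
  intro ε hε S S1 hS hSm hS1m D hD n
  have hε2 : ε ^ 2 = 1 := by
    rcases hε with rfl | rfl <;> ring
  have hεO : ε ∈ Op p := by
    rcases hε with rfl | rfl
    · exact (Op p).one_mem
    · exact (Op p).neg_mem (Op p).one_mem
  have hal : (al : K) * (ali : K) = 1 := by
    have := congrArg (fun z : Op p => (z : K)) hd.al_ali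
    simpa using this
  obtain ⟨m, hm, hlm⟩ := one_sub_unit (p := p) hp5 hε (ali := ali) (by rw [← hd.al_eq]; exact hal)
  have hW := rh_W (p := p) pK_ne_zero half.2 hεO ali.2 hm hlm hS hε2 hal hV hJ hJ'
  have h := R_int (p := p) hε2 hεO hV hV' hW hSm hS1m (kD p D) (rD p D) n
  unfold PG QG
  have h1 : toK p (V' (kD p D)) = Vk (descPochhammer K p) VL' (kD p D) := hk' _
  have h2 : toK p (V (kD p D)) = Vk (descPochhammer K p) VL (kD p D) := hk _
  rw [h1, h2]
  exact h

/-- `QS2.pp` in Laurent series -/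
theorem pp_eq_plus {F : Type*} [Field F] (s : ℕ → F) (P : F[X]) :
    QS2.pp s P = plus (NV.phi F P * ser (PowerSeries.mk s)) := by
  rw [QS2.NV.pp_eq]
  symm
  apply plus_eq
  apply neg_of_order
  exact pp_spec (PowerSeries.mk s) P

/-- **good pairs with integer valued `R`**, in terms of `QS2.pp` -/
theorem good_exists_pp (hp5 : 5 ≤ p) {v : ℕ → K} (hv0 : v 0 = alpha) (hv : IsFormal v) :
    ∃ P Q, Good p v P Q ∧ ∀ ε : K, (ε = 1 ∨ ε = -1) → ∀ s s1 : ℕ → K, IsSheet ε s s1 →
      (∀ m, s m ∈ Op p) → (∀ m, s1 m ∈ Op p) → ∀ D, dg p + 3 ≤ D → ∀ n : ℤ,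
      (QS2.pp s (P D)).eval (n : K) + ε * (QS2.pp s1 ((X + 1) ^ 3 * Q D)).eval (n : K) ∈ Op p := by
  obtain ⟨P, Q, hg, h⟩ := good_exists_R hp5 hv0 hv
  refine ⟨P, Q, hg, ?_⟩
  intro ε hε s s1 hs hsm hs1m D hD n
  have h1 := h ε hε (ser (PowerSeries.mk s)) (ser (PowerSeries.mk s1)) (sheetL_of hs)
    (ser_mem_RI fun m => by rw [PowerSeries.coeff_mk]; exact hsm m)
    (ser_mem_RI fun m => by rw [PowerSeries.coeff_mk]; exact hs1m m) D hD n
  rw [← pp_eq_plus, ← pp_eq_plus, eval_add, eval_mul, eval_C] at h1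
  exact h1

end T2
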