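import Pool.Agent.T2.SXp
import Pool.Agent.QS2.AperyInt

/-!
# T2, module SXv: denominators of the four sequences at every prime

`p ^ (3 log_p m) * u n ∈ Zp p` for `n ≤ m` (`p ≥ 5`), with two more powers for all `p`.
-/

set_option autoImplicit false

namespace T2

open Finset QS2

variable {p : ℕ} [hp : Fact p.Prime]

theorem pow_mul_mem {x : ℚ} {e : ℕ} (h : padicNorm p x ≤ (p : ℚ) ^ e) :
    (p : ℚ) ^ e * x ∈ Zp p := by
  have hp0 : (0 : ℚ) < p := by exact_mod_cast hp.out.pos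
  have hpos : (0 : ℚ) < (p : ℚ) ^ e := by positivity
  have h1 : padicNorm p ((p : ℚ) ^ e) = ((p : ℚ) ^ e)⁻¹ := by
    have h2 : padicNorm p ((p ^ e : ℕ) : ℚ) = _ :=
      padicNorm_natCast_eq p (pow_ne_zero _ hp.out.ne_zero)
    rw [padicValNat.prime_pow] at h2
    exact_mod_cast h2
  rw [mem_Zp, padicNorm.mul, h1, inv_mul_le_iff₀ hpos, mul_one]
  exact h

theorem p_mem_Zp : (p : ℚ) ∈ Zp p := natCast_mem _ p

theorem pow_mul_mono {x : ℚ} {e f : ℕ} (hef : e ≤ f) (h : (p : ℚ) ^ e * x ∈ Zp p) :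
    (p : ℚ) ^ f * x ∈ Zp p := by
  obtain ⟨g, rfl⟩ := Nat.exists_eq_add_of_le hef
  rw [pow_add, mul_comm ((p : ℚ) ^ e), mul_assoc]
  exact mul_mem (pow_mem p_mem_Zp g) h

theorem aperyB_pow_mem {n m : ℕ} (hn : n ≤ m) :
    (p : ℚ) ^ (3 * Nat.log p m + 1) * aperyB n ∈ Zp p := by
  refine pow_mul_mono ?_ (pow_mul_mem (norm_aperyB' p n))
  have := Nat.log_mono_right (b := p) hn
  split_ifs <;> omega

theorem aperyB_pow_mem' (hp2 : p ≠ 2) {n m : ℕ} (hn : n ≤ m) :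
    (p : ℚ) ^ (3 * Nat.log p m) * aperyB n ∈ Zp p := by
  refine pow_mul_mono ?_ (pow_mul_mem (norm_aperyB p hp2 n))
  have := Nat.log_mono_right (b := p) hn
  omega

theorem p_div_six : (p : ℚ) * (1 / 6) ∈ Zp p := by
  have hne : (p : ℚ) ≠ 0 := by exact_mod_cast hp.out.ne_zero
  by_cases h2 : p = 2
  · have h3 : ¬ p ∣ 3 := by rw [h2]; decide
    have := inv_nat_mem_Zp (p := p) h3
    have e : (p : ℚ) * (1 / 6) = ((3 : ℕ) : ℚ)⁻¹ := by rw [h2]; norm_num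
    rw [e]
    exact this
  by_cases h3 : p = 3
  · have h2' : ¬ p ∣ 2 := by rw [h3]; decide
    have := inv_nat_mem_Zp (p := p) h2'
    have e : (p : ℚ) * (1 / 6) = ((2 : ℕ) : ℚ)⁻¹ := by rw [h3]; norm_num
    rw [e]
    exact this
  · refine mul_mem p_mem_Zp ?_
    have h6 : ¬ p ∣ 6 := by
      intro hd
      have : p ∣ 2 * 3 := by simpa using hd
      rcases (hp.out.dvd_mul).1 this with h | h
      · exact h2 ((Nat.prime_dvd_prime_iff_eq hp.out Nat.prime_two).1 h)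
      · exact h3 ((Nat.prime_dvd_prime_iff_eq hp.out Nat.prime_three).1 h)
    have := inv_nat_mem_Zp (p := p) h6
    simpa using this

theorem div_six_mem (hp5 : 5 ≤ p) : (1 / 6 : ℚ) ∈ Zp p := by
  have h6 : ¬ p ∣ 6 := by
    intro hd
    have : p ∣ 2 * 3 := by simpa using hd
    rcases (hp.out.dvd_mul).1 this with h | h
    · have := Nat.le_of_dvd (by norm_num) h
      omega
    · have := Nat.le_of_dvd (by norm_num) h
      omega
  have := inv_nat_mem_Zp (p := p) h6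
  simpa using this

/-- denominators of `cs ε n`, every prime -/
theorem cs_pow_mem {ε : ℚ} (hε : ε ∈ Zp p) {n m : ℕ} (hn : n ≤ m) :
    (p : ℚ) ^ (3 * Nat.log p m + 2) * cs ε n ∈ Zp p := by
  have e : (p : ℚ) ^ (3 * Nat.log p m + 2) * cs ε n = (p * (1 / 6)) *
      ∑ k ∈ range n, ε ^ k * (2 * (k : ℚ) + 1) *
        (aperyA k * ((p : ℚ) ^ (3 * Nat.log p m + 1) * aperyB n)
          - aperyA n * ((p : ℚ) ^ (3 * Nat.log p m + 1) * aperyB k)) := by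
    rw [cs, mul_sum, mul_sum, mul_sum]
    refine sum_congr rfl fun k _ => ?_
    rw [show 3 * Nat.log p m + 2 = (3 * Nat.log p m + 1) + 1 from rfl, pow_succ]
    ring
  rw [e]
  refine mul_mem p_div_six (sum_mem fun k hk => ?_)
  have hk' : k ≤ m := by
    have := Finset.mem_range.1 hk
    omega
  refine mul_mem (mul_mem (pow_mem hε k) ?_) (sub_mem (mul_mem (aperyA_mem k) (aperyB_pow_mem hn))
    (mul_mem (aperyA_mem n) (aperyB_pow_mem hk')))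
  have := natCast_mem (Zp p) (2 * k + 1)
  push_cast at this
  exact this

/-- denominators of `cs ε n`, `p ≥ 5` -/
theorem cs_pow_mem5 (hp5 : 5 ≤ p) {ε : ℚ} (hε : ε ∈ Zp p) {n m : ℕ} (hn : n ≤ m) :
    (p : ℚ) ^ (3 * Nat.log p m) * cs ε n ∈ Zp p := by
  have hp2 : p ≠ 2 := by omega
  have e : (p : ℚ) ^ (3 * Nat.log p m) * cs ε n = (1 / 6) *
      ∑ k ∈ range n, ε ^ k * (2 * (k : ℚ) + 1) *
        (aperyA k * ((p : ℚ) ^ (3 * Nat.log p m) * aperyB n)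
          - aperyA n * ((p : ℚ) ^ (3 * Nat.log p m) * aperyB k)) := by
    rw [cs, mul_sum, mul_sum, mul_sum]
    refine sum_congr rfl fun k _ => ?_
    ring
  rw [e]
  refine mul_mem (div_six_mem hp5) (sum_mem fun k hk => ?_)
  have hk' : k ≤ m := by
    have := Finset.mem_range.1 hk
    omega
  refine mul_mem (mul_mem (pow_mem hε k) ?_)
    (sub_mem (mul_mem (aperyA_mem k) (aperyB_pow_mem' hp2 hn))
      (mul_mem (aperyA_mem n) (aperyB_pow_mem' hp2 hk')))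
  have := natCast_mem (Zp p) (2 * k + 1)
  push_cast at this
  exact this

theorem one_mem_Zp : (1 : ℚ) ∈ Zp p := one_mem _
theorem neg_one_mem_Zp : (-1 : ℚ) ∈ Zp p := neg_mem (one_mem _)

/-- the combination `w_n = x0 a_n + x1 cs 1 n + x2 b_n + x3 cs (-1) n` -/
def wq (x0 x1 x2 x3 : ℚ) (n : ℕ) : ℚ :=
  x0 * aperyA n + x1 * cs 1 n + x2 * aperyB n + x3 * cs (-1) n

theorem wq_pow_mem {x0 x1 x2 x3 : ℚ} (h0 : x0 ∈ Zp p) (h1 : x1 ∈ Zp p) (h2 : x2 ∈ Zp p)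
    (h3 : x3 ∈ Zp p) {n m : ℕ} (hn : n ≤ m) :
    (p : ℚ) ^ (3 * Nat.log p m + 2) * wq x0 x1 x2 x3 n ∈ Zp p := by
  have e : (p : ℚ) ^ (3 * Nat.log p m + 2) * wq x0 x1 x2 x3 n
      = x0 * ((p : ℚ) ^ (3 * Nat.log p m + 2) * aperyA n)
        + x1 * ((p : ℚ) ^ (3 * Nat.log p m + 2) * cs 1 n)
        + x2 * ((p : ℚ) ^ (3 * Nat.log p m + 2) * aperyB n)
        + x3 * ((p : ℚ) ^ (3 * Nat.log p m + 2) * cs (-1) n) := by
    rw [wq]; ring
  rw [e]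
  exact add_mem (add_mem (add_mem (mul_mem h0 (mul_mem (pow_mem p_mem_Zp _) (aperyA_mem n)))
    (mul_mem h1 (cs_pow_mem one_mem_Zp hn)))
    (mul_mem h2 (pow_mul_mono (by omega) (aperyB_pow_mem hn))))
    (mul_mem h3 (cs_pow_mem neg_one_mem_Zp hn))

theorem wq_pow_mem5 (hp5 : 5 ≤ p) {x0 x1 x2 x3 : ℚ} (h0 : x0 ∈ Zp p) (h1 : x1 ∈ Zp p)
    (h2 : x2 ∈ Zp p) (h3 : x3 ∈ Zp p) {n m : ℕ} (hn : n ≤ m) :
    (p : ℚ) ^ (3 * Nat.log p m) * wq x0 x1 x2 x3 n ∈ Zp p := by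
  have hp2 : p ≠ 2 := by omega
  have e : (p : ℚ) ^ (3 * Nat.log p m) * wq x0 x1 x2 x3 n
      = x0 * ((p : ℚ) ^ (3 * Nat.log p m) * aperyA n)
        + x1 * ((p : ℚ) ^ (3 * Nat.log p m) * cs 1 n)
        + x2 * ((p : ℚ) ^ (3 * Nat.log p m) * aperyB n)
        + x3 * ((p : ℚ) ^ (3 * Nat.log p m) * cs (-1) n) := by
    rw [wq]; ring
  rw [e]
  exact add_mem (add_mem (add_mem (mul_mem h0 (mul_mem (pow_mem p_mem_Zp _) (aperyA_mem n)))
    (mul_mem h1 (cs_pow_mem5 hp5 one_mem_Zp hn)))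
    (mul_mem h2 (aperyB_pow_mem' hp2 hn)))
    (mul_mem h3 (cs_pow_mem5 hp5 neg_one_mem_Zp hn))

/-- transfer to `Op p` -/
theorem pow_mul_mem_Op {x : ℚ} {e : ℕ} (h : (p : ℚ) ^ e * x ∈ Zp p) :
    (p : K) ^ e * ((x : ℚ) : K) ∈ Op p := by
  have := ratCast_mem_Op.2 h
  push_cast at this
  exact this

end T2
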