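import Pool.Agent.T2.RowB
import Pool.Agent.T2.SXv

/-!
# T2: the two-sided sequence `wz` is a `SeqP`

`wz x0 x1 x2 x3 z = w_{mir z}`, `mir z = z` (`z ≥ 0`), `mir (-1-n) = n`.
-/

set_option autoImplicit false

namespace T2

open Finset QS2

/-- `z` for `z ≥ 0`, `-1 - z` for `z < 0` -/
def mir (z : ℤ) : ℕ := if 0 ≤ z then z.toNat else (-1 - z).toNat

theorem mir_nat (n : ℕ) : mir (n : ℤ) = n := by simp [mir]

theorem mir_neg (n : ℕ) : mir (-1 - (n : ℤ)) = n := by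
  rw [mir, if_neg (by omega)]
  omega

theorem mir_refl (z : ℤ) : mir (-1 - z) = mir z := by
  unfold mir
  split_ifs <;> omega

/-- the two-sided sequence over `ℚ` -/
def wzq (x0 x1 x2 x3 : ℚ) (z : ℤ) : ℚ := wq x0 x1 x2 x3 (mir z)

/-- the two-sided sign over `ℚ` -/
def sgq (z : ℤ) : ℚ := (-1) ^ mir z

/-- right side of the recurrence over `ℚ` -/
def rzq (x1 x3 : ℚ) (z : ℤ) : ℚ := (x1 + x3 * sgq z) * (2 * (z : ℚ) + 1)

/-- the two-sided sequence -/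
noncomputable def wz (x0 x1 x2 x3 : ℚ) (z : ℤ) : K := ((wzq x0 x1 x2 x3 z : ℚ) : K)

/-- the two-sided sign -/
noncomputable def sgz (z : ℤ) : K := ((sgq z : ℚ) : K)

/-- right side of the recurrence -/
noncomputable def rz (x1 x3 : ℚ) (z : ℤ) : K := ((rzq x1 x3 z : ℚ) : K)

/-- one-sided recurrence of `wq` -/
theorem wq_rec (x0 x1 x2 x3 : ℚ) (n : ℕ) (hn : 1 ≤ n) :
    ((n : ℚ) + 1) ^ 3 * wq x0 x1 x2 x3 (n + 1) =
      ap (n : ℚ) * wq x0 x1 x2 x3 n - (n : ℚ) ^ 3 * wq x0 x1 x2 x3 (n - 1)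
        + (x1 + x3 * (-1) ^ n) * (2 * (n : ℚ) + 1) := by
  have hA := aperyA_rec' n hn
  have hB := aperyB_rec' n hn
  have h1 := cs_rec' 1 n hn
  have h3 := cs_rec' (-1) n hn
  simp only [one_pow, one_mul, ap] at hA hB h1 h3
  simp only [wq, ap]
  linear_combination x0 * hA + x1 * h1 + x2 * hB + x3 * h3

theorem wzq_rec (x0 x1 x2 x3 : ℚ) (z : ℤ) (hz : 1 ≤ z ∨ z ≤ -2) :
    ((z : ℚ) + 1) ^ 3 * wzq x0 x1 x2 x3 (z + 1) =
      ap (z : ℚ) * wzq x0 x1 x2 x3 z - (z : ℚ) ^ 3 * wzq x0 x1 x2 x3 (z - 1)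
        + rzq x1 x3 z := by
  rcases hz with hz | hz
  · obtain ⟨n, rfl⟩ : ∃ n : ℕ, z = (n : ℤ) := ⟨z.toNat, by omega⟩
    have hn : 1 ≤ n := by omega
    have e1 : mir ((n : ℤ) + 1) = n + 1 := by
      have := mir_nat (n + 1); push_cast at this; exact this
    have e2 : mir ((n : ℤ) - 1) = n - 1 := by
      have h := mir_nat (n - 1)
      rw [Nat.cast_sub hn] at h; push_cast at h; exact h
    have e0 := mir_nat n
    unfold wzq rzq sgq
    rw [e1, e2, e0]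
    have := wq_rec x0 x1 x2 x3 n hn
    push_cast
    exact this
  · obtain ⟨n, rfl⟩ : ∃ n : ℕ, z = -1 - (n : ℤ) := ⟨(-1 - z).toNat, by omega⟩
    have hn : 1 ≤ n := by omega
    have e1 : mir (-1 - (n : ℤ) + 1) = n - 1 := by
      have h := mir_neg (n - 1)
      have e : (-1 - (n : ℤ) + 1) = -1 - ((n - 1 : ℕ) : ℤ) := by
        rw [Nat.cast_sub hn]; push_cast; ring
      rw [e]; exact h
    have e2 : mir (-1 - (n : ℤ) - 1) = n + 1 := by
      have h := mir_neg (n + 1)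
      have e : (-1 - (n : ℤ) - 1) = -1 - ((n + 1 : ℕ) : ℤ) := by push_cast; ring
      rw [e]; exact h
    have e0 := mir_neg n
    unfold wzq rzq sgq
    rw [e1, e2, e0]
    have := wq_rec x0 x1 x2 x3 n hn
    simp only [ap] at this ⊢
    push_cast
    linear_combination -this

theorem wzq_one (x0 x1 x2 x3 : ℚ) : wzq x0 x1 x2 x3 1 =
    5 * wzq x0 x1 x2 x3 0 - (-6 * x2) + rzq x1 x3 0 := by
  have e1 : mir 1 = 1 := mir_nat 1
  have e0 : mir 0 = 0 := mir_nat 0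
  unfold wzq rzq sgq wq
  rw [e1, e0, aperyA_zero, aperyA_one, aperyB_zero, aperyB_one, cs_zero, cs_zero, cs_one, cs_one]
  push_cast
  ring

variable {p : ℕ} [hp : Fact p.Prime]

theorem sgq_mem (z : ℤ) : sgq z ∈ Zp p := negpow_mem _

theorem rzq_mem {x1 x3 : ℚ} (h1 : x1 ∈ Zp p) (h3 : x3 ∈ Zp p) (z : ℤ) : rzq x1 x3 z ∈ Zp p := by
  refine mul_mem (add_mem h1 (mul_mem h3 (sgq_mem z))) ?_
  have := intCast_mem (Zp p) (2 * z + 1)
  push_cast at this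
  exact this

theorem wq_mem (hp5 : 5 ≤ p) {x0 x1 x2 x3 : ℚ} (h0 : x0 ∈ Zp p) (h1 : x1 ∈ Zp p)
    (h2 : x2 ∈ Zp p) (h3 : x3 ∈ Zp p) {n : ℕ} (hn : n < p) : wq x0 x1 x2 x3 n ∈ Zp p := by
  have hp2 : p ≠ 2 := by omega
  exact add_mem (add_mem (add_mem (mul_mem h0 (aperyA_mem n)) (mul_mem h1 (cs_one_mem hp2 hn)))
    (mul_mem h2 (aperyB_mem hn))) (mul_mem h3 (cs_neg_mem hp2 hn))

theorem wq_mirror (hp5 : 5 ≤ p) {x0 x1 x2 x3 : ℚ} (h0 : x0 ∈ Zp p) (h1 : x1 ∈ Zp p)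
    (h2 : x2 ∈ Zp p) (h3 : x3 ∈ Zp p) {m n : ℕ} (h : m + n + 1 = p) :
    ∃ r ∈ Zp p, wq x0 x1 x2 x3 m - wq x0 x1 x2 x3 n = p * r := by
  have hp2 : p ≠ 2 := by omega
  obtain ⟨r0, hr0, e0⟩ := aperyA_mirror h
  obtain ⟨r1, hr1, e1⟩ := cs_one_mirror hp2 h
  obtain ⟨r2, hr2, e2⟩ := aperyB_mirror h
  obtain ⟨r3, hr3, e3⟩ := cs_neg_mirror hp2 h
  refine ⟨x0 * r0 + x1 * r1 + x2 * r2 + x3 * r3, add_mem (add_mem (add_mem (mul_mem h0 hr0)
    (mul_mem h1 hr1)) (mul_mem h2 hr2)) (mul_mem h3 hr3), ?_⟩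
  unfold wq
  linear_combination x0 * e0 + x1 * e1 + x2 * e2 + x3 * e3

/-- **the instance** -/
theorem seqP_wz (hp5 : 5 ≤ p) {x0 x1 x2 x3 : ℚ} (h0 : x0 ∈ Zp p) (h1 : x1 ∈ Zp p)
    (h2 : x2 ∈ Zp p) (h3 : x3 ∈ Zp p) :
    SeqP p (wz x0 x1 x2 x3) (rz x1 x3) sgz (((-6 * x2 : ℚ)) : K) where
  recur z hz := by
    have h := congrArg (Rat.cast : ℚ → K) (wzq_rec x0 x1 x2 x3 z hz)
    simp only [ap] at h ⊢
    push_cast at h
    exact h
  one := by
    have h := congrArg (Rat.cast : ℚ → K) (wzq_one x0 x1 x2 x3)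
    unfold wz rz
    push_cast at h ⊢
    exact h
  r_mem z := ratCast_mem_Op.2 (rzq_mem h1 h3 z)
  m0_mem := by
    refine ratCast_mem_Op.2 (mul_mem ?_ h2)
    have := intCast_mem (Zp p) (-6)
    push_cast at this
    exact this
  int z hz1 hz2 := by
    refine ratCast_mem_Op.2 (wq_mem hp5 h0 h1 h2 h3 ?_)
    unfold mir
    split_ifs <;> omega
  int3 z hz1 hz2 := by
    have hn : mir z < p ^ 2 := by
      unfold mir
      have hz1' : -((p ^ 2 : ℕ) : ℤ) ≤ z := by push_cast; exact hz1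
      have hz2' : z < ((p ^ 2 : ℕ) : ℤ) := by push_cast; exact hz2
      split_ifs <;> omega
    have h := wq_pow_mem5 hp5 h0 h1 h2 h3 (n := mir z) (m := mir z) le_rfl
    have hlog : Nat.log p (mir z) ≤ 1 := by
      rcases Nat.eq_zero_or_pos (mir z) with h' | h'
      · rw [h']; simp
      · have := Nat.log_lt_of_lt_pow h'.ne' hn
        omega
    exact pow_mul_mem_Op (pow_mul_mono (by omega) h)
  mir a ha1 ha2 := by
    have h : mir a + mir (a - p) + 1 = p := by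
      unfold mir
      split_ifs <;> omega
    exact mirror_K (wq_mirror hp5 h0 h1 h2 h3 h)
  sg_pm z := by
    unfold sgz sgq
    rcases neg_one_pow_eq_or ℚ (mir z) with h | h <;> rw [h]
    · left; simp
    · right; simp
  sg_mir a ha1 ha2 := by
    have h : mir (a - p) + mir a + 1 = p := by
      unfold mir
      split_ifs <;> omega
    unfold sgz sgq
    rw [negpow_mirror (by omega) h]

end T2
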