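import Pool.Agent.T2.DesignG
import Pool.Agent.T2.SF4
import Pool.Agent.T2.SF1b
import Pool.Agent.T2.SeqW
import Pool.Agent.QS2.FormalK

/-!
# T2: the concrete design (`designC`, `detC`), and rule A for it

`sQ = ![sP, sM]`, `sQ1 = ![sP1, sM1]` : the two rational sheets (at `z` and `z + 1`);
`designC F x A c` : rows = nodes `nodeZ A f`, columns `(C(X,i), 0)`, `(0, C(X,i))`, `i < c`;
`detC x A c e : ℚ`, rows chosen by `e : Fin c ⊕ Fin c → Nd A`.
-/

set_option autoImplicit false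

namespace T2

open Finset Polynomial QS2 QS2.Cls

/-- the sheets `S_+`, `S_-` -/
noncomputable def sQ : Fin 2 → ℕ → ℚ := ![sP, sM]

/-- the sheets `S_+(z+1)`, `S_-(z+1)` -/
noncomputable def sQ1 : Fin 2 → ℕ → ℚ := ![sP1, sM1]

/-- the signs of the sheets, over any field -/
def eF (F : Type*) [Field F] : Fin 2 → F := ![1, -1]

theorem isSheet_sQ (j : Fin 2) : IsSheet (eF ℚ j) (sQ j) (sQ1 j) := by
  fin_cases j
  · exact isSheet_P
  · exact isSheet_M

theorem isSheet_sQ_K (j : Fin 2) :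
    IsSheet (eK j) (fun m => ((sQ j m : ℚ) : K)) (fun m => ((sQ1 j m : ℚ) : K)) := by
  fin_cases j
  · exact isSheet_P_cast K
  · exact isSheet_M_cast K

/-- **the design matrix**, entries
`b(z) w_z - x1 [b S_+]_+(z) - sgn(z) x3 [b S_-]_+(z)`,
`b(z) w_{z+1} - x1 [b S_+(z+1)]_+(z) + sgn(z) x3 [b S_-(z+1)]_+(z)`, `b = C(X,i)`, `i < c` -/
noncomputable def designC (F : Type*) [Field F] [CharZero F] (x : Fin 4 → ℤ) (A c : ℕ) :
    Matrix (Nd A) (Fin c ⊕ Fin c) F := designF F x sQ sQ1 A c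

/-- **the determinant** -/
noncomputable def detC (x : Fin 4 → ℤ) (A c : ℕ) (e : Fin c ⊕ Fin c → Nd A) : ℚ :=
  detQ x sQ sQ1 A c e

theorem detC_cast (F : Type*) [Field F] [CharZero F] (x : Fin 4 → ℤ) (A c : ℕ)
    (e : Fin c ⊕ Fin c → Nd A) :
    ((detC x A c e : ℚ) : F) = ((designC F x A c).submatrix e id).det :=
  detQ_cast F x sQ sQ1 A c e

section rules

variable {p : ℕ} [hp : Fact p.Prime]

theorem sQ_mem (hp5 : 5 ≤ p) (j : Fin 2) (m : ℕ) : sQ j m ∈ Zp p := by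
  fin_cases j
  · exact sP_mem (by omega) m
  · exact sM_mem (by omega) (by omega) m

theorem sQ1_mem (hp5 : 5 ≤ p) (j : Fin 2) (m : ℕ) : sQ1 j m ∈ Zp p := by
  fin_cases j
  · exact sP1_mem (by omega) m
  · exact sM1_mem (by omega) (by omega) m

namespace RA

theorem wZ_K (x : Fin 4 → ℤ) :
    (fun z => ((wZ x z : ℚ) : K)) = wz (x 0) (x 1) (x 2) (x 3) := by
  funext z
  have e : wZ x z = wzq (x 0) (x 1) (x 2) (x 3) z := by
    unfold wZ two wzq mir wN
    split_ifs <;> rfl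
  rw [e]
  rfl

theorem sgn_K : (fun z => ((sgn z : ℚ) : K)) = sgz := by
  funext z
  have e : sgn z = sgq z := by
    unfold sgn two sgq mir
    split_ifs <;> rfl
  rw [e]
  rfl

theorem seqP (hp5 : 5 ≤ p) (x : Fin 4 → ℤ) :
    SeqP p (fun z => ((wZ x z : ℚ) : K)) (rz (x 1) (x 3)) (fun z => ((sgn z : ℚ) : K))
      (((-6 * (x 2 : ℚ) : ℚ)) : K) := by
  rw [wZ_K, sgn_K]
  exact seqP_wz hp5 (intCast_mem_Zp _) (intCast_mem_Zp _) (intCast_mem_Zp _) (intCast_mem_Zp _)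

theorem ccK_mem (x : Fin 4 → ℤ) (j : Fin 2) : ccK x j ∈ Op p := by
  fin_cases j
  · exact (Op p).neg_mem (intCast_mem _ _)
  · exact (Op p).neg_mem (intCast_mem _ _)

theorem eK_mem (j : Fin 2) : eK j ∈ Op p := by
  fin_cases j
  · exact (Op p).one_mem
  · exact (Op p).neg_mem (Op p).one_mem

theorem star_rat (q : ℚ) : (starRingEnd K) ((q : ℚ) : K) = (q : K) := by
  rw [map_ratCast]

end RA

/-- **Rule A for the concrete determinant** (`K`) -/
theorem ruleA_C' (hp5 : 5 ≤ p) (x : Fin 4 → ℤ) {A c : ℕ} (hA : A + p + 3 ≤ p ^ 2) (hcA : c ≤ A)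
    (hM : dg p + 3 ≤ c) (e : Fin c ⊕ Fin c → Nd A) :
    (p : K) ^ (eCls c 0 p) * ((detC x A c e : ℚ) : K) ∈ Op p := by
  obtain ⟨v, hv, hv0⟩ := exists_formal
  obtain ⟨P, Q, hg, hgood⟩ := good_exists_pp (p := p) hp5 hv0 hv
  have hS : SheetInt p (LAs fun j m => ((sQ j m : ℚ) : K))
      (LBs eK fun j m => ((sQ1 j m : ℚ) : K)) P Q := by
    refine sheetInt_of (fun j m => (rat_mem_Op _).2 (sQ_mem hp5 j m))
      (fun j m => (rat_mem_Op _).2 (sQ1_mem hp5 j m)) (fun j m => RA.star_rat _)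
      (fun j m => RA.star_rat _) RA.eK_mem (fun j => ?_) (fun j D hD n => ?_)
    · fin_cases j
      · exact map_one _
      · change (starRingEnd K) (-1) = -1
        rw [map_neg, map_one]
    · refine hgood (eK j) ?_ _ _ (isSheet_sQ_K j)
        (fun m => (rat_mem_Op _).2 (sQ_mem hp5 j m))
        (fun m => (rat_mem_Op _).2 (sQ1_mem hp5 j m)) D hD n
      fin_cases j
      · exact Or.inl rfl
      · exact Or.inr rfl
  have h := ruleA hp5 hg (RA.seqP hp5 x) (RA.ccK_mem x) hS hA hcA hM e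
  rw [detC_cast K]
  unfold designC
  rw [designF_K]
  exact h

/-- **Rule A for the concrete determinant** -/
theorem ruleA_C (hp5 : 5 ≤ p) (x : Fin 4 → ℤ) {A c : ℕ} (hA : A + p + 3 ≤ p ^ 2) (hcA : c ≤ A)
    (hM : dg p + 3 ≤ c) (e : Fin c ⊕ Fin c → Nd A) :
    (p : ℚ) ^ (eCls c 0 p) * detC x A c e ∈ Zp p :=
  padicNorm_of_K (ruleA_C' hp5 x hA hcA hM e)

end rules

end T2
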