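import Pool.Agent.T2.SheetPP
import Pool.Agent.T2.SXv

/-!
# T2: the design matrix over an arbitrary field, and its images

`wZ x z` : the integer combination `x 0 a + x 1 cs 1 + x 2 b + x 3 cs (-1)` at all integers
(`w_{-1-n} = w_n`), `sgn z = (-1)^z` for `z ≥ 0`, `sgn (-1-n) = (-1)^n`.
`designF F x s s1 A c` : the (rectangular) design matrix with the rational sheets `s j`, `s1 j` (`j = 0`: the sheet
`ε = 1`, `j = 1`: the sheet `ε = -1`, `s1` the sheets at `z + 1`), over a field `F` of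
characteristic `0`.
-/

set_option autoImplicit false

namespace T2

open Finset Polynomial QS2

/-- two-sided extension, `u_{-1-n} = u_n` -/
def two {R : Type*} (u : ℕ → R) (z : ℤ) : R := if 0 ≤ z then u z.toNat else u (-1 - z).toNat

theorem two_nat {R : Type*} (u : ℕ → R) (n : ℕ) : two u (n : ℤ) = u n := by
  unfold two
  rw [if_pos (by omega)]
  congr 1

theorem two_neg {R : Type*} (u : ℕ → R) (n : ℕ) : two u (-1 - (n : ℤ)) = u n := by
  unfold two
  rw [if_neg (by omega)]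
  congr 1
  omega

theorem two_refl {R : Type*} (u : ℕ → R) (z : ℤ) : two u (-1 - z) = two u z := by
  rcases le_or_gt 0 z with h | h
  · obtain ⟨n, rfl⟩ : ∃ n : ℕ, z = (n : ℤ) := ⟨z.toNat, by omega⟩
    rw [two_nat, two_neg]
  · obtain ⟨n, rfl⟩ : ∃ n : ℕ, z = -1 - (n : ℤ) := ⟨(-1 - z).toNat, by omega⟩
    rw [two_neg]
    have : -1 - (-1 - (n : ℤ)) = n := by ring
    rw [this, two_nat]

theorem two_map {R S : Type*} (φ : R → S) (u : ℕ → R) (z : ℤ) :
    two (fun n => φ (u n)) z = φ (two u z) := by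
  unfold two
  split_ifs <;> rfl

/-- `w_n`, all `n ≥ 0` -/
def wN (x : Fin 4 → ℤ) (n : ℕ) : ℚ := wq (x 0) (x 1) (x 2) (x 3) n

/-- `w_z`, all integers -/
def wZ (x : Fin 4 → ℤ) (z : ℤ) : ℚ := two (wN x) z

/-- `sgn z` -/
def sgn (z : ℤ) : ℚ := two (fun n => (-1 : ℚ) ^ n) z

/-- the design matrix over `F` -/
noncomputable def designF (F : Type*) [Field F] [CharZero F] (x : Fin 4 → ℤ)
    (s s1 : Fin 2 → ℕ → ℚ) (A c : ℕ) : Matrix (Nd A) (Fin c ⊕ Fin c) F
  | f, Sum.inl i => (binP F i).eval ((nodeZ A f : ℤ) : F) * (wZ x (nodeZ A f) : ℚ)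
      - (x 1 : F) * (pp (fun m => ((s 0 m : ℚ) : F)) (binP F i)).eval ((nodeZ A f : ℤ) : F)
      - (sgn (nodeZ A f) : ℚ) * ((x 3 : F) *
        (pp (fun m => ((s 1 m : ℚ) : F)) (binP F i)).eval ((nodeZ A f : ℤ) : F))
  | f, Sum.inr i => (binP F i).eval ((nodeZ A f : ℤ) : F) * (wZ x (nodeZ A f + 1) : ℚ)
      - (x 1 : F) * (pp (fun m => ((s1 0 m : ℚ) : F)) (binP F i)).eval ((nodeZ A f : ℤ) : F)
      + (sgn (nodeZ A f) : ℚ) * ((x 3 : F) *
        (pp (fun m => ((s1 1 m : ℚ) : F)) (binP F i)).eval ((nodeZ A f : ℤ) : F))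

/-- the determinant over `ℚ`, rows chosen by `e` -/
noncomputable def detQ (x : Fin 4 → ℤ) (s s1 : Fin 2 → ℕ → ℚ) (A c : ℕ)
    (e : Fin c ⊕ Fin c → Nd A) : ℚ :=
  ((designF ℚ x s s1 A c).submatrix e id).det

theorem pp_map {F G : Type*} [Field F] [Field G] (φ : F →+* G) (s : ℕ → F) (P : F[X]) :
    pp (fun m => φ (s m)) (P.map φ) = (pp s P).map φ := by
  rw [← ppL_apply, ← ppL_apply, ppL_map]

theorem designF_cast (F : Type*) [Field F] [CharZero F] (x : Fin 4 → ℤ) (s s1 : Fin 2 → ℕ → ℚ)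
    (A c : ℕ) : (designF ℚ x s s1 A c).map (Rat.castHom F) = designF F x s s1 A c := by
  have hpp : ∀ (t : ℕ → ℚ) (i : ℕ) (z : ℤ), ((((pp t (binP ℚ i)).eval (z : ℚ)) : ℚ) : F) =
      (pp (fun m => ((t m : ℚ) : F)) (binP F i)).eval (z : F) := by
    intro t i z
    have h1 := pp_map (Rat.castHom F) t (binP ℚ i)
    rw [map_binP] at h1
    have h2 := Polynomial.eval_map_apply (f := Rat.castHom F) (p := pp t (binP ℚ i)) (x := (z : ℚ))
    rw [← h1] at h2
    have h3 : (Rat.castHom F) (z : ℚ) = (z : F) := by simp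
    rw [h3] at h2
    exact h2.symm
  have hb : ∀ (i : ℕ) (z : ℤ), ((((binP ℚ i).eval (z : ℚ)) : ℚ) : F) =
      (binP F i).eval (z : F) := by
    intro i z
    have h2 := Polynomial.eval_map_apply (f := Rat.castHom F) (p := binP ℚ i) (x := (z : ℚ))
    rw [map_binP] at h2
    have h3 : (Rat.castHom F) (z : ℚ) = (z : F) := by simp
    rw [h3] at h2
    exact h2.symm
  refine Matrix.ext (fun f t => ?_)
  rw [Matrix.map_apply]
  rcases t with i | i
  · simp only [designF, Rat.coe_castHom]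
    push_cast
    simp only [hpp, hb]
  · simp only [designF, Rat.coe_castHom]
    push_cast
    simp only [hpp, hb]

theorem detQ_cast (F : Type*) [Field F] [CharZero F] (x : Fin 4 → ℤ) (s s1 : Fin 2 → ℕ → ℚ)
    (A c : ℕ) (e : Fin c ⊕ Fin c → Nd A) :
    ((detQ x s s1 A c e : ℚ) : F) = ((designF F x s s1 A c).submatrix e id).det := by
  unfold detQ
  have h := RingHom.map_det (Rat.castHom F) ((designF ℚ x s s1 A c).submatrix e id)
  rw [Rat.coe_castHom] at h
  rw [h, ← designF_cast F x s s1 A c]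
  rfl

/-! ## The image in `K` -/

/-- the constants `cc = (-x 1, -x 3)` -/
def ccK (x : Fin 4 → ℤ) : Fin 2 → K := ![-(x 1 : K), -(x 3 : K)]

/-- the signs -/
def eK : Fin 2 → K := ![1, -1]

theorem designF_K (x : Fin 4 → ℤ) (s s1 : Fin 2 → ℕ → ℚ) (A c : ℕ) :
    designF K x s s1 A c = designR (fun z => ((wZ x z : ℚ) : K)) (fun z => ((sgn z : ℚ) : K))
      (ccK x) (LAs fun j m => ((s j m : ℚ) : K)) (LBs eK fun j m => ((s1 j m : ℚ) : K)) A c := by
  refine Matrix.ext (fun f t => ?_)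
  rcases t with i | i
  · simp only [designF, designR, LAs_apply, ccK, Matrix.cons_val_zero, Matrix.cons_val_one]
    ring
  · simp only [designF, designR, LBs_apply, ccK, eK, Matrix.cons_val_zero, Matrix.cons_val_one,
      eval_smul, smul_eq_mul]
    ring

/-- rational elements of `Op p` -/
theorem rat_mem_Op {p : ℕ} [Fact p.Prime] (q : ℚ) : ((q : ℚ) : K) ∈ Op p ↔ padicNorm p q ≤ 1 := by
  rw [mem_Op]
  have h1 : ((q : ℚ) : K).re = q := rfl
  have h2 : ((q : ℚ) : K).im = 0 := rfl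
  rw [h1, h2]
  simp

/-- from `K` to `ℚ` -/
theorem padicNorm_of_K {p : ℕ} [Fact p.Prime] {e : ℕ} {q : ℚ}
    (h : (p : K) ^ e * ((q : ℚ) : K) ∈ Op p) : padicNorm p ((p : ℚ) ^ e * q) ≤ 1 := by
  rw [← rat_mem_Op]
  push_cast
  exact h

end T2
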