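import Pool.Agent.QS2.Defs

/-!
# T2: the design matrix, abstract in the sequence and in the polynomial parts

`designM w sg cc LA LB A`: rows = nodes `z = nodeZ A f`, columns = `(C(X,i), 0)`, `(0, C(X,i))`;
entry of `(P, Q)`: `P(z) w(z) + Q(z) w(z+1) + cc 0 (LA 0 P + LB 0 Q)(z) + sg z cc 1 (LA 1 P + LB 1 Q)(z)`.
-/

set_option autoImplicit false

namespace T2

open Polynomial QS2

/-- the design matrix -/
noncomputable def designM (w sg : ℤ → K) (cc : Fin 2 → K) (LA LB : Fin 2 → K[X] →ₗ[K] K[X])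
    (A : ℕ) : Matrix (Nd A) (Fin A ⊕ Fin A) K
  | f, Sum.inl i => (binP K i).eval ((nodeZ A f : ℤ) : K) * w (nodeZ A f)
      + cc 0 * (LA 0 (binP K i)).eval ((nodeZ A f : ℤ) : K)
      + sg (nodeZ A f) * (cc 1 * (LA 1 (binP K i)).eval ((nodeZ A f : ℤ) : K))
  | f, Sum.inr i => (binP K i).eval ((nodeZ A f : ℤ) : K) * w (nodeZ A f + 1)
      + cc 0 * (LB 0 (binP K i)).eval ((nodeZ A f : ℤ) : K)
      + sg (nodeZ A f) * (cc 1 * (LB 1 (binP K i)).eval ((nodeZ A f : ℤ) : K))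

end T2
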