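import Pool.Agent.T2.DesignM

/-!
# T2: the design matrix, rectangular form

`designR w sg cc LA LB N c`: rows = all nodes of `Nd N`, columns = `(C(X,i), 0)`, `(0, C(X,i))`,
`i < c`.
-/

set_option autoImplicit false

namespace T2

open Polynomial QS2

/-- the design matrix with nodes `Nd N` and columns of degree `< c` -/
noncomputable def designR (w sg : ℤ → K) (cc : Fin 2 → K) (LA LB : Fin 2 → K[X] →ₗ[K] K[X])
    (N c : ℕ) : Matrix (Nd N) (Fin c ⊕ Fin c) K
  | f, Sum.inl i => (binP K i).eval ((nodeZ N f : ℤ) : K) * w (nodeZ N f)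
      + cc 0 * (LA 0 (binP K i)).eval ((nodeZ N f : ℤ) : K)
      + sg (nodeZ N f) * (cc 1 * (LA 1 (binP K i)).eval ((nodeZ N f : ℤ) : K))
  | f, Sum.inr i => (binP K i).eval ((nodeZ N f : ℤ) : K) * w (nodeZ N f + 1)
      + cc 0 * (LB 0 (binP K i)).eval ((nodeZ N f : ℤ) : K)
      + sg (nodeZ N f) * (cc 1 * (LB 1 (binP K i)).eval ((nodeZ N f : ℤ) : K))

theorem designM_eq_designR (w sg : ℤ → K) (cc : Fin 2 → K) (LA LB : Fin 2 → K[X] →ₗ[K] K[X])
    (A : ℕ) : designM w sg cc LA LB A = designR w sg cc LA LB A A := by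
  refine Matrix.ext fun f t => ?_
  rcases t with i | i <;> rfl

end T2
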