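import Mathlib

/-!
# T2, module DetRank: the determinant lemmas of the `p`-adic side

* `det_ruleB` : value rows sorted by classes; a class with `s` singular rows costs
  `eC s = 0, 3, 5, 6` (`s = 0, 1, 2, ≥ 3`), an exceptional column costs `3`, and every pair of
  congruent integral rows gains `1`.
* `det_block` : `det (W + N * Φ)` with row and column scalings (the small primes).
-/

set_option autoImplicit false

namespace T2

open Finset Matrix

/-- cost of a class with `s` singular rows -/
def eC (s : ℕ) : ℕ := if s = 0 then 0 else if s = 1 then 3 else if s = 2 then 5 else 6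

theorem eC_zero : eC 0 = 0 := rfl
theorem eC_one : eC 1 = 3 := rfl
theorem eC_two : eC 2 = 5 := rfl
theorem eC_of_three_le {s : ℕ} (h : 3 ≤ s) : eC s = 6 := by
  unfold eC
  rw [if_neg (by omega), if_neg (by omega), if_neg (by omega)]

theorem eC_le_six (s : ℕ) : eC s ≤ 6 := by
  unfold eC; split_ifs <;> norm_num

theorem eC_le_mul (s : ℕ) : eC s ≤ 3 * s := by
  unfold eC; split_ifs <;> omega

theorem eC_mono {s t : ℕ} (h : s ≤ t) : eC s ≤ eC t := by
  unfold eC; split_ifs <;> omega

variable {F : Type*} [Field F]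

/-- a determinant with entries in a subring lies in the subring -/
theorem det_mem_subring (R : Subring F) {ι : Type*} [Fintype ι] [DecidableEq ι]
    (M : Matrix ι ι F) (h : ∀ i j, M i j ∈ R) : M.det ∈ R := by
  rw [Matrix.det_apply']
  apply R.sum_mem
  intro σ _
  exact R.mul_mem (intCast_mem R _) (R.prod_mem (fun i _ => h _ _))

/-! ### Small primes: `det (W + N * Φ)` -/

/-- **Block determinant lemma.** -/
theorem det_block (R : Subring F) {p : F} (hp : p ∈ R) {ι κ : Type*} [Fintype ι]
    [DecidableEq ι] [Fintype κ] [DecidableEq κ] (W : Matrix ι ι F) (N : Matrix ι κ F)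
    (Φ : Matrix κ ι F) (al : ι → ℕ) (be : κ → ℕ) (hW : ∀ i j, p ^ al j * W i j ∈ R)
    (hN : ∀ i e, N i e ∈ R) (hΦ : ∀ e j, p ^ (be e + al j) * Φ e j ∈ R) :
    p ^ ((∑ j, al j) + ∑ e, be e) * (W + N * Φ).det ∈ R := by
  have h1 : (Matrix.fromBlocks W N (-Φ) (1 : Matrix κ κ F)).det = (W + N * Φ).det := by
    rw [Matrix.det_fromBlocks_one₂₂]
    congr 1
    rw [Matrix.mul_neg, sub_neg_eq_add]
  set D1 : ι ⊕ κ → F := Sum.elim (fun _ => 1) (fun e => p ^ be e) with hD1
  set D2 : ι ⊕ κ → F := Sum.elim (fun j => p ^ al j) (fun _ => 1) with hD2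
  have h2 : (Matrix.diagonal D1 * Matrix.fromBlocks W N (-Φ) (1 : Matrix κ κ F) *
      Matrix.diagonal D2).det = p ^ ((∑ j, al j) + ∑ e, be e) * (W + N * Φ).det := by
    rw [Matrix.det_mul, Matrix.det_mul, Matrix.det_diagonal, Matrix.det_diagonal, h1,
      Fintype.prod_sum_type, Fintype.prod_sum_type]
    simp only [hD1, hD2, Sum.elim_inl, Sum.elim_inr, prod_const_one, one_mul, mul_one]
    rw [Finset.prod_pow_eq_pow_sum, Finset.prod_pow_eq_pow_sum, pow_add]
    ring
  rw [← h2]
  apply det_mem_subring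
  rintro (i | e) (j | e')
  · rw [Matrix.mul_diagonal, Matrix.diagonal_mul]
    simp only [hD1, hD2, Sum.elim_inl, Matrix.fromBlocks_apply₁₁, one_mul]
    rw [mul_comm]
    exact hW i j
  · rw [Matrix.mul_diagonal, Matrix.diagonal_mul]
    simp only [hD1, hD2, Sum.elim_inl, Sum.elim_inr, Matrix.fromBlocks_apply₁₂, one_mul, mul_one]
    exact hN i e'
  · rw [Matrix.mul_diagonal, Matrix.diagonal_mul]
    simp only [hD1, hD2, Sum.elim_inl, Sum.elim_inr, Matrix.fromBlocks_apply₂₁, Matrix.neg_apply]
    have := R.neg_mem (hΦ e j)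
    convert this using 1
    rw [pow_add]
    ring
  · rw [Matrix.mul_diagonal, Matrix.diagonal_mul]
    simp only [hD1, hD2, Sum.elim_inr, Matrix.fromBlocks_apply₂₂, mul_one, Matrix.one_apply]
    split_ifs
    · rw [mul_one]; exact R.pow_mem hp _
    · rw [mul_zero]; exact R.zero_mem

/-! ### Counting in one class -/

/-- the weights chosen in one class -/
theorem class_count {ι : Type*} [DecidableEq ι] (s : Finset ι) (f : ι → Fin 4)
    (hf : ∀ i ∈ s, ∀ j ∈ s, i ≠ j → f i = f j → f i = 3) :
    ∑ i ∈ s, (3 - (f i : ℕ)) ≤ eC s.card := by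
  have h6 : ∑ i ∈ s, (3 - (f i : ℕ)) ≤ 6 := by
    rw [← Finset.sum_filter_add_sum_filter_not s (fun i => f i = 3)]
    have h0 : ∑ i ∈ s.filter (fun i => f i = 3), (3 - (f i : ℕ)) = 0 := by
      apply Finset.sum_eq_zero
      intro i hi
      rw [(mem_filter.mp hi).2]
      rfl
    rw [h0, zero_add]
    have hinj : Set.InjOn f (s.filter (fun i => ¬ f i = 3)) := by
      intro i hi j hj hij
      by_contra hne
      have hi' := mem_filter.mp (Finset.mem_coe.mp hi)
      have hj' := mem_filter.mp (Finset.mem_coe.mp hj)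
      exact hi'.2 (hf i hi'.1 j hj'.1 hne hij)
    have e1 : ∑ i ∈ s.filter (fun i => ¬ f i = 3), (3 - (f i : ℕ)) =
        ∑ c ∈ (s.filter (fun i => ¬ f i = 3)).image f, (3 - (c : ℕ)) :=
      (Finset.sum_image (f := fun c : Fin 4 => 3 - (c : ℕ)) hinj).symm
    rw [e1]
    refine (Finset.sum_le_sum_of_subset (Finset.subset_univ _)).trans ?_
    decide
  rcases Nat.lt_or_ge s.card 3 with hc | hc
  · interval_cases hs : s.card
    · rw [Finset.card_eq_zero.mp hs]
      simp
    · obtain ⟨a, ha⟩ := Finset.card_eq_one.mp hs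
      rw [ha, Finset.sum_singleton, eC_one]
      omega
    · obtain ⟨a, b, hab, he⟩ := Finset.card_eq_two.mp hs
      have ha : a ∈ s := by rw [he]; simp
      have hb : b ∈ s := by rw [he]; simp
      rw [he, Finset.sum_pair hab, eC_two]
      by_cases h : f a = f b
      · have h3 := hf a ha b hb hab h
        have h3' : f b = 3 := by rw [← h]; exact h3
        rw [h3, h3']
        norm_num
      · have h' : (f a : ℕ) ≠ f b := fun hh => h (Fin.ext hh)
        omega
  · rw [eC_of_three_le hc]
    exact h6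

/-! ### Expansion along the rows -/

/-- expansion of the determinant of a sum of matrices along the rows -/
theorem det_sum_rows {ι ν : Type*} [Fintype ι] [DecidableEq ι] [Fintype ν] [DecidableEq ν]
    (A : ν → Matrix ι ι F) :
    (∑ k, A k).det = ∑ f : ι → ν, (Matrix.of fun i => A (f i) i).det := by
  have h := (Matrix.detRowAlternating (n := ι) (R := F)).toMultilinearMap.map_sum
    (fun (i : ι) (k : ν) => A k i)
  have e : (∑ k, A k).det = (Matrix.detRowAlternating (n := ι) (R := F)).toMultilinearMap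
      (fun i => ∑ k, A k i) := by
    change _ = Matrix.det _
    congr 1
    ext i j
    rw [Matrix.sum_apply, Finset.sum_apply]
  rw [e, h]
  rfl

/-- two rows proportional to the same vector -/
theorem det_zero_of_smul_rows {ι : Type*} [Fintype ι] [DecidableEq ι] (M : Matrix ι ι F)
    {i i' : ι} (hne : i ≠ i') (v : ι → F) (a b : F) (hi : ∀ j, M i j = a * v j)
    (hi' : ∀ j, M i' j = b * v j) : M.det = 0 := by
  by_cases ha : a = 0
  · apply Matrix.det_eq_zero_of_row_eq_zero i
    intro j
    rw [hi j, ha, zero_mul]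
  · have h := Matrix.det_updateRow_add_smul_self M hne.symm (-(b / a))
    rw [← h]
    apply Matrix.det_eq_zero_of_row_eq_zero i'
    intro j
    rw [Matrix.updateRow_self]
    simp only [Pi.add_apply, Pi.smul_apply, smul_eq_mul, hi, hi']
    field_simp
    ring

/-- **Core**: classes only -/
theorem det_classes_core (R : Subring F) {p : F} (hp : p ∈ R) (hp0 : p ≠ 0) {ι κ : Type*}
    [Fintype ι] [DecidableEq ι] [Fintype κ] [DecidableEq κ] (T : Matrix ι ι F) (S : Finset ι)
    (cl : ι → κ) (x : Fin 3 → ι → F) (G : Fin 3 → κ → ι → F) (B : ι → ι → F)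
    (hx : ∀ c i, x c i ∈ R) (hG : ∀ c a j, G c a j ∈ R) (hB : ∀ i j, B i j ∈ R)
    (hS : ∀ i ∈ S, ∀ j, T i j = ∑ c : Fin 3, p⁻¹ ^ (3 - (c : ℕ)) * (x c i * G c (cl i) j) + B i j)
    (hN : ∀ i, i ∉ S → ∀ j, T i j = B i j) :
    p ^ (∑ a, eC (S.filter (fun i => cl i = a)).card) * T.det ∈ R := by
  -- the four summands
  set A : Fin 4 → Matrix ι ι F := fun c => Matrix.of fun i j =>
    if h : (c : ℕ) < 3 then
      (if i ∈ S then p⁻¹ ^ (3 - (c : ℕ)) * (x ⟨c, h⟩ i * G ⟨c, h⟩ (cl i) j) else 0)
    else B i j with hA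
  have hT : T = ∑ c, A c := by
    ext i j
    rw [Matrix.sum_apply, Fin.sum_univ_four]
    simp only [hA, Matrix.of_apply]
    by_cases hi : i ∈ S
    · rw [hS i hi j, Fin.sum_univ_three]
      simp [hi]
    · rw [hN i hi j]
      simp [hi]
  -- the integral parts
  set A' : Fin 4 → Matrix ι ι F := fun c => Matrix.of fun i j =>
    if h : (c : ℕ) < 3 then
      (if i ∈ S then (x ⟨c, h⟩ i * G ⟨c, h⟩ (cl i) j) else 0)
    else B i j with hA'
  set w : ι → Fin 4 → ℕ := fun i c => if i ∈ S then 3 - (c : ℕ) else 0 with hw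
  have hAA : ∀ i c j, A c i j = p⁻¹ ^ (w i c) * A' c i j := by
    intro i c j
    simp only [hA, hA', hw, Matrix.of_apply]
    by_cases hc : (c : ℕ) < 3
    · by_cases hi : i ∈ S
      · simp [hc, hi]
      · simp [hc, hi]
    · have : (c : ℕ) = 3 := by omega
      simp [this]
  have hA'R : ∀ i c j, A' c i j ∈ R := by
    intro i c j
    simp only [hA', Matrix.of_apply]
    split_ifs
    · exact R.mul_mem (hx _ _) (hG _ _ _)
    · exact R.zero_mem
    · exact hB _ _
  rw [hT, det_sum_rows, Finset.mul_sum]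
  apply R.sum_mem
  intro f _
  by_cases hf : ∀ i ∈ S, ∀ j ∈ S, cl i = cl j → i ≠ j → f i = f j → f i = 3
  · have hdet : (Matrix.of fun i => A (f i) i).det =
        p⁻¹ ^ (∑ i, w i (f i)) * (Matrix.of fun i => A' (f i) i).det := by
      have e1 : (Matrix.of fun i => A (f i) i) =
          Matrix.of fun i j => (p⁻¹ ^ (w i (f i))) * (Matrix.of fun i => A' (f i) i) i j := by
        ext i j
        simp only [Matrix.of_apply]
        exact hAA i (f i) j
      rw [e1, Matrix.det_mul_column, Finset.prod_pow_eq_pow_sum]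
    rw [hdet]
    have hsum : ∑ i, w i (f i) ≤ ∑ a, eC (S.filter (fun i => cl i = a)).card := by
      have e2 : ∑ i, w i (f i) = ∑ i ∈ S, (3 - (f i : ℕ)) := by
        simp only [hw]
        rw [← Finset.sum_filter]
        congr 1
        ext i
        simp
      rw [e2, ← Finset.sum_fiberwise_of_maps_to (s := S) (t := univ) (g := cl)
        (fun i _ => mem_univ _)]
      apply Finset.sum_le_sum
      intro a _
      apply class_count
      intro i hi j hj hne he
      have hi' := mem_filter.mp hi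
      have hj' := mem_filter.mp hj
      exact hf i hi'.1 j hj'.1 (by rw [hi'.2, hj'.2]) hne he
    obtain ⟨k, hk⟩ := Nat.exists_eq_add_of_le hsum
    have e3 : p ^ (∑ a, eC (S.filter (fun i => cl i = a)).card) *
        (p⁻¹ ^ (∑ i, w i (f i)) * (Matrix.of fun i => A' (f i) i).det) =
        p ^ k * (Matrix.of fun i => A' (f i) i).det := by
      rw [hk, pow_add, inv_pow]
      have : p ^ (∑ i, w i (f i)) ≠ 0 := pow_ne_zero _ hp0
      field_simp
    rw [e3]
    refine R.mul_mem (R.pow_mem hp _) (det_mem_subring R _ ?_)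
    intro i j
    exact hA'R i (f i) j
  · push Not at hf
    obtain ⟨i, hi, j, hj, hcl, hne, hfe, hf3⟩ := hf
    have hc : (f i : ℕ) < 3 := by
      have := (f i).2
      have h3 : (f i : ℕ) ≠ 3 := fun h => hf3 (Fin.ext h)
      omega
    have hAS : ∀ l ∈ S, ∀ k, A (f i) l k =
        p⁻¹ ^ (3 - (f i : ℕ)) * x ⟨f i, hc⟩ l * G ⟨f i, hc⟩ (cl l) k := by
      intro l hl k
      simp only [hA, Matrix.of_apply, dif_pos hc, if_pos hl]
      ring
    have hz : (Matrix.of fun i => A (f i) i).det = 0 := by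
      apply det_zero_of_smul_rows _ hne (fun k => G ⟨f i, hc⟩ (cl i) k)
        (p⁻¹ ^ (3 - (f i : ℕ)) * x ⟨f i, hc⟩ i) (p⁻¹ ^ (3 - (f i : ℕ)) * x ⟨f i, hc⟩ j)
      · intro k
        simp only [Matrix.of_apply]
        exact hAS i hi k
      · intro k
        simp only [Matrix.of_apply]
        rw [← hfe, hcl]
        exact hAS j hj k
    rw [hz, mul_zero]
    exact R.zero_mem

/-- subtracting rows: the determinant does not change -/
theorem det_sub_rows {ι : Type*} [Fintype ι] [DecidableEq ι] (T : Matrix ι ι F) (sg : ι → ι)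
    (P : Finset ι) (hP : ∀ i ∈ P, sg i ∉ P) :
    (Matrix.of fun i j => if i ∈ P then T i j - T (sg i) j else T i j).det = T.det := by
  induction P using Finset.induction_on with
  | empty =>
    congr 1
  | insert a P ha ih =>
    have hP' : ∀ i ∈ P, sg i ∉ P := fun i hi h =>
      hP i (mem_insert_of_mem hi) (mem_insert_of_mem h)
    rw [← ih hP']
    set M : Matrix ι ι F := Matrix.of fun i j => if i ∈ P then T i j - T (sg i) j else T i j
      with hM
    have hsa : sg a ∉ insert a P := hP a (mem_insert_self a P)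
    have hsa1 : sg a ≠ a := fun h => hsa (by rw [h]; exact mem_insert_self a P)
    have hsa2 : sg a ∉ P := fun h => hsa (mem_insert_of_mem h)
    rw [← Matrix.det_updateRow_add_smul_self M hsa1.symm (-1)]
    congr 1
    ext i j
    by_cases hia : i = a
    · subst hia
      rw [Matrix.updateRow_self]
      simp only [Matrix.of_apply, mem_insert_self, if_true, Pi.add_apply, Pi.smul_apply,
        smul_eq_mul, hM, if_neg ha, if_neg hsa2]
      ring
    · rw [Matrix.updateRow_ne hia]
      simp only [Matrix.of_apply, hM, mem_insert, hia, false_or]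

/-- **Determinant lemma of rule B** (Lemmas 3 and 4): classes of singular rows, exceptional
columns, and pairs of congruent rows. -/
theorem det_ruleB (R : Subring F) {p : F} (hp : p ∈ R) (hp0 : p ≠ 0) {ι κ : Type*}
    [Fintype ι] [DecidableEq ι] [Fintype κ] [DecidableEq κ] (T : Matrix ι ι F) (S : Finset ι)
    (cl : ι → κ) (x0 x1 x2 : ι → F) (F0 F1 F2 : κ → ι → F) (B : ι → ι → F) (E P : Finset ι)
    (sg : ι → ι) (hx0 : ∀ i ∈ S, x0 i ∈ R) (hx1 : ∀ i ∈ S, x1 i ∈ R) (hx2 : ∀ i ∈ S, x2 i ∈ R)
    (hF0 : ∀ a j, j ∉ E → F0 a j ∈ R) (hF1 : ∀ a j, j ∉ E → F1 a j ∈ R)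
    (hF2 : ∀ a j, j ∉ E → F2 a j ∈ R)
    (hB : ∀ i ∈ S, ∀ j, j ∉ E → B i j ∈ R)
    (hS : ∀ i ∈ S, ∀ j, j ∉ E → p ^ 3 * T i j = x0 i * F0 (cl i) j + p * (x1 i * F1 (cl i) j)
      + p ^ 2 * (x2 i * F2 (cl i) j) + p ^ 3 * B i j)
    (hN : ∀ i, i ∉ S → ∀ j, j ∉ E → T i j ∈ R)
    (hE : ∀ i, ∀ j ∈ E, p ^ 3 * T i j ∈ R)
    (hPS : ∀ i ∈ P, i ∉ S) (hsg : ∀ i ∈ P, sg i ∉ P)
    (hP : ∀ i ∈ P, ∀ j, j ∉ E → ∃ r ∈ R, T i j - T (sg i) j = p * r)
    (hPE : ∀ i ∈ P, ∀ j ∈ E, ∃ r ∈ R, p ^ 3 * (T i j - T (sg i) j) = p * r) :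
    ∃ r ∈ R, p ^ (3 * E.card + ∑ a, eC (S.filter (fun i => cl i = a)).card) * T.det =
      p ^ P.card * r := by
  -- the differences of the pairs
  have hr : ∀ i j, ∃ r, i ∈ P → r ∈ R ∧ (if j ∈ E then p ^ 3 else 1) * (T i j - T (sg i) j) =
      p * r := by
    intro i j
    by_cases hi : i ∈ P
    · by_cases hj : j ∈ E
      · obtain ⟨r, hrR, hr⟩ := hPE i hi j hj
        exact ⟨r, fun _ => ⟨hrR, by rw [if_pos hj]; exact hr⟩⟩
      · obtain ⟨r, hrR, hr⟩ := hP i hi j hj
        exact ⟨r, fun _ => ⟨hrR, by rw [if_neg hj, one_mul]; exact hr⟩⟩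
    · exact ⟨0, fun h => absurd h hi⟩
  choose r hr using hr
  -- the modified matrix
  set T' : Matrix ι ι F := Matrix.of fun i j =>
    if i ∈ P then r i j else (if j ∈ E then p ^ 3 else 1) * T i j with hT'
  have hdet : p ^ P.card * T'.det = p ^ (3 * E.card) * T.det := by
    have e1 : (Matrix.of fun i j => (if i ∈ P then p else 1) * T' i j).det =
        p ^ P.card * T'.det := by
      rw [Matrix.det_mul_column]
      congr 1
      rw [Finset.prod_ite_mem, Finset.univ_inter, Finset.prod_const]
    have e2 : (Matrix.of fun i j => (if j ∈ E then p ^ 3 else 1) *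
        (Matrix.of fun i j => if i ∈ P then T i j - T (sg i) j else T i j) i j).det =
        p ^ (3 * E.card) * T.det := by
      rw [Matrix.det_mul_row, det_sub_rows T sg P hsg]
      congr 1
      rw [Finset.prod_ite_mem, Finset.univ_inter, Finset.prod_const, pow_mul]
    rw [← e1, ← e2]
    congr 1
    ext i j
    simp only [hT', Matrix.of_apply]
    by_cases hi : i ∈ P
    · simp only [if_pos hi]
      exact ((hr i j hi).2).symm
    · simp only [if_neg hi, one_mul]
  refine ⟨p ^ (∑ a, eC (S.filter (fun i => cl i = a)).card) * T'.det, ?_, ?_⟩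
  · have hB' : ∀ i j, i ∉ S → T' i j ∈ R := by
      intro i j hi
      simp only [hT', Matrix.of_apply]
      by_cases hiP : i ∈ P
      · rw [if_pos hiP]
        exact (hr i j hiP).1
      · rw [if_neg hiP]
        by_cases hj : j ∈ E
        · rw [if_pos hj]
          exact hE i j hj
        · rw [if_neg hj, one_mul]
          exact hN i hi j hj
    have hX : ∀ (x : ι → F), (∀ i ∈ S, x i ∈ R) → ∀ i, (if i ∈ S then x i else 0) ∈ R := by
      intro x hx i
      split_ifs with h
      · exact hx i h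
      · exact R.zero_mem
    have hGG : ∀ (G : κ → ι → F), (∀ a j, j ∉ E → G a j ∈ R) → ∀ a j,
        (if j ∈ E then 0 else G a j) ∈ R := by
      intro G hG a j
      split_ifs with h
      · exact R.zero_mem
      · exact hG a j h
    refine det_classes_core R hp hp0 T' S cl
      (fun c i => ![(if i ∈ S then x0 i else 0), (if i ∈ S then x1 i else 0),
        (if i ∈ S then x2 i else 0)] c)
      (fun c a j => ![(if j ∈ E then 0 else F0 a j), (if j ∈ E then 0 else F1 a j),
        (if j ∈ E then 0 else F2 a j)] c)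
      (fun i j => if i ∈ S then (if j ∈ E then p ^ 3 * T i j else B i j) else T' i j)
      ?_ ?_ ?_ ?_ ?_
    · intro c i
      fin_cases c
      · exact hX x0 hx0 i
      · exact hX x1 hx1 i
      · exact hX x2 hx2 i
    · intro c a j
      fin_cases c
      · exact hGG F0 hF0 a j
      · exact hGG F1 hF1 a j
      · exact hGG F2 hF2 a j
    · intro i j
      by_cases hi : i ∈ S
      · simp only [if_pos hi]
        by_cases hj : j ∈ E
        · rw [if_pos hj]; exact hE i j hj
        · rw [if_neg hj]; exact hB i hi j hj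
      · simp only [if_neg hi]
        exact hB' i j hi
    · intro i hi j
      have hiP : i ∉ P := fun h => hPS i h hi
      rw [Fin.sum_univ_three]
      simp only [hT', Matrix.of_apply, if_neg hiP, if_pos hi, Matrix.cons_val_zero,
        Matrix.cons_val_one, Matrix.cons_val_two, Matrix.head_cons, Matrix.tail_cons]
      by_cases hj : j ∈ E
      · simp only [if_pos hj]
        ring
      · simp only [if_neg hj, one_mul]
        have h := hS i hi j hj
        have hp3 : p ^ 3 ≠ 0 := pow_ne_zero _ hp0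
        apply mul_left_cancel₀ hp3
        rw [h]
        simp only [Fin.val_zero, Fin.val_one, Fin.val_two]
        norm_num
        field_simp
    · intro i hi j
      simp only [if_neg hi]
  · rw [pow_add]
    calc p ^ (3 * E.card) * p ^ (∑ a, eC (S.filter (fun i => cl i = a)).card) * T.det
        = p ^ (∑ a, eC (S.filter (fun i => cl i = a)).card) * (p ^ (3 * E.card) * T.det) := by ring
      _ = _ := by rw [← hdet]; ring

end T2
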