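import Pool.Agent.T2.SF1b
import Pool.Agent.T2.SF4

/-!
# T2: the symmetry `S(-1-z) = S(z)` of the sheets

* `IsEven s` : `S(-z) = S(z-1)`, that is `shm s n = (-1)^n s n`;
* `even_sumT` : the sheets are even; `even_sP`, `even_sM`;
* `pp_refl` : `[P(-2-z) S(z)]_+ = [P S(z+1)]_+ (-2-z)`, `pp_refl'` : the other direction.
-/

set_option autoImplicit false

namespace T2

open Finset QS2

/-- `S(-z) = S(z-1)` for `S(z) = ∑ s_n z^{-n}` -/
def IsEven {R : Type*} [CommRing R] (s : ℕ → R) : Prop := ∀ n, shm s n = (-1) ^ n * s n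

theorem IsEven.map {R S : Type*} [CommRing R] [CommRing S] (φ : R →+* S) {s : ℕ → R}
    (h : IsEven s) : IsEven (fun n => φ (s n)) := by
  intro n
  rw [shm_map]
  simp only [h n, map_mul, map_pow, map_neg, map_one]

section ps

open PowerSeries QS2.FV

variable {F : Type*} [Field F]

/-- `V(1/z) ↦ V(-1/z)` -/
noncomputable def ng : PowerSeries F →+* PowerSeries F := rescale (-1 : F)

theorem ng_coeff (V : PowerSeries F) (n : ℕ) : coeff n (ng V) = (-1) ^ n * coeff n V := by
  unfold ng
  rw [coeff_rescale]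

theorem ng_C (a : F) : ng (C a : PowerSeries F) = C a := by
  ext n
  rw [ng_coeff, coeff_C]
  split_ifs with h
  · rw [h, pow_zero, one_mul]
  · rw [mul_zero]

theorem ng_X : ng (X : PowerSeries F) = -X := by
  ext n
  rw [ng_coeff, map_neg, coeff_X]
  split_ifs with h
  · rw [h, pow_one]
    ring
  · rw [mul_zero, neg_zero]

theorem ng_T (m : ℕ) : ng (T F m) = sh (T F m) := by
  have h1 : ng (T F m) * ∏ i ∈ range (m + 1), ((1 + C (i : F) * X) * (1 - C ((i : F) + 1) * X)) =
      C ((m.factorial : F) ^ 2) * X ^ (2 * m + 2) := by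
    have h := congrArg ng (T_mul_den (F := F) m)
    rw [map_mul ng, map_mul ng, ng_C, map_pow ng, ng_X] at h
    have e1 : ng (den F m) =
        ∏ i ∈ range (m + 1), ((1 + C (i : F) * X) * (1 - C ((i : F) + 1) * X)) := by
      unfold den
      rw [map_prod]
      refine Finset.prod_congr rfl fun i _ => ?_
      rw [map_mul, map_add, map_sub, map_mul, map_mul, ng_C, ng_C, ng_X, map_one]
      ring
    have e2 : (-X : PowerSeries F) ^ (2 * m + 2) = X ^ (2 * m + 2) := by
      rw [show 2 * m + 2 = 2 * (m + 1) by ring, pow_mul, pow_mul]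
      congr 1
      ring
    rw [e1, e2] at h
    exact h
  have h2 : sh (T F m) * ∏ i ∈ range (m + 1), ((1 + C (i : F) * X) * (1 - C ((i : F) + 1) * X)) =
      C ((m.factorial : F) ^ 2) * X ^ (2 * m + 2) := by
    have h := congrArg sh (T_mul_den (F := F) m)
    rw [map_mul sh, map_mul sh, sh_C, map_pow sh, sh_X] at h
    have e1 : sh (den F m) * (1 - X) ^ (2 * m + 2) =
        ∏ i ∈ range (m + 1), ((1 + C (i : F) * X) * (1 - C ((i : F) + 1) * X)) := by
      unfold den
      have hc : ((1 - X : PowerSeries F) ^ 2) ^ (m + 1) =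
          ∏ _i ∈ range (m + 1), (1 - X) ^ 2 := by
        rw [Finset.prod_const, Finset.card_range]
      rw [map_prod, show 2 * m + 2 = 2 * (m + 1) by ring, pow_mul, hc,
        ← Finset.prod_mul_distrib]
      refine Finset.prod_congr rfl fun i _ => ?_
      have h1 := sh_lin ((i : F) + 1)
      have h2 := sh_lin' (i : F)
      rw [add_sub_cancel_right] at h1
      rw [map_mul]
      linear_combination (sh (1 - C (i : F) * X) * (1 - X)) * h1 + (1 + C (i : F) * X) * h2
    have e2 : tt F ^ (2 * m + 2) * (1 - X) ^ (2 * m + 2) = X ^ (2 * m + 2) := by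
      rw [← mul_pow, tt_mul]
    rw [← e1]
    linear_combination (1 - X) ^ (2 * m + 2) * h + C ((m.factorial : F) ^ 2) * e2
  have h3 : (∏ i ∈ range (m + 1), ((1 + C (i : F) * X) * (1 - C ((i : F) + 1) * X)) :
      PowerSeries F) ≠ 0 := by
    rw [Finset.prod_ne_zero_iff]
    intro i _
    exact mul_ne_zero (lin_ne _) (lin_ne' _)
  exact mul_right_cancel₀ h3 (h1.trans h2.symm)

theorem even_sumT (κ : ℕ → F) : IsEven (sumT κ) := by
  have h1 : ng (PowerSeries.mk (sumT κ)) - sh (PowerSeries.mk (sumT κ)) = 0 := by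
    apply eq_of_dvd_all
    intro N
    have a := sh_X_pow_dvd (sumT_dvd κ N)
    have b : X ^ N ∣ ng (PowerSeries.mk (sumT κ) - parT κ N) := by
      rw [X_pow_dvd_iff]
      intro n hn
      rw [ng_coeff, X_pow_dvd_iff.1 (sumT_dvd κ N) n hn, mul_zero]
    have c : ng (parT κ N) = sh (parT κ N) := by
      unfold parT
      rw [map_sum, map_sum]
      refine Finset.sum_congr rfl fun m _ => ?_
      rw [map_mul ng, map_mul sh, ng_C, sh_C, ng_T]
    rw [map_sub, c] at b
    rw [map_sub] at a
    have := dvd_sub b a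
    rwa [sub_sub_sub_cancel_right] at this
  intro n
  rw [sub_eq_zero, sh_mk] at h1
  have h2 := congrArg (coeff n) h1
  rw [ng_coeff, coeff_mk, coeff_mk] at h2
  exact h2.symm

end ps

theorem even_sP : IsEven sP := even_sumT _
theorem even_sM : IsEven sM := even_sumT _

section pol

open Polynomial QS2.NV QS2.Cls

variable {F : Type*} [Field F]

/-- `P(-2-z)` -/
noncomputable def rf (P : F[X]) : F[X] := P.comp (-2 - X)

theorem rf_rf (P : F[X]) : rf (rf P) = P := by
  unfold rf
  rw [comp_assoc]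
  have : ((-2 - X : F[X]).comp (-2 - X)) = X := by
    rw [sub_comp, neg_comp, X_comp]
    have : (2 : F[X]).comp (-2 - X) = 2 := by
      have h : (2 : F[X]) = C 2 := by rw [map_ofNat]
      rw [h, C_comp]
    rw [this]
    ring
  rw [this, comp_X]

theorem rf_eval (P : F[X]) (z : F) : (rf P).eval z = P.eval (-2 - z) := by
  unfold rf
  rw [eval_comp]
  simp

theorem coeff_comp_neg (P : F[X]) (i : ℕ) : (P.comp (-X)).coeff i = (-1) ^ i * P.coeff i := by
  induction P using Polynomial.induction_on' with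
  | add p q hp hq => rw [add_comp, coeff_add, coeff_add, hp, hq, mul_add]
  | monomial n a =>
    rw [← C_mul_X_pow_eq_monomial, mul_comp, C_comp, pow_comp, X_comp, neg_pow,
      Polynomial.coeff_C_mul, Polynomial.coeff_C_mul]
    have e : ((-1 : F[X]) ^ n * X ^ n) = C ((-1) ^ n) * X ^ n := by
      rw [map_pow, map_neg, map_one]
    rw [e, Polynomial.coeff_C_mul, coeff_X_pow]
    split_ifs with h
    · rw [h]; ring
    · ring

/-- the sign change `z ↦ -z` -/
theorem pp_neg (s : ℕ → F) (P : F[X]) :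
    QS2.pp (fun n => (-1) ^ n * s n) (P.comp (-X)) = (QS2.pp s P).comp (-X) := by
  ext d
  rw [coeff_comp_neg, pp_coeff s P,
    pp_coeff_of_lt _ (P.comp (-X)) d (P.natDegree + 1) (by
      have : (P.comp (-X)).natDegree ≤ P.natDegree := by
        rw [natDegree_comp, natDegree_neg, natDegree_X, mul_one]
      omega), Finset.mul_sum]
  refine Finset.sum_congr rfl fun i _ => ?_
  rw [coeff_comp_neg]
  split_ifs with h
  · have e : ((-1 : F)) ^ i * (-1) ^ (i - d) = (-1) ^ d := by
      obtain ⟨k, rfl⟩ := Nat.exists_eq_add_of_le h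
      rw [Nat.add_sub_cancel_left, pow_add, mul_assoc, ← pow_add, ← two_mul, pow_mul]
      norm_num
    linear_combination (P.coeff i * s (i - d)) * e
  · ring

/-- the shift `z ↦ z - 1` -/
theorem pp_shift (s : ℕ → F) (P : F[X]) :
    QS2.pp (shm s) (P.comp (X - 1)) = (QS2.pp s P).comp (X - 1) := by
  rw [pp_eq_plus, pp_eq_plus s, ← plus_shL, map_mul, shL_phi, shL_ser, NV.sh_mk, ← shm_eq]

/-- **the reflection** -/
theorem pp_refl {s s1 : ℕ → F} (hs : shm s1 = s) (he : IsEven s) (P : F[X]) :
    QS2.pp s (rf P) = rf (QS2.pp s1 P) := by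
  have h1 : (QS2.pp s (rf P)).comp (-X) = (QS2.pp s1 P).comp (X - 2) := by
    rw [← pp_neg]
    have e1 : (fun n => (-1) ^ n * s n) = shm s := by
      funext n
      exact (he n).symm
    have e2 : (rf P).comp (-X) = (P.comp (X - 1)).comp (X - 1) := by
      unfold rf
      rw [comp_assoc, comp_assoc]
      congr 1
      have h2 : (2 : F[X]) = C 2 := by rw [map_ofNat]
      rw [h2]
      simp only [sub_comp, neg_comp, X_comp, C_comp, one_comp]
      rw [← h2]
      ring
    have e3 : (X - 2 : F[X]) = (X - 1 : F[X]).comp (X - 1) := by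
      rw [sub_comp, X_comp, one_comp]
      ring
    rw [e1, e2, pp_shift, e3, ← comp_assoc]
    congr 1
    rw [← pp_shift, hs]
  have h2 : ((QS2.pp s (rf P)).comp (-X)).comp (-X) = ((QS2.pp s1 P).comp (X - 2)).comp (-X) := by
    rw [h1]
  rw [comp_assoc, comp_assoc] at h2
  have e4 : ((-X : F[X]).comp (-X)) = X := by
    rw [neg_comp, X_comp, neg_neg]
  have e5 : ((X - 2 : F[X]).comp (-X)) = -2 - X := by
    have h3 : (2 : F[X]) = C 2 := by rw [map_ofNat]
    rw [h3, sub_comp, X_comp, C_comp]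
    ring
  rw [e4, comp_X, e5] at h2
  exact h2

theorem pp_refl' {s s1 : ℕ → F} (hs : shm s1 = s) (he : IsEven s) (P : F[X]) :
    QS2.pp s1 (rf P) = rf (QS2.pp s P) := by
  have h := pp_refl hs he (rf P)
  rw [rf_rf] at h
  rw [h, rf_rf]

end pol

end T2
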