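import Mathlib

/-!
# T2, R5: the determinant of the rows `(a_r, b_r)`

`det_split_le` : `|det (a_r | b_r)| ≤ 4^c Ba Bb` if all `c × c` minors of `a`, `b` are bounded by
`Ba`, `Bb`.
-/

set_option autoImplicit false

namespace T2

open Finset Matrix

theorem exists_perm_inl {c : ℕ} (S : Finset (Fin c ⊕ Fin c)) (h : c ≤ S.card) :
    ∃ σ : (Fin c ⊕ Fin c) ≃ (Fin c ⊕ Fin c), ∀ i : Fin c, σ (Sum.inl i) ∈ S := by
  classical
  obtain ⟨T, hT, hTc⟩ := Finset.exists_subset_card_eq h
  have hc : Fintype.card (Fin c) = Fintype.card T := by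
    rw [Fintype.card_fin, Fintype.card_coe, hTc]
  let e : Fin c ≃ T := Fintype.equivOfCardEq hc
  let f : Fin c ⊕ Fin c → Fin c ⊕ Fin c := Sum.elim (fun i => (e i : Fin c ⊕ Fin c)) (fun i => Sum.inr i)
  have h1 := Finset.exists_equiv_extend_of_card_eq (α := Fin c ⊕ Fin c) (β := Fin c ⊕ Fin c)
    (t := Finset.univ) (by simp) (s := Finset.univ.image Sum.inl) (f := f) (Finset.subset_univ _)
    (by
      intro x hx y hy hxy
      simp only [Finset.coe_image, Finset.coe_univ, Set.image_univ, Set.mem_range] at hx hy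
      obtain ⟨i, rfl⟩ := hx
      obtain ⟨j, rfl⟩ := hy
      have : e i = e j := Subtype.ext hxy
      rw [e.injective this])
  obtain ⟨g, hg⟩ := h1
  refine ⟨g.trans ⟨fun x => x.1, fun x => ⟨x, Finset.mem_univ x⟩, fun x => rfl, fun x => rfl⟩, ?_⟩
  intro i
  have h2 := hg (Sum.inl i) (Finset.mem_image_of_mem _ (Finset.mem_univ i))
  change (g (Sum.inl i) : Fin c ⊕ Fin c) ∈ S
  rw [h2]
  exact hT (e i).2

theorem exists_perm_inr {c : ℕ} (S : Finset (Fin c ⊕ Fin c)) (h : S.card ≤ c) :
    ∃ σ : (Fin c ⊕ Fin c) ≃ (Fin c ⊕ Fin c), ∀ i : Fin c, σ (Sum.inr i) ∉ S := by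
  classical
  obtain ⟨σ, hσ⟩ := exists_perm_inl Sᶜ (by
    rw [Finset.card_compl, Fintype.card_sum, Fintype.card_fin]
    omega)
  refine ⟨(Equiv.sumComm (Fin c) (Fin c)).trans σ, fun i => ?_⟩
  have := hσ i
  rw [Finset.mem_compl] at this
  exact this

variable {c : ℕ}

theorem det_piece_le (a b : Fin c ⊕ Fin c → Fin c → ℝ) {Ba Bb : ℝ}
    (ha : ∀ g : Fin c → Fin c ⊕ Fin c, Function.Injective g →
      |(Matrix.of fun i j => a (g i) j).det| ≤ Ba)
    (hb : ∀ g : Fin c → Fin c ⊕ Fin c, Function.Injective g →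
      |(Matrix.of fun i j => b (g i) j).det| ≤ Bb)
    (S : Finset (Fin c ⊕ Fin c)) :
    |(Matrix.of (S.piecewise (fun r => Sum.elim (a r) (0 : Fin c → ℝ))
      (fun r => Sum.elim (0 : Fin c → ℝ) (b r)))).det| ≤ Ba * Bb := by
  classical
  have hBa : 0 ≤ Ba := (abs_nonneg _).trans (ha Sum.inl Sum.inl_injective)
  have hBb : 0 ≤ Bb := (abs_nonneg _).trans (hb Sum.inl Sum.inl_injective)
  set M : Matrix (Fin c ⊕ Fin c) (Fin c ⊕ Fin c) ℝ :=
    Matrix.of (S.piecewise (fun r => Sum.elim (a r) (0 : Fin c → ℝ))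
      (fun r => Sum.elim (0 : Fin c → ℝ) (b r))) with hM
  have hin : ∀ r, r ∈ S → M r = Sum.elim (a r) (0 : Fin c → ℝ) := by
    intro r hr
    funext j
    rw [hM, Matrix.of_apply, Finset.piecewise_eq_of_mem _ _ _ hr]
  have hout : ∀ r, r ∉ S → M r = Sum.elim (0 : Fin c → ℝ) (b r) := by
    intro r hr
    funext j
    rw [hM, Matrix.of_apply, Finset.piecewise_eq_of_notMem _ _ _ hr]
  rcases le_total c S.card with h | h
  · obtain ⟨σ, hσ⟩ := exists_perm_inl S h
    have h1 : M.submatrix σ (Equiv.refl _) =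
        fromBlocks (Matrix.of fun i j => a (σ (Sum.inl i)) j) 0
          (Matrix.of fun i j => M (σ (Sum.inr i)) (Sum.inl j))
          (Matrix.of fun i j => M (σ (Sum.inr i)) (Sum.inr j)) := by
      refine Matrix.ext fun r t => ?_
      rcases r with i | i
      · rcases t with j | j
        · simp [hin _ (hσ i)]
        · simp [hin _ (hσ i)]
      · rcases t with j | j
        · simp
        · simp
    have h2 := Matrix.abs_det_submatrix_equiv_equiv σ (Equiv.refl _) M
    rw [← h2, h1, det_fromBlocks_zero₁₂, abs_mul]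
    have h3 : |(Matrix.of fun i j => a (σ (Sum.inl i)) j).det| ≤ Ba :=
      ha (fun i => σ (Sum.inl i)) (σ.injective.comp Sum.inl_injective)
    have h4 : |(Matrix.of fun i j => M (σ (Sum.inr i)) (Sum.inr j)).det| ≤ Bb := by
      by_cases h5 : ∃ i0, σ (Sum.inr i0) ∈ S
      · obtain ⟨i0, hi0⟩ := h5
        have h6 : (Matrix.of fun i j => M (σ (Sum.inr i)) (Sum.inr j)).det = 0 := by
          apply Matrix.det_eq_zero_of_row_eq_zero i0
          intro j
          rw [Matrix.of_apply, hin _ hi0]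
          rfl
        rw [h6, abs_zero]
        exact hBb
      · push Not at h5
        have h6 : (Matrix.of fun i j => M (σ (Sum.inr i)) (Sum.inr j)) =
            Matrix.of fun i j => b (σ (Sum.inr i)) j := by
          refine Matrix.ext fun i j => ?_
          rw [Matrix.of_apply, Matrix.of_apply, hout _ (h5 i)]
          rfl
        rw [h6]
        exact hb (fun i => σ (Sum.inr i)) (σ.injective.comp Sum.inr_injective)
    exact mul_le_mul h3 h4 (abs_nonneg _) hBa
  · obtain ⟨σ, hσ⟩ := exists_perm_inr S h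
    have h1 : M.submatrix σ (Equiv.refl _) =
        fromBlocks (Matrix.of fun i j => M (σ (Sum.inl i)) (Sum.inl j))
          (Matrix.of fun i j => M (σ (Sum.inl i)) (Sum.inr j)) 0
          (Matrix.of fun i j => b (σ (Sum.inr i)) j) := by
      refine Matrix.ext fun r t => ?_
      rcases r with i | i
      · rcases t with j | j
        · simp
        · simp
      · rcases t with j | j
        · simp [hout _ (hσ i)]
        · simp [hout _ (hσ i)]
    have h2 := Matrix.abs_det_submatrix_equiv_equiv σ (Equiv.refl _) M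
    rw [← h2, h1, det_fromBlocks_zero₂₁, abs_mul]
    have h3 : |(Matrix.of fun i j => b (σ (Sum.inr i)) j).det| ≤ Bb :=
      hb (fun i => σ (Sum.inr i)) (σ.injective.comp Sum.inr_injective)
    have h4 : |(Matrix.of fun i j => M (σ (Sum.inl i)) (Sum.inl j)).det| ≤ Ba := by
      by_cases h5 : ∃ i0, σ (Sum.inl i0) ∉ S
      · obtain ⟨i0, hi0⟩ := h5
        have h6 : (Matrix.of fun i j => M (σ (Sum.inl i)) (Sum.inl j)).det = 0 := by
          apply Matrix.det_eq_zero_of_row_eq_zero i0
          intro j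
          rw [Matrix.of_apply, hout _ hi0]
          rfl
        rw [h6, abs_zero]
        exact hBa
      · push Not at h5
        have h6 : (Matrix.of fun i j => M (σ (Sum.inl i)) (Sum.inl j)) =
            Matrix.of fun i j => a (σ (Sum.inl i)) j := by
          refine Matrix.ext fun i j => ?_
          rw [Matrix.of_apply, Matrix.of_apply, hin _ (h5 i)]
          rfl
        rw [h6]
        exact ha (fun i => σ (Sum.inl i)) (σ.injective.comp Sum.inl_injective)
    exact mul_le_mul h4 h3 (abs_nonneg _) hBa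

/-- **the splitting bound** -/
theorem det_split_le (a b : Fin c ⊕ Fin c → Fin c → ℝ) {Ba Bb : ℝ}
    (ha : ∀ g : Fin c → Fin c ⊕ Fin c, Function.Injective g →
      |(Matrix.of fun i j => a (g i) j).det| ≤ Ba)
    (hb : ∀ g : Fin c → Fin c ⊕ Fin c, Function.Injective g →
      |(Matrix.of fun i j => b (g i) j).det| ≤ Bb) :
    |(Matrix.of fun r => Sum.elim (a r) (b r)).det| ≤ 4 ^ c * (Ba * Bb) := by
  classical
  have h1 : (Matrix.of fun r => Sum.elim (a r) (b r)).det =
      ∑ S : Finset (Fin c ⊕ Fin c), (Matrix.of (S.piecewise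
        (fun r => Sum.elim (a r) (0 : Fin c → ℝ)) (fun r => Sum.elim (0 : Fin c → ℝ) (b r)))).det := by
    have h := (Matrix.detRowAlternating (n := Fin c ⊕ Fin c) (R := ℝ)).toMultilinearMap.map_add_univ
      (fun r => Sum.elim (a r) (0 : Fin c → ℝ)) (fun r => Sum.elim (0 : Fin c → ℝ) (b r))
    have e : ((fun r => Sum.elim (a r) (0 : Fin c → ℝ)) + fun r => Sum.elim (0 : Fin c → ℝ) (b r)) =
        fun r => Sum.elim (a r) (b r) := by
      funext r t
      rcases t with j | j
      · simp
      · simp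
    rw [e] at h
    exact h
  rw [h1]
  refine (Finset.abs_sum_le_sum_abs _ _).trans ?_
  refine (Finset.sum_le_card_nsmul _ _ _ fun S _ => det_piece_le a b ha hb S).trans ?_
  rw [Finset.card_univ, Fintype.card_finset, Fintype.card_sum, Fintype.card_fin, nsmul_eq_mul]
  push_cast
  have e : (2 : ℝ) ^ (c + c) = 4 ^ c := by
    rw [← two_mul, pow_mul]
    norm_num
  rw [e]

end T2
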