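import Pool.Agent.T2.DesignG
import Pool.Agent.T2.Even
import Pool.Agent.T2.SplitDet

/-!
# T2, module R5: the factorization of the determinant

* `rwA`, `rwB` : the linear functionals `P ↦` entry, `Q ↦` entry of the design at a node;
* `rwA_refl`, `rwB_refl` : the reflection `z ↦ -2 - z`;
* `blk σ z P = rwA z P + σ rwB z (P(-2-X))`, `blk_refl`;
* `detF_le` : the bound of the determinant by the two block determinants.
-/

set_option autoImplicit false

namespace T2

open Finset Polynomial QS2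

section rows

variable (F : Type*) [Field F] [CharZero F]

/-- `P ↦ P(z) w_z - x1 [P S+]_+(z) - sgn(z) x3 [P S-]_+(z)` -/
noncomputable def rwA (x : Fin 4 → ℤ) (s : Fin 2 → ℕ → ℚ) (z : ℤ) : F[X] →ₗ[F] F :=
  ((wZ x z : ℚ) : F) • leval (z : F)
    - (x 1 : F) • (leval (z : F)).comp (ppL fun m => ((s 0 m : ℚ) : F))
    - (((sgn z : ℚ) : F) * (x 3 : F)) • (leval (z : F)).comp (ppL fun m => ((s 1 m : ℚ) : F))

/-- `Q ↦ Q(z) w_{z+1} - x1 [Q S+(z+1)]_+(z) + sgn(z) x3 [Q S-(z+1)]_+(z)` -/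
noncomputable def rwB (x : Fin 4 → ℤ) (s1 : Fin 2 → ℕ → ℚ) (z : ℤ) : F[X] →ₗ[F] F :=
  ((wZ x (z + 1) : ℚ) : F) • leval (z : F)
    - (x 1 : F) • (leval (z : F)).comp (ppL fun m => ((s1 0 m : ℚ) : F))
    + (((sgn z : ℚ) : F) * (x 3 : F)) • (leval (z : F)).comp (ppL fun m => ((s1 1 m : ℚ) : F))

theorem rwA_apply (x : Fin 4 → ℤ) (s : Fin 2 → ℕ → ℚ) (z : ℤ) (P : F[X]) :
    rwA F x s z P = P.eval (z : F) * ((wZ x z : ℚ) : F)
      - (x 1 : F) * (pp (fun m => ((s 0 m : ℚ) : F)) P).eval (z : F)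
      - ((sgn z : ℚ) : F) * ((x 3 : F) * (pp (fun m => ((s 1 m : ℚ) : F)) P).eval (z : F)) := by
  simp only [rwA, LinearMap.sub_apply, LinearMap.smul_apply, LinearMap.comp_apply, leval_apply,
    ppL_apply, smul_eq_mul]
  ring

theorem rwB_apply (x : Fin 4 → ℤ) (s1 : Fin 2 → ℕ → ℚ) (z : ℤ) (P : F[X]) :
    rwB F x s1 z P = P.eval (z : F) * ((wZ x (z + 1) : ℚ) : F)
      - (x 1 : F) * (pp (fun m => ((s1 0 m : ℚ) : F)) P).eval (z : F)
      + ((sgn z : ℚ) : F) * ((x 3 : F) * (pp (fun m => ((s1 1 m : ℚ) : F)) P).eval (z : F)) := by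
  simp only [rwB, LinearMap.add_apply, LinearMap.sub_apply, LinearMap.smul_apply,
    LinearMap.comp_apply, leval_apply, ppL_apply, smul_eq_mul]
  ring

theorem designF_inl (x : Fin 4 → ℤ) (s s1 : Fin 2 → ℕ → ℚ) (A c : ℕ) (f : Nd A) (i : Fin c) :
    designF F x s s1 A c f (Sum.inl i) = rwA F x s (nodeZ A f) (binP F i) := by
  rw [rwA_apply]
  rfl

theorem designF_inr (x : Fin 4 → ℤ) (s s1 : Fin 2 → ℕ → ℚ) (A c : ℕ) (f : Nd A) (i : Fin c) :
    designF F x s s1 A c f (Sum.inr i) = rwB F x s1 (nodeZ A f) (binP F i) := by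
  rw [rwB_apply]
  rfl

theorem wZ_refl (x : Fin 4 → ℤ) (z : ℤ) : wZ x (-1 - z) = wZ x z := by
  unfold wZ
  exact two_refl _ z

theorem sgn_refl {z : ℤ} (hz : 0 ≤ z) : sgn (-2 - z) = - sgn z := by
  obtain ⟨n, rfl⟩ := Int.eq_ofNat_of_zero_le hz
  have e : -2 - (n : ℤ) = -1 - ((n + 1 : ℕ) : ℤ) := by push_cast; ring
  unfold sgn
  rw [e, two_neg, two_nat, pow_succ]
  ring

variable {F}

/-- hypotheses on the two rational sheets -/
structure EvenSheets (s s1 : Fin 2 → ℕ → ℚ) : Prop where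
  shift : ∀ j, shm (s1 j) = s j
  even : ∀ j, IsEven (s j)

theorem EvenSheets.shiftF {s s1 : Fin 2 → ℕ → ℚ} (h : EvenSheets s s1) (j : Fin 2) :
    shm (fun m => ((s1 j m : ℚ) : F)) = fun m => ((s j m : ℚ) : F) := by
  have h1 := shm_map (Rat.castHom F) (s1 j)
  rw [h.shift j] at h1
  exact h1

theorem EvenSheets.evenF {s s1 : Fin 2 → ℕ → ℚ} (h : EvenSheets s s1) (j : Fin 2) :
    IsEven (fun m => ((s j m : ℚ) : F)) := (h.even j).map (Rat.castHom F)

/-- **reflection of the `P`-row** -/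
theorem rwA_refl {x : Fin 4 → ℤ} {s s1 : Fin 2 → ℕ → ℚ} (h : EvenSheets s s1) {z : ℤ}
    (hz : 0 ≤ z) (P : F[X]) : rwA F x s (-2 - z) P = rwB F x s1 z (rf P) := by
  rw [rwA_apply, rwB_apply, pp_refl' (h.shiftF 0) (h.evenF 0), pp_refl' (h.shiftF 1) (h.evenF 1),
    rf_eval, rf_eval, rf_eval, sgn_refl hz]
  have e : (-2 - z : ℤ) = -1 - (z + 1) := by ring
  have e2 : wZ x (-2 - z) = wZ x (z + 1) := by rw [e, wZ_refl]
  rw [e2]
  push_cast
  ring

/-- **reflection of the `Q`-row** -/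
theorem rwB_refl {x : Fin 4 → ℤ} {s s1 : Fin 2 → ℕ → ℚ} (h : EvenSheets s s1) {z : ℤ}
    (hz : 0 ≤ z) (P : F[X]) : rwB F x s1 (-2 - z) P = rwA F x s z (rf P) := by
  rw [rwA_apply, rwB_apply, pp_refl (h.shiftF 0) (h.evenF 0), pp_refl (h.shiftF 1) (h.evenF 1),
    rf_eval, rf_eval, rf_eval, sgn_refl hz]
  have e : (-2 - z + 1 : ℤ) = -1 - z := by ring
  have e2 : wZ x (-2 - z + 1) = wZ x z := by rw [e, wZ_refl]
  rw [e2]
  push_cast
  ring

/-- the block functional -/
noncomputable def blk (F : Type*) [Field F] [CharZero F] (x : Fin 4 → ℤ) (s s1 : Fin 2 → ℕ → ℚ)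
    (σ : F) (z : ℤ) (P : F[X]) : F := rwA F x s z P + σ * rwB F x s1 z (rf P)

theorem blk_refl {x : Fin 4 → ℤ} {s s1 : Fin 2 → ℕ → ℚ} (h : EvenSheets s s1) {z : ℤ}
    (hz : 0 ≤ z) {σ : F} (hσ : σ ^ 2 = 1) (P : F[X]) :
    blk F x s s1 σ (-2 - z) P = σ * blk F x s s1 σ z P := by
  unfold blk
  rw [rwA_refl h hz, rwB_refl h hz, rf_rf]
  linear_combination (-(rwB F x s1 z (rf P))) * hσ

end rows

/-! ## Change of basis -/

section basis

variable {F : Type*} [Field F] [CharZero F]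

/-- `(X + 1)^j` -/
noncomputable def BB (F : Type*) [Field F] (j : ℕ) : F[X] := (X + 1) ^ j

theorem rf_BB (j : ℕ) : rf (BB F j) = (-1 - X) ^ j := by
  unfold rf BB
  rw [pow_comp, add_comp, X_comp, one_comp]
  congr 1
  ring

/-- expansion in powers of `l`, `l' ∘ l = X` -/
theorem expand {c : ℕ} {p l l' : F[X]} (hl : l'.comp l = X) (hl' : l'.natDegree ≤ 1)
    (hp : p.natDegree < c) : p = ∑ j ∈ range c, C ((p.comp l').coeff j) * l ^ j := by
  have h1 : (p.comp l').natDegree < c := by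
    refine lt_of_le_of_lt natDegree_comp_le ?_
    calc p.natDegree * l'.natDegree ≤ p.natDegree * 1 := Nat.mul_le_mul_left _ hl'
      _ < c := by rw [mul_one]; exact hp
  have h2 : (p.comp l').comp l = p := by rw [comp_assoc, hl, comp_X]
  conv_lhs => rw [← h2, (p.comp l').as_sum_range' c h1]
  rw [Polynomial.sum_comp]
  refine Finset.sum_congr rfl fun j _ => ?_
  rw [monomial_comp]

theorem binP_natDegree (i : ℕ) : (binP F i).natDegree = i :=
  natDegree_eq_of_degree_eq_some (NV.binP_degree i)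

theorem binP_lead (i : ℕ) : (binP F i).leadingCoeff = ((i.factorial : F))⁻¹ := by
  unfold binP
  rw [leadingCoeff_mul, leadingCoeff_C, (monic_descPochhammer F i).leadingCoeff, mul_one]

/-- the triangular matrix of the expansion -/
noncomputable def TT (F : Type*) [Field F] (c : ℕ) (l' : F[X]) : Matrix (Fin c) (Fin c) F :=
  Matrix.of fun i j => ((binP F i).comp l').coeff j

theorem det_TT {c : ℕ} {l' : F[X]} (hl' : l'.natDegree = 1) :
    (TT F c l').det = ∏ i : Fin c, (((i : ℕ).factorial : F))⁻¹ * l'.leadingCoeff ^ (i : ℕ) := by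
  have h : (TT F c l').BlockTriangular OrderDual.toDual := by
    intro i j hij
    have hij' : (i : ℕ) < (j : ℕ) := hij
    unfold TT
    rw [Matrix.of_apply]
    apply coeff_eq_zero_of_natDegree_lt
    rw [natDegree_comp, hl', binP_natDegree, mul_one]
    exact hij'
  rw [Matrix.det_of_isLowerTriangular _ h]
  refine Finset.prod_congr rfl fun i _ => ?_
  unfold TT
  rw [Matrix.of_apply]
  have h1 : ((binP F i).comp l').natDegree = (i : ℕ) := by
    rw [natDegree_comp, hl', binP_natDegree, mul_one]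
  have h2 := leadingCoeff_comp (p := binP F i) (q := l') (by rw [hl']; exact one_ne_zero)
  rw [leadingCoeff, h1, binP_lead, binP_natDegree] at h2
  exact h2

/-- the matrix in the basis `(X+1)^j`, `(-1-X)^j` -/
noncomputable def MB {ι : Type*} (c : ℕ) (LA LB : ι → F[X] →ₗ[F] F) :
    Matrix ι (Fin c ⊕ Fin c) F :=
  Matrix.of fun r t => Sum.elim (fun j : Fin c => LA r (BB F j)) (fun j : Fin c => LB r (rf (BB F j))) t

theorem comp_l1 : ((X - 1 : F[X])).comp (X + 1) = X := by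
  rw [sub_comp, X_comp, one_comp]
  ring

theorem comp_l2 : ((-1 - X : F[X])).comp (-1 - X) = X := by
  rw [sub_comp, neg_comp, X_comp, one_comp]
  ring

theorem deg_l1 : ((X - 1 : F[X])).natDegree = 1 := by
  rw [← C_1]
  exact natDegree_X_sub_C 1

theorem lead_l1 : ((X - 1 : F[X])).leadingCoeff = 1 := by
  rw [← C_1]
  exact leadingCoeff_X_sub_C 1

theorem l2_eq : (-1 - X : F[X]) = -(X + C 1) := by
  rw [C_1]
  ring

theorem deg_l2 : ((-1 - X : F[X])).natDegree = 1 := by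
  rw [l2_eq, natDegree_neg, natDegree_X_add_C]

theorem lead_l2 : ((-1 - X : F[X])).leadingCoeff = -1 := by
  rw [l2_eq, leadingCoeff_neg, leadingCoeff_X_add_C]

theorem change {c : ℕ} (LA LB : Fin c ⊕ Fin c → F[X] →ₗ[F] F) :
    (Matrix.of fun r t => Sum.elim (fun i : Fin c => LA r (binP F i))
      (fun i : Fin c => LB r (binP F i)) t) =
    MB c LA LB * Matrix.fromBlocks (TT F c (X - 1)).transpose 0 0
      (TT F c (-1 - X)).transpose := by
  refine Matrix.ext fun r t => ?_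
  rw [Matrix.mul_apply, Fintype.sum_sum_type]
  rcases t with i | i
  · simp only [Matrix.of_apply, Sum.elim_inl, Matrix.fromBlocks_apply₁₁,
      Matrix.fromBlocks_apply₂₁, Matrix.zero_apply, mul_zero, Finset.sum_const_zero, add_zero,
      Matrix.transpose_apply, MB]
    have h := expand (F := F) (c := c) (p := binP F i) comp_l1 deg_l1.le
      (by rw [binP_natDegree]; exact i.2)
    conv_lhs => rw [h]
    rw [map_sum, Finset.sum_range]
    refine Finset.sum_congr rfl fun j _ => ?_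
    rw [← smul_eq_C_mul, map_smul, smul_eq_mul, mul_comm]
    rfl
  · simp only [Matrix.of_apply, Sum.elim_inr, Matrix.fromBlocks_apply₁₂,
      Matrix.fromBlocks_apply₂₂, Matrix.zero_apply, mul_zero, Finset.sum_const_zero, zero_add,
      Matrix.transpose_apply, MB]
    have h := expand (F := F) (c := c) (p := binP F i) comp_l2 deg_l2.le
      (by rw [binP_natDegree]; exact i.2)
    conv_lhs => rw [h]
    rw [map_sum, Finset.sum_range]
    refine Finset.sum_congr rfl fun j _ => ?_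
    rw [← smul_eq_C_mul, map_smul, smul_eq_mul, mul_comm, rf_BB]
    rfl

/-- sums and differences of the two halves -/
noncomputable def MS {ι : Type*} (c : ℕ) (LA LB : ι → F[X] →ₗ[F] F) :
    Matrix ι (Fin c ⊕ Fin c) F :=
  Matrix.of fun r t => Sum.elim (fun j : Fin c => LA r (BB F j) + LB r (rf (BB F j)))
    (fun j : Fin c => LA r (BB F j) - LB r (rf (BB F j))) t

theorem MS_eq {c : ℕ} (LA LB : Fin c ⊕ Fin c → F[X] →ₗ[F] F) :
    MS c LA LB = MB c LA LB * Matrix.fromBlocks 1 1 1 (-1) := by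
  refine Matrix.ext fun r t => ?_
  rw [Matrix.mul_apply, Fintype.sum_sum_type]
  rcases t with i | i
  · simp [MS, MB, Matrix.one_apply, Finset.sum_ite_eq']
  · simp [MS, MB, Matrix.one_apply, Finset.sum_ite_eq']
    ring

theorem det_sig (c : ℕ) : (Matrix.fromBlocks (1 : Matrix (Fin c) (Fin c) F) (1 : Matrix (Fin c) (Fin c) F)
    (1 : Matrix (Fin c) (Fin c) F) (-1 : Matrix (Fin c) (Fin c) F)).det =
    (-2) ^ c := by
  rw [Matrix.det_fromBlocks_one₁₁]
  have e : (-1 - 1 * 1 : Matrix (Fin c) (Fin c) F) = (-2 : F) • 1 := by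
    rw [mul_one]
    refine Matrix.ext fun i j => ?_
    simp only [Matrix.sub_apply, Matrix.neg_apply, Matrix.smul_apply, smul_eq_mul]
    ring
  rw [e, Matrix.det_smul, Matrix.det_one, mul_one, Fintype.card_fin]

/-- **the determinant in the basis of the sums and differences** -/
theorem det_change {c : ℕ} (LA LB : Fin c ⊕ Fin c → F[X] →ₗ[F] F) :
    (Matrix.of fun r t => Sum.elim (fun i : Fin c => LA r (binP F i))
      (fun i : Fin c => LB r (binP F i)) t).det * (-2) ^ c =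
    (MS c LA LB).det * ((∏ i : Fin c, (((i : ℕ).factorial : F))⁻¹) *
      ∏ i : Fin c, (((i : ℕ).factorial : F))⁻¹ * (-1) ^ (i : ℕ)) := by
  rw [change, MS_eq, Matrix.det_mul, Matrix.det_mul, det_sig, Matrix.det_fromBlocks_zero₂₁,
    Matrix.det_transpose, Matrix.det_transpose, det_TT deg_l1, det_TT deg_l2, lead_l1, lead_l2]
  simp only [one_pow, mul_one]
  ring

end basis

/-! ## The bound -/

/-- the mirrored right node -/
def mir' {A : ℕ} : Nd A → Fin A
  | Sum.inl i => i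
  | Sum.inr i => i

theorem nodeZ_inr (A : ℕ) (i : Fin A) : nodeZ A (Sum.inr i) = -2 - nodeZ A (Sum.inl i) := by
  change -3 - (i : ℤ) = -2 - ((i : ℤ) + 1)
  ring

theorem nodeZ_inl_nonneg (A : ℕ) (i : Fin A) : 0 ≤ nodeZ A (Sum.inl i) := by
  change 0 ≤ (i : ℤ) + 1
  omega

theorem blk_node {x : Fin 4 → ℤ} {s s1 : Fin 2 → ℕ → ℚ} (h : EvenSheets s s1) {A : ℕ}
    {σ : ℝ} (hσ : σ = 1 ∨ σ = -1) (f : Nd A) : ∃ ε : ℝ, |ε| = 1 ∧ ∀ P : ℝ[X],
    blk ℝ x s s1 σ (nodeZ A f) P = ε * blk ℝ x s s1 σ (nodeZ A (Sum.inl (mir' f))) P := by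
  rcases f with i | i
  · refine ⟨1, abs_one, fun P => ?_⟩
    rw [one_mul]
    rfl
  · refine ⟨σ, ?_, fun P => ?_⟩
    · rcases hσ with rfl | rfl
      · exact abs_one
      · rw [abs_neg, abs_one]
    · rw [nodeZ_inr, blk_refl h (nodeZ_inl_nonneg A i) (by rcases hσ with rfl | rfl <;> norm_num)]
      rfl

theorem det_blk_le {x : Fin 4 → ℤ} {s s1 : Fin 2 → ℕ → ℚ} (h : EvenSheets s s1) {A c : ℕ}
    {σ : ℝ} (hσ : σ = 1 ∨ σ = -1) {B : ℝ} (hB0 : 0 ≤ B)
    (hB : ∀ g : Fin c → Fin A, Function.Injective g →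
      |(Matrix.of fun i j : Fin c => blk ℝ x s s1 σ (nodeZ A (Sum.inl (g i))) (BB ℝ j)).det| ≤ B)
    (f : Fin c → Nd A) :
    |(Matrix.of fun i j : Fin c => blk ℝ x s s1 σ (nodeZ A (f i)) (BB ℝ j)).det| ≤ B := by
  choose ε hε1 hε2 using fun i => blk_node (x := x) h hσ (f i)
  have e : (Matrix.of fun i j : Fin c => blk ℝ x s s1 σ (nodeZ A (f i)) (BB ℝ j)) =
      Matrix.diagonal ε * Matrix.of fun i j : Fin c =>
        blk ℝ x s s1 σ (nodeZ A (Sum.inl (mir' (f i)))) (BB ℝ j) := by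
    refine Matrix.ext fun i j => ?_
    rw [Matrix.diagonal_mul, Matrix.of_apply, Matrix.of_apply, hε2 i]
  rw [e, Matrix.det_mul, Matrix.det_diagonal, abs_mul, Finset.abs_prod,
    Finset.prod_congr rfl fun i _ => hε1 i, Finset.prod_const_one, one_mul]
  by_cases hinj : Function.Injective fun i => mir' (f i)
  · exact hB _ hinj
  · have h1 : ∃ i j, i ≠ j ∧ mir' (f i) = mir' (f j) := by
      by_contra hcon
      push Not at hcon
      apply hinj
      intro i j hij
      by_contra hne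
      exact hcon i j hne hij
    obtain ⟨i, j, hne, hij⟩ := h1
    have h2 : (Matrix.of fun i j : Fin c =>
        blk ℝ x s s1 σ (nodeZ A (Sum.inl (mir' (f i)))) (BB ℝ j)).det = 0 := by
      apply Matrix.det_zero_of_row_eq hne
      funext k
      rw [Matrix.of_apply, Matrix.of_apply, hij]
    rw [h2, abs_zero]
    exact hB0

/-- **R5.** The determinant is bounded by the two block determinants. -/
theorem detF_le {x : Fin 4 → ℤ} {s s1 : Fin 2 → ℕ → ℚ} (h : EvenSheets s s1) {A c : ℕ}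
    {B1 B2 : ℝ} (h1 : 0 ≤ B1) (h2 : 0 ≤ B2)
    (hB1 : ∀ g : Fin c → Fin A, Function.Injective g →
      |(Matrix.of fun i j : Fin c => blk ℝ x s s1 1 (nodeZ A (Sum.inl (g i))) (BB ℝ j)).det| ≤ B1)
    (hB2 : ∀ g : Fin c → Fin A, Function.Injective g →
      |(Matrix.of fun i j : Fin c =>
        blk ℝ x s s1 (-1) (nodeZ A (Sum.inl (g i))) (BB ℝ j)).det| ≤ B2)
    (e : Fin c ⊕ Fin c → Nd A) :
    |((designF ℝ x s s1 A c).submatrix e id).det| ≤
      2 ^ c * ((∏ i : Fin c, (((i : ℕ).factorial : ℝ))⁻¹) ^ 2 * (B1 * B2)) := by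
  set LA : Fin c ⊕ Fin c → ℝ[X] →ₗ[ℝ] ℝ := fun r => rwA ℝ x s (nodeZ A (e r)) with hLA
  set LB : Fin c ⊕ Fin c → ℝ[X] →ₗ[ℝ] ℝ := fun r => rwB ℝ x s1 (nodeZ A (e r)) with hLB
  have e1 : (designF ℝ x s s1 A c).submatrix e id =
      Matrix.of fun r t => Sum.elim (fun i : Fin c => LA r (binP ℝ i))
        (fun i : Fin c => LB r (binP ℝ i)) t := by
    refine Matrix.ext fun r t => ?_
    rcases t with i | i
    · rw [Matrix.submatrix_apply, id, designF_inl]
      rfl
    · rw [Matrix.submatrix_apply, id, designF_inr]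
      rfl
  have e2 := det_change LA LB
  rw [← e1] at e2
  have e3 : MS c LA LB = Matrix.of fun r => Sum.elim
      (fun j : Fin c => blk ℝ x s s1 1 (nodeZ A (e r)) (BB ℝ j))
      (fun j : Fin c => blk ℝ x s s1 (-1) (nodeZ A (e r)) (BB ℝ j)) := by
    refine Matrix.ext fun r t => ?_
    rcases t with j | j
    · simp only [MS, Matrix.of_apply, Sum.elim_inl, blk, hLA, hLB]
      ring
    · simp only [MS, Matrix.of_apply, Sum.elim_inr, blk, hLA, hLB]
      ring
  have h3 := det_split_le (c := c)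
    (fun r j => blk ℝ x s s1 1 (nodeZ A (e r)) (BB ℝ j))
    (fun r j => blk ℝ x s s1 (-1) (nodeZ A (e r)) (BB ℝ j)) (Ba := B1) (Bb := B2)
    (fun g _ => det_blk_le h (Or.inl rfl) h1 hB1 fun i => e (g i))
    (fun g _ => det_blk_le h (Or.inr rfl) h2 hB2 fun i => e (g i))
  rw [← e3] at h3
  have h4 := congrArg abs e2
  rw [abs_mul, abs_mul, abs_mul, abs_pow, abs_neg, abs_two, Finset.abs_prod, Finset.abs_prod] at h4
  have h5 : ∀ i : Fin c, |(((i : ℕ).factorial : ℝ))⁻¹| = (((i : ℕ).factorial : ℝ))⁻¹ := fun i =>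
    abs_of_nonneg (by positivity)
  have h6 : ∀ i : Fin c, |(((i : ℕ).factorial : ℝ))⁻¹ * (-1) ^ (i : ℕ)| =
      (((i : ℕ).factorial : ℝ))⁻¹ := fun i => by
    rw [abs_mul, abs_pow, abs_neg, abs_one, one_pow, mul_one, h5]
  rw [Finset.prod_congr rfl fun i _ => h5 i, Finset.prod_congr rfl fun i _ => h6 i] at h4
  have h7 : (0 : ℝ) < 2 ^ c := by positivity
  have h8 : |((designF ℝ x s s1 A c).submatrix e id).det| * 2 ^ c ≤
      (2 ^ c * ((∏ i : Fin c, (((i : ℕ).factorial : ℝ))⁻¹) ^ 2 * (B1 * B2))) * 2 ^ c := by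
    rw [h4]
    have h9 : (0 : ℝ) ≤ (∏ i : Fin c, (((i : ℕ).factorial : ℝ))⁻¹) *
        ∏ i : Fin c, (((i : ℕ).factorial : ℝ))⁻¹ := by positivity
    refine (mul_le_mul_of_nonneg_right h3 h9).trans (le_of_eq ?_)
    have e4 : (4 : ℝ) ^ c = 2 ^ c * 2 ^ c := by
      rw [← mul_pow]
      norm_num
    rw [e4]
    ring
  exact le_of_mul_le_mul_right h8 h7

/-- the two sheets of the design -/
theorem evenSheets_PM : EvenSheets ![sP, sM] ![sP1, sM1] := by
  constructor
  · intro j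
    fin_cases j
    · exact isSheet_P.shift
    · exact isSheet_M.shift
  · intro j
    fin_cases j
    · exact even_sP
    · exact even_sM

end T2
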