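import Pool.Agent.T2.DesignC
import Pool.Agent.T2.Factor

/-!
# T2, module R5 for the concrete determinant `detC`
-/

set_option autoImplicit false

namespace T2

open Finset Polynomial QS2

theorem evenSheets_sQ : EvenSheets sQ sQ1 := evenSheets_PM

/-- **R5** for `detC` -/
theorem detC_le {x : Fin 4 → ℤ} {A c : ℕ} {B1 B2 : ℝ} (h1 : 0 ≤ B1) (h2 : 0 ≤ B2)
    (hB1 : ∀ g : Fin c → Fin A, Function.Injective g →
      |(Matrix.of fun i j : Fin c => blk ℝ x sQ sQ1 1 (nodeZ A (Sum.inl (g i))) (BB ℝ j)).det| ≤ B1)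
    (hB2 : ∀ g : Fin c → Fin A, Function.Injective g →
      |(Matrix.of fun i j : Fin c =>
        blk ℝ x sQ sQ1 (-1) (nodeZ A (Sum.inl (g i))) (BB ℝ j)).det| ≤ B2)
    (e : Fin c ⊕ Fin c → Nd A) :
    |((detC x A c e : ℚ) : ℝ)| ≤
      2 ^ c * ((∏ i : Fin c, (((i : ℕ).factorial : ℝ))⁻¹) ^ 2 * (B1 * B2)) := by
  rw [detC_cast ℝ]
  exact detF_le evenSheets_sQ h1 h2 hB1 hB2 e

end T2
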