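import Mathlib

/-!
# T2: the final inequality (generic core)

A nonzero rational number `D` with `p ^ e_p D` integral at every prime `p` satisfies
`log |D| + ∑ e_p log p ≥ 0`.  Together with `∑ e_p log p ≤ S A²`, `|D| ≤ exp (- E A² + O(A log A))`
and `S < E` this is a contradiction.
-/

set_option autoImplicit false

namespace Pool.Agent.T2

open Finset Filter

/-- a rational number whose denominator has no prime divisor is an integer of absolute value at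
least one, unless it is zero -/
theorem one_le_abs_of_den {q : ℚ} (hq : q ≠ 0) (h : ∀ p : ℕ, p.Prime → ¬ p ∣ q.den) :
    1 ≤ |(q : ℝ)| := by
  have h1 : q.den = 1 := by
    by_contra hne
    obtain ⟨p, hp, hpd⟩ := Nat.exists_prime_and_dvd hne
    exact h p hp hpd
  have h2 : ((q.num : ℤ) : ℚ) = q := Rat.coe_int_num_of_den_eq_one h1
  have h3 : q.num ≠ 0 := Rat.num_ne_zero.2 hq
  have h4 : (1 : ℤ) ≤ |q.num| := Int.one_le_abs h3
  have h5 : (q : ℝ) = ((q.num : ℤ) : ℝ) := by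
    rw [← h2]
    push_cast
    simp
  rw [h5, ← Int.cast_abs]
  exact_mod_cast h4

theorem not_dvd_den_mul {p : ℕ} {a b : ℚ} (ha : a.den = 1) (hb : ¬ p ∣ b.den) :
    ¬ p ∣ (a * b).den := by
  intro h
  have h1 : (a * b).den ∣ a.den * b.den := Rat.mul_den_dvd a b
  rw [ha, one_mul] at h1
  exact hb (h.trans h1)

/-- the product formula as an inequality -/
theorem log_nonneg_of_den {D : ℚ} (hD : D ≠ 0) (N : ℕ) (e : ℕ → ℕ)
    (h : ∀ p : ℕ, p.Prime → ¬ p ∣ ((p : ℚ) ^ e p * D).den)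
    (h0 : ∀ p : ℕ, p.Prime → N < p → e p = 0) :
    0 ≤ Real.log |(D : ℝ)| + ∑ p ∈ (Ioc 0 N).filter Nat.Prime, (e p : ℝ) * Real.log p := by
  set s := (Ioc 0 N).filter Nat.Prime with hs
  set M : ℕ := ∏ p ∈ s, p ^ e p with hM
  have hpos : ∀ p ∈ s, 0 < p := fun p hp => (Finset.mem_filter.1 hp).2.pos
  have hM0 : M ≠ 0 := by
    rw [hM]
    exact Finset.prod_ne_zero_iff.2 fun p hp => pow_ne_zero _ (hpos p hp).ne'
  have hden : ∀ p : ℕ, p.Prime → ¬ p ∣ ((M : ℚ) * D).den := by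
    intro p hp
    by_cases hps : p ∈ s
    · have h1 : (M : ℚ) * D = ((∏ q ∈ s.erase p, q ^ e q : ℕ) : ℚ) * ((p : ℚ) ^ e p * D) := by
        rw [hM, ← Finset.mul_prod_erase s (fun q => q ^ e q) hps]
        push_cast
        ring
      rw [h1]
      exact not_dvd_den_mul (Rat.den_natCast _) (h p hp)
    · have h1 : e p = 0 := by
        apply h0 p hp
        by_contra hle
        exact hps (Finset.mem_filter.2 ⟨Finset.mem_Ioc.2 ⟨hp.pos, not_lt.1 hle⟩, hp⟩)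
      have h2 := h p hp
      rw [h1, pow_zero, one_mul] at h2
      exact not_dvd_den_mul (Rat.den_natCast _) h2
  have h3 := one_le_abs_of_den (mul_ne_zero (by exact_mod_cast hM0) hD) hden
  have hMR : (0 : ℝ) < (M : ℝ) := by exact_mod_cast Nat.pos_of_ne_zero hM0
  have hDR : (0 : ℝ) < |(D : ℝ)| := abs_pos.2 (by exact_mod_cast hD)
  rw [Rat.cast_mul, abs_mul, Rat.cast_natCast, abs_of_pos hMR] at h3
  have h4 := Real.log_le_log one_pos h3
  rw [Real.log_one, Real.log_mul hMR.ne' hDR.ne'] at h4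
  have h5 : Real.log (M : ℝ) = ∑ p ∈ s, (e p : ℝ) * Real.log p := by
    rw [hM]
    push_cast
    rw [Real.log_prod]
    · exact Finset.sum_congr rfl fun p _ => Real.log_pow _ _
    · intro p hp
      have := hpos p hp
      positivity
  rw [h5] at h4
  linarith

theorem log_le_eps (C : ℝ) {ε : ℝ} (hε : 0 < ε) :
    ∀ᶠ A : ℕ in atTop, C * (A : ℝ) * Real.log ((A : ℝ) + 1) ≤ ε * (A : ℝ) ^ 2 := by
  have h1 : (fun x : ℝ => Real.log x) =o[atTop] fun x : ℝ => x := Real.isLittleO_log_id_atTop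
  have h2 : ∀ᶠ x : ℝ in atTop, ‖Real.log x‖ ≤ (ε / (2 * (|C| + 1))) * ‖x‖ :=
    h1.def (by positivity)
  have h3 : Tendsto (fun A : ℕ => (A : ℝ) + 1) atTop atTop :=
    tendsto_natCast_atTop_atTop.atTop_add tendsto_const_nhds
  filter_upwards [h3.eventually h2, eventually_ge_atTop 1] with A hA hA1
  have hA0 : (1 : ℝ) ≤ (A : ℝ) := by exact_mod_cast hA1
  have hlog : 0 ≤ Real.log ((A : ℝ) + 1) := Real.log_nonneg (by linarith)
  rw [Real.norm_eq_abs, Real.norm_eq_abs, abs_of_nonneg hlog,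
    abs_of_pos (show (0 : ℝ) < (A : ℝ) + 1 by linarith)] at hA
  have hC : 0 < |C| + 1 := by positivity
  have h4 : Real.log ((A : ℝ) + 1) ≤ (ε / (2 * (|C| + 1))) * (2 * A) :=
    hA.trans (mul_le_mul_of_nonneg_left (show (A : ℝ) + 1 ≤ 2 * A by linarith) (by positivity))
  have h5 : (ε / (2 * (|C| + 1))) * (2 * (A : ℝ)) = ε * A / (|C| + 1) := by
    field_simp
  rw [h5] at h4
  calc C * (A : ℝ) * Real.log ((A : ℝ) + 1) ≤ (|C| + 1) * (A : ℝ) * Real.log ((A : ℝ) + 1) := by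
        apply mul_le_mul_of_nonneg_right _ hlog
        apply mul_le_mul_of_nonneg_right _ (by linarith)
        have := le_abs_self C
        linarith
    _ ≤ (|C| + 1) * (A : ℝ) * (ε * A / (|C| + 1)) :=
        mul_le_mul_of_nonneg_left h4 (by positivity)
    _ = ε * (A : ℝ) ^ 2 := by
        field_simp

/-- **the final inequality**: `D A j` are the rational determinants (`j` = the variants among which
one is nonzero), `e A p` the exponents of the denominators, `B A` a bound of the primes. -/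
theorem final_core {ι : Type*} (D : ℕ → ι → ℚ) {E S : ℝ} (hES : S < E) (B : ℕ → ℕ)
    (e : ℕ → ℕ → ℕ)
    (harch : ∃ C : ℝ, ∀ᶠ A : ℕ in atTop, ∀ j,
      |(D A j : ℝ)| ≤ Real.exp (- E * (A : ℝ) ^ 2 + C * A * Real.log ((A : ℝ) + 1)))
    (hsum : ∀ᶠ A : ℕ in atTop,
      ∑ p ∈ (Ioc 0 (B A)).filter Nat.Prime, (e A p : ℝ) * Real.log p ≤ S * (A : ℝ) ^ 2)
    (h0 : ∀ᶠ A : ℕ in atTop, ∀ p : ℕ, p.Prime → B A < p → e A p = 0)
    (hint : ∀ᶠ A : ℕ in atTop, ∀ j, ∀ p : ℕ, p.Prime → ¬ p ∣ ((p : ℚ) ^ e A p * D A j).den)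
    (hne : ∃ᶠ A : ℕ in atTop, ∃ j, D A j ≠ 0) : False := by
  obtain ⟨C, hC⟩ := harch
  have hlog := log_le_eps C (show (0 : ℝ) < (E - S) / 2 by linarith)
  obtain ⟨A, ⟨j, hj⟩, h1, h2, h3, h4, h5, h6⟩ := (hne.and_eventually (hC.and (hsum.and (h0.and
    (hint.and (hlog.and (eventually_ge_atTop 1))))))).exists
  have key := log_nonneg_of_den hj (B A) (e A) (fun p hp => h4 j p hp) h3
  have hDR : (0 : ℝ) < |(D A j : ℝ)| := abs_pos.2 (by exact_mod_cast hj)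
  have h7 := Real.log_le_log hDR (h1 j)
  rw [Real.log_exp] at h7
  have hA0 : (1 : ℝ) ≤ (A : ℝ) := by exact_mod_cast h6
  have hA2 : (0 : ℝ) < (A : ℝ) ^ 2 := by positivity
  nlinarith

/-! ### integer exponents -/

theorem not_dvd_den_mul' {p : ℕ} (hp : p.Prime) {a b : ℚ} (ha : ¬ p ∣ a.den)
    (hb : ¬ p ∣ b.den) : ¬ p ∣ (a * b).den := by
  intro h
  rcases (hp.dvd_mul).1 (h.trans (Rat.mul_den_dvd a b)) with h1 | h1
  · exact ha h1
  · exact hb h1

theorem not_dvd_den_zpow {p q : ℕ} (hp : p.Prime) (hq : q.Prime) (hpq : p ≠ q) (z : ℤ) :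
    ¬ p ∣ ((q : ℚ) ^ z).den := by
  have h1 : ¬ p ∣ q := fun h => hpq ((Nat.prime_dvd_prime_iff_eq hp hq).1 h)
  rcases Int.eq_nat_or_neg z with ⟨n, rfl | rfl⟩
  · rw [zpow_natCast, ← Nat.cast_pow, Rat.den_natCast]
    exact hp.one_lt.ne' ∘ Nat.dvd_one.1
  · rw [zpow_neg, zpow_natCast, ← Nat.cast_pow, Rat.inv_natCast_den_of_pos (pow_pos hq.pos n)]
    exact fun h => h1 (hp.dvd_of_dvd_pow h)

theorem not_dvd_den_prod {p : ℕ} (hp : p.Prime) (s : Finset ℕ) (e : ℕ → ℤ)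
    (hs : ∀ q ∈ s, q.Prime ∧ p ≠ q) : ¬ p ∣ (∏ q ∈ s, (q : ℚ) ^ e q).den := by
  classical
  induction s using Finset.induction_on with
  | empty =>
    rw [Finset.prod_empty, Rat.den_one]
    exact hp.one_lt.ne' ∘ Nat.dvd_one.1
  | insert a s ha ih =>
    rw [Finset.prod_insert ha]
    refine not_dvd_den_mul' hp ?_ (ih fun q hq => hs q (Finset.mem_insert_of_mem hq))
    have := hs a (Finset.mem_insert_self a s)
    exact not_dvd_den_zpow hp this.1 this.2 _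

/-- the product formula as an inequality, integer exponents -/
theorem log_nonneg_of_den_int {D : ℚ} (hD : D ≠ 0) (N : ℕ) (e : ℕ → ℤ)
    (h : ∀ p : ℕ, p.Prime → ¬ p ∣ ((p : ℚ) ^ e p * D).den)
    (h0 : ∀ p : ℕ, p.Prime → N < p → e p = 0) :
    0 ≤ Real.log |(D : ℝ)| + ∑ p ∈ (Ioc 0 N).filter Nat.Prime, (e p : ℝ) * Real.log p := by
  classical
  set s := (Ioc 0 N).filter Nat.Prime with hs
  have hprime : ∀ p ∈ s, p.Prime := fun p hp => (Finset.mem_filter.1 hp).2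
  set M : ℚ := ∏ p ∈ s, (p : ℚ) ^ e p with hM
  have hM0 : 0 < M := by
    rw [hM]
    exact Finset.prod_pos fun p hp => zpow_pos (by exact_mod_cast (hprime p hp).pos) _
  have hden : ∀ p : ℕ, p.Prime → ¬ p ∣ (M * D).den := by
    intro p hp
    by_cases hps : p ∈ s
    · have h1 : M * D = (∏ q ∈ s.erase p, (q : ℚ) ^ e q) * ((p : ℚ) ^ e p * D) := by
        rw [hM, ← Finset.mul_prod_erase s (fun q => (q : ℚ) ^ e q) hps]
        ring
      rw [h1]
      refine not_dvd_den_mul' hp (not_dvd_den_prod hp _ _ fun q hq => ?_) (h p hp)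
      rw [Finset.mem_erase] at hq
      exact ⟨hprime q hq.2, fun h => hq.1 h.symm⟩
    · have h1 : e p = 0 := by
        apply h0 p hp
        by_contra hle
        exact hps (Finset.mem_filter.2 ⟨Finset.mem_Ioc.2 ⟨hp.pos, not_lt.1 hle⟩, hp⟩)
      have h2 := h p hp
      rw [h1, zpow_zero, one_mul] at h2
      refine not_dvd_den_mul' hp (not_dvd_den_prod hp _ _ fun q hq => ?_) h2
      exact ⟨hprime q hq, fun h => hps (h ▸ hq)⟩
  have h3 := one_le_abs_of_den (mul_ne_zero hM0.ne' hD) hden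
  have hMR : (0 : ℝ) < (M : ℝ) := by exact_mod_cast hM0
  have hDR : (0 : ℝ) < |(D : ℝ)| := abs_pos.2 (by exact_mod_cast hD)
  rw [Rat.cast_mul, abs_mul, abs_of_pos hMR] at h3
  have h4 := Real.log_le_log one_pos h3
  rw [Real.log_one, Real.log_mul hMR.ne' hDR.ne'] at h4
  have h5 : Real.log (M : ℝ) = ∑ p ∈ s, (e p : ℝ) * Real.log p := by
    rw [hM]
    push_cast
    rw [Real.log_prod]
    · exact Finset.sum_congr rfl fun p _ => Real.log_zpow _ _
    · intro p hp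
      have : (0 : ℝ) < (p : ℝ) := by exact_mod_cast (hprime p hp).pos
      positivity
  rw [h5] at h4
  linarith

/-- **the final inequality**, integer exponents, variants `j : ι A` depending on `A` -/
theorem final_core_dep {ι : ℕ → Type*} (D : (A : ℕ) → ι A → ℚ) {E S : ℝ} (hES : S < E)
    (B : ℕ → ℕ) (e : ℕ → ℕ → ℤ)
    (harch : ∃ C : ℝ, ∀ᶠ A : ℕ in atTop, ∀ j,
      |(D A j : ℝ)| ≤ Real.exp (- E * (A : ℝ) ^ 2 + C * A * Real.log ((A : ℝ) + 1)))
    (hsum : ∀ᶠ A : ℕ in atTop,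
      ∑ p ∈ (Ioc 0 (B A)).filter Nat.Prime, (e A p : ℝ) * Real.log p ≤ S * (A : ℝ) ^ 2)
    (h0 : ∀ᶠ A : ℕ in atTop, ∀ p : ℕ, p.Prime → B A < p → e A p = 0)
    (hint : ∀ᶠ A : ℕ in atTop, ∀ j, ∀ p : ℕ, p.Prime → ¬ p ∣ ((p : ℚ) ^ e A p * D A j).den)
    (hne : ∃ᶠ A : ℕ in atTop, ∃ j, D A j ≠ 0) : False := by
  obtain ⟨C, hC⟩ := harch
  have hlog := log_le_eps C (show (0 : ℝ) < (E - S) / 2 by linarith)
  obtain ⟨A, ⟨j, hj⟩, h1, h2, h3, h4, h5, h6⟩ := (hne.and_eventually (hC.and (hsum.and (h0.and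
    (hint.and (hlog.and (eventually_ge_atTop 1))))))).exists
  have key := log_nonneg_of_den_int hj (B A) (e A) (fun p hp => h4 j p hp) h3
  have hDR : (0 : ℝ) < |(D A j : ℝ)| := abs_pos.2 (by exact_mod_cast hj)
  have h7 := Real.log_le_log hDR (h1 j)
  rw [Real.log_exp] at h7
  have hA0 : (1 : ℝ) ≤ (A : ℝ) := by exact_mod_cast h6
  have hA2 : (0 : ℝ) < (A : ℝ) ^ 2 := by positivity
  nlinarith

/-- **the final inequality**, integer exponents -/
theorem final_core_int {ι : Type*} (D : ℕ → ι → ℚ) {E S : ℝ} (hES : S < E) (B : ℕ → ℕ)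
    (e : ℕ → ℕ → ℤ)
    (harch : ∃ C : ℝ, ∀ᶠ A : ℕ in atTop, ∀ j,
      |(D A j : ℝ)| ≤ Real.exp (- E * (A : ℝ) ^ 2 + C * A * Real.log ((A : ℝ) + 1)))
    (hsum : ∀ᶠ A : ℕ in atTop,
      ∑ p ∈ (Ioc 0 (B A)).filter Nat.Prime, (e A p : ℝ) * Real.log p ≤ S * (A : ℝ) ^ 2)
    (h0 : ∀ᶠ A : ℕ in atTop, ∀ p : ℕ, p.Prime → B A < p → e A p = 0)
    (hint : ∀ᶠ A : ℕ in atTop, ∀ j, ∀ p : ℕ, p.Prime → ¬ p ∣ ((p : ℚ) ^ e A p * D A j).den)
    (hne : ∃ᶠ A : ℕ in atTop, ∃ j, D A j ≠ 0) : False :=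
  final_core_dep (ι := fun _ => ι) D hES B e harch hsum h0 hint hne

/-! ### other forms of the integrality condition -/

theorem not_dvd_den_of_norm {p : ℕ} [hp : Fact p.Prime] {q : ℚ} (h : ‖(q : ℚ_[p])‖ ≤ 1) :
    ¬ p ∣ q.den := by
  intro hdvd
  have h1 := PadicInt.isUnit_den q h
  rw [PadicInt.isUnit_iff] at h1
  have h2 : ‖((q.den : ℤ) : ℤ_[p])‖ < 1 :=
    (PadicInt.norm_int_lt_one_iff_dvd _).2 (by exact_mod_cast hdvd)
  rw [Int.cast_natCast, h1] at h2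
  exact lt_irrefl _ h2

end Pool.Agent.T2
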