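import Pool.Agent.T2.Fin0

/-!
# T2: from integer relations to linear independence over the rationals
-/

set_option autoImplicit false

namespace Pool.Agent.T2

/-- no nontrivial integer relation means linear independence over `ℚ` -/
theorem linearIndependent_of_int {a b c : ℝ}
    (h : ∀ x y z t : ℤ, (x : ℝ) + y * a + z * b + t * c = 0 → x = 0 ∧ y = 0 ∧ z = 0 ∧ t = 0) :
    LinearIndependent ℚ ![(1 : ℝ), a, b, c] := by
  rw [← LinearIndependent.iff_fractionRing ℤ ℚ, Fintype.linearIndependent_iff]
  intro g hg
  simp only [Fin.sum_univ_four, Matrix.cons_val_zero, Matrix.cons_val_one, Matrix.cons_val,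
    zsmul_eq_mul, mul_one] at hg
  obtain ⟨h0, h1, h2, h3⟩ := h (g 0) (g 1) (g 2) (g 3) hg
  intro i
  fin_cases i
  · exact h0
  · exact h1
  · exact h2
  · exact h3

end Pool.Agent.T2
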