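import Pool.Agent.T2.Fin0

/-!
# T2: the measure, generic deduction

`D x n j` are rational numbers depending on an integer vector `x`, with denominators bounded
uniformly in `x`; `θ x` is a linear form. If small `θ x` makes the `D x n j` small then `θ x` is
bounded below by a power of the height.
-/

set_option autoImplicit false

namespace Pool.Agent.T2

open Finset Filter

theorem exists_threshold {a C b K₁ : ℝ} (ha : 0 < a) (hb : 0 ≤ b) (hK₁ : b / a < K₁) :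
    ∀ᶠ A : ℕ in atTop, ∀ L : ℝ, 0 ≤ L → K₁ * L ≤ A →
      b * A * L + C * A * Real.log ((A : ℝ) + 1) < a * (A : ℝ) ^ 2 := by
  have hK0 : 0 < K₁ := (div_nonneg hb ha.le).trans_lt hK₁
  have hd : 0 < a - b / K₁ := by
    rw [sub_pos, div_lt_iff₀ hK0]
    rw [div_lt_iff₀ ha] at hK₁
    linarith
  filter_upwards [log_le_eps C (show (0 : ℝ) < (a - b / K₁) / 2 by linarith),
    eventually_ge_atTop 1] with A hA hA1 L hL hLA
  have hA0 : (1 : ℝ) ≤ (A : ℝ) := by exact_mod_cast hA1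
  have h1 : L ≤ A / K₁ := by
    rw [le_div_iff₀ hK0]
    linarith
  have h2 : b * A * L ≤ b * A * (A / K₁) := by
    apply mul_le_mul_of_nonneg_left h1
    positivity
  have h3 : b * A * (A / K₁) = b / K₁ * (A : ℝ) ^ 2 := by
    field_simp
  have h4 : 0 < (a - b / K₁) * (A : ℝ) ^ 2 := by positivity
  have h5 : (a - b / K₁) * (A : ℝ) ^ 2 = a * (A : ℝ) ^ 2 - b / K₁ * (A : ℝ) ^ 2 := by ring
  linarith

/-- **the generic measure** -/
theorem measure_core {V : Type*} {ι : ℕ → Type*} (D : V → (n : ℕ) → ι n → ℚ) (θ ht : V → ℝ)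
    (good : V → Prop) {E S K C k : ℝ} {m : ℕ} (hES : S < E) (hK : 0 < K)
    (hk : m * K / (E - S) < k) (B : ℕ → ℕ) (e : ℕ → ℕ → ℤ)
    (hht : ∀ x, good x → 1 ≤ ht x)
    (harch : ∀ᶠ n : ℕ in atTop, ∀ x, good x → |θ x| ≤ Real.exp (- K * n) → ∀ j,
      |(D x n j : ℝ)| ≤ ht x ^ (m * n) * Real.exp (- E * (n : ℝ) ^ 2 +
        C * n * Real.log ((n : ℝ) + 1)))
    (hsum : ∀ᶠ n : ℕ in atTop,
      ∑ p ∈ (Ioc 0 (B n)).filter Nat.Prime, (e n p : ℝ) * Real.log p ≤ S * (n : ℝ) ^ 2)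
    (h0 : ∀ᶠ n : ℕ in atTop, ∀ p : ℕ, p.Prime → B n < p → e n p = 0)
    (hint : ∀ᶠ n : ℕ in atTop, ∀ x, good x → ∀ j, ∀ p : ℕ, p.Prime →
      ¬ p ∣ ((p : ℚ) ^ e n p * D x n j).den)
    (hne : ∀ᶠ n : ℕ in atTop, ∀ x, good x → ∃ j, D x n j ≠ 0) :
    ∃ c : ℝ, 0 < c ∧ ∀ x, good x → c * ht x ^ (- k) ≤ |θ x| := by
  have hES' : 0 < E - S := by linarith
  have hK₁ : (m : ℝ) / (E - S) < k / K := by
    rw [lt_div_iff₀ hK]
    calc (m : ℝ) / (E - S) * K = m * K / (E - S) := by ring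
      _ < k := hk
  have hK₁0 : 0 < k / K := lt_of_le_of_lt (by positivity) hK₁
  obtain ⟨n0, hn0⟩ := eventually_atTop.1 (harch.and (hsum.and (h0.and (hint.and (hne.and
    (exists_threshold (C := C) hES' (Nat.cast_nonneg m) hK₁))))))
  set K₁ : ℝ := k / K with hK₁def
  have hkK : k = K * K₁ := by rw [hK₁def]; field_simp
  refine ⟨Real.exp (- K * ((n0 : ℝ) + 1)), Real.exp_pos _, fun x hx => ?_⟩
  have hH := hht x hx
  have hH0 : 0 < ht x := by linarith
  have hL : 0 ≤ Real.log (ht x) := Real.log_nonneg hH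
  by_contra hlt
  rw [not_le] at hlt
  -- the parameter
  set A : ℕ := n0 + ⌈K₁ * Real.log (ht x)⌉₊ with hA
  have hA1 : K₁ * Real.log (ht x) ≤ A := by
    have h1 := Nat.le_ceil (K₁ * Real.log (ht x))
    rw [hA]
    push_cast
    have : (0 : ℝ) ≤ n0 := Nat.cast_nonneg _
    linarith
  have hA2 : (A : ℝ) ≤ (n0 : ℝ) + 1 + K₁ * Real.log (ht x) := by
    have h1 := (Nat.ceil_lt_add_one (mul_nonneg hK₁0.le hL)).le
    rw [hA]
    push_cast
    linarith
  obtain ⟨g1, g2, g3, g4, g5, g6⟩ := hn0 A (by rw [hA]; exact Nat.le_add_right _ _)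
  have hθ : |θ x| ≤ Real.exp (- K * A) := by
    refine hlt.le.trans ?_
    rw [Real.rpow_def_of_pos hH0, ← Real.exp_add]
    apply Real.exp_le_exp.2
    have h2 : K * A ≤ K * ((n0 : ℝ) + 1 + K₁ * Real.log (ht x)) :=
      mul_le_mul_of_nonneg_left hA2 hK.le
    rw [hkK]
    nlinarith
  obtain ⟨j, hj⟩ := g5 x hx
  have key := log_nonneg_of_den_int hj (B A) (e A) (fun p hp => g4 x hx j p hp) g3
  have hDR : (0 : ℝ) < |(D x A j : ℝ)| := abs_pos.2 (by exact_mod_cast hj)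
  have h7 := Real.log_le_log hDR (g1 x hx hθ j)
  rw [Real.log_mul (by positivity) (Real.exp_pos _).ne', Real.log_exp, Real.log_pow] at h7
  have h8 := g6 (Real.log (ht x)) hL hA1
  push_cast at h7
  nlinarith

end Pool.Agent.T2
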