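import Pool.Agent.T2.NVLd
import Pool.Agent.T2.DesignC

/-!
# T2: non-vanishing of `detC`
-/

set_option autoImplicit false

namespace T2

open QS2

/-- **Non-vanishing.** If one of the two inhomogeneous sheets occurs (`x 1 ≠ 0` or `x 3 ≠ 0`), then
for every `c` and every `A ≥ c + 11` some `2 c` of the `2 A` rows have a nonzero determinant. -/
theorem nonvan_C (x : Fin 4 → ℤ) (hx : x 1 ≠ 0 ∨ x 3 ≠ 0) {A c : ℕ} (hA : c + 11 ≤ A) :
    ∃ e : Fin c ⊕ Fin c → Nd A, Function.Injective e ∧ detC x A c e ≠ 0 :=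
  NV.nonvan x hx isSheet_P isSheet_M hA

end T2
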