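import Pool.Agent.T2.SLsum

/-!
# T2, limit part 3: the constants

`∑ 1/(2t+1)^2 = π^2/8` and `∑ β_t h_t = (3/2) L(2, χ_{-3})`.
-/

set_option autoImplicit false

namespace T2

open Finset Filter Topology MeasureTheory Set

/-- `L(2, χ_{-3}) = ∑ (1/(3k+1)^2 - 1/(3k+2)^2)` -/
noncomputable def L3 : ℝ := ∑' k : ℕ, (1 / (3 * (k : ℝ) + 1) ^ 2 - 1 / (3 * (k : ℝ) + 2) ^ 2)

lemma summable_sq_lin {a b : ℝ} (ha : 0 < a) (hb : 0 < b) :
    Summable (fun k : ℕ => 1 / (a * (k : ℝ) + b) ^ 2) := by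
  have h1 : Summable (fun k : ℕ => (1 / (min a b) ^ 2) * (1 / ((k : ℝ) + 1) ^ 2)) := by
    have := (summable_nat_add_iff 1).mpr (Real.summable_one_div_nat_pow.mpr (by norm_num : 1 < 2))
    have h3 : Summable (fun t : ℕ => 1 / ((t : ℝ) + 1) ^ 2) := by simpa using this
    exact h3.mul_left _
  have hm : 0 < min a b := lt_min ha hb
  refine Summable.of_nonneg_of_le (fun k => by positivity) (fun k => ?_) h1
  rw [div_mul_div_comm, one_mul, ← mul_pow]
  refine div_le_div_of_nonneg_left (by norm_num) (by positivity) ?_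
  refine pow_le_pow_left₀ (by positivity) ?_ 2
  have h2 : min a b * (k : ℝ) ≤ a * k := mul_le_mul_of_nonneg_right (min_le_left _ _) (by positivity)
  have h3 : min a b ≤ b := min_le_right _ _
  nlinarith

/-- `∑ 1/(2t+1)^2 = π^2/8` -/
lemma tsum_odd : ∑' t : ℕ, 1 / (2 * (t : ℝ) + 1) ^ 2 = Real.pi ^ 2 / 8 := by
  have h1 : HasSum (fun n : ℕ => 1 / (n : ℝ) ^ 2) (Real.pi ^ 2 / 6) := hasSum_zeta_two
  have hev : HasSum (fun n : ℕ => 1 / ((2 * n : ℕ) : ℝ) ^ 2) (1 / 4 * (Real.pi ^ 2 / 6)) := by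
    refine (h1.mul_left (1 / 4)).congr_fun (fun n => ?_)
    push_cast
    rw [mul_pow]
    ring
  have hod : HasSum (fun n : ℕ => 1 / ((2 * n + 1 : ℕ) : ℝ) ^ 2)
      (∑' t : ℕ, 1 / (2 * (t : ℝ) + 1) ^ 2) := by
    have := (summable_sq_lin (a := 2) (b := 1) (by norm_num) (by norm_num)).hasSum
    refine this.congr_fun (fun n => ?_)
    push_cast
    rfl
  have h2 := HasSum.even_add_odd (f := fun n : ℕ => 1 / (n : ℝ) ^ 2) hev hod
  have h3 := h2.unique h1
  linarith

/-! ### integrals -/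

/-- `∫_0^1 x^n (-log x) dx = 1/(n+1)^2` with integrability -/
lemma int_pow_log (n : ℕ) : IntervalIntegrable (fun x : ℝ => x ^ n * (-Real.log x)) volume 0 1 ∧
    ∫ x in (0 : ℝ)..1, x ^ n * (-Real.log x) = 1 / ((n : ℝ) + 1) ^ 2 := by
  have hI : IntervalIntegrable (fun x : ℝ => x ^ n * (-Real.log x)) volume 0 1 := by
    have h1 : IntervalIntegrable (fun x : ℝ => -Real.log x) volume 0 1 :=
      (intervalIntegral.intervalIntegrable_log' (a := 0) (b := 1)).neg
    exact h1.continuousOn_mul ((continuous_pow n).continuousOn)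
  refine ⟨hI, ?_⟩
  set F : ℝ → ℝ := fun x => x ^ (n + 1) / ((n : ℝ) + 1) ^ 2 - x ^ n * (x * Real.log x) / ((n : ℝ) + 1)
    with hF
  have hcont : ContinuousOn F (Icc 0 1) := by
    have : Continuous F := by
      refine Continuous.sub ((continuous_pow _).div_const _) (Continuous.div_const ?_ _)
      exact (continuous_pow n).mul Real.continuous_mul_log
    exact this.continuousOn
  have hder : ∀ x ∈ Ioo (0 : ℝ) 1, HasDerivAt F (x ^ n * (-Real.log x)) x := by
    intro x hx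
    have hx0 : x ≠ 0 := hx.1.ne'
    have e1 : HasDerivAt (fun x : ℝ => x ^ (n + 1) / ((n : ℝ) + 1) ^ 2)
        ((((n + 1 : ℕ) : ℝ) * x ^ n) / ((n : ℝ) + 1) ^ 2) x :=
      (hasDerivAt_pow (n + 1) x).div_const _
    have e2 : HasDerivAt (fun x : ℝ => x ^ (n + 1) * Real.log x)
        (((n + 1 : ℕ) : ℝ) * x ^ n * Real.log x + x ^ (n + 1) * x⁻¹) x :=
      (hasDerivAt_pow (n + 1) x).mul (Real.hasDerivAt_log hx0)
    have e3 := e1.sub (e2.div_const ((n : ℝ) + 1))
    have hfun : F = fun x : ℝ => x ^ (n + 1) / ((n : ℝ) + 1) ^ 2 -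
        x ^ (n + 1) * Real.log x / ((n : ℝ) + 1) := by
      ext y
      simp only [hF]
      rw [pow_succ]
      ring
    rw [hfun]
    refine e3.congr_deriv ?_
    have hn : ((n : ℝ) + 1) ≠ 0 := by positivity
    have e4 : x ^ (n + 1) * x⁻¹ = x ^ n := by
      rw [pow_succ, mul_assoc, mul_inv_cancel₀ hx0, mul_one]
    rw [e4]
    push_cast
    field_simp
    ring
  have h := intervalIntegral.integral_eq_sub_of_hasDerivAt_of_le (by norm_num : (0 : ℝ) ≤ 1) hcont
    hder hI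
  rw [h]
  simp [hF]

/-- `J(a,b) = ∫_0^1 x^a (1-x)^b (-log x) dx` -/
noncomputable def J (a b : ℕ) : ℝ := ∫ x in (0 : ℝ)..1, x ^ a * (1 - x) ^ b * (-Real.log x)

lemma J_int (a b : ℕ) :
    IntervalIntegrable (fun x : ℝ => x ^ a * (1 - x) ^ b * (-Real.log x)) volume 0 1 := by
  have h1 : IntervalIntegrable (fun x : ℝ => -Real.log x) volume 0 1 :=
    (intervalIntegral.intervalIntegrable_log' (a := 0) (b := 1)).neg
  exact h1.continuousOn_mul (by fun_prop)

lemma J_zero (a : ℕ) : J a 0 = 1 / ((a : ℝ) + 1) ^ 2 := by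
  rw [← (int_pow_log a).2]
  unfold J
  simp

lemma J_succ (a b : ℕ) : J a (b + 1) = J a b - J (a + 1) b := by
  unfold J
  rw [← intervalIntegral.integral_sub (J_int a b) (J_int (a + 1) b)]
  congr 1
  ext x
  ring

/-- harmonic numbers -/
noncomputable def Hr (n : ℕ) : ℝ := ∑ i ∈ range n, 1 / ((i : ℝ) + 1)

lemma Hr_succ (n : ℕ) : Hr (n + 1) = Hr n + 1 / ((n : ℝ) + 1) := by
  unfold Hr; rw [Finset.sum_range_succ]

lemma J_eq (a b : ℕ) : J a b = (a.factorial : ℝ) * b.factorial / (a + b + 1).factorial *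
    (Hr (a + b + 1) - Hr a) := by
  induction b generalizing a with
  | zero =>
    rw [J_zero, add_zero, Hr_succ, Nat.factorial_succ]
    have h1 : (a.factorial : ℝ) ≠ 0 := by exact_mod_cast a.factorial_ne_zero
    push_cast
    field_simp
    simp
  | succ b ih =>
    rw [J_succ, ih a, ih (a + 1)]
    have e1 : a + 1 + b + 1 = (a + b + 1) + 1 := by ring
    have e2 : a + (b + 1) + 1 = (a + b + 1) + 1 := by ring
    rw [e1, e2, Hr_succ (a + b + 1), Hr_succ a, Nat.factorial_succ (a + b + 1),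
      Nat.factorial_succ a, Nat.factorial_succ b]
    have h1 : ((a + b + 1).factorial : ℝ) ≠ 0 := by exact_mod_cast Nat.factorial_ne_zero _
    push_cast
    have h2 : ((a : ℝ) + b + 1 + 1) ≠ 0 := by positivity
    have h3 : ((a : ℝ) + 1) ≠ 0 := by positivity
    field_simp
    ring

lemma be_eq (t : ℕ) : be t = (t.factorial : ℝ) * t.factorial / (t + t + 1).factorial := by
  induction t with
  | zero => simp [be]
  | succ t ih =>
    rw [be_succ, ih]
    have e : t + 1 + (t + 1) + 1 = (t + t + 1) + 1 + 1 := by ring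
    rw [e, Nat.factorial_succ (t + t + 1 + 1), Nat.factorial_succ (t + t + 1),
      Nat.factorial_succ t]
    have h1 : ((t + t + 1).factorial : ℝ) ≠ 0 := by exact_mod_cast Nat.factorial_ne_zero _
    push_cast
    have h2 : ((t : ℝ) + t + 1 + 1 + 1) ≠ 0 := by positivity
    have h3 : ((t : ℝ) + t + 1 + 1) ≠ 0 := by positivity
    have h4 : (2 * (t : ℝ) + 3) ≠ 0 := by positivity
    set A : ℝ := ((t + t + 1).factorial : ℝ)
    set B : ℝ := (t.factorial : ℝ)
    rw [div_mul_div_comm, div_eq_div_iff (by positivity) (by positivity)]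
    ring

lemma hh_eq (t : ℕ) : hh t = Hr (t + t + 1) - Hr t := by
  induction t with
  | zero => simp [hh, Hr]
  | succ t ih =>
    rw [hh_succ, ih]
    have e : t + 1 + (t + 1) + 1 = (t + t + 1) + 1 + 1 := by ring
    rw [e, Hr_succ (t + t + 1 + 1), Hr_succ (t + t + 1), Hr_succ t]
    push_cast
    have h2 : ((t : ℝ) + t + 1 + 1 + 1) = 2 * t + 3 := by ring
    have h3 : ((t : ℝ) + t + 1 + 1) = 2 * (t + 1) := by ring
    have h5 : (2 * (t : ℝ) + 2) = 2 * (t + 1) := by ring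
    rw [h2, h3, h5]
    have h6 : ((t : ℝ) + 1) ≠ 0 := by positivity
    have h7 : 1 / (2 * ((t : ℝ) + 1)) = (1 / 2) * (1 / ((t : ℝ) + 1)) := by
      field_simp
    rw [h7]
    ring

/-- `β_t h_t = J(t,t)` -/
lemma be_hh (t : ℕ) : be t * hh t = J t t := by
  rw [J_eq, be_eq, hh_eq]

/-- `J` as a set integral -/
lemma J_set (a b : ℕ) : J a b = ∫ x in Ioc (0 : ℝ) 1, x ^ a * (1 - x) ^ b * (-Real.log x) := by
  unfold J
  rw [intervalIntegral.integral_of_le (by norm_num)]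

lemma log_nonneg' {x : ℝ} (hx : x ∈ Ioc (0 : ℝ) 1) : 0 ≤ -Real.log x := by
  have := Real.log_nonpos hx.1.le hx.2
  linarith

lemma J_le (t : ℕ) : J t t ≤ (1 / 4 : ℝ) ^ t := by
  have h0 : J 0 0 = 1 := by rw [J_zero]; simp
  have h1 : J t t ≤ (1 / 4 : ℝ) ^ t * J 0 0 := by
    unfold J
    rw [← intervalIntegral.integral_const_mul]
    refine intervalIntegral.integral_mono_on (by norm_num) (J_int t t)
      ((J_int 0 0).const_mul _) (fun x hx => ?_)
    have hl : 0 ≤ -Real.log x := by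
      have := Real.log_nonpos hx.1 hx.2
      linarith
    have h2 : x ^ t * (1 - x) ^ t ≤ (1 / 4 : ℝ) ^ t := by
      rw [← mul_pow]
      refine pow_le_pow_left₀ (mul_nonneg hx.1 (by linarith [hx.2])) ?_ t
      nlinarith [sq_nonneg (x - 1 / 2)]
    have h3 := mul_le_mul_of_nonneg_right h2 hl
    simpa using h3
  rw [h0, mul_one] at h1
  exact h1

/-- the common integral -/
noncomputable def KI : ℝ := ∫ x in Ioc (0 : ℝ) 1, (-Real.log x) / (1 - x + x ^ 2)

lemma hasSum_J : HasSum (fun t : ℕ => J t t) KI := by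
  have hint : ∀ t : ℕ, Integrable (fun x : ℝ => x ^ t * (1 - x) ^ t * (-Real.log x))
      (volume.restrict (Ioc (0 : ℝ) 1)) := by
    intro t
    exact (intervalIntegrable_iff_integrableOn_Ioc_of_le (by norm_num)).mp (J_int t t)
  have hnorm : ∀ t : ℕ, ∫ x in Ioc (0 : ℝ) 1, ‖x ^ t * (1 - x) ^ t * (-Real.log x)‖ = J t t := by
    intro t
    rw [J_set]
    refine setIntegral_congr_fun measurableSet_Ioc (fun x hx => ?_)
    beta_reduce
    rw [Real.norm_eq_abs, abs_of_nonneg]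
    have := log_nonneg' hx
    have h1 : 0 ≤ 1 - x := by linarith [hx.2]
    have h2 := hx.1
    positivity
  have hsum : Summable (fun t : ℕ => ∫ x in Ioc (0 : ℝ) 1,
      ‖x ^ t * (1 - x) ^ t * (-Real.log x)‖) := by
    simp only [hnorm]
    refine Summable.of_nonneg_of_le (fun t => ?_) J_le
      (summable_geometric_of_lt_one (by norm_num) (by norm_num))
    rw [← hnorm t]
    exact integral_nonneg (fun x => norm_nonneg _)
  have h := hasSum_integral_of_summable_integral_norm hint hsum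
  have e : ∫ x in Ioc (0 : ℝ) 1, ∑' t : ℕ, x ^ t * (1 - x) ^ t * (-Real.log x) = KI := by
    unfold KI
    refine setIntegral_congr_fun measurableSet_Ioc (fun x hx => ?_)
    beta_reduce
    have h1 : |x * (1 - x)| < 1 := by
      rw [abs_lt]
      constructor <;> nlinarith [hx.1, hx.2, sq_nonneg (x - 1 / 2)]
    have h2 := (hasSum_geometric_of_abs_lt_one h1).mul_right (-Real.log x)
    have h3 : (fun t : ℕ => x ^ t * (1 - x) ^ t * (-Real.log x)) =
        fun t : ℕ => (x * (1 - x)) ^ t * (-Real.log x) := by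
      ext t; rw [mul_pow]
    rw [h3, h2.tsum_eq]
    have h4 : 1 - x * (1 - x) = 1 - x + x ^ 2 := by ring
    rw [h4, inv_mul_eq_div]
  rw [e] at h
  refine h.congr_fun (fun t => ?_)
  rw [J_set]

lemma hasSum_alt : HasSum (fun k : ℕ => (-1 : ℝ) ^ k * (1 / (3 * (k : ℝ) + 1) ^ 2 +
    1 / (3 * (k : ℝ) + 2) ^ 2)) KI := by
  set F : ℕ → ℝ → ℝ := fun k x => (-1 : ℝ) ^ k * (x ^ (3 * k) * (-Real.log x) +
    x ^ (3 * k + 1) * (-Real.log x)) with hF
  have hpi : ∀ n : ℕ, Integrable (fun x : ℝ => x ^ n * (-Real.log x))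
      (volume.restrict (Ioc (0 : ℝ) 1)) := fun n =>
    (intervalIntegrable_iff_integrableOn_Ioc_of_le (by norm_num)).mp (int_pow_log n).1
  have hpv : ∀ n : ℕ, ∫ x in Ioc (0 : ℝ) 1, x ^ n * (-Real.log x) = 1 / ((n : ℝ) + 1) ^ 2 := by
    intro n
    rw [← (int_pow_log n).2, intervalIntegral.integral_of_le (by norm_num)]
  have hint : ∀ k : ℕ, Integrable (F k) (volume.restrict (Ioc (0 : ℝ) 1)) := fun k =>
    ((hpi (3 * k)).add (hpi (3 * k + 1))).const_mul _
  have hv : ∀ k : ℕ, ∫ x in Ioc (0 : ℝ) 1, (x ^ (3 * k) * (-Real.log x) +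
      x ^ (3 * k + 1) * (-Real.log x)) = 1 / (3 * (k : ℝ) + 1) ^ 2 + 1 / (3 * (k : ℝ) + 2) ^ 2 := by
    intro k
    rw [integral_add (hpi _) (hpi _), hpv, hpv]
    push_cast
    have : (3 * (k : ℝ) + 1 + 1) = 3 * k + 2 := by ring
    rw [this]
  have hnorm : ∀ k : ℕ, ∫ x in Ioc (0 : ℝ) 1, ‖F k x‖ = 1 / (3 * (k : ℝ) + 1) ^ 2 +
      1 / (3 * (k : ℝ) + 2) ^ 2 := by
    intro k
    rw [← hv k]
    refine setIntegral_congr_fun measurableSet_Ioc (fun x hx => ?_)
    simp only [hF]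
    have h1 := log_nonneg' hx
    have h2 := hx.1
    rw [Real.norm_eq_abs, abs_mul, abs_pow, abs_neg, abs_one, one_pow, one_mul, abs_of_nonneg]
    positivity
  have hsum : Summable (fun k : ℕ => ∫ x in Ioc (0 : ℝ) 1, ‖F k x‖) := by
    simp only [hnorm]
    exact (summable_sq_lin (by norm_num) (by norm_num)).add
      (summable_sq_lin (by norm_num) (by norm_num))
  have h := hasSum_integral_of_summable_integral_norm hint hsum
  have e : ∫ x in Ioc (0 : ℝ) 1, ∑' k : ℕ, F k x = KI := by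
    unfold KI
    refine setIntegral_congr_fun measurableSet_Ioc (fun x hx => ?_)
    beta_reduce
    rcases eq_or_lt_of_le hx.2 with h1 | h1
    · subst h1
      simp [hF]
    have h0 := hx.1
    have h3 : |(-(x ^ 3))| < 1 := by
      rw [abs_neg, abs_of_pos (by positivity)]
      exact pow_lt_one₀ h0.le h1 (by norm_num)
    have h4 := (hasSum_geometric_of_abs_lt_one h3).mul_right ((1 + x) * (-Real.log x))
    have h5 : (fun k : ℕ => F k x) = fun k : ℕ => (-(x ^ 3)) ^ k * ((1 + x) * (-Real.log x)) := by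
      ext k
      simp only [hF]
      rw [neg_pow (x ^ 3) k, ← pow_mul, pow_succ x (3 * k)]
      ring
    rw [h5, h4.tsum_eq]
    have h6 : (1 - -(x ^ 3)) = (1 + x) * (1 - x + x ^ 2) := by ring
    have h7 : (1 + x) ≠ 0 := by positivity
    have h8 : (1 - x + x ^ 2) ≠ 0 := by nlinarith [sq_nonneg (x - 1 / 2)]
    rw [h6]
    field_simp
  rw [e] at h
  refine h.congr_fun (fun k => ?_)
  simp only [hF]
  rw [integral_const_mul, hv]

/-- `∑ (-1)^k (1/(3k+1)^2 + 1/(3k+2)^2) = (3/2) L(2, χ_{-3})` -/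
lemma KI_eq : KI = 3 / 2 * L3 := by
  have hs : ∀ j : ℕ, 0 < j → Summable (fun k : ℕ => 1 / (6 * (k : ℝ) + j) ^ 2) := fun j hj =>
    summable_sq_lin (by norm_num) (by exact_mod_cast hj)
  set u : ℕ → ℝ := fun j => ∑' k : ℕ, 1 / (6 * (k : ℝ) + j) ^ 2 with hu
  have hu' : ∀ j : ℕ, 0 < j → HasSum (fun k : ℕ => 1 / (6 * (k : ℝ) + j) ^ 2) (u j) :=
    fun j hj => (hs j hj).hasSum
  -- splitting `3k+1`
  have h31 : HasSum (fun k : ℕ => 1 / (3 * (k : ℝ) + 1) ^ 2) (u 1 + u 4) := by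
    refine HasSum.even_add_odd (f := fun k : ℕ => 1 / (3 * (k : ℝ) + 1) ^ 2) ?_ ?_
    · refine (hu' 1 (by norm_num)).congr_fun (fun k => ?_)
      push_cast
      ring_nf
    · refine (hu' 4 (by norm_num)).congr_fun (fun k => ?_)
      push_cast
      ring_nf
  have h32 : HasSum (fun k : ℕ => 1 / (3 * (k : ℝ) + 2) ^ 2) (u 2 + u 5) := by
    refine HasSum.even_add_odd (f := fun k : ℕ => 1 / (3 * (k : ℝ) + 2) ^ 2) ?_ ?_
    · refine (hu' 2 (by norm_num)).congr_fun (fun k => ?_)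
      push_cast
      ring_nf
    · refine (hu' 5 (by norm_num)).congr_fun (fun k => ?_)
      push_cast
      ring_nf
  have hL : L3 = (u 1 + u 4) - (u 2 + u 5) := (h31.sub h32).tsum_eq
  -- even members
  have h2 : u 2 = 1 / 4 * (u 1 + u 4) := by
    refine (hu' 2 (by norm_num)).unique ?_
    refine (h31.mul_left (1 / 4)).congr_fun (fun k => ?_)
    have : (6 * (k : ℝ) + (2 : ℕ)) = 2 * (3 * k + 1) := by push_cast; ring
    rw [this, mul_pow]
    have h1 : (3 * (k : ℝ) + 1) ≠ 0 := by positivity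
    field_simp
    norm_num
  have h4 : u 4 = 1 / 4 * (u 2 + u 5) := by
    refine (hu' 4 (by norm_num)).unique ?_
    refine (h32.mul_left (1 / 4)).congr_fun (fun k => ?_)
    have : (6 * (k : ℝ) + (4 : ℕ)) = 2 * (3 * k + 2) := by push_cast; ring
    rw [this, mul_pow]
    have h1 : (3 * (k : ℝ) + 2) ≠ 0 := by positivity
    field_simp
    norm_num
  -- the alternating sum
  have hA : HasSum (fun k : ℕ => (-1 : ℝ) ^ k * (1 / (3 * (k : ℝ) + 1) ^ 2 +
      1 / (3 * (k : ℝ) + 2) ^ 2)) ((u 1 + u 2) + (-(u 4 + u 5))) := by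
    refine HasSum.even_add_odd (f := fun k : ℕ => (-1 : ℝ) ^ k * (1 / (3 * (k : ℝ) + 1) ^ 2 +
      1 / (3 * (k : ℝ) + 2) ^ 2)) ?_ ?_
    · refine ((hu' 1 (by norm_num)).add (hu' 2 (by norm_num))).congr_fun (fun k => ?_)
      rw [pow_mul]
      push_cast
      norm_num
      ring_nf
    · refine ((hu' 4 (by norm_num)).add (hu' 5 (by norm_num))).neg.congr_fun (fun k => ?_)
      rw [pow_succ, pow_mul]
      push_cast
      norm_num
      ring_nf
  have h5 := hA.unique hasSum_alt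
  rw [hL, ← h5]
  linarith

/-- **`∑ (-1)^m (2m+1) l_m = (3/2) L(2, χ_{-3})`** -/
theorem hasSum_minus' : HasSum (fun m : ℕ => (-1 : ℝ) ^ m * (2 * (m : ℝ) + 1) * QS2.lrem m)
    (3 / 2 * L3) := by
  have h := hasSum_minus
  have h1 : ∑' t : ℕ, be t * hh t = 3 / 2 * L3 := by
    rw [← KI_eq, ← hasSum_J.tsum_eq]
    exact tsum_congr (fun t => be_hh t)
  rwa [h1] at h

/-- **`∑ (2m+1) l_m = π^2/8`** -/
theorem hasSum_plus' : HasSum (fun m : ℕ => (2 * (m : ℝ) + 1) * QS2.lrem m)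
    (Real.pi ^ 2 / 8) := by
  have h := hasSum_plus
  rwa [tsum_odd] at h

end T2
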