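import Pool.Agent.T2.Fin1
import Pool.Agent.T2.Fin2
import Pool.Agent.T2.NV
import Pool.Agent.T2.SLint
import Pool.Agent.Z23.Final

/-!
# T2: assembly, from the real side and the `p`-adic side
-/

set_option autoImplicit false

namespace T2

open Finset Filter QS2

/-- the linear form of an integer vector -/
noncomputable def thX (x : Fin 4 → ℤ) : ℝ :=
  (x 0 : ℝ) + x 1 * (Real.pi ^ 2 / 48) + x 2 * zeta3 + x 3 * (L3 / 4)

/-- the height of an integer vector (at least 1) -/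
noncomputable def htX (x : Fin 4 → ℤ) : ℝ :=
  max (max |(x 0 : ℝ)| |(x 1 : ℝ)|) (max (max |(x 2 : ℝ)| |(x 3 : ℝ)|) 1)

theorem one_le_htX (x : Fin 4 → ℤ) : 1 ≤ htX x :=
  (le_max_right _ _).trans (le_max_right _ _)

theorem abs_le_htX (x : Fin 4 → ℤ) (i : Fin 4) : |(x i : ℝ)| ≤ htX x := by
  unfold htX
  fin_cases i
  · exact (le_max_left _ _).trans (le_max_left _ _)
  · exact (le_max_right _ _).trans (le_max_left _ _)
  · exact ((le_max_left _ _).trans (le_max_left _ _)).trans (le_max_right _ _)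
  · exact ((le_max_right _ _).trans (le_max_left _ _)).trans (le_max_right _ _)

/-- the real side, along `A = 40 n + 11`, `c = 40 n` -/
def RealSide (K E : ℝ) : Prop :=
  ∃ C : ℝ, ∀ᶠ n : ℕ in atTop, ∀ (x : Fin 4 → ℤ) (H : ℝ), 1 ≤ H → (∀ i, |(x i : ℝ)| ≤ H) →
    |thX x| ≤ Real.exp (- K * n) → ∀ e : Fin (40 * n) ⊕ Fin (40 * n) → Nd (40 * n + 11),
    Function.Injective e →
    |(detC x (40 * n + 11) (40 * n) e : ℝ)| ≤ H ^ (80 * n) * Real.exp (- E * (n : ℝ) ^ 2 +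
      C * n * Real.log ((n : ℝ) + 1))

/-- the `p`-adic side -/
def PSide (S : ℝ) : Prop :=
  ∃ (B : ℕ → ℕ) (e : ℕ → ℕ → ℤ),
    (∀ᶠ A : ℕ in atTop,
      ∑ p ∈ (Ioc 0 (B A)).filter Nat.Prime, (e A p : ℝ) * Real.log p ≤ S * (A : ℝ) ^ 2) ∧
    (∀ᶠ A : ℕ in atTop, ∀ p : ℕ, p.Prime → B A < p → e A p = 0) ∧
    (∀ᶠ A : ℕ in atTop, ∀ (x : Fin 4 → ℤ) (f : Fin (A - 11) ⊕ Fin (A - 11) → Nd A),
      Function.Injective f → ∀ p : ℕ, p.Prime →
      ¬ p ∣ ((p : ℚ) ^ e A p * detC x A (A - 11) f).den)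

theorem tendsto_par : Tendsto (fun n : ℕ => 40 * n + 11) atTop atTop :=
  tendsto_atTop_atTop.2 fun b => ⟨b, fun n hn => by omega⟩

/-- the `p`-adic side along `A = 40 n + 11` -/
theorem PSide.sub {S S' : ℝ} (h : PSide S) (hS : 1600 * S < S') :
    ∃ (B : ℕ → ℕ) (e : ℕ → ℕ → ℤ),
    (∀ᶠ n : ℕ in atTop,
      ∑ p ∈ (Ioc 0 (B n)).filter Nat.Prime, (e n p : ℝ) * Real.log p ≤ S' * (n : ℝ) ^ 2) ∧
    (∀ᶠ n : ℕ in atTop, ∀ p : ℕ, p.Prime → B n < p → e n p = 0) ∧
    (∀ᶠ n : ℕ in atTop, ∀ (x : Fin 4 → ℤ) (f : Fin (40 * n) ⊕ Fin (40 * n) → Nd (40 * n + 11)),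
      Function.Injective f → ∀ p : ℕ, p.Prime →
      ¬ p ∣ ((p : ℚ) ^ e n p * detC x (40 * n + 11) (40 * n) f).den) := by
  obtain ⟨B, e, h1, h2, h3⟩ := h
  refine ⟨fun n => B (40 * n + 11), fun n => e (40 * n + 11), ?_, tendsto_par.eventually h2, ?_⟩
  · filter_upwards [tendsto_par.eventually h1, eventually_ge_atTop 1,
      eventually_ge_atTop ⌈1001 * |S| / (S' - 1600 * S)⌉₊] with n hn hn1 hn2
    refine hn.trans ?_
    have hd : 0 < S' - 1600 * S := by linarith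
    have h4 : 1001 * |S| / (S' - 1600 * S) ≤ n := (Nat.le_ceil _).trans (by exact_mod_cast hn2)
    rw [div_le_iff₀ hd] at h4
    have hn0 : (1 : ℝ) ≤ n := by exact_mod_cast hn1
    push_cast
    have h5 : S * (880 * n + 121) ≤ |S| * (1001 * n) :=
      (mul_le_mul_of_nonneg_right (le_abs_self S) (by positivity)).trans
        (mul_le_mul_of_nonneg_left (by linarith) (abs_nonneg S))
    have h6 : |S| * (1001 * n) ≤ n * (S' - 1600 * S) * n := by
      have := mul_le_mul_of_nonneg_right h4 (show (0 : ℝ) ≤ n by linarith)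
      linarith
    nlinarith
  · filter_upwards [tendsto_par.eventually h3] with n hn
    have h4 : 40 * n + 11 - 11 = 40 * n := by omega
    rw [h4] at hn
    exact hn

/-- the measure for the vectors with a sheet -/
theorem measure_sheet {K E S k : ℝ} (hK : 0 < K) (hES : 1600 * S < E)
    (hk : 80 * K / (E - 1600 * S) < k) (hR : RealSide K E) (hP : PSide S) :
    ∃ c : ℝ, 0 < c ∧ ∀ x : Fin 4 → ℤ, (x 1 ≠ 0 ∨ x 3 ≠ 0) → c * htX x ^ (- k) ≤ |thX x| := by
  -- room between the two sides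
  have hd : 0 < E - 1600 * S := by linarith
  have hk0 : 0 < k := lt_of_le_of_lt (by positivity) hk
  have hk1 : 80 * K / k < E - 1600 * S := by
    rw [div_lt_iff₀ hk0]
    rw [div_lt_iff₀ hd] at hk
    linarith
  obtain ⟨S', hS1, hS2⟩ := exists_between (show 1600 * S < E - 80 * K / k by linarith)
  have hKk : 0 < 80 * K / k := by positivity
  obtain ⟨B, e, h1, h2, h3⟩ := hP.sub hS1
  obtain ⟨C, hKC⟩ := hR
  refine Pool.Agent.T2.measure_core
    (ι := fun n => {f : Fin (40 * n) ⊕ Fin (40 * n) → Nd (40 * n + 11) // Function.Injective f})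
    (fun (x : Fin 4 → ℤ) n f => detC x (40 * n + 11) (40 * n) f.1) thX htX
    (fun x => x 1 ≠ 0 ∨ x 3 ≠ 0) (m := 80) (show S' < E by linarith) hK ?_ B e
    (fun x _ => one_le_htX x)
    (hKC.mono fun n hn x _ hθ f => hn x (htX x) (one_le_htX x) (abs_le_htX x) hθ f.1 f.2)
    h1 h2 (h3.mono fun n hn x _ f p hp => hn x f.1 f.2 p hp)
    (Eventually.of_forall fun n x hx => by
      obtain ⟨f, hf, hne⟩ := nonvan_C x hx (A := 40 * n + 11) (c := 40 * n) (by omega)
      exact ⟨⟨f, hf⟩, hne⟩)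
  have hd' : 0 < E - S' := by linarith
  rw [div_lt_iff₀ hd']
  have h4 : 80 * K / k < E - S' := by linarith
  rw [div_lt_iff₀ hk0] at h4
  push_cast
  linarith

/-- the height of four integers -/
noncomputable def ht4 (x y z t : ℤ) : ℝ :=
  max (max |(x : ℝ)| |(y : ℝ)|) (max |(z : ℝ)| |(t : ℝ)|)

theorem one_le_ht4 {x y z t : ℤ} (h : ¬ (x = 0 ∧ y = 0 ∧ z = 0 ∧ t = 0)) : 1 ≤ ht4 x y z t := by
  have key : ∀ a : ℤ, a ≠ 0 → (1 : ℝ) ≤ |(a : ℝ)| := by
    intro a ha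
    rw [← Int.cast_abs]
    exact_mod_cast Int.one_le_abs ha
  unfold ht4
  by_cases hx : x = 0
  · by_cases hy : y = 0
    · by_cases hz : z = 0
      · have ht : t ≠ 0 := fun ht => h ⟨hx, hy, hz, ht⟩
        exact (key t ht).trans ((le_max_right _ _).trans (le_max_right _ _))
      · exact (key z hz).trans ((le_max_left _ _).trans (le_max_right _ _))
    · exact (key y hy).trans ((le_max_right _ _).trans (le_max_left _ _))
  · exact (key x hx).trans ((le_max_left _ _).trans (le_max_left _ _))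

theorem rpow_neg_scale {H H' k : ℝ} (hH : 0 < H) (hH' : 0 < H') {m : ℝ} (hm : 1 ≤ m)
    (h : H' ≤ m * H) (hk : 0 ≤ k) : m ^ (- k) * H ^ (- k) ≤ H' ^ (- k) := by
  rw [← Real.mul_rpow (by linarith) hH.le]
  exact Real.rpow_le_rpow_of_nonpos hH' h (by linarith)

/-- **Linear independence measure of `1, π², ζ(3), L(2, χ_{-3})`** from the two sides -/
theorem measure_of_sides {K E S k : ℝ} (hK : 0 < K) (hES : 1600 * S < E)
    (hk1 : 80 * K / (E - 1600 * S) < k) (hk2 : (21.32 : ℝ) ≤ k) (hR : RealSide K E)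
    (hP : PSide S) :
    ∃ c : ℝ, 0 < c ∧ ∀ x y z t : ℤ, ¬ (x = 0 ∧ y = 0 ∧ z = 0 ∧ t = 0) →
      c * ht4 x y z t ^ (- k) ≤ |(x : ℝ) + y * Real.pi ^ 2 + z * zeta3 + t * L3| := by
  obtain ⟨c1, hc1, h1⟩ := measure_sheet hK hES hk1 hR hP
  obtain ⟨c2, hc2, h2⟩ := Pool.Agent.Z23.z23_measure_pi
  have hk0 : 0 ≤ k := by linarith
  have h48 : (0 : ℝ) < (48 : ℝ) ^ (- k) := Real.rpow_pos_of_pos (by norm_num) _
  refine ⟨min c1 c2 * (48 : ℝ) ^ (- k), mul_pos (lt_min hc1 hc2) h48,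
    fun x y z t hne => ?_⟩
  have hH1 := one_le_ht4 hne
  have hH0 : 0 < ht4 x y z t := by linarith
  have habs : |(x : ℝ)| ≤ ht4 x y z t ∧ |(y : ℝ)| ≤ ht4 x y z t ∧ |(z : ℝ)| ≤ ht4 x y z t ∧
      |(t : ℝ)| ≤ ht4 x y z t := by
    unfold ht4
    exact ⟨(le_max_left _ _).trans (le_max_left _ _), (le_max_right _ _).trans (le_max_left _ _),
      (le_max_left _ _).trans (le_max_right _ _), (le_max_right _ _).trans (le_max_right _ _)⟩
  by_cases ht : t = 0
  · -- the known measure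
    have h3 := h2 x y z (fun h => hne ⟨h.1, h.2.1, h.2.2, ht⟩)
    have h4 : (x : ℝ) + y * Real.pi ^ 2 + z * zeta3 + t * L3 =
        (x : ℝ) + (y : ℝ) * Real.pi ^ 2 + (z : ℝ) * ∑' n : ℕ, 1 / ((n : ℝ) + 1) ^ 3 := by
      rw [ht]
      simp [zeta3]
    rw [h4]
    refine le_trans ?_ h3
    set H' : ℝ := max |(y : ℝ)| |(z : ℝ)| + 1 with hH'
    have hH'1 : 1 ≤ H' := by
      have : 0 ≤ max |(y : ℝ)| |(z : ℝ)| := (abs_nonneg _).trans (le_max_left _ _)
      linarith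
    have hH'2 : H' ≤ 48 * ht4 x y z t := by
      have : max |(y : ℝ)| |(z : ℝ)| ≤ ht4 x y z t := max_le habs.2.1 habs.2.2.1
      linarith
    have h5 : (48 : ℝ) ^ (- k) * ht4 x y z t ^ (- k) ≤ H' ^ (- k) :=
      rpow_neg_scale hH0 (by linarith) (by norm_num) hH'2 hk0
    have h6 : H' ^ (- k) ≤ H' ^ (-21.32 : ℝ) :=
      Real.rpow_le_rpow_of_exponent_le hH'1 (by linarith)
    calc min c1 c2 * (48 : ℝ) ^ (- k) * ht4 x y z t ^ (- k)
        = min c1 c2 * ((48 : ℝ) ^ (- k) * ht4 x y z t ^ (- k)) := by ring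
      _ ≤ c2 * H' ^ (-21.32 : ℝ) := by
          apply mul_le_mul (min_le_right _ _) (h5.trans h6) (mul_nonneg h48.le
            (Real.rpow_nonneg hH0.le _)) hc2.le
  · -- the new one
    set X : Fin 4 → ℤ := ![x, 48 * y, z, 4 * t] with hX
    have hX3 : X 1 ≠ 0 ∨ X 3 ≠ 0 := by
      right
      show 4 * t ≠ 0
      omega
    have h3 := h1 X hX3
    have h4 : thX X = (x : ℝ) + y * Real.pi ^ 2 + z * zeta3 + t * L3 := by
      unfold thX
      simp only [hX, Matrix.cons_val_zero, Matrix.cons_val_one, Matrix.cons_val]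
      push_cast
      ring
    rw [h4] at h3
    refine le_trans ?_ h3
    have hHX1 := one_le_htX X
    have hHX2 : htX X ≤ 48 * ht4 x y z t := by
      unfold htX
      simp only [hX, Matrix.cons_val_zero, Matrix.cons_val_one, Matrix.cons_val]
      push_cast
      rw [abs_mul, abs_mul, abs_of_pos (show (0 : ℝ) < 48 by norm_num),
        abs_of_pos (show (0 : ℝ) < 4 by norm_num)]
      have := habs.1
      have := habs.2.1
      have := habs.2.2.1
      have := habs.2.2.2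
      have := abs_nonneg (x : ℝ)
      refine max_le (max_le ?_ ?_) (max_le (max_le ?_ ?_) ?_) <;> linarith
    have h5 : (48 : ℝ) ^ (- k) * ht4 x y z t ^ (- k) ≤ htX X ^ (- k) :=
      rpow_neg_scale hH0 (by linarith) (by norm_num) hHX2 hk0
    calc min c1 c2 * (48 : ℝ) ^ (- k) * ht4 x y z t ^ (- k)
        = min c1 c2 * ((48 : ℝ) ^ (- k) * ht4 x y z t ^ (- k)) := by ring
      _ ≤ c1 * htX X ^ (- k) := by
          apply mul_le_mul (min_le_left _ _) h5 (mul_nonneg h48.le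
            (Real.rpow_nonneg hH0.le _)) hc1.le

/-- a positive lower bound gives linear independence -/
theorem linearIndependent_of_measure {k c : ℝ} (hc : 0 < c)
    (h : ∀ x y z t : ℤ, ¬ (x = 0 ∧ y = 0 ∧ z = 0 ∧ t = 0) →
      c * ht4 x y z t ^ (- k) ≤ |(x : ℝ) + y * Real.pi ^ 2 + z * zeta3 + t * L3|) :
    LinearIndependent ℚ ![(1 : ℝ), Real.pi ^ 2, zeta3, L3] := by
  refine Pool.Agent.T2.linearIndependent_of_int fun x y z t h0 => ?_
  by_contra hne
  have h1 := h x y z t hne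
  have h2 := one_le_ht4 hne
  rw [h0, abs_zero] at h1
  have h3 : 0 < c * ht4 x y z t ^ (- k) := mul_pos hc (Real.rpow_pos_of_pos (by linarith) _)
  linarith

end T2
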