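import Pool.Agent.T2.RuleB
import Pool.Agent.T2.DesignR

/-!
# T2, rule B for the rectangular design matrix with chosen rows

`e : Fin c ⊕ Fin c → Nd N` injective: the chosen rows.

* `ruleB1R` : `p^(2 Sfl p c + 9 + ∑_a eC (sB N p a)) * det = p^(nB N p - (2N - 2c)) * s`;
* `ruleB2R` : for `N + 3 ≤ p`, `det = p^((2N+3-p) - (2N-2c)) * s`.
-/

set_option autoImplicit false

namespace T2

open Finset Polynomial Matrix QS2 QS2.Cls
open Pool.Agent.QS2 (pairMat det_basis_change)

section Rows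

variable (w sg : ℤ → K) (cc : Fin 2 → K) (LA LB : Fin 2 → K[X] →ₗ[K] K[X]) {N c : ℕ}
  (e : Fin c ⊕ Fin c → Nd N)

/-- the matrix of a family of pairs at the chosen rows -/
noncomputable def pairsR (P Q : Fin c ⊕ Fin c → K[X]) :
    Matrix (Fin c ⊕ Fin c) (Fin c ⊕ Fin c) K :=
  Matrix.of fun i t => rowP w sg cc LA (nodeZ N (e i)) (P t) + rowQ w sg cc LB (nodeZ N (e i)) (Q t)

/-- the determinant of `designR` against the determinant of a unitriangular family of pairs -/
theorem det_designR (P Q : Fin c ⊕ Fin c → K[X]) (hP : ∀ t, (P t).natDegree ≤ dgi t)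
    (hQ : ∀ t, (Q t).natDegree ≤ dgi t) (hl : ∀ D, leadD P Q D = 1) :
    ((designR w sg cc LA LB N c).submatrix e id).det =
      (∏ i ∈ range c, ((i.factorial : K))⁻¹) ^ 2 * (pairsR w sg cc LA LB e P Q).det := by
  have h1 := det_basis_change (fun i : Fin c ⊕ Fin c => rowP w sg cc LA (nodeZ N (e i)))
    (fun i => rowQ w sg cc LB (nodeZ N (e i))) (binP K) (fun i => ((i.factorial : K))⁻¹)
    (fun i => binP_natDegree i) (fun i => binP_coeff i) (Equiv.refl _)
  have h := det_pair_change (fun i : Fin c ⊕ Fin c => rowP w sg cc LA (nodeZ N (e i)))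
    (fun i => rowQ w sg cc LB (nodeZ N (e i))) P Q hP hQ (Equiv.refl _)
  rw [Finset.prod_congr rfl (fun D _ => hl D), Finset.prod_const_one, one_mul] at h
  rw [← h] at h1
  have e1 : (designR w sg cc LA LB N c).submatrix e id =
      (pairMat (fun i : Fin c ⊕ Fin c => rowP w sg cc LA (nodeZ N (e i)))
        (fun i => rowQ w sg cc LB (nodeZ N (e i))) (binP K) c).submatrix id (Equiv.refl _) := by
    refine Matrix.ext fun i t => ?_
    rcases t with t | t <;> rfl
  rw [e1, h1]
  rfl

end Rows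

section Sel

variable {p N c : ℕ} {e : Fin c ⊕ Fin c → Nd N}

/-- the chosen pairs -/
def selP (p : ℕ) (e : Fin c ⊕ Fin c → Nd N) : Finset (Fin c ⊕ Fin c) :=
  univ.filter fun i => e i ∈ pairS p N ∧ ∃ j, e j = mate p N (e i)

/-- partner of a chosen row -/
noncomputable def selM (p : ℕ) (e : Fin c ⊕ Fin c → Nd N) (i : Fin c ⊕ Fin c) : Fin c ⊕ Fin c :=
  by
    classical
    exact if h : ∃ j, e j = mate p N (e i) then h.choose else i

theorem selM_spec {i : Fin c ⊕ Fin c} (hi : i ∈ selP p e) : e (selM p e i) = mate p N (e i) := by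
  classical
  rw [selP, mem_filter] at hi
  unfold selM
  rw [dif_pos hi.2.2]
  exact hi.2.2.choose_spec

theorem selM_notin {i : Fin c ⊕ Fin c} (hi : i ∈ selP p e) : selM p e i ∉ selP p e := by
  intro h
  have h1 := selM_spec hi
  rw [selP, mem_filter] at hi h
  rw [h1] at h
  exact mate_notin hi.2.1 h.2.1

theorem mate_inj {f g : Nd N} (hf : f ∈ pairS p N) (hg : g ∈ pairS p N)
    (h : mate p N f = mate p N g) : f = g := by
  have h1 := mate_z hf
  have h2 := mate_z hg
  rw [h, h2] at h1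
  have h3 : nodeZ N f = nodeZ N g := by linarith
  rcases f with i | i <;> rcases g with j | j <;> simp only [nodeZ] at h3
  · congr 1; apply Fin.ext; omega
  · omega
  · omega
  · congr 1; apply Fin.ext; omega

/-- the number of chosen pairs -/
theorem selP_card (he : Function.Injective e) (hc : c ≤ N) :
    (pairS p N).card - (2 * N - 2 * c) ≤ (selP p e).card := by
  classical
  -- the image of `selP` and the excluded pairs
  set R : Finset (Nd N) := univ.image e with hR
  have hRc : Rᶜ.card = 2 * N - 2 * c := by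
    rw [card_compl, hR, card_image_of_injective _ he]
    simp only [Fintype.card_sum, Fintype.card_fin, card_univ]
    omega
  have h1 : (pairS p N).card ≤ (selP p e).card + Rᶜ.card := by
    have hsub : (pairS p N) ⊆ ((selP p e).image e) ∪
        ((pairS p N).filter fun f => f ∉ R ∨ mate p N f ∉ R) := by
      intro f hf
      by_cases h : f ∉ R ∨ mate p N f ∉ R
      · exact mem_union_right _ (mem_filter.2 ⟨hf, h⟩)
      · push Not at h
        obtain ⟨h2, h3⟩ := h
        rw [hR, mem_image] at h2 h3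
        obtain ⟨i, -, rfl⟩ := h2
        obtain ⟨j, -, hj⟩ := h3
        exact mem_union_left _ (mem_image.2 ⟨i, mem_filter.2 ⟨mem_univ _, hf, j, hj⟩, rfl⟩)
    have h4 : ((pairS p N).filter fun f => f ∉ R ∨ mate p N f ∉ R).card ≤ Rᶜ.card := by
      refine Finset.card_le_card_of_injOn (fun f => if f ∈ R then mate p N f else f) ?_ ?_
      · intro f hf
        simp only [coe_filter, Set.mem_ofPred_eq] at hf
        simp only [coe_compl, Set.mem_compl_iff, mem_coe]
        split_ifs with h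
        · rcases hf.2 with h5 | h5
          · exact absurd h h5
          · exact h5
        · exact h
      · intro f hf g hg hfg
        simp only [coe_filter, Set.mem_ofPred_eq] at hf hg
        simp only at hfg
        have key : ∀ a b : Nd N, a ∈ pairS p N → b ∈ pairS p N → mate p N a ≠ b := by
          intro a b ha hb hab
          exact mate_notin ha (hab ▸ hb)
        split_ifs at hfg with ha hb hb
        · exact mate_inj hf.1 hg.1 hfg
        · exact absurd hfg (key _ _ hf.1 hg.1)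
        · exact absurd hfg.symm (key _ _ hg.1 hf.1)
        · exact hfg
    calc (pairS p N).card ≤ _ := card_le_card hsub
      _ ≤ ((selP p e).image e).card + _ := card_union_le _ _
      _ ≤ (selP p e).card + Rᶜ.card := Nat.add_le_add card_image_le h4
  omega

end Sel

section Main

variable {p : ℕ} [hp : Fact p.Prime] {w r sg : ℤ → K} {m0 : K} {cc : Fin 2 → K}
  {LA LB : Fin 2 → K[X] →ₗ[K] K[X]} {N c : ℕ}

/-- **Rule B, chosen rows.** -/
theorem ruleB1R (hp5 : 5 ≤ p) (hw : SeqP p w r sg m0) (hcc : ∀ j, cc j ∈ Op p)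
    (hLA : ∀ j (i : ℕ), LA j (X ^ i) ∈ (toK p).range)
    (hLB : ∀ j (i : ℕ), LB j (X ^ i) ∈ (toK p).range)
    (hc : c ≤ N) (hA : N + p + 3 ≤ p ^ 2) (e : Fin c ⊕ Fin c → Nd N)
    (he : Function.Injective e) :
    ∃ s ∈ Op p, (p : K) ^ (2 * Sfl p c + 9 + ∑ a ∈ range p, eC (sB N p a)) *
      ((designR w sg cc LA LB N c).submatrix e id).det = p ^ (nB N p - (2 * N - 2 * c)) * s := by
  have hpz : (0 : ℤ) < p := by exact_mod_cast hp.out.pos
  have hA' : (N : ℤ) + p + 3 ≤ (p : ℤ) ^ 2 := by exact_mod_cast hA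
  have hpK : (p : K) ∈ Op p := natCast_mem _ p
  have hp0 : (p : K) ≠ 0 := Nat.cast_ne_zero.mpr hp.out.ne_zero
  choose cl kk hz hk1 hk2 hk3 using fun f : Nd N =>
    node_split (p := p) (rho := 0) (by omega) f
  choose h0 h1 h2 m0' m1' m2' hn using fun (t : Fin c ⊕ Fin c) (a : Fin p) =>
    nice_toK p a (bP p c t) (bR p c t)
  choose G1 hG1 using fun t : Fin c ⊕ Fin c =>
    part_range (p := p) (cc := cc) hcc hLA hLB 0 (bP p c t) (bQ p c t)
  choose G2 hG2 using fun t : Fin c ⊕ Fin c =>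
    part_range (p := p) (cc := cc) hcc hLA hLB 1 (bP p c t) (bQ p c t)
  set T : Matrix (Fin c ⊕ Fin c) (Fin c ⊕ Fin c) K := pairsR w sg cc LA LB e
    (fun t => toK p (bP p c t)) (fun t => toK p (bQ p c t)) with hT
  have hTe : ∀ i j, T i j = Fv w sg (toK p (bP p c j)) (toK p (bQ p c j))
      (toK p (G1 j)) (toK p (G2 j)) (nodeZ N (e i)) := by
    intro i j
    rw [hT, pairsR, Matrix.of_apply, rowPQ, ← hG1, ← hG2]
  have hcl : ∀ i, cl i = clN p N i := by
    intro i
    apply Fin.ext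
    have h3 := clN_cast (p := p) i
    have h4 : nodeZ N i % p = ((cl i : Fin p) : ℕ) := by
      rw [hz i, Int.add_comm, Int.add_mul_emod_self_left]
      exact Int.emod_eq_of_lt (by positivity) (by exact_mod_cast (cl i).2)
    have h5 : (((clN p N i : Fin p) : ℕ) : ℤ) = ((cl i : Fin p) : ℕ) := by rw [h3, h4]
    exact_mod_cast h5.symm
  have hzK : ∀ i : Nd N, ((cl i : ℕ) : K) + p * (kk i) = ((nodeZ N i : ℤ) : K) := by
    intro i
    rw [hz i]
    push_cast
    ring
  have hrow : ∀ i j, ∃ B, ¬ exc j → (B ∈ Op p ∧ (p : K) ^ 3 * T i j =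
      xr p w (cl (e i)) (kk (e i)) * h0 j (cl (e i))
        + p * ((kk (e i) * xr p w (cl (e i)) (kk (e i))) * h1 j (cl (e i)))
        + p ^ 2 * ((kk (e i) ^ 2 * xr p w (cl (e i)) (kk (e i))) * h2 j (cl (e i)))
        + p ^ 3 * B) := by
    intro i j
    by_cases hj : exc j
    · exact ⟨0, fun h => absurd hj h⟩
    · obtain ⟨s, hs, e'⟩ := hn j (cl (e i)) (kk (e i))
      obtain ⟨B, hB, hBe⟩ := hw.row_sing (cl (e i)).2 (hk1 (e i)) (hk2 (e i)) (hk3 (e i))
        (P := toK p (bP p c j)) (Q := toK p (bR p c j)) (R1 := toK p (G1 j))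
        (R2 := toK p (G2 j)) (by rw [hzK]; exact eval_toK_mem _ _)
        (by rw [hzK]; exact eval_toK_mem _ _) (by rw [hzK]; exact eval_toK_mem _ _)
        (by rw [hzK]; exact eval_toK_mem _ _) hs e'
      refine ⟨B, fun _ => ⟨hB, ?_⟩⟩
      rw [hTe, bQ_toK hj, hz (e i)]
      exact hBe
  choose B hB using hrow
  have hpair : ∀ i ∈ selP p e, ∀ j, ∃ s ∈ Op p, T i j - T (selM p e i) j = p * s := by
    intro i hi j
    have hsp := selM_spec hi
    have hi' : e i ∈ pairS p N := by
      rw [selP, mem_filter] at hi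
      exact hi.2.1
    have hm := mate_z hi'
    rw [pairS, mem_filter] at hi'
    obtain ⟨s, hs, e'⟩ := hw.row_pair (a := nodeZ N (e i)) (by omega) (by omega)
      (bP p c j) (bQ p c j) (G1 j) (G2 j)
    refine ⟨s, hs, ?_⟩
    rw [hTe, hTe, hsp, hm]
    exact e'
  obtain ⟨s, hs, hdet⟩ := det_ruleB (Op p) hpK hp0 T
    (univ.filter fun i => e i ∈ singS p N) (fun i => cl (e i))
    (fun i => xr p w (cl (e i)) (kk (e i))) (fun i => kk (e i) * xr p w (cl (e i)) (kk (e i)))
    (fun i => kk (e i) ^ 2 * xr p w (cl (e i)) (kk (e i)))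
    (fun a j => h0 j a) (fun a j => h1 j a) (fun a j => h2 j a) B
    (univ.filter fun j : Fin c ⊕ Fin c => exc j) (selP p e) (selM p e)
    (fun i _ => hw.xr_mem (cl (e i)).2 (hk1 (e i)) (hk2 (e i)))
    (fun i _ => (Op p).mul_mem (int_mem _) (hw.xr_mem (cl (e i)).2 (hk1 (e i)) (hk2 (e i))))
    (fun i _ => (Op p).mul_mem ((Op p).pow_mem (int_mem _) 2)
      (hw.xr_mem (cl (e i)).2 (hk1 (e i)) (hk2 (e i))))
    (fun a j _ => m0' _ _) (fun a j _ => m1' _ _) (fun a j _ => m2' _ _)
    (fun i _ j hj => (hB i j (by simpa using hj)).1)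
    (fun i _ j hj => (hB i j (by simpa using hj)).2)
    (fun i hi j hj => by
      have hj' : ¬ exc j := by simpa using hj
      have hi' : ¬ ((p : ℤ) ≤ nodeZ N (e i) ∨ nodeZ N (e i) < -(p : ℤ)) := by
        simpa [singS] using hi
      rw [hTe, bQ_toK hj']
      exact hw.row_int (by omega) (by omega) (eval_toK_mem _ _) (eval_toK_mem _ _)
        (eval_toK_mem _ _) (eval_toK_mem _ _))
    (fun i j _ => by
      have hb := nodeZ_bounds (e i)
      rw [hTe]
      exact hw.row_exc (by rcases hb with hb | hb <;> nlinarith)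
        (by rcases hb with hb | hb <;> nlinarith) (eval_toK_mem _ _) (eval_toK_mem _ _)
        (eval_toK_mem _ _) (eval_toK_mem _ _))
    (fun i hi => by
      rw [selP, mem_filter] at hi
      intro h
      rw [mem_filter] at h
      exact pair_notin hi.2.1 h.2)
    (fun i hi => selM_notin hi)
    (fun i hi j _ => hpair i hi j)
    (fun i hi j _ => by
      obtain ⟨s, hs, e'⟩ := hpair i hi j
      exact ⟨p ^ 3 * s, (Op p).mul_mem ((Op p).pow_mem hpK 3) hs, by rw [e']; ring⟩)
  -- the counts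
  have hE : (univ.filter fun j : Fin c ⊕ Fin c => exc j).card ≤ 3 :=
    exc_card (A := c) (Equiv.refl _)
  set E := (univ.filter fun j : Fin c ⊕ Fin c => exc j) with hEdef
  have hsum : ∑ a, eC ((univ.filter fun i => e i ∈ singS p N).filter
      (fun i => cl (e i) = a)).card ≤ ∑ a ∈ range p, eC (sB N p a) := by
    rw [← Fin.sum_univ_eq_sum_range (fun a => eC (sB N p a)) p]
    refine Finset.sum_le_sum fun a _ => eC_mono ?_
    refine le_trans ?_ (sB_card (A := N) a)
    refine Finset.card_le_card_of_injOn e ?_ (fun i _ j _ hij => he hij)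
    intro i hi
    rw [mem_coe, mem_filter, mem_filter] at hi
    rw [mem_coe, mem_filter]
    exact ⟨hi.1.2, by rw [← hcl]; exact hi.2⟩
  have hnB : nB N p - (2 * N - 2 * c) ≤ (selP p e).card :=
    (Nat.sub_le_sub_right (nB_le (A := N) hp5) _).trans (selP_card he hc)
  obtain ⟨e1, he1⟩ := Nat.exists_eq_add_of_le hE
  obtain ⟨e2, he2⟩ := Nat.exists_eq_add_of_le hsum
  obtain ⟨e3, he3⟩ := Nat.exists_eq_add_of_le hnB
  have hAp : c ≤ p ^ 2 := by omega
  have hfac := fac_sq_mem (p := p) hAp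
  have hdes := det_designR w sg cc LA LB e (fun t => toK p (bP p c t))
    (fun t => toK p (bQ p c t)) (fun t => bP_deg t) (fun t => bQ_deg t) leadD_bQ
  refine ⟨((p : K) ^ (2 * Sfl p c) * (∏ i ∈ range c, ((i.factorial : K))⁻¹) ^ 2) *
    (p ^ (3 * e1 + e2 + e3) * s), ?_, ?_⟩
  · exact (Op p).mul_mem hfac ((Op p).mul_mem ((Op p).pow_mem hpK _) hs)
  · rw [hdes]
    rw [he2]
    rw [he3] at hdet
    set SS := ∑ a, eC ((univ.filter fun i => e i ∈ singS p N).filter
      (fun i => cl (e i) = a)).card with hSS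
    have e9 : 2 * Sfl p c + 9 + (SS + e2) =
        2 * Sfl p c + (3 * e1 + e2) + (3 * E.card + SS) := by omega
    rw [e9, pow_add, pow_add]
    have hd2 : (pairsR w sg cc LA LB e (fun t => toK p (bP p c t))
        (fun t => toK p (bQ p c t))).det = T.det := rfl
    rw [hd2]
    have e10 : (p : K) ^ (2 * Sfl p c) * p ^ (3 * e1 + e2) * p ^ (3 * E.card + SS) *
        ((∏ i ∈ range c, ((i.factorial : K))⁻¹) ^ 2 * T.det) =
        ((p : K) ^ (2 * Sfl p c) * (∏ i ∈ range c, ((i.factorial : K))⁻¹) ^ 2) *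
        p ^ (3 * e1 + e2) * (p ^ (3 * E.card + SS) * T.det) := by
      ring
    rw [e10, hdet, pow_add, pow_add _ (3 * e1 + e2) e3]
    ring

/-- **Rule B for `N + 3 ≤ p`, chosen rows.** -/
theorem ruleB2R (hp5 : 5 ≤ p) (hw : SeqP p w r sg m0) (hcc : ∀ j, cc j ∈ Op p)
    (hLA : ∀ j (i : ℕ), LA j (X ^ i) ∈ (toK p).range)
    (hLB : ∀ j (i : ℕ), LB j (X ^ i) ∈ (toK p).range)
    (hc : c ≤ N) (hA : N + 3 ≤ p) (e : Fin c ⊕ Fin c → Nd N) (he : Function.Injective e) :
    ∃ s ∈ Op p, ((designR w sg cc LA LB N c).submatrix e id).det =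
      p ^ ((2 * N + 3 - p) - (2 * N - 2 * c)) * s := by
  have hpK : (p : K) ∈ Op p := natCast_mem _ p
  have hp0 : (p : K) ≠ 0 := Nat.cast_ne_zero.mpr hp.out.ne_zero
  choose G1 hG1 using fun t : Fin c ⊕ Fin c =>
    part_range (p := p) (cc := cc) hcc hLA hLB 0 (bP p c t) (bQ' p c t)
  choose G2 hG2 using fun t : Fin c ⊕ Fin c =>
    part_range (p := p) (cc := cc) hcc hLA hLB 1 (bP p c t) (bQ' p c t)
  set T : Matrix (Fin c ⊕ Fin c) (Fin c ⊕ Fin c) K := pairsR w sg cc LA LB e
    (fun t => toK p (bP p c t)) (fun t => toK p (bQ' p c t)) with hT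
  have hTe : ∀ i j, T i j = Fv w sg (toK p (bP p c j)) (toK p (bQ' p c j))
      (toK p (G1 j)) (toK p (G2 j)) (nodeZ N (e i)) := by
    intro i j
    rw [hT, pairsR, Matrix.of_apply, rowPQ, ← hG1, ← hG2]
  have hpair : ∀ i ∈ selP p e, ∀ j, ∃ s ∈ Op p, T i j - T (selM p e i) j = p * s := by
    intro i hi j
    have hsp := selM_spec hi
    have hi' : e i ∈ pairS p N := by
      rw [selP, mem_filter] at hi
      exact hi.2.1
    have hm := mate_z hi'
    rw [pairS, mem_filter] at hi'
    obtain ⟨s, hs, e'⟩ := hw.row_pair (a := nodeZ N (e i)) (by omega) (by omega)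
      (bP p c j) (bQ' p c j) (G1 j) (G2 j)
    refine ⟨s, hs, ?_⟩
    rw [hTe, hTe, hsp, hm]
    exact e'
  have hint : ∀ i j, T i j ∈ Op p := by
    intro i j
    have hb := nodeZ_bounds (e i)
    have hA' : (N : ℤ) + 3 ≤ p := by exact_mod_cast hA
    rw [hTe]
    unfold Fv
    exact (Op p).add_mem ((Op p).add_mem ((Op p).add_mem
      ((Op p).mul_mem (eval_toK_mem _ _) (hw.int _ (by omega) (by omega)))
      ((Op p).mul_mem (eval_toK_mem _ _) (hw.int _ (by omega) (by omega))))
      (eval_toK_mem _ _)) ((Op p).mul_mem (hw.sg_mem _) (eval_toK_mem _ _))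
  obtain ⟨s, hs, hdet⟩ := det_ruleB (κ := Fin 1) (Op p) hpK hp0 T ∅ (fun _ => 0)
    (fun _ => 0) (fun _ => 0) (fun _ => 0) (fun _ _ => 0) (fun _ _ => 0) (fun _ _ => 0)
    (fun _ _ => 0) ∅ (selP p e) (selM p e)
    (fun i hi => absurd hi (by simp)) (fun i hi => absurd hi (by simp))
    (fun i hi => absurd hi (by simp)) (fun _ _ _ => (Op p).zero_mem)
    (fun _ _ _ => (Op p).zero_mem) (fun _ _ _ => (Op p).zero_mem)
    (fun i hi => absurd hi (by simp)) (fun i hi => absurd hi (by simp))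
    (fun i _ j _ => hint i j) (fun i j hj => absurd hj (by simp))
    (fun i _ => by simp) (fun i hi => selM_notin hi)
    (fun i hi j _ => hpair i hi j) (fun i hi j hj => absurd hj (by simp))
  have hnB : nB N p - (2 * N - 2 * c) ≤ (selP p e).card :=
    (Nat.sub_le_sub_right (nB_le (A := N) hp5) _).trans (selP_card he hc)
  have hnB' : nB N p = 2 * N + 3 - p := by
    unfold nB
    rw [if_neg (by omega)]
  rw [hnB'] at hnB
  obtain ⟨e3, he3⟩ := Nat.exists_eq_add_of_le hnB
  have hp1 : 1 ≤ p := hp.out.pos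
  have hAp : c ≤ p ^ 2 := by nlinarith
  have hfac := fac_sq_mem (p := p) hAp
  have hS : Sfl p c = 0 := by
    unfold Sfl
    refine Finset.sum_eq_zero fun i hi => ?_
    rw [mem_range] at hi
    exact Nat.div_eq_of_lt (by omega)
  rw [hS, mul_zero, pow_zero, one_mul] at hfac
  have hdes := det_designR w sg cc LA LB e (fun t => toK p (bP p c t))
    (fun t => toK p (bQ' p c t)) (fun t => bP_deg t) (fun t => bQ'_deg t) leadD_bQ'
  refine ⟨(∏ i ∈ range c, ((i.factorial : K))⁻¹) ^ 2 * (p ^ e3 * s), ?_, ?_⟩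
  · exact (Op p).mul_mem hfac ((Op p).mul_mem ((Op p).pow_mem hpK _) hs)
  · rw [hdes]
    have hd2 : (pairsR w sg cc LA LB e (fun t => toK p (bP p c t))
        (fun t => toK p (bQ' p c t))).det = T.det := rfl
    rw [hd2]
    simp only [card_empty, filter_empty, eC_zero, sum_const_zero, mul_zero, add_zero, pow_zero,
      one_mul] at hdet
    rw [hdet, he3, pow_add]
    ring

end Main

end T2
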