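import Pool.Agent.T2.SeqW
import Pool.Agent.T2.RuleBR
import Pool.Agent.T2.DesignG
import Pool.Agent.T2.Fin0

/-!
# T2: rule B for the concrete determinant `detQ`

* `seqP_wZ` : the sequence `wZ x` is a `SeqP`;
* `ruleB1_detQ`, `ruleB2_detQ` : rule B over `ℚ` (rectangular matrix, chosen rows `e`);
* `den_of_Zp` : `p^E D = p^n t`, `t ∈ Zp p` implies `¬ p ∣ (p^(E - n) D).den`.
-/

set_option autoImplicit false

namespace T2

open Finset Polynomial QS2 QS2.Cls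

theorem two_eq_mir {R : Type*} (u : ℕ → R) (z : ℤ) : two u z = u (mir z) := by
  unfold two mir
  split_ifs <;> rfl

theorem wZ_eq (x : Fin 4 → ℤ) (z : ℤ) : wZ x z = wzq (x 0) (x 1) (x 2) (x 3) z :=
  two_eq_mir _ z

theorem sgn_eq (z : ℤ) : sgn z = sgq z := two_eq_mir _ z

variable {p : ℕ} [hp : Fact p.Prime]

theorem intCast_mem_Zp' (z : ℤ) : (z : ℚ) ∈ Zp p := intCast_mem _ z

/-- **the instance for `wZ x`** -/
theorem seqP_wZ (hp5 : 5 ≤ p) (x : Fin 4 → ℤ) :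
    SeqP p (fun z => ((wZ x z : ℚ) : K)) (rz (x 1) (x 3)) (fun z => ((sgn z : ℚ) : K))
      (((-6 * (x 2 : ℚ) : ℚ)) : K) := by
  have h := seqP_wz (p := p) hp5 (intCast_mem_Zp' (x 0)) (intCast_mem_Zp' (x 1))
    (intCast_mem_Zp' (x 2)) (intCast_mem_Zp' (x 3))
  have e1 : (fun z => ((wZ x z : ℚ) : K)) = wz (x 0) (x 1) (x 2) (x 3) :=
    funext fun z => by rw [wZ_eq]; rfl
  have e2 : (fun z => ((sgn z : ℚ) : K)) = sgz := funext fun z => by rw [sgn_eq]; rfl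
  rw [e1, e2]
  exact h

/-- polynomials with integral coefficients -/
theorem mem_range_toK {F : K[X]} (h : ∀ i, F.coeff i ∈ Op p) : F ∈ (toK p).range := by
  have h1 : F ∈ Polynomial.lifts (Op p).subtype := by
    rw [Polynomial.lifts_iff_coeff_lifts]
    intro n
    exact ⟨⟨F.coeff n, h n⟩, rfl⟩
  obtain ⟨G, hG⟩ := (Polynomial.mem_lifts F).1 h1
  exact ⟨G, hG⟩

theorem LAs_range {s : Fin 2 → ℕ → K} (hs : ∀ j m, s j m ∈ Op p) (j : Fin 2) (i : ℕ) :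
    LAs s j (X ^ i) ∈ (toK p).range :=
  mem_range_toK (ppL_mem (hs j) (coeff_X_pow_mem _ i))

theorem LBs_range {s1 : Fin 2 → ℕ → K} (hs1 : ∀ j m, s1 j m ∈ Op p) (j : Fin 2) (i : ℕ) :
    LBs eK s1 j (X ^ i) ∈ (toK p).range := by
  refine mem_range_toK fun d => ?_
  unfold LBs
  rw [LinearMap.smul_apply, coeff_smul, smul_eq_mul]
  refine (Op p).mul_mem ?_ (ppL_mem (hs1 j) (coeff_X_pow_mem _ i) d)
  fin_cases j
  · exact (Op p).one_mem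
  · exact (Op p).neg_mem (Op p).one_mem

theorem ccK_mem (x : Fin 4 → ℤ) (j : Fin 2) : ccK x j ∈ Op p := by
  fin_cases j
  · exact (Op p).neg_mem (intCast_mem _ _)
  · exact (Op p).neg_mem (intCast_mem _ _)

/-- from `K` to `ℚ` -/
theorem Zp_of_K {E n : ℕ} {D : ℚ} (h : ∃ s ∈ Op p, (p : K) ^ E * ((D : ℚ) : K) = p ^ n * s) :
    ∃ t ∈ Zp p, (p : ℚ) ^ E * D = p ^ n * t := by
  obtain ⟨s, hs, e⟩ := h
  have hp0 : (p : ℚ) ≠ 0 := by exact_mod_cast hp.out.ne_zero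
  have hpK : (p : K) ≠ 0 := Nat.cast_ne_zero.mpr hp.out.ne_zero
  refine ⟨(p : ℚ) ^ E * D / p ^ n, ?_, by field_simp⟩
  rw [← ratCast_mem_Op]
  have e2 : (((p : ℚ) ^ E * D / p ^ n : ℚ) : K) = s := by
    push_cast
    rw [e, mul_div_cancel_left₀]
    exact pow_ne_zero _ hpK
  rw [e2]
  exact hs

variable {x : Fin 4 → ℤ} {s s1 : Fin 2 → ℕ → ℚ} {A c : ℕ}

/-- **Rule B over `ℚ`.** -/
theorem ruleB1_detQ (hp5 : 5 ≤ p) (hs : ∀ j m, s j m ∈ Zp p) (hs1 : ∀ j m, s1 j m ∈ Zp p)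
    (hc : c ≤ A) (hA : A + p + 3 ≤ p ^ 2) (e : Fin c ⊕ Fin c → Nd A)
    (he : Function.Injective e) :
    ∃ t ∈ Zp p, (p : ℚ) ^ (2 * Sfl p c + 9 + ∑ a ∈ range p, eC (sB A p a)) *
      detQ x s s1 A c e = p ^ (nB A p - (2 * A - 2 * c)) * t := by
  apply Zp_of_K
  have h := ruleB1R (N := A) (c := c) hp5 (seqP_wZ (p := p) hp5 x) (cc := ccK x) (ccK_mem x)
    (LA := LAs fun j m => ((s j m : ℚ) : K)) (LB := LBs eK fun j m => ((s1 j m : ℚ) : K))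
    (LAs_range fun j m => ratCast_mem_Op.2 (hs j m))
    (LBs_range fun j m => ratCast_mem_Op.2 (hs1 j m)) hc hA e he
  rw [← designF_K] at h
  rw [detQ_cast K]
  exact h

/-- **Rule B over `ℚ`, `A + 3 ≤ p`.** -/
theorem ruleB2_detQ (hp5 : 5 ≤ p) (hs : ∀ j m, s j m ∈ Zp p) (hs1 : ∀ j m, s1 j m ∈ Zp p)
    (hc : c ≤ A) (hA : A + 3 ≤ p) (e : Fin c ⊕ Fin c → Nd A) (he : Function.Injective e) :
    ∃ t ∈ Zp p, detQ x s s1 A c e = p ^ ((2 * A + 3 - p) - (2 * A - 2 * c)) * t := by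
  have h := ruleB2R (N := A) (c := c) hp5 (seqP_wZ (p := p) hp5 x) (cc := ccK x) (ccK_mem x)
    (LA := LAs fun j m => ((s j m : ℚ) : K)) (LB := LBs eK fun j m => ((s1 j m : ℚ) : K))
    (LAs_range fun j m => ratCast_mem_Op.2 (hs j m))
    (LBs_range fun j m => ratCast_mem_Op.2 (hs1 j m)) hc hA e he
  rw [← designF_K] at h
  have h2 : ∃ t ∈ Zp p, (p : ℚ) ^ 0 * detQ x s s1 A c e =
      p ^ ((2 * A + 3 - p) - (2 * A - 2 * c)) * t := by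
    apply Zp_of_K
    obtain ⟨s, hs, e'⟩ := h
    refine ⟨s, hs, ?_⟩
    rw [pow_zero, one_mul, detQ_cast K]
    exact e'
  obtain ⟨t, ht, e'⟩ := h2
  rw [pow_zero, one_mul] at e'
  exact ⟨t, ht, e'⟩

/-- the form used in the final inequality -/
theorem den_of_Zp {E n : ℕ} {D : ℚ} (h : ∃ t ∈ Zp p, (p : ℚ) ^ E * D = p ^ n * t) :
    ¬ p ∣ ((p : ℚ) ^ ((E : ℤ) - n) * D).den := by
  obtain ⟨t, ht, e⟩ := h
  have hp0 : (p : ℚ) ≠ 0 := by exact_mod_cast hp.out.ne_zero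
  have e2 : (p : ℚ) ^ ((E : ℤ) - n) * D = t := by
    rw [zpow_sub₀ hp0, zpow_natCast, zpow_natCast, div_mul_eq_mul_div, e,
      mul_div_cancel_left₀ _ (pow_ne_zero _ hp0)]
  rw [e2]
  apply Pool.Agent.T2.not_dvd_den_of_norm
  rw [Padic.eq_padicNorm]
  exact_mod_cast ht

end T2
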