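import Pool.Agent.T2.SmP3
import Pool.Agent.T2.DesignG
import Pool.Agent.T2.SF1b

/-!
# T2, small primes 4: the rational determinant `detQ` at every prime

`detQ_small` : `p ^ eS p A * detQ x ![sP, sM] ![sP1, sM1] A c e` is `p`-integral, `c ≤ A`, every
prime `p`, every choice `e` of rows.
-/

set_option autoImplicit false

namespace T2

open Polynomial Finset QS2SP QS2

theorem kapP_eq : kapP = kP ℚ := by
  funext m
  unfold kapP kP
  rw [show (-(1 / 8) : ℚ) = -1 / 8 by norm_num]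

theorem kapM_eq : kapM = kM ℚ := by
  funext m
  unfold kapM kM
  rw [show (-(1 / 9) : ℚ) = -1 / 9 by norm_num]

/-- the exponent of `p`, every prime -/
def eS (p A : ℕ) : ℕ := eSm (cP p + cM p) (4 * Nat.log p (A + 2) + 4) A

theorem eSm_mono {c g A B : ℕ} (h : A ≤ B) : eSm c g A ≤ eSm c g B := by
  unfold eSm
  have h1 : A ^ 2 ≤ B ^ 2 := Nat.pow_le_pow_left h 2
  have h2 : A ^ 2 / 6 ≤ B ^ 2 / 6 := Nat.div_le_div_right h1
  have h3 : A ^ 2 / 6 + 2 * A ≤ B ^ 2 / 6 + 2 * B := by omega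
  have h4 : 2 * A * g ≤ 2 * B * g := Nat.mul_le_mul_right g (by omega)
  exact Nat.add_le_add (Nat.mul_le_mul_left c h3) h4

variable {p : ℕ} [hp : Fact p.Prime]

theorem ploc_Zp : PLoc (Zp p) p := fun _ hn => inv_nat_mem_Zp hn

theorem wZ_mem (x : Fin 4 → ℤ) {A : ℕ} {z : ℤ} (h1 : -2 - (A : ℤ) ≤ z) (h2 : z ≤ (A : ℤ) + 1) :
    (p : ℚ) ^ (4 * Nat.log p (A + 2) + 4) * wZ x z ∈ Zp p := by
  have key : ∀ n : ℕ, n ≤ A + 2 → (p : ℚ) ^ (4 * Nat.log p (A + 2) + 4) * wN x n ∈ Zp p := by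
    intro n hn
    have h := wq_pow_mem (p := p) (intCast_mem_Zp (x 0)) (intCast_mem_Zp (x 1))
      (intCast_mem_Zp (x 2)) (intCast_mem_Zp (x 3)) hn
    exact pow_mul_mono (by omega) h
  unfold wZ two
  split_ifs with h
  · exact key _ (by omega)
  · exact key _ (by omega)

theorem sgn_pm' (z : ℤ) : sgn z = 1 ∨ sgn z = -1 := by
  unfold sgn two
  split_ifs
  · exact neg_one_pow_eq_or ℚ _
  · exact neg_one_pow_eq_or ℚ _

theorem sgn_mem (z : ℤ) : sgn z ∈ Zp p := by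
  rcases sgn_pm' z with h | h
  · rw [h]; exact one_mem _
  · rw [h]; exact neg_mem (one_mem _)

/-- **the denominator of the determinant at every prime** (used for the small primes) -/
theorem detQ_small (x : Fin 4 → ℤ) {A c : ℕ} (hc : c ≤ A) (e : Fin c ⊕ Fin c → Nd A) :
    (p : ℚ) ^ (eS p A) * detQ x ![sP, sM] ![sP1, sM1] A c e ∈ Zp p := by
  have hnd : ∀ n : Nd A, -2 - (A : ℤ) ≤ nodeZ A n ∧ nodeZ A n ≤ (A : ℤ) := by
    intro n
    rcases n with i | i
    · have := i.2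
      simp only [nodeZ]
      omega
    · have := i.2
      simp only [nodeZ]
      omega
  have hlog : 4 * Nat.log p c + 4 ≤ 4 * Nat.log p (A + 2) + 4 := by
    have := Nat.log_mono_right (b := p) (show c ≤ A + 2 by omega)
    omega
  have h := smallP_gen (R := Zp p) hp.out ploc_Zp (4 * Nat.log p (A + 2) + 4) c hlog
    (fun t => nodeZ A (e t)) (fun t => wZ x (nodeZ A (e t))) (fun t => wZ x (nodeZ A (e t) + 1))
    (fun t => sgn (nodeZ A (e t))) ![-(x 1 : ℚ), -(x 3 : ℚ)] ![1, -1]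
    (fun t => wZ_mem x (hnd (e t)).1 (by have := (hnd (e t)).2; omega))
    (fun t => wZ_mem x (by have := (hnd (e t)).1; omega) (by have := (hnd (e t)).2; omega))
    (fun t => sgn_mem _)
    (fun j => by
      fin_cases j
      · exact neg_mem (intCast_mem _ _)
      · exact neg_mem (intCast_mem _ _))
    (fun j => by
      fin_cases j
      · exact one_mem _
      · exact neg_mem (one_mem _))
    ((designF ℚ x ![sP, sM] ![sP1, sM1] A c).submatrix e id) (fun t i => ?_) (fun t i => ?_)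
    (Equiv.refl _)
  · have h2 : (p : ℚ) ^ (eSm (cP p + cM p) (4 * Nat.log p (A + 2) + 4) c) *
        detQ x ![sP, sM] ![sP1, sM1] A c e ∈ Zp p := h
    exact pow_mul_mono (eSm_mono hc) h2
  · simp only [Matrix.submatrix_apply, id_eq, designF, Matrix.cons_val_zero,
      Matrix.cons_val_one, Rat.cast_id, ← kapP_eq, ← kapM_eq]
    change _ = _ + -(x 1 : ℚ) * (pp (fun m => sP m) _).eval _ +
      _ * (-(x 3 : ℚ) * (pp (fun m => sM m) _).eval _)
    ring
  · simp only [Matrix.submatrix_apply, id_eq, designF, Matrix.cons_val_zero,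
      Matrix.cons_val_one, Rat.cast_id, ← kapP_eq, ← kapM_eq, eval_smul, smul_eq_mul]
    change _ = _ + -(x 1 : ℚ) * (1 * (pp (fun m => sP1 m) _).eval _) +
      _ * (-(x 3 : ℚ) * (-1 * (pp (fun m => sM1 m) _).eval _))
    ring

/-- the same as a norm -/
theorem detQ_small_norm (x : Fin 4 → ℤ) {A c : ℕ} (hc : c ≤ A) (e : Fin c ⊕ Fin c → Nd A) :
    padicNorm p ((p : ℚ) ^ (eS p A) * detQ x ![sP, sM] ![sP1, sM1] A c e) ≤ 1 :=
  mem_Zp.1 (detQ_small x hc e)

/-! ### size -/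

theorem eS_two (A : ℕ) : (eS 2 A : ℝ) * Real.log 2 ≤
    Real.log 2 / 2 * (A : ℝ) ^ 2 + 22 * A * Real.log ((A : ℝ) + 2) := by
  have h := eSm_log (p := 2) (A := A) le_rfl (by omega) 3
  have h2 : Real.log 2 ≤ Real.log ((A : ℝ) + 2) := by
    apply Real.log_le_log (by norm_num)
    have : (0 : ℝ) ≤ A := Nat.cast_nonneg A
    linarith
  have hA0 : (0 : ℝ) ≤ A := Nat.cast_nonneg A
  have h3 := mul_le_mul_of_nonneg_left h2 hA0
  unfold eS
  rw [cP_two, cM_two]
  push_cast at h ⊢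
  nlinarith

theorem eS_three {A : ℕ} (hA : 1 ≤ A) : (eS 3 A : ℝ) * Real.log 3 ≤
    Real.log 3 / 3 * (A : ℝ) ^ 2 + 20 * A * Real.log ((A : ℝ) + 2) := by
  have h := eSm_log (p := 3) (A := A) (by norm_num) (by omega) 2
  have hA1 : (1 : ℝ) ≤ A := by exact_mod_cast hA
  have h2 : Real.log 3 ≤ Real.log ((A : ℝ) + 2) := by
    apply Real.log_le_log (by norm_num)
    linarith
  have h3 := mul_le_mul_of_nonneg_left h2 (by linarith : (0 : ℝ) ≤ A)
  unfold eS
  rw [cP_three, cM_three]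
  push_cast at h ⊢
  nlinarith

/-- `p ≥ 5` (only used for `p ≤ √(2A) + 3`) -/
theorem eS_ge5 {q A : ℕ} (hq : 5 ≤ q) (hqA : q ≤ A + 2) : (eS q A : ℝ) * Real.log q ≤
    16 * A * Real.log ((A : ℝ) + 2) := by
  have h := eSm_log (p := q) (A := A) (by omega) hqA 0
  unfold eS
  rw [cP_of_ne (by omega), cM_of_ne (by omega)]
  push_cast at h ⊢
  linarith

end T2
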