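import Pool.Agent.T2.PInst
import Pool.Agent.T2.DesignC
import Pool.Agent.T2.SeqZ
import Pool.Agent.T2.SmP4

/-!
# T2: the p-adic side of the final inequality

`eP A p` : the exponents; `eP_sum`, `eP_zero`, `eP_int` : the three hypotheses of
`Pool.Agent.T2.final_core_int` for `D = detC x A (A - 11) e`.
-/

set_option autoImplicit false

namespace T2

open Finset Filter QS2 QS2.Cls

/-- the exponents -/
noncomputable def eP : ℕ → ℕ → ℤ := eT2 eS

theorem srule_eS : SRule eS 22 1 := by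
  refine ⟨fun A _ => ?_, fun A hA => ?_, fun A p _ hp h5 hpA => ?_⟩
  · have h := eS_two A
    push_cast
    linarith
  · have h := eS_three hA
    have h1 : (0 : ℝ) ≤ A := Nat.cast_nonneg A
    have h2 : 0 ≤ Real.log ((A : ℝ) + 2) := Real.log_nonneg (by linarith)
    have h3 : 0 ≤ (A : ℝ) * Real.log ((A : ℝ) + 2) := by positivity
    push_cast
    linarith
  · have h := eS_ge5 h5 hpA
    have h1 : (0 : ℝ) ≤ A := Nat.cast_nonneg A
    have h2 : 0 ≤ Real.log ((A : ℝ) + 2) := Real.log_nonneg (by linarith)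
    have h3 : 0 ≤ (A : ℝ) * Real.log ((A : ℝ) + 2) := by positivity
    push_cast
    linarith

/-- **the prime sum** -/
theorem eP_sum : ∀ᶠ A : ℕ in atTop, ∑ p ∈ (Ioc 0 (2 * A + 3)).filter Nat.Prime,
    (eP A p : ℝ) * Real.log p ≤ 2.4965 * (A : ℝ) ^ 2 :=
  primes_sum_eT2 srule_eS

theorem eP_zero : ∀ᶠ A : ℕ in atTop, ∀ p : ℕ, p.Prime → 2 * A + 3 < p → eP A p = 0 :=
  eT2_zero_event eS

theorem eP_int_aux {A : ℕ} (hA : 30 ≤ A) (x : Fin 4 → ℤ)
    (e : Fin (A - 11) ⊕ Fin (A - 11) → Nd A) (he : Function.Injective e) (p : ℕ)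
    (hp : p.Prime) : ¬ p ∣ ((p : ℚ) ^ (eP A p) * detC x A (A - 11) e).den := by
  have : Fact p.Prime := ⟨hp⟩
  unfold eP eT2
  by_cases h1 : p < 5 ∨ p ^ 2 ≤ 4 * A
  · rw [if_pos h1]
    have h := detQ_small (p := p) x (Nat.sub_le A 11) e
    have h2 := den_of_Zp (p := p) (E := eS p A) (n := 0) (D := detC x A (A - 11) e)
      ⟨_, h, by rw [pow_zero, one_mul]; rfl⟩
    simpa using h2
  · rw [if_neg h1]
    have h5 : 5 ≤ p := by omega
    have h4 : 4 * A < p ^ 2 := by omega
    by_cases h3 : 3 * p ≤ A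
    · rw [if_pos h3]
      have hM : dg p + 3 ≤ A - 11 := by
        unfold dg
        omega
      have h := ruleA_C (p := p) h5 x (A := A) (c := A - 11) (by omega) (Nat.sub_le _ _) hM e
      have h2 := den_of_Zp (p := p) (E := eCls (A - 11) 0 p) (n := 0) (D := detC x A (A - 11) e)
        ⟨_, h, by rw [pow_zero, one_mul]⟩
      simpa using h2
    · rw [if_neg h3]
      by_cases h6 : p ≤ A + 2
      · rw [if_pos h6]
        have h := ruleB1_detQ (p := p) (x := x) (s := sQ) (s1 := sQ1) (A := A) (c := A - 11) h5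
          (fun j m => sQ_mem h5 j m) (fun j m => sQ1_mem h5 j m) (Nat.sub_le _ _) (by omega) e he
        exact den_of_Zp h
      · rw [if_neg h6]
        have h := ruleB2_detQ (p := p) (x := x) (s := sQ) (s1 := sQ1) (A := A) (c := A - 11) h5
          (fun j m => sQ_mem h5 j m) (fun j m => sQ1_mem h5 j m) (Nat.sub_le _ _) (by omega) e he
        obtain ⟨t, ht, h7⟩ := h
        have h2 := den_of_Zp (p := p) (E := 0) (n := (2 * A + 3 - p) - (2 * A - 2 * (A - 11)))
          (D := detC x A (A - 11) e) ⟨t, ht, by rw [pow_zero, one_mul]; exact h7⟩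
        simpa using h2

/-- **integrality** -/
theorem eP_int : ∀ᶠ A : ℕ in atTop, ∀ (x : Fin 4 → ℤ)
    (e : Fin (A - 11) ⊕ Fin (A - 11) → Nd A), Function.Injective e → ∀ p : ℕ, p.Prime →
    ¬ p ∣ ((p : ℚ) ^ (eP A p) * detC x A (A - 11) e).den := by
  filter_upwards [eventually_ge_atTop 30] with A hA x e he p hp
  exact eP_int_aux hA x e he p hp

end T2
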