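import Pool.Agent.T2.Fin3
import Pool.Agent.T2.PInt

/-!
# T2: assembly, with the `p`-adic side put in
-/

set_option autoImplicit false

namespace T2

open Finset Filter QS2

theorem pside : PSide 2.4965 :=
  ⟨fun A => 2 * A + 3, eP, eP_sum, eP_zero, eP_int⟩

/-- the conclusion from the real side alone -/
theorem concl_of_real {K E k : ℝ} (hK : 0 < K) (hE : 3994.4 < E)
    (hk1 : 80 * K / (E - 3994.4) < k) (hk2 : (21.32 : ℝ) ≤ k) (hR : RealSide K E) :
    LinearIndependent ℚ ![(1 : ℝ), Real.pi ^ 2, zeta3, L3] ∧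
    ∃ c : ℝ, 0 < c ∧ ∀ x y z t : ℤ, ¬ (x = 0 ∧ y = 0 ∧ z = 0 ∧ t = 0) →
      c * ht4 x y z t ^ (- k) ≤ |(x : ℝ) + y * Real.pi ^ 2 + z * zeta3 + t * L3| := by
  have h1 : (1600 : ℝ) * 2.4965 = 3994.4 := by norm_num
  obtain ⟨c, hc, h⟩ := measure_of_sides hK (by rw [h1]; exact hE) (by rw [h1]; exact hk1) hk2
    hR pside
  exact ⟨linearIndependent_of_measure hc h, c, hc, h⟩

end T2
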