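import Pool.Agent.T2.R8DefsC

/-!
# T2, real side: the glue (R4 + R6 + R7 + R8, number of poles to infinity)
-/

set_option autoImplicit false

namespace T2

open Finset Matrix Complex Filter Topology

/-- The determinant of a matrix whose entries are node terms plus convergent series over the
poles, from R7 and a bound for the product of R7 that is uniform in the number of poles. -/
theorem block_core {n : ℕ} (N : Fin (40 * n) → ℕ)
    (pol : ℕ × Bool → ℂ) (him : ∀ q, |(pol q).im| ≤ 1 / 4)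
    (hre : ∀ q, (pol q).re = (q.1 : ℝ) + 1 / 2)
    (vn : Fin (40 * n) → Fin (40 * n) → ℂ) (vp : ℂ → Fin (40 * n) → ℂ)
    (ν a b : Fin (40 * n) → ℂ) (a' b' : ℕ × Bool → ℂ) {Ka W Kv Cst : ℝ}
    (hKa : 1 ≤ Ka) (hKv : 0 ≤ Kv)
    (ha : ∀ i, ‖a i‖ ≤ Ka) (hb : ∀ i, ‖b i‖ ≤ Ka)
    (hν : ∀ i, ‖ν i‖ ≤ W * (3 / 100) ^ (N i))
    (ha' : ∀ q, ‖a' q‖ ≤ W * ((q.1 : ℝ) + 1) * (3 / 100) ^ q.1)
    (hb' : ∀ q, ‖b' q‖ ≤ W * ((q.1 : ℝ) + 1) * (3 / 100) ^ q.1)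
    (hsep : ∀ i q, 1 / 5 ≤ ‖(N i : ℂ) ^ 2 - pol q ^ 2‖)
    (hV : ∀ J : ℕ, ∀ t : Fin (40 * n) ↪ Fin (40 * n) ⊕ (Fin J × Bool),
      ‖(Matrix.of fun j i => Sum.elim vn (fun p : Fin J × Bool => vp (pol (p.1, p.2))) (t j) i).det‖
        ≤ Kv * ∏ i, ∏ j ∈ Ioi i,
          ‖Sum.elim (fun k => (N k : ℂ)) (fun p : Fin J × Bool => pol (p.1, p.2)) (t j) -
            Sum.elim (fun k => (N k : ℂ)) (fun p : Fin J × Bool => pol (p.1, p.2)) (t i)‖)
    (D : Matrix (Fin (40 * n)) (Fin (40 * n)) ℂ)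
    (hD : ∀ i k, HasSum (fun j : ℕ => ∑ β : Bool,
      (a i * a' (j, β) + b i * b' (j, β)) / ((N i : ℂ) ^ 2 - pol (j, β) ^ 2) *
        vp (pol (j, β)) k) (D i k - ν i * vn i k))
    (hw : 0 < wTr (R8.zT n))
    (hC : 0 < Cau0 (fun l => R8.sT n l ^ 2) (fun l => R8.tT n l ^ 2))
    (sep_z : ∀ t : ℂ, |t.im| ≤ 1 / 4 → ∀ i, 1 / 2 ≤ ‖t - R8.zT n i‖)
    (sep_s : ∀ t : ℂ, |t.im| ≤ 1 / 4 → ∀ l, 1 / 2 ≤ ‖t ^ 2 - R8.sT n l ^ 2‖)
    (sep_t : ∀ t : ℂ, |t.im| ≤ 1 / 4 → ∀ l, 1 / 2 ≤ ‖t ^ 2 - R8.tT n l ^ 2‖)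
    (sep_ts : ∀ k l, 1 / 2 ≤ ‖R8.tT n k ^ 2 - R8.sT n l ^ 2‖)
    (hR8 : ∀ J : ℕ, ∀ s : Fin J × Bool → ℂ,
      (∀ p, (s p).re = p.1 + 1 / 2 ∧ |(s p).im| ≤ 1 / 4) →
      (wTr (R8.zT n))⁻¹ * (Cau0 (fun l => R8.sT n l ^ 2) (fun l => R8.tT n l ^ 2))⁻¹ ^ 2 *
        (∏ i, hTr (R8.sT n) (R8.tT n) (N i)) * R8.LC n ^ (40 * n) *
        (∏ i, (1 + W * (3 / 100) ^ (N i) * gTr (R8.zT n) (R8.sT n) (R8.tT n) (N i) / R8.LC n)) *
        (∏ p : Fin J × Bool, (1 + W * ((p.1 : ℝ) + 1) * (3 / 100) ^ (p.1 : ℕ) *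
          gTr (R8.zT n) (R8.sT n) (R8.tT n) (s p) / R8.LC n)) ≤ Cst) :
    ‖D.det‖ ≤ Kv * (6 ^ (40 * n) * Ka ^ (40 * n) *
      (((40 * n).factorial : ℝ) * 5 ^ (40 * n)) *
        (((40 * n + 7 * n).factorial : ℝ) * 5 ^ (40 * n + 7 * n)) ^ 2) * Cst := by
  classical
  set F : ℝ := Kv * (6 ^ (40 * n) * Ka ^ (40 * n) *
      (((40 * n).factorial : ℝ) * 5 ^ (40 * n)) *
        (((40 * n + 7 * n).factorial : ℝ) * 5 ^ (40 * n + 7 * n)) ^ 2) with hF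
  have hF0 : 0 ≤ F := by positivity
  -- the truncated matrices
  set X : ℕ → Matrix (Fin (40 * n)) (Fin (40 * n)) ℂ := fun J => Matrix.of fun i k =>
    ν i * vn i k + ∑ p : Fin J × Bool,
      (a i * a' (p.1, p.2) + b i * b' (p.1, p.2)) / ((N i : ℂ) ^ 2 - pol (p.1, p.2) ^ 2) *
        vp (pol (p.1, p.2)) k with hX
  have hbound : ∀ J, ‖(X J).det‖ ≤ F * Cst := by
    intro J
    have h7 := R7 (fun i => (N i : ℂ)) (fun p : Fin J × Bool => pol (p.1, p.2))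
      (Sum.elim vn (fun p : Fin J × Bool => vp (pol (p.1, p.2)))) ν a b
      (fun p : Fin J × Bool => a' (p.1, p.2)) (fun p : Fin J × Bool => b' (p.1, p.2))
      (R8.zT n) (R8.sT n) (R8.tT n) (δ := 1 / 5) (Ka := Ka) (Kv := Kv) (Λ := R8.LC n)
      (wn := fun i => W * (3 / 100) ^ (N i))
      (ws := fun p : Fin J × Bool => W * ((p.1 : ℝ) + 1) * (3 / 100) ^ (p.1 : ℕ))
      (by norm_num) (by norm_num) hKa hKv (R8.LC_pos n) (hV J)
      (fun i l => le_trans (by norm_num) (sep_z (N i : ℂ) (by simp) l))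
      (fun p l => le_trans (by norm_num) (sep_z _ (him _) l))
      (fun i p => hsep i _)
      (fun i l => le_trans (by norm_num) (sep_s (N i : ℂ) (by simp) l))
      (fun p l => le_trans (by norm_num) (sep_t _ (him _) l))
      (fun k l => le_trans (by norm_num) (sep_ts k l))
      (fun i l h => by
        have := sep_t (N i : ℂ) (by simp) l
        rw [h, sub_self, norm_zero] at this
        norm_num at this)
      (fun p l h => by
        have := sep_s _ (him (p.1, p.2)) l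
        rw [h, sub_self, norm_zero] at this
        norm_num at this)
      hw hC ha hb hν (fun p => ha' _) (fun p => hb' _)
    have h8 := hR8 J (fun p : Fin J × Bool => pol (p.1, p.2)) fun p => ⟨hre _, him _⟩
    refine h7.trans ?_
    have e5 : (1 : ℝ) / (1 / 5) = 5 := by norm_num
    rw [e5]
    calc _ = F * ((wTr (R8.zT n))⁻¹ *
        (Cau0 (fun l => R8.sT n l ^ 2) (fun l => R8.tT n l ^ 2))⁻¹ ^ 2 *
        (∏ i, hTr (R8.sT n) (R8.tT n) (N i)) * R8.LC n ^ (40 * n) *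
        (∏ i, (1 + W * (3 / 100) ^ (N i) * gTr (R8.zT n) (R8.sT n) (R8.tT n) (N i) / R8.LC n)) *
        (∏ p : Fin J × Bool, (1 + W * ((p.1 : ℝ) + 1) * (3 / 100) ^ (p.1 : ℕ) *
          gTr (R8.zT n) (R8.sT n) (R8.tT n) (pol (p.1, p.2)) / R8.LC n))) := by
          rw [hF]; ring
      _ ≤ F * Cst := mul_le_mul_of_nonneg_left h8 hF0
  -- the limit
  have hlim : Tendsto X atTop (𝓝 D) := by
    refine tendsto_pi_nhds.2 fun i => tendsto_pi_nhds.2 fun k => ?_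
    have h1 := ((hD i k).tendsto_sum_nat).const_add (ν i * vn i k)
    rw [add_sub_cancel] at h1
    refine h1.congr fun J => ?_
    rw [hX]
    simp only [Matrix.of_apply]
    rw [Fintype.sum_prod_type, Fin.sum_univ_eq_sum_range (fun j => ∑ β : Bool,
      (a i * a' (j, β) + b i * b' (j, β)) / ((N i : ℂ) ^ 2 - pol (j, β) ^ 2) *
        vp (pol (j, β)) k)]
  have hdet : Tendsto (fun J => ‖(X J).det‖) atTop (𝓝 ‖D.det‖) :=
    ((continuous_id.matrix_det.tendsto D).comp hlim).norm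
  exact le_of_tendsto hdet (Eventually.of_forall hbound)

end T2
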