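import Pool.Agent.T2.RDefs

/-!
# T2, real side: the numerical part of the glue
-/

set_option autoImplicit false

namespace T2

open Finset

theorem lrem_rho {r : ℂ → ℂ} (hr : RFun r) (k : ℕ) :
    |QS2.lrem k| ≤ |QS2.lrem 0| * (3 / 100) ^ k := by
  induction k with
  | zero => simp
  | succ k ih =>
    have h1 := congrArg norm (hr.int k)
    rw [norm_mul, Complex.norm_real, Complex.norm_real, Real.norm_eq_abs, Real.norm_eq_abs] at h1
    have h2 := hr.bound ((k : ℂ) + 1) (by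
      simp only [Complex.add_re, Complex.natCast_re, Complex.one_re]; positivity)
    rw [h1, pow_succ]
    calc ‖r ((k : ℂ) + 1)‖ * |QS2.lrem k| ≤ 3 / 100 * (|QS2.lrem 0| * (3 / 100) ^ k) :=
          mul_le_mul h2 ih (abs_nonneg _) (by norm_num)
      _ = _ := by ring

/-- every constant is at most a power of any `q ≥ 2` -/
theorem exists_pow_ge (K0 : ℝ) : ∃ p : ℕ, ∀ q : ℝ, 2 ≤ q → K0 ≤ q ^ p := by
  obtain ⟨p, hp⟩ := pow_unbounded_of_one_lt K0 (one_lt_two (α := ℝ))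
  exact ⟨p, fun q hq => hp.le.trans (pow_le_pow_left₀ (by norm_num) hq p)⟩

theorem pow_le_qpow {q b : ℝ} {e k : ℕ} (hb0 : 0 ≤ b) (hb : b ≤ q ^ e) :
    b ^ k ≤ q ^ (e * k) := by
  rw [pow_mul]
  exact pow_le_pow_left₀ hb0 hb k

theorem fac_le_pow (m : ℕ) : ((m.factorial : ℕ) : ℝ) ≤ (m : ℝ) ^ m := by
  exact_mod_cast Nat.factorial_le_pow m

/-- the constant factors of the glue -/
theorem glue_const (K1 : ℝ) (hK1 : 0 ≤ K1) : ∃ Q : ℕ, ∀ n : ℕ, 1 ≤ n →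
    ((1 + 3 / 100 * ((((40 * n : ℕ) : ℝ)) + 1) ^ 2) ^ (40 * n) * 4 ^ (40 * n)) *
      (6 ^ (40 * n) * (K1 * (40 * n + 13)) ^ (40 * n) *
      (((40 * n).factorial : ℝ) * 5 ^ (40 * n)) *
        (((40 * n + 7 * n).factorial : ℝ) * 5 ^ (40 * n + 7 * n)) ^ 2) ≤
      ((n : ℝ) + 1) ^ (Q * n) := by
  obtain ⟨p, hp⟩ := exists_pow_ge K1
  refine ⟨8 * 40 + 2 * 40 + (3 * 40 + (p + 7) * 40 + (7 * 40 + 3 * 40) +
    (7 * 47 + 3 * 47) * 2), fun n hn => ?_⟩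
  have hn1 : (1 : ℝ) ≤ n := by exact_mod_cast hn
  set q : ℝ := (n : ℝ) + 1 with hq
  have hq2 : 2 ≤ q := by linarith
  have hq1 : 1 ≤ q := by linarith
  have hq0 : 0 ≤ q := by linarith
  have hq6 : (64 : ℝ) ≤ q ^ 6 := by
    calc (64 : ℝ) = 2 ^ 6 := by norm_num
      _ ≤ q ^ 6 := pow_le_pow_left₀ (by norm_num) hq2 6
  have hq3 : (8 : ℝ) ≤ q ^ 3 := by
    calc (8 : ℝ) = 2 ^ 3 := by norm_num
      _ ≤ q ^ 3 := pow_le_pow_left₀ (by norm_num) hq2 3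
  have hq22 : (4 : ℝ) ≤ q ^ 2 := by
    calc (4 : ℝ) = 2 ^ 2 := by norm_num
      _ ≤ q ^ 2 := pow_le_pow_left₀ (by norm_num) hq2 2
  have h1 : (1 + 3 / 100 * ((((40 * n : ℕ) : ℝ)) + 1) ^ 2) ^ (40 * n) ≤ q ^ (8 * (40 * n)) := by
    refine pow_le_qpow (by positivity) ?_
    have e1 : (((40 * n : ℕ) : ℝ)) + 1 ≤ 41 * q := by push_cast; linarith
    have e2 : ((((40 * n : ℕ) : ℝ)) + 1) ^ 2 ≤ (41 * q) ^ 2 :=
      pow_le_pow_left₀ (by positivity) e1 2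
    have e3 : q ^ 8 = q ^ 6 * q ^ 2 := by ring
    have e4 : 64 * q ^ 2 ≤ q ^ 6 * q ^ 2 := mul_le_mul_of_nonneg_right hq6 (by positivity)
    rw [e3]
    nlinarith
  have h2 : (4 : ℝ) ^ (40 * n) ≤ q ^ (2 * (40 * n)) := pow_le_qpow (by norm_num) hq22
  have h3 : (6 : ℝ) ^ (40 * n) ≤ q ^ (3 * (40 * n)) :=
    pow_le_qpow (by norm_num) (le_trans (by norm_num) hq3)
  have h4 : (K1 * (40 * n + 13)) ^ (40 * n) ≤ q ^ ((p + 7) * (40 * n)) := by
    refine pow_le_qpow (by positivity) ?_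
    have e1 : K1 ≤ q ^ p := hp q hq2
    have e2 : 40 * (n : ℝ) + 13 ≤ q ^ 7 := by
      have : q ^ 7 = q ^ 6 * q := by ring
      rw [this]
      nlinarith
    rw [pow_add]
    exact mul_le_mul e1 e2 (by positivity) (by positivity)
  have hf1 : (((40 * n).factorial : ℕ) : ℝ) ≤ q ^ (7 * (40 * n)) := by
    refine (fac_le_pow _).trans (pow_le_qpow (by positivity) ?_)
    have : q ^ 7 = q ^ 6 * q := by ring
    rw [this]
    push_cast
    nlinarith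
  have hf2 : (((40 * n + 7 * n).factorial : ℕ) : ℝ) ≤ q ^ (7 * (40 * n + 7 * n)) := by
    refine (fac_le_pow _).trans (pow_le_qpow (by positivity) ?_)
    have : q ^ 7 = q ^ 6 * q := by ring
    rw [this]
    push_cast
    nlinarith
  have h5 : (5 : ℝ) ^ (40 * n) ≤ q ^ (3 * (40 * n)) :=
    pow_le_qpow (by norm_num) (le_trans (by norm_num) hq3)
  have h6 : (5 : ℝ) ^ (40 * n + 7 * n) ≤ q ^ (3 * (40 * n + 7 * n)) :=
    pow_le_qpow (by norm_num) (le_trans (by norm_num) hq3)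
  have hprod : ((1 + 3 / 100 * ((((40 * n : ℕ) : ℝ)) + 1) ^ 2) ^ (40 * n) * 4 ^ (40 * n)) *
      (6 ^ (40 * n) * (K1 * (40 * n + 13)) ^ (40 * n) *
      (((40 * n).factorial : ℝ) * 5 ^ (40 * n)) *
        (((40 * n + 7 * n).factorial : ℝ) * 5 ^ (40 * n + 7 * n)) ^ 2) ≤
      (q ^ (8 * (40 * n)) * q ^ (2 * (40 * n))) *
      (q ^ (3 * (40 * n)) * q ^ ((p + 7) * (40 * n)) *
      (q ^ (7 * (40 * n)) * q ^ (3 * (40 * n))) *
        (q ^ (7 * (40 * n + 7 * n)) * q ^ (3 * (40 * n + 7 * n))) ^ 2) := by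
    gcongr
  refine hprod.trans (le_of_eq ?_)
  rw [← pow_add, ← pow_add, ← pow_add, ← pow_add, ← pow_add, ← pow_mul, ← pow_add, ← pow_add]
  congr 1
  ring

theorem qpow_exp (n Q : ℕ) : ((n : ℝ) + 1) ^ (Q * n) = Real.exp (Q * n * Real.log (n + 1)) := by
  have h : (0 : ℝ) < (n : ℝ) + 1 := by positivity
  rw [← Real.rpow_natCast, Real.rpow_def_of_pos h]
  push_cast
  congr 1
  ring

theorem prod_fac_inv (c : ℕ) : (∏ i : Fin c, (((i : ℕ).factorial : ℝ))⁻¹) =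
    Real.exp (-∑ i ∈ range c, Real.log (i.factorial)) := by
  rw [Real.exp_neg, Real.exp_sum, ← Finset.prod_inv_distrib,
    Fin.prod_univ_eq_prod_range (fun i => ((i.factorial : ℝ))⁻¹)]
  refine Finset.prod_congr rfl fun i _ => ?_
  rw [Real.exp_log (by exact_mod_cast Nat.factorial_pos i)]

end T2
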