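import Pool.Agent.T2.R8Defs

/-!
# T2, real side, module R8: separation and positivity of the trial points (helper58)
-/

set_option autoImplicit false

namespace T2.R8

open Finset

/-! ### Imaginary and real parts of the trial points -/

@[simp] private theorem tp_re (a d : ℝ) (j : ℕ) : (tp a d j).re = a + ((j : ℝ) + 1 / 2) / d := by
  simp [tp]

@[simp] private theorem tp_im (a d : ℝ) (j : ℕ) : (tp a d j).im = 1 := by simp [tp]

/-- piecewise sequences: the first `m` values from `f`, the others from `g` -/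
private def pw (m : ℕ) (f g : ℕ → ℂ) : ℕ → ℂ := fun i => if i < m then f i else g (i - m)

private theorem zN_eq (n : ℕ) : zN n = pw (12 * n) (tp 0 3) (pw (8 * n) (tp (4 * n) 2)
    (pw (10 * n) (tp (8 * n) (5 / 4)) (pw (6 * n) (tp (16 * n) (3 / 4)) (tp (24 * n) (1 / 2))))) := by
  funext i
  simp only [zN, pw]
  split_ifs <;> first | rfl | omega | (congr 1; omega)

private theorem tN_eq (n : ℕ) : tN n = pw (4 * n) (tp 0 1) (pw (2 * n) (tp (4 * n) (1 / 2))
    (tp (8 * n) (1 / 8))) := by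
  funext i
  simp only [tN, pw]
  split_ifs <;> first | rfl | omega | (congr 1; omega)

private theorem sN_eq (n : ℕ) : sN n = pw n (tp (16 * n) (1 / 8)) (pw (2 * n) (tp (24 * n) (1 / 4))
    (tp (32 * n) (1 / 2))) := by
  funext i
  simp only [sN, pw]
  split_ifs <;> first | rfl | omega | (congr 1; omega)

private theorem pw_im {m : ℕ} {f g : ℕ → ℂ} (hf : ∀ i, (f i).im = 1) (hg : ∀ i, (g i).im = 1) (i : ℕ) :
    (pw m f g i).im = 1 := by
  unfold pw
  split_ifs
  · exact hf i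
  · exact hg _

@[simp] theorem zN_im (n i : ℕ) : (zN n i).im = 1 := by
  rw [zN_eq]
  exact pw_im (tp_im _ _) (pw_im (tp_im _ _) (pw_im (tp_im _ _) (pw_im (tp_im _ _) (tp_im _ _)))) i

@[simp] theorem tN_im (n i : ℕ) : (tN n i).im = 1 := by
  rw [tN_eq]
  exact pw_im (tp_im _ _) (pw_im (tp_im _ _) (tp_im _ _)) i

@[simp] theorem sN_im (n i : ℕ) : (sN n i).im = 1 := by
  rw [sN_eq]
  exact pw_im (tp_im _ _) (pw_im (tp_im _ _) (tp_im _ _)) i

@[simp] theorem zT_im (n : ℕ) (i : Fin (40 * n)) : (zT n i).im = 1 := zN_im n i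
@[simp] theorem tT_im (n : ℕ) (i : Fin (7 * n)) : (tT n i).im = 1 := tN_im n i
@[simp] theorem sT_im (n : ℕ) (i : Fin (7 * n)) : (sT n i).im = 1 := sN_im n i

/-- the real parts increase strictly and are larger than `a` -/
def Inc (a : ℝ) (h : ℕ → ℂ) : Prop := StrictMono (fun i => (h i).re) ∧ ∀ i, a < (h i).re

theorem Inc_tp (a : ℝ) {d : ℝ} (hd : 0 < d) : Inc a (tp a d) := by
  refine ⟨fun i j hij => ?_, fun i => ?_⟩
  · have : (i : ℝ) < j := by exact_mod_cast hij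
    simp only [tp_re]
    have := (div_lt_div_iff_of_pos_right hd).2 (show (i : ℝ) + 1 / 2 < (j : ℝ) + 1 / 2 by linarith)
    linarith
  · have : (0 : ℝ) ≤ i := Nat.cast_nonneg i
    simp only [tp_re]
    have : 0 < ((i : ℝ) + 1 / 2) / d := by positivity
    linarith

private theorem Inc_pw {a b d : ℝ} (hd : 0 < d) {m : ℕ} {g : ℕ → ℂ} (hg : Inc b g) (hab : a + m / d ≤ b) :
    Inc a (pw m (tp a d) g) := by
  have hm : (0 : ℝ) ≤ m := Nat.cast_nonneg m
  have hm' : 0 ≤ (m : ℝ) / d := by positivity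
  have hle : a ≤ b := by linarith
  refine ⟨fun i j hij => ?_, fun i => ?_⟩
  · simp only [pw]
    split_ifs with h1 h2 h2
    · exact (Inc_tp a hd).1 hij
    · have h3 : ((i : ℝ) + 1) ≤ m := by exact_mod_cast h1
      have h4 := hg.2 (j - m)
      simp only [tp_re]
      have := (div_le_div_iff_of_pos_right hd).2 (show (i : ℝ) + 1 / 2 ≤ m by linarith)
      linarith
    · omega
    · exact hg.1 (by omega)
  · simp only [pw]
    split_ifs with h1
    · exact (Inc_tp a hd).2 i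
    · exact hle.trans_lt (hg.2 _)

theorem Inc_zN (n : ℕ) : Inc 0 (zN n) := by
  rw [zN_eq]
  refine Inc_pw (by norm_num) (b := 4 * n) (Inc_pw (by norm_num) (b := 8 * n)
    (Inc_pw (by norm_num) (b := 16 * n) (Inc_pw (by norm_num) (b := 24 * n)
      (Inc_tp _ (by norm_num)) ?_) ?_) ?_) ?_ <;> push_cast <;> linarith

theorem Inc_tN (n : ℕ) : Inc 0 (tN n) := by
  rw [tN_eq]
  refine Inc_pw (by norm_num) (b := 4 * n) (Inc_pw (by norm_num) (b := 8 * n)
      (Inc_tp _ (by norm_num)) ?_) ?_ <;> push_cast <;> linarith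

theorem Inc_sN (n : ℕ) : Inc (16 * n) (sN n) := by
  rw [sN_eq]
  refine Inc_pw (by norm_num) (b := 24 * n) (Inc_pw (by norm_num) (b := 32 * n)
      (Inc_tp _ (by norm_num)) ?_) ?_ <;> push_cast <;> linarith

theorem tN_re_le {n i : ℕ} (hi : i < 7 * n) : (tN n i).re ≤ 16 * n - 4 := by
  have hn : (1 : ℝ) ≤ n := by exact_mod_cast (by omega : 1 ≤ n)
  rw [tN_eq]
  unfold pw
  split_ifs with h1 h2
  · have h3 : ((i : ℝ) + 1) ≤ 4 * n := by exact_mod_cast h1
    simp only [tp_re]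
    linarith
  · have h3 : (((i - 4 * n : ℕ) : ℝ) + 1) ≤ 2 * n := by exact_mod_cast h2
    simp only [tp_re]
    linarith
  · have h3 : (((i - 4 * n - 2 * n : ℕ) : ℝ) + 1) ≤ n := by
      exact_mod_cast (by omega : i - 4 * n - 2 * n + 1 ≤ n)
    simp only [tp_re]
    linarith

theorem sN_re_ge {n i : ℕ} (hn1 : 1 ≤ n) : 16 * n + 4 ≤ (sN n i).re := by
  have hn : (1 : ℝ) ≤ n := by exact_mod_cast hn1
  rw [sN_eq]
  unfold pw
  split_ifs with h1 h2
  · have h3 : (0 : ℝ) ≤ i := Nat.cast_nonneg i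
    simp only [tp_re]
    linarith
  · have h3 : (0 : ℝ) ≤ ((i - n : ℕ) : ℝ) := Nat.cast_nonneg _
    simp only [tp_re]
    linarith
  · have h3 : (0 : ℝ) ≤ ((i - n - 2 * n : ℕ) : ℝ) := Nat.cast_nonneg _
    simp only [tp_re]
    linarith

theorem zT_re_pos (n : ℕ) (i : Fin (40 * n)) : 0 < (zT n i).re := (Inc_zN n).2 i
theorem tT_re_pos (n : ℕ) (i : Fin (7 * n)) : 0 < (tT n i).re := (Inc_tN n).2 i
theorem sT_re_gt (n : ℕ) (i : Fin (7 * n)) : 16 * n < (sT n i).re := (Inc_sN n).2 i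
theorem sT_re_pos (n : ℕ) (i : Fin (7 * n)) : 0 < (sT n i).re :=
  lt_of_le_of_lt (by positivity) (sT_re_gt n i)

theorem zT_strictMono (n : ℕ) : StrictMono (fun i => (zT n i).re) :=
  fun _ _ hij => (Inc_zN n).1 hij
theorem tT_strictMono (n : ℕ) : StrictMono (fun i => (tT n i).re) :=
  fun _ _ hij => (Inc_tN n).1 hij
theorem sT_strictMono (n : ℕ) : StrictMono (fun i => (sT n i).re) :=
  fun _ _ hij => (Inc_sN n).1 hij

theorem zT_inj (n : ℕ) : Function.Injective (zT n) :=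
  fun _ _ h => (zT_strictMono n).injective (congrArg Complex.re h)
theorem tT_inj (n : ℕ) : Function.Injective (tT n) :=
  fun _ _ h => (tT_strictMono n).injective (congrArg Complex.re h)
theorem sT_inj (n : ℕ) : Function.Injective (sT n) :=
  fun _ _ h => (sT_strictMono n).injective (congrArg Complex.re h)

/-! ### Separation from points near the real line -/

theorem three_quarters_le {t p : ℂ} (ht : |t.im| ≤ 1 / 4) (hp : p.im = 1) : 3 / 4 ≤ ‖t - p‖ := by
  have h1 := Complex.abs_im_le_norm (t - p)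
  rw [Complex.sub_im, hp] at h1
  have h2 := (abs_le.1 ht).2
  have h3 : 3 / 4 ≤ |t.im - 1| := by
    rw [abs_sub_comm]
    exact le_trans (by linarith) (le_abs_self _)
  exact h3.trans h1

theorem three_quarters_le' {t p : ℂ} (ht : |t.im| ≤ 1 / 4) (hp : p.im = 1) : 3 / 4 ≤ ‖t + p‖ := by
  have h1 := Complex.abs_im_le_norm (t + p)
  rw [Complex.add_im, hp] at h1
  have h2 := (abs_le.1 ht).1
  have h3 : 3 / 4 ≤ |t.im + 1| := le_trans (by linarith) (le_abs_self _)
  exact h3.trans h1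

theorem half_le_sq {t p : ℂ} (ht : |t.im| ≤ 1 / 4) (hp : p.im = 1) : 1 / 2 ≤ ‖t ^ 2 - p ^ 2‖ := by
  rw [sq_sub_sq, norm_mul]
  have h1 := three_quarters_le ht hp
  have h2 := three_quarters_le' ht hp
  nlinarith

/-- R7 `hNz`, `hsz` -/
theorem sep_z (n : ℕ) (t : ℂ) (ht : |t.im| ≤ 1 / 4) (i : Fin (40 * n)) : 1 / 2 ≤ ‖t - zT n i‖ :=
  le_trans (by norm_num) (three_quarters_le ht (zT_im n i))

/-- R7 `hNS` -/
theorem sep_s (n : ℕ) (t : ℂ) (ht : |t.im| ≤ 1 / 4) (l : Fin (7 * n)) :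
    1 / 2 ≤ ‖t ^ 2 - sT n l ^ 2‖ := half_le_sq ht (sT_im n l)

/-- R7 `hsT` -/
theorem sep_t (n : ℕ) (t : ℂ) (ht : |t.im| ≤ 1 / 4) (l : Fin (7 * n)) :
    1 / 2 ≤ ‖t ^ 2 - tT n l ^ 2‖ := half_le_sq ht (tT_im n l)

/-- R7 `hsS` -/
theorem ne_s (n : ℕ) (t : ℂ) (ht : |t.im| ≤ 1 / 4) (l : Fin (7 * n)) : t ^ 2 ≠ sT n l ^ 2 := by
  intro h
  have := sep_s n t ht l
  rw [h, sub_self, norm_zero] at this
  norm_num at this

/-- R7 `hNT` -/
theorem ne_t (n : ℕ) (t : ℂ) (ht : |t.im| ≤ 1 / 4) (l : Fin (7 * n)) : t ^ 2 ≠ tT n l ^ 2 := by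
  intro h
  have := sep_t n t ht l
  rw [h, sub_self, norm_zero] at this
  norm_num at this

/-- R7 `h00` -/
theorem sep_ts (n : ℕ) (k l : Fin (7 * n)) : 1 / 2 ≤ ‖tT n k ^ 2 - sT n l ^ 2‖ := by
  have hn : 1 ≤ n := by have := k.2; omega
  rw [sq_sub_sq, norm_mul]
  have h1 : 2 ≤ ‖tT n k + sT n l‖ := by
    have h := Complex.abs_im_le_norm (tT n k + sT n l)
    rw [Complex.add_im, tT_im, sT_im] at h
    norm_num at h
    exact h
  have h2 : 8 ≤ ‖tT n k - sT n l‖ := by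
    have h := Complex.abs_re_le_norm (tT n k - sT n l)
    rw [Complex.sub_re] at h
    have e1 : (tT n k).re ≤ 16 * n - 4 := tN_re_le k.2
    have e2 : 16 * n + 4 ≤ (sT n l).re := sN_re_ge hn
    have e3 : 8 ≤ |(tT n k).re - (sT n l).re| := by
      rw [abs_sub_comm]
      exact le_trans (by linarith) (le_abs_self _)
    exact e3.trans h
  nlinarith

/-- R7 `hNs`: nodes against poles, `N ≥ 1` an integer, `s = j + 1/2 + i y` -/
theorem sep_Ns {N j : ℕ} (hN : 1 ≤ N) {s : ℂ} (hs : s.re = j + 1 / 2) :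
    1 / 2 ≤ ‖(N : ℂ) ^ 2 - s ^ 2‖ := by
  rw [sq_sub_sq, norm_mul]
  have hN' : (1 : ℝ) ≤ N := by exact_mod_cast hN
  have hj : (0 : ℝ) ≤ j := Nat.cast_nonneg j
  have h1 : 1 ≤ ‖(N : ℂ) + s‖ := by
    have h := Complex.abs_re_le_norm ((N : ℂ) + s)
    rw [Complex.add_re, Complex.natCast_re, hs] at h
    exact le_trans (le_trans (by linarith) (le_abs_self _)) h
  have h2 : 1 / 2 ≤ ‖(N : ℂ) - s‖ := by
    have h := Complex.abs_re_le_norm ((N : ℂ) - s)
    rw [Complex.sub_re, Complex.natCast_re, hs] at h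
    refine le_trans ?_ h
    rcases le_or_gt N j with hc | hc
    · have hc' : (N : ℝ) ≤ j := by exact_mod_cast hc
      rw [abs_sub_comm]
      exact le_trans (by linarith) (le_abs_self _)
    · have hc' : (j : ℝ) + 1 ≤ N := by exact_mod_cast hc
      exact le_trans (by linarith) (le_abs_self _)
  nlinarith

/-! ### Positivity -/

theorem prod_Ioi_pos {m : ℕ} {p : Fin m → ℂ} (hp : Function.Injective p) :
    0 < ∏ i, ∏ j ∈ Ioi i, ‖p j - p i‖ :=
  Finset.prod_pos fun i _ => Finset.prod_pos fun j hj =>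
    norm_pos_iff.2 (sub_ne_zero.2 fun h => (mem_Ioi.1 hj).ne' (hp h))

/-- R7 `hz` -/
theorem wTr_pos (n : ℕ) : 0 < wTr (zT n) := prod_Ioi_pos (zT_inj n)

theorem sq_inj_of {m : ℕ} {p : Fin m → ℂ} (hp : Function.Injective p) (him : ∀ i, (p i).im = 1) :
    Function.Injective (fun i => p i ^ 2) := by
  intro i j h
  rcases sq_eq_sq_iff_eq_or_eq_neg.1 h with h1 | h1
  · exact hp h1
  · have := congrArg Complex.im h1
    rw [Complex.neg_im, him, him] at this
    norm_num at this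

theorem tT_sq_inj (n : ℕ) : Function.Injective (fun i => tT n i ^ 2) :=
  sq_inj_of (tT_inj n) (tT_im n)
theorem sT_sq_inj (n : ℕ) : Function.Injective (fun i => sT n i ^ 2) :=
  sq_inj_of (sT_inj n) (sT_im n)

/-- R7 `hCau` -/
theorem Cau0_pos (n : ℕ) : 0 < Cau0 (fun l => sT n l ^ 2) (fun l => tT n l ^ 2) :=
  div_pos (mul_pos (prod_Ioi_pos (sT_sq_inj n)) (prod_Ioi_pos (tT_sq_inj n)))
    (Finset.prod_pos fun k _ => Finset.prod_pos fun l _ =>
      lt_of_lt_of_le (by norm_num) (sep_ts n k l))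

theorem hTr_pos (n : ℕ) (_hn : 1 ≤ n) (t : ℂ) (ht : |t.im| ≤ 1 / 4) :
    0 < hTr (sT n) (tT n) t :=
  div_pos (Finset.prod_pos fun l _ => lt_of_lt_of_le (by norm_num) (sep_s n t ht l))
    (Finset.prod_pos fun l _ => lt_of_lt_of_le (by norm_num) (sep_t n t ht l))

theorem gTr_pos (n : ℕ) (_hn : 1 ≤ n) (t : ℂ) (ht : |t.im| ≤ 1 / 4) :
    0 < gTr (zT n) (sT n) (tT n) t :=
  div_pos (mul_pos (Finset.prod_pos fun i _ => lt_of_lt_of_le (by norm_num) (sep_z n t ht i))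
    (Finset.prod_pos fun l _ => lt_of_lt_of_le (by norm_num) (sep_t n t ht l)))
    (Finset.prod_pos fun l _ => lt_of_lt_of_le (by norm_num) (sep_s n t ht l))

end T2.R8
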