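import Pool.Agent.T2.RowR4
import Pool.Agent.T2.FactorC

/-!
# T2, real side, module R4: the row formula for the block functionals of `designC`

`theta x = x0 + x1 Λ(1) + x2 ζ(3) + x3 Λ(-1)`. For arbitrary integers `x` and every right node `n`

`blk s n (P(X+1)) = -x2 l_n V(N) + theta (a_n P(N) + s a_{n+1} P(-N)) + ∑_j ∑_{±} rowT`,

`N = n + 1`, `V(t) = P(t) + s r(t) P(-t)`.
-/

set_option autoImplicit false

namespace T2

open Complex Polynomial Finset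

/-- the linear form -/
noncomputable def theta (x : Fin 4 → ℤ) : ℝ :=
  (x 0 : ℝ) + (x 1 : ℝ) * Lam 1 + (x 2 : ℝ) * QS2.zeta3 + (x 3 : ℝ) * Lam (-1)

theorem wZ_nat (x : Fin 4 → ℤ) (n : ℕ) : ((wZ x (n : ℤ) : ℚ) : ℝ) =
    (x 0 : ℝ) * ((QS2.aperyA n : ℚ) : ℝ) + (x 1 : ℝ) * ((cs 1 n : ℚ) : ℝ) +
      (x 2 : ℝ) * ((QS2.aperyB n : ℚ) : ℝ) + (x 3 : ℝ) * ((cs (-1) n : ℚ) : ℝ) := by
  unfold wZ wN wq
  rw [two_nat]
  push_cast
  ring

theorem sgn_nat (n : ℕ) : ((sgn (n : ℤ) : ℚ) : ℝ) = (-1) ^ n := by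
  unfold sgn
  rw [two_nat]
  push_cast
  ring

variable {r : ℂ → ℂ} {y0 : ℝ} {U : ℤ → ℂ}

/-- the sequence in terms of the transforms -/
theorem Lat.w_eq (hL : Lat r y0 U) (x : Fin 4 → ℤ) (n : ℕ) :
    ((wZ x (n : ℤ) : ℚ) : ℝ) = theta x * ((QS2.aperyA n : ℚ) : ℝ) - (x 2 : ℝ) * QS2.lrem n +
      (x 1 : ℝ) * hE y0 U 1 n + (x 3 : ℝ) * ((-1) ^ n * hE y0 U (-1) n) := by
  rw [wZ_nat, hL.hE_value_P, hL.hE_value_M]
  unfold theta QS2.lrem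
  ring

theorem Lat.pg_quot (hL : Lat r y0 U) (P : ℝ[X]) (z : ℝ) :
    PGs fun k => evC P (zl y0 k) / ((z : ℂ) - zl y0 k) := by
  simpa [div_eq_mul_inv] using (evC_pg hL.pg_zl P).mul (hL.pg_inv z)

/-- summation of the two kinds of sums -/
theorem Lat.two_sums (hL : Lat r y0 U) (a b : ℝ) (n : ℕ) {φ : ℤ → ℂ} (h : PGs φ) :
    a * sE U 1 φ + b * (-1) ^ n * sE U (-1) φ =
      ∑' k : ℤ, (a + b * (-1) ^ n * (-1) ^ k.natAbs) * (2 * (U k * φ k).re) := by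
  have h1 := (hL.summable (Or.inl rfl : IsSign 1) h).hasSum.mul_left a
  have h2 := (hL.summable (Or.inr rfl : IsSign (-1)) h).hasSum.mul_left (b * (-1) ^ n)
  have h3 := (h1.add h2).tsum_eq
  unfold sE
  rw [← h3]
  refine tsum_congr fun k => ?_
  rw [one_pow]
  ring

/-- the row of `P` at a right node -/
theorem Lat.rwA_nat (hL : Lat r y0 U) (x : Fin 4 → ℤ) (n : ℕ) (P : ℝ[X]) :
    rwA ℝ x sQ (n : ℤ) P - theta x * (P.eval (n : ℝ) * ((QS2.aperyA n : ℚ) : ℝ)) =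
      -(x 2 : ℝ) * P.eval (n : ℝ) * QS2.lrem n +
      ∑' k : ℤ, ((x 1 : ℝ) * cE y0 U 1 +
        (x 3 : ℝ) * cE y0 U (-1) * (-1) ^ n * (-1) ^ k.natAbs) *
        (2 * (U k * aeval (zl y0 k) P / ((n : ℂ) - zl y0 k)).re) := by
  have hs : (∑' k : ℤ, ((x 1 : ℝ) * cE y0 U 1 +
        (x 3 : ℝ) * cE y0 U (-1) * (-1) ^ n * (-1) ^ k.natAbs) *
        (2 * (U k * aeval (zl y0 k) P / ((n : ℂ) - zl y0 k)).re)) =
      (x 1 : ℝ) * cE y0 U 1 * sE U 1 (fun k => evC P (zl y0 k) / (((n : ℝ) : ℂ) - zl y0 k)) +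
      (x 3 : ℝ) * cE y0 U (-1) * (-1) ^ n *
        sE U (-1) (fun k => evC P (zl y0 k) / (((n : ℝ) : ℂ) - zl y0 k)) := by
    rw [hL.two_sums _ _ _ (hL.pg_quot P n)]
    refine tsum_congr fun k => ?_
    rw [mul_div_assoc, Complex.ofReal_natCast]
    rfl
  rw [hs, rwA_apply, hL.w_eq, sgn_nat]
  have e0 : (fun m => ((sQ 0 m : ℚ) : ℝ)) = mom y0 U 1 fun k => zl y0 k := by
    rw [hL.mom_P.1]
    rfl
  have e1 : (fun m => ((sQ 1 m : ℚ) : ℝ)) = mom y0 U (-1) fun k => zl y0 k := by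
    rw [hL.mom_M.1]
    rfl
  rw [e0, e1, Int.cast_natCast, hL.pp_hE (Or.inl rfl : IsSign 1) P n,
    hL.pp_hE (Or.inr rfl : IsSign (-1)) P n]
  ring

/-- shift of the lattice, with the two kinds of sums -/
theorem Lat.rwB_nat (hL : Lat r y0 U) (x : Fin 4 → ℤ) (n : ℕ) (P : ℝ[X]) :
    rwB ℝ x sQ1 (n : ℤ) P - theta x * (P.eval (n : ℝ) * ((QS2.aperyA (n + 1) : ℚ) : ℝ)) =
      -(x 2 : ℝ) * P.eval (n : ℝ) * QS2.lrem (n + 1) +
      ∑' k : ℤ, ((x 1 : ℝ) * cE y0 U 1 +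
        (x 3 : ℝ) * cE y0 U (-1) * (-1) ^ n * (-1) ^ k.natAbs) *
        (2 * (U (k + 1) * aeval (zl y0 k) P / ((n : ℂ) - zl y0 k)).re) := by
  have hq : PGs fun k => evC P (zl y0 k - 1) / ((((n : ℝ) + 1 : ℝ) : ℂ) - zl y0 k) := by
    simpa [div_eq_mul_inv] using
      (evC_pg (hL.pg_zl.sub (PGs.const 1)) P).mul (hL.pg_inv ((n : ℝ) + 1))
  have hfe : (fun k => evC P (zl y0 k - 1) / ((((n : ℝ) + 1 : ℝ) : ℂ) - zl y0 k)) =
      fun k => (fun t : ℂ => evC P t / (((n : ℝ) : ℂ) - t)) (zl y0 k - 1) := by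
    funext k
    beta_reduce
    congr 1
    push_cast
    ring
  have hs : (∑' k : ℤ, ((x 1 : ℝ) * cE y0 U 1 +
        (x 3 : ℝ) * cE y0 U (-1) * (-1) ^ n * (-1) ^ k.natAbs) *
        (2 * (U (k + 1) * aeval (zl y0 k) P / ((n : ℂ) - zl y0 k)).re)) =
      (x 1 : ℝ) * cE y0 U 1 *
        sE U 1 (fun k => evC P (zl y0 k - 1) / ((((n : ℝ) + 1 : ℝ) : ℂ) - zl y0 k)) -
      (x 3 : ℝ) * cE y0 U (-1) * (-1) ^ n *
        sE U (-1) (fun k => evC P (zl y0 k - 1) / ((((n : ℝ) + 1 : ℝ) : ℂ) - zl y0 k)) := by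
    have h1 : (fun k : ℤ => ((x 1 : ℝ) * cE y0 U 1 +
        (x 3 : ℝ) * cE y0 U (-1) * (-1) ^ n * (-1) ^ k.natAbs) *
        (2 * (U (k + 1) * aeval (zl y0 k) P / ((n : ℂ) - zl y0 k)).re)) =
        fun k : ℤ => ((x 1 : ℝ) * cE y0 U 1 +
        (-((x 3 : ℝ) * cE y0 U (-1))) * (-1) ^ n * (-1) ^ (k + 1).natAbs) *
        (2 * (U (k + 1) * (evC P (zl y0 (k + 1) - 1) /
          ((((n : ℝ) + 1 : ℝ) : ℂ) - zl y0 (k + 1)))).re) := by
      funext k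
      rw [IsSign.succ_pow (e := -1) (Or.inr rfl) k, zl_succ, add_sub_cancel_right, mul_div_assoc]
      have e2 : (((n : ℝ) + 1 : ℝ) : ℂ) - (zl y0 k + 1) = (n : ℂ) - zl y0 k := by
        push_cast
        ring
      rw [e2]
      unfold evC
      ring
    rw [h1]
    have h2 := (Equiv.addRight (1 : ℤ)).tsum_eq (fun k : ℤ => ((x 1 : ℝ) * cE y0 U 1 +
        (-((x 3 : ℝ) * cE y0 U (-1))) * (-1) ^ n * (-1) ^ k.natAbs) *
        (2 * (U k * (evC P (zl y0 k - 1) / ((((n : ℝ) + 1 : ℝ) : ℂ) - zl y0 k))).re))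
    have h3 := hL.two_sums ((x 1 : ℝ) * cE y0 U 1) (-((x 3 : ℝ) * cE y0 U (-1))) n hq
    refine Eq.trans (h2.trans h3.symm) ?_
    ring
  rw [hs, rwB_apply]
  have hw := hL.w_eq x (n + 1)
  push_cast at hw
  rw [hw, sgn_nat]
  have e0 : (fun m => ((sQ1 0 m : ℚ) : ℝ)) = mom y0 U 1 fun k => zl y0 k - 1 := by
    rw [hL.mom_P.2]
    rfl
  have e1 : (fun m => ((sQ1 1 m : ℚ) : ℝ)) = mom y0 U (-1) fun k => zl y0 k - 1 := by
    rw [hL.mom_M.2]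
    rfl
  rw [e0, e1, Int.cast_natCast, hL.pp_hE1 (Or.inl rfl : IsSign 1) P n,
    hL.pp_hE1 (Or.inr rfl : IsSign (-1)) P n]
  rw [pow_succ]
  ring

theorem hasSum_of_eq {f : ℕ → ℂ} {a b : ℂ} (h : HasSum f a) (e : b = a) : HasSum f b := by
  rw [e]
  exact h

/-- **R4: the row formula**, arbitrary integers `x`, arbitrary real polynomial `P` -/
theorem blk_row (hr : RFun r) (hL : Lat r y0 U) {s : ℝ} (hs : s = 1 ∨ s = -1) (x : Fin 4 → ℤ)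
    (P : ℝ[X]) (n : ℕ) :
    HasSum (fun j : ℕ => ∑ β : Bool,
        rowT r y0 U s ((x 1 : ℝ) * cE y0 U 1) ((x 3 : ℝ) * cE y0 U (-1)) P n (j, β))
      (((blk ℝ x sQ sQ1 s (n : ℤ) (P.comp (X + 1)) : ℝ) : ℂ) -
        (-((x 2 : ℝ) : ℂ) * ((QS2.lrem n : ℝ) : ℂ) * vev r s P ((n : ℂ) + 1) +
          ((theta x * (((QS2.aperyA n : ℚ) : ℝ) * P.eval ((n : ℝ) + 1) +
            s * (((QS2.aperyA (n + 1) : ℚ) : ℝ) * P.eval (-1 - (n : ℝ)))) : ℝ) : ℂ))) := by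
  have hA := hL.rwA_nat x n (P.comp (X + 1))
  have hB := hL.rwB_nat x n (P.comp (-1 - X))
  have e1 : (P.comp (X + 1)).eval (n : ℝ) = P.eval ((n : ℝ) + 1) := by
    rw [eval_comp]
    simp
  have e2 : (P.comp (-1 - X)).eval (n : ℝ) = P.eval (-1 - (n : ℝ)) := by
    rw [eval_comp]
    simp
  rw [e1] at hA
  rw [e2] at hB
  have h := row_core hr hL hs P n ((x 1 : ℝ) * cE y0 U 1) ((x 3 : ℝ) * cE y0 U (-1)) (x 2 : ℝ)
    _ _ hA hB
  have hrf : rf (P.comp (X + 1)) = P.comp (-1 - X) := by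
    unfold rf
    rw [comp_assoc]
    congr 1
    rw [add_comp, X_comp, one_comp]
    ring
  refine hasSum_of_eq h ?_
  unfold blk
  rw [hrf]
  push_cast
  ring

/-- the row formula for the power basis, in the form `l_n (x_n V(N) + y_n (-N)^i)` -/
theorem blk_row_pow (hr : RFun r) (hL : Lat r y0 U) {s : ℝ} (hs : s = 1 ∨ s = -1)
    (x : Fin 4 → ℤ) (c : ℕ) (i : Fin c) (n : ℕ) :
    HasSum (fun j : ℕ => ∑ β : Bool,
        (rowa s ((x 1 : ℝ) * cE y0 U 1) n * rowA' y0 U s (j, β) +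
          rowb s ((x 3 : ℝ) * cE y0 U (-1)) n * rowB' y0 U s (j, β)) /
        (((n : ℂ) + 1) ^ 2 - pol y0 (j, β) ^ 2) * vrow c r (s : ℂ) (pol y0 (j, β)) i)
      (((blk ℝ x sQ sQ1 s (n : ℤ) (BB ℝ i) : ℝ) : ℂ) -
        ((QS2.lrem n : ℝ) : ℂ) *
          (((-(x 2 : ℝ) + theta x * ((QS2.aperyA n : ℚ) : ℝ) / QS2.lrem n : ℝ) : ℂ) *
            vrow c r (s : ℂ) ((n : ℂ) + 1) i +
          ((s * (theta x / QS2.lrem n) : ℝ) : ℂ) *
            (((((QS2.aperyA (n + 1) : ℚ) : ℝ) : ℂ)) -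
              (((QS2.aperyA n : ℚ) : ℝ) : ℂ) * r ((n : ℂ) + 1)) *
            (-((n : ℂ) + 1)) ^ (i : ℕ))) := by
  have h := blk_row hr hL hs x ((X : ℝ[X]) ^ (i : ℕ)) n
  have hBB : BB ℝ (i : ℕ) = ((X : ℝ[X]) ^ (i : ℕ)).comp (X + 1) := by
    unfold BB
    rw [pow_comp, X_comp]
  rw [hBB]
  have hl : ((QS2.lrem n : ℝ) : ℂ) ≠ 0 := by
    exact_mod_cast (QS2.lrem_pos' n).ne'
  have h1 : (fun j : ℕ => ∑ β : Bool,
        rowT r y0 U s ((x 1 : ℝ) * cE y0 U 1) ((x 3 : ℝ) * cE y0 U (-1)) ((X : ℝ[X]) ^ (i : ℕ)) n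
          (j, β)) = fun j : ℕ => ∑ β : Bool,
        (rowa s ((x 1 : ℝ) * cE y0 U 1) n * rowA' y0 U s (j, β) +
          rowb s ((x 3 : ℝ) * cE y0 U (-1)) n * rowB' y0 U s (j, β)) /
        (((n : ℂ) + 1) ^ 2 - pol y0 (j, β) ^ 2) * vrow c r (s : ℂ) (pol y0 (j, β)) i := by
    funext j
    refine Finset.sum_congr rfl fun β _ => ?_
    unfold rowT
    rw [vev_X_pow c]
  rw [h1] at h
  refine hasSum_of_eq h ?_
  rw [vev_X_pow c]
  unfold vrow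
  simp only [eval_pow, eval_X]
  push_cast
  field_simp
  ring

/-! ## Sizes -/

theorem pol_re (y0 : ℝ) (q : ℕ × Bool) : (pol y0 q).re = (q.1 : ℝ) + 1 / 2 := by
  unfold pol
  split_ifs
  · rw [add_re, zl_re, one_re]
    push_cast
    ring
  · rw [conj_re, add_re, zl_re, one_re]
    push_cast
    ring

theorem pol_im (y0 : ℝ) (q : ℕ × Bool) : (pol y0 q).im = if q.2 then y0 else -y0 := by
  unfold pol
  split_ifs
  · rw [add_im, zl_im, one_im, add_zero]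
  · rw [conj_im, add_im, zl_im, one_im, add_zero]

theorem Lat.abs_pol_im (hL : Lat r y0 U) (q : ℕ × Bool) : |(pol y0 q).im| = y0 := by
  rw [pol_im]
  split_ifs
  · exact abs_of_pos hL.y_pos
  · rw [abs_neg]
    exact abs_of_pos hL.y_pos

theorem pol_re_pos (y0 : ℝ) (q : ℕ × Bool) : 0 < (pol y0 q).re := by
  rw [pol_re]
  positivity

theorem pol_injective {y0 : ℝ} (h : 0 < y0) : Function.Injective (pol y0) := by
  rintro ⟨j, β⟩ ⟨j', β'⟩ he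
  have h1 := congrArg Complex.re he
  have h2 := congrArg Complex.im he
  rw [pol_re, pol_re] at h1
  rw [pol_im, pol_im] at h2
  have h3 : j = j' := by
    have : (j : ℝ) = j' := by linarith
    exact_mod_cast this
  subst h3
  congr 1
  cases β <;> cases β' <;> simp at h2 ⊢ <;> linarith

theorem Lat.norm_pol_le (hL : Lat r y0 U) (q : ℕ × Bool) : ‖pol y0 q‖ ≤ (q.1 : ℝ) + 1 := by
  have h := Complex.norm_le_abs_re_add_abs_im (pol y0 q)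
  rw [hL.abs_pol_im, pol_re, abs_of_pos (by positivity)] at h
  have := hL.hi
  linarith

theorem Lat.norm_polU_le (hL : Lat r y0 U) (q : ℕ × Bool) : ‖polU U q‖ ≤ (3 / 100) ^ q.1 := by
  have h := hL.bound (q.1 : ℤ)
  rw [Int.natAbs_natCast] at h
  unfold polU
  split_ifs
  · exact h
  · rw [RCLike.norm_conj]
    exact h

theorem norm_ga_le {s : ℝ} (hs : s = 1 ∨ s = -1) (t : ℂ) : ‖ga s t‖ ≤ max 1 ‖t‖ := by
  rcases hs with rfl | rfl
  · rw [ga_one]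
    exact le_max_right _ _
  · rw [ga_neg_one, norm_one]
    exact le_max_left _ _

theorem Lat.norm_rowA'_le (hL : Lat r y0 U) {s : ℝ} (hs : s = 1 ∨ s = -1) (q : ℕ × Bool) :
    ‖rowA' y0 U s q‖ ≤ ((q.1 : ℝ) + 1) * (3 / 100) ^ q.1 := by
  unfold rowA'
  rw [norm_mul]
  refine mul_le_mul ((norm_ga_le hs _).trans (max_le ?_ (hL.norm_pol_le q))) (hL.norm_polU_le q)
    (norm_nonneg _) (by positivity)
  have : (0 : ℝ) ≤ q.1 := Nat.cast_nonneg _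
  linarith

theorem neg_sign {s : ℝ} (hs : s = 1 ∨ s = -1) : -s = 1 ∨ -s = -1 := by
  rcases hs with rfl | rfl
  · exact Or.inr rfl
  · exact Or.inl (neg_neg 1)

theorem Lat.norm_rowB'_le (hL : Lat r y0 U) {s : ℝ} (hs : s = 1 ∨ s = -1) (q : ℕ × Bool) :
    ‖rowB' y0 U s q‖ ≤ ((q.1 : ℝ) + 1) * (3 / 100) ^ q.1 := by
  have h := hL.norm_rowA'_le (neg_sign hs) q
  unfold rowB'
  rw [norm_mul, norm_pow, norm_neg, norm_one, one_pow, one_mul]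
  exact h

theorem norm_nat_add_one (n : ℕ) : ‖(n : ℂ) + 1‖ = (n : ℝ) + 1 := by
  have : (n : ℂ) + 1 = (((n : ℝ) + 1 : ℝ) : ℂ) := by push_cast; ring
  rw [this, Complex.norm_real, Real.norm_eq_abs, abs_of_pos (by positivity)]

theorem norm_rowa_le {s : ℝ} (hs : s = 1 ∨ s = -1) (a : ℝ) (n : ℕ) :
    ‖rowa s a n‖ ≤ 2 * |a| * ((n : ℝ) + 1) := by
  unfold rowa
  rw [norm_mul, norm_mul, Complex.norm_real, Real.norm_eq_abs, RCLike.norm_ofNat]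
  refine mul_le_mul_of_nonneg_left ?_ (by positivity)
  refine (norm_ga_le (neg_sign hs) _).trans ?_
  rw [norm_nat_add_one]
  refine max_le ?_ le_rfl
  have : (0 : ℝ) ≤ n := Nat.cast_nonneg _
  linarith

theorem norm_rowb_le {s : ℝ} (hs : s = 1 ∨ s = -1) (b : ℝ) (n : ℕ) :
    ‖rowb s b n‖ ≤ 2 * |b| * ((n : ℝ) + 1) := by
  unfold rowb
  rw [norm_mul, norm_mul, norm_mul, Complex.norm_real, Real.norm_eq_abs, RCLike.norm_ofNat,
    norm_pow, norm_neg, norm_one, one_pow, mul_one]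
  refine mul_le_mul_of_nonneg_left ?_ (by positivity)
  refine (norm_ga_le hs _).trans ?_
  rw [norm_nat_add_one]
  refine max_le ?_ le_rfl
  have : (0 : ℝ) ≤ n := Nat.cast_nonneg _
  linarith

/-- separation of the nodes from the poles -/
theorem Lat.node_sub_pol (hL : Lat r y0 U) (N : ℝ) (q : ℕ × Bool) :
    1 / 5 ≤ ‖(N : ℂ) - pol y0 q‖ := by
  have h := Complex.abs_im_le_norm ((N : ℂ) - pol y0 q)
  rw [sub_im, ofReal_im, zero_sub, abs_neg, hL.abs_pol_im] at h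
  linarith [hL.lo]

theorem Lat.node_sq_sub_pol (hL : Lat r y0 U) {N : ℝ} (hN : 1 ≤ N) (q : ℕ × Bool) :
    1 / 5 ≤ ‖(N : ℂ) ^ 2 - pol y0 q ^ 2‖ := by
  have e : (N : ℂ) ^ 2 - pol y0 q ^ 2 = ((N : ℂ) - pol y0 q) * ((N : ℂ) + pol y0 q) := by ring
  rw [e, norm_mul]
  have h1 := hL.node_sub_pol N q
  have h2 : 1 ≤ ‖(N : ℂ) + pol y0 q‖ := by
    have h := Complex.abs_re_le_norm ((N : ℂ) + pol y0 q)
    rw [add_re, ofReal_re] at h
    have h3 := pol_re_pos y0 q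
    have h4 := le_abs_self (N + (pol y0 q).re)
    linarith
  nlinarith [norm_nonneg ((N : ℂ) - pol y0 q)]

end T2
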