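import Pool.Agent.T2.Glue
import Pool.Agent.T2.GlueNum
import Pool.Agent.T2.RowR4b
import Pool.Agent.T2.R8Sep
import Pool.Agent.T2M.HVTheta

/-!
# T2, real side: the bound of the determinants `detC` along `A = 40 n + 11`

The energy bound (`R8Stmt`, module R8) is a hypothesis here.
-/

set_option autoImplicit false

namespace T2

open Finset Matrix Complex Polynomial QS2

/-- the energy bound (theorem `T2.R8.R8`) -/
def R8Stmt (W : ℝ) : Prop := ∃ C : ℝ, ∀ n : ℕ, 1 ≤ n →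
    ∀ N : Fin (40 * n) → ℕ, Function.Injective N → (∀ i, 2 ≤ N i ∧ N i ≤ 40 * n + 12) →
    ∀ J : ℕ, ∀ s : Fin J × Bool → ℂ, (∀ p, (s p).re = p.1 + 1 / 2 ∧ |(s p).im| ≤ 1 / 4) →
    (wTr (R8.zT n))⁻¹ * (Cau0 (fun l => R8.sT n l ^ 2) (fun l => R8.tT n l ^ 2))⁻¹ ^ 2 *
      (∏ i, hTr (R8.sT n) (R8.tT n) (N i)) * R8.LC n ^ (40 * n) *
      (∏ i, (1 + W * (3 / 100) ^ (N i) * gTr (R8.zT n) (R8.sT n) (R8.tT n) (N i) / R8.LC n)) *
      (∏ p : Fin J × Bool, (1 + W * ((p.1 : ℝ) + 1) * (3 / 100) ^ (p.1 : ℕ) *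
        gTr (R8.zT n) (R8.sT n) (R8.tT n) (s p) / R8.LC n)) ≤
    Real.exp (∑ i ∈ range (40 * n), Real.log (i.factorial) - 627 / 500 * (40 * n) ^ 2 +
      C * n * Real.log (n + 1))

variable {r : ℂ → ℂ} {y0 : ℝ} {U : ℤ → ℂ}

theorem blkdet_le (hr : RFun r) (hL : Lat r y0 U) {s : ℝ} (hs : s = 1 ∨ s = -1)
    {n : ℕ} (hn : 1 ≤ n) {x : Fin 4 → ℤ} {H : ℝ}
    (hH : 1 ≤ H) (hx : ∀ i, |(x i : ℝ)| ≤ H)
    (hθ : |theta x| ≤ (1 / 2) ^ (60 * (40 * n + 12)))
    {W K1 Cst : ℝ} (hW1 : 1 ≤ W) (hW : 100 / 3 * |QS2.lrem 0| ≤ W) (hK1 : 1 ≤ K1)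
    (hKp : 2 * |cE y0 U 1| ≤ K1) (hKm : 2 * |cE y0 U (-1)| ≤ K1)
    (hR8 : ∀ N : Fin (40 * n) → ℕ, Function.Injective N → (∀ i, 2 ≤ N i ∧ N i ≤ 40 * n + 12) →
      ∀ J : ℕ, ∀ s : Fin J × Bool → ℂ, (∀ p, (s p).re = p.1 + 1 / 2 ∧ |(s p).im| ≤ 1 / 4) →
      (wTr (R8.zT n))⁻¹ * (Cau0 (fun l => R8.sT n l ^ 2) (fun l => R8.tT n l ^ 2))⁻¹ ^ 2 *
        (∏ i, hTr (R8.sT n) (R8.tT n) (N i)) * R8.LC n ^ (40 * n) *
        (∏ i, (1 + W * (3 / 100) ^ (N i) * gTr (R8.zT n) (R8.sT n) (R8.tT n) (N i) / R8.LC n)) *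
        (∏ p : Fin J × Bool, (1 + W * ((p.1 : ℝ) + 1) * (3 / 100) ^ (p.1 : ℕ) *
          gTr (R8.zT n) (R8.sT n) (R8.tT n) (s p) / R8.LC n)) ≤ Cst)
    (g : Fin (40 * n) → Fin (40 * n + 11)) (hg : Function.Injective g) :
    |(Matrix.of fun i j : Fin (40 * n) =>
      blk ℝ x sQ sQ1 s (nodeZ (40 * n + 11) (Sum.inl (g i))) (BB ℝ j)).det| ≤
      H ^ (40 * n) * ((((1 + 3 / 100 * ((((40 * n : ℕ) : ℝ)) + 1) ^ 2) ^ (40 * n) * 4 ^ (40 * n)) *
        (6 ^ (40 * n) * (K1 * (40 * n + 13)) ^ (40 * n) *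
        (((40 * n).factorial : ℝ) * 5 ^ (40 * n)) *
          (((40 * n + 7 * n).factorial : ℝ) * 5 ^ (40 * n + 7 * n)) ^ 2)) * Cst) := by
  have hH0 : 0 < H := by linarith
  have hHc : (H : ℂ) ≠ 0 := by exact_mod_cast hH0.ne'
  have hn1 : (1 : ℝ) ≤ n := by exact_mod_cast hn
  have hy0 : 0 < y0 := by linarith [hL.lo]
  have hy1 : y0 ≤ 1 / 4 := by linarith [hL.hi]
  -- the nodes
  set k : Fin (40 * n) → ℕ := fun i => (g i : ℕ) + 1 with hk
  set N : Fin (40 * n) → ℕ := fun i => (g i : ℕ) + 2 with hN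
  have hkN : ∀ i, N i = k i + 1 := fun i => rfl
  have hNinj : Function.Injective N := by
    intro i j h
    apply hg
    apply Fin.ext
    simpa [hN] using h
  have hkinj : Function.Injective k := by
    intro i j h
    apply hg
    apply Fin.ext
    simpa [hk] using h
  have hNlo : ∀ i, 2 ≤ N i := fun i => by simp [hN]
  have hNhi : ∀ i, N i ≤ 40 * n + 12 := fun i => by
    have := (g i).isLt
    simp only [hN]
    omega
  have hNc : ∀ i, ((N i : ℕ) : ℂ) = (k i : ℂ) + 1 := fun i => by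
    rw [hkN]; push_cast; ring
  -- the scaled data
  set a : Fin (40 * n) → ℂ := fun i => rowa s ((x 1 : ℝ) * cE y0 U 1) (k i) / H with ha
  set b : Fin (40 * n) → ℂ := fun i => rowb s ((x 3 : ℝ) * cE y0 U (-1)) (k i) / H with hb
  set ν : Fin (40 * n) → ℂ := fun i => ((QS2.lrem (k i) : ℝ) : ℂ) with hν
  set vn : Fin (40 * n) → Fin (40 * n) → ℂ := fun i j => vTS (J := 0) r y0 s x H k (Sum.inl i) j with hvn
  set D : Matrix (Fin (40 * n)) (Fin (40 * n)) ℂ := Matrix.of fun i j =>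
    ((blk ℝ x sQ sQ1 s (nodeZ (40 * n + 11) (Sum.inl (g i))) (BB ℝ j) : ℝ) : ℂ) / H with hD
  have hbound := block_core (n := n) N (pol y0)
    (fun q => by rw [hL.abs_pol_im]; linarith [hL.hi]) (fun q => pol_re y0 q) vn
    (fun t => vrow (40 * n) r (s : ℂ) t) ν a b (rowA' y0 U s) (rowB' y0 U s)
    (Ka := K1 * (40 * n + 13)) (W := W)
    (Kv := (1 + 3 / 100 * (((40 * n : ℕ) : ℝ) + 1) ^ 2) ^ (40 * n) * 4 ^ (40 * n)) (Cst := Cst)
    (by nlinarith) (by positivity)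
    (by
      intro i
      rw [ha]
      simp only [norm_div, Complex.norm_real, Real.norm_eq_abs, abs_of_pos hH0]
      rw [div_le_iff₀ hH0]
      refine (norm_rowa_le hs _ _).trans ?_
      rw [abs_mul]
      have h1 : ((k i : ℕ) : ℝ) + 1 ≤ 40 * n + 13 := by
        have := hNhi i
        have h2 : k i + 1 ≤ 40 * n + 12 := by omega
        have h3 : ((k i : ℕ) : ℝ) + 1 ≤ 40 * n + 12 := by exact_mod_cast h2
        linarith
      have h4 := hx 1
      have h5 : 2 * (|(x 1 : ℝ)| * |cE y0 U 1|) ≤ K1 * H := by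
        nlinarith [abs_nonneg (cE y0 U 1), abs_nonneg (x 1 : ℝ)]
      calc 2 * (|(x 1 : ℝ)| * |cE y0 U 1|) * (((k i : ℕ) : ℝ) + 1)
          ≤ K1 * H * (40 * n + 13) := mul_le_mul h5 h1 (by positivity) (by positivity)
        _ = _ := by ring)
    (by
      intro i
      rw [hb]
      simp only [norm_div, Complex.norm_real, Real.norm_eq_abs, abs_of_pos hH0]
      rw [div_le_iff₀ hH0]
      refine (norm_rowb_le hs _ _).trans ?_
      rw [abs_mul]
      have h1 : ((k i : ℕ) : ℝ) + 1 ≤ 40 * n + 13 := by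
        have := hNhi i
        have h2 : k i + 1 ≤ 40 * n + 12 := by omega
        have h3 : ((k i : ℕ) : ℝ) + 1 ≤ 40 * n + 12 := by exact_mod_cast h2
        linarith
      have h4 := hx 3
      have h5 : 2 * (|(x 3 : ℝ)| * |cE y0 U (-1)|) ≤ K1 * H := by
        nlinarith [abs_nonneg (cE y0 U (-1)), abs_nonneg (x 3 : ℝ)]
      calc 2 * (|(x 3 : ℝ)| * |cE y0 U (-1)|) * (((k i : ℕ) : ℝ) + 1)
          ≤ K1 * H * (40 * n + 13) := mul_le_mul h5 h1 (by positivity) (by positivity)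
        _ = _ := by ring)
    (by
      intro i
      rw [hν]
      simp only [Complex.norm_real, Real.norm_eq_abs]
      refine (lrem_rho hr (k i)).trans ?_
      rw [hkN]
      have h1 : (0 : ℝ) ≤ (3 / 100) ^ (k i) := by positivity
      calc |QS2.lrem 0| * (3 / 100) ^ (k i)
          = 3 / 100 * (100 / 3 * |QS2.lrem 0|) * (3 / 100) ^ (k i) := by ring
        _ ≤ 3 / 100 * W * (3 / 100) ^ (k i) := by gcongr
        _ = W * (3 / 100) ^ (k i + 1) := by rw [pow_succ]; ring)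
    (by
      intro q
      refine (hL.norm_rowA'_le hs q).trans ?_
      have h1 : (0 : ℝ) ≤ ((q.1 : ℝ) + 1) * (3 / 100) ^ q.1 := by positivity
      calc ((q.1 : ℝ) + 1) * (3 / 100) ^ q.1 = 1 * (((q.1 : ℝ) + 1) * (3 / 100) ^ q.1) := by ring
        _ ≤ W * (((q.1 : ℝ) + 1) * (3 / 100) ^ q.1) := mul_le_mul_of_nonneg_right hW1 h1
        _ = _ := by ring)
    (by
      intro q
      refine (hL.norm_rowB'_le hs q).trans ?_
      have h1 : (0 : ℝ) ≤ ((q.1 : ℝ) + 1) * (3 / 100) ^ q.1 := by positivity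
      calc ((q.1 : ℝ) + 1) * (3 / 100) ^ q.1 = 1 * (((q.1 : ℝ) + 1) * (3 / 100) ^ q.1) := by ring
        _ ≤ W * (((q.1 : ℝ) + 1) * (3 / 100) ^ q.1) := mul_le_mul_of_nonneg_right hW1 h1
        _ = _ := by ring)
    (by
      intro i q
      have h1 := hL.node_sq_sub_pol (N := (N i : ℝ)) (by
        have := hNlo i
        have : (2 : ℝ) ≤ N i := by exact_mod_cast this
        linarith) q
      simpa using h1)
    (by
      intro J t
      have h1 := hV_TS (J := J) (K0 := 40 * n + 12) hr hy0 hy1 hs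
        k hkinj (fun i => hNhi i) (by omega) x hH (hx 2) hθ t
      have e1 : (Matrix.of fun j i => vTS (J := J) r y0 s x H k (t j) i) =
          Matrix.of fun j i => Sum.elim vn (fun p : Fin J × Bool =>
            vrow (40 * n) r (s : ℂ) (pol y0 ((p.1 : ℕ), p.2))) (t j) i := by
        ext j i
        simp only [Matrix.of_apply]
        rcases t j with m | p
        · rfl
        · rfl
      have e2 : ∀ p : Fin (40 * n) ⊕ (Fin J × Bool), Sum.elim (fun n => (k n : ℂ) + 1)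
          (fun p : Fin J × Bool => pol y0 ((p.1 : ℕ), p.2)) p =
          Sum.elim (fun k => ((N k : ℕ) : ℂ)) (fun p : Fin J × Bool => pol y0 ((p.1 : ℕ), p.2))
            p := by
        rintro (m | p)
        · simp only [Sum.elim_inl]
          rw [hNc]
        · rfl
      rw [e1] at h1
      simp only [e2] at h1
      exact h1)
    D
    (by
      intro i j
      have h1 := (blk_row_pow hr hL hs x (40 * n) j (k i)).div_const (H : ℂ)
      have e1 : nodeZ (40 * n + 11) (Sum.inl (g i)) = ((k i : ℕ) : ℤ) := by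
        simp [hk, nodeZ]
      have e2 : ∀ q : ℕ, (∑ β : Bool,
          (rowa s ((x 1 : ℝ) * cE y0 U 1) (k i) * rowA' y0 U s (q, β) +
            rowb s ((x 3 : ℝ) * cE y0 U (-1)) (k i) * rowB' y0 U s (q, β)) /
          (((k i : ℂ) + 1) ^ 2 - pol y0 (q, β) ^ 2) * vrow (40 * n) r (s : ℂ) (pol y0 (q, β)) j) / H =
          ∑ β : Bool, (a i * rowA' y0 U s (q, β) + b i * rowB' y0 U s (q, β)) /
            (((N i : ℕ) : ℂ) ^ 2 - pol y0 (q, β) ^ 2) * vrow (40 * n) r (s : ℂ) (pol y0 (q, β)) j := by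
        intro q
        rw [Finset.sum_div]
        refine Finset.sum_congr rfl fun β _ => ?_
        rw [ha, hb, hNc]
        field_simp
      simp only [e2] at h1
      have e3 : D i j - ν i * vn i j = (((blk ℝ x sQ sQ1 s ((k i : ℕ) : ℤ) (BB ℝ j) : ℝ) : ℂ) -
          ((QS2.lrem (k i) : ℝ) : ℂ) *
            (tcX x (k i) * vrow (40 * n) r (s : ℂ) ((k i : ℂ) + 1) j +
              tcY r s x (k i) * (-((k i : ℂ) + 1)) ^ (j : ℕ))) / H := by
        rw [hD, hν, hvn]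
        simp only [Matrix.of_apply, vTS, Sum.elim_inl]
        rw [e1]
        field_simp
      rw [e3]
      exact h1)
    (R8.wTr_pos n) (R8.Cau0_pos n) (fun t ht i => R8.sep_z n t ht i)
    (fun t ht l => R8.sep_s n t ht l) (fun t ht l => R8.sep_t n t ht l)
    (fun k l => R8.sep_ts n k l) (hR8 N hNinj fun i => ⟨hNlo i, hNhi i⟩)
  set M : Matrix (Fin (40 * n)) (Fin (40 * n)) ℝ := Matrix.of fun i j : Fin (40 * n) =>
      blk ℝ x sQ sQ1 s (nodeZ (40 * n + 11) (Sum.inl (g i))) (BB ℝ j) with hM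
  have e3 : D = (H : ℂ)⁻¹ • (Complex.ofRealHom.mapMatrix M) := by
    ext i j
    simp only [hD, hM, Matrix.of_apply, Matrix.smul_apply, RingHom.mapMatrix_apply,
      Matrix.map_apply, Complex.ofRealHom_eq_coe, smul_eq_mul]
    rw [div_eq_inv_mul]
  have e4 : D.det = ((H : ℂ)⁻¹) ^ (40 * n) * ((M.det : ℝ) : ℂ) := by
    rw [e3, Matrix.det_smul, Fintype.card_fin, ← RingHom.map_det]
    rfl
  have e5 : ‖D.det‖ = (H⁻¹) ^ (40 * n) * |M.det| := by
    rw [e4, norm_mul, norm_pow, norm_inv, Complex.norm_real, Complex.norm_real,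
      Real.norm_eq_abs, Real.norm_eq_abs, abs_of_pos hH0]
  rw [e5] at hbound
  have e6 : |M.det| = H ^ (40 * n) * ((H⁻¹) ^ (40 * n) * |M.det|) := by
    rw [← mul_assoc, ← mul_pow, mul_inv_cancel₀ hH0.ne', one_pow, one_mul]
  rw [e6]
  exact mul_le_mul_of_nonneg_left hbound (by positivity)

end T2
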