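import Pool.Agent.T2.Glue2
import Pool.Agent.T2.Bound3

/-!
# T2, real side: the bound of the determinants `detC` along `A = 40 n + 11`

From the energy bound (module R8) alone.
-/

set_option autoImplicit false

namespace T2

open Finset Matrix Complex Polynomial QS2

theorem real_side (hR8 : ∀ W : ℝ, 1 ≤ W → R8Stmt W) : ∃ C : ℝ, ∀ n : ℕ, 1 ≤ n →
    ∀ (x : Fin 4 → ℤ) (H : ℝ), 1 ≤ H → (∀ i, |(x i : ℝ)| ≤ H) →
    |theta x| ≤ (1 / 2) ^ (60 * (40 * n + 12)) →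
    ∀ e : Fin (40 * n) ⊕ Fin (40 * n) → Nd (40 * n + 11),
    |((detC x (40 * n + 11) (40 * n) e : ℚ) : ℝ)| ≤
      H ^ (80 * n) * Real.exp (-(20064 / 5) * (n : ℝ) ^ 2 + C * n * Real.log (n + 1)) := by
  obtain ⟨r, hr, y0, U, hL⟩ := exists_RFun
  set K1 : ℝ := 1 + 2 * |cE y0 U 1| + 2 * |cE y0 U (-1)| with hK1
  have hKp0 := abs_nonneg (cE y0 U 1)
  have hKm0 := abs_nonneg (cE y0 U (-1))
  set W : ℝ := 1 + 100 / 3 * |QS2.lrem 0| with hW
  have hl0 := abs_nonneg (QS2.lrem 0)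
  have hW1 : 1 ≤ W := by rw [hW]; linarith
  have hW2 : 100 / 3 * |QS2.lrem 0| ≤ W := by rw [hW]; linarith
  have hKa : 1 ≤ K1 := by rw [hK1]; linarith
  have hKb : 2 * |cE y0 U 1| ≤ K1 := by rw [hK1]; linarith
  have hKc : 2 * |cE y0 U (-1)| ≤ K1 := by rw [hK1]; linarith
  obtain ⟨C8, h8⟩ := hR8 W hW1
  obtain ⟨Q, hQ⟩ := glue_const K1 (by rw [hK1]; linarith)
  refine ⟨40 + 2 * Q + 2 * C8, fun n hn x H hH hx hθ e => ?_⟩
  have hH0 : 0 < H := by linarith
  have hn1 : (1 : ℝ) ≤ n := by exact_mod_cast hn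
  set F : ℝ := ((1 + 3 / 100 * ((((40 * n : ℕ) : ℝ)) + 1) ^ 2) ^ (40 * n) * 4 ^ (40 * n)) *
        (6 ^ (40 * n) * (K1 * (40 * n + 13)) ^ (40 * n) *
        (((40 * n).factorial : ℝ) * 5 ^ (40 * n)) *
          (((40 * n + 7 * n).factorial : ℝ) * 5 ^ (40 * n + 7 * n)) ^ 2) with hF
  have hK10 : 0 ≤ K1 := by rw [hK1]; linarith
  have hF0 : 0 ≤ F := by positivity
  have hFq : F ≤ Real.exp (Q * n * Real.log (n + 1)) := by
    rw [← qpow_exp]
    exact hQ n hn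
  set S : ℝ := ∑ i ∈ range (40 * n), Real.log (i.factorial) with hS
  set L : ℝ := Real.log (n + 1) with hL'
  set E : ℝ := S - 627 / 500 * (40 * n) ^ 2 + C8 * n * L with hE
  set B : ℝ := H ^ (40 * n) * (F * Real.exp E) with hB
  have hB0 : 0 ≤ B := by positivity
  have key : ∀ s : ℝ, s = 1 ∨ s = -1 → ∀ g : Fin (40 * n) → Fin (40 * n + 11),
      Function.Injective g → |(Matrix.of fun i j : Fin (40 * n) =>
        blk ℝ x sQ sQ1 s (nodeZ (40 * n + 11) (Sum.inl (g i))) (BB ℝ j)).det| ≤ B := by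
    intro s hs g hg
    exact blkdet_le (W := W) (K1 := K1) (Cst := Real.exp E) hr hL hs hn hH hx hθ hW1 hW2
      hKa hKb hKc (fun N hN hN2 J s' hs' => h8 n hn N hN hN2 J s' hs') g hg
  have h1 := detC_le (x := x) (A := 40 * n + 11) (c := 40 * n) hB0 hB0
    (key 1 (Or.inl rfl)) (key (-1) (Or.inr rfl)) e
  refine h1.trans ?_
  rw [prod_fac_inv, ← hS]
  have h2 : (2 : ℝ) ^ (40 * n) ≤ Real.exp (40 * n * L) := by
    have := qpow_exp n 40
    push_cast at this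
    rw [hL', ← this]
    exact pow_le_pow_left₀ (by norm_num) (by linarith) _
  have hFF : F * F ≤ Real.exp (Q * n * L) * Real.exp (Q * n * L) :=
    mul_le_mul hFq hFq hF0 (Real.exp_pos _).le
  have e1 : Real.exp (-S) ^ 2 * (B * B) = H ^ (80 * n) * ((F * F) * Real.exp (2 * E - 2 * S)) := by
    have e2 : Real.exp (2 * E - 2 * S) = Real.exp (-S) ^ 2 * (Real.exp E * Real.exp E) := by
      rw [sq, ← Real.exp_add, ← Real.exp_add, ← Real.exp_add]
      congr 1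
      ring
    have e3 : H ^ (80 * n) = H ^ (40 * n) * H ^ (40 * n) := by
      rw [← pow_add]
      congr 1
      ring
    rw [hB, e2, e3]
    ring
  rw [e1]
  have h3 : (2 : ℝ) ^ (40 * n) * (H ^ (80 * n) * ((F * F) * Real.exp (2 * E - 2 * S))) ≤
      Real.exp (40 * n * L) * (H ^ (80 * n) *
        ((Real.exp (Q * n * L) * Real.exp (Q * n * L)) * Real.exp (2 * E - 2 * S))) := by
    gcongr
  refine h3.trans (le_of_eq ?_)
  have e4 : Real.exp (40 * n * L) * (H ^ (80 * n) *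
        ((Real.exp (Q * n * L) * Real.exp (Q * n * L)) * Real.exp (2 * E - 2 * S))) =
      H ^ (80 * n) * (Real.exp (40 * n * L) * Real.exp (Q * n * L) * Real.exp (Q * n * L) *
        Real.exp (2 * E - 2 * S)) := by ring
  rw [e4, ← Real.exp_add, ← Real.exp_add, ← Real.exp_add]
  congr 2
  rw [hE]
  ring

end T2
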