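import Pool.Agent.T2.NVRows
import Pool.Agent.T2.DesignG
import Pool.Agent.T2.SeqW
import Pool.Agent.T2.SF1b

/-!
# T2: non-vanishing for the concrete design

Everything except the two leading coefficient statements of `NVLead`, which enter as hypotheses.
-/

set_option autoImplicit false

namespace T2.NV

open Polynomial QS2.NV QS2

/-! ## The sheets -/

theorem sheet_of_isSheet {ε : ℚ} {s s1 : ℕ → ℚ} (h : IsSheet ε s s1) (hε : ε ^ 2 = 1) :
    Sheet ε (PowerSeries.mk s) (PowerSeries.mk s1) := by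
  have e1 : sh (PowerSeries.mk s1) = PowerSeries.mk s := by
    rw [sh_mk, ← shm_eq, h.shift]
  refine ⟨e1, ?_⟩
  have e2 : sh (PowerSeries.mk s) = PowerSeries.mk (shm s) := by
    rw [sh_mk, ← shm_eq]
  have e3 := h.eqn
  have e4 : (PowerSeries.C ε : PowerSeries ℚ) ^ 2 = 1 := by
    rw [← map_pow, hε, map_one]
  rw [e2]
  unfold apS
  linear_combination PowerSeries.C ε * e3 + ((34 + 51 * PowerSeries.X + 27 * PowerSeries.X ^ 2 +
    5 * PowerSeries.X ^ 3) * PowerSeries.mk s + (2 * PowerSeries.X ^ 2 + PowerSeries.X ^ 3)) * e4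

/-! ## The sequences -/

theorem two_mir {R : Type*} (u : ℕ → R) (z : ℤ) : two u z = u (mir z) := by
  unfold two mir
  split_ifs <;> rfl

theorem wZ_mir (x : Fin 4 → ℤ) (z : ℤ) : wZ x z = wzq (x 0) (x 1) (x 2) (x 3) z :=
  two_mir _ z

theorem sgn_mir (z : ℤ) : sgn z = sgq z := two_mir _ z

theorem sgn_ne_zero (z : ℤ) : sgn z ≠ 0 := by
  rw [sgn_mir]
  unfold sgq
  exact pow_ne_zero _ (by norm_num)

theorem sgn_pred {z : ℤ} (hz : 1 ≤ z ∨ z ≤ -1) : sgn (z - 1) = -1 * sgn z := by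
  rw [sgn_mir, sgn_mir]
  unfold sgq mir
  rcases hz with hz | hz
  · rw [if_pos (by omega), if_pos (by omega)]
    have : z.toNat = (z - 1).toNat + 1 := by omega
    rw [this, pow_succ]
    ring
  · rw [if_neg (by omega), if_neg (by omega)]
    have : (-1 - (z - 1)).toNat = (-1 - z).toNat + 1 := by omega
    rw [this, pow_succ]
    ring

theorem wZ_rec (x : Fin 4 → ℤ) {z : ℤ} (hz : 2 ≤ z ∨ z ≤ -3) :
    ((z : ℚ) + 1) ^ 3 * wZ x (z + 1) - (34 * (z : ℚ) ^ 3 + 51 * (z : ℚ) ^ 2 + 27 * (z : ℚ) + 5) *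
      wZ x z + (z : ℚ) ^ 3 * wZ x (z - 1) = ((x 1 : ℚ) + (x 3 : ℚ) * sgn z) * (2 * (z : ℚ) + 1) := by
  have h := wzq_rec (x 0) (x 1) (x 2) (x 3) z (by omega)
  rw [wZ_mir, wZ_mir, wZ_mir, sgn_mir]
  unfold rzq ap at h
  linear_combination h

/-! ## From the matrix to the forms -/

/-- value of the relation at `z` -/
noncomputable def G (x : Fin 4 → ℤ) (s s1 : Fin 2 → ℕ → ℚ) (P Q : ℚ[X]) (z : ℤ) : ℚ :=
  P.eval (z : ℚ) * wZ x z + Q.eval (z : ℚ) * wZ x (z + 1) -
    (x 1 : ℚ) * ((pp (PowerSeries.mk (s 0)) P).eval (z : ℚ) +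
      (pp (PowerSeries.mk (s1 0)) Q).eval (z : ℚ)) -
    (x 3 : ℚ) * sgn z * ((pp (PowerSeries.mk (s 1)) P).eval (z : ℚ) -
      (pp (PowerSeries.mk (s1 1)) Q).eval (z : ℚ))

theorem mulVec_eq (x : Fin 4 → ℤ) (s s1 : Fin 2 → ℕ → ℚ) (A c : ℕ) (v : Fin c ⊕ Fin c → ℚ)
    (f : Nd A) : (designF ℚ x s s1 A c).mulVec v f =
      G x s s1 (∑ j : Fin c, C (v (Sum.inl j)) * binP ℚ j) (∑ j : Fin c, C (v (Sum.inr j)) *
        binP ℚ j) (nodeZ A f) := by
  have hpp : ∀ (V : PowerSeries ℚ) (a : Fin c → ℚ) (z : ℤ),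
      (pp V (∑ j : Fin c, C (a j) * binP ℚ j)).eval (z : ℚ) =
        ∑ j : Fin c, (pp V (binP ℚ j)).eval (z : ℚ) * a j := by
    intro V a z
    rw [map_sum, eval_finsetSum]
    refine Finset.sum_congr rfl fun j _ => ?_
    rw [← smul_eq_C_mul, map_smul, eval_smul, smul_eq_mul, mul_comm]
  have hev : ∀ (a : Fin c → ℚ) (z : ℤ),
      (∑ j : Fin c, C (a j) * binP ℚ j).eval (z : ℚ) =
        ∑ j : Fin c, (binP ℚ j).eval (z : ℚ) * a j := by
    intro a z
    rw [eval_finsetSum]
    refine Finset.sum_congr rfl fun j _ => ?_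
    rw [eval_mul, eval_C, mul_comm]
  unfold G
  rw [Matrix.mulVec, dotProduct, Fintype.sum_sum_type, hpp, hpp, hpp, hpp, hev, hev]
  simp only [designF, pp_eq, Rat.cast_id]
  simp only [Finset.sum_mul, Finset.mul_sum, ← Finset.sum_add_distrib, ← Finset.sum_sub_distrib]
  refine Finset.sum_congr rfl fun j _ => ?_
  ring

theorem rows_of_G (x : Fin 4 → ℤ) (s s1 : Fin 2 → ℕ → ℚ) (A c : ℕ)
    (h : ∀ P Q : ℚ[X], P.degree < c → Q.degree < c → (∀ z ∈ nod A, G x s s1 P Q z = 0) →
      P = 0 ∧ Q = 0) :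
    ∃ e : Fin c ⊕ Fin c → Nd A, Function.Injective e ∧ detQ x s s1 A c e ≠ 0 := by
  obtain ⟨e, he, hd⟩ := exists_rows (designF ℚ x s s1 A c) fun v hv => by
    have hdeg : ∀ a : Fin c → ℚ, (∑ j : Fin c, C (a j) * binP ℚ j).degree < c := by
      intro a
      rw [degree_lt_iff_coeff_zero]
      intro k hk
      rw [finsetSum_coeff]
      refine Finset.sum_eq_zero fun i _ => ?_
      have : (binP ℚ i).coeff k = 0 := by
        apply coeff_eq_zero_of_degree_lt
        rw [binP_degree i]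
        have := i.2
        exact_mod_cast (by omega : (i : ℕ) < k)
      rw [Polynomial.coeff_C_mul, this, mul_zero]
    obtain ⟨hP, hQ⟩ := h _ _ (hdeg fun j => v (Sum.inl j)) (hdeg fun j => v (Sum.inr j)) (by
      intro z hz
      obtain ⟨f, rfl⟩ := exists_node hz
      rw [← mulVec_eq, hv]
      rfl)
    have h1 : (fun j => v (Sum.inl j)) = 0 := by
      by_contra hne
      exact sum_ne_zero binP_degree hne hP
    have h2 : (fun j => v (Sum.inr j)) = 0 := by
      by_contra hne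
      exact sum_ne_zero binP_degree hne hQ
    funext k
    rcases k with j | j
    · exact congrFun h1 j
    · exact congrFun h2 j
  exact ⟨e, he, hd⟩

/-- the statement on leading coefficients, for the signs `ε` -/
def LeadStmt {ι : Type} [Fintype ι] [DecidableEq ι] (ε : ι → ℚ) (r : Fin 2 ⊕ ι → ℕ) : Prop :=
  ∀ (x : ι → ℚ) (S S' : ι → PowerSeries ℚ), (∀ i, x i ≠ 0) → (∀ i, Sheet (ε i) (S i) (S' i)) →
    ∀ (L : Fin 2 ⊕ ι → ℚ[X]) (D : ℕ), (∀ j, (L j).natDegree ≤ D) →
      ((L (Sum.inl 0)).coeff D ≠ 0 ∨ (L (Sum.inl 1)).coeff D ≠ 0) →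
      (∀ i, hatF ε x S S' D L i ≠ 0) → (shM ε x L r).det ≠ 0

/-- the statement `E ≠ 0` -/
def NeStmt {ι : Type} (ε : ι → ℚ) : Prop :=
  ∀ (x : ι → ℚ) (S S' : ι → PowerSeries ℚ), (∀ i, x i ≠ 0) → (∀ i, Sheet (ε i) (S i) (S' i)) →
    ∀ (L : Fin 2 ⊕ ι → ℚ[X]) (D : ℕ), (∀ j, (L j).natDegree ≤ D) →
      (L (Sum.inl 0) ≠ 0 ∨ L (Sum.inl 1) ≠ 0) → ∀ i, hatF ε x S S' D L i ≠ 0

/-- row indices for `ι = Fin 2` -/
def r2 : Fin 2 ⊕ Fin 2 → ℕ := Sum.elim (fun j => (j : ℕ)) (fun i => 2 + (i : ℕ))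

/-- row indices for `ι = Unit` -/
def r1 : Fin 2 ⊕ Unit → ℕ := Sum.elim (fun j => (j : ℕ)) (fun _ => 2)

/-- **Non-vanishing**, from the leading coefficients -/
theorem nonvan_of (hl2 : LeadStmt ![(1 : ℚ), -1] r2) (hn2 : NeStmt ![(1 : ℚ), -1])
    (hl1 : ∀ ε : ℚ, ε ^ 2 = 1 → LeadStmt (fun _ : Unit => ε) r1)
    (hn1 : ∀ ε : ℚ, ε ^ 2 = 1 → NeStmt (fun _ : Unit => ε))
    (x : Fin 4 → ℤ) (hx : x 1 ≠ 0 ∨ x 3 ≠ 0) {s s1 : Fin 2 → ℕ → ℚ}
    (h0 : IsSheet 1 (s 0) (s1 0)) (h1 : IsSheet (-1) (s 1) (s1 1)) {A c : ℕ} (hA : c + 11 ≤ A) :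
    ∃ e : Fin c ⊕ Fin c → Nd A, Function.Injective e ∧ detQ x s s1 A c e ≠ 0 := by
  apply rows_of_G
  intro P Q dP dQ hG
  have sh0 := sheet_of_isSheet h0 (by norm_num)
  have sh1 := sheet_of_isSheet h1 (by norm_num)
  by_cases hx1 : x 1 = 0
  · -- only the sheet `ε = -1`
    have hx3 : (x 3 : ℚ) ≠ 0 := by
      rcases hx with h | h
      · exact absurd hx1 h
      · exact_mod_cast h
    have hε : ∀ i : Unit, (fun _ : Unit => (-1 : ℚ)) i ^ 2 = 1 := fun _ => by norm_num
    refine zero_est (ι := Unit) (ε := fun _ => -1) (x := fun _ => (x 3 : ℚ))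
      (S := fun _ => PowerSeries.mk (s 1)) (S' := fun _ => PowerSeries.mk (s1 1))
      hε (fun _ => sh1) (by simp) r1 ?_ ?_
      (hl1 (-1) (by norm_num) _ _ _ (fun _ => hx3) (fun _ => sh1))
      (hn1 (-1) (by norm_num) _ _ _ (fun _ => hx3) (fun _ => sh1))
      (w := wZ x) (s := fun _ => sgn) ?_ ?_ (fun z _ => sgn_ne_zero z) hA dP dQ ?_
    · rintro (k | k)
      · have := k.2
        simp only [r1, Sum.elim_inl, Fintype.card_unit]
        omega
      · simp [r1]
    · simp [Fintype.sum_sum_type, r1]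
    · intro z hz
      have := wZ_rec x hz
      unfold RecI
      rw [this, hx1]
      simp
    · intro z hz _
      exact sgn_pred (by omega)
    · intro z hz
      have := hG z hz
      unfold G at this
      rw [hx1] at this
      unfold ev mkL
      simp only [Sum.elim_inl, Sum.elim_inr, Matrix.cons_val_zero, Matrix.cons_val_one,
        Finset.univ_unique, Finset.sum_singleton, eval_neg, eval_mul, eval_C, eval_add]
      linear_combination this
  · by_cases hx3 : x 3 = 0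
    · -- only the sheet `ε = 1`
      have hx1' : (x 1 : ℚ) ≠ 0 := by exact_mod_cast hx1
      have hε : ∀ i : Unit, (fun _ : Unit => (1 : ℚ)) i ^ 2 = 1 := fun _ => by norm_num
      refine zero_est (ι := Unit) (ε := fun _ => 1) (x := fun _ => (x 1 : ℚ))
        (S := fun _ => PowerSeries.mk (s 0)) (S' := fun _ => PowerSeries.mk (s1 0))
        hε (fun _ => sh0) (by simp) r1 ?_ ?_
        (hl1 1 (by norm_num) _ _ _ (fun _ => hx1') (fun _ => sh0))
        (hn1 1 (by norm_num) _ _ _ (fun _ => hx1') (fun _ => sh0))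
        (w := wZ x) (s := fun _ _ => 1) ?_ ?_ (fun z _ => one_ne_zero) hA dP dQ ?_
      · rintro (k | k)
        · have := k.2
          simp only [r1, Sum.elim_inl, Fintype.card_unit]
          omega
        · simp [r1]
      · simp [Fintype.sum_sum_type, r1]
      · intro z hz
        have := wZ_rec x hz
        unfold RecI
        rw [this, hx3]
        simp
      · intro z hz _
        norm_num
      · intro z hz
        have := hG z hz
        unfold G at this
        rw [hx3] at this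
        unfold ev mkL
        simp only [Sum.elim_inl, Sum.elim_inr, Matrix.cons_val_zero, Matrix.cons_val_one,
          Finset.univ_unique, Finset.sum_singleton, eval_neg, eval_mul, eval_C, eval_add]
        linear_combination this
    · -- both sheets
      have hx1' : (x 1 : ℚ) ≠ 0 := by exact_mod_cast hx1
      have hx3' : (x 3 : ℚ) ≠ 0 := by exact_mod_cast hx3
      have hxx : ∀ i : Fin 2, (![(x 1 : ℚ), (x 3 : ℚ)] : Fin 2 → ℚ) i ≠ 0 := by
        intro i
        fin_cases i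
        · exact hx1'
        · exact hx3'
      have hε : ∀ i : Fin 2, (![(1 : ℚ), -1] : Fin 2 → ℚ) i ^ 2 = 1 := by
        intro i
        fin_cases i <;> norm_num
      have hSS : ∀ i : Fin 2, Sheet ((![(1 : ℚ), -1] : Fin 2 → ℚ) i)
          ((![PowerSeries.mk (s 0), PowerSeries.mk (s 1)] : Fin 2 → PowerSeries ℚ) i)
          ((![PowerSeries.mk (s1 0), PowerSeries.mk (s1 1)] : Fin 2 → PowerSeries ℚ) i) := by
        intro i
        fin_cases i
        · exact sh0
        · exact sh1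
      refine zero_est (ι := Fin 2) (ε := ![(1 : ℚ), -1]) (x := ![(x 1 : ℚ), (x 3 : ℚ)])
        (S := ![PowerSeries.mk (s 0), PowerSeries.mk (s 1)])
        (S' := ![PowerSeries.mk (s1 0), PowerSeries.mk (s1 1)])
        hε hSS (by simp) r2 ?_ ?_ (hl2 _ _ _ hxx hSS) (hn2 _ _ _ hxx hSS)
        (w := wZ x) (s := ![fun _ => 1, sgn]) ?_ ?_ ?_ hA dP dQ ?_
      · rintro (k | k)
        · have := k.2
          simp only [r2, Sum.elim_inl, Fintype.card_fin]
          omega
        · have := k.2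
          simp only [r2, Sum.elim_inr, Fintype.card_fin]
          omega
      · simp [Fintype.sum_sum_type, r2]
      · intro z hz
        have := wZ_rec x hz
        unfold RecI
        rw [this]
        simp
        ring
      · intro z hz i
        fin_cases i
        · simp
        · exact sgn_pred (by omega)
      · intro z i
        fin_cases i
        · exact one_ne_zero
        · exact sgn_ne_zero z
      · intro z hz
        have := hG z hz
        unfold G at this
        unfold ev mkL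
        simp only [Sum.elim_inl, Sum.elim_inr, Matrix.cons_val_zero, Matrix.cons_val_one,
          Fin.sum_univ_two, eval_neg, eval_mul, eval_C, eval_add]
        linear_combination this

end T2.NV
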