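import Pool.Agent.QS2.NonVan2

/-!
# T2: non-vanishing, the zero estimate

Linear forms `P w_z + Q w_{z+1} + ∑ R_i s_i(z)` as functions `Fin 2 ⊕ ι → F[X]`, their backward
shift `pv`, the determinant of `n = 2 + #ι` consecutive shifts: its degree and its zeros.
-/

set_option autoImplicit false

namespace T2.NV

open Polynomial QS2.NV QS2
open HahnSeries hiding C

variable {F : Type*} [Field F] {ι : Type*}

/-! ## Reversed polynomials -/

theorem single_ne_zero' (D : ℤ) : (single D (1 : F) : LaurentSeries F) ≠ 0 := by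
  intro h0
  have := congrArg (fun f => HahnSeries.coeff f D) h0
  simp at this

theorem single_nat_mul (D E : ℕ) : (single (D : ℤ) (1 : F) : LaurentSeries F) *
    single (E : ℤ) (1 : F) = single ((D + E : ℕ) : ℤ) (1 : F) := by
  rw [single_mul_single]
  simp

theorem rv_mul {D E : ℕ} {f g : F[X]} (hf : f.natDegree ≤ D) (hg : g.natDegree ≤ E) :
    rv (D + E) (f * g) = rv D f * rv E g := by
  apply ofPowerSeries_injective (Γ := ℤ)
  rw [map_mul]
  have h1 := ser_rv (F := F) (D := D + E) (f := f * g)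
    (natDegree_mul_le.trans (by omega))
  have h2 := ser_rv hf
  have h3 := ser_rv hg
  unfold ser at h1 h2 h3
  rw [h1, h2, h3, map_mul, ← single_nat_mul]
  ring

theorem rv_add (D : ℕ) (f g : F[X]) : rv D (f + g) = rv D f + rv D g := by
  unfold rv
  rw [← Finset.sum_add_distrib]
  refine Finset.sum_congr rfl fun j _ => ?_
  rw [Polynomial.coeff_add, map_add]
  ring

theorem rv_C_mul (D : ℕ) (a : F) (f : F[X]) : rv D (C a * f) = PowerSeries.C a * rv D f := by
  unfold rv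
  rw [Finset.mul_sum]
  refine Finset.sum_congr rfl fun j _ => ?_
  rw [Polynomial.coeff_C_mul, map_mul]
  ring

theorem rv_neg (D : ℕ) (f : F[X]) : rv D (-f) = -rv D f := by
  unfold rv
  rw [← Finset.sum_neg_distrib]
  refine Finset.sum_congr rfl fun j _ => ?_
  rw [Polynomial.coeff_neg, map_neg]
  ring

theorem sh_rv {D : ℕ} {f : F[X]} (h : f.natDegree ≤ D) :
    (1 - PowerSeries.X) ^ D * sh (rv D f) = rv D (taylor (-1) f) := by
  apply ofPowerSeries_injective (Γ := ℤ)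
  have h1 := ser_sh_rv h
  have h2 := ser_rv (F := F) (D := D) (f := taylor (-1) f) (by rwa [natDegree_taylor])
  unfold ser at h1 h2
  rw [h1, h2]

theorem rv_X_pow_three : rv 3 (X ^ 3 : F[X]) = 1 := by
  unfold rv
  simp [Polynomial.coeff_X_pow]

theorem rv_X_add_one_pow : rv 3 ((X + 1) ^ 3 : F[X]) = (1 + PowerSeries.X) ^ 3 := by
  have h1 : (X + 1 : F[X]).natDegree ≤ 1 := by
    have := natDegree_X_add_C (1 : F)
    rw [C_1] at this
    exact this.le
  have e1 : rv 1 (X + 1 : F[X]) = 1 + PowerSeries.X := by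
    unfold rv
    simp [Finset.sum_range_succ, Polynomial.coeff_X, Polynomial.coeff_one]
    ring
  have h2 : ((X + 1 : F[X]) ^ 2).natDegree ≤ 2 := by
    refine natDegree_pow_le.trans ?_
    omega
  have e2 : rv 2 ((X + 1 : F[X]) ^ 2) = (1 + PowerSeries.X) ^ 2 := by
    have := rv_mul (D := 1) (E := 1) h1 h1
    rw [pow_two, this, e1, pow_two]
  have := rv_mul (D := 2) (E := 1) h2 h1
  rw [pow_succ, this, e1, e2, pow_succ (1 + PowerSeries.X) 2]

/-- `34 + 51 X + 27 X^2 + 5 X^3` -/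
noncomputable def apS (F : Type*) [Field F] : PowerSeries F :=
  34 + 51 * PowerSeries.X + 27 * PowerSeries.X ^ 2 + 5 * PowerSeries.X ^ 3

theorem natDegree_aq_le : (aq F).natDegree ≤ 3 := by
  unfold aq
  compute_degree

theorem rv_aq : rv 3 (aq F) = apS F := by
  unfold rv aq apS
  have e34 : (PowerSeries.C (34 : F) : PowerSeries F) = 34 := map_ofNat _ 34
  have e51 : (PowerSeries.C (51 : F) : PowerSeries F) = 51 := map_ofNat _ 51
  have e27 : (PowerSeries.C (27 : F) : PowerSeries F) = 27 := map_ofNat _ 27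
  have e5 : (PowerSeries.C (5 : F) : PowerSeries F) = 5 := map_ofNat _ 5
  have c0 : (C 34 * X ^ 3 + C 51 * X ^ 2 + C 27 * X + C 5 : F[X]).coeff 0 = 5 := by
    simp [coeff_X_pow]
  have c1 : (C 34 * X ^ 3 + C 51 * X ^ 2 + C 27 * X + C 5 : F[X]).coeff 1 = 27 := by
    simp [coeff_X_pow, Polynomial.coeff_C]
  have c2 : (C 34 * X ^ 3 + C 51 * X ^ 2 + C 27 * X + C 5 : F[X]).coeff 2 = 51 := by
    simp [coeff_X_pow]
  have c3 : (C 34 * X ^ 3 + C 51 * X ^ 2 + C 27 * X + C 5 : F[X]).coeff 3 = 34 := by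
    simp [coeff_X_pow]
  rw [Finset.sum_range_succ, Finset.sum_range_succ, Finset.sum_range_succ, Finset.sum_range_one,
    c0, c1, c2, c3, e34, e51, e27, e5]
  ring

theorem rv_two_X_add_one : rv 3 (2 * X + 1 : F[X]) = 2 * PowerSeries.X ^ 2 + PowerSeries.X ^ 3 := by
  unfold rv
  have e2 : (PowerSeries.C (2 : F) : PowerSeries F) = 2 := map_ofNat _ 2
  have c0 : (2 * X + 1 : F[X]).coeff 0 = 1 := by
    simp
  have h2 : (2 * X + 1 : F[X]) = C 2 * X + C 1 := by
    rw [C_1]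
    congr 1
  have c1 : (2 * X + 1 : F[X]).coeff 1 = 2 := by
    rw [h2, Polynomial.coeff_add, Polynomial.coeff_C_mul, Polynomial.coeff_X, Polynomial.coeff_C]
    simp
  have c2 : (2 * X + 1 : F[X]).coeff 2 = 0 := by
    rw [h2, Polynomial.coeff_add, Polynomial.coeff_C_mul, Polynomial.coeff_X, Polynomial.coeff_C]
    simp
  have c3 : (2 * X + 1 : F[X]).coeff 3 = 0 := by
    rw [h2, Polynomial.coeff_add, Polynomial.coeff_C_mul, Polynomial.coeff_X, Polynomial.coeff_C]
    simp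
  rw [Finset.sum_range_succ, Finset.sum_range_succ, Finset.sum_range_succ, Finset.sum_range_one,
    c0, c1, c2, c3, e2, map_one, map_zero]
  ring

theorem natDegree_two_X_add_one_le : (2 * X + 1 : F[X]).natDegree ≤ 3 := by
  compute_degree
  norm_num

theorem natDegree_X_add_one_pow_le : ((X + 1 : F[X]) ^ 3).natDegree ≤ 3 := by
  compute_degree

/-! ## Forms -/

/-- the formal solution `s S`, `s(z + 1) = ε s(z)`, of `L y = (2 z + 1) s(z)` as a power series in
`X = 1/z`; `S'` is `S(z + 1)` -/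
structure Sheet (ε : F) (S S' : PowerSeries F) : Prop where
  shift : sh S' = S
  eqn : PowerSeries.C ε * (1 + PowerSeries.X) ^ 3 * S' - apS F * S + PowerSeries.C ε * sh S =
    2 * PowerSeries.X ^ 2 + PowerSeries.X ^ 3

/-- the relation at `z - 1`, times `z ^ 3`, in the basis at `z` -/
noncomputable def pv (ε x : ι → F) (L : Fin 2 ⊕ ι → F[X]) : Fin 2 ⊕ ι → F[X] :=
  Sum.elim ![X ^ 3 * taylor (-1) (L (Sum.inl 1)) + aq F * taylor (-1) (L (Sum.inl 0)),
    -((X + 1) ^ 3 * taylor (-1) (L (Sum.inl 0)))]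
  (fun i => C (ε i) * (X ^ 3 * taylor (-1) (L (Sum.inr i))) +
    C (x i) * ((2 * X + 1) * taylor (-1) (L (Sum.inl 0))))

theorem pv_zero (ε x : ι → F) (L : Fin 2 ⊕ ι → F[X]) : pv ε x L (Sum.inl 0) =
    X ^ 3 * taylor (-1) (L (Sum.inl 1)) + aq F * taylor (-1) (L (Sum.inl 0)) := rfl

theorem pv_one (ε x : ι → F) (L : Fin 2 ⊕ ι → F[X]) : pv ε x L (Sum.inl 1) =
    -((X + 1) ^ 3 * taylor (-1) (L (Sum.inl 0))) := rfl

theorem pv_inr (ε x : ι → F) (L : Fin 2 ⊕ ι → F[X]) (i : ι) : pv ε x L (Sum.inr i) =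
    C (ε i) * (X ^ 3 * taylor (-1) (L (Sum.inr i))) +
      C (x i) * ((2 * X + 1) * taylor (-1) (L (Sum.inl 0))) := rfl

/-- `z ^ (-D) * (R_i + x_i (P S_i + ε_i Q S_i(z+1)))` -/
noncomputable def hatF (ε x : ι → F) (S S' : ι → PowerSeries F) (D : ℕ) (L : Fin 2 ⊕ ι → F[X])
    (i : ι) : PowerSeries F :=
  rv D (L (Sum.inr i)) + PowerSeries.C (x i) * (rv D (L (Sum.inl 0)) * S i +
    PowerSeries.C (ε i) * rv D (L (Sum.inl 1)) * S' i)

theorem natDegree_pv {ε x : ι → F} {L : Fin 2 ⊕ ι → F[X]} {D : ℕ}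
    (h : ∀ j, (L j).natDegree ≤ D) (j : Fin 2 ⊕ ι) : (pv ε x L j).natDegree ≤ D + 3 := by
  have ht : ∀ j, (taylor (-1) (L j)).natDegree ≤ D := fun j => by
    rw [natDegree_taylor]
    exact h j
  have hm : ∀ (g f : F[X]), g.natDegree ≤ 3 → f.natDegree ≤ D → (g * f).natDegree ≤ D + 3 := by
    intro g f hg hf
    exact natDegree_mul_le.trans (by omega)
  have hX : (X ^ 3 : F[X]).natDegree ≤ 3 := natDegree_X_pow_le 3
  rcases j with j | i
  · fin_cases j
    · exact natDegree_add_le_of_degree_le (hm _ _ hX (ht _)) (hm _ _ natDegree_aq_le (ht _))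
    · show (-((X + 1) ^ 3 * taylor (-1) (L (Sum.inl 0)))).natDegree ≤ D + 3
      rw [natDegree_neg]
      exact hm _ _ natDegree_X_add_one_pow_le (ht _)
  · rw [pv_inr]
    refine natDegree_add_le_of_degree_le ?_ ?_
    · exact (natDegree_C_mul_le _ _).trans (hm _ _ hX (ht _))
    · exact (natDegree_C_mul_le _ _).trans (hm _ _ natDegree_two_X_add_one_le (ht _))

theorem hatF_pv {ε x : ι → F} {S S' : ι → PowerSeries F} (hε : ∀ i, ε i ^ 2 = 1)
    (hS : ∀ i, Sheet (ε i) (S i) (S' i)) {L : Fin 2 ⊕ ι → F[X]} {D : ℕ}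
    (h : ∀ j, (L j).natDegree ≤ D) (i : ι) :
    hatF ε x S S' (D + 3) (pv ε x L) i =
      PowerSeries.C (ε i) * ((1 - PowerSeries.X) ^ D * sh (hatF ε x S S' D L i)) := by
  have ht : ∀ j, (taylor (-1) (L j)).natDegree ≤ D := fun j => by
    rw [natDegree_taylor]
    exact h j
  have hX : (X ^ 3 : F[X]).natDegree ≤ 3 := natDegree_X_pow_le 3
  have m1 : ∀ j, rv (D + 3) (X ^ 3 * taylor (-1) (L j)) = rv D (taylor (-1) (L j)) := by
    intro j
    rw [mul_comm, rv_mul (ht j) hX, rv_X_pow_three, mul_one]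
  have m2 : ∀ j, rv (D + 3) (aq F * taylor (-1) (L j)) = apS F * rv D (taylor (-1) (L j)) := by
    intro j
    rw [mul_comm, rv_mul (ht j) natDegree_aq_le, rv_aq, mul_comm]
  have m3 : ∀ j, rv (D + 3) ((X + 1) ^ 3 * taylor (-1) (L j)) =
      (1 + PowerSeries.X) ^ 3 * rv D (taylor (-1) (L j)) := by
    intro j
    rw [mul_comm, rv_mul (ht j) natDegree_X_add_one_pow_le, rv_X_add_one_pow, mul_comm]
  have m4 : ∀ j, rv (D + 3) ((2 * X + 1) * taylor (-1) (L j)) =
      (2 * PowerSeries.X ^ 2 + PowerSeries.X ^ 3) * rv D (taylor (-1) (L j)) := by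
    intro j
    rw [mul_comm, rv_mul (ht j) natDegree_two_X_add_one_le, rv_two_X_add_one, mul_comm]
  have s0 : ∀ j, (1 - PowerSeries.X) ^ D * sh (rv D (L j)) = rv D (taylor (-1) (L j)) :=
    fun j => sh_rv (h j)
  unfold hatF
  rw [pv_zero, pv_one, pv_inr, rv_add, rv_add, rv_C_mul, rv_C_mul, rv_neg, m1, m1, m2, m3, m4,
    map_add, map_mul, map_add, map_mul, map_mul, map_mul, (hS i).shift, sh_C, sh_C]
  have e1 := (hS i).eqn
  have e2 : (PowerSeries.C (ε i) : PowerSeries F) ^ 2 = 1 := by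
    rw [← map_pow, hε i, map_one]
  have s1 := s0 (Sum.inl 0)
  have s2 := s0 (Sum.inl 1)
  have s3 := s0 (Sum.inr i)
  rw [← s1, ← s2, ← s3]
  set a := (1 - PowerSeries.X : PowerSeries F) ^ D
  set p := sh (rv D (L (Sum.inl 0)))
  set q := sh (rv D (L (Sum.inl 1)))
  set r := sh (rv D (L (Sum.inr i)))
  set xi := (PowerSeries.C (x i) : PowerSeries F)
  set ei := (PowerSeries.C (ε i) : PowerSeries F)
  linear_combination (-xi * a * p) * e1 - (xi * a * q * S i) * e2

theorem dvd_sh {m : ℕ} {f : PowerSeries F} (h : PowerSeries.X ^ m ∣ f) :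
    PowerSeries.X ^ m ∣ sh f := by
  obtain ⟨g, rfl⟩ := h
  rw [map_mul, map_pow, sh_X, tt, mul_pow]
  exact Dvd.dvd.mul_right (Dvd.intro _ rfl) _

/-- the iterated shifts -/
noncomputable def pvs (ε x : ι → F) (L : Fin 2 ⊕ ι → F[X]) : ℕ → (Fin 2 ⊕ ι → F[X])
  | 0 => L
  | k + 1 => pv ε x (pvs ε x L k)

theorem natDegree_pvs {ε x : ι → F} {L : Fin 2 ⊕ ι → F[X]} {D : ℕ}
    (h : ∀ j, (L j).natDegree ≤ D) (k : ℕ) (j : Fin 2 ⊕ ι) :
    (pvs ε x L k j).natDegree ≤ D + 3 * k := by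
  induction k generalizing j with
  | zero => exact h j
  | succ k ih => exact natDegree_pv (D := D + 3 * k) ih j

theorem dvd_hatF_pvs {ε x : ι → F} {S S' : ι → PowerSeries F} (hε : ∀ i, ε i ^ 2 = 1)
    (hS : ∀ i, Sheet (ε i) (S i) (S' i)) {L : Fin 2 ⊕ ι → F[X]} {D m : ℕ}
    (h : ∀ j, (L j).natDegree ≤ D) (i : ι) (hF : PowerSeries.X ^ m ∣ hatF ε x S S' D L i)
    (k : ℕ) : PowerSeries.X ^ m ∣ hatF ε x S S' (D + 3 * k) (pvs ε x L k) i := by
  induction k with
  | zero => exact hF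
  | succ k ih =>
    have e := hatF_pv (x := x) hε hS (D := D + 3 * k) (natDegree_pvs (ε := ε) (x := x) h k) i
    show PowerSeries.X ^ m ∣ hatF ε x S S' (D + 3 * k + 3) (pv ε x (pvs ε x L k)) i
    rw [e]
    exact Dvd.dvd.mul_left (Dvd.dvd.mul_left (dvd_sh ih) _) _

/-! ## The determinant -/

variable [Fintype ι] [DecidableEq ι]

/-- the matrix of the shifts, row `k` is the `r k`-th shift -/
noncomputable def shM (ε x : ι → F) (L : Fin 2 ⊕ ι → F[X]) (r : Fin 2 ⊕ ι → ℕ) :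
    Matrix (Fin 2 ⊕ ι) (Fin 2 ⊕ ι) F[X] := Matrix.of fun k j => pvs ε x L (r k) j

theorem prod_dvd_det {R : Type*} [CommRing R] {n : Type*} [Fintype n] [DecidableEq n]
    (M : Matrix n n R) (c : n → R) (h : ∀ k j, c j ∣ M k j) : (∏ j, c j) ∣ M.det := by
  choose M' hM' using h
  have : M = Matrix.of fun k j => c j * M' k j := by
    ext k j
    exact hM' k j
  rw [this]
  have h2 := Matrix.det_mul_row c (Matrix.of M')
  simp only [Matrix.of_apply] at h2
  rw [h2]
  exact Dvd.intro _ rfl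

theorem det_shM_dvd {ε x : ι → F} {S S' : ι → PowerSeries F} (hε : ∀ i, ε i ^ 2 = 1)
    (hS : ∀ i, Sheet (ε i) (S i) (S' i)) {L : Fin 2 ⊕ ι → F[X]} {D m : ℕ}
    (h : ∀ j, (L j).natDegree ≤ D)
    (hF : ∀ i, PowerSeries.X ^ m ∣ hatF ε x S S' D L i) (r : Fin 2 ⊕ ι → ℕ) :
    ∃ V : PowerSeries F, single ((∑ k, (D + 3 * r k) : ℕ) : ℤ) (1 : F) *
      phi F (shM ε x L r).det = ser (PowerSeries.X ^ (m * Fintype.card ι) * V) := by
  classical
  -- the scaled matrix
  set M : Matrix (Fin 2 ⊕ ι) (Fin 2 ⊕ ι) (PowerSeries F) :=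
    Matrix.of fun k j => rv (D + 3 * r k) (pvs ε x L (r k) j) with hM
  -- the unimodular matrix
  set U : Matrix (Fin 2 ⊕ ι) (Fin 2 ⊕ ι) (PowerSeries F) :=
    Matrix.fromBlocks 1 (Matrix.of fun a i => ![PowerSeries.C (x i) * S i,
      PowerSeries.C (x i) * PowerSeries.C (ε i) * S' i] a) 0 1 with hU
  have hUdet : U.det = 1 := by
    rw [hU, Matrix.det_fromBlocks_zero₂₁, Matrix.det_one, Matrix.det_one, one_mul]
  have hdiv : ∀ k j, Sum.elim (fun _ : Fin 2 => (1 : PowerSeries F))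
      (fun _ : ι => PowerSeries.X ^ m) j ∣ (M * U) k j := by
    intro k j
    rcases j with j | i
    · exact one_dvd _
    · have e : (M * U) k (Sum.inr i) = hatF ε x S S' (D + 3 * r k) (pvs ε x L (r k)) i := by
        rw [Matrix.mul_apply, Fintype.sum_sum_type, Fin.sum_univ_two]
        simp only [hU, hM, Matrix.fromBlocks_apply₁₂, Matrix.fromBlocks_apply₂₂, Matrix.of_apply,
          Matrix.cons_val_zero, Matrix.cons_val_one, Matrix.one_apply, mul_ite, mul_one, mul_zero,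
          Finset.sum_ite_eq', Finset.mem_univ, if_true]
        unfold hatF
        ring
      rw [e]
      exact dvd_hatF_pvs hε hS h i (hF i) (r k)
  have h1 := prod_dvd_det (M * U) _ hdiv
  rw [Matrix.det_mul, hUdet, mul_one, Fintype.prod_sum_type] at h1
  simp only [Sum.elim_inl, Sum.elim_inr, Finset.prod_const_one, one_mul, Finset.prod_const,
    Finset.card_univ] at h1
  rw [← pow_mul] at h1
  obtain ⟨V, hV⟩ := h1
  refine ⟨V, ?_⟩
  rw [← hV]
  have e1 : ser M.det = ((ofPowerSeries ℤ F).mapMatrix M).det := by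
    unfold ser
    rw [RingHom.map_det]
  have e2 : phi F (shM ε x L r).det = ((phi F).mapMatrix (shM ε x L r)).det := by
    rw [RingHom.map_det]
  rw [e1, e2]
  have e3 : (ofPowerSeries ℤ F).mapMatrix M = Matrix.of fun k j =>
      single ((D + 3 * r k : ℕ) : ℤ) (1 : F) * (phi F).mapMatrix (shM ε x L r) k j := by
    ext1 k j
    simp only [RingHom.mapMatrix_apply, Matrix.map_apply, Matrix.of_apply, hM, shM]
    exact ser_rv (natDegree_pvs h (r k) j)
  rw [e3, Matrix.det_mul_column]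
  congr 1
  have : ∀ s : Finset (Fin 2 ⊕ ι), (single ((∑ k ∈ s, (D + 3 * r k) : ℕ) : ℤ) (1 : F) :
      LaurentSeries F) = ∏ k ∈ s, single ((D + 3 * r k : ℕ) : ℤ) (1 : F) := by
    intro s
    induction s using Finset.induction_on with
    | empty =>
      simp only [Finset.sum_empty, Finset.prod_empty]
      rfl
    | insert a s ha ih =>
      rw [Finset.sum_insert ha, Finset.prod_insert ha, ← ih, single_nat_mul]
  exact this _

/-- degree of the determinant -/
theorem det_shM_degree {ε x : ι → F} {S S' : ι → PowerSeries F} (hε : ∀ i, ε i ^ 2 = 1)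
    (hS : ∀ i, Sheet (ε i) (S i) (S' i)) {L : Fin 2 ⊕ ι → F[X]} {D m : ℕ}
    (h : ∀ j, (L j).natDegree ≤ D)
    (hF : ∀ i, PowerSeries.X ^ m ∣ hatF ε x S S' D L i) (r : Fin 2 ⊕ ι → ℕ) {N : ℕ}
    (hN : ∑ k, (D + 3 * r k) < N + m * Fintype.card ι) : (shM ε x L r).det.degree < N := by
  obtain ⟨V, hV⟩ := det_shM_dvd hε hS h hF r
  set E := ∑ k, (D + 3 * r k) with hE
  set δ := (shM ε x L r).det with hδ
  rw [degree_lt_iff_coeff_zero]
  intro k hk
  have h1 := congrArg (fun f => HahnSeries.coeff f ((E : ℤ) - k)) hV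
  rw [coeff_single_mul, phi_coeff, one_mul] at h1
  have e1 : (E : ℤ) - k - (E : ℤ) = -(k : ℤ) := by ring
  rw [e1, if_pos (by omega), neg_neg, Int.toNat_natCast] at h1
  rw [h1]
  by_cases hEk : k ≤ E
  · have e2 : (E : ℤ) - k = ((E - k : ℕ) : ℤ) := by omega
    rw [e2, ser, ofPowerSeries_apply_coeff, PowerSeries.coeff_X_pow_mul', if_neg (by omega)]
  · rw [ser, ofPowerSeries_apply]
    apply embDomain_of_notMem_range
    rintro ⟨y, hy⟩
    simp at hy
    omega

/-! ## Zeros -/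

/-- the value of the form `L` at `z` -/
noncomputable def ev (w : ℤ → F) (s : ι → ℤ → F) (L : Fin 2 ⊕ ι → F[X]) (z : ℤ) : F :=
  (L (Sum.inl 0)).eval (z : F) * w z + (L (Sum.inl 1)).eval (z : F) * w (z + 1) +
    ∑ i, (L (Sum.inr i)).eval (z : F) * s i z

/-- the inhomogeneous recurrence at `z` -/
def RecI (x : ι → F) (w : ℤ → F) (s : ι → ℤ → F) (z : ℤ) : Prop :=
  ((z : F) + 1) ^ 3 * w (z + 1) - (34 * (z : F) ^ 3 + 51 * (z : F) ^ 2 + 27 * (z : F) + 5) * w z +
    (z : F) ^ 3 * w (z - 1) = ∑ i, x i * s i z * (2 * (z : F) + 1)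

omit [DecidableEq ι] in
theorem ev_pv {ε x : ι → F} {w : ℤ → F} {s : ι → ℤ → F} {z : ℤ} (hr : RecI x w s z)
    (hs : ∀ i, s i (z - 1) = ε i * s i z) (L : Fin 2 ⊕ ι → F[X]) :
    ev w s (pv ε x L) z = (z : F) ^ 3 * ev w s L (z - 1) := by
  unfold ev
  unfold RecI at hr
  rw [pv_zero, pv_one]
  have c1 : (z : F) + -1 = ((z - 1 : ℤ) : F) := by push_cast; ring
  have e1 : z - 1 + 1 = z := by ring
  have h3 : ∑ i, (pv ε x L (Sum.inr i)).eval (z : F) * s i z =
      (z : F) ^ 3 * ∑ i, (L (Sum.inr i)).eval ((z - 1 : ℤ) : F) * s i (z - 1) +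
      (L (Sum.inl 0)).eval ((z - 1 : ℤ) : F) * ∑ i, x i * s i z * (2 * (z : F) + 1) := by
    rw [Finset.mul_sum, Finset.mul_sum, ← Finset.sum_add_distrib]
    refine Finset.sum_congr rfl fun i _ => ?_
    rw [pv_inr, hs i]
    simp only [eval_add, eval_mul, eval_C, eval_pow, eval_X, eval_one, taylor_eval, c1,
      eval_ofNat]
    ring
  rw [h3, e1]
  simp only [eval_add, eval_mul, eval_C, eval_pow, eval_X, eval_one, taylor_eval, c1, aq,
    eval_neg]
  linear_combination (-(L (Sum.inl 0)).eval ((z - 1 : ℤ) : F)) * hr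

omit [DecidableEq ι] in
theorem ev_pvs {ε x : ι → F} {w : ℤ → F} {s : ι → ℤ → F} {L : Fin 2 ⊕ ι → F[X]} (k : ℕ) :
    ∀ {z : ℤ}, (∀ t : ℤ, z - k < t → t ≤ z → RecI x w s t) →
    (∀ t : ℤ, z - k < t → t ≤ z → ∀ i, s i (t - 1) = ε i * s i t) →
    ev w s L (z - k) = 0 → ev w s (pvs ε x L k) z = 0 := by
  induction k with
  | zero =>
    intro z _ _ h
    have e : z - ((0 : ℕ) : ℤ) = z := by simp
    rw [e] at h
    exact h
  | succ k ih =>
    intro z h1 h2 h3
    show ev w s (pv ε x (pvs ε x L k)) z = 0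
    rw [ev_pv (h1 z (by push_cast; omega) le_rfl) (h2 z (by push_cast; omega) le_rfl),
      ih (z := z - 1), mul_zero]
    · intro t ht1 ht2
      exact h1 t (by push_cast at *; omega) (by omega)
    · intro t ht1 ht2
      exact h2 t (by push_cast at *; omega) (by omega)
    · have : z - 1 - (k : ℤ) = z - ((k + 1 : ℕ) : ℤ) := by push_cast; ring
      rw [this]
      exact h3

/-- the determinant vanishes where all shifts vanish -/
theorem det_eval {ε x : ι → F} {w : ℤ → F} {s : ι → ℤ → F} {L : Fin 2 ⊕ ι → F[X]}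
    (r : Fin 2 ⊕ ι → ℕ) {z : ℤ} (hs : ∃ i, s i z ≠ 0)
    (h : ∀ k, ev w s (pvs ε x L (r k)) z = 0) : (shM ε x L r).det.eval (z : F) = 0 := by
  have e : (shM ε x L r).det.eval (z : F) =
      ((evalRingHom (z : F)).mapMatrix (shM ε x L r)).det := by
    rw [← coe_evalRingHom, RingHom.map_det]
  rw [e]
  apply Matrix.exists_mulVec_eq_zero_iff.1
  refine ⟨Sum.elim ![w z, w (z + 1)] (fun i => s i z), ?_, ?_⟩
  · obtain ⟨i, hi⟩ := hs
    intro h0
    exact hi (congrFun h0 (Sum.inr i))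
  · ext k
    have := h k
    unfold ev at this
    rw [Matrix.mulVec, dotProduct, Fintype.sum_sum_type, Fin.sum_univ_two, Pi.zero_apply, ← this]
    rfl

end T2.NV
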