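import Pool.Agent.T2.NVNe
import Pool.Agent.T2.NVDet

/-!
# T2: non-vanishing, the leading coefficient of the determinant
-/

set_option autoImplicit false

namespace T2.NV

open Polynomial QS2.NV QS2
open HahnSeries hiding C

variable {ι : Type} [Fintype ι] [DecidableEq ι]

/-- leading coefficients of the shifts: `(a, b) ↦ (34 a + b, -a)` -/
def ab (a b : ℚ) : ℕ → ℚ × ℚ
  | 0 => (a, b)
  | k + 1 => (34 * (ab a b k).1 + (ab a b k).2, -(ab a b k).1)

omit [Fintype ι] [DecidableEq ι] in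
theorem coeff_pvs {ε x : ι → ℚ} {L : Fin 2 ⊕ ι → ℚ[X]} {D : ℕ}
    (h : ∀ j, (L j).natDegree ≤ D) (k : ℕ) :
    (pvs ε x L k (Sum.inl 0)).coeff (D + 3 * k) =
      (ab ((L (Sum.inl 0)).coeff D) ((L (Sum.inl 1)).coeff D) k).1 ∧
    (pvs ε x L k (Sum.inl 1)).coeff (D + 3 * k) =
      (ab ((L (Sum.inl 0)).coeff D) ((L (Sum.inl 1)).coeff D) k).2 := by
  have cX : (X ^ 3 : ℚ[X]).coeff 3 = 1 := by simp
  have cX1 : ((X + 1) ^ 3 : ℚ[X]).coeff 3 = 1 := by
    have : ((X + 1) ^ 3 : ℚ[X]) = X ^ 3 + C 3 * X ^ 2 + C 3 * X + C 1 := by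
      have : (C (3 : ℚ)) = (3 : ℚ[X]) := rfl
      rw [this, C_1]
      ring
    rw [this]
    simp [coeff_X_pow, Polynomial.coeff_one]
  have ca : (aq ℚ).coeff 3 = 34 := by
    unfold aq
    simp [coeff_X_pow]
  induction k with
  | zero => exact ⟨rfl, rfl⟩
  | succ k ih =>
    have hd := natDegree_pvs (ε := ε) (x := x) h k
    have ht : ∀ j, (taylor (-1) (pvs ε x L k j)).natDegree ≤ D + 3 * k := fun j => by
      rw [natDegree_taylor]
      exact hd j
    have tt : ∀ j, (taylor (-1) (pvs ε x L k j)).coeff (D + 3 * k) =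
        (pvs ε x L k j).coeff (D + 3 * k) := fun j => coeff_taylor_top (hd j) _
    have e : D + 3 * (k + 1) = 3 + (D + 3 * k) := by ring
    have key : ∀ (g f : ℚ[X]), g.natDegree ≤ 3 → f.natDegree ≤ D + 3 * k →
        (g * f).coeff (3 + (D + 3 * k)) = g.coeff 3 * f.coeff (D + 3 * k) :=
      fun g f hg hf => coeff_mul_add_eq_of_natDegree_le hg hf
    constructor
    · show (pv ε x (pvs ε x L k) (Sum.inl 0)).coeff (D + 3 * (k + 1)) = _
      rw [e, pv_zero, Polynomial.coeff_add, key _ _ (natDegree_X_pow_le 3) (ht _),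
        key _ _ natDegree_aq_le (ht _), cX, ca, tt, tt, ih.1, ih.2]
      simp only [ab]
      ring
    · show (pv ε x (pvs ε x L k) (Sum.inl 1)).coeff (D + 3 * (k + 1)) = _
      rw [e, pv_one, Polynomial.coeff_neg, key _ _ natDegree_X_add_one_pow_le (ht _), cX1, tt,
        ih.1]
      simp only [ab]
      ring

theorem cc_rv {D : ℕ} {f : ℚ[X]} : PowerSeries.constantCoeff (rv D f) = f.coeff D := by
  unfold rv
  rw [map_sum, Finset.sum_eq_single D]
  · simp
  · intro j hj hjD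
    have := Finset.mem_range.1 hj
    rw [map_mul, map_pow, PowerSeries.constantCoeff_X, zero_pow (by omega), mul_zero]
  · intro h
    exact absurd (Finset.mem_range.2 (Nat.lt_succ_self D)) h

theorem cc_sh (V : PowerSeries ℚ) : PowerSeries.constantCoeff (sh V) =
    PowerSeries.constantCoeff V := by
  have h := sh_mk (fun n => PowerSeries.coeff n V)
  have e : PowerSeries.mk (fun n => PowerSeries.coeff n V) = V := by
    ext n
    rw [PowerSeries.coeff_mk]
  rw [e] at h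
  rw [h, ← PowerSeries.coeff_zero_eq_constantCoeff_apply, PowerSeries.coeff_mk,
    ← PowerSeries.coeff_zero_eq_constantCoeff_apply]
  simp [vm]

omit [Fintype ι] [DecidableEq ι] in
/-- the lowest coefficients of the shifted `E` -/
theorem hatF_low {ε x : ι → ℚ} {S S' : ι → PowerSeries ℚ} (hε : ∀ i, ε i ^ 2 = 1)
    (hS : ∀ i, Sheet (ε i) (S i) (S' i)) {L : Fin 2 ⊕ ι → ℚ[X]} {D : ℕ}
    (h : ∀ j, (L j).natDegree ≤ D) (i : ι) {m : ℕ} {u : ℚ}
    (h0 : ∃ g, hatF ε x S S' D L i = PowerSeries.X ^ m * g ∧ PowerSeries.constantCoeff g = u)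
    (k : ℕ) : ∃ g, hatF ε x S S' (D + 3 * k) (pvs ε x L k) i = PowerSeries.X ^ m * g ∧
      PowerSeries.constantCoeff g = ε i ^ k * u := by
  induction k with
  | zero =>
    obtain ⟨g, hg, hu⟩ := h0
    exact ⟨g, hg, by rw [pow_zero, one_mul]; exact hu⟩
  | succ k ih =>
    obtain ⟨g, hg, hu⟩ := ih
    have e := hatF_pv (x := x) hε hS (D := D + 3 * k) (natDegree_pvs (ε := ε) (x := x) h k) i
    refine ⟨PowerSeries.C (ε i) * ((1 - PowerSeries.X) ^ (D + 3 * k) *
      ((PowerSeries.mk 1) ^ m * sh g)), ?_, ?_⟩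
    · show hatF ε x S S' (D + 3 * k + 3) (pv ε x (pvs ε x L k)) i = _
      rw [e, hg, map_mul, map_pow, sh_X, tt, mul_pow]
      ring
    · rw [map_mul, map_mul, map_mul, map_pow, map_pow, cc_sh, hu, PowerSeries.constantCoeff_C,
        map_sub, map_one, PowerSeries.constantCoeff_X, sub_zero, one_pow,
        PowerSeries.constantCoeff_mk]
      simp only [Pi.one_apply, one_pow, one_mul]
      rw [pow_succ]
      ring

/-- the matrix of the leading coefficients -/
def ldM (ε : ι → ℚ) (a b : ℚ) (r : Fin 2 ⊕ ι → ℕ) : Matrix (Fin 2 ⊕ ι) (Fin 2 ⊕ ι) ℚ :=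
  Matrix.of fun k j => Sum.elim ![(ab a b (r k)).1, (ab a b (r k)).2] (fun i => ε i ^ (r k)) j

/-- the determinant is not zero if the leading matrix is not singular -/
theorem det_ne_of_lead {ε x : ι → ℚ} {S S' : ι → PowerSeries ℚ} (hε : ∀ i, ε i ^ 2 = 1)
    (hS : ∀ i, Sheet (ε i) (S i) (S' i)) {L : Fin 2 ⊕ ι → ℚ[X]} {D : ℕ}
    (h : ∀ j, (L j).natDegree ≤ D) (hne : ∀ i, hatF ε x S S' D L i ≠ 0) (r : Fin 2 ⊕ ι → ℕ)
    (hld : (ldM ε ((L (Sum.inl 0)).coeff D) ((L (Sum.inl 1)).coeff D) r).det ≠ 0) :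
    (shM ε x L r).det ≠ 0 := by
  -- orders
  have hlow : ∀ i, ∃ m : ℕ, ∃ u : ℚ, u ≠ 0 ∧ ∃ g, hatF ε x S S' D L i = PowerSeries.X ^ m * g ∧
      PowerSeries.constantCoeff g = u := by
    intro i
    obtain ⟨g, hg⟩ := PowerSeries.X_pow_order_dvd (φ := hatF ε x S S' D L i)
    refine ⟨(hatF ε x S S' D L i).order.toNat, PowerSeries.constantCoeff g, ?_, g, hg, rfl⟩
    intro h0
    have h1 := PowerSeries.coeff_order (hne i)
    have h2 : ∀ n : ℕ, hatF ε x S S' D L i = PowerSeries.X ^ n * g →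
        PowerSeries.coeff n (hatF ε x S S' D L i) = 0 := by
      intro n hn
      rw [hn, PowerSeries.coeff_X_pow_mul', if_pos le_rfl, Nat.sub_self,
        PowerSeries.coeff_zero_eq_constantCoeff_apply]
      exact h0
    exact h1 (h2 _ hg)
  choose m u hu hg using hlow
  choose g hg1 hg2 using fun (k : Fin 2 ⊕ ι) (i : ι) =>
    hatF_low (x := x) hε hS h i (hg i) (r k)
  -- the scaled matrix
  set M : Matrix (Fin 2 ⊕ ι) (Fin 2 ⊕ ι) (PowerSeries ℚ) :=
    Matrix.of fun k j => rv (D + 3 * r k) (pvs ε x L (r k) j) with hM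
  set U : Matrix (Fin 2 ⊕ ι) (Fin 2 ⊕ ι) (PowerSeries ℚ) :=
    Matrix.fromBlocks 1 (Matrix.of fun a i => ![PowerSeries.C (x i) * S i,
      PowerSeries.C (x i) * PowerSeries.C (ε i) * S' i] a) 0 1 with hU
  have hUdet : U.det = 1 := by
    rw [hU, Matrix.det_fromBlocks_zero₂₁, Matrix.det_one, Matrix.det_one, one_mul]
  set N : Matrix (Fin 2 ⊕ ι) (Fin 2 ⊕ ι) (PowerSeries ℚ) := Matrix.of fun k j =>
    Sum.elim ![rv (D + 3 * r k) (pvs ε x L (r k) (Sum.inl 0)),
      rv (D + 3 * r k) (pvs ε x L (r k) (Sum.inl 1))] (fun i => g k i) j with hN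
  have hMU : M * U = Matrix.of fun k j => (Sum.elim (fun _ : Fin 2 => (1 : PowerSeries ℚ))
      (fun i : ι => PowerSeries.X ^ m i) j) * N k j := by
    ext1 k j
    rw [Matrix.mul_apply, Fintype.sum_sum_type, Fin.sum_univ_two]
    rcases j with j | i
    · simp only [hU, hM, hN, Matrix.fromBlocks_apply₁₁, Matrix.fromBlocks_apply₂₁,
        Matrix.of_apply, Matrix.one_apply, Matrix.zero_apply, mul_zero, Finset.sum_const_zero,
        add_zero, Sum.elim_inl, one_mul]
      fin_cases j <;> simp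
    · have e : hatF ε x S S' (D + 3 * r k) (pvs ε x L (r k)) i = PowerSeries.X ^ m i * g k i :=
        hg1 k i
      simp only [hU, hM, hN, Matrix.fromBlocks_apply₁₂, Matrix.fromBlocks_apply₂₂,
        Matrix.of_apply, Matrix.cons_val_zero, Matrix.cons_val_one, Matrix.one_apply, mul_ite,
        mul_one, mul_zero, Finset.sum_ite_eq', Finset.mem_univ, if_true, Sum.elim_inr]
      rw [← e]
      unfold hatF
      ring
  have hdet : M.det = (∏ i, PowerSeries.X ^ m i) * N.det := by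
    have h1 := congrArg Matrix.det hMU
    rw [Matrix.det_mul, hUdet, mul_one, Matrix.det_mul_row, Fintype.prod_sum_type] at h1
    simpa using h1
  -- constant coefficient of `N.det`
  have hNc : PowerSeries.constantCoeff N.det =
      (∏ i, u i) * (ldM ε ((L (Sum.inl 0)).coeff D) ((L (Sum.inl 1)).coeff D) r).det := by
    rw [RingHom.map_det]
    have e : (PowerSeries.constantCoeff (R := ℚ)).mapMatrix N = Matrix.of fun k j =>
        (Sum.elim (fun _ : Fin 2 => (1 : ℚ)) (fun i : ι => u i) j) *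
          ldM ε ((L (Sum.inl 0)).coeff D) ((L (Sum.inl 1)).coeff D) r k j := by
      ext1 k j
      rw [RingHom.mapMatrix_apply, Matrix.map_apply]
      obtain ⟨c0, c1⟩ := coeff_pvs (ε := ε) (x := x) h (r k)
      rcases j with j | i
      · fin_cases j
        · simp [hN, ldM, cc_rv, c0]
        · simp [hN, ldM, cc_rv, c1]
      · simp only [hN, ldM, Matrix.of_apply, Sum.elim_inr]
        rw [hg2 k i]
        ring
    rw [e, Matrix.det_mul_row, Fintype.prod_sum_type]
    simp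
  have hNne : N.det ≠ 0 := by
    intro h0
    rw [h0, map_zero] at hNc
    exact mul_ne_zero (Finset.prod_ne_zero_iff.2 fun i _ => hu i) hld hNc.symm
  have hMne : M.det ≠ 0 := by
    rw [hdet]
    exact mul_ne_zero (Finset.prod_ne_zero_iff.2 fun i _ =>
      pow_ne_zero _ PowerSeries.X_ne_zero) hNne
  intro h0
  apply hMne
  apply ofPowerSeries_injective (Γ := ℤ)
  rw [map_zero, RingHom.map_det]
  have e3 : (ofPowerSeries ℤ ℚ).mapMatrix M = Matrix.of fun k j =>
      single ((D + 3 * r k : ℕ) : ℤ) (1 : ℚ) * (phi ℚ).mapMatrix (shM ε x L r) k j := by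
    ext1 k j
    simp only [RingHom.mapMatrix_apply, Matrix.map_apply, Matrix.of_apply, hM, shM]
    exact ser_rv (natDegree_pvs h (r k) j)
  rw [e3, Matrix.det_mul_column, ← RingHom.map_det, h0, map_zero, mul_zero]

theorem det_ldM_two (a b : ℚ) : (ldM ![(1 : ℚ), -1] a b r2).det =
    -2304 * (a ^ 2 + 34 * a * b + b ^ 2) := by
  rw [← Matrix.det_submatrix_equiv_self (finSumFinEquiv (m := 2) (n := 2)).symm]
  rw [Matrix.det_succ_row_zero]
  simp [Fin.sum_univ_succ, Matrix.det_succ_row_zero, ldM, r2, ab, finSumFinEquiv, Fin.addCases,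
    Fin.succAbove]
  ring

theorem det_ldM_one {ε : ℚ} (hε : ε ^ 2 = 1) (a b : ℚ) : (ldM (fun _ : Unit => ε) a b r1).det =
    (34 * ε - 2) * (a ^ 2 + 34 * a * b + b ^ 2) := by
  let e : Fin (2 + 1) ≃ Fin 2 ⊕ Unit := (finSumFinEquiv (m := 2) (n := 1)).symm.trans
    (Equiv.sumCongr (Equiv.refl _) (Equiv.ofUnique (Fin 1) Unit))
  have e0 : e 0 = Sum.inl 0 := rfl
  have e1 : e 1 = Sum.inl 1 := rfl
  have e2 : e 2 = Sum.inr () := rfl
  rw [← Matrix.det_submatrix_equiv_self e]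
  have h3 : ((ldM (fun _ : Unit => ε) a b r1).submatrix e e).det =
      Matrix.det (!![a, b, 1; 34 * a + b, -a, ε; 34 * (34 * a + b) + -a, -(34 * a + b), ε ^ 2]) := by
    congr 1
    ext k j
    fin_cases k <;> fin_cases j <;>
      simp [Matrix.submatrix_apply, e0, e1, e2, ldM, r1, ab]
  rw [h3, Matrix.det_fin_three]
  simp
  linear_combination (-b ^ 2 - a ^ 2 - 34 * a * b) * hε

theorem leadStmt_two : LeadStmt ![(1 : ℚ), -1] r2 := by
  intro x S S' _ hS L D h hc hne
  refine det_ne_of_lead ?_ hS h hne r2 ?_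
  · intro i
    fin_cases i <;> norm_num
  · rw [det_ldM_two]
    exact mul_ne_zero (by norm_num) (quad_ne hc)

theorem leadStmt_one {ε : ℚ} (hε : ε ^ 2 = 1) : LeadStmt (fun _ : Unit => ε) r1 := by
  intro x S S' _ hS L D h hc hne
  refine det_ne_of_lead (fun _ => hε) hS h hne r1 ?_
  rw [det_ldM_one hε]
  refine mul_ne_zero ?_ (quad_ne hc)
  intro h0
  have : ε = 1 / 17 := by linarith
  rw [this] at hε
  norm_num at hε

theorem neStmt_two : NeStmt ![(1 : ℚ), -1] := by
  intro x S S' hx hS L D h hPQ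
  exact hatF_ne (by intro i; fin_cases i <;> norm_num) hx hS h hPQ

theorem neStmt_one {ε : ℚ} (hε : ε ^ 2 = 1) : NeStmt (fun _ : Unit => ε) := by
  intro x S S' hx hS L D h hPQ
  exact hatF_ne (fun _ => hε) hx hS h hPQ

/-- **Non-vanishing for T2** (and T1: `x 1 = 0`), any sheets -/
theorem nonvan (x : Fin 4 → ℤ) (hx : x 1 ≠ 0 ∨ x 3 ≠ 0) {s s1 : Fin 2 → ℕ → ℚ}
    (h0 : IsSheet 1 (s 0) (s1 0)) (h1 : IsSheet (-1) (s 1) (s1 1)) {A c : ℕ} (hA : c + 11 ≤ A) :
    ∃ e : Fin c ⊕ Fin c → Nd A, Function.Injective e ∧ detQ x s s1 A c e ≠ 0 :=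
  nonvan_of leadStmt_two neStmt_two (fun _ h => leadStmt_one h) (fun _ h => neStmt_one h) x hx
    h0 h1 hA

end T2.NV
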