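import Pool.Agent.T2.NVForm

/-!
# T2: non-vanishing, `E ≠ 0`: the sheets are not rational
-/

set_option autoImplicit false

namespace T2.NV

open Polynomial QS2.NV QS2
open HahnSeries hiding C

/-- `√2` is irrational, in the form needed -/
theorem quad_ne {a b : ℚ} (h : a ≠ 0 ∨ b ≠ 0) : a ^ 2 + 34 * a * b + b ^ 2 ≠ 0 := by
  intro h0
  have h1 : (a + 17 * b) ^ 2 = 2 * (12 * b) ^ 2 := by linear_combination h0
  by_cases hb : b = 0
  · subst hb
    have : a = 0 := by
      have : a ^ 2 = 0 := by linear_combination h0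
      exact pow_eq_zero_iff (two_ne_zero) |>.1 this
    rcases h with h | h
    · exact h this
    · exact h rfl
  · have hb' : (12 * b : ℚ) ≠ 0 := mul_ne_zero (by norm_num) hb
    have h2 : ((a + 17 * b) / (12 * b)) ^ 2 = 2 := by
      rw [div_pow, h1, mul_div_assoc, div_self (pow_ne_zero 2 hb'), mul_one]
    have h3 : Irrational (√2) := irrational_sqrt_two
    apply h3
    refine ⟨|(a + 17 * b) / (12 * b)|, ?_⟩
    have h4 : (((a + 17 * b) / (12 * b) : ℚ) : ℝ) ^ 2 = 2 := by exact_mod_cast h2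
    rw [Rat.cast_abs, ← Real.sqrt_sq_eq_abs, h4]

/-- the determinant of `(P, Q)` and its shift -/
theorem wr_ne {P Q : ℚ[X]} (h : P ≠ 0 ∨ Q ≠ 0) :
    X ^ 3 * (Q * taylor (-1) Q) + aq ℚ * (taylor (-1) P * Q) +
      (X + 1) ^ 3 * (P * taylor (-1) P) ≠ 0 := by
  set m := max P.natDegree Q.natDegree with hm
  have hP : P.natDegree ≤ m := le_max_left _ _
  have hQ : Q.natDegree ≤ m := le_max_right _ _
  have hP' : (taylor (-1) P).natDegree ≤ m := by rwa [natDegree_taylor]
  have hQ' : (taylor (-1) Q).natDegree ≤ m := by rwa [natDegree_taylor]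
  have tP : (taylor (-1) P).coeff m = P.coeff m := coeff_taylor_top hP _
  have tQ : (taylor (-1) Q).coeff m = Q.coeff m := coeff_taylor_top hQ _
  have hX : (X ^ 3 : ℚ[X]).natDegree ≤ 3 := natDegree_X_pow_le 3
  have hX1 : (((X + 1) ^ 3 : ℚ[X])).natDegree ≤ 3 := natDegree_X_add_one_pow_le
  have cX : (X ^ 3 : ℚ[X]).coeff 3 = 1 := by simp
  have cX1 : ((X + 1) ^ 3 : ℚ[X]).coeff 3 = 1 := by
    have : ((X + 1) ^ 3 : ℚ[X]) = X ^ 3 + C 3 * X ^ 2 + C 3 * X + C 1 := by
      have : (C (3 : ℚ)) = (3 : ℚ[X]) := rfl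
      rw [this, C_1]
      ring
    rw [this]
    simp [coeff_X_pow, Polynomial.coeff_one]
  have ca : (aq ℚ).coeff 3 = 34 := by
    unfold aq
    simp [coeff_X_pow]
  have hdm : ∀ f g : ℚ[X], f.natDegree ≤ m → g.natDegree ≤ m → (f * g).natDegree ≤ m + m :=
    fun f g hf hg => natDegree_mul_le.trans (by omega)
  have key : ∀ (k f g : ℚ[X]), k.natDegree ≤ 3 → f.natDegree ≤ m → g.natDegree ≤ m →
      (k * (f * g)).coeff (3 + (m + m)) = k.coeff 3 * (f.coeff m * g.coeff m) := by
    intro k f g hk hf hg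
    rw [coeff_mul_add_eq_of_natDegree_le hk (hdm f g hf hg),
      coeff_mul_add_eq_of_natDegree_le hf hg]
  have hc : P.coeff m ≠ 0 ∨ Q.coeff m ≠ 0 := by
    rcases le_total P.natDegree Q.natDegree with h1 | h1
    · have hmQ : m = Q.natDegree := max_eq_right h1
      by_cases hQ0 : Q = 0
      · left
        have hP0 : P ≠ 0 := by
          rcases h with h | h
          · exact h
          · exact absurd hQ0 h
        have : P.natDegree = m := by
          rw [hQ0, natDegree_zero] at h1 hmQ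
          omega
        rw [← this, coeff_natDegree]
        exact leadingCoeff_ne_zero.2 hP0
      · right
        rw [hmQ, coeff_natDegree]
        exact leadingCoeff_ne_zero.2 hQ0
    · have hmP : m = P.natDegree := max_eq_left h1
      by_cases hP0 : P = 0
      · right
        have hQ0 : Q ≠ 0 := by
          rcases h with h | h
          · exact absurd hP0 h
          · exact h
        have : Q.natDegree = m := by
          rw [hP0, natDegree_zero] at h1 hmP
          omega
        rw [← this, coeff_natDegree]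
        exact leadingCoeff_ne_zero.2 hQ0
      · left
        rw [hmP, coeff_natDegree]
        exact leadingCoeff_ne_zero.2 hP0
  intro h0
  have h1 := congrArg (fun f => Polynomial.coeff f (3 + (m + m))) h0
  simp only [Polynomial.coeff_add, Polynomial.coeff_zero] at h1
  rw [key _ _ _ hX hQ hQ', key _ _ _ natDegree_aq_le hP' hQ, key _ _ _ hX1 hP hP', cX, ca, cX1,
    tP, tQ] at h1
  refine quad_ne hc ?_
  linear_combination h1

/-- no rational solution of the inhomogeneous recurrence -/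
theorem no_rat_inh {ε : ℚ} (hε : ε ^ 2 = 1) {p q : ℚ[X]} (hq : q ≠ 0) (hc : IsCoprime p q)
    (h : C ε * ((X + 1) ^ 3 * p * taylor (-1) q * taylor (-1) (taylor (-1) q)) -
      aq ℚ * taylor (-1) p * q * taylor (-1) (taylor (-1) q) +
      C ε * (X ^ 3 * taylor (-1) (taylor (-1) p) * q * taylor (-1) q) =
      (2 * X + 1) * q * taylor (-1) q * taylor (-1) (taylor (-1) q)) : q.natDegree = 0 := by
  classical
  have hε0 : ε ≠ 0 := by
    rintro rfl
    norm_num at hε
  have ht : ∀ (f : ℚ[X]) (z : ℂ), aeval z (taylor (-1) f) = aeval (z - 1) f := by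
    intro f z
    rw [taylor_apply, aeval_comp]
    congr 1
    simp [sub_eq_add_neg]
  have hev : ∀ z : ℂ, (ε : ℂ) * ((z + 1) ^ 3 * aeval z p * aeval (z - 1) q *
      aeval (z - 1 - 1) q) - aeval z (aq ℚ) * aeval (z - 1) p * aeval z q * aeval (z - 1 - 1) q +
      (ε : ℂ) * (z ^ 3 * aeval (z - 1 - 1) p * aeval z q * aeval (z - 1) q) =
      (2 * z + 1) * aeval z q * aeval (z - 1) q * aeval (z - 1 - 1) q := by
    intro z
    have h1 := congrArg (fun f => aeval z f) h
    simp only [map_add, map_sub, map_mul, map_pow, map_one, map_ofNat, aeval_X, ht] at h1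
    have hC : aeval z (C ε : ℚ[X]) = (ε : ℂ) := by simp
    rw [hC] at h1
    exact h1
  have hp : ∀ z : ℂ, aeval z q = 0 → aeval z p ≠ 0 := by
    intro z hz hz2
    obtain ⟨u, v, huv⟩ := hc
    have h1 := congrArg (fun f => aeval z f) huv
    simp only [map_add, map_mul, map_one, hz, hz2, mul_zero, add_zero] at h1
    exact zero_ne_one h1
  by_contra hd
  set qC := q.map (algebraMap ℚ ℂ) with hqC
  have hqC0 : qC ≠ 0 := (Polynomial.map_ne_zero_iff (algebraMap ℚ ℂ).injective).2 hq
  have hroot : ∀ z : ℂ, z ∈ qC.roots.toFinset ↔ aeval z q = 0 := by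
    intro z
    rw [Multiset.mem_toFinset, mem_roots hqC0, IsRoot.def, hqC, eval_map_algebraMap]
  have hne : qC.roots.toFinset.Nonempty := by
    obtain ⟨z, hz⟩ := Complex.exists_root (f := qC) (by
      rw [hqC, degree_map]
      exact natDegree_pos_iff_degree_pos.1 (Nat.pos_of_ne_zero hd))
    refine ⟨z, (hroot z).2 ?_⟩
    rw [IsRoot.def, hqC, eval_map_algebraMap] at hz
    exact hz
  obtain ⟨a, ha1, ha2⟩ := Finset.exists_max_image _ (fun z : ℂ => z.re) hne
  obtain ⟨b, hb1, hb2⟩ := Finset.exists_min_image _ (fun z : ℂ => z.re) hne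
  rw [hroot] at ha1 hb1
  have hεC : (ε : ℂ) ≠ 0 := by exact_mod_cast hε0
  -- the rightmost root
  have hr : ∀ k : ℝ, 0 < k → aeval (a + k) q ≠ 0 := by
    intro k hk h0
    have := ha2 _ ((hroot _).2 h0)
    rw [Complex.add_re, Complex.ofReal_re] at this
    linarith
  have hl : ∀ k : ℝ, 0 < k → aeval (b - k) q ≠ 0 := by
    intro k hk h0
    have := hb2 _ ((hroot _).2 h0)
    rw [Complex.sub_re, Complex.ofReal_re] at this
    linarith
  have h2 := hev (a + 2)
  have e1 : a + 2 - 1 - 1 = a := by ring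
  have e2 : a + 2 - 1 = a + ((1 : ℝ) : ℂ) := by push_cast; ring
  have e3 : a + 2 = a + ((2 : ℝ) : ℂ) := by push_cast; ring
  rw [e1, ha1] at h2
  have h3 : (a + 2) ^ 3 = 0 := by
    have n1 := hr 1 one_pos
    have n2 := hr 2 two_pos
    rw [← e2] at n1
    rw [← e3] at n2
    have n3 := hp a ha1
    have : (ε : ℂ) * ((a + 2) ^ 3 * aeval a p * aeval (a + 2) q * aeval (a + 2 - 1) q) = 0 := by
      linear_combination h2
    rcases mul_eq_zero.1 this with h | h
    · exact absurd h hεC
    · rcases mul_eq_zero.1 h with h | h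
      · rcases mul_eq_zero.1 h with h | h
        · rcases mul_eq_zero.1 h with h | h
          · exact h
          · exact absurd h n3
        · exact absurd h n2
      · exact absurd h n1
  have h4 : a = -2 := by
    have := pow_eq_zero_iff (three_ne_zero) |>.1 h3
    linear_combination this
  have h5 := hev b
  rw [hb1] at h5
  have h6 : (b + 1) ^ 3 = 0 := by
    have n1 := hl 1 one_pos
    have n2 := hl 2 two_pos
    have e4 : b - ((1 : ℝ) : ℂ) = b - 1 := by push_cast; ring
    have e5 : b - ((2 : ℝ) : ℂ) = b - 1 - 1 := by push_cast; ring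
    rw [e4] at n1
    rw [e5] at n2
    have n3 := hp b hb1
    have : (ε : ℂ) * ((b + 1) ^ 3 * aeval b p * aeval (b - 1) q * aeval (b - 1 - 1) q) = 0 := by
      linear_combination h5
    rcases mul_eq_zero.1 this with h | h
    · exact absurd h hεC
    · rcases mul_eq_zero.1 h with h | h
      · rcases mul_eq_zero.1 h with h | h
        · rcases mul_eq_zero.1 h with h | h
          · exact h
          · exact absurd h n3
        · exact absurd h n1
      · exact absurd h n2
  have h7 : b = -1 := by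
    have := pow_eq_zero_iff (three_ne_zero) |>.1 h6
    linear_combination this
  have h8 := hb2 a ((hroot a).2 ha1)
  rw [h4, h7] at h8
  norm_num at h8

theorem ser_hatF {F : Type*} [Field F] {ι : Type*} {ε x : ι → F} {S S' : ι → PowerSeries F}
    {L : Fin 2 ⊕ ι → F[X]} {D : ℕ} (h : ∀ j, (L j).natDegree ≤ D) (i : ι) :
    ser (hatF ε x S S' D L i) = single (D : ℤ) (1 : F) * (phi F (L (Sum.inr i)) +
      HahnSeries.C (x i) * (phi F (L (Sum.inl 0)) * ser (S i) +
        HahnSeries.C (ε i) * (phi F (L (Sum.inl 1)) * ser (S' i)))) := by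
  unfold hatF
  have e := fun j => ser_rv (h j)
  unfold ser at e ⊢
  rw [map_add, map_mul, map_add, map_mul, map_mul, map_mul, ofPowerSeries_C, ofPowerSeries_C, e,
    e, e]
  ring

/-- a sheet is not rational -/
theorem sheet_not_rat {ε : ℚ} (hε : ε ^ 2 = 1) {S S' : PowerSeries ℚ} (hS : Sheet ε S S')
    {p q : ℚ[X]} (hq : q ≠ 0) (hc : IsCoprime p q) (h : phi ℚ q * ser S' = phi ℚ p) : False := by
  have h1 := shift_eq h
  rw [hS.shift] at h1
  have h2 := shift_eq h1
  set q1 := taylor (-1) q with hq1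
  set p1 := taylor (-1) p with hp1
  set q2 := taylor (-1) q1 with hq2
  set p2 := taylor (-1) p1 with hp2
  -- the equation
  have heq : C ε * ((X + 1) ^ 3 * p * q1 * q2) - aq ℚ * p1 * q * q2 +
      C ε * (X ^ 3 * p2 * q * q1) = (2 * X + 1) * q * q1 * q2 := by
    apply phi_injective
    have e1 := congrArg (ofPowerSeries ℤ ℚ) hS.eqn
    unfold apS at e1
    simp only [map_add, map_sub, map_mul, map_pow, map_one, ofPowerSeries_C,
      ofPowerSeries_X, map_ofNat] at e1
    simp only [map_add, map_sub, map_mul, map_pow, map_one, phi_X, aq, phi_C, map_ofNat]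
    rw [← h2, ← h1, ← h]
    unfold ser
    set T : LaurentSeries ℚ := single (-1 : ℤ) (1 : ℚ) with hT
    set Y : LaurentSeries ℚ := single (1 : ℤ) (1 : ℚ) with hY
    have hTY : T * Y = 1 := single_three
    set W := ofPowerSeries ℤ ℚ S
    set W1 := ofPowerSeries ℤ ℚ S'
    set W2 := ofPowerSeries ℤ ℚ (sh S)
    set E := (HahnSeries.C ε : LaurentSeries ℚ)
    set a := phi ℚ q
    set b := phi ℚ q1
    set c := phi ℚ q2
    have k1 : T ^ 3 * (1 + Y) ^ 3 = (T + 1) ^ 3 := by
      rw [← mul_pow, mul_add, mul_one, hTY]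
    have k2 : T ^ 3 * (34 + 51 * Y + 27 * Y ^ 2 + 5 * Y ^ 3) =
        34 * T ^ 3 + 51 * T ^ 2 + 27 * T + 5 := by
      linear_combination (51 * T ^ 2 + 27 * T * (T * Y + 1) +
        5 * ((T * Y) ^ 2 + T * Y + 1)) * hTY
    have k3 : T ^ 3 * (2 * Y ^ 2 + Y ^ 3) = 2 * T + 1 := by
      linear_combination (2 * T * (T * Y + 1) + ((T * Y) ^ 2 + T * Y + 1)) * hTY
    linear_combination (a * b * c) * T ^ 3 * e1 - (E * W1 * a * b * c) * k1 +
      (W * a * b * c) * k2 + (a * b * c) * k3
  have hd := no_rat_inh hε hq hc heq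
  obtain ⟨u, hu⟩ : ∃ u, q = C u := ⟨q.coeff 0, eq_C_of_natDegree_eq_zero hd⟩
  have hu0 : u ≠ 0 := by
    rintro rfl
    rw [C_0] at hu
    exact hq hu
  have hpd : p.degree ≤ (0 : ℕ) := by
    apply degree_of_order
    rw [← h, hu, phi_C]
    have h3 := ser_order S'
    have h4 := le_mul (F := ℚ) (a := HahnSeries.C u) (j := ((0 : ℤ) : WithTop ℤ)) (by
      rw [le_orderTop_iff_forall]
      intro j hj
      have hj' : j < 0 := by exact_mod_cast hj
      rw [C_apply, coeff_single, if_neg (by omega)]) h3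
    simpa using h4
  obtain ⟨v, hv⟩ : ∃ v, p = C v := ⟨p.coeff 0, eq_C_of_degree_le_zero (by simpa using hpd)⟩
  rw [hq2, hq1, hp2, hp1, hu, hv] at heq
  simp only [taylor_C] at heq
  have z0 := congrArg (fun f => Polynomial.eval 0 f) heq
  have z1 := congrArg (fun f => Polynomial.eval 1 f) heq
  simp only [aq, eval_add, eval_sub, eval_mul, eval_C, eval_pow, eval_X, eval_one,
    eval_ofNat] at z0 z1
  have y0 : u ^ 2 * ((ε - 5) * v - u) = 0 := by linear_combination z0
  have y1 : u ^ 2 * ((9 * ε - 117) * v - 3 * u) = 0 := by linear_combination z1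
  have hu2 : u ^ 2 ≠ 0 := pow_ne_zero 2 hu0
  have y0' := (mul_eq_zero.1 y0).resolve_left hu2
  have y1' := (mul_eq_zero.1 y1).resolve_left hu2
  have y2 : (6 * ε - 102) * v = 0 := by linear_combination y1' - 3 * y0'
  have hε3 : 6 * ε - 102 ≠ 0 := by
    intro h0
    have : ε = 17 := by linarith
    rw [this] at hε
    norm_num at hε
  have hv0 := (mul_eq_zero.1 y2).resolve_left hε3
  rw [hv0] at y0'
  apply hu0
  linear_combination -y0'

/-- **`E ≠ 0`** -/
theorem hatF_ne {ι : Type*} {ε x : ι → ℚ} {S S' : ι → PowerSeries ℚ} (hε : ∀ i, ε i ^ 2 = 1)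
    (hx : ∀ i, x i ≠ 0) (hS : ∀ i, Sheet (ε i) (S i) (S' i)) {L : Fin 2 ⊕ ι → ℚ[X]} {D : ℕ}
    (h : ∀ j, (L j).natDegree ≤ D) (hPQ : L (Sum.inl 0) ≠ 0 ∨ L (Sum.inl 1) ≠ 0) (i : ι) :
    hatF ε x S S' D L i ≠ 0 := by
  intro h0
  have h1 : hatF ε x S S' (D + 3) (pv ε x L) i = 0 := by
    rw [hatF_pv hε hS h i, h0, map_zero, mul_zero, mul_zero]
  have s0 := ser_hatF (ε := ε) (x := x) (S := S) (S' := S') h i
  have s1 := ser_hatF (ε := ε) (x := x) (S := S) (S' := S') (D := D + 3)
    (natDegree_pv (ε := ε) (x := x) h) i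
  rw [h0] at s0
  rw [h1] at s1
  unfold ser at s0 s1
  rw [map_zero] at s0 s1
  have t0 := (mul_eq_zero.1 s0.symm).resolve_left (single_ne_zero' _)
  have t1 := (mul_eq_zero.1 s1.symm).resolve_left (single_ne_zero' _)
  set P := L (Sum.inl 0) with hP
  set Q := L (Sum.inl 1) with hQ
  set R := L (Sum.inr i) with hR
  set P2 := pv ε x L (Sum.inl 0) with hP2
  set Q2 := pv ε x L (Sum.inl 1) with hQ2
  set R2 := pv ε x L (Sum.inr i) with hR2
  set q0 : ℚ[X] := C (x i * ε i) * (P2 * Q - P * Q2) with hq0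
  set p0 : ℚ[X] := P * R2 - P2 * R with hp0
  have hε0 : ε i ≠ 0 := by
    intro h
    have := hε i
    rw [h] at this
    norm_num at this
  have hq0ne : q0 ≠ 0 := by
    rw [hq0]
    refine mul_ne_zero (C_ne_zero.2 (mul_ne_zero (hx i) hε0)) ?_
    have e : P2 * Q - P * Q2 = X ^ 3 * (Q * taylor (-1) Q) + aq ℚ * (taylor (-1) P * Q) +
        (X + 1) ^ 3 * (P * taylor (-1) P) := by
      rw [hP2, hQ2, pv_zero, pv_one]
      ring
    rw [e]
    exact wr_ne hPQ
  have hrat : phi ℚ q0 * ser (S' i) = phi ℚ p0 := by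
    rw [hq0, hp0]
    unfold ser
    simp only [map_sub, map_mul, phi_C]
    linear_combination (phi ℚ P2) * t0 - (phi ℚ P) * t1
  obtain ⟨g, p, q, ep, eq, hcop, hg, hq⟩ := reduced p0 hq0ne
  refine sheet_not_rat (hε i) (hS i) hq hcop ?_
  rw [ep, eq, map_mul, map_mul, mul_assoc] at hrat
  have hg' : phi ℚ g ≠ 0 := by
    intro h
    apply hg
    apply phi_injective
    rw [h, map_zero]
  exact mul_left_cancel₀ hg' hrat

end T2.NV
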