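import Pool.Agent.T2.NVZero

/-!
# T2: non-vanishing, the zero estimate and the choice of rows
-/

set_option autoImplicit false

namespace T2.NV

open Polynomial QS2.NV QS2

/-- a matrix with trivial kernel has a nonzero minor of maximal size -/
theorem exists_rows {F : Type*} [Field F] {m n : Type*} [Fintype m] [Fintype n] [DecidableEq n]
    (W : Matrix m n F) (h : ∀ v : n → F, W.mulVec v = 0 → v = 0) :
    ∃ e : n → m, Function.Injective e ∧ (W.submatrix e id).det ≠ 0 := by
  classical
  obtain ⟨κ, a, ha, hspan, hli⟩ := exists_linearIndependent' F (fun i => W i)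
  have hinj : Function.Injective W.mulVecLin := by
    rw [← LinearMap.ker_eq_bot, LinearMap.ker_eq_bot']
    intro v hv
    exact h v hv
  have hrank : W.rank = Fintype.card n := by
    rw [Matrix.rank, LinearMap.finrank_range_of_inj hinj, Module.finrank_fintype_fun_eq_card]
  have htop : Submodule.span F (Set.range fun i => W i) = ⊤ := by
    apply Submodule.eq_top_of_finrank_eq
    rw [Module.finrank_fintype_fun_eq_card, ← hrank, Matrix.rank_eq_finrank_span_row]
    rfl
  rw [htop] at hspan
  have : Finite κ := Finite.of_injective a ha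
  have : Fintype κ := Fintype.ofFinite κ
  let b : Module.Basis κ F (n → F) := Module.Basis.mk hli (by
    rw [hspan])
  have hcard : Fintype.card κ = Fintype.card n := by
    rw [← Module.finrank_eq_card_basis b, Module.finrank_fintype_fun_eq_card]
  obtain ⟨φ⟩ : Nonempty (n ≃ κ) := ⟨Fintype.equivOfCardEq hcard.symm⟩
  refine ⟨a ∘ φ, ha.comp φ.injective, ?_⟩
  have h1 : LinearIndependent F (fun i => (W.submatrix (a ∘ φ) id) i) :=
    hli.comp φ φ.injective
  have h2 := Matrix.linearIndependent_rows_iff_isUnit.1 h1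
  rw [Matrix.isUnit_iff_isUnit_det] at h2
  exact h2.ne_zero

variable {ι : Type*} [Fintype ι] [DecidableEq ι]

/-- the form with the polynomial parts -/
noncomputable def mkL {F : Type*} [Field F] (ε x : ι → F) (S S' : ι → PowerSeries F)
    (P Q : F[X]) : Fin 2 ⊕ ι → F[X] :=
  Sum.elim ![P, Q] (fun i => -(C (x i) * (pp (S i) P + C (ε i) * pp (S' i) Q)))

/-- **Zero estimate.** -/
theorem zero_est [Nonempty ι] {ε x : ι → ℚ} {S S' : ι → PowerSeries ℚ}
    (hε : ∀ i, ε i ^ 2 = 1) (hS : ∀ i, Sheet (ε i) (S i) (S' i))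
    (hι : Fintype.card ι ≤ 2) (r : Fin 2 ⊕ ι → ℕ) (hr : ∀ k, r k < 2 + Fintype.card ι)
    (hrs : ∑ k, r k ≤ 3 * Fintype.card ι)
    (hlead : ∀ (L : Fin 2 ⊕ ι → ℚ[X]) (D : ℕ), (∀ j, (L j).natDegree ≤ D) →
      ((L (Sum.inl 0)).coeff D ≠ 0 ∨ (L (Sum.inl 1)).coeff D ≠ 0) →
      (∀ i, hatF ε x S S' D L i ≠ 0) → (shM ε x L r).det ≠ 0)
    (hne : ∀ (L : Fin 2 ⊕ ι → ℚ[X]) (D : ℕ), (∀ j, (L j).natDegree ≤ D) →
      (L (Sum.inl 0) ≠ 0 ∨ L (Sum.inl 1) ≠ 0) → ∀ i, hatF ε x S S' D L i ≠ 0)
    {w : ℤ → ℚ} {s : ι → ℤ → ℚ}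
    (hrec : ∀ z : ℤ, (2 ≤ z ∨ z ≤ -3) → RecI x w s z)
    (hs : ∀ z : ℤ, (2 ≤ z ∨ z ≤ -3) → ∀ i, s i (z - 1) = ε i * s i z)
    (hs0 : ∀ z : ℤ, ∀ i, s i z ≠ 0)
    {A c : ℕ} (hA : c + 11 ≤ A) {P Q : ℚ[X]} (dP : P.degree < c) (dQ : Q.degree < c)
    (hnode : ∀ z ∈ nod A, ev w s (mkL ε x S S' P Q) z = 0) : P = 0 ∧ Q = 0 := by
  by_contra hcon
  have hPQ : P ≠ 0 ∨ Q ≠ 0 := by
    by_cases h : P = 0
    · right
      exact fun h' => hcon ⟨h, h'⟩
    · left
      exact h
  have hc1 : 1 ≤ Fintype.card ι := Fintype.card_pos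
  set D := max P.natDegree Q.natDegree with hD
  have hcpos : 0 < c := by
    rcases Nat.eq_zero_or_pos c with h0 | h0
    · exfalso
      subst h0
      rcases hPQ with h | h
      · apply h
        rw [← degree_eq_bot]
        exact Nat.WithBot.lt_zero_iff.1 (by exact_mod_cast dP)
      · apply h
        rw [← degree_eq_bot]
        exact Nat.WithBot.lt_zero_iff.1 (by exact_mod_cast dQ)
    · exact h0
  have nP : P.natDegree < c := by
    by_cases h : P = 0
    · rw [h, natDegree_zero]
      exact hcpos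
    · rw [degree_eq_natDegree h] at dP
      exact_mod_cast dP
  have nQ : Q.natDegree < c := by
    by_cases h : Q = 0
    · rw [h, natDegree_zero]
      exact hcpos
    · rw [degree_eq_natDegree h] at dQ
      exact_mod_cast dQ
  have hDc : D < c := max_lt nP nQ
  have hpp : ∀ (V : PowerSeries ℚ) (f : ℚ[X]), f.natDegree ≤ D → (pp V f).natDegree ≤ D := by
    intro V f hf
    rw [natDegree_le_iff_degree_le]
    exact pp_degree (natDegree_le_iff_degree_le.1 hf)
  set L := mkL ε x S S' P Q with hL
  have hdeg : ∀ j, (L j).natDegree ≤ D := by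
    rintro (j | i)
    · fin_cases j
      · exact le_max_left _ _
      · exact le_max_right _ _
    · show (-(C (x i) * (pp (S i) P + C (ε i) * pp (S' i) Q))).natDegree ≤ D
      rw [natDegree_neg]
      refine (natDegree_C_mul_le _ _).trans (natDegree_add_le_of_degree_le ?_ ?_)
      · exact hpp _ _ (le_max_left _ _)
      · exact (natDegree_C_mul_le _ _).trans (hpp _ _ (le_max_right _ _))
  have htop : (L (Sum.inl 0)).coeff D ≠ 0 ∨ (L (Sum.inl 1)).coeff D ≠ 0 := by
    change P.coeff D ≠ 0 ∨ Q.coeff D ≠ 0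
    rcases le_total P.natDegree Q.natDegree with h | h
    · have hDQ : D = Q.natDegree := max_eq_right h
      by_cases hQ0 : Q = 0
      · left
        have hP0 : P ≠ 0 := by
          rcases hPQ with h1 | h1
          · exact h1
          · exact absurd hQ0 h1
        have : P.natDegree = D := by
          rw [hQ0, natDegree_zero] at h hDQ
          omega
        rw [← this, coeff_natDegree]
        exact leadingCoeff_ne_zero.2 hP0
      · right
        rw [hDQ, coeff_natDegree]
        exact leadingCoeff_ne_zero.2 hQ0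
    · have hDP : D = P.natDegree := max_eq_left h
      by_cases hP0 : P = 0
      · right
        have hQ0 : Q ≠ 0 := by
          rcases hPQ with h1 | h1
          · exact absurd hP0 h1
          · exact h1
        have : Q.natDegree = D := by
          rw [hP0, natDegree_zero] at h hDP
          omega
        rw [← this, coeff_natDegree]
        exact leadingCoeff_ne_zero.2 hQ0
      · left
        rw [hDP, coeff_natDegree]
        exact leadingCoeff_ne_zero.2 hP0
  have hjet : ∀ i, PowerSeries.X ^ (D + 1) ∣ hatF ε x S S' D L i := fun i =>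
    dvd_hatF_of_pp hdeg i rfl
  refine hlead L D hdeg htop (hne L D hdeg hPQ) ?_
  refine det_eq_zero hε hS hdeg hjet hrec hs hs0 hnode r (n := 2 + Fintype.card ι) hr
    (by omega) ?_
  rw [Finset.sum_add_distrib, Finset.sum_const, Finset.card_univ, Fintype.card_sum,
    Fintype.card_fin, ← Finset.mul_sum, smul_eq_mul]
  obtain h | h : Fintype.card ι = 1 ∨ Fintype.card ι = 2 := by omega
  · rw [h] at hrs ⊢
    omega
  · rw [h] at hrs ⊢
    omega

end T2.NV
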