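import Pool.Agent.T2.NVForm
import Pool.Agent.QS2.NonVan3

/-!
# T2: non-vanishing, the count of zeros

The determinant of `n = 2 + #ι` consecutive shifts of a form that vanishes at all nodes is zero.
-/

set_option autoImplicit false

namespace T2.NV

open Polynomial QS2.NV QS2

variable {F : Type*} [Field F] {ι : Type*} [Fintype ι] [DecidableEq ι]

/-- the nodes `z` such that `z, z - 1, …, z - (n - 1)` are nodes -/
noncomputable def nodn (A n : ℕ) : Finset ℤ :=
  Finset.Icc (n : ℤ) (A : ℤ) ∪ Finset.Icc (-3 - (A : ℤ) + n) (-3)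

theorem mem_nodn {A n : ℕ} {z : ℤ} :
    z ∈ nodn A n ↔ ((n : ℤ) ≤ z ∧ z ≤ A) ∨ (-3 - (A : ℤ) + n ≤ z ∧ z ≤ -3) := by
  unfold nodn
  rw [Finset.mem_union, Finset.mem_Icc, Finset.mem_Icc]

theorem card_nodn {A n : ℕ} (hn : 1 ≤ n) (h : n ≤ A + 1) : (nodn A n).card = 2 * (A + 1 - n) := by
  unfold nodn
  rw [Finset.card_union_of_disjoint, Int.card_Icc, Int.card_Icc]
  · omega
  · rw [Finset.disjoint_left]
    intro z hz hz2
    rw [Finset.mem_Icc] at hz hz2
    omega

/-- the determinant of the shifts vanishes identically -/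
theorem det_eq_zero [CharZero F] {ε x : ι → F} {S S' : ι → PowerSeries F}
    (hε : ∀ i, ε i ^ 2 = 1) (hS : ∀ i, Sheet (ε i) (S i) (S' i)) {L : Fin 2 ⊕ ι → F[X]} {D : ℕ}
    (h : ∀ j, (L j).natDegree ≤ D)
    (hF : ∀ i, PowerSeries.X ^ (D + 1) ∣ hatF ε x S S' D L i)
    {w : ℤ → F} {s : ι → ℤ → F} [Nonempty ι]
    (hrec : ∀ z : ℤ, (2 ≤ z ∨ z ≤ -3) → RecI x w s z)
    (hs : ∀ z : ℤ, (2 ≤ z ∨ z ≤ -3) → ∀ i, s i (z - 1) = ε i * s i z)
    (hs0 : ∀ z : ℤ, ∀ i, s i z ≠ 0)
    {A : ℕ} (hnode : ∀ z ∈ nod A, ev w s L z = 0)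
    (r : Fin 2 ⊕ ι → ℕ) {n : ℕ} (hrn : ∀ k, r k < n) (hnA : n ≤ A + 1)
    (hN : ∑ k, (D + 3 * r k) < 2 * (A + 1 - n) + (D + 1) * Fintype.card ι) :
    (shM ε x L r).det = 0 := by
  have hn1 : 1 ≤ n := by
    have := hrn (Sum.inl 0)
    omega
  apply eq_zero_of_nodes' (S := nodn A n)
  · rw [card_nodn hn1 hnA]
    exact det_shM_degree hε hS h hF r hN
  · intro z hz
    rw [mem_nodn] at hz
    obtain ⟨i⟩ := (inferInstance : Nonempty ι)
    refine det_eval (w := w) (s := s) r ⟨i, hs0 z i⟩ fun k => ?_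
    have hk := hrn k
    refine ev_pvs (r k) ?_ ?_ (hnode _ ?_)
    · intro t ht1 ht2
      exact hrec t (by omega)
    · intro t ht1 ht2
      exact hs t (by omega)
    · rw [mem_nod]
      omega

/-- `R_i` is minus the polynomial part: the condition on the jets -/
theorem dvd_hatF_of_pp {ε x : ι → F} {S S' : ι → PowerSeries F} {L : Fin 2 ⊕ ι → F[X]} {D : ℕ}
    (h : ∀ j, (L j).natDegree ≤ D) (i : ι)
    (hR : L (Sum.inr i) = -(C (x i) * (pp (S i) (L (Sum.inl 0)) +
      C (ε i) * pp (S' i) (L (Sum.inl 1))))) :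
    PowerSeries.X ^ (D + 1) ∣ hatF ε x S S' D L i := by
  rw [PowerSeries.X_pow_dvd_iff]
  intro m hm
  have h1 : ∀ j : Fin 2 ⊕ ι, ∀ V : PowerSeries F, PowerSeries.coeff m (rv D (L j) * V) =
      (pp V (L j)).coeff (D - m) := by
    intro j V
    have e1 := phi_mul_coeff V (L j) (D - m)
    have e2 := ser_rv (h j)
    rw [← e1]
    have e3 : (ser (rv D (L j) * V)).coeff (m : ℤ) = PowerSeries.coeff m (rv D (L j) * V) := by
      unfold ser
      exact HahnSeries.ofPowerSeries_apply_coeff _ _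
    rw [← e3]
    have e4 : ser (rv D (L j) * V) = HahnSeries.single (D : ℤ) (1 : F) *
        (phi F (L j) * ser V) := by
      have : ser (rv D (L j) * V) = ser (rv D (L j)) * ser V := by
        unfold ser
        rw [map_mul]
      rw [this, e2, mul_assoc]
    rw [e4, HahnSeries.coeff_single_mul, one_mul]
    congr 1
    omega
  have h2 : PowerSeries.coeff m (rv D (L (Sum.inr i))) = (L (Sum.inr i)).coeff (D - m) := by
    have e2 := ser_rv (h (Sum.inr i))
    have e3 : (ser (rv D (L (Sum.inr i)))).coeff (m : ℤ) =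
        PowerSeries.coeff m (rv D (L (Sum.inr i))) := by
      unfold ser
      exact HahnSeries.ofPowerSeries_apply_coeff _ _
    rw [← e3, e2, HahnSeries.coeff_single_mul, one_mul, phi_coeff, if_pos (by omega)]
    congr 1
    omega
  unfold hatF
  rw [map_add, h2, PowerSeries.coeff_C_mul, map_add, h1, mul_assoc, PowerSeries.coeff_C_mul, h1,
    hR]
  simp only [Polynomial.coeff_neg, Polynomial.coeff_C_mul, Polynomial.coeff_add]
  ring

end T2.NV
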