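import Pool.Agent.T2.RowB
import Pool.Agent.T2.DetRank
import Pool.Agent.T2.DesignM
import Pool.Agent.QS2.ClsRows
import Pool.Agent.QS2.ClsBase0
import Pool.Agent.QS2.SmallPInst

/-!
# T2, rule B: the large primes

* `ruleB1` : `p^(2 Sfl + 9 + ∑_c eC (sB A p c)) * det designM = p^(nB A p) * s`, `s ∈ Op p`;
* `ruleB2` : for `A + 3 ≤ p`, `det designM = p^(2A+3-p) * s`, `s ∈ Op p`.
-/

set_option autoImplicit false

namespace T2

open Finset Polynomial Matrix QS2 QS2.Cls
open Pool.Agent.QS2 (pairMat det_basis_change)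

/-- bound of the number of singular rows in the class `c` -/
def sB (A p c : ℕ) : ℕ := (A - c) / p + ((A + 2 + c) / p - 1)

/-- number of pairs -/
def nB (A p : ℕ) : ℕ := if p ≤ A + 2 then p - 3 else 2 * A + 3 - p

section Rows

variable (w sg : ℤ → K) (cc : Fin 2 → K) (LA LB : Fin 2 → K[X] →ₗ[K] K[X])

/-- the functional of `P` at the node `z` -/
noncomputable def rowP (z : ℤ) : K[X] →ₗ[K] K where
  toFun P := P.eval (z : K) * w z + cc 0 * (LA 0 P).eval (z : K)
    + sg z * (cc 1 * (LA 1 P).eval (z : K))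
  map_add' P Q := by simp only [eval_add, map_add]; ring
  map_smul' a P := by
    simp only [eval_smul, map_smul, smul_eq_mul, RingHom.id_apply]; ring

/-- the functional of `Q` at the node `z` -/
noncomputable def rowQ (z : ℤ) : K[X] →ₗ[K] K where
  toFun Q := Q.eval (z : K) * w (z + 1) + cc 0 * (LB 0 Q).eval (z : K)
    + sg z * (cc 1 * (LB 1 Q).eval (z : K))
  map_add' P Q := by simp only [eval_add, map_add]; ring
  map_smul' a P := by
    simp only [eval_smul, map_smul, smul_eq_mul, RingHom.id_apply]; ring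

theorem rowPQ (z : ℤ) (P Q : K[X]) : rowP w sg cc LA z P + rowQ w sg cc LB z Q =
    Fv w sg P Q (C (cc 0) * (LA 0 P + LB 0 Q)) (C (cc 1) * (LA 1 P + LB 1 Q)) z := by
  simp only [rowP, rowQ, Fv, LinearMap.coe_mk, AddHom.coe_mk, eval_mul, eval_C, eval_add]
  ring

theorem designM_eq (A : ℕ) : designM w sg cc LA LB A =
    pairMat (fun f : Nd A => rowP w sg cc LA (nodeZ A f)) (fun f => rowQ w sg cc LB (nodeZ A f))
      (binP K) A := by
  refine Matrix.ext fun f t => ?_
  rcases t with i | i <;> rfl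

/-- the matrix of a family of pairs -/
noncomputable def pairsM (A : ℕ) (P Q : Fin A ⊕ Fin A → K[X]) : Matrix (Nd A) (Fin A ⊕ Fin A) K :=
  Matrix.of fun f t => rowP w sg cc LA (nodeZ A f) (P t) + rowQ w sg cc LB (nodeZ A f) (Q t)

/-- the determinant of `designM` against the determinant of a unitriangular family of pairs -/
theorem det_designM {A : ℕ} (P Q : Fin A ⊕ Fin A → K[X]) (hP : ∀ t, (P t).natDegree ≤ dgi t)
    (hQ : ∀ t, (Q t).natDegree ≤ dgi t) (hl : ∀ D, leadD P Q D = 1) (f : Nd A ≃ Fin A ⊕ Fin A) :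
    ((designM w sg cc LA LB A).submatrix id f).det =
      (∏ i ∈ range A, ((i.factorial : K))⁻¹) ^ 2 *
        ((pairsM w sg cc LA LB A P Q).submatrix id f).det := by
  rw [designM_eq, det_basis_change _ _ (binP K) (fun i => ((i.factorial : K))⁻¹)
    (fun i => binP_natDegree i) (fun i => binP_coeff i) f]
  have h := det_pair_change (fun f : Nd A => rowP w sg cc LA (nodeZ A f))
    (fun f => rowQ w sg cc LB (nodeZ A f)) P Q hP hQ f
  rw [Finset.prod_congr rfl (fun D _ => hl D), Finset.prod_const_one, one_mul] at h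
  rw [← h]
  rfl

end Rows

section Fam

variable (p : ℕ) [hp : Fact p.Prime] (A : ℕ)

/-- `P`-part of the columns -/
noncomputable def bP : Fin A ⊕ Fin A → (Op p)[X]
  | Sum.inl i => X ^ (i : ℕ)
  | Sum.inr _ => 0

/-- reduced `Q`-part of the columns -/
noncomputable def bR : Fin A ⊕ Fin A → (Op p)[X]
  | Sum.inl _ => 0
  | Sum.inr i => if (i : ℕ) < 3 then 0 else X ^ ((i : ℕ) - 3)

/-- `Q`-part of the columns -/
noncomputable def bQ : Fin A ⊕ Fin A → (Op p)[X]
  | Sum.inl _ => 0
  | Sum.inr i => if (i : ℕ) < 3 then X ^ (i : ℕ) else (X + 1) ^ 3 * X ^ ((i : ℕ) - 3)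

/-- `Q`-part of the columns, `A + 3 ≤ p` -/
noncomputable def bQ' : Fin A ⊕ Fin A → (Op p)[X]
  | Sum.inl _ => 0
  | Sum.inr i => X ^ (i : ℕ)

/-- the exceptional columns -/
def exc {A : ℕ} : Fin A ⊕ Fin A → Prop
  | Sum.inl _ => False
  | Sum.inr i => (i : ℕ) < 3

instance {A : ℕ} (t : Fin A ⊕ Fin A) : Decidable (exc t) := by
  rcases t with D | D
  · exact instDecidableFalse
  · exact Nat.decLt _ _

variable {p A}

theorem bQ_eq {t : Fin A ⊕ Fin A} (h : ¬ exc t) : bQ p A t = (X + 1) ^ 3 * bR p A t := by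
  rcases t with i | i
  · simp [bQ, bR]
  · have hi : ¬ (i : ℕ) < 3 := h
    simp [bQ, bR, hi]

theorem toK_X : toK p (X : (Op p)[X]) = X := by simp [toK]

theorem bQ_toK {t : Fin A ⊕ Fin A} (h : ¬ exc t) :
    toK p (bQ p A t) = (X + 1) ^ 3 * toK p (bR p A t) := by
  rw [bQ_eq h, map_mul, map_pow, map_add, toK_X, map_one]

theorem bP_deg (t : Fin A ⊕ Fin A) : (toK p (bP p A t)).natDegree ≤ dgi t := by
  rcases t with i | i
  · simp [bP, dgi, toK_X]
  · simp [bP]

theorem bQ_deg (t : Fin A ⊕ Fin A) : (toK p (bQ p A t)).natDegree ≤ dgi t := by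
  rcases t with i | i
  · simp [bQ]
  · simp only [bQ, dgi, Sum.elim_inr, id]
    split_ifs with h
    · simp [toK_X]
    · rw [map_mul, map_pow, map_pow, map_add, toK_X, map_one]
      refine (natDegree_mul_le).trans ?_
      have h1 : ((X + 1 : K[X]) ^ 3).natDegree ≤ 3 := by
        refine natDegree_pow_le.trans ?_
        have : (X + 1 : K[X]).natDegree ≤ 1 := by
          refine (natDegree_add_le _ _).trans ?_
          simp
        omega
      have h2 : ((X : K[X]) ^ ((i : ℕ) - 3)).natDegree ≤ (i : ℕ) - 3 := natDegree_X_pow_le _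
      omega

theorem bQ'_deg (t : Fin A ⊕ Fin A) : (toK p (bQ' p A t)).natDegree ≤ dgi t := by
  rcases t with i | i
  · simp [bQ']
  · simp [bQ', dgi, toK_X]

theorem cube_coeff' (k : ℕ) : (((X + 1 : K[X]) ^ 3 * X ^ k)).coeff (k + 3) = 1 := by
  rw [add_comm k 3, coeff_mul_X_pow]
  have : (X + 1 : K[X]) ^ 3 = X ^ 3 + 3 * X ^ 2 + 3 * X + 1 := by ring
  rw [this]
  have e3 : (3 : K[X]) = C 3 := (map_ofNat (C : K →+* K[X]) 3).symm
  rw [e3]
  simp [coeff_one, coeff_X_pow]

theorem leadD_bQ (D : Fin A) : leadD (fun t => toK p (bP p A t)) (fun t => toK p (bQ p A t)) D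
    = 1 := by
  simp only [leadD, bP, bQ, map_zero, coeff_zero, zero_mul, sub_zero, map_pow, toK_X, coeff_X_pow,
    if_true, one_mul]
  split_ifs with h
  · simp [toK_X]
  · rw [map_mul, map_pow, map_pow, map_add, toK_X, map_one]
    have : (D : ℕ) = ((D : ℕ) - 3) + 3 := by omega
    conv_lhs => rw [this]
    rw [show (D : ℕ) - 3 + 3 - 3 = (D : ℕ) - 3 by omega]
    exact cube_coeff' _

theorem leadD_bQ' (D : Fin A) : leadD (fun t => toK p (bP p A t)) (fun t => toK p (bQ' p A t)) D
    = 1 := by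
  simp [leadD, bP, bQ', toK_X]

/-- a linear map with integral values on the monomials -/
theorem lin_range {Φ : K[X] →ₗ[K] K[X]} (h : ∀ i : ℕ, Φ (X ^ i) ∈ (toK p).range) (G : (Op p)[X]) :
    Φ (toK p G) ∈ (toK p).range := by
  have e : toK p G = ∑ i ∈ range (G.natDegree + 1), (C ((G.coeff i : Op p) : K)) * X ^ i := by
    conv_lhs => rw [G.as_sum_range_C_mul_X_pow]
    rw [map_sum]
    refine Finset.sum_congr rfl fun i _ => ?_
    rw [map_mul, map_pow, toK_X]
    simp [toK]
  rw [e, map_sum]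
  refine (toK p).range.sum_mem fun i _ => ?_
  rw [← smul_eq_C_mul, map_smul, smul_eq_C_mul]
  refine (toK p).range.mul_mem ⟨C (G.coeff i), by simp [toK]⟩ (h i)

theorem range_eval {F : K[X]} (h : F ∈ (toK p).range) (z : ℤ) : F.eval (z : K) ∈ Op p := by
  obtain ⟨G, rfl⟩ := h
  exact eval_toK_mem G z

end Fam

section Nodes

variable {p : ℕ} [hp : Fact p.Prime] {A : ℕ}

/-- the singular rows -/
def singS (p A : ℕ) : Finset (Nd A) :=
  univ.filter fun f => (p : ℤ) ≤ nodeZ A f ∨ nodeZ A f < -(p : ℤ)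

/-- the rows of the pairs -/
def pairS (p A : ℕ) : Finset (Nd A) :=
  univ.filter fun f => 1 ≤ nodeZ A f ∧ nodeZ A f ≤ (p : ℤ) - 3 ∧ -2 - (A : ℤ) ≤ nodeZ A f - p

/-- the partner -/
def mate (p A : ℕ) (f : Nd A) : Nd A :=
  if h : ((p : ℤ) - 3 - nodeZ A f).toNat < A then Sum.inr ⟨_, h⟩ else f

omit hp in
theorem mate_z {f : Nd A} (hf : f ∈ pairS p A) : nodeZ A (mate p A f) = nodeZ A f - p := by
  rw [pairS, mem_filter] at hf
  obtain ⟨-, h1, h2, h3⟩ := hf
  have h : ((p : ℤ) - 3 - nodeZ A f).toNat < A := by omega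
  rw [mate, dif_pos h]
  change -3 - ((((p : ℤ) - 3 - nodeZ A f).toNat : ℕ) : ℤ) = _
  omega

omit hp in
theorem mate_notin {f : Nd A} (hf : f ∈ pairS p A) : mate p A f ∉ pairS p A := by
  intro h
  have h1 := mate_z hf
  rw [pairS, mem_filter] at hf h
  rw [h1] at h
  omega

omit hp in
theorem pair_notin {f : Nd A} (hf : f ∈ pairS p A) : f ∉ singS p A := by
  intro h
  rw [pairS, mem_filter] at hf
  rw [singS, mem_filter] at h
  omega

omit hp in
/-- the number of pairs -/
theorem nB_le (hp5 : 5 ≤ p) : nB A p ≤ (pairS p A).card := by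
  unfold nB
  split_ifs with h
  · -- `a = 1, …, p - 3`
    have : (range (p - 3)).card ≤ (pairS p A).card := by
      refine Finset.card_le_card_of_injOn
        (fun i => if h : i < A then (Sum.inl ⟨i, h⟩ : Nd A) else Sum.inl ⟨0, by omega⟩) ?_ ?_
      · intro i hi
        have hi' : i < p - 3 := by simpa using hi
        have hiA : i < A := by omega
        simp only [dif_pos hiA]
        simp only [pairS, coe_filter, mem_univ, true_and, Set.mem_ofPred_eq, nodeZ]
        omega
      · intro i hi j hj hij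
        have hi' : i < p - 3 := by simpa using hi
        have hj' : j < p - 3 := by simpa using hj
        simp only [dif_pos (show i < A by omega), dif_pos (show j < A by omega)] at hij
        simpa using hij
    simpa using this
  · rcases Nat.eq_zero_or_pos A with rfl | hA0
    · omega
    have : (range (2 * A + 3 - p)).card ≤ (pairS p A).card := by
      refine Finset.card_le_card_of_injOn
        (fun i => if h : i + (p - 3 - A) < A then (Sum.inl ⟨i + (p - 3 - A), h⟩ : Nd A)
          else Sum.inl ⟨0, hA0⟩) ?_ ?_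
      · intro i hi
        have hi' : i < 2 * A + 3 - p := by simpa using hi
        have hiA : i + (p - 3 - A) < A := by omega
        simp only [dif_pos hiA]
        simp only [pairS, coe_filter, mem_univ, true_and, Set.mem_ofPred_eq, nodeZ]
        push_cast
        omega
      · intro i hi j hj hij
        have hi' : i < 2 * A + 3 - p := by simpa using hi
        have hj' : j < 2 * A + 3 - p := by simpa using hj
        simp only [dif_pos (show i + (p - 3 - A) < A by omega),
          dif_pos (show j + (p - 3 - A) < A by omega)] at hij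
        simpa using hij
    simpa using this

/-- degree of a column -/
def exI {A : ℕ} : Fin A ⊕ Fin A → ℕ
  | Sum.inl _ => 0
  | Sum.inr i => (i : ℕ)

omit hp in
/-- the number of exceptional columns -/
theorem exc_card (f : Nd A ≃ Fin A ⊕ Fin A) :
    (univ.filter fun j : Nd A => exc (f j)).card ≤ 3 := by
  have : (univ.filter fun j : Nd A => exc (f j)).card ≤ (range 3).card := by
    refine Finset.card_le_card_of_injOn (fun j => exI (f j)) ?_ ?_
    · intro j hj
      simp only [coe_filter, mem_univ, true_and, Set.mem_ofPred_eq] at hj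
      simp only [coe_range, Set.mem_Iio]
      rcases h : f j with i | i
      · simp [exI]
      · rw [h] at hj
        exact hj
    · intro i hi j hj hij
      simp only [coe_filter, mem_univ, true_and, Set.mem_ofPred_eq] at hi hj
      apply f.injective
      rcases h : f i with a | a
      · rw [h] at hi; exact absurd hi (by simp [exc])
      · rcases h' : f j with b | b
        · rw [h'] at hj; exact absurd hj (by simp [exc])
        · simp only [h, h', exI] at hij
          rw [Fin.ext hij]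
  simpa using this

/-- the class of a node -/
noncomputable def clN (p A : ℕ) [hp : Fact p.Prime] (f : Nd A) : Fin p :=
  ⟨(nodeZ A f % p).toNat, by
    have h0 : (0 : ℤ) < p := by exact_mod_cast hp.out.pos
    have h1 := Int.emod_nonneg (nodeZ A f) h0.ne'
    have h2 := Int.emod_lt_of_pos (nodeZ A f) h0
    omega⟩

theorem clN_cast (f : Nd A) : (((clN p A f : Fin p) : ℕ) : ℤ) = nodeZ A f % p := by
  have h0 : (0 : ℤ) < p := by exact_mod_cast hp.out.pos
  exact Int.toNat_of_nonneg (Int.emod_nonneg (nodeZ A f) h0.ne')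

theorem clN_split (f : Nd A) :
    nodeZ A f = p * (nodeZ A f / p) + (((clN p A f : Fin p) : ℕ) : ℤ) := by
  rw [clN_cast]
  have := Int.emod_add_mul_ediv (nodeZ A f) p
  linarith

/-- number of singular rows in a class -/
theorem sB_card (c : Fin p) :
    ((singS p A).filter fun f => clN p A f = c).card ≤ sB A p c := by
  have h0 : (0 : ℤ) < p := by exact_mod_cast hp.out.pos
  have h0n : 0 < p := hp.out.pos
  have h1 : ((singS p A).filter fun f => clN p A f = c).card ≤
      ((Finset.Ioc (0 : ℤ) (((A - c) / p : ℕ) : ℤ)) ∪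
        (Finset.Ico (-(((A + 2 + c) / p : ℕ) : ℤ)) (-1))).card := by
    refine Finset.card_le_card_of_injOn (fun f => nodeZ A f / p) ?_ ?_
    · intro f hf
      simp only [coe_filter, Set.mem_ofPred_eq, singS, mem_filter, mem_univ, true_and] at hf
      obtain ⟨hs, hc⟩ := hf
      have hz := clN_split (p := p) f
      rw [hc] at hz
      have hcp : ((c : ℕ) : ℤ) < p := by exact_mod_cast c.2
      have hb := nodeZ_bounds f
      simp only [coe_union, Set.mem_union, coe_Ioc, coe_Ico, Set.mem_Ioc, Set.mem_Ico]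
      generalize nodeZ A f = z at hz hb hs ⊢
      generalize z / (p : ℤ) = b at hz ⊢
      rcases hs with hs | hs
      · left
        have hb1 : 1 ≤ b := by
          by_contra hb1
          have : (p : ℤ) * b ≤ 0 := mul_nonpos_of_nonneg_of_nonpos h0.le (by omega)
          omega
        refine ⟨by omega, ?_⟩
        obtain ⟨n, hn⟩ := Int.eq_ofNat_of_zero_le (show 0 ≤ b by omega)
        rw [hn]
        have h2 : (p : ℤ) * n + c ≤ A := by
          rw [← hn]
          rcases hb with hb | hb <;> nlinarith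
        have h3 : p * n + (c : ℕ) ≤ A := by exact_mod_cast h2
        have h4 : n ≤ (A - c) / p := by
          rw [Nat.le_div_iff_mul_le h0n, mul_comm]
          omega
        exact_mod_cast h4
      · right
        have hb1 : b ≤ -2 := by
          by_contra hb1
          have : (p : ℤ) * (-1) ≤ (p : ℤ) * b := mul_le_mul_of_nonneg_left (by omega) h0.le
          omega
        refine ⟨?_, by omega⟩
        obtain ⟨n, hn⟩ := Int.eq_ofNat_of_zero_le (show 0 ≤ -b by omega)
        have hbn : b = -(n : ℤ) := by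
          have : (-b : ℤ) = n := hn
          omega
        rw [hbn]
        have h2 : (p : ℤ) * n ≤ A + 2 + c := by
          have h5 : (p : ℤ) * b = -((p : ℤ) * n) := by rw [hbn]; ring
          rcases hb with hb | hb <;> nlinarith
        have h3 : p * n ≤ A + 2 + (c : ℕ) := by exact_mod_cast h2
        have h4 : n ≤ (A + 2 + c) / p := by
          rw [Nat.le_div_iff_mul_le h0n, mul_comm]
          omega
        have h6 : ((n : ℕ) : ℤ) ≤ (((A + 2 + (c : ℕ)) / p : ℕ) : ℤ) := by exact_mod_cast h4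
        omega
    · intro f hf g hg hfg
      simp only [coe_filter, Set.mem_ofPred_eq, singS, mem_filter, mem_univ, true_and] at hf hg
      have hz := clN_split (p := p) f
      have hz' := clN_split (p := p) g
      rw [hf.2] at hz
      rw [hg.2] at hz'
      have hfg' : nodeZ A f / (p : ℤ) = nodeZ A g / (p : ℤ) := hfg
      rw [hfg', ← hz'] at hz
      rcases f with i | i <;> rcases g with j | j <;> simp only [nodeZ] at hz
      · congr 1; apply Fin.ext; omega
      · omega
      · omega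
      · congr 1; apply Fin.ext; omega
  refine h1.trans ((Finset.card_union_le _ _).trans ?_)
  rw [Int.card_Ioc, Int.card_Ico, sB]
  have e1 : ((((A - (c : ℕ)) / p : ℕ) : ℤ) - 0).toNat = (A - c) / p := by
    rw [sub_zero, Int.toNat_natCast]
  have e2 : (-1 - -(((A + 2 + (c : ℕ)) / p : ℕ) : ℤ)).toNat = (A + 2 + c) / p - 1 := by
    omega
  rw [e1, e2]

end Nodes

section Main

variable {p : ℕ} [hp : Fact p.Prime] {w r sg : ℤ → K} {m0 : K} {cc : Fin 2 → K}
  {LA LB : Fin 2 → K[X] →ₗ[K] K[X]} {A : ℕ}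

/-- the polynomial parts have integral coefficients -/
theorem part_range (hcc : ∀ j, cc j ∈ Op p) (hLA : ∀ j (i : ℕ), LA j (X ^ i) ∈ (toK p).range)
    (hLB : ∀ j (i : ℕ), LB j (X ^ i) ∈ (toK p).range) (j : Fin 2) (P Q : (Op p)[X]) :
    ∃ G : (Op p)[X], toK p G = C (cc j) * (LA j (toK p P) + LB j (toK p Q)) := by
  have h : C (cc j) * (LA j (toK p P) + LB j (toK p Q)) ∈ (toK p).range := by
    refine (toK p).range.mul_mem ⟨C ⟨cc j, hcc j⟩, by simp [toK]⟩ ?_
    exact (toK p).range.add_mem (lin_range (hLA j) P) (lin_range (hLB j) Q)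
  obtain ⟨G, hG⟩ := h
  exact ⟨G, hG⟩

/-- factorials -/
theorem fac_sq_mem (hA : A ≤ p ^ 2) : (p : K) ^ (2 * Sfl p A) *
    (∏ i ∈ range A, ((i.factorial : K))⁻¹) ^ 2 ∈ Op p := by
  have h := prod_fac_inv_mem (k := K) hp.out (QS2SP.ploc_Op p) hA
  have e : (p : K) ^ (2 * Sfl p A) * (∏ i ∈ range A, ((i.factorial : K))⁻¹) ^ 2 =
      ((p : K) ^ (∑ i ∈ range A, i / p) * (∏ i ∈ range A, (i.factorial : K))⁻¹) ^ 2 := by
    rw [Finset.prod_inv_distrib, mul_pow, ← pow_mul, Sfl, mul_comm 2]
  rw [e]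
  exact (Op p).pow_mem h 2

/-- **Rule B.** -/
theorem ruleB1 (hp5 : 5 ≤ p) (hw : SeqP p w r sg m0) (hcc : ∀ j, cc j ∈ Op p)
    (hLA : ∀ j (i : ℕ), LA j (X ^ i) ∈ (toK p).range)
    (hLB : ∀ j (i : ℕ), LB j (X ^ i) ∈ (toK p).range)
    (hA : A + p + 3 ≤ p ^ 2) (f : Nd A ≃ Fin A ⊕ Fin A) :
    ∃ s ∈ Op p, (p : K) ^ (2 * Sfl p A + 9 + ∑ c ∈ range p, eC (sB A p c)) *
      ((designM w sg cc LA LB A).submatrix id f).det = p ^ nB A p * s := by
  have hpz : (0 : ℤ) < p := by exact_mod_cast hp.out.pos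
  have hA' : (A : ℤ) + p + 3 ≤ (p : ℤ) ^ 2 := by exact_mod_cast hA
  have hpK : (p : K) ∈ Op p := natCast_mem _ p
  have hp0 : (p : K) ≠ 0 := Nat.cast_ne_zero.mpr hp.out.ne_zero
  choose cl kk hz hk1 hk2 hk3 using fun f : Nd A =>
    node_split (p := p) (rho := 0) (by omega) f
  choose h0 h1 h2 m0' m1' m2' hn using fun (t : Fin A ⊕ Fin A) (c : Fin p) =>
    nice_toK p c (bP p A t) (bR p A t)
  choose G1 hG1 using fun t : Fin A ⊕ Fin A =>
    part_range (p := p) (cc := cc) hcc hLA hLB 0 (bP p A t) (bQ p A t)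
  choose G2 hG2 using fun t : Fin A ⊕ Fin A =>
    part_range (p := p) (cc := cc) hcc hLA hLB 1 (bP p A t) (bQ p A t)
  set T : Matrix (Nd A) (Nd A) K := (pairsM w sg cc LA LB A (fun t => toK p (bP p A t))
    (fun t => toK p (bQ p A t))).submatrix id f with hT
  have hTe : ∀ i j, T i j = Fv w sg (toK p (bP p A (f j))) (toK p (bQ p A (f j)))
      (toK p (G1 (f j))) (toK p (G2 (f j))) (nodeZ A i) := by
    intro i j
    rw [hT, Matrix.submatrix_apply, pairsM, Matrix.of_apply, rowPQ, ← hG1, ← hG2]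
    rfl
  have hcl : ∀ i, cl i = clN p A i := by
    intro i
    apply Fin.ext
    have h3 := clN_cast (p := p) i
    have h4 : nodeZ A i % p = ((cl i : Fin p) : ℕ) := by
      rw [hz i, Int.add_comm, Int.add_mul_emod_self_left]
      exact Int.emod_eq_of_lt (by positivity) (by exact_mod_cast (cl i).2)
    have h5 : (((clN p A i : Fin p) : ℕ) : ℤ) = ((cl i : Fin p) : ℕ) := by rw [h3, h4]
    exact_mod_cast h5.symm
  have hzK : ∀ i : Nd A, ((cl i : ℕ) : K) + p * (kk i) = ((nodeZ A i : ℤ) : K) := by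
    intro i
    rw [hz i]
    push_cast
    ring
  have hrow : ∀ i j, ∃ B, ¬ exc (f j) → (B ∈ Op p ∧ (p : K) ^ 3 * T i j =
      xr p w (cl i) (kk i) * h0 (f j) (cl i) + p * ((kk i * xr p w (cl i) (kk i)) * h1 (f j) (cl i))
        + p ^ 2 * ((kk i ^ 2 * xr p w (cl i) (kk i)) * h2 (f j) (cl i)) + p ^ 3 * B) := by
    intro i j
    by_cases hj : exc (f j)
    · exact ⟨0, fun h => absurd hj h⟩
    · obtain ⟨s, hs, e⟩ := hn (f j) (cl i) (kk i)
      obtain ⟨B, hB, hBe⟩ := hw.row_sing (cl i).2 (hk1 i) (hk2 i) (hk3 i)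
        (P := toK p (bP p A (f j))) (Q := toK p (bR p A (f j))) (R1 := toK p (G1 (f j)))
        (R2 := toK p (G2 (f j))) (by rw [hzK]; exact eval_toK_mem _ _)
        (by rw [hzK]; exact eval_toK_mem _ _) (by rw [hzK]; exact eval_toK_mem _ _)
        (by rw [hzK]; exact eval_toK_mem _ _) hs e
      refine ⟨B, fun _ => ⟨hB, ?_⟩⟩
      rw [hTe, bQ_toK hj, hz i]
      exact hBe
  choose B hB using hrow
  have hpair : ∀ i ∈ pairS p A, ∀ j, ∃ s ∈ Op p, T i j - T (mate p A i) j = p * s := by
    intro i hi j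
    have hm := mate_z hi
    rw [pairS, mem_filter] at hi
    obtain ⟨s, hs, e⟩ := hw.row_pair (a := nodeZ A i) (by omega) (by omega)
      (bP p A (f j)) (bQ p A (f j)) (G1 (f j)) (G2 (f j))
    refine ⟨s, hs, ?_⟩
    rw [hTe, hTe, hm]
    exact e
  obtain ⟨s, hs, hdet⟩ := det_ruleB (Op p) hpK hp0 T (singS p A) cl
    (fun i => xr p w (cl i) (kk i)) (fun i => kk i * xr p w (cl i) (kk i))
    (fun i => kk i ^ 2 * xr p w (cl i) (kk i))
    (fun c j => h0 (f j) c) (fun c j => h1 (f j) c) (fun c j => h2 (f j) c) B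
    (univ.filter fun j : Nd A => exc (f j)) (pairS p A) (mate p A)
    (fun i _ => hw.xr_mem (cl i).2 (hk1 i) (hk2 i))
    (fun i _ => (Op p).mul_mem (int_mem _) (hw.xr_mem (cl i).2 (hk1 i) (hk2 i)))
    (fun i _ => (Op p).mul_mem ((Op p).pow_mem (int_mem _) 2)
      (hw.xr_mem (cl i).2 (hk1 i) (hk2 i)))
    (fun c j _ => m0' _ _) (fun c j _ => m1' _ _) (fun c j _ => m2' _ _)
    (fun i _ j hj => (hB i j (by simpa using hj)).1)
    (fun i _ j hj => (hB i j (by simpa using hj)).2)
    (fun i hi j hj => by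
      have hj' : ¬ exc (f j) := by simpa using hj
      have hi' : ¬ ((p : ℤ) ≤ nodeZ A i ∨ nodeZ A i < -(p : ℤ)) := by
        simpa [singS] using hi
      rw [hTe, bQ_toK hj']
      exact hw.row_int (by omega) (by omega) (eval_toK_mem _ _) (eval_toK_mem _ _)
        (eval_toK_mem _ _) (eval_toK_mem _ _))
    (fun i j _ => by
      have hb := nodeZ_bounds i
      rw [hTe]
      exact hw.row_exc (by rcases hb with hb | hb <;> nlinarith)
        (by rcases hb with hb | hb <;> nlinarith) (eval_toK_mem _ _) (eval_toK_mem _ _)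
        (eval_toK_mem _ _) (eval_toK_mem _ _))
    (fun i hi => pair_notin hi) (fun i hi => mate_notin hi)
    (fun i hi j _ => hpair i hi j)
    (fun i hi j _ => by
      obtain ⟨s, hs, e⟩ := hpair i hi j
      exact ⟨p ^ 3 * s, (Op p).mul_mem ((Op p).pow_mem hpK 3) hs, by rw [e]; ring⟩)
  -- the counts
  have hE := exc_card f
  set E := (univ.filter fun j : Nd A => exc (f j)) with hEdef
  have hsum : ∑ a, eC ((singS p A).filter (fun i => cl i = a)).card ≤
      ∑ c ∈ range p, eC (sB A p c) := by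
    rw [← Fin.sum_univ_eq_sum_range (fun c => eC (sB A p c)) p]
    refine Finset.sum_le_sum fun c _ => eC_mono ?_
    have := sB_card (A := A) c
    simp only [hcl]
    exact this
  have hnB := nB_le (A := A) hp5
  obtain ⟨e1, he1⟩ := Nat.exists_eq_add_of_le hE
  obtain ⟨e2, he2⟩ := Nat.exists_eq_add_of_le hsum
  obtain ⟨e3, he3⟩ := Nat.exists_eq_add_of_le hnB
  have hAp : A ≤ p ^ 2 := by omega
  have hfac := fac_sq_mem (p := p) hAp
  have hdes := det_designM w sg cc LA LB (fun t => toK p (bP p A t)) (fun t => toK p (bQ p A t))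
    (fun t => bP_deg t) (fun t => bQ_deg t) leadD_bQ f
  refine ⟨((p : K) ^ (2 * Sfl p A) * (∏ i ∈ range A, ((i.factorial : K))⁻¹) ^ 2) *
    (p ^ (3 * e1 + e2 + e3) * s), ?_, ?_⟩
  · exact (Op p).mul_mem hfac ((Op p).mul_mem ((Op p).pow_mem hpK _) hs)
  · rw [hdes]
    rw [he2]
    rw [he3] at hdet
    have e9 : 2 * Sfl p A + 9 + (∑ a, eC ((singS p A).filter (fun i => cl i = a)).card + e2) =
        2 * Sfl p A + (3 * e1 + e2) +
          (3 * E.card + ∑ a, eC ((singS p A).filter (fun i => cl i = a)).card) := by omega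
    rw [e9, pow_add, pow_add]
    have hd2 : ((pairsM w sg cc LA LB A (fun t => toK p (bP p A t))
        (fun t => toK p (bQ p A t))).submatrix id f).det = T.det := rfl
    rw [hd2]
    have e10 : (p : K) ^ (2 * Sfl p A) * p ^ (3 * e1 + e2) *
        p ^ (3 * E.card + ∑ a, eC ((singS p A).filter (fun i => cl i = a)).card) *
        ((∏ i ∈ range A, ((i.factorial : K))⁻¹) ^ 2 * T.det) =
        ((p : K) ^ (2 * Sfl p A) * (∏ i ∈ range A, ((i.factorial : K))⁻¹) ^ 2) *
        p ^ (3 * e1 + e2) *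
        (p ^ (3 * E.card + ∑ a, eC ((singS p A).filter (fun i => cl i = a)).card) * T.det) := by
      ring
    rw [e10, hdet, pow_add, pow_add _ (3 * e1 + e2) e3]
    ring

/-- **Rule B for `A + 3 ≤ p`.** -/
theorem ruleB2 (hp5 : 5 ≤ p) (hw : SeqP p w r sg m0) (hcc : ∀ j, cc j ∈ Op p)
    (hLA : ∀ j (i : ℕ), LA j (X ^ i) ∈ (toK p).range)
    (hLB : ∀ j (i : ℕ), LB j (X ^ i) ∈ (toK p).range)
    (hA : A + 3 ≤ p) (f : Nd A ≃ Fin A ⊕ Fin A) :
    ∃ s ∈ Op p, ((designM w sg cc LA LB A).submatrix id f).det = p ^ (2 * A + 3 - p) * s := by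
  have hpK : (p : K) ∈ Op p := natCast_mem _ p
  have hp0 : (p : K) ≠ 0 := Nat.cast_ne_zero.mpr hp.out.ne_zero
  choose G1 hG1 using fun t : Fin A ⊕ Fin A =>
    part_range (p := p) (cc := cc) hcc hLA hLB 0 (bP p A t) (bQ' p A t)
  choose G2 hG2 using fun t : Fin A ⊕ Fin A =>
    part_range (p := p) (cc := cc) hcc hLA hLB 1 (bP p A t) (bQ' p A t)
  set T : Matrix (Nd A) (Nd A) K := (pairsM w sg cc LA LB A (fun t => toK p (bP p A t))
    (fun t => toK p (bQ' p A t))).submatrix id f with hT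
  have hTe : ∀ i j, T i j = Fv w sg (toK p (bP p A (f j))) (toK p (bQ' p A (f j)))
      (toK p (G1 (f j))) (toK p (G2 (f j))) (nodeZ A i) := by
    intro i j
    rw [hT, Matrix.submatrix_apply, pairsM, Matrix.of_apply, rowPQ, ← hG1, ← hG2]
    rfl
  have hpair : ∀ i ∈ pairS p A, ∀ j, ∃ s ∈ Op p, T i j - T (mate p A i) j = p * s := by
    intro i hi j
    have hm := mate_z hi
    rw [pairS, mem_filter] at hi
    obtain ⟨s, hs, e⟩ := hw.row_pair (a := nodeZ A i) (by omega) (by omega)
      (bP p A (f j)) (bQ' p A (f j)) (G1 (f j)) (G2 (f j))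
    refine ⟨s, hs, ?_⟩
    rw [hTe, hTe, hm]
    exact e
  have hint : ∀ i j, T i j ∈ Op p := by
    intro i j
    have hb := nodeZ_bounds i
    have hA' : (A : ℤ) + 3 ≤ p := by exact_mod_cast hA
    rw [hTe]
    unfold Fv
    exact (Op p).add_mem ((Op p).add_mem ((Op p).add_mem
      ((Op p).mul_mem (eval_toK_mem _ _) (hw.int _ (by omega) (by omega)))
      ((Op p).mul_mem (eval_toK_mem _ _) (hw.int _ (by omega) (by omega))))
      (eval_toK_mem _ _)) ((Op p).mul_mem (hw.sg_mem _) (eval_toK_mem _ _))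
  obtain ⟨s, hs, hdet⟩ := det_ruleB (κ := Fin 1) (Op p) hpK hp0 T ∅ (fun _ => 0)
    (fun _ => 0) (fun _ => 0) (fun _ => 0) (fun _ _ => 0) (fun _ _ => 0) (fun _ _ => 0)
    (fun _ _ => 0) ∅ (pairS p A) (mate p A)
    (fun i hi => absurd hi (by simp)) (fun i hi => absurd hi (by simp))
    (fun i hi => absurd hi (by simp)) (fun _ _ _ => (Op p).zero_mem)
    (fun _ _ _ => (Op p).zero_mem) (fun _ _ _ => (Op p).zero_mem)
    (fun i hi => absurd hi (by simp)) (fun i hi => absurd hi (by simp))
    (fun i _ j _ => hint i j) (fun i j hj => absurd hj (by simp))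
    (fun i _ => by simp) (fun i hi => mate_notin hi)
    (fun i hi j _ => hpair i hi j) (fun i hi j hj => absurd hj (by simp))
  have hnB := nB_le (A := A) hp5
  have hnB' : nB A p = 2 * A + 3 - p := by
    unfold nB
    rw [if_neg (by omega)]
  rw [hnB'] at hnB
  obtain ⟨e3, he3⟩ := Nat.exists_eq_add_of_le hnB
  have hp1 : 1 ≤ p := hp.out.pos
  have hAp : A ≤ p ^ 2 := by nlinarith
  have hfac := fac_sq_mem (p := p) hAp
  have hS : Sfl p A = 0 := by
    unfold Sfl
    refine Finset.sum_eq_zero fun i hi => ?_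
    rw [mem_range] at hi
    exact Nat.div_eq_of_lt (by omega)
  rw [hS, mul_zero, pow_zero, one_mul] at hfac
  have hdes := det_designM w sg cc LA LB (fun t => toK p (bP p A t)) (fun t => toK p (bQ' p A t))
    (fun t => bP_deg t) (fun t => bQ'_deg t) leadD_bQ' f
  refine ⟨(∏ i ∈ range A, ((i.factorial : K))⁻¹) ^ 2 * (p ^ e3 * s), ?_, ?_⟩
  · exact (Op p).mul_mem hfac ((Op p).mul_mem ((Op p).pow_mem hpK _) hs)
  · rw [hdes]
    have hd2 : ((pairsM w sg cc LA LB A (fun t => toK p (bP p A t))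
        (fun t => toK p (bQ' p A t))).submatrix id f).det = T.det := rfl
    rw [hd2]
    simp only [card_empty, filter_empty, eC_zero, sum_const_zero, mul_zero, add_zero, pow_zero,
      one_mul] at hdet
    rw [hdet, he3, pow_add]
    ring

end Main

end T2
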