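import Pool.Agent.T2.PSumB
import Pool.Agent.T2.RuleB

/-!
# T2, prime sum: the closed form of the counts of rule B

* `sum_sB` : `∑_{c<p} sB A p c = (A + 1 - p) + (A + 2 - p)` for `p ≤ A + 2`;
* `ruleB_le` : the exponent of `ruleB1` against the piecewise linear bound.
-/

set_option autoImplicit false

namespace T2

open Finset QS2 QS2.Cls

/-- Hermite's identity -/
theorem hermite {p : ℕ} (hp : 0 < p) (n : ℕ) : ∑ c ∈ range p, (n + c) / p = n := by
  induction n with
  | zero =>
    refine sum_eq_zero fun c hc => ?_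
    rw [zero_add]
    exact Nat.div_eq_of_lt (mem_range.mp hc)
  | succ n ih =>
    have h1 : ∑ c ∈ range p, (n + 1 + c) / p = ∑ c ∈ range p, (n + (c + 1)) / p :=
      sum_congr rfl fun c _ => by rw [show n + 1 + c = n + (c + 1) by ring]
    have h2 := sum_range_succ (fun c => (n + c) / p) p
    have h3 := sum_range_succ' (fun c => (n + c) / p) p
    have h4 : (n + p) / p = n / p + 1 := Nat.add_div_right n hp
    rw [h1]
    simp only [add_zero] at h3
    omega

theorem sum_sB {A p : ℕ} (hp : 0 < p) (h : p ≤ A + 2) :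
    ∑ c ∈ range p, sB A p c = (A + 1 - p) + (A + 2 - p) := by
  unfold sB
  rw [sum_add_distrib]
  congr 1
  · rcases Nat.lt_or_ge (A + 1) p with h1 | h1
    · have : A + 1 - p = 0 := by omega
      rw [this]
      refine sum_eq_zero fun c _ => Nat.div_eq_of_lt (by omega)
    · rw [← sum_range_reflect]
      have h2 : ∀ c ∈ range p, (A - (p - 1 - c)) / p = (A + 1 - p + c) / p := by
        intro c hc
        have := mem_range.mp hc
        congr 1
        omega
      rw [sum_congr rfl h2]
      exact hermite hp _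
  · have h1 : ∀ c ∈ range p, (A + 2 + c) / p - 1 = (A + 2 - p + c) / p := by
      intro c _
      have h2 : A + 2 + c = A + 2 - p + c + p := by omega
      rw [h2, Nat.add_div_right _ hp]
      exact Nat.add_sub_cancel _ _
    rw [sum_congr rfl h1]
    exact hermite hp _

/-- the exponent of `ruleB1`, `p ≤ A + 2` -/
theorem ruleB_le {A p : ℕ} (hp : 5 ≤ p) (h : p ≤ A + 2) :
    ((2 * Sfl p A + 9 + ∑ c ∈ range p, eC (sB A p c) : ℕ) : ℝ) - (nB A p : ℝ) ≤
      2 * (Sfl p A : ℝ) + min (6 * (p : ℝ)) (min ((2 * (A : ℝ) - 2 * p + 3) + 3 * p)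
        (min (2 * (2 * (A : ℝ) - 2 * p + 3) + p) (3 * (2 * (A : ℝ) - 2 * p + 3)))) - p + 20 := by
  refine ruleB_count (sB A p) (sum_sB (by omega) h) (by omega) h ?_ (Sfl p A)
  unfold nB
  rw [if_pos h]

/-- the exponent of `ruleB2` -/
theorem ruleB2_le {A p : ℕ} (h2 : p ≤ 2 * A + 3) :
    -((2 * A + 3 - p : ℕ) : ℝ) = (p : ℝ) - 2 * A - 3 := by
  rw [Nat.cast_sub h2]
  push_cast
  ring

end T2
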