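import Pool.Agent.T2.PSum
import Pool.Agent.T2.PSumC

/-!
# T2: the exponents of all primes and the prime sum

`eT2 eS A p` : the exponent of `p` in the denominator of the determinant with `c = A - 11` columns
per block (rows chosen); `eS p A` = the exponent of the small primes (`p < 5` or `p ^ 2 ≤ 4 A`).
-/

set_option autoImplicit false

namespace T2

open Finset Filter QS2 QS2.Cls

/-- the exponents of all the primes -/
def eT2 (eS : ℕ → ℕ → ℕ) (A p : ℕ) : ℤ :=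
  if p < 5 ∨ p ^ 2 ≤ 4 * A then (eS p A : ℤ)
  else if 3 * p ≤ A then (eCls (A - 11) 0 p : ℤ)
  else if p ≤ A + 2 then ((2 * Sfl p (A - 11) + 9 + ∑ a ∈ range p, eC (sB A p a) : ℕ) : ℤ)
    - ((nB A p - (2 * A - 2 * (A - 11)) : ℕ) : ℤ)
  else -(((2 * A + 3 - p) - (2 * A - 2 * (A - 11)) : ℕ) : ℤ)

/-- size of the exponents of the small primes -/
structure SRule (eS : ℕ → ℕ → ℕ) (C n0 : ℕ) : Prop where
  two : ∀ A : ℕ, n0 ≤ A → (eS 2 A : ℝ) * Real.log 2 ≤
    Real.log 2 / 2 * (A : ℝ) ^ 2 + C * A * Real.log (A + 2)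
  three : ∀ A : ℕ, n0 ≤ A → (eS 3 A : ℝ) * Real.log 3 ≤
    Real.log 3 / 3 * (A : ℝ) ^ 2 + C * A * Real.log (A + 2)
  small : ∀ A p : ℕ, n0 ≤ A → p.Prime → 5 ≤ p → p ≤ A + 2 →
    (eS p A : ℝ) * Real.log p ≤ C * A * Real.log (A + 2)

/-- above `2 A + 3` the exponent is `0` -/
theorem eT2_zero {eS : ℕ → ℕ → ℕ} {A p : ℕ} (hA : 5 ≤ A) (h : 2 * A + 3 < p) :
    eT2 eS A p = 0 := by
  unfold eT2
  have h1 : ¬ (p < 5 ∨ p ^ 2 ≤ 4 * A) := by
    rintro (h1 | h1)
    · omega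
    · nlinarith
  rw [if_neg h1, if_neg (by omega), if_neg (by omega)]
  have : 2 * A + 3 - p = 0 := by omega
  rw [this]
  simp

theorem Sfl_shift (p A k : ℕ) : Sfl p (A - k) ≤ Sfl p A := Sfl_mono p (Nat.sub_le _ _)

/-- `∑_{i ∈ [A - m, A)} ⌊i / p⌋` is nondecreasing in `A` -/
theorem Sfl_window (p m A : ℕ) :
    Sfl p A - Sfl p (A - m) ≤ Sfl p (A + 1) - Sfl p (A + 1 - m) := by
  have h0 : ∀ M, Sfl p (M + 1) = Sfl p M + M / p := fun M => SF_succ p M
  rcases Nat.lt_or_ge A m with h | h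
  · have h1 : A - m = 0 := by omega
    have h2 : A + 1 - m = 0 := by omega
    rw [h1, h2, h0]
    generalize A / p = q
    omega
  · have h1 : A + 1 - m = (A - m) + 1 := by omega
    rw [h1, h0, h0]
    have h2 : (A - m) / p ≤ A / p := Nat.div_le_div_right (Nat.sub_le _ _)
    have h3 := Sfl_mono p (Nat.sub_le A m)
    generalize A / p = q at *
    generalize (A - m) / p = q' at *
    omega

theorem eCls_mono_A (p : ℕ) {c A : ℕ} (h : c ≤ A) : eCls c 0 p ≤ eCls A 0 p := by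
  induction A, h using Nat.le_induction with
  | base => exact le_refl _
  | succ A _ ih =>
    refine ih.trans ?_
    unfold eCls
    simp only [add_zero, Nat.sub_zero]
    have := Sfl_window p (dg p + 3) A
    omega

/-- **The rules.** -/
theorem prule_eT2 {eS : ℕ → ℕ → ℕ} {C n0 : ℕ} (h : SRule eS C n0) :
    Pool.Agent.T2.PRule (eT2 eS) 4 (2 * C + 50) (n0 + 30) := by
  have hl2 : (0.69 : ℝ) < Real.log 2 := by linarith [Real.log_two_gt_d9]
  have hl3 : (1 : ℝ) < Real.log 3 := by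
    rw [Real.lt_log_iff_exp_lt (by norm_num)]
    linarith [Real.exp_one_lt_d9]
  have hC0 : (0 : ℝ) ≤ C := Nat.cast_nonneg C
  have hlA : ∀ A : ℕ, 0 ≤ (C : ℝ) * A * Real.log (A + 2) := fun A => by
    have h1 : (0 : ℝ) ≤ A := Nat.cast_nonneg A
    have h2 : 0 ≤ Real.log ((A : ℝ) + 2) := Real.log_nonneg (by linarith)
    positivity
  have hlA' : ∀ A : ℕ, 0 ≤ (A : ℝ) * Real.log (A + 2) := fun A => by
    have h1 : (0 : ℝ) ≤ A := Nat.cast_nonneg A
    have h2 : 0 ≤ Real.log ((A : ℝ) + 2) := Real.log_nonneg (by linarith)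
    positivity
  refine ⟨fun A hA => ?_, fun A hA => ?_, fun A p hA hp h5 hs => ?_, fun A p hA hp h5 hs h3 => ?_,
    fun A p hA hp h5 hs h3 h2 => ?_, fun A p hA hp h3 h2 => ?_⟩
  · have h1 := h.two A (by omega)
    have e : eT2 eS A 2 = (eS 2 A : ℤ) := by
      unfold eT2
      rw [if_pos (Or.inl (by norm_num))]
    rw [e, Int.cast_natCast]
    push_cast
    nlinarith [hlA A, hlA' A]
  · have h1 := h.three A (by omega)
    have e : eT2 eS A 3 = (eS 3 A : ℤ) := by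
      unfold eT2
      rw [if_pos (Or.inl (by norm_num))]
    rw [e, Int.cast_natCast]
    push_cast
    nlinarith [hlA A, hlA' A]
  · have e : eT2 eS A p = (eS p A : ℤ) := by
      unfold eT2
      rw [if_pos (Or.inr hs)]
    have hpA : p ≤ A + 2 := by nlinarith
    have h1 := h.small A p (by omega) hp h5 hpA
    rw [e, Int.cast_natCast]
    push_cast
    nlinarith [hlA A, hlA' A]
  · have e : eT2 eS A p = (eCls (A - 11) 0 p : ℤ) := by
      unfold eT2
      rw [if_neg (by omega), if_pos h3]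
    have h1 : eCls (A - 11) 0 p ≤ eCls A 0 p := eCls_mono_A p (Nat.sub_le _ _)
    have h2 : ((eCls (A - 11) 0 p : ℕ) : ℝ) ≤ (eCls A 0 p : ℝ) := by exact_mod_cast h1
    rw [e, Int.cast_natCast]
    push_cast
    linarith
  · have e : eT2 eS A p = ((2 * Sfl p (A - 11) + 9 + ∑ a ∈ range p, eC (sB A p a) : ℕ) : ℤ)
        - ((nB A p - (2 * A - 2 * (A - 11)) : ℕ) : ℤ) := by
      unfold eT2
      rw [if_neg (by omega), if_neg (by omega), if_pos h2]
    have h4 : (eT2 eS A p : ℝ) ≤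
        ((2 * Sfl p A + 9 + ∑ a ∈ range p, eC (sB A p a) : ℕ) : ℝ) - (nB A p : ℝ) + 22 := by
      have h5 : eT2 eS A p ≤
          ((2 * Sfl p A + 9 + ∑ a ∈ range p, eC (sB A p a) : ℕ) : ℤ) - (nB A p : ℤ) + 22 := by
        rw [e]
        have h6 := Sfl_shift p A 11
        omega
      exact_mod_cast h5
    have h7 := ruleB_le (A := A) h5 h2
    have h8 : Pool.Agent.T2.ruleB A p = 2 * (Sfl p A : ℝ) + min (6 * (p : ℝ))
        (min ((2 * (A : ℝ) - 2 * p + 3) + 3 * p)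
        (min (2 * (2 * (A : ℝ) - 2 * p + 3) + p) (3 * (2 * (A : ℝ) - 2 * p + 3)))) - p := rfl
    rw [h8]
    push_cast at h4 h7 ⊢
    linarith
  · have h1 : ¬ (p < 5 ∨ p ^ 2 ≤ 4 * A) := by
      rintro (h1 | h1)
      · omega
      · nlinarith
    have e : eT2 eS A p = -(((2 * A + 3 - p) - (2 * A - 2 * (A - 11)) : ℕ) : ℤ) := by
      unfold eT2
      rw [if_neg h1, if_neg (by omega), if_neg (by omega)]
    have h4 : eT2 eS A p ≤ (p : ℤ) - 2 * A + 19 := by
      rw [e]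
      omega
    have h5 : (eT2 eS A p : ℝ) ≤ (p : ℝ) - 2 * A + 19 := by exact_mod_cast h4
    push_cast
    linarith

/-- **The prime sum.** -/
theorem primes_sum_eT2 {eS : ℕ → ℕ → ℕ} {C n0 : ℕ} (h : SRule eS C n0) :
    ∀ᶠ A : ℕ in atTop, ∑ p ∈ (Ioc 0 (2 * A + 3)).filter Nat.Prime,
      (eT2 eS A p : ℝ) * Real.log p ≤ 2.4965 * (A : ℝ) ^ 2 :=
  Pool.Agent.T2.primes_sum_T2 (by norm_num) (prule_eT2 h)

theorem eT2_zero_event (eS : ℕ → ℕ → ℕ) :
    ∀ᶠ A : ℕ in atTop, ∀ p : ℕ, p.Prime → 2 * A + 3 < p → eT2 eS A p = 0 := by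
  filter_upwards [eventually_ge_atTop 5] with A hA p _ h
  exact eT2_zero hA h

end T2
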