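import Pool.Agent.T2.PSumA
import Pool.Agent.QS2.Primes
import Pool.Agent.QS2.LogNum40

/-!
# T2: the prime sum

Nodes `z = n` and `z = -2 - m`, `1 ≤ n, m ≤ A`; determinant of size `2 A`.  The exponents `e A p`
are integers (negative for the primes in `(A, 2 A)`).
-/

set_option autoImplicit false

namespace Pool.Agent.T2

open Finset Filter Topology

/-- **the p-adic input** of the prime sum: `p ^ e A p * D` is integral at `p` -/
structure PRule (e : ℕ → ℕ → ℤ) (K C n0 : ℕ) : Prop where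
  two : ∀ A : ℕ, n0 ≤ A → (e A 2 : ℝ) ≤ (A : ℝ) ^ 2 / 2 + C * A * Real.log (A + 2)
  three : ∀ A : ℕ, n0 ≤ A → (e A 3 : ℝ) ≤ (A : ℝ) ^ 2 / 3 + C * A * Real.log (A + 2)
  small : ∀ A p : ℕ, n0 ≤ A → p.Prime → 5 ≤ p → p ^ 2 ≤ K * A →
    (e A p : ℝ) * Real.log p ≤ C * A * Real.log (A + 2)
  mid : ∀ A p : ℕ, n0 ≤ A → p.Prime → 5 ≤ p → K * A < p ^ 2 → 3 * p ≤ A →
    (e A p : ℝ) ≤ (QS2.Cls.eCls A 0 p : ℝ) + C
  large : ∀ A p : ℕ, n0 ≤ A → p.Prime → 5 ≤ p → K * A < p ^ 2 → A < 3 * p → p ≤ A + 2 →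
    (e A p : ℝ) ≤ ruleB A p + C
  top : ∀ A p : ℕ, n0 ≤ A → p.Prime → A + 3 ≤ p → p ≤ 2 * A + 3 →
    (e A p : ℝ) ≤ (p : ℝ) - 2 * A + C

/-- the items of the prime sum with nonnegative cost: `(a, b, lo, hi)` is `a A + b p` on
`lo A < p ≤ hi A` -/
noncomputable def items (ε : ℝ) : List (ℝ × ℝ × ℝ × ℝ) :=
  [(3 + ε, 5 / 2, 0, 1 / 7), (2, 9, 1 / 7, 2 / 13), (4, -4, 2 / 13, 1 / 6),
    (2, 8, 1 / 6, 2 / 11), (4, -3, 2 / 11, 1 / 5), (2, 7, 1 / 5, 2 / 9), (4, -2, 2 / 9, 1 / 4),
    (2, 6, 1 / 4, 2 / 7), (4, -1, 2 / 7, 2 / 5), (6, -6, 2 / 5, 2 / 3), (8, -9, 2 / 3, 8 / 9)]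

theorem items_sum (ε : ℝ) :
    ((items ε).map Pool.Agent.D23.ival).sum ≤ 2.33849 + 1 / 7 * ε := by
  simp only [items, Pool.Agent.D23.ival, List.map_cons, List.map_nil, List.sum_cons, List.sum_nil]
  norm_num
  linarith

theorem items_ok {ε : ℝ} (hε : 0 ≤ ε) : ∀ x ∈ items ε, 0 ≤ x.2.2.1 ∧ x.2.2.1 ≤ x.2.2.2 ∧
    0 ≤ x.1 + x.2.1 * x.2.2.1 ∧ 0 ≤ x.1 + x.2.1 * x.2.2.2 := by
  intro x hx
  simp only [items, List.mem_cons, List.not_mem_nil, or_false] at hx
  rcases hx with rfl | rfl | rfl | rfl | rfl | rfl | rfl | rfl | rfl | rfl | rfl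
  · refine ⟨by norm_num, by norm_num, ?_, ?_⟩ <;> · simp only; nlinarith
  all_goals norm_num

/-- the item of a prime `p ≤ 8 A / 9`, from the class rules -/
theorem exists_item {A p : ℕ} {f C ε : ℝ} (hp : p.Prime) (h5 : 5 ≤ p)
    (h9 : 9 * p ≤ 8 * A)
    (hpar : 3 * ((A : ℝ) / p) ≤ ε * A)
    (hmid : 3 * p ≤ A → f ≤ (QS2.Cls.eCls A 0 p : ℝ) + C)
    (hlarge : A < 3 * p → f ≤ ruleB A p + C) :
    ∃ x ∈ items ε, f ≤ x.1 * A + x.2.1 * p + (C + 40) ∧ x.2.2.1 * A < (p : ℝ) ∧
      (p : ℝ) ≤ x.2.2.2 * A := by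
  have hpr : (5 : ℝ) ≤ p := by exact_mod_cast h5
  have hA0 : (0 : ℝ) ≤ A := Nat.cast_nonneg A
  rcases Nat.lt_or_ge A (3 * p) with h3 | h3
  · have hf := hlarge h3
    have h3r : (A : ℝ) < 3 * p := by exact_mod_cast h3
    rcases Nat.lt_or_ge (2 * A) (5 * p) with h25 | h25
    · have h25r : 2 * (A : ℝ) < 5 * p := by exact_mod_cast h25
      rcases Nat.lt_or_ge (2 * A) (3 * p) with h23 | h23
      · -- (8, -9)
        have h23r : 2 * (A : ℝ) < 3 * p := by exact_mod_cast h23
        have h9r : 9 * (p : ℝ) ≤ 8 * A := by exact_mod_cast h9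
        have h := ruleB_4 (A := A) (p := p) (by omega) (by omega)
        refine ⟨(8, -9, 2 / 3, 8 / 9), by simp [items], ?_, ?_, ?_⟩
        · simp only; linarith
        · simp only; linarith
        · simp only; linarith
      · have h23r : 3 * (p : ℝ) ≤ 2 * A := by exact_mod_cast h23
        have h : ruleB A p ≤ 6 * A - 6 * p + 6 := by
          rcases Nat.lt_or_ge A (2 * p) with h2 | h2
          · exact ruleB_3 (by omega) h2
          · have := ruleB_2 h2 h3
            linarith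
        refine ⟨(6, -6, 2 / 5, 2 / 3), by simp [items], ?_, ?_, ?_⟩
        · simp only; linarith
        · simp only; linarith
        · simp only; linarith
    · have h25r : 5 * (p : ℝ) ≤ 2 * A := by exact_mod_cast h25
      have h := ruleB_1 (A := A) (p := p) (by omega) h3
      refine ⟨(4, -1, 2 / 7, 2 / 5), by simp [items], ?_, ?_, ?_⟩
      · simp only; linarith
      · simp only; linarith
      · simp only; linarith
  · have hf := hmid h3
    rcases Nat.lt_or_ge A (7 * p) with h7 | h7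
    · -- the quotient `k`
      have h1 := fun k => eCls_le_1 (A := A) (p := p) (k := k) hp h5 h3
      have h2 := fun k => eCls_le_2 (A := A) (p := p) (k := k) hp h5 h3
      rcases Nat.lt_or_ge A (4 * p) with h4 | h4
      · rcases Nat.lt_or_ge (2 * A) (7 * p) with h | h
        · have hr : 2 * (A : ℝ) < 7 * p := by exact_mod_cast h
          have hr' : 3 * (p : ℝ) ≤ A := by exact_mod_cast h3
          have e := h1 3 (by norm_num) (by omega) (by omega)
          norm_num at e
          refine ⟨(4, -1, 2 / 7, 2 / 5), by simp [items], ?_, ?_, ?_⟩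
          · simp only; linarith
          · simp only; linarith
          · simp only; linarith
        · have hr : 7 * (p : ℝ) ≤ 2 * A := by exact_mod_cast h
          have hr' : (A : ℝ) < 4 * p := by exact_mod_cast h4
          have e := h2 3 (by norm_num) (by omega) (by omega)
          norm_num at e
          refine ⟨(2, 6, 1 / 4, 2 / 7), by simp [items], ?_, ?_, ?_⟩
          · simp only; linarith
          · simp only; linarith
          · simp only; linarith
      · rcases Nat.lt_or_ge A (5 * p) with h5' | h5'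
        · rcases Nat.lt_or_ge (2 * A) (9 * p) with h | h
          · have hr : 2 * (A : ℝ) < 9 * p := by exact_mod_cast h
            have hr' : 4 * (p : ℝ) ≤ A := by exact_mod_cast h4
            have e := h1 4 (by norm_num) (by omega) (by omega)
            norm_num at e
            refine ⟨(4, -2, 2 / 9, 1 / 4), by simp [items], ?_, ?_, ?_⟩
            · simp only; linarith
            · simp only; linarith
            · simp only; linarith
          · have hr : 9 * (p : ℝ) ≤ 2 * A := by exact_mod_cast h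
            have hr' : (A : ℝ) < 5 * p := by exact_mod_cast h5'
            have e := h2 4 (by norm_num) (by omega) (by omega)
            norm_num at e
            refine ⟨(2, 7, 1 / 5, 2 / 9), by simp [items], ?_, ?_, ?_⟩
            · simp only; linarith
            · simp only; linarith
            · simp only; linarith
        · rcases Nat.lt_or_ge A (6 * p) with h6 | h6
          · rcases Nat.lt_or_ge (2 * A) (11 * p) with h | h
            · have hr : 2 * (A : ℝ) < 11 * p := by exact_mod_cast h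
              have hr' : 5 * (p : ℝ) ≤ A := by exact_mod_cast h5'
              have e := h1 5 (by norm_num) (by omega) (by omega)
              norm_num at e
              refine ⟨(4, -3, 2 / 11, 1 / 5), by simp [items], ?_, ?_, ?_⟩
              · simp only; linarith
              · simp only; linarith
              · simp only; linarith
            · have hr : 11 * (p : ℝ) ≤ 2 * A := by exact_mod_cast h
              have hr' : (A : ℝ) < 6 * p := by exact_mod_cast h6
              have e := h2 5 (by norm_num) (by omega) (by omega)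
              norm_num at e
              refine ⟨(2, 8, 1 / 6, 2 / 11), by simp [items], ?_, ?_, ?_⟩
              · simp only; linarith
              · simp only; linarith
              · simp only; linarith
          · rcases Nat.lt_or_ge (2 * A) (13 * p) with h | h
            · have hr : 2 * (A : ℝ) < 13 * p := by exact_mod_cast h
              have hr' : 6 * (p : ℝ) ≤ A := by exact_mod_cast h6
              have e := h1 6 (by norm_num) (by omega) (by omega)
              norm_num at e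
              refine ⟨(4, -4, 2 / 13, 1 / 6), by simp [items], ?_, ?_, ?_⟩
              · simp only; linarith
              · simp only; linarith
              · simp only; linarith
            · have hr : 13 * (p : ℝ) ≤ 2 * A := by exact_mod_cast h
              have hr' : (A : ℝ) < 7 * p := by exact_mod_cast h7
              have e := h2 6 (by norm_num) (by omega) (by omega)
              norm_num at e
              refine ⟨(2, 9, 1 / 7, 2 / 13), by simp [items], ?_, ?_, ?_⟩
              · simp only; linarith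
              · simp only; linarith
              · simp only; linarith
    · have hr : 7 * (p : ℝ) ≤ A := by exact_mod_cast h7
      have e := eCls_le_par (A := A) (p := p) hp h5 h3
      refine ⟨(3 + ε, 5 / 2, 0, 1 / 7), by simp [items], ?_, ?_, ?_⟩
      · simp only
        nlinarith
      · simp only
        linarith
      · simp only; linarith

theorem filter_split (F : ℕ → ℝ) {m a b c : ℕ} (h1 : m ≤ a) (h2 : a ≤ b) (h3 : b ≤ c) :
    ∑ p ∈ (Ioc 0 c).filter Nat.Prime, F p =
      ∑ p ∈ (Ioc 0 m).filter Nat.Prime, F p + ∑ p ∈ (Ioc m a).filter Nat.Prime, F p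
      + ∑ p ∈ (Ioc a b).filter Nat.Prime, F p + ∑ p ∈ (Ioc b c).filter Nat.Prime, F p := by
  rw [Pool.Agent.D23.sum_Ioc_sub F h1, Pool.Agent.D23.sum_Ioc_sub F h2,
    Pool.Agent.D23.sum_Ioc_sub F h3]
  ring

theorem isum_event (g : ℝ) (x : ℝ × ℝ × ℝ × ℝ) (h0 : 0 ≤ x.2.2.1) (h1 : x.2.2.1 ≤ x.2.2.2)
    {η : ℝ} (hη : 0 < η) :
    ∀ᶠ A : ℕ in atTop, Pool.Agent.D23.isum g x A ≤ (Pool.Agent.D23.ival x + η) * (A : ℝ) ^ 2 := by
  have h := Pool.Agent.D23.isum_tendsto Pool.Agent.PNT.theta_asymp g x h0 h1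
  filter_upwards [h.eventually_lt_const
    (show Pool.Agent.D23.ival x < Pool.Agent.D23.ival x + η by linarith),
    eventually_gt_atTop 0] with A hA hA0
  have : (0 : ℝ) < (A : ℝ) ^ 2 := by
    have : (0 : ℝ) < A := by exact_mod_cast hA0
    positivity
  rw [div_lt_iff₀ this] at hA
  exact hA.le

/-- **The prime sum of T2.** -/
theorem primes_sum_T2 {e : ℕ → ℕ → ℤ} {K C n0 : ℕ} (hK : 1 ≤ K) (h : PRule e K C n0) :
    ∀ᶠ A : ℕ in atTop, ∑ p ∈ (Ioc 0 (2 * A + 3)).filter Nat.Prime, (e A p : ℝ) * Real.log p ≤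
      2.4965 * (A : ℝ) ^ 2 := by
  classical
  have hCr : (0 : ℝ) ≤ C := Nat.cast_nonneg C
  set C' : ℝ := 2 * C + 1 + Real.sqrt K with hC'
  have hC0 : (0 : ℝ) ≤ C' := by positivity
  filter_upwards [Pool.Agent.D23.psum Pool.Agent.PNT.theta_asymp (items 0.001)
      (items_ok (by norm_num)) (show (0 : ℝ) ≤ C + 40 by positivity) hC0
      (show (0 : ℝ) < 0.0001 by norm_num),
    isum_event (C + 9) (8, -9, 8 / 9, 1) (by norm_num) (by norm_num)
      (show (0 : ℝ) < 0.00005 by norm_num),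
    isum_event (C + 9) (-2, 1, 1, 2) (by norm_num) (by norm_num)
      (show (0 : ℝ) < 0.00005 by norm_num),
    QS2.sqrt_small 3 (show (0 : ℝ) < 0.001 by norm_num),
    QS2.log_small C hCr (show (0 : ℝ) < 0.00005 by norm_num),
    QS2.log_small (6 * (3 + C)) (by positivity) (show (0 : ℝ) < 0.00005 by norm_num),
    eventually_ge_atTop 1000, eventually_ge_atTop (2 * K), eventually_ge_atTop n0]
    with A hsum hI1 hI2 hsq hlg hlg3 hA hAK hn0
  have hAr : (1000 : ℝ) ≤ A := by exact_mod_cast hA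
  have hlogA : 0 ≤ Real.log A := Real.log_natCast_nonneg A
  have hlog2 : ∀ x : ℝ, 0 < x → x ≤ (A : ℝ) ^ 2 → Real.log x ≤ 2 * Real.log A := by
    intro x hx hx2
    have := Real.log_le_log hx hx2
    rwa [Real.log_pow, Nat.cast_ofNat] at this
  -- the four ranges
  have hf1 : ⌊(1 : ℝ) * A⌋₊ = A := by rw [one_mul]; exact Nat.floor_natCast A
  have hf2 : ⌊(2 : ℝ) * A⌋₊ = 2 * A := by
    have : (2 : ℝ) * A = ((2 * A : ℕ) : ℝ) := by push_cast; ring
    rw [this]; exact Nat.floor_natCast _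
  set m : ℕ := ⌊(8 / 9 : ℝ) * A⌋₊ with hm
  have hm0 : (0 : ℝ) ≤ (8 / 9 : ℝ) * A := by positivity
  have hmle : (m : ℝ) ≤ (8 / 9 : ℝ) * A := Nat.floor_le hm0
  have hmA : m ≤ A := by
    have : (m : ℝ) ≤ A := by linarith
    exact_mod_cast this
  have hlt : ∀ p : ℕ, m < p → 8 * A < 9 * p := by
    intro p hp
    have h1 : (8 / 9 : ℝ) * A < p := (Nat.floor_lt hm0).mp hp
    have : (8 : ℝ) * A < 9 * p := by linarith
    exact_mod_cast this
  have hle : ∀ p : ℕ, p ≤ m → 9 * p ≤ 8 * A := by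
    intro p hp
    have h1 : (p : ℝ) ≤ m := by exact_mod_cast hp
    have : (9 : ℝ) * p ≤ 8 * A := by linarith
    exact_mod_cast this
  have hKp : ∀ p : ℕ, 8 * A < 9 * p → K * A < p ^ 2 := by
    intro p hp
    nlinarith
  rw [filter_split (fun p => (e A p : ℝ) * Real.log p) hmA (show A ≤ 2 * A by omega)
    (show 2 * A ≤ 2 * A + 3 by omega)]
  -- range (8/9, 1]
  have hR1 : ∑ p ∈ (Ioc m A).filter Nat.Prime, (e A p : ℝ) * Real.log p ≤
      (-1 / 18 + 0.00005) * (A : ℝ) ^ 2 := by
    have hv : Pool.Agent.D23.ival (8, -9, 8 / 9, 1) = -1 / 18 := by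
      simp only [Pool.Agent.D23.ival]; norm_num
    rw [hv] at hI1
    refine le_trans ?_ hI1
    unfold Pool.Agent.D23.isum
    simp only
    rw [hf1, ← hm]
    refine sum_le_sum fun p hp => ?_
    rw [mem_filter, mem_Ioc] at hp
    obtain ⟨⟨hp1, hp2⟩, hpp⟩ := hp
    have h8 := hlt p hp1
    refine mul_le_mul_of_nonneg_right ?_ (Real.log_natCast_nonneg p)
    have h1 := h.large A p hn0 hpp (by omega) (hKp p h8) (by omega) (by omega)
    have h2 := ruleB_4 (A := A) (p := p) hp2 (by omega)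
    linarith
  -- range (1, 2]
  have hR2 : ∑ p ∈ (Ioc A (2 * A)).filter Nat.Prime, (e A p : ℝ) * Real.log p ≤
      (-1 / 2 + 0.00005) * (A : ℝ) ^ 2 := by
    have hv : Pool.Agent.D23.ival (-2, 1, 1, 2) = -1 / 2 := by
      simp only [Pool.Agent.D23.ival]; norm_num
    rw [hv] at hI2
    refine le_trans ?_ hI2
    unfold Pool.Agent.D23.isum
    simp only
    rw [hf1, hf2]
    refine sum_le_sum fun p hp => ?_
    rw [mem_filter, mem_Ioc] at hp
    obtain ⟨⟨hp1, hp2⟩, hpp⟩ := hp
    refine mul_le_mul_of_nonneg_right ?_ (Real.log_natCast_nonneg p)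
    rcases Nat.lt_or_ge p (A + 3) with h3 | h3
    · have h1 := h.large A p hn0 hpp (by omega) (hKp p (by omega)) (by omega) (by omega)
      have h2 := ruleB_5 (A := A) (p := p) hp1
      linarith
    · have h1 := h.top A p hn0 hpp h3 (by omega)
      linarith
  -- range (2 A, 2 A + 3]
  have hR3 : ∑ p ∈ (Ioc (2 * A) (2 * A + 3)).filter Nat.Prime, (e A p : ℝ) * Real.log p ≤
      0.00005 * (A : ℝ) ^ 2 := by
    have hle3 : ∀ p ∈ (Ioc (2 * A) (2 * A + 3)).filter Nat.Prime,
        (e A p : ℝ) * Real.log p ≤ (3 + C) * (2 * Real.log ((A : ℝ) + 2)) := by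
      intro p hp
      rw [mem_filter, mem_Ioc] at hp
      obtain ⟨⟨hp1, hp2⟩, hpp⟩ := hp
      have h1 := h.top A p hn0 hpp (by omega) hp2
      have hpr : (p : ℝ) ≤ 2 * A + 3 := by exact_mod_cast hp2
      have hp0 : (0 : ℝ) < p := by exact_mod_cast hpp.pos
      have h2 : Real.log p ≤ 2 * Real.log ((A : ℝ) + 2) := by
        have : Real.log (p : ℝ) ≤ Real.log (((A : ℝ) + 2) ^ 2) :=
          Real.log_le_log hp0 (by nlinarith)
        rwa [Real.log_pow, Nat.cast_ofNat] at this
      calc (e A p : ℝ) * Real.log p ≤ (3 + C) * Real.log p :=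
            mul_le_mul_of_nonneg_right (by linarith) (Real.log_natCast_nonneg p)
        _ ≤ (3 + C) * (2 * Real.log ((A : ℝ) + 2)) :=
            mul_le_mul_of_nonneg_left h2 (by positivity)
    have hlog0 : 0 ≤ Real.log ((A : ℝ) + 2) := Real.log_nonneg (by linarith)
    refine (sum_le_card_nsmul _ _ _ hle3).trans ?_
    rw [nsmul_eq_mul]
    have hcard : (((Ioc (2 * A) (2 * A + 3)).filter Nat.Prime).card : ℝ) ≤ 3 := by
      have h1 := card_filter_le (Ioc (2 * A) (2 * A + 3)) Nat.Prime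
      rw [Nat.card_Ioc] at h1
      have : ((Ioc (2 * A) (2 * A + 3)).filter Nat.Prime).card ≤ 3 := by omega
      exact_mod_cast this
    have h4 : (((Ioc (2 * A) (2 * A + 3)).filter Nat.Prime).card : ℝ) *
        ((3 + C) * (2 * Real.log ((A : ℝ) + 2))) ≤ 3 * ((3 + C) * (2 * Real.log ((A : ℝ) + 2))) :=
      mul_le_mul_of_nonneg_right hcard (by positivity)
    have h5 : 3 * ((3 + (C : ℝ)) * (2 * Real.log ((A : ℝ) + 2))) =
        6 * (3 + C) * Real.log ((A : ℝ) + 2) := by ring
    have h6 : (0.00005 : ℝ) * A ≤ 0.00005 * (A : ℝ) ^ 2 := by nlinarith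
    linarith
  -- range (0, 8/9]
  set Q := (Ioc 0 m).filter Nat.Prime with hQ
  have hm3 : 3 ≤ m := by
    rw [hm]
    refine Nat.le_floor ?_
    push_cast
    linarith
  have h2Q : 2 ∈ Q := by
    rw [hQ, mem_filter, mem_Ioc]
    exact ⟨⟨by omega, by omega⟩, Nat.prime_two⟩
  have h3Q : 3 ∈ Q.erase 2 := by
    rw [mem_erase, hQ, mem_filter, mem_Ioc]
    exact ⟨by norm_num, ⟨by omega, by omega⟩, Nat.prime_three⟩
  set P := (Q.erase 2).erase 3 with hP
  have hmemP : ∀ p ∈ P, p.Prime ∧ 5 ≤ p ∧ 9 * p ≤ 8 * A := by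
    intro p hp
    rw [hP, mem_erase, mem_erase, hQ, mem_filter, mem_Ioc] at hp
    obtain ⟨h3, h2, ⟨_, hpm⟩, hpp⟩ := hp
    refine ⟨hpp, ?_, hle p hpm⟩
    have h2' := hpp.two_le
    rcases Nat.lt_or_ge p 5 with h5 | h5
    · have h4 : p = 4 := by omega
      rw [h4] at hpp
      exact absurd hpp (by norm_num)
    · exact h5
  set R := P.filter (fun p => p ^ 2 ≤ K * A) with hR
  have hmain := hsum P R (fun p => (e A p : ℝ)) (fun p hp => (hmemP p hp).1) ?_ ?_ ?_
  · have hs := items_sum 0.001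
    have hA2 : (0 : ℝ) ≤ (A : ℝ) ^ 2 := by positivity
    have hmain' : ∑ p ∈ P, (e A p : ℝ) * Real.log p ≤ (2.33849 + 1 / 7 * 0.001 + 0.0001) *
        (A : ℝ) ^ 2 := hmain.trans (mul_le_mul_of_nonneg_right (by linarith) hA2)
    have hq : ∑ p ∈ Q, (e A p : ℝ) * Real.log p = (e A 2 : ℝ) * Real.log 2
        + ((e A 3 : ℝ) * Real.log 3 + ∑ p ∈ P, (e A p : ℝ) * Real.log p) := by
      rw [← Finset.add_sum_erase Q _ h2Q, ← Finset.add_sum_erase (Q.erase 2) _ h3Q]
      simp only [Nat.cast_ofNat]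
      rfl
    have hCl : (C : ℝ) * A * Real.log ((A : ℝ) + 2) ≤ 0.00005 * (A : ℝ) ^ 2 := by
      have h4 := mul_le_mul_of_nonneg_right hlg (by linarith : (0 : ℝ) ≤ A)
      nlinarith
    have h2 : (e A 2 : ℝ) * Real.log 2 ≤ (1 / 2 + 0.00005) * (A : ℝ) ^ 2 * 0.6931471808 := by
      have h1 := h.two A hn0
      refine (mul_le_mul_of_nonneg_right (h1.trans (by linarith))
        (Real.log_nonneg (by norm_num))).trans
        (mul_le_mul_of_nonneg_left Real.log_two_lt_d9.le (by positivity))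
    have h3 : (e A 3 : ℝ) * Real.log 3 ≤ (1 / 3 + 0.00005) * (A : ℝ) ^ 2 * 1.0986125 := by
      have h1 := h.three A hn0
      refine (mul_le_mul_of_nonneg_right (h1.trans (by linarith))
        (Real.log_nonneg (by norm_num))).trans
        (mul_le_mul_of_nonneg_left Pool.QS2E.log3_bd.2.le (by positivity))
    rw [hq]
    nlinarith
  · intro p hp
    obtain ⟨hpp, hp5, hp9⟩ := hmemP p hp
    by_cases hpR : p ^ 2 ≤ K * A
    · left
      rw [hR, mem_filter]
      exact ⟨hp, hpR⟩
    right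
    push Not at hpR
    have hpr : (5 : ℝ) ≤ p := by exact_mod_cast hp5
    have hpar : 3 * ((A : ℝ) / p) ≤ 0.001 * A := by
      have h3 : (A : ℝ) / p ≤ Real.sqrt A := by
        rw [div_le_iff₀ (by linarith)]
        have h4 : Real.sqrt (A : ℝ) ≤ p := by
          rw [Real.sqrt_le_left (by linarith)]
          have h5 : A ≤ p ^ 2 := by nlinarith
          exact_mod_cast h5
        have h6 : Real.sqrt (A : ℝ) * Real.sqrt A = A := Real.mul_self_sqrt (Nat.cast_nonneg A)
        nlinarith [Real.sqrt_nonneg (A : ℝ)]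
      linarith
    exact exists_item hpp hp5 hp9 hpar (fun h3 => h.mid A p hn0 hpp hp5 hpR h3)
      (fun h3 => h.large A p hn0 hpp hp5 hpR h3 (by omega))
  · have h1 : R ⊆ Ioc 0 (Nat.sqrt (K * A)) := by
      intro p hp
      rw [hR, mem_filter] at hp
      rw [mem_Ioc]
      refine ⟨(hmemP p hp.1).1.pos, ?_⟩
      rw [Nat.le_sqrt']
      exact hp.2
    have h2 : R.card ≤ Nat.sqrt (K * A) := by
      refine (card_le_card h1).trans ?_
      rw [Nat.card_Ioc]; omega
    have h3 : (Nat.sqrt (K * A) : ℝ) ≤ Real.sqrt ((K * A : ℕ) : ℝ) := Real.nat_sqrt_le_real_sqrt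
    rw [Nat.cast_mul, Real.sqrt_mul (Nat.cast_nonneg K)] at h3
    have h4 : (R.card : ℝ) ≤ (Nat.sqrt (K * A) : ℝ) := by exact_mod_cast h2
    refine h4.trans (h3.trans (mul_le_mul_of_nonneg_right ?_ (Real.sqrt_nonneg _)))
    rw [hC']
    linarith
  · intro p hp
    rw [hR, mem_filter] at hp
    obtain ⟨hpP, hp'⟩ := hp
    obtain ⟨hpp, hp5, hp9⟩ := hmemP p hpP
    refine (h.small A p hn0 hpp hp5 hp').trans ?_
    have h2 : Real.log ((A : ℝ) + 2) ≤ 2 * Real.log A := hlog2 _ (by linarith) (by nlinarith)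
    have h3 : (C : ℝ) * A * Real.log (A + 2) ≤ C * A * (2 * Real.log A) :=
      mul_le_mul_of_nonneg_left h2 (by positivity)
    refine h3.trans ?_
    have h6 := Real.sqrt_nonneg (K : ℝ)
    have h7 : (C : ℝ) * A * (2 * Real.log A) = (2 * C) * A * Real.log A := by ring
    rw [h7]
    refine mul_le_mul_of_nonneg_right (mul_le_mul_of_nonneg_right ?_ (by linarith)) hlogA
    rw [hC']
    linarith

end Pool.Agent.T2
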