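import Pool.Agent.QS2.ClsExp
import Pool.Agent.QS2.PrimesA

/-!
# T2: the exponents of the two class rules against linear functions
-/

set_option autoImplicit false

namespace Pool.Agent.T2

open Finset

/-- any quotient gives a lower bound -/
theorem SF_ge {p : ℕ} (hp : 0 < p) (M k : ℕ) :
    2 * (k : ℝ) * M - p * (k : ℝ) * ((k : ℝ) + 1) ≤ 2 * (QS2.SF p M : ℝ) := by
  rw [QS2.SF_exact hp]
  have hp' : (0 : ℝ) < p := by exact_mod_cast hp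
  have h1 : M / p * p ≤ M := Nat.div_mul_le_self M p
  have h2 : M < (M / p + 1) * p := by
    have := Nat.lt_div_mul_add hp (a := M)
    nlinarith
  set q : ℕ := M / p with hq
  have h1' : (q : ℝ) * p ≤ M := by exact_mod_cast h1
  have h2' : (M : ℝ) ≤ ((q : ℝ) + 1) * p := by exact_mod_cast h2.le
  rcases Nat.lt_or_ge q k with h | h
  · have h3 : (q : ℝ) + 1 ≤ k := by exact_mod_cast h
    nlinarith [mul_nonneg (sub_nonneg.mpr h3) (sub_nonneg.mpr h2'),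
      mul_nonneg (mul_nonneg (sub_nonneg.mpr h3) (by linarith : (0 : ℝ) ≤ (k : ℝ) - q)) hp'.le]
  · have h3 : (k : ℝ) ≤ q := by exact_mod_cast h
    have h4 : (k : ℝ) = q ∨ (k : ℝ) + 1 ≤ q := by
      rcases h.eq_or_lt with h5 | h5
      · left; exact_mod_cast h5
      · right; exact_mod_cast h5
    rcases h4 with h4 | h4
    · rw [h4]
    · nlinarith [mul_nonneg (sub_nonneg.mpr h3) (sub_nonneg.mpr h1'),
        mul_nonneg (mul_nonneg (sub_nonneg.mpr h3) (by linarith : (0 : ℝ) ≤ (q : ℝ) - k - 1)) hp'.le]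

/-- the exponent of rule A as a real number -/
theorem eCls_real (A p : ℕ) : (QS2.Cls.eCls A 0 p : ℝ) =
    6 * p + 9 + 2 * ((QS2.SF p A : ℝ) - QS2.SF p (A - (QS2.Cls.dg p + 3))) := by
  have h : QS2.Cls.Sfl p (A - (QS2.Cls.dg p + 3)) ≤ QS2.Cls.Sfl p A :=
    QS2.Cls.Sfl_mono p (Nat.sub_le _ _)
  unfold QS2.Cls.eCls
  simp only [add_zero, Nat.sub_zero]
  push_cast [Nat.cast_sub h]
  change 6 * (p : ℝ) + 9 + (((QS2.SF p A : ℕ) : ℝ) - ((QS2.SF p (A - (QS2.Cls.dg p + 3)) : ℕ) : ℝ)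
    + (((QS2.SF p A : ℕ) : ℝ) - ((QS2.SF p (A - (QS2.Cls.dg p + 3)) : ℕ) : ℝ))) = _
  ring

theorem two_dg {p : ℕ} (hp : p.Prime) (h5 : 5 ≤ p) : 2 * (QS2.Cls.dg p + 3) = 3 * p + 3 := by
  have hodd : p % 2 = 1 := by
    rcases hp.eq_two_or_odd with h | h
    · omega
    · exact h
  unfold QS2.Cls.dg
  omega

/-- the lower bound of the second sum with an arbitrary quotient -/
theorem eCls_le_aux {A p k : ℕ} (hp : p.Prime) (h5 : 5 ≤ p) (h3 : 3 * p ≤ A) (k' : ℕ)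
    (h1 : k * p ≤ A) (h2 : A < (k + 1) * p) :
    (QS2.Cls.eCls A 0 p : ℝ) ≤ 6 * p + 9 + (2 * (k : ℝ) * A - p * k * (k + 1)
      - (2 * (k' : ℝ) * A - k' * (3 * p + 3) - p * k' * (k' + 1))) := by
  have hd := two_dg hp h5
  rw [eCls_real]
  set d := QS2.Cls.dg p + 3 with hdd
  have hdA : d ≤ A := by omega
  have e1 := QS2.SF_of_div (p := p) (M := A) (k := k) h1 h2
  have e2 := SF_ge hp.pos (A - d) k'
  rw [Nat.cast_sub hdA] at e2
  have hdr : 2 * (d : ℝ) = 3 * p + 3 := by exact_mod_cast hd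
  have e3 : 2 * (k' : ℝ) * ((A : ℝ) - d) = 2 * (k' : ℝ) * A - k' * (3 * p + 3) := by
    rw [← hdr]; ring
  rw [e3] at e2
  linarith

/-- first linear piece: `4 A - (k - 2) p` -/
theorem eCls_le_1 {A p k : ℕ} (hp : p.Prime) (h5 : 5 ≤ p) (h3 : 3 * p ≤ A) (hk : 2 ≤ k)
    (h1 : k * p ≤ A) (h2 : A < (k + 1) * p) :
    (QS2.Cls.eCls A 0 p : ℝ) ≤ 4 * A - ((k : ℝ) - 2) * p + 3 * k + 3 := by
  have h := eCls_le_aux hp h5 h3 (k - 2) h1 h2
  rw [Nat.cast_sub hk] at h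
  refine h.trans (le_of_eq ?_)
  push_cast
  ring

/-- second linear piece: `2 A + (k + 3) p` -/
theorem eCls_le_2 {A p k : ℕ} (hp : p.Prime) (h5 : 5 ≤ p) (h3 : 3 * p ≤ A) (hk : 1 ≤ k)
    (h1 : k * p ≤ A) (h2 : A < (k + 1) * p) :
    (QS2.Cls.eCls A 0 p : ℝ) ≤ 2 * A + ((k : ℝ) + 3) * p + 3 * k + 6 := by
  have h := eCls_le_aux hp h5 h3 (k - 1) h1 h2
  rw [Nat.cast_sub hk] at h
  refine h.trans (le_of_eq ?_)
  push_cast
  ring

/-- the parabola -/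
theorem eCls_le_par {A p : ℕ} (hp : p.Prime) (h5 : 5 ≤ p) (h3 : 3 * p ≤ A) :
    (QS2.Cls.eCls A 0 p : ℝ) ≤ 3 * A + 5 / 2 * p + 3 * ((A : ℝ) / p) + 3 := by
  have hd := two_dg hp h5
  rw [eCls_real]
  set d := QS2.Cls.dg p + 3 with hdd
  have hdA : d ≤ A := by omega
  have e1 := QS2.SF_upper hp.pos A
  have e2 := QS2.SF_lower hp.pos (A - d)
  rw [Nat.cast_sub hdA] at e2
  have hdr : (d : ℝ) = (3 * p + 3) / 2 := by
    have : 2 * (d : ℝ) = 3 * p + 3 := by exact_mod_cast hd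
    linarith
  have hpr : (5 : ℝ) ≤ p := by exact_mod_cast h5
  rw [hdr] at e2
  have key : 6 * (p : ℝ) + 9 + 2 * ((A : ℝ) ^ 2 / (2 * p) - A / 2 + p / 8
      - (((A : ℝ) - (3 * p + 3) / 2) ^ 2 / (2 * p) - ((A : ℝ) - (3 * p + 3) / 2) / 2))
      = 3 * A + 5 / 2 * p + 3 * ((A : ℝ) / p) + 3 - 9 / (4 * p) := by
    field_simp
    ring
  have hpos : 0 ≤ 9 / (4 * (p : ℝ)) := by positivity
  linarith

/-- rule B, with the number `N` of the singular nodes -/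
noncomputable def ruleB (A p : ℕ) : ℝ :=
  2 * (QS2.Cls.Sfl p A : ℝ)
    + min (6 * (p : ℝ)) (min ((2 * (A : ℝ) - 2 * p + 3) + 3 * p)
      (min (2 * (2 * (A : ℝ) - 2 * p + 3) + p) (3 * (2 * (A : ℝ) - 2 * p + 3)))) - p

theorem ruleB_1 {A p : ℕ} (h1 : 2 * p ≤ A) (h2 : A < 3 * p) :
    ruleB A p ≤ 4 * A - p := by
  unfold ruleB
  have e1 := QS2.SF_of_div (p := p) (M := A) (k := 2) (by omega) (by omega)
  have e2 : ((QS2.Cls.Sfl p A : ℕ) : ℝ) = QS2.SF p A := rfl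
  have e3 : min (6 * (p : ℝ)) (min ((2 * (A : ℝ) - 2 * p + 3) + 3 * p)
      (min (2 * (2 * (A : ℝ) - 2 * p + 3) + p) (3 * (2 * (A : ℝ) - 2 * p + 3)))) ≤ 6 * (p : ℝ) :=
    min_le_left _ _
  rw [e2]
  push_cast at e1
  linarith

theorem ruleB_2 {A p : ℕ} (h1 : 2 * p ≤ A) (h2 : A < 3 * p) :
    ruleB A p ≤ 6 * A - 6 * p + 3 := by
  unfold ruleB
  have e1 := QS2.SF_of_div (p := p) (M := A) (k := 2) (by omega) (by omega)
  have e2 : ((QS2.Cls.Sfl p A : ℕ) : ℝ) = QS2.SF p A := rfl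
  have e3 : min (6 * (p : ℝ)) (min ((2 * (A : ℝ) - 2 * p + 3) + 3 * p)
      (min (2 * (2 * (A : ℝ) - 2 * p + 3) + p) (3 * (2 * (A : ℝ) - 2 * p + 3))))
      ≤ (2 * (A : ℝ) - 2 * p + 3) + 3 * p :=
    (min_le_right _ _).trans (min_le_left _ _)
  rw [e2]
  push_cast at e1
  linarith

theorem ruleB_3 {A p : ℕ} (h1 : p ≤ A) (h2 : A < 2 * p) :
    ruleB A p ≤ 6 * A - 6 * p + 6 := by
  unfold ruleB
  have e1 := QS2.SF_of_div (p := p) (M := A) (k := 1) (by omega) (by omega)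
  have e2 : ((QS2.Cls.Sfl p A : ℕ) : ℝ) = QS2.SF p A := rfl
  have e3 : min (6 * (p : ℝ)) (min ((2 * (A : ℝ) - 2 * p + 3) + 3 * p)
      (min (2 * (2 * (A : ℝ) - 2 * p + 3) + p) (3 * (2 * (A : ℝ) - 2 * p + 3))))
      ≤ 2 * (2 * (A : ℝ) - 2 * p + 3) + p :=
    (min_le_right _ _).trans ((min_le_right _ _).trans (min_le_left _ _))
  rw [e2]
  push_cast at e1
  linarith

theorem ruleB_4 {A p : ℕ} (h1 : p ≤ A) (h2 : A < 2 * p) :
    ruleB A p ≤ 8 * A - 9 * p + 9 := by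
  unfold ruleB
  have e1 := QS2.SF_of_div (p := p) (M := A) (k := 1) (by omega) (by omega)
  have e2 : ((QS2.Cls.Sfl p A : ℕ) : ℝ) = QS2.SF p A := rfl
  have e3 : min (6 * (p : ℝ)) (min ((2 * (A : ℝ) - 2 * p + 3) + 3 * p)
      (min (2 * (2 * (A : ℝ) - 2 * p + 3) + p) (3 * (2 * (A : ℝ) - 2 * p + 3))))
      ≤ 3 * (2 * (A : ℝ) - 2 * p + 3) :=
    (min_le_right _ _).trans ((min_le_right _ _).trans (min_le_right _ _))
  rw [e2]
  push_cast at e1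
  linarith

theorem ruleB_5 {A p : ℕ} (h1 : A < p) : ruleB A p ≤ (p : ℝ) - 2 * A + 9 := by
  unfold ruleB
  have e1 := QS2.SF_of_div (p := p) (M := A) (k := 0) (by omega) (by omega)
  have e2 : ((QS2.Cls.Sfl p A : ℕ) : ℝ) = QS2.SF p A := rfl
  have e3 : min (6 * (p : ℝ)) (min ((2 * (A : ℝ) - 2 * p + 3) + 3 * p)
      (min (2 * (2 * (A : ℝ) - 2 * p + 3) + p) (3 * (2 * (A : ℝ) - 2 * p + 3))))
      ≤ 3 * (2 * (A : ℝ) - 2 * p + 3) :=
    (min_le_right _ _).trans ((min_le_right _ _).trans (min_le_right _ _))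
  have h : (A : ℝ) ≤ p := by exact_mod_cast h1.le
  rw [e2]
  push_cast at e1
  linarith

end Pool.Agent.T2
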