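import Pool.Agent.QS2.ClsDefs
import Pool.Agent.T2.DetRank

/-!
# T2, prime sum: the counts of rule B

* `sum_eC_le` : `∑ eC (s c) ≤ min(6p, N + 3p, 2N + p, 3N)`, `N = ∑ s c`;
* `sing_card` : the number of singular nodes (`z ≥ p` or `z < -p`) is `2A + 3 - 2p`;
* `pair_card` : the number of pairs is `p - 3` for `p ≤ A + 2`.
-/

set_option autoImplicit false

namespace T2

open Finset QS2

theorem eC_le_add_three (s : ℕ) : eC s ≤ s + 3 := by
  unfold eC; split_ifs <;> omega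

theorem eC_le_two_mul (s : ℕ) : eC s ≤ 2 * s + 1 := by
  unfold eC; split_ifs <;> omega

theorem sum_eC_le (p : ℕ) (s : ℕ → ℕ) :
    ∑ c ∈ range p, eC (s c) ≤ 6 * p ∧
    ∑ c ∈ range p, eC (s c) ≤ (∑ c ∈ range p, s c) + 3 * p ∧
    ∑ c ∈ range p, eC (s c) ≤ 2 * (∑ c ∈ range p, s c) + p ∧
    ∑ c ∈ range p, eC (s c) ≤ 3 * (∑ c ∈ range p, s c) := by
  refine ⟨?_, ?_, ?_, ?_⟩
  · refine (sum_le_sum fun c _ => eC_le_six (s c)).trans ?_
    simp [mul_comm]
  · refine (sum_le_sum fun c _ => eC_le_add_three (s c)).trans ?_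
    rw [sum_add_distrib]
    simp [mul_comm]
  · refine (sum_le_sum fun c _ => eC_le_two_mul (s c)).trans ?_
    rw [sum_add_distrib, mul_sum]
    simp
  · refine (sum_le_sum fun c _ => eC_le_mul (s c)).trans ?_
    rw [mul_sum]

/-- the number of singular nodes, `p ≤ A + 2` -/
theorem sing_card {A p : ℕ} (hp : 2 ≤ p) :
    ((univ : Finset (Nd A)).filter
      (fun f => (p : ℤ) ≤ nodeZ A f ∨ nodeZ A f < -(p : ℤ))).card = (A + 1 - p) + (A + 2 - p) := by
  rw [card_filter, Fintype.sum_sum_type]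
  congr 1
  · have h1 : ∀ i : Fin A, (if (p : ℤ) ≤ nodeZ A (Sum.inl i) ∨ nodeZ A (Sum.inl i) < -(p : ℤ)
        then 1 else 0) = (fun i : ℕ => if p ≤ i + 1 then 1 else 0) (i : ℕ) := by
      intro i
      simp only [nodeZ]
      congr 1
      simp only [eq_iff_iff]
      omega
    rw [sum_congr rfl fun i _ => h1 i, Fin.sum_univ_eq_sum_range
      (fun i : ℕ => if p ≤ i + 1 then 1 else 0) A, ← card_filter]
    have : (range A).filter (fun i => p ≤ i + 1) = Ico (p - 1) A := by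
      ext i
      simp only [mem_filter, mem_range, mem_Ico]
      omega
    rw [this, Nat.card_Ico]
    omega
  · have h1 : ∀ i : Fin A, (if (p : ℤ) ≤ nodeZ A (Sum.inr i) ∨ nodeZ A (Sum.inr i) < -(p : ℤ)
        then 1 else 0) = (fun i : ℕ => if p < i + 3 then 1 else 0) (i : ℕ) := by
      intro i
      simp only [nodeZ]
      congr 1
      simp only [eq_iff_iff]
      omega
    rw [sum_congr rfl fun i _ => h1 i, Fin.sum_univ_eq_sum_range
      (fun i : ℕ => if p < i + 3 then 1 else 0) A, ← card_filter]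
    have : (range A).filter (fun i => p < i + 3) = Ico (p - 2) A := by
      ext i
      simp only [mem_filter, mem_range, mem_Ico]
      omega
    rw [this, Nat.card_Ico]
    omega

/-- sorting the singular nodes by classes -/
theorem sum_sing (A : ℕ) {p : ℕ} (hp : 0 < p) :
    ∑ c ∈ range p, ((univ : Finset (Nd A)).filter
      (fun f => nodeZ A f % (p : ℤ) = (c : ℤ) ∧
        ((p : ℤ) ≤ nodeZ A f ∨ nodeZ A f < -(p : ℤ)))).card =
    ((univ : Finset (Nd A)).filter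
      (fun f => (p : ℤ) ≤ nodeZ A f ∨ nodeZ A f < -(p : ℤ))).card := by
  have hpz : (0 : ℤ) < p := by exact_mod_cast hp
  rw [card_eq_sum_card_fiberwise (f := fun f : Nd A => (nodeZ A f % (p : ℤ)).toNat)
    (t := range p)]
  · refine sum_congr rfl fun c hc => ?_
    rw [filter_filter]
    congr 1
    ext f
    simp only [mem_filter, mem_univ, true_and]
    have h0 : 0 ≤ nodeZ A f % (p : ℤ) := Int.emod_nonneg _ hpz.ne'
    constructor
    · rintro ⟨h1, h2⟩
      exact ⟨h2, by omega⟩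
    · rintro ⟨h1, h2⟩
      exact ⟨by omega, h1⟩
  · intro f _
    have h0 : 0 ≤ nodeZ A f % (p : ℤ) := Int.emod_nonneg _ hpz.ne'
    have h1 : nodeZ A f % (p : ℤ) < p := Int.emod_lt_of_pos _ hpz
    simp only [coe_range, Set.mem_Iio]
    omega

/-- the number of pairs, `p ≤ A + 2` -/
theorem pair_card {A p : ℕ} (h : p ≤ A + 2) :
    p - 3 ≤ ((univ : Finset (Nd A)).filter
      (fun f => 1 ≤ nodeZ A f ∧ nodeZ A f ≤ (p : ℤ) - 3 ∧
        ∃ g : Nd A, nodeZ A g = nodeZ A f - (p : ℤ))).card := by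
  have hinj : Function.Injective (fun i : Fin (p - 3) =>
      (Sum.inl ⟨(i : ℕ), by have := i.2; omega⟩ : Nd A)) := by
    intro i j hij
    have := Sum.inl_injective hij
    have h2 := congrArg Fin.val this
    exact Fin.ext h2
  have h1 : ((univ : Finset (Fin (p - 3))).image (fun i : Fin (p - 3) =>
      (Sum.inl ⟨(i : ℕ), by have := i.2; omega⟩ : Nd A))) ⊆ ((univ : Finset (Nd A)).filter
      (fun f => 1 ≤ nodeZ A f ∧ nodeZ A f ≤ (p : ℤ) - 3 ∧
        ∃ g : Nd A, nodeZ A g = nodeZ A f - (p : ℤ))) := by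
    intro f hf
    rw [mem_image] at hf
    obtain ⟨i, _, rfl⟩ := hf
    have hi := i.2
    rw [mem_filter]
    refine ⟨mem_univ _, ?_, ?_, ?_⟩
    · simp only [nodeZ]; omega
    · simp only [nodeZ]; omega
    · refine ⟨Sum.inr ⟨p - 4 - (i : ℕ), by omega⟩, ?_⟩
      simp only [nodeZ]
      omega
  have h2 := card_le_card h1
  rw [card_image_of_injective _ hinj, card_univ, Fintype.card_fin] at h2
  exact h2

/-- the count of rule B, real form -/
theorem ruleB_count {A p nb : ℕ} (s : ℕ → ℕ) (hs : ∑ c ∈ range p, s c = (A + 1 - p) + (A + 2 - p))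
    (hp : 3 ≤ p) (h : p ≤ A + 2) (hn : p - 3 ≤ nb) (S : ℕ) :
    ((2 * S + 9 + ∑ c ∈ range p, eC (s c) : ℕ) : ℝ) - (nb : ℝ) ≤
      2 * (S : ℝ) + min (6 * (p : ℝ)) (min ((2 * (A : ℝ) - 2 * p + 3) + 3 * p)
        (min (2 * (2 * (A : ℝ) - 2 * p + 3) + p) (3 * (2 * (A : ℝ) - 2 * p + 3)))) - p + 20 := by
  obtain ⟨h1, h2, h3, h4⟩ := sum_eC_le p s
  rw [hs] at h2 h3 h4
  set E := ∑ c ∈ range p, eC (s c) with hE
  have hnb : (p : ℝ) ≤ (nb : ℝ) + 3 := by
    have : p ≤ nb + 3 := by omega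
    exact_mod_cast this
  have hN : (((A + 1 - p) + (A + 2 - p) : ℕ) : ℝ) ≤ 2 * (A : ℝ) - 2 * p + 3 + 1 := by
    have : (A + 1 - p) + (A + 2 - p) + 2 * p ≤ 2 * A + 4 := by omega
    have h' : ((((A + 1 - p) + (A + 2 - p) + 2 * p : ℕ)) : ℝ) ≤ ((2 * A + 4 : ℕ) : ℝ) := by
      exact_mod_cast this
    push_cast at h' ⊢
    linarith
  have e1 : (E : ℝ) ≤ 6 * (p : ℝ) := by exact_mod_cast h1
  have e2 : (E : ℝ) ≤ (((A + 1 - p) + (A + 2 - p) : ℕ) : ℝ) + 3 * (p : ℝ) := by exact_mod_cast h2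
  have e3 : (E : ℝ) ≤ 2 * (((A + 1 - p) + (A + 2 - p) : ℕ) : ℝ) + (p : ℝ) := by exact_mod_cast h3
  have e4 : (E : ℝ) ≤ 3 * (((A + 1 - p) + (A + 2 - p) : ℕ) : ℝ) := by exact_mod_cast h4
  have hmin : (E : ℝ) - 3 ≤ min (6 * (p : ℝ)) (min ((2 * (A : ℝ) - 2 * p + 3) + 3 * p)
        (min (2 * (2 * (A : ℝ) - 2 * p + 3) + p) (3 * (2 * (A : ℝ) - 2 * p + 3)))) := by
    refine le_min ?_ (le_min ?_ (le_min ?_ ?_)) <;> linarith
  push_cast
  linarith

end T2
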