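import Pool.Agent.T2.RDefs
import Pool.Agent.T2.Decouple

set_option autoImplicit false

/-!
# T2, module R6: the reflection lemma for the rows `vrow` (helper67)
-/

namespace T2

open Complex

/-- **R6**: reflection lemma. -/
theorem refl_det {c : ℕ} (t : Fin c → ℂ) (hinj : Function.Injective t)
    (hre : ∀ j, 0 < (t j).re) {r : ℂ → ℂ} {ρ κ : ℝ} (hr : ∀ s : ℂ, 0 ≤ s.re → ‖r s‖ ≤ ρ)
    (hd : DiffContOnCl ℂ r {s : ℂ | 0 < s.re})
    (hκ : ∀ y : ℝ, ∏ j, ‖I * y - t j‖ ≤ κ * ∏ j, ‖I * y + t j‖) (σ : ℂ)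
    (hσ : σ = 1 ∨ σ = -1) :
    ‖(Matrix.of fun j i => vrow c r σ (t j) i).det‖
      ≤ (1 + ρ * κ) ^ c * ∏ i, ∏ j ∈ Finset.Ioi i, ‖t j - t i‖ :=
  Dec.refl_det' t hinj hre hr hd hκ σ (by rcases hσ with h | h <;> simp [h])

/-- **R6** for a family of nodes and lattice points: `kappa = (c + 1) ^ 2`.
`lab i = none` for a real point, `lab i = some (j, b)` for a point with real part at least
`j + 1 / 2` and imaginary part at most `1 / 4`; every label is used at most once. -/
theorem refl_det_lab {c : ℕ} (t : Fin c → ℂ) (hinj : Function.Injective t)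
    (hre : ∀ j, 0 < (t j).re) {r : ℂ → ℂ} (hr : RFun r)
    (lab : Fin c → Option (ℕ × Bool))
    (hlab : ∀ i i' p, lab i = some p → lab i' = some p → i = i')
    (h0 : ∀ i, lab i = none → (t i).im = 0)
    (h1 : ∀ i (j : ℕ) b, lab i = some (j, b) → (j : ℝ) + 1 / 2 ≤ (t i).re ∧ |(t i).im| ≤ 1 / 4)
    (σ : ℂ) (hσ : σ = 1 ∨ σ = -1) :
    ‖(Matrix.of fun j i => vrow c r σ (t j) i).det‖
      ≤ (1 + 3 / 100 * ((c : ℝ) + 1) ^ 2) ^ c * ∏ i, ∏ j ∈ Finset.Ioi i, ‖t j - t i‖ :=
  Dec.refl_det_lab t hinj hre hr.bound hr.diff lab hlab h0 h1 σ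
    (by rcases hσ with h | h <;> simp [h])

/-- The points of module R7: nodes `N n` (real) and poles `j + 1/2 ± i y0`. -/
noncomputable def ptR {α : Type*} (N : α → ℝ) (y0 : ℝ) {J : ℕ} : α ⊕ (Fin J × Bool) → ℂ
  | Sum.inl n => (N n : ℂ)
  | Sum.inr p => ((p.1 : ℕ) : ℂ) + 1 / 2 + (if p.2 then (y0 : ℂ) else -(y0 : ℂ)) * I

/-- **R6** in the form used by R7. -/
theorem refl_det_pt {c J : ℕ} {α : Type*} (N : α → ℝ) (hN : ∀ n, 0 < N n)
    (hNinj : Function.Injective N) (y0 : ℝ) (hy0 : 0 < y0) (hy1 : y0 ≤ 1 / 4)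
    {r : ℂ → ℂ} (hr : RFun r) (t : Fin c ↪ α ⊕ (Fin J × Bool)) (σ : ℂ) (hσ : σ = 1 ∨ σ = -1) :
    ‖(Matrix.of fun j i => vrow c r σ (ptR N y0 (t j)) i).det‖
      ≤ (1 + 3 / 100 * ((c : ℝ) + 1) ^ 2) ^ c
        * ∏ i, ∏ j ∈ Finset.Ioi i, ‖ptR N y0 (t j) - ptR N y0 (t i)‖ := by
  have him : ∀ p : Fin J × Bool, (ptR N y0 (Sum.inr p)).im = if p.2 then y0 else -y0 := by
    intro p
    simp only [ptR]
    split_ifs <;> simp
  have hre' : ∀ p : Fin J × Bool, (ptR N y0 (Sum.inr p)).re = ((p.1 : ℕ) : ℝ) + 1 / 2 := by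
    intro p
    simp only [ptR]
    split_ifs <;> simp
  have hinj : Function.Injective (ptR (J := J) N y0) := by
    intro x x' h
    rcases x with n | p <;> rcases x' with n' | p'
    · have := congrArg Complex.re h
      simp only [ptR, Complex.ofReal_re] at this
      rw [hNinj this]
    · have := congrArg Complex.im h
      rw [him] at this
      simp only [ptR, Complex.ofReal_im] at this
      split_ifs at this <;> linarith
    · have := congrArg Complex.im h
      rw [him] at this
      simp only [ptR, Complex.ofReal_im] at this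
      split_ifs at this <;> linarith
    · have h1 := congrArg Complex.im h
      have h2 := congrArg Complex.re h
      rw [him, him] at h1
      rw [hre', hre'] at h2
      have h3 : p.1 = p'.1 := by
        apply Fin.ext
        have : ((p.1 : ℕ) : ℝ) = ((p'.1 : ℕ) : ℝ) := by linarith
        exact_mod_cast this
      have h4 : p.2 = p'.2 := by
        rcases hb : p.2 with _ | _ <;> rcases hb' : p'.2 with _ | _ <;> simp [hb, hb'] at h1 ⊢ <;>
          linarith
      rw [Prod.ext h3 h4]
  refine refl_det_lab (fun j => ptR N y0 (t j)) (fun j j' h => t.injective (hinj h)) ?_ hr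
    (fun j => match t j with
      | Sum.inl _ => none
      | Sum.inr p => some ((p.1 : ℕ), p.2)) ?_ ?_ ?_ σ hσ
  · intro j
    rcases t j with n | p
    · simpa [ptR] using hN n
    · rw [hre']
      positivity
  · intro i i' p hi hi'
    rcases hti : t i with n | q
    · rw [hti] at hi
      simp at hi
    · rcases hti' : t i' with n' | q'
      · rw [hti'] at hi'
        simp at hi'
      · rw [hti] at hi
        rw [hti'] at hi'
        simp only [Option.some.injEq] at hi hi'
        apply t.injective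
        rw [hti, hti']
        have h1 := hi.trans hi'.symm
        have h2 : q.1 = q'.1 := Fin.ext (congrArg (fun x : ℕ × Bool => x.1) h1)
        have h3 : q.2 = q'.2 := congrArg (fun x : ℕ × Bool => x.2) h1
        rw [Prod.ext h2 h3]
  · intro i hi
    rcases hti : t i with n | q
    · simp [ptR]
    · simp only [hti] at hi
      simp at hi
  · intro i j b hi
    rcases hti : t i with n | q
    · simp only [hti] at hi
      simp at hi
    · simp only [hti, Option.some.injEq, Prod.mk.injEq] at hi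
      rw [hre', him]
      refine ⟨by rw [hi.1], ?_⟩
      split_ifs
      · rw [abs_of_pos hy0]; exact hy1
      · rw [abs_neg, abs_of_pos hy0]; exact hy1

end T2
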