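import Pool.Agent.Subspace.Compound
import Pool.Agent.T2.CauHad

/-!
# T2, real side, module R7: the abstract expansion of the block determinant
-/

set_option autoImplicit false

namespace T2

open Finset Matrix

/-! ### Cauchy-Binet in norm form -/

theorem sum_emb_le_prod {c d : ℕ} (y : Fin d → ℝ) (hy : ∀ i, 0 ≤ y i) :
    ∑ L : Fin c ↪o Fin d, ∏ j, y (L j) ≤ ∏ i, (1 + y i) := by
  classical
  rw [Finset.prod_one_add]
  have h2 : ∀ L : Fin c ↪o Fin d, ∏ j, y (L j) = ∏ i ∈ univ.map L.toEmbedding, y i := by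
    intro L
    rw [Finset.prod_map]
    rfl
  have hinj : Set.InjOn (fun L : Fin c ↪o Fin d => (univ : Finset (Fin c)).map L.toEmbedding)
      (univ : Finset (Fin c ↪o Fin d)) := by
    intro L _ L' _ h
    apply DFunLike.coe_injective
    have h' : Set.range L = Set.range L' := by
      have := congrArg (fun s : Finset (Fin d) => (s : Set (Fin d))) h
      simpa using this
    exact (L.strictMono.range_inj L'.strictMono).1 h'
  rw [Finset.sum_congr rfl fun L _ => h2 L]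
  rw [← Finset.sum_image (f := fun T : Finset (Fin d) => ∏ i ∈ T, y i) hinj]
  refine Finset.sum_le_sum_of_subset_of_nonneg ?_ ?_
  · intro T hT
    simp
  · intro T _ _
    exact Finset.prod_nonneg fun i _ => hy i

theorem norm_det_mul_le {c : ℕ} {E : Type*} [Fintype E] (K : Matrix (Fin c) E ℂ)
    (V : Matrix E (Fin c) ℂ) (x : E → ℝ) (hx : ∀ e, 0 ≤ x e) (C : ℝ) (hC : 0 ≤ C)
    (h : ∀ L : Fin c ↪ E, ‖(K.submatrix id L).det‖ * ‖(V.submatrix L id).det‖ ≤
      C * ∏ j, x (L j)) :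
    ‖(K * V).det‖ ≤ C * ∏ e, (1 + x e) := by
  classical
  set φ := (Fintype.equivFin E).symm with hφ
  have h1 : K * V = (K.submatrix id φ) * (V.submatrix φ id) := by
    rw [Matrix.submatrix_mul_equiv K V id φ id, Matrix.submatrix_id_id]
  rw [h1, SST.det_mul_rect]
  refine (norm_sum_le _ _).trans ?_
  have h2 : ∀ L : Fin c ↪o Fin (Fintype.card E),
      ‖((K.submatrix id φ).submatrix id L).det * ((V.submatrix φ id).submatrix L id).det‖ ≤
        C * ∏ j, x (φ (L j)) := by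
    intro L
    rw [norm_mul]
    exact h ⟨fun j => φ (L j), fun i j hij => L.injective (φ.injective hij)⟩
  refine (Finset.sum_le_sum fun L _ => h2 L).trans ?_
  rw [← Finset.mul_sum]
  refine mul_le_mul_of_nonneg_left ?_ hC
  refine (sum_emb_le_prod (fun i => x (φ i)) fun i => hx _).trans (le_of_eq ?_)
  exact Equiv.prod_comp φ (fun e => 1 + x e)

/-! ### Rows that are sums over types -/

theorem det_sum_types {c : ℕ} (g : Fin c → Fin 3 → Fin c → ℂ) :
    (Matrix.of fun n i => ∑ k, g n k i).det =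
      ∑ τ : Fin c → Fin 3, (Matrix.of fun n i => g n (τ n) i).det := by
  classical
  have h := (Matrix.detRowAlternating (n := Fin c) (R := ℂ)).toMultilinearMap.map_sum
    (fun n k => g n k)
  have e1 : (Matrix.of fun n i => ∑ k, g n k i) = fun n => ∑ k, g n k := by
    ext n i
    simp
  rw [e1]
  exact h

/-! ### The coefficient matrices -/

/-- The coefficient matrix with row types `τ` (`0`: own node, `1`: poles, type a, `2`: poles,
type b). -/
noncomputable def Kmat {c : ℕ} {ι : Type*} (N : Fin c → ℂ) (s : ι → ℂ) (ν a b : Fin c → ℂ)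
    (a' b' : ι → ℂ) (τ : Fin c → Fin 3) : Matrix (Fin c) (Fin c ⊕ ι ⊕ ι) ℂ := fun n e =>
  match e with
  | Sum.inl n' => if τ n = 0 ∧ n = n' then ν n else 0
  | Sum.inr (Sum.inl e) => if τ n = 1 then a n * a' e / (N n ^ 2 - s e ^ 2) else 0
  | Sum.inr (Sum.inr e) => if τ n = 2 then b n * b' e / (N n ^ 2 - s e ^ 2) else 0

/-- the weights of the columns -/
noncomputable def wcol {c : ℕ} {ι : Type*} (wn : Fin c → ℝ) (ws : ι → ℝ) :
    Fin c ⊕ ι ⊕ ι → ℝ
  | Sum.inl n => wn n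
  | Sum.inr (Sum.inl e) => ws e
  | Sum.inr (Sum.inr e) => ws e

section Block

variable {c : ℕ} {ι : Type*} (N : Fin c → ℂ) (s : ι → ℂ) (ν a b : Fin c → ℂ)
    (a' b' : ι → ℂ) (τ : Fin c → Fin 3)

theorem Kmat_ne {i : Fin c} {e : Fin c ⊕ ι ⊕ ι} (h : Kmat N s ν a b a' b' τ i e ≠ 0) :
    (τ i = 0 ∧ e = Sum.inl i) ∨ (τ i = 1 ∧ ∃ e', e = Sum.inr (Sum.inl e')) ∨
      (τ i = 2 ∧ ∃ e', e = Sum.inr (Sum.inr e')) := by
  rcases e with n | e | e
  · simp only [Kmat, ne_eq, ite_eq_right_iff, Classical.not_imp] at h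
    left
    exact ⟨h.1.1, by rw [h.1.2]⟩
  · simp only [Kmat, ne_eq, ite_eq_right_iff, Classical.not_imp] at h
    right; left
    exact ⟨h.1, e, rfl⟩
  · simp only [Kmat, ne_eq, ite_eq_right_iff, Classical.not_imp] at h
    right; right
    exact ⟨h.1, e, rfl⟩

/-- A block with entries `a_i a'_j / (N_i² - s_j²)`. -/
theorem block_le {κ : Type} [Fintype κ] [DecidableEq κ] (i : κ → Fin c) (e : κ → ι)
    (M : Matrix κ κ ℂ) (hM : ∀ p q, M p q = a (i p) * a' (e q) / (N (i p) ^ 2 - s (e q) ^ 2))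
    {Ka CC : ℝ} (hKa : 0 ≤ Ka) (ha : ∀ n, ‖a n‖ ≤ Ka) {ws : ι → ℝ} (ha' : ∀ e, ‖a' e‖ ≤ ws e)
    {hN : Fin c → ℝ} {hs : ι → ℝ}
    (hC : ‖(Matrix.of fun p q : κ => 1 / (N (i p) ^ 2 - s (e q) ^ 2)).det‖ ≤
      CC * (∏ p, hN (i p)) * ∏ q, (hs (e q))⁻¹) :
    ‖M.det‖ ≤ CC * ∏ p, (Ka * (hN (i p) * (ws (e p) / hs (e p)))) := by
  have h1 : M = Matrix.of fun p q => a (i p) * (a' (e q) *
      (Matrix.of fun p q : κ => 1 / (N (i p) ^ 2 - s (e q) ^ 2)) p q) := by
    ext p q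
    rw [hM]
    simp only [Matrix.of_apply]
    ring
  have h2 : M.det = (∏ p, a (i p)) * ((∏ q, a' (e q)) *
      (Matrix.of fun p q : κ => 1 / (N (i p) ^ 2 - s (e q) ^ 2)).det) := by
    rw [h1]
    have e1 := Matrix.det_mul_column (fun p => a (i p)) (Matrix.of fun p q => (a' (e q) *
      (Matrix.of fun p q : κ => 1 / (N (i p) ^ 2 - s (e q) ^ 2)) p q))
    have e2 := Matrix.det_mul_row (fun q => a' (e q))
      (Matrix.of fun p q : κ => 1 / (N (i p) ^ 2 - s (e q) ^ 2))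
    rw [← e2, ← e1]
    rfl
  rw [h2, norm_mul, norm_mul, norm_prod, norm_prod]
  have h3 : ∏ p, ‖a (i p)‖ ≤ ∏ _p : κ, Ka :=
    Finset.prod_le_prod (fun _ _ => norm_nonneg _) fun p _ => ha (i p)
  have h4 : ∏ q, ‖a' (e q)‖ ≤ ∏ q, ws (e q) :=
    Finset.prod_le_prod (fun _ _ => norm_nonneg _) fun q _ => ha' (e q)
  have hws : ∀ e, 0 ≤ ws e := fun e => (norm_nonneg _).trans (ha' e)
  calc (∏ p, ‖a (i p)‖) * ((∏ q, ‖a' (e q)‖) *
        ‖(Matrix.of fun p q : κ => 1 / (N (i p) ^ 2 - s (e q) ^ 2)).det‖)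
      ≤ (∏ _p : κ, Ka) * ((∏ q, ws (e q)) * (CC * (∏ p, hN (i p)) * ∏ q, (hs (e q))⁻¹)) := by
        refine mul_le_mul h3 (mul_le_mul h4 hC (norm_nonneg _)
          (Finset.prod_nonneg fun q _ => hws _)) (by positivity)
          (Finset.prod_nonneg fun q _ => hKa)
    _ = CC * ∏ p, (Ka * (hN (i p) * (ws (e p) / hs (e p)))) := by
        rw [Finset.prod_mul_distrib, Finset.prod_mul_distrib]
        simp only [div_eq_mul_inv]
        rw [Finset.prod_mul_distrib]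
        ring

theorem det_Kmat_le [DecidableEq ι] {Ka CC : ℝ} (hKa : 1 ≤ Ka) (ha : ∀ n, ‖a n‖ ≤ Ka)
    (hb : ∀ n, ‖b n‖ ≤ Ka) {wn : Fin c → ℝ} {ws : ι → ℝ} (hν : ∀ n, ‖ν n‖ ≤ wn n)
    (ha' : ∀ e, ‖a' e‖ ≤ ws e) (hb' : ∀ e, ‖b' e‖ ≤ ws e)
    {hN : Fin c → ℝ} {hs : ι → ℝ} (hCC : 0 ≤ CC) (hN0 : ∀ n, 0 < hN n) (hs0 : ∀ e, 0 < hs e)
    (hC : ∀ (κ : Type) [Fintype κ] [DecidableEq κ] (i : κ → Fin c) (e : κ → ι),
      Function.Injective i →
      ‖(Matrix.of fun p q : κ => 1 / (N (i p) ^ 2 - s (e q) ^ 2)).det‖ ≤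
      CC * (∏ p, hN (i p)) * ∏ q, (hs (e q))⁻¹)
    (L : Fin c → Fin c ⊕ ι ⊕ ι) :
    ‖((Kmat N s ν a b a' b' τ).submatrix id L).det‖ ≤
      CC ^ 2 * Ka ^ c * (∏ n, hN n) *
        ∏ j, wcol (fun n => wn n / hN n) (fun e => ws e / hs e) (L j) := by
  have hws : ∀ e, 0 ≤ ws e := fun e => (norm_nonneg _).trans (ha' e)
  have hwn : ∀ n, 0 ≤ wn n := fun n => (norm_nonneg _).trans (hν n)
  have hwc : ∀ e, 0 ≤ wcol (fun n => wn n / hN n) (fun e => ws e / hs e) e := by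
    intro e
    rcases e with n | e | e
    · exact div_nonneg (hwn n) (hN0 n).le
    · exact div_nonneg (hws e) (hs0 e).le
    · exact div_nonneg (hws e) (hs0 e).le
  by_cases hdet : ((Kmat N s ν a b a' b' τ).submatrix id L).det = 0
  · rw [hdet, norm_zero]
    have h1 : 0 ≤ ∏ n, hN n := Finset.prod_nonneg fun n _ => (hN0 n).le
    have h2 : 0 ≤ ∏ j, wcol (fun n => wn n / hN n) (fun e => ws e / hs e) (L j) :=
      Finset.prod_nonneg fun j _ => hwc _
    positivity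
  -- a permutation with nonzero product
  obtain ⟨σ, hσ⟩ : ∃ σ : Equiv.Perm (Fin c), ∀ i,
      Kmat N s ν a b a' b' τ (σ i) (L i) ≠ 0 := by
    rw [Matrix.det_apply] at hdet
    obtain ⟨σ, _, hσ⟩ := Finset.exists_ne_zero_of_sum_ne_zero hdet
    refine ⟨σ, fun i h0 => hσ ?_⟩
    have : ∏ i, ((Kmat N s ν a b a' b' τ).submatrix id L) (σ i) i = 0 :=
      Finset.prod_eq_zero (Finset.mem_univ i) (by simpa using h0)
    rw [this, smul_zero]
  set L' : Fin c → Fin c ⊕ ι ⊕ ι := fun j => L (σ.symm j) with hL'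
  have hL'ne : ∀ i, Kmat N s ν a b a' b' τ i (L' i) ≠ 0 := by
    intro i
    have := hσ (σ.symm i)
    rwa [Equiv.apply_symm_apply] at this
  have hdet' : ‖((Kmat N s ν a b a' b' τ).submatrix id L).det‖ =
      ‖((Kmat N s ν a b a' b' τ).submatrix id L').det‖ := by
    have h1 : (Kmat N s ν a b a' b' τ).submatrix id L' =
        ((Kmat N s ν a b a' b' τ).submatrix id L).submatrix id σ.symm := rfl
    rw [h1, Matrix.det_permute', norm_mul]
    have h2 : ‖((Equiv.Perm.sign σ.symm : ℤ) : ℂ)‖ = 1 := by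
      rcases Int.units_eq_one_or (Equiv.Perm.sign σ.symm) with h | h <;> simp [h]
    rw [h2, one_mul]
  have hprod : ∏ j, wcol (fun n => wn n / hN n) (fun e => ws e / hs e) (L j) =
      ∏ j, wcol (fun n => wn n / hN n) (fun e => ws e / hs e) (L' j) :=
    (Equiv.prod_comp σ.symm
      (fun j => wcol (fun n => wn n / hN n) (fun e => ws e / hs e) (L j))).symm
  rw [hdet', hprod]
  have h0 : ∀ i, τ i = 0 → L' i = Sum.inl i := by
    intro i hi
    rcases Kmat_ne N s ν a b a' b' τ (hL'ne i) with h | h | h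
    · exact h.2
    · rw [h.1] at hi; exact absurd hi (by decide)
    · rw [h.1] at hi; exact absurd hi (by decide)
  have h1 : ∀ i, τ i = 1 → ∃ e, L' i = Sum.inr (Sum.inl e) := by
    intro i hi
    rcases Kmat_ne N s ν a b a' b' τ (hL'ne i) with h | h | h
    · rw [h.1] at hi; exact absurd hi (by decide)
    · exact h.2
    · rw [h.1] at hi; exact absurd hi (by decide)
  have h2 : ∀ i, τ i = 2 → ∃ e, L' i = Sum.inr (Sum.inr e) := by
    intro i hi
    rcases Kmat_ne N s ν a b a' b' τ (hL'ne i) with h | h | h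
    · rw [h.1] at hi; exact absurd hi (by decide)
    · rw [h.1] at hi; exact absurd hi (by decide)
    · exact h.2
  set M := (Kmat N s ν a b a' b' τ).submatrix id L' with hM
  have hMz : ∀ i j, M i j ≠ 0 → τ i = τ j := by
    intro i j hij
    have hij' : Kmat N s ν a b a' b' τ i (L' j) ≠ 0 := hij
    rcases Kmat_ne N s ν a b a' b' τ (hL'ne j) with h | h | h
    · rcases Kmat_ne N s ν a b a' b' τ hij' with h' | h' | h'
      · rw [h.1, h'.1]
      · obtain ⟨e, he⟩ := h'.2; rw [h.2] at he; simp at he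
      · obtain ⟨e, he⟩ := h'.2; rw [h.2] at he; simp at he
    · obtain ⟨e, he⟩ := h.2
      rcases Kmat_ne N s ν a b a' b' τ hij' with h' | h' | h'
      · rw [he] at h'; simp at h'
      · rw [h.1, h'.1]
      · obtain ⟨e', he'⟩ := h'.2; rw [he] at he'; simp at he'
    · obtain ⟨e, he⟩ := h.2
      rcases Kmat_ne N s ν a b a' b' τ hij' with h' | h' | h'
      · rw [he] at h'; simp at h'
      · obtain ⟨e', he'⟩ := h'.2; rw [he] at he'; simp at he'
      · rw [h.1, h'.1]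
  have hBT : M.BlockTriangular τ := by
    intro i j hij
    by_contra hne
    exact absurd (hMz i j hne) (ne_of_gt hij)
  rw [Matrix.BlockTriangular.det_fintype hBT, Fin.prod_univ_three, norm_mul, norm_mul]
  -- the bound of every block
  choose e1 he1 using fun i : {i // τ i = 1} => h1 i.1 i.2
  choose e2 he2 using fun i : {i // τ i = 2} => h2 i.1 i.2
  have B0 : ‖(M.toSquareBlock τ 0).det‖ ≤ ∏ p : {i // τ i = 0}, (Ka * (hN p *
      wcol (fun n => wn n / hN n) (fun e => ws e / hs e) (L' p))) := by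
    have hd : M.toSquareBlock τ 0 = Matrix.diagonal fun p : {i // τ i = 0} => ν p := by
      ext p q
      have hq := h0 q.1 q.2
      have : M.toSquareBlock τ 0 p q = Kmat N s ν a b a' b' τ p.1 (L' q.1) := rfl
      rw [this, hq]
      simp only [Kmat, p.2, true_and, Matrix.diagonal_apply, Subtype.ext_iff]
    rw [hd, Matrix.det_diagonal, norm_prod]
    refine Finset.prod_le_prod (fun _ _ => norm_nonneg _) fun p _ => ?_
    rw [h0 p.1 p.2]
    simp only [wcol]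
    rw [mul_div_cancel₀ _ (hN0 p.1).ne']
    calc ‖ν p.1‖ ≤ wn p.1 := hν _
      _ = 1 * wn p.1 := (one_mul _).symm
      _ ≤ Ka * wn p.1 := mul_le_mul_of_nonneg_right hKa (hwn _)
  have B1 : ‖(M.toSquareBlock τ 1).det‖ ≤ CC * ∏ p : {i // τ i = 1}, (Ka * (hN p *
      wcol (fun n => wn n / hN n) (fun e => ws e / hs e) (L' p))) := by
    have := block_le N s a a' (fun p : {i // τ i = 1} => p.1) e1 (M.toSquareBlock τ 1) (by
      intro p q
      have h : M.toSquareBlock τ 1 p q = Kmat N s ν a b a' b' τ p.1 (L' q.1) := rfl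
      rw [h, he1 q]
      simp only [Kmat, p.2, if_true]) (zero_le_one.trans hKa) ha ha'
      (hC _ _ _ Subtype.val_injective)
    refine this.trans (le_of_eq ?_)
    congr 1
    refine Finset.prod_congr rfl fun p _ => ?_
    rw [he1 p]
    rfl
  have B2 : ‖(M.toSquareBlock τ 2).det‖ ≤ CC * ∏ p : {i // τ i = 2}, (Ka * (hN p *
      wcol (fun n => wn n / hN n) (fun e => ws e / hs e) (L' p))) := by
    have := block_le N s b b' (fun p : {i // τ i = 2} => p.1) e2 (M.toSquareBlock τ 2) (by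
      intro p q
      have h : M.toSquareBlock τ 2 p q = Kmat N s ν a b a' b' τ p.1 (L' q.1) := rfl
      rw [h, he2 q]
      simp only [Kmat, p.2, if_true]) (zero_le_one.trans hKa) hb hb'
      (hC _ _ _ Subtype.val_injective)
    refine this.trans (le_of_eq ?_)
    congr 1
    refine Finset.prod_congr rfl fun p _ => ?_
    rw [he2 p]
    rfl
  have hnn : ∀ p : Fin c, 0 ≤ Ka * (hN p *
      wcol (fun n => wn n / hN n) (fun e => ws e / hs e) (L' p)) := fun p =>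
    mul_nonneg (zero_le_one.trans hKa) (mul_nonneg (hN0 p).le (hwc _))
  have hfib : ∏ p, (Ka * (hN p *
      wcol (fun n => wn n / hN n) (fun e => ws e / hs e) (L' p))) =
      (∏ p : {i // τ i = 0}, (Ka * (hN p *
        wcol (fun n => wn n / hN n) (fun e => ws e / hs e) (L' p)))) *
      (∏ p : {i // τ i = 1}, (Ka * (hN p *
        wcol (fun n => wn n / hN n) (fun e => ws e / hs e) (L' p)))) *
      (∏ p : {i // τ i = 2}, (Ka * (hN p *
        wcol (fun n => wn n / hN n) (fun e => ws e / hs e) (L' p)))) := by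
    rw [← Fintype.prod_fiberwise τ, Fin.prod_univ_three]
  calc ‖(M.toSquareBlock τ 0).det‖ * ‖(M.toSquareBlock τ 1).det‖ * ‖(M.toSquareBlock τ 2).det‖
      ≤ (∏ p : {i // τ i = 0}, (Ka * (hN p *
          wcol (fun n => wn n / hN n) (fun e => ws e / hs e) (L' p)))) *
        (CC * ∏ p : {i // τ i = 1}, (Ka * (hN p *
          wcol (fun n => wn n / hN n) (fun e => ws e / hs e) (L' p)))) *
        (CC * ∏ p : {i // τ i = 2}, (Ka * (hN p *
          wcol (fun n => wn n / hN n) (fun e => ws e / hs e) (L' p)))) := by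
        refine mul_le_mul (mul_le_mul B0 B1 (norm_nonneg _)
          (Finset.prod_nonneg fun p _ => hnn _)) B2 (norm_nonneg _) ?_
        exact mul_nonneg (Finset.prod_nonneg fun p _ => hnn _)
          (mul_nonneg hCC (Finset.prod_nonneg fun p _ => hnn _))
    _ = CC ^ 2 * ∏ p, (Ka * (hN p *
          wcol (fun n => wn n / hN n) (fun e => ws e / hs e) (L' p))) := by
        rw [hfib]; ring
    _ = _ := by
        rw [Finset.prod_mul_distrib, Finset.prod_mul_distrib, Finset.prod_const,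
          Finset.card_univ, Fintype.card_fin]
        ring

/-- the lift of a column (a point) to a typed column -/
def liftc {c : ℕ} {ι : Type*} : Bool → Fin c ⊕ ι → Fin c ⊕ ι ⊕ ι
  | _, Sum.inl n => Sum.inl n
  | true, Sum.inr e => Sum.inr (Sum.inl e)
  | false, Sum.inr e => Sum.inr (Sum.inr e)

/-- the coefficient matrix with row types `τ`, columns indexed by the points -/
noncomputable def Bmat {c : ℕ} {ι : Type*} (N : Fin c → ℂ) (s : ι → ℂ) (ν a b : Fin c → ℂ)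
    (a' b' : ι → ℂ) (τ : Fin c → Fin 3) : Matrix (Fin c) (Fin c ⊕ ι) ℂ := fun n e =>
  match e with
  | Sum.inl n' => Kmat N s ν a b a' b' τ n (Sum.inl n')
  | Sum.inr e => Kmat N s ν a b a' b' τ n (Sum.inr (Sum.inl e)) +
      Kmat N s ν a b a' b' τ n (Sum.inr (Sum.inr e))

theorem det_Bmat_le [DecidableEq ι] {Ka CC : ℝ} (hKa : 1 ≤ Ka) (ha : ∀ n, ‖a n‖ ≤ Ka)
    (hb : ∀ n, ‖b n‖ ≤ Ka) {wn : Fin c → ℝ} {ws : ι → ℝ} (hν : ∀ n, ‖ν n‖ ≤ wn n)
    (ha' : ∀ e, ‖a' e‖ ≤ ws e) (hb' : ∀ e, ‖b' e‖ ≤ ws e)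
    {hN : Fin c → ℝ} {hs : ι → ℝ} (hCC : 0 ≤ CC) (hN0 : ∀ n, 0 < hN n) (hs0 : ∀ e, 0 < hs e)
    (hC : ∀ (κ : Type) [Fintype κ] [DecidableEq κ] (i : κ → Fin c) (e : κ → ι),
      Function.Injective i →
      ‖(Matrix.of fun p q : κ => 1 / (N (i p) ^ 2 - s (e q) ^ 2)).det‖ ≤
      CC * (∏ p, hN (i p)) * ∏ q, (hs (e q))⁻¹)
    (L : Fin c → Fin c ⊕ ι) :
    ‖((Bmat N s ν a b a' b' τ).submatrix id L).det‖ ≤
      2 ^ c * (CC ^ 2 * Ka ^ c * (∏ n, hN n) *
        ∏ j, Sum.elim (fun n => wn n / hN n) (fun e => ws e / hs e) (L j)) := by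
  classical
  set g : Fin c → Bool → Fin c → ℂ := fun j β n =>
    match β, L j with
    | true, Sum.inl n' => Kmat N s ν a b a' b' τ n (Sum.inl n')
    | false, Sum.inl _ => 0
    | true, Sum.inr e => Kmat N s ν a b a' b' τ n (Sum.inr (Sum.inl e))
    | false, Sum.inr e => Kmat N s ν a b a' b' τ n (Sum.inr (Sum.inr e)) with hg
  have hws : ∀ e, 0 ≤ ws e := fun e => (norm_nonneg _).trans (ha' e)
  have hwn : ∀ n, 0 ≤ wn n := fun n => (norm_nonneg _).trans (hν n)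
  have hX0 : 0 ≤ ∏ j, Sum.elim (fun n => wn n / hN n) (fun e => ws e / hs e) (L j) := by
    refine Finset.prod_nonneg fun j _ => ?_
    rcases L j with n | e
    · exact div_nonneg (hwn n) (hN0 n).le
    · exact div_nonneg (hws e) (hs0 e).le
  have hH0 : 0 ≤ ∏ n, hN n := Finset.prod_nonneg fun n _ => (hN0 n).le
  have h1 : ((Bmat N s ν a b a' b' τ).submatrix id L).det =
      ∑ ρ : Fin c → Bool, (Matrix.of fun j n => g j (ρ j) n).det := by
    rw [← Matrix.det_transpose]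
    have h := (Matrix.detRowAlternating (n := Fin c) (R := ℂ)).toMultilinearMap.map_sum
      (fun j β => g j β)
    have e1 : ((Bmat N s ν a b a' b' τ).submatrix id L).transpose = fun j => ∑ β, g j β := by
      ext j n
      rw [Fintype.sum_bool, Pi.add_apply]
      simp only [Matrix.transpose_apply, Matrix.submatrix_apply, id, hg]
      rcases L j with n' | e
      · simp [Bmat]
      · simp [Bmat]
    rw [e1]
    exact h
  have h2 : ∀ ρ : Fin c → Bool, ‖(Matrix.of fun j n => g j (ρ j) n).det‖ ≤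
      CC ^ 2 * Ka ^ c * (∏ n, hN n) *
        ∏ j, Sum.elim (fun n => wn n / hN n) (fun e => ws e / hs e) (L j) := by
    intro ρ
    by_cases hz : ∃ j n', ρ j = false ∧ L j = Sum.inl n'
    · obtain ⟨j, n', hρ, hL⟩ := hz
      have : (Matrix.of fun j n => g j (ρ j) n).det = 0 := by
        refine Matrix.det_eq_zero_of_row_eq_zero j fun n => ?_
        simp only [Matrix.of_apply, hg, hρ, hL]
      rw [this, norm_zero]
      positivity
    · push Not at hz
      have h3 : (Matrix.of fun j n => g j (ρ j) n) =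
          ((Kmat N s ν a b a' b' τ).submatrix id fun j => liftc (ρ j) (L j)).transpose := by
        ext j n
        simp only [Matrix.of_apply, Matrix.transpose_apply, Matrix.submatrix_apply, id, hg]
        rcases hρ : ρ j with _ | _
        · rcases hL : L j with n' | e
          · exact absurd hL (hz j n' hρ)
          · rfl
        · rcases hL : L j with n' | e
          · rfl
          · rfl
      rw [h3, Matrix.det_transpose]
      refine (det_Kmat_le N s ν a b a' b' τ hKa ha hb hν ha' hb' hCC hN0 hs0 hC _).trans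
        (le_of_eq ?_)
      congr 1
      refine Finset.prod_congr rfl fun j _ => ?_
      rcases L j with n' | e
      · rfl
      · rcases ρ j with _ | _ <;> rfl
  rw [h1]
  refine (norm_sum_le _ _).trans ?_
  refine (Finset.sum_le_card_nsmul _ _ _ fun ρ _ => h2 ρ).trans (le_of_eq ?_)
  rw [Finset.card_univ, Fintype.card_fun, Fintype.card_fin, Fintype.card_bool, nsmul_eq_mul]
  push_cast
  ring

end Block

/-! ### The theorem -/

/-- `h(t) = ∏_{S0} |t² - ς²| / ∏_{T0} |t² - τ²|` -/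
noncomputable def hTr {m : ℕ} (S0 T0 : Fin m → ℂ) (t : ℂ) : ℝ :=
  (∏ l, ‖t ^ 2 - S0 l ^ 2‖) / ∏ l, ‖t ^ 2 - T0 l ^ 2‖

/-- `G(t) = ∏_z |t - z| ∏_{T0} |t² - τ²| / ∏_{S0} |t² - ς²|` -/
noncomputable def gTr {c m : ℕ} (z : Fin c → ℂ) (S0 T0 : Fin m → ℂ) (t : ℂ) : ℝ :=
  (∏ i, ‖t - z i‖) * (∏ l, ‖t ^ 2 - T0 l ^ 2‖) / ∏ l, ‖t ^ 2 - S0 l ^ 2‖

/-- `∏_{i<j} |z_j - z_i|` -/
noncomputable def wTr {c : ℕ} (z : Fin c → ℂ) : ℝ := ∏ i, ∏ j ∈ Ioi i, ‖z j - z i‖

/-- **R7**: the abstract expansion of the block determinant, with trial points `z`, `S0`, `T0`. -/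
theorem R7 {c m : ℕ} {ι : Type*} [Fintype ι] [DecidableEq ι]
    (N : Fin c → ℂ) (s : ι → ℂ) (v : Fin c ⊕ ι → Fin c → ℂ) (ν a b : Fin c → ℂ) (a' b' : ι → ℂ)
    (z : Fin c → ℂ) (S0 T0 : Fin m → ℂ) {δ Ka Kv Λ : ℝ} {wn : Fin c → ℝ} {ws : ι → ℝ}
    (hδ : 0 < δ) (hδ1 : δ ≤ 1) (hKa : 1 ≤ Ka) (hKv : 0 ≤ Kv) (hΛ : 0 < Λ)
    (hV : ∀ t : Fin c ↪ Fin c ⊕ ι, ‖(Matrix.of fun j i => v (t j) i).det‖ ≤
      Kv * ∏ i, ∏ j ∈ Ioi i, ‖Sum.elim N s (t j) - Sum.elim N s (t i)‖)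
    (hNz : ∀ n i, δ ≤ ‖N n - z i‖) (hsz : ∀ e i, δ ≤ ‖s e - z i‖)
    (hNs : ∀ n e, δ ≤ ‖N n ^ 2 - s e ^ 2‖) (hNS : ∀ n l, δ ≤ ‖N n ^ 2 - S0 l ^ 2‖)
    (hsT : ∀ e l, δ ≤ ‖s e ^ 2 - T0 l ^ 2‖) (h00 : ∀ k l, δ ≤ ‖T0 k ^ 2 - S0 l ^ 2‖)
    (hNT : ∀ n l, N n ^ 2 ≠ T0 l ^ 2) (hsS : ∀ e l, s e ^ 2 ≠ S0 l ^ 2)
    (hz : 0 < wTr z) (hCau : 0 < Cau0 (fun l => S0 l ^ 2) (fun l => T0 l ^ 2))
    (ha : ∀ n, ‖a n‖ ≤ Ka) (hb : ∀ n, ‖b n‖ ≤ Ka) (hν : ∀ n, ‖ν n‖ ≤ wn n)
    (ha' : ∀ e, ‖a' e‖ ≤ ws e) (hb' : ∀ e, ‖b' e‖ ≤ ws e) :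
    ‖(Matrix.of fun n i => ν n * v (Sum.inl n) i +
        ∑ e, (a n * a' e + b n * b' e) / (N n ^ 2 - s e ^ 2) * v (Sum.inr e) i).det‖ ≤
      Kv * (6 ^ c * Ka ^ c * (c.factorial * (1 / δ) ^ c) *
        ((c + m).factorial * (1 / δ) ^ (c + m)) ^ 2) * (wTr z)⁻¹ *
        (Cau0 (fun l => S0 l ^ 2) (fun l => T0 l ^ 2))⁻¹ ^ 2 * (∏ n, hTr S0 T0 (N n)) * Λ ^ c *
        (∏ n, (1 + wn n * gTr z S0 T0 (N n) / Λ)) *
        (∏ e, (1 + ws e * gTr z S0 T0 (s e) / Λ)) := by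
  classical
  set C0 := Cau0 (fun l => S0 l ^ 2) (fun l => T0 l ^ 2) with hC0
  have hws : ∀ e, 0 ≤ ws e := fun e => (norm_nonneg _).trans (ha' e)
  have hwn : ∀ n, 0 ≤ wn n := fun n => (norm_nonneg _).trans (hν n)
  have hpN : ∀ n, 0 < hTr S0 T0 (N n) := by
    intro n
    refine div_pos (Finset.prod_pos fun l _ => hδ.trans_le (hNS n l)) ?_
    exact Finset.prod_pos fun l _ => norm_pos_iff.2 (sub_ne_zero.2 (hNT n l))
  have hps : ∀ e, 0 < hTr S0 T0 (s e) := by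
    intro e
    refine div_pos (Finset.prod_pos fun l _ => norm_pos_iff.2 (sub_ne_zero.2 (hsS e l))) ?_
    exact Finset.prod_pos fun l _ => hδ.trans_le (hsT e l)
  have hg : ∀ t : ℂ, gTr z S0 T0 t = (∏ i, ‖t - z i‖) / hTr S0 T0 t := by
    intro t
    unfold gTr hTr
    rw [div_div_eq_mul_div]
  have hg0 : ∀ t : ℂ, 0 ≤ gTr z S0 T0 t := by
    intro t
    unfold gTr
    positivity
  set x : Fin c ⊕ ι → ℝ := Sum.elim (fun n => wn n * gTr z S0 T0 (N n) / Λ)
    (fun e => ws e * gTr z S0 T0 (s e) / Λ) with hxdef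
  have hx : ∀ e, 0 ≤ x e := by
    intro e
    rcases e with n | e
    · exact div_nonneg (mul_nonneg (hwn n) (hg0 _)) hΛ.le
    · exact div_nonneg (mul_nonneg (hws e) (hg0 _)) hΛ.le
  set CC : ℝ := (c + m).factorial * (1 / δ) ^ (c + m) * C0⁻¹ with hCC
  have hδ' : 1 ≤ 1 / δ := by rw [le_div_iff₀ hδ]; linarith
  have hCC0 : 0 ≤ CC := by positivity
  set F : ℝ := c.factorial * (1 / δ) ^ c * (wTr z)⁻¹ with hF
  have hF0 : 0 ≤ F := by positivity
  -- the Cauchy blocks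
  have hC : ∀ (κ : Type) [Fintype κ] [DecidableEq κ] (i : κ → Fin c) (e : κ → ι),
      Function.Injective i →
      ‖(Matrix.of fun p q : κ => 1 / (N (i p) ^ 2 - s (e q) ^ 2)).det‖ ≤
      CC * (∏ p, hTr S0 T0 (N (i p))) * ∏ q, (hTr S0 T0 (s (e q)))⁻¹ := by
    intro κ _ _ i e hi
    have hcard : Fintype.card κ ≤ c := by
      simpa using Fintype.card_le_of_injective i hi
    have h1 := ce3b hδ (fun p => N (i p) ^ 2) (fun q => s (e q) ^ 2) (fun l => S0 l ^ 2)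
      (fun l => T0 l ^ 2) (fun p q => hNs _ _) (fun p l => hNS _ _) (fun q l => hsT _ _)
      (fun k l => h00 k l)
    rw [← hC0] at h1
    set D := ‖(Matrix.of fun p q : κ => (N (i p) ^ 2 - s (e q) ^ 2)⁻¹).det‖ with hD
    have hD' : ‖(Matrix.of fun p q : κ => 1 / (N (i p) ^ 2 - s (e q) ^ 2)).det‖ = D := by
      simp only [one_div, hD]
    rw [hD']
    have p1 : 0 < ∏ p, ∏ l, ‖N (i p) ^ 2 - T0 l ^ 2‖ :=
      Finset.prod_pos fun p _ => Finset.prod_pos fun l _ =>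
        norm_pos_iff.2 (sub_ne_zero.2 (hNT _ l))
    have p2 : 0 < ∏ q, ∏ l, ‖s (e q) ^ 2 - S0 l ^ 2‖ :=
      Finset.prod_pos fun q _ => Finset.prod_pos fun l _ =>
        norm_pos_iff.2 (sub_ne_zero.2 (hsS _ l))
    have e1 : ∏ p, hTr S0 T0 (N (i p)) = (∏ p, ∏ l, ‖N (i p) ^ 2 - S0 l ^ 2‖) /
        ∏ p, ∏ l, ‖N (i p) ^ 2 - T0 l ^ 2‖ := by
      simp only [hTr]
      rw [Finset.prod_div_distrib]
    have e2 : ∏ q, (hTr S0 T0 (s (e q)))⁻¹ = (∏ q, ∏ l, ‖s (e q) ^ 2 - T0 l ^ 2‖) /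
        ∏ q, ∏ l, ‖s (e q) ^ 2 - S0 l ^ 2‖ := by
      simp only [hTr, inv_div]
      rw [Finset.prod_div_distrib]
    rw [e1, e2]
    have h2 : ((Fintype.card κ + m).factorial : ℝ) * (1 / δ) ^ (Fintype.card κ + m) ≤
        (c + m).factorial * (1 / δ) ^ (c + m) := by
      have h3 : ((Fintype.card κ + m).factorial : ℝ) ≤ (c + m).factorial := by
        exact_mod_cast Nat.factorial_le (by omega)
      have h4 : (1 / δ) ^ (Fintype.card κ + m) ≤ (1 / δ) ^ (c + m) :=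
        pow_le_pow_right₀ hδ' (by omega)
      exact mul_le_mul h3 h4 (by positivity) (by positivity)
    set P1 := ∏ p, ∏ l, ‖N (i p) ^ 2 - S0 l ^ 2‖
    set P2 := ∏ p, ∏ l, ‖N (i p) ^ 2 - T0 l ^ 2‖
    set P3 := ∏ q, ∏ l, ‖s (e q) ^ 2 - T0 l ^ 2‖
    set P4 := ∏ q, ∏ l, ‖s (e q) ^ 2 - S0 l ^ 2‖
    have hP1 : 0 ≤ P1 := by positivity
    have hP3 : 0 ≤ P3 := by positivity
    have h5 : D * C0 * P2 * P4 ≤ (c + m).factorial * (1 / δ) ^ (c + m) * P1 * P3 :=
      h1.trans (mul_le_mul_of_nonneg_right (mul_le_mul_of_nonneg_right h2 hP1) hP3)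
    have e3 : CC * (P1 / P2) * (P3 / P4) =
        ((c + m).factorial * (1 / δ) ^ (c + m) * P1 * P3) / (C0 * P2 * P4) := by
      rw [hCC]
      field_simp
    rw [e3, le_div_iff₀ (by positivity)]
    calc D * (C0 * P2 * P4) = D * C0 * P2 * P4 := by ring
      _ ≤ _ := h5
  set Vm : Matrix (Fin c ⊕ ι) (Fin c) ℂ := Matrix.of fun e i => v e i with hVm
  have hsepz : ∀ (e : Fin c ⊕ ι) (i : Fin c), δ ≤ ‖Sum.elim N s e - z i‖ := by
    intro e i
    rcases e with n | e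
    · exact hNz n i
    · exact hsz e i
  have hVL : ∀ L : Fin c ↪ Fin c ⊕ ι, ‖(Vm.submatrix L id).det‖ ≤
      Kv * (F * ∏ j, ∏ i, ‖Sum.elim N s (L j) - z i‖) := by
    intro L
    refine (hV L).trans ?_
    refine mul_le_mul_of_nonneg_left ?_ hKv
    have h1 := ce3a hδ (fun j => Sum.elim N s (L j)) z (fun i j => hsepz _ _)
    have h2 : (∏ i, ∏ j ∈ Ioi i, ‖z j - z i‖) = wTr z := rfl
    rw [h2] at h1
    have h3 : (∏ i, ∏ j ∈ Ioi i, ‖Sum.elim N s (L j) - Sum.elim N s (L i)‖) ≤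
        (c.factorial * (1 / δ) ^ c * ∏ i, ∏ j, ‖Sum.elim N s (L i) - z j‖) / wTr z := by
      rw [le_div_iff₀ hz]
      exact h1
    refine h3.trans (le_of_eq ?_)
    rw [hF]
    field_simp
  -- every type function
  have hτ : ∀ τ : Fin c → Fin 3, ‖(Bmat N s ν a b a' b' τ * Vm).det‖ ≤
      (2 ^ c * (Kv * F * CC ^ 2 * Ka ^ c * (∏ n, hTr S0 T0 (N n)) * Λ ^ c)) *
        ∏ e, (1 + x e) := by
    intro τ
    have hpos : 0 ≤ ∏ n, hTr S0 T0 (N n) := Finset.prod_nonneg fun n _ => (hpN n).le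
    refine norm_det_mul_le _ Vm x hx _ (by positivity) fun L => ?_
    have h1 := det_Bmat_le N s ν a b a' b' τ hKa ha hb hν ha' hb' hCC0 hpN hps hC L
    have h2 := hVL L
    have h3 : ∀ j, Sum.elim (fun n => wn n / hTr S0 T0 (N n)) (fun e => ws e / hTr S0 T0 (s e))
        (L j) * ∏ i, ‖Sum.elim N s (L j) - z i‖ = Λ * x (L j) := by
      intro j
      rw [hxdef]
      rcases L j with n | e
      · simp only [Sum.elim_inl, hg]
        field_simp
      · simp only [Sum.elim_inr, hg]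
        field_simp
    have h4 : (∏ j, Sum.elim (fun n => wn n / hTr S0 T0 (N n))
        (fun e => ws e / hTr S0 T0 (s e)) (L j)) * ∏ j, ∏ i, ‖Sum.elim N s (L j) - z i‖ =
        Λ ^ c * ∏ j, x (L j) := by
      rw [← Finset.prod_mul_distrib, Finset.prod_congr rfl fun j _ => h3 j,
        Finset.prod_mul_distrib, Finset.prod_const, Finset.card_univ, Fintype.card_fin]
    calc ‖((Bmat N s ν a b a' b' τ).submatrix id L).det‖ * ‖(Vm.submatrix L id).det‖
        ≤ (2 ^ c * (CC ^ 2 * Ka ^ c * (∏ n, hTr S0 T0 (N n)) *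
            ∏ j, Sum.elim (fun n => wn n / hTr S0 T0 (N n))
              (fun e => ws e / hTr S0 T0 (s e)) (L j))) *
          (Kv * (F * ∏ j, ∏ i, ‖Sum.elim N s (L j) - z i‖)) :=
          mul_le_mul h1 h2 (norm_nonneg _) ((norm_nonneg _).trans h1)
      _ = 2 ^ c * (Kv * F * CC ^ 2 * Ka ^ c * (∏ n, hTr S0 T0 (N n))) *
          ((∏ j, Sum.elim (fun n => wn n / hTr S0 T0 (N n))
            (fun e => ws e / hTr S0 T0 (s e)) (L j)) *
            ∏ j, ∏ i, ‖Sum.elim N s (L j) - z i‖) := by ring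
      _ = _ := by rw [h4]; ring
  -- the sum over the types
  set g : Fin c → Fin 3 → Fin c → ℂ := fun n k i =>
    ∑ e, (Bmat N s ν a b a' b' (fun _ => k)) n e * Vm e i with hgdef
  have hX : (Matrix.of fun n i => ν n * v (Sum.inl n) i +
        ∑ e, (a n * a' e + b n * b' e) / (N n ^ 2 - s e ^ 2) * v (Sum.inr e) i) =
      Matrix.of fun n i => ∑ k, g n k i := by
    ext n i
    simp only [Matrix.of_apply, hgdef, Fin.sum_univ_three, Fintype.sum_sum_type, Bmat, Kmat, hVm]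
    simp [Finset.sum_add_distrib, add_mul, add_div, add_assoc]
  rw [hX, det_sum_types]
  refine (norm_sum_le _ _).trans ?_
  have hsum : ∀ τ : Fin c → Fin 3, (Matrix.of fun n i => g n (τ n) i) =
      Bmat N s ν a b a' b' τ * Vm := by
    intro τ
    ext n i
    simp only [Matrix.of_apply, hgdef, Matrix.mul_apply]
    refine Finset.sum_congr rfl fun e _ => ?_
    congr 1
  have hcard : (Finset.univ : Finset (Fin c → Fin 3)).card = 3 ^ c := by
    rw [Finset.card_univ, Fintype.card_fun, Fintype.card_fin, Fintype.card_fin]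
  have hle : ∑ τ : Fin c → Fin 3, ‖(Matrix.of fun n i => g n (τ n) i).det‖ ≤
      (3 ^ c : ℕ) • ((2 ^ c * (Kv * F * CC ^ 2 * Ka ^ c * (∏ n, hTr S0 T0 (N n)) * Λ ^ c)) *
        ∏ e, (1 + x e)) := by
    rw [← hcard]
    refine Finset.sum_le_card_nsmul _ _ _ fun τ _ => ?_
    rw [hsum τ]
    exact hτ τ
  refine hle.trans (le_of_eq ?_)
  have hprodx : ∏ e, (1 + x e) = (∏ n, (1 + wn n * gTr z S0 T0 (N n) / Λ)) *
        (∏ e, (1 + ws e * gTr z S0 T0 (s e) / Λ)) := by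
    rw [Fintype.prod_sum_type]
    rfl
  have h6 : (6 : ℝ) ^ c = 3 ^ c * 2 ^ c := by rw [← mul_pow]; norm_num
  rw [hprodx, nsmul_eq_mul, hCC, hF, h6]
  push_cast
  ring

end T2
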