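import Pool.Agent.T2.R8Defs

/-!
# T2, real side, module R8: splitting of the sums over the trial points into blocks (helper58)
-/

set_option autoImplicit false

namespace T2.R8

open Finset

variable {M : Type*} [AddCommMonoid M]

/-- sum over a set of trial points = sum over the blocks -/
theorem sum_zT (n : ℕ) (φ : ℂ → M) :
    ∑ i, φ (zT n i) = ∑ j ∈ range (12 * n), φ (tp 0 3 j)
      + ∑ j ∈ range (8 * n), φ (tp (4 * n) 2 j)
      + ∑ j ∈ range (10 * n), φ (tp (8 * n) (5 / 4) j)
      + ∑ j ∈ range (6 * n), φ (tp (16 * n) (3 / 4) j)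
      + ∑ j ∈ range (4 * n), φ (tp (24 * n) (1 / 2) j) := by
  unfold zT
  rw [Fin.sum_univ_eq_sum_range (fun i => φ (zN n i)) (40 * n),
    show 40 * n = 12 * n + 8 * n + 10 * n + 6 * n + 4 * n by ring, sum_range_add, sum_range_add,
    sum_range_add, sum_range_add]
  congr 1
  · congr 1
    · congr 1
      · congr 1
        · refine sum_congr rfl fun i hi => ?_
          rw [mem_range] at hi
          simp only [zN]
          rw [if_pos hi]
        · refine sum_congr rfl fun i hi => ?_
          rw [mem_range] at hi
          simp only [zN]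
          rw [if_neg (by omega), if_pos (by omega), show 12 * n + i - 12 * n = i by omega]
      · refine sum_congr rfl fun i hi => ?_
        rw [mem_range] at hi
        simp only [zN]
        rw [if_neg (by omega), if_neg (by omega), if_pos (by omega),
          show 12 * n + 8 * n + i - 20 * n = i by omega]
    · refine sum_congr rfl fun i hi => ?_
      rw [mem_range] at hi
      simp only [zN]
      rw [if_neg (by omega), if_neg (by omega), if_neg (by omega), if_pos (by omega),
        show 12 * n + 8 * n + 10 * n + i - 30 * n = i by omega]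
  · refine sum_congr rfl fun i hi => ?_
    rw [mem_range] at hi
    simp only [zN]
    rw [if_neg (by omega), if_neg (by omega), if_neg (by omega), if_neg (by omega),
      show 12 * n + 8 * n + 10 * n + 6 * n + i - 36 * n = i by omega]

theorem sum_tT (n : ℕ) (φ : ℂ → M) :
    ∑ i, φ (tT n i) = ∑ j ∈ range (4 * n), φ (tp 0 1 j)
      + ∑ j ∈ range (2 * n), φ (tp (4 * n) (1 / 2) j)
      + ∑ j ∈ range n, φ (tp (8 * n) (1 / 8) j) := by
  unfold tT
  rw [Fin.sum_univ_eq_sum_range (fun i => φ (tN n i)) (7 * n),
    show 7 * n = 4 * n + 2 * n + n by ring, sum_range_add, sum_range_add]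
  congr 1
  · congr 1
    · refine sum_congr rfl fun i hi => ?_
      rw [mem_range] at hi
      simp only [tN]
      rw [if_pos hi]
    · refine sum_congr rfl fun i hi => ?_
      rw [mem_range] at hi
      simp only [tN]
      rw [if_neg (by omega), if_pos (by omega), show 4 * n + i - 4 * n = i by omega]
  · refine sum_congr rfl fun i hi => ?_
    rw [mem_range] at hi
    simp only [tN]
    rw [if_neg (by omega), if_neg (by omega), show 4 * n + 2 * n + i - 6 * n = i by omega]

theorem sum_sT (n : ℕ) (φ : ℂ → M) :
    ∑ i, φ (sT n i) = ∑ j ∈ range n, φ (tp (16 * n) (1 / 8) j)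
      + ∑ j ∈ range (2 * n), φ (tp (24 * n) (1 / 4) j)
      + ∑ j ∈ range (4 * n), φ (tp (32 * n) (1 / 2) j) := by
  unfold sT
  rw [Fin.sum_univ_eq_sum_range (fun i => φ (sN n i)) (7 * n),
    show 7 * n = n + 2 * n + 4 * n by ring, sum_range_add, sum_range_add]
  congr 1
  · congr 1
    · refine sum_congr rfl fun i hi => ?_
      rw [mem_range] at hi
      simp only [sN]
      rw [if_pos hi]
    · refine sum_congr rfl fun i hi => ?_
      rw [mem_range] at hi
      simp only [sN]
      rw [if_neg (by omega), if_pos (by omega), show n + i - n = i by omega]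
  · refine sum_congr rfl fun i hi => ?_
    rw [mem_range] at hi
    simp only [sN]
    rw [if_neg (by omega), if_neg (by omega), show n + 2 * n + i - 3 * n = i by omega]

end T2.R8
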