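import Pool.Agent.T2.R8a
import Pool.Agent.T2.R8Blk
import Pool.Agent.T2.R8Sep

/-!
# T2, real side, module R8b: the potentials of the trial points (helper58)

`log_gTr`, `log_hTr`: `log gTr`, `log hTr` are their continuum values up to `O(1)`.
-/

set_option autoImplicit false

namespace T2.R8

open Finset

private theorem Fu_odd (u : ℝ) : Fu (-u) = -Fu u := by
  unfold Fu
  rw [Real.log_neg_eq_log]
  ring

private theorem Fu_sc {w : ℝ} (hw : 0 < w) (u : ℝ) :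
    w * Fu (u / w) = Fu u - u * Real.log w := by
  unfold Fu
  rcases eq_or_ne u 0 with h | h
  · subst h; simp
  · rw [Real.log_div h hw.ne']
    field_simp
    ring

private theorem single {a b d x : ℝ} (hd : 0 < d) (M : ℕ) (t : ℂ) (ht : |t.im| ≤ 1 / 4)
    (hb : a + M / d = b) (hx : t.re = x) :
    |∑ j ∈ range M, Real.log ‖t - tp a d j‖ - d * (Fu (x - a) - Fu (x - b))| ≤
      2 / d + 16 * d := by
  have h := abs_le.1 ht
  have := D1 (a := a) hd M t (by linarith) h.2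
  rw [show t.re - a - M / d = t.re - b by rw [← hb]; ring, hx] at this
  exact this

private theorem pair {a b d x : ℝ} (hd : 0 < d) (M : ℕ) (t : ℂ) (ht : |t.im| ≤ 1 / 4)
    (hb : a + M / d = b) (hx : t.re = x) :
    |∑ j ∈ range M, Real.log ‖t ^ 2 - tp a d j ^ 2‖ -
      d * (Fu (x - a) - Fu (x - b) + Fu (x + b) - Fu (x + a))| ≤ 2 * (2 / d + 16 * d) := by
  have h := abs_le.1 ht
  have h1 := single (a := a) hd M t ht hb hx
  have h2 := D1' (a := a) hd M t h.1 (by linarith)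
  rw [show t.re + a + M / d = t.re + b by rw [← hb]; ring, hx] at h2
  have e : ∑ j ∈ range M, Real.log ‖t ^ 2 - tp a d j ^ 2‖ =
      ∑ j ∈ range M, Real.log ‖t - tp a d j‖ + ∑ j ∈ range M, Real.log ‖t + tp a d j‖ := by
    rw [← Finset.sum_add_distrib]
    refine Finset.sum_congr rfl fun j _ => ?_
    have him : (tp a d j).im = 1 := by simp [tp]
    have p1 := three_quarters_le ht him
    have p2 := three_quarters_le' ht him
    rw [sq_sub_sq, norm_mul, Real.log_mul (by positivity) (by positivity), add_comm]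
  rw [e]
  have h1' := abs_le.1 h1
  have h2' := abs_le.1 h2
  rw [abs_le]
  constructor <;> linarith [h1'.1, h1'.2, h2'.1, h2'.2]

private theorem log_hTr_eq (n : ℕ) (t : ℂ) (ht : |t.im| ≤ 1 / 4) :
    Real.log (hTr (sT n) (tT n) t) = ∑ l, Real.log ‖t ^ 2 - sT n l ^ 2‖ -
      ∑ l, Real.log ‖t ^ 2 - tT n l ^ 2‖ := by
  have h1 : ∀ l, ‖t ^ 2 - sT n l ^ 2‖ ≠ 0 := fun l =>
    (lt_of_lt_of_le (by norm_num : (0 : ℝ) < 1 / 2) (sep_s n t ht l)).ne'
  have h2 : ∀ l, ‖t ^ 2 - tT n l ^ 2‖ ≠ 0 := fun l =>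
    (lt_of_lt_of_le (by norm_num : (0 : ℝ) < 1 / 2) (sep_t n t ht l)).ne'
  unfold hTr
  rw [Real.log_div (Finset.prod_ne_zero_iff.2 fun l _ => h1 l)
    (Finset.prod_ne_zero_iff.2 fun l _ => h2 l), Real.log_prod (fun l _ => h1 l),
    Real.log_prod (fun l _ => h2 l)]

private theorem log_gTr_eq (n : ℕ) (t : ℂ) (ht : |t.im| ≤ 1 / 4) :
    Real.log (gTr (zT n) (sT n) (tT n) t) = ∑ i, Real.log ‖t - zT n i‖ -
      Real.log (hTr (sT n) (tT n) t) := by
  have h1 : ∀ l, ‖t ^ 2 - sT n l ^ 2‖ ≠ 0 := fun l =>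
    (lt_of_lt_of_le (by norm_num : (0 : ℝ) < 1 / 2) (sep_s n t ht l)).ne'
  have h2 : ∀ l, ‖t ^ 2 - tT n l ^ 2‖ ≠ 0 := fun l =>
    (lt_of_lt_of_le (by norm_num : (0 : ℝ) < 1 / 2) (sep_t n t ht l)).ne'
  have h3 : ∀ l, ‖t - zT n l‖ ≠ 0 := fun l =>
    (lt_of_lt_of_le (by norm_num : (0 : ℝ) < 1 / 2) (sep_z n t ht l)).ne'
  rw [log_hTr_eq n t ht]
  unfold gTr
  rw [Real.log_div (mul_ne_zero (Finset.prod_ne_zero_iff.2 fun l _ => h3 l)
    (Finset.prod_ne_zero_iff.2 fun l _ => h2 l))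
    (Finset.prod_ne_zero_iff.2 fun l _ => h1 l),
    Real.log_mul (Finset.prod_ne_zero_iff.2 fun l _ => h3 l)
      (Finset.prod_ne_zero_iff.2 fun l _ => h2 l), Real.log_prod (fun l _ => h1 l),
    Real.log_prod (fun l _ => h2 l), Real.log_prod (fun l _ => h3 l)]
  ring

/-- the continuum potential of the `z` points -/
private theorem log_z (n : ℕ) (t : ℂ) (ht : |t.im| ≤ 1 / 4) (x : ℝ) (hx : t.re = x) :
    |∑ i, Real.log ‖t - zT n i‖ - (3 * Fu x - Fu (x - 4 * n) - 3 / 4 * Fu (x - 8 * n)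
      - 1 / 2 * Fu (x - 16 * n) - 1 / 4 * Fu (x - 24 * n) - 1 / 2 * Fu (x - 32 * n))| ≤ 200 := by
  have e := sum_zT n (fun z => Real.log ‖t - z‖)
  rw [e]
  have b1 := abs_le.1 (single (a := 0) (b := 4 * n) (d := 3) (by norm_num) (12 * n) t ht
    (by push_cast; ring) hx)
  have b2 := abs_le.1 (single (a := 4 * n) (b := 8 * n) (d := 2) (by norm_num) (8 * n) t ht
    (by push_cast; ring) hx)
  have b3 := abs_le.1 (single (a := 8 * n) (b := 16 * n) (d := 5 / 4) (by norm_num) (10 * n) t ht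
    (by push_cast; ring) hx)
  have b4 := abs_le.1 (single (a := 16 * n) (b := 24 * n) (d := 3 / 4) (by norm_num) (6 * n) t ht
    (by push_cast; ring) hx)
  have b5 := abs_le.1 (single (a := 24 * n) (b := 32 * n) (d := 1 / 2) (by norm_num) (4 * n) t ht
    (by push_cast; ring) hx)
  rw [sub_zero] at b1
  rw [abs_le]
  constructor <;> linarith [b1.1, b1.2, b2.1, b2.2, b3.1, b3.2, b4.1, b4.2, b5.1, b5.2]

/-- the continuum potential of `hTr` -/
private theorem log_h (n : ℕ) (t : ℂ) (ht : |t.im| ≤ 1 / 4) (x : ℝ) (hx : t.re = x) :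
    |Real.log (hTr (sT n) (tT n) t) - (1 / 4 * (Fu (x - 16 * n) - Fu (x + 16 * n))
      + 1 / 8 * (Fu (x - 24 * n) - Fu (x + 24 * n)) + 1 / 4 * (Fu (x - 32 * n) - Fu (x + 32 * n))
      - 1 / 2 * (Fu (x - 40 * n) - Fu (x + 40 * n)) + 1 / 2 * (Fu (x - 4 * n) - Fu (x + 4 * n))
      + 3 / 8 * (Fu (x - 8 * n) - Fu (x + 8 * n)))| ≤ 200 := by
  rw [log_hTr_eq n t ht]
  have e1 := sum_sT n (fun z => Real.log ‖t ^ 2 - z ^ 2‖)
  have e2 := sum_tT n (fun z => Real.log ‖t ^ 2 - z ^ 2‖)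
  rw [e1, e2]
  have b1 := abs_le.1 (pair (a := 16 * n) (b := 24 * n) (d := 1 / 8) (by norm_num) n t ht
    (by ring) hx)
  have b2 := abs_le.1 (pair (a := 24 * n) (b := 32 * n) (d := 1 / 4) (by norm_num) (2 * n) t ht
    (by push_cast; ring) hx)
  have b3 := abs_le.1 (pair (a := 32 * n) (b := 40 * n) (d := 1 / 2) (by norm_num) (4 * n) t ht
    (by push_cast; ring) hx)
  have b4 := abs_le.1 (pair (a := 0) (b := 4 * n) (d := 1) (by norm_num) (4 * n) t ht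
    (by push_cast; ring) hx)
  have b5 := abs_le.1 (pair (a := 4 * n) (b := 8 * n) (d := 1 / 2) (by norm_num) (2 * n) t ht
    (by push_cast; ring) hx)
  have b6 := abs_le.1 (pair (a := 8 * n) (b := 16 * n) (d := 1 / 8) (by norm_num) n t ht
    (by ring) hx)
  rw [sub_zero, add_zero] at b4
  rw [abs_le]
  constructor <;>
    linarith [b1.1, b1.2, b2.1, b2.2, b3.1, b3.2, b4.1, b4.2, b5.1, b5.2, b6.1, b6.2]

private theorem sc_minus {w : ℝ} (hw : 0 < w) (x k : ℝ) :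
    w * Fu (k - x / w) = -Fu (x - k * w) + (x - k * w) * Real.log w := by
  have h : k - x / w = (-(x - k * w)) / w := by field_simp; ring
  rw [h, Fu_sc hw, Fu_odd]
  ring

private theorem sc_plus {w : ℝ} (hw : 0 < w) (x k : ℝ) :
    w * Fu (k + x / w) = Fu (x + k * w) - (x + k * w) * Real.log w := by
  have h : k + x / w = (x + k * w) / w := by field_simp; ring
  rw [h, Fu_sc hw]

private theorem hB_sc {w : ℝ} (hw : 0 < w) (x : ℝ) :
    w * hB (x / w) = 1 / 4 * (Fu (x - 4 * w) - Fu (x + 4 * w))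
      + 1 / 8 * (Fu (x - 6 * w) - Fu (x + 6 * w)) + 1 / 4 * (Fu (x - 8 * w) - Fu (x + 8 * w))
      - 1 / 2 * (Fu (x - 10 * w) - Fu (x + 10 * w)) + 1 / 2 * (Fu (x - 1 * w) - Fu (x + 1 * w))
      + 3 / 8 * (Fu (x - 2 * w) - Fu (x + 2 * w)) := by
  have m := sc_minus hw x
  have p := sc_plus hw x
  unfold hB
  linear_combination (1 / 2) * (m 10 + p 10 - m 1 - p 1) - 3 / 8 * (m 2 + p 2)
    - 1 / 4 * (m 4 + p 4) - 1 / 8 * (m 6 + p 6) - 1 / 4 * (m 8 + p 8)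

private theorem gB_sc {w : ℝ} (hw : 0 < w) (x : ℝ) :
    w * gB (x / w) + 10 * w * Real.log w = 3 * Fu x - Fu (x - 1 * w) - 3 / 4 * Fu (x - 2 * w)
      - 1 / 2 * Fu (x - 4 * w) - 1 / 4 * Fu (x - 6 * w) - 1 / 2 * Fu (x - 8 * w)
      - w * hB (x / w) := by
  have m := sc_minus hw x
  have p := sc_plus hw x
  have q := Fu_sc hw x
  unfold gB hB
  linear_combination 3 * q + (m 1) + 3 / 4 * m 2 + 1 / 2 * m 4 + 1 / 4 * m 6 + 1 / 2 * m 8

theorem log_hTr : ∃ C : ℝ, ∀ n : ℕ, 1 ≤ n → ∀ t : ℂ, |t.im| ≤ 1 / 4 →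
    |Real.log (hTr (sT n) (tT n) t) - 4 * n * hB (t.re / (4 * n))| ≤ C := by
  refine ⟨200, fun n hn t ht => ?_⟩
  have hw : (0 : ℝ) < 4 * n := by
    have : (1 : ℝ) ≤ n := by exact_mod_cast hn
    linarith
  have h := log_h n t ht t.re rfl
  rw [hB_sc hw]
  rw [show 4 * (4 * (n : ℝ)) = 16 * n by ring, show 6 * (4 * (n : ℝ)) = 24 * n by ring,
    show 8 * (4 * (n : ℝ)) = 32 * n by ring, show 10 * (4 * (n : ℝ)) = 40 * n by ring,
    show 1 * (4 * (n : ℝ)) = 4 * n by ring, show 2 * (4 * (n : ℝ)) = 8 * n by ring]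
  exact h

theorem log_gTr : ∃ C : ℝ, ∀ n : ℕ, 1 ≤ n → ∀ t : ℂ, |t.im| ≤ 1 / 4 →
    |Real.log (gTr (zT n) (sT n) (tT n) t)
      - (4 * n * gB (t.re / (4 * n)) + 40 * n * Real.log (4 * n))| ≤ C := by
  obtain ⟨C, hC⟩ := log_hTr
  refine ⟨200 + C, fun n hn t ht => ?_⟩
  have hw : (0 : ℝ) < 4 * n := by
    have : (1 : ℝ) ≤ n := by exact_mod_cast hn
    linarith
  have h := abs_le.1 (hC n hn t ht)
  have h2 := abs_le.1 (log_z n t ht t.re rfl)
  have h3 := gB_sc hw t.re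
  rw [show 4 * (4 * (n : ℝ)) = 16 * n by ring, show 6 * (4 * (n : ℝ)) = 24 * n by ring,
    show 8 * (4 * (n : ℝ)) = 32 * n by ring, show 10 * (4 * (n : ℝ)) = 40 * n by ring,
    show 1 * (4 * (n : ℝ)) = 4 * n by ring, show 2 * (4 * (n : ℝ)) = 8 * n by ring] at h3
  rw [log_gTr_eq n t ht, h3, abs_le]
  constructor <;> linarith [h.1, h.2, h2.1, h2.2]

end T2.R8
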