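import Pool.Agent.T2.R8Defs

/-! # T2, real side, R8c: self energy of the trial points `z` -/

set_option autoImplicit false

namespace T2.R8c

open Finset Complex T2.R8

/-! ### the functions `Fu`, `Gu` -/

theorem Gu_zero : Gu 0 = 0 := by simp [Gu]

theorem Gu_neg (u : ℝ) : Gu (-u) = Gu u := by simp [Gu]

theorem Gu_scale {c : ℝ} (hc : 0 < c) (u : ℝ) :
    Gu (c * u) = c ^ 2 * Gu u + c ^ 2 * u ^ 2 / 2 * Real.log c := by
  by_cases hu : u = 0
  · subst hu; simp [Gu]
  · unfold Gu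
    rw [Real.log_mul hc.ne' hu]
    ring

theorem continuous_Fu : Continuous Fu := by
  unfold Fu
  exact Real.continuous_mul_log.sub continuous_id

theorem continuous_Gu : Continuous Gu := by
  have : Gu = fun u : ℝ => u / 2 * (u * Real.log u) - 3 / 4 * u ^ 2 := by
    funext u; unfold Gu; ring
  rw [this]
  have h := Real.continuous_mul_log
  fun_prop

theorem hasDerivAt_Fu {u : ℝ} (hu : u ≠ 0) : HasDerivAt Fu (Real.log u) u := by
  have h : HasDerivAt (fun x : ℝ => x * Real.log x - x) (1 * Real.log u + u * u⁻¹ - 1) u :=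
    ((hasDerivAt_id' u).fun_mul (Real.hasDerivAt_log hu)).fun_sub (hasDerivAt_id' u)
  have e : 1 * Real.log u + u * u⁻¹ - 1 = Real.log u := by
    rw [mul_inv_cancel₀ hu]; ring
  rw [e] at h
  exact h

theorem hasDerivAt_Gu {u : ℝ} (hu : u ≠ 0) : HasDerivAt Gu (Fu u) u := by
  have h1 : HasDerivAt (fun u : ℝ => u ^ 2 / 2) (((2 : ℕ) : ℝ) * u ^ (2 - 1) / 2) u :=
    (hasDerivAt_pow 2 u).div_const 2
  have h2 : HasDerivAt (fun u : ℝ => 3 / 4 * u ^ 2) (3 / 4 * (((2 : ℕ) : ℝ) * u ^ (2 - 1))) u :=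
    (hasDerivAt_pow 2 u).const_mul (3 / 4 : ℝ)
  have h : HasDerivAt (fun u : ℝ => u ^ 2 / 2 * Real.log u - 3 / 4 * u ^ 2)
      (((2 : ℕ) : ℝ) * u ^ (2 - 1) / 2 * Real.log u + u ^ 2 / 2 * u⁻¹ -
        3 / 4 * (((2 : ℕ) : ℝ) * u ^ (2 - 1))) u :=
    (h1.fun_mul (Real.hasDerivAt_log hu)).fun_sub h2
  have e : ((2 : ℕ) : ℝ) * u ^ (2 - 1) / 2 * Real.log u + u ^ 2 / 2 * u⁻¹ -
        3 / 4 * (((2 : ℕ) : ℝ) * u ^ (2 - 1)) = Fu u := by
    unfold Fu
    field_simp
    push_cast
    ring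
  rw [e] at h
  exact h

/-- midpoint rule for `log` (concave) -/
theorem Fu_mid {D h : ℝ} (h0 : 0 ≤ h) (hD : h ≤ D) (hD0 : 0 < D) :
    Fu (D + h) - Fu (D - h) ≤ 2 * h * Real.log D := by
  have key : AntitoneOn (fun s : ℝ => Fu (D + s) - Fu (D - s) - 2 * s * Real.log D)
      (Set.Icc 0 D) := by
    apply antitoneOn_of_deriv_nonpos (convex_Icc 0 D)
    · have := continuous_Fu
      apply Continuous.continuousOn
      fun_prop
    · intro s hs
      rw [interior_Icc] at hs
      have hs1 : D + s ≠ 0 := by linarith [hs.1, hs.2]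
      have hs2 : D - s ≠ 0 := by linarith [hs.1, hs.2]
      have d1 : HasDerivAt (fun s : ℝ => Fu (D + s)) (Real.log (D + s) * 1) s :=
        HasDerivAt.comp s (hasDerivAt_Fu hs1) ((hasDerivAt_id s).const_add D)
      have d2 : HasDerivAt (fun s : ℝ => Fu (D - s)) (Real.log (D - s) * (-1)) s :=
        HasDerivAt.comp s (hasDerivAt_Fu hs2) ((hasDerivAt_id s).const_sub D)
      have d3 : HasDerivAt (fun s : ℝ => 2 * s * Real.log D) (2 * 1 * Real.log D) s :=
        ((hasDerivAt_id s).const_mul 2).mul_const _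
      exact ((d1.fun_sub d2).fun_sub d3).differentiableAt.differentiableWithinAt
    · intro s hs
      rw [interior_Icc] at hs
      have hs1 : D + s ≠ 0 := by linarith [hs.1, hs.2]
      have hs2 : D - s ≠ 0 := by linarith [hs.1, hs.2]
      have d1 : HasDerivAt (fun s : ℝ => Fu (D + s)) (Real.log (D + s) * 1) s :=
        HasDerivAt.comp s (hasDerivAt_Fu hs1) ((hasDerivAt_id s).const_add D)
      have d2 : HasDerivAt (fun s : ℝ => Fu (D - s)) (Real.log (D - s) * (-1)) s :=
        HasDerivAt.comp s (hasDerivAt_Fu hs2) ((hasDerivAt_id s).const_sub D)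
      have d3 : HasDerivAt (fun s : ℝ => 2 * s * Real.log D) (2 * 1 * Real.log D) s :=
        ((hasDerivAt_id s).const_mul 2).mul_const _
      rw [((d1.fun_sub d2).fun_sub d3).deriv]
      have e : Real.log (D + s) + Real.log (D - s) ≤ Real.log D + Real.log D := by
        rw [← Real.log_mul hs1 hs2, ← Real.log_mul hD0.ne' hD0.ne']
        apply Real.log_le_log
        · exact mul_pos (by linarith [hs.1, hs.2]) (by linarith [hs.1, hs.2])
        · nlinarith [sq_nonneg s]
      linarith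
  have := key (Set.left_mem_Icc.2 hD0.le) ⟨h0, hD⟩ h0
  simp only [add_zero, sub_zero, mul_zero, zero_mul, sub_self] at this
  linarith

/-- two cells, distance of the centres `D`, half lengths `h`, `k` -/
theorem Gu_pair {D h k : ℝ} (h0 : 0 < h) (k0 : 0 < k) (hD : h + k ≤ D) :
    Gu (D + k + h) + Gu (D - k - h) - Gu (D - k + h) - Gu (D + k - h) ≤
      4 * h * k * Real.log D := by
  have key : AntitoneOn (fun t : ℝ => Gu (t + h) - Gu (t - h) - 2 * h * Fu t) (Set.Ici h) := by
    have hder : ∀ t ∈ interior (Set.Ici h), HasDerivAt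
        (fun t : ℝ => Gu (t + h) - Gu (t - h) - 2 * h * Fu t)
        (Fu (t + h) * 1 - Fu (t - h) * 1 - 2 * h * Real.log t) t := by
      intro t ht
      rw [interior_Ici] at ht
      have ht' : h < t := ht
      have d1 : HasDerivAt (fun s : ℝ => Gu (s + h)) (Fu (t + h) * 1) t :=
        HasDerivAt.comp t (hasDerivAt_Gu (by linarith)) ((hasDerivAt_id t).add_const h)
      have d2 : HasDerivAt (fun s : ℝ => Gu (s - h)) (Fu (t - h) * 1) t :=
        HasDerivAt.comp t (hasDerivAt_Gu (by linarith)) ((hasDerivAt_id t).sub_const h)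
      have d3 : HasDerivAt (fun s : ℝ => 2 * h * Fu s) (2 * h * Real.log t) t :=
        (hasDerivAt_Fu (by linarith)).const_mul _
      exact (d1.fun_sub d2).fun_sub d3
    apply antitoneOn_of_deriv_nonpos (convex_Ici h)
    · have := continuous_Fu
      have := continuous_Gu
      apply Continuous.continuousOn
      fun_prop
    · intro t ht
      exact (hder t ht).differentiableAt.differentiableWithinAt
    · intro t ht
      rw [(hder t ht).deriv]
      rw [interior_Ici] at ht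
      have ht' : h < t := ht
      have := Fu_mid (D := t) (h := h) h0.le ht'.le (by linarith)
      linarith
  have h1 := key (show D - k ∈ Set.Ici h from by simp only [Set.mem_Ici]; linarith)
    (show D + k ∈ Set.Ici h from by simp only [Set.mem_Ici]; linarith) (by linarith)
  have h2 := Fu_mid (D := D) (h := k) k0.le (by linarith) (by linarith)
  simp only at h1
  have h3 := mul_le_mul_of_nonneg_left h2 (show (0:ℝ) ≤ 2 * h by linarith)
  nlinarith [h1, h3]

/-- `∬ log |x - y|` over the rectangle `[a,b] × [a',b']` -/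
noncomputable def Kc (a b a' b' : ℝ) : ℝ :=
  Gu (b' - a) + Gu (a' - b) - Gu (a' - a) - Gu (b' - b)

theorem Kc_comm (a b a' b' : ℝ) : Kc a b a' b' = Kc a' b' a b := by
  unfold Kc
  rw [← Gu_neg (b' - a), ← Gu_neg (a' - b), ← Gu_neg (a' - a), ← Gu_neg (b' - b)]
  ring_nf

theorem Kc_scale {c : ℝ} (hc : 0 < c) (a b a' b' : ℝ) :
    Kc (c * a) (c * b) (c * a') (c * b') =
      c ^ 2 * (Kc a b a' b' + (b - a) * (b' - a') * Real.log c) := by
  unfold Kc
  simp only [← mul_sub, Gu_scale hc]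
  ring

/-- real part of the trial point -/
noncomputable def tr (a d : ℝ) (j : ℕ) : ℝ := a + ((j : ℝ) + 1 / 2) / d

theorem norm_tp (a d a' d' : ℝ) (j k : ℕ) :
    Real.log ‖tp a' d' k - tp a d j‖ = Real.log (tr a' d' k - tr a d j) := by
  have : tp a' d' k - tp a d j = ((tr a' d' k - tr a d j : ℝ) : ℂ) := by
    unfold tp tr
    push_cast
    ring
  rw [this, Complex.norm_real, Real.norm_eq_abs, Real.log_abs]

theorem pair_lt {a d a' d' : ℝ} (hd : 0 < d) (hd' : 0 < d') {j k : ℕ}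
    (h : a + ((j : ℝ) + 1) / d ≤ a' + (k : ℝ) / d') :
    d * d' * Kc (a + (j : ℝ) / d) (a + ((j : ℝ) + 1) / d) (a' + (k : ℝ) / d')
      (a' + ((k : ℝ) + 1) / d') ≤ Real.log (tr a' d' k - tr a d j) := by
  set D := tr a' d' k - tr a d j with hDdef
  have e1 : (a' + ((k : ℝ) + 1) / d') - (a + (j : ℝ) / d) = D + 1 / (2 * d') + 1 / (2 * d) := by
    rw [hDdef]; unfold tr; field_simp; ring
  have e2 : (a' + (k : ℝ) / d') - (a + ((j : ℝ) + 1) / d) = D - 1 / (2 * d') - 1 / (2 * d) := by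
    rw [hDdef]; unfold tr; field_simp; ring
  have e3 : (a' + (k : ℝ) / d') - (a + (j : ℝ) / d) = D - 1 / (2 * d') + 1 / (2 * d) := by
    rw [hDdef]; unfold tr; field_simp; ring
  have e4 : (a' + ((k : ℝ) + 1) / d') - (a + ((j : ℝ) + 1) / d) =
      D + 1 / (2 * d') - 1 / (2 * d) := by
    rw [hDdef]; unfold tr; field_simp; ring
  have hp := Gu_pair (D := D) (h := 1 / (2 * d)) (k := 1 / (2 * d')) (by positivity)
    (by positivity) (by linarith [e2])
  unfold Kc
  rw [e1, e2, e3, e4]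
  have hdd : 0 < d * d' := mul_pos hd hd'
  have := mul_le_mul_of_nonneg_left hp hdd.le
  refine this.trans (le_of_eq ?_)
  field_simp
  ring

theorem Gu_nonpos {u : ℝ} (h0 : 0 ≤ u) (h4 : u ≤ 4) : Gu u ≤ 0 := by
  unfold Gu
  rcases h0.eq_or_lt with rfl | hu
  · simp
  · have hl : Real.log u ≤ 3 / 2 := by
      have : Real.log u ≤ Real.log 4 := Real.log_le_log hu h4
      have h2 : Real.log 4 = 2 * Real.log 2 := by
        rw [show (4:ℝ) = 2 ^ 2 by norm_num, Real.log_pow]; norm_num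
      have := Real.log_two_lt_d9
      linarith
    nlinarith [sq_nonneg u]

/-- all pairs inside one block -/
theorem pair_same {a d : ℝ} (hd : 1 / 4 ≤ d) (j k : ℕ) :
    d * d * Kc (a + (j : ℝ) / d) (a + ((j : ℝ) + 1) / d) (a + (k : ℝ) / d)
      (a + ((k : ℝ) + 1) / d) ≤ Real.log (tr a d k - tr a d j) := by
  have hd0 : 0 < d := by linarith
  rcases lt_trichotomy j k with h | h | h
  · apply pair_lt hd0 hd0
    have : (j : ℝ) + 1 ≤ k := by exact_mod_cast h
    have := div_le_div_of_nonneg_right this hd0.le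
    linarith
  · subst h
    rw [sub_self, Real.log_zero]
    unfold Kc
    rw [sub_self, sub_self, Gu_zero, ← Gu_neg ((a + (j : ℝ) / d) - _)]
    have e : a + ((j : ℝ) + 1) / d - (a + (j : ℝ) / d) = 1 / d := by field_simp; ring
    have e' : -(a + (j : ℝ) / d - (a + ((j : ℝ) + 1) / d)) = 1 / d := by field_simp; ring
    rw [e, e']
    have h1 : (1 : ℝ) / d ≤ 4 := by
      rw [div_le_iff₀ hd0]; linarith
    have := Gu_nonpos (u := 1 / d) (by positivity) h1
    nlinarith [mul_pos hd0 hd0]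
  · rw [Kc_comm]
    have : tr a d k - tr a d j = -(tr a d j - tr a d k) := by ring
    rw [this, Real.log_neg_eq_log]
    apply pair_lt hd0 hd0
    have : (k : ℝ) + 1 ≤ j := by exact_mod_cast h
    have := div_le_div_of_nonneg_right this hd0.le
    linarith

theorem Kc_sum (a d a' d' : ℝ) (L L' : ℕ) :
    ∑ j ∈ range L, ∑ k ∈ range L', Kc (a + (j : ℝ) / d) (a + ((j : ℝ) + 1) / d)
      (a' + (k : ℝ) / d') (a' + ((k : ℝ) + 1) / d') =
    Kc a (a + (L : ℝ) / d) a' (a' + (L' : ℝ) / d') := by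
  have h1 : ∀ j : ℕ, ∑ k ∈ range L', Kc (a + (j : ℝ) / d) (a + ((j : ℝ) + 1) / d)
      (a' + (k : ℝ) / d') (a' + ((k : ℝ) + 1) / d') =
      Kc (a + (j : ℝ) / d) (a + ((j : ℝ) + 1) / d) a' (a' + (L' : ℝ) / d') := by
    intro j
    induction L' with
    | zero => simp [Kc]
    | succ L' ih =>
      rw [Finset.sum_range_succ, ih]
      unfold Kc
      push_cast
      ring
  simp only [h1]
  induction L with
  | zero => simp [Kc]
  | succ L ih =>
    rw [Finset.sum_range_succ, ih]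
    unfold Kc
    push_cast
    ring

/-- energy of two blocks -/
noncomputable def SS (a d : ℝ) (L : ℕ) (a' d' : ℝ) (L' : ℕ) : ℝ :=
  ∑ j ∈ range L, ∑ k ∈ range L', Real.log ‖tp a' d' k - tp a d j‖

theorem SS_comm (a d : ℝ) (L : ℕ) (a' d' : ℝ) (L' : ℕ) : SS a d L a' d' L' = SS a' d' L' a d L := by
  unfold SS
  rw [Finset.sum_comm]
  refine Finset.sum_congr rfl fun k _ => Finset.sum_congr rfl fun j _ => ?_
  rw [norm_sub_rev]

theorem SS_lt {a d a' d' : ℝ} (hd : 0 < d) (hd' : 0 < d') {L L' : ℕ}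
    (h : a + (L : ℝ) / d ≤ a') :
    d * d' * Kc a (a + (L : ℝ) / d) a' (a' + (L' : ℝ) / d') ≤ SS a d L a' d' L' := by
  rw [← Kc_sum, Finset.mul_sum]
  refine Finset.sum_le_sum fun j hj => ?_
  rw [Finset.mul_sum]
  refine Finset.sum_le_sum fun k _ => ?_
  rw [norm_tp]
  apply pair_lt hd hd'
  have hj' : (j : ℝ) + 1 ≤ L := by exact_mod_cast Finset.mem_range.1 hj
  have h1 := div_le_div_of_nonneg_right hj' hd.le
  have h2 : (0 : ℝ) ≤ (k : ℝ) / d' := by positivity
  linarith

theorem SS_same {a d : ℝ} (hd : 1 / 4 ≤ d) {L : ℕ} :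
    d * d * Kc a (a + (L : ℝ) / d) a (a + (L : ℝ) / d) ≤ SS a d L a d L := by
  rw [← Kc_sum, Finset.mul_sum]
  refine Finset.sum_le_sum fun j hj => ?_
  rw [Finset.mul_sum]
  refine Finset.sum_le_sum fun k _ => ?_
  rw [norm_tp]
  exact pair_same hd j k

/-- scaled forms -/
theorem SS_lt' {c : ℝ} (hc : 0 < c) {α β α' β' d d' : ℝ} (hd : 0 < d) (hd' : 0 < d') {L L' : ℕ}
    (hL : (L : ℝ) = c * (β - α) * d) (hL' : (L' : ℝ) = c * (β' - α') * d') (h : β ≤ α') :
    d * d' * (c ^ 2 * (Kc α β α' β' + (β - α) * (β' - α') * Real.log c)) ≤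
      SS (c * α) d L (c * α') d' L' := by
  have e1 : c * α + (L : ℝ) / d = c * β := by rw [hL]; field_simp; ring
  have e2 : c * α' + (L' : ℝ) / d' = c * β' := by rw [hL']; field_simp; ring
  have := SS_lt (a := c * α) (a' := c * α') hd hd' (L := L) (L' := L')
    (by rw [e1]; exact mul_le_mul_of_nonneg_left h hc.le)
  rwa [e1, e2, Kc_scale hc] at this

theorem SS_same' {c : ℝ} (hc : 0 < c) {α β d : ℝ} (hd : 1 / 4 ≤ d) {L : ℕ}
    (hL : (L : ℝ) = c * (β - α) * d) :
    d * d * (c ^ 2 * (Kc α β α β + (β - α) * (β - α) * Real.log c)) ≤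
      SS (c * α) d L (c * α) d L := by
  have hd0 : 0 < d := by linarith
  have e1 : c * α + (L : ℝ) / d = c * β := by rw [hL]; field_simp; ring
  have := SS_same (a := c * α) hd (L := L)
  rwa [e1, Kc_scale hc] at this

/-! ### the product `wTr` -/

theorem log_wTr {c : ℕ} (z : Fin c → ℂ) (hz : Function.Injective z) :
    0 < wTr z ∧ Real.log (wTr z) = 1 / 2 * ∑ i, ∑ j, Real.log ‖z j - z i‖ := by
  have hne : ∀ i, ∀ j ∈ Ioi i, ‖z j - z i‖ ≠ 0 := by
    intro i j hj
    rw [norm_ne_zero_iff, sub_ne_zero]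
    intro h
    have := hz h
    rw [this] at hj
    exact lt_irrefl _ (Finset.mem_Ioi.1 hj)
  constructor
  · unfold wTr
    refine Finset.prod_pos fun i _ => Finset.prod_pos fun j hj => ?_
    exact lt_of_le_of_ne (norm_nonneg _) (Ne.symm (hne i j hj))
  · unfold wTr
    rw [Real.log_prod (fun i _ => Finset.prod_ne_zero_iff.2 (hne i))]
    have h1 : ∀ i, Real.log (∏ j ∈ Ioi i, ‖z j - z i‖) = ∑ j ∈ Ioi i, Real.log ‖z j - z i‖ :=
      fun i => Real.log_prod (hne i)
    simp only [h1]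
    have h2 : ∀ i : Fin c, ∑ j, Real.log ‖z j - z i‖ =
        ∑ j ∈ Ioi i, Real.log ‖z j - z i‖ + ∑ j ∈ Iio i, Real.log ‖z j - z i‖ := by
      intro i
      have : (univ : Finset (Fin c)) = (Ioi i ∪ Iio i) ∪ {i} := by
        ext j
        simp only [mem_univ, mem_union, mem_Ioi, mem_Iio, mem_singleton, true_iff]
        rcases lt_trichotomy i j with h | h | h
        · exact Or.inl (Or.inl h)
        · exact Or.inr h.symm
        · exact Or.inl (Or.inr h)
      rw [this, Finset.sum_union, Finset.sum_union]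
      · simp
      · rw [Finset.disjoint_left]
        intro j hj hj'
        exact lt_asymm (Finset.mem_Ioi.1 hj) (Finset.mem_Iio.1 hj')
      · rw [Finset.disjoint_left]
        intro j hj hj'
        rw [Finset.mem_singleton] at hj'
        subst hj'
        simp at hj
    have h3 : ∑ i, ∑ j ∈ Iio i, Real.log ‖z j - z i‖ = ∑ i, ∑ j ∈ Ioi i, Real.log ‖z j - z i‖ := by
      have e1 : ∀ i : Fin c, ∑ j ∈ Iio i, Real.log ‖z j - z i‖ =
          ∑ j, if j < i then Real.log ‖z j - z i‖ else 0 := by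
        intro i
        rw [← Finset.sum_filter]
        congr 1
        ext j; simp
      have e2 : ∀ i : Fin c, ∑ j ∈ Ioi i, Real.log ‖z j - z i‖ =
          ∑ j, if i < j then Real.log ‖z j - z i‖ else 0 := by
        intro i
        rw [← Finset.sum_filter]
        congr 1
        ext j; simp
      simp only [e1, e2]
      rw [Finset.sum_comm]
      refine Finset.sum_congr rfl fun i _ => Finset.sum_congr rfl fun j _ => ?_
      rw [norm_sub_rev]
    simp only [h2, Finset.sum_add_distrib]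
    rw [h3]
    ring

/-! ### splitting into blocks -/

theorem zN_sum {M : Type*} [AddCommMonoid M] (n : ℕ) (f : ℂ → M) :
    ∑ i ∈ range (40 * n), f (zN n i) =
      ∑ j ∈ range (12 * n), f (tp 0 3 j) + ∑ j ∈ range (8 * n), f (tp (4 * n) 2 j)
      + ∑ j ∈ range (10 * n), f (tp (8 * n) (5 / 4) j)
      + ∑ j ∈ range (6 * n), f (tp (16 * n) (3 / 4) j)
      + ∑ j ∈ range (4 * n), f (tp (24 * n) (1 / 2) j) := by
  have h4 : 40 * n = 36 * n + 4 * n := by ring
  have h3 : 36 * n = 30 * n + 6 * n := by ring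
  have h2 : 30 * n = 20 * n + 10 * n := by ring
  have h1 : 20 * n = 12 * n + 8 * n := by ring
  rw [h4, Finset.sum_range_add, h3, Finset.sum_range_add, h2, Finset.sum_range_add, h1,
    Finset.sum_range_add]
  refine congrArg₂ _ (congrArg₂ _ (congrArg₂ _ (congrArg₂ _ ?_ ?_) ?_) ?_) ?_
  · refine Finset.sum_congr rfl fun j hj => ?_
    have := Finset.mem_range.1 hj
    unfold zN
    rw [if_pos this]
  · refine Finset.sum_congr rfl fun j hj => ?_
    have := Finset.mem_range.1 hj
    unfold zN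
    rw [if_neg (by omega), if_pos (by omega), Nat.add_sub_cancel_left]
  · refine Finset.sum_congr rfl fun j hj => ?_
    have := Finset.mem_range.1 hj
    unfold zN
    rw [if_neg (by omega), if_neg (by omega), if_pos (by omega), ← h1, Nat.add_sub_cancel_left]
  · refine Finset.sum_congr rfl fun j hj => ?_
    have := Finset.mem_range.1 hj
    unfold zN
    rw [if_neg (by omega), if_neg (by omega), if_neg (by omega), if_pos (by omega), ← h1, ← h2,
      Nat.add_sub_cancel_left]
  · refine Finset.sum_congr rfl fun j hj => ?_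
    have := Finset.mem_range.1 hj
    unfold zN
    rw [if_neg (by omega), if_neg (by omega), if_neg (by omega), if_neg (by omega), ← h1, ← h2,
      ← h3, Nat.add_sub_cancel_left]

theorem tp_re (a d : ℝ) (j : ℕ) : (tp a d j).re = tr a d j := by
  unfold tp tr
  simp

theorem zN_re_lt {n i j : ℕ} (hij : i < j) : (zN n i).re < (zN n j).re := by
  have bl : ∀ {k : ℕ}, 12 * n ≤ k → ((k - 12 * n : ℕ) : ℝ) = k - 12 * n := by
    intro k hk; rw [Nat.cast_sub hk]; push_cast; ring
  have bl2 : ∀ {k : ℕ}, 20 * n ≤ k → ((k - 20 * n : ℕ) : ℝ) = k - 20 * n := by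
    intro k hk; rw [Nat.cast_sub hk]; push_cast; ring
  have bl3 : ∀ {k : ℕ}, 30 * n ≤ k → ((k - 30 * n : ℕ) : ℝ) = k - 30 * n := by
    intro k hk; rw [Nat.cast_sub hk]; push_cast; ring
  have bl4 : ∀ {k : ℕ}, 36 * n ≤ k → ((k - 36 * n : ℕ) : ℝ) = k - 36 * n := by
    intro k hk; rw [Nat.cast_sub hk]; push_cast; ring
  have ub1 : ∀ {k : ℕ}, k < 12 * n → (k : ℝ) + 1 ≤ 12 * n := by
    intro k hk; exact_mod_cast hk
  have ub2 : ∀ {k : ℕ}, k < 20 * n → (k : ℝ) + 1 ≤ 20 * n := by
    intro k hk; exact_mod_cast hk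
  have ub3 : ∀ {k : ℕ}, k < 30 * n → (k : ℝ) + 1 ≤ 30 * n := by
    intro k hk; exact_mod_cast hk
  have ub4 : ∀ {k : ℕ}, k < 36 * n → (k : ℝ) + 1 ≤ 36 * n := by
    intro k hk; exact_mod_cast hk
  have lb1 : ∀ {k : ℕ}, ¬ k < 12 * n → (12 * n : ℝ) ≤ k := by
    intro k hk; exact_mod_cast not_lt.1 hk
  have lb2 : ∀ {k : ℕ}, ¬ k < 20 * n → (20 * n : ℝ) ≤ k := by
    intro k hk; exact_mod_cast not_lt.1 hk
  have lb3 : ∀ {k : ℕ}, ¬ k < 30 * n → (30 * n : ℝ) ≤ k := by
    intro k hk; exact_mod_cast not_lt.1 hk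
  have lb4 : ∀ {k : ℕ}, ¬ k < 36 * n → (36 * n : ℝ) ≤ k := by
    intro k hk; exact_mod_cast not_lt.1 hk
  have val : ∀ k : ℕ, (zN n k).re =
      if k < 12 * n then ((k : ℝ) + 1 / 2) / 3
      else if k < 20 * n then 4 * n + ((k : ℝ) - 12 * n + 1 / 2) / 2
      else if k < 30 * n then 8 * n + ((k : ℝ) - 20 * n + 1 / 2) / (5 / 4)
      else if k < 36 * n then 16 * n + ((k : ℝ) - 30 * n + 1 / 2) / (3 / 4)
      else 24 * n + ((k : ℝ) - 36 * n + 1 / 2) / (1 / 2) := by
    intro k
    unfold zN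
    split_ifs with h1 h2 h3 h4 <;> simp only [tp_re, tr, zero_add]
    · rw [bl (not_lt.1 h1)]
    · rw [bl2 (not_lt.1 h2)]
    · rw [bl3 (not_lt.1 h3)]
    · rw [bl4 (not_lt.1 h4)]
  have mono : ∀ k : ℕ, (zN n k).re + 1 / 3 ≤ (zN n (k + 1)).re := by
    intro k
    rw [val, val]
    push_cast
    by_cases g1 : k + 1 < 12 * n
    · rw [if_pos g1, if_pos (by omega)]; linarith
    rw [if_neg g1]
    by_cases g2 : k + 1 < 20 * n
    · rw [if_pos g2]
      by_cases q1 : k < 12 * n
      · rw [if_pos q1]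
        have a1 := ub1 q1
        have a2 := lb1 g1
        push_cast at a2
        linarith
      · rw [if_neg q1, if_pos (by omega)]; linarith
    rw [if_neg g2]
    by_cases g3 : k + 1 < 30 * n
    · rw [if_pos g3, if_neg (by omega)]
      by_cases q1 : k < 20 * n
      · rw [if_pos q1]
        have a1 := ub2 q1
        have a2 := lb2 g2
        push_cast at a2
        linarith
      · rw [if_neg q1, if_pos (by omega)]; linarith
    rw [if_neg g3]
    by_cases g4 : k + 1 < 36 * n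
    · rw [if_pos g4, if_neg (by omega), if_neg (by omega)]
      by_cases q1 : k < 30 * n
      · rw [if_pos q1]
        have a1 := ub3 q1
        have a2 := lb3 g3
        push_cast at a2
        linarith
      · rw [if_neg q1, if_pos (by omega)]; linarith
    rw [if_neg g4]
    by_cases q0 : k < 12 * n
    · have : n = 0 := by omega
      subst this; omega
    rw [if_neg q0]
    by_cases q1 : k < 20 * n
    · have : n = 0 := by omega
      subst this; omega
    rw [if_neg q1]
    by_cases q2 : k < 30 * n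
    · have : n = 0 := by omega
      subst this; omega
    rw [if_neg q2]
    by_cases q3 : k < 36 * n
    · rw [if_pos q3]
      have a1 := ub4 q3
      have a2 := lb4 g4
      push_cast at a2
      linarith
    · rw [if_neg q3]; linarith
  have hs : StrictMono fun k => (zN n k).re := strictMono_nat_of_lt_succ fun k => by
    have := mono k
    linarith
  exact hs hij

theorem zT_inj (n : ℕ) : Function.Injective (zT n) := by
  intro i j h
  unfold zT at h
  rcases lt_trichotomy (i : ℕ) j with h' | h' | h'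
  · exact absurd (congrArg Complex.re h) (zN_re_lt h').ne
  · exact Fin.ext h'
  · exact absurd (congrArg Complex.re h) (zN_re_lt h').ne'

theorem sum_zT (n : ℕ) : ∑ i, ∑ j, Real.log ‖zT n j - zT n i‖ =
    ∑ i ∈ range (40 * n), ∑ j ∈ range (40 * n), Real.log ‖zN n j - zN n i‖ := by
  unfold zT
  rw [← Fin.sum_univ_eq_sum_range (fun i => ∑ j ∈ range (40 * n), Real.log ‖zN n j - zN n i‖)]
  refine Finset.sum_congr rfl fun i _ => ?_
  rw [← Fin.sum_univ_eq_sum_range (fun j => Real.log ‖zN n j - zN n i‖)]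

theorem wTr_lower0 (n : ℕ) (hn : 1 ≤ n) : 0 < wTr (zT n) ∧
    -Real.log (wTr (zT n)) ≤ 16 * n ^ 2 * eZ - 800 * n ^ 2 * Real.log (4 * n) := by
  obtain ⟨hp, hl⟩ := log_wTr (zT n) (zT_inj n)
  refine ⟨hp, ?_⟩
  rw [hl, sum_zT, zN_sum n (fun w => ∑ j ∈ range (40 * n), Real.log ‖zN n j - w‖)]
  simp only [fun w : ℂ => zN_sum n (fun v => Real.log ‖v - w‖), Finset.sum_add_distrib]
  have hn0 : (0 : ℝ) < n := by exact_mod_cast hn
  have hc : (0 : ℝ) < 4 * n := by linarith
  -- the blocks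
  have b0 : ((12 * n : ℕ) : ℝ) = 4 * n * (1 - 0) * 3 := by push_cast; ring
  have b1 : ((8 * n : ℕ) : ℝ) = 4 * n * (2 - 1) * 2 := by push_cast; ring
  have b2 : ((10 * n : ℕ) : ℝ) = 4 * n * (4 - 2) * (5 / 4) := by push_cast; ring
  have b3 : ((6 * n : ℕ) : ℝ) = 4 * n * (6 - 4) * (3 / 4) := by push_cast; ring
  have b4 : ((4 * n : ℕ) : ℝ) = 4 * n * (8 - 6) * (1 / 2) := by push_cast; ring
  have e0 : (4 * n * 0 : ℝ) = 0 := by ring
  have e1 : (4 * n * 1 : ℝ) = 4 * n := by ring
  have e2 : (4 * n * 2 : ℝ) = 8 * n := by ring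
  have e4 : (4 * n * 4 : ℝ) = 16 * n := by ring
  have e6 : (4 * n * 6 : ℝ) = 24 * n := by ring
  have s00 := SS_same' hc (by norm_num) b0
  have s11 := SS_same' hc (by norm_num) b1
  have s22 := SS_same' hc (by norm_num) b2
  have s33 := SS_same' hc (by norm_num) b3
  have s44 := SS_same' hc (by norm_num) b4
  have s01 := SS_lt' hc (by norm_num) (by norm_num) b0 b1 (by norm_num)
  have s02 := SS_lt' hc (by norm_num) (by norm_num) b0 b2 (by norm_num)
  have s03 := SS_lt' hc (by norm_num) (by norm_num) b0 b3 (by norm_num)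
  have s04 := SS_lt' hc (by norm_num) (by norm_num) b0 b4 (by norm_num)
  have s12 := SS_lt' hc (by norm_num) (by norm_num) b1 b2 (by norm_num)
  have s13 := SS_lt' hc (by norm_num) (by norm_num) b1 b3 (by norm_num)
  have s14 := SS_lt' hc (by norm_num) (by norm_num) b1 b4 (by norm_num)
  have s23 := SS_lt' hc (by norm_num) (by norm_num) b2 b3 (by norm_num)
  have s24 := SS_lt' hc (by norm_num) (by norm_num) b2 b4 (by norm_num)
  have s34 := SS_lt' hc (by norm_num) (by norm_num) b3 b4 (by norm_num)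
  have s10 := s01
  have s20 := s02
  have s30 := s03
  have s40 := s04
  have s21 := s12
  have s31 := s13
  have s41 := s14
  have s32 := s23
  have s42 := s24
  have s43 := s34
  rw [SS_comm] at s10 s20 s30 s40 s21 s31 s41 s32 s42 s43
  simp only [SS, Kc, e0, e1, e2, e4, e6] at s00 s11 s22 s33 s44 s01 s02 s03 s04 s12 s13 s14 s23 s24 s34 s10 s20 s30 s40 s21 s31 s41 s32 s42 s43
  have g0 := Gu_zero
  have m1 : Gu (-1) = Gu 1 := Gu_neg 1
  have m2 : Gu (-2) = Gu 2 := Gu_neg 2
  have a01 : (0 : ℝ) - 1 = -1 := by norm_num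
  have a12 : (1 : ℝ) - 2 = -1 := by norm_num
  have a24 : (2 : ℝ) - 4 = -2 := by norm_num
  have a46 : (4 : ℝ) - 6 = -2 := by norm_num
  have a68 : (6 : ℝ) - 8 = -2 := by norm_num
  have a21 : (2 : ℝ) - 1 = 1 := by norm_num
  have a42 : (4 : ℝ) - 2 = 2 := by norm_num
  have a64 : (6 : ℝ) - 4 = 2 := by norm_num
  have a86 : (8 : ℝ) - 6 = 2 := by norm_num
  have a41 : (4 : ℝ) - 1 = 3 := by norm_num
  have a61 : (6 : ℝ) - 1 = 5 := by norm_num
  have a81 : (8 : ℝ) - 1 = 7 := by norm_num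
  have a62 : (6 : ℝ) - 2 = 4 := by norm_num
  have a82 : (8 : ℝ) - 2 = 6 := by norm_num
  have a84 : (8 : ℝ) - 4 = 4 := by norm_num
  simp only [sub_zero, sub_self, a01, a12, a24, a46, a68, a21, a42, a64, a86, a41, a61, a81, a62,
    a82, a84, g0, m1, m2] at s00 s11 s22 s33 s44 s01 s02 s03 s04 s12 s13 s14 s23 s24 s34 s10 s20 s30 s40 s21 s31 s41 s32 s42 s43
  unfold eZ
  linarith

end T2.R8c

namespace T2.R8

theorem wTr_lower : ∃ C : ℝ, ∀ n : ℕ, 1 ≤ n →
    0 < wTr (zT n) ∧
    -Real.log (wTr (zT n)) ≤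
      16 * n ^ 2 * eZ - 800 * n ^ 2 * Real.log (4 * n) + C * n * Real.log (n + 1) := by
  refine ⟨0, fun n hn => ?_⟩
  have h := T2.R8c.wTr_lower0 n hn
  refine ⟨h.1, h.2.trans (le_of_eq (by ring))⟩

end T2.R8
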