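import Pool.Agent.T2.R8a
import Pool.Agent.T2.R8c
import Pool.Agent.T2.R8Sep
import Pool.Agent.T2.R8Blk

/-! # T2, real side, R8d: self energy of the trial pair `S0`, `T0` -/

set_option autoImplicit false

namespace T2.R8d

open Finset Complex T2.R8 T2.R8c

/-- double sum over two blocks -/
noncomputable def DD (F : ℂ → ℂ → ℝ) (a d : ℝ) (L : ℕ) (a' d' : ℝ) (L' : ℕ) : ℝ :=
  ∑ j ∈ range L, ∑ k ∈ range L', F (tp a d j) (tp a' d' k)

noncomputable def Fm (z w : ℂ) : ℝ := Real.log ‖w - z‖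
noncomputable def Fp (z w : ℂ) : ℝ := Real.log ‖w + z‖

/-- the plus kernel -/
noncomputable def Kp (a b a' b' : ℝ) : ℝ :=
  (Gu (b' + b) - Gu (b' + a)) - (Gu (a' + b) - Gu (a' + a))

theorem Kp_scale {c : ℝ} (hc : 0 < c) (a b a' b' : ℝ) :
    Kp (c * a) (c * b) (c * a') (c * b') =
      c ^ 2 * (Kp a b a' b' + (b - a) * (b' - a') * Real.log c) := by
  unfold Kp
  simp only [← mul_add, Gu_scale hc]
  ring

theorem log_succ_ge (n : ℕ) (hn : 1 ≤ n) : 1 / 2 ≤ Real.log (n + 1) := by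
  have h1 : Real.log 2 ≤ Real.log (n + 1) := by
    apply Real.log_le_log (by norm_num)
    have : (1 : ℝ) ≤ n := by exact_mod_cast hn
    linarith
  have := Real.log_two_gt_d9
  linarith

theorem log_small (n : ℕ) (hn : 1 ≤ n) {y : ℝ} (h0 : 0 ≤ y) (hy : y ≤ 200 * n) :
    Real.log (2 + y) ≤ 13 * Real.log (n + 1) := by
  have hn1 : (1 : ℝ) ≤ n := by exact_mod_cast hn
  have h1 : Real.log (2 + y) ≤ Real.log (202 * (n + 1)) :=
    Real.log_le_log (by linarith) (by nlinarith)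
  rw [Real.log_mul (by norm_num) (by positivity)] at h1
  have h2 : Real.log 202 ≤ 6 := by
    have : Real.log 202 ≤ Real.log 256 := Real.log_le_log (by norm_num) (by norm_num)
    have e : Real.log 256 = 8 * Real.log 2 := by
      rw [show (256 : ℝ) = 2 ^ 8 by norm_num, Real.log_pow]; norm_num
    have := Real.log_two_lt_d9
    linarith
  have := log_succ_ge n hn
  linarith

/-- minus, separated blocks, upper bound -/
theorem minus_up {α β α' β' d d' : ℝ} (hd : 0 < d) (hd' : 0 < d') (hd1 : 1 / 8 ≤ d)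
    (hd2 : d ≤ 1) (hd2' : d' ≤ 1) {m m' : ℕ} (h4 : m ≤ 4) (h4' : m' ≤ 4)
    (hm : (m : ℝ) = 4 * (β - α) * d) (hm' : (m' : ℝ) = 4 * (β' - α') * d')
    (hα : 0 ≤ α) (h : β ≤ α') (hαβ : α ≤ β) (hαβ' : α' ≤ β') (hβ : β' ≤ 10) :
    ∀ n : ℕ, 1 ≤ n → DD Fm (4 * n * α) d (m * n) (4 * n * α') d' (m' * n) ≤
      d * d' * ((4 * n) ^ 2 * (Kc α β α' β' + (β - α) * (β' - α') * Real.log (4 * n)))
        + 400 * (n * Real.log (n + 1)) := by
  intro n hn
  have hC : m' * (d' / (2 * d)) * 2 + m * 13 + d * 2 ≤ 400 := by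
    have q1 : d' / (2 * d) ≤ 4 := by
      rw [div_le_iff₀ (by linarith)]; linarith
    have q2 : (m' : ℝ) ≤ 4 := by exact_mod_cast h4'
    have q3 : (m : ℝ) ≤ 4 := by exact_mod_cast h4
    have q4 : (m' : ℝ) * (d' / (2 * d)) ≤ 4 * 4 :=
      mul_le_mul q2 q1 (by positivity) (by norm_num)
    linarith
  refine le_trans ?_ (add_le_add_right (mul_le_mul_of_nonneg_right hC (mul_nonneg
    (Nat.cast_nonneg n) (Real.log_nonneg (by linarith [(Nat.cast_nonneg n : (0 : ℝ) ≤ n)])))) _)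
  have hn1 : (1 : ℝ) ≤ n := by exact_mod_cast hn
  have hc : (0 : ℝ) < 4 * n := by linarith
  have e1 : 4 * n * α + ((m * n : ℕ) : ℝ) / d = 4 * n * β := by
    push_cast; rw [hm]; field_simp; ring
  have e2 : 4 * n * α' + ((m' * n : ℕ) : ℝ) / d' = 4 * n * β' := by
    push_cast; rw [hm']; field_simp; ring
  have hD := D2_minus (a := 4 * n * α) (a' := 4 * n * α') hd hd' (m * n) (m' * n)
    (by rw [e1]; exact mul_le_mul_of_nonneg_left h hc.le)
  rw [e1, e2] at hD
  have hD' := (abs_le.1 hD).2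
  have e3 : (Gu (4 * n * β' - 4 * n * α) - Gu (4 * n * β' - 4 * n * β)) -
      (Gu (4 * n * α' - 4 * n * α) - Gu (4 * n * α' - 4 * n * β)) =
      (4 * n) ^ 2 * (Kc α β α' β' + (β - α) * (β' - α') * Real.log (4 * n)) := by
    rw [← Kc_scale hc]
    unfold Kc
    ring
  rw [e3] at hD'
  have e4 : DD Fm (4 * n * α) d (m * n) (4 * n * α') d' (m' * n) =
      ∑ j ∈ range (m' * n), ∑ i ∈ range (m * n),
        Real.log ‖tp (4 * n * α') d' j - tp (4 * n * α) d i‖ := by
    unfold DD Fm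
    rw [Finset.sum_comm]
  rw [e4]
  have l1 := log_succ_ge n hn
  have l2 : Real.log (2 + (4 * n * β' - 4 * n * α)) ≤ 13 * Real.log (n + 1) := by
    apply log_small n hn
    · have : (4 * n : ℝ) * α ≤ 4 * n * β' := mul_le_mul_of_nonneg_left (by linarith) hc.le
      linarith
    · have h1 : (4 * n : ℝ) * β' ≤ 4 * n * 10 := mul_le_mul_of_nonneg_left hβ hc.le
      have h2 : 0 ≤ (4 * n : ℝ) * α := by positivity
      linarith
  have b1 : ((m' * n : ℕ) : ℝ) * d' / (2 * d) ≤ m' * (d' / (2 * d)) * 2 * n * Real.log (n + 1) := by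
    push_cast
    have : 0 ≤ (m' : ℝ) * (d' / (2 * d)) * n := by positivity
    calc (m' : ℝ) * n * d' / (2 * d) = m' * (d' / (2 * d)) * n * 1 := by ring
      _ ≤ m' * (d' / (2 * d)) * n * (2 * Real.log (n + 1)) :=
        mul_le_mul_of_nonneg_left (by linarith) this
      _ = _ := by ring
  have b2 : ((m * n : ℕ) : ℝ) * Real.log (2 + (4 * n * β' - 4 * n * α)) ≤
      m * 13 * n * Real.log (n + 1) := by
    push_cast
    have : 0 ≤ (m : ℝ) * n := by positivity
    calc (m : ℝ) * n * Real.log (2 + (4 * n * β' - 4 * n * α)) ≤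
        m * n * (13 * Real.log (n + 1)) := mul_le_mul_of_nonneg_left l2 this
      _ = _ := by ring
  have b3 : d ≤ d * 2 * n * Real.log (n + 1) := by
    have h1 : (1 : ℝ) / 2 ≤ n * Real.log (n + 1) := by nlinarith
    nlinarith
  nlinarith [hD', b1, b2, b3]

/-- plus, both bounds -/
theorem plus_abs {α β α' β' d d' : ℝ} (hd : 0 < d) (hd' : 0 < d') (hd1 : 1 / 8 ≤ d)
    (hd2 : d ≤ 1) {m m' : ℕ} (h4 : m ≤ 4) (h4' : m' ≤ 4)
    (hm : (m : ℝ) = 4 * (β - α) * d) (hm' : (m' : ℝ) = 4 * (β' - α') * d')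
    (hα : 0 ≤ α) (hα' : 0 ≤ α') (hαβ : α ≤ β) (hαβ' : α' ≤ β') (hβ : β ≤ 10) (hβ' : β' ≤ 10) :
    ∀ n : ℕ, 1 ≤ n → |DD Fp (4 * n * α) d (m * n) (4 * n * α') d' (m' * n) -
      d * d' * ((4 * n) ^ 2 * (Kp α β α' β' + (β - α) * (β' - α') * Real.log (4 * n)))|
        ≤ 400 * (n * Real.log (n + 1)) := by
  intro n hn
  have hC : m' * (2 / d + 16 * d) * 2 + m * 13 + d * 2 ≤ 400 := by
    have q1 : 2 / d ≤ 16 := by
      rw [div_le_iff₀ (by linarith)]; linarith
    have q2 : (m' : ℝ) ≤ 4 := by exact_mod_cast h4'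
    have q3 : (m : ℝ) ≤ 4 := by exact_mod_cast h4
    have q4 : (m' : ℝ) * (2 / d + 16 * d) ≤ 4 * 32 :=
      mul_le_mul q2 (by linarith) (by positivity) (by norm_num)
    linarith
  refine le_trans ?_ (mul_le_mul_of_nonneg_right hC (mul_nonneg
    (Nat.cast_nonneg n) (Real.log_nonneg (by linarith [(Nat.cast_nonneg n : (0 : ℝ) ≤ n)]))))
  have hn1 : (1 : ℝ) ≤ n := by exact_mod_cast hn
  have hc : (0 : ℝ) < 4 * n := by linarith
  have e1 : 4 * n * α + ((m * n : ℕ) : ℝ) / d = 4 * n * β := by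
    push_cast; rw [hm]; field_simp; ring
  have e2 : 4 * n * α' + ((m' * n : ℕ) : ℝ) / d' = 4 * n * β' := by
    push_cast; rw [hm']; field_simp; ring
  have hD := D2_plus (a := 4 * n * α) (a' := 4 * n * α') hd hd' (m * n) (m' * n)
    (by positivity)
  rw [e1, e2] at hD
  have e3 : (Gu (4 * n * β' + 4 * n * β) - Gu (4 * n * β' + 4 * n * α)) -
      (Gu (4 * n * α' + 4 * n * β) - Gu (4 * n * α' + 4 * n * α)) =
      (4 * n) ^ 2 * (Kp α β α' β' + (β - α) * (β' - α') * Real.log (4 * n)) := by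
    rw [← Kp_scale hc]
    unfold Kp
    ring
  rw [e3] at hD
  have e4 : DD Fp (4 * n * α) d (m * n) (4 * n * α') d' (m' * n) =
      ∑ j ∈ range (m' * n), ∑ i ∈ range (m * n),
        Real.log ‖tp (4 * n * α') d' j + tp (4 * n * α) d i‖ := by
    unfold DD Fp
    rw [Finset.sum_comm]
  rw [e4]
  refine hD.trans ?_
  have l1 := log_succ_ge n hn
  have l2 : Real.log (2 + (4 * n * β' + 4 * n * β)) ≤ 13 * Real.log (n + 1) := by
    apply log_small n hn
    · have h1 : 0 ≤ (4 * n : ℝ) * β := by have := hα.trans hαβ; positivity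
      have h2 : 0 ≤ (4 * n : ℝ) * β' := by have := hα'.trans hαβ'; positivity
      linarith
    · have h1 : (4 * n : ℝ) * β' ≤ 4 * n * 10 := mul_le_mul_of_nonneg_left hβ' hc.le
      have h2 : (4 * n : ℝ) * β ≤ 4 * n * 10 := mul_le_mul_of_nonneg_left hβ hc.le
      linarith
  have b1 : ((m' * n : ℕ) : ℝ) * (2 / d + 16 * d) ≤
      m' * (2 / d + 16 * d) * 2 * n * Real.log (n + 1) := by
    push_cast
    have : 0 ≤ (m' : ℝ) * (2 / d + 16 * d) * n := by positivity
    calc (m' : ℝ) * n * (2 / d + 16 * d) = m' * (2 / d + 16 * d) * n * 1 := by ring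
      _ ≤ m' * (2 / d + 16 * d) * n * (2 * Real.log (n + 1)) :=
        mul_le_mul_of_nonneg_left (by linarith) this
      _ = _ := by ring
  have b2 : ((m * n : ℕ) : ℝ) * Real.log (2 + (4 * n * β' + 4 * n * β)) ≤
      m * 13 * n * Real.log (n + 1) := by
    push_cast
    have : 0 ≤ (m : ℝ) * n := by positivity
    calc (m : ℝ) * n * Real.log (2 + (4 * n * β' + 4 * n * β)) ≤
        m * n * (13 * Real.log (n + 1)) := mul_le_mul_of_nonneg_left l2 this
      _ = _ := by ring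
  have b3 : d ≤ d * 2 * n * Real.log (n + 1) := by
    have h1 : (1 : ℝ) / 2 ≤ n * Real.log (n + 1) := by nlinarith
    nlinarith
  nlinarith [b1, b2, b3]

/-- diagonal terms of one block -/
theorem diag_le {α β d : ℝ} (hd : 0 < d) {m : ℕ} (h4 : m ≤ 4)
    (hm : (m : ℝ) = 4 * (β - α) * d) (hα : 0 ≤ α) (hβ : β ≤ 10) (n : ℕ) (hn : 1 ≤ n) :
    ∑ j ∈ range (m * n), Real.log ‖tp (4 * n * α) d j + tp (4 * n * α) d j‖ ≤
      52 * (n * Real.log (n + 1)) := by
  have hn1 : (1 : ℝ) ≤ n := by exact_mod_cast hn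
  have l1 := log_succ_ge n hn
  have hterm : ∀ j ∈ range (m * n),
      Real.log ‖tp (4 * n * α) d j + tp (4 * n * α) d j‖ ≤ 13 * Real.log (n + 1) := by
    intro j hj
    have hj' : (j : ℝ) + 1 ≤ m * n := by exact_mod_cast Finset.mem_range.1 hj
    have hx : 0 ≤ tr (4 * n * α) d j := by unfold tr; positivity
    have hx2 : tr (4 * n * α) d j ≤ 40 * n := by
      unfold tr
      have h1 : ((j : ℝ) + 1 / 2) / d ≤ (m * n) / d :=
        div_le_div_of_nonneg_right (by linarith) hd.le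
      have h2 : ((m : ℝ) * n) / d = 4 * n * (β - α) := by
        rw [hm]; field_simp
      nlinarith
    have e : tp (4 * n * α) d j + tp (4 * n * α) d j =
        ((2 * tr (4 * n * α) d j : ℝ) : ℂ) + 2 * Complex.I := by
      unfold tp tr; push_cast; ring
    have hnorm : ‖tp (4 * n * α) d j + tp (4 * n * α) d j‖ ≤ 2 + 2 * tr (4 * n * α) d j := by
      rw [e]
      refine (norm_add_le _ _).trans ?_
      rw [Complex.norm_real, Real.norm_eq_abs, abs_of_nonneg (by linarith), norm_mul,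
        Complex.norm_I]
      simp only [Complex.norm_ofNat]
      linarith
    have hpos : 0 < ‖tp (4 * n * α) d j + tp (4 * n * α) d j‖ := by
      rw [norm_pos_iff, e]
      intro h
      have := congrArg Complex.im h
      simp at this
    refine (Real.log_le_log hpos hnorm).trans (log_small n hn (by linarith) (by linarith))
  refine (Finset.sum_le_sum hterm).trans ?_
  rw [Finset.sum_const, Finset.card_range, nsmul_eq_mul]
  have q3 : (m : ℝ) ≤ 4 := by exact_mod_cast h4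
  push_cast
  have : 0 ≤ (n : ℝ) * Real.log (n + 1) := by positivity
  nlinarith

/-! ### splitting -/

theorem split_S (F : ℂ → ℂ → ℝ) (n : ℕ) : ∑ i, ∑ j, F (sT n i) (sT n j) =
    DD F (4 * n * 4) (1 / 8) (1 * n) (4 * n * 4) (1 / 8) (1 * n)
    + DD F (4 * n * 4) (1 / 8) (1 * n) (4 * n * 6) (1 / 4) (2 * n)
    + DD F (4 * n * 4) (1 / 8) (1 * n) (4 * n * 8) (1 / 2) (4 * n)
    + (DD F (4 * n * 6) (1 / 4) (2 * n) (4 * n * 4) (1 / 8) (1 * n)
    + DD F (4 * n * 6) (1 / 4) (2 * n) (4 * n * 6) (1 / 4) (2 * n)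
    + DD F (4 * n * 6) (1 / 4) (2 * n) (4 * n * 8) (1 / 2) (4 * n))
    + (DD F (4 * n * 8) (1 / 2) (4 * n) (4 * n * 4) (1 / 8) (1 * n)
    + DD F (4 * n * 8) (1 / 2) (4 * n) (4 * n * 6) (1 / 4) (2 * n)
    + DD F (4 * n * 8) (1 / 2) (4 * n) (4 * n * 8) (1 / 2) (4 * n)) := by
  have e4 : (4 * n * 4 : ℝ) = 16 * n := by ring
  have e6 : (4 * n * 6 : ℝ) = 24 * n := by ring
  have e8 : (4 * n * 8 : ℝ) = 32 * n := by ring
  simp only [DD, e4, e6, e8, one_mul]
  rw [sum_sT n (fun z => ∑ j, F z (sT n j))]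
  simp only [fun z : ℂ => sum_sT n (F z), Finset.sum_add_distrib]

theorem split_T (F : ℂ → ℂ → ℝ) (n : ℕ) : ∑ i, ∑ j, F (tT n i) (tT n j) =
    DD F (4 * n * 0) 1 (4 * n) (4 * n * 0) 1 (4 * n)
    + DD F (4 * n * 0) 1 (4 * n) (4 * n * 1) (1 / 2) (2 * n)
    + DD F (4 * n * 0) 1 (4 * n) (4 * n * 2) (1 / 8) (1 * n)
    + (DD F (4 * n * 1) (1 / 2) (2 * n) (4 * n * 0) 1 (4 * n)
    + DD F (4 * n * 1) (1 / 2) (2 * n) (4 * n * 1) (1 / 2) (2 * n)
    + DD F (4 * n * 1) (1 / 2) (2 * n) (4 * n * 2) (1 / 8) (1 * n))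
    + (DD F (4 * n * 2) (1 / 8) (1 * n) (4 * n * 0) 1 (4 * n)
    + DD F (4 * n * 2) (1 / 8) (1 * n) (4 * n * 1) (1 / 2) (2 * n)
    + DD F (4 * n * 2) (1 / 8) (1 * n) (4 * n * 2) (1 / 8) (1 * n)) := by
  have e0 : (4 * n * 0 : ℝ) = 0 := by ring
  have e1 : (4 * n * 1 : ℝ) = 4 * n := by ring
  have e2 : (4 * n * 2 : ℝ) = 8 * n := by ring
  simp only [DD, e0, e1, e2, one_mul]
  rw [sum_tT n (fun z => ∑ j, F z (tT n j))]
  simp only [fun z : ℂ => sum_tT n (F z), Finset.sum_add_distrib]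

theorem split_TS (F : ℂ → ℂ → ℝ) (n : ℕ) : ∑ i, ∑ j, F (tT n i) (sT n j) =
    DD F (4 * n * 0) 1 (4 * n) (4 * n * 4) (1 / 8) (1 * n)
    + DD F (4 * n * 0) 1 (4 * n) (4 * n * 6) (1 / 4) (2 * n)
    + DD F (4 * n * 0) 1 (4 * n) (4 * n * 8) (1 / 2) (4 * n)
    + (DD F (4 * n * 1) (1 / 2) (2 * n) (4 * n * 4) (1 / 8) (1 * n)
    + DD F (4 * n * 1) (1 / 2) (2 * n) (4 * n * 6) (1 / 4) (2 * n)
    + DD F (4 * n * 1) (1 / 2) (2 * n) (4 * n * 8) (1 / 2) (4 * n))
    + (DD F (4 * n * 2) (1 / 8) (1 * n) (4 * n * 4) (1 / 8) (1 * n)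
    + DD F (4 * n * 2) (1 / 8) (1 * n) (4 * n * 6) (1 / 4) (2 * n)
    + DD F (4 * n * 2) (1 / 8) (1 * n) (4 * n * 8) (1 / 2) (4 * n)) := by
  have e0 : (4 * n * 0 : ℝ) = 0 := by ring
  have e1 : (4 * n * 1 : ℝ) = 4 * n := by ring
  have e2 : (4 * n * 2 : ℝ) = 8 * n := by ring
  have e4 : (4 * n * 4 : ℝ) = 16 * n := by ring
  have e6 : (4 * n * 6 : ℝ) = 24 * n := by ring
  have e8 : (4 * n * 8 : ℝ) = 32 * n := by ring
  simp only [DD, e0, e1, e2, e4, e6, e8, one_mul]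
  rw [sum_tT n (fun z => ∑ j, F z (sT n j))]
  simp only [fun z : ℂ => sum_sT n (F z), Finset.sum_add_distrib]

theorem log_sq_sub (z w : ℂ) : Fm z w + Fp z w - (if z = w then Real.log ‖z + z‖ else 0) ≤
    Real.log ‖w ^ 2 - z ^ 2‖ ∨ z = -w := by
  by_cases h : z = -w
  · exact Or.inr h
  · left
    unfold Fm Fp
    split_ifs with hzw
    · subst hzw
      simp
    · rw [sq_sub_sq, norm_mul, Real.log_mul, sub_zero, add_comm]
      · rw [norm_ne_zero_iff]
        intro h'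
        apply h
        linear_combination h'
      · rw [norm_ne_zero_iff]
        intro h'
        apply hzw
        linear_combination -h'

/-- `log` of the Vandermonde of the squares, lower bound -/
theorem log_sq_vand {m : ℕ} (z : Fin m → ℂ) (hz : Function.Injective (fun l => z l ^ 2))
    (him : ∀ l, (z l).im = 1) :
    ∑ i, ∑ j, Fm (z i) (z j) + ∑ i, ∑ j, Fp (z i) (z j) - ∑ i, Real.log ‖z i + z i‖ ≤
      2 * Real.log (∏ i, ∏ j ∈ Ioi i, ‖z j ^ 2 - z i ^ 2‖) := by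
  have h := (log_wTr (fun l => z l ^ 2) hz).2
  unfold wTr at h
  rw [h]
  have hz' : Function.Injective z := fun a b hab => hz (by simp only [hab])
  have key : ∀ i j, Fm (z i) (z j) + Fp (z i) (z j) - (if i = j then Real.log ‖z i + z i‖ else 0)
      ≤ Real.log ‖z j ^ 2 - z i ^ 2‖ := by
    intro i j
    rcases log_sq_sub (z i) (z j) with h | h
    · simpa only [hz'.eq_iff] using h
    · exfalso
      have := congrArg Complex.im h
      rw [Complex.neg_im, him, him] at this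
      norm_num at this
  have := Finset.sum_le_sum fun i (_ : i ∈ univ) => Finset.sum_le_sum fun j (_ : j ∈ univ) =>
    key i j
  simp only [Finset.sum_sub_distrib, Finset.sum_add_distrib, Finset.sum_ite_eq, Finset.mem_univ,
    if_true] at this
  linarith

theorem log_cross {m : ℕ} (z w : Fin m → ℂ) (h1 : ∀ i j, z i - w j ≠ 0) (h2 : ∀ i j, z i + w j ≠ 0) :
    Real.log (∏ k, ∏ l, ‖z k ^ 2 - w l ^ 2‖) =
      ∑ i, ∑ j, Fm (z i) (w j) + ∑ i, ∑ j, Fp (z i) (w j) := by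
  have hne : ∀ k l, ‖z k ^ 2 - w l ^ 2‖ ≠ 0 := by
    intro k l
    rw [sq_sub_sq, norm_mul]
    exact mul_ne_zero (norm_ne_zero_iff.2 (h2 k l)) (norm_ne_zero_iff.2 (h1 k l))
  rw [Real.log_prod (fun k _ => Finset.prod_ne_zero_iff.2 fun l _ => hne k l)]
  rw [← Finset.sum_add_distrib]
  refine Finset.sum_congr rfl fun k _ => ?_
  rw [Real.log_prod (fun l _ => hne k l), ← Finset.sum_add_distrib]
  refine Finset.sum_congr rfl fun l _ => ?_
  rw [sq_sub_sq, norm_mul, Real.log_mul (norm_ne_zero_iff.2 (h2 k l)) (norm_ne_zero_iff.2 (h1 k l))]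
  unfold Fm Fp
  rw [norm_sub_rev (w l) (z k), add_comm (w l) (z k)]
  ring

/-- lower bound for the two-kernel energy of two blocks (minus part) -/
theorem minus_lt {n : ℕ} (hn : 1 ≤ n) {α β α' β' d d' : ℝ} (hd : 0 < d) (hd' : 0 < d')
    {m m' : ℕ} (hm : (m : ℝ) = 4 * (β - α) * d) (hm' : (m' : ℝ) = 4 * (β' - α') * d')
    (h : β ≤ α') :
    d * d' * ((4 * n) ^ 2 * (Kc α β α' β' + (β - α) * (β' - α') * Real.log (4 * n))) ≤
      DD Fm (4 * n * α) d (m * n) (4 * n * α') d' (m' * n) := by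
  have hc : (0 : ℝ) < 4 * n := by
    have : (1 : ℝ) ≤ n := by exact_mod_cast hn
    linarith
  exact SS_lt' hc hd hd' (by push_cast; rw [hm]; ring) (by push_cast; rw [hm']; ring) h

theorem minus_gt {n : ℕ} (hn : 1 ≤ n) {α β α' β' d d' : ℝ} (hd : 0 < d) (hd' : 0 < d')
    {m m' : ℕ} (hm : (m : ℝ) = 4 * (β - α) * d) (hm' : (m' : ℝ) = 4 * (β' - α') * d')
    (h : β' ≤ α) :
    d * d' * ((4 * n) ^ 2 * (Kc α β α' β' + (β - α) * (β' - α') * Real.log (4 * n))) ≤
      DD Fm (4 * n * α) d (m * n) (4 * n * α') d' (m' * n) := by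
  have h1 := minus_lt hn hd' hd hm' hm h
  have e : DD Fm (4 * n * α) d (m * n) (4 * n * α') d' (m' * n) =
      DD Fm (4 * n * α') d' (m' * n) (4 * n * α) d (m * n) :=
    SS_comm _ _ _ _ _ _
  rw [e, Kc_comm]
  refine le_trans (le_of_eq ?_) h1
  ring

theorem pair_same' {a d : ℝ} (hd : 1 / 8 ≤ d) (j k : ℕ) :
    d * d * Kc (a + (j : ℝ) / d) (a + ((j : ℝ) + 1) / d) (a + (k : ℝ) / d)
      (a + ((k : ℝ) + 1) / d) ≤ Real.log (tr a d k - tr a d j) + (if j = k then 1 else 0) := by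
  have hd0 : 0 < d := by linarith
  rcases lt_trichotomy j k with h | h | h
  · rw [if_neg h.ne, add_zero]
    apply pair_lt hd0 hd0
    have : (j : ℝ) + 1 ≤ k := by exact_mod_cast h
    have := div_le_div_of_nonneg_right this hd0.le
    linarith
  · subst h
    rw [sub_self, Real.log_zero, if_pos rfl]
    unfold Kc
    rw [sub_self, sub_self, T2.R8c.Gu_zero, ← T2.R8c.Gu_neg ((a + (j : ℝ) / d) - _)]
    have e : a + ((j : ℝ) + 1) / d - (a + (j : ℝ) / d) = 1 / d := by field_simp; ring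
    have e' : -(a + (j : ℝ) / d - (a + ((j : ℝ) + 1) / d)) = 1 / d := by field_simp; ring
    rw [e, e']
    have h1 : (1 : ℝ) / d ≤ 8 := by
      rw [div_le_iff₀ hd0]; linarith
    have h2 : Real.log (1 / d) ≤ 5 / 2 := by
      have q1 : Real.log (1 / d) ≤ Real.log 8 := Real.log_le_log (by positivity) h1
      have q2 : Real.log 8 = 3 * Real.log 2 := by
        rw [show (8 : ℝ) = 2 ^ 3 by norm_num, Real.log_pow]; norm_num
      have := Real.log_two_lt_d9
      linarith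
    unfold Gu
    have e3 : d * d * ((1 / d) ^ 2 / 2 * Real.log (1 / d) - 3 / 4 * (1 / d) ^ 2 +
        ((1 / d) ^ 2 / 2 * Real.log (1 / d) - 3 / 4 * (1 / d) ^ 2) - 0 - 0) =
        Real.log (1 / d) - 3 / 2 := by
      field_simp
      ring
    rw [e3]
    linarith
  · rw [if_neg h.ne', add_zero, Kc_comm]
    have : tr a d k - tr a d j = -(tr a d j - tr a d k) := by ring
    rw [this, Real.log_neg_eq_log]
    apply pair_lt hd0 hd0
    have : (k : ℝ) + 1 ≤ j := by exact_mod_cast h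
    have := div_le_div_of_nonneg_right this hd0.le
    linarith

theorem minus_eq {n : ℕ} (hn : 1 ≤ n) {α β d : ℝ} (hd : 1 / 8 ≤ d)
    {m : ℕ} (h4 : m ≤ 4) (hm : (m : ℝ) = 4 * (β - α) * d) :
    d * d * ((4 * n) ^ 2 * (Kc α β α β + (β - α) * (β - α) * Real.log (4 * n)))
      - 400 * (n * Real.log (n + 1)) ≤
      DD Fm (4 * n * α) d (m * n) (4 * n * α) d (m * n) := by
  have hn1 : (1 : ℝ) ≤ n := by exact_mod_cast hn
  have hc : (0 : ℝ) < 4 * n := by linarith
  have hd0 : 0 < d := by linarith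
  have e1 : 4 * n * α + ((m * n : ℕ) : ℝ) / d = 4 * n * β := by
    push_cast; rw [hm]; field_simp; ring
  have hK := Kc_sum (4 * n * α) d (4 * n * α) d (m * n) (m * n)
  rw [e1, Kc_scale hc] at hK
  rw [← hK, Finset.mul_sum]
  have h1 : ∑ j ∈ range (m * n), d * d * ∑ k ∈ range (m * n),
      Kc (4 * n * α + (j : ℝ) / d) (4 * n * α + ((j : ℝ) + 1) / d)
        (4 * n * α + (k : ℝ) / d) (4 * n * α + ((k : ℝ) + 1) / d) ≤
      ∑ j ∈ range (m * n), ∑ k ∈ range (m * n),
        (Fm (tp (4 * n * α) d j) (tp (4 * n * α) d k) + (if j = k then 1 else 0)) := by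
    refine Finset.sum_le_sum fun j _ => ?_
    rw [Finset.mul_sum]
    refine Finset.sum_le_sum fun k _ => ?_
    unfold Fm
    rw [norm_tp]
    exact pair_same' hd j k
  have h2 : ∑ j ∈ range (m * n), ∑ k ∈ range (m * n),
        (Fm (tp (4 * n * α) d j) (tp (4 * n * α) d k) + (if j = k then 1 else 0)) =
        DD Fm (4 * n * α) d (m * n) (4 * n * α) d (m * n) + ((m * n : ℕ) : ℝ) := by
    unfold DD
    simp only [Finset.sum_add_distrib, Finset.sum_ite_eq, Finset.mem_range]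
    congr 1
    rw [Finset.sum_congr rfl (fun j hj => if_pos (Finset.mem_range.1 hj))]
    simp
  rw [h2] at h1
  have l1 := log_succ_ge n hn
  have q3 : (m : ℝ) ≤ 4 := by exact_mod_cast h4
  have h3 : ((m * n : ℕ) : ℝ) ≤ 400 * (n * Real.log (n + 1)) := by
    push_cast
    nlinarith
  linarith

/-- the energy in terms of block kernels -/
noncomputable def XX : ℝ :=
  0 - (1 / 8) * (1 / 8) * (Kc 4 6 4 6 + Kp 4 6 4 6)
    - (1 / 8) * (1 / 4) * (Kc 4 6 6 8 + Kp 4 6 6 8)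
    - (1 / 8) * (1 / 2) * (Kc 4 6 8 10 + Kp 4 6 8 10)
    - (1 / 4) * (1 / 8) * (Kc 6 8 4 6 + Kp 6 8 4 6)
    - (1 / 4) * (1 / 4) * (Kc 6 8 6 8 + Kp 6 8 6 8)
    - (1 / 4) * (1 / 2) * (Kc 6 8 8 10 + Kp 6 8 8 10)
    - (1 / 2) * (1 / 8) * (Kc 8 10 4 6 + Kp 8 10 4 6)
    - (1 / 2) * (1 / 4) * (Kc 8 10 6 8 + Kp 8 10 6 8)
    - (1 / 2) * (1 / 2) * (Kc 8 10 8 10 + Kp 8 10 8 10)
    - 1 * 1 * (Kc 0 1 0 1 + Kp 0 1 0 1)
    - 1 * (1 / 2) * (Kc 0 1 1 2 + Kp 0 1 1 2)
    - 1 * (1 / 8) * (Kc 0 1 2 4 + Kp 0 1 2 4)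
    - (1 / 2) * 1 * (Kc 1 2 0 1 + Kp 1 2 0 1)
    - (1 / 2) * (1 / 2) * (Kc 1 2 1 2 + Kp 1 2 1 2)
    - (1 / 2) * (1 / 8) * (Kc 1 2 2 4 + Kp 1 2 2 4)
    - (1 / 8) * 1 * (Kc 2 4 0 1 + Kp 2 4 0 1)
    - (1 / 8) * (1 / 2) * (Kc 2 4 1 2 + Kp 2 4 1 2)
    - (1 / 8) * (1 / 8) * (Kc 2 4 2 4 + Kp 2 4 2 4)
    + 2 * (1 * (1 / 8)) * (Kc 0 1 4 6 + Kp 0 1 4 6)
    + 2 * (1 * (1 / 4)) * (Kc 0 1 6 8 + Kp 0 1 6 8)
    + 2 * (1 * (1 / 2)) * (Kc 0 1 8 10 + Kp 0 1 8 10)
    + 2 * ((1 / 2) * (1 / 8)) * (Kc 1 2 4 6 + Kp 1 2 4 6)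
    + 2 * ((1 / 2) * (1 / 4)) * (Kc 1 2 6 8 + Kp 1 2 6 8)
    + 2 * ((1 / 2) * (1 / 2)) * (Kc 1 2 8 10 + Kp 1 2 8 10)
    + 2 * ((1 / 8) * (1 / 8)) * (Kc 2 4 4 6 + Kp 2 4 4 6)
    + 2 * ((1 / 8) * (1 / 4)) * (Kc 2 4 6 8 + Kp 2 4 6 8)
    + 2 * ((1 / 8) * (1 / 2)) * (Kc 2 4 8 10 + Kp 2 4 8 10)

theorem XX_eq : XX = eC := by
  have j0 : Qj 0 = 1 := rfl
  have j1 : Qj 1 = 3 / 4 := rfl
  have j2 : Qj 2 = 1 / 2 := rfl
  have j3 : Qj 3 = 1 / 4 := rfl
  have j4 : Qj 4 = 1 / 2 := rfl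
  have j5 : Qj 5 = -1 := rfl
  have k0 : Qe 0 = 1 := rfl
  have k1 : Qe 1 = 2 := rfl
  have k2 : Qe 2 = 4 := rfl
  have k3 : Qe 3 = 6 := rfl
  have k4 : Qe 4 = 8 := rfl
  have k5 : Qe 5 = 10 := rfl
  unfold XX eC Kc Kp
  simp only [Fin.sum_univ_six, j0, j1, j2, j3, j4, j5, k0, k1, k2, k3, k4, k5]
  norm_num [T2.R8c.Gu_neg, T2.R8c.Gu_zero]
  ring

theorem S_part (n : ℕ) (hn : 1 ≤ n) :
    (4 * n) ^ 2 * ((1 / 8) * (1 / 8) * (Kc 4 6 4 6 + Kp 4 6 4 6) + (1 / 8) * (1 / 4) * (Kc 4 6 6 8 + Kp 4 6 6 8) + (1 / 8) * (1 / 2) * (Kc 4 6 8 10 + Kp 4 6 8 10) + (1 / 4) * (1 / 8) * (Kc 6 8 4 6 + Kp 6 8 4 6) + (1 / 4) * (1 / 4) * (Kc 6 8 6 8 + Kp 6 8 6 8) + (1 / 4) * (1 / 2) * (Kc 6 8 8 10 + Kp 6 8 8 10) + (1 / 2) * (1 / 8) * (Kc 8 10 4 6 + Kp 8 10 4 6) + (1 / 2) * (1 / 4) * (Kc 8 10 6 8 + Kp 8 10 6 8) + (1 / 2) * (1 / 2) * (Kc 8 10 8 10 + Kp 8 10 8 10)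
      + 49 / 8 * Real.log (4 * n)) - 8000 * (n * Real.log (n + 1)) ≤
      ∑ i, ∑ j, Fm (sT n i) (sT n j) + ∑ i, ∑ j, Fp (sT n i) (sT n j) := by
  rw [split_S, split_S]
  have hE : 0 ≤ (n : ℝ) * Real.log (n + 1) := by
    have := log_succ_ge n hn
    positivity
  have h1 := minus_eq hn (α := 4) (β := 6) (d := (1 / 8)) (m := 1) (by norm_num) (by norm_num) (by norm_num)
  have h2 := minus_lt hn (α := 4) (β := 6) (α' := 6) (β' := 8) (d := (1 / 8)) (d' := (1 / 4)) (m := 1) (m' := 2) (by norm_num) (by norm_num) (by norm_num) (by norm_num) (by norm_num)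
  have h3 := minus_lt hn (α := 4) (β := 6) (α' := 8) (β' := 10) (d := (1 / 8)) (d' := (1 / 2)) (m := 1) (m' := 4) (by norm_num) (by norm_num) (by norm_num) (by norm_num) (by norm_num)
  have h4 := minus_gt hn (α := 6) (β := 8) (α' := 4) (β' := 6) (d := (1 / 4)) (d' := (1 / 8)) (m := 2) (m' := 1) (by norm_num) (by norm_num) (by norm_num) (by norm_num) (by norm_num)
  have h5 := minus_eq hn (α := 6) (β := 8) (d := (1 / 4)) (m := 2) (by norm_num) (by norm_num) (by norm_num)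
  have h6 := minus_lt hn (α := 6) (β := 8) (α' := 8) (β' := 10) (d := (1 / 4)) (d' := (1 / 2)) (m := 2) (m' := 4) (by norm_num) (by norm_num) (by norm_num) (by norm_num) (by norm_num)
  have h7 := minus_gt hn (α := 8) (β := 10) (α' := 4) (β' := 6) (d := (1 / 2)) (d' := (1 / 8)) (m := 4) (m' := 1) (by norm_num) (by norm_num) (by norm_num) (by norm_num) (by norm_num)
  have h8 := minus_gt hn (α := 8) (β := 10) (α' := 6) (β' := 8) (d := (1 / 2)) (d' := (1 / 4)) (m := 4) (m' := 2) (by norm_num) (by norm_num) (by norm_num) (by norm_num) (by norm_num)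
  have h9 := minus_eq hn (α := 8) (β := 10) (d := (1 / 2)) (m := 4) (by norm_num) (by norm_num) (by norm_num)
  have h10 := (abs_le.1 (plus_abs (α := 4) (β := 6) (α' := 4) (β' := 6) (d := (1 / 8)) (d' := (1 / 8)) (m := 1) (m' := 1) (by norm_num) (by norm_num) (by norm_num) (by norm_num) (by norm_num) (by norm_num) (by norm_num) (by norm_num) (by norm_num) (by norm_num) (by norm_num) (by norm_num) (by norm_num) (by norm_num) n hn)).1
  have h11 := (abs_le.1 (plus_abs (α := 4) (β := 6) (α' := 6) (β' := 8) (d := (1 / 8)) (d' := (1 / 4)) (m := 1) (m' := 2) (by norm_num) (by norm_num) (by norm_num) (by norm_num) (by norm_num) (by norm_num) (by norm_num) (by norm_num) (by norm_num) (by norm_num) (by norm_num) (by norm_num) (by norm_num) (by norm_num) n hn)).1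
  have h12 := (abs_le.1 (plus_abs (α := 4) (β := 6) (α' := 8) (β' := 10) (d := (1 / 8)) (d' := (1 / 2)) (m := 1) (m' := 4) (by norm_num) (by norm_num) (by norm_num) (by norm_num) (by norm_num) (by norm_num) (by norm_num) (by norm_num) (by norm_num) (by norm_num) (by norm_num) (by norm_num) (by norm_num) (by norm_num) n hn)).1
  have h13 := (abs_le.1 (plus_abs (α := 6) (β := 8) (α' := 4) (β' := 6) (d := (1 / 4)) (d' := (1 / 8)) (m := 2) (m' := 1) (by norm_num) (by norm_num) (by norm_num) (by norm_num) (by norm_num) (by norm_num) (by norm_num) (by norm_num) (by norm_num) (by norm_num) (by norm_num) (by norm_num) (by norm_num) (by norm_num) n hn)).1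
  have h14 := (abs_le.1 (plus_abs (α := 6) (β := 8) (α' := 6) (β' := 8) (d := (1 / 4)) (d' := (1 / 4)) (m := 2) (m' := 2) (by norm_num) (by norm_num) (by norm_num) (by norm_num) (by norm_num) (by norm_num) (by norm_num) (by norm_num) (by norm_num) (by norm_num) (by norm_num) (by norm_num) (by norm_num) (by norm_num) n hn)).1
  have h15 := (abs_le.1 (plus_abs (α := 6) (β := 8) (α' := 8) (β' := 10) (d := (1 / 4)) (d' := (1 / 2)) (m := 2) (m' := 4) (by norm_num) (by norm_num) (by norm_num) (by norm_num) (by norm_num) (by norm_num) (by norm_num) (by norm_num) (by norm_num) (by norm_num) (by norm_num) (by norm_num) (by norm_num) (by norm_num) n hn)).1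
  have h16 := (abs_le.1 (plus_abs (α := 8) (β := 10) (α' := 4) (β' := 6) (d := (1 / 2)) (d' := (1 / 8)) (m := 4) (m' := 1) (by norm_num) (by norm_num) (by norm_num) (by norm_num) (by norm_num) (by norm_num) (by norm_num) (by norm_num) (by norm_num) (by norm_num) (by norm_num) (by norm_num) (by norm_num) (by norm_num) n hn)).1
  have h17 := (abs_le.1 (plus_abs (α := 8) (β := 10) (α' := 6) (β' := 8) (d := (1 / 2)) (d' := (1 / 4)) (m := 4) (m' := 2) (by norm_num) (by norm_num) (by norm_num) (by norm_num) (by norm_num) (by norm_num) (by norm_num) (by norm_num) (by norm_num) (by norm_num) (by norm_num) (by norm_num) (by norm_num) (by norm_num) n hn)).1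
  have h18 := (abs_le.1 (plus_abs (α := 8) (β := 10) (α' := 8) (β' := 10) (d := (1 / 2)) (d' := (1 / 2)) (m := 4) (m' := 4) (by norm_num) (by norm_num) (by norm_num) (by norm_num) (by norm_num) (by norm_num) (by norm_num) (by norm_num) (by norm_num) (by norm_num) (by norm_num) (by norm_num) (by norm_num) (by norm_num) n hn)).1
  linarith

theorem T_part (n : ℕ) (hn : 1 ≤ n) :
    (4 * n) ^ 2 * (1 * 1 * (Kc 0 1 0 1 + Kp 0 1 0 1) + 1 * (1 / 2) * (Kc 0 1 1 2 + Kp 0 1 1 2) + 1 * (1 / 8) * (Kc 0 1 2 4 + Kp 0 1 2 4) + (1 / 2) * 1 * (Kc 1 2 0 1 + Kp 1 2 0 1) + (1 / 2) * (1 / 2) * (Kc 1 2 1 2 + Kp 1 2 1 2) + (1 / 2) * (1 / 8) * (Kc 1 2 2 4 + Kp 1 2 2 4) + (1 / 8) * 1 * (Kc 2 4 0 1 + Kp 2 4 0 1) + (1 / 8) * (1 / 2) * (Kc 2 4 1 2 + Kp 2 4 1 2) + (1 / 8) * (1 / 8) * (Kc 2 4 2 4 + Kp 2 4 2 4)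
      + 49 / 8 * Real.log (4 * n)) - 8000 * (n * Real.log (n + 1)) ≤
      ∑ i, ∑ j, Fm (tT n i) (tT n j) + ∑ i, ∑ j, Fp (tT n i) (tT n j) := by
  rw [split_T, split_T]
  have hE : 0 ≤ (n : ℝ) * Real.log (n + 1) := by
    have := log_succ_ge n hn
    positivity
  have h1 := minus_eq hn (α := 0) (β := 1) (d := 1) (m := 4) (by norm_num) (by norm_num) (by norm_num)
  have h2 := minus_lt hn (α := 0) (β := 1) (α' := 1) (β' := 2) (d := 1) (d' := (1 / 2)) (m := 4) (m' := 2) (by norm_num) (by norm_num) (by norm_num) (by norm_num) (by norm_num)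
  have h3 := minus_lt hn (α := 0) (β := 1) (α' := 2) (β' := 4) (d := 1) (d' := (1 / 8)) (m := 4) (m' := 1) (by norm_num) (by norm_num) (by norm_num) (by norm_num) (by norm_num)
  have h4 := minus_gt hn (α := 1) (β := 2) (α' := 0) (β' := 1) (d := (1 / 2)) (d' := 1) (m := 2) (m' := 4) (by norm_num) (by norm_num) (by norm_num) (by norm_num) (by norm_num)
  have h5 := minus_eq hn (α := 1) (β := 2) (d := (1 / 2)) (m := 2) (by norm_num) (by norm_num) (by norm_num)
  have h6 := minus_lt hn (α := 1) (β := 2) (α' := 2) (β' := 4) (d := (1 / 2)) (d' := (1 / 8)) (m := 2) (m' := 1) (by norm_num) (by norm_num) (by norm_num) (by norm_num) (by norm_num)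
  have h7 := minus_gt hn (α := 2) (β := 4) (α' := 0) (β' := 1) (d := (1 / 8)) (d' := 1) (m := 1) (m' := 4) (by norm_num) (by norm_num) (by norm_num) (by norm_num) (by norm_num)
  have h8 := minus_gt hn (α := 2) (β := 4) (α' := 1) (β' := 2) (d := (1 / 8)) (d' := (1 / 2)) (m := 1) (m' := 2) (by norm_num) (by norm_num) (by norm_num) (by norm_num) (by norm_num)
  have h9 := minus_eq hn (α := 2) (β := 4) (d := (1 / 8)) (m := 1) (by norm_num) (by norm_num) (by norm_num)
  have h10 := (abs_le.1 (plus_abs (α := 0) (β := 1) (α' := 0) (β' := 1) (d := 1) (d' := 1) (m := 4) (m' := 4) (by norm_num) (by norm_num) (by norm_num) (by norm_num) (by norm_num) (by norm_num) (by norm_num) (by norm_num) (by norm_num) (by norm_num) (by norm_num) (by norm_num) (by norm_num) (by norm_num) n hn)).1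
  have h11 := (abs_le.1 (plus_abs (α := 0) (β := 1) (α' := 1) (β' := 2) (d := 1) (d' := (1 / 2)) (m := 4) (m' := 2) (by norm_num) (by norm_num) (by norm_num) (by norm_num) (by norm_num) (by norm_num) (by norm_num) (by norm_num) (by norm_num) (by norm_num) (by norm_num) (by norm_num) (by norm_num) (by norm_num) n hn)).1
  have h12 := (abs_le.1 (plus_abs (α := 0) (β := 1) (α' := 2) (β' := 4) (d := 1) (d' := (1 / 8)) (m := 4) (m' := 1) (by norm_num) (by norm_num) (by norm_num) (by norm_num) (by norm_num) (by norm_num) (by norm_num) (by norm_num) (by norm_num) (by norm_num) (by norm_num) (by norm_num) (by norm_num) (by norm_num) n hn)).1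
  have h13 := (abs_le.1 (plus_abs (α := 1) (β := 2) (α' := 0) (β' := 1) (d := (1 / 2)) (d' := 1) (m := 2) (m' := 4) (by norm_num) (by norm_num) (by norm_num) (by norm_num) (by norm_num) (by norm_num) (by norm_num) (by norm_num) (by norm_num) (by norm_num) (by norm_num) (by norm_num) (by norm_num) (by norm_num) n hn)).1
  have h14 := (abs_le.1 (plus_abs (α := 1) (β := 2) (α' := 1) (β' := 2) (d := (1 / 2)) (d' := (1 / 2)) (m := 2) (m' := 2) (by norm_num) (by norm_num) (by norm_num) (by norm_num) (by norm_num) (by norm_num) (by norm_num) (by norm_num) (by norm_num) (by norm_num) (by norm_num) (by norm_num) (by norm_num) (by norm_num) n hn)).1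
  have h15 := (abs_le.1 (plus_abs (α := 1) (β := 2) (α' := 2) (β' := 4) (d := (1 / 2)) (d' := (1 / 8)) (m := 2) (m' := 1) (by norm_num) (by norm_num) (by norm_num) (by norm_num) (by norm_num) (by norm_num) (by norm_num) (by norm_num) (by norm_num) (by norm_num) (by norm_num) (by norm_num) (by norm_num) (by norm_num) n hn)).1
  have h16 := (abs_le.1 (plus_abs (α := 2) (β := 4) (α' := 0) (β' := 1) (d := (1 / 8)) (d' := 1) (m := 1) (m' := 4) (by norm_num) (by norm_num) (by norm_num) (by norm_num) (by norm_num) (by norm_num) (by norm_num) (by norm_num) (by norm_num) (by norm_num) (by norm_num) (by norm_num) (by norm_num) (by norm_num) n hn)).1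
  have h17 := (abs_le.1 (plus_abs (α := 2) (β := 4) (α' := 1) (β' := 2) (d := (1 / 8)) (d' := (1 / 2)) (m := 1) (m' := 2) (by norm_num) (by norm_num) (by norm_num) (by norm_num) (by norm_num) (by norm_num) (by norm_num) (by norm_num) (by norm_num) (by norm_num) (by norm_num) (by norm_num) (by norm_num) (by norm_num) n hn)).1
  have h18 := (abs_le.1 (plus_abs (α := 2) (β := 4) (α' := 2) (β' := 4) (d := (1 / 8)) (d' := (1 / 8)) (m := 1) (m' := 1) (by norm_num) (by norm_num) (by norm_num) (by norm_num) (by norm_num) (by norm_num) (by norm_num) (by norm_num) (by norm_num) (by norm_num) (by norm_num) (by norm_num) (by norm_num) (by norm_num) n hn)).1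
  linarith

theorem TS_part (n : ℕ) (hn : 1 ≤ n) :
    ∑ i, ∑ j, Fm (tT n i) (sT n j) + ∑ i, ∑ j, Fp (tT n i) (sT n j) ≤
    (4 * n) ^ 2 * (1 * (1 / 8) * (Kc 0 1 4 6 + Kp 0 1 4 6) + 1 * (1 / 4) * (Kc 0 1 6 8 + Kp 0 1 6 8) + 1 * (1 / 2) * (Kc 0 1 8 10 + Kp 0 1 8 10) + (1 / 2) * (1 / 8) * (Kc 1 2 4 6 + Kp 1 2 4 6) + (1 / 2) * (1 / 4) * (Kc 1 2 6 8 + Kp 1 2 6 8) + (1 / 2) * (1 / 2) * (Kc 1 2 8 10 + Kp 1 2 8 10) + (1 / 8) * (1 / 8) * (Kc 2 4 4 6 + Kp 2 4 4 6) + (1 / 8) * (1 / 4) * (Kc 2 4 6 8 + Kp 2 4 6 8) + (1 / 8) * (1 / 2) * (Kc 2 4 8 10 + Kp 2 4 8 10)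
      + 49 / 8 * Real.log (4 * n)) + 8000 * (n * Real.log (n + 1)) := by
  rw [split_TS, split_TS]
  have hE : 0 ≤ (n : ℝ) * Real.log (n + 1) := by
    have := log_succ_ge n hn
    positivity
  have h1 := minus_up (α := 0) (β := 1) (α' := 4) (β' := 6) (d := 1) (d' := (1 / 8)) (m := 4) (m' := 1) (by norm_num) (by norm_num) (by norm_num) (by norm_num) (by norm_num) (by norm_num) (by norm_num) (by norm_num) (by norm_num) (by norm_num) (by norm_num) (by norm_num) (by norm_num) (by norm_num) n hn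
  have h2 := minus_up (α := 0) (β := 1) (α' := 6) (β' := 8) (d := 1) (d' := (1 / 4)) (m := 4) (m' := 2) (by norm_num) (by norm_num) (by norm_num) (by norm_num) (by norm_num) (by norm_num) (by norm_num) (by norm_num) (by norm_num) (by norm_num) (by norm_num) (by norm_num) (by norm_num) (by norm_num) n hn
  have h3 := minus_up (α := 0) (β := 1) (α' := 8) (β' := 10) (d := 1) (d' := (1 / 2)) (m := 4) (m' := 4) (by norm_num) (by norm_num) (by norm_num) (by norm_num) (by norm_num) (by norm_num) (by norm_num) (by norm_num) (by norm_num) (by norm_num) (by norm_num) (by norm_num) (by norm_num) (by norm_num) n hn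
  have h4 := minus_up (α := 1) (β := 2) (α' := 4) (β' := 6) (d := (1 / 2)) (d' := (1 / 8)) (m := 2) (m' := 1) (by norm_num) (by norm_num) (by norm_num) (by norm_num) (by norm_num) (by norm_num) (by norm_num) (by norm_num) (by norm_num) (by norm_num) (by norm_num) (by norm_num) (by norm_num) (by norm_num) n hn
  have h5 := minus_up (α := 1) (β := 2) (α' := 6) (β' := 8) (d := (1 / 2)) (d' := (1 / 4)) (m := 2) (m' := 2) (by norm_num) (by norm_num) (by norm_num) (by norm_num) (by norm_num) (by norm_num) (by norm_num) (by norm_num) (by norm_num) (by norm_num) (by norm_num) (by norm_num) (by norm_num) (by norm_num) n hn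
  have h6 := minus_up (α := 1) (β := 2) (α' := 8) (β' := 10) (d := (1 / 2)) (d' := (1 / 2)) (m := 2) (m' := 4) (by norm_num) (by norm_num) (by norm_num) (by norm_num) (by norm_num) (by norm_num) (by norm_num) (by norm_num) (by norm_num) (by norm_num) (by norm_num) (by norm_num) (by norm_num) (by norm_num) n hn
  have h7 := minus_up (α := 2) (β := 4) (α' := 4) (β' := 6) (d := (1 / 8)) (d' := (1 / 8)) (m := 1) (m' := 1) (by norm_num) (by norm_num) (by norm_num) (by norm_num) (by norm_num) (by norm_num) (by norm_num) (by norm_num) (by norm_num) (by norm_num) (by norm_num) (by norm_num) (by norm_num) (by norm_num) n hn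
  have h8 := minus_up (α := 2) (β := 4) (α' := 6) (β' := 8) (d := (1 / 8)) (d' := (1 / 4)) (m := 1) (m' := 2) (by norm_num) (by norm_num) (by norm_num) (by norm_num) (by norm_num) (by norm_num) (by norm_num) (by norm_num) (by norm_num) (by norm_num) (by norm_num) (by norm_num) (by norm_num) (by norm_num) n hn
  have h9 := minus_up (α := 2) (β := 4) (α' := 8) (β' := 10) (d := (1 / 8)) (d' := (1 / 2)) (m := 1) (m' := 4) (by norm_num) (by norm_num) (by norm_num) (by norm_num) (by norm_num) (by norm_num) (by norm_num) (by norm_num) (by norm_num) (by norm_num) (by norm_num) (by norm_num) (by norm_num) (by norm_num) n hn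
  have h10 := (abs_le.1 (plus_abs (α := 0) (β := 1) (α' := 4) (β' := 6) (d := 1) (d' := (1 / 8)) (m := 4) (m' := 1) (by norm_num) (by norm_num) (by norm_num) (by norm_num) (by norm_num) (by norm_num) (by norm_num) (by norm_num) (by norm_num) (by norm_num) (by norm_num) (by norm_num) (by norm_num) (by norm_num) n hn)).2
  have h11 := (abs_le.1 (plus_abs (α := 0) (β := 1) (α' := 6) (β' := 8) (d := 1) (d' := (1 / 4)) (m := 4) (m' := 2) (by norm_num) (by norm_num) (by norm_num) (by norm_num) (by norm_num) (by norm_num) (by norm_num) (by norm_num) (by norm_num) (by norm_num) (by norm_num) (by norm_num) (by norm_num) (by norm_num) n hn)).2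
  have h12 := (abs_le.1 (plus_abs (α := 0) (β := 1) (α' := 8) (β' := 10) (d := 1) (d' := (1 / 2)) (m := 4) (m' := 4) (by norm_num) (by norm_num) (by norm_num) (by norm_num) (by norm_num) (by norm_num) (by norm_num) (by norm_num) (by norm_num) (by norm_num) (by norm_num) (by norm_num) (by norm_num) (by norm_num) n hn)).2
  have h13 := (abs_le.1 (plus_abs (α := 1) (β := 2) (α' := 4) (β' := 6) (d := (1 / 2)) (d' := (1 / 8)) (m := 2) (m' := 1) (by norm_num) (by norm_num) (by norm_num) (by norm_num) (by norm_num) (by norm_num) (by norm_num) (by norm_num) (by norm_num) (by norm_num) (by norm_num) (by norm_num) (by norm_num) (by norm_num) n hn)).2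
  have h14 := (abs_le.1 (plus_abs (α := 1) (β := 2) (α' := 6) (β' := 8) (d := (1 / 2)) (d' := (1 / 4)) (m := 2) (m' := 2) (by norm_num) (by norm_num) (by norm_num) (by norm_num) (by norm_num) (by norm_num) (by norm_num) (by norm_num) (by norm_num) (by norm_num) (by norm_num) (by norm_num) (by norm_num) (by norm_num) n hn)).2
  have h15 := (abs_le.1 (plus_abs (α := 1) (β := 2) (α' := 8) (β' := 10) (d := (1 / 2)) (d' := (1 / 2)) (m := 2) (m' := 4) (by norm_num) (by norm_num) (by norm_num) (by norm_num) (by norm_num) (by norm_num) (by norm_num) (by norm_num) (by norm_num) (by norm_num) (by norm_num) (by norm_num) (by norm_num) (by norm_num) n hn)).2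
  have h16 := (abs_le.1 (plus_abs (α := 2) (β := 4) (α' := 4) (β' := 6) (d := (1 / 8)) (d' := (1 / 8)) (m := 1) (m' := 1) (by norm_num) (by norm_num) (by norm_num) (by norm_num) (by norm_num) (by norm_num) (by norm_num) (by norm_num) (by norm_num) (by norm_num) (by norm_num) (by norm_num) (by norm_num) (by norm_num) n hn)).2
  have h17 := (abs_le.1 (plus_abs (α := 2) (β := 4) (α' := 6) (β' := 8) (d := (1 / 8)) (d' := (1 / 4)) (m := 1) (m' := 2) (by norm_num) (by norm_num) (by norm_num) (by norm_num) (by norm_num) (by norm_num) (by norm_num) (by norm_num) (by norm_num) (by norm_num) (by norm_num) (by norm_num) (by norm_num) (by norm_num) n hn)).2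
  have h18 := (abs_le.1 (plus_abs (α := 2) (β := 4) (α' := 8) (β' := 10) (d := (1 / 8)) (d' := (1 / 2)) (m := 1) (m' := 4) (by norm_num) (by norm_num) (by norm_num) (by norm_num) (by norm_num) (by norm_num) (by norm_num) (by norm_num) (by norm_num) (by norm_num) (by norm_num) (by norm_num) (by norm_num) (by norm_num) n hn)).2
  linarith

theorem diag_S (n : ℕ) (hn : 1 ≤ n) : ∑ i, Real.log ‖sT n i + sT n i‖ ≤
    160 * (n * Real.log (n + 1)) := by
  rw [sum_sT n (fun z => Real.log ‖z + z‖)]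
  have h1 := diag_le (α := 4) (β := 6) (d := 1 / 8) (m := 1) (by norm_num) (by norm_num)
    (by norm_num) (by norm_num) (by norm_num) n hn
  have h2 := diag_le (α := 6) (β := 8) (d := 1 / 4) (m := 2) (by norm_num) (by norm_num)
    (by norm_num) (by norm_num) (by norm_num) n hn
  have h3 := diag_le (α := 8) (β := 10) (d := 1 / 2) (m := 4) (by norm_num) (by norm_num)
    (by norm_num) (by norm_num) (by norm_num) n hn
  have hE : 0 ≤ (n : ℝ) * Real.log (n + 1) := by
    have := log_succ_ge n hn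
    positivity
  have e4 : (4 * n * 4 : ℝ) = 16 * n := by ring
  have e6 : (4 * n * 6 : ℝ) = 24 * n := by ring
  have e8 : (4 * n * 8 : ℝ) = 32 * n := by ring
  rw [e4, one_mul] at h1
  rw [e6] at h2
  rw [e8] at h3
  linarith

theorem diag_T (n : ℕ) (hn : 1 ≤ n) : ∑ i, Real.log ‖tT n i + tT n i‖ ≤
    160 * (n * Real.log (n + 1)) := by
  rw [sum_tT n (fun z => Real.log ‖z + z‖)]
  have h1 := diag_le (α := 0) (β := 1) (d := 1) (m := 4) (by norm_num) (by norm_num)
    (by norm_num) (by norm_num) (by norm_num) n hn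
  have h2 := diag_le (α := 1) (β := 2) (d := 1 / 2) (m := 2) (by norm_num) (by norm_num)
    (by norm_num) (by norm_num) (by norm_num) n hn
  have h3 := diag_le (α := 2) (β := 4) (d := 1 / 8) (m := 1) (by norm_num) (by norm_num)
    (by norm_num) (by norm_num) (by norm_num) n hn
  have hE : 0 ≤ (n : ℝ) * Real.log (n + 1) := by
    have := log_succ_ge n hn
    positivity
  have e0 : (4 * n * 0 : ℝ) = 0 := by ring
  have e1 : (4 * n * 1 : ℝ) = 4 * n := by ring
  have e2 : (4 * n * 2 : ℝ) = 8 * n := by ring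
  rw [e0] at h1
  rw [e1] at h2
  rw [e2, one_mul] at h3
  linarith

theorem C0_low (n : ℕ) (hn : 1 ≤ n) :
    -2 * Real.log (Cau0 (fun l => sT n l ^ 2) (fun l => tT n l ^ 2)) ≤
      16 * n ^ 2 * eC + 40000 * n * Real.log (n + 1) := by
  have hA := prod_Ioi_pos (sT_sq_inj n)
  have hB := prod_Ioi_pos (tT_sq_inj n)
  have hD : 0 < ∏ k, ∏ l, ‖tT n k ^ 2 - sT n l ^ 2‖ :=
    Finset.prod_pos fun k _ => Finset.prod_pos fun l _ =>
      lt_of_lt_of_le (by norm_num) (sep_ts n k l)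
  have hS := log_sq_vand (sT n) (sT_sq_inj n) (sT_im n)
  have hT := log_sq_vand (tT n) (tT_sq_inj n) (tT_im n)
  have hne : ∀ k l, ‖tT n k ^ 2 - sT n l ^ 2‖ ≠ 0 := fun k l =>
    (lt_of_lt_of_le (by norm_num : (0 : ℝ) < 1 / 2) (sep_ts n k l)).ne'
  have hX := log_cross (tT n) (sT n)
    (fun k l h => hne k l (by rw [sq_sub_sq, h, mul_zero, norm_zero]))
    (fun k l h => hne k l (by rw [sq_sub_sq, h, zero_mul, norm_zero]))
  have hC : Real.log (Cau0 (fun l => sT n l ^ 2) (fun l => tT n l ^ 2)) =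
      Real.log (∏ i, ∏ j ∈ Ioi i, ‖sT n j ^ 2 - sT n i ^ 2‖) +
      Real.log (∏ i, ∏ j ∈ Ioi i, ‖tT n j ^ 2 - tT n i ^ 2‖) -
      Real.log (∏ k, ∏ l, ‖tT n k ^ 2 - sT n l ^ 2‖) := by
    unfold Cau0
    rw [Real.log_div (mul_pos hA hB).ne' hD.ne', Real.log_mul hA.ne' hB.ne']
  have p1 := S_part n hn
  have p2 := T_part n hn
  have p3 := TS_part n hn
  have p4 := diag_S n hn
  have p5 := diag_T n hn
  have hE : 0 ≤ (n : ℝ) * Real.log (n + 1) := by
    have := log_succ_ge n hn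
    positivity
  rw [hC, ← XX_eq]
  unfold XX
  linarith

end T2.R8d

namespace T2.R8

open Finset

theorem C0_lower : ∃ C : ℝ, ∀ n : ℕ, 1 ≤ n →
    0 < Cau0 (fun l => sT n l ^ 2) (fun l => tT n l ^ 2) ∧
    -2 * Real.log (Cau0 (fun l => sT n l ^ 2) (fun l => tT n l ^ 2)) ≤
      16 * n ^ 2 * eC + C * n * Real.log (n + 1) :=
  ⟨40000, fun n hn => ⟨Cau0_pos n, T2.R8d.C0_low n hn⟩⟩

end T2.R8
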