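import Pool.Agent.T2.R8Of
import Pool.Agent.T2.R8Pot
import Pool.Agent.T2.R8c
import Pool.Agent.T2.R8d

/-! # T2, real side, module R8: the energy certificate (final form)

Trial points `zT, sT, tT` (helper93), potentials `log_gTr, log_hTr` (helpers 90, 58), self energies
`wTr_lower, C0_lower` (helper24), sum over the rows (helpers 43, 19), sums over nodes and poles and
numbers (helper20), factorials (helper10), assembly (helper59). -/

set_option autoImplicit false
set_option linter.dupNamespace false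

namespace T2.R8

open Finset Complex

/-- **R8**: the right-hand side of `R7` for the trial points `zT, sT, tT`, level `LC`,
`c = 40 n` columns (`E = 2 * 627/500 = 2.508`). -/
theorem R8 (W : ℝ) (hW : 1 ≤ W) : ∃ C : ℝ, ∀ n : ℕ, 1 ≤ n →
    ∀ N : Fin (40 * n) → ℕ, Function.Injective N → (∀ i, 2 ≤ N i ∧ N i ≤ 40 * n + 12) →
    ∀ J : ℕ, ∀ s : Fin J × Bool → ℂ, (∀ p, (s p).re = p.1 + 1 / 2 ∧ |(s p).im| ≤ 1 / 4) →
    (wTr (zT n))⁻¹ * (Cau0 (fun l => sT n l ^ 2) (fun l => tT n l ^ 2))⁻¹ ^ 2 *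
      (∏ i, hTr (sT n) (tT n) (N i)) * LC n ^ (40 * n) *
      (∏ i, (1 + W * (3 / 100) ^ (N i) * gTr (zT n) (sT n) (tT n) (N i) / LC n)) *
      (∏ p : Fin J × Bool, (1 + W * ((p.1 : ℝ) + 1) * (3 / 100) ^ (p.1 : ℕ) *
        gTr (zT n) (sT n) (tT n) (s p) / LC n)) ≤
    Real.exp (∑ i ∈ range (40 * n), Real.log (i.factorial) - 627 / 500 * (40 * n) ^ 2 +
      C * n * Real.log (n + 1)) :=
  R8_of log_gTr log_hTr wTr_lower C0_lower W hW

end T2.R8
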