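import Mathlib
import Pool.Agent.QS2.CertReal

/-!
# T2, R8: the real-variable part of the energy certificate (generated file)

`gT x = V(x) - h(x) - (7/2) x` for the step density `3, 2, 5/4, 3/4, 1/2` on
`[0,1/10], [1/10,1/5], [1/5,2/5], [2/5,3/5], [3/5,4/5]`.
-/

open Finset

set_option linter.unusedSimpArgs false
set_option autoImplicit false

namespace T2.Cert

open Pool.Agent.QS2 (psi psi_zero aff aff_add aff_lin aff_mono term_chord_R term_chord_L term_tan_R
  term_tan_L logq_enc log_val log_val')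


theorem lgn_2 : 0.69314717 ≤ Real.log 2 ∧ Real.log 2 ≤ 0.69314720 :=
  logq_enc 1 2 0.69314717 0.69314720 (by norm_num) (by norm_num [sum_range_succ])
    (by norm_num [sum_range_succ])


theorem lgn_3 : 1.09861227 ≤ Real.log 3 ∧ Real.log 3 ≤ 1.09861230 :=
  logq_enc 1 3 1.09861227 1.09861230 (by norm_num) (by norm_num [sum_range_succ])
    (by norm_num [sum_range_succ])


theorem lgn_4 : 1.38629435 ≤ Real.log 4 ∧ Real.log 4 ≤ 1.38629438 :=
  logq_enc 2 4 1.38629435 1.38629438 (by norm_num) (by norm_num [sum_range_succ])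
    (by norm_num [sum_range_succ])


theorem lgn_5 : 1.60943790 ≤ Real.log 5 ∧ Real.log 5 ≤ 1.60943793 :=
  logq_enc 2 5 1.60943790 1.60943793 (by norm_num) (by norm_num [sum_range_succ])
    (by norm_num [sum_range_succ])


theorem lgn_6 : 1.79175945 ≤ Real.log 6 ∧ Real.log 6 ≤ 1.79175948 :=
  logq_enc 2 6 1.79175945 1.79175948 (by norm_num) (by norm_num [sum_range_succ])
    (by norm_num [sum_range_succ])


theorem lgn_7 : 1.94591013 ≤ Real.log 7 ∧ Real.log 7 ≤ 1.94591016 :=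
  logq_enc 2 7 1.94591013 1.94591016 (by norm_num) (by norm_num [sum_range_succ])
    (by norm_num [sum_range_succ])


theorem lgn_8 : 2.07944153 ≤ Real.log 8 ∧ Real.log 8 ≤ 2.07944156 :=
  logq_enc 3 8 2.07944153 2.07944156 (by norm_num) (by norm_num [sum_range_succ])
    (by norm_num [sum_range_succ])


theorem lgn_9 : 2.19722456 ≤ Real.log 9 ∧ Real.log 9 ≤ 2.19722459 :=
  logq_enc 3 9 2.19722456 2.19722459 (by norm_num) (by norm_num [sum_range_succ])
    (by norm_num [sum_range_succ])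


theorem lgn_10 : 2.30258508 ≤ Real.log 10 ∧ Real.log 10 ≤ 2.30258511 :=
  logq_enc 3 10 2.30258508 2.30258511 (by norm_num) (by norm_num [sum_range_succ])
    (by norm_num [sum_range_succ])


theorem lgn_11 : 2.39789526 ≤ Real.log 11 ∧ Real.log 11 ≤ 2.39789529 :=
  logq_enc 3 11 2.39789526 2.39789529 (by norm_num) (by norm_num [sum_range_succ])
    (by norm_num [sum_range_succ])


theorem lgn_13 : 2.56494934 ≤ Real.log 13 ∧ Real.log 13 ≤ 2.56494937 :=
  logq_enc 3 13 2.56494934 2.56494937 (by norm_num) (by norm_num [sum_range_succ])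
    (by norm_num [sum_range_succ])


theorem lgn_15 : 2.70805019 ≤ Real.log 15 ∧ Real.log 15 ≤ 2.70805022 :=
  logq_enc 3 15 2.70805019 2.70805022 (by norm_num) (by norm_num [sum_range_succ])
    (by norm_num [sum_range_succ])


theorem lgn_16 : 2.77258871 ≤ Real.log 16 ∧ Real.log 16 ≤ 2.77258874 :=
  logq_enc 4 16 2.77258871 2.77258874 (by norm_num) (by norm_num [sum_range_succ])
    (by norm_num [sum_range_succ])


theorem lgn_17 : 2.83321333 ≤ Real.log 17 ∧ Real.log 17 ≤ 2.83321336 :=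
  logq_enc 4 17 2.83321333 2.83321336 (by norm_num) (by norm_num [sum_range_succ])
    (by norm_num [sum_range_succ])


theorem lgn_19 : 2.94443896 ≤ Real.log 19 ∧ Real.log 19 ≤ 2.94443899 :=
  logq_enc 4 19 2.94443896 2.94443899 (by norm_num) (by norm_num [sum_range_succ])
    (by norm_num [sum_range_succ])


theorem lgn_20 : 2.99573226 ≤ Real.log 20 ∧ Real.log 20 ≤ 2.99573229 :=
  logq_enc 4 20 2.99573226 2.99573229 (by norm_num) (by norm_num [sum_range_succ])
    (by norm_num [sum_range_succ])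


theorem lgn_21 : 3.04452242 ≤ Real.log 21 ∧ Real.log 21 ≤ 3.04452245 :=
  logq_enc 4 21 3.04452242 3.04452245 (by norm_num) (by norm_num [sum_range_succ])
    (by norm_num [sum_range_succ])


theorem lgn_23 : 3.13549420 ≤ Real.log 23 ∧ Real.log 23 ≤ 3.13549423 :=
  logq_enc 4 23 3.13549420 3.13549423 (by norm_num) (by norm_num [sum_range_succ])
    (by norm_num [sum_range_succ])


theorem lgn_27 : 3.29583685 ≤ Real.log 27 ∧ Real.log 27 ≤ 3.29583688 :=
  logq_enc 4 27 3.29583685 3.29583688 (by norm_num) (by norm_num [sum_range_succ])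
    (by norm_num [sum_range_succ])


theorem lgn_29 : 3.36729581 ≤ Real.log 29 ∧ Real.log 29 ≤ 3.36729584 :=
  logq_enc 4 29 3.36729581 3.36729584 (by norm_num) (by norm_num [sum_range_succ])
    (by norm_num [sum_range_succ])


theorem lgn_31 : 3.43398719 ≤ Real.log 31 ∧ Real.log 31 ≤ 3.43398722 :=
  logq_enc 4 31 3.43398719 3.43398722 (by norm_num) (by norm_num [sum_range_succ])
    (by norm_num [sum_range_succ])


theorem lgn_33 : 3.49650755 ≤ Real.log 33 ∧ Real.log 33 ≤ 3.49650758 :=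
  logq_enc 5 33 3.49650755 3.49650758 (by norm_num) (by norm_num [sum_range_succ])
    (by norm_num [sum_range_succ])


theorem lgn_39 : 3.66356163 ≤ Real.log 39 ∧ Real.log 39 ≤ 3.66356166 :=
  logq_enc 5 39 3.66356163 3.66356166 (by norm_num) (by norm_num [sum_range_succ])
    (by norm_num [sum_range_succ])


theorem lgn_40 : 3.68887944 ≤ Real.log 40 ∧ Real.log 40 ≤ 3.68887947 :=
  logq_enc 5 40 3.68887944 3.68887947 (by norm_num) (by norm_num [sum_range_succ])
    (by norm_num [sum_range_succ])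


theorem lgn_43 : 3.76120010 ≤ Real.log 43 ∧ Real.log 43 ≤ 3.76120013 :=
  logq_enc 5 43 3.76120010 3.76120013 (by norm_num) (by norm_num [sum_range_succ])
    (by norm_num [sum_range_succ])


theorem lgn_47 : 3.85014759 ≤ Real.log 47 ∧ Real.log 47 ≤ 3.85014762 :=
  logq_enc 5 47 3.85014759 3.85014762 (by norm_num) (by norm_num [sum_range_succ])
    (by norm_num [sum_range_succ])


theorem lgn_51 : 3.93182562 ≤ Real.log 51 ∧ Real.log 51 ≤ 3.93182565 :=
  logq_enc 5 51 3.93182562 3.93182565 (by norm_num) (by norm_num [sum_range_succ])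
    (by norm_num [sum_range_succ])


theorem lgn_53 : 3.97029190 ≤ Real.log 53 ∧ Real.log 53 ≤ 3.97029193 :=
  logq_enc 5 53 3.97029190 3.97029193 (by norm_num) (by norm_num [sum_range_succ])
    (by norm_num [sum_range_succ])


theorem lgn_59 : 4.07753743 ≤ Real.log 59 ∧ Real.log 59 ≤ 4.07753746 :=
  logq_enc 5 59 4.07753743 4.07753746 (by norm_num) (by norm_num [sum_range_succ])
    (by norm_num [sum_range_succ])


theorem lgn_61 : 4.11087385 ≤ Real.log 61 ∧ Real.log 61 ≤ 4.11087388 :=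
  logq_enc 5 61 4.11087385 4.11087388 (by norm_num) (by norm_num [sum_range_succ])
    (by norm_num [sum_range_succ])


theorem lgn_67 : 4.20469260 ≤ Real.log 67 ∧ Real.log 67 ≤ 4.20469263 :=
  logq_enc 6 67 4.20469260 4.20469263 (by norm_num) (by norm_num [sum_range_succ])
    (by norm_num [sum_range_succ])


theorem lgn_71 : 4.26267986 ≤ Real.log 71 ∧ Real.log 71 ≤ 4.26267989 :=
  logq_enc 6 71 4.26267986 4.26267989 (by norm_num) (by norm_num [sum_range_succ])
    (by norm_num [sum_range_succ])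


theorem lgn_73 : 4.29045943 ≤ Real.log 73 ∧ Real.log 73 ≤ 4.29045946 :=
  logq_enc 6 73 4.29045943 4.29045946 (by norm_num) (by norm_num [sum_range_succ])
    (by norm_num [sum_range_succ])


theorem lgn_77 : 4.34380541 ≤ Real.log 77 ∧ Real.log 77 ≤ 4.34380544 :=
  logq_enc 6 77 4.34380541 4.34380544 (by norm_num) (by norm_num [sum_range_succ])
    (by norm_num [sum_range_succ])


theorem lgn_79 : 4.36944784 ≤ Real.log 79 ∧ Real.log 79 ≤ 4.36944787 :=
  logq_enc 6 79 4.36944784 4.36944787 (by norm_num) (by norm_num [sum_range_succ])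
    (by norm_num [sum_range_succ])


theorem lgn_80 : 4.38202662 ≤ Real.log 80 ∧ Real.log 80 ≤ 4.38202665 :=
  logq_enc 6 80 4.38202662 4.38202665 (by norm_num) (by norm_num [sum_range_succ])
    (by norm_num [sum_range_succ])


theorem lgn_81 : 4.39444914 ≤ Real.log 81 ∧ Real.log 81 ≤ 4.39444917 :=
  logq_enc 6 81 4.39444914 4.39444917 (by norm_num) (by norm_num [sum_range_succ])
    (by norm_num [sum_range_succ])


theorem lgn_83 : 4.41884059 ≤ Real.log 83 ∧ Real.log 83 ≤ 4.41884062 :=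
  logq_enc 6 83 4.41884059 4.41884062 (by norm_num) (by norm_num [sum_range_succ])
    (by norm_num [sum_range_succ])


theorem lgn_87 : 4.46590810 ≤ Real.log 87 ∧ Real.log 87 ≤ 4.46590813 :=
  logq_enc 6 87 4.46590810 4.46590813 (by norm_num) (by norm_num [sum_range_succ])
    (by norm_num [sum_range_succ])


theorem lgn_89 : 4.48863635 ≤ Real.log 89 ∧ Real.log 89 ≤ 4.48863638 :=
  logq_enc 6 89 4.48863635 4.48863638 (by norm_num) (by norm_num [sum_range_succ])
    (by norm_num [sum_range_succ])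


theorem lgn_99 : 4.59511984 ≤ Real.log 99 ∧ Real.log 99 ≤ 4.59511987 :=
  logq_enc 6 99 4.59511984 4.59511987 (by norm_num) (by norm_num [sum_range_succ])
    (by norm_num [sum_range_succ])


theorem lgn_103 : 4.63472897 ≤ Real.log 103 ∧ Real.log 103 ≤ 4.63472900 :=
  logq_enc 6 103 4.63472897 4.63472900 (by norm_num) (by norm_num [sum_range_succ])
    (by norm_num [sum_range_succ])


theorem lgn_107 : 4.67282882 ≤ Real.log 107 ∧ Real.log 107 ≤ 4.67282885 :=
  logq_enc 6 107 4.67282882 4.67282885 (by norm_num) (by norm_num [sum_range_succ])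
    (by norm_num [sum_range_succ])


theorem lgn_117 : 4.76217392 ≤ Real.log 117 ∧ Real.log 117 ≤ 4.76217395 :=
  logq_enc 6 117 4.76217392 4.76217395 (by norm_num) (by norm_num [sum_range_succ])
    (by norm_num [sum_range_succ])


theorem lgn_123 : 4.81218434 ≤ Real.log 123 ∧ Real.log 123 ≤ 4.81218437 :=
  logq_enc 6 123 4.81218434 4.81218437 (by norm_num) (by norm_num [sum_range_succ])
    (by norm_num [sum_range_succ])


theorem lgn_127 : 4.84418707 ≤ Real.log 127 ∧ Real.log 127 ≤ 4.84418710 :=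
  logq_enc 6 127 4.84418707 4.84418710 (by norm_num) (by norm_num [sum_range_succ])
    (by norm_num [sum_range_succ])


theorem lgn_131 : 4.87519731 ≤ Real.log 131 ∧ Real.log 131 ≤ 4.87519734 :=
  logq_enc 7 131 4.87519731 4.87519734 (by norm_num) (by norm_num [sum_range_succ])
    (by norm_num [sum_range_succ])



theorem psi_val (s r : ℝ) (A B : ℕ) (hA : 0 < A) (hB : 0 < B) (hs : s = r)
    (h : r = (A : ℝ) / B) : psi s = r * (Real.log A - Real.log B) := by
  rw [hs, psi, log_val r A B hA hB h]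

theorem psi_val' (s r : ℝ) (A B : ℕ) (hA : 0 < A) (hB : 0 < B) (hs : s = r)
    (h : r = -((A : ℝ) / B)) : psi s = r * (Real.log A - Real.log B) := by
  rw [hs, psi, log_val' r A B hA hB h]

/-- `g` of the certificate -/
noncomputable def gT (x : ℝ) : ℝ :=
  (-1 / 2) * psi (x - (-1)) + (1 / 4) * psi (x - (-4 / 5)) + (1 / 8) * psi (x - (-3 / 5)) + (1 / 4) * psi (x - (-2 / 5)) + (3 / 8) * psi (x - (-1 / 5)) + (1 / 2) * psi (x - (-1 / 10)) + 3 * psi (x - 0) + (-3 / 2) * psi (x - (1 / 10)) + (-9 / 8) * psi (x - (1 / 5)) + (-3 / 4) * psi (x - (2 / 5)) + (-3 / 8) * psi (x - (3 / 5)) + (-3 / 4) * psi (x - (4 / 5)) + (1 / 2) * psi (x - 1) +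
    ((-7 / 2) * x + (-1))

theorem aff_step {p q x s1 s2 a1 a2 b1 b2 : ℝ} (h1 : s1 ≤ aff p q a1 b1 x)
    (h2 : s2 ≤ aff p q a2 b2 x) : s1 + s2 ≤ aff p q (a1 + a2) (b1 + b2) x := by
  rw [← aff_add]; exact add_le_add h1 h2

theorem gT_le {p q x a1 a2 a3 a4 a5 a6 a7 a8 a9 a10 a11 a12 a13 b1 b2 b3 b4 b5 b6 b7 b8 b9 b10 b11 b12 b13 al bl L L' : ℝ}
    (hpq : p < q) (h1 : p ≤ x) (h2 : x ≤ q)
    (t1 : (-1 / 2) * psi (x - (-1)) ≤ aff p q a1 b1 x)
    (t2 : (1 / 4) * psi (x - (-4 / 5)) ≤ aff p q a2 b2 x)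
    (t3 : (1 / 8) * psi (x - (-3 / 5)) ≤ aff p q a3 b3 x)
    (t4 : (1 / 4) * psi (x - (-2 / 5)) ≤ aff p q a4 b4 x)
    (t5 : (3 / 8) * psi (x - (-1 / 5)) ≤ aff p q a5 b5 x)
    (t6 : (1 / 2) * psi (x - (-1 / 10)) ≤ aff p q a6 b6 x)
    (t7 : 3 * psi (x - 0) ≤ aff p q a7 b7 x)
    (t8 : (-3 / 2) * psi (x - (1 / 10)) ≤ aff p q a8 b8 x)
    (t9 : (-9 / 8) * psi (x - (1 / 5)) ≤ aff p q a9 b9 x)
    (t10 : (-3 / 4) * psi (x - (2 / 5)) ≤ aff p q a10 b10 x)
    (t11 : (-3 / 8) * psi (x - (3 / 5)) ≤ aff p q a11 b11 x)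
    (t12 : (-3 / 4) * psi (x - (4 / 5)) ≤ aff p q a12 b12 x)
    (t13 : (1 / 2) * psi (x - 1) ≤ aff p q a13 b13 x)
    (tl : (-7 / 2) * x + (-1) = aff p q al bl x)
    (hL : a1 + a2 + a3 + a4 + a5 + a6 + a7 + a8 + a9 + a10 + a11 + a12 + a13 + al ≤ L) (hL' : b1 + b2 + b3 + b4 + b5 + b6 + b7 + b8 + b9 + b10 + b11 + b12 + b13 + bl ≤ L') : gT x ≤ aff p q L L' x := by
  have h := aff_mono p q _ _ L L' x hpq h1 h2 hL hL'
  unfold gT
  refine le_trans ?_ h
  have tl' := tl.le
  exact aff_step (aff_step (aff_step (aff_step (aff_step (aff_step (aff_step (aff_step (aff_step (aff_step (aff_step (aff_step (aff_step t1 t2) t3) t4) t5) t6) t7) t8) t9) t10) t11) t12) t13) tl'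


theorem cellA0 (x : ℝ) (h1 : 0 ≤ x) (h2 : x ≤ (1 / 40)) :
    gT x ≤ aff 0 (1 / 40) (-2641 / 1000) (-593 / 200) x := by
  have t1 := term_tan_R (-1 / 2) (-1) 0 (1 / 40) (1 / 80) x (by norm_num) (by norm_num) (by norm_num) (by norm_num) h1
  have t2 := term_chord_R (1 / 4) (-4 / 5) 0 (1 / 40) x (by norm_num) (by norm_num) (by norm_num) h1 h2
  have t3 := term_chord_R (1 / 8) (-3 / 5) 0 (1 / 40) x (by norm_num) (by norm_num) (by norm_num) h1 h2
  have t4 := term_chord_R (1 / 4) (-2 / 5) 0 (1 / 40) x (by norm_num) (by norm_num) (by norm_num) h1 h2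
  have t5 := term_chord_R (3 / 8) (-1 / 5) 0 (1 / 40) x (by norm_num) (by norm_num) (by norm_num) h1 h2
  have t6 := term_chord_R (1 / 2) (-1 / 10) 0 (1 / 40) x (by norm_num) (by norm_num) (by norm_num) h1 h2
  have t7 := term_chord_R 3 0 0 (1 / 40) x (by norm_num) (by norm_num) (by norm_num) h1 h2
  have t8 := term_chord_L (-3 / 2) (1 / 10) 0 (1 / 40) x (by norm_num) (by norm_num) (by norm_num) h1 h2
  have t9 := term_chord_L (-9 / 8) (1 / 5) 0 (1 / 40) x (by norm_num) (by norm_num) (by norm_num) h1 h2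
  have t10 := term_chord_L (-3 / 4) (2 / 5) 0 (1 / 40) x (by norm_num) (by norm_num) (by norm_num) h1 h2
  have t11 := term_chord_L (-3 / 8) (3 / 5) 0 (1 / 40) x (by norm_num) (by norm_num) (by norm_num) h1 h2
  have t12 := term_chord_L (-3 / 4) (4 / 5) 0 (1 / 40) x (by norm_num) (by norm_num) (by norm_num) h1 h2
  have t13 := term_tan_L (1 / 2) 1 0 (1 / 40) (1 / 80) x (by norm_num) (by norm_num) (by norm_num) (by norm_num) h2
  have tl := aff_lin 0 (1 / 40) (-7 / 2) (-1) x (by norm_num)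
  refine gT_le (by norm_num) h1 h2 t1 t2 t3 t4 t5 t6 t7 t8 t9 t10 t11 t12 t13 tl ?_ ?_
  · have e1 : Real.log ((1 / 80) - (-1)) = Real.log (81 : ℕ) - Real.log (80 : ℕ) := log_val _ 81 80 (by norm_num) (by norm_num) (by norm_num)
    have e2 : psi (0 - (-4 / 5)) = (4 / 5) * (Real.log (4 : ℕ) - Real.log (5 : ℕ)) := psi_val _ (4 / 5) 4 5 (by norm_num) (by norm_num) (by norm_num) (by norm_num)
    have e3 : psi (0 - (-3 / 5)) = (3 / 5) * (Real.log (3 : ℕ) - Real.log (5 : ℕ)) := psi_val _ (3 / 5) 3 5 (by norm_num) (by norm_num) (by norm_num) (by norm_num)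
    have e4 : psi (0 - (-2 / 5)) = (2 / 5) * (Real.log (2 : ℕ) - Real.log (5 : ℕ)) := psi_val _ (2 / 5) 2 5 (by norm_num) (by norm_num) (by norm_num) (by norm_num)
    have e5 : psi (0 - (-1 / 5)) = (1 / 5) * (Real.log (1 : ℕ) - Real.log (5 : ℕ)) := psi_val _ (1 / 5) 1 5 (by norm_num) (by norm_num) (by norm_num) (by norm_num)
    have e6 : psi (0 - (-1 / 10)) = (1 / 10) * (Real.log (1 : ℕ) - Real.log (10 : ℕ)) := psi_val _ (1 / 10) 1 10 (by norm_num) (by norm_num) (by norm_num) (by norm_num)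
    have e7 : psi (0 - 0) = 0 := by rw [show (0 - 0 : ℝ) = 0 by norm_num, psi_zero]
    have e8 : psi (0 - (1 / 10)) = (-1 / 10) * (Real.log (1 : ℕ) - Real.log (10 : ℕ)) := psi_val' _ (-1 / 10) 1 10 (by norm_num) (by norm_num) (by norm_num) (by norm_num)
    have e9 : psi (0 - (1 / 5)) = (-1 / 5) * (Real.log (1 : ℕ) - Real.log (5 : ℕ)) := psi_val' _ (-1 / 5) 1 5 (by norm_num) (by norm_num) (by norm_num) (by norm_num)
    have e10 : psi (0 - (2 / 5)) = (-2 / 5) * (Real.log (2 : ℕ) - Real.log (5 : ℕ)) := psi_val' _ (-2 / 5) 2 5 (by norm_num) (by norm_num) (by norm_num) (by norm_num)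
    have e11 : psi (0 - (3 / 5)) = (-3 / 5) * (Real.log (3 : ℕ) - Real.log (5 : ℕ)) := psi_val' _ (-3 / 5) 3 5 (by norm_num) (by norm_num) (by norm_num) (by norm_num)
    have e12 : psi (0 - (4 / 5)) = (-4 / 5) * (Real.log (4 : ℕ) - Real.log (5 : ℕ)) := psi_val' _ (-4 / 5) 4 5 (by norm_num) (by norm_num) (by norm_num) (by norm_num)
    have e13 : Real.log ((1 / 80) - 1) = Real.log (79 : ℕ) - Real.log (80 : ℕ) := log_val' _ 79 80 (by norm_num) (by norm_num) (by norm_num)
    rw [e1, e2, e3, e4, e5, e6, e7, e8, e9, e10, e11, e12, e13]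
    have l2 := lgn_2
    have l3 := lgn_3
    have l4 := lgn_4
    have l5 := lgn_5
    have l10 := lgn_10
    have l79 := lgn_79
    have l80 := lgn_80
    have l81 := lgn_81
    simp only [Nat.cast_ofNat, Nat.cast_one, Real.log_one] at *
    linarith
  · have e1 : Real.log ((1 / 80) - (-1)) = Real.log (81 : ℕ) - Real.log (80 : ℕ) := log_val _ 81 80 (by norm_num) (by norm_num) (by norm_num)
    have e2 : psi ((1 / 40) - (-4 / 5)) = (33 / 40) * (Real.log (33 : ℕ) - Real.log (40 : ℕ)) := psi_val _ (33 / 40) 33 40 (by norm_num) (by norm_num) (by norm_num) (by norm_num)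
    have e3 : psi ((1 / 40) - (-3 / 5)) = (5 / 8) * (Real.log (5 : ℕ) - Real.log (8 : ℕ)) := psi_val _ (5 / 8) 5 8 (by norm_num) (by norm_num) (by norm_num) (by norm_num)
    have e4 : psi ((1 / 40) - (-2 / 5)) = (17 / 40) * (Real.log (17 : ℕ) - Real.log (40 : ℕ)) := psi_val _ (17 / 40) 17 40 (by norm_num) (by norm_num) (by norm_num) (by norm_num)
    have e5 : psi ((1 / 40) - (-1 / 5)) = (9 / 40) * (Real.log (9 : ℕ) - Real.log (40 : ℕ)) := psi_val _ (9 / 40) 9 40 (by norm_num) (by norm_num) (by norm_num) (by norm_num)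
    have e6 : psi ((1 / 40) - (-1 / 10)) = (1 / 8) * (Real.log (1 : ℕ) - Real.log (8 : ℕ)) := psi_val _ (1 / 8) 1 8 (by norm_num) (by norm_num) (by norm_num) (by norm_num)
    have e7 : psi ((1 / 40) - 0) = (1 / 40) * (Real.log (1 : ℕ) - Real.log (40 : ℕ)) := psi_val _ (1 / 40) 1 40 (by norm_num) (by norm_num) (by norm_num) (by norm_num)
    have e8 : psi ((1 / 40) - (1 / 10)) = (-3 / 40) * (Real.log (3 : ℕ) - Real.log (40 : ℕ)) := psi_val' _ (-3 / 40) 3 40 (by norm_num) (by norm_num) (by norm_num) (by norm_num)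
    have e9 : psi ((1 / 40) - (1 / 5)) = (-7 / 40) * (Real.log (7 : ℕ) - Real.log (40 : ℕ)) := psi_val' _ (-7 / 40) 7 40 (by norm_num) (by norm_num) (by norm_num) (by norm_num)
    have e10 : psi ((1 / 40) - (2 / 5)) = (-3 / 8) * (Real.log (3 : ℕ) - Real.log (8 : ℕ)) := psi_val' _ (-3 / 8) 3 8 (by norm_num) (by norm_num) (by norm_num) (by norm_num)
    have e11 : psi ((1 / 40) - (3 / 5)) = (-23 / 40) * (Real.log (23 : ℕ) - Real.log (40 : ℕ)) := psi_val' _ (-23 / 40) 23 40 (by norm_num) (by norm_num) (by norm_num) (by norm_num)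
    have e12 : psi ((1 / 40) - (4 / 5)) = (-31 / 40) * (Real.log (31 : ℕ) - Real.log (40 : ℕ)) := psi_val' _ (-31 / 40) 31 40 (by norm_num) (by norm_num) (by norm_num) (by norm_num)
    have e13 : Real.log ((1 / 80) - 1) = Real.log (79 : ℕ) - Real.log (80 : ℕ) := log_val' _ 79 80 (by norm_num) (by norm_num) (by norm_num)
    rw [e1, e2, e3, e4, e5, e6, e7, e8, e9, e10, e11, e12, e13]
    have l3 := lgn_3
    have l5 := lgn_5
    have l7 := lgn_7
    have l8 := lgn_8
    have l9 := lgn_9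
    have l17 := lgn_17
    have l23 := lgn_23
    have l31 := lgn_31
    have l33 := lgn_33
    have l40 := lgn_40
    have l79 := lgn_79
    have l80 := lgn_80
    have l81 := lgn_81
    simp only [Nat.cast_ofNat, Nat.cast_one, Real.log_one] at *
    linarith

theorem cellA1 (x : ℝ) (h1 : (1 / 40) ≤ x) (h2 : x ≤ (1 / 20)) :
    gT x ≤ aff (1 / 40) (1 / 20) (-593 / 200) (-1581 / 500) x := by
  have t1 := term_tan_R (-1 / 2) (-1) (1 / 40) (1 / 20) (3 / 80) x (by norm_num) (by norm_num) (by norm_num) (by norm_num) h1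
  have t2 := term_chord_R (1 / 4) (-4 / 5) (1 / 40) (1 / 20) x (by norm_num) (by norm_num) (by norm_num) h1 h2
  have t3 := term_chord_R (1 / 8) (-3 / 5) (1 / 40) (1 / 20) x (by norm_num) (by norm_num) (by norm_num) h1 h2
  have t4 := term_chord_R (1 / 4) (-2 / 5) (1 / 40) (1 / 20) x (by norm_num) (by norm_num) (by norm_num) h1 h2
  have t5 := term_chord_R (3 / 8) (-1 / 5) (1 / 40) (1 / 20) x (by norm_num) (by norm_num) (by norm_num) h1 h2
  have t6 := term_chord_R (1 / 2) (-1 / 10) (1 / 40) (1 / 20) x (by norm_num) (by norm_num) (by norm_num) h1 h2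
  have t7 := term_chord_R 3 0 (1 / 40) (1 / 20) x (by norm_num) (by norm_num) (by norm_num) h1 h2
  have t8 := term_chord_L (-3 / 2) (1 / 10) (1 / 40) (1 / 20) x (by norm_num) (by norm_num) (by norm_num) h1 h2
  have t9 := term_chord_L (-9 / 8) (1 / 5) (1 / 40) (1 / 20) x (by norm_num) (by norm_num) (by norm_num) h1 h2
  have t10 := term_chord_L (-3 / 4) (2 / 5) (1 / 40) (1 / 20) x (by norm_num) (by norm_num) (by norm_num) h1 h2
  have t11 := term_chord_L (-3 / 8) (3 / 5) (1 / 40) (1 / 20) x (by norm_num) (by norm_num) (by norm_num) h1 h2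
  have t12 := term_chord_L (-3 / 4) (4 / 5) (1 / 40) (1 / 20) x (by norm_num) (by norm_num) (by norm_num) h1 h2
  have t13 := term_tan_L (1 / 2) 1 (1 / 40) (1 / 20) (3 / 80) x (by norm_num) (by norm_num) (by norm_num) (by norm_num) h2
  have tl := aff_lin (1 / 40) (1 / 20) (-7 / 2) (-1) x (by norm_num)
  refine gT_le (by norm_num) h1 h2 t1 t2 t3 t4 t5 t6 t7 t8 t9 t10 t11 t12 t13 tl ?_ ?_
  · have e1 : Real.log ((3 / 80) - (-1)) = Real.log (83 : ℕ) - Real.log (80 : ℕ) := log_val _ 83 80 (by norm_num) (by norm_num) (by norm_num)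
    have e2 : psi ((1 / 40) - (-4 / 5)) = (33 / 40) * (Real.log (33 : ℕ) - Real.log (40 : ℕ)) := psi_val _ (33 / 40) 33 40 (by norm_num) (by norm_num) (by norm_num) (by norm_num)
    have e3 : psi ((1 / 40) - (-3 / 5)) = (5 / 8) * (Real.log (5 : ℕ) - Real.log (8 : ℕ)) := psi_val _ (5 / 8) 5 8 (by norm_num) (by norm_num) (by norm_num) (by norm_num)
    have e4 : psi ((1 / 40) - (-2 / 5)) = (17 / 40) * (Real.log (17 : ℕ) - Real.log (40 : ℕ)) := psi_val _ (17 / 40) 17 40 (by norm_num) (by norm_num) (by norm_num) (by norm_num)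
    have e5 : psi ((1 / 40) - (-1 / 5)) = (9 / 40) * (Real.log (9 : ℕ) - Real.log (40 : ℕ)) := psi_val _ (9 / 40) 9 40 (by norm_num) (by norm_num) (by norm_num) (by norm_num)
    have e6 : psi ((1 / 40) - (-1 / 10)) = (1 / 8) * (Real.log (1 : ℕ) - Real.log (8 : ℕ)) := psi_val _ (1 / 8) 1 8 (by norm_num) (by norm_num) (by norm_num) (by norm_num)
    have e7 : psi ((1 / 40) - 0) = (1 / 40) * (Real.log (1 : ℕ) - Real.log (40 : ℕ)) := psi_val _ (1 / 40) 1 40 (by norm_num) (by norm_num) (by norm_num) (by norm_num)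
    have e8 : psi ((1 / 40) - (1 / 10)) = (-3 / 40) * (Real.log (3 : ℕ) - Real.log (40 : ℕ)) := psi_val' _ (-3 / 40) 3 40 (by norm_num) (by norm_num) (by norm_num) (by norm_num)
    have e9 : psi ((1 / 40) - (1 / 5)) = (-7 / 40) * (Real.log (7 : ℕ) - Real.log (40 : ℕ)) := psi_val' _ (-7 / 40) 7 40 (by norm_num) (by norm_num) (by norm_num) (by norm_num)
    have e10 : psi ((1 / 40) - (2 / 5)) = (-3 / 8) * (Real.log (3 : ℕ) - Real.log (8 : ℕ)) := psi_val' _ (-3 / 8) 3 8 (by norm_num) (by norm_num) (by norm_num) (by norm_num)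
    have e11 : psi ((1 / 40) - (3 / 5)) = (-23 / 40) * (Real.log (23 : ℕ) - Real.log (40 : ℕ)) := psi_val' _ (-23 / 40) 23 40 (by norm_num) (by norm_num) (by norm_num) (by norm_num)
    have e12 : psi ((1 / 40) - (4 / 5)) = (-31 / 40) * (Real.log (31 : ℕ) - Real.log (40 : ℕ)) := psi_val' _ (-31 / 40) 31 40 (by norm_num) (by norm_num) (by norm_num) (by norm_num)
    have e13 : Real.log ((3 / 80) - 1) = Real.log (77 : ℕ) - Real.log (80 : ℕ) := log_val' _ 77 80 (by norm_num) (by norm_num) (by norm_num)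
    rw [e1, e2, e3, e4, e5, e6, e7, e8, e9, e10, e11, e12, e13]
    have l3 := lgn_3
    have l5 := lgn_5
    have l7 := lgn_7
    have l8 := lgn_8
    have l9 := lgn_9
    have l17 := lgn_17
    have l23 := lgn_23
    have l31 := lgn_31
    have l33 := lgn_33
    have l40 := lgn_40
    have l77 := lgn_77
    have l80 := lgn_80
    have l83 := lgn_83
    simp only [Nat.cast_ofNat, Nat.cast_one, Real.log_one] at *
    linarith
  · have e1 : Real.log ((3 / 80) - (-1)) = Real.log (83 : ℕ) - Real.log (80 : ℕ) := log_val _ 83 80 (by norm_num) (by norm_num) (by norm_num)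
    have e2 : psi ((1 / 20) - (-4 / 5)) = (17 / 20) * (Real.log (17 : ℕ) - Real.log (20 : ℕ)) := psi_val _ (17 / 20) 17 20 (by norm_num) (by norm_num) (by norm_num) (by norm_num)
    have e3 : psi ((1 / 20) - (-3 / 5)) = (13 / 20) * (Real.log (13 : ℕ) - Real.log (20 : ℕ)) := psi_val _ (13 / 20) 13 20 (by norm_num) (by norm_num) (by norm_num) (by norm_num)
    have e4 : psi ((1 / 20) - (-2 / 5)) = (9 / 20) * (Real.log (9 : ℕ) - Real.log (20 : ℕ)) := psi_val _ (9 / 20) 9 20 (by norm_num) (by norm_num) (by norm_num) (by norm_num)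
    have e5 : psi ((1 / 20) - (-1 / 5)) = (1 / 4) * (Real.log (1 : ℕ) - Real.log (4 : ℕ)) := psi_val _ (1 / 4) 1 4 (by norm_num) (by norm_num) (by norm_num) (by norm_num)
    have e6 : psi ((1 / 20) - (-1 / 10)) = (3 / 20) * (Real.log (3 : ℕ) - Real.log (20 : ℕ)) := psi_val _ (3 / 20) 3 20 (by norm_num) (by norm_num) (by norm_num) (by norm_num)
    have e7 : psi ((1 / 20) - 0) = (1 / 20) * (Real.log (1 : ℕ) - Real.log (20 : ℕ)) := psi_val _ (1 / 20) 1 20 (by norm_num) (by norm_num) (by norm_num) (by norm_num)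
    have e8 : psi ((1 / 20) - (1 / 10)) = (-1 / 20) * (Real.log (1 : ℕ) - Real.log (20 : ℕ)) := psi_val' _ (-1 / 20) 1 20 (by norm_num) (by norm_num) (by norm_num) (by norm_num)
    have e9 : psi ((1 / 20) - (1 / 5)) = (-3 / 20) * (Real.log (3 : ℕ) - Real.log (20 : ℕ)) := psi_val' _ (-3 / 20) 3 20 (by norm_num) (by norm_num) (by norm_num) (by norm_num)
    have e10 : psi ((1 / 20) - (2 / 5)) = (-7 / 20) * (Real.log (7 : ℕ) - Real.log (20 : ℕ)) := psi_val' _ (-7 / 20) 7 20 (by norm_num) (by norm_num) (by norm_num) (by norm_num)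
    have e11 : psi ((1 / 20) - (3 / 5)) = (-11 / 20) * (Real.log (11 : ℕ) - Real.log (20 : ℕ)) := psi_val' _ (-11 / 20) 11 20 (by norm_num) (by norm_num) (by norm_num) (by norm_num)
    have e12 : psi ((1 / 20) - (4 / 5)) = (-3 / 4) * (Real.log (3 : ℕ) - Real.log (4 : ℕ)) := psi_val' _ (-3 / 4) 3 4 (by norm_num) (by norm_num) (by norm_num) (by norm_num)
    have e13 : Real.log ((3 / 80) - 1) = Real.log (77 : ℕ) - Real.log (80 : ℕ) := log_val' _ 77 80 (by norm_num) (by norm_num) (by norm_num)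
    rw [e1, e2, e3, e4, e5, e6, e7, e8, e9, e10, e11, e12, e13]
    have l3 := lgn_3
    have l4 := lgn_4
    have l7 := lgn_7
    have l9 := lgn_9
    have l11 := lgn_11
    have l13 := lgn_13
    have l17 := lgn_17
    have l20 := lgn_20
    have l77 := lgn_77
    have l80 := lgn_80
    have l83 := lgn_83
    simp only [Nat.cast_ofNat, Nat.cast_one, Real.log_one] at *
    linarith

theorem cellA2 (x : ℝ) (h1 : (1 / 20) ≤ x) (h2 : x ≤ (3 / 40)) :
    gT x ≤ aff (1 / 20) (3 / 40) (-1581 / 500) (-329 / 100) x := by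
  have t1 := term_tan_R (-1 / 2) (-1) (1 / 20) (3 / 40) (1 / 16) x (by norm_num) (by norm_num) (by norm_num) (by norm_num) h1
  have t2 := term_chord_R (1 / 4) (-4 / 5) (1 / 20) (3 / 40) x (by norm_num) (by norm_num) (by norm_num) h1 h2
  have t3 := term_chord_R (1 / 8) (-3 / 5) (1 / 20) (3 / 40) x (by norm_num) (by norm_num) (by norm_num) h1 h2
  have t4 := term_chord_R (1 / 4) (-2 / 5) (1 / 20) (3 / 40) x (by norm_num) (by norm_num) (by norm_num) h1 h2
  have t5 := term_chord_R (3 / 8) (-1 / 5) (1 / 20) (3 / 40) x (by norm_num) (by norm_num) (by norm_num) h1 h2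
  have t6 := term_chord_R (1 / 2) (-1 / 10) (1 / 20) (3 / 40) x (by norm_num) (by norm_num) (by norm_num) h1 h2
  have t7 := term_chord_R 3 0 (1 / 20) (3 / 40) x (by norm_num) (by norm_num) (by norm_num) h1 h2
  have t8 := term_chord_L (-3 / 2) (1 / 10) (1 / 20) (3 / 40) x (by norm_num) (by norm_num) (by norm_num) h1 h2
  have t9 := term_chord_L (-9 / 8) (1 / 5) (1 / 20) (3 / 40) x (by norm_num) (by norm_num) (by norm_num) h1 h2
  have t10 := term_chord_L (-3 / 4) (2 / 5) (1 / 20) (3 / 40) x (by norm_num) (by norm_num) (by norm_num) h1 h2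
  have t11 := term_chord_L (-3 / 8) (3 / 5) (1 / 20) (3 / 40) x (by norm_num) (by norm_num) (by norm_num) h1 h2
  have t12 := term_chord_L (-3 / 4) (4 / 5) (1 / 20) (3 / 40) x (by norm_num) (by norm_num) (by norm_num) h1 h2
  have t13 := term_tan_L (1 / 2) 1 (1 / 20) (3 / 40) (1 / 16) x (by norm_num) (by norm_num) (by norm_num) (by norm_num) h2
  have tl := aff_lin (1 / 20) (3 / 40) (-7 / 2) (-1) x (by norm_num)
  refine gT_le (by norm_num) h1 h2 t1 t2 t3 t4 t5 t6 t7 t8 t9 t10 t11 t12 t13 tl ?_ ?_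
  · have e1 : Real.log ((1 / 16) - (-1)) = Real.log (17 : ℕ) - Real.log (16 : ℕ) := log_val _ 17 16 (by norm_num) (by norm_num) (by norm_num)
    have e2 : psi ((1 / 20) - (-4 / 5)) = (17 / 20) * (Real.log (17 : ℕ) - Real.log (20 : ℕ)) := psi_val _ (17 / 20) 17 20 (by norm_num) (by norm_num) (by norm_num) (by norm_num)
    have e3 : psi ((1 / 20) - (-3 / 5)) = (13 / 20) * (Real.log (13 : ℕ) - Real.log (20 : ℕ)) := psi_val _ (13 / 20) 13 20 (by norm_num) (by norm_num) (by norm_num) (by norm_num)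
    have e4 : psi ((1 / 20) - (-2 / 5)) = (9 / 20) * (Real.log (9 : ℕ) - Real.log (20 : ℕ)) := psi_val _ (9 / 20) 9 20 (by norm_num) (by norm_num) (by norm_num) (by norm_num)
    have e5 : psi ((1 / 20) - (-1 / 5)) = (1 / 4) * (Real.log (1 : ℕ) - Real.log (4 : ℕ)) := psi_val _ (1 / 4) 1 4 (by norm_num) (by norm_num) (by norm_num) (by norm_num)
    have e6 : psi ((1 / 20) - (-1 / 10)) = (3 / 20) * (Real.log (3 : ℕ) - Real.log (20 : ℕ)) := psi_val _ (3 / 20) 3 20 (by norm_num) (by norm_num) (by norm_num) (by norm_num)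
    have e7 : psi ((1 / 20) - 0) = (1 / 20) * (Real.log (1 : ℕ) - Real.log (20 : ℕ)) := psi_val _ (1 / 20) 1 20 (by norm_num) (by norm_num) (by norm_num) (by norm_num)
    have e8 : psi ((1 / 20) - (1 / 10)) = (-1 / 20) * (Real.log (1 : ℕ) - Real.log (20 : ℕ)) := psi_val' _ (-1 / 20) 1 20 (by norm_num) (by norm_num) (by norm_num) (by norm_num)
    have e9 : psi ((1 / 20) - (1 / 5)) = (-3 / 20) * (Real.log (3 : ℕ) - Real.log (20 : ℕ)) := psi_val' _ (-3 / 20) 3 20 (by norm_num) (by norm_num) (by norm_num) (by norm_num)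
    have e10 : psi ((1 / 20) - (2 / 5)) = (-7 / 20) * (Real.log (7 : ℕ) - Real.log (20 : ℕ)) := psi_val' _ (-7 / 20) 7 20 (by norm_num) (by norm_num) (by norm_num) (by norm_num)
    have e11 : psi ((1 / 20) - (3 / 5)) = (-11 / 20) * (Real.log (11 : ℕ) - Real.log (20 : ℕ)) := psi_val' _ (-11 / 20) 11 20 (by norm_num) (by norm_num) (by norm_num) (by norm_num)
    have e12 : psi ((1 / 20) - (4 / 5)) = (-3 / 4) * (Real.log (3 : ℕ) - Real.log (4 : ℕ)) := psi_val' _ (-3 / 4) 3 4 (by norm_num) (by norm_num) (by norm_num) (by norm_num)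
    have e13 : Real.log ((1 / 16) - 1) = Real.log (15 : ℕ) - Real.log (16 : ℕ) := log_val' _ 15 16 (by norm_num) (by norm_num) (by norm_num)
    rw [e1, e2, e3, e4, e5, e6, e7, e8, e9, e10, e11, e12, e13]
    have l3 := lgn_3
    have l4 := lgn_4
    have l7 := lgn_7
    have l9 := lgn_9
    have l11 := lgn_11
    have l13 := lgn_13
    have l15 := lgn_15
    have l16 := lgn_16
    have l17 := lgn_17
    have l20 := lgn_20
    simp only [Nat.cast_ofNat, Nat.cast_one, Real.log_one] at *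
    linarith
  · have e1 : Real.log ((1 / 16) - (-1)) = Real.log (17 : ℕ) - Real.log (16 : ℕ) := log_val _ 17 16 (by norm_num) (by norm_num) (by norm_num)
    have e2 : psi ((3 / 40) - (-4 / 5)) = (7 / 8) * (Real.log (7 : ℕ) - Real.log (8 : ℕ)) := psi_val _ (7 / 8) 7 8 (by norm_num) (by norm_num) (by norm_num) (by norm_num)
    have e3 : psi ((3 / 40) - (-3 / 5)) = (27 / 40) * (Real.log (27 : ℕ) - Real.log (40 : ℕ)) := psi_val _ (27 / 40) 27 40 (by norm_num) (by norm_num) (by norm_num) (by norm_num)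
    have e4 : psi ((3 / 40) - (-2 / 5)) = (19 / 40) * (Real.log (19 : ℕ) - Real.log (40 : ℕ)) := psi_val _ (19 / 40) 19 40 (by norm_num) (by norm_num) (by norm_num) (by norm_num)
    have e5 : psi ((3 / 40) - (-1 / 5)) = (11 / 40) * (Real.log (11 : ℕ) - Real.log (40 : ℕ)) := psi_val _ (11 / 40) 11 40 (by norm_num) (by norm_num) (by norm_num) (by norm_num)
    have e6 : psi ((3 / 40) - (-1 / 10)) = (7 / 40) * (Real.log (7 : ℕ) - Real.log (40 : ℕ)) := psi_val _ (7 / 40) 7 40 (by norm_num) (by norm_num) (by norm_num) (by norm_num)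
    have e7 : psi ((3 / 40) - 0) = (3 / 40) * (Real.log (3 : ℕ) - Real.log (40 : ℕ)) := psi_val _ (3 / 40) 3 40 (by norm_num) (by norm_num) (by norm_num) (by norm_num)
    have e8 : psi ((3 / 40) - (1 / 10)) = (-1 / 40) * (Real.log (1 : ℕ) - Real.log (40 : ℕ)) := psi_val' _ (-1 / 40) 1 40 (by norm_num) (by norm_num) (by norm_num) (by norm_num)
    have e9 : psi ((3 / 40) - (1 / 5)) = (-1 / 8) * (Real.log (1 : ℕ) - Real.log (8 : ℕ)) := psi_val' _ (-1 / 8) 1 8 (by norm_num) (by norm_num) (by norm_num) (by norm_num)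
    have e10 : psi ((3 / 40) - (2 / 5)) = (-13 / 40) * (Real.log (13 : ℕ) - Real.log (40 : ℕ)) := psi_val' _ (-13 / 40) 13 40 (by norm_num) (by norm_num) (by norm_num) (by norm_num)
    have e11 : psi ((3 / 40) - (3 / 5)) = (-21 / 40) * (Real.log (21 : ℕ) - Real.log (40 : ℕ)) := psi_val' _ (-21 / 40) 21 40 (by norm_num) (by norm_num) (by norm_num) (by norm_num)
    have e12 : psi ((3 / 40) - (4 / 5)) = (-29 / 40) * (Real.log (29 : ℕ) - Real.log (40 : ℕ)) := psi_val' _ (-29 / 40) 29 40 (by norm_num) (by norm_num) (by norm_num) (by norm_num)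
    have e13 : Real.log ((1 / 16) - 1) = Real.log (15 : ℕ) - Real.log (16 : ℕ) := log_val' _ 15 16 (by norm_num) (by norm_num) (by norm_num)
    rw [e1, e2, e3, e4, e5, e6, e7, e8, e9, e10, e11, e12, e13]
    have l3 := lgn_3
    have l7 := lgn_7
    have l8 := lgn_8
    have l11 := lgn_11
    have l13 := lgn_13
    have l15 := lgn_15
    have l16 := lgn_16
    have l17 := lgn_17
    have l19 := lgn_19
    have l21 := lgn_21
    have l27 := lgn_27
    have l29 := lgn_29
    have l40 := lgn_40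
    simp only [Nat.cast_ofNat, Nat.cast_one, Real.log_one] at *
    linarith

theorem cellA3 (x : ℝ) (h1 : (3 / 40) ≤ x) (h2 : x ≤ (1 / 10)) :
    gT x ≤ aff (3 / 40) (1 / 10) (-329 / 100) (-331 / 100) x := by
  have t1 := term_tan_R (-1 / 2) (-1) (3 / 40) (1 / 10) (7 / 80) x (by norm_num) (by norm_num) (by norm_num) (by norm_num) h1
  have t2 := term_chord_R (1 / 4) (-4 / 5) (3 / 40) (1 / 10) x (by norm_num) (by norm_num) (by norm_num) h1 h2
  have t3 := term_chord_R (1 / 8) (-3 / 5) (3 / 40) (1 / 10) x (by norm_num) (by norm_num) (by norm_num) h1 h2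
  have t4 := term_chord_R (1 / 4) (-2 / 5) (3 / 40) (1 / 10) x (by norm_num) (by norm_num) (by norm_num) h1 h2
  have t5 := term_chord_R (3 / 8) (-1 / 5) (3 / 40) (1 / 10) x (by norm_num) (by norm_num) (by norm_num) h1 h2
  have t6 := term_chord_R (1 / 2) (-1 / 10) (3 / 40) (1 / 10) x (by norm_num) (by norm_num) (by norm_num) h1 h2
  have t7 := term_chord_R 3 0 (3 / 40) (1 / 10) x (by norm_num) (by norm_num) (by norm_num) h1 h2
  have t8 := term_chord_L (-3 / 2) (1 / 10) (3 / 40) (1 / 10) x (by norm_num) (by norm_num) (by norm_num) h1 h2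
  have t9 := term_chord_L (-9 / 8) (1 / 5) (3 / 40) (1 / 10) x (by norm_num) (by norm_num) (by norm_num) h1 h2
  have t10 := term_chord_L (-3 / 4) (2 / 5) (3 / 40) (1 / 10) x (by norm_num) (by norm_num) (by norm_num) h1 h2
  have t11 := term_chord_L (-3 / 8) (3 / 5) (3 / 40) (1 / 10) x (by norm_num) (by norm_num) (by norm_num) h1 h2
  have t12 := term_chord_L (-3 / 4) (4 / 5) (3 / 40) (1 / 10) x (by norm_num) (by norm_num) (by norm_num) h1 h2
  have t13 := term_tan_L (1 / 2) 1 (3 / 40) (1 / 10) (7 / 80) x (by norm_num) (by norm_num) (by norm_num) (by norm_num) h2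
  have tl := aff_lin (3 / 40) (1 / 10) (-7 / 2) (-1) x (by norm_num)
  refine gT_le (by norm_num) h1 h2 t1 t2 t3 t4 t5 t6 t7 t8 t9 t10 t11 t12 t13 tl ?_ ?_
  · have e1 : Real.log ((7 / 80) - (-1)) = Real.log (87 : ℕ) - Real.log (80 : ℕ) := log_val _ 87 80 (by norm_num) (by norm_num) (by norm_num)
    have e2 : psi ((3 / 40) - (-4 / 5)) = (7 / 8) * (Real.log (7 : ℕ) - Real.log (8 : ℕ)) := psi_val _ (7 / 8) 7 8 (by norm_num) (by norm_num) (by norm_num) (by norm_num)
    have e3 : psi ((3 / 40) - (-3 / 5)) = (27 / 40) * (Real.log (27 : ℕ) - Real.log (40 : ℕ)) := psi_val _ (27 / 40) 27 40 (by norm_num) (by norm_num) (by norm_num) (by norm_num)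
    have e4 : psi ((3 / 40) - (-2 / 5)) = (19 / 40) * (Real.log (19 : ℕ) - Real.log (40 : ℕ)) := psi_val _ (19 / 40) 19 40 (by norm_num) (by norm_num) (by norm_num) (by norm_num)
    have e5 : psi ((3 / 40) - (-1 / 5)) = (11 / 40) * (Real.log (11 : ℕ) - Real.log (40 : ℕ)) := psi_val _ (11 / 40) 11 40 (by norm_num) (by norm_num) (by norm_num) (by norm_num)
    have e6 : psi ((3 / 40) - (-1 / 10)) = (7 / 40) * (Real.log (7 : ℕ) - Real.log (40 : ℕ)) := psi_val _ (7 / 40) 7 40 (by norm_num) (by norm_num) (by norm_num) (by norm_num)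
    have e7 : psi ((3 / 40) - 0) = (3 / 40) * (Real.log (3 : ℕ) - Real.log (40 : ℕ)) := psi_val _ (3 / 40) 3 40 (by norm_num) (by norm_num) (by norm_num) (by norm_num)
    have e8 : psi ((3 / 40) - (1 / 10)) = (-1 / 40) * (Real.log (1 : ℕ) - Real.log (40 : ℕ)) := psi_val' _ (-1 / 40) 1 40 (by norm_num) (by norm_num) (by norm_num) (by norm_num)
    have e9 : psi ((3 / 40) - (1 / 5)) = (-1 / 8) * (Real.log (1 : ℕ) - Real.log (8 : ℕ)) := psi_val' _ (-1 / 8) 1 8 (by norm_num) (by norm_num) (by norm_num) (by norm_num)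
    have e10 : psi ((3 / 40) - (2 / 5)) = (-13 / 40) * (Real.log (13 : ℕ) - Real.log (40 : ℕ)) := psi_val' _ (-13 / 40) 13 40 (by norm_num) (by norm_num) (by norm_num) (by norm_num)
    have e11 : psi ((3 / 40) - (3 / 5)) = (-21 / 40) * (Real.log (21 : ℕ) - Real.log (40 : ℕ)) := psi_val' _ (-21 / 40) 21 40 (by norm_num) (by norm_num) (by norm_num) (by norm_num)
    have e12 : psi ((3 / 40) - (4 / 5)) = (-29 / 40) * (Real.log (29 : ℕ) - Real.log (40 : ℕ)) := psi_val' _ (-29 / 40) 29 40 (by norm_num) (by norm_num) (by norm_num) (by norm_num)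
    have e13 : Real.log ((7 / 80) - 1) = Real.log (73 : ℕ) - Real.log (80 : ℕ) := log_val' _ 73 80 (by norm_num) (by norm_num) (by norm_num)
    rw [e1, e2, e3, e4, e5, e6, e7, e8, e9, e10, e11, e12, e13]
    have l3 := lgn_3
    have l7 := lgn_7
    have l8 := lgn_8
    have l11 := lgn_11
    have l13 := lgn_13
    have l19 := lgn_19
    have l21 := lgn_21
    have l27 := lgn_27
    have l29 := lgn_29
    have l40 := lgn_40
    have l73 := lgn_73
    have l80 := lgn_80
    have l87 := lgn_87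
    simp only [Nat.cast_ofNat, Nat.cast_one, Real.log_one] at *
    linarith
  · have e1 : Real.log ((7 / 80) - (-1)) = Real.log (87 : ℕ) - Real.log (80 : ℕ) := log_val _ 87 80 (by norm_num) (by norm_num) (by norm_num)
    have e2 : psi ((1 / 10) - (-4 / 5)) = (9 / 10) * (Real.log (9 : ℕ) - Real.log (10 : ℕ)) := psi_val _ (9 / 10) 9 10 (by norm_num) (by norm_num) (by norm_num) (by norm_num)
    have e3 : psi ((1 / 10) - (-3 / 5)) = (7 / 10) * (Real.log (7 : ℕ) - Real.log (10 : ℕ)) := psi_val _ (7 / 10) 7 10 (by norm_num) (by norm_num) (by norm_num) (by norm_num)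
    have e4 : psi ((1 / 10) - (-2 / 5)) = (1 / 2) * (Real.log (1 : ℕ) - Real.log (2 : ℕ)) := psi_val _ (1 / 2) 1 2 (by norm_num) (by norm_num) (by norm_num) (by norm_num)
    have e5 : psi ((1 / 10) - (-1 / 5)) = (3 / 10) * (Real.log (3 : ℕ) - Real.log (10 : ℕ)) := psi_val _ (3 / 10) 3 10 (by norm_num) (by norm_num) (by norm_num) (by norm_num)
    have e6 : psi ((1 / 10) - (-1 / 10)) = (1 / 5) * (Real.log (1 : ℕ) - Real.log (5 : ℕ)) := psi_val _ (1 / 5) 1 5 (by norm_num) (by norm_num) (by norm_num) (by norm_num)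
    have e7 : psi ((1 / 10) - 0) = (1 / 10) * (Real.log (1 : ℕ) - Real.log (10 : ℕ)) := psi_val _ (1 / 10) 1 10 (by norm_num) (by norm_num) (by norm_num) (by norm_num)
    have e8 : psi ((1 / 10) - (1 / 10)) = 0 := by rw [show ((1 / 10) - (1 / 10) : ℝ) = 0 by norm_num, psi_zero]
    have e9 : psi ((1 / 10) - (1 / 5)) = (-1 / 10) * (Real.log (1 : ℕ) - Real.log (10 : ℕ)) := psi_val' _ (-1 / 10) 1 10 (by norm_num) (by norm_num) (by norm_num) (by norm_num)
    have e10 : psi ((1 / 10) - (2 / 5)) = (-3 / 10) * (Real.log (3 : ℕ) - Real.log (10 : ℕ)) := psi_val' _ (-3 / 10) 3 10 (by norm_num) (by norm_num) (by norm_num) (by norm_num)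
    have e11 : psi ((1 / 10) - (3 / 5)) = (-1 / 2) * (Real.log (1 : ℕ) - Real.log (2 : ℕ)) := psi_val' _ (-1 / 2) 1 2 (by norm_num) (by norm_num) (by norm_num) (by norm_num)
    have e12 : psi ((1 / 10) - (4 / 5)) = (-7 / 10) * (Real.log (7 : ℕ) - Real.log (10 : ℕ)) := psi_val' _ (-7 / 10) 7 10 (by norm_num) (by norm_num) (by norm_num) (by norm_num)
    have e13 : Real.log ((7 / 80) - 1) = Real.log (73 : ℕ) - Real.log (80 : ℕ) := log_val' _ 73 80 (by norm_num) (by norm_num) (by norm_num)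
    rw [e1, e2, e3, e4, e5, e6, e7, e8, e9, e10, e11, e12, e13]
    have l2 := lgn_2
    have l3 := lgn_3
    have l5 := lgn_5
    have l7 := lgn_7
    have l9 := lgn_9
    have l10 := lgn_10
    have l73 := lgn_73
    have l80 := lgn_80
    have l87 := lgn_87
    simp only [Nat.cast_ofNat, Nat.cast_one, Real.log_one] at *
    linarith

theorem cellB0 (x : ℝ) (h1 : (1 / 10) ≤ x) (h2 : x ≤ (3 / 20)) :
    gT x ≤ aff (1 / 10) (3 / 20) (-331 / 100) (-331 / 100) x := by
  have t1 := term_tan_R (-1 / 2) (-1) (1 / 10) (3 / 20) (9 / 80) x (by norm_num) (by norm_num) (by norm_num) (by norm_num) h1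
  have t2 := term_chord_R (1 / 4) (-4 / 5) (1 / 10) (3 / 20) x (by norm_num) (by norm_num) (by norm_num) h1 h2
  have t3 := term_chord_R (1 / 8) (-3 / 5) (1 / 10) (3 / 20) x (by norm_num) (by norm_num) (by norm_num) h1 h2
  have t4 := term_chord_R (1 / 4) (-2 / 5) (1 / 10) (3 / 20) x (by norm_num) (by norm_num) (by norm_num) h1 h2
  have t5 := term_chord_R (3 / 8) (-1 / 5) (1 / 10) (3 / 20) x (by norm_num) (by norm_num) (by norm_num) h1 h2
  have t6 := term_chord_R (1 / 2) (-1 / 10) (1 / 10) (3 / 20) x (by norm_num) (by norm_num) (by norm_num) h1 h2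
  have t7 := term_chord_R 3 0 (1 / 10) (3 / 20) x (by norm_num) (by norm_num) (by norm_num) h1 h2
  have t8 := term_tan_R (-3 / 2) (1 / 10) (1 / 10) (3 / 20) (9 / 80) x (by norm_num) (by norm_num) (by norm_num) (by norm_num) h1
  have t9 := term_chord_L (-9 / 8) (1 / 5) (1 / 10) (3 / 20) x (by norm_num) (by norm_num) (by norm_num) h1 h2
  have t10 := term_chord_L (-3 / 4) (2 / 5) (1 / 10) (3 / 20) x (by norm_num) (by norm_num) (by norm_num) h1 h2
  have t11 := term_chord_L (-3 / 8) (3 / 5) (1 / 10) (3 / 20) x (by norm_num) (by norm_num) (by norm_num) h1 h2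
  have t12 := term_chord_L (-3 / 4) (4 / 5) (1 / 10) (3 / 20) x (by norm_num) (by norm_num) (by norm_num) h1 h2
  have t13 := term_tan_L (1 / 2) 1 (1 / 10) (3 / 20) (9 / 80) x (by norm_num) (by norm_num) (by norm_num) (by norm_num) h2
  have tl := aff_lin (1 / 10) (3 / 20) (-7 / 2) (-1) x (by norm_num)
  refine gT_le (by norm_num) h1 h2 t1 t2 t3 t4 t5 t6 t7 t8 t9 t10 t11 t12 t13 tl ?_ ?_
  · have e1 : Real.log ((9 / 80) - (-1)) = Real.log (89 : ℕ) - Real.log (80 : ℕ) := log_val _ 89 80 (by norm_num) (by norm_num) (by norm_num)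
    have e2 : psi ((1 / 10) - (-4 / 5)) = (9 / 10) * (Real.log (9 : ℕ) - Real.log (10 : ℕ)) := psi_val _ (9 / 10) 9 10 (by norm_num) (by norm_num) (by norm_num) (by norm_num)
    have e3 : psi ((1 / 10) - (-3 / 5)) = (7 / 10) * (Real.log (7 : ℕ) - Real.log (10 : ℕ)) := psi_val _ (7 / 10) 7 10 (by norm_num) (by norm_num) (by norm_num) (by norm_num)
    have e4 : psi ((1 / 10) - (-2 / 5)) = (1 / 2) * (Real.log (1 : ℕ) - Real.log (2 : ℕ)) := psi_val _ (1 / 2) 1 2 (by norm_num) (by norm_num) (by norm_num) (by norm_num)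
    have e5 : psi ((1 / 10) - (-1 / 5)) = (3 / 10) * (Real.log (3 : ℕ) - Real.log (10 : ℕ)) := psi_val _ (3 / 10) 3 10 (by norm_num) (by norm_num) (by norm_num) (by norm_num)
    have e6 : psi ((1 / 10) - (-1 / 10)) = (1 / 5) * (Real.log (1 : ℕ) - Real.log (5 : ℕ)) := psi_val _ (1 / 5) 1 5 (by norm_num) (by norm_num) (by norm_num) (by norm_num)
    have e7 : psi ((1 / 10) - 0) = (1 / 10) * (Real.log (1 : ℕ) - Real.log (10 : ℕ)) := psi_val _ (1 / 10) 1 10 (by norm_num) (by norm_num) (by norm_num) (by norm_num)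
    have e8 : Real.log ((9 / 80) - (1 / 10)) = Real.log (1 : ℕ) - Real.log (80 : ℕ) := log_val _ 1 80 (by norm_num) (by norm_num) (by norm_num)
    have e9 : psi ((1 / 10) - (1 / 5)) = (-1 / 10) * (Real.log (1 : ℕ) - Real.log (10 : ℕ)) := psi_val' _ (-1 / 10) 1 10 (by norm_num) (by norm_num) (by norm_num) (by norm_num)
    have e10 : psi ((1 / 10) - (2 / 5)) = (-3 / 10) * (Real.log (3 : ℕ) - Real.log (10 : ℕ)) := psi_val' _ (-3 / 10) 3 10 (by norm_num) (by norm_num) (by norm_num) (by norm_num)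
    have e11 : psi ((1 / 10) - (3 / 5)) = (-1 / 2) * (Real.log (1 : ℕ) - Real.log (2 : ℕ)) := psi_val' _ (-1 / 2) 1 2 (by norm_num) (by norm_num) (by norm_num) (by norm_num)
    have e12 : psi ((1 / 10) - (4 / 5)) = (-7 / 10) * (Real.log (7 : ℕ) - Real.log (10 : ℕ)) := psi_val' _ (-7 / 10) 7 10 (by norm_num) (by norm_num) (by norm_num) (by norm_num)
    have e13 : Real.log ((9 / 80) - 1) = Real.log (71 : ℕ) - Real.log (80 : ℕ) := log_val' _ 71 80 (by norm_num) (by norm_num) (by norm_num)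
    rw [e1, e2, e3, e4, e5, e6, e7, e8, e9, e10, e11, e12, e13]
    have l2 := lgn_2
    have l3 := lgn_3
    have l5 := lgn_5
    have l7 := lgn_7
    have l9 := lgn_9
    have l10 := lgn_10
    have l71 := lgn_71
    have l80 := lgn_80
    have l89 := lgn_89
    simp only [Nat.cast_ofNat, Nat.cast_one, Real.log_one] at *
    linarith
  · have e1 : Real.log ((9 / 80) - (-1)) = Real.log (89 : ℕ) - Real.log (80 : ℕ) := log_val _ 89 80 (by norm_num) (by norm_num) (by norm_num)
    have e2 : psi ((3 / 20) - (-4 / 5)) = (19 / 20) * (Real.log (19 : ℕ) - Real.log (20 : ℕ)) := psi_val _ (19 / 20) 19 20 (by norm_num) (by norm_num) (by norm_num) (by norm_num)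
    have e3 : psi ((3 / 20) - (-3 / 5)) = (3 / 4) * (Real.log (3 : ℕ) - Real.log (4 : ℕ)) := psi_val _ (3 / 4) 3 4 (by norm_num) (by norm_num) (by norm_num) (by norm_num)
    have e4 : psi ((3 / 20) - (-2 / 5)) = (11 / 20) * (Real.log (11 : ℕ) - Real.log (20 : ℕ)) := psi_val _ (11 / 20) 11 20 (by norm_num) (by norm_num) (by norm_num) (by norm_num)
    have e5 : psi ((3 / 20) - (-1 / 5)) = (7 / 20) * (Real.log (7 : ℕ) - Real.log (20 : ℕ)) := psi_val _ (7 / 20) 7 20 (by norm_num) (by norm_num) (by norm_num) (by norm_num)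
    have e6 : psi ((3 / 20) - (-1 / 10)) = (1 / 4) * (Real.log (1 : ℕ) - Real.log (4 : ℕ)) := psi_val _ (1 / 4) 1 4 (by norm_num) (by norm_num) (by norm_num) (by norm_num)
    have e7 : psi ((3 / 20) - 0) = (3 / 20) * (Real.log (3 : ℕ) - Real.log (20 : ℕ)) := psi_val _ (3 / 20) 3 20 (by norm_num) (by norm_num) (by norm_num) (by norm_num)
    have e8 : Real.log ((9 / 80) - (1 / 10)) = Real.log (1 : ℕ) - Real.log (80 : ℕ) := log_val _ 1 80 (by norm_num) (by norm_num) (by norm_num)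
    have e9 : psi ((3 / 20) - (1 / 5)) = (-1 / 20) * (Real.log (1 : ℕ) - Real.log (20 : ℕ)) := psi_val' _ (-1 / 20) 1 20 (by norm_num) (by norm_num) (by norm_num) (by norm_num)
    have e10 : psi ((3 / 20) - (2 / 5)) = (-1 / 4) * (Real.log (1 : ℕ) - Real.log (4 : ℕ)) := psi_val' _ (-1 / 4) 1 4 (by norm_num) (by norm_num) (by norm_num) (by norm_num)
    have e11 : psi ((3 / 20) - (3 / 5)) = (-9 / 20) * (Real.log (9 : ℕ) - Real.log (20 : ℕ)) := psi_val' _ (-9 / 20) 9 20 (by norm_num) (by norm_num) (by norm_num) (by norm_num)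
    have e12 : psi ((3 / 20) - (4 / 5)) = (-13 / 20) * (Real.log (13 : ℕ) - Real.log (20 : ℕ)) := psi_val' _ (-13 / 20) 13 20 (by norm_num) (by norm_num) (by norm_num) (by norm_num)
    have e13 : Real.log ((9 / 80) - 1) = Real.log (71 : ℕ) - Real.log (80 : ℕ) := log_val' _ 71 80 (by norm_num) (by norm_num) (by norm_num)
    rw [e1, e2, e3, e4, e5, e6, e7, e8, e9, e10, e11, e12, e13]
    have l3 := lgn_3
    have l4 := lgn_4
    have l7 := lgn_7
    have l9 := lgn_9
    have l11 := lgn_11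
    have l13 := lgn_13
    have l19 := lgn_19
    have l20 := lgn_20
    have l71 := lgn_71
    have l80 := lgn_80
    have l89 := lgn_89
    simp only [Nat.cast_ofNat, Nat.cast_one, Real.log_one] at *
    linarith

theorem cellB1 (x : ℝ) (h1 : (3 / 20) ≤ x) (h2 : x ≤ (1 / 5)) :
    gT x ≤ aff (3 / 20) (1 / 5) (-331 / 100) (-331 / 100) x := by
  have t1 := term_tan_R (-1 / 2) (-1) (3 / 20) (1 / 5) (7 / 40) x (by norm_num) (by norm_num) (by norm_num) (by norm_num) h1
  have t2 := term_chord_R (1 / 4) (-4 / 5) (3 / 20) (1 / 5) x (by norm_num) (by norm_num) (by norm_num) h1 h2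
  have t3 := term_chord_R (1 / 8) (-3 / 5) (3 / 20) (1 / 5) x (by norm_num) (by norm_num) (by norm_num) h1 h2
  have t4 := term_chord_R (1 / 4) (-2 / 5) (3 / 20) (1 / 5) x (by norm_num) (by norm_num) (by norm_num) h1 h2
  have t5 := term_chord_R (3 / 8) (-1 / 5) (3 / 20) (1 / 5) x (by norm_num) (by norm_num) (by norm_num) h1 h2
  have t6 := term_chord_R (1 / 2) (-1 / 10) (3 / 20) (1 / 5) x (by norm_num) (by norm_num) (by norm_num) h1 h2
  have t7 := term_chord_R 3 0 (3 / 20) (1 / 5) x (by norm_num) (by norm_num) (by norm_num) h1 h2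
  have t8 := term_tan_R (-3 / 2) (1 / 10) (3 / 20) (1 / 5) (7 / 40) x (by norm_num) (by norm_num) (by norm_num) (by norm_num) h1
  have t9 := term_chord_L (-9 / 8) (1 / 5) (3 / 20) (1 / 5) x (by norm_num) (by norm_num) (by norm_num) h1 h2
  have t10 := term_chord_L (-3 / 4) (2 / 5) (3 / 20) (1 / 5) x (by norm_num) (by norm_num) (by norm_num) h1 h2
  have t11 := term_chord_L (-3 / 8) (3 / 5) (3 / 20) (1 / 5) x (by norm_num) (by norm_num) (by norm_num) h1 h2
  have t12 := term_chord_L (-3 / 4) (4 / 5) (3 / 20) (1 / 5) x (by norm_num) (by norm_num) (by norm_num) h1 h2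
  have t13 := term_tan_L (1 / 2) 1 (3 / 20) (1 / 5) (7 / 40) x (by norm_num) (by norm_num) (by norm_num) (by norm_num) h2
  have tl := aff_lin (3 / 20) (1 / 5) (-7 / 2) (-1) x (by norm_num)
  refine gT_le (by norm_num) h1 h2 t1 t2 t3 t4 t5 t6 t7 t8 t9 t10 t11 t12 t13 tl ?_ ?_
  · have e1 : Real.log ((7 / 40) - (-1)) = Real.log (47 : ℕ) - Real.log (40 : ℕ) := log_val _ 47 40 (by norm_num) (by norm_num) (by norm_num)
    have e2 : psi ((3 / 20) - (-4 / 5)) = (19 / 20) * (Real.log (19 : ℕ) - Real.log (20 : ℕ)) := psi_val _ (19 / 20) 19 20 (by norm_num) (by norm_num) (by norm_num) (by norm_num)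
    have e3 : psi ((3 / 20) - (-3 / 5)) = (3 / 4) * (Real.log (3 : ℕ) - Real.log (4 : ℕ)) := psi_val _ (3 / 4) 3 4 (by norm_num) (by norm_num) (by norm_num) (by norm_num)
    have e4 : psi ((3 / 20) - (-2 / 5)) = (11 / 20) * (Real.log (11 : ℕ) - Real.log (20 : ℕ)) := psi_val _ (11 / 20) 11 20 (by norm_num) (by norm_num) (by norm_num) (by norm_num)
    have e5 : psi ((3 / 20) - (-1 / 5)) = (7 / 20) * (Real.log (7 : ℕ) - Real.log (20 : ℕ)) := psi_val _ (7 / 20) 7 20 (by norm_num) (by norm_num) (by norm_num) (by norm_num)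
    have e6 : psi ((3 / 20) - (-1 / 10)) = (1 / 4) * (Real.log (1 : ℕ) - Real.log (4 : ℕ)) := psi_val _ (1 / 4) 1 4 (by norm_num) (by norm_num) (by norm_num) (by norm_num)
    have e7 : psi ((3 / 20) - 0) = (3 / 20) * (Real.log (3 : ℕ) - Real.log (20 : ℕ)) := psi_val _ (3 / 20) 3 20 (by norm_num) (by norm_num) (by norm_num) (by norm_num)
    have e8 : Real.log ((7 / 40) - (1 / 10)) = Real.log (3 : ℕ) - Real.log (40 : ℕ) := log_val _ 3 40 (by norm_num) (by norm_num) (by norm_num)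
    have e9 : psi ((3 / 20) - (1 / 5)) = (-1 / 20) * (Real.log (1 : ℕ) - Real.log (20 : ℕ)) := psi_val' _ (-1 / 20) 1 20 (by norm_num) (by norm_num) (by norm_num) (by norm_num)
    have e10 : psi ((3 / 20) - (2 / 5)) = (-1 / 4) * (Real.log (1 : ℕ) - Real.log (4 : ℕ)) := psi_val' _ (-1 / 4) 1 4 (by norm_num) (by norm_num) (by norm_num) (by norm_num)
    have e11 : psi ((3 / 20) - (3 / 5)) = (-9 / 20) * (Real.log (9 : ℕ) - Real.log (20 : ℕ)) := psi_val' _ (-9 / 20) 9 20 (by norm_num) (by norm_num) (by norm_num) (by norm_num)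
    have e12 : psi ((3 / 20) - (4 / 5)) = (-13 / 20) * (Real.log (13 : ℕ) - Real.log (20 : ℕ)) := psi_val' _ (-13 / 20) 13 20 (by norm_num) (by norm_num) (by norm_num) (by norm_num)
    have e13 : Real.log ((7 / 40) - 1) = Real.log (33 : ℕ) - Real.log (40 : ℕ) := log_val' _ 33 40 (by norm_num) (by norm_num) (by norm_num)
    rw [e1, e2, e3, e4, e5, e6, e7, e8, e9, e10, e11, e12, e13]
    have l3 := lgn_3
    have l4 := lgn_4
    have l7 := lgn_7
    have l9 := lgn_9
    have l11 := lgn_11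
    have l13 := lgn_13
    have l19 := lgn_19
    have l20 := lgn_20
    have l33 := lgn_33
    have l40 := lgn_40
    have l47 := lgn_47
    simp only [Nat.cast_ofNat, Nat.cast_one, Real.log_one] at *
    linarith
  · have e1 : Real.log ((7 / 40) - (-1)) = Real.log (47 : ℕ) - Real.log (40 : ℕ) := log_val _ 47 40 (by norm_num) (by norm_num) (by norm_num)
    have e2 : psi ((1 / 5) - (-4 / 5)) = 1 * (Real.log (1 : ℕ) - Real.log (1 : ℕ)) := psi_val _ 1 1 1 (by norm_num) (by norm_num) (by norm_num) (by norm_num)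
    have e3 : psi ((1 / 5) - (-3 / 5)) = (4 / 5) * (Real.log (4 : ℕ) - Real.log (5 : ℕ)) := psi_val _ (4 / 5) 4 5 (by norm_num) (by norm_num) (by norm_num) (by norm_num)
    have e4 : psi ((1 / 5) - (-2 / 5)) = (3 / 5) * (Real.log (3 : ℕ) - Real.log (5 : ℕ)) := psi_val _ (3 / 5) 3 5 (by norm_num) (by norm_num) (by norm_num) (by norm_num)
    have e5 : psi ((1 / 5) - (-1 / 5)) = (2 / 5) * (Real.log (2 : ℕ) - Real.log (5 : ℕ)) := psi_val _ (2 / 5) 2 5 (by norm_num) (by norm_num) (by norm_num) (by norm_num)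
    have e6 : psi ((1 / 5) - (-1 / 10)) = (3 / 10) * (Real.log (3 : ℕ) - Real.log (10 : ℕ)) := psi_val _ (3 / 10) 3 10 (by norm_num) (by norm_num) (by norm_num) (by norm_num)
    have e7 : psi ((1 / 5) - 0) = (1 / 5) * (Real.log (1 : ℕ) - Real.log (5 : ℕ)) := psi_val _ (1 / 5) 1 5 (by norm_num) (by norm_num) (by norm_num) (by norm_num)
    have e8 : Real.log ((7 / 40) - (1 / 10)) = Real.log (3 : ℕ) - Real.log (40 : ℕ) := log_val _ 3 40 (by norm_num) (by norm_num) (by norm_num)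
    have e9 : psi ((1 / 5) - (1 / 5)) = 0 := by rw [show ((1 / 5) - (1 / 5) : ℝ) = 0 by norm_num, psi_zero]
    have e10 : psi ((1 / 5) - (2 / 5)) = (-1 / 5) * (Real.log (1 : ℕ) - Real.log (5 : ℕ)) := psi_val' _ (-1 / 5) 1 5 (by norm_num) (by norm_num) (by norm_num) (by norm_num)
    have e11 : psi ((1 / 5) - (3 / 5)) = (-2 / 5) * (Real.log (2 : ℕ) - Real.log (5 : ℕ)) := psi_val' _ (-2 / 5) 2 5 (by norm_num) (by norm_num) (by norm_num) (by norm_num)
    have e12 : psi ((1 / 5) - (4 / 5)) = (-3 / 5) * (Real.log (3 : ℕ) - Real.log (5 : ℕ)) := psi_val' _ (-3 / 5) 3 5 (by norm_num) (by norm_num) (by norm_num) (by norm_num)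
    have e13 : Real.log ((7 / 40) - 1) = Real.log (33 : ℕ) - Real.log (40 : ℕ) := log_val' _ 33 40 (by norm_num) (by norm_num) (by norm_num)
    rw [e1, e2, e3, e4, e5, e6, e7, e8, e9, e10, e11, e12, e13]
    have l2 := lgn_2
    have l3 := lgn_3
    have l4 := lgn_4
    have l5 := lgn_5
    have l10 := lgn_10
    have l33 := lgn_33
    have l40 := lgn_40
    have l47 := lgn_47
    simp only [Nat.cast_ofNat, Nat.cast_one, Real.log_one] at *
    linarith

theorem cellB2 (x : ℝ) (h1 : (1 / 5) ≤ x) (h2 : x ≤ (11 / 40)) :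
    gT x ≤ aff (1 / 5) (11 / 40) (-331 / 100) (-331 / 100) x := by
  have t1 := term_tan_R (-1 / 2) (-1) (1 / 5) (11 / 40) (19 / 80) x (by norm_num) (by norm_num) (by norm_num) (by norm_num) h1
  have t2 := term_chord_R (1 / 4) (-4 / 5) (1 / 5) (11 / 40) x (by norm_num) (by norm_num) (by norm_num) h1 h2
  have t3 := term_chord_R (1 / 8) (-3 / 5) (1 / 5) (11 / 40) x (by norm_num) (by norm_num) (by norm_num) h1 h2
  have t4 := term_chord_R (1 / 4) (-2 / 5) (1 / 5) (11 / 40) x (by norm_num) (by norm_num) (by norm_num) h1 h2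
  have t5 := term_chord_R (3 / 8) (-1 / 5) (1 / 5) (11 / 40) x (by norm_num) (by norm_num) (by norm_num) h1 h2
  have t6 := term_chord_R (1 / 2) (-1 / 10) (1 / 5) (11 / 40) x (by norm_num) (by norm_num) (by norm_num) h1 h2
  have t7 := term_chord_R 3 0 (1 / 5) (11 / 40) x (by norm_num) (by norm_num) (by norm_num) h1 h2
  have t8 := term_tan_R (-3 / 2) (1 / 10) (1 / 5) (11 / 40) (19 / 80) x (by norm_num) (by norm_num) (by norm_num) (by norm_num) h1
  have t9 := term_tan_R (-9 / 8) (1 / 5) (1 / 5) (11 / 40) (19 / 80) x (by norm_num) (by norm_num) (by norm_num) (by norm_num) h1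
  have t10 := term_chord_L (-3 / 4) (2 / 5) (1 / 5) (11 / 40) x (by norm_num) (by norm_num) (by norm_num) h1 h2
  have t11 := term_chord_L (-3 / 8) (3 / 5) (1 / 5) (11 / 40) x (by norm_num) (by norm_num) (by norm_num) h1 h2
  have t12 := term_chord_L (-3 / 4) (4 / 5) (1 / 5) (11 / 40) x (by norm_num) (by norm_num) (by norm_num) h1 h2
  have t13 := term_tan_L (1 / 2) 1 (1 / 5) (11 / 40) (19 / 80) x (by norm_num) (by norm_num) (by norm_num) (by norm_num) h2
  have tl := aff_lin (1 / 5) (11 / 40) (-7 / 2) (-1) x (by norm_num)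
  refine gT_le (by norm_num) h1 h2 t1 t2 t3 t4 t5 t6 t7 t8 t9 t10 t11 t12 t13 tl ?_ ?_
  · have e1 : Real.log ((19 / 80) - (-1)) = Real.log (99 : ℕ) - Real.log (80 : ℕ) := log_val _ 99 80 (by norm_num) (by norm_num) (by norm_num)
    have e2 : psi ((1 / 5) - (-4 / 5)) = 1 * (Real.log (1 : ℕ) - Real.log (1 : ℕ)) := psi_val _ 1 1 1 (by norm_num) (by norm_num) (by norm_num) (by norm_num)
    have e3 : psi ((1 / 5) - (-3 / 5)) = (4 / 5) * (Real.log (4 : ℕ) - Real.log (5 : ℕ)) := psi_val _ (4 / 5) 4 5 (by norm_num) (by norm_num) (by norm_num) (by norm_num)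
    have e4 : psi ((1 / 5) - (-2 / 5)) = (3 / 5) * (Real.log (3 : ℕ) - Real.log (5 : ℕ)) := psi_val _ (3 / 5) 3 5 (by norm_num) (by norm_num) (by norm_num) (by norm_num)
    have e5 : psi ((1 / 5) - (-1 / 5)) = (2 / 5) * (Real.log (2 : ℕ) - Real.log (5 : ℕ)) := psi_val _ (2 / 5) 2 5 (by norm_num) (by norm_num) (by norm_num) (by norm_num)
    have e6 : psi ((1 / 5) - (-1 / 10)) = (3 / 10) * (Real.log (3 : ℕ) - Real.log (10 : ℕ)) := psi_val _ (3 / 10) 3 10 (by norm_num) (by norm_num) (by norm_num) (by norm_num)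
    have e7 : psi ((1 / 5) - 0) = (1 / 5) * (Real.log (1 : ℕ) - Real.log (5 : ℕ)) := psi_val _ (1 / 5) 1 5 (by norm_num) (by norm_num) (by norm_num) (by norm_num)
    have e8 : Real.log ((19 / 80) - (1 / 10)) = Real.log (11 : ℕ) - Real.log (80 : ℕ) := log_val _ 11 80 (by norm_num) (by norm_num) (by norm_num)
    have e9 : Real.log ((19 / 80) - (1 / 5)) = Real.log (3 : ℕ) - Real.log (80 : ℕ) := log_val _ 3 80 (by norm_num) (by norm_num) (by norm_num)
    have e10 : psi ((1 / 5) - (2 / 5)) = (-1 / 5) * (Real.log (1 : ℕ) - Real.log (5 : ℕ)) := psi_val' _ (-1 / 5) 1 5 (by norm_num) (by norm_num) (by norm_num) (by norm_num)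
    have e11 : psi ((1 / 5) - (3 / 5)) = (-2 / 5) * (Real.log (2 : ℕ) - Real.log (5 : ℕ)) := psi_val' _ (-2 / 5) 2 5 (by norm_num) (by norm_num) (by norm_num) (by norm_num)
    have e12 : psi ((1 / 5) - (4 / 5)) = (-3 / 5) * (Real.log (3 : ℕ) - Real.log (5 : ℕ)) := psi_val' _ (-3 / 5) 3 5 (by norm_num) (by norm_num) (by norm_num) (by norm_num)
    have e13 : Real.log ((19 / 80) - 1) = Real.log (61 : ℕ) - Real.log (80 : ℕ) := log_val' _ 61 80 (by norm_num) (by norm_num) (by norm_num)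
    rw [e1, e2, e3, e4, e5, e6, e7, e8, e9, e10, e11, e12, e13]
    have l2 := lgn_2
    have l3 := lgn_3
    have l4 := lgn_4
    have l5 := lgn_5
    have l10 := lgn_10
    have l11 := lgn_11
    have l61 := lgn_61
    have l80 := lgn_80
    have l99 := lgn_99
    simp only [Nat.cast_ofNat, Nat.cast_one, Real.log_one] at *
    linarith
  · have e1 : Real.log ((19 / 80) - (-1)) = Real.log (99 : ℕ) - Real.log (80 : ℕ) := log_val _ 99 80 (by norm_num) (by norm_num) (by norm_num)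
    have e2 : psi ((11 / 40) - (-4 / 5)) = (43 / 40) * (Real.log (43 : ℕ) - Real.log (40 : ℕ)) := psi_val _ (43 / 40) 43 40 (by norm_num) (by norm_num) (by norm_num) (by norm_num)
    have e3 : psi ((11 / 40) - (-3 / 5)) = (7 / 8) * (Real.log (7 : ℕ) - Real.log (8 : ℕ)) := psi_val _ (7 / 8) 7 8 (by norm_num) (by norm_num) (by norm_num) (by norm_num)
    have e4 : psi ((11 / 40) - (-2 / 5)) = (27 / 40) * (Real.log (27 : ℕ) - Real.log (40 : ℕ)) := psi_val _ (27 / 40) 27 40 (by norm_num) (by norm_num) (by norm_num) (by norm_num)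
    have e5 : psi ((11 / 40) - (-1 / 5)) = (19 / 40) * (Real.log (19 : ℕ) - Real.log (40 : ℕ)) := psi_val _ (19 / 40) 19 40 (by norm_num) (by norm_num) (by norm_num) (by norm_num)
    have e6 : psi ((11 / 40) - (-1 / 10)) = (3 / 8) * (Real.log (3 : ℕ) - Real.log (8 : ℕ)) := psi_val _ (3 / 8) 3 8 (by norm_num) (by norm_num) (by norm_num) (by norm_num)
    have e7 : psi ((11 / 40) - 0) = (11 / 40) * (Real.log (11 : ℕ) - Real.log (40 : ℕ)) := psi_val _ (11 / 40) 11 40 (by norm_num) (by norm_num) (by norm_num) (by norm_num)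
    have e8 : Real.log ((19 / 80) - (1 / 10)) = Real.log (11 : ℕ) - Real.log (80 : ℕ) := log_val _ 11 80 (by norm_num) (by norm_num) (by norm_num)
    have e9 : Real.log ((19 / 80) - (1 / 5)) = Real.log (3 : ℕ) - Real.log (80 : ℕ) := log_val _ 3 80 (by norm_num) (by norm_num) (by norm_num)
    have e10 : psi ((11 / 40) - (2 / 5)) = (-1 / 8) * (Real.log (1 : ℕ) - Real.log (8 : ℕ)) := psi_val' _ (-1 / 8) 1 8 (by norm_num) (by norm_num) (by norm_num) (by norm_num)
    have e11 : psi ((11 / 40) - (3 / 5)) = (-13 / 40) * (Real.log (13 : ℕ) - Real.log (40 : ℕ)) := psi_val' _ (-13 / 40) 13 40 (by norm_num) (by norm_num) (by norm_num) (by norm_num)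
    have e12 : psi ((11 / 40) - (4 / 5)) = (-21 / 40) * (Real.log (21 : ℕ) - Real.log (40 : ℕ)) := psi_val' _ (-21 / 40) 21 40 (by norm_num) (by norm_num) (by norm_num) (by norm_num)
    have e13 : Real.log ((19 / 80) - 1) = Real.log (61 : ℕ) - Real.log (80 : ℕ) := log_val' _ 61 80 (by norm_num) (by norm_num) (by norm_num)
    rw [e1, e2, e3, e4, e5, e6, e7, e8, e9, e10, e11, e12, e13]
    have l3 := lgn_3
    have l7 := lgn_7
    have l8 := lgn_8
    have l11 := lgn_11
    have l13 := lgn_13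
    have l19 := lgn_19
    have l21 := lgn_21
    have l27 := lgn_27
    have l40 := lgn_40
    have l43 := lgn_43
    have l61 := lgn_61
    have l80 := lgn_80
    have l99 := lgn_99
    simp only [Nat.cast_ofNat, Nat.cast_one, Real.log_one] at *
    linarith

theorem cellB3 (x : ℝ) (h1 : (11 / 40) ≤ x) (h2 : x ≤ (2 / 5)) :
    gT x ≤ aff (11 / 40) (2 / 5) (-331 / 100) (-331 / 100) x := by
  have t1 := term_tan_R (-1 / 2) (-1) (11 / 40) (2 / 5) (27 / 80) x (by norm_num) (by norm_num) (by norm_num) (by norm_num) h1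
  have t2 := term_chord_R (1 / 4) (-4 / 5) (11 / 40) (2 / 5) x (by norm_num) (by norm_num) (by norm_num) h1 h2
  have t3 := term_chord_R (1 / 8) (-3 / 5) (11 / 40) (2 / 5) x (by norm_num) (by norm_num) (by norm_num) h1 h2
  have t4 := term_chord_R (1 / 4) (-2 / 5) (11 / 40) (2 / 5) x (by norm_num) (by norm_num) (by norm_num) h1 h2
  have t5 := term_chord_R (3 / 8) (-1 / 5) (11 / 40) (2 / 5) x (by norm_num) (by norm_num) (by norm_num) h1 h2
  have t6 := term_chord_R (1 / 2) (-1 / 10) (11 / 40) (2 / 5) x (by norm_num) (by norm_num) (by norm_num) h1 h2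
  have t7 := term_chord_R 3 0 (11 / 40) (2 / 5) x (by norm_num) (by norm_num) (by norm_num) h1 h2
  have t8 := term_tan_R (-3 / 2) (1 / 10) (11 / 40) (2 / 5) (27 / 80) x (by norm_num) (by norm_num) (by norm_num) (by norm_num) h1
  have t9 := term_tan_R (-9 / 8) (1 / 5) (11 / 40) (2 / 5) (27 / 80) x (by norm_num) (by norm_num) (by norm_num) (by norm_num) h1
  have t10 := term_chord_L (-3 / 4) (2 / 5) (11 / 40) (2 / 5) x (by norm_num) (by norm_num) (by norm_num) h1 h2
  have t11 := term_chord_L (-3 / 8) (3 / 5) (11 / 40) (2 / 5) x (by norm_num) (by norm_num) (by norm_num) h1 h2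
  have t12 := term_chord_L (-3 / 4) (4 / 5) (11 / 40) (2 / 5) x (by norm_num) (by norm_num) (by norm_num) h1 h2
  have t13 := term_tan_L (1 / 2) 1 (11 / 40) (2 / 5) (27 / 80) x (by norm_num) (by norm_num) (by norm_num) (by norm_num) h2
  have tl := aff_lin (11 / 40) (2 / 5) (-7 / 2) (-1) x (by norm_num)
  refine gT_le (by norm_num) h1 h2 t1 t2 t3 t4 t5 t6 t7 t8 t9 t10 t11 t12 t13 tl ?_ ?_
  · have e1 : Real.log ((27 / 80) - (-1)) = Real.log (107 : ℕ) - Real.log (80 : ℕ) := log_val _ 107 80 (by norm_num) (by norm_num) (by norm_num)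
    have e2 : psi ((11 / 40) - (-4 / 5)) = (43 / 40) * (Real.log (43 : ℕ) - Real.log (40 : ℕ)) := psi_val _ (43 / 40) 43 40 (by norm_num) (by norm_num) (by norm_num) (by norm_num)
    have e3 : psi ((11 / 40) - (-3 / 5)) = (7 / 8) * (Real.log (7 : ℕ) - Real.log (8 : ℕ)) := psi_val _ (7 / 8) 7 8 (by norm_num) (by norm_num) (by norm_num) (by norm_num)
    have e4 : psi ((11 / 40) - (-2 / 5)) = (27 / 40) * (Real.log (27 : ℕ) - Real.log (40 : ℕ)) := psi_val _ (27 / 40) 27 40 (by norm_num) (by norm_num) (by norm_num) (by norm_num)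
    have e5 : psi ((11 / 40) - (-1 / 5)) = (19 / 40) * (Real.log (19 : ℕ) - Real.log (40 : ℕ)) := psi_val _ (19 / 40) 19 40 (by norm_num) (by norm_num) (by norm_num) (by norm_num)
    have e6 : psi ((11 / 40) - (-1 / 10)) = (3 / 8) * (Real.log (3 : ℕ) - Real.log (8 : ℕ)) := psi_val _ (3 / 8) 3 8 (by norm_num) (by norm_num) (by norm_num) (by norm_num)
    have e7 : psi ((11 / 40) - 0) = (11 / 40) * (Real.log (11 : ℕ) - Real.log (40 : ℕ)) := psi_val _ (11 / 40) 11 40 (by norm_num) (by norm_num) (by norm_num) (by norm_num)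
    have e8 : Real.log ((27 / 80) - (1 / 10)) = Real.log (19 : ℕ) - Real.log (80 : ℕ) := log_val _ 19 80 (by norm_num) (by norm_num) (by norm_num)
    have e9 : Real.log ((27 / 80) - (1 / 5)) = Real.log (11 : ℕ) - Real.log (80 : ℕ) := log_val _ 11 80 (by norm_num) (by norm_num) (by norm_num)
    have e10 : psi ((11 / 40) - (2 / 5)) = (-1 / 8) * (Real.log (1 : ℕ) - Real.log (8 : ℕ)) := psi_val' _ (-1 / 8) 1 8 (by norm_num) (by norm_num) (by norm_num) (by norm_num)
    have e11 : psi ((11 / 40) - (3 / 5)) = (-13 / 40) * (Real.log (13 : ℕ) - Real.log (40 : ℕ)) := psi_val' _ (-13 / 40) 13 40 (by norm_num) (by norm_num) (by norm_num) (by norm_num)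
    have e12 : psi ((11 / 40) - (4 / 5)) = (-21 / 40) * (Real.log (21 : ℕ) - Real.log (40 : ℕ)) := psi_val' _ (-21 / 40) 21 40 (by norm_num) (by norm_num) (by norm_num) (by norm_num)
    have e13 : Real.log ((27 / 80) - 1) = Real.log (53 : ℕ) - Real.log (80 : ℕ) := log_val' _ 53 80 (by norm_num) (by norm_num) (by norm_num)
    rw [e1, e2, e3, e4, e5, e6, e7, e8, e9, e10, e11, e12, e13]
    have l3 := lgn_3
    have l7 := lgn_7
    have l8 := lgn_8
    have l11 := lgn_11
    have l13 := lgn_13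
    have l19 := lgn_19
    have l21 := lgn_21
    have l27 := lgn_27
    have l40 := lgn_40
    have l43 := lgn_43
    have l53 := lgn_53
    have l80 := lgn_80
    have l107 := lgn_107
    simp only [Nat.cast_ofNat, Nat.cast_one, Real.log_one] at *
    linarith
  · have e1 : Real.log ((27 / 80) - (-1)) = Real.log (107 : ℕ) - Real.log (80 : ℕ) := log_val _ 107 80 (by norm_num) (by norm_num) (by norm_num)
    have e2 : psi ((2 / 5) - (-4 / 5)) = (6 / 5) * (Real.log (6 : ℕ) - Real.log (5 : ℕ)) := psi_val _ (6 / 5) 6 5 (by norm_num) (by norm_num) (by norm_num) (by norm_num)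
    have e3 : psi ((2 / 5) - (-3 / 5)) = 1 * (Real.log (1 : ℕ) - Real.log (1 : ℕ)) := psi_val _ 1 1 1 (by norm_num) (by norm_num) (by norm_num) (by norm_num)
    have e4 : psi ((2 / 5) - (-2 / 5)) = (4 / 5) * (Real.log (4 : ℕ) - Real.log (5 : ℕ)) := psi_val _ (4 / 5) 4 5 (by norm_num) (by norm_num) (by norm_num) (by norm_num)
    have e5 : psi ((2 / 5) - (-1 / 5)) = (3 / 5) * (Real.log (3 : ℕ) - Real.log (5 : ℕ)) := psi_val _ (3 / 5) 3 5 (by norm_num) (by norm_num) (by norm_num) (by norm_num)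
    have e6 : psi ((2 / 5) - (-1 / 10)) = (1 / 2) * (Real.log (1 : ℕ) - Real.log (2 : ℕ)) := psi_val _ (1 / 2) 1 2 (by norm_num) (by norm_num) (by norm_num) (by norm_num)
    have e7 : psi ((2 / 5) - 0) = (2 / 5) * (Real.log (2 : ℕ) - Real.log (5 : ℕ)) := psi_val _ (2 / 5) 2 5 (by norm_num) (by norm_num) (by norm_num) (by norm_num)
    have e8 : Real.log ((27 / 80) - (1 / 10)) = Real.log (19 : ℕ) - Real.log (80 : ℕ) := log_val _ 19 80 (by norm_num) (by norm_num) (by norm_num)
    have e9 : Real.log ((27 / 80) - (1 / 5)) = Real.log (11 : ℕ) - Real.log (80 : ℕ) := log_val _ 11 80 (by norm_num) (by norm_num) (by norm_num)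
    have e10 : psi ((2 / 5) - (2 / 5)) = 0 := by rw [show ((2 / 5) - (2 / 5) : ℝ) = 0 by norm_num, psi_zero]
    have e11 : psi ((2 / 5) - (3 / 5)) = (-1 / 5) * (Real.log (1 : ℕ) - Real.log (5 : ℕ)) := psi_val' _ (-1 / 5) 1 5 (by norm_num) (by norm_num) (by norm_num) (by norm_num)
    have e12 : psi ((2 / 5) - (4 / 5)) = (-2 / 5) * (Real.log (2 : ℕ) - Real.log (5 : ℕ)) := psi_val' _ (-2 / 5) 2 5 (by norm_num) (by norm_num) (by norm_num) (by norm_num)
    have e13 : Real.log ((27 / 80) - 1) = Real.log (53 : ℕ) - Real.log (80 : ℕ) := log_val' _ 53 80 (by norm_num) (by norm_num) (by norm_num)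
    rw [e1, e2, e3, e4, e5, e6, e7, e8, e9, e10, e11, e12, e13]
    have l2 := lgn_2
    have l3 := lgn_3
    have l4 := lgn_4
    have l5 := lgn_5
    have l6 := lgn_6
    have l11 := lgn_11
    have l19 := lgn_19
    have l53 := lgn_53
    have l80 := lgn_80
    have l107 := lgn_107
    simp only [Nat.cast_ofNat, Nat.cast_one, Real.log_one] at *
    linarith

theorem cellB4 (x : ℝ) (h1 : (2 / 5) ≤ x) (h2 : x ≤ (9 / 20)) :
    gT x ≤ aff (2 / 5) (9 / 20) (-331 / 100) (-331 / 100) x := by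
  have t1 := term_tan_R (-1 / 2) (-1) (2 / 5) (9 / 20) (7 / 16) x (by norm_num) (by norm_num) (by norm_num) (by norm_num) h1
  have t2 := term_chord_R (1 / 4) (-4 / 5) (2 / 5) (9 / 20) x (by norm_num) (by norm_num) (by norm_num) h1 h2
  have t3 := term_chord_R (1 / 8) (-3 / 5) (2 / 5) (9 / 20) x (by norm_num) (by norm_num) (by norm_num) h1 h2
  have t4 := term_chord_R (1 / 4) (-2 / 5) (2 / 5) (9 / 20) x (by norm_num) (by norm_num) (by norm_num) h1 h2
  have t5 := term_chord_R (3 / 8) (-1 / 5) (2 / 5) (9 / 20) x (by norm_num) (by norm_num) (by norm_num) h1 h2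
  have t6 := term_chord_R (1 / 2) (-1 / 10) (2 / 5) (9 / 20) x (by norm_num) (by norm_num) (by norm_num) h1 h2
  have t7 := term_chord_R 3 0 (2 / 5) (9 / 20) x (by norm_num) (by norm_num) (by norm_num) h1 h2
  have t8 := term_tan_R (-3 / 2) (1 / 10) (2 / 5) (9 / 20) (7 / 16) x (by norm_num) (by norm_num) (by norm_num) (by norm_num) h1
  have t9 := term_tan_R (-9 / 8) (1 / 5) (2 / 5) (9 / 20) (7 / 16) x (by norm_num) (by norm_num) (by norm_num) (by norm_num) h1
  have t10 := term_tan_R (-3 / 4) (2 / 5) (2 / 5) (9 / 20) (7 / 16) x (by norm_num) (by norm_num) (by norm_num) (by norm_num) h1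
  have t11 := term_chord_L (-3 / 8) (3 / 5) (2 / 5) (9 / 20) x (by norm_num) (by norm_num) (by norm_num) h1 h2
  have t12 := term_chord_L (-3 / 4) (4 / 5) (2 / 5) (9 / 20) x (by norm_num) (by norm_num) (by norm_num) h1 h2
  have t13 := term_tan_L (1 / 2) 1 (2 / 5) (9 / 20) (7 / 16) x (by norm_num) (by norm_num) (by norm_num) (by norm_num) h2
  have tl := aff_lin (2 / 5) (9 / 20) (-7 / 2) (-1) x (by norm_num)
  refine gT_le (by norm_num) h1 h2 t1 t2 t3 t4 t5 t6 t7 t8 t9 t10 t11 t12 t13 tl ?_ ?_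
  · have e1 : Real.log ((7 / 16) - (-1)) = Real.log (23 : ℕ) - Real.log (16 : ℕ) := log_val _ 23 16 (by norm_num) (by norm_num) (by norm_num)
    have e2 : psi ((2 / 5) - (-4 / 5)) = (6 / 5) * (Real.log (6 : ℕ) - Real.log (5 : ℕ)) := psi_val _ (6 / 5) 6 5 (by norm_num) (by norm_num) (by norm_num) (by norm_num)
    have e3 : psi ((2 / 5) - (-3 / 5)) = 1 * (Real.log (1 : ℕ) - Real.log (1 : ℕ)) := psi_val _ 1 1 1 (by norm_num) (by norm_num) (by norm_num) (by norm_num)
    have e4 : psi ((2 / 5) - (-2 / 5)) = (4 / 5) * (Real.log (4 : ℕ) - Real.log (5 : ℕ)) := psi_val _ (4 / 5) 4 5 (by norm_num) (by norm_num) (by norm_num) (by norm_num)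
    have e5 : psi ((2 / 5) - (-1 / 5)) = (3 / 5) * (Real.log (3 : ℕ) - Real.log (5 : ℕ)) := psi_val _ (3 / 5) 3 5 (by norm_num) (by norm_num) (by norm_num) (by norm_num)
    have e6 : psi ((2 / 5) - (-1 / 10)) = (1 / 2) * (Real.log (1 : ℕ) - Real.log (2 : ℕ)) := psi_val _ (1 / 2) 1 2 (by norm_num) (by norm_num) (by norm_num) (by norm_num)
    have e7 : psi ((2 / 5) - 0) = (2 / 5) * (Real.log (2 : ℕ) - Real.log (5 : ℕ)) := psi_val _ (2 / 5) 2 5 (by norm_num) (by norm_num) (by norm_num) (by norm_num)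
    have e8 : Real.log ((7 / 16) - (1 / 10)) = Real.log (27 : ℕ) - Real.log (80 : ℕ) := log_val _ 27 80 (by norm_num) (by norm_num) (by norm_num)
    have e9 : Real.log ((7 / 16) - (1 / 5)) = Real.log (19 : ℕ) - Real.log (80 : ℕ) := log_val _ 19 80 (by norm_num) (by norm_num) (by norm_num)
    have e10 : Real.log ((7 / 16) - (2 / 5)) = Real.log (3 : ℕ) - Real.log (80 : ℕ) := log_val _ 3 80 (by norm_num) (by norm_num) (by norm_num)
    have e11 : psi ((2 / 5) - (3 / 5)) = (-1 / 5) * (Real.log (1 : ℕ) - Real.log (5 : ℕ)) := psi_val' _ (-1 / 5) 1 5 (by norm_num) (by norm_num) (by norm_num) (by norm_num)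
    have e12 : psi ((2 / 5) - (4 / 5)) = (-2 / 5) * (Real.log (2 : ℕ) - Real.log (5 : ℕ)) := psi_val' _ (-2 / 5) 2 5 (by norm_num) (by norm_num) (by norm_num) (by norm_num)
    have e13 : Real.log ((7 / 16) - 1) = Real.log (9 : ℕ) - Real.log (16 : ℕ) := log_val' _ 9 16 (by norm_num) (by norm_num) (by norm_num)
    rw [e1, e2, e3, e4, e5, e6, e7, e8, e9, e10, e11, e12, e13]
    have l2 := lgn_2
    have l3 := lgn_3
    have l4 := lgn_4
    have l5 := lgn_5
    have l6 := lgn_6
    have l9 := lgn_9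
    have l16 := lgn_16
    have l19 := lgn_19
    have l23 := lgn_23
    have l27 := lgn_27
    have l80 := lgn_80
    simp only [Nat.cast_ofNat, Nat.cast_one, Real.log_one] at *
    linarith
  · have e1 : Real.log ((7 / 16) - (-1)) = Real.log (23 : ℕ) - Real.log (16 : ℕ) := log_val _ 23 16 (by norm_num) (by norm_num) (by norm_num)
    have e2 : psi ((9 / 20) - (-4 / 5)) = (5 / 4) * (Real.log (5 : ℕ) - Real.log (4 : ℕ)) := psi_val _ (5 / 4) 5 4 (by norm_num) (by norm_num) (by norm_num) (by norm_num)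
    have e3 : psi ((9 / 20) - (-3 / 5)) = (21 / 20) * (Real.log (21 : ℕ) - Real.log (20 : ℕ)) := psi_val _ (21 / 20) 21 20 (by norm_num) (by norm_num) (by norm_num) (by norm_num)
    have e4 : psi ((9 / 20) - (-2 / 5)) = (17 / 20) * (Real.log (17 : ℕ) - Real.log (20 : ℕ)) := psi_val _ (17 / 20) 17 20 (by norm_num) (by norm_num) (by norm_num) (by norm_num)
    have e5 : psi ((9 / 20) - (-1 / 5)) = (13 / 20) * (Real.log (13 : ℕ) - Real.log (20 : ℕ)) := psi_val _ (13 / 20) 13 20 (by norm_num) (by norm_num) (by norm_num) (by norm_num)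
    have e6 : psi ((9 / 20) - (-1 / 10)) = (11 / 20) * (Real.log (11 : ℕ) - Real.log (20 : ℕ)) := psi_val _ (11 / 20) 11 20 (by norm_num) (by norm_num) (by norm_num) (by norm_num)
    have e7 : psi ((9 / 20) - 0) = (9 / 20) * (Real.log (9 : ℕ) - Real.log (20 : ℕ)) := psi_val _ (9 / 20) 9 20 (by norm_num) (by norm_num) (by norm_num) (by norm_num)
    have e8 : Real.log ((7 / 16) - (1 / 10)) = Real.log (27 : ℕ) - Real.log (80 : ℕ) := log_val _ 27 80 (by norm_num) (by norm_num) (by norm_num)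
    have e9 : Real.log ((7 / 16) - (1 / 5)) = Real.log (19 : ℕ) - Real.log (80 : ℕ) := log_val _ 19 80 (by norm_num) (by norm_num) (by norm_num)
    have e10 : Real.log ((7 / 16) - (2 / 5)) = Real.log (3 : ℕ) - Real.log (80 : ℕ) := log_val _ 3 80 (by norm_num) (by norm_num) (by norm_num)
    have e11 : psi ((9 / 20) - (3 / 5)) = (-3 / 20) * (Real.log (3 : ℕ) - Real.log (20 : ℕ)) := psi_val' _ (-3 / 20) 3 20 (by norm_num) (by norm_num) (by norm_num) (by norm_num)
    have e12 : psi ((9 / 20) - (4 / 5)) = (-7 / 20) * (Real.log (7 : ℕ) - Real.log (20 : ℕ)) := psi_val' _ (-7 / 20) 7 20 (by norm_num) (by norm_num) (by norm_num) (by norm_num)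
    have e13 : Real.log ((7 / 16) - 1) = Real.log (9 : ℕ) - Real.log (16 : ℕ) := log_val' _ 9 16 (by norm_num) (by norm_num) (by norm_num)
    rw [e1, e2, e3, e4, e5, e6, e7, e8, e9, e10, e11, e12, e13]
    have l3 := lgn_3
    have l4 := lgn_4
    have l5 := lgn_5
    have l7 := lgn_7
    have l9 := lgn_9
    have l11 := lgn_11
    have l13 := lgn_13
    have l16 := lgn_16
    have l17 := lgn_17
    have l19 := lgn_19
    have l20 := lgn_20
    have l21 := lgn_21
    have l23 := lgn_23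
    have l27 := lgn_27
    have l80 := lgn_80
    simp only [Nat.cast_ofNat, Nat.cast_one, Real.log_one] at *
    linarith

theorem cellB5 (x : ℝ) (h1 : (9 / 20) ≤ x) (h2 : x ≤ (19 / 40)) :
    gT x ≤ aff (9 / 20) (19 / 40) (-331 / 100) (-331 / 100) x := by
  have t1 := term_tan_R (-1 / 2) (-1) (9 / 20) (19 / 40) (37 / 80) x (by norm_num) (by norm_num) (by norm_num) (by norm_num) h1
  have t2 := term_chord_R (1 / 4) (-4 / 5) (9 / 20) (19 / 40) x (by norm_num) (by norm_num) (by norm_num) h1 h2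
  have t3 := term_chord_R (1 / 8) (-3 / 5) (9 / 20) (19 / 40) x (by norm_num) (by norm_num) (by norm_num) h1 h2
  have t4 := term_chord_R (1 / 4) (-2 / 5) (9 / 20) (19 / 40) x (by norm_num) (by norm_num) (by norm_num) h1 h2
  have t5 := term_chord_R (3 / 8) (-1 / 5) (9 / 20) (19 / 40) x (by norm_num) (by norm_num) (by norm_num) h1 h2
  have t6 := term_chord_R (1 / 2) (-1 / 10) (9 / 20) (19 / 40) x (by norm_num) (by norm_num) (by norm_num) h1 h2
  have t7 := term_chord_R 3 0 (9 / 20) (19 / 40) x (by norm_num) (by norm_num) (by norm_num) h1 h2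
  have t8 := term_tan_R (-3 / 2) (1 / 10) (9 / 20) (19 / 40) (37 / 80) x (by norm_num) (by norm_num) (by norm_num) (by norm_num) h1
  have t9 := term_tan_R (-9 / 8) (1 / 5) (9 / 20) (19 / 40) (37 / 80) x (by norm_num) (by norm_num) (by norm_num) (by norm_num) h1
  have t10 := term_tan_R (-3 / 4) (2 / 5) (9 / 20) (19 / 40) (37 / 80) x (by norm_num) (by norm_num) (by norm_num) (by norm_num) h1
  have t11 := term_chord_L (-3 / 8) (3 / 5) (9 / 20) (19 / 40) x (by norm_num) (by norm_num) (by norm_num) h1 h2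
  have t12 := term_chord_L (-3 / 4) (4 / 5) (9 / 20) (19 / 40) x (by norm_num) (by norm_num) (by norm_num) h1 h2
  have t13 := term_tan_L (1 / 2) 1 (9 / 20) (19 / 40) (37 / 80) x (by norm_num) (by norm_num) (by norm_num) (by norm_num) h2
  have tl := aff_lin (9 / 20) (19 / 40) (-7 / 2) (-1) x (by norm_num)
  refine gT_le (by norm_num) h1 h2 t1 t2 t3 t4 t5 t6 t7 t8 t9 t10 t11 t12 t13 tl ?_ ?_
  · have e1 : Real.log ((37 / 80) - (-1)) = Real.log (117 : ℕ) - Real.log (80 : ℕ) := log_val _ 117 80 (by norm_num) (by norm_num) (by norm_num)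
    have e2 : psi ((9 / 20) - (-4 / 5)) = (5 / 4) * (Real.log (5 : ℕ) - Real.log (4 : ℕ)) := psi_val _ (5 / 4) 5 4 (by norm_num) (by norm_num) (by norm_num) (by norm_num)
    have e3 : psi ((9 / 20) - (-3 / 5)) = (21 / 20) * (Real.log (21 : ℕ) - Real.log (20 : ℕ)) := psi_val _ (21 / 20) 21 20 (by norm_num) (by norm_num) (by norm_num) (by norm_num)
    have e4 : psi ((9 / 20) - (-2 / 5)) = (17 / 20) * (Real.log (17 : ℕ) - Real.log (20 : ℕ)) := psi_val _ (17 / 20) 17 20 (by norm_num) (by norm_num) (by norm_num) (by norm_num)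
    have e5 : psi ((9 / 20) - (-1 / 5)) = (13 / 20) * (Real.log (13 : ℕ) - Real.log (20 : ℕ)) := psi_val _ (13 / 20) 13 20 (by norm_num) (by norm_num) (by norm_num) (by norm_num)
    have e6 : psi ((9 / 20) - (-1 / 10)) = (11 / 20) * (Real.log (11 : ℕ) - Real.log (20 : ℕ)) := psi_val _ (11 / 20) 11 20 (by norm_num) (by norm_num) (by norm_num) (by norm_num)
    have e7 : psi ((9 / 20) - 0) = (9 / 20) * (Real.log (9 : ℕ) - Real.log (20 : ℕ)) := psi_val _ (9 / 20) 9 20 (by norm_num) (by norm_num) (by norm_num) (by norm_num)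
    have e8 : Real.log ((37 / 80) - (1 / 10)) = Real.log (29 : ℕ) - Real.log (80 : ℕ) := log_val _ 29 80 (by norm_num) (by norm_num) (by norm_num)
    have e9 : Real.log ((37 / 80) - (1 / 5)) = Real.log (21 : ℕ) - Real.log (80 : ℕ) := log_val _ 21 80 (by norm_num) (by norm_num) (by norm_num)
    have e10 : Real.log ((37 / 80) - (2 / 5)) = Real.log (1 : ℕ) - Real.log (16 : ℕ) := log_val _ 1 16 (by norm_num) (by norm_num) (by norm_num)
    have e11 : psi ((9 / 20) - (3 / 5)) = (-3 / 20) * (Real.log (3 : ℕ) - Real.log (20 : ℕ)) := psi_val' _ (-3 / 20) 3 20 (by norm_num) (by norm_num) (by norm_num) (by norm_num)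
    have e12 : psi ((9 / 20) - (4 / 5)) = (-7 / 20) * (Real.log (7 : ℕ) - Real.log (20 : ℕ)) := psi_val' _ (-7 / 20) 7 20 (by norm_num) (by norm_num) (by norm_num) (by norm_num)
    have e13 : Real.log ((37 / 80) - 1) = Real.log (43 : ℕ) - Real.log (80 : ℕ) := log_val' _ 43 80 (by norm_num) (by norm_num) (by norm_num)
    rw [e1, e2, e3, e4, e5, e6, e7, e8, e9, e10, e11, e12, e13]
    have l3 := lgn_3
    have l4 := lgn_4
    have l5 := lgn_5
    have l7 := lgn_7
    have l9 := lgn_9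
    have l11 := lgn_11
    have l13 := lgn_13
    have l16 := lgn_16
    have l17 := lgn_17
    have l20 := lgn_20
    have l21 := lgn_21
    have l29 := lgn_29
    have l43 := lgn_43
    have l80 := lgn_80
    have l117 := lgn_117
    simp only [Nat.cast_ofNat, Nat.cast_one, Real.log_one] at *
    linarith
  · have e1 : Real.log ((37 / 80) - (-1)) = Real.log (117 : ℕ) - Real.log (80 : ℕ) := log_val _ 117 80 (by norm_num) (by norm_num) (by norm_num)
    have e2 : psi ((19 / 40) - (-4 / 5)) = (51 / 40) * (Real.log (51 : ℕ) - Real.log (40 : ℕ)) := psi_val _ (51 / 40) 51 40 (by norm_num) (by norm_num) (by norm_num) (by norm_num)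
    have e3 : psi ((19 / 40) - (-3 / 5)) = (43 / 40) * (Real.log (43 : ℕ) - Real.log (40 : ℕ)) := psi_val _ (43 / 40) 43 40 (by norm_num) (by norm_num) (by norm_num) (by norm_num)
    have e4 : psi ((19 / 40) - (-2 / 5)) = (7 / 8) * (Real.log (7 : ℕ) - Real.log (8 : ℕ)) := psi_val _ (7 / 8) 7 8 (by norm_num) (by norm_num) (by norm_num) (by norm_num)
    have e5 : psi ((19 / 40) - (-1 / 5)) = (27 / 40) * (Real.log (27 : ℕ) - Real.log (40 : ℕ)) := psi_val _ (27 / 40) 27 40 (by norm_num) (by norm_num) (by norm_num) (by norm_num)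
    have e6 : psi ((19 / 40) - (-1 / 10)) = (23 / 40) * (Real.log (23 : ℕ) - Real.log (40 : ℕ)) := psi_val _ (23 / 40) 23 40 (by norm_num) (by norm_num) (by norm_num) (by norm_num)
    have e7 : psi ((19 / 40) - 0) = (19 / 40) * (Real.log (19 : ℕ) - Real.log (40 : ℕ)) := psi_val _ (19 / 40) 19 40 (by norm_num) (by norm_num) (by norm_num) (by norm_num)
    have e8 : Real.log ((37 / 80) - (1 / 10)) = Real.log (29 : ℕ) - Real.log (80 : ℕ) := log_val _ 29 80 (by norm_num) (by norm_num) (by norm_num)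
    have e9 : Real.log ((37 / 80) - (1 / 5)) = Real.log (21 : ℕ) - Real.log (80 : ℕ) := log_val _ 21 80 (by norm_num) (by norm_num) (by norm_num)
    have e10 : Real.log ((37 / 80) - (2 / 5)) = Real.log (1 : ℕ) - Real.log (16 : ℕ) := log_val _ 1 16 (by norm_num) (by norm_num) (by norm_num)
    have e11 : psi ((19 / 40) - (3 / 5)) = (-1 / 8) * (Real.log (1 : ℕ) - Real.log (8 : ℕ)) := psi_val' _ (-1 / 8) 1 8 (by norm_num) (by norm_num) (by norm_num) (by norm_num)
    have e12 : psi ((19 / 40) - (4 / 5)) = (-13 / 40) * (Real.log (13 : ℕ) - Real.log (40 : ℕ)) := psi_val' _ (-13 / 40) 13 40 (by norm_num) (by norm_num) (by norm_num) (by norm_num)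
    have e13 : Real.log ((37 / 80) - 1) = Real.log (43 : ℕ) - Real.log (80 : ℕ) := log_val' _ 43 80 (by norm_num) (by norm_num) (by norm_num)
    rw [e1, e2, e3, e4, e5, e6, e7, e8, e9, e10, e11, e12, e13]
    have l7 := lgn_7
    have l8 := lgn_8
    have l13 := lgn_13
    have l16 := lgn_16
    have l19 := lgn_19
    have l21 := lgn_21
    have l23 := lgn_23
    have l27 := lgn_27
    have l29 := lgn_29
    have l40 := lgn_40
    have l43 := lgn_43
    have l51 := lgn_51
    have l80 := lgn_80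
    have l117 := lgn_117
    simp only [Nat.cast_ofNat, Nat.cast_one, Real.log_one] at *
    linarith

theorem cellB6 (x : ℝ) (h1 : (19 / 40) ≤ x) (h2 : x ≤ (11 / 20)) :
    gT x ≤ aff (19 / 40) (11 / 20) (-331 / 100) (-331 / 100) x := by
  have t1 := term_tan_R (-1 / 2) (-1) (19 / 40) (11 / 20) (1 / 2) x (by norm_num) (by norm_num) (by norm_num) (by norm_num) h1
  have t2 := term_chord_R (1 / 4) (-4 / 5) (19 / 40) (11 / 20) x (by norm_num) (by norm_num) (by norm_num) h1 h2
  have t3 := term_chord_R (1 / 8) (-3 / 5) (19 / 40) (11 / 20) x (by norm_num) (by norm_num) (by norm_num) h1 h2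
  have t4 := term_chord_R (1 / 4) (-2 / 5) (19 / 40) (11 / 20) x (by norm_num) (by norm_num) (by norm_num) h1 h2
  have t5 := term_chord_R (3 / 8) (-1 / 5) (19 / 40) (11 / 20) x (by norm_num) (by norm_num) (by norm_num) h1 h2
  have t6 := term_chord_R (1 / 2) (-1 / 10) (19 / 40) (11 / 20) x (by norm_num) (by norm_num) (by norm_num) h1 h2
  have t7 := term_chord_R 3 0 (19 / 40) (11 / 20) x (by norm_num) (by norm_num) (by norm_num) h1 h2
  have t8 := term_tan_R (-3 / 2) (1 / 10) (19 / 40) (11 / 20) (1 / 2) x (by norm_num) (by norm_num) (by norm_num) (by norm_num) h1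
  have t9 := term_tan_R (-9 / 8) (1 / 5) (19 / 40) (11 / 20) (1 / 2) x (by norm_num) (by norm_num) (by norm_num) (by norm_num) h1
  have t10 := term_tan_R (-3 / 4) (2 / 5) (19 / 40) (11 / 20) (1 / 2) x (by norm_num) (by norm_num) (by norm_num) (by norm_num) h1
  have t11 := term_chord_L (-3 / 8) (3 / 5) (19 / 40) (11 / 20) x (by norm_num) (by norm_num) (by norm_num) h1 h2
  have t12 := term_chord_L (-3 / 4) (4 / 5) (19 / 40) (11 / 20) x (by norm_num) (by norm_num) (by norm_num) h1 h2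
  have t13 := term_tan_L (1 / 2) 1 (19 / 40) (11 / 20) (1 / 2) x (by norm_num) (by norm_num) (by norm_num) (by norm_num) h2
  have tl := aff_lin (19 / 40) (11 / 20) (-7 / 2) (-1) x (by norm_num)
  refine gT_le (by norm_num) h1 h2 t1 t2 t3 t4 t5 t6 t7 t8 t9 t10 t11 t12 t13 tl ?_ ?_
  · have e1 : Real.log ((1 / 2) - (-1)) = Real.log (3 : ℕ) - Real.log (2 : ℕ) := log_val _ 3 2 (by norm_num) (by norm_num) (by norm_num)
    have e2 : psi ((19 / 40) - (-4 / 5)) = (51 / 40) * (Real.log (51 : ℕ) - Real.log (40 : ℕ)) := psi_val _ (51 / 40) 51 40 (by norm_num) (by norm_num) (by norm_num) (by norm_num)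
    have e3 : psi ((19 / 40) - (-3 / 5)) = (43 / 40) * (Real.log (43 : ℕ) - Real.log (40 : ℕ)) := psi_val _ (43 / 40) 43 40 (by norm_num) (by norm_num) (by norm_num) (by norm_num)
    have e4 : psi ((19 / 40) - (-2 / 5)) = (7 / 8) * (Real.log (7 : ℕ) - Real.log (8 : ℕ)) := psi_val _ (7 / 8) 7 8 (by norm_num) (by norm_num) (by norm_num) (by norm_num)
    have e5 : psi ((19 / 40) - (-1 / 5)) = (27 / 40) * (Real.log (27 : ℕ) - Real.log (40 : ℕ)) := psi_val _ (27 / 40) 27 40 (by norm_num) (by norm_num) (by norm_num) (by norm_num)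
    have e6 : psi ((19 / 40) - (-1 / 10)) = (23 / 40) * (Real.log (23 : ℕ) - Real.log (40 : ℕ)) := psi_val _ (23 / 40) 23 40 (by norm_num) (by norm_num) (by norm_num) (by norm_num)
    have e7 : psi ((19 / 40) - 0) = (19 / 40) * (Real.log (19 : ℕ) - Real.log (40 : ℕ)) := psi_val _ (19 / 40) 19 40 (by norm_num) (by norm_num) (by norm_num) (by norm_num)
    have e8 : Real.log ((1 / 2) - (1 / 10)) = Real.log (2 : ℕ) - Real.log (5 : ℕ) := log_val _ 2 5 (by norm_num) (by norm_num) (by norm_num)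
    have e9 : Real.log ((1 / 2) - (1 / 5)) = Real.log (3 : ℕ) - Real.log (10 : ℕ) := log_val _ 3 10 (by norm_num) (by norm_num) (by norm_num)
    have e10 : Real.log ((1 / 2) - (2 / 5)) = Real.log (1 : ℕ) - Real.log (10 : ℕ) := log_val _ 1 10 (by norm_num) (by norm_num) (by norm_num)
    have e11 : psi ((19 / 40) - (3 / 5)) = (-1 / 8) * (Real.log (1 : ℕ) - Real.log (8 : ℕ)) := psi_val' _ (-1 / 8) 1 8 (by norm_num) (by norm_num) (by norm_num) (by norm_num)
    have e12 : psi ((19 / 40) - (4 / 5)) = (-13 / 40) * (Real.log (13 : ℕ) - Real.log (40 : ℕ)) := psi_val' _ (-13 / 40) 13 40 (by norm_num) (by norm_num) (by norm_num) (by norm_num)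
    have e13 : Real.log ((1 / 2) - 1) = Real.log (1 : ℕ) - Real.log (2 : ℕ) := log_val' _ 1 2 (by norm_num) (by norm_num) (by norm_num)
    rw [e1, e2, e3, e4, e5, e6, e7, e8, e9, e10, e11, e12, e13]
    have l2 := lgn_2
    have l3 := lgn_3
    have l5 := lgn_5
    have l7 := lgn_7
    have l8 := lgn_8
    have l10 := lgn_10
    have l13 := lgn_13
    have l19 := lgn_19
    have l23 := lgn_23
    have l27 := lgn_27
    have l40 := lgn_40
    have l43 := lgn_43
    have l51 := lgn_51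
    simp only [Nat.cast_ofNat, Nat.cast_one, Real.log_one] at *
    linarith
  · have e1 : Real.log ((1 / 2) - (-1)) = Real.log (3 : ℕ) - Real.log (2 : ℕ) := log_val _ 3 2 (by norm_num) (by norm_num) (by norm_num)
    have e2 : psi ((11 / 20) - (-4 / 5)) = (27 / 20) * (Real.log (27 : ℕ) - Real.log (20 : ℕ)) := psi_val _ (27 / 20) 27 20 (by norm_num) (by norm_num) (by norm_num) (by norm_num)
    have e3 : psi ((11 / 20) - (-3 / 5)) = (23 / 20) * (Real.log (23 : ℕ) - Real.log (20 : ℕ)) := psi_val _ (23 / 20) 23 20 (by norm_num) (by norm_num) (by norm_num) (by norm_num)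
    have e4 : psi ((11 / 20) - (-2 / 5)) = (19 / 20) * (Real.log (19 : ℕ) - Real.log (20 : ℕ)) := psi_val _ (19 / 20) 19 20 (by norm_num) (by norm_num) (by norm_num) (by norm_num)
    have e5 : psi ((11 / 20) - (-1 / 5)) = (3 / 4) * (Real.log (3 : ℕ) - Real.log (4 : ℕ)) := psi_val _ (3 / 4) 3 4 (by norm_num) (by norm_num) (by norm_num) (by norm_num)
    have e6 : psi ((11 / 20) - (-1 / 10)) = (13 / 20) * (Real.log (13 : ℕ) - Real.log (20 : ℕ)) := psi_val _ (13 / 20) 13 20 (by norm_num) (by norm_num) (by norm_num) (by norm_num)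
    have e7 : psi ((11 / 20) - 0) = (11 / 20) * (Real.log (11 : ℕ) - Real.log (20 : ℕ)) := psi_val _ (11 / 20) 11 20 (by norm_num) (by norm_num) (by norm_num) (by norm_num)
    have e8 : Real.log ((1 / 2) - (1 / 10)) = Real.log (2 : ℕ) - Real.log (5 : ℕ) := log_val _ 2 5 (by norm_num) (by norm_num) (by norm_num)
    have e9 : Real.log ((1 / 2) - (1 / 5)) = Real.log (3 : ℕ) - Real.log (10 : ℕ) := log_val _ 3 10 (by norm_num) (by norm_num) (by norm_num)
    have e10 : Real.log ((1 / 2) - (2 / 5)) = Real.log (1 : ℕ) - Real.log (10 : ℕ) := log_val _ 1 10 (by norm_num) (by norm_num) (by norm_num)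
    have e11 : psi ((11 / 20) - (3 / 5)) = (-1 / 20) * (Real.log (1 : ℕ) - Real.log (20 : ℕ)) := psi_val' _ (-1 / 20) 1 20 (by norm_num) (by norm_num) (by norm_num) (by norm_num)
    have e12 : psi ((11 / 20) - (4 / 5)) = (-1 / 4) * (Real.log (1 : ℕ) - Real.log (4 : ℕ)) := psi_val' _ (-1 / 4) 1 4 (by norm_num) (by norm_num) (by norm_num) (by norm_num)
    have e13 : Real.log ((1 / 2) - 1) = Real.log (1 : ℕ) - Real.log (2 : ℕ) := log_val' _ 1 2 (by norm_num) (by norm_num) (by norm_num)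
    rw [e1, e2, e3, e4, e5, e6, e7, e8, e9, e10, e11, e12, e13]
    have l2 := lgn_2
    have l3 := lgn_3
    have l4 := lgn_4
    have l5 := lgn_5
    have l10 := lgn_10
    have l11 := lgn_11
    have l13 := lgn_13
    have l19 := lgn_19
    have l20 := lgn_20
    have l23 := lgn_23
    have l27 := lgn_27
    simp only [Nat.cast_ofNat, Nat.cast_one, Real.log_one] at *
    linarith

theorem cellB7 (x : ℝ) (h1 : (11 / 20) ≤ x) (h2 : x ≤ (3 / 5)) :
    gT x ≤ aff (11 / 20) (3 / 5) (-331 / 100) (-331 / 100) x := by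
  have t1 := term_tan_R (-1 / 2) (-1) (11 / 20) (3 / 5) (47 / 80) x (by norm_num) (by norm_num) (by norm_num) (by norm_num) h1
  have t2 := term_chord_R (1 / 4) (-4 / 5) (11 / 20) (3 / 5) x (by norm_num) (by norm_num) (by norm_num) h1 h2
  have t3 := term_chord_R (1 / 8) (-3 / 5) (11 / 20) (3 / 5) x (by norm_num) (by norm_num) (by norm_num) h1 h2
  have t4 := term_chord_R (1 / 4) (-2 / 5) (11 / 20) (3 / 5) x (by norm_num) (by norm_num) (by norm_num) h1 h2
  have t5 := term_chord_R (3 / 8) (-1 / 5) (11 / 20) (3 / 5) x (by norm_num) (by norm_num) (by norm_num) h1 h2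
  have t6 := term_chord_R (1 / 2) (-1 / 10) (11 / 20) (3 / 5) x (by norm_num) (by norm_num) (by norm_num) h1 h2
  have t7 := term_chord_R 3 0 (11 / 20) (3 / 5) x (by norm_num) (by norm_num) (by norm_num) h1 h2
  have t8 := term_tan_R (-3 / 2) (1 / 10) (11 / 20) (3 / 5) (47 / 80) x (by norm_num) (by norm_num) (by norm_num) (by norm_num) h1
  have t9 := term_tan_R (-9 / 8) (1 / 5) (11 / 20) (3 / 5) (47 / 80) x (by norm_num) (by norm_num) (by norm_num) (by norm_num) h1
  have t10 := term_tan_R (-3 / 4) (2 / 5) (11 / 20) (3 / 5) (47 / 80) x (by norm_num) (by norm_num) (by norm_num) (by norm_num) h1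
  have t11 := term_chord_L (-3 / 8) (3 / 5) (11 / 20) (3 / 5) x (by norm_num) (by norm_num) (by norm_num) h1 h2
  have t12 := term_chord_L (-3 / 4) (4 / 5) (11 / 20) (3 / 5) x (by norm_num) (by norm_num) (by norm_num) h1 h2
  have t13 := term_tan_L (1 / 2) 1 (11 / 20) (3 / 5) (47 / 80) x (by norm_num) (by norm_num) (by norm_num) (by norm_num) h2
  have tl := aff_lin (11 / 20) (3 / 5) (-7 / 2) (-1) x (by norm_num)
  refine gT_le (by norm_num) h1 h2 t1 t2 t3 t4 t5 t6 t7 t8 t9 t10 t11 t12 t13 tl ?_ ?_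
  · have e1 : Real.log ((47 / 80) - (-1)) = Real.log (127 : ℕ) - Real.log (80 : ℕ) := log_val _ 127 80 (by norm_num) (by norm_num) (by norm_num)
    have e2 : psi ((11 / 20) - (-4 / 5)) = (27 / 20) * (Real.log (27 : ℕ) - Real.log (20 : ℕ)) := psi_val _ (27 / 20) 27 20 (by norm_num) (by norm_num) (by norm_num) (by norm_num)
    have e3 : psi ((11 / 20) - (-3 / 5)) = (23 / 20) * (Real.log (23 : ℕ) - Real.log (20 : ℕ)) := psi_val _ (23 / 20) 23 20 (by norm_num) (by norm_num) (by norm_num) (by norm_num)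
    have e4 : psi ((11 / 20) - (-2 / 5)) = (19 / 20) * (Real.log (19 : ℕ) - Real.log (20 : ℕ)) := psi_val _ (19 / 20) 19 20 (by norm_num) (by norm_num) (by norm_num) (by norm_num)
    have e5 : psi ((11 / 20) - (-1 / 5)) = (3 / 4) * (Real.log (3 : ℕ) - Real.log (4 : ℕ)) := psi_val _ (3 / 4) 3 4 (by norm_num) (by norm_num) (by norm_num) (by norm_num)
    have e6 : psi ((11 / 20) - (-1 / 10)) = (13 / 20) * (Real.log (13 : ℕ) - Real.log (20 : ℕ)) := psi_val _ (13 / 20) 13 20 (by norm_num) (by norm_num) (by norm_num) (by norm_num)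
    have e7 : psi ((11 / 20) - 0) = (11 / 20) * (Real.log (11 : ℕ) - Real.log (20 : ℕ)) := psi_val _ (11 / 20) 11 20 (by norm_num) (by norm_num) (by norm_num) (by norm_num)
    have e8 : Real.log ((47 / 80) - (1 / 10)) = Real.log (39 : ℕ) - Real.log (80 : ℕ) := log_val _ 39 80 (by norm_num) (by norm_num) (by norm_num)
    have e9 : Real.log ((47 / 80) - (1 / 5)) = Real.log (31 : ℕ) - Real.log (80 : ℕ) := log_val _ 31 80 (by norm_num) (by norm_num) (by norm_num)
    have e10 : Real.log ((47 / 80) - (2 / 5)) = Real.log (3 : ℕ) - Real.log (16 : ℕ) := log_val _ 3 16 (by norm_num) (by norm_num) (by norm_num)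
    have e11 : psi ((11 / 20) - (3 / 5)) = (-1 / 20) * (Real.log (1 : ℕ) - Real.log (20 : ℕ)) := psi_val' _ (-1 / 20) 1 20 (by norm_num) (by norm_num) (by norm_num) (by norm_num)
    have e12 : psi ((11 / 20) - (4 / 5)) = (-1 / 4) * (Real.log (1 : ℕ) - Real.log (4 : ℕ)) := psi_val' _ (-1 / 4) 1 4 (by norm_num) (by norm_num) (by norm_num) (by norm_num)
    have e13 : Real.log ((47 / 80) - 1) = Real.log (33 : ℕ) - Real.log (80 : ℕ) := log_val' _ 33 80 (by norm_num) (by norm_num) (by norm_num)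
    rw [e1, e2, e3, e4, e5, e6, e7, e8, e9, e10, e11, e12, e13]
    have l3 := lgn_3
    have l4 := lgn_4
    have l11 := lgn_11
    have l13 := lgn_13
    have l16 := lgn_16
    have l19 := lgn_19
    have l20 := lgn_20
    have l23 := lgn_23
    have l27 := lgn_27
    have l31 := lgn_31
    have l33 := lgn_33
    have l39 := lgn_39
    have l80 := lgn_80
    have l127 := lgn_127
    simp only [Nat.cast_ofNat, Nat.cast_one, Real.log_one] at *
    linarith
  · have e1 : Real.log ((47 / 80) - (-1)) = Real.log (127 : ℕ) - Real.log (80 : ℕ) := log_val _ 127 80 (by norm_num) (by norm_num) (by norm_num)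
    have e2 : psi ((3 / 5) - (-4 / 5)) = (7 / 5) * (Real.log (7 : ℕ) - Real.log (5 : ℕ)) := psi_val _ (7 / 5) 7 5 (by norm_num) (by norm_num) (by norm_num) (by norm_num)
    have e3 : psi ((3 / 5) - (-3 / 5)) = (6 / 5) * (Real.log (6 : ℕ) - Real.log (5 : ℕ)) := psi_val _ (6 / 5) 6 5 (by norm_num) (by norm_num) (by norm_num) (by norm_num)
    have e4 : psi ((3 / 5) - (-2 / 5)) = 1 * (Real.log (1 : ℕ) - Real.log (1 : ℕ)) := psi_val _ 1 1 1 (by norm_num) (by norm_num) (by norm_num) (by norm_num)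
    have e5 : psi ((3 / 5) - (-1 / 5)) = (4 / 5) * (Real.log (4 : ℕ) - Real.log (5 : ℕ)) := psi_val _ (4 / 5) 4 5 (by norm_num) (by norm_num) (by norm_num) (by norm_num)
    have e6 : psi ((3 / 5) - (-1 / 10)) = (7 / 10) * (Real.log (7 : ℕ) - Real.log (10 : ℕ)) := psi_val _ (7 / 10) 7 10 (by norm_num) (by norm_num) (by norm_num) (by norm_num)
    have e7 : psi ((3 / 5) - 0) = (3 / 5) * (Real.log (3 : ℕ) - Real.log (5 : ℕ)) := psi_val _ (3 / 5) 3 5 (by norm_num) (by norm_num) (by norm_num) (by norm_num)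
    have e8 : Real.log ((47 / 80) - (1 / 10)) = Real.log (39 : ℕ) - Real.log (80 : ℕ) := log_val _ 39 80 (by norm_num) (by norm_num) (by norm_num)
    have e9 : Real.log ((47 / 80) - (1 / 5)) = Real.log (31 : ℕ) - Real.log (80 : ℕ) := log_val _ 31 80 (by norm_num) (by norm_num) (by norm_num)
    have e10 : Real.log ((47 / 80) - (2 / 5)) = Real.log (3 : ℕ) - Real.log (16 : ℕ) := log_val _ 3 16 (by norm_num) (by norm_num) (by norm_num)
    have e11 : psi ((3 / 5) - (3 / 5)) = 0 := by rw [show ((3 / 5) - (3 / 5) : ℝ) = 0 by norm_num, psi_zero]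
    have e12 : psi ((3 / 5) - (4 / 5)) = (-1 / 5) * (Real.log (1 : ℕ) - Real.log (5 : ℕ)) := psi_val' _ (-1 / 5) 1 5 (by norm_num) (by norm_num) (by norm_num) (by norm_num)
    have e13 : Real.log ((47 / 80) - 1) = Real.log (33 : ℕ) - Real.log (80 : ℕ) := log_val' _ 33 80 (by norm_num) (by norm_num) (by norm_num)
    rw [e1, e2, e3, e4, e5, e6, e7, e8, e9, e10, e11, e12, e13]
    have l3 := lgn_3
    have l4 := lgn_4
    have l5 := lgn_5
    have l6 := lgn_6
    have l7 := lgn_7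
    have l10 := lgn_10
    have l16 := lgn_16
    have l31 := lgn_31
    have l33 := lgn_33
    have l39 := lgn_39
    have l80 := lgn_80
    have l127 := lgn_127
    simp only [Nat.cast_ofNat, Nat.cast_one, Real.log_one] at *
    linarith

theorem cellB8 (x : ℝ) (h1 : (3 / 5) ≤ x) (h2 : x ≤ (13 / 20)) :
    gT x ≤ aff (3 / 5) (13 / 20) (-331 / 100) (-331 / 100) x := by
  have t1 := term_tan_R (-1 / 2) (-1) (3 / 5) (13 / 20) (5 / 8) x (by norm_num) (by norm_num) (by norm_num) (by norm_num) h1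
  have t2 := term_chord_R (1 / 4) (-4 / 5) (3 / 5) (13 / 20) x (by norm_num) (by norm_num) (by norm_num) h1 h2
  have t3 := term_chord_R (1 / 8) (-3 / 5) (3 / 5) (13 / 20) x (by norm_num) (by norm_num) (by norm_num) h1 h2
  have t4 := term_chord_R (1 / 4) (-2 / 5) (3 / 5) (13 / 20) x (by norm_num) (by norm_num) (by norm_num) h1 h2
  have t5 := term_chord_R (3 / 8) (-1 / 5) (3 / 5) (13 / 20) x (by norm_num) (by norm_num) (by norm_num) h1 h2
  have t6 := term_chord_R (1 / 2) (-1 / 10) (3 / 5) (13 / 20) x (by norm_num) (by norm_num) (by norm_num) h1 h2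
  have t7 := term_chord_R 3 0 (3 / 5) (13 / 20) x (by norm_num) (by norm_num) (by norm_num) h1 h2
  have t8 := term_tan_R (-3 / 2) (1 / 10) (3 / 5) (13 / 20) (5 / 8) x (by norm_num) (by norm_num) (by norm_num) (by norm_num) h1
  have t9 := term_tan_R (-9 / 8) (1 / 5) (3 / 5) (13 / 20) (5 / 8) x (by norm_num) (by norm_num) (by norm_num) (by norm_num) h1
  have t10 := term_tan_R (-3 / 4) (2 / 5) (3 / 5) (13 / 20) (5 / 8) x (by norm_num) (by norm_num) (by norm_num) (by norm_num) h1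
  have t11 := term_tan_R (-3 / 8) (3 / 5) (3 / 5) (13 / 20) (5 / 8) x (by norm_num) (by norm_num) (by norm_num) (by norm_num) h1
  have t12 := term_chord_L (-3 / 4) (4 / 5) (3 / 5) (13 / 20) x (by norm_num) (by norm_num) (by norm_num) h1 h2
  have t13 := term_tan_L (1 / 2) 1 (3 / 5) (13 / 20) (5 / 8) x (by norm_num) (by norm_num) (by norm_num) (by norm_num) h2
  have tl := aff_lin (3 / 5) (13 / 20) (-7 / 2) (-1) x (by norm_num)
  refine gT_le (by norm_num) h1 h2 t1 t2 t3 t4 t5 t6 t7 t8 t9 t10 t11 t12 t13 tl ?_ ?_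
  · have e1 : Real.log ((5 / 8) - (-1)) = Real.log (13 : ℕ) - Real.log (8 : ℕ) := log_val _ 13 8 (by norm_num) (by norm_num) (by norm_num)
    have e2 : psi ((3 / 5) - (-4 / 5)) = (7 / 5) * (Real.log (7 : ℕ) - Real.log (5 : ℕ)) := psi_val _ (7 / 5) 7 5 (by norm_num) (by norm_num) (by norm_num) (by norm_num)
    have e3 : psi ((3 / 5) - (-3 / 5)) = (6 / 5) * (Real.log (6 : ℕ) - Real.log (5 : ℕ)) := psi_val _ (6 / 5) 6 5 (by norm_num) (by norm_num) (by norm_num) (by norm_num)
    have e4 : psi ((3 / 5) - (-2 / 5)) = 1 * (Real.log (1 : ℕ) - Real.log (1 : ℕ)) := psi_val _ 1 1 1 (by norm_num) (by norm_num) (by norm_num) (by norm_num)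
    have e5 : psi ((3 / 5) - (-1 / 5)) = (4 / 5) * (Real.log (4 : ℕ) - Real.log (5 : ℕ)) := psi_val _ (4 / 5) 4 5 (by norm_num) (by norm_num) (by norm_num) (by norm_num)
    have e6 : psi ((3 / 5) - (-1 / 10)) = (7 / 10) * (Real.log (7 : ℕ) - Real.log (10 : ℕ)) := psi_val _ (7 / 10) 7 10 (by norm_num) (by norm_num) (by norm_num) (by norm_num)
    have e7 : psi ((3 / 5) - 0) = (3 / 5) * (Real.log (3 : ℕ) - Real.log (5 : ℕ)) := psi_val _ (3 / 5) 3 5 (by norm_num) (by norm_num) (by norm_num) (by norm_num)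
    have e8 : Real.log ((5 / 8) - (1 / 10)) = Real.log (21 : ℕ) - Real.log (40 : ℕ) := log_val _ 21 40 (by norm_num) (by norm_num) (by norm_num)
    have e9 : Real.log ((5 / 8) - (1 / 5)) = Real.log (17 : ℕ) - Real.log (40 : ℕ) := log_val _ 17 40 (by norm_num) (by norm_num) (by norm_num)
    have e10 : Real.log ((5 / 8) - (2 / 5)) = Real.log (9 : ℕ) - Real.log (40 : ℕ) := log_val _ 9 40 (by norm_num) (by norm_num) (by norm_num)
    have e11 : Real.log ((5 / 8) - (3 / 5)) = Real.log (1 : ℕ) - Real.log (40 : ℕ) := log_val _ 1 40 (by norm_num) (by norm_num) (by norm_num)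
    have e12 : psi ((3 / 5) - (4 / 5)) = (-1 / 5) * (Real.log (1 : ℕ) - Real.log (5 : ℕ)) := psi_val' _ (-1 / 5) 1 5 (by norm_num) (by norm_num) (by norm_num) (by norm_num)
    have e13 : Real.log ((5 / 8) - 1) = Real.log (3 : ℕ) - Real.log (8 : ℕ) := log_val' _ 3 8 (by norm_num) (by norm_num) (by norm_num)
    rw [e1, e2, e3, e4, e5, e6, e7, e8, e9, e10, e11, e12, e13]
    have l3 := lgn_3
    have l4 := lgn_4
    have l5 := lgn_5
    have l6 := lgn_6
    have l7 := lgn_7
    have l8 := lgn_8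
    have l9 := lgn_9
    have l10 := lgn_10
    have l13 := lgn_13
    have l17 := lgn_17
    have l21 := lgn_21
    have l40 := lgn_40
    simp only [Nat.cast_ofNat, Nat.cast_one, Real.log_one] at *
    linarith
  · have e1 : Real.log ((5 / 8) - (-1)) = Real.log (13 : ℕ) - Real.log (8 : ℕ) := log_val _ 13 8 (by norm_num) (by norm_num) (by norm_num)
    have e2 : psi ((13 / 20) - (-4 / 5)) = (29 / 20) * (Real.log (29 : ℕ) - Real.log (20 : ℕ)) := psi_val _ (29 / 20) 29 20 (by norm_num) (by norm_num) (by norm_num) (by norm_num)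
    have e3 : psi ((13 / 20) - (-3 / 5)) = (5 / 4) * (Real.log (5 : ℕ) - Real.log (4 : ℕ)) := psi_val _ (5 / 4) 5 4 (by norm_num) (by norm_num) (by norm_num) (by norm_num)
    have e4 : psi ((13 / 20) - (-2 / 5)) = (21 / 20) * (Real.log (21 : ℕ) - Real.log (20 : ℕ)) := psi_val _ (21 / 20) 21 20 (by norm_num) (by norm_num) (by norm_num) (by norm_num)
    have e5 : psi ((13 / 20) - (-1 / 5)) = (17 / 20) * (Real.log (17 : ℕ) - Real.log (20 : ℕ)) := psi_val _ (17 / 20) 17 20 (by norm_num) (by norm_num) (by norm_num) (by norm_num)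
    have e6 : psi ((13 / 20) - (-1 / 10)) = (3 / 4) * (Real.log (3 : ℕ) - Real.log (4 : ℕ)) := psi_val _ (3 / 4) 3 4 (by norm_num) (by norm_num) (by norm_num) (by norm_num)
    have e7 : psi ((13 / 20) - 0) = (13 / 20) * (Real.log (13 : ℕ) - Real.log (20 : ℕ)) := psi_val _ (13 / 20) 13 20 (by norm_num) (by norm_num) (by norm_num) (by norm_num)
    have e8 : Real.log ((5 / 8) - (1 / 10)) = Real.log (21 : ℕ) - Real.log (40 : ℕ) := log_val _ 21 40 (by norm_num) (by norm_num) (by norm_num)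
    have e9 : Real.log ((5 / 8) - (1 / 5)) = Real.log (17 : ℕ) - Real.log (40 : ℕ) := log_val _ 17 40 (by norm_num) (by norm_num) (by norm_num)
    have e10 : Real.log ((5 / 8) - (2 / 5)) = Real.log (9 : ℕ) - Real.log (40 : ℕ) := log_val _ 9 40 (by norm_num) (by norm_num) (by norm_num)
    have e11 : Real.log ((5 / 8) - (3 / 5)) = Real.log (1 : ℕ) - Real.log (40 : ℕ) := log_val _ 1 40 (by norm_num) (by norm_num) (by norm_num)
    have e12 : psi ((13 / 20) - (4 / 5)) = (-3 / 20) * (Real.log (3 : ℕ) - Real.log (20 : ℕ)) := psi_val' _ (-3 / 20) 3 20 (by norm_num) (by norm_num) (by norm_num) (by norm_num)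
    have e13 : Real.log ((5 / 8) - 1) = Real.log (3 : ℕ) - Real.log (8 : ℕ) := log_val' _ 3 8 (by norm_num) (by norm_num) (by norm_num)
    rw [e1, e2, e3, e4, e5, e6, e7, e8, e9, e10, e11, e12, e13]
    have l3 := lgn_3
    have l4 := lgn_4
    have l5 := lgn_5
    have l8 := lgn_8
    have l9 := lgn_9
    have l13 := lgn_13
    have l17 := lgn_17
    have l20 := lgn_20
    have l21 := lgn_21
    have l29 := lgn_29
    have l40 := lgn_40
    simp only [Nat.cast_ofNat, Nat.cast_one, Real.log_one] at *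
    linarith

theorem cellB9 (x : ℝ) (h1 : (13 / 20) ≤ x) (h2 : x ≤ (3 / 4)) :
    gT x ≤ aff (13 / 20) (3 / 4) (-331 / 100) (-331 / 100) x := by
  have t1 := term_tan_R (-1 / 2) (-1) (13 / 20) (3 / 4) (27 / 40) x (by norm_num) (by norm_num) (by norm_num) (by norm_num) h1
  have t2 := term_chord_R (1 / 4) (-4 / 5) (13 / 20) (3 / 4) x (by norm_num) (by norm_num) (by norm_num) h1 h2
  have t3 := term_chord_R (1 / 8) (-3 / 5) (13 / 20) (3 / 4) x (by norm_num) (by norm_num) (by norm_num) h1 h2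
  have t4 := term_chord_R (1 / 4) (-2 / 5) (13 / 20) (3 / 4) x (by norm_num) (by norm_num) (by norm_num) h1 h2
  have t5 := term_chord_R (3 / 8) (-1 / 5) (13 / 20) (3 / 4) x (by norm_num) (by norm_num) (by norm_num) h1 h2
  have t6 := term_chord_R (1 / 2) (-1 / 10) (13 / 20) (3 / 4) x (by norm_num) (by norm_num) (by norm_num) h1 h2
  have t7 := term_chord_R 3 0 (13 / 20) (3 / 4) x (by norm_num) (by norm_num) (by norm_num) h1 h2
  have t8 := term_tan_R (-3 / 2) (1 / 10) (13 / 20) (3 / 4) (27 / 40) x (by norm_num) (by norm_num) (by norm_num) (by norm_num) h1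
  have t9 := term_tan_R (-9 / 8) (1 / 5) (13 / 20) (3 / 4) (27 / 40) x (by norm_num) (by norm_num) (by norm_num) (by norm_num) h1
  have t10 := term_tan_R (-3 / 4) (2 / 5) (13 / 20) (3 / 4) (27 / 40) x (by norm_num) (by norm_num) (by norm_num) (by norm_num) h1
  have t11 := term_tan_R (-3 / 8) (3 / 5) (13 / 20) (3 / 4) (27 / 40) x (by norm_num) (by norm_num) (by norm_num) (by norm_num) h1
  have t12 := term_chord_L (-3 / 4) (4 / 5) (13 / 20) (3 / 4) x (by norm_num) (by norm_num) (by norm_num) h1 h2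
  have t13 := term_tan_L (1 / 2) 1 (13 / 20) (3 / 4) (27 / 40) x (by norm_num) (by norm_num) (by norm_num) (by norm_num) h2
  have tl := aff_lin (13 / 20) (3 / 4) (-7 / 2) (-1) x (by norm_num)
  refine gT_le (by norm_num) h1 h2 t1 t2 t3 t4 t5 t6 t7 t8 t9 t10 t11 t12 t13 tl ?_ ?_
  · have e1 : Real.log ((27 / 40) - (-1)) = Real.log (67 : ℕ) - Real.log (40 : ℕ) := log_val _ 67 40 (by norm_num) (by norm_num) (by norm_num)
    have e2 : psi ((13 / 20) - (-4 / 5)) = (29 / 20) * (Real.log (29 : ℕ) - Real.log (20 : ℕ)) := psi_val _ (29 / 20) 29 20 (by norm_num) (by norm_num) (by norm_num) (by norm_num)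
    have e3 : psi ((13 / 20) - (-3 / 5)) = (5 / 4) * (Real.log (5 : ℕ) - Real.log (4 : ℕ)) := psi_val _ (5 / 4) 5 4 (by norm_num) (by norm_num) (by norm_num) (by norm_num)
    have e4 : psi ((13 / 20) - (-2 / 5)) = (21 / 20) * (Real.log (21 : ℕ) - Real.log (20 : ℕ)) := psi_val _ (21 / 20) 21 20 (by norm_num) (by norm_num) (by norm_num) (by norm_num)
    have e5 : psi ((13 / 20) - (-1 / 5)) = (17 / 20) * (Real.log (17 : ℕ) - Real.log (20 : ℕ)) := psi_val _ (17 / 20) 17 20 (by norm_num) (by norm_num) (by norm_num) (by norm_num)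
    have e6 : psi ((13 / 20) - (-1 / 10)) = (3 / 4) * (Real.log (3 : ℕ) - Real.log (4 : ℕ)) := psi_val _ (3 / 4) 3 4 (by norm_num) (by norm_num) (by norm_num) (by norm_num)
    have e7 : psi ((13 / 20) - 0) = (13 / 20) * (Real.log (13 : ℕ) - Real.log (20 : ℕ)) := psi_val _ (13 / 20) 13 20 (by norm_num) (by norm_num) (by norm_num) (by norm_num)
    have e8 : Real.log ((27 / 40) - (1 / 10)) = Real.log (23 : ℕ) - Real.log (40 : ℕ) := log_val _ 23 40 (by norm_num) (by norm_num) (by norm_num)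
    have e9 : Real.log ((27 / 40) - (1 / 5)) = Real.log (19 : ℕ) - Real.log (40 : ℕ) := log_val _ 19 40 (by norm_num) (by norm_num) (by norm_num)
    have e10 : Real.log ((27 / 40) - (2 / 5)) = Real.log (11 : ℕ) - Real.log (40 : ℕ) := log_val _ 11 40 (by norm_num) (by norm_num) (by norm_num)
    have e11 : Real.log ((27 / 40) - (3 / 5)) = Real.log (3 : ℕ) - Real.log (40 : ℕ) := log_val _ 3 40 (by norm_num) (by norm_num) (by norm_num)
    have e12 : psi ((13 / 20) - (4 / 5)) = (-3 / 20) * (Real.log (3 : ℕ) - Real.log (20 : ℕ)) := psi_val' _ (-3 / 20) 3 20 (by norm_num) (by norm_num) (by norm_num) (by norm_num)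
    have e13 : Real.log ((27 / 40) - 1) = Real.log (13 : ℕ) - Real.log (40 : ℕ) := log_val' _ 13 40 (by norm_num) (by norm_num) (by norm_num)
    rw [e1, e2, e3, e4, e5, e6, e7, e8, e9, e10, e11, e12, e13]
    have l3 := lgn_3
    have l4 := lgn_4
    have l5 := lgn_5
    have l11 := lgn_11
    have l13 := lgn_13
    have l17 := lgn_17
    have l19 := lgn_19
    have l20 := lgn_20
    have l21 := lgn_21
    have l23 := lgn_23
    have l29 := lgn_29
    have l40 := lgn_40
    have l67 := lgn_67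
    simp only [Nat.cast_ofNat, Nat.cast_one, Real.log_one] at *
    linarith
  · have e1 : Real.log ((27 / 40) - (-1)) = Real.log (67 : ℕ) - Real.log (40 : ℕ) := log_val _ 67 40 (by norm_num) (by norm_num) (by norm_num)
    have e2 : psi ((3 / 4) - (-4 / 5)) = (31 / 20) * (Real.log (31 : ℕ) - Real.log (20 : ℕ)) := psi_val _ (31 / 20) 31 20 (by norm_num) (by norm_num) (by norm_num) (by norm_num)
    have e3 : psi ((3 / 4) - (-3 / 5)) = (27 / 20) * (Real.log (27 : ℕ) - Real.log (20 : ℕ)) := psi_val _ (27 / 20) 27 20 (by norm_num) (by norm_num) (by norm_num) (by norm_num)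
    have e4 : psi ((3 / 4) - (-2 / 5)) = (23 / 20) * (Real.log (23 : ℕ) - Real.log (20 : ℕ)) := psi_val _ (23 / 20) 23 20 (by norm_num) (by norm_num) (by norm_num) (by norm_num)
    have e5 : psi ((3 / 4) - (-1 / 5)) = (19 / 20) * (Real.log (19 : ℕ) - Real.log (20 : ℕ)) := psi_val _ (19 / 20) 19 20 (by norm_num) (by norm_num) (by norm_num) (by norm_num)
    have e6 : psi ((3 / 4) - (-1 / 10)) = (17 / 20) * (Real.log (17 : ℕ) - Real.log (20 : ℕ)) := psi_val _ (17 / 20) 17 20 (by norm_num) (by norm_num) (by norm_num) (by norm_num)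
    have e7 : psi ((3 / 4) - 0) = (3 / 4) * (Real.log (3 : ℕ) - Real.log (4 : ℕ)) := psi_val _ (3 / 4) 3 4 (by norm_num) (by norm_num) (by norm_num) (by norm_num)
    have e8 : Real.log ((27 / 40) - (1 / 10)) = Real.log (23 : ℕ) - Real.log (40 : ℕ) := log_val _ 23 40 (by norm_num) (by norm_num) (by norm_num)
    have e9 : Real.log ((27 / 40) - (1 / 5)) = Real.log (19 : ℕ) - Real.log (40 : ℕ) := log_val _ 19 40 (by norm_num) (by norm_num) (by norm_num)
    have e10 : Real.log ((27 / 40) - (2 / 5)) = Real.log (11 : ℕ) - Real.log (40 : ℕ) := log_val _ 11 40 (by norm_num) (by norm_num) (by norm_num)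
    have e11 : Real.log ((27 / 40) - (3 / 5)) = Real.log (3 : ℕ) - Real.log (40 : ℕ) := log_val _ 3 40 (by norm_num) (by norm_num) (by norm_num)
    have e12 : psi ((3 / 4) - (4 / 5)) = (-1 / 20) * (Real.log (1 : ℕ) - Real.log (20 : ℕ)) := psi_val' _ (-1 / 20) 1 20 (by norm_num) (by norm_num) (by norm_num) (by norm_num)
    have e13 : Real.log ((27 / 40) - 1) = Real.log (13 : ℕ) - Real.log (40 : ℕ) := log_val' _ 13 40 (by norm_num) (by norm_num) (by norm_num)
    rw [e1, e2, e3, e4, e5, e6, e7, e8, e9, e10, e11, e12, e13]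
    have l3 := lgn_3
    have l4 := lgn_4
    have l11 := lgn_11
    have l13 := lgn_13
    have l17 := lgn_17
    have l19 := lgn_19
    have l20 := lgn_20
    have l23 := lgn_23
    have l27 := lgn_27
    have l31 := lgn_31
    have l40 := lgn_40
    have l67 := lgn_67
    simp only [Nat.cast_ofNat, Nat.cast_one, Real.log_one] at *
    linarith

theorem cellB10 (x : ℝ) (h1 : (3 / 4) ≤ x) (h2 : x ≤ (4 / 5)) :
    gT x ≤ aff (3 / 4) (4 / 5) (-331 / 100) (-331 / 100) x := by
  have t1 := term_tan_R (-1 / 2) (-1) (3 / 4) (4 / 5) (4 / 5) x (by norm_num) (by norm_num) (by norm_num) (by norm_num) h1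
  have t2 := term_chord_R (1 / 4) (-4 / 5) (3 / 4) (4 / 5) x (by norm_num) (by norm_num) (by norm_num) h1 h2
  have t3 := term_chord_R (1 / 8) (-3 / 5) (3 / 4) (4 / 5) x (by norm_num) (by norm_num) (by norm_num) h1 h2
  have t4 := term_chord_R (1 / 4) (-2 / 5) (3 / 4) (4 / 5) x (by norm_num) (by norm_num) (by norm_num) h1 h2
  have t5 := term_chord_R (3 / 8) (-1 / 5) (3 / 4) (4 / 5) x (by norm_num) (by norm_num) (by norm_num) h1 h2
  have t6 := term_chord_R (1 / 2) (-1 / 10) (3 / 4) (4 / 5) x (by norm_num) (by norm_num) (by norm_num) h1 h2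
  have t7 := term_chord_R 3 0 (3 / 4) (4 / 5) x (by norm_num) (by norm_num) (by norm_num) h1 h2
  have t8 := term_tan_R (-3 / 2) (1 / 10) (3 / 4) (4 / 5) (4 / 5) x (by norm_num) (by norm_num) (by norm_num) (by norm_num) h1
  have t9 := term_tan_R (-9 / 8) (1 / 5) (3 / 4) (4 / 5) (4 / 5) x (by norm_num) (by norm_num) (by norm_num) (by norm_num) h1
  have t10 := term_tan_R (-3 / 4) (2 / 5) (3 / 4) (4 / 5) (4 / 5) x (by norm_num) (by norm_num) (by norm_num) (by norm_num) h1
  have t11 := term_tan_R (-3 / 8) (3 / 5) (3 / 4) (4 / 5) (4 / 5) x (by norm_num) (by norm_num) (by norm_num) (by norm_num) h1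
  have t12 := term_chord_L (-3 / 4) (4 / 5) (3 / 4) (4 / 5) x (by norm_num) (by norm_num) (by norm_num) h1 h2
  have t13 := term_tan_L (1 / 2) 1 (3 / 4) (4 / 5) (4 / 5) x (by norm_num) (by norm_num) (by norm_num) (by norm_num) h2
  have tl := aff_lin (3 / 4) (4 / 5) (-7 / 2) (-1) x (by norm_num)
  refine gT_le (by norm_num) h1 h2 t1 t2 t3 t4 t5 t6 t7 t8 t9 t10 t11 t12 t13 tl ?_ ?_
  · have e1 : Real.log ((4 / 5) - (-1)) = Real.log (9 : ℕ) - Real.log (5 : ℕ) := log_val _ 9 5 (by norm_num) (by norm_num) (by norm_num)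
    have e2 : psi ((3 / 4) - (-4 / 5)) = (31 / 20) * (Real.log (31 : ℕ) - Real.log (20 : ℕ)) := psi_val _ (31 / 20) 31 20 (by norm_num) (by norm_num) (by norm_num) (by norm_num)
    have e3 : psi ((3 / 4) - (-3 / 5)) = (27 / 20) * (Real.log (27 : ℕ) - Real.log (20 : ℕ)) := psi_val _ (27 / 20) 27 20 (by norm_num) (by norm_num) (by norm_num) (by norm_num)
    have e4 : psi ((3 / 4) - (-2 / 5)) = (23 / 20) * (Real.log (23 : ℕ) - Real.log (20 : ℕ)) := psi_val _ (23 / 20) 23 20 (by norm_num) (by norm_num) (by norm_num) (by norm_num)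
    have e5 : psi ((3 / 4) - (-1 / 5)) = (19 / 20) * (Real.log (19 : ℕ) - Real.log (20 : ℕ)) := psi_val _ (19 / 20) 19 20 (by norm_num) (by norm_num) (by norm_num) (by norm_num)
    have e6 : psi ((3 / 4) - (-1 / 10)) = (17 / 20) * (Real.log (17 : ℕ) - Real.log (20 : ℕ)) := psi_val _ (17 / 20) 17 20 (by norm_num) (by norm_num) (by norm_num) (by norm_num)
    have e7 : psi ((3 / 4) - 0) = (3 / 4) * (Real.log (3 : ℕ) - Real.log (4 : ℕ)) := psi_val _ (3 / 4) 3 4 (by norm_num) (by norm_num) (by norm_num) (by norm_num)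
    have e8 : Real.log ((4 / 5) - (1 / 10)) = Real.log (7 : ℕ) - Real.log (10 : ℕ) := log_val _ 7 10 (by norm_num) (by norm_num) (by norm_num)
    have e9 : Real.log ((4 / 5) - (1 / 5)) = Real.log (3 : ℕ) - Real.log (5 : ℕ) := log_val _ 3 5 (by norm_num) (by norm_num) (by norm_num)
    have e10 : Real.log ((4 / 5) - (2 / 5)) = Real.log (2 : ℕ) - Real.log (5 : ℕ) := log_val _ 2 5 (by norm_num) (by norm_num) (by norm_num)
    have e11 : Real.log ((4 / 5) - (3 / 5)) = Real.log (1 : ℕ) - Real.log (5 : ℕ) := log_val _ 1 5 (by norm_num) (by norm_num) (by norm_num)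
    have e12 : psi ((3 / 4) - (4 / 5)) = (-1 / 20) * (Real.log (1 : ℕ) - Real.log (20 : ℕ)) := psi_val' _ (-1 / 20) 1 20 (by norm_num) (by norm_num) (by norm_num) (by norm_num)
    have e13 : Real.log ((4 / 5) - 1) = Real.log (1 : ℕ) - Real.log (5 : ℕ) := log_val' _ 1 5 (by norm_num) (by norm_num) (by norm_num)
    rw [e1, e2, e3, e4, e5, e6, e7, e8, e9, e10, e11, e12, e13]
    have l2 := lgn_2
    have l3 := lgn_3
    have l4 := lgn_4
    have l5 := lgn_5
    have l7 := lgn_7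
    have l9 := lgn_9
    have l10 := lgn_10
    have l17 := lgn_17
    have l19 := lgn_19
    have l20 := lgn_20
    have l23 := lgn_23
    have l27 := lgn_27
    have l31 := lgn_31
    simp only [Nat.cast_ofNat, Nat.cast_one, Real.log_one] at *
    linarith
  · have e1 : Real.log ((4 / 5) - (-1)) = Real.log (9 : ℕ) - Real.log (5 : ℕ) := log_val _ 9 5 (by norm_num) (by norm_num) (by norm_num)
    have e2 : psi ((4 / 5) - (-4 / 5)) = (8 / 5) * (Real.log (8 : ℕ) - Real.log (5 : ℕ)) := psi_val _ (8 / 5) 8 5 (by norm_num) (by norm_num) (by norm_num) (by norm_num)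
    have e3 : psi ((4 / 5) - (-3 / 5)) = (7 / 5) * (Real.log (7 : ℕ) - Real.log (5 : ℕ)) := psi_val _ (7 / 5) 7 5 (by norm_num) (by norm_num) (by norm_num) (by norm_num)
    have e4 : psi ((4 / 5) - (-2 / 5)) = (6 / 5) * (Real.log (6 : ℕ) - Real.log (5 : ℕ)) := psi_val _ (6 / 5) 6 5 (by norm_num) (by norm_num) (by norm_num) (by norm_num)
    have e5 : psi ((4 / 5) - (-1 / 5)) = 1 * (Real.log (1 : ℕ) - Real.log (1 : ℕ)) := psi_val _ 1 1 1 (by norm_num) (by norm_num) (by norm_num) (by norm_num)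
    have e6 : psi ((4 / 5) - (-1 / 10)) = (9 / 10) * (Real.log (9 : ℕ) - Real.log (10 : ℕ)) := psi_val _ (9 / 10) 9 10 (by norm_num) (by norm_num) (by norm_num) (by norm_num)
    have e7 : psi ((4 / 5) - 0) = (4 / 5) * (Real.log (4 : ℕ) - Real.log (5 : ℕ)) := psi_val _ (4 / 5) 4 5 (by norm_num) (by norm_num) (by norm_num) (by norm_num)
    have e8 : Real.log ((4 / 5) - (1 / 10)) = Real.log (7 : ℕ) - Real.log (10 : ℕ) := log_val _ 7 10 (by norm_num) (by norm_num) (by norm_num)
    have e9 : Real.log ((4 / 5) - (1 / 5)) = Real.log (3 : ℕ) - Real.log (5 : ℕ) := log_val _ 3 5 (by norm_num) (by norm_num) (by norm_num)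
    have e10 : Real.log ((4 / 5) - (2 / 5)) = Real.log (2 : ℕ) - Real.log (5 : ℕ) := log_val _ 2 5 (by norm_num) (by norm_num) (by norm_num)
    have e11 : Real.log ((4 / 5) - (3 / 5)) = Real.log (1 : ℕ) - Real.log (5 : ℕ) := log_val _ 1 5 (by norm_num) (by norm_num) (by norm_num)
    have e12 : psi ((4 / 5) - (4 / 5)) = 0 := by rw [show ((4 / 5) - (4 / 5) : ℝ) = 0 by norm_num, psi_zero]
    have e13 : Real.log ((4 / 5) - 1) = Real.log (1 : ℕ) - Real.log (5 : ℕ) := log_val' _ 1 5 (by norm_num) (by norm_num) (by norm_num)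
    rw [e1, e2, e3, e4, e5, e6, e7, e8, e9, e10, e11, e12, e13]
    have l2 := lgn_2
    have l3 := lgn_3
    have l4 := lgn_4
    have l5 := lgn_5
    have l6 := lgn_6
    have l7 := lgn_7
    have l8 := lgn_8
    have l9 := lgn_9
    have l10 := lgn_10
    simp only [Nat.cast_ofNat, Nat.cast_one, Real.log_one] at *
    linarith

theorem cellB11 (x : ℝ) (h1 : (4 / 5) ≤ x) (h2 : x ≤ (7 / 8)) :
    gT x ≤ aff (4 / 5) (7 / 8) (-331 / 100) (-331 / 100) x := by
  have t1 := term_tan_R (-1 / 2) (-1) (4 / 5) (7 / 8) (33 / 40) x (by norm_num) (by norm_num) (by norm_num) (by norm_num) h1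
  have t2 := term_chord_R (1 / 4) (-4 / 5) (4 / 5) (7 / 8) x (by norm_num) (by norm_num) (by norm_num) h1 h2
  have t3 := term_chord_R (1 / 8) (-3 / 5) (4 / 5) (7 / 8) x (by norm_num) (by norm_num) (by norm_num) h1 h2
  have t4 := term_chord_R (1 / 4) (-2 / 5) (4 / 5) (7 / 8) x (by norm_num) (by norm_num) (by norm_num) h1 h2
  have t5 := term_chord_R (3 / 8) (-1 / 5) (4 / 5) (7 / 8) x (by norm_num) (by norm_num) (by norm_num) h1 h2
  have t6 := term_chord_R (1 / 2) (-1 / 10) (4 / 5) (7 / 8) x (by norm_num) (by norm_num) (by norm_num) h1 h2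
  have t7 := term_chord_R 3 0 (4 / 5) (7 / 8) x (by norm_num) (by norm_num) (by norm_num) h1 h2
  have t8 := term_tan_R (-3 / 2) (1 / 10) (4 / 5) (7 / 8) (33 / 40) x (by norm_num) (by norm_num) (by norm_num) (by norm_num) h1
  have t9 := term_tan_R (-9 / 8) (1 / 5) (4 / 5) (7 / 8) (33 / 40) x (by norm_num) (by norm_num) (by norm_num) (by norm_num) h1
  have t10 := term_tan_R (-3 / 4) (2 / 5) (4 / 5) (7 / 8) (33 / 40) x (by norm_num) (by norm_num) (by norm_num) (by norm_num) h1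
  have t11 := term_tan_R (-3 / 8) (3 / 5) (4 / 5) (7 / 8) (33 / 40) x (by norm_num) (by norm_num) (by norm_num) (by norm_num) h1
  have t12 := term_tan_R (-3 / 4) (4 / 5) (4 / 5) (7 / 8) (33 / 40) x (by norm_num) (by norm_num) (by norm_num) (by norm_num) h1
  have t13 := term_tan_L (1 / 2) 1 (4 / 5) (7 / 8) (33 / 40) x (by norm_num) (by norm_num) (by norm_num) (by norm_num) h2
  have tl := aff_lin (4 / 5) (7 / 8) (-7 / 2) (-1) x (by norm_num)
  refine gT_le (by norm_num) h1 h2 t1 t2 t3 t4 t5 t6 t7 t8 t9 t10 t11 t12 t13 tl ?_ ?_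
  · have e1 : Real.log ((33 / 40) - (-1)) = Real.log (73 : ℕ) - Real.log (40 : ℕ) := log_val _ 73 40 (by norm_num) (by norm_num) (by norm_num)
    have e2 : psi ((4 / 5) - (-4 / 5)) = (8 / 5) * (Real.log (8 : ℕ) - Real.log (5 : ℕ)) := psi_val _ (8 / 5) 8 5 (by norm_num) (by norm_num) (by norm_num) (by norm_num)
    have e3 : psi ((4 / 5) - (-3 / 5)) = (7 / 5) * (Real.log (7 : ℕ) - Real.log (5 : ℕ)) := psi_val _ (7 / 5) 7 5 (by norm_num) (by norm_num) (by norm_num) (by norm_num)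
    have e4 : psi ((4 / 5) - (-2 / 5)) = (6 / 5) * (Real.log (6 : ℕ) - Real.log (5 : ℕ)) := psi_val _ (6 / 5) 6 5 (by norm_num) (by norm_num) (by norm_num) (by norm_num)
    have e5 : psi ((4 / 5) - (-1 / 5)) = 1 * (Real.log (1 : ℕ) - Real.log (1 : ℕ)) := psi_val _ 1 1 1 (by norm_num) (by norm_num) (by norm_num) (by norm_num)
    have e6 : psi ((4 / 5) - (-1 / 10)) = (9 / 10) * (Real.log (9 : ℕ) - Real.log (10 : ℕ)) := psi_val _ (9 / 10) 9 10 (by norm_num) (by norm_num) (by norm_num) (by norm_num)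
    have e7 : psi ((4 / 5) - 0) = (4 / 5) * (Real.log (4 : ℕ) - Real.log (5 : ℕ)) := psi_val _ (4 / 5) 4 5 (by norm_num) (by norm_num) (by norm_num) (by norm_num)
    have e8 : Real.log ((33 / 40) - (1 / 10)) = Real.log (29 : ℕ) - Real.log (40 : ℕ) := log_val _ 29 40 (by norm_num) (by norm_num) (by norm_num)
    have e9 : Real.log ((33 / 40) - (1 / 5)) = Real.log (5 : ℕ) - Real.log (8 : ℕ) := log_val _ 5 8 (by norm_num) (by norm_num) (by norm_num)
    have e10 : Real.log ((33 / 40) - (2 / 5)) = Real.log (17 : ℕ) - Real.log (40 : ℕ) := log_val _ 17 40 (by norm_num) (by norm_num) (by norm_num)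
    have e11 : Real.log ((33 / 40) - (3 / 5)) = Real.log (9 : ℕ) - Real.log (40 : ℕ) := log_val _ 9 40 (by norm_num) (by norm_num) (by norm_num)
    have e12 : Real.log ((33 / 40) - (4 / 5)) = Real.log (1 : ℕ) - Real.log (40 : ℕ) := log_val _ 1 40 (by norm_num) (by norm_num) (by norm_num)
    have e13 : Real.log ((33 / 40) - 1) = Real.log (7 : ℕ) - Real.log (40 : ℕ) := log_val' _ 7 40 (by norm_num) (by norm_num) (by norm_num)
    rw [e1, e2, e3, e4, e5, e6, e7, e8, e9, e10, e11, e12, e13]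
    have l4 := lgn_4
    have l5 := lgn_5
    have l6 := lgn_6
    have l7 := lgn_7
    have l8 := lgn_8
    have l9 := lgn_9
    have l10 := lgn_10
    have l17 := lgn_17
    have l29 := lgn_29
    have l40 := lgn_40
    have l73 := lgn_73
    simp only [Nat.cast_ofNat, Nat.cast_one, Real.log_one] at *
    linarith
  · have e1 : Real.log ((33 / 40) - (-1)) = Real.log (73 : ℕ) - Real.log (40 : ℕ) := log_val _ 73 40 (by norm_num) (by norm_num) (by norm_num)
    have e2 : psi ((7 / 8) - (-4 / 5)) = (67 / 40) * (Real.log (67 : ℕ) - Real.log (40 : ℕ)) := psi_val _ (67 / 40) 67 40 (by norm_num) (by norm_num) (by norm_num) (by norm_num)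
    have e3 : psi ((7 / 8) - (-3 / 5)) = (59 / 40) * (Real.log (59 : ℕ) - Real.log (40 : ℕ)) := psi_val _ (59 / 40) 59 40 (by norm_num) (by norm_num) (by norm_num) (by norm_num)
    have e4 : psi ((7 / 8) - (-2 / 5)) = (51 / 40) * (Real.log (51 : ℕ) - Real.log (40 : ℕ)) := psi_val _ (51 / 40) 51 40 (by norm_num) (by norm_num) (by norm_num) (by norm_num)
    have e5 : psi ((7 / 8) - (-1 / 5)) = (43 / 40) * (Real.log (43 : ℕ) - Real.log (40 : ℕ)) := psi_val _ (43 / 40) 43 40 (by norm_num) (by norm_num) (by norm_num) (by norm_num)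
    have e6 : psi ((7 / 8) - (-1 / 10)) = (39 / 40) * (Real.log (39 : ℕ) - Real.log (40 : ℕ)) := psi_val _ (39 / 40) 39 40 (by norm_num) (by norm_num) (by norm_num) (by norm_num)
    have e7 : psi ((7 / 8) - 0) = (7 / 8) * (Real.log (7 : ℕ) - Real.log (8 : ℕ)) := psi_val _ (7 / 8) 7 8 (by norm_num) (by norm_num) (by norm_num) (by norm_num)
    have e8 : Real.log ((33 / 40) - (1 / 10)) = Real.log (29 : ℕ) - Real.log (40 : ℕ) := log_val _ 29 40 (by norm_num) (by norm_num) (by norm_num)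
    have e9 : Real.log ((33 / 40) - (1 / 5)) = Real.log (5 : ℕ) - Real.log (8 : ℕ) := log_val _ 5 8 (by norm_num) (by norm_num) (by norm_num)
    have e10 : Real.log ((33 / 40) - (2 / 5)) = Real.log (17 : ℕ) - Real.log (40 : ℕ) := log_val _ 17 40 (by norm_num) (by norm_num) (by norm_num)
    have e11 : Real.log ((33 / 40) - (3 / 5)) = Real.log (9 : ℕ) - Real.log (40 : ℕ) := log_val _ 9 40 (by norm_num) (by norm_num) (by norm_num)
    have e12 : Real.log ((33 / 40) - (4 / 5)) = Real.log (1 : ℕ) - Real.log (40 : ℕ) := log_val _ 1 40 (by norm_num) (by norm_num) (by norm_num)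
    have e13 : Real.log ((33 / 40) - 1) = Real.log (7 : ℕ) - Real.log (40 : ℕ) := log_val' _ 7 40 (by norm_num) (by norm_num) (by norm_num)
    rw [e1, e2, e3, e4, e5, e6, e7, e8, e9, e10, e11, e12, e13]
    have l5 := lgn_5
    have l7 := lgn_7
    have l8 := lgn_8
    have l9 := lgn_9
    have l17 := lgn_17
    have l29 := lgn_29
    have l39 := lgn_39
    have l40 := lgn_40
    have l43 := lgn_43
    have l51 := lgn_51
    have l59 := lgn_59
    have l67 := lgn_67
    have l73 := lgn_73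
    simp only [Nat.cast_ofNat, Nat.cast_one, Real.log_one] at *
    linarith

theorem cellB12 (x : ℝ) (h1 : (7 / 8) ≤ x) (h2 : x ≤ 1) :
    gT x ≤ aff (7 / 8) 1 (-331 / 100) (-331 / 100) x := by
  have t1 := term_tan_R (-1 / 2) (-1) (7 / 8) 1 (7 / 8) x (by norm_num) (by norm_num) (by norm_num) (by norm_num) h1
  have t2 := term_chord_R (1 / 4) (-4 / 5) (7 / 8) 1 x (by norm_num) (by norm_num) (by norm_num) h1 h2
  have t3 := term_chord_R (1 / 8) (-3 / 5) (7 / 8) 1 x (by norm_num) (by norm_num) (by norm_num) h1 h2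
  have t4 := term_chord_R (1 / 4) (-2 / 5) (7 / 8) 1 x (by norm_num) (by norm_num) (by norm_num) h1 h2
  have t5 := term_chord_R (3 / 8) (-1 / 5) (7 / 8) 1 x (by norm_num) (by norm_num) (by norm_num) h1 h2
  have t6 := term_chord_R (1 / 2) (-1 / 10) (7 / 8) 1 x (by norm_num) (by norm_num) (by norm_num) h1 h2
  have t7 := term_chord_R 3 0 (7 / 8) 1 x (by norm_num) (by norm_num) (by norm_num) h1 h2
  have t8 := term_tan_R (-3 / 2) (1 / 10) (7 / 8) 1 (7 / 8) x (by norm_num) (by norm_num) (by norm_num) (by norm_num) h1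
  have t9 := term_tan_R (-9 / 8) (1 / 5) (7 / 8) 1 (7 / 8) x (by norm_num) (by norm_num) (by norm_num) (by norm_num) h1
  have t10 := term_tan_R (-3 / 4) (2 / 5) (7 / 8) 1 (7 / 8) x (by norm_num) (by norm_num) (by norm_num) (by norm_num) h1
  have t11 := term_tan_R (-3 / 8) (3 / 5) (7 / 8) 1 (7 / 8) x (by norm_num) (by norm_num) (by norm_num) (by norm_num) h1
  have t12 := term_tan_R (-3 / 4) (4 / 5) (7 / 8) 1 (7 / 8) x (by norm_num) (by norm_num) (by norm_num) (by norm_num) h1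
  have t13 := term_tan_L (1 / 2) 1 (7 / 8) 1 (7 / 8) x (by norm_num) (by norm_num) (by norm_num) (by norm_num) h2
  have tl := aff_lin (7 / 8) 1 (-7 / 2) (-1) x (by norm_num)
  refine gT_le (by norm_num) h1 h2 t1 t2 t3 t4 t5 t6 t7 t8 t9 t10 t11 t12 t13 tl ?_ ?_
  · have e1 : Real.log ((7 / 8) - (-1)) = Real.log (15 : ℕ) - Real.log (8 : ℕ) := log_val _ 15 8 (by norm_num) (by norm_num) (by norm_num)
    have e2 : psi ((7 / 8) - (-4 / 5)) = (67 / 40) * (Real.log (67 : ℕ) - Real.log (40 : ℕ)) := psi_val _ (67 / 40) 67 40 (by norm_num) (by norm_num) (by norm_num) (by norm_num)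
    have e3 : psi ((7 / 8) - (-3 / 5)) = (59 / 40) * (Real.log (59 : ℕ) - Real.log (40 : ℕ)) := psi_val _ (59 / 40) 59 40 (by norm_num) (by norm_num) (by norm_num) (by norm_num)
    have e4 : psi ((7 / 8) - (-2 / 5)) = (51 / 40) * (Real.log (51 : ℕ) - Real.log (40 : ℕ)) := psi_val _ (51 / 40) 51 40 (by norm_num) (by norm_num) (by norm_num) (by norm_num)
    have e5 : psi ((7 / 8) - (-1 / 5)) = (43 / 40) * (Real.log (43 : ℕ) - Real.log (40 : ℕ)) := psi_val _ (43 / 40) 43 40 (by norm_num) (by norm_num) (by norm_num) (by norm_num)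
    have e6 : psi ((7 / 8) - (-1 / 10)) = (39 / 40) * (Real.log (39 : ℕ) - Real.log (40 : ℕ)) := psi_val _ (39 / 40) 39 40 (by norm_num) (by norm_num) (by norm_num) (by norm_num)
    have e7 : psi ((7 / 8) - 0) = (7 / 8) * (Real.log (7 : ℕ) - Real.log (8 : ℕ)) := psi_val _ (7 / 8) 7 8 (by norm_num) (by norm_num) (by norm_num) (by norm_num)
    have e8 : Real.log ((7 / 8) - (1 / 10)) = Real.log (31 : ℕ) - Real.log (40 : ℕ) := log_val _ 31 40 (by norm_num) (by norm_num) (by norm_num)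
    have e9 : Real.log ((7 / 8) - (1 / 5)) = Real.log (27 : ℕ) - Real.log (40 : ℕ) := log_val _ 27 40 (by norm_num) (by norm_num) (by norm_num)
    have e10 : Real.log ((7 / 8) - (2 / 5)) = Real.log (19 : ℕ) - Real.log (40 : ℕ) := log_val _ 19 40 (by norm_num) (by norm_num) (by norm_num)
    have e11 : Real.log ((7 / 8) - (3 / 5)) = Real.log (11 : ℕ) - Real.log (40 : ℕ) := log_val _ 11 40 (by norm_num) (by norm_num) (by norm_num)
    have e12 : Real.log ((7 / 8) - (4 / 5)) = Real.log (3 : ℕ) - Real.log (40 : ℕ) := log_val _ 3 40 (by norm_num) (by norm_num) (by norm_num)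
    have e13 : Real.log ((7 / 8) - 1) = Real.log (1 : ℕ) - Real.log (8 : ℕ) := log_val' _ 1 8 (by norm_num) (by norm_num) (by norm_num)
    rw [e1, e2, e3, e4, e5, e6, e7, e8, e9, e10, e11, e12, e13]
    have l3 := lgn_3
    have l7 := lgn_7
    have l8 := lgn_8
    have l11 := lgn_11
    have l15 := lgn_15
    have l19 := lgn_19
    have l27 := lgn_27
    have l31 := lgn_31
    have l39 := lgn_39
    have l40 := lgn_40
    have l43 := lgn_43
    have l51 := lgn_51
    have l59 := lgn_59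
    have l67 := lgn_67
    simp only [Nat.cast_ofNat, Nat.cast_one, Real.log_one] at *
    linarith
  · have e1 : Real.log ((7 / 8) - (-1)) = Real.log (15 : ℕ) - Real.log (8 : ℕ) := log_val _ 15 8 (by norm_num) (by norm_num) (by norm_num)
    have e2 : psi (1 - (-4 / 5)) = (9 / 5) * (Real.log (9 : ℕ) - Real.log (5 : ℕ)) := psi_val _ (9 / 5) 9 5 (by norm_num) (by norm_num) (by norm_num) (by norm_num)
    have e3 : psi (1 - (-3 / 5)) = (8 / 5) * (Real.log (8 : ℕ) - Real.log (5 : ℕ)) := psi_val _ (8 / 5) 8 5 (by norm_num) (by norm_num) (by norm_num) (by norm_num)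
    have e4 : psi (1 - (-2 / 5)) = (7 / 5) * (Real.log (7 : ℕ) - Real.log (5 : ℕ)) := psi_val _ (7 / 5) 7 5 (by norm_num) (by norm_num) (by norm_num) (by norm_num)
    have e5 : psi (1 - (-1 / 5)) = (6 / 5) * (Real.log (6 : ℕ) - Real.log (5 : ℕ)) := psi_val _ (6 / 5) 6 5 (by norm_num) (by norm_num) (by norm_num) (by norm_num)
    have e6 : psi (1 - (-1 / 10)) = (11 / 10) * (Real.log (11 : ℕ) - Real.log (10 : ℕ)) := psi_val _ (11 / 10) 11 10 (by norm_num) (by norm_num) (by norm_num) (by norm_num)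
    have e7 : psi (1 - 0) = 1 * (Real.log (1 : ℕ) - Real.log (1 : ℕ)) := psi_val _ 1 1 1 (by norm_num) (by norm_num) (by norm_num) (by norm_num)
    have e8 : Real.log ((7 / 8) - (1 / 10)) = Real.log (31 : ℕ) - Real.log (40 : ℕ) := log_val _ 31 40 (by norm_num) (by norm_num) (by norm_num)
    have e9 : Real.log ((7 / 8) - (1 / 5)) = Real.log (27 : ℕ) - Real.log (40 : ℕ) := log_val _ 27 40 (by norm_num) (by norm_num) (by norm_num)
    have e10 : Real.log ((7 / 8) - (2 / 5)) = Real.log (19 : ℕ) - Real.log (40 : ℕ) := log_val _ 19 40 (by norm_num) (by norm_num) (by norm_num)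
    have e11 : Real.log ((7 / 8) - (3 / 5)) = Real.log (11 : ℕ) - Real.log (40 : ℕ) := log_val _ 11 40 (by norm_num) (by norm_num) (by norm_num)
    have e12 : Real.log ((7 / 8) - (4 / 5)) = Real.log (3 : ℕ) - Real.log (40 : ℕ) := log_val _ 3 40 (by norm_num) (by norm_num) (by norm_num)
    have e13 : Real.log ((7 / 8) - 1) = Real.log (1 : ℕ) - Real.log (8 : ℕ) := log_val' _ 1 8 (by norm_num) (by norm_num) (by norm_num)
    rw [e1, e2, e3, e4, e5, e6, e7, e8, e9, e10, e11, e12, e13]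
    have l3 := lgn_3
    have l5 := lgn_5
    have l6 := lgn_6
    have l7 := lgn_7
    have l8 := lgn_8
    have l9 := lgn_9
    have l10 := lgn_10
    have l11 := lgn_11
    have l15 := lgn_15
    have l19 := lgn_19
    have l27 := lgn_27
    have l31 := lgn_31
    have l40 := lgn_40
    simp only [Nat.cast_ofNat, Nat.cast_one, Real.log_one] at *
    linarith

theorem cellB13 (x : ℝ) (h1 : 1 ≤ x) (h2 : x ≤ (99 / 40)) :
    gT x ≤ aff 1 (99 / 40) (-331 / 100) (-331 / 100) x := by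
  have t1 := term_tan_R (-1 / 2) (-1) 1 (99 / 40) (11 / 10) x (by norm_num) (by norm_num) (by norm_num) (by norm_num) h1
  have t2 := term_chord_R (1 / 4) (-4 / 5) 1 (99 / 40) x (by norm_num) (by norm_num) (by norm_num) h1 h2
  have t3 := term_chord_R (1 / 8) (-3 / 5) 1 (99 / 40) x (by norm_num) (by norm_num) (by norm_num) h1 h2
  have t4 := term_chord_R (1 / 4) (-2 / 5) 1 (99 / 40) x (by norm_num) (by norm_num) (by norm_num) h1 h2
  have t5 := term_chord_R (3 / 8) (-1 / 5) 1 (99 / 40) x (by norm_num) (by norm_num) (by norm_num) h1 h2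
  have t6 := term_chord_R (1 / 2) (-1 / 10) 1 (99 / 40) x (by norm_num) (by norm_num) (by norm_num) h1 h2
  have t7 := term_chord_R 3 0 1 (99 / 40) x (by norm_num) (by norm_num) (by norm_num) h1 h2
  have t8 := term_tan_R (-3 / 2) (1 / 10) 1 (99 / 40) (11 / 10) x (by norm_num) (by norm_num) (by norm_num) (by norm_num) h1
  have t9 := term_tan_R (-9 / 8) (1 / 5) 1 (99 / 40) (11 / 10) x (by norm_num) (by norm_num) (by norm_num) (by norm_num) h1
  have t10 := term_tan_R (-3 / 4) (2 / 5) 1 (99 / 40) (11 / 10) x (by norm_num) (by norm_num) (by norm_num) (by norm_num) h1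
  have t11 := term_tan_R (-3 / 8) (3 / 5) 1 (99 / 40) (11 / 10) x (by norm_num) (by norm_num) (by norm_num) (by norm_num) h1
  have t12 := term_tan_R (-3 / 4) (4 / 5) 1 (99 / 40) (11 / 10) x (by norm_num) (by norm_num) (by norm_num) (by norm_num) h1
  have t13 := term_chord_R (1 / 2) 1 1 (99 / 40) x (by norm_num) (by norm_num) (by norm_num) h1 h2
  have tl := aff_lin 1 (99 / 40) (-7 / 2) (-1) x (by norm_num)
  refine gT_le (by norm_num) h1 h2 t1 t2 t3 t4 t5 t6 t7 t8 t9 t10 t11 t12 t13 tl ?_ ?_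
  · have e1 : Real.log ((11 / 10) - (-1)) = Real.log (21 : ℕ) - Real.log (10 : ℕ) := log_val _ 21 10 (by norm_num) (by norm_num) (by norm_num)
    have e2 : psi (1 - (-4 / 5)) = (9 / 5) * (Real.log (9 : ℕ) - Real.log (5 : ℕ)) := psi_val _ (9 / 5) 9 5 (by norm_num) (by norm_num) (by norm_num) (by norm_num)
    have e3 : psi (1 - (-3 / 5)) = (8 / 5) * (Real.log (8 : ℕ) - Real.log (5 : ℕ)) := psi_val _ (8 / 5) 8 5 (by norm_num) (by norm_num) (by norm_num) (by norm_num)
    have e4 : psi (1 - (-2 / 5)) = (7 / 5) * (Real.log (7 : ℕ) - Real.log (5 : ℕ)) := psi_val _ (7 / 5) 7 5 (by norm_num) (by norm_num) (by norm_num) (by norm_num)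
    have e5 : psi (1 - (-1 / 5)) = (6 / 5) * (Real.log (6 : ℕ) - Real.log (5 : ℕ)) := psi_val _ (6 / 5) 6 5 (by norm_num) (by norm_num) (by norm_num) (by norm_num)
    have e6 : psi (1 - (-1 / 10)) = (11 / 10) * (Real.log (11 : ℕ) - Real.log (10 : ℕ)) := psi_val _ (11 / 10) 11 10 (by norm_num) (by norm_num) (by norm_num) (by norm_num)
    have e7 : psi (1 - 0) = 1 * (Real.log (1 : ℕ) - Real.log (1 : ℕ)) := psi_val _ 1 1 1 (by norm_num) (by norm_num) (by norm_num) (by norm_num)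
    have e8 : Real.log ((11 / 10) - (1 / 10)) = Real.log (1 : ℕ) - Real.log (1 : ℕ) := log_val _ 1 1 (by norm_num) (by norm_num) (by norm_num)
    have e9 : Real.log ((11 / 10) - (1 / 5)) = Real.log (9 : ℕ) - Real.log (10 : ℕ) := log_val _ 9 10 (by norm_num) (by norm_num) (by norm_num)
    have e10 : Real.log ((11 / 10) - (2 / 5)) = Real.log (7 : ℕ) - Real.log (10 : ℕ) := log_val _ 7 10 (by norm_num) (by norm_num) (by norm_num)
    have e11 : Real.log ((11 / 10) - (3 / 5)) = Real.log (1 : ℕ) - Real.log (2 : ℕ) := log_val _ 1 2 (by norm_num) (by norm_num) (by norm_num)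
    have e12 : Real.log ((11 / 10) - (4 / 5)) = Real.log (3 : ℕ) - Real.log (10 : ℕ) := log_val _ 3 10 (by norm_num) (by norm_num) (by norm_num)
    have e13 : psi (1 - 1) = 0 := by rw [show (1 - 1 : ℝ) = 0 by norm_num, psi_zero]
    rw [e1, e2, e3, e4, e5, e6, e7, e8, e9, e10, e11, e12, e13]
    have l2 := lgn_2
    have l3 := lgn_3
    have l5 := lgn_5
    have l6 := lgn_6
    have l7 := lgn_7
    have l8 := lgn_8
    have l9 := lgn_9
    have l10 := lgn_10
    have l11 := lgn_11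
    have l21 := lgn_21
    simp only [Nat.cast_ofNat, Nat.cast_one, Real.log_one] at *
    linarith
  · have e1 : Real.log ((11 / 10) - (-1)) = Real.log (21 : ℕ) - Real.log (10 : ℕ) := log_val _ 21 10 (by norm_num) (by norm_num) (by norm_num)
    have e2 : psi ((99 / 40) - (-4 / 5)) = (131 / 40) * (Real.log (131 : ℕ) - Real.log (40 : ℕ)) := psi_val _ (131 / 40) 131 40 (by norm_num) (by norm_num) (by norm_num) (by norm_num)
    have e3 : psi ((99 / 40) - (-3 / 5)) = (123 / 40) * (Real.log (123 : ℕ) - Real.log (40 : ℕ)) := psi_val _ (123 / 40) 123 40 (by norm_num) (by norm_num) (by norm_num) (by norm_num)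
    have e4 : psi ((99 / 40) - (-2 / 5)) = (23 / 8) * (Real.log (23 : ℕ) - Real.log (8 : ℕ)) := psi_val _ (23 / 8) 23 8 (by norm_num) (by norm_num) (by norm_num) (by norm_num)
    have e5 : psi ((99 / 40) - (-1 / 5)) = (107 / 40) * (Real.log (107 : ℕ) - Real.log (40 : ℕ)) := psi_val _ (107 / 40) 107 40 (by norm_num) (by norm_num) (by norm_num) (by norm_num)
    have e6 : psi ((99 / 40) - (-1 / 10)) = (103 / 40) * (Real.log (103 : ℕ) - Real.log (40 : ℕ)) := psi_val _ (103 / 40) 103 40 (by norm_num) (by norm_num) (by norm_num) (by norm_num)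
    have e7 : psi ((99 / 40) - 0) = (99 / 40) * (Real.log (99 : ℕ) - Real.log (40 : ℕ)) := psi_val _ (99 / 40) 99 40 (by norm_num) (by norm_num) (by norm_num) (by norm_num)
    have e8 : Real.log ((11 / 10) - (1 / 10)) = Real.log (1 : ℕ) - Real.log (1 : ℕ) := log_val _ 1 1 (by norm_num) (by norm_num) (by norm_num)
    have e9 : Real.log ((11 / 10) - (1 / 5)) = Real.log (9 : ℕ) - Real.log (10 : ℕ) := log_val _ 9 10 (by norm_num) (by norm_num) (by norm_num)
    have e10 : Real.log ((11 / 10) - (2 / 5)) = Real.log (7 : ℕ) - Real.log (10 : ℕ) := log_val _ 7 10 (by norm_num) (by norm_num) (by norm_num)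
    have e11 : Real.log ((11 / 10) - (3 / 5)) = Real.log (1 : ℕ) - Real.log (2 : ℕ) := log_val _ 1 2 (by norm_num) (by norm_num) (by norm_num)
    have e12 : Real.log ((11 / 10) - (4 / 5)) = Real.log (3 : ℕ) - Real.log (10 : ℕ) := log_val _ 3 10 (by norm_num) (by norm_num) (by norm_num)
    have e13 : psi ((99 / 40) - 1) = (59 / 40) * (Real.log (59 : ℕ) - Real.log (40 : ℕ)) := psi_val _ (59 / 40) 59 40 (by norm_num) (by norm_num) (by norm_num) (by norm_num)
    rw [e1, e2, e3, e4, e5, e6, e7, e8, e9, e10, e11, e12, e13]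
    have l2 := lgn_2
    have l3 := lgn_3
    have l7 := lgn_7
    have l8 := lgn_8
    have l9 := lgn_9
    have l10 := lgn_10
    have l21 := lgn_21
    have l23 := lgn_23
    have l40 := lgn_40
    have l59 := lgn_59
    have l99 := lgn_99
    have l103 := lgn_103
    have l107 := lgn_107
    have l123 := lgn_123
    have l131 := lgn_131
    simp only [Nat.cast_ofNat, Nat.cast_one, Real.log_one] at *
    linarith
end T2.Cert
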