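import Pool.Agent.T2.R8Cert

/-! # T2, R8: `gT ≤ -331/100` on `[1/10, ∞)` and the majorant on `[0, 1/10]` -/

set_option autoImplicit false

namespace T2.Cert

open Pool.Agent.QS2 (psi psi_zero psi_tan aff)

theorem aff_const {p q L x : ℝ} (h : p < q) : aff p q L L x = L := by
  unfold aff
  have : q - p ≠ 0 := by intro h'; linarith
  field_simp
  ring

theorem neg_term {c b x : ℝ} (hc : c ≤ 0) (hx : 0 < x) (hb : b ≤ x) :
    c * psi (x - b) ≤ c * ((x - b) * Real.log x - b) := by
  have h := psi_tan x (x - b) hx (by linarith)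
  have e : x - b - x = -b := by ring
  rw [e] at h
  exact mul_le_mul_of_nonpos_left (by linarith) hc

theorem pos_term {c b x : ℝ} (hc : 0 ≤ c) (hx : 0 < x) (hb : b ≤ 0) :
    c * psi (x - b) ≤ c * ((x - b) * Real.log x - b + b ^ 2 / x) := by
  refine mul_le_mul_of_nonneg_left ?_ hc
  have h0 : 0 < x - b := by linarith
  have h1 : Real.log ((x - b) / x) ≤ (x - b) / x - 1 :=
    Real.log_le_sub_one_of_pos (div_pos h0 hx)
  rw [Real.log_div h0.ne' hx.ne'] at h1
  have h2 : (x - b) / x - 1 = -b / x := by field_simp; ring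
  rw [h2] at h1
  have h3 : (x - b) * Real.log (x - b) ≤ (x - b) * (Real.log x + -b / x) :=
    mul_le_mul_of_nonneg_left (by linarith) h0.le
  have h4 : (x - b) * (Real.log x + -b / x) = (x - b) * Real.log x - b + b ^ 2 / x := by
    field_simp
    ring
  unfold psi
  linarith

theorem gT_tail (x : ℝ) (h : 99 / 40 ≤ x) : gT x ≤ -331 / 100 - x := by
  have hx : 0 < x := by linarith
  have hL : Real.log x ≤ x - 1 := Real.log_le_sub_one_of_pos hx
  have n1 := neg_term (c := -1 / 2) (b := -1) (by norm_num) hx (by linarith)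
  have n2 := neg_term (c := -3 / 2) (b := 1 / 10) (by norm_num) hx (by linarith)
  have n3 := neg_term (c := -9 / 8) (b := 1 / 5) (by norm_num) hx (by linarith)
  have n4 := neg_term (c := -3 / 4) (b := 2 / 5) (by norm_num) hx (by linarith)
  have n5 := neg_term (c := -3 / 8) (b := 3 / 5) (by norm_num) hx (by linarith)
  have n6 := neg_term (c := -3 / 4) (b := 4 / 5) (by norm_num) hx (by linarith)
  have p1 := pos_term (c := 1 / 4) (b := -4 / 5) (by norm_num) hx (by norm_num)
  have p2 := pos_term (c := 1 / 8) (b := -3 / 5) (by norm_num) hx (by norm_num)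
  have p3 := pos_term (c := 1 / 4) (b := -2 / 5) (by norm_num) hx (by norm_num)
  have p4 := pos_term (c := 3 / 8) (b := -1 / 5) (by norm_num) hx (by norm_num)
  have p5 := pos_term (c := 1 / 2) (b := -1 / 10) (by norm_num) hx (by norm_num)
  have p6 := pos_term (c := 3) (b := 0) (by norm_num) hx (by norm_num)
  have p7 : 1 / 2 * psi (x - 1) ≤ 1 / 2 * ((x - 1) * Real.log x) := by
    refine mul_le_mul_of_nonneg_left ?_ (by norm_num)
    unfold psi
    exact mul_le_mul_of_nonneg_left (Real.log_le_log (by linarith) (by linarith)) (by linarith)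
  have hi : 1 / x ≤ 1 := by
    rw [div_le_one hx]; linarith
  have q1 : (-4 / 5 : ℝ) ^ 2 / x = 16 / 25 * (1 / x) := by ring
  have q2 : (-3 / 5 : ℝ) ^ 2 / x = 9 / 25 * (1 / x) := by ring
  have q3 : (-2 / 5 : ℝ) ^ 2 / x = 4 / 25 * (1 / x) := by ring
  have q4 : (-1 / 5 : ℝ) ^ 2 / x = 1 / 25 * (1 / x) := by ring
  have q5 : (-1 / 10 : ℝ) ^ 2 / x = 1 / 100 * (1 / x) := by ring
  have q6 : (0 : ℝ) ^ 2 / x = 0 := by simp
  rw [q1] at p1; rw [q2] at p2; rw [q3] at p3; rw [q4] at p4; rw [q5] at p5; rw [q6] at p6
  unfold gT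
  have e1 : ((-1) / 2 : ℝ) = -1 / 2 := by norm_num
  nlinarith [n1, n2, n3, n4, n5, n6, p1, p2, p3, p4, p5, p6, p7, hL, hi]

/-- **outside `[0, 1/10]`** -/
theorem gT_out (x : ℝ) (h : 1 / 10 ≤ x) : gT x ≤ -331 / 100 := by
  rcases le_or_gt x (3 / 20) with k0 | k0
  · have t := cellB0 x (by linarith) k0
    rw [aff_const (by norm_num)] at t
    exact t.trans (by norm_num)
  rcases le_or_gt x (1 / 5) with k1 | k1
  · have t := cellB1 x (by linarith) k1
    rw [aff_const (by norm_num)] at t
    exact t.trans (by norm_num)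
  rcases le_or_gt x (11 / 40) with k2 | k2
  · have t := cellB2 x (by linarith) k2
    rw [aff_const (by norm_num)] at t
    exact t.trans (by norm_num)
  rcases le_or_gt x (2 / 5) with k3 | k3
  · have t := cellB3 x (by linarith) k3
    rw [aff_const (by norm_num)] at t
    exact t.trans (by norm_num)
  rcases le_or_gt x (9 / 20) with k4 | k4
  · have t := cellB4 x (by linarith) k4
    rw [aff_const (by norm_num)] at t
    exact t.trans (by norm_num)
  rcases le_or_gt x (19 / 40) with k5 | k5
  · have t := cellB5 x (by linarith) k5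
    rw [aff_const (by norm_num)] at t
    exact t.trans (by norm_num)
  rcases le_or_gt x (11 / 20) with k6 | k6
  · have t := cellB6 x (by linarith) k6
    rw [aff_const (by norm_num)] at t
    exact t.trans (by norm_num)
  rcases le_or_gt x (3 / 5) with k7 | k7
  · have t := cellB7 x (by linarith) k7
    rw [aff_const (by norm_num)] at t
    exact t.trans (by norm_num)
  rcases le_or_gt x (13 / 20) with k8 | k8
  · have t := cellB8 x (by linarith) k8
    rw [aff_const (by norm_num)] at t
    exact t.trans (by norm_num)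
  rcases le_or_gt x (3 / 4) with k9 | k9
  · have t := cellB9 x (by linarith) k9
    rw [aff_const (by norm_num)] at t
    exact t.trans (by norm_num)
  rcases le_or_gt x (4 / 5) with k10 | k10
  · have t := cellB10 x (by linarith) k10
    rw [aff_const (by norm_num)] at t
    exact t.trans (by norm_num)
  rcases le_or_gt x (7 / 8) with k11 | k11
  · have t := cellB11 x (by linarith) k11
    rw [aff_const (by norm_num)] at t
    exact t.trans (by norm_num)
  rcases le_or_gt x 1 with k12 | k12
  · have t := cellB12 x (by linarith) k12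
    rw [aff_const (by norm_num)] at t
    exact t.trans (by norm_num)
  rcases le_or_gt x (99 / 40) with k13 | k13
  · have t := cellB13 x (by linarith) k13
    rw [aff_const (by norm_num)] at t
    exact t.trans (by norm_num)
  have t := gT_tail x (by linarith)
  linarith

end T2.Cert
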