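import Pool.Agent.T2.R7
import Pool.Agent.T2.RDefs

/-! # T2, real side, module R8: definitions of the energy certificate (statements: team-store T2_R8Skel_helper93.lean) -/

set_option autoImplicit false

namespace T2.R8

open Finset Complex

/-- `u log|u| - u` -/
noncomputable def Fu (u : ℝ) : ℝ := u * Real.log u - u

/-- `u² log|u| / 2 - 3u²/4`, `Gu' = Fu` -/
noncomputable def Gu (u : ℝ) : ℝ := u ^ 2 / 2 * Real.log u - 3 / 4 * u ^ 2

/-- off-axis trial point number `j` of the block starting at `a` with density `d` -/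
noncomputable def tp (a d : ℝ) (j : ℕ) : ℂ := ((a + ((j : ℝ) + 1 / 2) / d : ℝ) : ℂ) + Complex.I

/-- `z`, indices `< 40 n` (densities 3, 2, 5/4, 3/4, 1/2 on the cells with edges 0,4n,8n,16n,24n,32n) -/
noncomputable def zN (n i : ℕ) : ℂ :=
  if i < 12 * n then tp 0 3 i
  else if i < 20 * n then tp (4 * n) 2 (i - 12 * n)
  else if i < 30 * n then tp (8 * n) (5 / 4) (i - 20 * n)
  else if i < 36 * n then tp (16 * n) (3 / 4) (i - 30 * n)
  else tp (24 * n) (1 / 2) (i - 36 * n)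

/-- `T0`, indices `< 7 n` (densities 1, 1/2, 1/8 on [0,4n], [4n,8n], [8n,16n]) -/
noncomputable def tN (n i : ℕ) : ℂ :=
  if i < 4 * n then tp 0 1 i
  else if i < 6 * n then tp (4 * n) (1 / 2) (i - 4 * n)
  else tp (8 * n) (1 / 8) (i - 6 * n)

/-- `S0`, indices `< 7 n` (densities 1/8, 1/4, 1/2 on [16n,24n], [24n,32n], [32n,40n]) -/
noncomputable def sN (n i : ℕ) : ℂ :=
  if i < n then tp (16 * n) (1 / 8) i
  else if i < 3 * n then tp (24 * n) (1 / 4) (i - n)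
  else tp (32 * n) (1 / 2) (i - 3 * n)

noncomputable def zT (n : ℕ) (i : Fin (40 * n)) : ℂ := zN n i
noncomputable def tT (n : ℕ) (i : Fin (7 * n)) : ℂ := tN n i
noncomputable def sT (n : ℕ) (i : Fin (7 * n)) : ℂ := sN n i

/-- continuum potential `V - h` (unit `4n`), without the weight `LAM x` -/
noncomputable def gB (x : ℝ) : ℝ :=
  3 * Fu x + 3 / 2 * (Fu (1 - x) + 3 / 4 * Fu (2 - x) + 1 / 2 * Fu (4 - x) + 1 / 4 * Fu (6 - x)
      + 1 / 2 * Fu (8 - x))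
    + 1 / 2 * (Fu (1 + x) + 3 / 4 * Fu (2 + x) + 1 / 2 * Fu (4 + x) + 1 / 4 * Fu (6 + x)
      + 1 / 2 * Fu (8 + x))
    - 1 / 2 * (Fu (10 - x) + Fu (10 + x))

/-- continuum potential `h` (unit `4n`) -/
noncomputable def hB (x : ℝ) : ℝ :=
  1 / 2 * ((Fu (10 - x) + Fu (10 + x)) - (Fu (1 - x) + Fu (1 + x))
    - 3 / 4 * (Fu (2 - x) + Fu (2 + x)) - 1 / 2 * (Fu (4 - x) + Fu (4 + x))
    - 1 / 4 * (Fu (6 - x) + Fu (6 + x)) - 1 / 2 * (Fu (8 - x) + Fu (8 + x)))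

noncomputable def LAM : ℝ := Real.log (100 / 3)

/-- `lam` (unit `4n`) -/
noncomputable def lt : ℝ := -1021 / 100

/-- `log Λ = 40 n log (4 n) + 4 n lt` -/
noncomputable def LL (n : ℕ) : ℝ := Real.exp (40 * n * Real.log (4 * n) + 4 * n * lt)

/-! ### R8a, R8b: potentials (error O(1), trial points are off the axis) -/

/-! ### R8c, R8d: self energies -/

noncomputable def eZ : ℝ :=
  -3 * Gu 1 - 9 / 4 * Gu 2 - 3 / 2 * Gu 4 - 3 / 4 * Gu 6 - 3 / 2 * Gu 8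
    + 3 / 4 * Gu 1 + 1 / 2 * Gu 3 + 1 / 4 * Gu 5 + 1 / 2 * Gu 7
    + 3 / 8 * Gu 2 + 3 / 16 * Gu 4 + 3 / 8 * Gu 6
    + 1 / 8 * Gu 2 + 1 / 4 * Gu 4 + 1 / 8 * Gu 2

/-- jumps of the charge `q`: `Q e` at `e = 1, 2, 4, 6, 8, 10` -/
noncomputable def Qj : Fin 6 → ℝ := ![1, 3 / 4, 1 / 2, 1 / 4, 1 / 2, -1]
noncomputable def Qe : Fin 6 → ℝ := ![1, 2, 4, 6, 8, 10]

noncomputable def eC : ℝ :=
  1 / 4 * ∑ i, ∑ j, Qj i * Qj j * (Gu (Qe i - Qe j) - Gu (Qe i + Qe j))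

/-! ### R8e: the sum of `log H` over the rows -/

noncomputable def eH : ℝ := -1 / 2 * ∑ i, Qj i * (Gu (10 + Qe i) - Gu (10 - Qe i))

/-! ### R8f: cells and the majorant -/

/-- `(g - LAM x - lam)` -/
noncomputable def gL (x : ℝ) : ℝ := gB x - LAM * x - lt

/-- cell `[K/4, K'/4]`: `gL` is below the chord with end values `a, b` -/
def Cell (K K' : ℕ) (a b : ℝ) : Prop :=
  ∀ x : ℝ, (K : ℝ) / 4 ≤ x → x ≤ (K' : ℝ) / 4 →
    gL x ≤ (a * ((K' : ℝ) / 4 - x) + b * (x - (K : ℝ) / 4)) / (((K' : ℝ) - K) / 4)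

/-- positive part at the point `(j + th)/(4n)`, `th ∈ [0,1]` -/
noncomputable def Pos (n : ℕ) (th : ℝ) (j : ℕ) : ℝ := max (4 * n * gL ((j + th) / (4 * n))) 0

/-- `∫_0^10` of the majorant -/
noncomputable def I1 : ℝ := 243 / 100

/-! ### R8g: the numbers -/

/-! ### R8i: hypotheses of R7 -/

/-! ### R8 -/

end T2.R8
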