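import Pool.Agent.T2.R8Defs

/-! # T2, real side, module R8: the level `LC` (helper20's certificate: LAM = 7/2, lam = -331/100, unit c = 40 n) -/

set_option autoImplicit false

namespace T2.R8

/-- `log LC = c log c - (331/100) c`, `c = 40 n` -/
noncomputable def LC (n : ℕ) : ℝ := Real.exp (40 * n * Real.log (40 * n) - 331 / 100 * (40 * n))

theorem LC_pos (n : ℕ) : 0 < LC n := Real.exp_pos _

theorem log_LC (n : ℕ) :
    Real.log (LC n) = 40 * n * Real.log (40 * n) - 331 / 100 * (40 * n) := by
  unfold LC; rw [Real.log_exp]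

end T2.R8
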