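import Pool.Agent.T2.R8CertB

/-!
# T2, module R8: the excess function of the certificate (helper20)

`exc` is the convex, decreasing, piecewise linear majorant of `(gT + 331/100)^+` given by the cells:
`gT x ≤ -331/100 + exc x` for `x ≥ 0`, `∑_{j<J} exc ((j+1)/c) ≤ c * (339/16000)`.
-/

set_option autoImplicit false

namespace T2.Cert

open Finset
open Pool.Agent.QS2 (aff)

/-- the excess function -/
noncomputable def exc (x : ℝ) : ℝ :=
  4 / 5 * max 0 (1 / 10 - x) + 108 / 25 * max 0 (3 / 40 - x) + 69 / 25 * max 0 (1 / 20 - x)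
    + 127 / 25 * max 0 (1 / 40 - x)

theorem exc_nonneg (x : ℝ) : 0 ≤ exc x := by
  unfold exc
  have h1 := le_max_left 0 (1 / 10 - x)
  have h2 := le_max_left 0 (3 / 40 - x)
  have h3 := le_max_left 0 (1 / 20 - x)
  have h4 := le_max_left 0 (1 / 40 - x)
  positivity

theorem exc_antitone : Antitone exc := by
  intro x y h
  have m : ∀ b : ℝ, max 0 (b - y) ≤ max 0 (b - x) := fun b => max_le_max le_rfl (by linarith)
  have h1 := m (1 / 10)
  have h2 := m (3 / 40)
  have h3 := m (1 / 20)
  have h4 := m (1 / 40)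
  unfold exc
  linarith

theorem exc_zero : exc 0 = 669 / 1000 := by
  unfold exc
  rw [max_eq_right (by norm_num), max_eq_right (by norm_num), max_eq_right (by norm_num),
    max_eq_right (by norm_num)]
  norm_num

theorem exc_le {x : ℝ} (h : 0 ≤ x) : exc x ≤ 669 / 1000 := exc_zero ▸ exc_antitone h

theorem gT_le_exc {x : ℝ} (h0 : 0 ≤ x) : gT x ≤ -331 / 100 + exc x := by
  rcases le_or_gt x (1 / 40) with h | h
  · refine (cellA0 x h0 h).trans ?_
    unfold exc aff
    rw [max_eq_right (by linarith), max_eq_right (by linarith), max_eq_right (by linarith),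
      max_eq_right (by linarith)]
    norm_num
    linarith
  rcases le_or_gt x (1 / 20) with h' | h'
  · refine (cellA1 x h.le h').trans ?_
    unfold exc aff
    rw [max_eq_right (by linarith), max_eq_right (by linarith), max_eq_right (by linarith),
      max_eq_left (by linarith)]
    norm_num
    linarith
  rcases le_or_gt x (3 / 40) with h'' | h''
  · refine (cellA2 x h'.le h'').trans ?_
    unfold exc aff
    rw [max_eq_right (by linarith), max_eq_right (by linarith), max_eq_left (by linarith),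
      max_eq_left (by linarith)]
    norm_num
    linarith
  rcases le_or_gt x (1 / 10) with h3 | h3
  · refine (cellA3 x h''.le h3).trans ?_
    unfold exc aff
    rw [max_eq_right (by linarith), max_eq_left (by linarith), max_eq_left (by linarith),
      max_eq_left (by linarith)]
    norm_num
    linarith
  · have := gT_out x h3.le
    have := exc_nonneg x
    linarith

/-- one hinge function: `∑_{j<J} (b - (j+1)/c)^+ ≤ c b^2 / 2` -/
theorem sum_hinge {b c : ℝ} (hb : 0 ≤ b) (hc : 0 < c) (J : ℕ) :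
    ∑ j ∈ range J, max 0 (b - ((j : ℝ) + 1) / c) ≤
      c / 2 * (b ^ 2 - max 0 (b - (J : ℝ) / c) ^ 2) := by
  induction J with
  | zero => simp [max_eq_right hb]
  | succ J ih =>
    rw [sum_range_succ]
    refine (add_le_add_left ih _).trans ?_
    push_cast
    have key : max 0 (b - ((J : ℝ) + 1) / c) ≤
        c / 2 * (max 0 (b - (J : ℝ) / c) ^ 2 - max 0 (b - ((J : ℝ) + 1) / c) ^ 2) := by
      have e : b - (J : ℝ) / c = (b - ((J : ℝ) + 1) / c) + 1 / c := by
        field_simp; ring
      rw [e]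
      generalize b - ((J : ℝ) + 1) / c = u
      have hc' : 0 < 1 / c := by positivity
      rcases le_or_gt u 0 with hu | hu
      · rw [max_eq_left hu]
        have : 0 ≤ max 0 (u + 1 / c) ^ 2 := by positivity
        have : 0 ≤ c / 2 * (max 0 (u + 1 / c) ^ 2) := by positivity
        simpa using this
      · rw [max_eq_right hu.le, max_eq_right (by linarith)]
        have : c / 2 * ((u + 1 / c) ^ 2 - u ^ 2) = u + 1 / (2 * c) := by
          field_simp; ring
        rw [this]
        have : 0 < 1 / (2 * c) := by positivity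
        linarith
    linarith

theorem sum_hinge' {b c : ℝ} (hb : 0 ≤ b) (hc : 0 < c) (J : ℕ) :
    ∑ j ∈ range J, max 0 (b - ((j : ℝ) + 1) / c) ≤ c / 2 * b ^ 2 := by
  refine (sum_hinge hb hc J).trans ?_
  have : 0 ≤ c / 2 * max 0 (b - (J : ℝ) / c) ^ 2 := by positivity
  nlinarith

theorem sum_exc {c : ℝ} (hc : 0 < c) (J : ℕ) :
    ∑ j ∈ range J, exc (((j : ℝ) + 1) / c) ≤ c * (339 / 16000) := by
  unfold exc
  rw [sum_add_distrib, sum_add_distrib, sum_add_distrib, ← mul_sum, ← mul_sum, ← mul_sum, ← mul_sum]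
  have h1 := sum_hinge' (b := 1 / 10) (by norm_num) hc J
  have h2 := sum_hinge' (b := 3 / 40) (by norm_num) hc J
  have h3 := sum_hinge' (b := 1 / 20) (by norm_num) hc J
  have h4 := sum_hinge' (b := 1 / 40) (by norm_num) hc J
  nlinarith

/-- the sum over the poles `j + 1/2` -/
theorem sum_exc_half {c : ℝ} (hc : 0 < c) (J : ℕ) :
    ∑ j ∈ range J, exc (((j : ℝ) + 1 / 2) / c) ≤ c * (339 / 16000) + 669 / 1000 := by
  rcases J with _ | J
  · simp; positivity
  · rw [sum_range_succ']
    have h0 : exc ((((0 : ℕ) : ℝ) + 1 / 2) / c) ≤ 669 / 1000 := exc_le (by positivity)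
    have h1 : ∑ j ∈ range J, exc ((((j + 1 : ℕ) : ℝ) + 1 / 2) / c) ≤
        ∑ j ∈ range J, exc (((j : ℝ) + 1) / c) := by
      refine sum_le_sum fun j _ => exc_antitone ?_
      push_cast
      exact div_le_div_of_nonneg_right (by linarith) hc.le
    have h2 := sum_exc hc J
    linarith

/-! ### sums of `log (1 + K exp (c (gT + 331/100)))` -/

theorem log_one_add_exp_le {K t : ℝ} (hK : 0 ≤ K) :
    Real.log (1 + K * Real.exp t) ≤ Real.log (1 + K) + max 0 t := by
  have h1 : 1 + K * Real.exp t ≤ (1 + K) * Real.exp (max 0 t) := by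
    have a : Real.exp t ≤ Real.exp (max 0 t) := Real.exp_le_exp.2 (le_max_right _ _)
    have b : 1 ≤ Real.exp (max 0 t) := Real.one_le_exp (le_max_left _ _)
    nlinarith
  have h0 : 0 < 1 + K * Real.exp t := by positivity
  calc Real.log (1 + K * Real.exp t) ≤ Real.log ((1 + K) * Real.exp (max 0 t)) :=
        Real.log_le_log h0 h1
    _ = Real.log (1 + K) + max 0 t := by
        rw [Real.log_mul (by positivity) (Real.exp_pos _).ne', Real.log_exp]

theorem pos_part_le {c x : ℝ} (hc : 0 < c) (hx : 0 ≤ x) :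
    max 0 (c * (gT x + 331 / 100)) ≤ c * exc x := by
  refine max_le (mul_nonneg hc.le (exc_nonneg x)) ?_
  refine mul_le_mul_of_nonneg_left ?_ hc.le
  have := gT_le_exc hx
  linarith

/-- **nodes** -/
theorem sum_log_node {K c : ℝ} (hK : 0 ≤ K) (hc : 0 < c) {m : ℕ} (e : Fin m → ℕ)
    (he : Function.Injective e) (h1 : ∀ i, 1 ≤ e i) :
    ∑ i, Real.log (1 + K * Real.exp (c * (gT ((e i : ℝ) / c) + 331 / 100))) ≤
      m * Real.log (1 + K) + c ^ 2 * (339 / 16000) := by
  have h2 : ∑ i, Real.log (1 + K * Real.exp (c * (gT ((e i : ℝ) / c) + 331 / 100))) ≤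
      ∑ i : Fin m, (Real.log (1 + K) + c * exc ((e i : ℝ) / c)) := by
    refine sum_le_sum fun i _ => (log_one_add_exp_le hK).trans ?_
    have := pos_part_le hc (x := (e i : ℝ) / c) (by positivity)
    linarith
  refine h2.trans ?_
  rw [sum_add_distrib, sum_const, card_univ, Fintype.card_fin, nsmul_eq_mul, ← mul_sum]
  have h3 : ∑ i, exc ((e i : ℝ) / c) ≤ c * (339 / 16000) := by
    obtain ⟨J, hJ⟩ : ∃ J, ∀ i, e i ≤ J :=
      ⟨∑ i, e i, fun i => single_le_sum (f := e) (fun _ _ => Nat.zero_le _) (mem_univ i)⟩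
    refine le_trans ?_ (sum_exc hc J)
    have hinj : Set.InjOn (fun i => e i - 1) (univ : Finset (Fin m)) := by
      intro a _ b _ h
      have ha := h1 a
      have hb := h1 b
      have : e a - 1 = e b - 1 := h
      exact he (by omega)
    have h4 : ∑ i, exc ((e i : ℝ) / c) =
        ∑ j ∈ univ.image (fun i => e i - 1), exc (((j : ℝ) + 1) / c) := by
      rw [sum_image hinj]
      refine sum_congr rfl fun i _ => ?_
      rw [Nat.cast_sub (h1 i)]
      congr 2
      push_cast; ring
    rw [h4]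
    refine sum_le_sum_of_subset_of_nonneg ?_ fun _ _ _ => exc_nonneg _
    intro j hj
    rw [mem_image] at hj
    obtain ⟨i, _, rfl⟩ := hj
    have := h1 i
    have := hJ i
    rw [mem_range]
    omega
  nlinarith

theorem sum_tail (J : ℕ) : ∑ j ∈ range J, ((j : ℝ) + 1) * Real.exp (-((j : ℝ) + 1 / 2)) ≤ 4 := by
  have he : Real.exp (-1) ≤ 37 / 100 := by
    rw [Real.exp_neg]
    have h := Real.exp_one_gt_d9
    rw [inv_le_comm₀ (Real.exp_pos 1) (by norm_num)]
    linarith
  have h1 : ∀ j : ℕ, ((j : ℝ) + 1) * Real.exp (-((j : ℝ) + 1 / 2)) ≤ (74 / 100) ^ j := by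
    intro j
    have a : (j : ℝ) + 1 ≤ 2 ^ j := by exact_mod_cast Nat.lt_two_pow_self
    have b : Real.exp (-((j : ℝ) + 1 / 2)) ≤ (37 / 100) ^ j := by
      calc Real.exp (-((j : ℝ) + 1 / 2)) ≤ Real.exp ((j : ℝ) * (-1)) :=
            Real.exp_le_exp.2 (by linarith)
        _ = Real.exp (-1) ^ j := by rw [Real.exp_nat_mul]
        _ ≤ (37 / 100) ^ j := pow_le_pow_left₀ (Real.exp_pos _).le he j
    calc ((j : ℝ) + 1) * Real.exp (-((j : ℝ) + 1 / 2)) ≤ 2 ^ j * (37 / 100) ^ j :=
          mul_le_mul a b (Real.exp_pos _).le (by positivity)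
      _ = (74 / 100) ^ j := by rw [← mul_pow]; norm_num
  refine (sum_le_sum fun j _ => h1 j).trans ?_
  have h2 : ∑ j ∈ range J, ((74 : ℝ) / 100) ^ j ≤ (1 - 74 / 100)⁻¹ := by
    rw [← tsum_geometric_of_lt_one (by norm_num) (by norm_num)]
    exact (summable_geometric_of_lt_one (by norm_num) (by norm_num)).sum_le_tsum _
      (fun _ _ => by positivity)
  refine h2.trans ?_
  norm_num

/-- **poles** -/
theorem sum_log_pole {K c : ℝ} (hK : 0 ≤ K) (hc : 1 ≤ c) (J : ℕ) :
    ∑ j ∈ range J, Real.log (1 + K * ((j : ℝ) + 1) *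
        Real.exp (c * (gT (((j : ℝ) + 1 / 2) / c) + 331 / 100))) ≤
      c ^ 2 * (339 / 16000) + c * (669 / 1000) + 4 * K +
        (3 * c + 1) * Real.log (1 + K * (3 * c + 1)) := by
  have hc0 : 0 < c := by linarith
  set L := Real.log (1 + K * (3 * c + 1)) with hL
  have hL0 : 0 ≤ L := Real.log_nonneg (by nlinarith [mul_nonneg hK (by linarith : 0 ≤ 3 * c + 1)])
  have h1 : ∀ j : ℕ, Real.log (1 + K * ((j : ℝ) + 1) *
        Real.exp (c * (gT (((j : ℝ) + 1 / 2) / c) + 331 / 100))) ≤
      c * exc (((j : ℝ) + 1 / 2) / c) + K * (((j : ℝ) + 1) * Real.exp (-((j : ℝ) + 1 / 2)))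
        + (if (j : ℝ) < 3 * c then L else 0) := by
    intro j
    have hx : 0 ≤ ((j : ℝ) + 1 / 2) / c := by positivity
    have hj : 0 ≤ K * ((j : ℝ) + 1) := by positivity
    rcases lt_or_ge (j : ℝ) (3 * c) with h | h
    · rw [if_pos h]
      have a := log_one_add_exp_le (t := c * (gT (((j : ℝ) + 1 / 2) / c) + 331 / 100)) hj
      have b := pos_part_le hc0 hx
      have d : Real.log (1 + K * ((j : ℝ) + 1)) ≤ L := by
        refine Real.log_le_log (by positivity) ?_
        have : K * ((j : ℝ) + 1) ≤ K * (3 * c + 1) := mul_le_mul_of_nonneg_left (by linarith) hK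
        linarith
      have f : 0 ≤ K * (((j : ℝ) + 1) * Real.exp (-((j : ℝ) + 1 / 2))) := by positivity
      linarith
    · rw [if_neg (not_lt.2 h)]
      have hx' : 99 / 40 ≤ ((j : ℝ) + 1 / 2) / c := by
        rw [le_div_iff₀ hc0]; nlinarith
      have a := gT_tail _ hx'
      have b : c * (gT (((j : ℝ) + 1 / 2) / c) + 331 / 100) ≤ -((j : ℝ) + 1 / 2) := by
        have : c * (gT (((j : ℝ) + 1 / 2) / c) + 331 / 100) ≤ c * (-(((j : ℝ) + 1 / 2) / c)) :=
          mul_le_mul_of_nonneg_left (by linarith) hc0.le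
        refine this.trans (le_of_eq ?_)
        field_simp
      have d := Real.log_le_sub_one_of_pos (x := 1 + K * ((j : ℝ) + 1) *
        Real.exp (c * (gT (((j : ℝ) + 1 / 2) / c) + 331 / 100))) (by positivity)
      have f : K * ((j : ℝ) + 1) * Real.exp (c * (gT (((j : ℝ) + 1 / 2) / c) + 331 / 100)) ≤
          K * ((j : ℝ) + 1) * Real.exp (-((j : ℝ) + 1 / 2)) :=
        mul_le_mul_of_nonneg_left (Real.exp_le_exp.2 b) hj
      have g : 0 ≤ c * exc (((j : ℝ) + 1 / 2) / c) := mul_nonneg hc0.le (exc_nonneg _)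
      linarith
  refine (sum_le_sum fun j _ => h1 j).trans ?_
  rw [sum_add_distrib, sum_add_distrib, ← mul_sum, ← mul_sum]
  have e1 := sum_exc_half hc0 J
  have e2 := sum_tail J
  have e3 : ∑ j ∈ range J, (if (j : ℝ) < 3 * c then L else 0) ≤ (3 * c + 1) * L := by
    rw [← sum_filter, sum_const, nsmul_eq_mul]
    refine mul_le_mul_of_nonneg_right ?_ hL0
    have hsub : (range J).filter (fun j : ℕ => (j : ℝ) < 3 * c) ⊆ range (⌊3 * c⌋₊ + 1) := by
      intro j hj
      rw [mem_filter] at hj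
      rw [mem_range]
      have := Nat.le_floor hj.2.le
      omega
    have h5 := card_le_card hsub
    rw [card_range] at h5
    have h6 : ((⌊3 * c⌋₊ : ℕ) : ℝ) ≤ 3 * c := Nat.floor_le (by positivity)
    have h7 : (((range J).filter (fun j : ℕ => (j : ℝ) < 3 * c)).card : ℝ) ≤ (⌊3 * c⌋₊ : ℝ) + 1 := by
      exact_mod_cast h5
    linarith
  have e4 : c * ∑ j ∈ range J, exc (((j : ℝ) + 1 / 2) / c) ≤ c * (c * (339 / 16000) + 669 / 1000) :=
    mul_le_mul_of_nonneg_left e1 hc0.le
  have e5 : K * ∑ j ∈ range J, ((j : ℝ) + 1) * Real.exp (-((j : ℝ) + 1 / 2)) ≤ K * 4 :=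
    mul_le_mul_of_nonneg_left e2 hK
  nlinarith

end T2.Cert
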