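import Pool.Agent.T2.R8Sum
import Pool.Agent.T2.R8Pot

/-!
# T2, R8: the sums over the nodes and the poles, final form (helper20)
-/

set_option autoImplicit false

namespace T2.R8

open Finset Complex

theorem nodes_C (W : ℝ) (hW : 1 ≤ W) : ∃ C : ℝ, ∀ n : ℕ, 1 ≤ n →
    ∀ N : Fin (40 * n) → ℕ, Function.Injective N → (∀ i, 2 ≤ N i ∧ N i ≤ 40 * n + 12) →
    ∑ i, Real.log (1 + W * (3 / 100) ^ (N i) * gTr (zT n) (sT n) (tT n) (N i) / LC n) ≤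
      (40 * n) ^ 2 * (339 / 16000) + C * n * Real.log (n + 1) := by
  obtain ⟨C₀, hg⟩ := log_gTr
  exact nodes_of hg gTr_pos W hW

theorem poles_C (W : ℝ) (hW : 1 ≤ W) : ∃ C : ℝ, ∀ n : ℕ, 1 ≤ n → ∀ J : ℕ,
    ∀ s : Fin J × Bool → ℂ, (∀ p, (s p).re = p.1 + 1 / 2 ∧ |(s p).im| ≤ 1 / 4) →
    ∑ p : Fin J × Bool,
      Real.log (1 + W * ((p.1 : ℝ) + 1) * (3 / 100) ^ (p.1 : ℕ) *
        gTr (zT n) (sT n) (tT n) (s p) / LC n) ≤
      2 * ((40 * n) ^ 2 * (339 / 16000)) + C * n * Real.log (n + 1) := by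
  obtain ⟨C₀, hg⟩ := log_gTr
  exact poles_of hg gTr_pos W hW

end T2.R8
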