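import Pool.Agent.QS2.CertReal

/-!
# T2, R8: the numerical value of the energy certificate

`G2 u = u^2 log|u| / 2 - 3 u^2 / 4` (second primitive of `log|u|`), the jumps of the step density
`3, 2, 5/4, 3/4, 1/2` on `0, 1/10, 1/5, 2/5, 3/5, 4/5` are `3, -1, -3/4, -1/2, -1/4, -1/2`.
`zzE = IntInt log|x-y|`, `zpE = IntInt log(x+y)`.
-/

set_option autoImplicit false

namespace T2.Cert

open Pool.Agent.QS2 (lgn_2 lgn_3 lgn_5 lgn_7)

/-- second primitive of `log |u|` -/
noncomputable def G2 (u : ℝ) : ℝ := u ^ 2 * Real.log u / 2 - 3 / 4 * u ^ 2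

theorem G2_zero : G2 0 = 0 := by simp [G2]

theorem G2_neg (u : ℝ) : G2 (-u) = G2 u := by simp [G2]

/-- edges -/
noncomputable def edge : Fin 6 → ℝ := ![0, 1 / 10, 1 / 5, 2 / 5, 3 / 5, 4 / 5]

/-- jumps of the density -/
noncomputable def jump : Fin 6 → ℝ := ![3, -1, -3 / 4, -1 / 2, -1 / 4, -1 / 2]

/-- `IntInt log|x-y| dzeta dzeta` -/
noncomputable def zzE : ℝ := -∑ i, ∑ j, jump i * jump j * G2 (edge i - edge j)

/-- `IntInt log(x+y) dzeta dzeta` -/
noncomputable def zpE : ℝ := ∑ i, ∑ j, jump i * jump j * G2 (edge i + edge j)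

theorem log_q (a b : ℕ) (ha : 0 < a) (hb : 0 < b) :
    Real.log ((a : ℝ) / b) = Real.log a - Real.log b :=
  Real.log_div (by exact_mod_cast ha.ne') (by exact_mod_cast hb.ne')

theorem log10 : Real.log 10 = Real.log 2 + Real.log 5 := by
  rw [← Real.log_mul (by norm_num) (by norm_num)]; norm_num

theorem log4 : Real.log 4 = 2 * Real.log 2 := by
  rw [show (4 : ℝ) = 2 ^ 2 by norm_num, Real.log_pow]; push_cast; ring

theorem log8 : Real.log 8 = 3 * Real.log 2 := by
  rw [show (8 : ℝ) = 2 ^ 3 by norm_num, Real.log_pow]; push_cast; ring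

theorem log6 : Real.log 6 = Real.log 2 + Real.log 3 := by
  rw [← Real.log_mul (by norm_num) (by norm_num)]; norm_num

theorem log9 : Real.log 9 = 2 * Real.log 3 := by
  rw [show (9 : ℝ) = 3 ^ 2 by norm_num, Real.log_pow]; push_cast; ring

theorem l01 : Real.log (1 / 10) = -(Real.log 2 + Real.log 5) := by
  rw [Real.log_div (by norm_num) (by norm_num), Real.log_one, log10]; ring
theorem l02 : Real.log (1 / 5) = -Real.log 5 := by
  rw [Real.log_div (by norm_num) (by norm_num), Real.log_one]; ring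
theorem l03 : Real.log (3 / 10) = Real.log 3 - (Real.log 2 + Real.log 5) := by
  rw [Real.log_div (by norm_num) (by norm_num), log10]
theorem l04 : Real.log (2 / 5) = Real.log 2 - Real.log 5 :=
  Real.log_div (by norm_num) (by norm_num)
theorem l05 : Real.log (1 / 2) = -Real.log 2 := by
  rw [Real.log_div (by norm_num) (by norm_num), Real.log_one]; ring
theorem l06 : Real.log (3 / 5) = Real.log 3 - Real.log 5 :=
  Real.log_div (by norm_num) (by norm_num)
theorem l07 : Real.log (7 / 10) = Real.log 7 - (Real.log 2 + Real.log 5) := by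
  rw [Real.log_div (by norm_num) (by norm_num), log10]
theorem l08 : Real.log (4 / 5) = 2 * Real.log 2 - Real.log 5 := by
  rw [Real.log_div (by norm_num) (by norm_num), log4]
theorem l09 : Real.log (9 / 10) = 2 * Real.log 3 - (Real.log 2 + Real.log 5) := by
  rw [Real.log_div (by norm_num) (by norm_num), log10, log9]
theorem l12 : Real.log (6 / 5) = Real.log 2 + Real.log 3 - Real.log 5 := by
  rw [Real.log_div (by norm_num) (by norm_num), log6]
theorem l14 : Real.log (7 / 5) = Real.log 7 - Real.log 5 :=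
  Real.log_div (by norm_num) (by norm_num)
theorem l16 : Real.log (8 / 5) = 3 * Real.log 2 - Real.log 5 := by
  rw [Real.log_div (by norm_num) (by norm_num), log8]

theorem zzE_eq : zzE = 121 / 50 * Real.log 2 + 9 / 100 * Real.log 3 - 17 / 16 * Real.log 5 -
    49 / 200 * Real.log 7 - 3 / 2 := by
  have n (u : ℝ) : G2 (-u) = G2 u := G2_neg u
  have e : zzE = -2 * ((-9 / 4) * G2 (1 / 10) + (-13 / 8) * G2 (1 / 5) + (1 / 2) * G2 (3 / 10) +
      (-17 / 16) * G2 (2 / 5) + (1 / 4) * G2 (1 / 2) + (-3 / 8) * G2 (3 / 5) +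
      (1 / 2) * G2 (7 / 10) + (-3 / 2) * G2 (4 / 5)) := by
    have h0 : G2 (0 - 0) = 0 := by simp [G2]
    have z : ∀ u : ℝ, G2 (u - u) = 0 := by intro u; simp [G2]
    have a1 : ∀ a b : ℝ, G2 (a - b) = G2 (b - a) := by
      intro a b; rw [← n (b - a)]; congr 1; ring
    simp only [zzE, Fin.sum_univ_succ, edge, jump, Finset.univ_eq_empty, Finset.sum_empty,
      Matrix.cons_val_zero, Matrix.cons_val_succ, Fin.isValue]
    norm_num [G2_zero, n]
    ring
  rw [e]
  simp only [G2, l01, l02, l03, l04, l05, l06, l07, l08]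
  ring


theorem zpE_eq : zpE = -(26 / 25) * Real.log 2 + 459 / 400 * Real.log 3 - 3 / 8 * Real.log 5 +
    147 / 400 * Real.log 7 - 3 / 2 := by
  have e : zpE = -6 * G2 (1 / 10) - (7 / 2) * G2 (1 / 5) + (3 / 2) * G2 (3 / 10) -
      (39 / 16) * G2 (2 / 5) + 1 * G2 (1 / 2) - (3 / 4) * G2 (3 / 5) + (1 / 2) * G2 (7 / 10) -
      (19 / 8) * G2 (4 / 5) + 1 * G2 (9 / 10) + 1 * G2 1 + (9 / 16) * G2 (6 / 5) +
      (1 / 4) * G2 (7 / 5) + (1 / 4) * G2 (8 / 5) := by
    simp only [zpE, Fin.sum_univ_succ, edge, jump, Finset.univ_eq_empty, Finset.sum_empty,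
      Matrix.cons_val_zero, Matrix.cons_val_succ, Fin.isValue]
    norm_num [G2_zero]
    ring
  rw [e]
  simp only [G2, l01, l02, l03, l04, l05, l06, l07, l08, l09, l12, l14, l16, Real.log_one]
  ring

/-- the constant of the certificate:
`(1/4) N(Kd+Kp)N - (3/4) zeta Kd zeta - (1/4) zeta Kp zeta` -/
noncomputable def baseE : ℝ := 1 / 4 * (2 * Real.log 2 - 3) - 3 / 4 * zzE - 1 / 4 * zpE

theorem baseE_le : baseE ≤ 12416 / 10000 := by
  obtain ⟨a2, b2⟩ := lgn_2
  obtain ⟨a3, b3⟩ := lgn_3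
  obtain ⟨a5, b5⟩ := lgn_5
  obtain ⟨a7, b7⟩ := lgn_7
  rw [baseE, zzE_eq, zpE_eq]
  linarith

theorem baseE_ge : 12415 / 10000 ≤ baseE := by
  obtain ⟨a2, b2⟩ := lgn_2
  obtain ⟨a3, b3⟩ := lgn_3
  obtain ⟨a5, b5⟩ := lgn_5
  obtain ⟨a7, b7⟩ := lgn_7
  rw [baseE, zzE_eq, zpE_eq]
  linarith

/-- the final number: twice (`base + lam + 3 * excess + 3/4`) is at most `-2.5096` -/
theorem final_le : 2 * (baseE + (-331 / 100) + 3 * (339 / 16000) + 3 / 4) ≤ -(25096 / 10000) := by
  have h := baseE_le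
  linarith

end T2.Cert
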