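import Pool.Agent.T2.R8Defs
import Pool.Agent.QS2.CertReal

/-!
# T2, R8: the final number (helper20)
-/

set_option autoImplicit false

namespace T2.R8

open Finset
open Pool.Agent.QS2 (lgn_2 lgn_3 lgn_5 lgn_7)

theorem Gu_neg' (u : ℝ) : Gu (-u) = Gu u := by
  unfold Gu; rw [Real.log_neg_eq_log]; ring

theorem Gu_zero' : Gu 0 = 0 := by simp [Gu]

theorem eC_eq : eC = 3 / 8 * Gu 1 - 3 / 16 * Gu 2 - 1 / 8 * Gu 3 - 3 / 64 * Gu 4 - 1 / 8 * Gu 5
    - 1 / 4 * Gu 6 + 1 / 8 * Gu 7 - 17 / 32 * Gu 8 - 3 / 4 * Gu 9 - 1 / 4 * Gu 10 + 1 / 2 * Gu 11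
    + 15 / 64 * Gu 12 + 3 / 16 * Gu 14 + 1 / 16 * Gu 16 + 1 / 4 * Gu 18 - 1 / 4 * Gu 20 := by
  simp only [eC, Qj, Qe, Fin.sum_univ_succ, Finset.univ_eq_empty, Finset.sum_empty,
      Matrix.cons_val_zero, Matrix.cons_val_succ, Fin.isValue]
  norm_num [Gu_zero', Gu_neg']
  ring

theorem eH_eq : eH = 1 / 4 * Gu 2 + 1 / 8 * Gu 4 + 1 / 4 * Gu 6 + 3 / 8 * Gu 8 + 1 / 2 * Gu 9
    - 1 / 2 * Gu 11 - 3 / 8 * Gu 12 - 1 / 4 * Gu 14 - 1 / 8 * Gu 16 - 1 / 4 * Gu 18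
    + 1 / 2 * Gu 20 := by
  simp only [eH, Qj, Qe, Fin.sum_univ_succ, Finset.univ_eq_empty, Finset.sum_empty,
      Matrix.cons_val_zero, Matrix.cons_val_succ, Fin.isValue]
  norm_num [Gu_zero', Gu_neg']
  ring

theorem num_C : 16 * (eZ + eC + eH) + 800 * Real.log 10 ≤ 19879 / 10 := by
  obtain ⟨a2, b2⟩ := lgn_2
  obtain ⟨a3, b3⟩ := lgn_3
  obtain ⟨a5, b5⟩ := lgn_5
  obtain ⟨a7, b7⟩ := lgn_7
  have l4 : Real.log 4 = 2 * Real.log 2 := by
    rw [show (4 : ℝ) = 2 ^ 2 by norm_num, Real.log_pow]; push_cast; ring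
  have l6 : Real.log 6 = Real.log 2 + Real.log 3 := by
    rw [← Real.log_mul (by norm_num) (by norm_num)]; norm_num
  have l8 : Real.log 8 = 3 * Real.log 2 := by
    rw [show (8 : ℝ) = 2 ^ 3 by norm_num, Real.log_pow]; push_cast; ring
  have l9 : Real.log 9 = 2 * Real.log 3 := by
    rw [show (9 : ℝ) = 3 ^ 2 by norm_num, Real.log_pow]; push_cast; ring
  have l10 : Real.log 10 = Real.log 2 + Real.log 5 := by
    rw [← Real.log_mul (by norm_num) (by norm_num)]; norm_num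
  have l12 : Real.log 12 = 2 * Real.log 2 + Real.log 3 := by
    rw [← l4, ← Real.log_mul (by norm_num) (by norm_num)]; norm_num
  have l14 : Real.log 14 = Real.log 2 + Real.log 7 := by
    rw [← Real.log_mul (by norm_num) (by norm_num)]; norm_num
  have l16 : Real.log 16 = 4 * Real.log 2 := by
    rw [show (16 : ℝ) = 2 ^ 4 by norm_num, Real.log_pow]; push_cast; ring
  have l18 : Real.log 18 = Real.log 2 + 2 * Real.log 3 := by
    rw [← l9, ← Real.log_mul (by norm_num) (by norm_num)]; norm_num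
  have l20 : Real.log 20 = 2 * Real.log 2 + Real.log 5 := by
    rw [← l4, ← Real.log_mul (by norm_num) (by norm_num)]; norm_num
  rw [eC_eq, eH_eq]
  simp only [eZ, Gu, Real.log_one, l4, l6, l8, l9, l10, l12, l14, l16, l18, l20]
  linarith

end T2.R8
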