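import Mathlib

/-!
# T2, real side, R8b: midpoint sums of `u log |u| - u`
-/

set_option autoImplicit false

namespace T2

open Finset

private theorem f_pos {u v R : ℝ} (hv : 0 ≤ v) (huv : v ≤ u) (h4 : u - v ≤ 4) (hu : u ≤ R) (hR : 2 ≤ R) :
    |u * Real.log u - v * Real.log v| ≤ 4 * Real.log R + 5 := by
  have hlR : 0 ≤ Real.log R := Real.log_nonneg (by linarith)
  -- `t log t ≥ -1` for `t ≥ 0`
  have hm1 : ∀ t : ℝ, 0 ≤ t → -1 ≤ t * Real.log t := by
    intro t ht
    rcases eq_or_lt_of_le ht with h | h
    · rw [← h]; simp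
    · have h1 := Real.one_sub_inv_le_log_of_pos h
      have h2 := mul_le_mul_of_nonneg_left h1 h.le
      have h3 : t * (1 - t⁻¹) = t - 1 := by
        field_simp
      rw [h3] at h2
      linarith
  rcases eq_or_lt_of_le (hv.trans huv) with h0 | h0
  · have hv0 : v = 0 := by linarith
    rw [← h0, hv0]
    simp
    linarith
  rw [abs_le]
  constructor
  · rcases le_or_gt v 1 with h1 | h1
    · have h2 : v * Real.log v ≤ 0 := mul_nonpos_of_nonneg_of_nonpos hv (Real.log_nonpos hv h1)
      have h3 := hm1 u h0.le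
      linarith
    · have h2 : Real.log v ≤ Real.log u := Real.log_le_log (by linarith) huv
      have h3 : 0 ≤ Real.log v := Real.log_nonneg h1.le
      have h4 : v * Real.log v ≤ u * Real.log u := by
        apply mul_le_mul huv h2 h3 h0.le
      linarith
  · rcases le_or_gt u 1 with h1 | h1
    · have h2 : u * Real.log u ≤ 0 := mul_nonpos_of_nonneg_of_nonpos h0.le (Real.log_nonpos h0.le h1)
      have h3 := hm1 v hv
      linarith
    · have h2 : 0 ≤ Real.log u := Real.log_nonneg h1.le
      have h3 : Real.log u ≤ Real.log R := Real.log_le_log h0 hu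
      rcases eq_or_lt_of_le hv with hv0 | hv0
      · rw [← hv0]
        have h5 : u * Real.log u ≤ 4 * Real.log R := by
          apply mul_le_mul (by linarith) h3 h2 (by norm_num)
        simp
        linarith
      · have h5 : Real.log u - Real.log v ≤ u / v - 1 := by
          rw [← Real.log_div h0.ne' hv0.ne']
          exact Real.log_le_sub_one_of_pos (by positivity)
        have h6 : v * (Real.log u - Real.log v) ≤ u - v := by
          have := mul_le_mul_of_nonneg_left h5 hv
          have h7 : v * (u / v - 1) = u - v := by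
            field_simp
          rw [h7] at this
          exact this
        have h7 : (u - v) * Real.log u ≤ 4 * Real.log R := by
          apply mul_le_mul h4 h3 h2 (by norm_num)
        have h8 : u * Real.log u - v * Real.log v = (u - v) * Real.log u + v * (Real.log u - Real.log v) := by ring
        rw [h8]
        linarith

private theorem f_gen {u v R : ℝ} (huv : |u - v| ≤ 4) (hu : |u| ≤ R) (hv : |v| ≤ R) (hR : 2 ≤ R) :
    |u * Real.log u - v * Real.log v| ≤ 8 * Real.log R + 10 := by
  have hlR : 0 ≤ Real.log R := Real.log_nonneg (by linarith)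
  wlog h : v ≤ u generalizing u v
  · have := this (u := v) (v := u) (by rw [abs_sub_comm]; exact huv) hv hu (by linarith)
    rw [abs_sub_comm]
    exact this
  rw [abs_le] at huv hu hv
  rcases le_or_gt 0 v with h0 | h0
  · have := f_pos h0 h huv.2 hu.2 hR
    linarith
  · rcases le_or_gt u 0 with h1 | h1
    · have h2 := f_pos (u := -v) (v := -u) (R := R) (by linarith) (by linarith) (by linarith) (by linarith) hR
      rw [Real.log_neg_eq_log, Real.log_neg_eq_log] at h2
      have h3 : -v * Real.log v - -u * Real.log u = u * Real.log u - v * Real.log v := by ring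
      rw [h3] at h2
      linarith
    · have h2 := f_pos (u := u) (v := 0) (R := R) le_rfl h1.le (by linarith) (by linarith) hR
      have h3 := f_pos (u := -v) (v := 0) (R := R) le_rfl (by linarith) (by linarith) (by linarith) hR
      rw [Real.log_neg_eq_log] at h3
      simp only [zero_mul, sub_zero] at h2 h3
      have h4 : u * Real.log u - v * Real.log v = u * Real.log u + -v * Real.log v := by ring
      rw [h4]
      calc |u * Real.log u + -v * Real.log v| ≤ |u * Real.log u| + |-v * Real.log v| := abs_add_le _ _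
        _ ≤ _ := by linarith

private theorem deriv_G (u : ℝ) :
    HasDerivAt (fun u : ℝ => u ^ 2 / 2 * Real.log u - 3 / 4 * u ^ 2) (u * Real.log u - u) u := by
  rcases eq_or_ne u 0 with h | h
  · subst h
    rw [hasDerivAt_iff_tendsto_slope_zero]
    have h1 : Filter.Tendsto (fun t : ℝ => t * Real.log t / 2 - 3 / 4 * t) (nhdsWithin 0 {0}ᶜ)
        (nhds (0 * Real.log 0 / 2 - 3 / 4 * 0)) := by
      apply Filter.Tendsto.mono_left _ nhdsWithin_le_nhds
      apply Continuous.tendsto (f := fun t : ℝ => t * Real.log t / 2 - 3 / 4 * t)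
      exact (Real.continuous_mul_log.div_const 2).sub (continuous_const.mul continuous_id)
    simp only [zero_mul, zero_div, mul_zero, sub_zero] at h1 ⊢
    refine h1.congr' ?_
    filter_upwards [self_mem_nhdsWithin] with t ht
    have ht' : t ≠ 0 := ht
    simp only [zero_add, smul_eq_mul, ne_eq, OfNat.ofNat_ne_zero, not_false_eq_true, zero_pow, zero_div, zero_mul,
      mul_zero, sub_zero]
    field_simp
  · have h1 := Real.hasDerivAt_log h
    have h2 : HasDerivAt (fun u : ℝ => u ^ 2) (2 * u) u := by
      simpa using hasDerivAt_pow 2 u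
    have h3 := ((h2.div_const 2).mul h1).sub (h2.const_mul (3 / 4))
    refine h3.congr_deriv ?_
    field_simp
    ring

/-- midpoint sums of `u log |u| - u` -/
theorem sumF0 (a s x : ℝ) (m : ℕ) (hs : 1 / 3 ≤ s) (hs' : s ≤ 8) :
    |∑ j ∈ range m, ((a + s * (j + 1 / 2) - x) * Real.log (a + s * (j + 1 / 2) - x) - (a + s * (j + 1 / 2) - x)) -
      1 / s * (((a + s * m - x) ^ 2 / 2 * Real.log (a + s * m - x) - 3 / 4 * (a + s * m - x) ^ 2) -
        ((a - x) ^ 2 / 2 * Real.log (a - x) - 3 / 4 * (a - x) ^ 2))| ≤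
      90 * (2 + |x| + |a| + s * m) * Real.log (2 + |x| + |a| + s * m) := by
  set R : ℝ := 2 + |x| + |a| + s * m with hR
  have hs0 : 0 < s := by linarith
  have hsm : 0 ≤ s * m := by positivity
  have hR2 : 2 ≤ R := by
    have := abs_nonneg x
    have := abs_nonneg a
    linarith
  set G : ℝ → ℝ := fun u => u ^ 2 / 2 * Real.log u - 3 / 4 * u ^ 2 with hG
  set F : ℝ → ℝ := fun u => u * Real.log u - u with hF
  have htel : (G (a + s * m - x) - G (a - x)) =
      ∑ j ∈ range m, (G (a + s * ((j + 1 : ℕ) : ℝ) - x) - G (a + s * (j : ℝ) - x)) := by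
    rw [Finset.sum_range_sub (fun j : ℕ => G (a + s * (j : ℝ) - x))]
    simp
  have hterm : ∀ j ∈ range m, |F (a + s * (j + 1 / 2) - x) -
      1 / s * (G (a + s * ((j + 1 : ℕ) : ℝ) - x) - G (a + s * (j : ℝ) - x))| ≤ 8 * Real.log R + 14 := by
    intro j hj
    rw [Finset.mem_range] at hj
    have hj1 : ((j : ℝ) + 1) ≤ m := by exact_mod_cast hj
    have hj0 : (0 : ℝ) ≤ j := by positivity
    have hsj0 : 0 ≤ s * (j : ℝ) := by positivity
    have hsj1 : s * ((j : ℝ) + 1) ≤ s * m := mul_le_mul_of_nonneg_left hj1 hs0.le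
    have hlt : a + s * (j : ℝ) - x < a + s * ((j + 1 : ℕ) : ℝ) - x := by
      push_cast
      linarith
    obtain ⟨ξ, ⟨h1, h2⟩, h3⟩ := exists_hasDerivAt_eq_slope G F hlt
      (fun u _ => (deriv_G u).continuousAt.continuousWithinAt) (fun u _ => deriv_G u)
    have e1 : a + s * ((j + 1 : ℕ) : ℝ) - x - (a + s * (j : ℝ) - x) = s := by
      push_cast
      ring
    rw [e1] at h3
    have e2 : 1 / s * (G (a + s * ((j + 1 : ℕ) : ℝ) - x) - G (a + s * (j : ℝ) - x)) = F ξ := by
      rw [h3]
      ring
    rw [e2]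
    push_cast at h2
    have hxa := abs_le.1 (le_refl |x|)
    have haa := abs_le.1 (le_refl |a|)
    have hd : |(a + s * (j + 1 / 2) - x) - ξ| ≤ 4 := by
      rw [abs_le]
      constructor <;> linarith
    have hm : |a + s * ((j : ℝ) + 1 / 2) - x| ≤ R := by
      rw [abs_le]
      constructor
      · linarith [hxa.1, hxa.2, haa.1, haa.2]
      · linarith [hxa.1, hxa.2, haa.1, haa.2]
    have hξ : |ξ| ≤ R := by
      rw [abs_le]
      constructor
      · linarith [hxa.1, hxa.2, haa.1, haa.2]
      · linarith [hxa.1, hxa.2, haa.1, haa.2]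
    have h5 := f_gen hd hm hξ hR2
    have e3 : F (a + s * (j + 1 / 2) - x) - F ξ = ((a + s * (j + 1 / 2) - x) * Real.log (a + s * (j + 1 / 2) - x) -
        ξ * Real.log ξ) + -((a + s * (j + 1 / 2) - x) - ξ) := by
      rw [hF]
      ring
    rw [e3]
    calc _ ≤ |(a + s * (j + 1 / 2) - x) * Real.log (a + s * (j + 1 / 2) - x) - ξ * Real.log ξ| +
          |-((a + s * (j + 1 / 2) - x) - ξ)| := abs_add_le _ _
      _ ≤ _ := by rw [abs_neg]; linarith
  have hsum : ∑ j ∈ range m, F (a + s * (j + 1 / 2) - x) - 1 / s * (G (a + s * m - x) - G (a - x)) =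
      ∑ j ∈ range m, (F (a + s * (j + 1 / 2) - x) -
        1 / s * (G (a + s * ((j + 1 : ℕ) : ℝ) - x) - G (a + s * (j : ℝ) - x))) := by
    rw [htel, Finset.mul_sum, ← Finset.sum_sub_distrib]
  show |∑ j ∈ range m, F (a + s * (j + 1 / 2) - x) - 1 / s * (G (a + s * m - x) - G (a - x))| ≤ _
  rw [hsum]
  calc _ ≤ ∑ j ∈ range m, |F (a + s * (j + 1 / 2) - x) -
        1 / s * (G (a + s * ((j + 1 : ℕ) : ℝ) - x) - G (a + s * (j : ℝ) - x))| := Finset.abs_sum_le_sum_abs _ _
    _ ≤ ∑ j ∈ range m, (8 * Real.log R + 14) := Finset.sum_le_sum hterm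
    _ = m * (8 * Real.log R + 14) := by rw [Finset.sum_const, Finset.card_range, nsmul_eq_mul]
    _ ≤ 90 * R * Real.log R := by
      have hl : 2 / 3 ≤ Real.log R := by
        have h1 := Real.log_two_gt_d9
        have h2 : Real.log 2 ≤ Real.log R := Real.log_le_log (by norm_num) hR2
        linarith
      have hm3 : (m : ℝ) ≤ 3 * R := by
        have h1 : 1 / 3 * (m : ℝ) ≤ s * m := mul_le_mul_of_nonneg_right hs (by positivity)
        have := abs_nonneg x
        have := abs_nonneg a
        linarith
      have h14 : 8 * Real.log R + 14 ≤ 30 * Real.log R := by linarith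
      calc (m : ℝ) * (8 * Real.log R + 14) ≤ 3 * R * (30 * Real.log R) := by
            apply mul_le_mul hm3 h14 (by linarith) (by linarith)
        _ = _ := by ring

end T2
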