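import Pool.Agent.T2.R8Defs
import Pool.Agent.T2.R8b

/-!
# T2, real side, R8e: the sum of `log H` over the rows
-/

set_option autoImplicit false

namespace T2.R8

open Finset

theorem Fu_negE (u : ℝ) : Fu (-u) = -Fu u := by
  unfold Fu
  rw [Real.log_neg_eq_log]
  ring

theorem Gu_negE (u : ℝ) : Gu (-u) = Gu u := by
  unfold Gu
  rw [Real.log_neg_eq_log]
  ring

theorem Fu_scale' {w : ℝ} (hw : 0 < w) (u : ℝ) : w * Fu (u / w) = Fu u - u * Real.log w := by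
  unfold Fu
  rcases eq_or_ne u 0 with rfl | hu
  · simp
  · rw [Real.log_div hu hw.ne']
    field_simp
    ring

theorem Gu_scale' {w : ℝ} (hw : 0 < w) (u : ℝ) : Gu (w * u) = w ^ 2 * Gu u + w ^ 2 * u ^ 2 / 2 * Real.log w := by
  unfold Gu
  rcases eq_or_ne u 0 with rfl | hu
  · simp
  · rw [Real.log_mul hw.ne' hu]
    ring

theorem Fu_bd' {u R : ℝ} (hR : 1 ≤ R) (hu : |u| ≤ R) : |Fu u| ≤ R * Real.log R + R + 1 := by
  have hlR : 0 ≤ Real.log R := Real.log_nonneg hR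
  have h1 : |u * Real.log u| ≤ R * Real.log R + 1 := by
    rw [abs_mul, ← Real.log_abs u]
    rcases le_or_gt |u| 1 with h | h
    · rcases eq_or_lt_of_le (abs_nonneg u) with h0 | h0
      · rw [← h0]
        simp
        positivity
      · have h2 := Real.abs_log_mul_self_lt |u| h0 h
        rw [abs_mul, abs_abs, mul_comm] at h2
        have : 0 ≤ R * Real.log R := by positivity
        linarith
    · have h2 : 0 ≤ Real.log |u| := Real.log_nonneg h.le
      rw [abs_of_nonneg h2]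
      have h3 : Real.log |u| ≤ Real.log R := Real.log_le_log (by linarith) hu
      have h4 : |u| * Real.log |u| ≤ R * Real.log R := mul_le_mul hu h3 h2 (by linarith)
      linarith
  have h2 : |Fu u| ≤ |u * Real.log u| + |u| := by
    unfold Fu
    exact abs_sub _ _
  linarith

theorem log_bd {n : ℕ} (hn : 1 ≤ n) {R : ℝ} (hR : 0 < R) (hRn : R ≤ 92 * n) :
    Real.log R ≤ 8 * Real.log (n + 1) := by
  have hn' : (1 : ℝ) ≤ n := by exact_mod_cast hn
  have h1 : R ≤ ((n : ℝ) + 1) ^ 8 := by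
    have h2 : (2 : ℝ) ^ 7 ≤ ((n : ℝ) + 1) ^ 7 := pow_le_pow_left₀ (by norm_num) (by linarith) 7
    have h3 : ((n : ℝ) + 1) ^ 8 = ((n : ℝ) + 1) ^ 7 * ((n : ℝ) + 1) := pow_succ _ _
    rw [h3]
    have h4 : (2 : ℝ) ^ 7 * ((n : ℝ) + 1) ≤ ((n : ℝ) + 1) ^ 7 * ((n : ℝ) + 1) :=
      mul_le_mul_of_nonneg_right h2 (by linarith)
    linarith
  calc Real.log R ≤ Real.log (((n : ℝ) + 1) ^ 8) := Real.log_le_log hR h1
    _ = 8 * Real.log (n + 1) := by rw [Real.log_pow]; norm_num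

theorem log2_le {n : ℕ} (hn : 1 ≤ n) : 1 / 2 ≤ Real.log (n + 1) := by
  have hn' : (1 : ℝ) ≤ n := by exact_mod_cast hn
  have h1 : Real.log 2 ≤ Real.log (n + 1) := Real.log_le_log (by norm_num) (by linarith)
  have h2 := Real.log_two_gt_d9
  linarith

theorem RlogR_bd {n : ℕ} (hn : 1 ≤ n) {R : ℝ} (hR : 1 ≤ R) (hRn : R ≤ 92 * n) :
    R * Real.log R ≤ 736 * (n * Real.log (n + 1)) := by
  have h1 := log_bd hn (by linarith) hRn
  have h2 : 0 ≤ Real.log R := Real.log_nonneg hR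
  have hn' : (0 : ℝ) ≤ n := Nat.cast_nonneg _
  calc R * Real.log R ≤ (92 * n) * (8 * Real.log (n + 1)) := mul_le_mul hRn h1 h2 (by positivity)
    _ = 736 * (n * Real.log (n + 1)) := by ring

theorem Fu_bd_n {n : ℕ} (hn : 1 ≤ n) {u : ℝ} (hu : |u| ≤ 92 * n) : |Fu u| ≤ 1000 * (n * Real.log (n + 1)) := by
  have hn' : (1 : ℝ) ≤ n := by exact_mod_cast hn
  have h1 := Fu_bd' (R := 92 * n) (by linarith) hu
  have h2 := RlogR_bd hn (R := 92 * n) (by linarith) le_rfl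
  have h3 := log2_le hn
  have h4 : (n : ℝ) / 2 ≤ n * Real.log (n + 1) := by nlinarith
  linarith

/-- a small shift of `Gu` -/
theorem Gu_shift {n : ℕ} (hn : 1 ≤ n) {b : ℝ} (hb : |b| ≤ 80 * n) :
    |Gu (b + 1 / 2) - Gu b| ≤ 40000 * (n * Real.log (n + 1)) := by
  have hn' : (1 : ℝ) ≤ n := by exact_mod_cast hn
  have h1 := sumF0 b (1 / 2) 0 1 (by norm_num) (by norm_num)
  rw [Finset.sum_range_one] at h1
  have h2 : |Fu (b + 1 / 4) - 2 * (Gu (b + 1 / 2) - Gu b)| ≤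
      90 * (2 + |b| + 1 / 2) * Real.log (2 + |b| + 1 / 2) := by
    have e1 : b + 1 / 2 * ((0 : ℕ) + 1 / 2 : ℝ) - 0 = b + 1 / 4 := by push_cast; ring
    have e2 : b + 1 / 2 * ((1 : ℕ) : ℝ) - 0 = b + 1 / 2 := by push_cast; ring
    have e3 : (2 : ℝ) + |0| + |b| + 1 / 2 * ((1 : ℕ) : ℝ) = 2 + |b| + 1 / 2 := by push_cast; simp
    rw [e1, e2, e3, sub_zero] at h1
    unfold Fu Gu
    norm_num at h1 ⊢
    exact h1
  have hR1 : (1 : ℝ) ≤ 2 + |b| + 1 / 2 := by linarith [abs_nonneg b]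
  have hR2 : (2 : ℝ) + |b| + 1 / 2 ≤ 92 * n := by linarith
  have h3 := RlogR_bd hn hR1 hR2
  have h4 : |Fu (b + 1 / 4)| ≤ 1000 * (n * Real.log (n + 1)) := by
    apply Fu_bd_n hn
    have := abs_add_le b (1 / 4)
    rw [abs_of_nonneg (by norm_num : (0 : ℝ) ≤ 1 / 4)] at this
    linarith
  have h5 : |2 * (Gu (b + 1 / 2) - Gu b)| ≤ |Fu (b + 1 / 4)| + |Fu (b + 1 / 4) - 2 * (Gu (b + 1 / 2) - Gu b)| := by
    have h6 : 2 * (Gu (b + 1 / 2) - Gu b) = Fu (b + 1 / 4) - (Fu (b + 1 / 4) - 2 * (Gu (b + 1 / 2) - Gu b)) := by ring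
    conv_lhs => rw [h6]
    exact abs_sub _ _
  rw [abs_mul, abs_of_pos (by norm_num : (0 : ℝ) < 2)] at h5
  have h7 : 0 ≤ (n : ℝ) * Real.log (n + 1) := by
    have := log2_le hn
    positivity
  linarith

/-- sums of `Fu` over an interval of integers -/
theorem sum_Fu {n : ℕ} (hn : 1 ≤ n) {c : ℝ} (hc : |c| ≤ 40 * n) :
    |∑ j ∈ range (40 * n), Fu (c + ((j : ℝ) + 1)) - (Gu (40 * n + c) - Gu c)| ≤
      200000 * (n * Real.log (n + 1)) := by
  have hn' : (1 : ℝ) ≤ n := by exact_mod_cast hn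
  have h1 := sumF0 (1 / 2) 1 (-c) (40 * n) (by norm_num) (by norm_num)
  have h2 : |∑ j ∈ range (40 * n), Fu (c + ((j : ℝ) + 1)) - (Gu (40 * n + c + 1 / 2) - Gu (c + 1 / 2))| ≤
      90 * (2 + |c| + 1 / 2 + 40 * n) * Real.log (2 + |c| + 1 / 2 + 40 * n) := by
    have e1 : ∀ j : ℕ, (1 / 2 : ℝ) + 1 * (j + 1 / 2) - -c = c + ((j : ℝ) + 1) := fun j => by ring
    have e2 : (1 / 2 : ℝ) + 1 * ((40 * n : ℕ) : ℝ) - -c = 40 * n + c + 1 / 2 := by push_cast; ring
    have e3 : (1 / 2 : ℝ) - -c = c + 1 / 2 := by ring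
    have e4 : (2 : ℝ) + |-c| + |1 / 2| + 1 * ((40 * n : ℕ) : ℝ) = 2 + |c| + 1 / 2 + 40 * n := by
      rw [abs_neg, abs_of_pos (by norm_num : (0 : ℝ) < 1 / 2)]
      push_cast
      ring
    simp only [e1, e2, e3, e4] at h1
    unfold Fu Gu
    norm_num at h1 ⊢
    exact h1
  have hR1 : (1 : ℝ) ≤ 2 + |c| + 1 / 2 + 40 * n := by linarith [abs_nonneg c]
  have hR2 : (2 : ℝ) + |c| + 1 / 2 + 40 * n ≤ 92 * n := by linarith
  have h3 := RlogR_bd hn hR1 hR2
  have h4 : |Gu (40 * n + c + 1 / 2) - Gu (40 * n + c)| ≤ 40000 * (n * Real.log (n + 1)) := by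
    apply Gu_shift hn
    have h5 := abs_add_le (40 * (n : ℝ)) c
    rw [abs_of_nonneg (by positivity : (0 : ℝ) ≤ 40 * n)] at h5
    linarith
  have h5 : |Gu (c + 1 / 2) - Gu c| ≤ 40000 * (n * Real.log (n + 1)) := Gu_shift hn (by linarith)
  rw [abs_le] at h2 h4 h5 ⊢
  have h6 : 90 * (2 + |c| + 1 / 2 + 40 * n) * Real.log (2 + |c| + 1 / 2 + 40 * n) ≤
      66240 * (n * Real.log (n + 1)) := by linarith
  have h7 : 0 ≤ (n : ℝ) * Real.log (n + 1) := by
    have := log2_le hn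
    positivity
  constructor <;> linarith [h2.1, h2.2, h4.1, h4.2, h5.1, h5.2]

/-- the potential `4n hB(x / 4n)` as a sum of `Fu` -/
theorem hB_scale {n : ℕ} (hn : 1 ≤ n) (x : ℝ) :
    4 * n * hB (x / (4 * n)) = -1 / 2 * ∑ i, Qj i * (Fu (4 * n * Qe i - x) + Fu (4 * n * Qe i + x)) := by
  have hw : (0 : ℝ) < 4 * n := by positivity
  obtain ⟨w, hwd⟩ : ∃ w : ℝ, w = 4 * n := ⟨_, rfl⟩
  rw [← hwd] at hw ⊢
  have h1 : ∀ e : ℝ, w * Fu (e - x / w) = Fu (w * e - x) - (w * e - x) * Real.log w := by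
    intro e
    rw [← Fu_scale' hw]
    congr 2
    field_simp
  have h2 : ∀ e : ℝ, w * Fu (e + x / w) = Fu (w * e + x) - (w * e + x) * Real.log w := by
    intro e
    rw [← Fu_scale' hw]
    congr 2
    field_simp
  simp only [Fin.sum_univ_six, Qj, Qe]
  simp only [Matrix.cons_val_zero, Matrix.cons_val_one, Matrix.cons_val]
  have h3 : w * hB (x / w) = 1 / 2 * ((w * Fu (10 - x / w) + w * Fu (10 + x / w)) -
      (w * Fu (1 - x / w) + w * Fu (1 + x / w)) - 3 / 4 * (w * Fu (2 - x / w) + w * Fu (2 + x / w)) -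
      1 / 2 * (w * Fu (4 - x / w) + w * Fu (4 + x / w)) - 1 / 4 * (w * Fu (6 - x / w) + w * Fu (6 + x / w)) -
      1 / 2 * (w * Fu (8 - x / w) + w * Fu (8 + x / w))) := by
    unfold hB
    ring
  rw [h3]
  simp only [h1, h2]
  ring

theorem Qe_mem (i : Fin 6) : 0 ≤ Qe i ∧ Qe i ≤ 10 := by
  fin_cases i <;> simp [Qe] <;> norm_num

theorem Qj_abs (i : Fin 6) : |Qj i| ≤ 1 := by
  fin_cases i <;> simp [Qj] <;> norm_num [abs_le]

/-- the potential is small at every row -/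
theorem phi_bd {n : ℕ} (hn : 1 ≤ n) {x : ℝ} (hx0 : 0 ≤ x) (hx : x ≤ 40 * n + 12) :
    |4 * n * hB (x / (4 * n))| ≤ 6000 * (n * Real.log (n + 1)) := by
  have hn' : (1 : ℝ) ≤ n := by exact_mod_cast hn
  rw [hB_scale hn]
  have h1 : ∀ i, |Qj i * (Fu (4 * n * Qe i - x) + Fu (4 * n * Qe i + x))| ≤ 2000 * (n * Real.log (n + 1)) := by
    intro i
    obtain ⟨h2, h3⟩ := Qe_mem i
    have h4 : 0 ≤ 4 * n * Qe i := by positivity
    have h5 : 4 * n * Qe i ≤ 40 * n := by nlinarith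
    have h6 : |Fu (4 * n * Qe i - x)| ≤ 1000 * (n * Real.log (n + 1)) :=
      Fu_bd_n hn (by rw [abs_le]; constructor <;> linarith)
    have h7 : |Fu (4 * n * Qe i + x)| ≤ 1000 * (n * Real.log (n + 1)) :=
      Fu_bd_n hn (by rw [abs_le]; constructor <;> linarith)
    rw [abs_mul]
    have h8 := abs_add_le (Fu (4 * n * Qe i - x)) (Fu (4 * n * Qe i + x))
    have h9 := mul_le_mul (Qj_abs i) h8 (abs_nonneg _) (by norm_num)
    linarith
  have h2 : |∑ i, Qj i * (Fu (4 * n * Qe i - x) + Fu (4 * n * Qe i + x))| ≤ 12000 * (n * Real.log (n + 1)) := by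
    refine (abs_sum_le_sum_abs _ _).trans ((sum_le_sum (fun i _ => h1 i)).trans ?_)
    rw [sum_const, card_univ, Fintype.card_fin, nsmul_eq_mul]
    push_cast
    linarith
  rw [abs_mul]
  have h3 : |(-1 / 2 : ℝ)| = 1 / 2 := by norm_num [abs_div]
  rw [h3]
  linarith

/-- the sum of the potential over the integers up to `40 n` -/
theorem phi_sum {n : ℕ} (hn : 1 ≤ n) :
    |∑ j ∈ range (40 * n), 4 * n * hB (((j : ℝ) + 1) / (4 * n)) - 16 * n ^ 2 * eH| ≤
      1200000 * (n * Real.log (n + 1)) := by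
  have hn' : (1 : ℝ) ≤ n := by exact_mod_cast hn
  have hw : (0 : ℝ) < 4 * n := by positivity
  have e1 : ∑ j ∈ range (40 * n), 4 * n * hB (((j : ℝ) + 1) / (4 * n)) =
      ∑ i, (-1 / 2 * Qj i) * (-(∑ j ∈ range (40 * n), Fu (-(4 * n * Qe i) + ((j : ℝ) + 1))) +
        ∑ j ∈ range (40 * n), Fu (4 * n * Qe i + ((j : ℝ) + 1))) := by
    simp only [hB_scale hn]
    rw [← mul_sum, sum_comm, mul_sum]
    refine sum_congr rfl (fun i _ => ?_)
    rw [← mul_sum, sum_add_distrib, ← sum_neg_distrib, ← mul_assoc]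
    congr 2
    refine sum_congr rfl (fun j _ => ?_)
    rw [← Fu_negE]
    congr 1
    ring
  have e2 : (16 : ℝ) * n ^ 2 * eH = ∑ i, (-1 / 2 * Qj i) *
      (-(Gu (40 * n + -(4 * n * Qe i)) - Gu (-(4 * n * Qe i))) + (Gu (40 * n + 4 * n * Qe i) - Gu (4 * n * Qe i))) := by
    have h1 : ∀ i, -(Gu (40 * n + -(4 * n * Qe i)) - Gu (-(4 * n * Qe i))) +
        (Gu (40 * n + 4 * n * Qe i) - Gu (4 * n * Qe i)) =
        16 * n ^ 2 * (Gu (10 + Qe i) - Gu (10 - Qe i)) + 320 * n ^ 2 * Real.log (4 * n) * Qe i := by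
      intro i
      have h2 : (40 : ℝ) * n + -(4 * n * Qe i) = 4 * n * (10 - Qe i) := by ring
      have h3 : (40 : ℝ) * n + 4 * n * Qe i = 4 * n * (10 + Qe i) := by ring
      rw [h2, h3, Gu_negE, Gu_scale' hw, Gu_scale' hw (10 + Qe i)]
      ring
    simp only [h1]
    unfold eH
    simp only [Fin.sum_univ_six, Qj, Qe]
    simp only [Matrix.cons_val_zero, Matrix.cons_val_one, Matrix.cons_val]
    ring
  rw [e1, e2, ← sum_sub_distrib]
  refine (abs_sum_le_sum_abs _ _).trans ?_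
  have h7 : 0 ≤ (n : ℝ) * Real.log (n + 1) := by
    have := log2_le hn
    positivity
  have h1 : ∀ i ∈ (univ : Finset (Fin 6)),
      |(-1 / 2 * Qj i) * (-(∑ j ∈ range (40 * n), Fu (-(4 * n * Qe i) + ((j : ℝ) + 1))) +
        ∑ j ∈ range (40 * n), Fu (4 * n * Qe i + ((j : ℝ) + 1))) -
      (-1 / 2 * Qj i) * (-(Gu (40 * n + -(4 * n * Qe i)) - Gu (-(4 * n * Qe i))) +
        (Gu (40 * n + 4 * n * Qe i) - Gu (4 * n * Qe i)))| ≤ 200000 * (n * Real.log (n + 1)) := by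
    intro i _
    obtain ⟨h2, h3⟩ := Qe_mem i
    have h4 : 0 ≤ 4 * n * Qe i := by positivity
    have h5 : 4 * n * Qe i ≤ 40 * n := by nlinarith
    have h6 := sum_Fu hn (c := 4 * n * Qe i) (by rw [abs_le]; constructor <;> linarith)
    have h8 := sum_Fu hn (c := -(4 * n * Qe i)) (by rw [abs_le]; constructor <;> linarith)
    rw [← mul_sub, abs_mul, abs_mul]
    have h9 : |(-1 / 2 : ℝ)| = 1 / 2 := by norm_num [abs_div]
    rw [h9]
    set S1 := ∑ j ∈ range (40 * n), Fu (4 * n * Qe i + ((j : ℝ) + 1))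
    set S2 := ∑ j ∈ range (40 * n), Fu (-(4 * n * Qe i) + ((j : ℝ) + 1))
    have h10 : |(-S2 + S1) - (-(Gu (40 * n + -(4 * n * Qe i)) - Gu (-(4 * n * Qe i))) +
        (Gu (40 * n + 4 * n * Qe i) - Gu (4 * n * Qe i)))| ≤ 400000 * (n * Real.log (n + 1)) := by
      rw [abs_le] at h6 h8 ⊢
      constructor <;> linarith [h6.1, h6.2, h8.1, h8.2]
    have h11 : 1 / 2 * |Qj i| ≤ 1 / 2 := by
      have := Qj_abs i
      linarith
    have h12 := mul_le_mul h11 h10 (abs_nonneg _) (by norm_num)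
    linarith
  refine (sum_le_sum h1).trans ?_
  rw [sum_const, card_univ, Fintype.card_fin, nsmul_eq_mul]
  push_cast
  linarith

/-- R8e from the potential estimate `log_hTr` -/
theorem hTr_sum_of (hlog : ∃ C : ℝ, ∀ n : ℕ, 1 ≤ n → ∀ t : ℂ, |t.im| ≤ 1 / 4 →
    |Real.log (hTr (sT n) (tT n) t) - 4 * n * hB (t.re / (4 * n))| ≤ C) :
    ∃ C : ℝ, ∀ n : ℕ, 1 ≤ n → ∀ N : Fin (40 * n) → ℕ, Function.Injective N →
    (∀ i, 2 ≤ N i ∧ N i ≤ 40 * n + 12) →
    ∑ i, Real.log (hTr (sT n) (tT n) (N i)) ≤ 16 * n ^ 2 * eH + C * n * Real.log (n + 1) := by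
  obtain ⟨C, hC⟩ := hlog
  refine ⟨80 * |C| + 1500000, fun n hn N hN hN2 => ?_⟩
  have hn' : (1 : ℝ) ≤ n := by exact_mod_cast hn
  have hL := log2_le hn
  have hnL : 0 ≤ (n : ℝ) * Real.log (n + 1) := by positivity
  -- the potential
  obtain ⟨φ, hφ⟩ : ∃ φ : ℕ → ℝ, φ = fun k : ℕ => 4 * n * hB ((k : ℝ) / (4 * n)) := ⟨_, rfl⟩
  have h1 : ∑ i, Real.log (hTr (sT n) (tT n) (N i)) ≤ ∑ i, (φ (N i) + |C|) := by
    refine sum_le_sum (fun i _ => ?_)
    have h2 := hC n hn (N i : ℂ) (by simp)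
    rw [Complex.natCast_re] at h2
    rw [hφ]
    have h3 := (abs_le.1 h2).2
    have h4 := le_abs_self C
    linarith
  have h2 : ∑ i, (φ (N i) + |C|) = ∑ k ∈ univ.image N, φ k + 40 * n * |C| := by
    rw [sum_add_distrib, sum_const, card_univ, Fintype.card_fin, nsmul_eq_mul, sum_image (fun a _ b _ h => hN h)]
    push_cast
    ring
  set S := univ.image N with hS
  set T := (range (40 * n)).image (fun j => j + 1) with hT
  have hSc : S.card = 40 * n := by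
    rw [hS, card_image_of_injective _ hN, card_univ, Fintype.card_fin]
  have hTc : T.card = 40 * n := by
    rw [hT, card_image_of_injective _ (fun a b h => by simpa using h), card_range]
  have hmemT : ∀ k, k ∈ T ↔ 1 ≤ k ∧ k ≤ 40 * n := by
    intro k
    rw [hT, mem_image]
    constructor
    · rintro ⟨j, hj, rfl⟩
      rw [mem_range] at hj
      omega
    · rintro ⟨h3, h4⟩
      exact ⟨k - 1, by rw [mem_range]; omega, by omega⟩
  have hmemS : ∀ k ∈ S, 2 ≤ k ∧ k ≤ 40 * n + 12 := by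
    intro k hk
    rw [hS, mem_image] at hk
    obtain ⟨i, _, rfl⟩ := hk
    exact hN2 i
  have hST : (S \ T).card ≤ 12 := by
    have h3 : S \ T ⊆ Ioc (40 * n) (40 * n + 12) := by
      intro k hk
      rw [mem_sdiff, hmemT] at hk
      have := hmemS k hk.1
      rw [mem_Ioc]
      omega
    simpa using card_le_card h3
  have hTS : (T \ S).card ≤ 12 := by
    have h3 := card_sdiff_add_card_inter S T
    have h4 := card_sdiff_add_card_inter T S
    rw [inter_comm] at h4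
    omega
  have hφb : ∀ k ≤ 40 * n + 12, |φ k| ≤ 6000 * (n * Real.log (n + 1)) := by
    intro k hk
    rw [hφ]
    refine phi_bd hn (Nat.cast_nonneg _) ?_
    exact_mod_cast hk
  have h3 : ∑ k ∈ S, φ k = ∑ k ∈ T, φ k + ∑ k ∈ S \ T, φ k - ∑ k ∈ T \ S, φ k := by
    have h4 := sum_inter_add_sum_sdiff S T φ
    have h5 := sum_inter_add_sum_sdiff T S φ
    rw [inter_comm] at h5
    linarith
  have hb : ∀ U : Finset ℕ, U.card ≤ 12 → (∀ k ∈ U, k ≤ 40 * n + 12) →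
      |∑ k ∈ U, φ k| ≤ 72000 * (n * Real.log (n + 1)) := by
    intro U hU hUk
    refine (abs_sum_le_sum_abs _ _).trans ((sum_le_sum (fun k hk => hφb k (hUk k hk))).trans ?_)
    rw [sum_const, nsmul_eq_mul]
    have : (U.card : ℝ) ≤ 12 := by exact_mod_cast hU
    nlinarith
  have h4 := hb (S \ T) hST (fun k hk => (hmemS k (mem_sdiff.1 hk).1).2)
  have h5 := hb (T \ S) hTS (fun k hk => by
    have := (hmemT k).1 (mem_sdiff.1 hk).1
    omega)
  have h6 : ∑ k ∈ T, φ k = ∑ j ∈ range (40 * n), 4 * n * hB (((j : ℝ) + 1) / (4 * n)) := by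
    rw [hT, sum_image (fun a _ b _ h => by simpa using h)]
    refine sum_congr rfl (fun j _ => ?_)
    rw [hφ]
    push_cast
    rfl
  have h7 := phi_sum hn
  rw [← h6] at h7
  rw [h2, h3] at h1
  have h8 : (40 : ℝ) * n * |C| ≤ 80 * |C| * (n * Real.log (n + 1)) := by
    have h9 : (n : ℝ) * |C| ≤ 2 * (|C| * (n * Real.log (n + 1))) := by
      have : (n : ℝ) ≤ 2 * (n * Real.log (n + 1)) := by nlinarith
      nlinarith [abs_nonneg C]
    linarith
  have h9 := (abs_le.1 h4).2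
  have h10 := (abs_le.1 h5).1
  have h11 := (abs_le.1 h7).2
  have h12 : (80 * |C| + 1500000) * n * Real.log (n + 1) =
      80 * |C| * (n * Real.log (n + 1)) + 1500000 * (n * Real.log (n + 1)) := by ring
  rw [h12]
  linarith

end T2.R8
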