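import Pool.Agent.T2.R8Defs
import Pool.Agent.QS2.EnVF

/-!
# T2, real side, R8i: lower bound of the factorials

* `fac_lower` : `∑_{i<40n} log i! ≥ 800 n² log(40n) - 1200 n² - O(n log n)`.
-/

set_option autoImplicit false

namespace T2.R8

open Finset

theorem one_le_two_log {n : ℕ} (hn : 1 ≤ n) : (1 : ℝ) ≤ 2 * Real.log ((n : ℝ) + 1) := by
  have h1 : (1 : ℝ) ≤ n := by exact_mod_cast hn
  have h2 : Real.log 2 ≤ Real.log ((n : ℝ) + 1) := Real.log_le_log (by norm_num) (by linarith)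
  have h3 := Real.log_two_gt_d9
  linarith

theorem fac_lower : ∃ C : ℝ, ∀ n : ℕ, 1 ≤ n →
    800 * n ^ 2 * Real.log (40 * n) - 1200 * n ^ 2 ≤
      ∑ i ∈ range (40 * n), Real.log (i.factorial) + C * n * Real.log (n + 1) := by
  refine ⟨120 * 13, ?_⟩
  intro n hn
  have hn1 : (1 : ℝ) ≤ n := by exact_mod_cast hn
  have h1 := (abs_le.1 (Pool.QS2E.SF_bd (40 * n))).1
  have e1 : Pool.QS2E.HH ((40 * n : ℕ) : ℝ) = 800 * (n : ℝ) ^ 2 * Real.log (40 * n) - 1200 * (n : ℝ) ^ 2 := by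
    unfold Pool.QS2E.HH
    push_cast
    ring
  have e2 : Pool.QS2E.SF (40 * n) = ∑ i ∈ range (40 * n), Real.log (i.factorial) := rfl
  rw [e1, e2] at h1
  have h2 : Real.log (((40 * n : ℕ) : ℝ) + 1) ≤ 5 + Real.log ((n : ℝ) + 1) := by
    have h3 : ((40 * n : ℕ) : ℝ) + 1 ≤ 40 * ((n : ℝ) + 1) := by push_cast; linarith
    have h4 : Real.log (((40 * n : ℕ) : ℝ) + 1) ≤ Real.log (40 * ((n : ℝ) + 1)) :=
      Real.log_le_log (by positivity) h3
    rw [Real.log_mul (by norm_num) (by positivity)] at h4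
    have h5 : Real.log 40 ≤ 5 := by
      rw [Real.log_le_iff_le_exp (by norm_num)]
      have h6 := Real.exp_one_gt_d9
      have h7 : Real.exp 5 = Real.exp 1 ^ 5 := by
        rw [← Real.exp_nat_mul]; norm_num
      rw [h7]
      calc (40 : ℝ) ≤ 2.5 ^ 5 := by norm_num
        _ ≤ Real.exp 1 ^ 5 := by
          apply pow_le_pow_left₀ (by norm_num)
          linarith
    linarith
  have h8 := one_le_two_log hn
  have h9 : Real.log (((40 * n : ℕ) : ℝ) + 1) + 1 ≤ 13 * Real.log ((n : ℝ) + 1) := by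
    linarith
  have h10 : 3 * ((40 * n : ℕ) : ℝ) * (Real.log (((40 * n : ℕ) : ℝ) + 1) + 1) ≤
      3 * ((40 * n : ℕ) : ℝ) * (13 * Real.log ((n : ℝ) + 1)) :=
    mul_le_mul_of_nonneg_left h9 (by positivity)
  have h12 : 3 * ((40 * n : ℕ) : ℝ) * (13 * Real.log ((n : ℝ) + 1)) =
      120 * 13 * n * Real.log (n + 1) := by
    push_cast
    ring
  linarith

end T2.R8
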