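import Pool.Agent.T2.R8Sum
import Pool.Agent.T2.R8NumC
import Pool.Agent.T2.R8e
import Pool.Agent.T2.R8i
import Pool.Agent.T2.R8Sep

/-! # T2, real side, module R8: the energy certificate, final assembly (helper59) -/

set_option autoImplicit false
set_option linter.dupNamespace false

namespace T2.R8

open Finset Complex

theorem gTr_nonneg' {c m : ℕ} (z : Fin c → ℂ) (S0 T0 : Fin m → ℂ) (t : ℂ) :
    0 ≤ gTr z S0 T0 t := by
  unfold gTr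
  positivity

/-- **R8**: the right-hand side of `R7` for the trial points `zT, sT, tT`, level `LC`,
`c = 40 n` columns (`E = 2 * 627/500 = 2.508`), from the four estimates of the trial products. -/
theorem R8_of
    (log_gTr : ∃ C : ℝ, ∀ n : ℕ, 1 ≤ n → ∀ t : ℂ, |t.im| ≤ 1 / 4 →
      |Real.log (gTr (zT n) (sT n) (tT n) t)
        - (4 * n * gB (t.re / (4 * n)) + 40 * n * Real.log (4 * n))| ≤ C)
    (log_hTr : ∃ C : ℝ, ∀ n : ℕ, 1 ≤ n → ∀ t : ℂ, |t.im| ≤ 1 / 4 →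
      |Real.log (hTr (sT n) (tT n) t) - 4 * n * hB (t.re / (4 * n))| ≤ C)
    (wTr_lower : ∃ C : ℝ, ∀ n : ℕ, 1 ≤ n →
      0 < wTr (zT n) ∧
      -Real.log (wTr (zT n)) ≤
        16 * n ^ 2 * eZ - 800 * n ^ 2 * Real.log (4 * n) + C * n * Real.log (n + 1))
    (C0_lower : ∃ C : ℝ, ∀ n : ℕ, 1 ≤ n →
      0 < Cau0 (fun l => sT n l ^ 2) (fun l => tT n l ^ 2) ∧
      -2 * Real.log (Cau0 (fun l => sT n l ^ 2) (fun l => tT n l ^ 2)) ≤
        16 * n ^ 2 * eC + C * n * Real.log (n + 1))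
    (W : ℝ) (hW : 1 ≤ W) : ∃ C : ℝ, ∀ n : ℕ, 1 ≤ n →
    ∀ N : Fin (40 * n) → ℕ, Function.Injective N → (∀ i, 2 ≤ N i ∧ N i ≤ 40 * n + 12) →
    ∀ J : ℕ, ∀ s : Fin J × Bool → ℂ, (∀ p, (s p).re = p.1 + 1 / 2 ∧ |(s p).im| ≤ 1 / 4) →
    (wTr (zT n))⁻¹ * (Cau0 (fun l => sT n l ^ 2) (fun l => tT n l ^ 2))⁻¹ ^ 2 *
      (∏ i, hTr (sT n) (tT n) (N i)) * LC n ^ (40 * n) *
      (∏ i, (1 + W * (3 / 100) ^ (N i) * gTr (zT n) (sT n) (tT n) (N i) / LC n)) *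
      (∏ p : Fin J × Bool, (1 + W * ((p.1 : ℝ) + 1) * (3 / 100) ^ (p.1 : ℕ) *
        gTr (zT n) (sT n) (tT n) (s p) / LC n)) ≤
    Real.exp (∑ i ∈ range (40 * n), Real.log (i.factorial) - 627 / 500 * (40 * n) ^ 2 +
      C * n * Real.log (n + 1)) := by
  obtain ⟨C1, h1⟩ := wTr_lower
  obtain ⟨C2, h2⟩ := C0_lower
  obtain ⟨C3, h3⟩ := hTr_sum_of log_hTr
  obtain ⟨C0, hg⟩ := log_gTr
  obtain ⟨C4, h4⟩ := nodes_of hg (fun n hn t ht => gTr_pos n hn t ht) W hW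
  obtain ⟨C5, h5⟩ := poles_of hg (fun n hn t ht => gTr_pos n hn t ht) W hW
  obtain ⟨C6, h6⟩ := fac_lower
  refine ⟨C1 + C2 + C3 + C4 + C5 + C6, fun n hn N hinj hN J s hs => ?_⟩
  obtain ⟨p1, q1⟩ := h1 n hn
  obtain ⟨p2, q2⟩ := h2 n hn
  have q3 := h3 n hn N hinj hN
  have q4 := h4 n hn N hinj hN
  have q5 := h5 n hn J s hs
  have q6 := h6 n hn
  have q7 := num_C
  have hn0 : (0 : ℝ) < n := by exact_mod_cast hn
  have hW0 : 0 ≤ W := zero_le_one.trans hW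
  have hL := LC_pos n
  have p3 : ∀ i, 0 < hTr (sT n) (tT n) (N i) := fun i => hTr_pos n hn _ (by simp)
  have p4 : ∀ i, 0 < 1 + W * (3 / 100) ^ (N i) * gTr (zT n) (sT n) (tT n) (N i) / LC n := by
    intro i
    have a := gTr_nonneg' (zT n) (sT n) (tT n) (N i : ℂ)
    positivity
  have p5 : ∀ p : Fin J × Bool, 0 < 1 + W * ((p.1 : ℝ) + 1) * (3 / 100) ^ (p.1 : ℕ) *
      gTr (zT n) (sT n) (tT n) (s p) / LC n := by
    intro p
    have a := gTr_nonneg' (zT n) (sT n) (tT n) (s p)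
    positivity
  have e1 : (0 : ℝ) < (wTr (zT n))⁻¹ := inv_pos.2 p1
  have e2 : (0 : ℝ) < (Cau0 (fun l => sT n l ^ 2) (fun l => tT n l ^ 2))⁻¹ ^ 2 :=
    pow_pos (inv_pos.2 p2) 2
  have e3 : (0 : ℝ) < ∏ i, hTr (sT n) (tT n) (N i) := Finset.prod_pos fun i _ => p3 i
  have e4 : (0 : ℝ) < LC n ^ (40 * n) := pow_pos hL _
  have e5 : (0 : ℝ) < ∏ i, (1 + W * (3 / 100) ^ (N i) * gTr (zT n) (sT n) (tT n) (N i) / LC n) :=
    Finset.prod_pos fun i _ => p4 i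
  have e6 : (0 : ℝ) < ∏ p : Fin J × Bool,
      (1 + W * ((p.1 : ℝ) + 1) * (3 / 100) ^ (p.1 : ℕ) *
        gTr (zT n) (sT n) (tT n) (s p) / LC n) := Finset.prod_pos fun p _ => p5 p
  have e := mul_pos (mul_pos (mul_pos (mul_pos (mul_pos e1 e2) e3) e4) e5) e6
  rw [← Real.exp_log e]
  refine Real.exp_le_exp.2 ?_
  rw [Real.log_mul (mul_pos (mul_pos (mul_pos (mul_pos e1 e2) e3) e4) e5).ne' e6.ne',
    Real.log_mul (mul_pos (mul_pos (mul_pos e1 e2) e3) e4).ne' e5.ne',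
    Real.log_mul (mul_pos (mul_pos e1 e2) e3).ne' e4.ne',
    Real.log_mul (mul_pos e1 e2).ne' e3.ne',
    Real.log_mul e1.ne' e2.ne', Real.log_inv, Real.log_pow, Real.log_inv, Real.log_pow,
    Real.log_prod (fun i _ => (p3 i).ne'), Real.log_prod (fun i _ => (p4 i).ne'),
    Real.log_prod (fun p _ => (p5 p).ne'), log_LC]
  have el : Real.log (40 * n) = Real.log 10 + Real.log (4 * n) := by
    rw [← Real.log_mul (by norm_num) (by positivity)]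
    congr 1; ring
  rw [el] at q6 ⊢
  have q8 : (n : ℝ) ^ 2 * (16 * (eZ + eC + eH) + 800 * Real.log 10) ≤ (n : ℝ) ^ 2 * (19879 / 10) :=
    mul_le_mul_of_nonneg_left q7 (by positivity)
  push_cast
  set L := Real.log ((n : ℝ) + 1)
  set F := ∑ i ∈ range (40 * n), Real.log (i.factorial)
  nlinarith [q1, q2, q3, q4, q5, q6, q8]

end T2.R8
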