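import Pool.Agent.T2.R8DefsC
import Pool.Agent.T2.R8Exc

/-!
# T2, R8: bridge between `gB` (unit `4n`) and the certificate function `gT` (unit `40n`),
the sums over the nodes and the poles, the final number (helper20)
-/

set_option autoImplicit false

namespace T2.R8

open Finset Complex
open T2.Cert (gT)
open Pool.Agent.QS2 (psi)

theorem Fu_neg' (u : ℝ) : Fu (-u) = -Fu u := by
  unfold Fu; rw [Real.log_neg_eq_log]; ring

theorem Fu_ten (u : ℝ) : Fu (10 * u) = 10 * psi u + 10 * (Real.log 10 - 1) * u := by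
  unfold Fu psi
  rcases eq_or_ne u 0 with h | h
  · subst h; simp
  · rw [Real.log_mul (by norm_num) h]; ring

/-- **bridge** -/
theorem gB_ten (x : ℝ) : gB (10 * x) = 10 * (gT x + 7 / 2 * x) + 10 * Real.log 10 := by
  have e : ∀ k : ℝ, Fu (k - 10 * x) =
      -(10 * psi (x - k / 10) + 10 * (Real.log 10 - 1) * (x - k / 10)) := by
    intro k
    rw [← Fu_ten, ← Fu_neg']
    congr 1; ring
  have f : ∀ k : ℝ, Fu (k + 10 * x) =
      10 * psi (x - (-k / 10)) + 10 * (Real.log 10 - 1) * (x - (-k / 10)) := by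
    intro k
    rw [← Fu_ten]
    congr 1; ring
  unfold gB gT
  rw [Fu_ten, e, e, e, e, e, e, f, f, f, f, f, f]
  norm_num
  ring

/-- the potential in the unit `c = 40 n` -/
theorem pot_eq (n : ℕ) (hn : 1 ≤ n) (u : ℝ) :
    4 * (n : ℝ) * gB (u / (4 * n)) + 40 * n * Real.log (4 * n) =
      40 * n * (gT (u / (40 * n)) + 331 / 100) + 7 / 2 * u +
        (40 * n * Real.log (40 * n) - 331 / 100 * (40 * n)) := by
  have hn0 : (0 : ℝ) < n := by exact_mod_cast hn
  have e1 : u / (4 * (n : ℝ)) = 10 * (u / (40 * n)) := by field_simp; ring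
  have e2 : Real.log (40 * (n : ℝ)) = Real.log 10 + Real.log (4 * n) := by
    rw [← Real.log_mul (by norm_num) (by positivity)]
    congr 1; ring
  rw [e1, gB_ten, e2]
  have e3 : 40 * (n : ℝ) * (7 / 2 * (u / (40 * n))) = 7 / 2 * u := by field_simp
  linear_combination e3

theorem exp_72 : Real.exp (7 / 2) ≤ 100 / 3 := by
  have h : Real.exp (7 / 2) ^ 2 ≤ (100 / 3) ^ 2 := by
    have e : Real.exp (7 / 2) ^ 2 = Real.exp 1 ^ 7 := by
      rw [← Real.exp_nat_mul, ← Real.exp_nat_mul]; norm_num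
    rw [e]
    calc Real.exp 1 ^ 7 ≤ 2.7182818286 ^ 7 :=
          pow_le_pow_left₀ (Real.exp_pos _).le Real.exp_one_lt_d9.le 7
      _ ≤ (100 / 3) ^ 2 := by norm_num
  exact le_of_sq_le_sq h (by norm_num)

theorem pow_rho (k : ℕ) : ((3 : ℝ) / 100) ^ k * Real.exp (7 / 2 * k) ≤ 1 := by
  have e : Real.exp (7 / 2 * k) = Real.exp (7 / 2) ^ k := by
    rw [mul_comm, Real.exp_nat_mul]
  rw [e, ← mul_pow]
  refine pow_le_one₀ (by positivity) ?_
  have := exp_72
  linarith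

/-- statement of `log_gTr` -/
def LogG (C : ℝ) : Prop := ∀ n : ℕ, 1 ≤ n → ∀ t : ℂ, |t.im| ≤ 1 / 4 →
    |Real.log (gTr (zT n) (sT n) (tT n) t)
      - (4 * n * gB (t.re / (4 * n)) + 40 * n * Real.log (4 * n))| ≤ C

/-- the weighted trial value at a point, against the certificate -/
theorem gTr_div_le {C : ℝ} (hg : LogG C) (n : ℕ) (hn : 1 ≤ n) (t : ℂ) (ht : |t.im| ≤ 1 / 4)
    (hp : 0 < gTr (zT n) (sT n) (tT n) t) :
    gTr (zT n) (sT n) (tT n) t / LC n ≤
      Real.exp C * Real.exp (7 / 2 * t.re) *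
        Real.exp (40 * n * (gT (t.re / (40 * n)) + 331 / 100)) := by
  have h := (abs_le.1 (hg n hn t ht)).2
  rw [pot_eq n hn] at h
  have h2 : gTr (zT n) (sT n) (tT n) t / LC n =
      Real.exp (Real.log (gTr (zT n) (sT n) (tT n) t) -
        (40 * n * Real.log (40 * n) - 331 / 100 * (40 * n))) := by
    rw [Real.exp_sub, Real.exp_log hp, LC]
  rw [h2, ← Real.exp_add, ← Real.exp_add]
  exact Real.exp_le_exp.2 (by linarith)

theorem log_half {n : ℕ} (hn : 1 ≤ n) : 1 / 2 ≤ Real.log ((n : ℝ) + 1) := by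
  have h2 : Real.log 2 ≤ Real.log ((n : ℝ) + 1) := by
    refine Real.log_le_log (by norm_num) ?_
    have : (1 : ℝ) ≤ n := by exact_mod_cast hn
    linarith
  have := Real.log_two_gt_d9
  linarith

theorem nodes_of {C₀ : ℝ} (hg : LogG C₀)
    (hp : ∀ n : ℕ, 1 ≤ n → ∀ t : ℂ, |t.im| ≤ 1 / 4 → 0 < gTr (zT n) (sT n) (tT n) t)
    (W : ℝ) (hW : 1 ≤ W) : ∃ C : ℝ, ∀ n : ℕ, 1 ≤ n →
    ∀ N : Fin (40 * n) → ℕ, Function.Injective N → (∀ i, 2 ≤ N i ∧ N i ≤ 40 * n + 12) →
    ∑ i, Real.log (1 + W * (3 / 100) ^ (N i) * gTr (zT n) (sT n) (tT n) (N i) / LC n) ≤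
      (40 * n) ^ 2 * (339 / 16000) + C * n * Real.log (n + 1) := by
  set K : ℝ := W * Real.exp C₀ with hK
  have hK0 : 0 ≤ K := by positivity
  refine ⟨80 * Real.log (1 + K), fun n hn N hN hr => ?_⟩
  have hn0 : (0 : ℝ) < n := by exact_mod_cast hn
  have hterm : ∀ i, Real.log (1 + W * (3 / 100) ^ (N i) * gTr (zT n) (sT n) (tT n) (N i) / LC n) ≤
      Real.log (1 + K * Real.exp (40 * n * (gT ((N i : ℝ) / (40 * n)) + 331 / 100))) := by
    intro i
    have hp' := hp n hn (N i) (by simp)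
    have hL := LC_pos n
    refine Real.log_le_log (by positivity) ?_
    have h1 := gTr_div_le hg n hn (N i) (by simp) hp'
    have h2 := pow_rho (N i)
    have h3 : ((N i : ℕ) : ℂ).re = (N i : ℝ) := by simp
    rw [h3] at h1
    have h4 : W * (3 / 100) ^ (N i) * gTr (zT n) (sT n) (tT n) (N i) / LC n =
        W * (3 / 100) ^ (N i) * (gTr (zT n) (sT n) (tT n) (N i) / LC n) := by ring
    rw [h4]
    have h5 : W * (3 / 100) ^ (N i) * (gTr (zT n) (sT n) (tT n) (N i) / LC n) ≤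
        W * (3 / 100) ^ (N i) * (Real.exp C₀ * Real.exp (7 / 2 * (N i : ℝ)) *
        Real.exp (40 * n * (gT ((N i : ℝ) / (40 * n)) + 331 / 100))) :=
      mul_le_mul_of_nonneg_left h1 (by positivity)
    have h6 : W * (3 / 100) ^ (N i) * (Real.exp C₀ * Real.exp (7 / 2 * (N i : ℝ)) *
        Real.exp (40 * n * (gT ((N i : ℝ) / (40 * n)) + 331 / 100))) =
        K * Real.exp (40 * n * (gT ((N i : ℝ) / (40 * n)) + 331 / 100)) *
          ((3 / 100) ^ (N i) * Real.exp (7 / 2 * (N i : ℝ))) := by rw [hK]; ring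
    rw [h6] at h5
    have h7 : K * Real.exp (40 * n * (gT ((N i : ℝ) / (40 * n)) + 331 / 100)) *
          ((3 / 100) ^ (N i) * Real.exp (7 / 2 * (N i : ℝ))) ≤
        K * Real.exp (40 * n * (gT ((N i : ℝ) / (40 * n)) + 331 / 100)) * 1 :=
      mul_le_mul_of_nonneg_left h2 (by positivity)
    linarith
  refine (sum_le_sum fun i _ => hterm i).trans ?_
  have h := T2.Cert.sum_log_node hK0 (c := 40 * (n : ℝ)) (by positivity) N hN
    (fun i => by have := (hr i).1; omega)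
  refine h.trans ?_
  have hl := log_half hn
  have hk : 0 ≤ Real.log (1 + K) := Real.log_nonneg (by linarith)
  push_cast
  have : 40 * (n : ℝ) * Real.log (1 + K) ≤ 80 * Real.log (1 + K) * n * Real.log (n + 1) := by
    have : 0 ≤ (n : ℝ) * Real.log (1 + K) := by positivity
    nlinarith
  linarith

theorem poles_of {C₀ : ℝ} (hg : LogG C₀)
    (hp : ∀ n : ℕ, 1 ≤ n → ∀ t : ℂ, |t.im| ≤ 1 / 4 → 0 < gTr (zT n) (sT n) (tT n) t)
    (W : ℝ) (hW : 1 ≤ W) : ∃ C : ℝ, ∀ n : ℕ, 1 ≤ n → ∀ J : ℕ,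
    ∀ s : Fin J × Bool → ℂ, (∀ p, (s p).re = p.1 + 1 / 2 ∧ |(s p).im| ≤ 1 / 4) →
    ∑ p : Fin J × Bool, Real.log (1 + W * (p.1 + 1) * (3 / 100) ^ (p.1 : ℕ) *
        gTr (zT n) (sT n) (tT n) (s p) / LC n) ≤
      2 * ((40 * n) ^ 2 * (339 / 16000)) + C * n * Real.log (n + 1) := by
  set K : ℝ := W * Real.exp C₀ * Real.exp (7 / 4) with hK
  have hK0 : 0 ≤ K := by positivity
  refine ⟨2 * (54 + 8 * K + 121 * (2 * Real.log (1 + K) + 11)), fun n hn J s hs => ?_⟩
  have hn0 : (0 : ℝ) < n := by exact_mod_cast hn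
  have hn1 : (1 : ℝ) ≤ n := by exact_mod_cast hn
  have hterm : ∀ p : Fin J × Bool, Real.log (1 + W * (p.1 + 1) * (3 / 100) ^ (p.1 : ℕ) *
        gTr (zT n) (sT n) (tT n) (s p) / LC n) ≤
      Real.log (1 + K * (((p.1 : ℕ) : ℝ) + 1) *
        Real.exp (40 * n * (gT ((((p.1 : ℕ) : ℝ) + 1 / 2) / (40 * n)) + 331 / 100))) := by
    intro p
    obtain ⟨j, b⟩ := p
    have hs1 := (hs (j, b)).1
    have hs2 := (hs (j, b)).2
    simp only at hs1 ⊢
    have hp' := hp n hn (s (j, b)) hs2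
    have hL := LC_pos n
    refine Real.log_le_log (by positivity) ?_
    have h1 := gTr_div_le hg n hn (s (j, b)) hs2 hp'
    have h2 := pow_rho (j : ℕ)
    rw [hs1] at h1
    have h3 : Real.exp (7 / 2 * (((j : ℕ) : ℝ) + 1 / 2)) =
        Real.exp (7 / 2 * ((j : ℕ) : ℝ)) * Real.exp (7 / 4) := by
      rw [← Real.exp_add]; congr 1; ring
    rw [h3] at h1
    have h4 : W * (((j : ℕ) : ℝ) + 1) * (3 / 100) ^ (j : ℕ) *
          gTr (zT n) (sT n) (tT n) (s (j, b)) / LC n =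
        W * (((j : ℕ) : ℝ) + 1) * (3 / 100) ^ (j : ℕ) *
          (gTr (zT n) (sT n) (tT n) (s (j, b)) / LC n) := by ring
    rw [h4]
    have h5 := mul_le_mul_of_nonneg_left h1
      (show 0 ≤ W * (((j : ℕ) : ℝ) + 1) * (3 / 100) ^ (j : ℕ) by positivity)
    have h7 : K * (((j : ℕ) : ℝ) + 1) *
        Real.exp (40 * n * (gT ((((j : ℕ) : ℝ) + 1 / 2) / (40 * n)) + 331 / 100)) *
          ((3 / 100) ^ (j : ℕ) * Real.exp (7 / 2 * ((j : ℕ) : ℝ))) ≤
        K * (((j : ℕ) : ℝ) + 1) *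
          Real.exp (40 * n * (gT ((((j : ℕ) : ℝ) + 1 / 2) / (40 * n)) + 331 / 100)) * 1 :=
      mul_le_mul_of_nonneg_left h2 (by positivity)
    have h6 : W * (((j : ℕ) : ℝ) + 1) * (3 / 100) ^ (j : ℕ) *
        (Real.exp C₀ * (Real.exp (7 / 2 * ((j : ℕ) : ℝ)) * Real.exp (7 / 4)) *
          Real.exp (40 * n * (gT ((((j : ℕ) : ℝ) + 1 / 2) / (40 * n)) + 331 / 100))) =
        K * (((j : ℕ) : ℝ) + 1) *
          Real.exp (40 * n * (gT ((((j : ℕ) : ℝ) + 1 / 2) / (40 * n)) + 331 / 100)) *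
          ((3 / 100) ^ (j : ℕ) * Real.exp (7 / 2 * ((j : ℕ) : ℝ))) := by rw [hK]; ring
    rw [h6] at h5
    linarith
  refine (sum_le_sum fun p _ => hterm p).trans ?_
  rw [Fintype.sum_prod_type]
  simp only [Fintype.sum_bool]
  rw [sum_add_distrib, Fin.sum_univ_eq_sum_range (fun j : ℕ => Real.log (1 + K * ((j : ℝ) + 1) *
        Real.exp (40 * n * (gT (((j : ℝ) + 1 / 2) / (40 * n)) + 331 / 100)))) J]
  have h := T2.Cert.sum_log_pole hK0 (c := 40 * (n : ℝ)) (by linarith) J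
  have hl := log_half hn
  have hk : 0 ≤ Real.log (1 + K) := Real.log_nonneg (by linarith)
  have h8 : Real.log (1 + K * (3 * (40 * (n : ℝ)) + 1)) ≤
      (2 * Real.log (1 + K) + 11) * Real.log (n + 1) := by
    have a : 1 + K * (3 * (40 * (n : ℝ)) + 1) ≤ (1 + K) * (121 * (n + 1)) := by nlinarith
    have b : Real.log 121 ≤ 5 := by
      rw [Real.log_le_iff_le_exp (by norm_num)]
      have : Real.exp 5 = Real.exp 1 ^ 5 := by rw [← Real.exp_nat_mul]; norm_num
      rw [this]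
      calc (121 : ℝ) ≤ 2.7182818283 ^ 5 := by norm_num
        _ ≤ Real.exp 1 ^ 5 := pow_le_pow_left₀ (by norm_num) Real.exp_one_gt_d9.le 5
    have c : Real.log (1 + K * (3 * (40 * (n : ℝ)) + 1)) ≤
        Real.log (1 + K) + (Real.log 121 + Real.log (n + 1)) := by
      rw [← Real.log_mul (by norm_num) (by positivity),
        ← Real.log_mul (by positivity) (by positivity)]
      exact Real.log_le_log (by positivity) a
    nlinarith
  have h9 : (3 * (40 * (n : ℝ)) + 1) * Real.log (1 + K * (3 * (40 * (n : ℝ)) + 1)) ≤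
      121 * n * ((2 * Real.log (1 + K) + 11) * Real.log (n + 1)) :=
    mul_le_mul (by linarith) h8 (Real.log_nonneg (by nlinarith)) (by positivity)
  have h10 : (40 * (n : ℝ)) * (669 / 1000) ≤ 54 * (n * Real.log (n + 1)) := by nlinarith
  have h11 : 4 * K ≤ 8 * K * (n * Real.log (n + 1)) := by
    have : 1 / 2 ≤ n * Real.log (n + 1) := by nlinarith
    nlinarith
  have h12 : 2 * (54 + 8 * K + 121 * (2 * Real.log (1 + K) + 11)) * n * Real.log (n + 1) =
      2 * (54 * (n * Real.log (n + 1)) + 8 * K * (n * Real.log (n + 1)) +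
        121 * n * ((2 * Real.log (1 + K) + 11) * Real.log (n + 1))) := by ring
  rw [h12]
  linarith

end T2.R8
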