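import Pool.Agent.T2.RE1

/-!
# T2, R8b: double sums of logarithms over two blocks

* `mono_block`: a monotone function summed over the midpoints of a block;
* `sum_logdist_block`: `∑_j log |x - m_j|` for `x` to the right of the block;
* `minus_block`, `plus_block`: the double sums.
-/

set_option autoImplicit false

namespace T2.R8a

open Real Finset

/-- the primitive of `Fu` -/
noncomputable def Gu (u : ℝ) : ℝ := u ^ 2 / 2 * log u - 3 / 4 * u ^ 2

lemma continuous_Gu : Continuous Gu := by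
  have h : Gu = fun u => u / 2 * (u * log u) - 3 / 4 * u ^ 2 := by
    funext u
    unfold Gu
    ring
  rw [h]
  exact ((continuous_id.div_const 2).mul continuous_mul_log).sub
    (continuous_const.mul (continuous_pow 2))

lemma hasDerivAt_Gu {u : ℝ} (hu : u ≠ 0) : HasDerivAt Gu (Fu u) u := by
  have h1 := ((hasDerivAt_pow 2 u).div_const 2).mul (hasDerivAt_log hu)
  have h2 := h1.sub ((hasDerivAt_pow 2 u).const_mul (3 / 4))
  refine h2.congr_deriv ?_
  unfold Fu
  simp only [Nat.cast_ofNat]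
  field_simp
  ring

lemma Gu_neg (u : ℝ) : Gu (-u) = Gu u := by
  unfold Gu
  rw [log_neg_eq_log]
  ring

lemma Fu_ge {u : ℝ} (hu : 0 ≤ u) : -1 ≤ Fu u := by
  rcases hu.eq_or_lt with rfl | h
  · rw [Fu_zero]; norm_num
  · have h1 := one_sub_inv_le_log_of_pos h
    unfold Fu
    have h2 := mul_le_mul_of_nonneg_left h1 h.le
    have h3 : u * (1 - u⁻¹) = u - 1 := by field_simp
    linarith

/-- `F(r) - F(l)` against the end values of a monotone derivative -/
lemma mono_cell {F f : ℝ → ℝ} {l r : ℝ} (hlr : l ≤ r) (hc : ContinuousOn F (Set.Icc l r))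
    (hd : ∀ y ∈ Set.Ioo l r, HasDerivAt F (f y) y) (hf : MonotoneOn f (Set.Icc l r)) :
    (r - l) * f l ≤ F r - F l ∧ F r - F l ≤ (r - l) * f r := by
  rcases hlr.eq_or_lt with rfl | h
  · simp
  · obtain ⟨c, hc1, hc2⟩ := exists_hasDerivAt_eq_slope F f h hc hd
    have h0 : 0 < r - l := by linarith
    have e : F r - F l = (r - l) * f c := by
      rw [hc2]
      field_simp
    rw [e]
    have m1 := hf (Set.left_mem_Icc.2 hlr) (Set.Ioo_subset_Icc_self hc1) hc1.1.le
    have m2 := hf (Set.Ioo_subset_Icc_self hc1) (Set.right_mem_Icc.2 hlr) hc1.2.le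
    exact ⟨mul_le_mul_of_nonneg_left m1 h0.le, mul_le_mul_of_nonneg_left m2 h0.le⟩

/-- **monotone function over a block** -/
theorem mono_block {F f : ℝ → ℝ} {a d : ℝ} (hd : 0 < d) (M : ℕ)
    (hc : ContinuousOn F (Set.Icc a (a + M / d)))
    (hF : ∀ y ∈ Set.Ioo a (a + M / d), HasDerivAt F (f y) y)
    (hf : MonotoneOn f (Set.Icc a (a + M / d))) :
    |∑ j ∈ range M, f (a + (j + 1 / 2) / d) - d * (F (a + M / d) - F a)| ≤
      f (a + M / d) - f a := by
  have key : ∀ j ∈ range M, |f (a + (j + 1 / 2) / d) -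
      d * (F (a + (j + 1 : ℕ) / d) - F (a + (j : ℕ) / d))| ≤
      f (a + (j + 1 : ℕ) / d) - f (a + (j : ℕ) / d) := by
    intro j hj
    have hjM : (j : ℝ) + 1 ≤ M := by exact_mod_cast mem_range.1 hj
    set l := a + (j : ℕ) / d with hl
    set r := a + ((j + 1 : ℕ) : ℝ) / d with hr
    set m := a + ((j : ℝ) + 1 / 2) / d with hm
    have i1 : a ≤ l := by
      rw [hl]
      have : (0 : ℝ) ≤ (j : ℝ) / d := by positivity
      linarith
    have i2 : r ≤ a + M / d := by
      rw [hr]
      push_cast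
      have := div_le_div_of_nonneg_right hjM hd.le
      linarith
    have i3 : l ≤ m := by
      rw [hl, hm]
      have : (j : ℝ) / d ≤ ((j : ℝ) + 1 / 2) / d := div_le_div_of_nonneg_right (by linarith) hd.le
      linarith
    have i4 : m ≤ r := by
      rw [hr, hm]
      push_cast
      have : ((j : ℝ) + 1 / 2) / d ≤ ((j : ℝ) + 1) / d :=
        div_le_div_of_nonneg_right (by linarith) hd.le
      linarith
    have hsub : Set.Icc l r ⊆ Set.Icc a (a + M / d) := Set.Icc_subset_Icc i1 i2
    have hsub' : Set.Ioo l r ⊆ Set.Ioo a (a + M / d) := Set.Ioo_subset_Ioo i1 i2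
    obtain ⟨c1, c2⟩ := mono_cell (i3.trans i4) (hc.mono hsub) (fun y hy => hF y (hsub' hy))
      (hf.mono hsub)
    have hrl : r - l = 1 / d := by
      rw [hr, hl]
      push_cast
      field_simp
      ring
    rw [hrl] at c1 c2
    have m1 : f l ≤ f m := hf (hsub ⟨le_rfl, i3.trans i4⟩) (hsub ⟨i3, i4⟩) i3
    have m2 : f m ≤ f r := hf (hsub ⟨i3, i4⟩) (hsub ⟨i3.trans i4, le_rfl⟩) i4
    have c1' : f l ≤ d * (F r - F l) := by
      have := mul_le_mul_of_nonneg_left c1 hd.le
      rwa [← mul_assoc, mul_one_div_cancel hd.ne', one_mul] at this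
    have c2' : d * (F r - F l) ≤ f r := by
      have := mul_le_mul_of_nonneg_left c2 hd.le
      rwa [← mul_assoc, mul_one_div_cancel hd.ne', one_mul] at this
    rw [abs_le]
    constructor <;> linarith
  have htel : ∑ j ∈ range M, d * (F (a + (j + 1 : ℕ) / d) - F (a + (j : ℕ) / d)) =
      d * (F (a + M / d) - F a) := by
    rw [← mul_sum, Finset.sum_range_sub (fun j : ℕ => F (a + (j : ℕ) / d))]
    simp
  have htel2 : ∑ j ∈ range M, (f (a + (j + 1 : ℕ) / d) - f (a + (j : ℕ) / d)) =
      f (a + M / d) - f a := by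
    rw [Finset.sum_range_sub (fun j : ℕ => f (a + (j : ℕ) / d))]
    simp
  rw [← htel, ← sum_sub_distrib]
  calc |∑ j ∈ range M, (f (a + (j + 1 / 2) / d) -
        d * (F (a + (j + 1 : ℕ) / d) - F (a + (j : ℕ) / d)))|
      ≤ ∑ j ∈ range M, |f (a + (j + 1 / 2) / d) -
        d * (F (a + (j + 1 : ℕ) / d) - F (a + (j : ℕ) / d))| := abs_sum_le_sum_abs _ _
    _ ≤ ∑ j ∈ range M, (f (a + (j + 1 : ℕ) / d) - f (a + (j : ℕ) / d)) := sum_le_sum key
    _ = f (a + M / d) - f a := htel2

/-- **real points to the right of a block** -/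
theorem sum_logdist_block {a d x δ : ℝ} (hd : 0 < d) (M : ℕ) (hδ : 0 < δ)
    (hx : a + M / d + δ ≤ x) :
    |∑ j ∈ range M, log (x - (a + (j + 1 / 2) / d)) - d * (Fu (x - a) - Fu (x - a - M / d))| ≤
      1 / (4 * d * δ) := by
  have key : ∀ j ∈ range M, |log (x - (a + (j + 1 / 2) / d)) -
      d * (-Fu (x - (a + (j + 1 : ℕ) / d)) - -Fu (x - (a + (j : ℕ) / d)))| ≤
      (1 / (x - (a + (j + 1 : ℕ) / d)) - 1 / (x - (a + (j : ℕ) / d))) / (4 * d) := by
    intro j hj
    have hjM : (j : ℝ) + 1 ≤ M := by exact_mod_cast mem_range.1 hj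
    set m := a + ((j : ℝ) + 1 / 2) / d with hm
    set h := 1 / (2 * d) with hh
    have hh0 : 0 < h := by positivity
    have e1 : a + ((j + 1 : ℕ) : ℝ) / d = m + h := by
      rw [hm, hh]
      push_cast
      field_simp
      ring
    have e2 : a + ((j : ℕ) : ℝ) / d = m - h := by
      rw [hm, hh]
      field_simp
      ring
    have i2 : m + h ≤ a + M / d := by
      rw [← e1]
      push_cast
      have := div_le_div_of_nonneg_right hjM hd.le
      linarith
    rw [e1, e2]
    have hpos : ∀ y ∈ Set.Icc (m - h) (m + h), 0 < x - y := fun y hy => by linarith [hy.2]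
    have h1 := mid_le (F := fun y => -Fu (x - y)) (f := fun y => log (x - y))
      (g := fun y => -1 / (x - y)) (m := m) (h := h)
      (ω := 1 / (x - (m + h)) - 1 / (x - (m - h))) hh0.le
      (fun y hy => by
        have h2 : HasDerivAt (fun y : ℝ => x - y) (-1) y := (hasDerivAt_id y).const_sub x
        have h3 : HasDerivAt (fun y : ℝ => -Fu (x - y)) (-(log (x - y) * (-1))) y :=
          ((hasDerivAt_Fu (hpos y hy).ne').comp y h2).neg
        convert h3 using 1
        ring)
      (fun y hy => by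
        have h2 : HasDerivAt (fun y : ℝ => x - y) (-1) y := (hasDerivAt_id y).const_sub x
        exact h2.log (hpos y hy).ne')
      (fun s hs => by
        have p1 : 0 < x - (m + s) := by linarith [hs.2]
        have p2 : 0 < x - (m - s) := by linarith [hs.1]
        have p3 : 0 < x - (m + h) := by linarith
        have p4 : 0 < x - (m - h) := by linarith
        have q1 : 1 / (x - (m + s)) ≤ 1 / (x - (m + h)) :=
          one_div_le_one_div_of_le p3 (by linarith [hs.2])
        have q2 : 1 / (x - (m - h)) ≤ 1 / (x - (m - s)) :=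
          one_div_le_one_div_of_le p2 (by linarith [hs.2])
        have q3 : 1 / (x - (m - s)) ≤ 1 / (x - (m + s)) :=
          one_div_le_one_div_of_le p1 (by linarith [hs.1])
        have e3 : -1 / (x - (m + s)) - -1 / (x - (m - s)) =
            -(1 / (x - (m + s)) - 1 / (x - (m - s))) := by ring
        rw [e3, abs_neg, abs_of_nonneg (by linarith)]
        linarith)
    set ω := 1 / (x - (m + h)) - 1 / (x - (m - h))
    have e3 : log (x - m) - d * (-Fu (x - (m + h)) - -Fu (x - (m - h))) =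
        -d * (-Fu (x - (m + h)) - -Fu (x - (m - h)) - 2 * h * log (x - m)) := by
      rw [hh]
      field_simp
      ring
    rw [e3, abs_mul, abs_neg, abs_of_pos hd]
    calc d * |-Fu (x - (m + h)) - -Fu (x - (m - h)) - 2 * h * log (x - m)| ≤ d * (ω * h ^ 2) :=
          mul_le_mul_of_nonneg_left h1 hd.le
      _ = ω / (4 * d) := by
          rw [hh]
          field_simp
          ring
  have htel : ∑ j ∈ range M, d * (-Fu (x - (a + (j + 1 : ℕ) / d)) - -Fu (x - (a + (j : ℕ) / d))) =
      d * (Fu (x - a) - Fu (x - a - M / d)) := by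
    rw [← mul_sum, Finset.sum_range_sub (fun j : ℕ => -Fu (x - (a + (j : ℕ) / d)))]
    have e : x - (a + M / d) = x - a - M / d := by ring
    rw [e]
    simp only [Nat.cast_zero, zero_div, add_zero]
    ring
  have htel2 : ∑ j ∈ range M, (1 / (x - (a + (j + 1 : ℕ) / d)) - 1 / (x - (a + (j : ℕ) / d))) /
      (4 * d) = (1 / (x - (a + M / d)) - 1 / (x - a)) / (4 * d) := by
    rw [← sum_div, Finset.sum_range_sub (fun j : ℕ => 1 / (x - (a + (j : ℕ) / d)))]
    simp
  rw [← htel, ← sum_sub_distrib]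
  have hMd : (0 : ℝ) ≤ M / d := by positivity
  have px : 0 < x - (a + M / d) := by linarith
  have px2 : 0 < x - a := by linarith
  calc |∑ j ∈ range M, (log (x - (a + (j + 1 / 2) / d)) -
        d * (-Fu (x - (a + (j + 1 : ℕ) / d)) - -Fu (x - (a + (j : ℕ) / d))))|
      ≤ ∑ j ∈ range M, |log (x - (a + (j + 1 / 2) / d)) -
        d * (-Fu (x - (a + (j + 1 : ℕ) / d)) - -Fu (x - (a + (j : ℕ) / d)))| :=
        abs_sum_le_sum_abs _ _
    _ ≤ ∑ j ∈ range M, (1 / (x - (a + (j + 1 : ℕ) / d)) - 1 / (x - (a + (j : ℕ) / d))) /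
        (4 * d) := sum_le_sum key
    _ = (1 / (x - (a + M / d)) - 1 / (x - a)) / (4 * d) := htel2
    _ ≤ (1 / δ) / (4 * d) := by
        refine div_le_div_of_nonneg_right ?_ (by positivity)
        have q1 : 1 / (x - (a + M / d)) ≤ 1 / δ := one_div_le_one_div_of_le hδ (by linarith)
        have q2 : 0 ≤ 1 / (x - a) := by positivity
        linarith
    _ = 1 / (4 * d * δ) := by field_simp

/-! ### double sums over two blocks -/

lemma Fu_sub_le {u v : ℝ} (hv : 0 ≤ v) (huv : v ≤ u) :
    Fu u - Fu v ≤ (u - v) * log (2 + u) := by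
  rcases hv.eq_or_lt with rfl | hv'
  · rcases huv.eq_or_lt with rfl | hu
    · simp
    · have h1 : log u ≤ log (2 + u) := log_le_log hu (by linarith)
      have h2 := mul_le_mul_of_nonneg_left h1 hu.le
      rw [Fu_zero, sub_zero, sub_zero]
      unfold Fu
      linarith
  · have hu : 0 < u := lt_of_lt_of_le hv' huv
    have h1 : log u ≤ log (2 + u) := log_le_log hu (by linarith)
    have h2 := mul_le_mul_of_nonneg_left h1 (sub_nonneg.2 huv)
    have h3 : log (u / v) ≤ u / v - 1 := log_le_sub_one_of_pos (by positivity)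
    have h4 := mul_le_mul_of_nonneg_left h3 hv
    rw [log_div hu.ne' hv'.ne'] at h4
    have h5 : v * (u / v - 1) = u - v := by field_simp
    unfold Fu
    linarith

lemma phi_der {a b x : ℝ} (hab : a ≤ b) (hx : b < x) :
    HasDerivAt (fun x => Fu (x - a) - Fu (x - b)) (log (x - a) - log (x - b)) x := by
  have g1 : HasDerivAt (fun x : ℝ => Fu (x - a)) (log (x - a)) x :=
    (hasDerivAt_Fu (sub_pos.2 (lt_of_le_of_lt hab hx)).ne').comp_sub_const x a
  have g2 : HasDerivAt (fun x : ℝ => Fu (x - b)) (log (x - b)) x :=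
    (hasDerivAt_Fu (sub_pos.2 hx).ne').comp_sub_const x b
  exact g1.sub g2

lemma phi_cont (a b : ℝ) : Continuous (fun x => Fu (x - a) - Fu (x - b)) :=
  (continuous_Fu.comp (continuous_id.sub continuous_const)).sub
    (continuous_Fu.comp (continuous_id.sub continuous_const))

lemma Phi_cont (a b : ℝ) : Continuous (fun x => Gu (x - a) - Gu (x - b)) :=
  (continuous_Gu.comp (continuous_id.sub continuous_const)).sub
    (continuous_Gu.comp (continuous_id.sub continuous_const))

lemma Phi_der {a b x : ℝ} (hab : a ≤ b) (hx : b < x) :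
    HasDerivAt (fun x => Gu (x - a) - Gu (x - b)) (Fu (x - a) - Fu (x - b)) x := by
  have g1 : HasDerivAt (fun x : ℝ => Gu (x - a)) (Fu (x - a)) x :=
    (hasDerivAt_Gu (sub_pos.2 (lt_of_le_of_lt hab hx)).ne').comp_sub_const x a
  have g2 : HasDerivAt (fun x : ℝ => Gu (x - b)) (Fu (x - b)) x :=
    (hasDerivAt_Gu (sub_pos.2 hx).ne').comp_sub_const x b
  exact g1.sub g2

lemma phi_mono {a b : ℝ} (hab : a ≤ b) :
    MonotoneOn (fun x => Fu (x - a) - Fu (x - b)) (Set.Ici b) := by
  apply monotoneOn_of_deriv_nonneg (convex_Ici b)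
  · exact (phi_cont a b).continuousOn
  · intro x hx
    rw [interior_Ici] at hx
    exact (phi_der hab hx).differentiableAt.differentiableWithinAt
  · intro x hx
    rw [interior_Ici] at hx
    rw [(phi_der hab hx).deriv]
    have hx' : b < x := hx
    have : log (x - b) ≤ log (x - a) := log_le_log (by linarith) (by linarith)
    linarith

/-- end values of `φ` -/
lemma phi_end {a b u v : ℝ} (hab : a ≤ b) (hu : b ≤ u) (huv : u ≤ v) :
    (Fu (v - a) - Fu (v - b)) - (Fu (u - a) - Fu (u - b)) ≤ (b - a) * log (2 + (v - a)) + 1 := by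
  have h1 : Fu (v - a) - Fu (v - b) ≤ (v - a - (v - b)) * log (2 + (v - a)) :=
    Fu_sub_le (by linarith) (by linarith)
  have h2 : Fu (b - a) - Fu (b - b) ≤ Fu (u - a) - Fu (u - b) :=
    phi_mono hab Set.self_mem_Ici hu hu
  have h3 : -1 ≤ Fu (b - a) := Fu_ge (by linarith)
  rw [sub_self, Fu_zero] at h2
  have e : v - a - (v - b) = b - a := by ring
  rw [e] at h1
  linarith

/-- the outer sum -/
lemma outer_block {a b a' d' : ℝ} (hd' : 0 < d') (M' : ℕ) (hab : a ≤ b) (h : b ≤ a') :
    |∑ j ∈ range M', (Fu (a' + (j + 1 / 2) / d' - a) - Fu (a' + (j + 1 / 2) / d' - b)) -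
      d' * ((Gu (a' + M' / d' - a) - Gu (a' + M' / d' - b)) - (Gu (a' - a) - Gu (a' - b)))| ≤
      (b - a) * log (2 + (a' + M' / d' - a)) + 1 := by
  have hM : (0 : ℝ) ≤ M' / d' := by positivity
  have h1 := mono_block (F := fun x => Gu (x - a) - Gu (x - b))
    (f := fun x => Fu (x - a) - Fu (x - b)) (a := a') hd' M' (Phi_cont a b).continuousOn
    (fun y hy => Phi_der hab (lt_of_le_of_lt h hy.1))
    ((phi_mono hab).mono (Set.Icc_subset_Ici_self.trans (Set.Ici_subset_Ici.2 h)))
  exact h1.trans (phi_end hab h (by linarith))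

lemma norm_tpt_sub (a d a' d' : ℝ) (i j : ℕ) :
    ‖tpt a' d' j - tpt a d i‖ = |a' + (j + 1 / 2) / d' - (a + (i + 1 / 2) / d)| := by
  have : tpt a' d' j - tpt a d i =
      ((a' + (j + 1 / 2) / d' - (a + (i + 1 / 2) / d) : ℝ) : ℂ) := by
    unfold tpt
    push_cast
    ring
  rw [this, Complex.norm_real, Real.norm_eq_abs]

/-- **D2, difference of two blocks**, the first block `[a, b]` to the left of the second. -/
theorem minus_block {a d a' d' : ℝ} (hd : 0 < d) (hd' : 0 < d') (M M' : ℕ)
    (h : a + M / d ≤ a') :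
    |∑ j ∈ range M', ∑ i ∈ range M, log ‖tpt a' d' j - tpt a d i‖ -
      d * d' * ((Gu (a' + M' / d' - a) - Gu (a' + M' / d' - (a + M / d))) -
        (Gu (a' - a) - Gu (a' - (a + M / d))))| ≤
      M' * d' / (2 * d) + M * log (2 + (a' + M' / d' - a)) + d := by
  have hM : (0 : ℝ) ≤ M / d := by positivity
  have inner : ∀ j ∈ range M', |∑ i ∈ range M, log ‖tpt a' d' j - tpt a d i‖ -
      d * (Fu (a' + (j + 1 / 2) / d' - a) - Fu (a' + (j + 1 / 2) / d' - (a + M / d)))| ≤
      d' / (2 * d) := by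
    intro j _
    have hj : 1 / (2 * d') ≤ (j + 1 / 2) / d' := by
      rw [div_le_div_iff₀ (by positivity) (by positivity)]
      have : (0 : ℝ) ≤ j := by positivity
      nlinarith [mul_nonneg this hd'.le]
    have h1 := sum_logdist_block (a := a) (d := d) (x := a' + (j + 1 / 2) / d')
      (δ := 1 / (2 * d')) hd M (by positivity) (by linarith)
    have e1 : ∑ i ∈ range M, log ‖tpt a' d' j - tpt a d i‖ =
        ∑ i ∈ range M, log (a' + (j + 1 / 2) / d' - (a + (i + 1 / 2) / d)) := by
      refine sum_congr rfl fun i hi => ?_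
      rw [norm_tpt_sub, log_abs]
    rw [e1]
    have e2 : a' + (j + 1 / 2) / d' - (a + M / d) = a' + (j + 1 / 2) / d' - a - M / d := by ring
    rw [e2]
    refine h1.trans (le_of_eq ?_)
    field_simp
    norm_num
  have hout := outer_block (a := a) (b := a + M / d) (a' := a') hd' M' (by linarith) h
  set T := ∑ j ∈ range M', (Fu (a' + (j + 1 / 2) / d' - a) -
    Fu (a' + (j + 1 / 2) / d' - (a + M / d))) with hT
  set G := ((Gu (a' + M' / d' - a) - Gu (a' + M' / d' - (a + M / d))) -
    (Gu (a' - a) - Gu (a' - (a + M / d)))) with hG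
  have s1 : |∑ j ∈ range M', ∑ i ∈ range M, log ‖tpt a' d' j - tpt a d i‖ - d * T| ≤
      M' * (d' / (2 * d)) := by
    rw [hT, mul_sum, ← sum_sub_distrib]
    calc _ ≤ ∑ j ∈ range M', |∑ i ∈ range M, log ‖tpt a' d' j - tpt a d i‖ -
          d * (Fu (a' + (j + 1 / 2) / d' - a) - Fu (a' + (j + 1 / 2) / d' - (a + M / d)))| :=
          abs_sum_le_sum_abs _ _
      _ ≤ ∑ _j ∈ range M', d' / (2 * d) := sum_le_sum inner
      _ = M' * (d' / (2 * d)) := by rw [sum_const, card_range, nsmul_eq_mul]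
  have s2 : |d * T - d * d' * G| ≤ d * ((a + M / d - a) * log (2 + (a' + M' / d' - a)) + 1) := by
    have : d * T - d * d' * G = d * (T - d' * G) := by ring
    rw [this, abs_mul, abs_of_pos hd]
    exact mul_le_mul_of_nonneg_left hout hd.le
  have e3 : d * ((a + M / d - a) * log (2 + (a' + M' / d' - a)) + 1) =
      M * log (2 + (a' + M' / d' - a)) + d := by
    field_simp
    ring
  rw [e3] at s2
  have s3 := abs_sub_le (∑ j ∈ range M', ∑ i ∈ range M, log ‖tpt a' d' j - tpt a d i‖) (d * T)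
    (d * d' * G)
  have e4 : (M' : ℝ) * d' / (2 * d) = M' * (d' / (2 * d)) := by ring
  rw [e4]
  linarith

/-- **D2, sum of two blocks**. -/
theorem plus_block {a d a' d' : ℝ} (hd : 0 < d) (hd' : 0 < d') (M M' : ℕ)
    (h : 0 ≤ a + a') :
    |∑ j ∈ range M', ∑ i ∈ range M, log ‖tpt a' d' j + tpt a d i‖ -
      d * d' * ((Gu (a' + M' / d' + (a + M / d)) - Gu (a' + M' / d' + a)) -
        (Gu (a' + (a + M / d)) - Gu (a' + a)))| ≤
      M' * (2 / d + 16 * d) + M * log (2 + (a' + M' / d' + (a + M / d))) + d := by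
  have hM : (0 : ℝ) ≤ M / d := by positivity
  have inner : ∀ j ∈ range M', |∑ i ∈ range M, log ‖tpt a' d' j + tpt a d i‖ -
      d * (Fu (a' + (j + 1 / 2) / d' + (a + M / d)) - Fu (a' + (j + 1 / 2) / d' + a))| ≤
      2 / d + 16 * d := by
    intro j _
    have e1 : (tpt a' d' j).im = 1 := by simp [tpt]
    have e2 : (tpt a' d' j).re = a' + (j + 1 / 2) / d' := by simp [tpt]
    have h1 := sum_log_block_add (a := a) (d := d) hd M (tpt a' d' j) (by rw [e1]; norm_num)
      (by rw [e1]; norm_num)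
    rw [e2] at h1
    have e3 : a' + ((j : ℝ) + 1 / 2) / d' + (a + M / d) = a' + (j + 1 / 2) / d' + a + M / d := by
      ring
    rw [e3]
    exact h1
  have hout := outer_block (a := -(a + M / d)) (b := -a) (a' := a') hd' M' (by linarith)
    (by linarith)
  have c1 : ∀ x : ℝ, x - -(a + M / d) = x + (a + M / d) := fun x => by ring
  have c2 : ∀ x : ℝ, x - -a = x + a := fun x => by ring
  simp only [c1, c2] at hout
  set T := ∑ j ∈ range M', (Fu (a' + (j + 1 / 2) / d' + (a + M / d)) -
    Fu (a' + (j + 1 / 2) / d' + a)) with hT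
  set G := ((Gu (a' + M' / d' + (a + M / d)) - Gu (a' + M' / d' + a)) -
        (Gu (a' + (a + M / d)) - Gu (a' + a))) with hG
  have s1 : |∑ j ∈ range M', ∑ i ∈ range M, log ‖tpt a' d' j + tpt a d i‖ - d * T| ≤
      M' * (2 / d + 16 * d) := by
    rw [hT, mul_sum, ← sum_sub_distrib]
    calc _ ≤ ∑ j ∈ range M', |∑ i ∈ range M, log ‖tpt a' d' j + tpt a d i‖ -
          d * (Fu (a' + (j + 1 / 2) / d' + (a + M / d)) - Fu (a' + (j + 1 / 2) / d' + a))| :=
          abs_sum_le_sum_abs _ _
      _ ≤ ∑ _j ∈ range M', (2 / d + 16 * d) := sum_le_sum inner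
      _ = M' * (2 / d + 16 * d) := by rw [sum_const, card_range, nsmul_eq_mul]
  have s2 : |d * T - d * d' * G| ≤
      d * ((-a + (a + M / d)) * log (2 + (a' + M' / d' + (a + M / d))) + 1) := by
    have : d * T - d * d' * G = d * (T - d' * G) := by ring
    rw [this, abs_mul, abs_of_pos hd]
    exact mul_le_mul_of_nonneg_left hout hd.le
  have e3 : d * ((-a + (a + M / d)) * log (2 + (a' + M' / d' + (a + M / d))) + 1) =
      M * log (2 + (a' + M' / d' + (a + M / d))) + d := by
    field_simp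
    ring
  rw [e3] at s2
  have s3 := abs_sub_le (∑ j ∈ range M', ∑ i ∈ range M, log ‖tpt a' d' j + tpt a d i‖) (d * T)
    (d * d' * G)
  linarith

end T2.R8a
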