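import Pool.Agent.T2.R8Defs
import Pool.Agent.T2.RE2
import Pool.Agent.QS2.EnVF

/-!
# T2, real side, module R8a: block lemmas for the trial points `tp a d j`

* `D1`, `D1'` : `∑_j log ‖t - tp a d j‖`, `∑_j log ‖t + tp a d j‖`;
* `D2_minus`, `D2_plus` : the double sums over two blocks;
* `D2_self_lt`, `D2_self` : the double sum over one block.
-/

set_option autoImplicit false

namespace T2.R8

open Finset Real

/-- **D1** -/
theorem D1 {a d : ℝ} (hd : 0 < d) (M : ℕ) (t : ℂ) (h1 : -(5 / 2) ≤ t.im)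
    (h2 : t.im ≤ 1 / 4) :
    |∑ j ∈ range M, Real.log ‖t - tp a d j‖ - d * (Fu (t.re - a) - Fu (t.re - a - M / d))| ≤
      2 / d + 16 * d :=
  T2.R8a.sum_log_block hd M t h1 h2

/-- **D1'** -/
theorem D1' {a d : ℝ} (hd : 0 < d) (M : ℕ) (t : ℂ) (h1 : -(1 / 4) ≤ t.im)
    (h2 : t.im ≤ 5 / 2) :
    |∑ j ∈ range M, Real.log ‖t + tp a d j‖ - d * (Fu (t.re + a + M / d) - Fu (t.re + a))| ≤
      2 / d + 16 * d :=
  T2.R8a.sum_log_block_add hd M t h1 h2

/-- **D2, difference**: block `(a, d, M)` to the left of block `(a', d', M')` -/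
theorem D2_minus {a d a' d' : ℝ} (hd : 0 < d) (hd' : 0 < d') (M M' : ℕ)
    (h : a + M / d ≤ a') :
    |∑ j ∈ range M', ∑ i ∈ range M, Real.log ‖tp a' d' j - tp a d i‖ -
      d * d' * ((Gu (a' + M' / d' - a) - Gu (a' + M' / d' - (a + M / d))) -
        (Gu (a' - a) - Gu (a' - (a + M / d))))| ≤
      M' * d' / (2 * d) + M * Real.log (2 + (a' + M' / d' - a)) + d :=
  T2.R8a.minus_block hd hd' M M' h

/-- **D2, sum** -/
theorem D2_plus {a d a' d' : ℝ} (hd : 0 < d) (hd' : 0 < d') (M M' : ℕ) (h : 0 ≤ a + a') :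
    |∑ j ∈ range M', ∑ i ∈ range M, Real.log ‖tp a' d' j + tp a d i‖ -
      d * d' * ((Gu (a' + M' / d' + (a + M / d)) - Gu (a' + M' / d' + a)) -
        (Gu (a' + (a + M / d)) - Gu (a' + a)))| ≤
      M' * (2 / d + 16 * d) + M * Real.log (2 + (a' + M' / d' + (a + M / d))) + d :=
  T2.R8a.plus_block hd hd' M M' h

lemma norm_tp_self {a d : ℝ} (hd : 0 < d) (i j : ℕ) :
    ‖tp a d j - tp a d i‖ = |(j : ℝ) - i| / d := by
  have h := T2.R8a.norm_tpt_sub a d a d i j
  have e : a + ((j : ℝ) + 1 / 2) / d - (a + (i + 1 / 2) / d) = (j - i) / d := by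
    field_simp
    ring
  rw [e, abs_div, abs_of_pos hd] at h
  exact h

lemma log_fac_reflect (j : ℕ) : ∑ i ∈ range j, Real.log ((j : ℝ) - i) = Pool.QS2E.S j := by
  have h1 := Finset.sum_range_reflect (fun k : ℕ => Real.log ((k : ℝ) + 1)) j
  have h2 : ∑ i ∈ range j, Real.log (((j - 1 - i : ℕ) : ℝ) + 1) =
      ∑ i ∈ range j, Real.log ((j : ℝ) - i) := by
    refine sum_congr rfl fun i hi => ?_
    have hij : i < j := mem_range.1 hi
    have e : ((j - 1 - i : ℕ) : ℝ) = (j : ℝ) - 1 - i := by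
      rw [Nat.cast_sub (by omega), Nat.cast_sub (by omega)]
      simp
    rw [e]
    congr 1
    ring
  rw [← h2, h1]
  unfold Pool.QS2E.S
  clear h1 h2
  induction j with
  | zero => simp
  | succ n ih =>
    rw [sum_range_succ, ih, Nat.factorial_succ]
    push_cast
    rw [Real.log_mul (by positivity) (by positivity)]
    ring

/-- **D2, one block, pairs `i < j`** -/
theorem D2_self_lt {a d : ℝ} (hd : 0 < d) (M : ℕ) :
    |∑ j ∈ range M, ∑ i ∈ range j, Real.log ‖tp a d j - tp a d i‖ - d ^ 2 * Gu (M / d)| ≤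
      3 * M * (Real.log ((M : ℝ) + 1) + 1) + M * |Real.log d| / 2 := by
  have e1 : ∑ j ∈ range M, ∑ i ∈ range j, Real.log ‖tp a d j - tp a d i‖ =
      Pool.QS2E.SF M - (∑ j ∈ range M, (j : ℝ)) * Real.log d := by
    unfold Pool.QS2E.SF
    rw [sum_mul, ← sum_sub_distrib]
    refine sum_congr rfl fun j _ => ?_
    rw [← log_fac_reflect j]
    have : ∀ i ∈ range j, Real.log ‖tp a d j - tp a d i‖ = Real.log ((j : ℝ) - i) - Real.log d := by
      intro i hi
      have hij : (i : ℝ) < j := by exact_mod_cast mem_range.1 hi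
      rw [norm_tp_self hd, abs_of_pos (by linarith), Real.log_div (by linarith) hd.ne']
    rw [sum_congr rfl this, sum_sub_distrib, sum_const, card_range, nsmul_eq_mul]
  have e2 : (∑ j ∈ range M, (j : ℝ)) = (M : ℝ) * (M - 1) / 2 := by
    clear e1
    induction M with
    | zero => simp
    | succ n ih =>
      rw [sum_range_succ, ih]
      push_cast
      ring
  have e3 : d ^ 2 * Gu (M / d) = Pool.QS2E.HH M - (M : ℝ) ^ 2 / 2 * Real.log d := by
    rcases Nat.eq_zero_or_pos M with rfl | hM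
    · simp [Gu, Pool.QS2E.HH]
    · have hM' : (0 : ℝ) < M := by exact_mod_cast hM
      unfold Gu Pool.QS2E.HH
      rw [Real.log_div hM'.ne' hd.ne']
      field_simp
      ring
  have h1 := Pool.QS2E.SF_bd M
  rw [e1, e2, e3]
  have e4 : Pool.QS2E.SF M - (M : ℝ) * (M - 1) / 2 * Real.log d -
      (Pool.QS2E.HH M - (M : ℝ) ^ 2 / 2 * Real.log d) =
      (Pool.QS2E.SF M - Pool.QS2E.HH M) + M * Real.log d / 2 := by ring
  rw [e4]
  refine (abs_add_le _ _).trans (add_le_add h1 (le_of_eq ?_))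
  rw [abs_div, abs_mul, Nat.abs_cast]
  norm_num

/-- **D2, one block, pairs `i ≠ j`** -/
theorem D2_self {a d : ℝ} (hd : 0 < d) (M : ℕ) :
    |∑ j ∈ range M, ∑ i ∈ (range M).erase j, Real.log ‖tp a d j - tp a d i‖ -
      2 * d ^ 2 * Gu (M / d)| ≤
      6 * M * (Real.log ((M : ℝ) + 1) + 1) + M * |Real.log d| := by
  have e : ∑ j ∈ range M, ∑ i ∈ (range M).erase j, Real.log ‖tp a d j - tp a d i‖ =
      2 * ∑ j ∈ range M, ∑ i ∈ range j, Real.log ‖tp a d j - tp a d i‖ := by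
    have h0 : ∀ j : ℕ, Real.log ‖tp a d j - tp a d j‖ = 0 := fun j => by simp
    have h1 : ∀ j ∈ range M, ∑ i ∈ (range M).erase j, Real.log ‖tp a d j - tp a d i‖ =
        ∑ i ∈ range M, Real.log ‖tp a d j - tp a d i‖ := by
      intro j hj
      rw [← add_sum_erase _ _ hj, h0, zero_add]
    rw [sum_congr rfl h1]
    clear h1
    induction M with
    | zero => simp
    | succ n ih =>
      rw [sum_range_succ]
      have h2 : ∑ j ∈ range n, ∑ i ∈ range (n + 1), Real.log ‖tp a d j - tp a d i‖ =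
          ∑ j ∈ range n, ∑ i ∈ range n, Real.log ‖tp a d j - tp a d i‖ +
          ∑ j ∈ range n, Real.log ‖tp a d n - tp a d j‖ := by
        rw [← sum_add_distrib]
        refine sum_congr rfl fun j _ => ?_
        rw [sum_range_succ, norm_sub_rev (tp a d j) (tp a d n)]
      rw [h2, ih, sum_range_succ (fun i => Real.log ‖tp a d n - tp a d i‖), h0,
        sum_range_succ (fun j => ∑ i ∈ range j, Real.log ‖tp a d j - tp a d i‖)]
      ring
  have h := D2_self_lt (a := a) hd M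
  have e2 : 2 * ∑ j ∈ range M, ∑ i ∈ range j, Real.log ‖tp a d j - tp a d i‖ -
      2 * d ^ 2 * Gu (M / d) =
      2 * (∑ j ∈ range M, ∑ i ∈ range j, Real.log ‖tp a d j - tp a d i‖ - d ^ 2 * Gu (M / d)) := by
    ring
  rw [e, e2, abs_mul, abs_two]
  linarith

end T2.R8
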