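import Pool.Agent.T2.R8b
import Pool.Agent.T2.R8Defs

/-!
# T2, real side, R8b: midpoint sums of `Fu`
-/

set_option autoImplicit false

namespace T2.R8

open Finset

theorem sumF : ∃ C, ∀ (a s x : ℝ) (m : ℕ), 1 / 3 ≤ s → s ≤ 8 →
    |∑ j ∈ range m, Fu (a + s * (j + 1 / 2) - x) - 1 / s * (Gu (a + s * m - x) - Gu (a - x))| ≤
      C * (2 + |x| + |a| + s * m) * Real.log (2 + |x| + |a| + s * m) :=
  ⟨90, fun a s x m hs hs' => sumF0 a s x m hs hs'⟩

end T2.R8
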