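import Pool.Agent.T2.R8b
import Pool.Agent.T2.R8Defs

/-!
# T2, real side, R8e: the sum of `hB` over all nodes (helper19)
-/

set_option autoImplicit false

namespace T2.R8

open Finset

theorem hasDerivAt_Gu (u : ℝ) : HasDerivAt Gu (Fu u) u := by
  unfold Fu
  have hG : Gu = fun u : ℝ => u ^ 2 / 2 * Real.log u - 3 / 4 * u ^ 2 := by
    funext u; rfl
  rw [hG]
  rcases eq_or_ne u 0 with h | h
  · subst h
    rw [hasDerivAt_iff_tendsto_slope_zero]
    have h1 : Filter.Tendsto (fun t : ℝ => t * Real.log t / 2 - 3 / 4 * t) (nhdsWithin 0 {0}ᶜ)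
        (nhds (0 * Real.log 0 / 2 - 3 / 4 * 0)) := by
      apply Filter.Tendsto.mono_left _ nhdsWithin_le_nhds
      apply Continuous.tendsto (f := fun t : ℝ => t * Real.log t / 2 - 3 / 4 * t)
      exact (Real.continuous_mul_log.div_const 2).sub (continuous_const.mul continuous_id)
    simp only [zero_mul, zero_div, mul_zero, sub_zero] at h1 ⊢
    refine h1.congr' ?_
    filter_upwards [self_mem_nhdsWithin] with t ht
    have ht' : t ≠ 0 := ht
    simp only [zero_add, smul_eq_mul, ne_eq, OfNat.ofNat_ne_zero, not_false_eq_true, zero_pow, zero_div, zero_mul,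
      mul_zero, sub_zero]
    field_simp
  · have h1 := Real.hasDerivAt_log h
    have h2 : HasDerivAt (fun u : ℝ => u ^ 2) (2 * u) u := by
      simpa using hasDerivAt_pow 2 u
    have h3 := ((h2.div_const 2).mul h1).sub (h2.const_mul (3 / 4))
    refine h3.congr_deriv ?_
    field_simp
    ring

theorem Fu_neg (u : ℝ) : Fu (-u) = -Fu u := by
  unfold Fu; rw [Real.log_neg_eq_log]; ring

theorem Gu_neg (u : ℝ) : Gu (-u) = Gu u := by
  unfold Gu; rw [Real.log_neg_eq_log]; ring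

theorem Fu_scale {l : ℝ} (hl : 0 < l) (u : ℝ) : Fu (l * u) = l * Fu u + l * u * Real.log l := by
  rcases eq_or_ne u 0 with h | h
  · subst h; simp [Fu]
  · unfold Fu; rw [Real.log_mul hl.ne' h]; ring

theorem Gu_scale {l : ℝ} (hl : 0 < l) (u : ℝ) : Gu (l * u) = l ^ 2 * Gu u + l ^ 2 * u ^ 2 / 2 * Real.log l := by
  rcases eq_or_ne u 0 with h | h
  · subst h; simp [Gu]
  · unfold Gu; rw [Real.log_mul hl.ne' h]; ring

theorem abs_mul_log_le {u R : ℝ} (hu : |u| ≤ R) (hR : 1 ≤ R) : |u * Real.log u| ≤ R * Real.log R + 1 := by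
  have hlR : 0 ≤ R * Real.log R := mul_nonneg (by linarith) (Real.log_nonneg hR)
  have h0 : |u * Real.log u| = |u| * |Real.log (abs u)| := by
    rw [abs_mul, Real.log_abs]
  rw [h0]
  have hu0 := abs_nonneg u
  generalize |u| = t at hu hu0
  rcases le_or_gt t 1 with h | h
  · have h1 : |Real.log t| = - Real.log t := abs_of_nonpos (Real.log_nonpos hu0 h)
    rw [h1]
    rcases eq_or_lt_of_le hu0 with h2 | h2
    · rw [← h2]; simp; linarith
    · have h3 := Real.one_sub_inv_le_log_of_pos h2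
      have h4 := mul_le_mul_of_nonneg_left h3 h2.le
      have h5 : t * (1 - t⁻¹) = t - 1 := by
        field_simp
      rw [h5] at h4
      linarith
  · have h1 : |Real.log t| = Real.log t := abs_of_nonneg (Real.log_nonneg h.le)
    rw [h1]
    have h2 : Real.log t ≤ Real.log R := Real.log_le_log (by linarith) hu
    have h3 : t * Real.log t ≤ R * Real.log R := mul_le_mul hu h2 (Real.log_nonneg h.le) (by linarith)
    linarith

theorem abs_Fu_le {u R : ℝ} (hu : |u| ≤ R) (hR : 1 ≤ R) : |Fu u| ≤ R * Real.log R + 1 + R := by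
  unfold Fu
  calc |u * Real.log u - u| ≤ |u * Real.log u| + |u| := abs_sub _ _
    _ ≤ _ := by linarith [abs_mul_log_le hu hR]

/-- the primitive changes slowly -/
theorem abs_Gu_sub_le {u v d R : ℝ} (hu : |u| ≤ R) (hv : |v| ≤ R) (hR : 1 ≤ R) (hd : |u - v| ≤ d) :
    |Gu u - Gu v| ≤ d * (R * Real.log R + 1 + R) := by
  have hb : 0 ≤ R * Real.log R + 1 + R := by
    have : 0 ≤ R * Real.log R := mul_nonneg (by linarith) (Real.log_nonneg hR)
    linarith
  have h := Convex.norm_image_sub_le_of_norm_hasDerivWithin_le (f := Gu) (f' := Fu) (s := Set.Icc (-R) R)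
    (C := R * Real.log R + 1 + R) (x := v) (y := u) (fun x _ => (hasDerivAt_Gu x).hasDerivWithinAt)
    (fun x hx => by
      rw [Real.norm_eq_abs]
      exact abs_Fu_le (abs_le.2 hx) hR) (convex_Icc _ _) (abs_le.1 hv) (abs_le.1 hu)
  rw [Real.norm_eq_abs, Real.norm_eq_abs] at h
  refine h.trans ?_
  rw [mul_comm]
  exact mul_le_mul_of_nonneg_right hd hb

private theorem Rbound {n : ℕ} (hn : 1 ≤ n) {R : ℝ} (h1 : 1 ≤ R) (h2 : R ≤ 110 * n) :
    R * Real.log R ≤ 880 * n * Real.log (n + 1) := by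
  have hn0 : (1 : ℝ) ≤ n := by exact_mod_cast hn
  have hl : 0 ≤ Real.log R := Real.log_nonneg h1
  have h3 : Real.log R ≤ Real.log (110 * n) := Real.log_le_log (by linarith) h2
  have h4 : Real.log (110 * n) = Real.log 110 + Real.log n := Real.log_mul (by norm_num) (by linarith)
  have h5 : Real.log 110 ≤ 7 * Real.log 2 := by
    have : Real.log (2 ^ 7) = 7 * Real.log 2 := by
      rw [Real.log_pow]; norm_num
    rw [← this]
    exact Real.log_le_log (by norm_num) (by norm_num)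
  have h6 : Real.log 2 ≤ Real.log (n + 1) := Real.log_le_log (by norm_num) (by linarith)
  have h7 : Real.log n ≤ Real.log (n + 1) := Real.log_le_log (by linarith) (by linarith)
  have h8 : Real.log R ≤ 8 * Real.log (n + 1) := by linarith
  calc R * Real.log R ≤ 110 * n * (8 * Real.log (n + 1)) := mul_le_mul h2 h8 hl (by linarith)
    _ = _ := by ring

set_option maxHeartbeats 2000000 in
/-- the sums over the nodes `2 ≤ N ≤ 40 n + 12` at the integer scale -/
theorem node_sum {n : ℕ} (hn : 1 ≤ n) {e : ℝ} (he0 : 0 ≤ e) (he : e ≤ 10) :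
    |∑ j ∈ range (40 * n + 11), (Fu (4 * n * e - ((j : ℝ) + 2)) + Fu (4 * n * e + ((j : ℝ) + 2))) -
      (Gu (4 * n * (10 + e)) - Gu (4 * n * (10 - e)))| ≤ 300000 * n * Real.log (n + 1) := by
  have hn0 : (1 : ℝ) ≤ n := by exact_mod_cast hn
  have hne : 0 ≤ (n : ℝ) * e := by positivity
  have hne' : (n : ℝ) * e ≤ n * 10 := mul_le_mul_of_nonneg_left he (by linarith)
  have hL : 0 < Real.log ((n : ℝ) + 1) := Real.log_pos (by linarith)
  have hL2 : 2 / 3 ≤ Real.log ((n : ℝ) + 1) := by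
    have h1 := Real.log_two_gt_d9
    have h2 : Real.log 2 ≤ Real.log ((n : ℝ) + 1) := Real.log_le_log (by norm_num) (by linarith)
    linarith
  -- the two Riemann sums
  have hR1 : (2 : ℝ) + |-(4 * n * e)| + |(3 / 2 : ℝ)| + 1 * ((40 * n + 11 : ℕ) : ℝ) ≤ 110 * n := by
    rw [abs_neg, abs_of_nonneg (by positivity), abs_of_nonneg (by norm_num)]
    push_cast
    linarith
  have hR2 : (2 : ℝ) + |4 * n * e| + |(3 / 2 : ℝ)| + 1 * ((40 * n + 11 : ℕ) : ℝ) ≤ 110 * n := by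
    rw [abs_of_nonneg (by positivity), abs_of_nonneg (by norm_num)]
    push_cast
    linarith
  have hR1' : (1 : ℝ) ≤ (2 : ℝ) + |-(4 * n * e)| + |(3 / 2 : ℝ)| + 1 * ((40 * n + 11 : ℕ) : ℝ) := by
    have := abs_nonneg (-(4 * n * e))
    have := abs_nonneg (3 / 2 : ℝ)
    have : (0 : ℝ) ≤ 1 * ((40 * n + 11 : ℕ) : ℝ) := by positivity
    linarith
  have hR2' : (1 : ℝ) ≤ (2 : ℝ) + |4 * n * e| + |(3 / 2 : ℝ)| + 1 * ((40 * n + 11 : ℕ) : ℝ) := by
    have := abs_nonneg (4 * n * e)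
    have := abs_nonneg (3 / 2 : ℝ)
    have : (0 : ℝ) ≤ 1 * ((40 * n + 11 : ℕ) : ℝ) := by positivity
    linarith
  have s1 := sumF0 (3 / 2) 1 (-(4 * n * e)) (40 * n + 11) (by norm_num) (by norm_num)
  have s2 := sumF0 (3 / 2) 1 (4 * n * e) (40 * n + 11) (by norm_num) (by norm_num)
  have b1 := Rbound hn hR1' hR1
  have b2 := Rbound hn hR2' hR2
  have s1' : |∑ j ∈ range (40 * n + 11), Fu (4 * n * e + ((j : ℝ) + 2)) -
      (Gu (3 / 2 + ((40 * n + 11 : ℕ) : ℝ) + 4 * n * e) - Gu (3 / 2 + 4 * n * e))| ≤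
      79200 * n * Real.log (n + 1) := by
    have e1 : ∑ j ∈ range (40 * n + 11), Fu (4 * n * e + ((j : ℝ) + 2)) -
        (Gu (3 / 2 + ((40 * n + 11 : ℕ) : ℝ) + 4 * n * e) - Gu (3 / 2 + 4 * n * e)) =
        ∑ j ∈ range (40 * n + 11), Fu (3 / 2 + 1 * (j + 1 / 2) - -(4 * n * e)) -
        1 / 1 * (Gu (3 / 2 + 1 * ((40 * n + 11 : ℕ) : ℝ) - -(4 * n * e)) - Gu (3 / 2 - -(4 * n * e))) := by
      have e2 : ∀ j : ℕ, Fu (4 * n * e + ((j : ℝ) + 2)) = Fu (3 / 2 + 1 * (j + 1 / 2) - -(4 * n * e)) := by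
        intro j
        congr 1
        ring
      rw [Finset.sum_congr rfl fun j _ => e2 j]
      congr 1
      rw [one_mul, sub_neg_eq_add, sub_neg_eq_add]
      ring
    rw [e1]
    refine (show _ ≤ _ from s1).trans ?_
    calc _ = 90 * ((2 + |-(4 * n * e)| + |(3 / 2 : ℝ)| + 1 * ((40 * n + 11 : ℕ) : ℝ)) *
          Real.log (2 + |-(4 * n * e)| + |(3 / 2 : ℝ)| + 1 * ((40 * n + 11 : ℕ) : ℝ))) := by ring
      _ ≤ 90 * (880 * n * Real.log (n + 1)) := mul_le_mul_of_nonneg_left b1 (by norm_num)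
      _ = _ := by ring
  have s2' : |∑ j ∈ range (40 * n + 11), -Fu (4 * n * e - ((j : ℝ) + 2)) -
      (Gu (3 / 2 + ((40 * n + 11 : ℕ) : ℝ) - 4 * n * e) - Gu (3 / 2 - 4 * n * e))| ≤
      79200 * n * Real.log (n + 1) := by
    have e1 : ∑ j ∈ range (40 * n + 11), -Fu (4 * n * e - ((j : ℝ) + 2)) -
        (Gu (3 / 2 + ((40 * n + 11 : ℕ) : ℝ) - 4 * n * e) - Gu (3 / 2 - 4 * n * e)) =
        ∑ j ∈ range (40 * n + 11), Fu (3 / 2 + 1 * (j + 1 / 2) - 4 * n * e) -
        1 / 1 * (Gu (3 / 2 + 1 * ((40 * n + 11 : ℕ) : ℝ) - 4 * n * e) - Gu (3 / 2 - 4 * n * e)) := by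
      have e2 : ∀ j : ℕ, -Fu (4 * n * e - ((j : ℝ) + 2)) = Fu (3 / 2 + 1 * (j + 1 / 2) - 4 * n * e) := by
        intro j
        rw [← Fu_neg]
        congr 1
        ring
      rw [Finset.sum_congr rfl fun j _ => e2 j]
      congr 1
      rw [one_mul]
      ring
    rw [e1]
    refine (show _ ≤ _ from s2).trans ?_
    calc _ = 90 * ((2 + |4 * n * e| + |(3 / 2 : ℝ)| + 1 * ((40 * n + 11 : ℕ) : ℝ)) *
          Real.log (2 + |4 * n * e| + |(3 / 2 : ℝ)| + 1 * ((40 * n + 11 : ℕ) : ℝ))) := by ring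
      _ ≤ 90 * (880 * n * Real.log (n + 1)) := mul_le_mul_of_nonneg_left b2 (by norm_num)
      _ = _ := by ring
  -- the end points
  have hRR : (110 * n : ℝ) * Real.log (110 * n) + 1 + 110 * n ≤ 1050 * n * Real.log (n + 1) := by
    have h1 := Rbound hn (R := 110 * n) (by linarith) le_rfl
    have h2 : (n : ℝ) * (2 / 3) ≤ n * Real.log (n + 1) := mul_le_mul_of_nonneg_left hL2 (by linarith)
    linarith
  have hend : ∀ u v d : ℝ, |u| ≤ 110 * n → |v| ≤ 110 * n → |u - v| ≤ d → 0 ≤ d →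
      |Gu u - Gu v| ≤ d * (1050 * n * Real.log (n + 1)) := by
    intro u v d hu hv hd hd0
    exact (abs_Gu_sub_le hu hv (by linarith) hd).trans (mul_le_mul_of_nonneg_left hRR hd0)
  have t1 := hend (3 / 2 + ((40 * n + 11 : ℕ) : ℝ) + 4 * n * e) (4 * n * (10 + e)) (25 / 2)
    (by push_cast; rw [abs_le]; constructor <;> linarith) (by rw [abs_le]; constructor <;> linarith)
    (by push_cast; rw [abs_le]; constructor <;> linarith) (by norm_num)
  have t2 := hend (3 / 2 + ((40 * n + 11 : ℕ) : ℝ) - 4 * n * e) (4 * n * (10 - e)) (25 / 2)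
    (by push_cast; rw [abs_le]; constructor <;> linarith) (by rw [abs_le]; constructor <;> linarith)
    (by push_cast; rw [abs_le]; constructor <;> linarith) (by norm_num)
  have t3 := hend (3 / 2 + 4 * n * e) (4 * n * e) (3 / 2)
    (by rw [abs_le]; constructor <;> linarith) (by rw [abs_le]; constructor <;> linarith)
    (by rw [abs_le]; constructor <;> linarith) (by norm_num)
  have t4 := hend (3 / 2 - 4 * n * e) (-(4 * n * e)) (3 / 2)
    (by rw [abs_le]; constructor <;> linarith) (by rw [abs_le]; constructor <;> linarith)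
    (by rw [abs_le]; constructor <;> linarith) (by norm_num)
  rw [Gu_neg] at t4
  rw [Finset.sum_add_distrib]
  rw [Finset.sum_neg_distrib] at s2'
  rw [abs_le] at s1' s2' t1 t2 t3 t4 ⊢
  constructor <;> linarith [s1'.1, s1'.2, s2'.1, s2'.2, t1.1, t1.2, t2.1, t2.2, t3.1, t3.2, t4.1, t4.2]

/-- the sum of `hB` over all nodes -/
theorem hB_sum : ∃ C : ℝ, ∀ n : ℕ, 1 ≤ n →
    |∑ N ∈ Icc 2 (40 * n + 12), 4 * n * hB ((N : ℝ) / (4 * n)) - 16 * n ^ 2 * eH| ≤
      C * n * Real.log (n + 1) := by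
  refine ⟨600000, fun n hn => ?_⟩
  have hn0 : (1 : ℝ) ≤ n := by exact_mod_cast hn
  have h4 : (0 : ℝ) < 4 * n := by linarith
  -- the terms at the integer scale
  have hterm : ∀ N : ℝ, 4 * n * hB (N / (4 * n)) = 1 / 2 * (
      (Fu (4 * n * 10 - N) + Fu (4 * n * 10 + N)) - (Fu (4 * n * 1 - N) + Fu (4 * n * 1 + N))
      - 3 / 4 * (Fu (4 * n * 2 - N) + Fu (4 * n * 2 + N)) - 1 / 2 * (Fu (4 * n * 4 - N) + Fu (4 * n * 4 + N))
      - 1 / 4 * (Fu (4 * n * 6 - N) + Fu (4 * n * 6 + N)) - 1 / 2 * (Fu (4 * n * 8 - N) + Fu (4 * n * 8 + N))) := by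
    intro N
    have hs : ∀ e : ℝ, Fu (4 * n * e - N) = 4 * n * Fu (e - N / (4 * n)) + (4 * n * e - N) * Real.log (4 * n) := by
      intro e
      have h1 := Fu_scale h4 (e - N / (4 * n))
      have h2 : 4 * (n : ℝ) * (e - N / (4 * n)) = 4 * n * e - N := by
        field_simp
      rw [h2] at h1
      exact h1
    have hs' : ∀ e : ℝ, Fu (4 * n * e + N) = 4 * n * Fu (e + N / (4 * n)) + (4 * n * e + N) * Real.log (4 * n) := by
      intro e
      have h1 := Fu_scale h4 (e + N / (4 * n))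
      have h2 : 4 * (n : ℝ) * (e + N / (4 * n)) = 4 * n * e + N := by
        field_simp
      rw [h2] at h1
      exact h1
    rw [hs, hs, hs, hs, hs, hs, hs', hs', hs', hs', hs', hs']
    unfold hB
    ring
  have hIcc : ∀ f : ℝ → ℝ, ∑ N ∈ Icc 2 (40 * n + 12), f (N : ℕ) = ∑ j ∈ range (40 * n + 11), f ((j : ℝ) + 2) := by
    intro f
    have h1 : Icc 2 (40 * n + 12) = Ico 2 (40 * n + 13) := by
      ext x
      simp only [Finset.mem_Icc, Finset.mem_Ico]
      omega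
    rw [h1, Finset.sum_Ico_eq_sum_range]
    have h2 : 40 * n + 13 - 2 = 40 * n + 11 := by omega
    rw [h2]
    refine Finset.sum_congr rfl fun j _ => ?_
    push_cast
    rw [add_comm]
  rw [hIcc (fun N => 4 * n * hB (N / (4 * n))), Finset.sum_congr rfl fun j _ => hterm _, ← Finset.mul_sum]
  simp only [Finset.sum_sub_distrib, ← Finset.mul_sum]
  have n10 := node_sum hn (e := 10) (by norm_num) (by norm_num)
  have n1 := node_sum hn (e := 1) (by norm_num) (by norm_num)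
  have n2 := node_sum hn (e := 2) (by norm_num) (by norm_num)
  have n4 := node_sum hn (e := 4) (by norm_num) (by norm_num)
  have n6 := node_sum hn (e := 6) (by norm_num) (by norm_num)
  have n8 := node_sum hn (e := 8) (by norm_num) (by norm_num)
  have heH : 16 * (n : ℝ) ^ 2 * eH = 1 / 2 * (
      (Gu (4 * n * (10 + 10)) - Gu (4 * n * (10 - 10))) - (Gu (4 * n * (10 + 1)) - Gu (4 * n * (10 - 1)))
      - 3 / 4 * (Gu (4 * n * (10 + 2)) - Gu (4 * n * (10 - 2)))
      - 1 / 2 * (Gu (4 * n * (10 + 4)) - Gu (4 * n * (10 - 4)))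
      - 1 / 4 * (Gu (4 * n * (10 + 6)) - Gu (4 * n * (10 - 6)))
      - 1 / 2 * (Gu (4 * n * (10 + 8)) - Gu (4 * n * (10 - 8)))) := by
    simp only [Gu_scale h4]
    unfold eH
    simp only [Fin.sum_univ_six, Qj, Qe]
    simp
    ring
  rw [heH]
  set A10 := ∑ j ∈ range (40 * n + 11), (Fu (4 * n * 10 - ((j : ℝ) + 2)) + Fu (4 * n * 10 + ((j : ℝ) + 2)))
  set A1 := ∑ j ∈ range (40 * n + 11), (Fu (4 * n * 1 - ((j : ℝ) + 2)) + Fu (4 * n * 1 + ((j : ℝ) + 2)))
  set A2 := ∑ j ∈ range (40 * n + 11), (Fu (4 * n * 2 - ((j : ℝ) + 2)) + Fu (4 * n * 2 + ((j : ℝ) + 2)))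
  set A4 := ∑ j ∈ range (40 * n + 11), (Fu (4 * n * 4 - ((j : ℝ) + 2)) + Fu (4 * n * 4 + ((j : ℝ) + 2)))
  set A6 := ∑ j ∈ range (40 * n + 11), (Fu (4 * n * 6 - ((j : ℝ) + 2)) + Fu (4 * n * 6 + ((j : ℝ) + 2)))
  set A8 := ∑ j ∈ range (40 * n + 11), (Fu (4 * n * 8 - ((j : ℝ) + 2)) + Fu (4 * n * 8 + ((j : ℝ) + 2)))
  generalize Gu (4 * (n : ℝ) * (10 + 10)) - Gu (4 * n * (10 - 10)) = G10 at n10 ⊢
  generalize Gu (4 * (n : ℝ) * (10 + 1)) - Gu (4 * n * (10 - 1)) = G1 at n1 ⊢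
  generalize Gu (4 * (n : ℝ) * (10 + 2)) - Gu (4 * n * (10 - 2)) = G2 at n2 ⊢
  generalize Gu (4 * (n : ℝ) * (10 + 4)) - Gu (4 * n * (10 - 4)) = G4 at n4 ⊢
  generalize Gu (4 * (n : ℝ) * (10 + 6)) - Gu (4 * n * (10 - 6)) = G6 at n6 ⊢
  generalize Gu (4 * (n : ℝ) * (10 + 8)) - Gu (4 * n * (10 - 8)) = G8 at n8 ⊢
  have hX : 600000 * (n : ℝ) * Real.log (n + 1) = 2 * (300000 * n * Real.log (n + 1)) := by ring
  rw [hX]
  generalize 300000 * (n : ℝ) * Real.log (n + 1) = X at n10 n1 n2 n4 n6 n8 ⊢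
  rw [abs_le] at n10 n1 n2 n4 n6 n8 ⊢
  obtain ⟨a1, a2⟩ := n10
  obtain ⟨b1, b2⟩ := n1
  obtain ⟨c1, c2⟩ := n2
  obtain ⟨d1, d2⟩ := n4
  obtain ⟨e1, e2⟩ := n6
  obtain ⟨f1, f2⟩ := n8
  constructor <;> linarith

/-- a single node -/
theorem hB_bd : ∃ C : ℝ, ∀ n : ℕ, 1 ≤ n → ∀ N : ℕ, N ≤ 40 * n + 12 →
    |4 * n * hB ((N : ℝ) / (4 * n))| ≤ C * n := by
  have hF : ∀ u : ℝ, |u| ≤ 23 → |Fu u| ≤ 23 * Real.log 23 + 1 + 23 := fun u hu => abs_Fu_le hu (by norm_num)
  refine ⟨4 * (4 * (23 * Real.log 23 + 1 + 23)), fun n hn N hN => ?_⟩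
  have hn0 : (1 : ℝ) ≤ n := by exact_mod_cast hn
  have h4 : (0 : ℝ) < 4 * n := by linarith
  have hN' : (N : ℝ) ≤ 40 * n + 12 := by exact_mod_cast hN
  have hx0 : 0 ≤ (N : ℝ) / (4 * n) := by positivity
  have hx1 : (N : ℝ) / (4 * n) ≤ 13 := by
    rw [div_le_iff₀ h4]
    linarith
  rw [abs_mul, abs_of_pos h4]
  have hb : |hB ((N : ℝ) / (4 * n))| ≤ 4 * (23 * Real.log 23 + 1 + 23) := by
    generalize (N : ℝ) / (4 * n) = x at hx0 hx1
    unfold hB
    have f1 := hF (10 - x) (by rw [abs_le]; constructor <;> linarith)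
    have f2 := hF (10 + x) (by rw [abs_le]; constructor <;> linarith)
    have f3 := hF (1 - x) (by rw [abs_le]; constructor <;> linarith)
    have f4 := hF (1 + x) (by rw [abs_le]; constructor <;> linarith)
    have f5 := hF (2 - x) (by rw [abs_le]; constructor <;> linarith)
    have f6 := hF (2 + x) (by rw [abs_le]; constructor <;> linarith)
    have f7 := hF (4 - x) (by rw [abs_le]; constructor <;> linarith)
    have f8 := hF (4 + x) (by rw [abs_le]; constructor <;> linarith)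
    have f9 := hF (6 - x) (by rw [abs_le]; constructor <;> linarith)
    have f10 := hF (6 + x) (by rw [abs_le]; constructor <;> linarith)
    have f11 := hF (8 - x) (by rw [abs_le]; constructor <;> linarith)
    have f12 := hF (8 + x) (by rw [abs_le]; constructor <;> linarith)
    rw [abs_le] at f1 f2 f3 f4 f5 f6 f7 f8 f9 f10 f11 f12 ⊢
    constructor <;> linarith [f1.1, f1.2, f2.1, f2.2, f3.1, f3.2, f4.1, f4.2, f5.1, f5.2, f6.1, f6.2, f7.1, f7.2,
      f8.1, f8.2, f9.1, f9.2, f10.1, f10.2, f11.1, f11.2, f12.1, f12.2]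
  calc 4 * (n : ℝ) * |hB ((N : ℝ) / (4 * n))| ≤ 4 * n * (4 * (23 * Real.log 23 + 1 + 23)) :=
        mul_le_mul_of_nonneg_left hb h4.le
    _ = _ := by ring

end T2.R8
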