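import Pool.Agent.T2.R8Defs

/-!
# T2, real side, R8h: sums over the cells (helper19)
-/

set_option autoImplicit false

namespace T2.R8

open Finset

/-- one cell (generic) -/
theorem cell_sum {K K' : ℕ} (hK : K < K') {a b : ℝ} (ha : 0 ≤ a) (hb : 0 ≤ b)
    (h : Cell K K' a b) (n : ℕ) (hn : 1 ≤ n) (th : ℝ) (h0 : 0 ≤ th) (h1 : th ≤ 1) :
    ∑ j ∈ Ico (n * K) (n * K'), Pos n th j ≤
      16 * n ^ 2 * (((K' : ℝ) - K) / 4 * ((a + b) / 2)) + 4 * n * (a + b) := by
  have hn0 : (0 : ℝ) < n := by exact_mod_cast hn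
  have hKr : (K : ℝ) < K' := by exact_mod_cast hK
  have hd : (0 : ℝ) < (K' : ℝ) - K := by linarith
  -- one term
  have hterm : ∀ j ∈ Ico (n * K) (n * K'), Pos n th j ≤
      4 / ((K' : ℝ) - K) * (a * (n * K' - j) + b * (j - n * K + 1)) := by
    intro j hj
    rw [Finset.mem_Ico] at hj
    have hj0 : (n : ℝ) * K ≤ j := by exact_mod_cast hj.1
    have hj1 : (j : ℝ) + 1 ≤ n * K' := by exact_mod_cast hj.2
    have hx0 : (K : ℝ) / 4 ≤ (j + th) / (4 * n) := by
      rw [div_le_div_iff₀ (by norm_num) (by positivity)]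
      nlinarith
    have hx1 : (j + th) / (4 * n) ≤ (K' : ℝ) / 4 := by
      rw [div_le_div_iff₀ (by positivity) (by norm_num)]
      nlinarith
    have h2 := h _ hx0 hx1
    have e : 4 * (n : ℝ) * ((a * ((K' : ℝ) / 4 - (j + th) / (4 * n)) + b * ((j + th) / (4 * n) - (K : ℝ) / 4)) /
        (((K' : ℝ) - K) / 4)) = 4 / ((K' : ℝ) - K) * (a * (n * K' - j - th) + b * (j - n * K + th)) := by
      field_simp
      ring
    have h3 : 4 * (n : ℝ) * gL ((j + th) / (4 * n)) ≤
        4 / ((K' : ℝ) - K) * (a * (n * K' - j - th) + b * (j - n * K + th)) := by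
      rw [← e]
      exact mul_le_mul_of_nonneg_left h2 (by positivity)
    have h4 : a * (n * K' - j - th) + b * (j - n * K + th) ≤ a * (n * K' - j) + b * (j - n * K + 1) := by
      have h5 : a * (n * K' - j - th) ≤ a * (n * K' - j) := mul_le_mul_of_nonneg_left (by linarith) ha
      have h6 : b * (j - n * K + th) ≤ b * (j - n * K + 1) := mul_le_mul_of_nonneg_left (by linarith) hb
      linarith
    have h7 : 0 ≤ a * (n * K' - j) + b * (j - n * K + 1) := by
      have h8 : 0 ≤ a * (n * K' - j) := mul_nonneg ha (by linarith)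
      have h9 : 0 ≤ b * (j - n * K + 1) := mul_nonneg hb (by linarith)
      linarith
    unfold Pos
    refine max_le (h3.trans ?_) (by positivity)
    exact mul_le_mul_of_nonneg_left h4 (by positivity)
  refine (Finset.sum_le_sum hterm).trans ?_
  rw [← Finset.mul_sum]
  -- the arithmetic sum
  obtain ⟨M, hM⟩ : ∃ M : ℕ, M = n * (K' - K) := ⟨_, rfl⟩
  have hMr : (M : ℝ) = n * ((K' : ℝ) - K) := by
    rw [hM]
    push_cast [Nat.cast_sub hK.le]
    ring
  have hsum : ∑ j ∈ Ico (n * K) (n * K'), (a * ((n : ℝ) * K' - j) + b * (j - n * K + 1)) =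
      (a + b) * (M * (M + 1) / 2) := by
    have hI : n * K' = n * K + M := by
      rw [hM, ← Nat.mul_add]
      congr 1
      omega
    rw [hI, Finset.sum_Ico_eq_sum_range]
    have e1 : n * K + M - n * K = M := by omega
    rw [e1]
    have e2 : ∀ i : ℕ, a * ((n : ℝ) * K' - ((n * K + i : ℕ) : ℝ)) + b * (((n * K + i : ℕ) : ℝ) - n * K + 1) =
        a * (M - i) + b * (i + 1) := by
      intro i
      push_cast
      rw [hMr]
      ring
    rw [Finset.sum_congr rfl fun i _ => e2 i]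
    clear hI e1 e2 hM hMr
    have h2 : ∀ L : ℕ, ∑ i ∈ range L, ((i : ℝ) + 1) = L * (L + 1) / 2 := by
      intro L
      induction L with
      | zero => simp
      | succ L ih =>
        rw [Finset.sum_range_succ, ih]
        push_cast
        ring
    have h3 : ∑ i ∈ range M, ((M : ℝ) - i) = M * (M + 1) / 2 := by
      have h4 : ∑ i ∈ range M, ((M : ℝ) - i) = ∑ i ∈ range M, ((M + 1 : ℝ) - (i + 1)) :=
        Finset.sum_congr rfl fun i _ => by ring
      rw [h4, Finset.sum_sub_distrib, h2, Finset.sum_const, Finset.card_range, nsmul_eq_mul]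
      ring
    rw [Finset.sum_add_distrib, ← Finset.mul_sum, ← Finset.mul_sum, h2, h3]
    ring
  rw [hsum, hMr]
  have e3 : 4 / ((K' : ℝ) - K) * ((a + b) * (n * ((K' : ℝ) - K) * (n * ((K' : ℝ) - K) + 1) / 2)) =
      16 * n ^ 2 * (((K' : ℝ) - K) / 4 * ((a + b) / 2)) + 2 * n * (a + b) := by
    field_simp
    ring
  rw [e3]
  have : 0 ≤ (n : ℝ) * (a + b) := mul_nonneg hn0.le (by linarith)
  linarith

/-- the sum over all cells, from the cells -/
theorem Pos_sum_of (c01 : Cell 0 1 (683 / 100) (359 / 100)) (c12 : Cell 1 2 (359 / 100) (161 / 100))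
    (c23 : Cell 2 3 (161 / 100) (33 / 100)) (c34 : Cell 3 4 (33 / 100) 0) (c46 : Cell 4 6 (21 / 100) 0)
    (c68 : Cell 6 8 0 0) (c8_10 : Cell 8 10 0 (2 / 100)) (c10_12 : Cell 10 12 0 0) (c12_14 : Cell 12 14 0 0)
    (c14_16 : Cell 14 16 0 0) (c16_18 : Cell 16 18 0 (21 / 100)) (c18_20 : Cell 18 20 (11 / 100) (4 / 100))
    (c20_22 : Cell 20 22 (1 / 100) 0) (c22_24 : Cell 22 24 0 0) (c24_26 : Cell 24 26 (1 / 100) (6 / 100))
    (c26_28 : Cell 26 28 (1 / 100) 0) (c28_30 : Cell 28 30 0 0) (c30_32 : Cell 30 32 0 0)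
    (c32_34 : Cell 32 34 (1 / 100) (8 / 100)) (c34_36 : Cell 34 36 0 0) (c36_38 : Cell 36 38 0 0)
    (c38_40 : Cell 38 40 0 0) : ∃ C : ℝ, ∀ n : ℕ, 1 ≤ n → ∀ th : ℝ, 0 ≤ th → th ≤ 1 →
    ∑ j ∈ range (40 * n), Pos n th j ≤ 16 * n ^ 2 * I1 + C * n := by
  refine ⟨100, fun n hn th h0 h1 => ?_⟩
  have hn0 : (0 : ℝ) < n := by exact_mod_cast hn
  have hsplit : ∀ K K' : ℕ, K ≤ K' → ∑ j ∈ range (n * K'), Pos n th j =
      ∑ j ∈ range (n * K), Pos n th j + ∑ j ∈ Ico (n * K) (n * K'), Pos n th j := by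
    intro K K' h
    rw [Finset.range_eq_Ico, Finset.range_eq_Ico, Finset.sum_Ico_consecutive _ (Nat.zero_le _)
      (Nat.mul_le_mul_left n h)]
  have s0 := cell_sum (by norm_num) (by norm_num) (by norm_num) c01 n hn th h0 h1
  have s1 := cell_sum (by norm_num) (by norm_num) (by norm_num) c12 n hn th h0 h1
  have s2 := cell_sum (by norm_num) (by norm_num) (by norm_num) c23 n hn th h0 h1
  have s3 := cell_sum (by norm_num) (by norm_num) le_rfl c34 n hn th h0 h1
  have s4 := cell_sum (by norm_num) (by norm_num) le_rfl c46 n hn th h0 h1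
  have s5 := cell_sum (by norm_num) le_rfl le_rfl c68 n hn th h0 h1
  have s6 := cell_sum (by norm_num) le_rfl (by norm_num) c8_10 n hn th h0 h1
  have s7 := cell_sum (by norm_num) le_rfl le_rfl c10_12 n hn th h0 h1
  have s8 := cell_sum (by norm_num) le_rfl le_rfl c12_14 n hn th h0 h1
  have s9 := cell_sum (by norm_num) le_rfl le_rfl c14_16 n hn th h0 h1
  have s10 := cell_sum (by norm_num) le_rfl (by norm_num) c16_18 n hn th h0 h1
  have s11 := cell_sum (by norm_num) (by norm_num) (by norm_num) c18_20 n hn th h0 h1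
  have s12 := cell_sum (by norm_num) (by norm_num) le_rfl c20_22 n hn th h0 h1
  have s13 := cell_sum (by norm_num) le_rfl le_rfl c22_24 n hn th h0 h1
  have s14 := cell_sum (by norm_num) (by norm_num) (by norm_num) c24_26 n hn th h0 h1
  have s15 := cell_sum (by norm_num) (by norm_num) le_rfl c26_28 n hn th h0 h1
  have s16 := cell_sum (by norm_num) le_rfl le_rfl c28_30 n hn th h0 h1
  have s17 := cell_sum (by norm_num) le_rfl le_rfl c30_32 n hn th h0 h1
  have s18 := cell_sum (by norm_num) (by norm_num) (by norm_num) c32_34 n hn th h0 h1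
  have s19 := cell_sum (by norm_num) le_rfl le_rfl c34_36 n hn th h0 h1
  have s20 := cell_sum (by norm_num) le_rfl le_rfl c36_38 n hn th h0 h1
  have s21 := cell_sum (by norm_num) le_rfl le_rfl c38_40 n hn th h0 h1
  have e0 : ∑ j ∈ range (40 * n), Pos n th j = ∑ j ∈ range (n * 40), Pos n th j := by rw [mul_comm]
  rw [e0, hsplit 38 40 (by norm_num), hsplit 36 38 (by norm_num), hsplit 34 36 (by norm_num),
    hsplit 32 34 (by norm_num), hsplit 30 32 (by norm_num), hsplit 28 30 (by norm_num), hsplit 26 28 (by norm_num),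
    hsplit 24 26 (by norm_num), hsplit 22 24 (by norm_num), hsplit 20 22 (by norm_num), hsplit 18 20 (by norm_num),
    hsplit 16 18 (by norm_num), hsplit 14 16 (by norm_num), hsplit 12 14 (by norm_num), hsplit 10 12 (by norm_num),
    hsplit 8 10 (by norm_num), hsplit 6 8 (by norm_num), hsplit 4 6 (by norm_num), hsplit 3 4 (by norm_num),
    hsplit 2 3 (by norm_num), hsplit 1 2 (by norm_num), hsplit 0 1 (by norm_num)]
  rw [Nat.mul_zero, Finset.range_zero, Finset.sum_empty]
  unfold I1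
  norm_num at s0 s1 s2 s3 s4 s5 s6 s7 s8 s9 s10 s11 s12 s13 s14 s15 s16 s17 s18 s19 s20 s21 ⊢
  nlinarith [sq_nonneg (n : ℝ)]

end T2.R8
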