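import Pool.Agent.T2.SF1b
import Pool.Agent.T2.RDefs

/-!
# T2, module R3 (RB2): the functionals `E_ε` of the two-sided decaying solution

`sE U ε φ = ∑_{k ∈ ℤ} ε^{|k|} 2 Re (U_k φ_k)` for sequences `φ : ℤ → ℂ` of polynomial growth
(`PGs`); `Efun y0 U ε f = sE U ε (fun k => f (zl y0 k))`.

Main results, for `cE ε = (2 ε / (1 - 17 ε)) / Efun (2 t + 1)`, `ε = ±1`:
* `resum` : `E_ε (L_ε φ) = 0`;
* `moments`, `moments1` : the moments are the coefficients of the formal sheets `sP`, `sM`;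
* `hE_rec`, `hE_refl`, `hE_bound` for `hE z = c E_ε (1 / (z - t))`, all real `z`;
* `pp_hE` : the polynomial parts.
-/

set_option autoImplicit false

open Finset Filter Topology

namespace T2

/-! ### Sequences of polynomial growth -/

/-- polynomial growth -/
def PGs (φ : ℤ → ℂ) : Prop := ∃ (C : ℝ) (d : ℕ), ∀ k : ℤ, ‖φ k‖ ≤ C * (1 + |(k : ℝ)|) ^ d

theorem one_le_ab (k : ℤ) : (1 : ℝ) ≤ 1 + |(k : ℝ)| := by
  have := abs_nonneg (k : ℝ)
  linarith

theorem PGs.of_bound {φ : ℤ → ℂ} (C : ℝ) (h : ∀ k, ‖φ k‖ ≤ C) : PGs φ :=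
  ⟨C, 0, fun k => by simpa using h k⟩

theorem PGs.const (c : ℂ) : PGs fun _ => c := PGs.of_bound ‖c‖ fun _ => le_rfl

theorem PGs.pos {φ : ℤ → ℂ} (h : PGs φ) :
    ∃ (C : ℝ) (d : ℕ), 0 ≤ C ∧ ∀ k : ℤ, ‖φ k‖ ≤ C * (1 + |(k : ℝ)|) ^ d := by
  obtain ⟨C, d, h⟩ := h
  refine ⟨C, d, ?_, h⟩
  have := h 0
  simp at this
  exact (norm_nonneg _).trans this

theorem PGs.mul {φ ψ : ℤ → ℂ} (h1 : PGs φ) (h2 : PGs ψ) : PGs fun k => φ k * ψ k := by
  obtain ⟨C, d, hC, h1⟩ := h1.pos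
  obtain ⟨C', d', hC', h2⟩ := h2.pos
  refine ⟨C * C', d + d', fun k => ?_⟩
  rw [norm_mul, pow_add]
  have := mul_le_mul (h1 k) (h2 k) (norm_nonneg _) (mul_nonneg hC (by positivity))
  calc ‖φ k‖ * ‖ψ k‖ ≤ (C * (1 + |(k : ℝ)|) ^ d) * (C' * (1 + |(k : ℝ)|) ^ d') := this
    _ = _ := by ring

theorem PGs.add {φ ψ : ℤ → ℂ} (h1 : PGs φ) (h2 : PGs ψ) : PGs fun k => φ k + ψ k := by
  obtain ⟨C, d, hC, h1⟩ := h1.pos
  obtain ⟨C', d', hC', h2⟩ := h2.pos
  refine ⟨C + C', d + d', fun k => (norm_add_le _ _).trans ?_⟩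
  have e1 : (1 + |(k : ℝ)|) ^ d ≤ (1 + |(k : ℝ)|) ^ (d + d') :=
    pow_le_pow_right₀ (one_le_ab k) (by omega)
  have e2 : (1 + |(k : ℝ)|) ^ d' ≤ (1 + |(k : ℝ)|) ^ (d + d') :=
    pow_le_pow_right₀ (one_le_ab k) (by omega)
  have := h1 k
  have := h2 k
  have := mul_le_mul_of_nonneg_left e1 hC
  have := mul_le_mul_of_nonneg_left e2 hC'
  rw [add_mul]
  linarith

theorem PGs.neg {φ : ℤ → ℂ} (h : PGs φ) : PGs fun k => -φ k := by
  obtain ⟨C, d, h⟩ := h
  exact ⟨C, d, fun k => by rw [norm_neg]; exact h k⟩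

theorem PGs.sub {φ ψ : ℤ → ℂ} (h1 : PGs φ) (h2 : PGs ψ) : PGs fun k => φ k - ψ k := by
  simpa [sub_eq_add_neg] using h1.add h2.neg

theorem PGs.cmul {φ : ℤ → ℂ} (h : PGs φ) (c : ℂ) : PGs fun k => c * φ k :=
  (PGs.const c).mul h

theorem PGs.pow {φ : ℤ → ℂ} (h : PGs φ) (n : ℕ) : PGs fun k => φ k ^ n := by
  induction n with
  | zero => simpa using PGs.const 1
  | succ n ih => simpa [pow_succ] using ih.mul h

theorem PGs.shift {φ : ℤ → ℂ} (h : PGs φ) (a : ℤ) : PGs fun k => φ (k + a) := by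
  obtain ⟨C, d, hC, h⟩ := h.pos
  refine ⟨C * (1 + |(a : ℝ)|) ^ d, d, fun k => (h _).trans ?_⟩
  rw [mul_assoc, ← mul_pow]
  refine mul_le_mul_of_nonneg_left (pow_le_pow_left₀ (by positivity) ?_ d) hC
  push_cast
  have h1 := abs_add_le (k : ℝ) a
  have h2 := mul_nonneg (abs_nonneg (a : ℝ)) (abs_nonneg (k : ℝ))
  nlinarith

theorem PGs.reflect {φ : ℤ → ℂ} (h : PGs φ) : PGs fun k => (starRingEnd ℂ) (φ (-k)) := by
  obtain ⟨C, d, h⟩ := h
  refine ⟨C, d, fun k => ?_⟩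
  rw [RCLike.norm_conj]
  simpa using h (-k)

theorem PGs.sum {ι : Type*} (s : Finset ι) {φ : ι → ℤ → ℂ} (h : ∀ i ∈ s, PGs (φ i)) :
    PGs fun k => ∑ i ∈ s, φ i k := by
  classical
  induction s using Finset.induction_on with
  | empty => simpa using PGs.const 0
  | insert i s hi ih =>
    simp only [Finset.sum_insert hi]
    exact (h i (Finset.mem_insert_self i s)).add
      (ih fun j hj => h j (Finset.mem_insert_of_mem hj))

theorem summable_pg (d : ℕ) : Summable fun k : ℤ =>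
    (1 + |(k : ℝ)|) ^ d * (3 / 100 : ℝ) ^ k.natAbs := by
  have h : Summable fun n : ℕ => (1 + (n : ℝ)) ^ d * (3 / 100 : ℝ) ^ n := by
    have h1 := summable_pow_mul_geometric_of_norm_lt_one (R := ℝ) d
      (r := 3 / 100) (by norm_num)
    have h2 := (summable_nat_add_iff 1).2 h1
    have h3 := h2.mul_left (100 / 3)
    refine h3.congr fun n => ?_
    push_cast
    rw [pow_succ]
    ring
  refine Summable.of_nat_of_neg ?_ ?_
  · refine h.congr fun n => ?_
    simp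
  · refine h.congr fun n => ?_
    simp

/-! ### The lattice -/

theorem zl_re (y0 : ℝ) (k : ℤ) : (zl y0 k).re = (k : ℝ) - 1 / 2 := by
  simp [zl]
  ring

theorem zl_im (y0 : ℝ) (k : ℤ) : (zl y0 k).im = y0 := by
  simp [zl]

theorem zl_succ (y0 : ℝ) (k : ℤ) : zl y0 (k + 1) = zl y0 k + 1 := by
  unfold zl
  push_cast
  ring

theorem zl_pred (y0 : ℝ) (k : ℤ) : zl y0 (k - 1) = zl y0 k - 1 := by
  unfold zl
  push_cast
  ring

theorem zl_conj (y0 : ℝ) (k : ℤ) : (starRingEnd ℂ) (zl y0 (-k)) = -1 - zl y0 k := by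
  apply Complex.ext
  · rw [Complex.conj_re, zl_re, Complex.sub_re, zl_re]
    push_cast
    simp
    ring
  · rw [Complex.conj_im, zl_im, Complex.sub_im, zl_im]
    simp

theorem norm_zl_le {y0 : ℝ} (h0 : 0 ≤ y0) (h1 : y0 ≤ 11 / 50) (k : ℤ) :
    ‖zl y0 k‖ ≤ 1 + |(k : ℝ)| := by
  have h := Complex.norm_le_abs_re_add_abs_im (zl y0 k)
  rw [zl_re, zl_im, abs_of_nonneg h0] at h
  have h2 : |(k : ℝ) - 1 / 2| ≤ |(k : ℝ)| + 1 / 2 := by
    have := abs_sub (k : ℝ) (1 / 2)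
    rw [abs_of_nonneg (show (0 : ℝ) ≤ 1 / 2 by norm_num)] at this
    exact this
  linarith

/-! ### The functional on sequences -/

/-- signs -/
def IsSign (e : ℝ) : Prop := e = 1 ∨ e = -1

theorem IsSign.sq {e : ℝ} (h : IsSign e) : e * e = 1 := by
  rcases h with rfl | rfl <;> norm_num

theorem IsSign.ne {e : ℝ} (h : IsSign e) : e ≠ 0 := by
  rcases h with rfl | rfl <;> norm_num

theorem IsSign.abs_pow {e : ℝ} (h : IsSign e) (n : ℕ) : |e ^ n| = 1 := by
  rw [_root_.abs_pow]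
  rcases h with rfl | rfl <;> simp

theorem IsSign.succ_pow {e : ℝ} (h : IsSign e) (k : ℤ) :
    e ^ (k + 1).natAbs = e * e ^ k.natAbs := by
  rcases le_or_gt 0 k with hk | hk
  · have : (k + 1).natAbs = k.natAbs + 1 := by omega
    rw [this, pow_succ, mul_comm]
  · have : k.natAbs = (k + 1).natAbs + 1 := by omega
    rw [this, pow_succ, mul_comm (e ^ _) e, ← mul_assoc, h.sq, one_mul]

theorem IsSign.pred_pow {e : ℝ} (h : IsSign e) (k : ℤ) :
    e ^ (k - 1).natAbs = e * e ^ k.natAbs := by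
  have h1 := h.succ_pow (k - 1)
  rw [sub_add_cancel] at h1
  rw [h1, ← mul_assoc, h.sq, one_mul]

/-- `∑ ε^{|k|} 2 Re (U_k φ_k)` -/
noncomputable def sE (U : ℤ → ℂ) (e : ℝ) (φ : ℤ → ℂ) : ℝ :=
  ∑' k : ℤ, e ^ k.natAbs * (2 * (U k * φ k).re)

theorem Efun_eq (y0 : ℝ) (U : ℤ → ℂ) (e : ℝ) (f : ℂ → ℂ) :
    Efun y0 U e f = sE U e fun k => f (zl y0 k) := rfl

section RS

variable {r : ℂ → ℂ} {y0 : ℝ} {U : ℤ → ℂ}

theorem Lat.y_pos (hL : Lat r y0 U) : 0 < y0 := lt_trans (by norm_num) hL.lo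

theorem Lat.zl_norm (hL : Lat r y0 U) (k : ℤ) : ‖zl y0 k‖ ≤ 1 + |(k : ℝ)| :=
  norm_zl_le hL.y_pos.le hL.hi.le k

theorem Lat.pg_zl (hL : Lat r y0 U) : PGs fun k => zl y0 k :=
  ⟨1, 1, fun k => by simpa using hL.zl_norm k⟩

theorem Lat.summable_norm (hL : Lat r y0 U) {φ : ℤ → ℂ} (h : PGs φ) :
    Summable fun k : ℤ => ‖U k * φ k‖ := by
  obtain ⟨C, d, hC, h⟩ := h.pos
  refine Summable.of_nonneg_of_le (fun k => norm_nonneg _) (fun k => ?_)
    ((summable_pg d).mul_left C)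
  rw [norm_mul]
  have := mul_le_mul (hL.bound k) (h k) (norm_nonneg _) (by positivity)
  calc _ ≤ _ := this
    _ = _ := by ring

theorem Lat.summable (hL : Lat r y0 U) {e : ℝ} (he : IsSign e) {φ : ℤ → ℂ} (h : PGs φ) :
    Summable fun k : ℤ => e ^ k.natAbs * (2 * (U k * φ k).re) := by
  refine Summable.of_norm_bounded ((hL.summable_norm h).mul_left 2) fun k => ?_
  rw [Real.norm_eq_abs, abs_mul, he.abs_pow, one_mul, abs_mul, abs_two]
  exact mul_le_mul_of_nonneg_left (Complex.abs_re_le_norm _) zero_le_two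

theorem Lat.sE_add (hL : Lat r y0 U) {e : ℝ} (he : IsSign e) {φ ψ : ℤ → ℂ} (h1 : PGs φ)
    (h2 : PGs ψ) : sE U e (fun k => φ k + ψ k) = sE U e φ + sE U e ψ := by
  unfold sE
  rw [← (hL.summable he h1).tsum_add (hL.summable he h2)]
  refine tsum_congr fun k => ?_
  rw [mul_add, Complex.add_re]
  ring

theorem sE_neg (U : ℤ → ℂ) (e : ℝ) (φ : ℤ → ℂ) : sE U e (fun k => -φ k) = -sE U e φ := by
  unfold sE
  rw [← tsum_neg]
  refine tsum_congr fun k => ?_
  rw [mul_neg, Complex.neg_re]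
  ring

theorem Lat.sE_sub (hL : Lat r y0 U) {e : ℝ} (he : IsSign e) {φ ψ : ℤ → ℂ} (h1 : PGs φ)
    (h2 : PGs ψ) : sE U e (fun k => φ k - ψ k) = sE U e φ - sE U e ψ := by
  have := hL.sE_add he h1 h2.neg
  rw [sE_neg] at this
  simpa [sub_eq_add_neg] using this

theorem sE_smul (U : ℤ → ℂ) (e c : ℝ) (φ : ℤ → ℂ) :
    sE U e (fun k => (c : ℂ) * φ k) = c * sE U e φ := by
  unfold sE
  rw [← tsum_mul_left]
  refine tsum_congr fun k => ?_
  have : U k * ((c : ℂ) * φ k) = (c : ℂ) * (U k * φ k) := by ring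
  rw [this, Complex.re_ofReal_mul]
  ring

theorem Lat.sE_sum (hL : Lat r y0 U) {e : ℝ} (he : IsSign e) {ι : Type*} (s : Finset ι)
    {φ : ι → ℤ → ℂ} (h : ∀ i ∈ s, PGs (φ i)) :
    sE U e (fun k => ∑ i ∈ s, φ i k) = ∑ i ∈ s, sE U e (φ i) := by
  classical
  induction s using Finset.induction_on with
  | empty => simp [sE]
  | insert i s hi ih =>
    simp only [Finset.sum_insert hi]
    rw [hL.sE_add he (h i (Finset.mem_insert_self i s))
      (PGs.sum s fun j hj => h j (Finset.mem_insert_of_mem hj)),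
      ih fun j hj => h j (Finset.mem_insert_of_mem hj)]

/-- **resummation** -/
theorem Lat.resum (hL : Lat r y0 U) {e : ℝ} (he : IsSign e) {φ : ℤ → ℂ} (h : PGs φ) :
    sE U e (fun k => (zl y0 k + 1) ^ 3 * φ (k + 1) - (e : ℂ) * (QS2.ap (zl y0 k) * φ k) +
      zl y0 k ^ 3 * φ (k - 1)) = 0 := by
  have pz := hL.pg_zl
  have p1 : PGs fun k => zl y0 k + 1 := pz.add (PGs.const 1)
  have pap : PGs fun k => QS2.ap (zl y0 k) := by
    unfold QS2.ap
    exact (((pz.pow 3).cmul 34).add ((pz.pow 2).cmul 51)).add (pz.cmul 27) |>.add (PGs.const 5)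
  have pa : PGs fun k => (zl y0 k + 1) ^ 3 * φ (k + 1) := (p1.pow 3).mul (h.shift 1)
  have pb : PGs fun k => (e : ℂ) * (QS2.ap (zl y0 k) * φ k) := (pap.mul h).cmul _
  have pc : PGs fun k => zl y0 k ^ 3 * φ (k - 1) := by
    simpa [sub_eq_add_neg] using (pz.pow 3).mul (h.shift (-1))
  rw [hL.sE_add he (pa.sub pb) pc, hL.sE_sub he pa pb]
  have ea : sE U e (fun k => (zl y0 k + 1) ^ 3 * φ (k + 1)) =
      ∑' k : ℤ, e ^ k.natAbs * (2 * (e * (U (k - 1) * (zl y0 k ^ 3 * φ k)).re)) := by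
    unfold sE
    rw [← (Equiv.addRight (-1 : ℤ)).tsum_eq]
    refine tsum_congr fun k => ?_
    have e1 : (Equiv.addRight (-1 : ℤ)) k = k - 1 := rfl
    rw [e1, he.pred_pow]
    beta_reduce
    rw [zl_pred, sub_add_cancel, sub_add_cancel]
    ring
  have ec : sE U e (fun k => zl y0 k ^ 3 * φ (k - 1)) =
      ∑' k : ℤ, e ^ k.natAbs * (2 * (e * (U (k + 1) * ((zl y0 k + 1) ^ 3 * φ k)).re)) := by
    unfold sE
    rw [← (Equiv.addRight (1 : ℤ)).tsum_eq]
    refine tsum_congr fun k => ?_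
    have e1 : (Equiv.addRight (1 : ℤ)) k = k + 1 := rfl
    rw [e1, he.succ_pow]
    beta_reduce
    rw [zl_succ, add_sub_cancel_right]
    ring
  have sa : Summable fun k : ℤ =>
      e ^ k.natAbs * (2 * (e * (U (k - 1) * (zl y0 k ^ 3 * φ k)).re)) := by
    have h1 := hL.summable he pa
    have h2 := (Equiv.addRight (-1 : ℤ)).summable_iff.2 h1
    refine h2.congr fun k => ?_
    have e1 : (Equiv.addRight (-1 : ℤ)) k = k - 1 := rfl
    rw [Function.comp_apply, e1, he.pred_pow, zl_pred, sub_add_cancel, sub_add_cancel]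
    ring
  have sc : Summable fun k : ℤ =>
      e ^ k.natAbs * (2 * (e * (U (k + 1) * ((zl y0 k + 1) ^ 3 * φ k)).re)) := by
    have h1 := hL.summable he pc
    have h2 := (Equiv.addRight (1 : ℤ)).summable_iff.2 h1
    refine h2.congr fun k => ?_
    have e1 : (Equiv.addRight (1 : ℤ)) k = k + 1 := rfl
    rw [Function.comp_apply, e1, he.succ_pow, zl_succ, add_sub_cancel_right]
    ring
  have sb := hL.summable he pb
  rw [ea, ec]
  unfold sE
  rw [← sa.tsum_sub sb, ← (sa.sub sb).tsum_add sc]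
  have hz : ∀ k : ℤ, e ^ k.natAbs * (2 * (e * (U (k - 1) * (zl y0 k ^ 3 * φ k)).re)) -
      e ^ k.natAbs * (2 * (U k * ((e : ℂ) * (QS2.ap (zl y0 k) * φ k))).re) +
      e ^ k.natAbs * (2 * (e * (U (k + 1) * ((zl y0 k + 1) ^ 3 * φ k)).re)) = 0 := by
    intro k
    have h1 := hL.eqn k
    have h2 : U k * ((e : ℂ) * (QS2.ap (zl y0 k) * φ k)) =
        (e : ℂ) * (U k * (QS2.ap (zl y0 k) * φ k)) := by ring
    rw [h2, Complex.re_ofReal_mul]
    have h3 : (U (k - 1) * (zl y0 k ^ 3 * φ k)).re - (U k * (QS2.ap (zl y0 k) * φ k)).re +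
        (U (k + 1) * ((zl y0 k + 1) ^ 3 * φ k)).re = 0 := by
      rw [← Complex.sub_re, ← Complex.add_re]
      have : U (k - 1) * (zl y0 k ^ 3 * φ k) - U k * (QS2.ap (zl y0 k) * φ k) +
          U (k + 1) * ((zl y0 k + 1) ^ 3 * φ k) = 0 := by
        linear_combination (φ k) * h1
      rw [this, Complex.zero_re]
    linear_combination (e ^ k.natAbs * 2 * e) * h3
  simp only [hz, tsum_zero]

/-- **reflection** -/
theorem Lat.reflect (hL : Lat r y0 U) (e : ℝ) {φ ψ : ℤ → ℂ}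
    (h : ∀ k, (starRingEnd ℂ) (φ (-k)) = ψ k) : sE U e ψ = -sE U e φ := by
  unfold sE
  rw [← tsum_neg, ← (Equiv.neg ℤ).tsum_eq]
  refine tsum_congr fun k => ?_
  have e1 : (Equiv.neg ℤ) k = -k := rfl
  rw [e1, Int.natAbs_neg, ← h (-k), neg_neg, hL.neg, neg_mul, Complex.neg_re, ← map_mul,
    Complex.conj_re]
  ring

theorem Lat.sE_one (hL : Lat r y0 U) (e : ℝ) : sE U e (fun _ => 1) = 0 := by
  have h := hL.reflect e (φ := fun _ => 1) (ψ := fun _ => 1) fun k => map_one _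
  linarith

theorem Lat.sE_even (hL : Lat r y0 U) (e : ℝ) :
    sE U e (fun k => zl y0 k ^ 2 + zl y0 k) = 0 := by
  have h := hL.reflect e (φ := fun k => zl y0 k ^ 2 + zl y0 k)
    (ψ := fun k => zl y0 k ^ 2 + zl y0 k) fun k => by
      rw [map_add, map_pow, zl_conj]
      ring
  linarith

/-! ### The normalisation -/

theorem Lat.term_bound (hL : Lat r y0 U) {e : ℝ} (he : IsSign e) (k : ℤ) (n : ℕ)
    (hk : k.natAbs = n + 1) :
    ‖e ^ k.natAbs * (2 * (U k * (2 * zl y0 k + 1)).re)‖ ≤ 61 / 25 * (3 / 50 : ℝ) ^ (n + 1) := by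
  rw [Real.norm_eq_abs, abs_mul, he.abs_pow, one_mul, abs_mul, abs_two]
  have h1 := Complex.abs_re_le_norm (U k * (2 * zl y0 k + 1))
  rw [norm_mul] at h1
  have h2 : ‖2 * zl y0 k + 1‖ ≤ 61 / 25 * ((n : ℝ) + 1) := by
    have h := Complex.norm_le_abs_re_add_abs_im (2 * zl y0 k + 1)
    have e1 : (2 * zl y0 k + 1).re = 2 * (k : ℝ) := by
      have : (2 * zl y0 k + 1).re = 2 * (zl y0 k).re + 1 := by simp
      rw [this, zl_re]
      ring
    have e2 : (2 * zl y0 k + 1).im = 2 * y0 := by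
      have : (2 * zl y0 k + 1).im = 2 * (zl y0 k).im := by simp
      rw [this, zl_im]
    have e3 : |(k : ℝ)| = (n : ℝ) + 1 := by
      have : (k.natAbs : ℝ) = |(k : ℝ)| := by
        rw [Nat.cast_natAbs, Int.cast_abs]
      rw [← this, hk]
      push_cast
      ring
    rw [e1, e2, abs_mul, abs_two, e3, abs_mul, abs_two, abs_of_pos hL.y_pos] at h
    have := hL.hi
    have hn : (0 : ℝ) ≤ n := Nat.cast_nonneg n
    nlinarith
  have h3 : ((n : ℝ) + 1) ≤ 2 ^ n := by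
    have : n + 1 ≤ 2 ^ n := Nat.lt_two_pow_self
    exact_mod_cast this
  have h4 := hL.bound k
  rw [hk] at h4
  have h5 : ‖U k‖ * ‖2 * zl y0 k + 1‖ ≤ (3 / 100) ^ (n + 1) * (61 / 25 * 2 ^ n) :=
    mul_le_mul h4 (h2.trans (by nlinarith)) (norm_nonneg _) (by positivity)
  have h6 : (3 / 100 : ℝ) ^ (n + 1) * (61 / 25 * 2 ^ n) * 2 = 61 / 25 * (3 / 50 : ℝ) ^ (n + 1) := by
    have : (3 / 50 : ℝ) ^ (n + 1) = (3 / 100) ^ (n + 1) * 2 ^ (n + 1) := by
      rw [← mul_pow]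
      norm_num
    rw [this, pow_succ (2 : ℝ) n]
    ring
  linarith

theorem Lat.sE_odd_lt (hL : Lat r y0 U) {e : ℝ} (he : IsSign e) :
    sE U e (fun k => 2 * zl y0 k + 1) < 0 := by
  set F : ℤ → ℝ := fun k => e ^ k.natAbs * (2 * (U k * (2 * zl y0 k + 1)).re) with hF
  have hpg : PGs fun k => 2 * zl y0 k + 1 := (hL.pg_zl.cmul 2).add (PGs.const 1)
  have hs : Summable F := hL.summable he hpg
  have s1 : Summable fun n : ℕ => F n := hs.comp_injective Nat.cast_injective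
  have s2 : Summable fun n : ℕ => F (-((n : ℤ) + 1)) :=
    hs.comp_injective fun a b h => by
      have : -((a : ℤ) + 1) = -((b : ℤ) + 1) := h
      omega
  have h1 : sE U e (fun k => 2 * zl y0 k + 1) = ∑' n : ℕ, F n + ∑' n : ℕ, F (-((n : ℤ) + 1)) :=
    HasSum.tsum_eq (s1.hasSum.of_nat_of_neg_add_one s2.hasSum)
  have h2 : ∑' n : ℕ, F n = F 0 + ∑' n : ℕ, F ((n : ℤ) + 1) := by
    rw [s1.tsum_eq_zero_add]
    push_cast
    rfl
  have hg : HasSum (fun n : ℕ => 61 / 25 * (3 / 50 : ℝ) ^ (n + 1)) (61 / 25 * (3 / 50 *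
      (1 - 3 / 50)⁻¹)) := by
    have := (hasSum_geometric_of_lt_one (r := (3 / 50 : ℝ)) (by norm_num) (by norm_num)).mul_left
      (61 / 25 * (3 / 50))
    rw [mul_assoc] at this
    refine this.congr_fun ?_ |> fun h => h
    intro n
    rw [pow_succ]
    ring
  have b1 : ‖∑' n : ℕ, F ((n : ℤ) + 1)‖ ≤ 61 / 25 * (3 / 50 * (1 - 3 / 50)⁻¹) :=
    tsum_of_norm_bounded hg fun n => hL.term_bound he _ n (by omega)
  have b2 : ‖∑' n : ℕ, F (-((n : ℤ) + 1))‖ ≤ 61 / 25 * (3 / 50 * (1 - 3 / 50)⁻¹) :=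
    tsum_of_norm_bounded hg fun n => hL.term_bound he _ n (by omega)
  have h0 : F 0 = -4 * y0 := by
    have e1 : U 0 * (2 * zl y0 0 + 1) = ((-2 * y0 : ℝ) : ℂ) := by
      rw [hL.zero]
      unfold zl
      push_cast
      linear_combination (2 * (y0 : ℂ)) * Complex.I_mul_I
    simp only [hF, Int.natAbs_zero, pow_zero, one_mul]
    rw [e1, Complex.ofReal_re]
    ring
  have q : (61 / 25 * (3 / 50 * (1 - 3 / 50)⁻¹) : ℝ) = 183 / 1175 := by norm_num
  rw [Real.norm_eq_abs, q] at b1 b2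
  have c1 := (abs_le.1 b1).2
  have c2 := (abs_le.1 b2).2
  have h3 := hL.lo
  rw [h1, h2, h0]
  linarith

/-- the normalising constant -/
noncomputable def cE (y0 : ℝ) (U : ℤ → ℂ) (e : ℝ) : ℝ :=
  (2 * e / (1 - 17 * e)) / sE U e (fun k => 2 * zl y0 k + 1)

theorem IsSign.ne' {e : ℝ} (h : IsSign e) : 1 - 17 * e ≠ 0 := by
  rcases h with rfl | rfl <;> norm_num

theorem Lat.c_odd (hL : Lat r y0 U) {e : ℝ} (he : IsSign e) :
    cE y0 U e * sE U e (fun k => 2 * zl y0 k + 1) = 2 * e / (1 - 17 * e) := by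
  unfold cE
  exact div_mul_cancel₀ _ (hL.sE_odd_lt he).ne

theorem Lat.c_zl (hL : Lat r y0 U) {e : ℝ} (he : IsSign e) :
    cE y0 U e * sE U e (fun k => zl y0 k) = e / (1 - 17 * e) := by
  have h1 := hL.c_odd he
  have h2 : sE U e (fun k => 2 * zl y0 k + 1) = 2 * sE U e (fun k => zl y0 k) := by
    rw [hL.sE_add he (hL.pg_zl.cmul 2) (PGs.const 1), hL.sE_one, add_zero]
    have := sE_smul U e 2 fun k => zl y0 k
    push_cast at this
    exact this
  rw [h2] at h1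
  have h3 : 2 * e / (1 - 17 * e) = 2 * (e / (1 - 17 * e)) := by ring
  rw [h3] at h1
  linarith

theorem Lat.c_sq (hL : Lat r y0 U) {e : ℝ} (he : IsSign e) :
    cE y0 U e * sE U e (fun k => zl y0 k ^ 2) = -(e / (1 - 17 * e)) := by
  have h1 := hL.sE_even e
  rw [hL.sE_add he (hL.pg_zl.pow 2) hL.pg_zl] at h1
  have h2 := hL.c_zl he
  linear_combination cE y0 U e * h1 - h2

/-! ### Moments -/

/-- moments with a zero in front -/
noncomputable def mom (y0 : ℝ) (U : ℤ → ℂ) (e : ℝ) (w : ℤ → ℂ) (n : ℕ) : ℝ :=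
  if n = 0 then 0 else cE y0 U e * sE U e (fun k => w k ^ (n - 1))

theorem mom_zero (y0 : ℝ) (U : ℤ → ℂ) (e : ℝ) (w : ℤ → ℂ) : mom y0 U e w 0 = 0 := by
  simp [mom]

theorem mom_succ (y0 : ℝ) (U : ℤ → ℂ) (e : ℝ) (w : ℤ → ℂ) (n : ℕ) :
    mom y0 U e w (n + 1) = cE y0 U e * sE U e (fun k => w k ^ n) := by
  simp [mom]

theorem Lat.shm_mom (hL : Lat r y0 U) {e : ℝ} (he : IsSign e) {w : ℤ → ℂ} (hw : PGs w) :
    QS2.shm (mom y0 U e w) = mom y0 U e (fun k => w k + 1) := by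
  funext n
  rcases n with _ | n
  · simp [QS2.shm, mom_zero]
  · unfold QS2.shm
    rw [mom_succ, Finset.sum_range_succ', mom_zero, mul_zero, add_zero]
    have h1 : sE U e (fun k => (w k + 1) ^ n) =
        sE U e (fun k => ∑ i ∈ range (n + 1), ((n.choose i : ℝ) : ℂ) * w k ^ i) := by
      unfold sE
      refine tsum_congr fun k => ?_
      beta_reduce
      rw [add_pow]
      congr 3
      refine congrArg _ (Finset.sum_congr rfl fun i _ => ?_)
      rw [one_pow, mul_one]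
      push_cast
      ring
    rw [h1, hL.sE_sum he _ fun i _ => (hw.pow i).cmul _, Finset.mul_sum]
    refine Finset.sum_congr rfl fun i hi => ?_
    rw [Finset.mem_range] at hi
    rw [mom_succ, sE_smul]
    have h2 : n + 1 - 1 = n := by omega
    have h3 : n + 1 - (i + 1) = n - i := by omega
    rw [h2, h3, Nat.choose_symm (by omega)]
    ring

theorem coeff_cubic (a b c d : ℝ) (s : ℕ → ℝ) (n : ℕ) :
    PowerSeries.coeff n ((PowerSeries.C a + PowerSeries.C b * PowerSeries.X +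
      PowerSeries.C c * PowerSeries.X ^ 2 + PowerSeries.C d * PowerSeries.X ^ 3) *
      PowerSeries.mk s) = a * s n + b * (if 1 ≤ n then s (n - 1) else 0) +
      c * (if 2 ≤ n then s (n - 2) else 0) + d * (if 3 ≤ n then s (n - 3) else 0) := by
  have e1 : (PowerSeries.C a + PowerSeries.C b * PowerSeries.X +
      PowerSeries.C c * PowerSeries.X ^ 2 + PowerSeries.C d * PowerSeries.X ^ 3) *
      PowerSeries.mk s = PowerSeries.C a * PowerSeries.mk s +
      PowerSeries.C b * (PowerSeries.X ^ 1 * PowerSeries.mk s) +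
      PowerSeries.C c * (PowerSeries.X ^ 2 * PowerSeries.mk s) +
      PowerSeries.C d * (PowerSeries.X ^ 3 * PowerSeries.mk s) := by ring
  rw [e1, map_add, map_add, map_add, PowerSeries.coeff_C_mul, PowerSeries.coeff_C_mul,
    PowerSeries.coeff_C_mul, PowerSeries.coeff_C_mul, PowerSeries.coeff_X_pow_mul',
    PowerSeries.coeff_X_pow_mul', PowerSeries.coeff_X_pow_mul']
  simp only [PowerSeries.coeff_mk]

/-- the sheet equation, coefficient by coefficient -/
theorem sheet_coeff (e : ℝ) (s s1 s2 : ℕ → ℝ) :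
    ((1 + PowerSeries.X) ^ 3 * PowerSeries.mk s1 - PowerSeries.C e *
      (34 + 51 * PowerSeries.X + 27 * PowerSeries.X ^ 2 + 5 * PowerSeries.X ^ 3) *
      PowerSeries.mk s + PowerSeries.mk s2 =
      PowerSeries.C e * (2 * PowerSeries.X ^ 2 + PowerSeries.X ^ 3)) ↔
    ∀ n : ℕ, (s1 n + 3 * (if 1 ≤ n then s1 (n - 1) else 0) +
      3 * (if 2 ≤ n then s1 (n - 2) else 0) + (if 3 ≤ n then s1 (n - 3) else 0)) -
      e * (34 * s n + 51 * (if 1 ≤ n then s (n - 1) else 0) +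
      27 * (if 2 ≤ n then s (n - 2) else 0) + 5 * (if 3 ≤ n then s (n - 3) else 0)) + s2 n =
      e * (if n = 2 then 2 else if n = 3 then 1 else 0) := by
  have e1 : ((1 + PowerSeries.X) ^ 3 : PowerSeries ℝ) = PowerSeries.C 1 +
      PowerSeries.C 3 * PowerSeries.X + PowerSeries.C 3 * PowerSeries.X ^ 2 +
      PowerSeries.C 1 * PowerSeries.X ^ 3 := by
    simp only [map_one, map_ofNat]
    ring
  have e2 : PowerSeries.C e * (34 + 51 * PowerSeries.X + 27 * PowerSeries.X ^ 2 +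
      5 * PowerSeries.X ^ 3) = PowerSeries.C (e * 34) +
      PowerSeries.C (e * 51) * PowerSeries.X + PowerSeries.C (e * 27) * PowerSeries.X ^ 2 +
      PowerSeries.C (e * 5) * PowerSeries.X ^ 3 := by
    simp only [map_mul, map_ofNat]
    ring
  have e3 : ∀ n, PowerSeries.coeff n (PowerSeries.C e * (2 * PowerSeries.X ^ 2 +
      PowerSeries.X ^ 3) : PowerSeries ℝ) =
      e * (if n = 2 then 2 else if n = 3 then 1 else 0) := by
    intro n
    have : (2 * PowerSeries.X ^ 2 + PowerSeries.X ^ 3 : PowerSeries ℝ) =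
        PowerSeries.C 2 * PowerSeries.X ^ 2 + PowerSeries.X ^ 3 := by
      simp only [map_ofNat]
    rw [this, PowerSeries.coeff_C_mul, map_add, PowerSeries.coeff_C_mul,
      PowerSeries.coeff_X_pow, PowerSeries.coeff_X_pow]
    by_cases h2 : n = 2
    · subst h2
      norm_num
    · by_cases h3 : n = 3
      · subst h3
        norm_num
      · simp [h2, h3]
  rw [PowerSeries.ext_iff]
  refine forall_congr' fun n => ?_
  rw [e3, map_add, map_sub, e1, e2, coeff_cubic, coeff_cubic, PowerSeries.coeff_mk]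
  constructor
  · intro h
    linear_combination h
  · intro h
    linear_combination h

/-- **the moments form a sheet** -/
theorem Lat.isSheet (hL : Lat r y0 U) {e : ℝ} (he : IsSign e) :
    IsSheet e (mom y0 U e (fun k => zl y0 k)) (mom y0 U e (fun k => zl y0 k - 1)) := by
  have pz := hL.pg_zl
  have hs1 : QS2.shm (mom y0 U e (fun k => zl y0 k - 1)) = mom y0 U e (fun k => zl y0 k) := by
    rw [hL.shm_mom he (pz.sub (PGs.const 1))]
    simp only [sub_add_cancel]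
  have c0 : cE y0 U e * sE U e (fun _ => (1 : ℂ)) = 0 := by rw [hL.sE_one, mul_zero]
  have c1 := hL.c_zl he
  have c2 := hL.c_sq he
  have hne := he.ne'
  refine ⟨hs1, ?_⟩
  rw [hL.shm_mom he pz]
  refine (sheet_coeff e _ _ _).2 fun n => ?_
  have hone : ∀ w : ℤ → ℂ, cE y0 U e * sE U e (fun k => w k ^ 0) = 0 := by
    intro w
    simpa using c0
  have hm1 : cE y0 U e * sE U e (fun k => (zl y0 k - 1) ^ 1) = e / (1 - 17 * e) := by
    have : sE U e (fun k => (zl y0 k - 1) ^ 1) = sE U e (fun k => zl y0 k) := by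
      simp only [pow_one]
      rw [hL.sE_sub he pz (PGs.const 1), hL.sE_one, sub_zero]
    rw [this, c1]
  have hp1 : cE y0 U e * sE U e (fun k => (zl y0 k + 1) ^ 1) = e / (1 - 17 * e) := by
    have : sE U e (fun k => (zl y0 k + 1) ^ 1) = sE U e (fun k => zl y0 k) := by
      simp only [pow_one]
      rw [hL.sE_add he pz (PGs.const 1), hL.sE_one, add_zero]
    rw [this, c1]
  have hz1 : cE y0 U e * sE U e (fun k => zl y0 k ^ 1) = e / (1 - 17 * e) := by
    simp only [pow_one]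
    exact c1
  have h2z : sE U e (fun k => 2 * zl y0 k) = 2 * sE U e (fun k => zl y0 k) := by
    have := sE_smul U e 2 fun k => zl y0 k
    push_cast at this
    exact this
  have hm2 : cE y0 U e * sE U e (fun k => (zl y0 k - 1) ^ 2) = -3 * (e / (1 - 17 * e)) := by
    have e1 : (fun k => (zl y0 k - 1) ^ 2) = fun k => (zl y0 k ^ 2 - 2 * zl y0 k) + 1 := by
      funext k
      ring
    rw [e1, hL.sE_add he ((pz.pow 2).sub (pz.cmul 2)) (PGs.const 1), hL.sE_one, add_zero,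
      hL.sE_sub he (pz.pow 2) (pz.cmul 2), h2z]
    linear_combination c2 - 2 * c1
  have hp2 : cE y0 U e * sE U e (fun k => (zl y0 k + 1) ^ 2) = e / (1 - 17 * e) := by
    have e1 : (fun k => (zl y0 k + 1) ^ 2) = fun k => (zl y0 k ^ 2 + 2 * zl y0 k) + 1 := by
      funext k
      ring
    rw [e1, hL.sE_add he ((pz.pow 2).add (pz.cmul 2)) (PGs.const 1), hL.sE_one, add_zero,
      hL.sE_add he (pz.pow 2) (pz.cmul 2), h2z]
    linear_combination c2 + 2 * c1
  set E : ℝ := e / (1 - 17 * e) with hE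
  have hEe : E * (1 - 17 * e) = e := by
    rw [hE]
    exact div_mul_cancel₀ _ hne
  have A0 := mom_zero y0 U e (fun k => zl y0 k - 1)
  have A1 : mom y0 U e (fun k => zl y0 k - 1) 1 = 0 := by rw [mom_succ]; exact hone _
  have A2 : mom y0 U e (fun k => zl y0 k - 1) 2 = E := by rw [mom_succ]; exact hm1
  have A3 : mom y0 U e (fun k => zl y0 k - 1) 3 = -3 * E := by rw [mom_succ]; exact hm2
  have B0 := mom_zero y0 U e (fun k => zl y0 k)
  have B1 : mom y0 U e (fun k => zl y0 k) 1 = 0 := by rw [mom_succ]; exact hone _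
  have B2 : mom y0 U e (fun k => zl y0 k) 2 = E := by rw [mom_succ]; exact hz1
  have B3 : mom y0 U e (fun k => zl y0 k) 3 = -E := by rw [mom_succ]; exact c2
  have C0 := mom_zero y0 U e (fun k => zl y0 k + 1)
  have C1 : mom y0 U e (fun k => zl y0 k + 1) 1 = 0 := by rw [mom_succ]; exact hone _
  have C2 : mom y0 U e (fun k => zl y0 k + 1) 2 = E := by rw [mom_succ]; exact hp1
  have C3 : mom y0 U e (fun k => zl y0 k + 1) 3 = E := by rw [mom_succ]; exact hp2
  rcases n with _ | _ | _ | _ | n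
  · norm_num [A0, B0, C0]
  · norm_num [A0, B0, C0, A1, B1, C1]
  · norm_num [A0, B0, C0, A1, B1, C1, A2, B2, C2]
    linear_combination 2 * hEe
  · norm_num [A0, B0, C0, A1, B1, C1, A2, B2, C2, A3, B3, C3]
    linear_combination hEe
  · have key := hL.resum he (pz.pow n)
    have pm := pz.sub (PGs.const 1)
    have pp := pz.add (PGs.const 1)
    have e1 : (fun k => (zl y0 k + 1) ^ 3 * zl y0 (k + 1) ^ n -
        (e : ℂ) * (QS2.ap (zl y0 k) * zl y0 k ^ n) + zl y0 k ^ 3 * zl y0 (k - 1) ^ n) =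
        fun k => ((zl y0 k + 1) ^ (n + 3) - (e : ℂ) * (((((34 : ℝ) : ℂ) * zl y0 k ^ (n + 3) +
          ((51 : ℝ) : ℂ) * zl y0 k ^ (n + 2)) + ((27 : ℝ) : ℂ) * zl y0 k ^ (n + 1)) +
          ((5 : ℝ) : ℂ) * zl y0 k ^ n)) +
          ((((zl y0 k - 1) ^ (n + 3) + ((3 : ℝ) : ℂ) * (zl y0 k - 1) ^ (n + 2)) +
          ((3 : ℝ) : ℂ) * (zl y0 k - 1) ^ (n + 1)) + (zl y0 k - 1) ^ n) := by
      funext k
      rw [zl_succ, zl_pred]
      unfold QS2.ap
      push_cast
      ring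
    rw [e1, hL.sE_add he ((pp.pow _).sub ((((((pz.pow _).cmul _).add ((pz.pow _).cmul _)).add
        ((pz.pow _).cmul _)).add ((pz.pow _).cmul _)).cmul _))
        ((((pm.pow _).add ((pm.pow _).cmul _)).add ((pm.pow _).cmul _)).add (pm.pow _)),
      hL.sE_sub he (pp.pow _) ((((((pz.pow _).cmul _).add ((pz.pow _).cmul _)).add
        ((pz.pow _).cmul _)).add ((pz.pow _).cmul _)).cmul _), sE_smul,
      hL.sE_add he ((((pz.pow _).cmul _).add ((pz.pow _).cmul _)).add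
        ((pz.pow _).cmul _)) ((pz.pow _).cmul _),
      hL.sE_add he (((pz.pow _).cmul _).add ((pz.pow _).cmul _)) ((pz.pow _).cmul _),
      hL.sE_add he ((pz.pow _).cmul _) ((pz.pow _).cmul _), sE_smul, sE_smul, sE_smul, sE_smul,
      hL.sE_add he (((pm.pow _).add ((pm.pow _).cmul _)).add ((pm.pow _).cmul _)) (pm.pow _),
      hL.sE_add he ((pm.pow _).add ((pm.pow _).cmul _)) ((pm.pow _).cmul _),
      hL.sE_add he (pm.pow _) ((pm.pow _).cmul _), sE_smul, sE_smul] at key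
    have n1 : n + 1 + 1 + 1 + 1 - 1 = n + 2 + 1 := by omega
    have n2 : n + 1 + 1 + 1 + 1 - 2 = n + 1 + 1 := by omega
    have n3 : n + 1 + 1 + 1 + 1 - 3 = n + 1 := by omega
    rw [if_pos (by omega), if_pos (by omega), if_pos (by omega), if_pos (by omega),
      if_pos (by omega), if_pos (by omega), if_neg (by omega), if_neg (by omega), n1, n2, n3]
    simp only [mom_succ]
    linear_combination cE y0 U e * key

/-! ### Uniqueness of the sheet -/

theorem shm_split (s : ℕ → ℝ) (n : ℕ) : QS2.shm s n =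
    s n + ∑ m ∈ range n, (((n - 1).choose (n - m) : ℕ) : ℝ) * s m := by
  unfold QS2.shm
  rw [Finset.sum_range_succ]
  simp
  ring

theorem IsSheet.unique {e : ℝ} (he : 2 - 34 * e ≠ 0) {s s1 s' s1' : ℕ → ℝ}
    (h : IsSheet e s s1) (h' : IsSheet e s' s1') : s = s' ∧ s1 = s1' := by
  have H : ∀ n, s n = s' n ∧ s1 n = s1' n := by
    intro n
    induction n using Nat.strong_induction_on with
    | _ n ih =>
      have a1 := congrFun h.shift n
      have a2 := congrFun h'.shift n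
      rw [shm_split] at a1 a2
      have b1 := (sheet_coeff e _ _ _).1 h.eqn n
      have b2 := (sheet_coeff e _ _ _).1 h'.eqn n
      rw [shm_split] at b1 b2
      have c1 : ∑ m ∈ range n, (((n - 1).choose (n - m) : ℕ) : ℝ) * s1 m =
          ∑ m ∈ range n, (((n - 1).choose (n - m) : ℕ) : ℝ) * s1' m :=
        Finset.sum_congr rfl fun m hm => by rw [(ih m (Finset.mem_range.1 hm)).2]
      have c2 : ∑ m ∈ range n, (((n - 1).choose (n - m) : ℕ) : ℝ) * s m =
          ∑ m ∈ range n, (((n - 1).choose (n - m) : ℕ) : ℝ) * s' m :=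
        Finset.sum_congr rfl fun m hm => by rw [(ih m (Finset.mem_range.1 hm)).1]
      have d1 : (if 1 ≤ n then s1 (n - 1) else 0) = if 1 ≤ n then s1' (n - 1) else 0 := by
        split_ifs with hn
        · exact (ih _ (by omega)).2
        · rfl
      have d2 : (if 2 ≤ n then s1 (n - 2) else 0) = if 2 ≤ n then s1' (n - 2) else 0 := by
        split_ifs with hn
        · exact (ih _ (by omega)).2
        · rfl
      have d3 : (if 3 ≤ n then s1 (n - 3) else 0) = if 3 ≤ n then s1' (n - 3) else 0 := by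
        split_ifs with hn
        · exact (ih _ (by omega)).2
        · rfl
      have f1 : (if 1 ≤ n then s (n - 1) else 0) = if 1 ≤ n then s' (n - 1) else 0 := by
        split_ifs with hn
        · exact (ih _ (by omega)).1
        · rfl
      have f2 : (if 2 ≤ n then s (n - 2) else 0) = if 2 ≤ n then s' (n - 2) else 0 := by
        split_ifs with hn
        · exact (ih _ (by omega)).1
        · rfl
      have f3 : (if 3 ≤ n then s (n - 3) else 0) = if 3 ≤ n then s' (n - 3) else 0 := by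
        split_ifs with hn
        · exact (ih _ (by omega)).1
        · rfl
      rw [d1, d2, d3, f1, f2, f3, c2] at b1
      rw [c1] at a1
      have e1 : s1 n - s1' n = s n - s' n := by linear_combination a1 - a2
      have e2 : (2 - 34 * e) * (s n - s' n) = 0 := by linear_combination b1 - b2 - e1
      have e3 : s n - s' n = 0 := (mul_eq_zero.1 e2).resolve_left he
      exact ⟨by linarith, by linarith⟩
  exact ⟨funext fun n => (H n).1, funext fun n => (H n).2⟩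

/-- **moments, `ε = 1`** -/
theorem Lat.mom_P (hL : Lat r y0 U) : (mom y0 U 1 fun k => zl y0 k) = (fun n => (sP n : ℝ)) ∧
    (mom y0 U 1 fun k => zl y0 k - 1) = fun n => (sP1 n : ℝ) := by
  have h := hL.isSheet (Or.inl rfl : IsSign 1)
  exact IsSheet.unique (by norm_num) h (isSheet_P_cast ℝ)

/-- **moments, `ε = -1`** -/
theorem Lat.mom_M (hL : Lat r y0 U) : (mom y0 U (-1) fun k => zl y0 k) = (fun n => (sM n : ℝ)) ∧
    (mom y0 U (-1) fun k => zl y0 k - 1) = fun n => (sM1 n : ℝ) := by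
  have h := hL.isSheet (Or.inr rfl : IsSign (-1))
  exact IsSheet.unique (by norm_num) h (isSheet_M_cast ℝ)

/-- (M), (M1) in terms of `Efun`, `ε = 1` -/
theorem Lat.moments_P (hL : Lat r y0 U) (m : ℕ) :
    cE y0 U 1 * Efun y0 U 1 (fun t => t ^ m) = (sP (m + 1) : ℝ) ∧
    cE y0 U 1 * Efun y0 U 1 (fun t => (t - 1) ^ m) = (sP1 (m + 1) : ℝ) := by
  have h1 := congrFun hL.mom_P.1 (m + 1)
  have h2 := congrFun hL.mom_P.2 (m + 1)
  rw [mom_succ] at h1 h2
  exact ⟨h1, h2⟩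

/-- (M), (M1) in terms of `Efun`, `ε = -1` -/
theorem Lat.moments_M (hL : Lat r y0 U) (m : ℕ) :
    cE y0 U (-1) * Efun y0 U (-1) (fun t => t ^ m) = (sM (m + 1) : ℝ) ∧
    cE y0 U (-1) * Efun y0 U (-1) (fun t => (t - 1) ^ m) = (sM1 (m + 1) : ℝ) := by
  have h1 := congrFun hL.mom_M.1 (m + 1)
  have h2 := congrFun hL.mom_M.2 (m + 1)
  rw [mom_succ] at h1 h2
  exact ⟨h1, h2⟩

/-! ### The Stieltjes transform at real points -/

/-- `c E_ε (1 / (z - t))` -/
noncomputable def hE (y0 : ℝ) (U : ℤ → ℂ) (e : ℝ) (z : ℝ) : ℝ :=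
  cE y0 U e * sE U e (fun k => 1 / ((z : ℂ) - zl y0 k))

theorem Lat.sub_ne (hL : Lat r y0 U) (z : ℝ) (k : ℤ) : (z : ℂ) - zl y0 k ≠ 0 := by
  intro h
  have h1 := congrArg Complex.im h
  rw [Complex.sub_im, Complex.ofReal_im, zl_im, Complex.zero_im] at h1
  have := hL.y_pos
  linarith

theorem Lat.norm_inv_le (hL : Lat r y0 U) (z : ℝ) (k : ℤ) :
    ‖1 / ((z : ℂ) - zl y0 k)‖ ≤ 5 := by
  have h1 : (1 / 5 : ℝ) ≤ ‖(z : ℂ) - zl y0 k‖ := by
    have h := Complex.abs_im_le_norm ((z : ℂ) - zl y0 k)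
    rw [Complex.sub_im, Complex.ofReal_im, zl_im, zero_sub, abs_neg, abs_of_pos hL.y_pos] at h
    exact hL.lo.le.trans h
  rw [norm_div, norm_one, div_le_iff₀ (by linarith)]
  linarith

theorem Lat.pg_inv (hL : Lat r y0 U) (z : ℝ) : PGs fun k => 1 / ((z : ℂ) - zl y0 k) :=
  PGs.of_bound 5 fun k => hL.norm_inv_le z k

theorem Lat.hE_rec (hL : Lat r y0 U) {e : ℝ} (he : IsSign e) (z : ℝ) :
    (z + 1) ^ 3 * hE y0 U e (z + 1) - e * (QS2.ap z * hE y0 U e z) + z ^ 3 * hE y0 U e (z - 1) =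
      e * (2 * z + 1) := by
  have key := hL.resum he (hL.pg_inv z)
  have pz := hL.pg_zl
  have p0 := hL.pg_inv z
  have p1 := hL.pg_inv (z + 1)
  have pm := hL.pg_inv (z - 1)
  have e1 : (fun k => (zl y0 k + 1) ^ 3 * (1 / ((z : ℂ) - zl y0 (k + 1))) -
      (e : ℂ) * (QS2.ap (zl y0 k) * (1 / ((z : ℂ) - zl y0 k))) +
      zl y0 k ^ 3 * (1 / ((z : ℂ) - zl y0 (k - 1)))) = fun k =>
      ((((((z + 1) ^ 3 : ℝ) : ℂ) * (1 / (((z + 1 : ℝ) : ℂ) - zl y0 k)) -
        ((e * QS2.ap z : ℝ) : ℂ) * (1 / ((z : ℂ) - zl y0 k))) +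
        (((z ^ 3 : ℝ) : ℂ) * (1 / (((z - 1 : ℝ) : ℂ) - zl y0 k)))) -
      ((((2 - 34 * e : ℝ) : ℂ) * zl y0 k ^ 2 +
        (((2 - 34 * e) * z + (3 - 51 * e) : ℝ) : ℂ) * zl y0 k) +
        (((2 - 34 * e) * z ^ 2 + (3 - 51 * e) * z + (2 - 27 * e) : ℝ) : ℂ) * 1)) := by
    funext k
    have n0 := hL.sub_ne z k
    have n1 := hL.sub_ne (z + 1) k
    have n2 := hL.sub_ne (z - 1) k
    rw [zl_succ, zl_pred]
    have m1 : (z : ℂ) - (zl y0 k + 1) = ((z - 1 : ℝ) : ℂ) - zl y0 k := by push_cast; ring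
    have m2 : (z : ℂ) - (zl y0 k - 1) = ((z + 1 : ℝ) : ℂ) - zl y0 k := by push_cast; ring
    rw [m1, m2]
    unfold QS2.ap
    field_simp
    push_cast
    ring
  rw [e1, hL.sE_sub he (((p1.cmul _).sub (p0.cmul _)).add (pm.cmul _))
      ((((pz.pow 2).cmul _).add (pz.cmul _)).add ((PGs.const 1).cmul _)),
    hL.sE_add he ((p1.cmul _).sub (p0.cmul _)) (pm.cmul _),
    hL.sE_sub he (p1.cmul _) (p0.cmul _),
    hL.sE_add he (((pz.pow 2).cmul _).add (pz.cmul _)) ((PGs.const 1).cmul _),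
    hL.sE_add he ((pz.pow 2).cmul _) (pz.cmul _),
    sE_smul, sE_smul, sE_smul, sE_smul, sE_smul, sE_smul, hL.sE_one] at key
  have c1 := hL.c_zl he
  have c2 := hL.c_sq he
  have h3 : e / (1 - 17 * e) * (1 - 17 * e) = e := div_mul_cancel₀ _ he.ne'
  unfold hE
  linear_combination cE y0 U e * key + (2 - 34 * e) * c2 +
    ((2 - 34 * e) * z + (3 - 51 * e)) * c1 + (2 * z + 1) * h3

theorem Lat.hE_refl (hL : Lat r y0 U) (e : ℝ) (z : ℝ) :
    hE y0 U e (-1 - z) = hE y0 U e z := by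
  have h := hL.reflect e (φ := fun k => 1 / ((z : ℂ) - zl y0 k))
    (ψ := fun k => -(1 / (((-1 - z : ℝ) : ℂ) - zl y0 k))) fun k => by
      rw [map_div₀, map_one, map_sub, Complex.conj_ofReal, zl_conj]
      have e1 : (z : ℂ) - (-1 - zl y0 k) = -(((-1 - z : ℝ) : ℂ) - zl y0 k) := by
        push_cast
        ring
      rw [e1, div_neg]
  rw [sE_neg] at h
  unfold hE
  linear_combination (-cE y0 U e) * h

theorem Lat.hE_bound (hL : Lat r y0 U) {e : ℝ} (he : IsSign e) :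
    ∃ C : ℝ, ∀ z : ℝ, |hE y0 U e z| ≤ C := by
  have hs := hL.summable_norm (PGs.const 1)
  refine ⟨|cE y0 U e| * ∑' k : ℤ, 10 * ‖U k * 1‖, fun z => ?_⟩
  unfold hE
  rw [abs_mul]
  refine mul_le_mul_of_nonneg_left ?_ (abs_nonneg _)
  rw [← Real.norm_eq_abs]
  refine tsum_of_norm_bounded (hs.mul_left 10).hasSum fun k => ?_
  rw [Real.norm_eq_abs, abs_mul, he.abs_pow, one_mul, abs_mul, abs_two]
  have h1 := Complex.abs_re_le_norm (U k * (1 / ((z : ℂ) - zl y0 k)))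
  rw [norm_mul] at h1
  have h2 := mul_le_mul_of_nonneg_left (hL.norm_inv_le z k) (norm_nonneg (U k))
  rw [norm_mul, norm_one, mul_one]
  linarith

end RS

end T2
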