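import Pool.Agent.T2.SLcs

/-!
# T2, real side: the values of the sheets at the integers

A bounded solution `h` of the inhomogeneous recurrence of `cs ε`, starting at `n = 0`, is
`cs ε n - Lam ε * a_n`.
-/

set_option autoImplicit false

namespace T2

open Finset Filter Topology QS2

/-- `a_n → ∞` -/
theorem tendsto_aperyA : Tendsto (fun n : ℕ => ((aperyA n : ℚ) : ℝ)) atTop atTop := by
  have h1 : ∀ n : ℕ, (n : ℝ) + 1 ≤ ((aperyA n : ℚ) : ℝ) := by
    intro n
    have h : ((n : ℚ) + 1) ≤ aperyA n := by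
      rw [aperyA_eq]
      have h2 : ∀ k ∈ range (n + 1), (1 : ℚ) ≤ tb n k := by
        intro k hk
        unfold tb
        have e1 : (1 : ℚ) ≤ ((n.choose k : ℕ) : ℚ) := by
          exact_mod_cast Nat.choose_pos (by
            rw [Finset.mem_range] at hk
            omega)
        have e2 : (1 : ℚ) ≤ (((n + k).choose k : ℕ) : ℚ) := by
          exact_mod_cast Nat.choose_pos (by omega)
        have e3 : (1 : ℚ) ≤ ((n.choose k : ℕ) : ℚ) ^ 2 := one_le_pow₀ e1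
        have e4 : (1 : ℚ) ≤ (((n + k).choose k : ℕ) : ℚ) ^ 2 := one_le_pow₀ e2
        nlinarith
      have h3 := Finset.card_nsmul_le_sum (range (n + 1)) (fun k => tb n k) 1 h2
      rw [Finset.card_range, nsmul_eq_mul, mul_one] at h3
      push_cast at h3
      exact h3
    exact_mod_cast h
  refine tendsto_atTop_mono h1 ?_
  exact tendsto_atTop_add_const_right _ _ tendsto_natCast_atTop_atTop

/-- `n^2 l_n ≤ 6 ζ(3) / (n+1)` -/
theorem sq_mul_lrem_le (n : ℕ) : (n : ℝ) ^ 2 * lrem n ≤ 6 * zeta3 / ((n : ℝ) + 1) := by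
  have h1 : (((n : ℝ) + 1) ^ 2 * ((n : ℝ) + 2) ^ 2) ≤ ((aperyA (n + 1) : ℚ) : ℝ) := by
    have h : (((n : ℚ) + 1) ^ 2 * ((n : ℚ) + 2) ^ 2) ≤ aperyA (n + 1) := by
      rw [aperyA_eq]
      have h2 : tb (n + 1) 1 = ((n : ℚ) + 1) ^ 2 * ((n : ℚ) + 2) ^ 2 := by
        unfold tb
        rw [Nat.choose_one_right, Nat.choose_one_right]
        push_cast
        ring
      rw [← h2]
      refine Finset.single_le_sum (f := fun k => tb (n + 1) k) (fun k _ => ?_) ?_
      · unfold tb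
        positivity
      · rw [Finset.mem_range]
        omega
    exact_mod_cast h
  have h2 := lrem_bound n
  have hl : 0 ≤ lrem n := (lrem_pos' n).le
  have h3 : (((n : ℝ) + 1) ^ 2 * ((n : ℝ) + 2) ^ 2) * lrem n ≤ 6 * zeta3 :=
    (mul_le_mul_of_nonneg_right h1 hl).trans h2
  rw [le_div_iff₀ (by positivity)]
  refine le_trans ?_ h3
  have hn : (0 : ℝ) ≤ n := Nat.cast_nonneg n
  have h4 : (n : ℝ) ^ 2 * ((n : ℝ) + 1) ≤ ((n : ℝ) + 1) ^ 2 * ((n : ℝ) + 2) ^ 2 := by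
    have e : ((n : ℝ) + 1) ^ 2 * ((n : ℝ) + 2) ^ 2 - (n : ℝ) ^ 2 * ((n : ℝ) + 1) =
      (n : ℝ) ^ 4 + 5 * n ^ 3 + 12 * n ^ 2 + 12 * n + 4 := by ring
    have : 0 ≤ (n : ℝ) ^ 4 + 5 * n ^ 3 + 12 * n ^ 2 + 12 * n + 4 := by positivity
    linarith
  calc (n : ℝ) ^ 2 * lrem n * ((n : ℝ) + 1) = ((n : ℝ) ^ 2 * ((n : ℝ) + 1)) * lrem n := by ring
    _ ≤ _ := mul_le_mul_of_nonneg_right h4 hl

/-- `cs ε n / a_n → Lam ε` -/
theorem tendsto_cs_div (ε : ℚ) (hε : |(ε : ℝ)| = 1) :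
    Tendsto (fun n : ℕ => ((cs ε n : ℚ) : ℝ) / ((aperyA n : ℚ) : ℝ)) atTop (𝓝 (Lam (ε : ℝ))) := by
  have hA : ∀ m, (0 : ℝ) < ((aperyA m : ℚ) : ℝ) := fun m => by exact_mod_cast aperyA_pos m
  set S : ℕ → ℝ := fun n => ∑ m ∈ range n, (ε : ℝ) ^ m * (2 * (m : ℝ) + 1) * ((aperyA m : ℚ) : ℝ)
    with hS
  have t1 : Tendsto (fun n : ℕ => ∑' m : ℕ, (ε : ℝ) ^ (m + n) * (2 * ((m + n : ℕ) : ℝ) + 1) *
      lrem (m + n)) atTop (𝓝 0) :=
    tendsto_sum_nat_add (fun m : ℕ => (ε : ℝ) ^ m * (2 * (m : ℝ) + 1) * lrem m)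
  have t2 : Tendsto (fun n : ℕ => lrem n * S n / ((aperyA n : ℚ) : ℝ)) atTop (𝓝 0) := by
    rw [tendsto_zero_iff_norm_tendsto_zero]
    have hb : ∀ n : ℕ, ‖lrem n * S n / ((aperyA n : ℚ) : ℝ)‖ ≤ 6 * zeta3 / ((n : ℝ) + 1) := by
      intro n
      have h1 : |S n| ≤ (n : ℝ) ^ 2 * ((aperyA n : ℚ) : ℝ) := by
        have h2 : |S n| ≤ ∑ m ∈ range n, (2 * (m : ℝ) + 1) * ((aperyA n : ℚ) : ℝ) := by
          refine (Finset.abs_sum_le_sum_abs _ _).trans (Finset.sum_le_sum (fun m hm => ?_))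
          rw [Finset.mem_range] at hm
          rw [abs_mul, abs_mul, abs_pow, hε, one_pow, one_mul, abs_of_pos (hA m),
            abs_of_nonneg (by positivity : (0 : ℝ) ≤ 2 * (m : ℝ) + 1)]
          refine mul_le_mul_of_nonneg_left ?_ (by positivity)
          exact_mod_cast aperyA_mono hm.le
        refine h2.trans (le_of_eq ?_)
        rw [← Finset.sum_mul]
        congr 1
        clear h2
        induction n with
        | zero => simp
        | succ n ih =>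
          rw [Finset.sum_range_succ, ih]
          push_cast
          ring
      rw [norm_div, norm_mul, Real.norm_eq_abs, Real.norm_eq_abs, Real.norm_eq_abs,
        abs_of_pos (hA n), abs_of_pos (lrem_pos' n), div_le_iff₀ (hA n)]
      have hl : 0 ≤ lrem n := (lrem_pos' n).le
      calc lrem n * |S n| ≤ lrem n * ((n : ℝ) ^ 2 * ((aperyA n : ℚ) : ℝ)) :=
            mul_le_mul_of_nonneg_left h1 hl
        _ = ((n : ℝ) ^ 2 * lrem n) * ((aperyA n : ℚ) : ℝ) := by ring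
        _ ≤ _ := mul_le_mul_of_nonneg_right (sq_mul_lrem_le n) (hA n).le
    refine squeeze_zero (fun _ => norm_nonneg _) hb ?_
    refine (tendsto_const_nhds (x := 6 * zeta3)).div_atTop ?_
    exact tendsto_atTop_add_const_right _ _ tendsto_natCast_atTop_atTop
  have t3 := ((t2.add t1).const_mul (1 / 6 : ℝ)).const_sub (Lam (ε : ℝ))
  rw [add_zero, mul_zero, sub_zero] at t3
  refine t3.congr (fun n => ?_)
  have h := rem_eq ε hε n
  have hn := (hA n).ne'
  have e : ((cs ε n : ℚ) : ℝ) = ((aperyA n : ℚ) : ℝ) * Lam (ε : ℝ) -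
      1 / 6 * (lrem n * S n + ((aperyA n : ℚ) : ℝ) *
        ∑' m : ℕ, (ε : ℝ) ^ (m + n) * (2 * ((m + n : ℕ) : ℝ) + 1) * lrem (m + n)) := by
    rw [← h]
    ring
  rw [e]
  field_simp

/-- **The values at the integers.** -/
theorem values (ε : ℚ) (hε : |(ε : ℝ)| = 1) (h : ℕ → ℝ) (h1 : h 1 = 5 * h 0 + 1)
    (hrec : ∀ n : ℕ, ((n : ℝ) + 2) ^ 3 * h (n + 2) = ap ((n : ℝ) + 1) * h (n + 1) -
      ((n : ℝ) + 1) ^ 3 * h n + (ε : ℝ) ^ (n + 1) * (2 * ((n : ℝ) + 1) + 1))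
    (hb : ∃ C : ℝ, ∀ n, |h n| ≤ C) (n : ℕ) :
    h n = ((cs ε n : ℚ) : ℝ) - Lam (ε : ℝ) * ((aperyA n : ℚ) : ℝ) := by
  -- `h n = cs n + h 0 * a_n`
  have key : ∀ n : ℕ, h n = ((cs ε n : ℚ) : ℝ) + h 0 * ((aperyA n : ℚ) : ℝ) := by
    intro n
    induction n using Nat.strong_induction_on with
    | _ n ih =>
      rcases n with _ | _ | n
      · simp [cs_zero, aperyA_zero]
      · rw [zero_add, cs_one, aperyA_one, h1]
        push_cast
        ring
      · have e0 := ih n (by omega)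
        have e1 := ih (n + 1) (by omega)
        have e2 := hrec n
        have c := congrArg (fun q : ℚ => (q : ℝ)) (cs_rec ε n)
        have a := congrArg (fun q : ℚ => (q : ℝ)) (aperyA_rec n)
        simp only [QS2.ap] at c a e2
        push_cast at c a e2
        have hd : ((n : ℝ) + 2) ^ 3 ≠ 0 := by positivity
        apply mul_left_cancel₀ hd
        rw [show n + 1 + 1 = n + 2 from rfl]
        rw [e0, e1] at e2
        linear_combination e2 - c - h 0 * a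
  obtain ⟨C, hC⟩ := hb
  -- divide by `a_n`
  have hA : ∀ m, (0 : ℝ) < ((aperyA m : ℚ) : ℝ) := fun m => by exact_mod_cast aperyA_pos m
  have t1 : Tendsto (fun n : ℕ => h n / ((aperyA n : ℚ) : ℝ)) atTop (𝓝 (Lam (ε : ℝ) + h 0)) := by
    have := (tendsto_cs_div ε hε).add_const (h 0)
    refine this.congr (fun n => ?_)
    rw [key n]
    have := (hA n).ne'
    field_simp
  have t2 : Tendsto (fun n : ℕ => h n / ((aperyA n : ℚ) : ℝ)) atTop (𝓝 0) := by
    rw [tendsto_zero_iff_norm_tendsto_zero]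
    refine squeeze_zero (fun _ => norm_nonneg _) (fun n => ?_)
      ((tendsto_const_nhds (x := C)).div_atTop tendsto_aperyA)
    rw [norm_div, Real.norm_eq_abs, Real.norm_eq_abs, abs_of_pos (hA n)]
    exact div_le_div_of_nonneg_right (hC n) (hA n).le
  have h0 := tendsto_nhds_unique t1 t2
  rw [key n]
  have : h 0 = - Lam (ε : ℝ) := by linarith
  rw [this]
  ring

end T2
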