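import Pool.Agent.T2.RB2
import Pool.Agent.T2.RB3v
import Mathlib.Algebra.Ring.GeomSum

/-!
# T2, module R3 (RB2v): values at the integers, polynomial parts
-/

set_option autoImplicit false

open Finset Filter Topology Polynomial

namespace T2

variable {r : ℂ → ℂ} {y0 : ℝ} {U : ℤ → ℂ}

theorem Lat.hE_rec_nat (hL : Lat r y0 U) {e : ℝ} (he : IsSign e) (n : ℕ) :
    ((n : ℝ) + 2) ^ 3 * hE y0 U e ((n : ℝ) + 2) -
      e * (QS2.ap ((n : ℝ) + 1) * hE y0 U e ((n : ℝ) + 1)) +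
      ((n : ℝ) + 1) ^ 3 * hE y0 U e n = e * (2 * ((n : ℝ) + 1) + 1) := by
  have h := hL.hE_rec he ((n : ℝ) + 1)
  have e1 : (n : ℝ) + 1 + 1 = (n : ℝ) + 2 := by ring
  have e2 : (n : ℝ) + 1 - 1 = n := by ring
  rw [e1, e2] at h
  exact h

/-- the value at the integers, general sign -/
theorem Lat.hE_value (hL : Lat r y0 U) (e : ℚ) (he : IsSign (e : ℝ)) (n : ℕ) :
    (e : ℝ) ^ n * hE y0 U e n = ((cs e n : ℚ) : ℝ) - Lam (e : ℝ) * ((QS2.aperyA n : ℚ) : ℝ) := by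
  have hab : |(e : ℝ)| = 1 := by
    rcases he with h | h <;> rw [h] <;> simp
  refine values e hab (fun n => (e : ℝ) ^ n * hE y0 U e n) ?_ ?_ ?_ n
  · have h := hL.hE_rec he 0
    have e1 : QS2.ap (0 : ℝ) = 5 := by simp [QS2.ap]
    rw [e1] at h
    have h2 := he.sq
    norm_num at h ⊢
    linear_combination (e : ℝ) * h + (5 * hE y0 U e 0 + 1) * h2
  · intro n
    have h := hL.hE_rec_nat he n
    have h2 := he.sq
    push_cast
    rw [pow_succ (e : ℝ) (n + 1), pow_succ (e : ℝ) n]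
    have e3 : (n : ℝ) + 1 + 1 = (n : ℝ) + 2 := by ring
    rw [e3] at *
    linear_combination ((e : ℝ) ^ n * e * e) * h +
      ((e : ℝ) ^ n * e * (QS2.ap ((n : ℝ) + 1) * hE y0 U e ((n : ℝ) + 1)) -
        (e : ℝ) ^ n * (((n : ℝ) + 1) ^ 3 * hE y0 U e n) +
        (e : ℝ) ^ n * e * (2 * ((n : ℝ) + 1) + 1)) * h2
  · obtain ⟨C, hC⟩ := hL.hE_bound he
    refine ⟨C, fun n => ?_⟩
    rw [abs_mul, he.abs_pow, one_mul]
    exact hC n

theorem Lat.hE_value_P (hL : Lat r y0 U) (n : ℕ) :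
    hE y0 U 1 n = ((cs 1 n : ℚ) : ℝ) - Lam 1 * ((QS2.aperyA n : ℚ) : ℝ) := by
  have h := hL.hE_value 1 (Or.inl (by norm_num)) n
  push_cast at h
  rwa [one_pow, one_mul] at h

theorem Lat.hE_value_M (hL : Lat r y0 U) (n : ℕ) :
    (-1) ^ n * hE y0 U (-1) n =
      ((cs (-1) n : ℚ) : ℝ) - Lam (-1) * ((QS2.aperyA n : ℚ) : ℝ) := by
  have h := hL.hE_value (-1) (Or.inr (by norm_num)) n
  push_cast at h
  exact h

/-! ### Polynomial parts -/

/-- value of a real polynomial at a complex point -/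
noncomputable def evC (P : ℝ[X]) (t : ℂ) : ℂ := Polynomial.aeval t P

theorem evC_eq_sum (P : ℝ[X]) (t : ℂ) :
    evC P t = ∑ i ∈ range (P.natDegree + 1), ((P.coeff i : ℝ) : ℂ) * t ^ i := by
  unfold evC
  rw [Polynomial.aeval_eq_sum_range]
  refine Finset.sum_congr rfl fun i _ => ?_
  rw [Complex.real_smul]

theorem evC_real (P : ℝ[X]) (z : ℝ) : evC P (z : ℂ) = ((P.eval z : ℝ) : ℂ) := by
  unfold evC
  rw [← Complex.coe_algebraMap, Polynomial.aeval_algebraMap_apply_eq_algebraMap_eval]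

theorem evC_pg {w : ℤ → ℂ} (hw : PGs w) (P : ℝ[X]) : PGs fun k => evC P (w k) := by
  simp only [evC_eq_sum]
  exact PGs.sum _ fun i _ => (hw.pow i).cmul _

/-- the polynomial part of `P * ∑ mom_m z^{-m}` is `c E[(P(z) - P(w))/(z - w)]` -/
theorem Lat.pp_mom (hL : Lat r y0 U) {e : ℝ} (he : IsSign e) {w : ℤ → ℂ} (hw : PGs w)
    (P : ℝ[X]) (z : ℝ) (hz : ∀ k, (z : ℂ) - w k ≠ 0) :
    (QS2.pp (mom y0 U e w) P).eval z =
      cE y0 U e * sE U e (fun k => (((P.eval z : ℝ) : ℂ) - evC P (w k)) / ((z : ℂ) - w k)) := by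
  have h1 : (fun k => (((P.eval z : ℝ) : ℂ) - evC P (w k)) / ((z : ℂ) - w k)) =
      fun k => ∑ i ∈ range (P.natDegree + 1), ((P.coeff i : ℝ) : ℂ) *
        ∑ j ∈ range i, ((z ^ (i - 1 - j) : ℝ) : ℂ) * w k ^ j := by
    funext k
    rw [← evC_real, evC_eq_sum, evC_eq_sum, ← Finset.sum_sub_distrib, Finset.sum_div]
    refine Finset.sum_congr rfl fun i _ => ?_
    rw [← mul_sub, mul_div_assoc]
    congr 1
    rw [div_eq_iff (hz k)]
    have h2 := (Commute.all (w k) (z : ℂ)).geom_sum₂_mul i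
    have h3 : ∑ j ∈ range i, ((z ^ (i - 1 - j) : ℝ) : ℂ) * w k ^ j =
        ∑ j ∈ range i, w k ^ j * (z : ℂ) ^ (i - 1 - j) :=
      Finset.sum_congr rfl fun j _ => by push_cast; ring
    rw [h3]
    linear_combination h2
  have hp : ∀ i, PGs fun k => ((P.coeff i : ℝ) : ℂ) *
      ∑ j ∈ range i, ((z ^ (i - 1 - j) : ℝ) : ℂ) * w k ^ j := fun i =>
    (PGs.sum _ fun j _ => (hw.pow j).cmul _).cmul _
  rw [h1, hL.sE_sum he _ fun i _ => hp i, Finset.mul_sum, QS2.pp, Polynomial.eval_finsetSum]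
  refine Finset.sum_congr rfl fun i _ => ?_
  rw [sE_smul, hL.sE_sum he _ fun j _ => (hw.pow j).cmul _, Polynomial.eval_finsetSum,
    Finset.sum_range_succ', mom_zero, mul_zero, map_zero, zero_mul, Polynomial.eval_zero,
    add_zero, Finset.mul_sum, Finset.mul_sum]
  refine Finset.sum_congr rfl fun j hj => ?_
  rw [Finset.mem_range] at hj
  rw [sE_smul, mom_succ, Polynomial.eval_mul, Polynomial.eval_C, Polynomial.eval_pow,
    Polynomial.eval_X]
  have : i - (j + 1) = i - 1 - j := by omega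
  rw [this]
  ring

/-- **polynomial part, `S(z)`** -/
theorem Lat.pp_hE (hL : Lat r y0 U) {e : ℝ} (he : IsSign e) (P : ℝ[X]) (z : ℝ) :
    (QS2.pp (mom y0 U e fun k => zl y0 k) P).eval z = P.eval z * hE y0 U e z -
      cE y0 U e * sE U e (fun k => evC P (zl y0 k) / ((z : ℂ) - zl y0 k)) := by
  rw [hL.pp_mom he hL.pg_zl P z (hL.sub_ne z)]
  have h1 : (fun k => (((P.eval z : ℝ) : ℂ) - evC P (zl y0 k)) / ((z : ℂ) - zl y0 k)) =
      fun k => ((P.eval z : ℝ) : ℂ) * (1 / ((z : ℂ) - zl y0 k)) -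
        evC P (zl y0 k) / ((z : ℂ) - zl y0 k) := by
    funext k
    rw [sub_div, mul_one_div]
  have h2 : PGs fun k => evC P (zl y0 k) / ((z : ℂ) - zl y0 k) := by
    simpa [div_eq_mul_inv] using (evC_pg hL.pg_zl P).mul (hL.pg_inv z)
  rw [h1, hL.sE_sub he ((hL.pg_inv z).cmul _) h2, sE_smul]
  unfold hE
  ring

/-- **polynomial part, `S(z+1)`** -/
theorem Lat.pp_hE1 (hL : Lat r y0 U) {e : ℝ} (he : IsSign e) (P : ℝ[X]) (z : ℝ) :
    (QS2.pp (mom y0 U e fun k => zl y0 k - 1) P).eval z = P.eval z * hE y0 U e (z + 1) -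
      cE y0 U e * sE U e (fun k => evC P (zl y0 k - 1) / (((z + 1 : ℝ) : ℂ) - zl y0 k)) := by
  have hne : ∀ k, (z : ℂ) - (zl y0 k - 1) = ((z + 1 : ℝ) : ℂ) - zl y0 k := by
    intro k
    push_cast
    ring
  have hw : PGs fun k => zl y0 k - 1 := hL.pg_zl.sub (PGs.const 1)
  rw [hL.pp_mom he hw P z fun k => by rw [hne]; exact hL.sub_ne (z + 1) k]
  have h1 : (fun k => (((P.eval z : ℝ) : ℂ) - evC P (zl y0 k - 1)) /
      ((z : ℂ) - (zl y0 k - 1))) =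
      fun k => ((P.eval z : ℝ) : ℂ) * (1 / (((z + 1 : ℝ) : ℂ) - zl y0 k)) -
        evC P (zl y0 k - 1) / (((z + 1 : ℝ) : ℂ) - zl y0 k) := by
    funext k
    rw [hne, sub_div, mul_one_div]
  have h2 : PGs fun k => evC P (zl y0 k - 1) / (((z + 1 : ℝ) : ℂ) - zl y0 k) := by
    simpa [div_eq_mul_inv] using (evC_pg hw P).mul (hL.pg_inv (z + 1))
  rw [h1, hL.sE_sub he ((hL.pg_inv (z + 1)).cmul _) h2, sE_smul]
  unfold hE
  ring

/-- reindexing: `E[f(t - 1)]` through `U_{k+1}` -/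
theorem sE_shift (y0 : ℝ) (U : ℤ → ℂ) {e : ℝ} (he : IsSign e) (f : ℂ → ℂ) :
    sE U e (fun k => f (zl y0 k - 1)) =
      ∑' k : ℤ, e * e ^ k.natAbs * (2 * (U (k + 1) * f (zl y0 k)).re) := by
  unfold sE
  rw [← (Equiv.addRight (1 : ℤ)).tsum_eq]
  refine tsum_congr fun k => ?_
  have e1 : (Equiv.addRight (1 : ℤ)) k = k + 1 := rfl
  rw [e1, he.succ_pow]
  beta_reduce
  rw [zl_succ, add_sub_cancel_right]

end T2
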