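import Pool.Agent.T2.RB2
import Pool.Agent.T2.RB3v
import Pool.Agent.T2.DesignC
import Pool.Agent.T2.Factor

/-!
# T2, real side, module R3 (d): polynomial parts, values at the integers, and the row identity

`row_poly`: `P(z) E[1/(z-t)] - [P S]_+(z) = E[P(t)/(z-t)]` (with a shift);
`hE_val`: `ε^n h_ε(n) = cs ε n - Lam ε * a_n`;
`rwA_eq`, `rwB_eq`: the rows of the design as sums over the lattice.
-/

set_option autoImplicit false

namespace T2

open Finset Filter Topology QS2 Polynomial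

variable {r : ℂ → ℂ} {y0 : ℝ} {U : ℤ → ℂ}

/-! ## Polynomial parts -/

theorem zl_sub_real (y0 δ z : ℝ) (k : ℤ) : (z : ℂ) - (zl y0 k - (δ : ℂ)) =
    ((z + δ : ℝ) : ℂ) - zl y0 k := by
  push_cast
  ring

theorem Lat.pg_inv' (hL : Lat r y0 U) (δ z : ℝ) :
    PGs (fun k => 1 / ((z : ℂ) - (zl y0 k - (δ : ℂ)))) := by
  have h := hL.pg_inv (z + δ)
  simpa only [zl_sub_real] using h

theorem Lat.sub_ne' (hL : Lat r y0 U) (δ z : ℝ) (k : ℤ) :
    (z : ℂ) - (zl y0 k - (δ : ℂ)) ≠ 0 := by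
  rw [zl_sub_real]
  exact hL.sub_ne _ k

theorem Lat.pg_sub (hL : Lat r y0 U) (δ : ℝ) : PGs (fun k => zl y0 k - (δ : ℂ)) :=
  hL.pg_zl.sub (PGs.const _)

theorem Lat.pg_div (hL : Lat r y0 U) (δ z : ℝ) (j : ℕ) :
    PGs (fun k => (zl y0 k - (δ : ℂ)) ^ j / ((z : ℂ) - (zl y0 k - (δ : ℂ)))) := by
  have := ((hL.pg_sub δ).pow j).mul (hL.pg_inv' δ z)
  simpa only [mul_one_div] using this

/-- monomials -/
theorem Lat.row_mono (hL : Lat r y0 U) {e : ℝ} (he : IsSign e) (c δ : ℝ) {s : ℕ → ℝ}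
    (h0 : s 0 = 0) (hm : ∀ m : ℕ, c * sE U e (fun k => (zl y0 k - (δ : ℂ)) ^ m) = s (m + 1))
    (z : ℝ) (i : ℕ) :
    z ^ i * (c * sE U e (fun k => 1 / ((z : ℂ) - (zl y0 k - (δ : ℂ))))) -
      ∑ m ∈ range (i + 1), s m * z ^ (i - m) =
      c * sE U e (fun k => (zl y0 k - (δ : ℂ)) ^ i / ((z : ℂ) - (zl y0 k - (δ : ℂ)))) := by
  induction i with
  | zero => simp [h0]
  | succ i ih =>
    have e1 : ∑ m ∈ range (i + 1 + 1), s m * z ^ (i + 1 - m) =
        z * (∑ m ∈ range (i + 1), s m * z ^ (i - m)) + s (i + 1) := by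
      rw [Finset.sum_range_succ _ (i + 1), Finset.mul_sum, Nat.sub_self, pow_zero, mul_one]
      congr 1
      refine Finset.sum_congr rfl (fun m hm' => ?_)
      rw [Finset.mem_range] at hm'
      rw [show i + 1 - m = (i - m) + 1 by omega, pow_succ]
      ring
    have e2 : sE U e (fun k => (zl y0 k - (δ : ℂ)) ^ (i + 1) / ((z : ℂ) - (zl y0 k - (δ : ℂ)))) =
        z * sE U e (fun k => (zl y0 k - (δ : ℂ)) ^ i / ((z : ℂ) - (zl y0 k - (δ : ℂ)))) -
          sE U e (fun k => (zl y0 k - (δ : ℂ)) ^ i) := by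
      rw [← sE_smul, ← hL.sE_sub he ((hL.pg_div δ z i).cmul _) ((hL.pg_sub δ).pow i)]
      congr 1
      funext k
      have := hL.sub_ne' δ z k
      field_simp
      ring
    rw [e1, e2, pow_succ, mul_sub, hm]
    linear_combination z * ih

/-- real polynomials as complex polynomials -/
noncomputable def toC (P : ℝ[X]) : ℂ[X] := P.map (algebraMap ℝ ℂ)

theorem toC_eval (P : ℝ[X]) (w : ℂ) :
    (toC P).eval w = ∑ i ∈ range (P.natDegree + 1), (P.coeff i : ℂ) * w ^ i := by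
  unfold toC
  rw [Polynomial.eval_map, Polynomial.eval₂_eq_sum_range]
  rfl

theorem pp_eval (s : ℕ → ℝ) (P : ℝ[X]) (z : ℝ) : (QS2.pp s P).eval z =
    ∑ i ∈ range (P.natDegree + 1), P.coeff i * ∑ m ∈ range (i + 1), s m * z ^ (i - m) := by
  unfold QS2.pp
  rw [Polynomial.eval_finsetSum]
  refine Finset.sum_congr rfl (fun i _ => ?_)
  rw [Polynomial.eval_finsetSum, Finset.mul_sum]
  refine Finset.sum_congr rfl (fun m _ => ?_)
  rw [Polynomial.eval_mul, Polynomial.eval_C, Polynomial.eval_pow, Polynomial.eval_X]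
  ring

/-- **Polynomial parts.** `P(z) E[1/(z-t)] - [P S]_+(z) = E[P(t)/(z-t)]`, with a shift. -/
theorem Lat.row_poly (hL : Lat r y0 U) {e : ℝ} (he : IsSign e) (c δ : ℝ) {s : ℕ → ℝ}
    (h0 : s 0 = 0) (hm : ∀ m : ℕ, c * sE U e (fun k => (zl y0 k - (δ : ℂ)) ^ m) = s (m + 1))
    (z : ℝ) (P : ℝ[X]) :
    P.eval z * (c * sE U e (fun k => 1 / ((z : ℂ) - (zl y0 k - (δ : ℂ))))) -
      (QS2.pp s P).eval z =
      c * sE U e (fun k => (toC P).eval (zl y0 k - (δ : ℂ)) /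
        ((z : ℂ) - (zl y0 k - (δ : ℂ)))) := by
  have e1 : sE U e (fun k => (toC P).eval (zl y0 k - (δ : ℂ)) /
        ((z : ℂ) - (zl y0 k - (δ : ℂ)))) =
      ∑ i ∈ range (P.natDegree + 1), P.coeff i *
        sE U e (fun k => (zl y0 k - (δ : ℂ)) ^ i / ((z : ℂ) - (zl y0 k - (δ : ℂ)))) := by
    have h1 : ∀ i ∈ range (P.natDegree + 1), P.coeff i *
        sE U e (fun k => (zl y0 k - (δ : ℂ)) ^ i / ((z : ℂ) - (zl y0 k - (δ : ℂ)))) =
        sE U e (fun k => (P.coeff i : ℂ) *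
          ((zl y0 k - (δ : ℂ)) ^ i / ((z : ℂ) - (zl y0 k - (δ : ℂ))))) :=
      fun i _ => (sE_smul U e _ _).symm
    rw [Finset.sum_congr rfl h1, ← hL.sE_sum he _ (fun i _ => (hL.pg_div δ z i).cmul _)]
    congr 1
    funext k
    rw [toC_eval, Finset.sum_div]
    exact Finset.sum_congr rfl (fun i _ => by ring)
  rw [e1, pp_eval, Polynomial.eval_eq_sum_range, Finset.sum_mul, Finset.mul_sum,
    ← Finset.sum_sub_distrib]
  refine Finset.sum_congr rfl (fun i _ => ?_)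
  have := hL.row_mono he c δ h0 hm z i
  linear_combination P.coeff i * this

/-! ## Values at the integers -/

/-- **`ε^n h_ε(n) = cs ε n - Lam ε * a_n`** -/
theorem Lat.hE_val (hL : Lat r y0 U) (ε : ℚ) (he : IsSign (ε : ℝ)) (n : ℕ) :
    (ε : ℝ) ^ n * hE y0 U (ε : ℝ) n =
      ((cs ε n : ℚ) : ℝ) - Lam (ε : ℝ) * ((aperyA n : ℚ) : ℝ) := by
  have hsq := he.sq
  have habs : |(ε : ℝ)| = 1 := by
    rcases he with h | h <;> rw [h] <;> simp
  refine values ε habs (fun n => (ε : ℝ) ^ n * hE y0 U (ε : ℝ) n) ?_ ?_ ?_ n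
  · have h := hL.hE_rec he 0
    simp only [QS2.ap] at h
    norm_num at h
    simp only [pow_one, pow_zero, one_mul, Nat.cast_one, Nat.cast_zero]
    linear_combination (ε : ℝ) * h + (5 * hE y0 U (ε : ℝ) 0 + 1) * hsq
  · intro m
    have h := hL.hE_rec he ((m : ℝ) + 1)
    have e1 : ((m : ℝ) + 1 - 1) = m := by ring
    have e2 : ((m : ℝ) + 1 + 1) = ((m + 2 : ℕ) : ℝ) := by push_cast; ring
    have e3 : ((m : ℝ) + 1) = ((m + 1 : ℕ) : ℝ) := by push_cast; ring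
    rw [e1, e2] at h
    rw [e3] at h
    simp only [QS2.ap] at h ⊢
    push_cast at h ⊢
    have e4 : (ε : ℝ) ^ (m + 2) = (ε : ℝ) ^ m := by
      rw [pow_add, show (ε : ℝ) ^ 2 = 1 by rw [sq, hsq], mul_one]
    rw [e4, pow_succ]
    linear_combination (ε : ℝ) ^ m * h + ((ε : ℝ) ^ m * 0) * hsq
  · obtain ⟨C, hC⟩ := hL.hE_bound he
    refine ⟨C, fun m => ?_⟩
    rw [abs_mul, he.abs_pow, one_mul]
    exact hC m

/-! ## The sequence `w` -/

/-- the relation, over `ℝ` -/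
def Rel (x : Fin 4 → ℤ) : Prop :=
  (x 0 : ℝ) + x 1 * Lam 1 + x 2 * zeta3 + x 3 * Lam (-1) = 0

/-- the value of the linear form (`Rel x` is `thetaR x = 0`) -/
noncomputable def thetaR (x : Fin 4 → ℤ) : ℝ :=
  (x 0 : ℝ) + x 1 * Lam 1 + x 2 * zeta3 + x 3 * Lam (-1)

theorem Rel.theta {x : Fin 4 → ℤ} (hx : Rel x) : thetaR x = 0 := hx

/-- the value of `w` at `n ≥ 0`, any integers `x` -/
theorem Lat.wN_eq' (hL : Lat r y0 U) (x : Fin 4 → ℤ) (n : ℕ) :
    ((wN x n : ℚ) : ℝ) = thetaR x * ((aperyA n : ℚ) : ℝ) +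
      (-(x 2 : ℝ) * lrem n + x 1 * hE y0 U 1 n + x 3 * ((-1) ^ n * hE y0 U (-1) n)) := by
  have h1 := hL.hE_val 1 (Or.inl (by norm_num)) n
  have h2 := hL.hE_val (-1) (Or.inr (by norm_num)) n
  push_cast at h1 h2
  rw [one_pow, one_mul] at h1
  rw [h1, h2]
  unfold wN wq lrem thetaR
  push_cast
  ring

/-- the value of `w` at `n ≥ 0` -/
theorem Lat.wN_eq (hL : Lat r y0 U) {x : Fin 4 → ℤ} (hx : Rel x) (n : ℕ) :
    ((wN x n : ℚ) : ℝ) = -(x 2 : ℝ) * lrem n + x 1 * hE y0 U 1 n +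
      x 3 * ((-1) ^ n * hE y0 U (-1) n) := by
  rw [hL.wN_eq' x n, hx.theta, zero_mul, zero_add]

/-- the value of `w` at every integer, any integers `x` -/
theorem Lat.wZ_eq_real' (hL : Lat r y0 U) (x : Fin 4 → ℤ) (z : ℤ) :
    ((wZ x z : ℚ) : ℝ) = thetaR x * ((two aperyA z : ℚ) : ℝ) +
      (-(x 2 : ℝ) * two lrem z + x 1 * hE y0 U 1 z +
      x 3 * (((sgn z : ℚ) : ℝ) * hE y0 U (-1) z)) := by
  rcases le_or_gt 0 z with h | h
  · obtain ⟨n, rfl⟩ := Int.eq_ofNat_of_zero_le h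
    unfold wZ sgn
    rw [two_nat, two_nat, two_nat, two_nat, hL.wN_eq' x n]
    push_cast
    ring
  · obtain ⟨n, rfl⟩ : ∃ n : ℕ, z = -1 - (n : ℤ) := ⟨(-1 - z).toNat, by omega⟩
    unfold wZ sgn
    rw [two_neg, two_neg, two_neg, two_neg, hL.wN_eq' x n]
    have e : ((-1 - (n : ℤ) : ℤ) : ℝ) = -1 - (n : ℝ) := by push_cast; ring
    rw [e, hL.hE_refl, hL.hE_refl]
    push_cast
    ring

/-- the value of `w` at every integer -/
theorem Lat.wZ_eq_real (hL : Lat r y0 U) {x : Fin 4 → ℤ} (hx : Rel x) (z : ℤ) :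
    ((wZ x z : ℚ) : ℝ) = -(x 2 : ℝ) * two lrem z + x 1 * hE y0 U 1 z +
      x 3 * (((sgn z : ℚ) : ℝ) * hE y0 U (-1) z) := by
  rw [hL.wZ_eq_real' x z, hx.theta, zero_mul, zero_add]

/-- the sign at the next integer -/
theorem sgn_succ {z : ℤ} (hz : z ≠ -1) : sgn (z + 1) = -sgn z := by
  rcases le_or_gt 0 z with h | h
  · obtain ⟨n, rfl⟩ := Int.eq_ofNat_of_zero_le h
    unfold sgn
    rw [show (n : ℤ) + 1 = ((n + 1 : ℕ) : ℤ) by push_cast; ring, two_nat, two_nat, pow_succ]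
    ring
  · obtain ⟨n, rfl⟩ : ∃ n : ℕ, z = -1 - ((n + 1 : ℕ) : ℤ) :=
      ⟨(-2 - z).toNat, by push_cast; omega⟩
    unfold sgn
    rw [show -1 - ((n + 1 : ℕ) : ℤ) + 1 = -1 - (n : ℤ) by push_cast; ring, two_neg, two_neg,
      pow_succ]
    ring

/-! ## The rows -/

/-- the constant of the row at the lattice point `k`: `x1 c+ + x3 c- sgn(z) (-1)^k` -/
noncomputable def rcoef (y0 : ℝ) (U : ℤ → ℂ) (x : Fin 4 → ℤ) (z k : ℤ) : ℝ :=
  x 1 * cE y0 U 1 + x 3 * cE y0 U (-1) * ((sgn z : ℚ) : ℝ) * (-1) ^ k.natAbs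

theorem Lat.pg_polydiv (hL : Lat r y0 U) (P : ℝ[X]) (z : ℝ) :
    PGs (fun k => (toC P).eval (zl y0 k) / ((z : ℂ) - zl y0 k)) := by
  have h : PGs (fun k => ∑ i ∈ range (P.natDegree + 1), (P.coeff i : ℂ) *
      ((zl y0 k - ((0 : ℝ) : ℂ)) ^ i / ((z : ℂ) - (zl y0 k - ((0 : ℝ) : ℂ))))) :=
    PGs.sum _ (fun i _ => (hL.pg_div 0 z i).cmul _)
  have e : (fun k => (toC P).eval (zl y0 k) / ((z : ℂ) - zl y0 k)) =
      (fun k => ∑ i ∈ range (P.natDegree + 1), (P.coeff i : ℂ) *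
      ((zl y0 k - ((0 : ℝ) : ℂ)) ^ i / ((z : ℂ) - (zl y0 k - ((0 : ℝ) : ℂ))))) := by
    funext k
    rw [toC_eval, Finset.sum_div]
    refine Finset.sum_congr rfl (fun i _ => ?_)
    rw [Complex.ofReal_zero, sub_zero]
    ring
  rw [e]
  exact h

/-- the two sheets together -/
theorem sE_comb (_hL : Lat r y0 U) (x : Fin 4 → ℤ) (z : ℤ) {V : ℤ → ℂ} {φ : ℤ → ℂ}
    (h1 : Summable fun k : ℤ => (2 * (V k * φ k).re : ℝ)) :
    (x 1 : ℝ) * (cE y0 U 1 * sE V 1 φ) +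
      x 3 * (((sgn z : ℚ) : ℝ) * (cE y0 U (-1) * sE V (-1) φ)) =
      ∑' k : ℤ, rcoef y0 U x z k * (2 * (V k * φ k).re) := by
  have h2 : Summable fun k : ℤ => ((1 : ℝ) ^ k.natAbs * (2 * (V k * φ k).re) : ℝ) := by
    simpa using h1
  have h3 : Summable fun k : ℤ => ((-1 : ℝ) ^ k.natAbs * (2 * (V k * φ k).re) : ℝ) := by
    refine Summable.of_norm_bounded h1.abs (fun k => ?_)
    rw [norm_mul, norm_pow, norm_neg, norm_one, one_pow, one_mul, Real.norm_eq_abs]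
  unfold sE
  rw [← tsum_mul_left, ← tsum_mul_left, ← tsum_mul_left, ← tsum_mul_left, ← tsum_mul_left,
    ← ((h2.mul_left _).mul_left _).tsum_add (((h3.mul_left _).mul_left _).mul_left _)]
  refine tsum_congr (fun k => ?_)
  unfold rcoef
  rw [one_pow]
  ring

theorem sE_shift' (U : ℤ → ℂ) {e : ℝ} (he : IsSign e) (ψ : ℤ → ℂ) :
    sE U e (fun k => ψ (k - 1)) = e * sE (fun k => U (k + 1)) e ψ := by
  unfold sE
  rw [← (Equiv.addRight (1 : ℤ)).tsum_eq, ← tsum_mul_left]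
  refine tsum_congr (fun k => ?_)
  rw [Equiv.coe_addRight, he.succ_pow]
  simp only [add_sub_cancel_right]
  ring

/-- **the `P`-row**, any integers `x` -/
theorem Lat.rwA_eq' (hL : Lat r y0 U) (x : Fin 4 → ℤ) (z : ℤ) (P : ℝ[X]) :
    rwA ℝ x sQ z P = thetaR x * (((two aperyA z : ℚ) : ℝ) * P.eval (z : ℝ)) +
      (-(x 2 : ℝ) * (P.eval (z : ℝ) * two lrem z) +
      ∑' k : ℤ, rcoef y0 U x z k *
        (2 * (U k * ((toC P).eval (zl y0 k) / ((z : ℂ) - zl y0 k))).re)) := by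
  have hp : IsSign 1 := Or.inl rfl
  have hm : IsSign (-1) := Or.inr rfl
  have a1 := hL.row_poly hp (cE y0 U 1) 0 (s := fun m => ((sP m : ℚ) : ℝ))
    (by
      have : sP 0 = 0 := sumT_low _ (by norm_num)
      simp [this])
    (fun m => by
      have := (hL.moments_P m).1
      rw [Efun_eq] at this
      simpa using this) (z : ℝ) P
  have a2 := hL.row_poly hm (cE y0 U (-1)) 0 (s := fun m => ((sM m : ℚ) : ℝ))
    (by
      have : sM 0 = 0 := sumT_low _ (by norm_num)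
      simp [this])
    (fun m => by
      have := (hL.moments_M m).1
      rw [Efun_eq] at this
      simpa using this) (z : ℝ) P
  simp only [Complex.ofReal_zero, sub_zero, Complex.ofReal_intCast] at a1 a2
  have b1 : hE y0 U 1 (z : ℝ) = cE y0 U 1 * sE U 1 (fun k => 1 / ((z : ℂ) - zl y0 k)) := by
    unfold hE
    rw [Complex.ofReal_intCast]
  have b2 : hE y0 U (-1) (z : ℝ) =
      cE y0 U (-1) * sE U (-1) (fun k => 1 / ((z : ℂ) - zl y0 k)) := by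
    unfold hE
    rw [Complex.ofReal_intCast]
  rw [← b1] at a1
  rw [← b2] at a2
  have hpg := hL.pg_polydiv P (z : ℝ)
  rw [Complex.ofReal_intCast] at hpg
  have hs := hL.summable hp hpg
  simp only [one_pow, one_mul] at hs
  rw [rwA_apply, hL.wZ_eq_real' x z, ← sE_comb hL x z hs, ← a1, ← a2]
  have q0 : sQ 0 = sP := rfl
  have q1 : sQ 1 = sM := rfl
  rw [q0, q1]
  ring

/-- **the `P`-row** -/
theorem Lat.rwA_eq (hL : Lat r y0 U) {x : Fin 4 → ℤ} (hx : Rel x) (z : ℤ) (P : ℝ[X]) :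
    rwA ℝ x sQ z P = -(x 2 : ℝ) * (P.eval (z : ℝ) * two lrem z) +
      ∑' k : ℤ, rcoef y0 U x z k *
        (2 * (U k * ((toC P).eval (zl y0 k) / ((z : ℂ) - zl y0 k))).re) := by
  rw [hL.rwA_eq' x z P, hx.theta, zero_mul, zero_add]

/-- **the `Q`-row**, any integers `x` -/
theorem Lat.rwB_eq' (hL : Lat r y0 U) (x : Fin 4 → ℤ) {z : ℤ} (hz : z ≠ -1)
    (P : ℝ[X]) :
    rwB ℝ x sQ1 z P = thetaR x * (((two aperyA (z + 1) : ℚ) : ℝ) * P.eval (z : ℝ)) +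
      (-(x 2 : ℝ) * (P.eval (z : ℝ) * two lrem (z + 1)) +
      ∑' k : ℤ, rcoef y0 U x z k *
        (2 * (U (k + 1) * ((toC P).eval (zl y0 k) / ((z : ℂ) - zl y0 k))).re)) := by
  have hp : IsSign 1 := Or.inl rfl
  have hm : IsSign (-1) := Or.inr rfl
  set ψ : ℤ → ℂ := fun k => (toC P).eval (zl y0 k) / ((z : ℂ) - zl y0 k) with hψ
  have a1 := hL.row_poly hp (cE y0 U 1) 1 (s := fun m => ((sP1 m : ℚ) : ℝ))
    (by
      have : sP1 0 = 0 := sumT1_low _ (by norm_num)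
      simp [this])
    (fun m => by
      have := (hL.moments_P m).2
      rw [Efun_eq] at this
      simpa using this) (z : ℝ) P
  have a2 := hL.row_poly hm (cE y0 U (-1)) 1 (s := fun m => ((sM1 m : ℚ) : ℝ))
    (by
      have : sM1 0 = 0 := sumT1_low _ (by norm_num)
      simp [this])
    (fun m => by
      have := (hL.moments_M m).2
      rw [Efun_eq] at this
      simpa using this) (z : ℝ) P
  have e1 : ∀ k : ℤ, (((z : ℝ) : ℂ) - (zl y0 k - ((1 : ℝ) : ℂ))) =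
      (((z + 1 : ℤ) : ℝ) : ℂ) - zl y0 k := by
    intro k
    push_cast
    ring
  have b1 : cE y0 U 1 * sE U 1 (fun k => 1 / (((z : ℝ) : ℂ) - (zl y0 k - ((1 : ℝ) : ℂ)))) =
      hE y0 U 1 ((z + 1 : ℤ) : ℝ) := by
    unfold hE
    simp only [e1]
  have b2 : cE y0 U (-1) * sE U (-1) (fun k => 1 / (((z : ℝ) : ℂ) - (zl y0 k - ((1 : ℝ) : ℂ)))) =
      hE y0 U (-1) ((z + 1 : ℤ) : ℝ) := by
    unfold hE
    simp only [e1]
  have c0 : (fun k => (toC P).eval (zl y0 k - ((1 : ℝ) : ℂ)) /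
      (((z : ℝ) : ℂ) - (zl y0 k - ((1 : ℝ) : ℂ)))) = fun k => ψ (k - 1) := by
    funext k
    rw [hψ]
    simp only
    rw [zl_pred, Complex.ofReal_one, Complex.ofReal_intCast]
  rw [b1, c0, sE_shift' U hp] at a1
  rw [b2, c0, sE_shift' U hm] at a2
  have hpg := hL.pg_polydiv P (z : ℝ)
  rw [Complex.ofReal_intCast] at hpg
  have hpg1 := hpg.shift (-1)
  have hs := hL.summable hp hpg1
  simp only [one_pow, one_mul] at hs
  have hs' : Summable fun k : ℤ => (2 * (U (k + 1) * ψ k).re : ℝ) := by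
    have h := (Equiv.addRight (1 : ℤ)).summable_iff.mpr hs
    refine h.congr (fun k => ?_)
    simp only [Function.comp, Equiv.coe_addRight, hψ]
    rw [show k + 1 + -1 = k by ring]
  have hcomb := sE_comb (y0 := y0) (U := U) hL x z (V := fun k => U (k + 1)) (φ := ψ) hs'
  rw [rwB_apply, hL.wZ_eq_real' x (z + 1), ← hcomb, sgn_succ hz]
  have q0 : sQ1 0 = sP1 := rfl
  have q1 : sQ1 1 = sM1 := rfl
  rw [q0, q1]
  push_cast at a1 a2 ⊢
  linear_combination (x 1 : ℝ) * a1 - (x 3 : ℝ) * ((sgn z : ℚ) : ℝ) * a2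

/-- **the `Q`-row** -/
theorem Lat.rwB_eq (hL : Lat r y0 U) {x : Fin 4 → ℤ} (hx : Rel x) {z : ℤ} (hz : z ≠ -1)
    (P : ℝ[X]) :
    rwB ℝ x sQ1 z P = -(x 2 : ℝ) * (P.eval (z : ℝ) * two lrem (z + 1)) +
      ∑' k : ℤ, rcoef y0 U x z k *
        (2 * (U (k + 1) * ((toC P).eval (zl y0 k) / ((z : ℂ) - zl y0 k))).re) := by
  rw [hL.rwB_eq' x hz P, hx.theta, zero_mul, zero_add]

end T2
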