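import Mathlib

/-!
# T2, R8b: sums of logarithms over equidistributed points off the real axis

* `Fu u = u log u - u`, the primitive of `log`;
* `Psik κ`, the primitive of `½ log (u² + κ²)`;
* `mid_le`: the midpoint rule with the total variation of the derivative;
* `sum_log_block`: `∑_{j<M} log ‖t - (a + (j+½)/d + i)‖ = d (Fu(x-a) - Fu(x-a-M/d)) + O(1)`.
-/

set_option autoImplicit false

namespace T2.R8a

open Real Finset

/-- the primitive of the logarithm -/
noncomputable def Fu (u : ℝ) : ℝ := u * log u - u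

lemma Fu_zero : Fu 0 = 0 := by simp [Fu]

lemma Fu_neg (u : ℝ) : Fu (-u) = -Fu u := by
  unfold Fu
  rw [log_neg_eq_log]
  ring

lemma continuous_Fu : Continuous Fu := continuous_mul_log.sub continuous_id

lemma hasDerivAt_Fu {u : ℝ} (hu : u ≠ 0) : HasDerivAt Fu (log u) u := by
  have h1 := (hasDerivAt_id u).mul (hasDerivAt_log hu)
  have h2 := h1.sub (hasDerivAt_id u)
  refine h2.congr_deriv ?_
  simp only [id]
  field_simp
  ring

/-- `½ log (u² + κ²)` -/
noncomputable def fk (κ u : ℝ) : ℝ := log (u ^ 2 + κ ^ 2) / 2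

/-- the derivative of `fk` -/
noncomputable def dk (κ u : ℝ) : ℝ := u / (u ^ 2 + κ ^ 2)

/-- the primitive of `fk` -/
noncomputable def Psik (κ u : ℝ) : ℝ := u * log (u ^ 2 + κ ^ 2) / 2 - u + κ * arctan (u / κ)

section

variable {κ : ℝ} (hκ : 0 < κ)

include hκ

lemma sqpos (u : ℝ) : 0 < u ^ 2 + κ ^ 2 := by positivity

lemma hasDerivAt_fk (u : ℝ) : HasDerivAt (fk κ) (dk κ u) u := by
  have h1 : HasDerivAt (fun u : ℝ => u ^ 2 + κ ^ 2) (2 * u) u := by
    have := (hasDerivAt_pow 2 u).add_const (κ ^ 2)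
    simpa using this
  have h2 := (h1.log (sqpos hκ u).ne').div_const 2
  refine h2.congr_deriv ?_
  unfold dk
  have := (sqpos hκ u).ne'
  field_simp

lemma hasDerivAt_dk (u : ℝ) :
    HasDerivAt (dk κ) ((κ ^ 2 - u ^ 2) / (u ^ 2 + κ ^ 2) ^ 2) u := by
  have h1 : HasDerivAt (fun u : ℝ => u ^ 2 + κ ^ 2) (2 * u) u := by
    have := (hasDerivAt_pow 2 u).add_const (κ ^ 2)
    simpa using this
  have h2 := (hasDerivAt_id u).div h1 (sqpos hκ u).ne'
  refine h2.congr_deriv ?_
  simp only [id]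
  congr 1
  ring

lemma hasDerivAt_atk (u : ℝ) :
    HasDerivAt (fun u : ℝ => arctan (u / κ) / κ) (1 / (u ^ 2 + κ ^ 2)) u := by
  have h1 : HasDerivAt (fun u : ℝ => u / κ) (1 / κ) u := (hasDerivAt_id u).div_const κ
  have h2 := (h1.arctan).div_const κ
  refine h2.congr_deriv ?_
  have := (sqpos hκ u).ne'
  have h3 : 1 + (u / κ) ^ 2 ≠ 0 := by positivity
  field_simp
  ring

lemma hasDerivAt_Psik (u : ℝ) : HasDerivAt (Psik κ) (fk κ u) u := by
  have h1 : HasDerivAt (fun u : ℝ => u ^ 2 + κ ^ 2) (2 * u) u := by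
    have := (hasDerivAt_pow 2 u).add_const (κ ^ 2)
    simpa using this
  have h2 := ((hasDerivAt_id u).mul (h1.log (sqpos hκ u).ne')).div_const 2
  have h3 : HasDerivAt (fun u : ℝ => u / κ) (1 / κ) u := (hasDerivAt_id u).div_const κ
  have h4 := (h3.arctan).const_mul κ
  have h5 := (h2.sub (hasDerivAt_id u)).add h4
  refine (h5.congr_deriv ?_)
  simp only [id]
  unfold fk
  have := (sqpos hκ u).ne'
  have h3 : 1 + (u / κ) ^ 2 ≠ 0 := by positivity
  field_simp
  ring

/-- the variation of `dk` is bounded by that of `arctan (u/κ)/κ` -/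
lemma dk_var {u v : ℝ} (huv : u ≤ v) :
    |dk κ v - dk κ u| ≤ arctan (v / κ) / κ - arctan (u / κ) / κ := by
  have hm : Monotone (fun u : ℝ => arctan (u / κ) / κ - dk κ u) := by
    refine monotone_of_hasDerivAt_nonneg
      (fun u => (hasDerivAt_atk hκ u).sub (hasDerivAt_dk hκ u)) (fun u => ?_)
    have := sqpos hκ u
    have e : 1 / (u ^ 2 + κ ^ 2) - (κ ^ 2 - u ^ 2) / (u ^ 2 + κ ^ 2) ^ 2 =
        2 * u ^ 2 / (u ^ 2 + κ ^ 2) ^ 2 := by
      field_simp
      ring
    show (0 : ℝ) ≤ 1 / (u ^ 2 + κ ^ 2) - (κ ^ 2 - u ^ 2) / (u ^ 2 + κ ^ 2) ^ 2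
    rw [e]
    positivity
  have hp : Monotone (fun u : ℝ => arctan (u / κ) / κ + dk κ u) := by
    refine monotone_of_hasDerivAt_nonneg
      (fun u => (hasDerivAt_atk hκ u).add (hasDerivAt_dk hκ u)) (fun u => ?_)
    have := sqpos hκ u
    have e : 1 / (u ^ 2 + κ ^ 2) + (κ ^ 2 - u ^ 2) / (u ^ 2 + κ ^ 2) ^ 2 =
        2 * κ ^ 2 / (u ^ 2 + κ ^ 2) ^ 2 := by
      field_simp
      ring
    show (0 : ℝ) ≤ 1 / (u ^ 2 + κ ^ 2) + (κ ^ 2 - u ^ 2) / (u ^ 2 + κ ^ 2) ^ 2
    rw [e]
    positivity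
  have h1 := hm huv
  have h2 := hp huv
  simp only at h1 h2
  rw [abs_le]
  constructor <;> linarith

lemma Psik_sub_Fu (u : ℝ) : |Psik κ u - Fu u| ≤ κ * (1 / 2 + π / 2) := by
  have hat : |κ * arctan (u / κ)| ≤ κ * (π / 2) := by
    rw [abs_mul, abs_of_pos hκ]
    refine mul_le_mul_of_nonneg_left ?_ hκ.le
    rw [abs_le]
    exact ⟨(neg_pi_div_two_lt_arctan _).le, (arctan_lt_pi_div_two _).le⟩
  have hlog : |u * log (u ^ 2 + κ ^ 2) / 2 - u * log u| ≤ κ / 2 := by
    rcases eq_or_ne u 0 with rfl | hu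
    · simp only [zero_mul, zero_div, sub_zero, abs_zero]
      positivity
    · have hu2 : 0 < u ^ 2 := by positivity
      have e : u * log (u ^ 2 + κ ^ 2) / 2 - u * log u = u * log (1 + κ ^ 2 / u ^ 2) / 2 := by
        have h1 : u ^ 2 + κ ^ 2 = u ^ 2 * (1 + κ ^ 2 / u ^ 2) := by
          field_simp
        rw [h1, log_mul hu2.ne' (by positivity), log_pow]
        push_cast
        ring
      rw [e, abs_div, abs_mul, abs_of_pos (by norm_num : (0 : ℝ) < 2)]
      have h0 : 0 ≤ log (1 + κ ^ 2 / u ^ 2) := log_nonneg (by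
        have : 0 ≤ κ ^ 2 / u ^ 2 := by positivity
        linarith)
      rw [abs_of_nonneg h0]
      have h2 : log (1 + κ ^ 2 / u ^ 2) ≤ κ / |u| := by
        have h3 : 1 + κ ^ 2 / u ^ 2 ≤ rexp (κ / |u|) := by
          have h4 := quadratic_le_exp_of_nonneg (x := κ / |u|) (by positivity)
          have h5 : κ ^ 2 / u ^ 2 = (κ / |u|) ^ 2 := by
            rw [div_pow, sq_abs]
          have h6 : 1 + (κ / |u|) ^ 2 ≤ rexp (κ / |u|) := by
            have hy : 0 ≤ κ / |u| := by positivity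
            have h7 := sum_le_exp_of_nonneg hy 4
            simp only [Finset.sum_range_succ, Finset.sum_range_zero, Nat.factorial, pow_zero,
              pow_one] at h7
            norm_num at h7
            nlinarith [sq_nonneg (κ / |u| - 1), sq_nonneg (κ / |u|), mul_nonneg hy (sq_nonneg
              (κ / |u| - 3 / 2)), hy]
          rw [h5]
          exact h6
        calc log (1 + κ ^ 2 / u ^ 2) ≤ log (rexp (κ / |u|)) :=
              log_le_log (by positivity) h3
          _ = κ / |u| := log_exp _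
      have hau : 0 < |u| := abs_pos.2 hu
      calc |u| * log (1 + κ ^ 2 / u ^ 2) / 2 ≤ |u| * (κ / |u|) / 2 := by
            have := mul_le_mul_of_nonneg_left h2 hau.le
            linarith
        _ = κ / 2 := by field_simp
  have e : Psik κ u - Fu u =
      (u * log (u ^ 2 + κ ^ 2) / 2 - u * log u) + κ * arctan (u / κ) := by
    unfold Psik Fu
    ring
  rw [e]
  calc |(u * log (u ^ 2 + κ ^ 2) / 2 - u * log u) + κ * arctan (u / κ)|
      ≤ |u * log (u ^ 2 + κ ^ 2) / 2 - u * log u| + |κ * arctan (u / κ)| := abs_add_le _ _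
    _ ≤ κ / 2 + κ * (π / 2) := add_le_add hlog hat
    _ = κ * (1 / 2 + π / 2) := by ring

end

/-- **the midpoint rule**: if the derivative `g` of `f` varies by at most `ω` on `[m-h, m+h]` and
`F' = f`, then `|F(m+h) - F(m-h) - 2 h f(m)| ≤ ω h²`. -/
theorem mid_le {F f g : ℝ → ℝ} {m h ω : ℝ} (hh : 0 ≤ h)
    (hF : ∀ y ∈ Set.Icc (m - h) (m + h), HasDerivAt F (f y) y)
    (hf : ∀ y ∈ Set.Icc (m - h) (m + h), HasDerivAt f (g y) y)
    (hg : ∀ s ∈ Set.Icc 0 h, |g (m + s) - g (m - s)| ≤ ω) :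
    |F (m + h) - F (m - h) - 2 * h * f m| ≤ ω * h ^ 2 := by
  have mem1 : ∀ s ∈ Set.Icc 0 h, m + s ∈ Set.Icc (m - h) (m + h) := fun s hs =>
    ⟨by linarith [hs.1], by linarith [hs.2]⟩
  have mem2 : ∀ s ∈ Set.Icc 0 h, m - s ∈ Set.Icc (m - h) (m + h) := fun s hs =>
    ⟨by linarith [hs.2], by linarith [hs.1]⟩
  have d1 : ∀ (k k' : ℝ → ℝ), (∀ y ∈ Set.Icc (m - h) (m + h), HasDerivAt k (k' y) y) →
      ∀ s ∈ Set.Icc 0 h, HasDerivAt (fun s => k (m + s)) (k' (m + s)) s ∧
        HasDerivAt (fun s => k (m - s)) (-k' (m - s)) s := by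
    intro k k' hk s hs
    constructor
    · have h1 : HasDerivAt (fun s : ℝ => m + s) 1 s := (hasDerivAt_id s).const_add m
      have := (hk _ (mem1 s hs)).comp s h1
      simpa [Function.comp_def] using this
    · have h1 : HasDerivAt (fun s : ℝ => m - s) (-1) s := (hasDerivAt_id s).const_sub m
      have := (hk _ (mem2 s hs)).comp s h1
      simpa [Function.comp_def] using this
  -- the second difference
  have he : ∀ s ∈ Set.Icc 0 h, |f (m + s) + f (m - s) - 2 * f m| ≤ ω * s := by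
    intro s hs
    have hconv : Convex ℝ (Set.Icc 0 s) := convex_Icc 0 s
    have hsub : ∀ x ∈ Set.Icc 0 s, x ∈ Set.Icc 0 h := fun x hx => ⟨hx.1, hx.2.trans hs.2⟩
    have := hconv.norm_image_sub_le_of_norm_hasDerivWithin_le
      (f := fun s => f (m + s) + f (m - s) - 2 * f m)
      (f' := fun s => g (m + s) - g (m - s)) (C := ω)
      (fun x hx => by
        have := d1 f g hf x (hsub x hx)
        have h2 := (this.1.add this.2).sub_const (2 * f m)
        exact (h2.congr_deriv (by ring)).hasDerivWithinAt)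
      (fun x hx => by
        rw [Real.norm_eq_abs]
        exact hg x (hsub x hx))
      (Set.left_mem_Icc.2 hs.1) (Set.right_mem_Icc.2 hs.1)
    simp only [add_zero, sub_zero, Real.norm_eq_abs, abs_of_nonneg hs.1] at this
    have e : f (m + s) + f (m - s) - 2 * f m - (f m + f m - 2 * f m) =
        f (m + s) + f (m - s) - 2 * f m := by ring
    rw [e] at this
    exact this
  have hω : 0 ≤ ω := (abs_nonneg _).trans (hg 0 ⟨le_rfl, hh⟩)
  have hconv : Convex ℝ (Set.Icc 0 h) := convex_Icc 0 h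
  have := hconv.norm_image_sub_le_of_norm_hasDerivWithin_le
    (f := fun s => F (m + s) - F (m - s) - 2 * s * f m)
    (f' := fun s => f (m + s) + f (m - s) - 2 * f m) (C := ω * h)
    (fun x hx => by
      have h1 := d1 F f hF x hx
      have h3 : HasDerivAt (fun s : ℝ => 2 * s * f m) (2 * f m) x := by
        have := ((hasDerivAt_id x).const_mul 2).mul_const (f m)
        simpa using this
      have h2 := (h1.1.sub h1.2).sub h3
      exact (h2.congr_deriv (by ring)).hasDerivWithinAt)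
    (fun x hx => by
      rw [Real.norm_eq_abs]
      exact (he x hx).trans (mul_le_mul_of_nonneg_left hx.2 hω))
    (Set.left_mem_Icc.2 hh) (Set.right_mem_Icc.2 hh)
  simp only [add_zero, sub_zero, Real.norm_eq_abs, abs_of_nonneg hh, mul_zero, zero_mul,
    sub_self] at this
  calc |F (m + h) - F (m - h) - 2 * h * f m| ≤ ω * h * h := this
    _ = ω * h ^ 2 := by ring

/-- the trial points of one block -/
noncomputable def tpt (a d : ℝ) (j : ℕ) : ℂ := ((a + (j + 1 / 2) / d : ℝ) : ℂ) + Complex.I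

lemma norm_sub_tpt (t : ℂ) (a d : ℝ) (j : ℕ) :
    log ‖t - tpt a d j‖ = fk (1 - t.im) (a + (j + 1 / 2) / d - t.re) := by
  have h1 : ‖t - tpt a d j‖ = √((a + (j + 1 / 2) / d - t.re) ^ 2 + (1 - t.im) ^ 2) := by
    rw [Complex.norm_eq_sqrt_sq_add_sq]
    congr 1
    simp only [tpt, Complex.sub_re, Complex.sub_im, Complex.add_re, Complex.add_im,
      Complex.ofReal_re, Complex.ofReal_im, Complex.I_re, Complex.I_im]
    ring
  rw [h1, log_sqrt (by positivity)]
  rfl

/-- **sum over a block**, `κ`-form -/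
theorem sum_fk_block {κ a d x : ℝ} (hκ : 0 < κ) (hd : 0 < d) (M : ℕ) :
    |∑ j ∈ range M, fk κ (a + (j + 1 / 2) / d - x) -
      d * (Psik κ (a + M / d - x) - Psik κ (a - x))| ≤ π / (4 * d * κ) := by
  have key : ∀ j : ℕ, |fk κ (a + (j + 1 / 2) / d - x) -
      d * (Psik κ (a + (j + 1 : ℕ) / d - x) - Psik κ (a + j / d - x))| ≤
      (arctan ((a + (j + 1 : ℕ) / d - x) / κ) / κ - arctan ((a + j / d - x) / κ) / κ) /
        (4 * d) := by
    intro j
    set m := a + (j + 1 / 2) / d - x with hm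
    set h := 1 / (2 * d) with hh
    have hh0 : 0 ≤ h := by positivity
    have e1 : a + ((j + 1 : ℕ) : ℝ) / d - x = m + h := by
      rw [hm, hh]
      push_cast
      field_simp
      ring
    have e2 : a + (j : ℝ) / d - x = m - h := by
      rw [hm, hh]
      field_simp
      ring
    rw [e1, e2]
    have h1 := mid_le (F := Psik κ) (f := fk κ) (g := dk κ) (m := m) (h := h)
      (ω := arctan ((m + h) / κ) / κ - arctan ((m - h) / κ) / κ) hh0
      (fun y _ => hasDerivAt_Psik hκ y) (fun y _ => hasDerivAt_fk hκ y) (fun s hs => by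
        refine (dk_var hκ (by linarith [hs.1])).trans ?_
        have m1 : arctan ((m + s) / κ) / κ ≤ arctan ((m + h) / κ) / κ := by
          refine div_le_div_of_nonneg_right (arctan_strictMono.monotone ?_) hκ.le
          exact div_le_div_of_nonneg_right (by linarith [hs.2]) hκ.le
        have m2 : arctan ((m - h) / κ) / κ ≤ arctan ((m - s) / κ) / κ := by
          refine div_le_div_of_nonneg_right (arctan_strictMono.monotone ?_) hκ.le
          exact div_le_div_of_nonneg_right (by linarith [hs.2]) hκ.le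
        linarith)
    set ω := arctan ((m + h) / κ) / κ - arctan ((m - h) / κ) / κ
    have e3 : fk κ m - d * (Psik κ (m + h) - Psik κ (m - h)) =
        -d * (Psik κ (m + h) - Psik κ (m - h) - 2 * h * fk κ m) := by
      rw [hh]
      field_simp
      ring
    rw [e3, abs_mul, abs_neg, abs_of_pos hd]
    calc d * |Psik κ (m + h) - Psik κ (m - h) - 2 * h * fk κ m| ≤ d * (ω * h ^ 2) :=
          mul_le_mul_of_nonneg_left h1 hd.le
      _ = ω / (4 * d) := by
          rw [hh]
          field_simp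
          ring
  have htel : ∑ j ∈ range M, d * (Psik κ (a + (j + 1 : ℕ) / d - x) - Psik κ (a + j / d - x)) =
      d * (Psik κ (a + M / d - x) - Psik κ (a - x)) := by
    rw [← mul_sum, Finset.sum_range_sub (fun j : ℕ => Psik κ (a + j / d - x))]
    simp
  have htel2 : ∑ j ∈ range M, (arctan ((a + (j + 1 : ℕ) / d - x) / κ) / κ -
      arctan ((a + j / d - x) / κ) / κ) / (4 * d) =
      (arctan ((a + M / d - x) / κ) / κ - arctan ((a - x) / κ) / κ) / (4 * d) := by
    rw [← sum_div, Finset.sum_range_sub (fun j : ℕ => arctan ((a + j / d - x) / κ) / κ)]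
    simp
  rw [← htel, ← sum_sub_distrib]
  calc |∑ j ∈ range M, (fk κ (a + (j + 1 / 2) / d - x) -
        d * (Psik κ (a + (j + 1 : ℕ) / d - x) - Psik κ (a + j / d - x)))|
      ≤ ∑ j ∈ range M, |fk κ (a + (j + 1 / 2) / d - x) -
        d * (Psik κ (a + (j + 1 : ℕ) / d - x) - Psik κ (a + j / d - x))| :=
        abs_sum_le_sum_abs _ _
    _ ≤ ∑ j ∈ range M, (arctan ((a + (j + 1 : ℕ) / d - x) / κ) / κ -
        arctan ((a + j / d - x) / κ) / κ) / (4 * d) := sum_le_sum (fun j _ => key j)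
    _ = (arctan ((a + M / d - x) / κ) / κ - arctan ((a - x) / κ) / κ) / (4 * d) := htel2
    _ ≤ (π / κ) / (4 * d) := by
        refine div_le_div_of_nonneg_right ?_ (by positivity)
        rw [← sub_div]
        refine div_le_div_of_nonneg_right ?_ hκ.le
        have := arctan_lt_pi_div_two ((a + M / d - x) / κ)
        have := neg_pi_div_two_lt_arctan ((a - x) / κ)
        linarith
    _ = π / (4 * d * κ) := by
        field_simp

/-- **sum over a block** -/
theorem sum_log_block {a d : ℝ} (hd : 0 < d) (M : ℕ) (t : ℂ) (h1 : -(5 / 2) ≤ t.im)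
    (h2 : t.im ≤ 1 / 4) :
    |∑ j ∈ range M, log ‖t - tpt a d j‖ - d * (Fu (t.re - a) - Fu (t.re - a - M / d))| ≤
      2 / d + 16 * d := by
  have hκ : 0 < 1 - t.im := by linarith
  have e0 : ∑ j ∈ range M, log ‖t - tpt a d j‖ =
      ∑ j ∈ range M, fk (1 - t.im) (a + (j + 1 / 2) / d - t.re) :=
    sum_congr rfl fun j _ => norm_sub_tpt t a d j
  have hs := sum_fk_block (a := a) (x := t.re) hκ hd M
  have p1 := Psik_sub_Fu hκ (a + M / d - t.re)
  have p2 := Psik_sub_Fu hκ (a - t.re)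
  have f1 : Fu (t.re - a) = -Fu (a - t.re) := by rw [← Fu_neg]; congr 1; ring
  have f2 : Fu (t.re - a - M / d) = -Fu (a + M / d - t.re) := by rw [← Fu_neg]; congr 1; ring
  have hpi : π < 3.15 := pi_lt_d2
  have hpi0 : 0 < π := pi_pos
  have q1 : π / (4 * d * (1 - t.im)) ≤ 2 / d := by
    rw [div_le_div_iff₀ (by positivity) hd]
    nlinarith [mul_pos hd hκ]
  have q2 : (1 - t.im) * (1 / 2 + π / 2) ≤ 8 := by nlinarith
  rw [e0, f1, f2]
  rw [abs_le] at hs p1 p2 ⊢
  obtain ⟨s1, s2⟩ := hs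
  obtain ⟨a1, a2⟩ := p1
  obtain ⟨b1, b2⟩ := p2
  have m1 : d * (Psik (1 - t.im) (a + M / d - t.re) - Psik (1 - t.im) (a - t.re)) ≤
      d * (Fu (a + M / d - t.re) - Fu (a - t.re) + 16) := by
    refine mul_le_mul_of_nonneg_left ?_ hd.le
    linarith
  have m2 : d * (Fu (a + M / d - t.re) - Fu (a - t.re) - 16) ≤
      d * (Psik (1 - t.im) (a + M / d - t.re) - Psik (1 - t.im) (a - t.re)) := by
    refine mul_le_mul_of_nonneg_left ?_ hd.le
    linarith
  constructor
  · nlinarith
  · nlinarith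

/-- **sum over a block**, plus sign -/
theorem sum_log_block_add {a d : ℝ} (hd : 0 < d) (M : ℕ) (t : ℂ) (h1 : -(1 / 4) ≤ t.im)
    (h2 : t.im ≤ 5 / 2) :
    |∑ j ∈ range M, log ‖t + tpt a d j‖ - d * (Fu (t.re + a + M / d) - Fu (t.re + a))| ≤
      2 / d + 16 * d := by
  have h := sum_log_block (a := a) hd M (-t) (by simp; linarith) (by simp; linarith)
  have e : ∀ j, ‖-t - tpt a d j‖ = ‖t + tpt a d j‖ := by
    intro j
    rw [← norm_neg]
    congr 1
    ring
  simp only [e, Complex.neg_re] at h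
  have f1 : Fu (-t.re - a) = -Fu (t.re + a) := by rw [← Fu_neg]; congr 1; ring
  have f2 : Fu (-t.re - a - M / d) = -Fu (t.re + a + M / d) := by rw [← Fu_neg]; congr 1; ring
  rw [f1, f2] at h
  have e2 : -Fu (t.re + a) - -Fu (t.re + a + M / d) = Fu (t.re + a + M / d) - Fu (t.re + a) := by
    ring
  rw [e2] at h
  exact h

end T2.R8a
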