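import Pool.Agent.T2.Fin4
import Pool.Agent.T2.Glue3
import Pool.Agent.T2.R8

/-!
# T2: the real side, in the form of `RealSide`, and the theorem
-/

set_option autoImplicit false

namespace T2

open Finset Filter QS2

theorem theta_eq_thX (x : Fin 4 → ℤ) : theta x = thX x := by
  unfold theta thX
  rw [Lam_one, Lam_neg_one]

theorem realSide : RealSide 1664 (20064 / 5) := by
  obtain ⟨C, h⟩ := real_side (fun W hW => R8.R8 W hW)
  refine ⟨C, ?_⟩
  filter_upwards [eventually_ge_atTop 2000] with n hn x H hH hx hθ e _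
  refine h n (by omega) x H hH hx ?_ e
  rw [theta_eq_thX]
  refine hθ.trans ?_
  have h2 : ((1 : ℝ) / 2) = Real.exp (- Real.log 2) := by
    rw [Real.exp_neg, Real.exp_log (by norm_num)]
    norm_num
  rw [h2, ← Real.exp_nat_mul]
  apply Real.exp_le_exp.2
  push_cast
  have h3 := Real.log_two_lt_d9
  have hn0 : (2000 : ℝ) ≤ n := by exact_mod_cast hn
  nlinarith

/-- **`1`, `π²`, `ζ(3)`, `L(2, χ_{-3})` are linearly independent over `ℚ`**, with a measure -/
theorem four_numbers : LinearIndependent ℚ ![(1 : ℝ), Real.pi ^ 2, zeta3, L3] ∧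
    ∃ c : ℝ, 0 < c ∧ ∀ x y z t : ℤ, ¬ (x = 0 ∧ y = 0 ∧ z = 0 ∧ t = 0) →
      c * ht4 x y z t ^ (-7250 : ℝ) ≤ |(x : ℝ) + y * Real.pi ^ 2 + z * zeta3 + t * L3| :=
  concl_of_real (K := 1664) (E := 20064 / 5) (k := 7250) (by norm_num) (by norm_num)
    (by norm_num) (by norm_num) realSide

end T2
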