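import Pool.Agent.QS2.ClsTrans
import Pool.Agent.QS2.ClsNice
import Pool.Agent.QS2.ClsLow

/-!
# T2, `p`-adic side: the value rows, abstract form

`SeqP p w r sg m0`: a two-sided sequence `w : ℤ → K` with the Apéry recurrence with right side `r`
(`p`-integral), integrality and mirror congruence.  `Fv w sg P Q R1 R2 z` is the value
`P(z) w(z) + Q(z) w(z+1) + R1(z) + sg(z) R2(z)`.

* `row_sing` : value rows, class `c < p`, `z = c + pk`;
* `row_int`, `row_exc` : integral rows, exceptional columns;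
* `row_pair` : `F(a) = F(a-p)` mod `p`.
-/

set_option autoImplicit false

namespace T2

open Finset Polynomial QS2 QS2.Cls

/-- the abstract two-sided sequence -/
structure SeqP (p : ℕ) [Fact p.Prime] (w r sg : ℤ → K) (m0 : K) : Prop where
  recur : ∀ z : ℤ, (1 ≤ z ∨ z ≤ -2) → ((z : K) + 1) ^ 3 * w (z + 1) =
    ap (z : K) * w z - (z : K) ^ 3 * w (z - 1) + r z
  one : w 1 = 5 * w 0 - m0 + r 0
  r_mem : ∀ z, r z ∈ Op p
  m0_mem : m0 ∈ Op p
  int : ∀ z : ℤ, -(p : ℤ) ≤ z → z < p → w z ∈ Op p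
  int3 : ∀ z : ℤ, -(p : ℤ) ^ 2 ≤ z → z < (p : ℤ) ^ 2 → (p : K) ^ 3 * w z ∈ Op p
  mir : ∀ a : ℤ, 0 ≤ a → a < p → ∃ s ∈ Op p, w a - w (a - p) = p * s
  sg_pm : ∀ z, sg z = 1 ∨ sg z = -1
  sg_mir : ∀ a : ℤ, 0 ≤ a → a < p → sg (a - p) = sg a

/-- the value functional -/
noncomputable def Fv (w sg : ℤ → K) (P Q R1 R2 : K[X]) (z : ℤ) : K :=
  P.eval (z : K) * w z + Q.eval (z : K) * w (z + 1) + R1.eval (z : K) + sg z * R2.eval (z : K)

/-- `(pk)^3 w(pk-1)`, `m0` for `k = 0` -/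
noncomputable def kap (w : ℤ → K) (m0 : K) (t : ℤ) : K :=
  if t = 0 then m0 else (t : K) ^ 3 * w (t - 1)

section Tr

variable {p : ℕ} [hp : Fact p.Prime] {w r sg : ℤ → K} {m0 : K}

/-- transfer with inhomogeneous terms, integral form -/
theorem transfer_inh (t : ℤ) (m : K) (hr : ∀ z, r z ∈ Op p)
    (h0 : ((t : K) + 1) ^ 3 * w (t + 1) = ap (t : K) * w t - m + r t) (j : ℕ)
    (h : ∀ i : ℕ, 1 ≤ i → i < j → (((t + i : ℤ) : K) + 1) ^ 3 * w (t + i + 1) =
      ap ((t + i : ℤ) : K) * w (t + i) - ((t + i : ℤ) : K) ^ 3 * w (t + i - 1) + r (t + i)) :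
    ∃ T ∈ Op p, trD (t : K) j * w (t + j) =
      (trA K j).eval (t : K) * w t + (trB K j).eval (t : K) * m + T := by
  induction j using Nat.strong_induction_on with
  | _ j ih =>
    rcases j with _ | _ | j
    · exact ⟨0, (Op p).zero_mem, by simp⟩
    · refine ⟨r t, hr t, ?_⟩
      simp only [trA_one_eval, trB_one_eval, trD_succ, trD_zero, zero_add]
      push_cast
      linear_combination h0
    · obtain ⟨T1, hT1, h1⟩ := ih (j + 1) (by omega) fun i hi hi' => h i hi (by omega)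
      obtain ⟨T0, hT0, h2⟩ := ih j (by omega) fun i hi hi' => h i hi (by omega)
      have h3 := h (j + 1) (by omega) (by omega)
      have e0 : t + ((j + 1 + 1 : ℕ) : ℤ) = t + ((j + 1 : ℕ) : ℤ) + 1 := by push_cast; ring
      have e1 : t + ((j + 1 : ℕ) : ℤ) - 1 = t + (j : ℤ) := by push_cast; ring
      rw [e1] at h3
      have d2 := trD_succ (t : K) (j + 1)
      have d1 := trD_succ (t : K) j
      have c1 : (((t + ((j + 1 : ℕ) : ℤ) : ℤ) : K)) = (t : K) + ((j + 1 : ℕ) : K) := by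
        push_cast; ring
      have c2 : ((t : K) + ((j + 1 + 1 : ℕ) : K)) = ((t : K) + ((j + 1 : ℕ) : K)) + 1 := by
        push_cast; ring
      have hs : (t : K) + ((j + 1 : ℕ) : K) ∈ Op p :=
        (Op p).add_mem (int_mem t) (natCast_mem _ _)
      have hD : ∀ i, trD (t : K) i ∈ Op p := by
        intro i
        unfold trD
        exact (Op p).prod_mem fun i _ => (Op p).pow_mem
          ((Op p).add_mem (int_mem _) (natCast_mem _ _)) _
      have hap : ap ((t : K) + ((j + 1 : ℕ) : K)) ∈ Op p := by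
        have e : ap ((t : K) + ((j + 1 : ℕ) : K)) = ap (((t + (j + 1 : ℕ) : ℤ) : K)) := by
          push_cast; rfl
        rw [e]
        have e' : ap (((t + (j + 1 : ℕ) : ℤ) : K)) = ((ap (t + (j + 1 : ℕ) : ℤ) : ℤ) : K) := by
          simp only [ap]; push_cast; ring
        rw [e']
        exact int_mem _
      rw [c1] at h3
      refine ⟨trD (t : K) (j + 1) * r (t + ((j + 1 : ℕ) : ℤ)) + ap ((t : K) + ((j + 1 : ℕ) : K)) * T1
        - ((t : K) + ((j + 1 : ℕ) : K)) ^ 6 * T0, ?_, ?_⟩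
      · exact (Op p).sub_mem ((Op p).add_mem ((Op p).mul_mem (hD _) (hr _))
          ((Op p).mul_mem hap hT1)) ((Op p).mul_mem ((Op p).pow_mem hs 6) hT0)
      · rw [e0, trA_succ_eval, trB_succ_eval, d2, c2]
        set s : K := (t : K) + ((j + 1 : ℕ) : K)
        linear_combination trD (t : K) (j + 1) * h3 + ap s * h1 - s ^ 6 * h2 -
          s ^ 3 * w (t + j) * d1

/-- **Transfer for `w`**, right side and left side -/
theorem SeqP.transfer (hw : SeqP p w r sg m0) (t : ℤ) (j : ℕ) (ht : 0 ≤ t ∨ t + j ≤ -1) :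
    ∃ T ∈ Op p, trD (t : K) j * w (t + j) =
      (trA K j).eval (t : K) * w t + (trB K j).eval (t : K) * kap w m0 t + T := by
  rcases Nat.eq_zero_or_pos j with rfl | hj
  · exact ⟨0, (Op p).zero_mem, by simp⟩
  rcases eq_or_ne t 0 with rfl | ht0
  · refine transfer_inh 0 _ hw.r_mem ?_ j fun i hi hi' => ?_
    · rw [kap, if_pos rfl]
      have := hw.one
      simp only [zero_add, Int.cast_zero, ap]
      rw [this]
      ring
    · exact hw.recur _ (Or.inl (by omega))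
  · rw [kap, if_neg ht0]
    refine transfer_inh t _ hw.r_mem ?_ j fun i hi hi' => ?_
    · exact hw.recur t (by omega)
    · exact hw.recur _ (by omega)

theorem SeqP.int3_mul (hw : SeqP p w r sg m0) {k : ℤ} (h1 : -(p : ℤ) < k) (h2 : k < p) :
    (p : K) ^ 3 * w (p * k) ∈ Op p := by
  have hp0 : (0 : ℤ) < p := by exact_mod_cast hp.out.pos
  exact hw.int3 _ (by nlinarith) (by nlinarith)

/-- `kap` is `p`-integral at `pk`, `|k| < p` -/
theorem SeqP.kap_mem (hw : SeqP p w r sg m0) {k : ℤ} (h1 : -(p : ℤ) < k) (h2 : k < p) :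
    kap w m0 (p * k) ∈ Op p := by
  unfold kap
  split_ifs with h
  · exact hw.m0_mem
  · have hp0 : (0 : ℤ) < p := by exact_mod_cast hp.out.pos
    have h3 := hw.int3 (p * k - 1) (by nlinarith) (by nlinarith)
    have e : (((p * k : ℤ) : ℤ) : K) ^ 3 * w (p * k - 1) =
        (k : K) ^ 3 * ((p : K) ^ 3 * w (p * k - 1)) := by
      push_cast
      ring
    rw [e]
    exact (Op p).mul_mem ((Op p).pow_mem (int_mem k) _) h3

/-- coefficient of the rank one terms of the value row `z = c + pk` -/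
noncomputable def xr (p : ℕ) (w : ℤ → K) (c : ℕ) (k : ℤ) : K :=
  (trD ((p : K) * k) c)⁻¹ * ((p : K) ^ 3 * w (p * k))

theorem SeqP.xr_mem (hw : SeqP p w r sg m0) {c : ℕ} (hc : c < p) {k : ℤ} (h1 : -(p : ℤ) < k)
    (h2 : k < p) : xr p w c k ∈ Op p :=
  (Op p).mul_mem (trD_inv_mem' k hc) (hw.int3_mul h1 h2)

theorem SeqP.sg_mem (hw : SeqP p w r sg m0) (z : ℤ) : sg z ∈ Op p := by
  rcases hw.sg_pm z with h | h <;> rw [h]
  · exact (Op p).one_mem
  · exact (Op p).neg_mem (Op p).one_mem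

/-- **Value rows**, class `c < p`, `z = c + pk`. -/
theorem SeqP.row_value (hw : SeqP p w r sg m0) {k : ℤ} {c : ℕ}
    (hk : 0 ≤ k ∨ (p * k : ℤ) + c ≤ -2) {P Q : K} (hP : P ∈ Op p) (hQ : Q ∈ Op p) :
    ∃ T ∈ Op p, trD ((p : K) * k) c * (P * w (p * k + c) +
        ((c : K) + p * k + 1) ^ 3 * Q * w (p * k + c + 1)) =
      (P * (trA K c).eval ((p : K) * k) + Q * (trA K (c + 1)).eval ((p : K) * k)) *
          w (p * k)
        + (P * (trB K c).eval ((p : K) * k) + Q * (trB K (c + 1)).eval ((p : K) * k)) *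
          kap w m0 (p * k) + T := by
  have hp0 : (0 : ℤ) < p := by exact_mod_cast hp.out.pos
  have hcase : 0 ≤ (p * k : ℤ) ∨ (p * k : ℤ) + ((c + 1 : ℕ) : ℤ) ≤ -1 := by
    rcases hk with hk | hk
    · exact Or.inl (mul_nonneg hp0.le hk)
    · right
      push_cast
      linarith
  obtain ⟨T1, hT1, h1⟩ := hw.transfer (p * k : ℤ) (c + 1) hcase
  obtain ⟨T0, hT0, h0⟩ := hw.transfer (p * k : ℤ) c (by
    rcases hcase with h | h
    · exact Or.inl h
    · right; push_cast at h; linarith)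
  have e1 : (p * k : ℤ) + ((c + 1 : ℕ) : ℤ) = p * k + c + 1 := by push_cast; ring
  have e2 : ((p * k : ℤ) : K) = (p : K) * k := by push_cast; ring
  rw [e1, e2] at h1
  rw [e2] at h0
  have d := trD_succ ((p : K) * k) c
  rw [d] at h1
  push_cast at h1
  refine ⟨P * T0 + Q * T1, (Op p).add_mem ((Op p).mul_mem hP hT0) ((Op p).mul_mem hQ hT1), ?_⟩
  linear_combination P * h0 + Q * h1

/-- **Singular rows**: rank one terms plus an integral term. -/
theorem SeqP.row_sing (hw : SeqP p w r sg m0) {c : ℕ} (hc : c < p) {k : ℤ}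
    (h1 : -(p : ℤ) < k) (h2 : k < p) (hk : 0 ≤ k ∨ (p * k : ℤ) + c ≤ -2) {P Q R1 R2 : K[X]}
    (hP : P.eval ((c : K) + p * k) ∈ Op p) (hQ : Q.eval ((c : K) + p * k) ∈ Op p)
    (hR1 : R1.eval ((c : K) + p * k) ∈ Op p) (hR2 : R2.eval ((c : K) + p * k) ∈ Op p)
    {h0' h1' h2' s : K} (hs : s ∈ Op p)
    (h : P.eval ((c : K) + p * k) * (trA K c).eval ((p : K) * k)
      + Q.eval ((c : K) + p * k) * (trA K (c + 1)).eval ((p : K) * k)
      = h0' + h1' * (p * k) + h2' * (p * k) ^ 2 + p ^ 3 * s) :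
    ∃ B ∈ Op p, (p : K) ^ 3 * Fv w sg P ((X + 1) ^ 3 * Q) R1 R2 (p * k + c) =
      xr p w c k * h0' + p * ((k * xr p w c k) * h1')
        + p ^ 2 * ((k ^ 2 * xr p w c k) * h2') + p ^ 3 * B := by
  have hpk : (p : K) * k ∈ Op p := (Op p).mul_mem (natCast_mem _ p) (int_mem k)
  have hne := trD_ne' (p := p) k hc
  obtain ⟨T, hT, key⟩ := hw.row_value (k := k) (c := c) hk hP hQ
  refine ⟨s * xr p w c k + (trD ((p : K) * k) c)⁻¹ *
    ((P.eval ((c : K) + p * k) * (trB K c).eval ((p : K) * k)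
      + Q.eval ((c : K) + p * k) * (trB K (c + 1)).eval ((p : K) * k)) * kap w m0 (p * k)
      + T) + R1.eval ((c : K) + p * k) + sg (p * k + c) * R2.eval ((c : K) + p * k), ?_, ?_⟩
  · refine (Op p).add_mem ((Op p).add_mem ((Op p).add_mem ((Op p).mul_mem hs
      (hw.xr_mem hc h1 h2)) ?_) hR1) ((Op p).mul_mem (hw.sg_mem _) hR2)
    refine (Op p).mul_mem (trD_inv_mem' k hc) ((Op p).add_mem
      ((Op p).mul_mem ?_ (hw.kap_mem h1 h2)) hT)
    exact (Op p).add_mem ((Op p).mul_mem hP (trB_eval_mem hpk _))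
      ((Op p).mul_mem hQ (trB_eval_mem hpk _))
  · rw [h] at key
    have ez : (((p * k + c : ℤ)) : K) = (c : K) + p * k := by push_cast; ring
    unfold Fv
    rw [ez]
    have e3 : ((X + 1) ^ 3 * Q).eval ((c : K) + p * k) =
        ((c : K) + p * k + 1) ^ 3 * Q.eval ((c : K) + p * k) := by
      simp
    rw [e3]
    apply mul_left_cancel₀ hne
    have hx0 : trD ((p : K) * k) c * xr p w c k = (p : K) ^ 3 * w (p * k) := by
      rw [xr, mul_inv_cancel_left₀ hne]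
    have hi : trD ((p : K) * k) c * (trD ((p : K) * k) c)⁻¹ = 1 := mul_inv_cancel₀ hne
    set m := kap w m0 (p * k)
    set T' := P.eval ((c : K) + p * k) * (trB K c).eval ((p : K) * k)
      + Q.eval ((c : K) + p * k) * (trB K (c + 1)).eval ((p : K) * k)
    linear_combination (p : K) ^ 3 * key
      - (h0' + p * k * h1' + p ^ 2 * k ^ 2 * h2' + p ^ 3 * s) * hx0
      - (p : K) ^ 3 * (T' * m + T) * hi

/-- **Integral rows**: `-p ≤ z < p` -/
theorem SeqP.row_int (hw : SeqP p w r sg m0) {z : ℤ} (h1 : -(p : ℤ) ≤ z) (h2 : z < p)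
    {P Q R1 R2 : K[X]}
    (hP : P.eval (z : K) ∈ Op p) (hQ : Q.eval (z : K) ∈ Op p)
    (hR1 : R1.eval (z : K) ∈ Op p) (hR2 : R2.eval (z : K) ∈ Op p) :
    Fv w sg P ((X + 1) ^ 3 * Q) R1 R2 z ∈ Op p := by
  have hp0 : (2 : ℤ) ≤ p := by exact_mod_cast hp.out.two_le
  unfold Fv
  have e3 : ((X + 1) ^ 3 * Q).eval (z : K) = (((z + 1 : ℤ)) : K) ^ 3 * Q.eval (z : K) := by
    simp
  have hw1 : (((z + 1 : ℤ)) : K) ^ 3 * w (z + 1) ∈ Op p := by
    rcases eq_or_ne (z + 1) p with h | h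
    · rw [h]
      have := hw.int3 (p : ℤ) (by nlinarith) (by nlinarith)
      exact_mod_cast this
    · exact (Op p).mul_mem ((Op p).pow_mem (int_mem _) 3) (hw.int _ (by omega) (by omega))
  rw [e3]
  have e4 : (((z + 1 : ℤ)) : K) ^ 3 * Q.eval (z : K) * w (z + 1) =
      Q.eval (z : K) * ((((z + 1 : ℤ)) : K) ^ 3 * w (z + 1)) := by ring
  rw [e4]
  exact (Op p).add_mem ((Op p).add_mem ((Op p).add_mem ((Op p).mul_mem hP (hw.int _ h1 h2))
    ((Op p).mul_mem hQ hw1)) hR1) ((Op p).mul_mem (hw.sg_mem _) hR2)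

/-- **Any column**, `-p^2 ≤ z < p^2 - 1` -/
theorem SeqP.row_exc (hw : SeqP p w r sg m0) {z : ℤ} (h1 : -(p : ℤ) ^ 2 ≤ z)
    (h2 : z < (p : ℤ) ^ 2 - 1) {P Q R1 R2 : K[X]}
    (hP : P.eval (z : K) ∈ Op p) (hQ : Q.eval (z : K) ∈ Op p)
    (hR1 : R1.eval (z : K) ∈ Op p) (hR2 : R2.eval (z : K) ∈ Op p) :
    (p : K) ^ 3 * Fv w sg P Q R1 R2 z ∈ Op p := by
  have hp3 : (p : K) ^ 3 ∈ Op p := (Op p).pow_mem (natCast_mem _ p) 3
  unfold Fv
  have e : (p : K) ^ 3 * (P.eval (z : K) * w z + Q.eval (z : K) * w (z + 1) + R1.eval (z : K)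
      + sg z * R2.eval (z : K)) =
      P.eval (z : K) * ((p : K) ^ 3 * w z) + Q.eval (z : K) * ((p : K) ^ 3 * w (z + 1))
      + (p : K) ^ 3 * R1.eval (z : K) + (p : K) ^ 3 * (sg z * R2.eval (z : K)) := by ring
  rw [e]
  exact (Op p).add_mem ((Op p).add_mem ((Op p).add_mem
    ((Op p).mul_mem hP (hw.int3 _ h1 (by linarith)))
    ((Op p).mul_mem hQ (hw.int3 _ (by linarith) (by linarith)))) ((Op p).mul_mem hp3 hR1))
    ((Op p).mul_mem hp3 ((Op p).mul_mem (hw.sg_mem _) hR2))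

/-- an integral polynomial at `a` and `a - p` -/
theorem eval_sub_mul (P : (Op p)[X]) (a : ℤ) :
    ∃ s ∈ Op p, (toK p P).eval (a : K) - (toK p P).eval ((a - p : ℤ) : K) = p * s := by
  have hev : ∀ b : ℤ, (toK p P).eval (b : K) = ((P.eval (b : Op p) : Op p) : K) := by
    intro b
    have h := Polynomial.eval_map_apply (f := (Op p).subtype) (p := P) (x := (b : Op p))
    have h2 : (Op p).subtype (b : Op p) = (b : K) := by simp
    rw [h2] at h
    exact h
  obtain ⟨s, hs⟩ := Polynomial.sub_dvd_eval_sub (a : Op p) ((a - p : ℤ) : Op p) P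
  refine ⟨(s : K), s.2, ?_⟩
  rw [hev, hev]
  have h2 := congrArg (fun x : Op p => (x : K)) hs
  push_cast at h2
  have e : (a : K) - ((a : K) - (p : K)) = p := by ring
  rw [e] at h2
  exact_mod_cast h2

theorem eval_toK_mem (P : (Op p)[X]) (a : ℤ) : (toK p P).eval (a : K) ∈ Op p := by
  have h := Polynomial.eval_map_apply (f := (Op p).subtype) (p := P) (x := (a : Op p))
  have h2 : (Op p).subtype (a : Op p) = (a : K) := by simp
  rw [h2] at h
  have h3 : (toK p P).eval (a : K) = ((P.eval (a : Op p) : Op p) : K) := h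
  rw [h3]
  exact Subtype.property _

/-- **Pairs**: `F(a) = F(a-p)` modulo `p`, `0 ≤ a ≤ p - 2` -/
theorem SeqP.row_pair (hw : SeqP p w r sg m0) {a : ℤ} (h1 : 0 ≤ a) (h2 : a + 2 ≤ p)
    (P Q R1 R2 : (Op p)[X]) :
    ∃ s ∈ Op p, Fv w sg (toK p P) (toK p Q) (toK p R1) (toK p R2) a -
      Fv w sg (toK p P) (toK p Q) (toK p R1) (toK p R2) (a - p) = p * s := by
  obtain ⟨sP, hsP, eP⟩ := eval_sub_mul P a
  obtain ⟨sQ, hsQ, eQ⟩ := eval_sub_mul Q a
  obtain ⟨s1, hs1, e1⟩ := eval_sub_mul R1 a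
  obtain ⟨s2, hs2, e2⟩ := eval_sub_mul R2 a
  obtain ⟨sw, hsw, ew⟩ := hw.mir a h1 (by omega)
  obtain ⟨sw', hsw', ew'⟩ := hw.mir (a + 1) (by omega) (by omega)
  have e3 : (a + 1 - p : ℤ) = a - p + 1 := by ring
  rw [e3] at ew'
  refine ⟨sP * w a + (toK p P).eval ((a - p : ℤ) : K) * sw + sQ * w (a + 1)
    + (toK p Q).eval ((a - p : ℤ) : K) * sw' + s1 + sg a * s2, ?_, ?_⟩
  · have hwa : w a ∈ Op p := hw.int _ (by omega) (by omega)
    have hwa' : w (a + 1) ∈ Op p := hw.int _ (by omega) (by omega)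
    exact (Op p).add_mem ((Op p).add_mem ((Op p).add_mem ((Op p).add_mem ((Op p).add_mem
      ((Op p).mul_mem hsP hwa) ((Op p).mul_mem (eval_toK_mem P _) hsw))
      ((Op p).mul_mem hsQ hwa')) ((Op p).mul_mem (eval_toK_mem Q _) hsw')) hs1)
      ((Op p).mul_mem (hw.sg_mem _) hs2)
  · unfold Fv
    rw [hw.sg_mir a h1 (by omega)]
    linear_combination w a * eP + (toK p P).eval ((a - p : ℤ) : K) * ew + w (a + 1) * eQ
      + (toK p Q).eval ((a - p : ℤ) : K) * ew' + e1 + sg a * e2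

end Tr

end T2
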