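import Pool.Agent.T2.RB2v

/-!
# T2, real side, module R4: the folded row formula (abstract core)

The sums over `k ∈ ℤ` are folded by `k ↦ -1 - k`; the two kinds of kernels are written in the
product form used by module R7.
-/

set_option autoImplicit false

namespace T2

open Complex Polynomial Finset

/-- the poles `j + 1/2 ± i y0` -/
noncomputable def pol (y0 : ℝ) (q : ℕ × Bool) : ℂ :=
  if q.2 then zl y0 (q.1 : ℤ) + 1 else (starRingEnd ℂ) (zl y0 (q.1 : ℤ) + 1)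

/-- the values of the two-sided solution at the poles -/
noncomputable def polU (U : ℤ → ℂ) (q : ℕ × Bool) : ℂ :=
  if q.2 then U (q.1 : ℤ) else (starRingEnd ℂ) (U (q.1 : ℤ))

/-- `ga 1 t = t`, `ga (-1) t = 1` -/
noncomputable def ga (s : ℝ) (t : ℂ) : ℂ := ((1 + (s : ℂ)) * t + (1 - (s : ℂ))) / 2

/-- `P(t) + s r(t) P(-t)` -/
noncomputable def vev (r : ℂ → ℂ) (s : ℝ) (P : ℝ[X]) (t : ℂ) : ℂ :=
  aeval t P + (s : ℂ) * r t * aeval (-t) P

theorem ga_one (t : ℂ) : ga 1 t = t := by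
  unfold ga
  push_cast
  ring

theorem ga_neg_one (t : ℂ) : ga (-1) t = 1 := by
  unfold ga
  push_cast
  ring

theorem vev_X_pow (c : ℕ) (r : ℂ → ℂ) (s : ℝ) (t : ℂ) (i : Fin c) :
    vev r s ((X : ℝ[X]) ^ (i : ℕ)) t = vrow c r (s : ℂ) t i := by
  unfold vev vrow
  simp only [map_pow, aeval_X]

/-! ## Summability -/

theorem zl_neg (y0 : ℝ) (k : ℤ) :
    zl y0 (-(k + 1)) = -2 - (starRingEnd ℂ) (zl y0 k) := by
  apply Complex.ext
  · simp [zl_re]
    ring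
  · simp [zl_im]

theorem norm_zl_le' {y0 : ℝ} (h0 : 0 ≤ y0) (h1 : y0 ≤ 11 / 50) (k : ℤ) :
    ‖zl y0 k‖ ≤ (k.natAbs : ℝ) + 1 := by
  have h := norm_zl_le h0 h1 k
  rw [← Int.cast_abs, ← Nat.cast_natAbs] at h
  linarith

theorem norm_aeval_le (P : ℝ[X]) :
    ∃ C : ℝ, 0 ≤ C ∧ ∀ w : ℂ, ‖aeval w P‖ ≤ C * (1 + ‖w‖) ^ P.natDegree := by
  refine ⟨∑ i ∈ range (P.natDegree + 1), |P.coeff i|, Finset.sum_nonneg fun _ _ => abs_nonneg _,
    fun w => ?_⟩
  rw [aeval_eq_sum_range, Finset.sum_mul]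
  refine (norm_sum_le _ _).trans (Finset.sum_le_sum fun i hi => ?_)
  rw [Finset.mem_range] at hi
  rw [norm_smul, Real.norm_eq_abs, norm_pow]
  refine mul_le_mul_of_nonneg_left ?_ (abs_nonneg _)
  have h1 : ‖w‖ ^ i ≤ (1 + ‖w‖) ^ i :=
    pow_le_pow_left₀ (norm_nonneg _) (by linarith) i
  refine h1.trans (pow_le_pow_right₀ ?_ (by omega))
  linarith [norm_nonneg w]

theorem summable_nat (i : ℕ) :
    Summable fun n : ℕ => (3 / 100 : ℝ) ^ n * ((n : ℝ) + 1) ^ i := by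
  have h := summable_pow_mul_geometric_of_norm_lt_one (R := ℝ) i
    (r := 3 / 100) (by rw [Real.norm_eq_abs, abs_of_pos] <;> norm_num)
  have h1 := (summable_nat_add_iff 1).2 h
  have h2 := h1.mul_left (100 / 3 : ℝ)
  refine h2.congr fun n => ?_
  push_cast
  rw [pow_succ (3 / 100 : ℝ) n]
  ring

theorem summable_int (i : ℕ) :
    Summable fun k : ℤ => (3 / 100 : ℝ) ^ k.natAbs * ((k.natAbs : ℝ) + 1) ^ i := by
  refine Summable.of_nat_of_neg_add_one ?_ ?_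
  · refine (summable_nat i).congr fun n => ?_
    rw [Int.natAbs_natCast]
  · have h1 := (summable_nat_add_iff 1).2 (summable_nat i)
    refine h1.congr fun n => ?_
    have e : (-((n : ℤ) + 1)).natAbs = n + 1 := by omega
    rw [e]

theorem sum_term_le {y0 : ℝ} (h0 : 0 ≤ y0) (h1 : y0 ≤ 11 / 50) (P : ℝ[X]) :
    ∃ C : ℝ, 0 ≤ C ∧ ∀ k : ℤ, ‖aeval (zl y0 k) P‖ ≤ C * ((k.natAbs : ℝ) + 1) ^ P.natDegree := by
  obtain ⟨C, hC, h⟩ := norm_aeval_le P
  refine ⟨C * 2 ^ P.natDegree, by positivity, fun k => (h _).trans ?_⟩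
  rw [mul_assoc, ← mul_pow]
  refine mul_le_mul_of_nonneg_left (pow_le_pow_left₀ (by positivity) ?_ _) hC
  have := norm_zl_le' h0 h1 k
  have hk : (0 : ℝ) ≤ k.natAbs := Nat.cast_nonneg _
  linarith

theorem node_sub_norm {y0 : ℝ} (n : ℝ) (k : ℤ) : |y0| ≤ ‖(n : ℂ) - zl y0 k‖ := by
  have h := Complex.abs_im_le_norm ((n : ℂ) - zl y0 k)
  rw [sub_im, ofReal_im, zl_im, zero_sub, abs_neg] at h
  exact h

/-- all the sums that occur converge absolutely -/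
theorem summable_row {y0 : ℝ} {V : ℤ → ℂ} (h0 : 1 / 5 < y0) (h1 : y0 < 11 / 50) {D : ℝ}
    (hD : 0 ≤ D) (hV : ∀ k : ℤ, ‖V k‖ ≤ D * (3 / 100) ^ k.natAbs) (P : ℝ[X]) (n : ℝ) (e : ℤ → ℝ)
    {E : ℝ} (he : ∀ k, |e k| ≤ E) :
    Summable fun k : ℤ => e k * (2 * (V k * aeval (zl y0 k) P / ((n : ℂ) - zl y0 k)).re) := by
  obtain ⟨C, hC, h⟩ := sum_term_le (y0 := y0) (by linarith) (by linarith) P
  have hE : 0 ≤ E := (abs_nonneg _).trans (he 0)
  refine Summable.of_norm_bounded (g := fun k : ℤ => (E * 10 * D * C) *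
    ((3 / 100 : ℝ) ^ k.natAbs * ((k.natAbs : ℝ) + 1) ^ P.natDegree))
    ((summable_int _).mul_left _) fun k => ?_
  rw [norm_mul, norm_mul, Real.norm_eq_abs, Real.norm_eq_abs, Real.norm_eq_abs,
    abs_of_pos (by norm_num : (0 : ℝ) < 2)]
  have hn := node_sub_norm (y0 := y0) n k
  rw [abs_of_pos (by linarith : 0 < y0)] at hn
  have hn' : 0 < ‖(n : ℂ) - zl y0 k‖ := by linarith
  have h2 : |(V k * aeval (zl y0 k) P / ((n : ℂ) - zl y0 k)).re| ≤
      5 * (D * (3 / 100) ^ k.natAbs * (C * ((k.natAbs : ℝ) + 1) ^ P.natDegree)) := by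
    refine (Complex.abs_re_le_norm _).trans ?_
    rw [norm_div, norm_mul, div_le_iff₀ hn']
    have h3 : ‖V k‖ * ‖aeval (zl y0 k) P‖ ≤
        D * (3 / 100) ^ k.natAbs * (C * ((k.natAbs : ℝ) + 1) ^ P.natDegree) :=
      mul_le_mul (hV k) (h k) (norm_nonneg _) (by positivity)
    have h4 : 0 ≤ D * (3 / 100) ^ k.natAbs * (C * ((k.natAbs : ℝ) + 1) ^ P.natDegree) := by
      positivity
    nlinarith
  calc |e k| * (2 * |(V k * aeval (zl y0 k) P / ((n : ℂ) - zl y0 k)).re|)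
      ≤ E * (2 * (5 * (D * (3 / 100) ^ k.natAbs * (C * ((k.natAbs : ℝ) + 1) ^ P.natDegree)))) :=
        mul_le_mul (he k) (mul_le_mul_of_nonneg_left h2 (by norm_num)) (by positivity) hE
    _ = _ := by ring

/-! ## The fold -/

theorem conj_aeval (P : ℝ[X]) (t : ℂ) :
    (starRingEnd ℂ) (aeval t P) = aeval ((starRingEnd ℂ) t) P := by
  rw [aeval_eq_sum_range, aeval_eq_sum_range, map_sum]
  refine Finset.sum_congr rfl fun i _ => ?_
  rw [Complex.real_smul, Complex.real_smul, map_mul, map_pow, Complex.conj_ofReal]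

theorem vev_conj {r : ℂ → ℂ} (hr : RFun r) (s : ℝ) (P : ℝ[X]) {t : ℂ} (ht : 0 ≤ t.re) :
    vev r s P ((starRingEnd ℂ) t) = (starRingEnd ℂ) (vev r s P t) := by
  unfold vev
  rw [map_add, map_mul, map_mul, Complex.conj_ofReal, conj_aeval, conj_aeval, hr.conj t ht,
    map_neg]

theorem ga_conj (s : ℝ) (t : ℂ) : ga s ((starRingEnd ℂ) t) = (starRingEnd ℂ) (ga s t) := by
  unfold ga
  simp only [map_div₀, map_add, map_mul, map_sub, map_one, Complex.conj_ofReal, map_ofNat]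

/-- the value `Φ_k = U_k P(z_k + 1) + s U_{k+1} P(-1 - z_k)` -/
noncomputable def Phi (y0 : ℝ) (U : ℤ → ℂ) (s : ℝ) (P : ℝ[X]) (k : ℤ) : ℂ :=
  U k * aeval (zl y0 k + 1) P + (s : ℂ) * (U (k + 1) * aeval (-1 - zl y0 k) P)

theorem Phi_nat {r : ℂ → ℂ} {y0 : ℝ} {U : ℤ → ℂ} (hL : Lat r y0 U) (s : ℝ) (P : ℝ[X]) (j : ℕ) :
    Phi y0 U s P (j : ℤ) = U (j : ℤ) * vev r s P (zl y0 (j : ℤ) + 1) := by
  unfold Phi vev
  rw [hL.succ j]
  have e : -(zl y0 (j : ℤ) + 1) = -1 - zl y0 (j : ℤ) := by ring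
  rw [e]
  ring

theorem Phi_neg {r : ℂ → ℂ} {y0 : ℝ} {U : ℤ → ℂ} (hL : Lat r y0 U) {s : ℝ} (hs : s = 1 ∨ s = -1)
    (P : ℝ[X]) (k : ℤ) :
    Phi y0 U s P (-(k + 1)) = -(s : ℂ) * (starRingEnd ℂ) (Phi y0 U s P k) := by
  unfold Phi
  have e1 : -(k + 1) + 1 = -k := by ring
  rw [e1, hL.neg (k + 1), hL.neg k, zl_neg]
  have e2 : (-2 - (starRingEnd ℂ) (zl y0 k) + 1 : ℂ) = (starRingEnd ℂ) (-1 - zl y0 k) := by
    rw [map_sub, map_neg, map_one]
    ring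
  have e3 : (-1 - (-2 - (starRingEnd ℂ) (zl y0 k)) : ℂ) = (starRingEnd ℂ) (zl y0 k + 1) := by
    rw [map_add, map_one]
    ring
  have e4 : (starRingEnd ℂ) (U k * aeval (zl y0 k + 1) P +
      (s : ℂ) * (U (k + 1) * aeval (-1 - zl y0 k) P)) =
      (starRingEnd ℂ) (U k) * aeval ((starRingEnd ℂ) (zl y0 k + 1)) P +
      (s : ℂ) * ((starRingEnd ℂ) (U (k + 1)) * aeval ((starRingEnd ℂ) (-1 - zl y0 k)) P) := by
    rw [← conj_aeval, ← conj_aeval, map_add, map_mul, map_mul, map_mul, Complex.conj_ofReal]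
  rw [e2, e3, e4]
  rcases hs with rfl | rfl
  · push_cast
    ring
  · push_cast
    ring

/-- the data of the rows, in the product form of module R7 -/
noncomputable def rowA' (y0 : ℝ) (U : ℤ → ℂ) (s : ℝ) (q : ℕ × Bool) : ℂ :=
  ga s (pol y0 q) * polU U q

/-- the data of the rows, second kernel -/
noncomputable def rowB' (y0 : ℝ) (U : ℤ → ℂ) (s : ℝ) (q : ℕ × Bool) : ℂ :=
  (-1) ^ q.1 * (ga (-s) (pol y0 q) * polU U q)

/-- the coefficients at the node `n` (`a = x1 c+`) -/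
noncomputable def rowa (s a : ℝ) (n : ℕ) : ℂ := 2 * (a : ℂ) * ga (-s) ((n : ℂ) + 1)

/-- the coefficients at the node `n` (`b = x3 c-`) -/
noncomputable def rowb (s b : ℝ) (n : ℕ) : ℂ := 2 * (b : ℂ) * (-1) ^ n * ga s ((n : ℂ) + 1)

/-- the `j`-th pair of terms of the folded row -/
noncomputable def rowT (r : ℂ → ℂ) (y0 : ℝ) (U : ℤ → ℂ) (s a b : ℝ) (P : ℝ[X]) (n : ℕ)
    (q : ℕ × Bool) : ℂ :=
  (rowa s a n * rowA' y0 U s q + rowb s b n * rowB' y0 U s q) /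
    (((n : ℂ) + 1) ^ 2 - pol y0 q ^ 2) * vev r s P (pol y0 q)

theorem rowT_false {r : ℂ → ℂ} {y0 : ℝ} {U : ℤ → ℂ} (hr : RFun r) (s a b : ℝ)
    (P : ℝ[X]) (n j : ℕ) :
    rowT r y0 U s a b P n (j, false) = (starRingEnd ℂ) (rowT r y0 U s a b P n (j, true)) := by
  have hp : pol y0 (j, false) = (starRingEnd ℂ) (pol y0 (j, true)) := rfl
  have hu : polU U (j, false) = (starRingEnd ℂ) (polU U (j, true)) := rfl
  have hre : 0 ≤ (pol y0 (j, true)).re := by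
    change 0 ≤ (zl y0 (j : ℤ) + 1).re
    rw [add_re, zl_re, one_re]
    push_cast
    have : (0 : ℝ) ≤ j := Nat.cast_nonneg j
    linarith
  have hN : (starRingEnd ℂ) ((n : ℂ) + 1) = (n : ℂ) + 1 := by
    rw [map_add, map_one, Complex.conj_natCast]
  have hga : ∀ s' : ℝ, (starRingEnd ℂ) (ga s' ((n : ℂ) + 1)) = ga s' ((n : ℂ) + 1) := by
    intro s'
    rw [← ga_conj, hN]
  unfold rowT rowa rowb rowA' rowB'
  simp only [hp, hu]
  rw [vev_conj hr s P hre, ga_conj, ga_conj]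
  simp only [map_mul, map_div₀, map_add, map_sub, map_pow, map_neg, map_one, map_ofNat,
    Complex.conj_ofReal, Complex.conj_natCast, hga]

theorem rowT_sum {r : ℂ → ℂ} {y0 : ℝ} {U : ℤ → ℂ} (hr : RFun r) (s a b : ℝ)
    (P : ℝ[X]) (n j : ℕ) :
    ∑ β : Bool, rowT r y0 U s a b P n (j, β) =
      ((2 * (rowT r y0 U s a b P n (j, true)).re : ℝ) : ℂ) := by
  rw [Fintype.sum_bool, rowT_false hr, Complex.add_conj]

theorem N_sub_pol_ne {y0 : ℝ} (h0 : 0 < y0) (n j : ℕ) :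
    ((n : ℂ) + 1) - (zl y0 (j : ℤ) + 1) ≠ 0 ∧ ((n : ℂ) + 1) + (zl y0 (j : ℤ) + 1) ≠ 0 := by
  constructor
  · intro h
    have := congrArg Complex.im h
    simp [zl_im] at this
    linarith
  · intro h
    have := congrArg Complex.im h
    simp [zl_im] at this
    linarith

/-- **the fold**, one term -/
theorem fold_term {r : ℂ → ℂ} {y0 : ℝ} {U : ℤ → ℂ} (hr : RFun r) (hL : Lat r y0 U) {s : ℝ}
    (hs : s = 1 ∨ s = -1) (P : ℝ[X]) (n j : ℕ) (a b : ℝ) (g : ℤ → ℝ)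
    (hg : ∀ k : ℤ, g k = (a + b * (-1) ^ n * (-1) ^ k.natAbs) *
      (2 * (Phi y0 U s P k / ((n : ℂ) - zl y0 k)).re)) :
    ((g (j : ℤ) + g (-((j : ℤ) + 1)) : ℝ) : ℂ) = ∑ β : Bool, rowT r y0 U s a b P n (j, β) := by
  rw [rowT_sum hr]
  congr 1
  have h0 : 0 < y0 := by linarith [hL.lo]
  obtain ⟨hm, hp⟩ := N_sub_pol_ne h0 n j
  set z : ℂ := zl y0 (j : ℤ) with hz
  have e1 : (j : ℤ).natAbs = j := Int.natAbs_natCast j
  have e2 : (-((j : ℤ) + 1)).natAbs = j + 1 := by omega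
  have hn1 : (n : ℂ) - z ≠ 0 := by
    intro h
    apply hm
    linear_combination h
  have hn2 : (n : ℂ) + 2 + z ≠ 0 := by
    intro h
    apply hp
    linear_combination h
  have e3 : (Phi y0 U s P (-((j : ℤ) + 1)) / ((n : ℂ) - zl y0 (-((j : ℤ) + 1)))).re =
      -s * (Phi y0 U s P (j : ℤ) / ((n : ℂ) + 2 + z)).re := by
    rw [Phi_neg hL hs, zl_neg, ← hz]
    have e4 : (n : ℂ) - (-2 - (starRingEnd ℂ) z) = (starRingEnd ℂ) ((n : ℂ) + 2 + z) := by
      rw [map_add, map_add, Complex.conj_natCast, map_ofNat]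
      ring
    rw [e4]
    have e5 : -(s : ℂ) * (starRingEnd ℂ) (Phi y0 U s P (j : ℤ)) /
        (starRingEnd ℂ) ((n : ℂ) + 2 + z) =
        ((-s : ℝ) : ℂ) * (starRingEnd ℂ) (Phi y0 U s P (j : ℤ) / ((n : ℂ) + 2 + z)) := by
      rw [map_div₀]
      push_cast
      ring
    rw [e5, Complex.re_ofReal_mul, Complex.conj_re]
  rw [hg, hg, e1, e2, e3]
  have e6 : rowT r y0 U s a b P n (j, true) =
      ((a + b * (-1) ^ n * (-1) ^ j : ℝ) : ℂ) * (Phi y0 U s P (j : ℤ) / ((n : ℂ) - z)) +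
      ((a + b * (-1) ^ n * (-1) ^ (j + 1) : ℝ) : ℂ) * (((-s : ℝ) : ℂ) *
        (Phi y0 U s P (j : ℤ) / ((n : ℂ) + 2 + z))) := by
    rw [Phi_nat hL, ← hz]
    unfold rowT rowa rowb rowA' rowB'
    have hp1 : pol y0 (j, true) = z + 1 := rfl
    have hu1 : polU U (j, true) = U (j : ℤ) := rfl
    simp only [hp1, hu1]
    have hden : ((n : ℂ) + 1) ^ 2 - (z + 1) ^ 2 = ((n : ℂ) - z) * ((n : ℂ) + 2 + z) := by ring
    rw [hden]
    rcases hs with rfl | rfl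
    · rw [ga_one, ga_one, ga_neg_one, ga_neg_one]
      push_cast
      field_simp
      ring
    · rw [show (-(-1) : ℝ) = 1 by norm_num, ga_one, ga_one, ga_neg_one, ga_neg_one]
      push_cast
      field_simp
      ring
  rw [e6, Complex.add_re, Complex.re_ofReal_mul, Complex.re_ofReal_mul, Complex.re_ofReal_mul]
  ring

/-- **R4, abstract core.** -/
theorem row_core {r : ℂ → ℂ} {y0 : ℝ} {U : ℤ → ℂ} (hr : RFun r) (hL : Lat r y0 U) {s : ℝ}
    (hs : s = 1 ∨ s = -1) (P : ℝ[X]) (n : ℕ) (a b x2 FA FB : ℝ)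
    (hA : FA = -x2 * P.eval ((n : ℝ) + 1) * QS2.lrem n +
      ∑' k : ℤ, (a + b * (-1) ^ n * (-1) ^ k.natAbs) *
        (2 * (U k * aeval (zl y0 k) (P.comp (X + 1)) / ((n : ℂ) - zl y0 k)).re))
    (hB : FB = -x2 * P.eval (-1 - (n : ℝ)) * QS2.lrem (n + 1) +
      ∑' k : ℤ, (a + b * (-1) ^ n * (-1) ^ k.natAbs) *
        (2 * (U (k + 1) * aeval (zl y0 k) (P.comp (-1 - X)) / ((n : ℂ) - zl y0 k)).re)) :
    HasSum (fun j : ℕ => ∑ β : Bool, rowT r y0 U s a b P n (j, β))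
      (((FA + s * FB : ℝ) : ℂ) -
        (-(x2 : ℂ) * ((QS2.lrem n : ℝ) : ℂ)) * vev r s P ((n : ℂ) + 1)) := by
  have h0 := hL.lo
  have h1 := hL.hi
  have he : ∀ k : ℤ, |a + b * (-1) ^ n * (-1) ^ k.natAbs| ≤ |a| + |b| := by
    intro k
    refine (abs_add_le _ _).trans ?_
    rw [abs_mul, abs_mul, abs_pow, abs_pow, abs_neg, abs_one, one_pow, one_pow, mul_one, mul_one]
  have hU1 : ∀ k : ℤ, ‖U k‖ ≤ 1 * (3 / 100) ^ k.natAbs := fun k => by
    rw [one_mul]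
    exact hL.bound k
  have hU2 : ∀ k : ℤ, ‖U (k + 1)‖ ≤ (100 / 3) * (3 / 100) ^ k.natAbs := by
    intro k
    refine (hL.bound (k + 1)).trans ?_
    have e : k.natAbs ≤ (k + 1).natAbs + 1 := by omega
    have e2 : (3 / 100 : ℝ) ^ ((k + 1).natAbs + 1) ≤ (3 / 100 : ℝ) ^ k.natAbs :=
      pow_le_pow_of_le_one (by norm_num) (by norm_num) e
    rw [pow_succ] at e2
    linarith
  have sA := summable_row h0 h1 (by norm_num) hU1 (P.comp (X + 1)) (n : ℝ)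
    (fun k => a + b * (-1) ^ n * (-1) ^ k.natAbs) he
  have sB := summable_row (V := fun k => U (k + 1)) h0 h1 (by norm_num) hU2 (P.comp (-1 - X))
    (n : ℝ) (fun k => a + b * (-1) ^ n * (-1) ^ k.natAbs) he
  rw [Complex.ofReal_natCast] at sA sB
  have HA := sA.hasSum
  have HB := (sB.hasSum).mul_left s
  have HAB := HA.add HB
  set g : ℤ → ℝ := fun k => (a + b * (-1) ^ n * (-1) ^ k.natAbs) *
      (2 * (Phi y0 U s P k / ((n : ℂ) - zl y0 k)).re) with hgdef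
  have hgeq : (fun k : ℤ => (a + b * (-1) ^ n * (-1) ^ k.natAbs) *
        (2 * (U k * aeval (zl y0 k) (P.comp (X + 1)) / ((n : ℂ) - zl y0 k)).re) +
      s * ((a + b * (-1) ^ n * (-1) ^ k.natAbs) *
        (2 * (U (k + 1) * aeval (zl y0 k) (P.comp (-1 - X)) / ((n : ℂ) - zl y0 k)).re))) = g := by
    funext k
    rw [hgdef]
    have c1 : aeval (zl y0 k) (P.comp (X + 1)) = aeval (zl y0 k + 1) P := by
      rw [aeval_comp]
      simp
    have c2 : aeval (zl y0 k) (P.comp (-1 - X)) = aeval (-1 - zl y0 k) P := by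
      rw [aeval_comp]
      simp
    have c3 : (Phi y0 U s P k / ((n : ℂ) - zl y0 k)).re =
        (U k * aeval (zl y0 k + 1) P / ((n : ℂ) - zl y0 k)).re +
        s * (U (k + 1) * aeval (-1 - zl y0 k) P / ((n : ℂ) - zl y0 k)).re := by
      rw [← Complex.re_ofReal_mul, ← Complex.add_re]
      unfold Phi
      congr 1
      ring
    rw [c1, c2]
    simp only [c3]
    ring
  rw [hgeq] at HAB
  have HN := HAB.nat_add_neg_add_one
  have HC := Complex.hasSum_ofReal.2 HN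
  have hval : ((FA + s * FB : ℝ) : ℂ) -
        (-(x2 : ℂ) * ((QS2.lrem n : ℝ) : ℂ)) * vev r s P ((n : ℂ) + 1) =
      (((∑' k : ℤ, (a + b * (-1) ^ n * (-1) ^ k.natAbs) *
        (2 * (U k * aeval (zl y0 k) (P.comp (X + 1)) / ((n : ℂ) - zl y0 k)).re)) +
      s * ∑' k : ℤ, (a + b * (-1) ^ n * (-1) ^ k.natAbs) *
        (2 * (U (k + 1) * aeval (zl y0 k) (P.comp (-1 - X)) / ((n : ℂ) - zl y0 k)).re) : ℝ) :
        ℂ) := by
    rw [hA, hB]
    unfold vev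
    have c4 : aeval ((n : ℂ) + 1) P = ((P.eval ((n : ℝ) + 1) : ℝ) : ℂ) := by
      have := Polynomial.aeval_algebraMap_apply ℂ ((n : ℝ) + 1) P
      rw [Complex.coe_algebraMap] at this
      push_cast at this
      rw [this]
      simp
    have c5 : aeval (-((n : ℂ) + 1)) P = ((P.eval (-1 - (n : ℝ)) : ℝ) : ℂ) := by
      have := Polynomial.aeval_algebraMap_apply ℂ (-1 - (n : ℝ)) P
      rw [Complex.coe_algebraMap] at this
      push_cast at this
      rw [show -((n : ℂ) + 1) = -1 - (n : ℂ) by ring, this]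
      simp
    rw [c4, c5]
    have hi := hr.int n
    push_cast
    rw [hi]
    ring
  rw [hval]
  refine HC.congr_fun ?_
  intro j
  exact (fold_term hr hL hs P n j a b g (fun k => rfl)).symm

end T2
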