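import Pool.Agent.T2.RuleA0
import Pool.Agent.T2.RowB

/-!
# T2, class rule A: the determinant of the value rows

`ruleA_of_rows` : from the decomposition of the rows (`RowDec`, supplied by the transfer) and the
integrality of the parts `R_1`, `R_2` on the good pairs.
-/

set_option autoImplicit false

namespace T2

open Finset Matrix Polynomial QS2 QS2.Cls QS2.Cls.Base
open Pool.Agent.QS2 (pairMat det_basis_change)

variable {p : ℕ} [hp : Fact p.Prime]

/-- decomposition of the values at `z = c + p k` of the nice pairs -/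
structure RowDec (p : ℕ) [Fact p.Prime] (w : ℤ → K) (z : ℤ) (c : ℕ) (k : ℤ) (x : K) : Prop where
  hz : z = p * k + (c : ℕ)
  hx : x ∈ Op p
  dec : ∀ P Q : K[X], P.eval ((c : K) + p * k) ∈ Op p → Q.eval ((c : K) + p * k) ∈ Op p →
    ∀ h0 h1 h2 r : K, r ∈ Op p →
    P.eval ((c : K) + p * k) * (trA K c).eval ((p : K) * k)
      + Q.eval ((c : K) + p * k) * (trA K (c + 1)).eval ((p : K) * k)
      = h0 + h1 * (p * k) + h2 * (p * k) ^ 2 + p ^ 3 * r →
    ∃ B ∈ Op p, (p : K) ^ 3 * (P.eval ((c : K) + p * k) * w z +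
        ((X + 1) ^ 3 * Q).eval ((c : K) + p * k) * w (z + 1)) =
      x * h0 + p * ((k * x) * h1) + p ^ 2 * ((k ^ 2 * x) * h2) + p ^ 3 * B

/-- integrality of the sheets on the columns -/
structure SheetInt (p : ℕ) [Fact p.Prime] (LA LB : Fin 2 → K[X] →ₗ[K] K[X]) (P Q : ℕ → K[X]) :
    Prop where
  starA : ∀ j F, LA j (F.map (starRingEnd K)) = (LA j F).map (starRingEnd K)
  starB : ∀ j F, LB j (F.map (starRingEnd K)) = (LB j F).map (starRingEnd K)
  monoA : ∀ j i (n : ℤ), (LA j (X ^ i)).eval (n : K) ∈ Op p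
  monoB : ∀ j i (n : ℤ), (LB j (X ^ i)).eval (n : K) ∈ Op p
  good : ∀ j D, dg p + 3 ≤ D → ∀ n : ℤ,
    (LA j (P D) + LB j ((X + 1) ^ 3 * Q D)).eval (n : K) ∈ Op p

theorem SheetInt.cube {LA LB : Fin 2 → K[X] →ₗ[K] K[X]} {P Q : ℕ → K[X]}
    (h : SheetInt p LA LB P Q) (j : Fin 2) (i : ℕ) (n : ℤ) :
    (LB j ((X + 1) ^ 3 * X ^ i)).eval (n : K) ∈ Op p := by
  have e : ((X + 1) ^ 3 * X ^ i : K[X]) =
      X ^ (i + 3) + (3 : K) • X ^ (i + 2) + (3 : K) • X ^ (i + 1) + X ^ i := by
    rw [smul_eq_C_mul, smul_eq_C_mul]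
    have h3 : (C (3 : K) : K[X]) = 3 := map_ofNat C 3
    rw [h3]
    ring
  have h3 : (3 : K) ∈ Op p := by exact_mod_cast natCast_mem (Op p) 3
  rw [e, map_add, map_add, map_add, map_smul, map_smul, eval_add, eval_add, eval_add, eval_smul,
    eval_smul, smul_eq_mul, smul_eq_mul]
  exact (Op p).add_mem ((Op p).add_mem ((Op p).add_mem (h.monoB _ _ _)
    ((Op p).mul_mem h3 (h.monoB _ _ _))) ((Op p).mul_mem h3 (h.monoB _ _ _))) (h.monoB _ _ _)

/-- the parts `R_j` are integral at the integers on all the columns -/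
theorem SheetInt.col {LA LB : Fin 2 → K[X] →ₗ[K] K[X]} {P Q : ℕ → K[X]}
    (h : SheetInt p LA LB P Q) (j : Fin 2) {A : ℕ} (s : Fin A ⊕ Fin A) (n : ℤ) :
    (LA j (colP p A A P s) + LB j (colQ p A A Q s)).eval (n : K) ∈ Op p := by
  rcases s with D | D
  · simp only [colP, colQ]
    split_ifs with h1
    · rw [map_zero, add_zero]
      exact h.monoA j _ n
    · have e : ((X + 1) ^ 3 * (Q D).map (starRingEnd K) : K[X]) =
          ((X + 1) ^ 3 * Q D).map (starRingEnd K) := by
        rw [Polynomial.map_mul, Polynomial.map_pow, Polynomial.map_add, map_X,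
          Polynomial.map_one]
      rw [e, h.starA, h.starB, ← Polynomial.map_add]
      exact int_star p (h.good j D (by omega)) n
  · simp only [colP, colQ]
    have hd : ∀ h : (D : ℕ) < 3, (D : ℕ) < dg p + 3 := fun h => by omega
    split_ifs with h1 h2 h2
    · rw [map_zero, zero_add]
      exact h.monoB j _ n
    · rw [map_zero, zero_add]
      exact h.cube j _ n
    · exact absurd (hd h2) h1
    · exact h.good j D (by omega) n

/-- **The determinant of the value rows (rule A).** -/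
theorem rows_detA {v : ℕ → K} {P Q : ℕ → K[X]} (hg : Good p v P Q)
    {w sg : ℤ → K} {cc : Fin 2 → K} {LA LB : Fin 2 → K[X] →ₗ[K] K[X]}
    (hcc : ∀ j, cc j ∈ Op p) (hsg : ∀ z, sg z ∈ Op p) (hS : SheetInt p LA LB P Q) {A : ℕ}
    {ι : Type*} [Fintype ι] [DecidableEq ι] (zz : ι → ℤ)
    (hrow : ∀ f, ∃ (c : Fin p) (k : ℤ) (x : K), RowDec p w (zz f) c k x)
    (hw3 : ∀ f, (p : K) ^ 3 * w (zz f + 1) ∈ Op p)
    (e : ι ≃ Fin A ⊕ Fin A) :
    (p : K) ^ (6 * p + 9) * ((valA w sg cc LA LB P Q p A zz).submatrix id e).det ∈ Op p := by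
  have hpK : (p : K) ∈ Op p := natCast_mem _ p
  have hp0 : (p : K) ≠ 0 := Nat.cast_ne_zero.mpr hp.out.ne_zero
  choose cl kk xr hd using hrow
  choose h0 h1 h2 m0 m1 m2 hn using fun (s : Fin A ⊕ Fin A) (b : Fin p) =>
    col_nice hg s b.2
  have hzK : ∀ f : ι, ((cl f : ℕ) : K) + p * (kk f) = ((zz f : ℤ) : K) := by
    intro f
    rw [(hd f).hz]
    push_cast
    ring
  -- the sheets
  set RR : ι → (Fin A ⊕ Fin A) → K := fun f s =>
    cc 0 * (LA 0 (colP p A A P s) + LB 0 (colQ p A A Q s)).eval ((zz f : ℤ) : K) +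
    sg (zz f) * cc 1 *
      (LA 1 (colP p A A P s) + LB 1 (colQ p A A Q s)).eval ((zz f : ℤ) : K) with hRR
  have hRm : ∀ f s, RR f s ∈ Op p := by
    intro f s
    rw [hRR]
    exact (Op p).add_mem ((Op p).mul_mem (hcc 0) (hS.col 0 s _))
      ((Op p).mul_mem ((Op p).mul_mem (hsg _) (hcc 1)) (hS.col 1 s _))
  have hval : ∀ f s, valA w sg cc LA LB P Q p A zz f s =
      (colP p A A P s).eval ((zz f : ℤ) : K) * w (zz f) +
      (colQ p A A Q s).eval ((zz f : ℤ) : K) * w (zz f + 1) + RR f s := by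
    intro f s
    unfold valA
    rw [Matrix.of_apply, rowA_apply, rowA_apply, hRR]
    simp only [eval_add]
    ring
  -- the decomposition of one entry
  have hrow : ∀ (f : ι) (s : Fin A ⊕ Fin A), ∃ B ∈ Op p,
      (p : K) ^ 3 * ((colP p A A P s).eval ((zz f : ℤ) : K) * w (zz f)
        + ((X + 1) ^ 3 * colR p A A Q s).eval ((zz f : ℤ) : K) * w (zz f + 1)
        + RR f s) =
      xr f * h0 s (cl f) + p * ((kk f * xr f) * h1 s (cl f))
        + p ^ 2 * ((kk f ^ 2 * xr f) * h2 s (cl f)) + p ^ 3 * B := by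
    intro f s
    obtain ⟨r, hr, hG⟩ := hn s (cl f) (kk f)
    have hP := colP_mem hg s (zz f)
    have hQ := colR_mem hg s (zz f)
    rw [← hzK f] at hP hQ
    obtain ⟨B, hB, hBe⟩ := (hd f).dec _ _ hP hQ _ _ _ r hr hG
    refine ⟨B + RR f s, (Op p).add_mem hB (hRm f s), ?_⟩
    rw [← hzK f]
    linear_combination hBe
  choose B hB hBe using hrow
  have hx : ∀ f : ι, xr f ∈ Op p := fun f => (hd f).hx
  refine det_classes (Op p) hpK hp0 p 3 _ cl (fun f => xr f)
    (fun f => kk f * xr f) (fun f => kk f ^ 2 * xr f)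
    (fun b j => if isC5 (e j) then 0 else h0 (e j) b)
    (fun b j => if isC5 (e j) then 0 else h1 (e j) b)
    (fun b j => if isC5 (e j) then 0 else h2 (e j) b)
    (fun f k => ((zz f : ℤ) : K) ^ (k : ℕ) * ((p : K) ^ 3 * w (zz f + 1)))
    (fun k j => match e j with
      | Sum.inl _ => 0
      | Sum.inr D => if (D : ℕ) = (k : ℕ) then 1 else 0)
    (fun f j => if isC5 (e j) then RR f (e j) else B f (e j))
    hx (fun f => (Op p).mul_mem (int_mem _) (hx f))
    (fun f => (Op p).mul_mem ((Op p).pow_mem (int_mem _) 2) (hx f))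
    (fun f k => (Op p).mul_mem ((Op p).pow_mem (int_mem _) _) (hw3 f)) ?_ ?_ ?_ ?_ ?_ ?_
  · intro b j
    split_ifs
    · exact (Op p).zero_mem
    · exact m0 _ _
  · intro b j
    split_ifs
    · exact (Op p).zero_mem
    · exact m1 _ _
  · intro b j
    split_ifs
    · exact (Op p).zero_mem
    · exact m2 _ _
  · intro k j
    rcases e j with D | D
    · exact (Op p).zero_mem
    · dsimp only
      split_ifs
      · exact (Op p).one_mem
      · exact (Op p).zero_mem
  · intro f j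
    split_ifs
    · exact hRm _ _
    · exact hB _ _
  · intro f j
    rw [Matrix.submatrix_apply, id_eq, hval]
    by_cases h5 : isC5 (e j)
    · simp only [if_pos h5, mul_zero, add_zero, zero_add]
      rcases he : e j with D | D
      · rw [he] at h5
        exact absurd h5 (by simp [isC5])
      · rw [he] at h5
        have hD : (D : ℕ) < 3 := h5
        have hD' : (D : ℕ) < dg p + 3 := by omega
        rw [show colP p A A P (Sum.inr D) = 0 from if_pos hD',
          show colQ p A A Q (Sum.inr D) = X ^ (D : ℕ) from if_pos hD]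
        simp only [eval_zero, zero_mul, zero_add, eval_pow, eval_X]
        rw [Finset.sum_eq_single (⟨(D : ℕ), hD⟩ : Fin 3)]
        · simp only [if_true, mul_one]
          ring
        · intro k _ hk
          rw [if_neg, mul_zero]
          intro h
          apply hk
          ext
          exact h.symm
        · intro h
          exact absurd (Finset.mem_univ _) h
    · simp only [if_neg h5]
      rw [colQ_eq h5, hBe f (e j)]
      have hs : ∑ k : Fin 3, ((zz f : ℤ) : K) ^ (k : ℕ) * ((p : K) ^ 3 * w (zz f + 1)) *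
          (match e j with
            | Sum.inl _ => 0
            | Sum.inr D => if (D : ℕ) = (k : ℕ) then (1 : K) else 0) = 0 := by
        apply Finset.sum_eq_zero
        intro k _
        rcases he : e j with D | D
        · dsimp only
          rw [mul_zero]
        · dsimp only
          rw [he] at h5
          have hD : ¬ (D : ℕ) < 3 := h5
          rw [if_neg, mul_zero]
          have := k.2
          omega
      rw [hs]
      ring

/-- **Rule A** (from the decomposition of the rows), arbitrary rows -/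
theorem ruleA_of_rows (hp5 : 5 ≤ p) {v : ℕ → K} {P Q : ℕ → K[X]} (hg : Good p v P Q)
    {w sg : ℤ → K} {cc : Fin 2 → K} {LA LB : Fin 2 → K[X] →ₗ[K] K[X]}
    (hcc : ∀ j, cc j ∈ Op p) (hsg : ∀ z, sg z ∈ Op p) (hS : SheetInt p LA LB P Q) {c : ℕ}
    (hc : c ≤ p ^ 2) (hM : dg p + 3 ≤ c) {ι : Type*} [Fintype ι] [DecidableEq ι] (zz : ι → ℤ)
    (hrow : ∀ f, ∃ (c : Fin p) (k : ℤ) (x : K), RowDec p w (zz f) c k x)
    (hw3 : ∀ f, (p : K) ^ 3 * w (zz f + 1) ∈ Op p) (f : ι ≃ Fin c ⊕ Fin c) :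
    (p : K) ^ (eCls c 0 p) * ((pairMat (fun a => rowA w sg cc LA (zz a))
      (fun a => rowA (fun z => w (z + 1)) sg cc LB (zz a)) (binP K) c).submatrix id f).det
        ∈ Op p := by
  have hE := eCls_spec c 0 p
  have hr := rows_detA hg hcc hsg hS zz hrow hw3 f
  exact base_changeA hp5 hg hM hc _ _ f (6 * p + 9) _ hE hr

theorem rowDec_of_seq {w r sg : ℤ → K} {m0 : K} (hw : SeqP p w r sg m0) {c : ℕ} (hc : c < p)
    {k : ℤ} (h1 : -(p : ℤ) < k) (h2 : k < p) (hk : 0 ≤ k ∨ (p * k : ℤ) + c ≤ -2) :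
    RowDec p w (p * k + c) c k (xr p w c k) := by
  refine ⟨rfl, hw.xr_mem hc h1 h2, fun P Q hP hQ g0 g1 g2 s hs h => ?_⟩
  have h0 : ((0 : K[X]).eval ((c : K) + p * k)) ∈ Op p := by
    rw [eval_zero]
    exact (Op p).zero_mem
  obtain ⟨B, hB, e⟩ := hw.row_sing hc h1 h2 hk hP hQ h0 h0 hs h
  refine ⟨B, hB, ?_⟩
  have ez : (((p * k + c : ℤ)) : K) = (c : K) + p * k := by push_cast; ring
  rw [← e]
  unfold Fv
  rw [ez, eval_zero, mul_zero, add_zero, add_zero]

/-- **Rule A** (`p ≥ 5`, `dg p + 3 ≤ c`, `A + p + 3 ≤ p ^ 2`), rows chosen by `e` -/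
theorem ruleA (hp5 : 5 ≤ p) {v : ℕ → K} {P Q : ℕ → K[X]} (hg : Good p v P Q)
    {w r sg : ℤ → K} {m0 : K} (hw : SeqP p w r sg m0)
    {cc : Fin 2 → K} {LA LB : Fin 2 → K[X] →ₗ[K] K[X]}
    (hcc : ∀ j, cc j ∈ Op p) (hS : SheetInt p LA LB P Q) {A c : ℕ}
    (hA : A + p + 3 ≤ p ^ 2) (hcA : c ≤ A) (hM : dg p + 3 ≤ c) (e : Fin c ⊕ Fin c → Nd A) :
    (p : K) ^ (eCls c 0 p) * ((designR w sg cc LA LB A c).submatrix e id).det ∈ Op p := by
  have hpz : (0 : ℤ) < p := by exact_mod_cast hp.out.pos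
  have hA' : (A : ℤ) + p + 3 ≤ (p : ℤ) ^ 2 := by exact_mod_cast hA
  have h := ruleA_of_rows (w := w) (c := c) hp5 hg hcc (fun z => hw.sg_mem z) hS (by omega) hM
    (fun a => nodeZ A (e a)) (fun g => ?_) (fun g => ?_) (Equiv.refl _)
  · rw [designR_eqA]
    exact h
  · obtain ⟨c, k, hz, h1, h2, h3⟩ := node_split (p := p) (rho := 0) (by omega) (e g)
    refine ⟨c, k, xr p w c k, ?_⟩
    rw [hz]
    exact rowDec_of_seq hw c.2 h1 h2 h3
  · apply hw.int3 <;> rcases nodeZ_bounds (e g) with hb | hb <;> nlinarith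

end T2
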