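import Pool.Agent.QS2.ClsMain
import Pool.Agent.T2.DesignR

/-!
# T2, class rule A (`p ≤ A / 3`): change of columns and determinant of the rows

The design matrix has rows at the nodes `nodeZ A f` and columns `(b_i, 0)`, `(0, b_i)`, `i < A`:
value of `P w(z) + Q w(z+1) + R_1(z) + sgn(z) R_2(z)`, where `R_1`, `R_2` are linear in `(P, Q)`.
-/

set_option autoImplicit false

namespace T2

open Finset Matrix Polynomial QS2 QS2.Cls QS2.Cls.Base
open Pool.Agent.QS2 (pairMat det_basis_change)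

/-- the `P`-part of the row at `z` -/
noncomputable def rowA (w sg : ℤ → K) (cc : Fin 2 → K) (LA : Fin 2 → K[X] →ₗ[K] K[X]) (z : ℤ) :
    K[X] →ₗ[K] K :=
  w z • leval (z : K) + cc 0 • (leval (z : K)).comp (LA 0)
    + (sg z * cc 1) • (leval (z : K)).comp (LA 1)

theorem rowA_apply (w sg : ℤ → K) (cc : Fin 2 → K) (LA : Fin 2 → K[X] →ₗ[K] K[X]) (z : ℤ)
    (P : K[X]) : rowA w sg cc LA z P =
      w z * P.eval (z : K) + cc 0 * (LA 0 P).eval (z : K) + sg z * cc 1 * (LA 1 P).eval (z : K) :=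
  rfl

/-- the design matrix in the columns `(b i, 0)`, `(0, b i)` -/
noncomputable def designB (w sg : ℤ → K) (cc : Fin 2 → K) (LA LB : Fin 2 → K[X] →ₗ[K] K[X])
    (b : ℕ → K[X]) (A c : ℕ) : Matrix (Nd A) (Fin c ⊕ Fin c) K :=
  pairMat (fun f => rowA w sg cc LA (nodeZ A f))
    (fun f => rowA (fun z => w (z + 1)) sg cc LB (nodeZ A f)) b c

theorem designR_eqA (w sg : ℤ → K) (cc : Fin 2 → K) (LA LB : Fin 2 → K[X] →ₗ[K] K[X])
    (A c : ℕ) : designR w sg cc LA LB A c = designB w sg cc LA LB (binP K) A c := by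
  refine Matrix.ext (fun f t => ?_)
  rcases t with i | i
  · change (binP K i).eval ((nodeZ A f : ℤ) : K) * w (nodeZ A f)
      + cc 0 * (LA 0 (binP K i)).eval ((nodeZ A f : ℤ) : K)
      + sg (nodeZ A f) * (cc 1 * (LA 1 (binP K i)).eval ((nodeZ A f : ℤ) : K)) =
      rowA w sg cc LA (nodeZ A f) (binP K i)
    rw [rowA_apply]
    ring
  · change (binP K i).eval ((nodeZ A f : ℤ) : K) * w (nodeZ A f + 1)
      + cc 0 * (LB 0 (binP K i)).eval ((nodeZ A f : ℤ) : K)
      + sg (nodeZ A f) * (cc 1 * (LB 1 (binP K i)).eval ((nodeZ A f : ℤ) : K)) =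
      rowA (fun z => w (z + 1)) sg cc LB (nodeZ A f) (binP K i)
    rw [rowA_apply]
    ring

/-- the values of the rows `z` on the columns `colP`, `colQ` -/
noncomputable def valA {n : Type*} (w sg : ℤ → K) (cc : Fin 2 → K)
    (LA LB : Fin 2 → K[X] →ₗ[K] K[X]) (P Q : ℕ → K[X]) (p c : ℕ) (z : n → ℤ) :
    Matrix n (Fin c ⊕ Fin c) K :=
  Matrix.of fun f s => rowA w sg cc LA (z f) (colP p c c P s)
    + rowA (fun z => w (z + 1)) sg cc LB (z f) (colQ p c c Q s)

theorem fullP_self (p A : ℕ) (P : ℕ → K[X]) (s : Fin A ⊕ Fin A) :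
    fullP p A A P s = colP p A A P s := by
  rcases s with D | D
  · have hD : ¬ A ≤ (D : ℕ) := by
      have := D.2
      omega
    simp only [fullP, colP, hD, or_false]
  · rfl

theorem fullQ_self (p A : ℕ) (Q : ℕ → K[X]) (s : Fin A ⊕ Fin A) :
    fullQ p A A Q s = colQ p A A Q s := by
  rcases s with D | D
  · have hD : ¬ A ≤ (D : ℕ) := by
      have := D.2
      omega
    simp only [fullQ, colQ, hD, or_false]
  · rfl

/-- **change of columns** (general functionals) -/
theorem base_changeA {p : ℕ} [hp : Fact p.Prime] (hp5 : 5 ≤ p) {v : ℕ → K} {P Q : ℕ → K[X]}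
    (hg : Good p v P Q) {A : ℕ} (hM : dg p + 3 ≤ A) (hc : A ≤ p ^ 2) {n : Type*} [Fintype n]
    [DecidableEq n] (L M : n → K[X] →ₗ[K] K) (f : n ≃ Fin A ⊕ Fin A) (W E : ℕ)
    (hE : Sfl p A + Sfl p A ≤ E + Sfl p (A - (dg p + 3)) + Sfl p (A - (dg p + 3)))
    (hval : (p : K) ^ W * ((Matrix.of fun a t => L a (colP p A A P t) + M a (colQ p A A Q t) :
      Matrix n (Fin A ⊕ Fin A) K).submatrix id f).det ∈ Op p) :
    (p : K) ^ (W + E) * ((pairMat L M (binP K) A).submatrix id f).det ∈ Op p := by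
  have hR := QS2SP.ploc_Op p
  have h1 := det_basis_change L M (binP K) (fun i => ((i.factorial : K)⁻¹))
    (fun i => binP_natDegree i) (fun i => binP_coeff i) f
  have h2 := det_pair_change L M (fullP p A A P) (fullQ p A A Q) (fullP_deg hg _ _)
    (fullQ_deg hg _ _) f
  have h3 : (Matrix.of fun a t => L a (fullP p A A P t) + M a (fullQ p A A Q t)) =
      (Matrix.of fun a t => L a (colP p A A P t) + M a (colQ p A A Q t) :
        Matrix n (Fin A ⊕ Fin A) K) := by
    refine Matrix.ext (fun a t => ?_)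
    rw [Matrix.of_apply, Matrix.of_apply, fullP_self, fullQ_self]
  rw [h3] at h2
  choose s hs0 hs1 hs2 using fun D : Fin A => full_lead hp5 hg A A D
  have hp0 : (p : K) ≠ 0 := Nat.cast_ne_zero.mpr hp.out.ne_zero
  set dW := ((Matrix.of fun a t => L a (colP p A A P t) + M a (colQ p A A Q t) :
      Matrix n (Fin A ⊕ Fin A) K).submatrix id f).det with hdW
  set D1 := ((pairMat L M (fun i => X ^ i) A).submatrix id f).det with hD1
  set G1 := ∏ D, leadD (fullP p A A P) (fullQ p A A Q) D with hG1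
  set S1 := ∏ D, s D with hS1
  set A2 := ∏ i ∈ range A, ((i.factorial : K)⁻¹) with hA2
  have hGS : (p : K) ^ (∑ D : Fin A, kdf p A D) * G1 = S1 := by
    rw [hG1, hS1, ← prod_pow_eq_pow_sum, ← prod_mul_distrib]
    exact prod_congr rfl (fun D _ => hs2 D)
  have hS1ne : S1 ≠ 0 := prod_ne_zero_iff.mpr (fun D _ => hs0 D)
  have hS1m : S1⁻¹ ∈ Op p := by
    rw [hS1, ← prod_inv_distrib]
    exact (Op p).prod_mem (fun D _ => hs1 D)
  have hD1e : D1 = (p : K) ^ (∑ D : Fin A, kdf p A D) * (S1⁻¹ * dW) := by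
    rw [h2]
    have : (p : K) ^ (∑ D : Fin A, kdf p A D) * (S1⁻¹ * (G1 * D1)) =
        S1⁻¹ * ((p : K) ^ (∑ D : Fin A, kdf p A D) * G1) * D1 := by ring
    rw [this, hGS, inv_mul_cancel₀ hS1ne, one_mul]
  have m1 : (p : K) ^ (Sfl p A) * A2 ∈ Op p := by
    have := prod_fac_inv_mem (k := K) hp.out hR hc
    rw [← prod_inv_distrib] at this
    exact this
  have hsum := sum_kdf p A A le_rfl hM
  have hpm : ∀ j : ℕ, (p : K) ^ j ∈ Op p := fun j => (Op p).pow_mem (natCast_mem _ p) j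
  rw [h1, hD1e]
  have e : (p : K) ^ (W + E) * (A2 ^ 2 * ((p : K) ^ (∑ D : Fin A, kdf p A D) * (S1⁻¹ * dW))) =
      (p : K) ^ (E + (∑ D : Fin A, kdf p A D) - (Sfl p A + Sfl p A)) *
        ((p : K) ^ (Sfl p A) * A2) * ((p : K) ^ (Sfl p A) * A2) * S1⁻¹ * ((p : K) ^ W * dW) := by
    have h4 : (p : K) ^ (W + E) * (p : K) ^ (∑ D : Fin A, kdf p A D) =
        (p : K) ^ (E + (∑ D : Fin A, kdf p A D) - (Sfl p A + Sfl p A)) * (p : K) ^ (Sfl p A) *
          (p : K) ^ (Sfl p A) * (p : K) ^ W := by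
      rw [← pow_add, ← pow_add, ← pow_add, ← pow_add]
      congr 1
      rw [hsum] at *
      omega
    linear_combination (A2 ^ 2 * (S1⁻¹ * dW)) * h4
  rw [e]
  exact (Op p).mul_mem ((Op p).mul_mem ((Op p).mul_mem ((Op p).mul_mem (hpm _) m1) m1) hS1m) hval

/-! ## The basis of rule B -/

/-- `P`-part of the columns `(w^D, 0)`, `(0, w^D)` (`D < 3`), `(0, (w+1)^3 w^(D-3))` -/
noncomputable def colPB (A : ℕ) : Fin A ⊕ Fin A → K[X]
  | Sum.inl D => X ^ (D : ℕ)
  | Sum.inr _ => 0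

/-- `Q`-part of the same columns -/
noncomputable def colQB (A : ℕ) : Fin A ⊕ Fin A → K[X]
  | Sum.inl _ => 0
  | Sum.inr D => if (D : ℕ) < 3 then X ^ (D : ℕ) else (X + 1) ^ 3 * X ^ ((D : ℕ) - 3)

/-- **change of columns, rule B** -/
theorem base_changeB {p : ℕ} [hp : Fact p.Prime] {A : ℕ} (hc : A ≤ p ^ 2) {n : Type*} [Fintype n]
    [DecidableEq n] (L M : n → K[X] →ₗ[K] K) (f : n ≃ Fin A ⊕ Fin A) (W : ℕ)
    (hval : (p : K) ^ W * ((Matrix.of fun a t => L a (colPB A t) + M a (colQB A t) :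
      Matrix n (Fin A ⊕ Fin A) K).submatrix id f).det ∈ Op p) :
    (p : K) ^ (W + 2 * Sfl p A) * ((pairMat L M (binP K) A).submatrix id f).det ∈ Op p := by
  have hR := QS2SP.ploc_Op p
  have h1 := det_basis_change L M (binP K) (fun i => ((i.factorial : K)⁻¹))
    (fun i => binP_natDegree i) (fun i => binP_coeff i) f
  have hQd : ∀ D : Fin A, ((if (D : ℕ) < 3 then X ^ (D : ℕ) else
      (X + 1) ^ 3 * X ^ ((D : ℕ) - 3) : K[X])).natDegree ≤ (D : ℕ) := by
    intro D
    split_ifs with h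
    · exact natDegree_X_pow_le _
    · exact cube_natDegree (by omega) (natDegree_X_pow_le _)
  have h2 := det_pair_change L M (colPB A) (colQB A)
    (fun t => by
      rcases t with D | D
      · exact natDegree_X_pow_le _
      · simp [colPB])
    (fun t => by
      rcases t with D | D
      · simp [colQB]
      · exact hQd D) f
  have h3 : ∀ D : Fin A, leadD (colPB A) (colQB A) D = 1 := by
    intro D
    have e1 : (colPB A (Sum.inl D)).coeff D = 1 := by
      change (X ^ (D : ℕ) : K[X]).coeff (D : ℕ) = 1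
      rw [coeff_X_pow_self]
    have e2 : (colQB A (Sum.inr D)).coeff D = 1 := by
      change ((if (D : ℕ) < 3 then X ^ (D : ℕ) else
        (X + 1) ^ 3 * X ^ ((D : ℕ) - 3) : K[X])).coeff (D : ℕ) = 1
      split_ifs with h
      · rw [coeff_X_pow_self]
      · rw [cube_coeff (by omega) (natDegree_X_pow_le _), coeff_X_pow_self]
    have e3 : (colPB A (Sum.inr D)).coeff D = 0 := by
      change (0 : K[X]).coeff (D : ℕ) = 0
      rw [coeff_zero]
    unfold leadD
    rw [e1, e2, e3]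
    ring
  rw [prod_congr rfl (fun D _ => h3 D), prod_const_one, one_mul] at h2
  have m1 : (p : K) ^ (Sfl p A) * ∏ i ∈ range A, ((i.factorial : K)⁻¹) ∈ Op p := by
    have := prod_fac_inv_mem (k := K) hp.out hR hc
    rw [← prod_inv_distrib] at this
    exact this
  rw [h1, ← h2]
  rw [show (p : K) ^ (W + 2 * Sfl p A) * ((∏ i ∈ range A, ((i.factorial : K)⁻¹)) ^ 2 *
      ((Matrix.of fun a t => L a (colPB A t) + M a (colQB A t) :
        Matrix n (Fin A ⊕ Fin A) K).submatrix id f).det) =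
      ((p : K) ^ (Sfl p A) * ∏ i ∈ range A, ((i.factorial : K)⁻¹)) *
        ((p : K) ^ (Sfl p A) * ∏ i ∈ range A, ((i.factorial : K)⁻¹)) *
        ((p : K) ^ W * ((Matrix.of fun a t => L a (colPB A t) + M a (colQB A t) :
          Matrix n (Fin A ⊕ Fin A) K).submatrix id f).det) by
    rw [pow_add, two_mul, pow_add]
    ring]
  exact (Op p).mul_mem ((Op p).mul_mem m1 m1) hval

end T2
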