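import Pool.Agent.T2.SeqZ
import Pool.Agent.T2.DesignC

/-!
# T2: rule B for the concrete determinant `detC`
-/

set_option autoImplicit false

namespace T2

open Finset QS2 QS2.Cls

variable {p : ℕ} [hp : Fact p.Prime]

/-- **Rule B for `detC`.** -/
theorem ruleB1_C (hp5 : 5 ≤ p) (x : Fin 4 → ℤ) {A c : ℕ} (hc : c ≤ A) (hA : A + p + 3 ≤ p ^ 2)
    (e : Fin c ⊕ Fin c → Nd A) (he : Function.Injective e) :
    ∃ t ∈ Zp p, (p : ℚ) ^ (2 * Sfl p c + 9 + ∑ a ∈ range p, eC (sB A p a)) *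
      detC x A c e = p ^ (nB A p - (2 * A - 2 * c)) * t :=
  ruleB1_detQ hp5 (sQ_mem hp5) (sQ1_mem hp5) hc hA e he

/-- **Rule B for `detC`, `A + 3 ≤ p`.** -/
theorem ruleB2_C (hp5 : 5 ≤ p) (x : Fin 4 → ℤ) {A c : ℕ} (hc : c ≤ A) (hA : A + 3 ≤ p)
    (e : Fin c ⊕ Fin c → Nd A) (he : Function.Injective e) :
    ∃ t ∈ Zp p, detC x A c e = p ^ ((2 * A + 3 - p) - (2 * A - 2 * c)) * t :=
  ruleB2_detQ hp5 (sQ_mem hp5) (sQ1_mem hp5) hc hA e he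

/-- rule B as a statement on denominators -/
theorem ruleB1_den (hp5 : 5 ≤ p) (x : Fin 4 → ℤ) {A c : ℕ} (hc : c ≤ A)
    (hA : A + p + 3 ≤ p ^ 2) (e : Fin c ⊕ Fin c → Nd A) (he : Function.Injective e) :
    ¬ p ∣ ((p : ℚ) ^ (((2 * Sfl p c + 9 + ∑ a ∈ range p, eC (sB A p a) : ℕ) : ℤ) -
      ((nB A p - (2 * A - 2 * c) : ℕ) : ℤ)) * detC x A c e).den :=
  den_of_Zp (ruleB1_C hp5 x hc hA e he)

/-- rule B for `A + 3 ≤ p` as a statement on denominators -/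
theorem ruleB2_den (hp5 : 5 ≤ p) (x : Fin 4 → ℤ) {A c : ℕ} (hc : c ≤ A) (hA : A + 3 ≤ p)
    (e : Fin c ⊕ Fin c → Nd A) (he : Function.Injective e) :
    ¬ p ∣ ((p : ℚ) ^ (-(((2 * A + 3 - p) - (2 * A - 2 * c) : ℕ) : ℤ)) * detC x A c e).den := by
  have h : ∃ t ∈ Zp p, (p : ℚ) ^ 0 * detC x A c e =
      p ^ ((2 * A + 3 - p) - (2 * A - 2 * c)) * t := by
    obtain ⟨t, ht, e'⟩ := ruleB2_C hp5 x hc hA e he
    exact ⟨t, ht, by rw [pow_zero, one_mul]; exact e'⟩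
  have h2 := den_of_Zp h
  rw [Nat.cast_zero, zero_sub] at h2
  exact h2

end T2
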