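import Pool.Agent.T2.SLint

/-!
# T2, limit part 4: the sheets `cs ε n`, their recurrence and their remainders

`ε = 1`: the `ζ(2)` sheet (`8 cs 1 n = c_n`); `ε = -1`: the `L(2, χ_{-3})` sheet.
-/

set_option autoImplicit false

namespace T2

open Finset Filter Topology QS2

/-- `(1/6) ∑_{m<n} ε^m (2m+1) (a_m b_n - a_n b_m)` -/
def cs (ε : ℚ) (n : ℕ) : ℚ :=
  1 / 6 * ∑ m ∈ range n, ε ^ m * (2 * (m : ℚ) + 1) * (aperyA m * aperyB n - aperyA n * aperyB m)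

lemma cs_zero (ε : ℚ) : cs ε 0 = 0 := by simp [cs]

lemma cs_one (ε : ℚ) : cs ε 1 = 1 := by
  simp [cs, aperyA_zero, aperyB_zero, aperyB_one]

/-- the inhomogeneous recurrence -/
theorem cs_rec (ε : ℚ) (N : ℕ) : ((N : ℚ) + 2) ^ 3 * cs ε (N + 2) =
    ap ((N : ℚ) + 1) * cs ε (N + 1) - ((N : ℚ) + 1) ^ 3 * cs ε N +
      ε ^ (N + 1) * (2 * ((N : ℚ) + 1) + 1) := by
  set K : ℕ → ℕ → ℚ := fun m n => aperyA m * aperyB n - aperyA n * aperyB m with hK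
  have hKr : ∀ m, ((N : ℚ) + 2) ^ 3 * K m (N + 2) = ap ((N : ℚ) + 1) * K m (N + 1) -
      ((N : ℚ) + 1) ^ 3 * K m N := by
    intro m
    simp only [hK]
    linear_combination aperyA m * aperyB_rec N - aperyB m * aperyA_rec N
  have hd : ((N : ℚ) + 1) ^ 3 ≠ 0 := by positivity
  have hcas : K (N + 1) N = -(6 / ((N : ℚ) + 1) ^ 3) := by
    simp only [hK]
    have := casoratian N
    linarith
  have h2 : cs ε (N + 2) = 1 / 6 * ∑ m ∈ range (N + 2), ε ^ m * (2 * (m : ℚ) + 1) * K m (N + 2) :=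
    rfl
  have h1 : cs ε (N + 1) = 1 / 6 * ∑ m ∈ range (N + 2), ε ^ m * (2 * (m : ℚ) + 1) *
      K m (N + 1) := by
    rw [Finset.sum_range_succ _ (N + 1)]
    have : K (N + 1) (N + 1) = 0 := by simp only [hK]; ring
    rw [this, mul_zero, add_zero]
    rfl
  have h0 : cs ε N = 1 / 6 * (∑ m ∈ range (N + 2), ε ^ m * (2 * (m : ℚ) + 1) * K m N -
      ε ^ (N + 1) * (2 * ((N : ℚ) + 1) + 1) * K (N + 1) N) := by
    rw [Finset.sum_range_succ _ (N + 1), Finset.sum_range_succ _ N]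
    have : K N N = 0 := by simp only [hK]; ring
    rw [this, mul_zero, add_zero]
    push_cast
    rw [add_sub_cancel_right]
    rfl
  have hsum : ((N : ℚ) + 2) ^ 3 * (∑ m ∈ range (N + 2), ε ^ m * (2 * (m : ℚ) + 1) * K m (N + 2)) =
      ap ((N : ℚ) + 1) * (∑ m ∈ range (N + 2), ε ^ m * (2 * (m : ℚ) + 1) * K m (N + 1)) -
      ((N : ℚ) + 1) ^ 3 * (∑ m ∈ range (N + 2), ε ^ m * (2 * (m : ℚ) + 1) * K m N) := by
    rw [Finset.mul_sum, Finset.mul_sum, Finset.mul_sum, ← Finset.sum_sub_distrib]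
    refine Finset.sum_congr rfl (fun m _ => ?_)
    linear_combination ε ^ m * (2 * (m : ℚ) + 1) * hKr m
  rw [h2, h1, h0, hcas]
  have h3 : ((N : ℚ) + 1) ^ 3 * (6 / ((N : ℚ) + 1) ^ 3) = 6 := mul_div_cancel₀ _ hd
  linear_combination 1 / 6 * hsum + 1 / 6 * ε ^ (N + 1) * (2 * ((N : ℚ) + 1) + 1) * h3

/-- the recurrence with `n ≥ 1` -/
theorem cs_rec' (ε : ℚ) (n : ℕ) (hn : 1 ≤ n) : ((n : ℚ) + 1) ^ 3 * cs ε (n + 1) =
    ap (n : ℚ) * cs ε n - (n : ℚ) ^ 3 * cs ε (n - 1) + ε ^ n * (2 * (n : ℚ) + 1) := by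
  obtain ⟨m, rfl⟩ : ∃ m, n = m + 1 := ⟨n - 1, by omega⟩
  have h := cs_rec ε m
  push_cast
  rw [show m + 1 + 1 = m + 2 from rfl, show (m : ℚ) + 1 + 1 = m + 2 by ring]
  exact h

/-! ### remainders -/

/-- `ζ(2)`-sheet and `L(2,χ_{-3})`-sheet constants: `(1/6) ∑ ε^m (2m+1) l_m` -/
noncomputable def Lam (ε : ℝ) : ℝ := 1 / 6 * ∑' m : ℕ, ε ^ m * (2 * (m : ℝ) + 1) * lrem m

theorem Lam_one : Lam 1 = Real.pi ^ 2 / 48 := by
  unfold Lam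
  simp only [one_pow, one_mul]
  rw [hasSum_plus'.tsum_eq]
  ring

theorem Lam_neg_one : Lam (-1) = L3 / 4 := by
  unfold Lam
  rw [hasSum_minus'.tsum_eq]
  ring

theorem summable_lrem (ε : ℝ) (hε : |ε| = 1) :
    Summable (fun m : ℕ => ε ^ m * (2 * (m : ℝ) + 1) * lrem m) := (tsum_lrem ε hε).summable

/-- exact remainder -/
theorem rem_eq (ε : ℚ) (hε : |(ε : ℝ)| = 1) (n : ℕ) :
    ((aperyA n : ℚ) : ℝ) * Lam (ε : ℝ) - ((cs ε n : ℚ) : ℝ) =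
      1 / 6 * (lrem n * ∑ m ∈ range n, (ε : ℝ) ^ m * (2 * (m : ℝ) + 1) * ((aperyA m : ℚ) : ℝ) +
        ((aperyA n : ℚ) : ℝ) * ∑' m : ℕ, (ε : ℝ) ^ (m + n) * (2 * ((m + n : ℕ) : ℝ) + 1) *
          lrem (m + n)) := by
  have hs := summable_lrem (ε : ℝ) hε
  have h1 : Lam (ε : ℝ) = 1 / 6 * (∑ m ∈ range n, (ε : ℝ) ^ m * (2 * (m : ℝ) + 1) * lrem m +
      ∑' m : ℕ, (ε : ℝ) ^ (m + n) * (2 * ((m + n : ℕ) : ℝ) + 1) * lrem (m + n)) := by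
    unfold Lam
    rw [← hs.sum_add_tsum_nat_add n]
  rw [h1]
  have h2 : ((cs ε n : ℚ) : ℝ) = 1 / 6 * ∑ m ∈ range n, (ε : ℝ) ^ m * (2 * (m : ℝ) + 1) *
      (((aperyA m : ℚ) : ℝ) * ((aperyB n : ℚ) : ℝ) -
        ((aperyA n : ℚ) : ℝ) * ((aperyB m : ℚ) : ℝ)) := by
    unfold cs
    push_cast
    rfl
  rw [h2]
  have h3 : ∑ m ∈ range n, (ε : ℝ) ^ m * (2 * (m : ℝ) + 1) *
      (((aperyA m : ℚ) : ℝ) * ((aperyB n : ℚ) : ℝ) -
        ((aperyA n : ℚ) : ℝ) * ((aperyB m : ℚ) : ℝ)) =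
      ((aperyA n : ℚ) : ℝ) * (∑ m ∈ range n, (ε : ℝ) ^ m * (2 * (m : ℝ) + 1) * lrem m) -
      lrem n * ∑ m ∈ range n, (ε : ℝ) ^ m * (2 * (m : ℝ) + 1) * ((aperyA m : ℚ) : ℝ) := by
    rw [Finset.mul_sum, Finset.mul_sum, ← Finset.sum_sub_distrib]
    refine Finset.sum_congr rfl (fun m _ => ?_)
    unfold lrem
    ring
  rw [h3]
  ring

/-- `a_m` is monotone -/
lemma aperyA_mono : Monotone aperyA := by
  refine monotone_nat_of_le_succ (fun n => ?_)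
  rw [aperyA_eq, aperyA_eq, Finset.sum_range_succ _ (n + 1)]
  have h1 : ∑ k ∈ range (n + 1), tb n k ≤ ∑ k ∈ range (n + 1), tb (n + 1) k := by
    refine Finset.sum_le_sum (fun k _ => ?_)
    unfold tb
    have e1 : ((n.choose k : ℕ) : ℚ) ≤ (((n + 1).choose k : ℕ) : ℚ) := by
      exact_mod_cast Nat.choose_le_choose k (Nat.le_succ n)
    have e2 : (((n + k).choose k : ℕ) : ℚ) ≤ (((n + 1 + k).choose k : ℕ) : ℚ) := by
      exact_mod_cast Nat.choose_le_choose k (by omega)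
    exact mul_le_mul (pow_le_pow_left₀ (by positivity) e1 2) (pow_le_pow_left₀ (by positivity) e2 2)
      (by positivity) (by positivity)
  have h2 : 0 ≤ tb (n + 1) (n + 1) := by unfold tb; positivity
  linarith

/-- `a_{n+1} l_n ≤ 8` -/
theorem lrem_bound (n : ℕ) : ((aperyA (n + 1) : ℚ) : ℝ) * lrem n ≤ 6 * zeta3 := by
  have hA : ∀ m, (0 : ℝ) < ((aperyA m : ℚ) : ℝ) := fun m => by exact_mod_cast aperyA_pos m
  have hm : ∀ m k, m ≤ k → ((aperyA m : ℚ) : ℝ) ≤ ((aperyA k : ℚ) : ℝ) := fun m k h => by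
    exact_mod_cast aperyA_mono h
  have h := hasSum_lrem' n
  have h1 : HasSum (fun k : ℕ => ((aperyA (n + 1) : ℚ) : ℝ) * ((aperyA n : ℚ) : ℝ) *
      ((6 : ℝ) / (((n + k : ℕ) + 1 : ℝ) ^ 3 * (aperyA (n + k) : ℚ) * (aperyA (n + k + 1) : ℚ))))
      (((aperyA (n + 1) : ℚ) : ℝ) * lrem n) := by
    have h8 := h.mul_left (((aperyA (n + 1) : ℚ) : ℝ) * ((aperyA n : ℚ) : ℝ))
    have h9 : ((aperyA (n + 1) : ℚ) : ℝ) * ((aperyA n : ℚ) : ℝ) *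
        (lrem n / ((aperyA n : ℚ) : ℝ)) = ((aperyA (n + 1) : ℚ) : ℝ) * lrem n := by
      rw [mul_assoc, mul_div_cancel₀ _ (hA n).ne']
    rw [h9] at h8
    exact h8
  have h2 : HasSum (fun k : ℕ => 6 * (1 / ((k : ℝ) + 1) ^ 3)) (6 * zeta3) :=
    summable_cube.hasSum.mul_left 6
  refine hasSum_le (fun k => ?_) h1 h2
  have a1 := hm n (n + k) (by omega)
  have a2 := hm (n + 1) (n + k + 1) (by omega)
  have a3 : ((k : ℝ) + 1) ^ 3 ≤ (((n + k : ℕ) : ℝ) + 1) ^ 3 := by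
    refine pow_le_pow_left₀ (by positivity) ?_ 3
    push_cast
    linarith [(Nat.cast_nonneg n : (0 : ℝ) ≤ n)]
  have b1 := hA n
  have b2 := hA (n + 1)
  have b3 := hA (n + k)
  have b4 := hA (n + k + 1)
  rw [mul_one_div, mul_div_assoc', div_le_div_iff₀ (by positivity) (by positivity)]
  have c1 : ((aperyA (n + 1) : ℚ) : ℝ) * ((aperyA n : ℚ) : ℝ) ≤
      ((aperyA (n + k) : ℚ) : ℝ) * ((aperyA (n + k + 1) : ℚ) : ℝ) := by
    rw [mul_comm]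
    exact mul_le_mul a1 a2 b2.le b3.le
  calc ((aperyA (n + 1) : ℚ) : ℝ) * ((aperyA n : ℚ) : ℝ) * 6 * ((k : ℝ) + 1) ^ 3
      ≤ (((aperyA (n + k) : ℚ) : ℝ) * ((aperyA (n + k + 1) : ℚ) : ℝ)) * 6 *
          (((n + k : ℕ) : ℝ) + 1) ^ 3 := by
        refine mul_le_mul (mul_le_mul_of_nonneg_right c1 (by norm_num)) a3 (by positivity)
          (by positivity)
    _ = 6 * ((((n + k : ℕ) : ℝ) + 1) ^ 3 * ((aperyA (n + k) : ℚ) : ℝ) *
          ((aperyA (n + k + 1) : ℚ) : ℝ)) := by ring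

end T2
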