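import Mathlib
import Pool.Agent.QS2.AperyRec

/-!
# T2, limit part 1: the kernel `q_n(t) = (t-1)…(t-n) / (t (t+1) … (t+n))`

`R_n = q_n^2`; bounds, shift, Zudilin's certificate, and `∑_{t ≥ 1} R_n'(t) = -2 (a_n ζ(3) - b_n)`.
-/

set_option autoImplicit false

namespace T2

open Finset Filter Topology

/-- `q_n(t)` -/
noncomputable def q : ℕ → ℝ → ℝ
  | 0, t => 1 / t
  | n + 1, t => q n t * ((t - (n + 1)) / (t + (n + 1)))

/-- `q_n'(t)` -/
noncomputable def dq : ℕ → ℝ → ℝ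
  | 0, t => -1 / t ^ 2
  | n + 1, t => dq n t * ((t - (n + 1)) / (t + (n + 1))) +
      q n t * (2 * (n + 1) / (t + (n + 1)) ^ 2)

/-- `R_n'(t) = 2 q_n q_n'` -/
noncomputable def dR (n : ℕ) (t : ℝ) : ℝ := 2 * q n t * dq n t

lemma q_zero (t : ℝ) : q 0 t = 1 / t := rfl
lemma q_succ (n : ℕ) (t : ℝ) : q (n + 1) t = q n t * ((t - (n + 1)) / (t + (n + 1))) := rfl
lemma dq_zero (t : ℝ) : dq 0 t = -1 / t ^ 2 := rfl
lemma dq_succ (n : ℕ) (t : ℝ) : dq (n + 1) t = dq n t * ((t - (n + 1)) / (t + (n + 1))) +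
      q n t * (2 * (n + 1) / (t + (n + 1)) ^ 2) := rfl

lemma hasDerivAt_fac (n : ℕ) {t : ℝ} (ht : 0 < t) :
    HasDerivAt (fun t : ℝ => (t - (n + 1)) / (t + (n + 1))) (2 * (n + 1) / (t + (n + 1)) ^ 2) t := by
  have hp : t + ((n : ℝ) + 1) ≠ 0 := by positivity
  have h := ((hasDerivAt_id t).sub_const ((n : ℝ) + 1)).div
    ((hasDerivAt_id t).add_const ((n : ℝ) + 1)) hp
  refine h.congr_deriv ?_
  simp only [id]
  congr 1
  ring

lemma hasDerivAt_q (n : ℕ) {t : ℝ} (ht : 0 < t) : HasDerivAt (q n) (dq n t) t := by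
  induction n with
  | zero =>
    have h := (hasDerivAt_inv ht.ne')
    have e : q 0 = fun t : ℝ => t⁻¹ := by
      ext t; rw [q_zero, one_div]
    rw [e, dq_zero]
    refine h.congr_deriv ?_
    rw [neg_div, one_div]
  | succ n ih =>
    have h := ih.mul (hasDerivAt_fac n ht)
    exact h

lemma hasDerivAt_R (n : ℕ) {t : ℝ} (ht : 0 < t) :
    HasDerivAt (fun t => q n t ^ 2) (dR n t) t := by
  have h := (hasDerivAt_q n ht).pow 2
  refine h.congr_deriv ?_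
  unfold dR
  simp

lemma fac_abs (n : ℕ) {t : ℝ} (ht : 0 < t) : |(t - (n + 1)) / (t + (n + 1))| ≤ 1 := by
  have hp : 0 < t + ((n : ℝ) + 1) := by positivity
  rw [abs_div, abs_of_pos hp, div_le_one hp, abs_le]
  constructor <;> linarith [(Nat.cast_nonneg n : (0 : ℝ) ≤ n)]

lemma q_abs (n : ℕ) {t : ℝ} (ht : 0 < t) : |q n t| ≤ 1 / t := by
  induction n with
  | zero => rw [q_zero, abs_of_pos (by positivity)]
  | succ n ih =>
    rw [q_succ, abs_mul]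
    calc |q n t| * |(t - (n + 1)) / (t + (n + 1))| ≤ 1 / t * 1 :=
          mul_le_mul ih (fac_abs n ht) (abs_nonneg _) (by positivity)
      _ = 1 / t := mul_one _

lemma dq_abs (n : ℕ) {t : ℝ} (ht : 0 < t) : |dq n t| ≤ (2 * n + 1) / t ^ 2 := by
  induction n with
  | zero =>
    rw [dq_zero, neg_div, abs_neg, abs_of_pos (by positivity)]
    simp
  | succ n ih =>
    rw [dq_succ]
    have hp : 0 < t + ((n : ℝ) + 1) := by positivity
    refine (abs_add_le _ _).trans ?_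
    rw [abs_mul, abs_mul]
    have h1 : |dq n t| * |(t - (n + 1)) / (t + (n + 1))| ≤ (2 * n + 1) / t ^ 2 * 1 :=
      mul_le_mul ih (fac_abs n ht) (abs_nonneg _) (by positivity)
    have h2 : |2 * ((n : ℝ) + 1) / (t + (n + 1)) ^ 2| ≤ 2 / t := by
      rw [abs_of_pos (by positivity), div_le_div_iff₀ (by positivity) ht]
      nlinarith [mul_pos ht hp, (Nat.cast_nonneg n : (0 : ℝ) ≤ n), sq_nonneg t]
    have h3 : |q n t| * |2 * ((n : ℝ) + 1) / (t + (n + 1)) ^ 2| ≤ 1 / t * (2 / t) :=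
      mul_le_mul (q_abs n ht) h2 (abs_nonneg _) (by positivity)
    have h4 : (2 * (n : ℝ) + 1) / t ^ 2 * 1 + 1 / t * (2 / t) = (2 * ((n + 1 : ℕ) : ℝ) + 1) / t ^ 2 := by
      push_cast
      field_simp
      ring
    linarith

lemma dR_abs (n : ℕ) {t : ℝ} (ht : 0 < t) : |dR n t| ≤ 2 * (2 * n + 1) / t ^ 3 := by
  unfold dR
  rw [abs_mul, abs_mul, abs_two]
  calc 2 * |q n t| * |dq n t| ≤ 2 * (1 / t) * ((2 * n + 1) / t ^ 2) := by
        refine mul_le_mul (mul_le_mul_of_nonneg_left (q_abs n ht) (by norm_num)) (dq_abs n ht)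
          (abs_nonneg _) (by positivity)
    _ = _ := by field_simp

/-- zeros at the integers `1, …, n` -/
lemma q_int_zero {n m : ℕ} (h1 : 1 ≤ m) (h2 : m ≤ n) : q n (m : ℝ) = 0 := by
  induction n with
  | zero => omega
  | succ n ih =>
    rw [q_succ]
    rcases Nat.lt_or_ge n m with h | h
    · have : m = n + 1 := by omega
      rw [this]
      push_cast
      simp
    · rw [ih h, zero_mul]

lemma dR_int_zero {n m : ℕ} (h1 : 1 ≤ m) (h2 : m ≤ n) : dR n (m : ℝ) = 0 := by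
  unfold dR
  rw [q_int_zero h1 h2]
  ring

/-- shift -/
lemma q_shift (n : ℕ) {t : ℝ} (ht : 0 < t) :
    q (n + 1) (t + 1) = t ^ 2 * q n t / ((t + (n + 1)) * (t + (n + 2))) := by
  induction n with
  | zero =>
    rw [q_succ, q_zero, q_zero]
    push_cast
    have h1 : t + 1 ≠ 0 := by positivity
    have h2 : t + 1 + (0 + 1) ≠ 0 := by positivity
    have h3 : t + (0 + 1) ≠ 0 := by positivity
    have h4 : t + (0 + 2) ≠ 0 := by positivity
    field_simp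
    ring
  | succ n ih =>
    rw [q_succ (n + 1), ih, q_succ n t]
    push_cast
    have h1 : t + ((n : ℝ) + 1) ≠ 0 := by positivity
    have h2 : t + ((n : ℝ) + 2) ≠ 0 := by positivity
    have h3 : t + 1 + ((n : ℝ) + 1 + 1) ≠ 0 := by positivity
    have h4 : t + ((n : ℝ) + 1 + 1) ≠ 0 := by positivity
    have h5 : t + ((n : ℝ) + 1 + 2) ≠ 0 := by positivity
    field_simp
    ring

/-- Zudilin's certificate for the Apéry recurrence -/
lemma cert (n : ℕ) {t : ℝ} (ht : 0 < t) :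
    ((n : ℝ) + 2) ^ 3 * q (n + 2) t ^ 2 - QS2.ap ((n : ℝ) + 1) * q (n + 1) t ^ 2 +
      ((n : ℝ) + 1) ^ 3 * q n t ^ 2 =
    4 * (2 * n + 3) * (-2 * (t + 1) ^ 2 + (t + 1) + (2 * n + 3) ^ 2) * q (n + 1) (t + 1) ^ 2 -
      4 * (2 * n + 3) * (-2 * t ^ 2 + t + (2 * n + 3) ^ 2) * q (n + 1) t ^ 2 := by
  rw [q_shift n ht, q_succ (n + 1) t, q_succ n t]
  unfold QS2.ap
  push_cast
  have h1 : t + ((n : ℝ) + 1) ≠ 0 := by positivity
  have h2 : t + ((n : ℝ) + 1 + 1) ≠ 0 := by positivity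
  have h3 : t + ((n : ℝ) + 2) ≠ 0 := by positivity
  field_simp
  ring

/-- the derivative of the certificate -/
lemma dcert (n : ℕ) {t : ℝ} (ht : 0 < t) :
    ((n : ℝ) + 2) ^ 3 * dR (n + 2) t - QS2.ap ((n : ℝ) + 1) * dR (n + 1) t +
      ((n : ℝ) + 1) ^ 3 * dR n t =
    (4 * (2 * n + 3) * (-4 * (t + 1) + 1) * q (n + 1) (t + 1) ^ 2 +
      4 * (2 * n + 3) * (-2 * (t + 1) ^ 2 + (t + 1) + (2 * n + 3) ^ 2) * dR (n + 1) (t + 1)) -
    (4 * (2 * n + 3) * (-4 * t + 1) * q (n + 1) t ^ 2 +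
      4 * (2 * n + 3) * (-2 * t ^ 2 + t + (2 * n + 3) ^ 2) * dR (n + 1) t) := by
  have hpoly : ∀ s : ℝ, HasDerivAt (fun s : ℝ => 4 * (2 * (n : ℝ) + 3) * (-2 * s ^ 2 + s +
      (2 * n + 3) ^ 2)) (4 * (2 * (n : ℝ) + 3) * (-4 * s + 1)) s := by
    intro s
    have h := ((((hasDerivAt_pow 2 s).const_mul (-2 : ℝ)).add (hasDerivAt_id s)).add_const
      ((2 * (n : ℝ) + 3) ^ 2)).const_mul (4 * (2 * (n : ℝ) + 3))
    refine h.congr_deriv ?_
    rw [show (2 : ℕ) - 1 = 1 from rfl, pow_one]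
    push_cast
    ring
  have hS : ∀ s : ℝ, 0 < s → HasDerivAt (fun s : ℝ => 4 * (2 * (n : ℝ) + 3) * (-2 * s ^ 2 + s +
      (2 * n + 3) ^ 2) * q (n + 1) s ^ 2) (4 * (2 * (n : ℝ) + 3) * (-4 * s + 1) *
      q (n + 1) s ^ 2 + 4 * (2 * (n : ℝ) + 3) * (-2 * s ^ 2 + s + (2 * n + 3) ^ 2) *
        dR (n + 1) s) s := by
    intro s hs
    exact (hpoly s).mul (hasDerivAt_R (n + 1) hs)
  have hL : HasDerivAt (fun t => ((n : ℝ) + 2) ^ 3 * q (n + 2) t ^ 2 -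
      QS2.ap ((n : ℝ) + 1) * q (n + 1) t ^ 2 + ((n : ℝ) + 1) ^ 3 * q n t ^ 2)
      (((n : ℝ) + 2) ^ 3 * dR (n + 2) t - QS2.ap ((n : ℝ) + 1) * dR (n + 1) t +
      ((n : ℝ) + 1) ^ 3 * dR n t) t :=
    (((hasDerivAt_R (n + 2) ht).const_mul _).sub ((hasDerivAt_R (n + 1) ht).const_mul _)).add
      ((hasDerivAt_R n ht).const_mul _)
  have hshift : HasDerivAt (fun t : ℝ => 4 * (2 * (n : ℝ) + 3) * (-2 * (t + 1) ^ 2 + (t + 1) +
      (2 * n + 3) ^ 2) * q (n + 1) (t + 1) ^ 2) (4 * (2 * (n : ℝ) + 3) * (-4 * (t + 1) + 1) *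
      q (n + 1) (t + 1) ^ 2 + 4 * (2 * (n : ℝ) + 3) * (-2 * (t + 1) ^ 2 + (t + 1) +
      (2 * n + 3) ^ 2) * dR (n + 1) (t + 1)) t := by
    have h := (hS (t + 1) (by linarith)).comp_add_const t 1
    exact h
  have hR := hshift.sub (hS t ht)
  have heq : (fun t => ((n : ℝ) + 2) ^ 3 * q (n + 2) t ^ 2 -
      QS2.ap ((n : ℝ) + 1) * q (n + 1) t ^ 2 + ((n : ℝ) + 1) ^ 3 * q n t ^ 2) =ᶠ[𝓝 t]
      (fun t : ℝ => 4 * (2 * (n : ℝ) + 3) * (-2 * (t + 1) ^ 2 + (t + 1) +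
      (2 * n + 3) ^ 2) * q (n + 1) (t + 1) ^ 2) - (fun s : ℝ => 4 * (2 * (n : ℝ) + 3) *
      (-2 * s ^ 2 + s + (2 * n + 3) ^ 2) * q (n + 1) s ^ 2) := by
    filter_upwards [lt_mem_nhds ht] with s hs
    exact cert n hs
  exact (hR.congr_of_eventuallyEq heq).unique hL |>.symm

/-- `∑_{t ≥ 1} R_n'(t)` converges absolutely -/
lemma summable_dR (n : ℕ) : Summable (fun t : ℕ => dR n ((t : ℝ) + 1)) := by
  have h1 : Summable (fun t : ℕ => 2 * (2 * (n : ℝ) + 1) * (1 / ((t : ℝ) + 1) ^ 3)) :=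
    QS2.summable_cube.mul_left _
  refine Summable.of_norm_bounded h1 (fun t => ?_)
  rw [Real.norm_eq_abs]
  refine (dR_abs n (by positivity)).trans (le_of_eq ?_)
  ring

/-- `D_n = ∑_{t ≥ 1} R_n'(t)` -/
noncomputable def D (n : ℕ) : ℝ := ∑' t : ℕ, dR n ((t : ℝ) + 1)

lemma hasSum_D (n : ℕ) : HasSum (fun t : ℕ => dR n ((t : ℝ) + 1)) (D n) := (summable_dR n).hasSum

lemma D_rec (n : ℕ) : ((n : ℝ) + 2) ^ 3 * D (n + 2) =
    QS2.ap ((n : ℝ) + 1) * D (n + 1) - ((n : ℝ) + 1) ^ 3 * D n := by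
  set S : ℕ → ℝ := fun t => 4 * (2 * (n : ℝ) + 3) * (-4 * ((t : ℝ) + 1) + 1) *
      q (n + 1) ((t : ℝ) + 1) ^ 2 +
      4 * (2 * n + 3) * (-2 * ((t : ℝ) + 1) ^ 2 + ((t : ℝ) + 1) + (2 * n + 3) ^ 2) *
        dR (n + 1) ((t : ℝ) + 1) with hS
  have hS0 : S 0 = 0 := by
    have h1 : q (n + 1) ((0 : ℕ) + 1 : ℝ) = 0 := by
      have := q_int_zero (n := n + 1) (m := 1) le_rfl (by omega)
      simpa using this
    have h2 : dR (n + 1) ((0 : ℕ) + 1 : ℝ) = 0 := by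
      have := dR_int_zero (n := n + 1) (m := 1) le_rfl (by omega)
      simpa using this
    simp only [hS]
    rw [h1, h2]
    ring
  -- `S t → 0`
  have hlim : Tendsto S atTop (𝓝 0) := by
    set c : ℝ := 4 * (2 * (n : ℝ) + 3) with hc
    have hc0 : 0 ≤ c := by positivity
    have hb : ∀ t : ℕ, |S t| ≤ (c * 5 + c * (3 + (2 * n + 3) ^ 2) * (2 * (2 * (n + 1 : ℕ) + 1))) *
        (1 / ((t : ℝ) + 1)) := by
      intro t
      have hx : (1 : ℝ) ≤ (t : ℝ) + 1 := by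
        have := Nat.cast_nonneg (α := ℝ) t
        linarith
      set x : ℝ := (t : ℝ) + 1 with hxd
      have hx0 : 0 < x := by linarith
      have hq := q_abs (n + 1) hx0
      have hd := dR_abs (n + 1) hx0
      have e1 : |c * (-4 * x + 1) * q (n + 1) x ^ 2| ≤ c * 5 * (1 / x) := by
        rw [abs_mul, abs_mul, abs_of_nonneg hc0, abs_pow]
        have h1 : |-4 * x + 1| ≤ 5 * x := by
          rw [abs_le]; constructor <;> linarith
        have h2 : |q (n + 1) x| ^ 2 ≤ (1 / x) ^ 2 := pow_le_pow_left₀ (abs_nonneg _) hq 2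
        calc c * |-4 * x + 1| * |q (n + 1) x| ^ 2 ≤ c * (5 * x) * (1 / x) ^ 2 :=
              mul_le_mul (mul_le_mul_of_nonneg_left h1 hc0) h2 (by positivity) (by positivity)
          _ = c * 5 * (1 / x) := by field_simp
      have e2 : |c * (-2 * x ^ 2 + x + (2 * n + 3) ^ 2) * dR (n + 1) x| ≤
          c * (3 + (2 * n + 3) ^ 2) * (2 * (2 * (n + 1 : ℕ) + 1)) * (1 / x) := by
        rw [abs_mul, abs_mul, abs_of_nonneg hc0]
        have h1 : |-2 * x ^ 2 + x + (2 * (n : ℝ) + 3) ^ 2| ≤ (3 + (2 * n + 3) ^ 2) * x ^ 2 := by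
          have h3 : x ≤ x ^ 2 := by nlinarith
          have h4 : 0 ≤ (2 * (n : ℝ) + 3) ^ 2 := by positivity
          have h5 : (2 * (n : ℝ) + 3) ^ 2 ≤ (2 * (n : ℝ) + 3) ^ 2 * x ^ 2 := by nlinarith
          rw [abs_le]
          constructor <;> nlinarith
        calc c * |-2 * x ^ 2 + x + (2 * (n : ℝ) + 3) ^ 2| * |dR (n + 1) x|
            ≤ c * ((3 + (2 * n + 3) ^ 2) * x ^ 2) * (2 * (2 * (n + 1 : ℕ) + 1) / x ^ 3) :=
              mul_le_mul (mul_le_mul_of_nonneg_left h1 hc0) hd (abs_nonneg _) (by positivity)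
          _ = _ := by field_simp
      calc |S t| ≤ |c * (-4 * x + 1) * q (n + 1) x ^ 2| +
            |c * (-2 * x ^ 2 + x + (2 * n + 3) ^ 2) * dR (n + 1) x| := abs_add_le _ _
        _ ≤ _ := by
            rw [add_mul]
            exact add_le_add e1 e2
    have h1 : Tendsto (fun t : ℕ => (c * 5 + c * (3 + (2 * n + 3) ^ 2) *
        (2 * (2 * (n + 1 : ℕ) + 1))) * (1 / ((t : ℝ) + 1))) atTop (𝓝 0) := by
      have := (tendsto_one_div_add_atTop_nhds_zero_nat (𝕜 := ℝ)).const_mul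
        (c * 5 + c * (3 + (2 * (n : ℝ) + 3) ^ 2) * (2 * (2 * ((n + 1 : ℕ) : ℝ) + 1)))
      simpa using this
    exact squeeze_zero_norm (fun t => by rw [Real.norm_eq_abs]; exact hb t) h1
  -- the telescoping sum
  have hsum : HasSum (fun t : ℕ => ((n : ℝ) + 2) ^ 3 * dR (n + 2) ((t : ℝ) + 1) -
      QS2.ap ((n : ℝ) + 1) * dR (n + 1) ((t : ℝ) + 1) +
      ((n : ℝ) + 1) ^ 3 * dR n ((t : ℝ) + 1))
      (((n : ℝ) + 2) ^ 3 * D (n + 2) - QS2.ap ((n : ℝ) + 1) * D (n + 1) +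
        ((n : ℝ) + 1) ^ 3 * D n) :=
    (((hasSum_D (n + 2)).mul_left _).sub ((hasSum_D (n + 1)).mul_left _)).add
      ((hasSum_D n).mul_left _)
  have hpart : ∀ N : ℕ, ∑ t ∈ range N, (((n : ℝ) + 2) ^ 3 * dR (n + 2) ((t : ℝ) + 1) -
      QS2.ap ((n : ℝ) + 1) * dR (n + 1) ((t : ℝ) + 1) +
      ((n : ℝ) + 1) ^ 3 * dR n ((t : ℝ) + 1)) = S N - S 0 := by
    intro N
    rw [← Finset.sum_range_sub]
    refine Finset.sum_congr rfl (fun t _ => ?_)
    rw [dcert n (by positivity : (0 : ℝ) < (t : ℝ) + 1)]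
    simp only [hS]
    push_cast
    ring
  have h1 := hsum.tendsto_sum_nat
  simp only [hpart] at h1
  have h2 : Tendsto (fun N => S N - S 0) atTop (𝓝 (0 - S 0)) := hlim.sub_const _
  have h3 := tendsto_nhds_unique h1 h2
  rw [hS0] at h3
  linarith

lemma D_zero : D 0 = -2 * QS2.zeta3 := by
  unfold D QS2.zeta3
  rw [← tsum_mul_left]
  refine tsum_congr (fun t => ?_)
  unfold dR
  rw [q_zero, dq_zero]
  have : (t : ℝ) + 1 ≠ 0 := by positivity
  field_simp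

lemma D_one : D 1 = -10 * QS2.zeta3 + 12 := by
  -- `R_1' = -2/t^3 - 8/(t+1)^3 + 4/t^2 - 4/(t+1)^2`
  have hz : HasSum (fun t : ℕ => 1 / ((t : ℝ) + 1) ^ 3) QS2.zeta3 := QS2.summable_cube.hasSum
  have hz' : HasSum (fun t : ℕ => 1 / (((t + 1 : ℕ) : ℝ) + 1) ^ 3) (QS2.zeta3 - 1) := by
    have := (hasSum_nat_add_iff' (f := fun t : ℕ => 1 / ((t : ℝ) + 1) ^ 3) 1).mpr hz
    simpa using this
  have ht : HasSum (fun t : ℕ => 1 / ((t : ℝ) + 1) ^ 2 - 1 / (((t + 1 : ℕ) : ℝ) + 1) ^ 2) 1 := by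
    have hs : Summable (fun t : ℕ => 1 / ((t : ℝ) + 1) ^ 2) := by
      have := (summable_nat_add_iff 1).mpr (Real.summable_one_div_nat_pow.mpr (by norm_num : 1 < 2))
      simpa using this
    have h1 := hs.hasSum
    have h2 := (hasSum_nat_add_iff' (f := fun t : ℕ => 1 / ((t : ℝ) + 1) ^ 2) 1).mpr h1
    have h3 := h1.sub h2
    simpa using h3
  have h := ((hz.mul_left (-2)).add (hz'.mul_left (-8))).add (ht.mul_left 4)
  have e : D 1 = -2 * QS2.zeta3 + -8 * (QS2.zeta3 - 1) + 4 * 1 := by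
    rw [← h.tsum_eq]
    unfold D
    refine tsum_congr (fun t => ?_)
    unfold dR
    rw [q_succ, dq_succ, q_zero, dq_zero]
    push_cast
    have h1 : (t : ℝ) + 1 ≠ 0 := by positivity
    have h2 : (t : ℝ) + 1 + (0 + 1) ≠ 0 := by positivity
    have h3 : (t : ℝ) + 1 + 1 ≠ 0 := by positivity
    field_simp
    ring
  rw [e]; ring

/-- `∑_{t ≥ 1} R_n'(t) = -2 l_n`. -/
theorem D_eq (n : ℕ) : D n = -2 * QS2.lrem n := by
  have key : ∀ n, D n = -2 * QS2.lrem n ∧ D (n + 1) = -2 * QS2.lrem (n + 1) := by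
    intro n
    induction n with
    | zero =>
      constructor
      · rw [D_zero, QS2.lrem, QS2.aperyA_zero, QS2.aperyB_zero]
        push_cast; ring
      · rw [zero_add, D_one, QS2.lrem, QS2.aperyA_one, QS2.aperyB_one]
        push_cast; ring
    | succ n ih =>
      refine ⟨ih.2, ?_⟩
      have h1 := D_rec n
      have h2 := QS2.lrem_rec n
      have h3 : ((n : ℝ) + 2) ^ 3 ≠ 0 := by positivity
      have h4 : ((n : ℝ) + 2) ^ 3 * D (n + 2) = ((n : ℝ) + 2) ^ 3 * (-2 * QS2.lrem (n + 2)) := by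
        rw [h1, ih.1, ih.2]
        linear_combination (-2) * (-h2)
      exact mul_left_cancel₀ h3 h4
  exact (key n).1

end T2
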