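import Pool.Agent.T2.SLq

/-!
# T2, limit part 2: summation over `n` and exchange of the two summations
-/

set_option autoImplicit false

namespace T2

open Finset Filter Topology

/-- `(t+M+1) q_{M+1} = (t-M-1) q_M` -/
lemma q_step (M : ℕ) {t : ℝ} (ht : 0 < t) :
    (t + (M + 1)) * q (M + 1) t = (t - (M + 1)) * q M t := by
  rw [q_succ]
  have : t + ((M : ℝ) + 1) ≠ 0 := by positivity
  field_simp

/-- telescoping, sign `+` -/
lemma sum_plus (M : ℕ) {t : ℝ} (ht : 1 / 2 < t) :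
    ∑ m ∈ range M, (2 * (m : ℝ) + 1) * q m t ^ 2 =
      (1 - ((t + M) * q M t) ^ 2) / (2 * t - 1) := by
  have ht0 : 0 < t := by linarith
  have h2 : 2 * t - 1 ≠ 0 := by
    intro h; linarith
  induction M with
  | zero =>
    rw [q_zero]
    simp
    field_simp
    simp
  | succ M ih =>
    rw [Finset.sum_range_succ, ih]
    have h := q_step M ht0
    push_cast
    rw [h, eq_div_iff h2, add_mul, div_mul_cancel₀ _ h2]
    ring

lemma hasDerivAt_lin (M : ℕ) {t : ℝ} (ht : 0 < t) :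
    HasDerivAt (fun t => ((t + M) * q M t) ^ 2)
      (2 * ((t + M) * q M t) * (q M t + (t + M) * dq M t)) t := by
  have h1 : HasDerivAt (fun t : ℝ => t + M) 1 t := by
    simpa using (hasDerivAt_id t).add_const (M : ℝ)
  have h := (h1.mul (hasDerivAt_q M ht)).pow 2
  refine h.congr_deriv ?_
  simp

/-- derivative of the sum, sign `+`, at integers -/
lemma dsum_plus {M T : ℕ} (h1 : 1 ≤ T) (h2 : T ≤ M) :
    ∑ m ∈ range M, (2 * (m : ℝ) + 1) * dR m T = -2 / (2 * (T : ℝ) - 1) ^ 2 := by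
  have hT1 : (1 : ℝ) ≤ T := by exact_mod_cast h1
  have hT : (1 : ℝ) / 2 < T := by linarith
  have hT0 : (0 : ℝ) < T := by linarith
  have hL : HasDerivAt (fun t => ∑ m ∈ range M, (2 * (m : ℝ) + 1) * q m t ^ 2)
      (∑ m ∈ range M, (2 * (m : ℝ) + 1) * dR m T) T :=
    HasDerivAt.fun_sum (fun m _ => (hasDerivAt_R m hT0).const_mul _)
  have hden : (2 * (T : ℝ) - 1) ≠ 0 := by
    intro h; linarith
  have hd1 : HasDerivAt (fun t : ℝ => 2 * t - 1) 2 T := by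
    simpa using ((hasDerivAt_id (T : ℝ)).const_mul 2).sub_const 1
  have hR := ((hasDerivAt_lin M hT0).const_sub 1).div hd1 hden
  have heq : (fun t => ∑ m ∈ range M, (2 * (m : ℝ) + 1) * q m t ^ 2) =ᶠ[𝓝 (T : ℝ)]
      (fun t => (1 - ((t + M) * q M t) ^ 2) / (2 * t - 1)) := by
    filter_upwards [lt_mem_nhds hT] with t ht
    exact sum_plus M ht
  have hq : q M (T : ℝ) = 0 := q_int_zero h1 h2
  have h3 := hL.unique ((hR.congr_of_eventuallyEq heq))
  rw [h3, hq]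
  simp

/-- telescoping, sign `-` -/
lemma sum_minus (M : ℕ) {t : ℝ} (ht : 0 < t) :
    ∑ m ∈ range (M + 1), (-1 : ℝ) ^ m * (2 * (m : ℝ) + 1) *
        (2 * (2 * t + 1) * q m (t + 1) ^ 2 - t * q m t ^ 2) =
      (-1) ^ (M + 1) * (q M t / (t + (M + 1))) ^ 2 *
        (t * (M + 1) * ((M + 1) ^ 2 - 3 * t ^ 2)) := by
  induction M with
  | zero =>
    rw [Finset.sum_range_one, q_zero, q_zero]
    push_cast
    have h1 : t + 1 ≠ 0 := by positivity
    have h2 : t + (0 + 1) ≠ 0 := by positivity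
    field_simp
    ring
  | succ M ih =>
    rw [Finset.sum_range_succ, ih, q_shift M ht, q_succ M t]
    push_cast
    have h1 : t + ((M : ℝ) + 1) ≠ 0 := by positivity
    have h2 : t + ((M : ℝ) + 1 + 1) ≠ 0 := by positivity
    have h3 : t + ((M : ℝ) + 2) ≠ 0 := by positivity
    rw [pow_succ (-1 : ℝ) (M + 1)]
    field_simp
    ring

/-- `β_t = B(t+1, t+1)` -/
noncomputable def be : ℕ → ℝ
  | 0 => 1
  | t + 1 => ((t : ℝ) + 1) / (2 * (2 * t + 3)) * be t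

/-- `h_t = H_{2t+1} - H_t` -/
noncomputable def hh : ℕ → ℝ
  | 0 => 1
  | t + 1 => hh t + 1 / (2 * (t : ℝ) + 3) - 1 / (2 * (t : ℝ) + 2)

lemma be_succ (t : ℕ) : be (t + 1) = ((t : ℝ) + 1) / (2 * (2 * t + 3)) * be t := rfl
lemma hh_succ (t : ℕ) : hh (t + 1) = hh t + 1 / (2 * (t : ℝ) + 3) - 1 / (2 * (t : ℝ) + 2) := rfl

lemma sum_ext (f : ℕ → ℝ) {T M : ℕ} (h : T ≤ M) (hf : ∀ m, T ≤ m → f m = 0) :
    ∑ m ∈ range M, f m = ∑ m ∈ range T, f m := by
  symm
  refine Finset.sum_subset (fun x hx => ?_) (fun x _ hx2 => ?_)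
  · simp only [Finset.mem_range] at hx ⊢
    omega
  · simp only [Finset.mem_range, not_lt] at hx2
    exact hf x hx2

/-- value and derivative of the alternating sum at integers -/
lemma dsum_minus (t : ℕ) :
    (∑ m ∈ range (t + 1), (-1 : ℝ) ^ m * (2 * (m : ℝ) + 1) * q m ((t : ℝ) + 1) ^ 2 = be t) ∧
    (∑ m ∈ range (t + 1), (-1 : ℝ) ^ m * (2 * (m : ℝ) + 1) * dR m ((t : ℝ) + 1) =
      -2 * (be t * hh t)) := by
  induction t with
  | zero =>
    constructor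
    · rw [Finset.sum_range_one, q_zero]
      simp [be]
    · rw [Finset.sum_range_one]
      unfold dR
      rw [q_zero, dq_zero]
      simp [be, hh]
  | succ t ih =>
    obtain ⟨ih1, ih2⟩ := ih
    have hT0 : (0 : ℝ) < (t : ℝ) + 1 := by positivity
    -- zeros beyond
    have hz : ∀ m, t + 1 ≤ m → q m ((t : ℝ) + 1) = 0 := by
      intro m hm
      have := q_int_zero (n := m) (m := t + 1) (by omega) hm
      simpa using this
    have hzd : ∀ m, t + 1 ≤ m → dR m ((t : ℝ) + 1) = 0 := by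
      intro m hm
      unfold dR
      rw [hz m hm]
      ring
    have e1 : ∑ m ∈ range (t + 1 + 1), (-1 : ℝ) ^ m * (2 * (m : ℝ) + 1) * q m ((t : ℝ) + 1) ^ 2 =
        be t := by
      rw [← ih1]
      exact sum_ext _ (by omega) (fun m hm => by rw [hz m hm]; ring)
    have e2 : ∑ m ∈ range (t + 1 + 1), (-1 : ℝ) ^ m * (2 * (m : ℝ) + 1) * dR m ((t : ℝ) + 1) =
        -2 * (be t * hh t) := by
      rw [← ih2]
      exact sum_ext _ (by omega) (fun m hm => by rw [hzd m hm]; ring)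
    -- the value
    have hval := sum_minus (t + 1) hT0
    rw [hz (t + 1) le_rfl] at hval
    have hval' : 2 * (2 * ((t : ℝ) + 1) + 1) * (∑ m ∈ range (t + 1 + 1), (-1 : ℝ) ^ m *
        (2 * (m : ℝ) + 1) * q m ((t : ℝ) + 1 + 1) ^ 2) = ((t : ℝ) + 1) * be t := by
      rw [← e1]
      rw [Finset.mul_sum, Finset.mul_sum]
      have h1 : ∑ m ∈ range (t + 1 + 1), (2 * (2 * ((t : ℝ) + 1) + 1) * ((-1 : ℝ) ^ m *
          (2 * (m : ℝ) + 1) * q m ((t : ℝ) + 1 + 1) ^ 2)) - ∑ m ∈ range (t + 1 + 1),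
          (((t : ℝ) + 1) * ((-1 : ℝ) ^ m * (2 * (m : ℝ) + 1) * q m ((t : ℝ) + 1) ^ 2)) = 0 := by
        rw [← Finset.sum_sub_distrib]
        refine Eq.trans (Finset.sum_congr rfl (fun m _ => ?_)) (hval.trans (by simp))
        ring
      linarith
    -- the derivative
    have hL : HasDerivAt (fun s : ℝ => ∑ m ∈ range (t + 1 + 1), (-1 : ℝ) ^ m * (2 * (m : ℝ) + 1) *
        (2 * (2 * s + 1) * q m (s + 1) ^ 2 - s * q m s ^ 2))
        (∑ m ∈ range (t + 1 + 1), (-1 : ℝ) ^ m * (2 * (m : ℝ) + 1) *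
          ((4 * q m ((t : ℝ) + 1 + 1) ^ 2 + 2 * (2 * ((t : ℝ) + 1) + 1) * dR m ((t : ℝ) + 1 + 1)) -
            (q m ((t : ℝ) + 1) ^ 2 + ((t : ℝ) + 1) * dR m ((t : ℝ) + 1)))) ((t : ℝ) + 1) := by
      refine HasDerivAt.fun_sum (fun m _ => ?_)
      refine HasDerivAt.const_mul _ ?_
      have f1 : HasDerivAt (fun s : ℝ => 2 * (2 * s + 1)) 4 ((t : ℝ) + 1) := by
        have := (((hasDerivAt_id ((t : ℝ) + 1)).const_mul 2).add_const 1).const_mul 2
        refine this.congr_deriv ?_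
        norm_num
      have f2 : HasDerivAt (fun s : ℝ => q m (s + 1) ^ 2) (dR m ((t : ℝ) + 1 + 1))
          ((t : ℝ) + 1) :=
        (hasDerivAt_R m (by positivity : (0 : ℝ) < (t : ℝ) + 1 + 1)).comp_add_const ((t : ℝ) + 1) 1
      have f3 : HasDerivAt (fun s : ℝ => s * q m s ^ 2)
          (q m ((t : ℝ) + 1) ^ 2 + ((t : ℝ) + 1) * dR m ((t : ℝ) + 1)) ((t : ℝ) + 1) := by
        have := (hasDerivAt_id ((t : ℝ) + 1)).mul (hasDerivAt_R m hT0)
        refine this.congr_deriv ?_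
        simp
      exact (f1.mul f2).sub f3
    have hRz : HasDerivAt (fun s : ℝ => (-1) ^ (t + 1 + 1) * (q (t + 1) s /
        (s + (((t + 1 : ℕ) : ℝ) + 1))) ^ 2 * (s * (((t + 1 : ℕ) : ℝ) + 1) *
          ((((t + 1 : ℕ) : ℝ) + 1) ^ 2 - 3 * s ^ 2))) 0 ((t : ℝ) + 1) := by
      have hpne : ((t : ℝ) + 1) + (((t + 1 : ℕ) : ℝ) + 1) ≠ 0 := by positivity
      have g1 : HasDerivAt (fun s : ℝ => q (t + 1) s / (s + (((t + 1 : ℕ) : ℝ) + 1))) _
          ((t : ℝ) + 1) := (hasDerivAt_q (t + 1) hT0).div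
            ((hasDerivAt_id _).add_const _) hpne
      have g2 : DifferentiableAt ℝ (fun s : ℝ => (s * (((t + 1 : ℕ) : ℝ) + 1) *
          ((((t + 1 : ℕ) : ℝ) + 1) ^ 2 - 3 * s ^ 2))) ((t : ℝ) + 1) := by fun_prop
      have g3 := ((g1.pow 2).const_mul ((-1 : ℝ) ^ (t + 1 + 1))).mul g2.hasDerivAt
      refine g3.congr_deriv ?_
      simp only [Pi.pow_apply]
      rw [hz (t + 1) le_rfl]
      simp
    have heq : (fun s : ℝ => ∑ m ∈ range (t + 1 + 1), (-1 : ℝ) ^ m * (2 * (m : ℝ) + 1) *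
        (2 * (2 * s + 1) * q m (s + 1) ^ 2 - s * q m s ^ 2)) =ᶠ[𝓝 ((t : ℝ) + 1)]
        (fun s : ℝ => (-1) ^ (t + 1 + 1) * (q (t + 1) s /
        (s + (((t + 1 : ℕ) : ℝ) + 1))) ^ 2 * (s * (((t + 1 : ℕ) : ℝ) + 1) *
          ((((t + 1 : ℕ) : ℝ) + 1) ^ 2 - 3 * s ^ 2))) := by
      filter_upwards [lt_mem_nhds hT0] with s hs
      exact sum_minus (t + 1) hs
    have hder := hL.unique (hRz.congr_of_eventuallyEq heq)
    have hB : ∑ m ∈ range (t + 1 + 1), (-1 : ℝ) ^ m * (2 * (m : ℝ) + 1) *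
        q m ((t : ℝ) + 1 + 1) ^ 2 = be (t + 1) := by
      rw [be_succ]
      have hne : (2 * (2 * ((t : ℝ) + 1) + 1)) ≠ 0 := by positivity
      have hne2 : (2 * (2 * (t : ℝ) + 3)) ≠ 0 := by positivity
      apply mul_left_cancel₀ hne
      rw [hval']
      field_simp
      ring
    constructor
    · push_cast
      exact hB
    · push_cast
      set A := ∑ m ∈ range (t + 1 + 1), (-1 : ℝ) ^ m * (2 * (m : ℝ) + 1) *
        dR m ((t : ℝ) + 1 + 1) with hA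
      have hder' : 4 * be (t + 1) + 2 * (2 * ((t : ℝ) + 1) + 1) * A -
          (be t + ((t : ℝ) + 1) * (-2 * (be t * hh t))) = 0 := by
        rw [← hder, ← hB, hA, ← e2, ← e1, Finset.mul_sum, Finset.mul_sum, Finset.mul_sum,
          ← Finset.sum_add_distrib, ← Finset.sum_add_distrib, ← Finset.sum_sub_distrib]
        refine Finset.sum_congr rfl (fun m _ => ?_)
        ring
      rw [hh_succ]
      rw [be_succ] at hder' ⊢
      have hne2 : (2 * (t : ℝ) + 3) ≠ 0 := by positivity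
      have hne3 : (2 * (t : ℝ) + 2) ≠ 0 := by positivity
      have hne4 : (2 * (2 * ((t : ℝ) + 1) + 1)) ≠ 0 := by positivity
      have hA' : A = ((be t + ((t : ℝ) + 1) * (-2 * (be t * hh t))) -
          4 * (((t : ℝ) + 1) / (2 * (2 * t + 3)) * be t)) / (2 * (2 * ((t : ℝ) + 1) + 1)) := by
        rw [eq_div_iff hne4]
        linarith
      rw [hA']
      have hne5 : (2 * ((t : ℝ) + 1) + 1) ≠ 0 := by positivity
      field_simp
      ring

/-- absolute bound, telescoped -/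
lemma abs_tel {T M : ℕ} (hT : 1 ≤ T) (hM : M ≤ T) :
    (2 * (T : ℝ) - 1) * (∑ m ∈ range M, (2 * (m : ℝ) + 1) * (|q m T| * |dq m T|)) +
      ((T : ℝ) + M) ^ 2 * (|q M T| * |dq M T|) +
      2 / (2 * (T : ℝ) - 1) * (((T : ℝ) + M) ^ 2 * |q M T| ^ 2) ≤
      1 / T + 2 / (2 * (T : ℝ) - 1) := by
  have hT1 : (1 : ℝ) ≤ T := by exact_mod_cast hT
  have hT0 : (0 : ℝ) < T := by linarith
  have hd : (0 : ℝ) < 2 * (T : ℝ) - 1 := by linarith
  induction M with
  | zero =>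
    rw [q_zero, dq_zero, Finset.sum_range_zero, mul_zero, zero_add, abs_of_pos (by positivity),
      neg_div, abs_neg, abs_of_pos (by positivity)]
    apply le_of_eq
    have := hd.ne'
    push_cast
    field_simp
    ring
  | succ M ih =>
    have ih' := ih (by omega)
    have hMT : ((M : ℝ) + 1) ≤ T := by exact_mod_cast hM
    have hp : (0 : ℝ) < T + (M + 1) := by positivity
    set r : ℝ := (T - ((M : ℝ) + 1)) / (T + (M + 1)) with hr
    have hr0 : 0 ≤ r := div_nonneg (by linarith) hp.le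
    have hr1 : r ≤ 1 := by
      rw [hr, div_le_one hp]; linarith [(Nat.cast_nonneg M : (0 : ℝ) ≤ M)]
    have hpr : (T + ((M : ℝ) + 1)) * r = T - (M + 1) := by
      rw [hr]; field_simp
    have hq : |q (M + 1) T| = |q M T| * r := by
      rw [q_succ, abs_mul, ← hr, abs_of_nonneg hr0]
    have hdq : |dq (M + 1) T| ≤ |dq M T| * r + |q M T| * (2 * ((M : ℝ) + 1) / (T + (M + 1)) ^ 2) := by
      rw [dq_succ]
      refine (abs_add_le _ _).trans (le_of_eq ?_)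
      rw [abs_mul, abs_mul, ← hr, abs_of_nonneg hr0,
        abs_of_pos (by positivity : (0 : ℝ) < 2 * ((M : ℝ) + 1) / (T + (M + 1)) ^ 2)]
    set Q := |q M T| with hQ
    set P := |dq M T| with hP
    have hQ0 : 0 ≤ Q := abs_nonneg _
    have hP0 : 0 ≤ P := abs_nonneg _
    rw [Finset.sum_range_succ, mul_add, hq]
    push_cast
    have e1 : ((T : ℝ) + (M + 1)) ^ 2 * (Q * r * |dq (M + 1) T|) ≤
        (T - ((M : ℝ) + 1)) ^ 2 * (Q * P) + 2 * ((M : ℝ) + 1) * r * Q ^ 2 := by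
      calc ((T : ℝ) + (M + 1)) ^ 2 * (Q * r * |dq (M + 1) T|)
          ≤ ((T : ℝ) + (M + 1)) ^ 2 * (Q * r * (P * r + Q * (2 * ((M : ℝ) + 1) /
              (T + (M + 1)) ^ 2))) := by
            refine mul_le_mul_of_nonneg_left ?_ (by positivity)
            exact mul_le_mul_of_nonneg_left hdq (mul_nonneg hQ0 hr0)
        _ = (((T : ℝ) + (M + 1)) * r) ^ 2 * (Q * P) + 2 * ((M : ℝ) + 1) * r * Q ^ 2 := by
            field_simp
        _ = _ := by rw [hpr]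
    have e2 : ((T : ℝ) + (M + 1)) ^ 2 * (Q * r) ^ 2 = (T - ((M : ℝ) + 1)) ^ 2 * Q ^ 2 := by
      rw [mul_pow, ← hpr]; ring
    rw [e2]
    have e3 : 2 * ((M : ℝ) + 1) * r * Q ^ 2 ≤ 2 * (2 * (M : ℝ) + 1) * Q ^ 2 := by
      refine mul_le_mul_of_nonneg_right ?_ (sq_nonneg _)
      have h0 : 0 ≤ (M : ℝ) := Nat.cast_nonneg _
      nlinarith
    have e4 : 2 / (2 * (T : ℝ) - 1) * (((T : ℝ) - (M + 1)) ^ 2 * Q ^ 2) +
        2 * (2 * (M : ℝ) + 1) * Q ^ 2 = 2 / (2 * (T : ℝ) - 1) * (((T : ℝ) + M) ^ 2 * Q ^ 2) := by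
      have := hd.ne'
      field_simp
      ring
    nlinarith [e1, e3, e4, ih']

/-- `∑_m (2m+1) |R_m'(T)| ≤ 6 / T^2` -/
lemma abs_sum_le {T : ℕ} (hT : 1 ≤ T) :
    ∑ m ∈ range T, (2 * (m : ℝ) + 1) * |dR m T| ≤ 6 / (T : ℝ) ^ 2 := by
  have hT1 : (1 : ℝ) ≤ T := by exact_mod_cast hT
  have hT0 : (0 : ℝ) < T := by linarith
  have hd : (0 : ℝ) < 2 * (T : ℝ) - 1 := by linarith
  have h := abs_tel hT (le_refl T)
  have h1 : 0 ≤ ((T : ℝ) + T) ^ 2 * (|q T T| * |dq T T|) := by positivity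
  have h2 : 0 ≤ 2 / (2 * (T : ℝ) - 1) * (((T : ℝ) + T) ^ 2 * |q T T| ^ 2) := by positivity
  have h3 : (2 * (T : ℝ) - 1) * (∑ m ∈ range T, (2 * (m : ℝ) + 1) * (|q m T| * |dq m T|)) ≤
      3 / T := by
    have h4 : 2 / (2 * (T : ℝ) - 1) ≤ 2 / T := by
      apply div_le_div_of_nonneg_left (by norm_num) hT0; linarith
    have h5 : 1 / (T : ℝ) + 2 / T = 3 / T := by ring
    linarith
  have h6 : ∑ m ∈ range T, (2 * (m : ℝ) + 1) * |dR m T| =
      2 * ∑ m ∈ range T, (2 * (m : ℝ) + 1) * (|q m T| * |dq m T|) := by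
    rw [Finset.mul_sum]
    refine Finset.sum_congr rfl (fun m _ => ?_)
    unfold dR
    rw [abs_mul, abs_mul, abs_two]
    ring
  rw [h6]
  set S := ∑ m ∈ range T, (2 * (m : ℝ) + 1) * (|q m T| * |dq m T|) with hS
  have hS0 : 0 ≤ S := Finset.sum_nonneg (fun m _ => by positivity)
  have h7 : T * S ≤ 3 / T := by
    refine le_trans ?_ h3
    nlinarith
  have h8 : S ≤ 3 / (T : ℝ) ^ 2 := by
    rw [le_div_iff₀ (by positivity)]
    rw [le_div_iff₀ hT0] at h7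
    nlinarith
  calc 2 * S ≤ 2 * (3 / (T : ℝ) ^ 2) := by linarith
    _ = 6 / (T : ℝ) ^ 2 := by ring

/-- absolute convergence of the double series -/
lemma summable_double (ε : ℝ) (hε : |ε| = 1) :
    Summable (fun x : ℕ × ℕ => ε ^ x.2 * (2 * (x.2 : ℝ) + 1) * dR x.2 ((x.1 : ℝ) + 1)) := by
  have hz : ∀ t m : ℕ, t + 1 ≤ m → dR m ((t : ℝ) + 1) = 0 := by
    intro t m hm
    have := dR_int_zero (n := m) (m := t + 1) (by omega) hm
    simpa using this
  have h1 : Summable (fun x : ℕ × ℕ => (2 * (x.2 : ℝ) + 1) * |dR x.2 ((x.1 : ℝ) + 1)|) := by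
    rw [summable_prod_of_nonneg (fun x => by positivity)]
    have hfin : ∀ t : ℕ, HasSum (fun m : ℕ => (2 * (m : ℝ) + 1) * |dR m ((t : ℝ) + 1)|)
        (∑ m ∈ range (t + 1), (2 * (m : ℝ) + 1) * |dR m ((t : ℝ) + 1)|) := by
      intro t
      refine hasSum_sum_of_ne_finset_zero (fun m hm => ?_)
      rw [hz t m (by simpa using hm)]
      simp
    refine ⟨fun t => (hfin t).summable, ?_⟩
    have h2 : Summable (fun t : ℕ => 6 * (1 / ((t : ℝ) + 1) ^ 2)) := by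
      have := (summable_nat_add_iff 1).mpr (Real.summable_one_div_nat_pow.mpr (by norm_num : 1 < 2))
      have h3 : Summable (fun t : ℕ => 1 / ((t : ℝ) + 1) ^ 2) := by simpa using this
      exact h3.mul_left 6
    refine Summable.of_nonneg_of_le (fun t => tsum_nonneg (fun m => by positivity)) (fun t => ?_) h2
    rw [(hfin t).tsum_eq]
    have := abs_sum_le (T := t + 1) (by omega)
    push_cast at this
    refine this.trans (le_of_eq ?_)
    ring
  refine Summable.of_norm ?_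
  refine h1.congr (fun x => ?_)
  rw [Real.norm_eq_abs, abs_mul, abs_mul, abs_pow, hε, one_pow, one_mul,
    abs_of_pos (by positivity : (0 : ℝ) < 2 * (x.2 : ℝ) + 1)]

/-- exchange of summation -/
lemma tsum_lrem (ε : ℝ) (hε : |ε| = 1) :
    HasSum (fun m : ℕ => ε ^ m * (2 * (m : ℝ) + 1) * QS2.lrem m)
      (-(1 / 2) * ∑' t : ℕ, ∑ m ∈ range (t + 1), ε ^ m * (2 * (m : ℝ) + 1) *
        dR m ((t : ℝ) + 1)) := by
  have hz : ∀ t m : ℕ, t + 1 ≤ m → dR m ((t : ℝ) + 1) = 0 := by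
    intro t m hm
    have := dR_int_zero (n := m) (m := t + 1) (by omega) hm
    simpa using this
  have hS := summable_double ε hε
  have hS' : Summable (fun x : ℕ × ℕ => ε ^ x.1 * (2 * (x.1 : ℝ) + 1) * dR x.1 ((x.2 : ℝ) + 1)) := by
    have := hS.prod_symm
    exact this
  have h1 := hS'.hasSum
  have h2 : HasSum (fun m : ℕ => ε ^ m * (2 * (m : ℝ) + 1) * D m)
      (∑' x : ℕ × ℕ, ε ^ x.1 * (2 * (x.1 : ℝ) + 1) * dR x.1 ((x.2 : ℝ) + 1)) := by
    refine h1.prod_fiberwise (fun m => ?_)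
    exact (hasSum_D m).mul_left _
  have h3 : ∑' x : ℕ × ℕ, ε ^ x.1 * (2 * (x.1 : ℝ) + 1) * dR x.1 ((x.2 : ℝ) + 1) =
      ∑' t : ℕ, ∑ m ∈ range (t + 1), ε ^ m * (2 * (m : ℝ) + 1) * dR m ((t : ℝ) + 1) := by
    have h4 : ∑' x : ℕ × ℕ, ε ^ x.1 * (2 * (x.1 : ℝ) + 1) * dR x.1 ((x.2 : ℝ) + 1) =
        ∑' x : ℕ × ℕ, ε ^ x.2 * (2 * (x.2 : ℝ) + 1) * dR x.2 ((x.1 : ℝ) + 1) :=
      (Equiv.prodComm ℕ ℕ).tsum_eq (fun x : ℕ × ℕ => ε ^ x.2 * (2 * (x.2 : ℝ) + 1) *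
        dR x.2 ((x.1 : ℝ) + 1))
    rw [h4]
    have h5 : HasSum (fun t : ℕ => ∑ m ∈ range (t + 1), ε ^ m * (2 * (m : ℝ) + 1) *
        dR m ((t : ℝ) + 1)) (∑' x : ℕ × ℕ, ε ^ x.2 * (2 * (x.2 : ℝ) + 1) *
        dR x.2 ((x.1 : ℝ) + 1)) := by
      refine hS.hasSum.prod_fiberwise (fun t => ?_)
      refine hasSum_sum_of_ne_finset_zero (fun m hm => ?_)
      rw [hz t m (by simpa using hm)]
      simp
    exact h5.tsum_eq.symm
  rw [← h3]
  have h6 := h2.mul_left (-(1 / 2 : ℝ))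
  refine h6.congr_fun (fun m => ?_)
  rw [D_eq]
  ring

/-- sign `+` -/
theorem hasSum_plus : HasSum (fun m : ℕ => (2 * (m : ℝ) + 1) * QS2.lrem m)
    (∑' t : ℕ, 1 / (2 * (t : ℝ) + 1) ^ 2) := by
  have h := tsum_lrem 1 (by simp)
  have h1 : (fun m : ℕ => (1 : ℝ) ^ m * (2 * (m : ℝ) + 1) * QS2.lrem m) =
      fun m : ℕ => (2 * (m : ℝ) + 1) * QS2.lrem m := by
    ext m; simp
  rw [h1] at h
  convert h using 1
  rw [← tsum_mul_left]
  refine tsum_congr (fun t => ?_)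
  have h2 := dsum_plus (M := t + 1) (T := t + 1) (by omega) le_rfl
  push_cast at h2
  simp only [one_pow, one_mul]
  rw [h2]
  have : 2 * ((t : ℝ) + 1) - 1 = 2 * t + 1 := by ring
  rw [this]
  ring

/-- sign `-` -/
theorem hasSum_minus : HasSum (fun m : ℕ => (-1 : ℝ) ^ m * (2 * (m : ℝ) + 1) * QS2.lrem m)
    (∑' t : ℕ, be t * hh t) := by
  have h := tsum_lrem (-1) (by simp)
  convert h using 1
  rw [← tsum_mul_left]
  refine tsum_congr (fun t => ?_)
  rw [(dsum_minus t).2]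
  ring

end T2
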