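import Pool.Agent.T2.SLcs
import Pool.Agent.T2.SF2

/-!
# T2, module SX: expansions of the four sequences in `C(n,k) C(n+k,k)` and the mirror congruence

`lamk x k = ∏_{i<k} (x (x+1) - i (i+1))`, `Bn n k = C(n,k) C(n+k,k) = lamk n k / k!^2`.

* `aperyA n = ∑ fC k * Bn n k`, `aperyB n = ∑ omB k * Bn n k`, `cs 1 n = ∑ omP k * Bn n k`,
  `(-1)^n * cs (-1) n = ∑ omM k * Bn n k`;
* `mirror_*` : `u (p-1-n) ≡ u n mod p` for `n < p`, `p` odd, and `u n` is `p`-integral.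
-/

set_option autoImplicit false

namespace T2

open Finset QS2

/-- `∏_{i<k} (x (x+1) - i (i+1))` -/
def lamk {R : Type*} [CommRing R] (x : R) (k : ℕ) : R :=
  ∏ i ∈ range k, (x * (x + 1) - (i : R) * ((i : R) + 1))

theorem lamk_zero {R : Type*} [CommRing R] (x : R) : lamk x 0 = 1 := by simp [lamk]

theorem lamk_succ {R : Type*} [CommRing R] (x : R) (k : ℕ) :
    lamk x (k + 1) = lamk x k * ((x - k) * (x + k + 1)) := by
  rw [lamk, prod_range_succ, ← lamk]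
  ring

theorem lamk_add_one {R : Type*} [CommRing R] (x : R) (j : ℕ) :
    lamk (x + 1) (j + 1) = lamk x j * ((x + j + 1) * (x + j + 2)) := by
  induction j with
  | zero => simp [lamk]; ring
  | succ j ih =>
    rw [lamk_succ (x + 1) (j + 1), ih, lamk_succ x j]
    push_cast
    ring

theorem lamk_sub_one {R : Type*} [CommRing R] (x : R) (j : ℕ) :
    lamk (x - 1) (j + 1) = lamk x j * ((x - j) * (x - j - 1)) := by
  induction j with
  | zero => simp [lamk]; ring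
  | succ j ih =>
    rw [lamk_succ (x - 1) (j + 1), ih, lamk_succ x j]
    push_cast
    ring

/-- `L_+ λ_k` -/
theorem Lp_lamk {R : Type*} [CommRing R] (x : R) (k : ℕ) :
    (x + 1) ^ 3 * lamk (x + 1) k - ap x * lamk x k + x ^ 3 * lamk (x - 1) k
      = 2 * (2 * x + 1) * (-8 * lamk x (k + 1) - (7 * (k : R) ^ 2 + 7 * k + 2) * lamk x k
          + (k : R) ^ 4 * lamk x (k - 1)) := by
  cases k with
  | zero =>
    rw [lamk_succ]
    simp only [lamk_zero, ap, Nat.cast_zero]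
    ring
  | succ j =>
    rw [lamk_add_one, lamk_sub_one, lamk_succ x (j + 1), lamk_succ x j]
    simp only [ap, Nat.add_sub_cancel]
    push_cast
    ring

/-- `L_- λ_k` -/
theorem Lm_lamk {R : Type*} [CommRing R] (x : R) (k : ℕ) :
    (x + 1) ^ 3 * lamk (x + 1) k + ap x * lamk x k + x ^ 3 * lamk (x - 1) k
      = 2 * (2 * x + 1) * (9 * lamk x (k + 1) + (10 * (k : R) ^ 2 + 10 * k + 3) * lamk x k
          + (k : R) ^ 4 * lamk x (k - 1)) := by
  cases k with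
  | zero =>
    rw [lamk_succ]
    simp only [lamk_zero, ap, Nat.cast_zero]
    ring
  | succ j =>
    rw [lamk_add_one, lamk_sub_one, lamk_succ x (j + 1), lamk_succ x j]
    simp only [ap, Nat.add_sub_cancel]
    push_cast
    ring

/-- `λ_k(x) / k!^2` -/
def Bf (x : ℚ) (k : ℕ) : ℚ := lamk x k / (k.factorial : ℚ) ^ 2

/-- `C(n,k) C(n+k,k)` -/
def Bn (n k : ℕ) : ℚ := (n.choose k : ℚ) * ((n + k).choose k : ℚ)

theorem Bf_zero (x : ℚ) : Bf x 0 = 1 := by simp [Bf, lamk_zero]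

theorem Bf_succ (x : ℚ) (k : ℕ) :
    ((k : ℚ) + 1) ^ 2 * Bf x (k + 1) = Bf x k * ((x - k) * (x + k + 1)) := by
  rw [Bf, Bf, lamk_succ, Nat.factorial_succ]
  have h1 : ((k : ℚ) + 1) ≠ 0 := by positivity
  have h2 : (k.factorial : ℚ) ≠ 0 := by exact_mod_cast k.factorial_ne_zero
  push_cast
  field_simp

theorem Bn_eq_Bf (n k : ℕ) : Bn n k = Bf (n : ℚ) k := by
  induction k with
  | zero => simp [Bn, Bf_zero]
  | succ k ih =>
    have h1 : ((k : ℚ) + 1) ≠ 0 := by positivity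
    have h := Bf_succ (n : ℚ) k
    have h3 : ((k : ℚ) + 1) ^ 2 * Bn n (k + 1) = Bn n k * (((n : ℚ) - k) * (n + k + 1)) := by
      rcases le_or_gt k n with hk | hk
      · rw [Bn, ch3 hk, ← add_assoc, ch4, Bn]
        field_simp
      · rw [Bn, Bn, Nat.choose_eq_zero_of_lt (by omega : n < k + 1), Nat.choose_eq_zero_of_lt hk]
        simp
    have h4 : ((k : ℚ) + 1) ^ 2 * Bn n (k + 1) = ((k : ℚ) + 1) ^ 2 * Bf n (k + 1) := by
      rw [h3, h, ih]
    exact mul_left_cancel₀ (pow_ne_zero 2 h1) h4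

theorem Bn_eq_zero {n k : ℕ} (h : n < k) : Bn n k = 0 := by
  rw [Bn, Nat.choose_eq_zero_of_lt h]
  simp

/-- value of the expansion -/
def ev (om : ℕ → ℚ) (n : ℕ) : ℚ := ∑ k ∈ range (n + 1), om k * Bn n k

theorem ev_eq (om : ℕ → ℚ) (n K : ℕ) (h : n ≤ K) :
    ev om n = ∑ k ∈ range (K + 1), om k * Bf (n : ℚ) k := by
  rw [ev]
  have e : ∀ k, om k * Bf (n : ℚ) k = om k * Bn n k := fun k => by rw [Bn_eq_Bf]
  simp only [e]
  refine sum_subset (range_subset_range.2 (by omega)) ?_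
  intro x _ hx
  rw [Finset.mem_range, not_lt] at hx
  rw [Bn_eq_zero (by omega), mul_zero]

/-- `T_+` -/
def Tp (om : ℕ → ℚ) (k : ℕ) : ℚ :=
  ((k : ℚ) + 1) ^ 2 * om (k + 1) - (7 * (k : ℚ) ^ 2 + 7 * k + 2) * om k
    - 8 * (k : ℚ) ^ 2 * om (k - 1)

/-- `T_-` -/
def Tm (om : ℕ → ℚ) (k : ℕ) : ℚ :=
  ((k : ℚ) + 1) ^ 2 * om (k + 1) + (10 * (k : ℚ) ^ 2 + 10 * k + 3) * om k
    + 9 * (k : ℚ) ^ 2 * om (k - 1)

theorem Lp_Bf (x : ℚ) (k : ℕ) :
    (x + 1) ^ 3 * Bf (x + 1) k - ap x * Bf x k + x ^ 3 * Bf (x - 1) k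
      = 2 * (2 * x + 1) * (-8 * ((k : ℚ) + 1) ^ 2 * Bf x (k + 1)
          - (7 * (k : ℚ) ^ 2 + 7 * k + 2) * Bf x k + (k : ℚ) ^ 2 * Bf x (k - 1)) := by
  have h2 : (k.factorial : ℚ) ≠ 0 := by exact_mod_cast k.factorial_ne_zero
  have h := Lp_lamk x k
  have e1 : ((k : ℚ) + 1) ^ 2 * Bf x (k + 1) = lamk x (k + 1) / (k.factorial : ℚ) ^ 2 := by
    rw [Bf, Nat.factorial_succ]
    have h1 : ((k : ℚ) + 1) ≠ 0 := by positivity
    push_cast
    field_simp
  have e2 : (k : ℚ) ^ 2 * Bf x (k - 1) = (k : ℚ) ^ 4 * lamk x (k - 1) / (k.factorial : ℚ) ^ 2 := by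
    cases k with
    | zero => simp
    | succ j =>
      have h1 : ((j : ℚ) + 1) ≠ 0 := by positivity
      have h3 : (j.factorial : ℚ) ≠ 0 := by exact_mod_cast j.factorial_ne_zero
      rw [Bf, Nat.factorial_succ, Nat.add_sub_cancel]
      push_cast
      field_simp
  rw [mul_assoc (-8 : ℚ), e1, e2]
  simp only [Bf]
  field_simp
  linear_combination h

theorem Lm_Bf (x : ℚ) (k : ℕ) :
    (x + 1) ^ 3 * Bf (x + 1) k + ap x * Bf x k + x ^ 3 * Bf (x - 1) k
      = 2 * (2 * x + 1) * (9 * ((k : ℚ) + 1) ^ 2 * Bf x (k + 1)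
          + (10 * (k : ℚ) ^ 2 + 10 * k + 3) * Bf x k + (k : ℚ) ^ 2 * Bf x (k - 1)) := by
  have h2 : (k.factorial : ℚ) ≠ 0 := by exact_mod_cast k.factorial_ne_zero
  have h := Lm_lamk x k
  have e1 : ((k : ℚ) + 1) ^ 2 * Bf x (k + 1) = lamk x (k + 1) / (k.factorial : ℚ) ^ 2 := by
    rw [Bf, Nat.factorial_succ]
    have h1 : ((k : ℚ) + 1) ≠ 0 := by positivity
    push_cast
    field_simp
  have e2 : (k : ℚ) ^ 2 * Bf x (k - 1) = (k : ℚ) ^ 4 * lamk x (k - 1) / (k.factorial : ℚ) ^ 2 := by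
    cases k with
    | zero => simp
    | succ j =>
      have h1 : ((j : ℚ) + 1) ≠ 0 := by positivity
      have h3 : (j.factorial : ℚ) ≠ 0 := by exact_mod_cast j.factorial_ne_zero
      rw [Bf, Nat.factorial_succ, Nat.add_sub_cancel]
      push_cast
      field_simp
  rw [mul_assoc (9 : ℚ), e1, e2]
  simp only [Bf]
  field_simp
  linear_combination h

/-- summation by parts, plus sign -/
theorem Sp (om : ℕ → ℚ) (x : ℚ) (m : ℕ) :
    ∑ k ∈ range (m + 1), om k * (-8 * ((k : ℚ) + 1) ^ 2 * Bf x (k + 1)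
        - (7 * (k : ℚ) ^ 2 + 7 * k + 2) * Bf x k + (k : ℚ) ^ 2 * Bf x (k - 1))
      = ∑ k ∈ range (m + 1), Bf x k * Tp om k - 8 * ((m : ℚ) + 1) ^ 2 * om m * Bf x (m + 1)
        - ((m : ℚ) + 1) ^ 2 * om (m + 1) * Bf x m := by
  induction m with
  | zero => simp [Tp]; ring
  | succ m ih =>
    rw [sum_range_succ, ih, sum_range_succ _ (m + 1)]
    simp only [Tp, Nat.add_sub_cancel]
    push_cast
    ring

/-- summation by parts, minus sign -/
theorem Sm (om : ℕ → ℚ) (x : ℚ) (m : ℕ) :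
    ∑ k ∈ range (m + 1), om k * (9 * ((k : ℚ) + 1) ^ 2 * Bf x (k + 1)
        + (10 * (k : ℚ) ^ 2 + 10 * k + 3) * Bf x k + (k : ℚ) ^ 2 * Bf x (k - 1))
      = ∑ k ∈ range (m + 1), Bf x k * Tm om k + 9 * ((m : ℚ) + 1) ^ 2 * om m * Bf x (m + 1)
        - ((m : ℚ) + 1) ^ 2 * om (m + 1) * Bf x m := by
  induction m with
  | zero => simp [Tm]; ring
  | succ m ih =>
    rw [sum_range_succ, ih, sum_range_succ _ (m + 1)]
    simp only [Tm, Nat.add_sub_cancel]
    push_cast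
    ring

theorem Bf_nat_zero {n k : ℕ} (h : n < k) : Bf (n : ℚ) k = 0 := by
  rw [← Bn_eq_Bf, Bn_eq_zero h]

/-- `L_+` of an expansion -/
theorem Lp_ev (om : ℕ → ℚ) (n : ℕ) :
    ((n : ℚ) + 2) ^ 3 * ev om (n + 2) - ap ((n : ℚ) + 1) * ev om (n + 1)
        + ((n : ℚ) + 1) ^ 3 * ev om n
      = 2 * (2 * ((n : ℚ) + 1) + 1) * ∑ k ∈ range (n + 2), Bf ((n : ℚ) + 1) k * Tp om k := by
  have hz1 : Bf ((n : ℚ) + 1) (n + 2) = 0 := by
    have := Bf_nat_zero (n := n + 1) (k := n + 2) (by omega)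
    exact_mod_cast this
  have hz2 : Bf ((n : ℚ) + 1) (n + 2 + 1) = 0 := by
    have := Bf_nat_zero (n := n + 1) (k := n + 2 + 1) (by omega)
    exact_mod_cast this
  have h := Sp om ((n : ℚ) + 1) (n + 2)
  rw [hz2, mul_zero, sub_zero, sum_range_succ (fun k => Bf ((n : ℚ) + 1) k * Tp om k) (n + 2), hz1,
    zero_mul, add_zero, mul_zero, sub_zero] at h
  rw [ev_eq om (n + 2) (n + 2) le_rfl, ev_eq om (n + 1) (n + 2) (by omega),
    ev_eq om n (n + 2) (by omega), ← h, mul_sum, mul_sum, mul_sum, mul_sum, ← sum_sub_distrib,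
    ← sum_add_distrib]
  refine sum_congr rfl fun k _ => ?_
  have hk := Lp_Bf ((n : ℚ) + 1) k
  rw [show (n : ℚ) + 1 + 1 = n + 2 by ring, show (n : ℚ) + 1 - 1 = n by ring] at hk
  push_cast
  linear_combination om k * hk

/-- `L_-` of an expansion -/
theorem Lm_ev (om : ℕ → ℚ) (n : ℕ) :
    ((n : ℚ) + 2) ^ 3 * ev om (n + 2) + ap ((n : ℚ) + 1) * ev om (n + 1)
        + ((n : ℚ) + 1) ^ 3 * ev om n
      = 2 * (2 * ((n : ℚ) + 1) + 1) * ∑ k ∈ range (n + 2), Bf ((n : ℚ) + 1) k * Tm om k := by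
  have hz1 : Bf ((n : ℚ) + 1) (n + 2) = 0 := by
    have := Bf_nat_zero (n := n + 1) (k := n + 2) (by omega)
    exact_mod_cast this
  have hz2 : Bf ((n : ℚ) + 1) (n + 2 + 1) = 0 := by
    have := Bf_nat_zero (n := n + 1) (k := n + 2 + 1) (by omega)
    exact_mod_cast this
  have h := Sm om ((n : ℚ) + 1) (n + 2)
  rw [hz2, mul_zero, add_zero, sum_range_succ (fun k => Bf ((n : ℚ) + 1) k * Tm om k) (n + 2), hz1,
    zero_mul, add_zero, mul_zero, sub_zero] at h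
  rw [ev_eq om (n + 2) (n + 2) le_rfl, ev_eq om (n + 1) (n + 2) (by omega),
    ev_eq om n (n + 2) (by omega), ← h, mul_sum, mul_sum, mul_sum, mul_sum, ← sum_add_distrib,
    ← sum_add_distrib]
  refine sum_congr rfl fun k _ => ?_
  have hk := Lm_Bf ((n : ℚ) + 1) k
  rw [show (n : ℚ) + 1 + 1 = n + 2 by ring, show (n : ℚ) + 1 - 1 = n by ring] at hk
  push_cast
  linear_combination om k * hk

/-- uniqueness for the recurrence (with any right hand side) -/
theorem rec_unique (al r : ℕ → ℚ) (f g : ℕ → ℚ)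
    (hf : ∀ n : ℕ, ((n : ℚ) + 2) ^ 3 * f (n + 2) = al n * f (n + 1) - ((n : ℚ) + 1) ^ 3 * f n + r n)
    (hg : ∀ n : ℕ, ((n : ℚ) + 2) ^ 3 * g (n + 2) = al n * g (n + 1) - ((n : ℚ) + 1) ^ 3 * g n + r n)
    (h0 : f 0 = g 0) (h1 : f 1 = g 1) (n : ℕ) : f n = g n := by
  have key : ∀ n, f n = g n ∧ f (n + 1) = g (n + 1) := by
    intro n
    induction n with
    | zero => exact ⟨h0, h1⟩
    | succ n ih =>
      refine ⟨ih.2, ?_⟩
      have a := hf n
      have b := hg n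
      rw [ih.1, ih.2, ← b] at a
      have h : (((n : ℚ) + 2) ^ 3) ≠ 0 := by positivity
      exact mul_left_cancel₀ h a
  exact (key n).1

/-! ### the coefficient sequences -/

/-- coefficients of `cs 1` : `0, 1/2, …` -/
def omP : ℕ → ℚ
  | 0 => 0
  | 1 => 1 / 2
  | (k + 2) => ((7 * ((k : ℚ) + 1) ^ 2 + 7 * ((k : ℚ) + 1) + 2) * omP (k + 1)
      + 8 * ((k : ℚ) + 1) ^ 2 * omP k) / ((k : ℚ) + 2) ^ 2

/-- coefficients of `(-1)^n cs (-1) n` : `0, -1/2, …` -/
def omM : ℕ → ℚ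
  | 0 => 0
  | 1 => -1 / 2
  | (k + 2) => (-(10 * ((k : ℚ) + 1) ^ 2 + 10 * ((k : ℚ) + 1) + 3) * omM (k + 1)
      - 9 * ((k : ℚ) + 1) ^ 2 * omM k) / ((k : ℚ) + 2) ^ 2

/-- coefficients of `aperyB` : `0, 3, …` -/
def omB : ℕ → ℚ
  | 0 => 0
  | 1 => 3
  | (k + 2) => ((7 * ((k : ℚ) + 1) ^ 2 + 7 * ((k : ℚ) + 1) + 2) * omB (k + 1)
      + 8 * ((k : ℚ) + 1) ^ 2 * omB k + 3 * (-1) ^ (k + 1) / ((k : ℚ) + 2)) / ((k : ℚ) + 2) ^ 2

theorem Tp_fC (k : ℕ) : Tp (fun k => (fC k : ℚ)) k = 0 := by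
  cases k with
  | zero => simp [Tp, fC_zero, fC_one]
  | succ k =>
    have h := fC_rec (R := ℚ) k
    simp only [Tp, Nat.add_sub_cancel]
    push_cast
    linear_combination h

theorem Tp_omP (k : ℕ) : Tp omP k = if k = 0 then 1 / 2 else 0 := by
  cases k with
  | zero => simp [Tp, omP]
  | succ k =>
    rw [if_neg (by omega)]
    simp only [Tp, Nat.add_sub_cancel, omP]
    have h1 : ((k : ℚ) + 2) ≠ 0 := by positivity
    push_cast
    rw [show (k : ℚ) + 1 + 1 = k + 2 by ring]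
    field_simp
    ring

theorem Tm_omM (k : ℕ) : Tm omM k = if k = 0 then -1 / 2 else 0 := by
  cases k with
  | zero => simp [Tm, omM]
  | succ k =>
    rw [if_neg (by omega)]
    simp only [Tm, Nat.add_sub_cancel, omM]
    have h1 : ((k : ℚ) + 2) ≠ 0 := by positivity
    push_cast
    rw [show (k : ℚ) + 1 + 1 = k + 2 by ring]
    field_simp
    ring

theorem Tp_omB (k : ℕ) : Tp omB k = 3 * (-1) ^ k / ((k : ℚ) + 1) := by
  cases k with
  | zero => simp [Tp, omB]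
  | succ k =>
    simp only [Tp, Nat.add_sub_cancel, omB]
    have h1 : ((k : ℚ) + 2) ≠ 0 := by positivity
    push_cast
    rw [show (k : ℚ) + 1 + 1 = k + 2 by ring]
    field_simp
    ring

/-- `n (n+1) ∑_{k≤m} (-1)^k B_k(n) / (k+1)` telescopes -/
theorem alt_tel (x : ℚ) (m : ℕ) :
    x * (x + 1) * ∑ k ∈ range (m + 1), Bf x k * ((-1) ^ k / ((k : ℚ) + 1))
      = (-1) ^ m * ((m : ℚ) + 1) * Bf x (m + 1) := by
  induction m with
  | zero =>
    have h := Bf_succ x 0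
    rw [Bf_zero] at h
    simp only [zero_add, range_one, sum_singleton, Bf_zero] at h ⊢
    push_cast at h ⊢
    linarith
  | succ m ih =>
    rw [sum_range_succ, mul_add, ih]
    have h := Bf_succ x (m + 1)
    have h1 : ((m : ℚ) + 2) ≠ 0 := by positivity
    have h2 : ((m : ℚ) + 2) * Bf x (m + 1 + 1)
        = Bf x (m + 1) * ((x - ((m : ℚ) + 1)) * (x + ((m : ℚ) + 1) + 1)) / ((m : ℚ) + 2) := by
      rw [eq_div_iff h1]
      push_cast at h
      linear_combination h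
    push_cast
    rw [show (m : ℚ) + 1 + 1 = m + 2 by ring, mul_assoc ((-1 : ℚ) ^ (m + 1)), h2, pow_succ]
    field_simp
    ring

theorem alt_sum (n : ℕ) :
    ∑ k ∈ range (n + 2), Bf ((n : ℚ) + 1) k * ((-1) ^ k / ((k : ℚ) + 1)) = 0 := by
  have h := alt_tel ((n : ℚ) + 1) (n + 1)
  have hz : Bf ((n : ℚ) + 1) (n + 1 + 1) = 0 := by
    have := Bf_nat_zero (n := n + 1) (k := n + 1 + 1) (by omega)
    exact_mod_cast this
  rw [hz, mul_zero] at h
  have hx : ((n : ℚ) + 1) * ((n : ℚ) + 1 + 1) ≠ 0 := by positivity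
  exact (mul_eq_zero.1 h).resolve_left hx

theorem ev_zero (om : ℕ → ℚ) : ev om 0 = om 0 := by simp [ev, Bn]

theorem ev_one (om : ℕ → ℚ) : ev om 1 = om 0 + 2 * om 1 := by
  simp [ev, sum_range_succ, Bn]
  ring

/-- **`a_n = ∑ f_k C(n,k) C(n+k,k)`** -/
theorem aperyA_ev (n : ℕ) : aperyA n = ev (fun k => (fC k : ℚ)) n := by
  refine rec_unique (fun n => ap ((n : ℚ) + 1)) (fun _ => 0) _ _ ?_ ?_ ?_ ?_ n
  · intro n
    have := aperyA_rec n
    simp only [add_zero]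
    exact this
  · intro n
    have h := Lp_ev (fun k => (fC k : ℚ)) n
    simp only [Tp_fC, mul_zero, sum_const_zero] at h
    simp only [add_zero]
    linear_combination h
  · rw [aperyA_zero, ev_zero, fC_zero]; simp
  · rw [aperyA_one, ev_one, fC_zero, fC_one]; norm_num

/-- **`b_n = ∑ omB_k C(n,k) C(n+k,k)`** -/
theorem aperyB_ev (n : ℕ) : aperyB n = ev omB n := by
  refine rec_unique (fun n => ap ((n : ℚ) + 1)) (fun _ => 0) _ _ ?_ ?_ ?_ ?_ n
  · intro n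
    have := aperyB_rec n
    simp only [add_zero]
    exact this
  · intro n
    have h := Lp_ev omB n
    have e : ∑ k ∈ range (n + 2), Bf ((n : ℚ) + 1) k * Tp omB k
        = 3 * ∑ k ∈ range (n + 2), Bf ((n : ℚ) + 1) k * ((-1) ^ k / ((k : ℚ) + 1)) := by
      rw [mul_sum]
      refine sum_congr rfl fun k _ => ?_
      rw [Tp_omB]
      ring
    rw [e, alt_sum] at h
    simp only [add_zero]
    linear_combination h
  · rw [aperyB_zero, ev_zero]; rfl
  · rw [aperyB_one, ev_one]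
    simp only [omB]
    norm_num

/-- **`cs 1 n = ∑ omP_k C(n,k) C(n+k,k)`** -/
theorem cs_one_ev (n : ℕ) : cs 1 n = ev omP n := by
  refine rec_unique (fun n => ap ((n : ℚ) + 1)) (fun n => 2 * ((n : ℚ) + 1) + 1) _ _ ?_ ?_ ?_ ?_ n
  · intro n
    have := cs_rec 1 n
    rw [one_pow, one_mul] at this
    exact this
  · intro n
    have h := Lp_ev omP n
    have e : ∑ k ∈ range (n + 2), Bf ((n : ℚ) + 1) k * Tp omP k = 1 / 2 := by
      simp only [Tp_omP]
      rw [sum_eq_single 0]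
      · simp [Bf_zero]
      · intro b _ hb
        rw [if_neg hb, mul_zero]
      · intro h0
        exact absurd (Finset.mem_range.2 (by omega)) h0
    rw [e] at h
    linear_combination h
  · rw [cs_zero, ev_zero]; rfl
  · rw [cs_one, ev_one]
    simp only [omP]
    norm_num

/-- **`(-1)^n cs (-1) n = ∑ omM_k C(n,k) C(n+k,k)`** -/
theorem cs_neg_ev (n : ℕ) : (-1) ^ n * cs (-1) n = ev omM n := by
  refine rec_unique (fun n => -ap ((n : ℚ) + 1)) (fun n => -(2 * ((n : ℚ) + 1) + 1))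
    (fun n => (-1) ^ n * cs (-1) n) (ev omM) ?_ ?_ ?_ ?_ n
  · intro n
    have := cs_rec (-1) n
    have hs : ((-1 : ℚ) ^ n) ^ 2 = 1 := by
      rw [← pow_mul, mul_comm, pow_mul]
      simp
    have e2 : (-1 : ℚ) ^ (n + 2) = (-1) ^ n := by rw [pow_add]; norm_num
    have e1 : (-1 : ℚ) ^ (n + 1) = -(-1) ^ n := by rw [pow_succ]; ring
    rw [e1] at this
    rw [e2, e1]
    linear_combination (-1 : ℚ) ^ n * this - (2 * ((n : ℚ) + 1) + 1) * hs
  · intro n
    have h := Lm_ev omM n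
    have e : ∑ k ∈ range (n + 2), Bf ((n : ℚ) + 1) k * Tm omM k = -1 / 2 := by
      simp only [Tm_omM]
      rw [sum_eq_single 0]
      · simp [Bf_zero]
      · intro b _ hb
        rw [if_neg hb, mul_zero]
      · intro h0
        exact absurd (Finset.mem_range.2 (by omega)) h0
    rw [e] at h
    linear_combination h
  · rw [cs_zero, ev_zero, mul_zero]; rfl
  · rw [cs_one, ev_one]
    simp only [omM]
    norm_num

end T2
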