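import Pool.Agent.T2.RuleA
import Pool.Agent.QS2.NonVanD

/-!
# T2: the polynomial parts as linear maps, and their integrality

`ppL s P = [P * ∑ s m / z^m]_+` (`= QS2.pp s P`), linear in `P`.
-/

set_option autoImplicit false

namespace T2

open Finset Polynomial QS2

section gen

variable {F : Type*} [Field F]

/-- `P ↦ [P * ∑ s m / z^m]_+` -/
noncomputable def ppL (s : ℕ → F) : F[X] →ₗ[F] F[X] := QS2.NV.pp (PowerSeries.mk s)

theorem ppL_apply (s : ℕ → F) (P : F[X]) : ppL s P = QS2.pp s P := (QS2.NV.pp_eq s P).symm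

theorem ppL_coeff (s : ℕ → F) (P : F[X]) (d : ℕ) : (ppL s P).coeff d =
    ∑ i ∈ range (P.natDegree + 1), P.coeff i * (if d ≤ i then s (i - d) else 0) := by
  rw [ppL_apply, pp_coeff]

theorem ppL_coeff_of_lt (s : ℕ → F) (P : F[X]) (d N : ℕ) (h : P.natDegree < N) :
    (ppL s P).coeff d = ∑ i ∈ range N, P.coeff i * (if d ≤ i then s (i - d) else 0) := by
  rw [ppL_apply, pp_coeff_of_lt s P d N h]

theorem ppL_natDegree (s : ℕ → F) (P : F[X]) : (ppL s P).natDegree ≤ P.natDegree := by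
  rw [natDegree_le_iff_coeff_eq_zero]
  intro d hd
  rw [ppL_coeff]
  refine sum_eq_zero (fun i hi => ?_)
  rw [mem_range] at hi
  rw [if_neg (by omega), mul_zero]

/-- the leading coefficient is lost when `s 0 = 0` -/
theorem ppL_coeff_top (s : ℕ → F) (h0 : s 0 = 0) (P : F[X]) (d : ℕ) (hd : P.natDegree ≤ d) :
    (ppL s P).coeff d = 0 := by
  rw [ppL_coeff]
  refine sum_eq_zero (fun i hi => ?_)
  rw [mem_range] at hi
  split_ifs with h
  · have : i - d = 0 := by omega
    rw [this, h0, mul_zero]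
  · rw [mul_zero]

/-- compatibility with homomorphisms of fields -/
theorem ppL_map {G : Type*} [Field G] (φ : F →+* G) (s : ℕ → F) (P : F[X]) :
    ppL (fun m => φ (s m)) (P.map φ) = (ppL s P).map φ := by
  ext d
  rw [coeff_map, ppL_coeff s P, ppL_coeff_of_lt (fun m => φ (s m)) (P.map φ) d (P.natDegree + 1)
    (by rw [natDegree_map]; omega), map_sum]
  refine sum_congr rfl (fun i _ => ?_)
  rw [coeff_map, map_mul]
  split_ifs
  · rfl
  · rw [map_zero]

/-- integrality -/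
theorem ppL_mem {O : Subring F} {s : ℕ → F} (hs : ∀ m, s m ∈ O) {P : F[X]}
    (hP : ∀ i, P.coeff i ∈ O) (d : ℕ) : (ppL s P).coeff d ∈ O := by
  rw [ppL_coeff]
  refine O.sum_mem (fun i _ => O.mul_mem (hP i) ?_)
  split_ifs
  · exact hs _
  · exact O.zero_mem

theorem eval_mem_of_coeff {O : Subring F} {P : F[X]} (hP : ∀ i, P.coeff i ∈ O) {x : F}
    (hx : x ∈ O) : P.eval x ∈ O := by
  rw [eval_eq_sum_range]
  exact O.sum_mem fun i _ => O.mul_mem (hP i) (O.pow_mem hx _)

theorem coeff_X_pow_mem (O : Subring F) (i d : ℕ) : ((X : F[X]) ^ i).coeff d ∈ O := by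
  rw [coeff_X_pow]
  split_ifs
  · exact O.one_mem
  · exact O.zero_mem

end gen

section K

variable {p : ℕ} [hp : Fact p.Prime]

/-- the functionals of the `P`-part -/
noncomputable def LAs (s : Fin 2 → ℕ → K) : Fin 2 → K[X] →ₗ[K] K[X] := fun j => ppL (s j)

/-- the functionals of the `Q`-part; `e = ![1, -1]` -/
noncomputable def LBs (e : Fin 2 → K) (s1 : Fin 2 → ℕ → K) : Fin 2 → K[X] →ₗ[K] K[X] :=
  fun j => e j • ppL (s1 j)

theorem LAs_apply (s : Fin 2 → ℕ → K) (j : Fin 2) (P : K[X]) : LAs s j P = pp (s j) P :=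
  ppL_apply _ _

theorem LBs_apply (e : Fin 2 → K) (s1 : Fin 2 → ℕ → K) (j : Fin 2) (Q : K[X]) :
    LBs e s1 j Q = e j • pp (s1 j) Q := by
  unfold LBs
  rw [LinearMap.smul_apply, ppL_apply]

/-- **the input of rule A** from the integrality of the sheets and of the good pairs -/
theorem sheetInt_of {P Q : ℕ → K[X]} {s s1 : Fin 2 → ℕ → K} {e : Fin 2 → K}
    (hs : ∀ j m, s j m ∈ Op p) (hs1 : ∀ j m, s1 j m ∈ Op p)
    (hst : ∀ j m, (starRingEnd K) (s j m) = s j m)
    (hst1 : ∀ j m, (starRingEnd K) (s1 j m) = s1 j m)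
    (he : ∀ j, e j ∈ Op p) (hest : ∀ j, (starRingEnd K) (e j) = e j)
    (hgood : ∀ j D, Cls.dg p + 3 ≤ D → ∀ n : ℤ, (pp (s j) (P D)).eval (n : K) +
      e j * (pp (s1 j) ((X + 1) ^ 3 * Q D)).eval (n : K) ∈ Op p) :
    SheetInt p (LAs s) (LBs e s1) P Q := by
  have hsf : ∀ j, (fun m => (starRingEnd K) (s j m)) = s j := fun j => funext (hst j)
  have hsf1 : ∀ j, (fun m => (starRingEnd K) (s1 j m)) = s1 j := fun j => funext (hst1 j)
  refine ⟨fun j F => ?_, fun j F => ?_, fun j i n => ?_, fun j i n => ?_, fun j D hD n => ?_⟩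
  · have := ppL_map (starRingEnd K) (s j) F
    rw [hsf j] at this
    exact this
  · have := ppL_map (starRingEnd K) (s1 j) F
    rw [hsf1 j] at this
    unfold LBs
    rw [LinearMap.smul_apply, LinearMap.smul_apply, this, smul_eq_C_mul, smul_eq_C_mul,
      Polynomial.map_mul, map_C, hest j]
  · exact eval_mem_of_coeff (ppL_mem (hs j) (coeff_X_pow_mem _ i)) (intCast_mem _ n)
  · unfold LBs
    rw [LinearMap.smul_apply, eval_smul, smul_eq_mul]
    exact (Op p).mul_mem (he j)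
      (eval_mem_of_coeff (ppL_mem (hs1 j) (coeff_X_pow_mem _ i)) (intCast_mem _ n))
  · rw [LAs_apply, LBs_apply, eval_add, eval_smul, smul_eq_mul]
    exact hgood j D hD n

end K

end T2
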