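import Pool.Agent.QS2.SmallP
import Pool.Agent.T2.SF1

/-!
# T2, small primes 1: the action of the sheets on binomial polynomials

`act_sheet`: for `S = ∑ κ_k T_k` with `p^(c k + c0) κ_k` integral, the coefficient of `C(X,e)` in
the polynomial part of `S C(X,i)` is integral up to `p^(4 log_p i + c0 + c (i-e)/2)`.
-/

set_option autoImplicit false

namespace T2

open Polynomial Finset QS2SP

variable {F : Type*} [Field F]

/-! ### `T` and `T1` as products of two elementary factors -/

theorem HH_neg_mul (m : ℕ) : HH m (-(m : F)) *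
    (∏ i ∈ range (m + 1), (1 - PowerSeries.C (i : F) * PowerSeries.X)) =
    PowerSeries.C (m.factorial : F) * PowerSeries.X ^ (m + 1) := by
  have h : ∏ r ∈ range (m + 1), (1 + PowerSeries.C (-(m : F) + r) * PowerSeries.X :
      PowerSeries F)⁻¹ = ∏ i ∈ range (m + 1), (1 - PowerSeries.C (i : F) * PowerSeries.X)⁻¹ := by
    rw [← Finset.prod_range_reflect]
    refine Finset.prod_congr rfl fun i hi => ?_
    rw [Finset.mem_range] at hi
    have e : (-(m : F) + ((m + 1 - 1 - i : ℕ) : F)) = -(i : F) := by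
      rw [show m + 1 - 1 - i = m - i by omega, Nat.cast_sub (by omega)]
      ring
    rw [e, map_neg, neg_mul, ← sub_eq_add_neg]
  unfold HH
  rw [h, mul_assoc, ← Finset.prod_mul_distrib]
  have h2 : ∀ i ∈ range (m + 1), (1 - PowerSeries.C (i : F) * PowerSeries.X : PowerSeries F)⁻¹ *
      (1 - PowerSeries.C (i : F) * PowerSeries.X) = 1 := fun i _ =>
    PowerSeries.inv_mul_cancel _ (by simp)
  rw [Finset.prod_congr rfl h2, Finset.prod_const_one, mul_one]

theorem HH_pos_mul (m : ℕ) (a : F) : HH m a *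
    (∏ i ∈ range (m + 1), (1 + PowerSeries.C (a + i) * PowerSeries.X)) =
    PowerSeries.C (m.factorial : F) * PowerSeries.X ^ (m + 1) := by
  unfold HH
  rw [mul_assoc, ← Finset.prod_mul_distrib]
  have h2 : ∀ i ∈ range (m + 1), (1 + PowerSeries.C (a + i) * PowerSeries.X : PowerSeries F)⁻¹ *
      (1 + PowerSeries.C (a + i) * PowerSeries.X) = 1 := fun i _ =>
    PowerSeries.inv_mul_cancel _ (by simp)
  rw [Finset.prod_congr rfl h2, Finset.prod_const_one, mul_one]

theorem T_eq_HH (m : ℕ) : T F m = HH m (-(m : F)) * HH m 1 := by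
  have h1 := HH_neg_mul (F := F) m
  have h2 := HH_pos_mul (F := F) m 1
  have h3 := T_mul_den (F := F) m
  have hden : den F m = (∏ i ∈ range (m + 1), (1 + PowerSeries.C ((1 : F) + i) * PowerSeries.X)) *
      ∏ i ∈ range (m + 1), (1 - PowerSeries.C (i : F) * PowerSeries.X) := by
    unfold den
    rw [Finset.prod_mul_distrib]
    congr 1
    refine Finset.prod_congr rfl fun i _ => ?_
    rw [add_comm (i : F) 1]
  apply mul_right_cancel₀ (den_ne (F := F) m)
  rw [h3, hden, map_pow]
  linear_combination (-(PowerSeries.C (m.factorial : F) * PowerSeries.X ^ (m + 1))) * h1 -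
    (HH m (-(m : F)) * (∏ i ∈ range (m + 1), (1 - PowerSeries.C (i : F) * PowerSeries.X))) * h2

theorem T1_eq_HH (m : ℕ) : T1 F m = HH m (1 - (m : F)) * HH m 2 := by
  have h1 := HH_pos_mul (F := F) m (1 - (m : F))
  have h2 := HH_pos_mul (F := F) m 2
  have h3 := T_mul_den (F := F) m
  have h4 := T1_mul (F := F) m
  -- the product of the denominators
  have hA : ∀ n : ℕ, (∏ i ∈ range (n + 1), (1 + PowerSeries.C ((2 : F) + i) * PowerSeries.X)) *
      (1 + PowerSeries.X) = (∏ i ∈ range (n + 1), (1 + PowerSeries.C ((i : F) + 1) *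
        PowerSeries.X)) * (1 + PowerSeries.C ((n : F) + 2) * PowerSeries.X) := by
    intro n
    induction n with
    | zero => simp [mul_comm]
    | succ n ih =>
      rw [Finset.prod_range_succ, mul_right_comm, ih, Finset.prod_range_succ _ (n + 1)]
      have e1 : (PowerSeries.C ((2 : F) + ((n + 1 : ℕ) : F)) : PowerSeries F) =
          PowerSeries.C (((n + 1 : ℕ) : F) + 2) := by rw [add_comm]
      have e2 : (PowerSeries.C (((n + 1 : ℕ) : F) + 1) : PowerSeries F) =
          PowerSeries.C ((n : F) + 2) := by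
        congr 1
        push_cast
        ring
      rw [e1, e2]
  have hB : (∏ i ∈ range (m + 1), (1 + PowerSeries.C ((1 - (m : F)) + i) * PowerSeries.X)) *
      (1 - PowerSeries.C (m : F) * PowerSeries.X) =
      (∏ i ∈ range (m + 1), (1 - PowerSeries.C (i : F) * PowerSeries.X)) *
        (1 + PowerSeries.X) := by
    have e0 : (∏ i ∈ range (m + 1), (1 + PowerSeries.C ((1 - (m : F)) + i) * PowerSeries.X) :
        PowerSeries F) =
        ∏ i ∈ range (m + 1), (1 - PowerSeries.C ((i : F) - 1) * PowerSeries.X) := by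
      rw [← Finset.prod_range_reflect]
      refine Finset.prod_congr rfl fun i hi => ?_
      rw [Finset.mem_range] at hi
      have e : (1 - (m : F)) + ((m + 1 - 1 - i : ℕ) : F) = -((i : F) - 1) := by
        rw [show m + 1 - 1 - i = m - i by omega, Nat.cast_sub (by omega)]
        ring
      rw [e, map_neg, neg_mul, ← sub_eq_add_neg]
    rw [e0]
    clear h1 h2 h3 h4 e0
    induction m with
    | zero => simp
    | succ n ih =>
      rw [Finset.prod_range_succ, Finset.prod_range_succ _ (n + 1)]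
      have e1 : (PowerSeries.C (((n + 1 : ℕ) : F) - 1) : PowerSeries F) =
          PowerSeries.C (n : F) := by
        congr 1
        push_cast
        ring
      rw [e1]
      linear_combination (1 - PowerSeries.C ((n + 1 : ℕ) : F) * PowerSeries.X) * ih
  have hne1 : (1 + PowerSeries.X : PowerSeries F) ≠ 0 := by
    have := lin_ne (F := F) 1
    simpa using this
  have hne2 := lin_ne' (F := F) (m : F)
  have hne3 := lin_ne (F := F) ((m : F) + 2)
  have hden := den_ne (F := F) m
  have hdeneq : den F m = (∏ i ∈ range (m + 1), (1 + PowerSeries.C ((i : F) + 1) *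
      PowerSeries.X)) * ∏ i ∈ range (m + 1), (1 - PowerSeries.C (i : F) * PowerSeries.X) := by
    unfold den
    rw [Finset.prod_mul_distrib]
  set a := HH m (1 - (m : F)) with ha
  set b := HH m (2 : F) with hb
  set Pa : PowerSeries F :=
    ∏ i ∈ range (m + 1), (1 + PowerSeries.C ((1 - (m : F)) + i) * PowerSeries.X) with hPa
  set Pb : PowerSeries F :=
    ∏ i ∈ range (m + 1), (1 + PowerSeries.C ((2 : F) + i) * PowerSeries.X) with hPb
  set P1 : PowerSeries F :=
    ∏ i ∈ range (m + 1), (1 + PowerSeries.C ((i : F) + 1) * PowerSeries.X) with hP1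
  set P2 : PowerSeries F :=
    ∏ i ∈ range (m + 1), (1 - PowerSeries.C (i : F) * PowerSeries.X) with hP2
  have hAm := hA m
  rw [← hPb, ← hP1] at hAm
  -- `a * b * (Pa * Pb) = m!^2 X^(2m+2)`
  have hab : a * b * (Pa * Pb) = PowerSeries.C ((m.factorial : F) ^ 2) *
      PowerSeries.X ^ (2 * m + 2) := by
    rw [map_pow]
    linear_combination (b * Pb) * h1 + (PowerSeries.C (m.factorial : F) *
      PowerSeries.X ^ (m + 1)) * h2
  -- `Pa * Pb * (1 - mX) (1+X) = P1 P2 (1+X) (1+(m+2)X)`
  have hPP : Pa * Pb * ((1 - PowerSeries.C (m : F) * PowerSeries.X) * (1 + PowerSeries.X)) =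
      den F m * (1 + PowerSeries.C ((m : F) + 2) * PowerSeries.X) * (1 + PowerSeries.X) := by
    rw [hdeneq]
    linear_combination (Pb * (1 + PowerSeries.X)) * hB + (P2 * (1 + PowerSeries.X)) * hAm
  have hPP' : Pa * Pb * (1 - PowerSeries.C (m : F) * PowerSeries.X) =
      den F m * (1 + PowerSeries.C ((m : F) + 2) * PowerSeries.X) := by
    apply mul_right_cancel₀ hne1
    linear_combination hPP
  apply mul_right_cancel₀ (mul_ne_zero hden hne3)
  linear_combination den F m * h4 + (1 - PowerSeries.C (m : F) * PowerSeries.X) * h3 -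
    (1 - PowerSeries.C (m : F) * PowerSeries.X) * hab + a * b * hPP'

variable [CharZero F]

theorem nice_T {R : Subring F} {p : ℕ} (hp : p.Prime) (hR : PLoc R p) (m : ℕ) :
    Nice R p 4 (T F m) := by
  rw [T_eq_HH]
  have g1 : Good R p (-(m : F)) := by
    have := Good.int (K := F) R p (-(m : ℤ))
    rwa [Int.cast_neg, Int.cast_natCast] at this
  have g2 : Good R p (1 : F) := by
    have := Good.int (K := F) R p 1
    rwa [Int.cast_one] at this
  have h := (Nice.HH hp hR m (-(m : F)) g1).mul (Nice.HH hp hR m (1 : F) g2)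
  exact h

theorem nice_T1 {R : Subring F} {p : ℕ} (hp : p.Prime) (hR : PLoc R p) (m : ℕ) :
    Nice R p 4 (T1 F m) := by
  rw [T1_eq_HH]
  have g1 : Good R p (1 - (m : F)) := by
    have := Good.int (K := F) R p (1 - (m : ℤ))
    rwa [Int.cast_sub, Int.cast_one, Int.cast_natCast] at this
  have g2 : Good R p (2 : F) := by
    have := Good.int (K := F) R p 2
    rwa [Int.cast_ofNat] at this
  have h := (Nice.HH hp hR m (1 - (m : F)) g1).mul (Nice.HH hp hR m (2 : F) g2)
  exact h

/-! ### degrees -/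

omit [CharZero F] in
theorem act_coeff_dvd {G : PowerSeries F} {n : ℕ} (h : (PowerSeries.X : PowerSeries F) ^ n ∣ G)
    (Q : F[X]) {d : ℕ} (hd : Q.natDegree < d + n) : (act G Q).coeff d = 0 := by
  rw [act_coeff G Q d (Nat.lt_succ_self _)]
  apply Finset.sum_eq_zero
  intro k _
  by_cases hk : k < n
  · rw [PowerSeries.X_pow_dvd_iff.1 h k hk, zero_mul]
  · rw [coeff_eq_zero_of_natDegree_lt (by omega), mul_zero]

/-- an integral combination, of small degree -/
theorem IntR_coeff_zero {R : Subring F} {D : ℕ} {Q : F[X]} (h : IntR R D Q) {n : ℕ}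
    (hn : ∀ d, n ≤ d → Q.coeff d = 0) :
    ∃ c : ℕ → F, (∀ k, c k ∈ R) ∧ (∀ k, n ≤ k → c k = 0) ∧
      Q = ∑ k ∈ range (D + 1), C (c k) * chP F k := by
  obtain ⟨c, hc, hQ⟩ := h
  -- the coefficients of index `≥ n` vanish
  have key : ∀ m, ∀ k, D < k + m → k ≤ D → n ≤ k → c k = 0 := by
    intro m
    induction m with
    | zero => intro k h1 h2; omega
    | succ m ih =>
      intro k h1 h2 h3
      have h4 := hn k h3
      rw [hQ, finsetSum_coeff] at h4
      simp only [coeff_C_mul] at h4
      rw [Finset.sum_eq_single k] at h4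
      · rw [coeff_chP_self] at h4
        rcases mul_eq_zero.1 h4 with h5 | h5
        · exact h5
        · exact absurd h5 (inv_ne_zero (fac_ne k))
      · intro j hj hjk
        rw [Finset.mem_range] at hj
        rcases lt_or_gt_of_ne hjk with h5 | h5
        · rw [coeff_eq_zero_of_natDegree_lt (by rw [natDegree_chP]; exact h5), mul_zero]
        · rw [ih j (by omega) (by omega) (by omega), zero_mul]
      · intro h5
        exact absurd (Finset.mem_range.2 (by omega)) h5
  refine ⟨fun k => if n ≤ k then 0 else c k, fun k => ?_, fun k hk => if_pos hk, ?_⟩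
  · dsimp only
    split_ifs
    · exact R.zero_mem
    · exact hc k
  · rw [hQ]
    refine Finset.sum_congr rfl fun k hk => ?_
    rw [Finset.mem_range] at hk
    dsimp only
    by_cases h : n ≤ k
    · rw [if_pos h, key (D + 1) k (by omega) (by omega) h]
    · rw [if_neg h]

/-- **the action of a sheet** -/
theorem act_sheet {R : Subring F} {p : ℕ} (hp : p.Prime) {G : ℕ → PowerSeries F}
    (hG : ∀ k, Nice R p 4 (G k)) (hGd : ∀ k, (PowerSeries.X : PowerSeries F) ^ (2 * k + 2) ∣ G k)
    {κ : ℕ → F} {c c0 : ℕ} (hκ : ∀ k, (p : F) ^ (c * k + c0) * κ k ∈ R) {S : PowerSeries F}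
    (hS : ∀ N : ℕ, (PowerSeries.X : PowerSeries F) ^ N ∣
      S - ∑ k ∈ range N, PowerSeries.C (κ k) * G k) (i : ℕ) :
    ∃ b : ℕ → F, (∀ e, i ≤ e → b e = 0) ∧
      (∀ e, (p : F) ^ (4 * Nat.log p i + c0 + c * ((i - e) / 2)) * b e ∈ R) ∧
      ∀ A, i ≤ A → act S (chP F i) = ∑ e ∈ range A, C (b e) * chP F e := by
  have hp0 : (p : F) ≠ 0 := Nat.cast_ne_zero.mpr hp.ne_zero
  -- the coefficients for each `k`
  have h1 : ∀ k, ∃ a : ℕ → F, (∀ e, a e ∈ R) ∧ (∀ e, i < e + (2 * k + 2) → a e = 0) ∧
      C ((p : F) ^ (4 * Nat.log p i)) * act (G k) (chP F i) =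
        ∑ e ∈ range (i + 1), C (a e) * chP F e := by
    intro k
    obtain ⟨a, ha, ha0, he⟩ := IntR_coeff_zero (hG k i (chP F i) (IntR.chP R le_rfl))
      (n := i + 1 - (2 * k + 2)) (by
        intro d hd
        rw [coeff_C_mul, act_coeff_dvd (hGd k) _ (by rw [natDegree_chP]; omega), mul_zero])
    exact ⟨a, ha, fun e h => ha0 e (by omega), he⟩
  choose a ha ha0 hae using h1
  set b : ℕ → F := fun e => ∑ k ∈ range (i + 1), κ k * (((p : F) ^ (4 * Nat.log p i))⁻¹ * a k e)
    with hb
  have hb0 : ∀ e, i ≤ e → b e = 0 := by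
    intro e he
    apply Finset.sum_eq_zero
    intro k _
    rw [ha0 k e (by omega), mul_zero, mul_zero]
  refine ⟨b, hb0, ?_, ?_⟩
  · intro e
    rw [hb, Finset.mul_sum]
    apply R.sum_mem
    intro k _
    by_cases hk : i < e + (2 * k + 2)
    · rw [ha0 k e hk, mul_zero, mul_zero, mul_zero]
      exact R.zero_mem
    · have hk' : k ≤ (i - e) / 2 := by omega
      have hexp : 4 * Nat.log p i + c0 + c * ((i - e) / 2) =
          c * ((i - e) / 2 - k) + (4 * Nat.log p i + (c * k + c0)) := by
        have : c * ((i - e) / 2) = c * ((i - e) / 2 - k) + c * k := by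
          rw [← Nat.mul_add]
          congr 1
          omega
        omega
      have e1 : (p : F) ^ (4 * Nat.log p i + c0 + c * ((i - e) / 2)) *
          (κ k * (((p : F) ^ (4 * Nat.log p i))⁻¹ * a k e)) =
          (p : F) ^ (c * ((i - e) / 2 - k)) * ((p : F) ^ (c * k + c0) * κ k) * a k e := by
        rw [hexp, pow_add, pow_add _ (4 * Nat.log p i)]
        have : (p : F) ^ (4 * Nat.log p i) ≠ 0 := pow_ne_zero _ hp0
        field_simp
      rw [e1]
      exact R.mul_mem (R.mul_mem (R.pow_mem (natCast_mem R p) _) (hκ k)) (ha k e)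
  · -- the identity, first for `A = i + 1`
    have hmain : act S (chP F i) = ∑ e ∈ range (i + 1), C (b e) * chP F e := by
      have h2 : act S (chP F i) = act (∑ k ∈ range (i + 1), PowerSeries.C (κ k) * G k)
          (chP F i) := by
        apply act_congr (N := i) (by rw [natDegree_chP])
        intro k hk
        have h3 := PowerSeries.X_pow_dvd_iff.1 (hS (i + 1)) k (by omega)
        rw [map_sub, sub_eq_zero] at h3
        exact h3
      rw [h2, act_sum_left]
      have h4 : ∀ k ∈ range (i + 1), act (PowerSeries.C (κ k) * G k) (chP F i) =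
          ∑ e ∈ range (i + 1), C (κ k * (((p : F) ^ (4 * Nat.log p i))⁻¹ * a k e)) *
            chP F e := by
        intro k _
        rw [act_C_mul_left]
        have hpk : (p : F) ^ (4 * Nat.log p i) ≠ 0 := pow_ne_zero _ hp0
        have h5 : act (G k) (chP F i) = C (((p : F) ^ (4 * Nat.log p i))⁻¹) *
            ∑ e ∈ range (i + 1), C (a k e) * chP F e := by
          rw [← hae k, ← mul_assoc, ← C_mul, inv_mul_cancel₀ hpk, C_1, one_mul]
        rw [h5, Finset.mul_sum, Finset.mul_sum]
        refine Finset.sum_congr rfl fun e _ => ?_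
        rw [C_mul, C_mul]
        ring
      rw [Finset.sum_congr rfl h4, Finset.sum_comm]
      refine Finset.sum_congr rfl fun e _ => ?_
      rw [hb, map_sum, Finset.sum_mul]
    intro A hA
    rw [hmain]
    rcases Nat.lt_or_ge i A with hlt | hge
    · refine Finset.sum_subset (Finset.range_subset_range.2 (by omega)) ?_
      intro e _ he
      rw [Finset.mem_range, not_lt] at he
      rw [hb0 e (by omega), C_0, zero_mul]
    · have : A = i := le_antisymm hge hA
      subst this
      rw [Finset.sum_range_succ, hb0 A le_rfl, C_0, zero_mul, add_zero]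

/-- the sheet `sumT κ` -/
theorem act_sumT {R : Subring F} {p : ℕ} (hp : p.Prime) (hR : PLoc R p) {κ : ℕ → F} {c c0 : ℕ}
    (hκ : ∀ k, (p : F) ^ (c * k + c0) * κ k ∈ R) (i : ℕ) :
    ∃ b : ℕ → F, (∀ e, i ≤ e → b e = 0) ∧
      (∀ e, (p : F) ^ (4 * Nat.log p i + c0 + c * ((i - e) / 2)) * b e ∈ R) ∧
      ∀ A, i ≤ A → QS2.pp (sumT κ) (QS2.binP F i) = ∑ e ∈ range A, C (b e) * QS2.binP F e := by
  have h := act_sheet hp (fun k => nice_T hp hR k) (fun k => T_dvd k) hκ
    (S := PowerSeries.mk (sumT κ)) (fun N => sumT_dvd κ N) i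
  simp only [← pp_eq_act, chP_eq_binP] at h
  exact h

/-- the shifted sheet `sumT1 κ` -/
theorem act_sumT1 {R : Subring F} {p : ℕ} (hp : p.Prime) (hR : PLoc R p) {κ : ℕ → F} {c c0 : ℕ}
    (hκ : ∀ k, (p : F) ^ (c * k + c0) * κ k ∈ R) (i : ℕ) :
    ∃ b : ℕ → F, (∀ e, i ≤ e → b e = 0) ∧
      (∀ e, (p : F) ^ (4 * Nat.log p i + c0 + c * ((i - e) / 2)) * b e ∈ R) ∧
      ∀ A, i ≤ A → QS2.pp (sumT1 κ) (QS2.binP F i) = ∑ e ∈ range A, C (b e) * QS2.binP F e := by
  have h := act_sheet hp (fun k => nice_T1 hp hR k) (fun k => T1_dvd k) hκ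
    (S := PowerSeries.mk (sumT1 κ)) (fun N => sumT1_dvd κ N) i
  simp only [← pp_eq_act, chP_eq_binP] at h
  exact h

end T2
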