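import Pool.Agent.T2.SmP1
import Pool.Agent.T2.DetRank

/-!
# T2, small primes 2: the determinant

`smallP_design` : for a design matrix whose sheets cost `c 0`, `c 1` per two degrees,
`p^(eSm (c 0 + c 1) g A) * det` is integral, `eSm c g A = c (A²/6 + 2A) + 2 A g`.
-/

set_option autoImplicit false

namespace T2

open Polynomial Finset QS2SP

/-- exponent of a small prime -/
def eSm (c g A : ℕ) : ℕ := c * (A ^ 2 / 6 + 2 * A) + 2 * A * g

/-! ### the sum of the exponents -/

theorem sum_up (th n : ℕ) :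
    2 * ∑ i ∈ range (th + n), (i - th + 1) / 2 ≤ n * (n - 1) / 2 + n + th := by
  rw [Finset.sum_range_add]
  have h1 : ∑ i ∈ range th, (i - th + 1) / 2 = 0 := by
    apply Finset.sum_eq_zero
    intro i hi
    rw [Finset.mem_range] at hi
    have : i - th = 0 := by omega
    rw [this]
    norm_num
  have h2 : ∀ j, th + j - th = j := fun j => by omega
  simp only [h2]
  rw [h1, zero_add, Finset.mul_sum]
  have h3 : ∑ j ∈ range n, 2 * ((j + 1) / 2) ≤ ∑ j ∈ range n, (j + 1) :=
    Finset.sum_le_sum fun j _ => by omega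
  rw [Finset.sum_add_distrib, Finset.sum_range_id, Finset.sum_const, Finset.card_range,
    smul_eq_mul, mul_one] at h3
  omega

theorem sum_down (th n : ℕ) :
    2 * ∑ k ∈ range (th + n), (th - k + 1) / 2 ≤ th * (th + 1) / 2 + th + n := by
  rw [Finset.mul_sum]
  have h1 : ∑ k ∈ range (th + n), 2 * ((th - k + 1) / 2) ≤
      ∑ k ∈ range (th + n), ((th - k) + 1) :=
    Finset.sum_le_sum fun j _ => by omega
  have h0 : ∑ k ∈ range (th + n), (th - k) =
      ∑ k ∈ range th, (th - k) + ∑ j ∈ range n, (th - (th + j)) := Finset.sum_range_add _ _ _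
  rw [Finset.sum_add_distrib, Finset.sum_const, Finset.card_range, smul_eq_mul, mul_one,
    h0] at h1
  have h2 : ∑ j ∈ range n, (th - (th + j)) = 0 := by
    apply Finset.sum_eq_zero
    intro j _
    omega
  have h3 : ∑ k ∈ range th, (th - k) = th * (th + 1) / 2 := by
    have h4 : ∑ k ∈ range th, (th - k) = ∑ k ∈ range (th + 1), k := by
      rw [Finset.sum_range_succ' (fun k => k) th, add_zero, ← Finset.sum_range_reflect]
      refine Finset.sum_congr rfl fun k hk => ?_
      rw [Finset.mem_range] at hk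
      omega
    rw [h4, Finset.sum_range_id, Nat.add_sub_cancel, mul_comm]
  rw [h2, h3] at h1
  omega

theorem sum_exp (A : ℕ) :
    2 * (∑ i ∈ range A, (i - 2 * A / 3 + 1) / 2) + ∑ k ∈ range A, (2 * A / 3 - k + 1) / 2 ≤
      A ^ 2 / 6 + 2 * A := by
  obtain ⟨n, hn⟩ := Nat.exists_eq_add_of_le (show 2 * A / 3 ≤ A by omega)
  have h1 := sum_up (2 * A / 3) n
  have h2 := sum_down (2 * A / 3) n
  rw [← hn] at h1 h2
  set th := 2 * A / 3 with hth
  set U := ∑ i ∈ range A, (i - th + 1) / 2 with hU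
  set V := ∑ k ∈ range A, (th - k + 1) / 2 with hV
  have h3 : 2 * (n * (n - 1) / 2) ≤ n * (n - 1) := Nat.mul_div_le _ _
  have h4 : 2 * (th * (th + 1) / 2) ≤ th * (th + 1) := Nat.mul_div_le _ _
  have key : 6 * (2 * U + V) ≤ A ^ 2 + 12 * A := by
    obtain ⟨q, r, hr, hA⟩ : ∃ q r, r < 3 ∧ A = 3 * q + r :=
      ⟨A / 3, A % 3, Nat.mod_lt _ (by norm_num), (Nat.div_add_mod A 3).symm⟩
    have hq : n * (n - 1) ≤ (q + 1) * q ∧ th * (th + 1) ≤ (2 * q + 1) * (2 * q + 2) ∧
        n + th = 3 * q + r ∧ (r = 0 → n * (n - 1) ≤ q * q ∧ th * (th + 1) ≤ 2 * q * (2 * q + 1)) ∧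
        (r = 1 → th * (th + 1) ≤ 2 * q * (2 * q + 1)) := by
      have ht : th ≤ 2 * q + 1 := by omega
      have hnq : n ≤ q + 1 := by omega
      refine ⟨Nat.mul_le_mul hnq (by omega), Nat.mul_le_mul ht (by omega), by omega, ?_, ?_⟩
      · intro h
        have ht : th ≤ 2 * q := by omega
        have hnq : n ≤ q := by omega
        exact ⟨Nat.mul_le_mul hnq (by omega), Nat.mul_le_mul ht (by omega)⟩
      · intro h
        have ht : th ≤ 2 * q := by omega
        exact Nat.mul_le_mul ht (by omega)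
    obtain ⟨a1, a2, a3, a4, a5⟩ := hq
    have h5 : 4 * (2 * U + V) ≤ 2 * (n * (n - 1)) + th * (th + 1) + 6 * (n + th) := by omega
    interval_cases r
    · obtain ⟨b1, b2⟩ := a4 rfl
      rw [a3] at h5
      have e : A ^ 2 = 9 * (q * q) := by rw [hA]; ring
      rw [e, hA]
      have e2 : 2 * q * (2 * q + 1) = 4 * (q * q) + 2 * q := by ring
      rw [e2] at b2
      omega
    · have b2 := a5 rfl
      rw [a3] at h5
      have e : A ^ 2 = 9 * (q * q) + 6 * q + 1 := by rw [hA]; ring
      rw [e, hA]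
      have e2 : 2 * q * (2 * q + 1) = 4 * (q * q) + 2 * q := by ring
      have e3 : (q + 1) * q = q * q + q := by ring
      rw [e2] at b2
      rw [e3] at a1
      omega
    · rw [a3] at h5
      have e : A ^ 2 = 9 * (q * q) + 12 * q + 4 := by rw [hA]; ring
      rw [e, hA]
      have e2 : (2 * q + 1) * (2 * q + 2) = 4 * (q * q) + 6 * q + 2 := by ring
      have e3 : (q + 1) * q = q * q + q := by ring
      rw [e2] at a2
      rw [e3] at a1
      omega
  have h6 : (A ^ 2 + 12 * A) / 6 = A ^ 2 / 6 + 2 * A := by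
    rw [show A ^ 2 + 12 * A = A ^ 2 + 6 * (2 * A) by ring]
    rw [Nat.add_mul_div_left _ _ (by norm_num)]
  rw [← h6, Nat.le_div_iff_mul_le (by norm_num)]
  omega

/-! ### the determinant -/

variable {F : Type*} [Field F]

/-- `L` costs `c` per two degrees on binomial polynomials -/
def ShCost (R : Subring F) (p c g A : ℕ) (L : F[X] → F[X]) : Prop :=
  ∀ i < A, ∃ b : ℕ → F, (∀ e, (p : F) ^ (g + c * ((i - e) / 2)) * b e ∈ R) ∧
    L (QS2.binP F i) = ∑ e ∈ range A, C (b e) * QS2.binP F e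

variable [CharZero F]

theorem binP_mem (R : Subring F) (i : ℕ) (z : ℤ) : (QS2.binP F i).eval (z : F) ∈ R :=
  chK_int_mem R z i

/-- **the determinant at a small prime** -/
theorem smallP_design {R : Subring F} {p : ℕ} (c : Fin 2 → ℕ) (g A : ℕ)
    {ι : Type*} [Fintype ι] [DecidableEq ι] (z : ι → ℤ) (w0 w1 sg : ι → F) (cc : Fin 2 → F)
    (LA LB : Fin 2 → F[X] → F[X]) (hw0 : ∀ f, (p : F) ^ g * w0 f ∈ R)
    (hw1 : ∀ f, (p : F) ^ g * w1 f ∈ R) (hsg : ∀ f, sg f ∈ R) (hcc : ∀ j, cc j ∈ R)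
    (hLA : ∀ j, ShCost R p (c j) g A (LA j)) (hLB : ∀ j, ShCost R p (c j) g A (LB j))
    (M : Matrix ι (Fin A ⊕ Fin A) F)
    (hMl : ∀ f i, M f (Sum.inl i) = (QS2.binP F i).eval (z f : F) * w0 f +
      cc 0 * (LA 0 (QS2.binP F i)).eval (z f : F) +
      sg f * (cc 1 * (LA 1 (QS2.binP F i)).eval (z f : F)))
    (hMr : ∀ f i, M f (Sum.inr i) = (QS2.binP F i).eval (z f : F) * w1 f +
      cc 0 * (LB 0 (QS2.binP F i)).eval (z f : F) +
      sg f * (cc 1 * (LB 1 (QS2.binP F i)).eval (z f : F)))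
    (e : ι ≃ Fin A ⊕ Fin A) :
    (p : F) ^ (eSm (c 0 + c 1) g A) * (M.submatrix id e).det ∈ R := by
  classical
  have hpm : ∀ k : ℕ, (p : F) ^ k ∈ R := fun k => R.pow_mem (natCast_mem R p) k
  -- the coefficients
  choose bA hbA hbA' using hLA
  choose bB hbB hbB' using hLB
  set th := 2 * A / 3 with hth
  set cd : Fin 2 → (Fin A ⊕ Fin A) → ℕ → F := fun j s k => match s with
    | Sum.inl i => bA j i i.2 k
    | Sum.inr i => bB j i i.2 k with hcd
  set deg : (Fin A ⊕ Fin A) → ℕ := Sum.elim (fun i => (i : ℕ)) (fun i => (i : ℕ)) with hdeg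
  have hcdR : ∀ j s k, (p : F) ^ (g + c j * ((deg s - k) / 2)) * cd j s k ∈ R := by
    intro j s k
    rcases s with i | i
    · exact hbA j i i.2 k
    · exact hbB j i i.2 k
  set W : Matrix ι ι F := Matrix.of fun f t => match e t with
    | Sum.inl i => (QS2.binP F i).eval (z f : F) * w0 f
    | Sum.inr i => (QS2.binP F i).eval (z f : F) * w1 f with hW
  set N : Matrix ι (Fin 2 × Fin A) F := Matrix.of fun f u =>
    (if u.1 = 0 then 1 else sg f) * (QS2.binP F u.2).eval (z f : F) with hN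
  set Φ : Matrix (Fin 2 × Fin A) ι F := Matrix.of fun u t => cc u.1 * cd u.1 (e t) u.2 with hΦ
  set al : ι → ℕ := fun t => g + (c 0 + c 1) * ((deg (e t) - th + 1) / 2) with hal
  set be : Fin 2 × Fin A → ℕ := fun u => c u.1 * ((th - (u.2 : ℕ) + 1) / 2) with hbe
  have hdec : M.submatrix id e = W + N * Φ := by
    ext f t
    rw [Matrix.submatrix_apply, id_eq, Matrix.add_apply, Matrix.mul_apply,
      Fintype.sum_prod_type, Fin.sum_univ_two]
    simp only [hW, hN, hΦ, Matrix.of_apply, if_true, one_mul, Fin.isValue,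
      one_ne_zero, if_false]
    rcases hs : e t with i | i
    · rw [hMl, hbA' 0 i i.2, hbA' 1 i i.2]
      simp only [hcd, eval_finsetSum, eval_mul, eval_C]
      rw [← Fin.sum_univ_eq_sum_range (fun k => bA 0 i i.2 k * (QS2.binP F k).eval (z f : F)) A,
        ← Fin.sum_univ_eq_sum_range (fun k => bA 1 i i.2 k * (QS2.binP F k).eval (z f : F)) A,
        Finset.mul_sum, Finset.mul_sum, Finset.mul_sum, add_assoc]
      congr 1
      congr 1
      · exact Finset.sum_congr rfl fun k _ => by ring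
      · exact Finset.sum_congr rfl fun k _ => by ring
    · rw [hMr, hbB' 0 i i.2, hbB' 1 i i.2]
      simp only [hcd, eval_finsetSum, eval_mul, eval_C]
      rw [← Fin.sum_univ_eq_sum_range (fun k => bB 0 i i.2 k * (QS2.binP F k).eval (z f : F)) A,
        ← Fin.sum_univ_eq_sum_range (fun k => bB 1 i i.2 k * (QS2.binP F k).eval (z f : F)) A,
        Finset.mul_sum, Finset.mul_sum, Finset.mul_sum, add_assoc]
      congr 1
      congr 1
      · exact Finset.sum_congr rfl fun k _ => by ring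
      · exact Finset.sum_congr rfl fun k _ => by ring
  have hblock := det_block R (natCast_mem R p) W N Φ al be ?_ ?_ ?_
  · rw [← hdec] at hblock
    -- the exponents
    have hsum : (∑ t, al t) + ∑ u, be u ≤ eSm (c 0 + c 1) g A := by
      have e1 : ∑ t, al t = 2 * A * g + (c 0 + c 1) *
          (2 * ∑ i ∈ range A, (i - th + 1) / 2) := by
        rw [hal, Equiv.sum_comp e (fun s => g + (c 0 + c 1) * ((deg s - th + 1) / 2)),
          Fintype.sum_sum_type]
        simp only [hdeg, Sum.elim_inl, Sum.elim_inr]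
        rw [Fin.sum_univ_eq_sum_range (fun i => g + (c 0 + c 1) * ((i - th + 1) / 2)) A,
          Finset.sum_add_distrib, Finset.sum_const, Finset.card_range, smul_eq_mul,
          ← Finset.mul_sum]
        ring
      have e2 : ∑ u, be u = (c 0 + c 1) * ∑ k ∈ range A, (th - k + 1) / 2 := by
        rw [hbe, Fintype.sum_prod_type, Fin.sum_univ_two]
        simp only
        rw [Fin.sum_univ_eq_sum_range (fun k => c 0 * ((th - k + 1) / 2)) A,
          Fin.sum_univ_eq_sum_range (fun k => c 1 * ((th - k + 1) / 2)) A, ← Finset.mul_sum,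
          ← Finset.mul_sum]
        ring
      rw [e1, e2, add_assoc, ← Nat.mul_add, eSm, add_comm]
      exact Nat.add_le_add_right (Nat.mul_le_mul_left _ (sum_exp A)) _
    obtain ⟨k, hk⟩ := Nat.exists_eq_add_of_le hsum
    rw [hk, pow_add, mul_comm ((p : F) ^ _) ((p : F) ^ k), mul_assoc]
    exact R.mul_mem (hpm k) hblock
  · intro f t
    simp only [hW, Matrix.of_apply, hal]
    rw [pow_add]
    rcases e t with i | i
    · have h := R.mul_mem (R.mul_mem (hpm ((c 0 + c 1) * ((deg (Sum.inl i) - th + 1) / 2)))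
        (binP_mem R i (z f))) (hw0 f)
      convert h using 1
      ring
    · have h := R.mul_mem (R.mul_mem (hpm ((c 0 + c 1) * ((deg (Sum.inr i) - th + 1) / 2)))
        (binP_mem R i (z f))) (hw1 f)
      convert h using 1
      ring
  · intro f u
    simp only [hN, Matrix.of_apply]
    refine R.mul_mem ?_ (binP_mem R _ _)
    split_ifs
    · exact R.one_mem
    · exact hsg f
  · intro u t
    simp only [hΦ, Matrix.of_apply, hal, hbe]
    have hcj : c u.1 ≤ c 0 + c 1 := by
      rcases u with ⟨j, k⟩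
      fin_cases j
      · exact Nat.le_add_right _ _
      · exact Nat.le_add_left _ _
    have h1 : (deg (e t) - (u.2 : ℕ)) / 2 ≤ (th - (u.2 : ℕ) + 1) / 2 +
        (deg (e t) - th + 1) / 2 := by omega
    have h2 : g + c u.1 * ((deg (e t) - (u.2 : ℕ)) / 2) ≤ c u.1 * ((th - (u.2 : ℕ) + 1) / 2) +
        (g + (c 0 + c 1) * ((deg (e t) - th + 1) / 2)) := by
      have h3 := Nat.mul_le_mul_left (c u.1) h1
      rw [Nat.mul_add] at h3
      have h4 := Nat.mul_le_mul_right ((deg (e t) - th + 1) / 2) hcj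
      omega
    obtain ⟨k, hk⟩ := Nat.exists_eq_add_of_le h2
    rw [hk, pow_add]
    have h := R.mul_mem (R.mul_mem (hcdR u.1 (e t) u.2) (hcc u.1)) (hpm k)
    convert h using 1
    ring

end T2
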