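import Pool.Agent.T2.SmP2
import Pool.Agent.T2.SheetPP
import Pool.Agent.QS2.SmallPInst

/-!
# T2, small primes 3: the sheets, the design matrix over `K`, and the size of the exponents

* `kP`, `kM` : coefficients of the two sheets, `cP`, `cM` their costs;
* `smallP_K` : the determinant of `designM` at every prime;
* `eSm_log` : `eSm c g A log p` for `g = 4 log_p (A+2) + 4`.
-/

set_option autoImplicit false

namespace T2

open Polynomial Finset QS2SP

variable {F : Type*} [Field F]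

/-- coefficients of the `ζ(2)` sheet -/
noncomputable def kP (F : Type*) [Field F] (m : ℕ) : F := -(1 / 16) * (-1 / 8) ^ m * (fC m : F)
/-- coefficients of the `L(2, χ_{-3})` sheet -/
noncomputable def kM (F : Type*) [Field F] (m : ℕ) : F := -(1 / 18) * (-1 / 9) ^ m * (qC m : F)

/-- cost per two degrees of the `ζ(2)` sheet -/
def cP (p : ℕ) : ℕ := if p = 2 then 3 else 0
/-- cost per two degrees of the `L(2, χ_{-3})` sheet -/
def cM (p : ℕ) : ℕ := if p = 3 then 2 else 0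

theorem cP_two : cP 2 = 3 := rfl
theorem cM_two : cM 2 = 0 := rfl
theorem cP_three : cP 3 = 0 := rfl
theorem cM_three : cM 3 = 2 := rfl
theorem cP_of_ne {p : ℕ} (h : p ≠ 2) : cP p = 0 := if_neg h
theorem cM_of_ne {p : ℕ} (h : p ≠ 3) : cM p = 0 := if_neg h

section cost

variable [CharZero F] {R : Subring F} {p : ℕ}

omit [CharZero F] in
theorem neg_one_pow_mem (R : Subring F) (k : ℕ) : ((-1 : F)) ^ k ∈ R :=
  R.pow_mem (R.neg_mem R.one_mem) k

theorem kP_cost (hp : p.Prime) (hR : PLoc R p) (k : ℕ) :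
    (p : F) ^ (cP p * k + 4) * kP F k ∈ R := by
  by_cases h2 : p = 2
  · subst h2
    rw [cP_two]
    have h : ((2 : ℕ) : F) ^ (3 * k + 4) * kP F k = -((-1) ^ k * (fC k : F)) := by
      unfold kP
      rw [pow_add, pow_mul, div_pow]
      have h8 : ((8 : F)) ^ k ≠ 0 := pow_ne_zero _ (by norm_num)
      push_cast
      norm_num
      field_simp
    rw [h]
    exact R.neg_mem (R.mul_mem (neg_one_pow_mem R k) (natCast_mem R _))
  · rw [cP_of_ne h2, zero_mul, zero_add]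
    have hpow : ∀ j : ℕ, ¬ p ∣ 2 ^ j := fun j h =>
      h2 ((Nat.prime_dvd_prime_iff_eq hp Nat.prime_two).1 (hp.dvd_of_dvd_pow h))
    have h16 : (1 / 16 : F) ∈ R := by
      have := hR (2 ^ 4) (hpow 4)
      norm_num at this ⊢
      exact this
    have h8 : (1 / 8 : F) ∈ R := by
      have := hR (2 ^ 3) (hpow 3)
      norm_num at this ⊢
      exact this
    have h8' : (-1 / 8 : F) ∈ R := by
      rw [neg_div]
      exact R.neg_mem h8
    exact R.mul_mem (R.pow_mem (natCast_mem R p) 4)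
      (R.mul_mem (R.mul_mem (R.neg_mem h16) (R.pow_mem h8' k)) (natCast_mem R _))

theorem kM_cost (hp : p.Prime) (hR : PLoc R p) (k : ℕ) :
    (p : F) ^ (cM p * k + 4) * kM F k ∈ R := by
  by_cases h3 : p = 3
  · subst h3
    rw [cM_three]
    have h : ((3 : ℕ) : F) ^ (2 * k + 4) * kM F k = -(9 * (((2 : ℕ) : F)⁻¹ *
        ((-1) ^ k * (qC k : F)))) := by
      unfold kM
      rw [pow_add, pow_mul, div_pow]
      have h8 : ((9 : F)) ^ k ≠ 0 := pow_ne_zero _ (by norm_num)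
      push_cast
      norm_num
      field_simp
      ring
    rw [h]
    have h2 : (((2 : ℕ) : F)⁻¹) ∈ R := hR 2 (by norm_num)
    have h9 : (9 : F) ∈ R := by
      have := natCast_mem R 9
      simpa using this
    exact R.neg_mem (R.mul_mem h9 (R.mul_mem h2 (R.mul_mem (neg_one_pow_mem R k)
      (natCast_mem R _))))
  · rw [cM_of_ne h3, zero_mul, zero_add]
    have hpow : ∀ j : ℕ, ¬ p ∣ 3 ^ j := fun j h =>
      h3 ((Nat.prime_dvd_prime_iff_eq hp Nat.prime_three).1 (hp.dvd_of_dvd_pow h))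
    have h9 : (1 / 9 : F) ∈ R := by
      have := hR (3 ^ 2) (hpow 2)
      norm_num at this ⊢
      exact this
    have h9' : (-1 / 9 : F) ∈ R := by
      rw [neg_div]
      exact R.neg_mem h9
    -- `p^4 / 2` is integral
    have hhalf : (p : F) ^ 4 * (1 / 2) ∈ R := by
      by_cases h2 : p = 2
      · subst h2
        have : ((2 : ℕ) : F) ^ 4 * (1 / 2) = ((8 : ℕ) : F) := by norm_num
        rw [this]
        exact natCast_mem R 8
      · have h := hR 2 (fun h => h2 ((Nat.prime_dvd_prime_iff_eq hp Nat.prime_two).1 h))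
        refine R.mul_mem (R.pow_mem (natCast_mem R p) 4) ?_
        simpa using h
    have e : (p : F) ^ 4 * kM F k = -(((p : F) ^ 4 * (1 / 2)) * (1 / 9) * (-1 / 9) ^ k *
        (qC k : F)) := by
      unfold kM
      ring
    rw [e]
    exact R.neg_mem (R.mul_mem (R.mul_mem (R.mul_mem hhalf h9) (R.pow_mem h9' k))
      (natCast_mem R _))

/-! ### costs of the sheets -/

omit [CharZero F] in
theorem ShCost.of_coeff {c c0 g A : ℕ} {L : F[X] → F[X]} (hg : 4 * Nat.log p A + c0 ≤ g)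
    (h : ∀ i : ℕ, ∃ b : ℕ → F, (∀ e, i ≤ e → b e = 0) ∧
      (∀ e, (p : F) ^ (4 * Nat.log p i + c0 + c * ((i - e) / 2)) * b e ∈ R) ∧
      ∀ A, i ≤ A → L (QS2.binP F i) = ∑ e ∈ range A, C (b e) * QS2.binP F e) :
    ShCost R p c g A L := by
  intro i hi
  obtain ⟨b, _, h2, h3⟩ := h i
  refine ⟨b, fun e => ?_, h3 A hi.le⟩
  have h4 : 4 * Nat.log p i + c0 + c * ((i - e) / 2) ≤ g + c * ((i - e) / 2) := by
    have := Nat.log_mono_right (b := p) hi.le
    omega
  obtain ⟨k, hk⟩ := Nat.exists_eq_add_of_le h4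
  rw [hk, pow_add, mul_comm ((p : F) ^ _) ((p : F) ^ k), mul_assoc]
  exact R.mul_mem (R.pow_mem (natCast_mem R p) k) (h2 e)

omit [CharZero F] in
theorem ShCost.smul {c g A : ℕ} {L L' : F[X] → F[X]} (h : ShCost R p c g A L) {e : F}
    (he : e ∈ R) (hL : ∀ P, L' P = e • L P) : ShCost R p c g A L' := by
  intro i hi
  obtain ⟨b, h1, h2⟩ := h i hi
  refine ⟨fun k => e * b k, fun k => ?_, ?_⟩
  · rw [mul_left_comm]
    exact R.mul_mem he (h1 k)
  · rw [hL, h2, Finset.smul_sum]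
    refine Finset.sum_congr rfl fun k _ => ?_
    rw [Polynomial.smul_eq_C_mul, ← mul_assoc, ← C_mul]

theorem shCost_T (hp : p.Prime) (hR : PLoc R p) {κ : ℕ → F} {c c0 g A : ℕ}
    (hκ : ∀ k, (p : F) ^ (c * k + c0) * κ k ∈ R) (hg : 4 * Nat.log p A + c0 ≤ g) :
    ShCost R p c g A (fun P => QS2.pp (sumT κ) P) :=
  ShCost.of_coeff hg (fun i => act_sumT hp hR hκ i)

theorem shCost_T1 (hp : p.Prime) (hR : PLoc R p) {κ : ℕ → F} {c c0 g A : ℕ}
    (hκ : ∀ k, (p : F) ^ (c * k + c0) * κ k ∈ R) (hg : 4 * Nat.log p A + c0 ≤ g) :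
    ShCost R p c g A (fun P => QS2.pp (sumT1 κ) P) :=
  ShCost.of_coeff hg (fun i => act_sumT1 hp hR hκ i)

/-- **every prime**, general field: the matrix of the values and of the two sheets -/
theorem smallP_gen (hp : p.Prime) (hR : PLoc R p) (g A : ℕ) (hg : 4 * Nat.log p A + 4 ≤ g)
    {ι : Type*} [Fintype ι] [DecidableEq ι] (z : ι → ℤ) (w0 w1 sg : ι → F) (cc ee : Fin 2 → F)
    (hw0 : ∀ f, (p : F) ^ g * w0 f ∈ R) (hw1 : ∀ f, (p : F) ^ g * w1 f ∈ R)
    (hsg : ∀ f, sg f ∈ R) (hcc : ∀ j, cc j ∈ R) (hee : ∀ j, ee j ∈ R)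
    (M : Matrix ι (Fin A ⊕ Fin A) F)
    (hMl : ∀ f i, M f (Sum.inl i) = (QS2.binP F i).eval (z f : F) * w0 f +
      cc 0 * (QS2.pp (sumT (kP F)) (QS2.binP F i)).eval (z f : F) +
      sg f * (cc 1 * (QS2.pp (sumT (kM F)) (QS2.binP F i)).eval (z f : F)))
    (hMr : ∀ f i, M f (Sum.inr i) = (QS2.binP F i).eval (z f : F) * w1 f +
      cc 0 * (ee 0 • QS2.pp (sumT1 (kP F)) (QS2.binP F i)).eval (z f : F) +
      sg f * (cc 1 * (ee 1 • QS2.pp (sumT1 (kM F)) (QS2.binP F i)).eval (z f : F)))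
    (e : ι ≃ Fin A ⊕ Fin A) :
    (p : F) ^ (eSm (cP p + cM p) g A) * (M.submatrix id e).det ∈ R := by
  have h := smallP_design (R := R) (p := p) ![cP p, cM p] g A z w0 w1 sg cc
    ![fun P => QS2.pp (sumT (kP F)) P, fun P => QS2.pp (sumT (kM F)) P]
    ![fun P => ee 0 • QS2.pp (sumT1 (kP F)) P, fun P => ee 1 • QS2.pp (sumT1 (kM F)) P]
    hw0 hw1 hsg hcc ?_ ?_ M hMl hMr e
  · exact h
  · intro j
    fin_cases j
    · exact shCost_T hp hR (kP_cost hp hR) hg
    · exact shCost_T hp hR (kM_cost hp hR) hg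
  · intro j
    fin_cases j
    · exact (shCost_T1 hp hR (kP_cost hp hR) hg).smul (hee 0) (fun _ => rfl)
    · exact (shCost_T1 hp hR (kM_cost hp hR) hg).smul (hee 1) (fun _ => rfl)

end cost

/-! ### the design matrix over `K` -/

open QS2 in
/-- **every prime**, `designM` -/
theorem smallP_K {p : ℕ} [hp : Fact p.Prime] (g A : ℕ) (hg : 4 * Nat.log p A + 4 ≤ g)
    (w sg : ℤ → K) (cc ee : Fin 2 → K)
    (hw : ∀ z : ℤ, -2 - (A : ℤ) ≤ z → z ≤ (A : ℤ) + 1 → (p : K) ^ g * w z ∈ Op p)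
    (hsg : ∀ z, sg z ∈ Op p) (hcc : ∀ j, cc j ∈ Op p) (hee : ∀ j, ee j ∈ Op p)
    (f : Nd A ≃ Fin A ⊕ Fin A) :
    (p : K) ^ (eSm (cP p + cM p) g A) * ((designM w sg cc
      (LAs ![sumT (kP K), sumT (kM K)]) (LBs ee ![sumT1 (kP K), sumT1 (kM K)]) A).submatrix
        id f).det ∈ Op p := by
  have hnd : ∀ n : Nd A, -2 - (A : ℤ) ≤ nodeZ A n ∧ nodeZ A n ≤ (A : ℤ) := by
    intro n
    rcases n with i | i
    · have := i.2
      simp only [nodeZ]
      omega
    · have := i.2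
      simp only [nodeZ]
      omega
  refine smallP_gen (R := Op p) hp.out (ploc_Op p) g A hg (fun n => nodeZ A n)
    (fun n => w (nodeZ A n)) (fun n => w (nodeZ A n + 1)) (fun n => sg (nodeZ A n)) cc ee
    (fun n => hw _ (hnd n).1 (by have := (hnd n).2; omega))
    (fun n => hw _ (by have := (hnd n).1; omega) (by have := (hnd n).2; omega))
    (fun n => hsg _) hcc hee _ (fun n i => ?_) (fun n i => ?_) f
  · simp only [designM, LAs_apply, Matrix.cons_val_zero, Matrix.cons_val_one]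
  · simp only [designM, LBs_apply, Matrix.cons_val_zero, Matrix.cons_val_one]

/-! ### size of the exponents -/

theorem eSm_le (c g A : ℕ) : (eSm c g A : ℝ) ≤ c * ((A : ℝ) ^ 2 / 6 + 2 * A) + 2 * A * g := by
  unfold eSm
  have h : ((A ^ 2 / 6 : ℕ) : ℝ) ≤ (A : ℝ) ^ 2 / 6 := by
    have := Nat.cast_div_le (α := ℝ) (m := A ^ 2) (n := 6)
    push_cast at this
    exact this
  push_cast
  have hc : (0 : ℝ) ≤ c := Nat.cast_nonneg c
  nlinarith [mul_le_mul_of_nonneg_left h hc]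

/-- `g = 4 log_p (A+2) + 4` -/
theorem eSm_log {p A : ℕ} (hp : 2 ≤ p) (hpA : p ≤ A + 2) (c : ℕ) :
    (eSm c (4 * Nat.log p (A + 2) + 4) A : ℝ) * Real.log p ≤
      c * Real.log p / 6 * (A : ℝ) ^ 2 + 2 * c * Real.log p * A +
        16 * A * Real.log ((A : ℝ) + 2) := by
  have hp1 : (1 : ℝ) < p := by exact_mod_cast (by omega : 1 < p)
  have hlp : 0 ≤ Real.log p := Real.log_nonneg hp1.le
  have hA0 : (0 : ℝ) ≤ A := Nat.cast_nonneg A
  have h1 := mul_le_mul_of_nonneg_right (eSm_le c (4 * Nat.log p (A + 2) + 4) A) hlp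
  have h2 : (Nat.log p (A + 2) : ℝ) * Real.log p ≤ Real.log ((A : ℝ) + 2) := by
    have h3 : p ^ Nat.log p (A + 2) ≤ A + 2 := Nat.pow_log_le_self p (by omega)
    have h4 : ((p : ℝ)) ^ Nat.log p (A + 2) ≤ (A : ℝ) + 2 := by exact_mod_cast h3
    have h5 := Real.log_le_log (by positivity) h4
    rwa [Real.log_pow] at h5
  have h3 : Real.log p ≤ Real.log ((A : ℝ) + 2) := by
    apply Real.log_le_log (by linarith)
    exact_mod_cast hpA
  push_cast at h1
  have h4 := mul_le_mul_of_nonneg_left h2 hA0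
  have h5 := mul_le_mul_of_nonneg_left h3 hA0
  nlinarith

end T2
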