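import Pool.Agent.T2.SmP4
import Pool.Agent.T2.DesignC

/-!
# T2, small primes 5: the concrete determinant `detC` at every prime
-/

set_option autoImplicit false

namespace T2

open QS2

variable {p : ℕ} [hp : Fact p.Prime]

/-- every prime `p`, every choice of rows -/
theorem smallP_C (x : Fin 4 → ℤ) {A c : ℕ} (hc : c ≤ A) (e : Fin c ⊕ Fin c → Nd A) :
    (p : ℚ) ^ (eS p A) * detC x A c e ∈ Zp p :=
  detQ_small x hc e

theorem smallP_C_norm (x : Fin 4 → ℤ) {A c : ℕ} (hc : c ≤ A) (e : Fin c ⊕ Fin c → Nd A) :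
    padicNorm p ((p : ℚ) ^ (eS p A) * detC x A c e) ≤ 1 :=
  mem_Zp.1 (smallP_C x hc e)

end T2
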